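import Mathlib

/-!
# Explicit Mertens type estimates: certificates (helper46)

`A N = ∑_{n ≤ N} Λ n / n`.  A certificate is a finite combination of `log (⌊q N / a⌋ !)`.
-/

set_option autoImplicit false

namespace Pool.Agent.EZ

open Finset ArithmeticFunction
open scoped Nat

noncomputable section

/-- `A N = ∑_{n ≤ N} Λ n / n`. -/
def A (N : ℕ) : ℝ := ∑ n ∈ Icc 1 N, vonMangoldt n / n

/-- `psiN N = ∑_{n ≤ N} Λ n`. -/
def psiN (N : ℕ) : ℝ := ∑ n ∈ Icc 1 N, vonMangoldt n

/-- `log N!`. -/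
def logFac (N : ℕ) : ℝ := Real.log (N ! : ℝ)

theorem psiN_nonneg (N : ℕ) : 0 ≤ psiN N :=
  Finset.sum_nonneg fun _ _ => vonMangoldt_nonneg

theorem psiN_mono : Monotone psiN := by
  intro a b h
  exact Finset.sum_le_sum_of_subset_of_nonneg (Finset.Icc_subset_Icc_right h)
    fun _ _ _ => vonMangoldt_nonneg

theorem A_mono : Monotone A := by
  intro a b h
  exact Finset.sum_le_sum_of_subset_of_nonneg (Finset.Icc_subset_Icc_right h)
    fun _ _ _ => div_nonneg vonMangoldt_nonneg (Nat.cast_nonneg _)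

theorem logFac_succ (N : ℕ) : logFac (N + 1) = logFac N + Real.log ((N : ℝ) + 1) := by
  unfold logFac
  rw [Nat.factorial_succ, Nat.cast_mul, Real.log_mul (by positivity) (by positivity)]
  push_cast
  ring

/-- The number of multiples of `n` in `[1, N]`, as a telescoping identity. -/
theorem logFac_eq (N : ℕ) : logFac N = ∑ n ∈ Icc 1 N, vonMangoldt n * ((N / n : ℕ) : ℝ) := by
  induction N with
  | zero => simp [logFac]
  | succ N ih =>
    rw [logFac_succ, ih]
    have h1 : Real.log ((N : ℝ) + 1) = ∑ n ∈ (N + 1).divisors, vonMangoldt n := by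
      rw [vonMangoldt_sum]
      push_cast
      rfl
    have h2 : (N + 1).divisors = (Icc 1 (N + 1)).filter fun n => n ∣ N + 1 := by
      ext n
      simp only [Nat.mem_divisors, mem_filter, mem_Icc]
      constructor
      · rintro ⟨h, -⟩
        exact ⟨⟨Nat.pos_of_dvd_of_pos h (Nat.succ_pos N), Nat.le_of_dvd (Nat.succ_pos N) h⟩, h⟩
      · rintro ⟨-, h⟩
        exact ⟨h, Nat.succ_ne_zero N⟩
    rw [h1, h2, Finset.sum_filter]
    have h3 : ∑ n ∈ Icc 1 N, vonMangoldt n * ((N / n : ℕ) : ℝ)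
        = ∑ n ∈ Icc 1 (N + 1), vonMangoldt n * ((N / n : ℕ) : ℝ) := by
      rw [Finset.sum_Icc_succ_top (by omega)]
      rw [Nat.div_eq_of_lt (Nat.lt_succ_self N)]
      simp
    rw [h3, ← Finset.sum_add_distrib]
    refine Finset.sum_congr rfl fun n hn => ?_
    rw [Nat.succ_div]
    split_ifs with h
    · push_cast
      ring
    · simp

/-- Extended range. -/
theorem logFac_eq_of_le {M N : ℕ} (h : M ≤ N) :
    logFac M = ∑ n ∈ Icc 1 N, vonMangoldt n * ((M / n : ℕ) : ℝ) := by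
  rw [logFac_eq]
  refine Finset.sum_subset (Finset.Icc_subset_Icc_right h) fun n hn hn' => ?_
  rw [mem_Icc] at hn hn'
  have : M < n := by
    by_contra hcon
    exact hn' ⟨hn.1, by omega⟩
  rw [Nat.div_eq_of_lt this]
  simp

theorem psiN_eq_of_le {M N : ℕ} (h : M ≤ N) :
    psiN M = ∑ n ∈ Icc 1 N, vonMangoldt n * (if n ≤ M then 1 else 0) := by
  unfold psiN
  simp only [mul_ite, mul_one, mul_zero]
  rw [← Finset.sum_filter]
  refine Finset.sum_congr ?_ fun _ _ => rfl
  ext n
  simp only [mem_Icc, mem_filter]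
  omega

variable {ι κ : Type*}

/-- Upper certificate. -/
theorem upper_cert (q : ℕ) (hq : 0 < q) (J : Finset ι) (a : ι → ℕ) (c : ι → ℝ)
    (ha : ∀ j ∈ J, q ≤ a j) (K : Finset κ) (y : κ → ℕ) (s : κ → ℝ) (hy : ∀ k ∈ K, q ≤ y k)
    (H : ∀ i : ℕ, q ≤ i → ((i : ℝ) + 1) / q ≤ ∑ j ∈ J, c j * ((i / a j : ℕ) : ℝ)
      + ∑ k ∈ K, s k * (if y k ≤ i then 1 else 0)) (N : ℕ) :
    N * A N ≤ ∑ j ∈ J, c j * logFac (q * N / a j) + ∑ k ∈ K, s k * psiN (q * N / y k) := by
  have e1 : ∑ j ∈ J, c j * logFac (q * N / a j)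
      = ∑ n ∈ Icc 1 N, vonMangoldt n * ∑ j ∈ J, c j * (((q * N / n) / a j : ℕ) : ℝ) := by
    have : ∀ j ∈ J, c j * logFac (q * N / a j)
        = ∑ n ∈ Icc 1 N, vonMangoldt n * (c j * (((q * N / n) / a j : ℕ) : ℝ)) := by
      intro j hj
      have hle : q * N / a j ≤ N := by
        apply Nat.div_le_of_le_mul
        exact Nat.mul_le_mul_right N (ha j hj)
      rw [logFac_eq_of_le hle, Finset.mul_sum]
      refine Finset.sum_congr rfl fun n _ => ?_
      rw [Nat.div_div_eq_div_mul, Nat.div_div_eq_div_mul, mul_comm (a j) n]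
      ring
    rw [Finset.sum_congr rfl this, Finset.sum_comm]
    refine Finset.sum_congr rfl fun n _ => ?_
    rw [Finset.mul_sum]
  have e2 : ∑ k ∈ K, s k * psiN (q * N / y k)
      = ∑ n ∈ Icc 1 N, vonMangoldt n * ∑ k ∈ K, s k * (if y k ≤ q * N / n then 1 else 0) := by
    have : ∀ k ∈ K, s k * psiN (q * N / y k)
        = ∑ n ∈ Icc 1 N, vonMangoldt n * (s k * (if y k ≤ q * N / n then 1 else 0)) := by
      intro k hk
      have hyk : 0 < y k := lt_of_lt_of_le hq (hy k hk)
      have hle : q * N / y k ≤ N := by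
        apply Nat.div_le_of_le_mul
        exact Nat.mul_le_mul_right N (hy k hk)
      rw [psiN_eq_of_le hle, Finset.mul_sum]
      refine Finset.sum_congr rfl fun n hn => ?_
      rw [mem_Icc] at hn
      have hiff : n ≤ q * N / y k ↔ y k ≤ q * N / n := by
        rw [Nat.le_div_iff_mul_le hyk, Nat.le_div_iff_mul_le (by omega), mul_comm]
      simp only [hiff]
      ring
    rw [Finset.sum_congr rfl this, Finset.sum_comm]
    refine Finset.sum_congr rfl fun n _ => ?_
    rw [Finset.mul_sum]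
  rw [e1, e2, ← Finset.sum_add_distrib]
  unfold A
  rw [Finset.mul_sum]
  refine Finset.sum_le_sum fun n hn => ?_
  rw [mem_Icc] at hn
  rw [← mul_add]
  have hn0 : (0 : ℝ) < n := by exact_mod_cast hn.1
  have hq0 : (0 : ℝ) < q := by exact_mod_cast hq
  have hi : q ≤ q * N / n := by
    rw [Nat.le_div_iff_mul_le hn.1]
    exact Nat.mul_le_mul_left q hn.2
  have h1 := H (q * N / n) hi
  have h2 : (N : ℝ) / n ≤ (((q * N / n : ℕ) : ℝ) + 1) / q := by
    rw [div_le_div_iff₀ hn0 hq0]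
    have h3 : q * N < n * (q * N / n + 1) := Nat.lt_mul_div_succ (q * N) hn.1
    have h4 : ((q * N : ℕ) : ℝ) < ((n * (q * N / n + 1) : ℕ) : ℝ) := by exact_mod_cast h3
    push_cast at h4 ⊢
    nlinarith
  have h5 : (N : ℝ) * (vonMangoldt n / n) = vonMangoldt n * (N / n) := by ring
  rw [h5]
  exact mul_le_mul_of_nonneg_left (h2.trans h1) vonMangoldt_nonneg

/-- Lower certificate. -/
theorem lower_cert (q : ℕ) (hq : 0 < q) (J : Finset ι) (a : ι → ℕ) (c : ι → ℝ)
    (ha : ∀ j ∈ J, q ≤ a j) (K : Finset κ) (y : κ → ℕ) (s : κ → ℝ) (hy : ∀ k ∈ K, q ≤ y k)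
    (H : ∀ i : ℕ, q ≤ i → ∑ j ∈ J, c j * ((i / a j : ℕ) : ℝ)
      ≤ (i : ℝ) / q + ∑ k ∈ K, s k * (if y k ≤ i then 1 else 0)) (N : ℕ) :
    ∑ j ∈ J, c j * logFac (q * N / a j) ≤ N * A N + ∑ k ∈ K, s k * psiN (q * N / y k) := by
  have e1 : ∑ j ∈ J, c j * logFac (q * N / a j)
      = ∑ n ∈ Icc 1 N, vonMangoldt n * ∑ j ∈ J, c j * (((q * N / n) / a j : ℕ) : ℝ) := by
    have : ∀ j ∈ J, c j * logFac (q * N / a j)
        = ∑ n ∈ Icc 1 N, vonMangoldt n * (c j * (((q * N / n) / a j : ℕ) : ℝ)) := by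
      intro j hj
      have hle : q * N / a j ≤ N := by
        apply Nat.div_le_of_le_mul
        exact Nat.mul_le_mul_right N (ha j hj)
      rw [logFac_eq_of_le hle, Finset.mul_sum]
      refine Finset.sum_congr rfl fun n _ => ?_
      rw [Nat.div_div_eq_div_mul, Nat.div_div_eq_div_mul, mul_comm (a j) n]
      ring
    rw [Finset.sum_congr rfl this, Finset.sum_comm]
    refine Finset.sum_congr rfl fun n _ => ?_
    rw [Finset.mul_sum]
  have e2 : ∑ k ∈ K, s k * psiN (q * N / y k)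
      = ∑ n ∈ Icc 1 N, vonMangoldt n * ∑ k ∈ K, s k * (if y k ≤ q * N / n then 1 else 0) := by
    have : ∀ k ∈ K, s k * psiN (q * N / y k)
        = ∑ n ∈ Icc 1 N, vonMangoldt n * (s k * (if y k ≤ q * N / n then 1 else 0)) := by
      intro k hk
      have hyk : 0 < y k := lt_of_lt_of_le hq (hy k hk)
      have hle : q * N / y k ≤ N := by
        apply Nat.div_le_of_le_mul
        exact Nat.mul_le_mul_right N (hy k hk)
      rw [psiN_eq_of_le hle, Finset.mul_sum]
      refine Finset.sum_congr rfl fun n hn => ?_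
      rw [mem_Icc] at hn
      have hiff : n ≤ q * N / y k ↔ y k ≤ q * N / n := by
        rw [Nat.le_div_iff_mul_le hyk, Nat.le_div_iff_mul_le (by omega), mul_comm]
      simp only [hiff]
      ring
    rw [Finset.sum_congr rfl this, Finset.sum_comm]
    refine Finset.sum_congr rfl fun n _ => ?_
    rw [Finset.mul_sum]
  rw [e1, e2]
  unfold A
  rw [Finset.mul_sum, ← Finset.sum_add_distrib]
  refine Finset.sum_le_sum fun n hn => ?_
  rw [mem_Icc] at hn
  have hn0 : (0 : ℝ) < n := by exact_mod_cast hn.1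
  have hq0 : (0 : ℝ) < q := by exact_mod_cast hq
  have hi : q ≤ q * N / n := by
    rw [Nat.le_div_iff_mul_le hn.1]
    exact Nat.mul_le_mul_left q hn.2
  have h1 := H (q * N / n) hi
  have h2 : ((q * N / n : ℕ) : ℝ) / q ≤ (N : ℝ) / n := by
    rw [div_le_div_iff₀ hq0 hn0]
    have h3 : (q * N / n) * n ≤ q * N := Nat.div_mul_le_self _ _
    have h4 : (((q * N / n) * n : ℕ) : ℝ) ≤ ((q * N : ℕ) : ℝ) := by exact_mod_cast h3
    push_cast at h4 ⊢
    linarith
  have h5 : (N : ℝ) * (vonMangoldt n / n) = vonMangoldt n * (N / n) := by ring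
  rw [h5, ← mul_add]
  exact mul_le_mul_of_nonneg_left (h1.trans (by linarith)) vonMangoldt_nonneg

/-- Stirling type bounds, real variable. -/
theorem logFac_upper (N : ℕ) (hN : 1 ≤ N) :
    logFac N ≤ N * Real.log N - N + 1 + Real.log N := by
  induction N, hN using Nat.le_induction with
  | base => simp [logFac]
  | succ n hn ih =>
    rw [logFac_succ]
    have hn0 : (0 : ℝ) < n := by exact_mod_cast hn
    -- need: n log n - n + 1 + log n + log (n+1) <= (n+1) log (n+1) - (n+1) + 1 + log (n+1)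
    -- i.e. (n+1) log n + 1 <= (n+1) log (n+1), i.e. log (1+1/n) >= 1/(n+1)
    have h1 : 1 - ((n : ℝ) + 1)⁻¹ * n ≤ - Real.log (n / (n + 1)) := by
      have := Real.log_le_sub_one_of_pos (x := (n : ℝ) / (n + 1)) (by positivity)
      have h2 : (n : ℝ) / (n + 1) = ((n : ℝ) + 1)⁻¹ * n := by ring
      rw [h2] at this ⊢
      linarith
    rw [Real.log_div (by positivity) (by positivity)] at h1
    have h3 : (1 - ((n : ℝ) + 1)⁻¹ * n) * (n + 1) = 1 := by
      field_simp
      ring
    have h4 : 1 ≤ (-(Real.log n - Real.log (n + 1))) * ((n : ℝ) + 1) := by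
      calc (1 : ℝ) = (1 - ((n : ℝ) + 1)⁻¹ * n) * (n + 1) := h3.symm
        _ ≤ _ := mul_le_mul_of_nonneg_right h1 (by positivity)
    push_cast
    nlinarith

theorem logFac_lower (N : ℕ) (hN : 1 ≤ N) :
    N * Real.log N - N + 1 ≤ logFac N := by
  induction N, hN using Nat.le_induction with
  | base => simp [logFac]
  | succ n hn ih =>
    rw [logFac_succ]
    have hn0 : (0 : ℝ) < n := by exact_mod_cast hn
    -- need (n+1) log(n+1) - n <= n log n - n + 1 + log (n+1), i.e. n (log (n+1) - log n) <= 1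
    have h1 : Real.log ((n + 1) / n) ≤ ((n : ℝ) + 1) / n - 1 :=
      Real.log_le_sub_one_of_pos (by positivity)
    rw [Real.log_div (by positivity) (by positivity)] at h1
    have h3 : (((n : ℝ) + 1) / n - 1) * n = 1 := by
      field_simp
      ring
    have h4 : (Real.log (n + 1) - Real.log n) * n ≤ 1 := by
      calc _ ≤ (((n : ℝ) + 1) / n - 1) * n := mul_le_mul_of_nonneg_right h1 hn0.le
        _ = 1 := h3
    push_cast
    nlinarith

/-- `log ⌊x⌋!` for real `x ≥ 1`: within `log x` of `x log x - x + 1`. -/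
theorem logFac_floor_upper (x : ℝ) (hx : 1 ≤ x) :
    logFac ⌊x⌋₊ ≤ x * Real.log x - x + 1 + Real.log x := by
  have hx0 : 0 < x := by linarith
  have hN : 1 ≤ ⌊x⌋₊ := (Nat.one_le_floor_iff x).2 hx
  have h1 := logFac_upper ⌊x⌋₊ hN
  have h2 : (⌊x⌋₊ : ℝ) ≤ x := Nat.floor_le hx0.le
  set m : ℝ := (⌊x⌋₊ : ℝ) with hm
  have hm1 : (1 : ℝ) ≤ m := by rw [hm]; exact_mod_cast hN
  have hlog : Real.log m ≤ Real.log x := Real.log_le_log (by linarith) h2
  -- m log m - m <= x log x - x
  have h3 : m * Real.log m - m ≤ x * Real.log x - x := by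
    -- log m <= log x and m log (x/m) >= ... use x log x - x - (m log m - m) = (x-m) log x + m (log x - log m) - (x - m)
    have h4 : Real.log m - Real.log x ≤ m / x - 1 := by
      have := Real.log_le_sub_one_of_pos (x := m / x) (by positivity)
      rwa [Real.log_div (by positivity) (by positivity)] at this
    have h5 : Real.log x - Real.log m ≤ x / m - 1 := by
      have := Real.log_le_sub_one_of_pos (x := x / m) (by positivity)
      rwa [Real.log_div (by positivity) (by positivity)] at this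
    have h6 : 0 ≤ Real.log m := Real.log_nonneg hm1
    -- x(log x - log m) >= x - m
    have h7 : x - m ≤ x * (Real.log x - Real.log m) := by
      have : x * (m / x - 1) = m - x := by field_simp
      nlinarith [mul_le_mul_of_nonneg_left h4 hx0.le]
    nlinarith [mul_nonneg (sub_nonneg.2 h2) h6]
  linarith

theorem logFac_floor_lower (x : ℝ) (hx : 1 ≤ x) :
    x * Real.log x - x + 1 - Real.log x ≤ logFac ⌊x⌋₊ := by
  have hx0 : 0 < x := by linarith
  have hN : 1 ≤ ⌊x⌋₊ := (Nat.one_le_floor_iff x).2 hx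
  have h1 := logFac_lower ⌊x⌋₊ hN
  have h2 : (⌊x⌋₊ : ℝ) ≤ x := Nat.floor_le hx0.le
  have h2' : x < (⌊x⌋₊ : ℝ) + 1 := Nat.lt_floor_add_one x
  set m : ℝ := (⌊x⌋₊ : ℝ) with hm
  have hm1 : (1 : ℝ) ≤ m := by rw [hm]; exact_mod_cast hN
  have hlog : Real.log m ≤ Real.log x := Real.log_le_log (by linarith) h2
  have h5 : Real.log x - Real.log m ≤ x / m - 1 := by
    have := Real.log_le_sub_one_of_pos (x := x / m) (by positivity)
    rwa [Real.log_div (by positivity) (by positivity)] at this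
  -- x log x - x - (m log m - m) = (x-m) log x + m (log x - log m) - (x-m) <= (x - m) log x <= log x
  have h6 : m * (Real.log x - Real.log m) ≤ x - m := by
    have : m * (x / m - 1) = x - m := by field_simp
    nlinarith [mul_le_mul_of_nonneg_left h5 (by linarith : (0:ℝ) ≤ m)]
  have h7 : 0 ≤ Real.log x := Real.log_nonneg hx
  nlinarith [mul_nonneg (by linarith : (0:ℝ) ≤ m + 1 - x) h7]

/-- natural division version -/
theorem logFac_div_upper (m a : ℕ) (ha : 0 < a) (h : a ≤ m) :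
    logFac (m / a) ≤ ((m : ℝ) / a) * Real.log ((m : ℝ) / a) - (m : ℝ) / a + 1
      + Real.log ((m : ℝ) / a) := by
  have h1 : (m / a : ℕ) = ⌊(m : ℝ) / a⌋₊ := (Nat.floor_div_eq_div (K := ℝ) m a).symm
  rw [h1]
  apply logFac_floor_upper
  rw [le_div_iff₀ (by exact_mod_cast ha)]
  rw [one_mul]
  exact_mod_cast h

theorem logFac_div_lower (m a : ℕ) (ha : 0 < a) (h : a ≤ m) :
    ((m : ℝ) / a) * Real.log ((m : ℝ) / a) - (m : ℝ) / a + 1 - Real.log ((m : ℝ) / a)
      ≤ logFac (m / a) := by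
  have h1 : (m / a : ℕ) = ⌊(m : ℝ) / a⌋₊ := (Nat.floor_div_eq_div (K := ℝ) m a).symm
  rw [h1]
  apply logFac_floor_lower
  rw [le_div_iff₀ (by exact_mod_cast ha)]
  rw [one_mul]
  exact_mod_cast h

end

end Pool.Agent.EZ
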