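import Pool.Agent.EZ.Specs

/-!
# Common facts for the accounts of the large primes and of the proper powers
-/

set_option autoImplicit false
set_option linter.unusedSectionVars false

namespace Pool.Agent.EZ.Acc

open Finset

theorem summable_tail {p : ℕ} (hp : p.Prime) (e : ℕ) :
    Summable (fun i : ℕ => hh ((p : ℝ) ^ (e + 1 + i))) := by
  have h := (summable_nat_add_iff e).2 (summable_hh_pow hp)
  refine h.congr fun i => ?_
  congr 2
  omega

theorem hh_pow_nonneg {p : ℕ} (hp : p.Prime) (k : ℕ) : 0 ≤ hh ((p : ℝ) ^ k) := by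
  apply hh_nonneg
  exact one_le_pow₀ (by exact_mod_cast hp.one_lt.le)

theorem hh_pow_pos {p : ℕ} (hp : p.Prime) {k : ℕ} (hk : k ≠ 0) : 0 < hh ((p : ℝ) ^ k) := by
  have h1 : (1 : ℝ) < p := by exact_mod_cast hp.one_lt
  have h2 : (1 : ℝ) < (p : ℝ) ^ k := one_lt_pow₀ h1 hk
  have h3 := Real.log_pos h2
  unfold hh
  positivity

theorem sum_tail_le {p : ℕ} (hp : p.Prime) (e K : ℕ) :
    ∑ i ∈ range K, hh ((p : ℝ) ^ (e + 1 + i)) ≤ Tz p e :=
  (summable_tail hp e).sum_le_tsum _ fun _ _ => hh_pow_nonneg hp _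

theorem Tz_pos {p : ℕ} (hp : p.Prime) (e : ℕ) : 0 < Tz p e := by
  have h := sum_tail_le hp e 1
  rw [Finset.sum_range_one] at h
  have := hh_pow_pos hp (k := e + 1 + 0) (by omega)
  linarith

/-- ratio of two values -/
theorem hh_pow_ratio {p : ℕ} (hp : p.Prime) {e : ℕ} (he : e ≠ 0) (i : ℕ) :
    hh ((p : ℝ) ^ (e + i)) = hh ((p : ℝ) ^ e) * ((e : ℝ) / ((e + i : ℕ) : ℝ)) / (p : ℝ) ^ i := by
  have h1 : (1 : ℝ) < p := by exact_mod_cast hp.one_lt
  have h3 := Real.log_pos h1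
  have h0 : (0 : ℝ) < e := by exact_mod_cast Nat.pos_of_ne_zero he
  unfold hh
  rw [Real.log_pow, Real.log_pow, pow_add]
  have : (0 : ℝ) < ((e + i : ℕ) : ℝ) := by push_cast; positivity
  field_simp

theorem Tz_ge_first {p : ℕ} (hp : p.Prime) {e : ℕ} (he : e ≠ 0) :
    hh ((p : ℝ) ^ e) * ((e : ℝ) / (e + 1)) / p ≤ Tz p e := by
  have h := sum_tail_le hp e 1
  rw [Finset.sum_range_one] at h
  have h2 := hh_pow_ratio hp he 1
  rw [pow_one] at h2
  push_cast at h2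
  rw [← h2]
  exact h

/-- the elementary inequality behind the accounts -/
theorem acc_real {h T κ A c L a : ℝ} (hT : 0 < T) (hh0 : 0 < h) (ha : 0 ≤ a) (ha1 : a ≤ 1)
    (hc : 0 < c) (hL : 0 < L) (hA0 : 0 ≤ A) (hA : A < 1) (hκ0 : 0 < κ) (hκ : κ < 1)
    (hμ1 : 1.2 * L * c * h ≤ A * (1 - A) * T) (hμ2 : 1.2 * L * c * h ≤ κ * (1 - κ) * T) :
    min (κ * T) (c * h * a) + T * min A (1.2 * phi L a) ≤ T := by
  by_cases h1 : c * h * a ≤ (1 - A) * T
  · have h2 : min (κ * T) (c * h * a) ≤ (1 - A) * T := (min_le_right _ _).trans h1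
    have h3 : T * min A (1.2 * phi L a) ≤ T * A := mul_le_mul_of_nonneg_left (min_le_left _ _) hT.le
    nlinarith
  rw [not_le] at h1
  have ha0 : 0 < a := by
    rcases ha.eq_or_lt with h2 | h2
    · rw [← h2] at h1
      nlinarith
    · exact h2
  have hphi : phi L a ≤ L / a := by
    unfold phi
    have e1 : 0 ≤ 1 - a := by linarith
    have e2 : 0 < a + L * (1 - a) := by positivity
    rw [div_le_div_iff₀ e2 ha0]
    nlinarith [mul_nonneg (mul_nonneg hL.le hL.le) e1, mul_nonneg hL.le ha0.le,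
      mul_nonneg (mul_nonneg hL.le ha0.le) ha0.le]
  -- s = c h a / T
  set s : ℝ := c * h * a / T with hs
  have hsT : s * T = c * h * a := by rw [hs]; field_simp
  have hs1 : 1 - A < s := by
    rw [hs, lt_div_iff₀ hT]; exact h1
  have hs0 : 0 < s := by linarith
  set μ : ℝ := 1.2 * L * c * h / T with hμ
  have hμT : μ * T = 1.2 * L * c * h := by rw [hμ]; field_simp
  have hm1 : μ ≤ A * (1 - A) := by
    rw [hμ, div_le_iff₀ hT]; exact hμ1
  have hm2 : μ ≤ κ * (1 - κ) := by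
    rw [hμ, div_le_iff₀ hT]; exact hμ2
  have hμ0 : 0 < μ := by rw [hμ]; positivity
  have hLa : 1.2 * (L / a) = μ / s := by
    rw [hμ, hs]; field_simp
  have h4 : T * min A (1.2 * phi L a) ≤ T * (μ / s) := by
    refine mul_le_mul_of_nonneg_left ((min_le_right _ _).trans ?_) hT.le
    rw [← hLa]; linarith
  have h5 : min (κ * T) (c * h * a) ≤ T * min κ s := by
    rw [← hsT, mul_comm κ T, mul_comm s T, ← mul_min_of_nonneg _ _ hT.le]
  have h6 : min κ s + μ / s ≤ 1 := by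
    have h7 : min κ s * s + μ ≤ s := by
      rcases le_total s κ with hsκ | hsκ
      · rw [min_eq_right hsκ]
        rcases le_total A κ with hAκ | hAκ
        · nlinarith [mul_nonneg (sub_nonneg.2 hs1.le) (sub_nonneg.2 hsκ)]
        · nlinarith [mul_nonneg (sub_nonneg.2 hs1.le) (sub_nonneg.2 hsκ)]
      · rw [min_eq_left hsκ]
        nlinarith
    rw [← sub_nonneg]
    have : 1 - (min κ s + μ / s) = (s - (min κ s * s + μ)) / s := by field_simp
    rw [this]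
    exact div_nonneg (by linarith) hs0.le
  calc min (κ * T) (c * h * a) + T * min A (1.2 * phi L a)
      ≤ T * min κ s + T * (μ / s) := add_le_add h5 h4
    _ = T * (min κ s + μ / s) := by ring
    _ ≤ T * 1 := mul_le_mul_of_nonneg_left h6 hT.le
    _ = T := mul_one T

/-- the hitting probability of an intersecting family -/
theorem hit_le {x : ℕ} {VS : Finset ℕ} {M : Finset (Finset ℕ)} (hVS : ∀ v ∈ VS, IsPrimePow v)
    (hM : Inter Nat.minFac (↑M : Set (Finset ℕ))) {ω : ℝ} (h0 : 0 ≤ ω) (hω : ω ≤ 1 / 2)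
    (h : ∀ r, ∑ v ∈ VS.filter (fun v => v.minFac = r), Sx x v / (v : ℝ) ≤ ω) :
    hit x VS M ≤ ω := by
  refine PU_le_of_inter Nat.minFac VS (Sx x) _ (fun w _ => Sx_nonneg x w)
    (fun w hw => by exact_mod_cast (hVS w hw).one_lt) ω h0 hω (fun r => ?_) _ hM
  have h1 := Real.add_one_le_exp (-∑ v ∈ VS.filter (fun v => v.minFac = r), Sx x v / (v : ℝ))
  have h2 := h r
  linarith

/-- intersecting families, from the linear bound -/
theorem TOPB_of_LINB {z x : ℕ} {l ω : ℝ} (hz : 1 ≤ z) (hl : 0 ≤ l) (h : LINB z x l) (h0 : 0 ≤ ω)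
    (hω : ω ≤ 1 / 2)
    (hcap : ∀ VS : Finset ℕ, (∀ v ∈ VS, IsPrimePow v) → ∀ r,
      ∑ v ∈ VS.filter (fun v => v.minFac = r), Sx x v / (v : ℝ) ≤ ω) : TOPB z x (l * ω) := by
  intro M hM hI
  have hVS : ∀ v ∈ M.biUnion id, IsPrimePow v := by
    intro v hv
    obtain ⟨m, hm, hvm⟩ := Finset.mem_biUnion.1 hv
    exact ((hM.2.2 m hm).2 v hvm).1
  have h1 := h M hM (M.biUnion id) hVS fun m hm => Finset.subset_biUnion_of_mem id hm
  have h2 := hit_le hVS hI h0 hω (hcap _ hVS)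
  have h3 : 0 ≤ hh (z : ℝ) := hh_nonneg (by exact_mod_cast hz)
  calc mass z x M ≤ l * hh (z : ℝ) * hit x (M.biUnion id) M := h1
    _ ≤ l * hh (z : ℝ) * ω := mul_le_mul_of_nonneg_left h2 (mul_nonneg hl h3)
    _ = l * ω * hh (z : ℝ) := by ring

/-- the clock of a proper power `≥ 16` has a single atom -/
theorem pk_pow {u r : ℕ} (hu : 16 ≤ u) (hur : u ≠ r) (j : ℕ) : pk u r j = if j = 0 then 1000 else 0 := by
  unfold pk
  rw [if_neg (by omega), if_neg (by omega), if_neg (by omega), if_neg (by omega),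
    if_neg (by rintro ⟨-, h⟩; exact hur h)]

/-- `e ^ w - 1 ≤ w (1 + w / 2 + w ^ 2)` -/
theorem exp_sub_one_le3 {w : ℝ} (h0 : 0 ≤ w) (h1 : w ≤ 1 / 2) :
    Real.exp w - 1 ≤ w * (1 + w / 2 + w ^ 2 * (2 / 9)) := by
  have h2 := Real.exp_bound' h0 (by linarith) (n := 3) (by norm_num)
  simp [Finset.sum_range_succ, Nat.factorial] at h2
  nlinarith [pow_nonneg h0 3]

theorem one_le_exp_add {w w' : ℝ} (h : w + w' ≤ 1) :
    1 ≤ Real.exp (-w) + Real.exp (-w') := by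
  have h1 := Real.add_one_le_exp (-w)
  have h2 := Real.add_one_le_exp (-w')
  linarith

theorem avgABS_pow {u : ℕ} {A : ℝ} (hu : 16 ≤ u) (hur : u ≠ u.minFac)
    (h : ABSB u (ck u u.minFac 0) A) : AvgABS u A := by
  intro M hM
  have h1 := h M hM
  have h2 : ∀ j : Fin 5, qD u j = if (j : ℕ) = 0 then 1 else 0 := by
    intro j
    unfold qD
    rw [pk_pow hu hur]
    split_ifs <;> norm_num
  simp only [h2, Fin.sum_univ_five]
  simpa using h1

/-- the total of an account -/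
theorem finish {p e : ℕ} (hp : p.Prime) (he : e ≠ 0) {D0 : ℝ} {D : ℕ → ℝ} {κ A c L a : ℝ}
    (ha : 0 ≤ a) (ha1 : a ≤ 1) (hc : 0 < c) (hL : 0 < L) (hA0 : 0 ≤ A) (hA : A < 1) (hκ0 : 0 < κ)
    (hκ : κ < 1) (hμ1 : 1.2 * L * c * hh ((p : ℝ) ^ e) ≤ A * (1 - A) * Tz p e)
    (hμ2 : 1.2 * L * c * hh ((p : ℝ) ^ e) ≤ κ * (1 - κ) * Tz p e)
    (h0 : D0 ≤ κ * Tz p e) (h0' : D0 ≤ c * hh ((p : ℝ) ^ e) * a)
    (h1 : ∀ i, D i ≤ hh ((p : ℝ) ^ (e + 1 + i)) * A)
    (h2 : ∀ i, D i ≤ hh ((p : ℝ) ^ (e + 1 + i)) * (1.2 * phi L a)) (K : ℕ) :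
    D0 + ∑ i ∈ range K, D i ≤ Tz p e := by
  have hphi : 0 ≤ phi L a := by
    unfold phi
    have : 0 ≤ 1 - a := by linarith
    positivity
  have hm : 0 ≤ min A (1.2 * phi L a) := le_min hA0 (by positivity)
  have h3 : ∑ i ∈ range K, D i ≤ Tz p e * min A (1.2 * phi L a) := by
    calc ∑ i ∈ range K, D i ≤ ∑ i ∈ range K, hh ((p : ℝ) ^ (e + 1 + i)) * min A (1.2 * phi L a) := by
          refine Finset.sum_le_sum fun i _ => ?_
          rw [mul_min_of_nonneg _ _ (hh_pow_nonneg hp _)]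
          exact le_min (h1 i) (h2 i)
      _ = (∑ i ∈ range K, hh ((p : ℝ) ^ (e + 1 + i))) * min A (1.2 * phi L a) := by
          rw [Finset.sum_mul]
      _ ≤ _ := mul_le_mul_of_nonneg_right (sum_tail_le hp e K) hm
  have h4 := acc_real (Tz_pos hp e) (hh_pow_pos hp he) ha ha1 hc hL hA0 hA hκ0 hκ hμ1 hμ2
  have h5 : D0 ≤ min (κ * Tz p e) (c * hh ((p : ℝ) ^ e) * a) := le_min h0 h0'
  linarith

end Pool.Agent.EZ.Acc
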