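import Pool.Agent.EZ.Specs

/-!
# The weight of one prime
-/

set_option autoImplicit false
set_option linter.unusedSectionVars false
set_option linter.unusedVariables false

namespace Pool.Agent.EZ

open Finset

/-- sums over the powers of one prime. -/
theorem sum_over_prime (VS : Finset ℕ) (hVS : ∀ v ∈ VS, IsPrimePow v) (r : ℕ) (f : ℕ → ℝ)
    (hf : ∀ w, 0 ≤ f w) :
    ∑ v ∈ VS.filter (fun v => v.minFac = r), f v = 0 ∨
      (r.Prime ∧ ∃ K, ∑ v ∈ VS.filter (fun v => v.minFac = r), f v ≤ ∑ k ∈ Icc 1 K, f (r ^ k)) := by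
  by_cases hr : r.Prime
  · right
    refine ⟨hr, ∑ v ∈ VS, v, ?_⟩
    have hinj : Set.InjOn (fun k => r ^ k) (↑(Icc 1 (∑ v ∈ VS, v)) : Set ℕ) :=
      fun a _ b _ h => Nat.pow_right_injective hr.two_le h
    rw [← Finset.sum_image (f := f) hinj]
    apply Finset.sum_le_sum_of_subset_of_nonneg
    · intro w hw
      obtain ⟨h1, h2⟩ := Finset.mem_filter.1 hw
      obtain ⟨p, k, hp, hk, rfl⟩ := (isPrimePow_nat_iff _).1 (hVS w h1)
      have hpr : p = r := by rw [← h2, hp.pow_minFac hk.ne']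
      subst hpr
      apply Finset.mem_image.2
      refine ⟨k, ?_, rfl⟩
      rw [Finset.mem_Icc]
      refine ⟨hk, ?_⟩
      have h3 : k < p ^ k := Nat.lt_pow_self hp.one_lt
      have h4 : p ^ k ≤ ∑ v ∈ VS, v :=
        Finset.single_le_sum (f := fun v => v) (fun _ _ => Nat.zero_le _) h1
      omega
    · intro w _ _; exact hf w
  · left
    apply Finset.sum_eq_zero
    intro w hw
    obtain ⟨h1, h2⟩ := Finset.mem_filter.1 hw
    exact absurd (h2 ▸ Nat.minFac_prime (hVS w h1).one_lt.ne') hr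

/-- finite geometric sums. -/
theorem geo_le (r : ℕ) (hr : 2 ≤ r) (k0 K : ℕ) :
    ∑ k ∈ Icc k0 K, (1 : ℝ) / (r : ℝ) ^ k ≤ (r : ℝ) / ((r : ℝ) ^ k0 * ((r : ℝ) - 1)) := by
  have hr' : (2 : ℝ) ≤ r := by exact_mod_cast hr
  have hr0 : (0 : ℝ) < r := by linarith
  have hr1 : (0 : ℝ) < (r : ℝ) - 1 := by linarith
  have key : ∀ n : ℕ, ∑ k ∈ Ico k0 (k0 + n), (1 : ℝ) / (r : ℝ) ^ k
      = (r : ℝ) / ((r : ℝ) ^ k0 * ((r : ℝ) - 1)) - (r : ℝ) / ((r : ℝ) ^ (k0 + n) * ((r : ℝ) - 1)) := by
    intro n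
    induction n with
    | zero => simp
    | succ n ih =>
      rw [← Nat.add_assoc, Finset.sum_Ico_succ_top (by omega), ih]
      have e : (r : ℝ) ^ (k0 + n + 1) = (r : ℝ) ^ (k0 + n) * r := pow_succ _ _
      rw [e]
      have h1 : (r : ℝ) ^ (k0 + n) ≠ 0 := by positivity
      have h2 : (r : ℝ) ^ k0 ≠ 0 := by positivity
      field_simp
      ring
  rcases le_or_gt k0 K with h | h
  · have : Icc k0 K = Ico k0 (k0 + (K + 1 - k0)) := by
      ext a; rw [Finset.mem_Icc, Finset.mem_Ico]; omega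
    rw [this, key]
    have : 0 ≤ (r : ℝ) / ((r : ℝ) ^ (k0 + (K + 1 - k0)) * ((r : ℝ) - 1)) := by positivity
    linarith
  · rw [Finset.Icc_eq_empty (by omega), Finset.sum_empty]
    positivity

theorem svN_generic (x v r : ℕ) (h3 : v ≠ 3) (h5 : v ≠ 5) (h7 : v ≠ 7) (h9 : v ≠ 9) (hr : v ≠ r) :
    svN x v r = if x ≤ ck v r 0 then 1000 else 0 := by
  have h : ¬ (11 ≤ v ∧ v = r) := fun h => hr h.2
  simp only [svN, pk, if_neg h3, if_neg h5, if_neg h7, if_neg h9, if_neg h]
  simp

theorem ck_generic (v r j : ℕ) (h : v ∉ ({2, 3, 4, 5, 7, 8, 9, 16, 25, 27, 32, 64} : Finset ℕ))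
    (hr : v ≠ r) : ck v r j = (v - v / r) * 10000 := by
  simp only [Finset.mem_insert, Finset.mem_singleton, not_or] at h
  obtain ⟨h2, h3, h4, h5, h7, h8, h9, h16, h25, h27, h32, h64⟩ := h
  simp only [ck, if_neg h2, if_neg h3, if_neg h4, if_neg h5, if_neg h7, if_neg h8, if_neg h9,
    if_neg h16, if_neg h25, if_neg h27, if_neg h32, if_neg h64, if_neg hr]

/-- survival of a generic proper power. -/
theorem Sx_generic (x r k : ℕ) (hr : r.Prime) (hk : 2 ≤ k)
    (h : r ^ k ∉ ({4, 8, 9, 16, 25, 27, 32, 64} : Finset ℕ)) :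
    Sx x (r ^ k) = if x ≤ (r ^ k - r ^ (k - 1)) * 10000 then 1 else 0 := by
  have hmf : (r ^ k).minFac = r := hr.pow_minFac (by omega)
  have hnp : ¬ (r ^ k).Prime := Nat.Prime.not_prime_pow hk
  have h' : r ^ k ∉ ({2, 3, 4, 5, 7, 8, 9, 16, 25, 27, 32, 64} : Finset ℕ) := by
    simp only [Finset.mem_insert, Finset.mem_singleton, not_or] at h ⊢
    obtain ⟨h4, h8, h9, h16, h25, h27, h32, h64⟩ := h
    refine ⟨?_, ?_, h4, ?_, ?_, h8, h9, h16, h25, h27, h32, h64⟩
    all_goals intro h0; rw [h0] at hnp; exact hnp (by norm_num)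
  have hne : r ^ k ≠ r := by
    intro h0
    rw [h0] at hnp
    exact hnp hr
  unfold Sx
  rw [hmf]
  have h3 : r ^ k ≠ 3 := fun h0 => h' (by rw [h0]; decide)
  have h5 : r ^ k ≠ 5 := fun h0 => h' (by rw [h0]; decide)
  have h7 : r ^ k ≠ 7 := fun h0 => h' (by rw [h0]; decide)
  have h9 : r ^ k ≠ 9 := fun h0 => h' (by rw [h0]; decide)
  rw [svN_generic x _ _ h3 h5 h7 h9 hne, ck_generic _ _ _ h' hne]
  have e : r ^ k / r = r ^ (k - 1) := by
    obtain ⟨m, rfl⟩ : ∃ m, k = m + 1 := ⟨k - 1, by omega⟩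
    rw [pow_succ, Nat.mul_div_cancel _ hr.pos]
    rfl
  rw [e]
  split_ifs <;> norm_num

/-- the weight of the generic powers. -/
theorem gen_tail (x r k1 K : ℕ) (hr : r.Prime) (hk1 : 2 ≤ k1) (hx : 0 < x)
    (h : ∀ k, k1 ≤ k → r ^ k ∉ ({4, 8, 9, 16, 25, 27, 32, 64} : Finset ℕ)) :
    ∑ k ∈ Icc k1 K, Sx x (r ^ k) / ((r ^ k : ℕ) : ℝ) ≤ 10000 / x := by
  have hx' : (0 : ℝ) < x := by exact_mod_cast hx
  by_cases hex : ∃ k, k1 ≤ k ∧ x ≤ (r ^ k - r ^ (k - 1)) * 10000
  · set k0 := Nat.find hex with hk0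
    obtain ⟨h1, h2⟩ := Nat.find_spec hex
    rw [← hk0] at h1 h2
    have hmin : ∀ k, k1 ≤ k → k < k0 → ¬ (x ≤ (r ^ k - r ^ (k - 1)) * 10000) := fun k h3 h4 h5 =>
      Nat.find_min hex h4 ⟨h3, h5⟩
    have hr2 := hr.two_le
    have hr' : (2 : ℝ) ≤ r := by exact_mod_cast hr2
    have hr1 : (0 : ℝ) < (r : ℝ) - 1 := by linarith
    calc ∑ k ∈ Icc k1 K, Sx x (r ^ k) / ((r ^ k : ℕ) : ℝ)
        ≤ ∑ k ∈ Icc k1 K, (if k0 ≤ k then (1 : ℝ) / (r : ℝ) ^ k else 0) := by
          apply Finset.sum_le_sum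
          intro k hk
          rw [Finset.mem_Icc] at hk
          rw [Sx_generic x r k hr (by omega) (h k hk.1)]
          push_cast
          by_cases h3 : k0 ≤ k
          · rw [if_pos h3]
            apply div_le_div_of_nonneg_right _ (by positivity)
            split_ifs <;> norm_num
          · rw [if_neg h3, if_neg (hmin k hk.1 (by omega))]
            simp
      _ = ∑ k ∈ (Icc k1 K).filter (fun k => k0 ≤ k), (1 : ℝ) / (r : ℝ) ^ k := by
          rw [Finset.sum_filter]
      _ ≤ ∑ k ∈ Icc k0 K, (1 : ℝ) / (r : ℝ) ^ k := by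
          apply Finset.sum_le_sum_of_subset_of_nonneg
          · intro k hk
            obtain ⟨h3, h4⟩ := Finset.mem_filter.1 hk
            rw [Finset.mem_Icc] at h3 ⊢
            exact ⟨h4, h3.2⟩
          · intro k _ _; positivity
      _ ≤ (r : ℝ) / ((r : ℝ) ^ k0 * ((r : ℝ) - 1)) := geo_le r hr2 k0 K
      _ ≤ 10000 / x := by
          have h3 : ((x : ℕ) : ℝ) ≤ (((r ^ k0 - r ^ (k0 - 1)) * 10000 : ℕ) : ℝ) := by exact_mod_cast h2
          have h4 : r ^ (k0 - 1) ≤ r ^ k0 := Nat.pow_le_pow_right hr.pos (by omega)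
          rw [Nat.cast_mul, Nat.cast_sub h4] at h3
          push_cast at h3
          have e : (r : ℝ) ^ k0 = (r : ℝ) ^ (k0 - 1) * r := by
            rw [← pow_succ]; congr 1; omega
          have hp : (0 : ℝ) < (r : ℝ) ^ (k0 - 1) := by positivity
          rw [div_le_div_iff₀ (by positivity) hx', e]
          rw [e] at h3
          nlinarith
  · push Not at hex
    rw [Finset.sum_eq_zero]
    · positivity
    · intro k hk
      rw [Finset.mem_Icc] at hk
      rw [Sx_generic x r k hr (by omega) (h k hk.1), if_neg (by have := hex k hk.1; omega)]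
      simp

/-- split off an initial segment. -/
theorem Icc_split (f : ℕ → ℝ) (hf : ∀ k, 0 ≤ f k) (a b K : ℕ) (hab : a ≤ b + 1) :
    ∑ k ∈ Icc a K, f k ≤ ∑ k ∈ Icc a b, f k + ∑ k ∈ Icc (b + 1) K, f k := by
  have hsub : Icc a K ⊆ Icc a b ∪ Icc (b + 1) K := by
    intro k hk
    rw [Finset.mem_union, Finset.mem_Icc, Finset.mem_Icc]
    rw [Finset.mem_Icc] at hk
    omega
  have hd : Disjoint (Icc a b) (Icc (b + 1) K) := by
    rw [Finset.disjoint_left]
    intro k h1 h2
    rw [Finset.mem_Icc] at h1 h2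
    omega
  rw [← Finset.sum_union hd]
  exact Finset.sum_le_sum_of_subset_of_nonneg hsub (fun k _ _ => hf k)

theorem Sx_div_nonneg (x w : ℕ) : 0 ≤ Sx x w / (w : ℝ) := div_nonneg (Sx_nonneg x w) (Nat.cast_nonneg w)

/-- all powers from `k1` on, survival at most one. -/
theorem full_tail (x r k1 K : ℕ) (hr : 2 ≤ r) :
    ∑ k ∈ Icc k1 K, Sx x (r ^ k) / ((r ^ k : ℕ) : ℝ) ≤ (r : ℝ) / ((r : ℝ) ^ k1 * ((r : ℝ) - 1)) := by
  refine le_trans ?_ (geo_le r hr k1 K)
  apply Finset.sum_le_sum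
  intro k _
  push_cast
  have : (0 : ℝ) < (r : ℝ) ^ k := by
    have : (0 : ℝ) < r := by exact_mod_cast (by omega : 0 < r)
    positivity
  exact div_le_div_of_nonneg_right (Sx_le_one x _) this.le

theorem zero_Icc (x r a b : ℕ) (h : ∀ k ∈ Icc a b, Sx x (r ^ k) = 0) :
    ∑ k ∈ Icc a b, Sx x (r ^ k) / ((r ^ k : ℕ) : ℝ) = 0 := by
  apply Finset.sum_eq_zero
  intro k hk
  rw [h k hk]; simp

/-- explicit values of the survival function for small prime powers. -/
theorem Sx_eq_svN (x v r : ℕ) (h : v.minFac = r) : Sx x v = (svN x v r : ℝ) / 1000 := by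
  unfold Sx; rw [h]

theorem not_small {r k : ℕ} {s : Finset ℕ} {b : ℕ} (hs : ∀ y ∈ s, y < b) (h : b ≤ r ^ k) :
    r ^ k ∉ s := fun h' => by have := hs _ h'; omega

theorem pow_ge {r k1 k b : ℕ} (hr : 0 < r) (hb : b ≤ r ^ k1) (hk : k1 ≤ k) : b ≤ r ^ k :=
  hb.trans (Nat.pow_le_pow_right hr hk)

theorem gen_of_large {r k1 : ℕ} (hr : 0 < r) (hb : 65 ≤ r ^ k1) : ∀ k, k1 ≤ k →
    r ^ k ∉ ({4, 8, 9, 16, 25, 27, 32, 64} : Finset ℕ) := by
  intro k hk
  apply not_small (b := 65) _ (pow_ge hr hb hk)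
  decide

theorem cap_two (x K : ℕ) (hx : 70000 ≤ x) :
    (∑ k ∈ Icc 1 K, Sx x (2 ^ k) / ((2 ^ k : ℕ) : ℝ) ≤ 13125 / x) ∧
    (1100000 ≤ x → ∑ k ∈ Icc 1 K, Sx x (2 ^ k) / ((2 ^ k : ℕ) : ℝ) ≤ 10230 / x) := by
  have hx' : (70000 : ℝ) ≤ x := by exact_mod_cast hx
  have hx0 : (0 : ℝ) < x := by linarith
  have hgen := gen_tail x 2 7 K (by norm_num) (by norm_num) (by omega) (gen_of_large (by norm_num) (by norm_num))
  have s1 := Icc_split (fun k => Sx x (2 ^ k) / ((2 ^ k : ℕ) : ℝ)) (fun k => Sx_div_nonneg _ _) 1 6 K (by norm_num)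
  have mf : ∀ k, k ≠ 0 → (2 ^ k).minFac = 2 := fun k hk => Nat.prime_two.pow_minFac hk
  have z1 : Sx x (2 ^ 1) = 0 := by
    rw [Sx_eq_svN _ _ 2 (mf 1 (by norm_num))]
    have : svN x (2 ^ 1) 2 = 0 := by
      simp only [svN, ck, pk]
      norm_num
      first | omega | (split_ifs <;> omega)
    rw [this]; norm_num
  have z2 : Sx x (2 ^ 2) = 0 := by
    rw [Sx_eq_svN _ _ 2 (mf 2 (by norm_num))]
    have : svN x (2 ^ 2) 2 = 0 := by
      simp only [svN, ck, pk]
      norm_num
      first | omega | (split_ifs <;> omega)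
    rw [this]; norm_num
  have z3 : Sx x (2 ^ 3) = 0 := by
    rw [Sx_eq_svN _ _ 2 (mf 3 (by norm_num))]
    have : svN x (2 ^ 3) 2 = 0 := by
      simp only [svN, ck, pk]
      norm_num
      first | omega | (split_ifs <;> omega)
    rw [this]; norm_num
  have z4 : 70000 < x → Sx x (2 ^ 4) = 0 := by
    intro h
    rw [Sx_eq_svN _ _ 2 (mf 4 (by norm_num))]
    have : svN x (2 ^ 4) 2 = 0 := by
      simp only [svN, ck, pk]
      norm_num
      first | omega | (split_ifs <;> omega)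
    rw [this]; norm_num
  have z5 : 192000 < x → Sx x (2 ^ 5) = 0 := by
    intro h
    rw [Sx_eq_svN _ _ 2 (mf 5 (by norm_num))]
    have : svN x (2 ^ 5) 2 = 0 := by
      simp only [svN, ck, pk]
      norm_num
      first | omega | (split_ifs <;> omega)
    rw [this]; norm_num
  have z6 : 420000 < x → Sx x (2 ^ 6) = 0 := by
    intro h
    rw [Sx_eq_svN _ _ 2 (mf 6 (by norm_num))]
    have : svN x (2 ^ 6) 2 = 0 := by
      simp only [svN, ck, pk]
      norm_num
      first | omega | (split_ifs <;> omega)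
    rw [this]; norm_num
  have hmain : ∀ a : ℕ, a + 1 ≤ 7 → (∀ k ∈ Icc 1 a, Sx x (2 ^ k) = 0) →
      ∑ k ∈ Icc 1 K, Sx x (2 ^ k) / ((2 ^ k : ℕ) : ℝ) ≤ (2 : ℝ) / ((2 : ℝ) ^ (a + 1) * ((2 : ℝ) - 1)) := by
    intro a _ h
    have h1 := Icc_split (fun k => Sx x (2 ^ k) / ((2 ^ k : ℕ) : ℝ)) (fun k => Sx_div_nonneg _ _) 1 a K (by omega)
    have h2 := full_tail x 2 (a + 1) K le_rfl
    rw [zero_Icc x 2 1 a h, zero_add] at h1
    push_cast at h2
    refine h1.trans ?_
    push_cast
    exact h2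
  have hlate : 420000 < x → ∑ k ∈ Icc 1 K, Sx x (2 ^ k) / ((2 ^ k : ℕ) : ℝ) ≤ 10000 / x := by
    intro h
    rw [zero_Icc x 2 1 6, zero_add] at s1
    · exact s1.trans hgen
    · intro k hk
      rw [Finset.mem_Icc] at hk
      obtain ⟨h1, h2⟩ := hk
      interval_cases k
      · exact z1
      · exact z2
      · exact z3
      · exact z4 (by omega)
      · exact z5 (by omega)
      · exact z6 (by omega)
  constructor
  · rcases le_or_gt x 70000 with h | h
    · have hx2 : (x : ℝ) ≤ 70000 := by exact_mod_cast h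
      refine (hmain 3 (by norm_num) ?_).trans ?_
      · intro k hk
        rw [Finset.mem_Icc] at hk
        obtain ⟨h1, h2⟩ := hk
        interval_cases k
        · exact z1
        · exact z2
        · exact z3
      · rw [div_le_div_iff₀ (by norm_num) hx0]
        norm_num
        linarith
    · rcases le_or_gt x 192000 with h' | h'
      · have hx2 : (x : ℝ) ≤ 192000 := by exact_mod_cast h'
        refine (hmain 4 (by norm_num) ?_).trans ?_
        · intro k hk
          rw [Finset.mem_Icc] at hk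
          obtain ⟨h1, h2⟩ := hk
          interval_cases k
          · exact z1
          · exact z2
          · exact z3
          · exact z4 (by omega)
        · rw [div_le_div_iff₀ (by norm_num) hx0]
          norm_num
          linarith
      · rcases le_or_gt x 420000 with h'' | h''
        · have hx2 : (x : ℝ) ≤ 420000 := by exact_mod_cast h''
          refine (hmain 5 (by norm_num) ?_).trans ?_
          · intro k hk
            rw [Finset.mem_Icc] at hk
            obtain ⟨h1, h2⟩ := hk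
            interval_cases k
            · exact z1
            · exact z2
            · exact z3
            · exact z4 (by omega)
            · exact z5 (by omega)
          · rw [div_le_div_iff₀ (by norm_num) hx0]
            norm_num
            linarith
        · refine (hlate h'').trans ?_
          apply div_le_div_of_nonneg_right _ hx0.le
          norm_num
  · intro h
    refine (hlate (by omega)).trans ?_
    apply div_le_div_of_nonneg_right _ hx0.le
    norm_num

theorem cap_three (x K : ℕ) (hx : 70000 ≤ x) :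
    (∑ k ∈ Icc 1 K, Sx x (3 ^ k) / ((3 ^ k : ℕ) : ℝ) ≤ 13125 / x) ∧
    (1100000 ≤ x → ∑ k ∈ Icc 1 K, Sx x (3 ^ k) / ((3 ^ k : ℕ) : ℝ) ≤ 10230 / x) := by
  have hx' : (70000 : ℝ) ≤ x := by exact_mod_cast hx
  have hx0 : (0 : ℝ) < x := by linarith
  have hgen := gen_tail x 3 4 K (by norm_num) (by norm_num) (by omega) (gen_of_large (by norm_num) (by norm_num))
  have mf : ∀ k, k ≠ 0 → (3 ^ k).minFac = 3 := fun k hk => Nat.prime_three.pow_minFac hk
  have z1 : Sx x (3 ^ 1) = 0 := by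
    rw [Sx_eq_svN _ _ 3 (mf 1 (by norm_num))]
    have : svN x (3 ^ 1) 3 = 0 := by
      simp only [svN, ck, pk]
      norm_num
      first | omega | (split_ifs <;> omega)
    rw [this]; norm_num
  have z2 : Sx x (3 ^ 2) = 0 := by
    rw [Sx_eq_svN _ _ 3 (mf 2 (by norm_num))]
    have : svN x (3 ^ 2) 3 = 0 := by
      simp only [svN, ck, pk]
      norm_num
      first | omega | (split_ifs <;> omega)
    rw [this]; norm_num
  have z3 : 189000 < x → Sx x (3 ^ 3) = 0 := by
    intro h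
    rw [Sx_eq_svN _ _ 3 (mf 3 (by norm_num))]
    have : svN x (3 ^ 3) 3 = 0 := by
      simp only [svN, ck, pk]
      norm_num
      first | omega | (split_ifs <;> omega)
    rw [this]; norm_num
  have hlate : 189000 < x → ∑ k ∈ Icc 1 K, Sx x (3 ^ k) / ((3 ^ k : ℕ) : ℝ) ≤ 10000 / x := by
    intro h
    have s1 := Icc_split (fun k => Sx x (3 ^ k) / ((3 ^ k : ℕ) : ℝ)) (fun k => Sx_div_nonneg _ _) 1 3 K (by norm_num)
    rw [zero_Icc x 3 1 3, zero_add] at s1
    · exact s1.trans hgen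
    · intro k hk
      rw [Finset.mem_Icc] at hk
      obtain ⟨h1, h2⟩ := hk
      interval_cases k
      · exact z1
      · exact z2
      · exact z3 (by omega)
  constructor
  · rcases le_or_gt x 189000 with h | h
    · have hx2 : (x : ℝ) ≤ 189000 := by exact_mod_cast h
      have h1 := Icc_split (fun k => Sx x (3 ^ k) / ((3 ^ k : ℕ) : ℝ)) (fun k => Sx_div_nonneg _ _) 1 2 K (by omega)
      have h2 := full_tail x 3 (2 + 1) K (by norm_num)
      rw [zero_Icc x 3 1 2, zero_add] at h1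
      · refine (h1.trans h2).trans ?_
        push_cast
        rw [div_le_div_iff₀ (by norm_num) hx0]
        norm_num
        linarith
      · intro k hk
        rw [Finset.mem_Icc] at hk
        obtain ⟨h1, h2⟩ := hk
        interval_cases k
        · exact z1
        · exact z2
    · refine (hlate h).trans ?_
      apply div_le_div_of_nonneg_right _ hx0.le
      norm_num
  · intro h
    refine (hlate (by omega)).trans ?_
    apply div_le_div_of_nonneg_right _ hx0.le
    norm_num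

theorem cap_five (x K : ℕ) (hx : 70000 ≤ x) :
    (∑ k ∈ Icc 1 K, Sx x (5 ^ k) / ((5 ^ k : ℕ) : ℝ) ≤ 13125 / x) ∧
    (1100000 ≤ x → ∑ k ∈ Icc 1 K, Sx x (5 ^ k) / ((5 ^ k : ℕ) : ℝ) ≤ 10230 / x) := by
  have hx' : (70000 : ℝ) ≤ x := by exact_mod_cast hx
  have hx0 : (0 : ℝ) < x := by linarith
  have hgen := gen_tail x 5 3 K (by norm_num) (by norm_num) (by omega) (gen_of_large (by norm_num) (by norm_num))
  have mf : ∀ k, k ≠ 0 → (5 ^ k).minFac = 5 := fun k hk => Nat.prime_five.pow_minFac hk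
  have z1 : Sx x (5 ^ 1) = 0 := by
    rw [Sx_eq_svN _ _ 5 (mf 1 (by norm_num))]
    have : svN x (5 ^ 1) 5 = 0 := by
      simp only [svN, ck, pk]
      norm_num
      first | omega | (split_ifs <;> omega)
    rw [this]; norm_num
  have z2 : 188000 < x → Sx x (5 ^ 2) = 0 := by
    intro h
    rw [Sx_eq_svN _ _ 5 (mf 2 (by norm_num))]
    have : svN x (5 ^ 2) 5 = 0 := by
      simp only [svN, ck, pk]
      norm_num
      first | omega | (split_ifs <;> omega)
    rw [this]; norm_num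
  have hlate : 188000 < x → ∑ k ∈ Icc 1 K, Sx x (5 ^ k) / ((5 ^ k : ℕ) : ℝ) ≤ 10000 / x := by
    intro h
    have s1 := Icc_split (fun k => Sx x (5 ^ k) / ((5 ^ k : ℕ) : ℝ)) (fun k => Sx_div_nonneg _ _) 1 2 K (by norm_num)
    rw [zero_Icc x 5 1 2, zero_add] at s1
    · exact s1.trans hgen
    · intro k hk
      rw [Finset.mem_Icc] at hk
      obtain ⟨h1, h2⟩ := hk
      interval_cases k
      · exact z1
      · exact z2 (by omega)
  constructor
  · rcases le_or_gt x 188000 with h | h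
    · have hx2 : (x : ℝ) ≤ 188000 := by exact_mod_cast h
      have h1 := Icc_split (fun k => Sx x (5 ^ k) / ((5 ^ k : ℕ) : ℝ)) (fun k => Sx_div_nonneg _ _) 1 1 K (by omega)
      have h2 := full_tail x 5 (1 + 1) K (by norm_num)
      rw [zero_Icc x 5 1 1, zero_add] at h1
      · refine (h1.trans h2).trans ?_
        push_cast
        rw [div_le_div_iff₀ (by norm_num) hx0]
        norm_num
        linarith
      · intro k hk
        rw [Finset.mem_Icc] at hk
        obtain ⟨h1, h2⟩ := hk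
        interval_cases k
        · exact z1
    · refine (hlate h).trans ?_
      apply div_le_div_of_nonneg_right _ hx0.le
      norm_num
  · intro h
    refine (hlate (by omega)).trans ?_
    apply div_le_div_of_nonneg_right _ hx0.le
    norm_num

theorem cap_seven (x K : ℕ) (hx : 70000 ≤ x) :
    (∑ k ∈ Icc 1 K, Sx x (7 ^ k) / ((7 ^ k : ℕ) : ℝ) ≤ 13125 / x) ∧
    (1100000 ≤ x → ∑ k ∈ Icc 1 K, Sx x (7 ^ k) / ((7 ^ k : ℕ) : ℝ) ≤ 10230 / x) := by
  have hx' : (70000 : ℝ) ≤ x := by exact_mod_cast hx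
  have hx0 : (0 : ℝ) < x := by linarith
  have h7 : Nat.Prime 7 := by norm_num
  have hgen := gen_tail x 7 2 K h7 (by norm_num) (by omega) (by
    intro k hk
    rcases Nat.lt_or_ge k 3 with h | h
    · have : k = 2 := by omega
      rw [this]; decide
    · exact gen_of_large (k1 := 3) (by norm_num) (by norm_num) k h)
  have mf : ∀ k, k ≠ 0 → (7 ^ k).minFac = 7 := fun k hk => h7.pow_minFac hk
  have z1 : 127500 < x → Sx x (7 ^ 1) = 0 := by
    intro h
    rw [Sx_eq_svN _ _ 7 (mf 1 (by norm_num))]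
    have : svN x (7 ^ 1) 7 = 0 := by
      simp only [svN, ck, pk]
      norm_num
      first | omega | (split_ifs <;> omega)
    rw [this]; norm_num
  have v1 : Sx x (7 ^ 1) ≤ 0.2 := by
    rw [Sx_eq_svN _ _ 7 (mf 1 (by norm_num))]
    have : svN x (7 ^ 1) 7 ≤ 200 := by
      simp only [svN, ck, pk]
      norm_num
      split_ifs <;> omega
    have h : (svN x (7 ^ 1) 7 : ℝ) ≤ 200 := by exact_mod_cast this
    rw [div_le_iff₀ (by norm_num)]
    norm_num at h ⊢
    linarith
  have hlate : 127500 < x → ∑ k ∈ Icc 1 K, Sx x (7 ^ k) / ((7 ^ k : ℕ) : ℝ) ≤ 10000 / x := by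
    intro h
    have s1 := Icc_split (fun k => Sx x (7 ^ k) / ((7 ^ k : ℕ) : ℝ)) (fun k => Sx_div_nonneg _ _) 1 1 K (by norm_num)
    rw [zero_Icc x 7 1 1, zero_add] at s1
    · exact s1.trans hgen
    · intro k hk
      rw [Finset.mem_Icc] at hk
      obtain ⟨h1, h2⟩ := hk
      interval_cases k
      · exact z1 h
  constructor
  · rcases le_or_gt x 127500 with h | h
    · have hx2 : (x : ℝ) ≤ 127500 := by exact_mod_cast h
      have h1 := Icc_split (fun k => Sx x (7 ^ k) / ((7 ^ k : ℕ) : ℝ)) (fun k => Sx_div_nonneg _ _) 1 1 K (by omega)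
      have h2 := full_tail x 7 (1 + 1) K (by norm_num)
      simp only [Finset.Icc_self, Finset.sum_singleton] at h1
      have h3 : Sx x (7 ^ 1) / ((7 ^ 1 : ℕ) : ℝ) ≤ 0.2 / 7 := by
        have e7 : ((7 ^ 1 : ℕ) : ℝ) = 7 := by norm_num
        rw [e7]
        exact div_le_div_of_nonneg_right v1 (by norm_num)
      refine h1.trans ((add_le_add h3 h2).trans ?_)
      push_cast
      rw [le_div_iff₀ hx0]
      norm_num
      linarith
    · refine (hlate h).trans ?_
      apply div_le_div_of_nonneg_right _ hx0.le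
      norm_num
  · intro h
    refine (hlate (by omega)).trans ?_
    apply div_le_div_of_nonneg_right _ hx0.le
    norm_num

theorem ck_prime (r j : ℕ) (hr : 11 ≤ r) (hp : r.Prime) : ck r r j = (r - 2) * 13 ^ j * 10 ^ (4 - j) := by
  have h16 : r ≠ 16 := by rintro rfl; exact absurd hp (by norm_num)
  have h25 : r ≠ 25 := by rintro rfl; exact absurd hp (by norm_num)
  have h27 : r ≠ 27 := by rintro rfl; exact absurd hp (by norm_num)
  have h32 : r ≠ 32 := by rintro rfl; exact absurd hp (by norm_num)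
  have h64 : r ≠ 64 := by rintro rfl; exact absurd hp (by norm_num)
  simp only [ck, if_neg (by omega : r ≠ 2), if_neg (by omega : r ≠ 3), if_neg (by omega : r ≠ 4),
    if_neg (by omega : r ≠ 5), if_neg (by omega : r ≠ 7), if_neg (by omega : r ≠ 8),
    if_neg (by omega : r ≠ 9), if_neg h16, if_neg h25, if_neg h27, if_neg h32, if_neg h64, if_true]

theorem svN_prime (x r : ℕ) (hr : 11 ≤ r) (hp : r.Prime) : svN x r r =
    (if x ≤ (r - 2) * 10000 then 231 else 0) + (if x ≤ (r - 2) * 13000 then 178 else 0)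
    + (if x ≤ (r - 2) * 16900 then 136 else 0) + (if x ≤ (r - 2) * 21970 then 105 else 0)
    + (if x ≤ (r - 2) * 28561 then 350 else 0) := by
  simp only [svN, ck_prime r _ hr hp, pk, if_neg (by omega : r ≠ 3), if_neg (by omega : r ≠ 5),
    if_neg (by omega : r ≠ 7), if_neg (by omega : r ≠ 9)]
  norm_num [mul_assoc, if_pos hr]

/-- `x S_r ≤ 10^4 (r - 2)`. -/
theorem x_mul_svN (x r : ℕ) (hr : 11 ≤ r) (hp : r.Prime) : x * svN x r r ≤ (r - 2) * 10000000 := by
  rw [svN_prime x r hr hp]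
  obtain ⟨t, ht⟩ : ∃ t, t = r - 2 := ⟨_, rfl⟩
  rw [← ht]
  by_cases h0 : x ≤ t * 10000
  · rw [if_pos h0, if_pos (show x ≤ t * 13000 from h0.trans (Nat.mul_le_mul_left t (by norm_num))), if_pos (show x ≤ t * 16900 from h0.trans (Nat.mul_le_mul_left t (by norm_num))),
      if_pos (show x ≤ t * 21970 from h0.trans (Nat.mul_le_mul_left t (by norm_num))), if_pos (show x ≤ t * 28561 from h0.trans (Nat.mul_le_mul_left t (by norm_num)))]
    omega
  rw [if_neg h0]
  by_cases h1 : x ≤ t * 13000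
  · rw [if_pos h1, if_pos (show x ≤ t * 16900 from h1.trans (Nat.mul_le_mul_left t (by norm_num))),
      if_pos (show x ≤ t * 21970 from h1.trans (Nat.mul_le_mul_left t (by norm_num))), if_pos (show x ≤ t * 28561 from h1.trans (Nat.mul_le_mul_left t (by norm_num)))]
    omega
  rw [if_neg h1]
  by_cases h2 : x ≤ t * 16900
  · rw [if_pos h2, if_pos (show x ≤ t * 21970 from h2.trans (Nat.mul_le_mul_left t (by norm_num))), if_pos (show x ≤ t * 28561 from h2.trans (Nat.mul_le_mul_left t (by norm_num)))]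
    omega
  rw [if_neg h2]
  by_cases h3 : x ≤ t * 21970
  · rw [if_pos h3, if_pos (show x ≤ t * 28561 from h3.trans (Nat.mul_le_mul_left t (by norm_num)))]
    omega
  rw [if_neg h3]
  by_cases h4 : x ≤ t * 28561
  · rw [if_pos h4]
    omega
  rw [if_neg h4]
  omega

theorem cap_large (r x K : ℕ) (hr : 11 ≤ r) (hp : r.Prime) (hx : 70000 ≤ x) :
    (∑ k ∈ Icc 1 K, Sx x (r ^ k) / ((r ^ k : ℕ) : ℝ) ≤ 13125 / x) ∧
    (1100000 ≤ x → ∑ k ∈ Icc 1 K, Sx x (r ^ k) / ((r ^ k : ℕ) : ℝ) ≤ 10230 / x) := by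
  have hx' : (70000 : ℝ) ≤ x := by exact_mod_cast hx
  have hx0 : (0 : ℝ) < x := by linarith
  have hr' : (11 : ℝ) ≤ r := by exact_mod_cast hr
  have hgen := gen_tail x r 2 K hp (by norm_num) (by omega)
    (gen_of_large (by omega) (by nlinarith [hr]))
  have hfull := full_tail x r 2 K (by omega)
  have s1 := Icc_split (fun k => Sx x (r ^ k) / ((r ^ k : ℕ) : ℝ)) (fun k => Sx_div_nonneg _ _) 1 1 K (by norm_num)
  simp only [Finset.Icc_self, Finset.sum_singleton] at s1
  have hS : Sx x (r ^ 1) = (svN x r r : ℝ) / 1000 := by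
    rw [pow_one]; exact Sx_eq_svN _ _ _ hp.minFac_eq
  by_cases h4 : x ≤ (r - 2) * 28561
  · have h1 := x_mul_svN x r hr hp
    have h2 : ((x * svN x r r : ℕ) : ℝ) ≤ (((r - 2) * 10000000 : ℕ) : ℝ) := by exact_mod_cast h1
    have h3 : ((x : ℕ) : ℝ) ≤ (((r - 2) * 28561 : ℕ) : ℝ) := by exact_mod_cast h4
    rw [Nat.cast_mul, Nat.cast_mul, Nat.cast_sub (by omega)] at h2
    rw [Nat.cast_mul, Nat.cast_sub (by omega)] at h3
    push_cast at h2 h3
    set s := (svN x r r : ℝ) with hs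
    have e1 : Sx x (r ^ 1) / ((r ^ 1 : ℕ) : ℝ) + (r : ℝ) / ((r : ℝ) ^ 2 * ((r : ℝ) - 1))
        = (s / 1000 * ((r : ℝ) - 1) + 1) / ((r : ℝ) * ((r : ℝ) - 1)) := by
      rw [hS]
      push_cast
      have : (r : ℝ) - 1 ≠ 0 := by linarith
      field_simp
    have hbound : ∑ k ∈ Icc 1 K, Sx x (r ^ k) / ((r ^ k : ℕ) : ℝ)
        ≤ (s / 1000 * ((r : ℝ) - 1) + 1) / ((r : ℝ) * ((r : ℝ) - 1)) := by
      rw [← e1]
      exact s1.trans (add_le_add le_rfl hfull)
    have hden : (0 : ℝ) < (r : ℝ) * ((r : ℝ) - 1) := by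
      apply mul_pos <;> linarith
    constructor
    · refine hbound.trans ?_
      rw [div_le_div_iff₀ hden hx0]
      nlinarith
    · intro hx2
      have hr41 : 41 ≤ r := by omega
      have hr41' : (41 : ℝ) ≤ r := by exact_mod_cast hr41
      refine hbound.trans ?_
      rw [div_le_div_iff₀ hden hx0]
      nlinarith
  · have hz : svN x r r = 0 := by
      rw [svN_prime x r hr hp]
      rw [if_neg (show ¬ x ≤ (r - 2) * 10000 from fun h => h4 (h.trans (Nat.mul_le_mul_left _ (by norm_num)))), if_neg (show ¬ x ≤ (r - 2) * 13000 from fun h => h4 (h.trans (Nat.mul_le_mul_left _ (by norm_num)))),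
        if_neg (show ¬ x ≤ (r - 2) * 16900 from fun h => h4 (h.trans (Nat.mul_le_mul_left _ (by norm_num)))), if_neg (show ¬ x ≤ (r - 2) * 21970 from fun h => h4 (h.trans (Nat.mul_le_mul_left _ (by norm_num)))),
        if_neg h4]
    have hb : ∑ k ∈ Icc 1 K, Sx x (r ^ k) / ((r ^ k : ℕ) : ℝ) ≤ 10000 / x := by
      rw [hS, hz] at s1
      simp only [Nat.cast_zero, zero_div, zero_add] at s1
      exact s1.trans hgen
    constructor
    · refine hb.trans ?_
      apply div_le_div_of_nonneg_right _ hx0.le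
      norm_num
    · intro _
      refine hb.trans ?_
      apply div_le_div_of_nonneg_right _ hx0.le
      norm_num

theorem stmt_CAP : Stmt_CAP := by
  intro x VS hVS r
  have key : ∀ c : ℝ, 0 ≤ c → (r.Prime → ∀ K, ∑ k ∈ Icc 1 K, Sx x (r ^ k) / ((r ^ k : ℕ) : ℝ) ≤ c) →
      ∑ v ∈ VS.filter (fun v => v.minFac = r), Sx x v / (v : ℝ) ≤ c := by
    intro c hc h
    rcases sum_over_prime VS hVS r (fun v => Sx x v / (v : ℝ)) (fun w => Sx_div_nonneg x w) with h0 | ⟨hr, K, hK⟩
    · rw [h0]; exact hc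
    · exact hK.trans (h hr K)
  have hall : 70000 ≤ x → r.Prime → ∀ K, (∑ k ∈ Icc 1 K, Sx x (r ^ k) / ((r ^ k : ℕ) : ℝ) ≤ 13125 / x) ∧
      (1100000 ≤ x → ∑ k ∈ Icc 1 K, Sx x (r ^ k) / ((r ^ k : ℕ) : ℝ) ≤ 10230 / x) := by
    intro hx hr K
    rcases Nat.lt_or_ge r 11 with h | h
    · have : r = 2 ∨ r = 3 ∨ r = 5 ∨ r = 7 := by
        have h2 := hr.two_le
        interval_cases r <;> simp_all (config := {decide := true})
      rcases this with rfl | rfl | rfl | rfl
      · exact cap_two x K hx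
      · exact cap_three x K hx
      · exact cap_five x K hx
      · exact cap_seven x K hx
    · exact cap_large r x K h hr hx
  constructor
  · intro hx
    apply key _ (by positivity)
    intro hr K
    exact (hall hx hr K).1
  · intro hx
    apply key _ (by positivity)
    intro hr K
    exact (hall (by omega) hr K).2 hx

end Pool.Agent.EZ
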