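import Pool.Agent.EZ.BT

/-!
# List-inductive form of the block theorem and of the crude absolute bound
-/

set_option autoImplicit false
set_option linter.unusedSectionVars false

namespace Pool.Agent.EZ

open Finset

/-- prime weights of the components after `a` (root `z`) are at most `ω`. -/
def CapB (z x a : ℕ) (ω : ℝ) : Prop := ∀ VS : Finset ℕ,
  (∀ w ∈ VS, IsPrimePow w ∧ a < w ∧ w.minFac ≠ z.minFac) →
  ∀ r, ∑ w ∈ VS.filter (fun w => w.minFac = r), Sx x w / (w : ℝ) ≤ ω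

theorem CapB.nonneg {z x a : ℕ} {ω : ℝ} (h : CapB z x a ω) : 0 ≤ ω := by
  have := h ∅ (by simp) 0
  simpa using this

theorem CapB.mono {z x a b : ℕ} {ω ω' : ℝ} (h : CapB z x a ω) (hab : a ≤ b) (hω : ω ≤ ω') :
    CapB z x b ω' := by
  intro VS hVS r
  exact (h VS (fun w hw => ⟨(hVS w hw).1, lt_of_le_of_lt hab (hVS w hw).2.1, (hVS w hw).2.2⟩) r).trans hω

/-- level of the component `v` is at most `L`. -/
def LevB (z x v : ℕ) (L : ℝ) : Prop := ∃ κ : ℝ, KB z x v κ ∧
  κ / Real.log ((z : ℝ) * v) * Real.exp (Wt z x v - Sx x v / (v : ℝ) / 2) ≤ L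

theorem LevB.mono {z x v : ℕ} {L L' : ℝ} (h : LevB z x v L) (hL : L ≤ L') : LevB z x v L' := by
  obtain ⟨κ, h1, h2⟩ := h
  exact ⟨κ, h1, h2.trans hL⟩

/-- the components in `(a, b]` have level at most `L`. -/
def LevI (z x a b : ℕ) (L : ℝ) : Prop := ∀ v, IsPrimePow v → v.minFac ≠ z.minFac → 0 < Sx x v →
  a < v → v ≤ b → LevB z x v L

/-- a suffix of the list of blocks, starting after `a` with current level `g`. -/
def Suf (z x a : ℕ) (g L T : ℝ) : Prop :=
  ∃ (n : ℕ) (X : ℕ → ℕ) (G E ω : ℕ → ℝ), X 0 = a ∧ (∀ i < n, X i < X (i + 1)) ∧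
    (∀ i, g ≤ G i) ∧ (∀ i < n, G i ≤ G (i + 1)) ∧
    (∀ i ≤ n, Real.exp (-Wt z x (X i)) ≤ E i) ∧
    (∀ i ≤ n, Real.exp (ω i) ≤ 2 ∧ CapB z x (X i) (ω i)) ∧
    (∀ v, IsPrimePow v → v.minFac ≠ z.minFac → 0 < Sx x v → ∀ i ≤ n, X i < v →
      (i < n → v ≤ X (i + 1)) → LevB z x v (G i)) ∧
    (G 0 - g) * E 0 + ∑ i ∈ range n, (G (i + 1) - G i) * E (i + 1) ≤ L ∧
    (G 0 - g) * E 0 * (1 - Real.exp (-ω 0))
      + ∑ i ∈ range n, (G (i + 1) - G i) * E (i + 1) * (1 - Real.exp (-ω (i + 1))) ≤ T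

theorem Suf.mono {z x a : ℕ} {g L T L' T' : ℝ} (h : Suf z x a g L T) (hL : L ≤ L') (hT : T ≤ T') :
    Suf z x a g L' T' := by
  obtain ⟨n, X, G, E, ω, h1, h2, h3, h4, h5, h6, h7, h8, h9⟩ := h
  exact ⟨n, X, G, E, ω, h1, h2, h3, h4, h5, h6, h7, h8.trans hL, h9.trans hT⟩

/-- the last block. -/
theorem Suf.last {z x a : ℕ} {g g' e ω s : ℝ} (hg : g ≤ g')
    (hlev : ∀ v, IsPrimePow v → v.minFac ≠ z.minFac → 0 < Sx x v → a < v → LevB z x v g')
    (he : Real.exp (-Wt z x a) ≤ e) (hω : Real.exp ω ≤ 2) (hc : CapB z x a ω)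
    (hs : 1 - Real.exp (-ω) ≤ s) :
    Suf z x a g ((g' - g) * e) ((g' - g) * e * s) := by
  refine ⟨0, fun _ => a, fun _ => g', fun _ => e, fun _ => ω, rfl, by simp, fun _ => hg, by simp,
    fun _ _ => he, fun _ _ => ⟨hω, hc⟩, ?_, by simp, ?_⟩
  · intro v h1 h2 h3 i _ hi _
    exact hlev v h1 h2 h3 hi
  · simp only [Finset.range_zero, Finset.sum_empty, add_zero]
    have he0 : 0 ≤ e := (Real.exp_pos _).le.trans he
    exact mul_le_mul_of_nonneg_left hs (mul_nonneg (by linarith) he0)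

/-- one more block in front. -/
theorem Suf.cons {z x a b : ℕ} {g g' e ω s L T : ℝ} (hab : a < b) (hg : g ≤ g')
    (hlev : LevI z x a b g')
    (he : Real.exp (-Wt z x a) ≤ e) (hω : Real.exp ω ≤ 2) (hc : CapB z x a ω)
    (hs : 1 - Real.exp (-ω) ≤ s) (h : Suf z x b g' L T) :
    Suf z x a g ((g' - g) * e + L) ((g' - g) * e * s + T) := by
  obtain ⟨n, X, G, E, ω', h1, h2, h3, h4, h5, h6, h7, h8, h9⟩ := h
  have he0 : 0 ≤ e := (Real.exp_pos _).le.trans he
  refine ⟨n + 1, fun i => Nat.casesOn i a X, fun i => Nat.casesOn i g' G,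
    fun i => Nat.casesOn i e E, fun i => Nat.casesOn i ω ω', rfl, ?_, ?_, ?_, ?_, ?_, ?_, ?_, ?_⟩
  · intro i hi
    cases i with
    | zero => simpa [h1] using hab
    | succ i => exact h2 i (by omega)
  · intro i
    cases i with
    | zero => exact hg
    | succ i => exact hg.trans (h3 i)
  · intro i hi
    cases i with
    | zero => exact h3 0
    | succ i => exact h4 i (by omega)
  · intro i hi
    cases i with
    | zero => exact he
    | succ i => exact h5 i (by omega)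
  · intro i hi
    cases i with
    | zero => exact ⟨hω, hc⟩
    | succ i => exact h6 i (by omega)
  · intro v hv1 hv2 hv3 i hi hi1 hi2
    cases i with
    | zero =>
      have := hi2 (by omega)
      simp only at this
      exact hlev v hv1 hv2 hv3 hi1 (by rw [← h1]; exact this)
    | succ i =>
      exact h7 v hv1 hv2 hv3 i (by omega) hi1 (fun hin => hi2 (by omega))
  · rw [Finset.sum_range_succ']
    change (g' - g) * e + (∑ i ∈ range n, (G (i + 1) - G i) * E (i + 1) + (G 0 - g') * E 0) ≤ _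
    linarith
  · rw [Finset.sum_range_succ']
    change (g' - g) * e * (1 - Real.exp (-ω)) + (∑ i ∈ range n, (G (i + 1) - G i) * E (i + 1)
      * (1 - Real.exp (-ω' (i + 1))) + (G 0 - g') * E 0 * (1 - Real.exp (-ω' 0))) ≤ _
    have : (g' - g) * e * (1 - Real.exp (-ω)) ≤ (g' - g) * e * s :=
      mul_le_mul_of_nonneg_left hs (mul_nonneg (by linarith) he0)
    linarith

theorem Wt_zero (z x : ℕ) : Wt z x 0 = 0 := by
  unfold Wt ppK
  simp

/-- the block theorem. -/
theorem Suf.final {z x : ℕ} {L T : ℝ} (hz : IsPrimePow z) (h : Suf z x 0 0 L T) :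
    LINB z x (Real.log z * L) ∧ TOPB z x (Real.log z * T) := by
  obtain ⟨n, X, G, E, ω, h1, h2, h3, h4, h5, h6, h7, h8, h9⟩ := h
  have hBT := stmt_BT z x n X G E hz h1 h2 h3 h4 h5 (fun v a1 a2 a3 i a4 a5 a6 =>
    h7 v a1 a2 a3 i a4 a5 a6)
  obtain ⟨hL, hT⟩ := hBT
  have hT := hT ω (fun i hi => h6 i hi)
  have hlog := (z_facts hz).2
  have hh0 : 0 ≤ hh (z : ℝ) := by
    unfold hh
    have := (z_facts hz).1
    positivity
  have hE0 : 1 ≤ E 0 := by
    have := h5 0 (Nat.zero_le _)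
    rw [h1, Wt_zero] at this
    simpa using this
  have hω0 : 0 ≤ 1 - Real.exp (-ω 0) := by
    have h10 := (h6 0 (Nat.zero_le _)).2.nonneg
    have : Real.exp (-ω 0) ≤ 1 := Real.exp_le_one_iff.2 (by linarith)
    linarith
  have hG0 : 0 ≤ G 0 := h3 0
  have a1 : G 0 ≤ (G 0 - 0) * E 0 := by nlinarith
  have a2 : G 0 * (1 - Real.exp (-ω 0)) ≤ (G 0 - 0) * E 0 * (1 - Real.exp (-ω 0)) :=
    mul_le_mul_of_nonneg_right a1 hω0
  refine ⟨?_, ?_⟩
  · intro M hM VS hVS hM2
    have hb := hL M hM VS hVS hM2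
    refine hb.trans ?_
    have hhit := hit_nonneg x VS hVS M
    apply mul_le_mul_of_nonneg_right _ hhit
    apply mul_le_mul_of_nonneg_right _ hh0
    apply mul_le_mul_of_nonneg_left _ hlog.le
    linarith
  · intro M hM hI
    have hb := hT M hM hI
    refine hb.trans ?_
    apply mul_le_mul_of_nonneg_right _ hh0
    apply mul_le_mul_of_nonneg_left _ hlog.le
    linarith

/-! ### the crude bound -/

/-- crude bound for the components after `a`. -/
def SufA (z x a : ℕ) (A : ℝ) : Prop := ∃ C : ℕ → ℝ, (∀ v, 0 ≤ C v) ∧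
  (∀ v, IsPrimePow v → v.minFac ≠ z.minFac → 0 < Sx x v → a < v →
    KB z x v (C v * Real.log ((z : ℝ) * v))) ∧
  ∀ N, ∑ v ∈ (ppK N).filter (fun w => w.minFac ≠ z.minFac ∧ a < w), Sx x v / (v : ℝ) * C v ≤ A

theorem KB.mono {z x v : ℕ} {κ κ' : ℝ} (hz : IsPrimePow z) (hv : IsPrimePow v) (h : KB z x v κ)
    (hκ : κ ≤ κ') : KB z x v κ' := by
  intro VS hVS
  have h1 : (1 : ℝ) < z := by exact_mod_cast hz.one_lt
  have h2 : (1 : ℝ) < v := by exact_mod_cast hv.one_lt
  refine (h VS hVS).mono (fun w _ => Sx_nonneg x w) (fun w hw => ?_) (by nlinarith)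
    (Finset.Subset.refl _) hκ
  exact_mod_cast (hVS w hw).1.one_lt

/-- one more block in front. -/
theorem SufA.cons {z x a b : ℕ} {c d A : ℝ} (hab : a < b) (hc : 0 ≤ c)
    (hlev : ∀ v, IsPrimePow v → v.minFac ≠ z.minFac → 0 < Sx x v → a < v → v ≤ b →
      KB z x v (c * Real.log ((z : ℝ) * v)))
    (hd : Wt z x b - Wt z x a ≤ d) (h : SufA z x b A) : SufA z x a (c * d + A) := by
  obtain ⟨C, h1, h2, h3⟩ := h
  refine ⟨fun v => if v ≤ b then c else C v, ?_, ?_, ?_⟩
  · intro v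
    simp only
    split_ifs
    · exact hc
    · exact h1 v
  · intro v hv1 hv2 hv3 hv4
    by_cases hvb : v ≤ b
    · simp only [if_pos hvb]
      exact hlev v hv1 hv2 hv3 hv4 hvb
    · simp only [if_neg hvb]
      exact h2 v hv1 hv2 hv3 (by omega)
  · intro N
    have hnn : ∀ w : ℕ, 0 ≤ Sx x w / (w : ℝ) := fun w => div_nonneg (Sx_nonneg x w) (Nat.cast_nonneg w)
    have hsplit : ∑ v ∈ (ppK N).filter (fun w => w.minFac ≠ z.minFac ∧ a < w),
        Sx x v / (v : ℝ) * (if v ≤ b then c else C v)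
        ≤ ∑ v ∈ (ppK b).filter (fun w => w.minFac ≠ z.minFac ∧ a < w), Sx x v / (v : ℝ) * c
        + ∑ v ∈ (ppK N).filter (fun w => w.minFac ≠ z.minFac ∧ b < w), Sx x v / (v : ℝ) * C v := by
      rw [← Finset.sum_filter_add_sum_filter_not _ (fun w => w ≤ b)]
      apply add_le_add
      · have e : ∑ v ∈ ((ppK N).filter (fun w => w.minFac ≠ z.minFac ∧ a < w)).filter (fun w => w ≤ b),
            Sx x v / (v : ℝ) * (if v ≤ b then c else C v)
            = ∑ v ∈ ((ppK N).filter (fun w => w.minFac ≠ z.minFac ∧ a < w)).filter (fun w => w ≤ b),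
            Sx x v / (v : ℝ) * c := by
          apply Finset.sum_congr rfl
          intro v hv
          rw [if_pos (Finset.mem_filter.1 hv).2]
        rw [e]
        apply Finset.sum_le_sum_of_subset_of_nonneg
        · intro v hv
          simp only [Finset.mem_filter, mem_ppK] at hv ⊢
          exact ⟨⟨hv.1.1.1, hv.2⟩, hv.1.2⟩
        · intro v _ _
          exact mul_nonneg (hnn v) hc
      · have e : ∑ v ∈ ((ppK N).filter (fun w => w.minFac ≠ z.minFac ∧ a < w)).filter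
            (fun w => ¬ w ≤ b), Sx x v / (v : ℝ) * (if v ≤ b then c else C v)
            = ∑ v ∈ ((ppK N).filter (fun w => w.minFac ≠ z.minFac ∧ a < w)).filter
            (fun w => ¬ w ≤ b), Sx x v / (v : ℝ) * C v := by
          apply Finset.sum_congr rfl
          intro v hv
          rw [if_neg (Finset.mem_filter.1 hv).2]
        rw [e]
        apply Finset.sum_le_sum_of_subset_of_nonneg
        · intro v hv
          simp only [Finset.mem_filter] at hv ⊢
          exact ⟨hv.1.1, hv.1.2.1, by omega⟩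
        · intro v _ _
          exact mul_nonneg (hnn v) (h1 v)
    refine hsplit.trans (add_le_add ?_ (h3 N))
    rw [← Finset.sum_mul, mul_comm]
    apply mul_le_mul_of_nonneg_left _ hc
    refine le_trans (le_of_eq ?_) hd
    unfold Wt
    rw [eq_sub_iff_add_eq, ← Finset.sum_filter_add_sum_filter_not
      ((ppK b).filter (fun w => w.minFac ≠ z.minFac)) (fun w => a < w)]
    congr 1
    · apply Finset.sum_congr _ (fun _ _ => rfl)
      ext w
      simp only [Finset.mem_filter]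
      tauto
    · apply Finset.sum_congr _ (fun _ _ => rfl)
      ext w
      simp only [Finset.mem_filter, mem_ppK]
      constructor
      · rintro ⟨⟨h1, h2⟩, h3⟩
        exact ⟨⟨⟨h1, by omega⟩, h3⟩, by omega⟩
      · rintro ⟨⟨⟨h1, h2⟩, h3⟩, h4⟩
        exact ⟨⟨h1, by omega⟩, h3⟩

/-- the last block. -/
theorem SufA.last {z x a : ℕ} {c F : ℝ} (hc : 0 ≤ c)
    (hlev : ∀ v, IsPrimePow v → v.minFac ≠ z.minFac → 0 < Sx x v → a < v → KB z x v c)
    (hz : 2 ≤ z)
    (hF : ∀ N, ∑ v ∈ (ppK N).filter (fun v => a < v), 1 / ((v : ℝ) * Real.log ((z : ℝ) * v)) ≤ F) :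
    SufA z x a (c * F) := by
  refine ⟨fun v => c / Real.log ((z : ℝ) * v), ?_, ?_, ?_⟩
  · intro v
    apply div_nonneg hc
    have : ((z : ℝ) * v) = ((z * v : ℕ) : ℝ) := by push_cast; ring
    rw [this]
    exact Real.log_natCast_nonneg _
  · intro v hv1 hv2 hv3 hv4
    have h1 : (1 : ℝ) < z := by exact_mod_cast hz
    have h2 : (1 : ℝ) < v := by exact_mod_cast hv1.one_lt
    have h3 : 0 < Real.log ((z : ℝ) * v) := Real.log_pos (by nlinarith)
    simp only
    rw [div_mul_cancel₀ _ h3.ne']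
    exact hlev v hv1 hv2 hv3 hv4
  · intro N
    rw [Finset.sum_congr rfl (fun v _ => show Sx x v / (v : ℝ) * (c / Real.log ((z : ℝ) * v))
      = c * (Sx x v * (1 / ((v : ℝ) * Real.log ((z : ℝ) * v)))) by
        rw [div_mul_div_comm, mul_one_div, mul_div_assoc', mul_comm (Sx x v) c]), ← Finset.mul_sum]
    apply mul_le_mul_of_nonneg_left _ hc
    refine le_trans ?_ (hF N)
    have hnn : ∀ v : ℕ, 0 ≤ 1 / ((v : ℝ) * Real.log ((z : ℝ) * v)) := by
      intro v
      have : ((z : ℝ) * v) = ((z * v : ℕ) : ℝ) := by push_cast; ring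
      rw [this]
      have := Real.log_natCast_nonneg (z * v)
      positivity
    refine le_trans (Finset.sum_le_sum (g := fun v : ℕ => 1 / ((v : ℝ) * Real.log ((z : ℝ) * v)))
      fun v _ => ?_) ?_
    · exact mul_le_of_le_one_left (hnn v) (Sx_le_one x v)
    · apply Finset.sum_le_sum_of_subset_of_nonneg
      · intro v hv
        simp only [Finset.mem_filter] at hv ⊢
        exact ⟨hv.1, hv.2.2⟩
      · intro v _ _
        exact hnn v

theorem SufA.mono {z x a : ℕ} {A A' : ℝ} (h : SufA z x a A) (hA : A ≤ A') : SufA z x a A' := by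
  obtain ⟨C, h1, h2, h3⟩ := h
  exact ⟨C, h1, h2, fun N => (h3 N).trans hA⟩

theorem SufA.final {z x : ℕ} {A : ℝ} (hz : IsPrimePow z) (h : SufA z x 0 A) :
    ABSB z x (Real.log z * A) := by
  obtain ⟨C, h1, h2, h3⟩ := h
  refine stmt_AB z x C A hz h1 (fun v a1 a2 a3 => h2 v a1 a2 a3 a1.pos) ?_
  intro N
  refine le_trans (le_of_eq ?_) (h3 N)
  apply Finset.sum_congr _ (fun _ _ => rfl)
  ext w
  simp only [Finset.mem_filter]
  refine ⟨fun h => ⟨h.1, h.2, ?_⟩, fun h => ⟨h.1, h.2.1⟩⟩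
  have : IsPrimePow w := by
    unfold ppK at h
    exact (Finset.mem_filter.1 h.1).2
  exact this.pos

end Pool.Agent.EZ
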