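import Pool.Agent.EZ.Tab
import Pool.Agent.EZ.Suf
import Pool.Agent.EZ.Cap

/-!
# Scanning the table: weights and caps
-/

set_option autoImplicit false
set_option linter.unusedSectionVars false
set_option linter.unusedVariables false

namespace Pool.Agent.EZ

open Finset

/-- forced evaluation, values in `ℕ`. -/
noncomputable def frn (x : ℕ) (f : ℕ → ℕ) : ℕ :=
  Nat.rec (motive := fun _ => ℕ) (f 0) (fun y _ => f (Nat.succ y)) x

theorem frn_eq (x : ℕ) (f : ℕ → ℕ) : frn x f = f x := by cases x <;> rfl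

/-! ### the survival function -/

/-- survival of a prime `t + 2 ≥ 11`. -/
def svP (x t : ℕ) : ℕ :=
  cond (Nat.ble x (Nat.mul t 10000)) 1000 (cond (Nat.ble x (Nat.mul t 13000)) 769
    (cond (Nat.ble x (Nat.mul t 16900)) 591 (cond (Nat.ble x (Nat.mul t 21970)) 455
      (cond (Nat.ble x (Nat.mul t 28561)) 350 0))))

/-- fast version of `svN`. -/
def svB (x v r : ℕ) : ℕ :=
  cond (Nat.ble v 64) (svN x v r) (cond (Nat.beq v r) (svP x (Nat.sub v 2))
    (cond (Nat.ble x (Nat.mul (Nat.sub v (Nat.div v r)) 10000)) 1000 0))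

theorem ble_cond {α : Type} (a b : ℕ) (u w : α) : cond (Nat.ble a b) u w = if a ≤ b then u else w := by
  by_cases h : a ≤ b
  · have : Nat.ble a b = true := by rw [Nat.ble_eq]; exact h
    rw [this, if_pos h]; rfl
  · have : Nat.ble a b = false := by
      cases hb : Nat.ble a b with
      | false => rfl
      | true => rw [Nat.ble_eq] at hb; exact absurd hb h
    rw [this, if_neg h]; rfl

theorem beq_cond {α : Type} (a b : ℕ) (u w : α) : cond (Nat.beq a b) u w = if a = b then u else w := by
  by_cases h : a = b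
  · have : Nat.beq a b = true := by rw [Nat.beq_eq]; exact h
    rw [this, if_pos h]; rfl
  · have : Nat.beq a b = false := by
      cases hb : Nat.beq a b with
      | false => rfl
      | true => rw [Nat.beq_eq] at hb; exact absurd hb h
    rw [this, if_neg h]; rfl

theorem svP_eq (x t : ℕ) : svP x t =
    (if x ≤ t * 10000 then 231 else 0) + (if x ≤ t * 13000 then 178 else 0)
    + (if x ≤ t * 16900 then 136 else 0) + (if x ≤ t * 21970 then 105 else 0)
    + (if x ≤ t * 28561 then 350 else 0) := by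
  have h1 : t * 10000 ≤ t * 13000 := Nat.mul_le_mul_left t (by norm_num)
  have h2 : t * 13000 ≤ t * 16900 := Nat.mul_le_mul_left t (by norm_num)
  have h3 : t * 16900 ≤ t * 21970 := Nat.mul_le_mul_left t (by norm_num)
  have h4 : t * 21970 ≤ t * 28561 := Nat.mul_le_mul_left t (by norm_num)
  unfold svP
  simp only [ble_cond]
  change (if x ≤ t * 10000 then 1000 else if x ≤ t * 13000 then 769 else
    if x ≤ t * 16900 then 591 else if x ≤ t * 21970 then 455 else if x ≤ t * 28561 then 350 else 0)
    = _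
  by_cases a1 : x ≤ t * 10000
  · rw [if_pos a1, if_pos a1, if_pos (a1.trans h1), if_pos ((a1.trans h1).trans h2),
      if_pos (((a1.trans h1).trans h2).trans h3), if_pos ((((a1.trans h1).trans h2).trans h3).trans h4)]
  · rw [if_neg a1, if_neg a1]
    by_cases a2 : x ≤ t * 13000
    · rw [if_pos a2, if_pos a2, if_pos (a2.trans h2), if_pos ((a2.trans h2).trans h3),
        if_pos (((a2.trans h2).trans h3).trans h4)]
    · rw [if_neg a2, if_neg a2]
      by_cases a3 : x ≤ t * 16900
      · rw [if_pos a3, if_pos a3, if_pos (a3.trans h3), if_pos ((a3.trans h3).trans h4)]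
      · rw [if_neg a3, if_neg a3]
        by_cases a4 : x ≤ t * 21970
        · rw [if_pos a4, if_pos a4, if_pos (a4.trans h4)]
        · rw [if_neg a4, if_neg a4]
          by_cases a5 : x ≤ t * 28561
          · rw [if_pos a5]
          · rw [if_neg a5]

theorem svB_eq (x v r : ℕ) : svB x v r = svN x v r := by
  unfold svB
  rw [ble_cond, beq_cond]
  split_ifs with h1 h2
  · rfl
  · subst h2
    rw [svP_eq]
    have e : ∀ j, ck v v j = (v - 2) * 13 ^ j * 10 ^ (4 - j) := by
      intro j
      unfold ck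
      simp only [if_neg (by omega : v ≠ 2), if_neg (by omega : v ≠ 3), if_neg (by omega : v ≠ 4),
        if_neg (by omega : v ≠ 5), if_neg (by omega : v ≠ 7), if_neg (by omega : v ≠ 8),
        if_neg (by omega : v ≠ 9), if_neg (by omega : v ≠ 16), if_neg (by omega : v ≠ 25),
        if_neg (by omega : v ≠ 27), if_neg (by omega : v ≠ 32), if_neg (by omega : v ≠ 64), if_true]
    simp only [svN, e, pk, if_neg (by omega : v ≠ 3), if_neg (by omega : v ≠ 5),
      if_neg (by omega : v ≠ 7), if_neg (by omega : v ≠ 9)]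
    change _ = _
    simp only [and_true, if_pos (by omega : 11 ≤ v), mul_assoc]
    norm_num
  · rw [ble_cond]
    have e : ∀ j, ck v r j = (v - v / r) * 10000 := by
      intro j
      unfold ck
      simp only [if_neg (by omega : v ≠ 2), if_neg (by omega : v ≠ 3), if_neg (by omega : v ≠ 4),
        if_neg (by omega : v ≠ 5), if_neg (by omega : v ≠ 7), if_neg (by omega : v ≠ 8),
        if_neg (by omega : v ≠ 9), if_neg (by omega : v ≠ 16), if_neg (by omega : v ≠ 25),
        if_neg (by omega : v ≠ 27), if_neg (by omega : v ≠ 32), if_neg (by omega : v ≠ 64), if_neg h2]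
    simp only [svN, e, pk, if_neg (by omega : v ≠ 3), if_neg (by omega : v ≠ 5),
      if_neg (by omega : v ≠ 7), if_neg (by omega : v ≠ 9)]
    have h3 : ¬ (11 ≤ v ∧ v = r) := fun h => h2 h.2
    simp only [if_neg h3]
    change (if x ≤ (v - v / r) * 10000 then 1000 else 0) = _
    simp

theorem svB_Sx (x v r : ℕ) (hr : r = v.minFac) : Sx x v = (svB x v r : ℝ) / 1000 := by
  rw [svB_eq, hr]; rfl

/-! ### facts on `TGood` lists -/

theorem TGood.tail {a N : ℕ} {e : PE} {tl : List PE} (h : TGood a N (e :: tl)) : TGood e.1 N tl := by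
  obtain ⟨h1, h2, h3⟩ := h
  rw [List.pairwise_cons] at h2
  refine ⟨?_, h2.2, ?_⟩
  · intro e' he'
    exact ⟨h2.1 e' he', (h1 e' (List.mem_cons_of_mem _ he')).2⟩
  · intro v hv h4 h5
    have ha := (h1 e (by simp)).1
    obtain ⟨e', he', h6⟩ := h3 v hv (by omega) h5
    rcases List.mem_cons.1 he' with rfl | he'
    · omega
    · exact ⟨e', he', h6⟩

theorem TGood.gap {a N : ℕ} {e : PE} {tl : List PE} (h : TGood a N (e :: tl)) {v : ℕ}
    (hv : IsPrimePow v) (hav : a < v) : e.1 ≤ v := by
  obtain ⟨h1, h2, h3⟩ := h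
  rw [List.pairwise_cons] at h2
  by_contra hc
  have hN := (h1 e (by simp)).2.1
  obtain ⟨e', he', h6⟩ := h3 v hv hav (by omega)
  rcases List.mem_cons.1 he' with rfl | he'
  · omega
  · have := h2.1 e' he'
    omega

theorem TGood.head {a N : ℕ} {e : PE} {tl : List PE} (h : TGood a N (e :: tl)) :
    a < e.1 ∧ e.1 ≤ N ∧ EOK e := h.1 e (by simp)

theorem TGood.raise {a b N : ℕ} {e : PE} {tl : List PE} (h : TGood a N (e :: tl)) (hab : a ≤ b)
    (hb : b < e.1) : TGood b N (e :: tl) := by
  have hp := h.2.1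
  rw [List.pairwise_cons] at hp
  refine ⟨?_, h.2.1, fun v hv h4 h5 => h.2.2 v hv (by omega) h5⟩
  intro e' he'
  refine ⟨?_, (h.1 e' he').2⟩
  rcases List.mem_cons.1 he' with rfl | he'
  · exact hb
  · exact hb.trans (hp.1 e' he')

theorem TGood.nil_raise {a b N : ℕ} (h : TGood a N []) (hab : a ≤ b) : TGood b N [] := by
  refine ⟨by simp, List.Pairwise.nil, ?_⟩
  intro v hv h4 h5
  obtain ⟨e, he, -⟩ := h.2.2 v hv (by omega) h5
  simp at he

/-! ### increments of the weight -/

theorem Wt_split (z x a b : ℕ) (hab : a ≤ b) : Wt z x b = Wt z x a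
    + ∑ w ∈ (ppK b).filter (fun w => w.minFac ≠ z.minFac ∧ a < w), Sx x w / (w : ℝ) := by
  unfold Wt
  rw [add_comm, ← Finset.sum_filter_add_sum_filter_not
    ((ppK b).filter (fun w => w.minFac ≠ z.minFac)) (fun w => a < w)]
  congr 1
  · apply Finset.sum_congr _ (fun _ _ => rfl)
    ext w
    simp only [Finset.mem_filter]
    tauto
  · apply Finset.sum_congr _ (fun _ _ => rfl)
    ext w
    simp only [Finset.mem_filter, mem_ppK]
    constructor
    · rintro ⟨⟨⟨h1, h2⟩, h3⟩, h4⟩
      exact ⟨⟨h1, by omega⟩, h3⟩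
    · rintro ⟨⟨h1, h2⟩, h3⟩
      exact ⟨⟨⟨h1, by omega⟩, h3⟩, by omega⟩

theorem Wt_mono {z x a b : ℕ} (hab : a ≤ b) : Wt z x a ≤ Wt z x b := by
  rw [Wt_split z x a b hab]
  have : 0 ≤ ∑ w ∈ (ppK b).filter (fun w => w.minFac ≠ z.minFac ∧ a < w), Sx x w / (w : ℝ) :=
    Finset.sum_nonneg fun w _ => Sx_div_nonneg x w
  linarith

theorem Wt_gap {z x a b : ℕ} (hab : a ≤ b)
    (h : ∀ w, IsPrimePow w → w.minFac ≠ z.minFac → 0 < Sx x w → a < w → b < w) :
    Wt z x b = Wt z x a := by
  rw [Wt_split z x a b hab]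
  have : ∑ w ∈ (ppK b).filter (fun w => w.minFac ≠ z.minFac ∧ a < w), Sx x w / (w : ℝ) = 0 := by
    apply Finset.sum_eq_zero
    intro w hw
    simp only [Finset.mem_filter, mem_ppK] at hw
    rcases (Sx_nonneg x w).eq_or_lt with h0 | h0
    · rw [← h0]; simp
    · have := h w hw.1.1 hw.2.1 h0 hw.2.2
      omega
  rw [this, add_zero]

theorem Wt_step {z x a v : ℕ} (hav : a < v) (hv : IsPrimePow v) (hvz : v.minFac ≠ z.minFac)
    (h : ∀ w, IsPrimePow w → w.minFac ≠ z.minFac → 0 < Sx x w → a < w → v ≤ w) :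
    Wt z x v = Wt z x a + Sx x v / (v : ℝ) := by
  rw [Wt_split z x a v hav.le]
  congr 1
  have : v ∈ (ppK v).filter (fun w => w.minFac ≠ z.minFac ∧ a < w) := by
    simp only [Finset.mem_filter, mem_ppK]
    exact ⟨⟨hv, le_rfl⟩, hvz, hav⟩
  rw [Finset.sum_eq_single_of_mem v this]
  intro w hw hne
  simp only [Finset.mem_filter, mem_ppK] at hw
  rcases (Sx_nonneg x w).eq_or_lt with h0 | h0
  · rw [← h0]; simp
  · have := h w hw.1.1 hw.2.1 h0 hw.2.2
    omega

/-! ### scanning to an end point -/

/-- scan to `b`. -/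
noncomputable def scanW (x rz b : ℕ) (l : List PE) : ℕ → ℕ → (List PE → ℕ → ℕ → Bool) → Bool :=
  List.rec (motive := fun _ => ℕ → ℕ → (List PE → ℕ → ℕ → Bool) → Bool)
    (fun wl wu k => k [] wl wu)
    (fun e tl ih wl wu k =>
      cond (Nat.ble e.1 b)
        (cond (Nat.beq e.2.1 rz) (ih wl wu k)
          (frc (Nat.mul (svB x e.1 e.2.1) 1000000000) fun s =>
            frc (Nat.div s e.1) fun t =>
            frc (Nat.add wl t) fun wl' =>
            frc (Nat.add wu (Nat.succ t)) fun wu' => ih wl' wu' k))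
        (k (e :: tl) wl wu)) l

theorem term_bounds {x v r : ℕ} (hr : r = v.minFac) (hv : 0 < v) :
    Lo (Sx x v / (v : ℝ)) (Nat.div (Nat.mul (svB x v r) 1000000000) v) ∧
    Up (Sx x v / (v : ℝ)) (Nat.succ (Nat.div (Nat.mul (svB x v r) 1000000000) v)) := by
  have e : ((Nat.mul (svB x v r) 1000000000 : ℕ) : ℝ) = (svB x v r : ℝ) * 1000000000 := by
    change ((svB x v r * 1000000000 : ℕ) : ℝ) = _
    push_cast; ring
  rw [svB_Sx x v r hr]
  constructor
  · unfold Lo
    refine (cast_div_le' _ _).trans (le_of_eq ?_)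
    rw [e]; ring
  · unfold Up
    refine le_trans (le_of_eq ?_) (cast_div_ge _ _ hv)
    rw [e]; ring

theorem scanW_cons (x rz b : ℕ) (e : PE) (tl : List PE) (wl wu : ℕ) (k : List PE → ℕ → ℕ → Bool) :
    scanW x rz b (e :: tl) wl wu k = if e.1 ≤ b then
      (if e.2.1 = rz then scanW x rz b tl wl wu k else
        scanW x rz b tl (Nat.add wl (Nat.div (Nat.mul (svB x e.1 e.2.1) 1000000000) e.1))
          (Nat.add wu (Nat.succ (Nat.div (Nat.mul (svB x e.1 e.2.1) 1000000000) e.1))) k)
      else k (e :: tl) wl wu := by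
  have h : scanW x rz b (e :: tl) wl wu k = cond (Nat.ble e.1 b)
        (cond (Nat.beq e.2.1 rz) (scanW x rz b tl wl wu k)
          (frc (Nat.mul (svB x e.1 e.2.1) 1000000000) fun s =>
            frc (Nat.div s e.1) fun t =>
            frc (Nat.add wl t) fun wl' =>
            frc (Nat.add wu (Nat.succ t)) fun wu' => scanW x rz b tl wl' wu' k))
        (k (e :: tl) wl wu) := rfl
  rw [h, ble_cond, beq_cond]
  simp only [frc_eq]

theorem scanW_sound (z x b N : ℕ) (hb : b ≤ N) : ∀ (l : List PE) (a wl wu : ℕ)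
    (k : List PE → ℕ → ℕ → Bool), TGood a N l → a ≤ b → Lo (Wt z x a) wl → Up (Wt z x a) wu →
    scanW x z.minFac b l wl wu k = true → ∃ l' wl' wu', TGood b N l' ∧ Lo (Wt z x b) wl' ∧
      Up (Wt z x b) wu' ∧ k l' wl' wu' = true := by
  intro l
  induction l with
  | nil =>
    intro a wl wu k hg hab h1 h2 h
    refine ⟨[], wl, wu, hg.nil_raise hab, ?_, ?_, h⟩ <;>
    · rw [Wt_gap hab]
      · assumption
      · intro w hw _ _ haw
        by_contra hc
        obtain ⟨e, he, -⟩ := hg.2.2 w hw haw (by omega)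
        simp at he
  | cons e tl ih =>
    intro a wl wu k hg hab h1 h2 h
    rw [scanW_cons] at h
    obtain ⟨c1, c2, c3⟩ := hg.head
    by_cases he : e.1 ≤ b
    · rw [if_pos he] at h
      by_cases hr : e.2.1 = z.minFac
      · rw [if_pos hr] at h
        have hW : Wt z x e.1 = Wt z x a := by
          rw [Wt_split z x a e.1 c1.le]
          have : ∑ w ∈ (ppK e.1).filter (fun w => w.minFac ≠ z.minFac ∧ a < w), Sx x w / (w : ℝ) = 0 := by
            apply Finset.sum_eq_zero
            intro w hw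
            simp only [Finset.mem_filter, mem_ppK] at hw
            have h3 := hg.gap hw.1.1 hw.2.2
            have h4 : w = e.1 := by omega
            exact absurd (by rw [h4, ← c3.2.1, hr]) hw.2.1
          rw [this, add_zero]
        exact ih e.1 wl wu k hg.tail he (by rw [hW]; exact h1) (by rw [hW]; exact h2) h
      · rw [if_neg hr] at h
        obtain ⟨t1, t2⟩ := term_bounds (x := x) c3.2.1 c3.1.pos
        have hW : Wt z x e.1 = Wt z x a + Sx x e.1 / (e.1 : ℝ) :=
          Wt_step c1 c3.1 (by rw [← c3.2.1]; exact hr) (fun w hw _ _ haw => hg.gap hw haw)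
        exact ih e.1 _ _ k hg.tail he (by rw [hW]; exact h1.add t1) (by rw [hW]; exact h2.add t2) h
    · rw [if_neg he] at h
      refine ⟨e :: tl, wl, wu, hg.raise hab (by omega), ?_, ?_, h⟩ <;>
      · rw [Wt_gap hab]
        · assumption
        · intro w hw _ _ haw
          have := hg.gap hw haw
          omega

/-! ### scanning one alive component -/

/-- scan to the next alive entry, which must be `b`. -/
noncomputable def scan1 (x rz b : ℕ) (l : List PE) (k : PE → List PE → Bool) : Bool :=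
  List.rec (motive := fun _ => Bool) false
    (fun e tl ih => cond (Nat.beq e.1 b) (cond (Nat.beq e.2.1 rz) false (k e tl))
      (cond (Nat.beq e.2.1 rz) ih (cond (Nat.beq (svB x e.1 e.2.1) 0) ih false))) l

theorem scan1_cons (x rz b : ℕ) (e : PE) (tl : List PE) (k : PE → List PE → Bool) :
    scan1 x rz b (e :: tl) k = if e.1 = b then (if e.2.1 = rz then false else k e tl) else
      (if e.2.1 = rz then scan1 x rz b tl k else
        (if svB x e.1 e.2.1 = 0 then scan1 x rz b tl k else false)) := by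
  have h : scan1 x rz b (e :: tl) k = cond (Nat.beq e.1 b) (cond (Nat.beq e.2.1 rz) false (k e tl))
      (cond (Nat.beq e.2.1 rz) (scan1 x rz b tl k)
        (cond (Nat.beq (svB x e.1 e.2.1) 0) (scan1 x rz b tl k) false)) := rfl
  rw [h, beq_cond, beq_cond, beq_cond, beq_cond]

theorem scan1_sound (z x b N : ℕ) : ∀ (l : List PE) (a : ℕ) (k : PE → List PE → Bool),
    TGood a N l → scan1 x z.minFac b l k = true → ∃ (e : PE) (tl : List PE), e.1 = b ∧ EOK e ∧
      e.2.1 ≠ z.minFac ∧ TGood b N tl ∧ a < b ∧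
      (∀ v, IsPrimePow v → v.minFac ≠ z.minFac → 0 < Sx x v → a < v → b ≤ v) ∧
      Wt z x b = Wt z x a + Sx x b / (b : ℝ) ∧ k e tl = true := by
  intro l
  induction l with
  | nil => intro a k hg h; exact absurd h (by simp [scan1])
  | cons e tl ih =>
    intro a k hg h
    rw [scan1_cons] at h
    obtain ⟨c1, c2, c3⟩ := hg.head
    by_cases he : e.1 = b
    · rw [if_pos he] at h
      by_cases hr : e.2.1 = z.minFac
      · rw [if_pos hr] at h; simp at h
      · rw [if_neg hr] at h
        have hgap : ∀ v, IsPrimePow v → v.minFac ≠ z.minFac → 0 < Sx x v → a < v → b ≤ v := by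
          intro v hv _ _ hav
          rw [← he]; exact hg.gap hv hav
        refine ⟨e, tl, he, c3, hr, by rw [← he]; exact hg.tail, by omega, hgap, ?_, h⟩
        apply Wt_step (by omega) (by rw [← he]; exact c3.1) (by rw [← he, ← c3.2.1]; exact hr) hgap
    · rw [if_neg he] at h
      have key : (∀ v, IsPrimePow v → v.minFac ≠ z.minFac → 0 < Sx x v → a < v → e.1 < v) →
          scan1 x z.minFac b tl k = true → ∃ (e : PE) (tl : List PE), e.1 = b ∧ EOK e ∧
          e.2.1 ≠ z.minFac ∧ TGood b N tl ∧ a < b ∧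
          (∀ v, IsPrimePow v → v.minFac ≠ z.minFac → 0 < Sx x v → a < v → b ≤ v) ∧
          Wt z x b = Wt z x a + Sx x b / (b : ℝ) ∧ k e tl = true := by
        intro hnot h'
        obtain ⟨e', tl', d1, d2, d3, d4, d5, d6, d7, d8⟩ := ih e.1 k hg.tail h'
        refine ⟨e', tl', d1, d2, d3, d4, by omega, ?_, ?_, d8⟩
        · intro v hv hvz hv0 hav
          exact d6 v hv hvz hv0 (hnot v hv hvz hv0 hav)
        · rw [d7, Wt_gap c1.le hnot]
      by_cases hr : e.2.1 = z.minFac
      · rw [if_pos hr] at h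
        apply key _ h
        intro v hv hvz hv0 hav
        have h3 := hg.gap hv hav
        rcases h3.eq_or_lt with h4 | h4
        · exact absurd (by rw [← h4, ← c3.2.1, hr]) hvz
        · exact h4
      · rw [if_neg hr] at h
        by_cases hs : svB x e.1 e.2.1 = 0
        · rw [if_pos hs] at h
          apply key _ h
          intro v hv hvz hv0 hav
          have h3 := hg.gap hv hav
          rcases h3.eq_or_lt with h4 | h4
          · rw [← h4, svB_Sx x e.1 e.2.1 c3.2.1, hs] at hv0
            simp at hv0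
          · exact h4
        · rw [if_neg hs] at h; simp at h

/-! ### first entry of a block -/

/-- skip the powers of the prime of the root. -/
noncomputable def lof (rz : ℕ) (l : List PE) (k : PE → List PE → Bool) : Bool :=
  List.rec (motive := fun _ => Bool) false
    (fun e tl ih => cond (Nat.beq e.2.1 rz) ih (k e tl)) l

theorem lof_sound (z N : ℕ) : ∀ (l : List PE) (a : ℕ) (k : PE → List PE → Bool),
    TGood a N l → lof z.minFac l k = true → ∃ (e : PE) (tl : List PE), EOK e ∧ TGood e.1 N tl ∧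
      a < e.1 ∧ (∀ v, IsPrimePow v → v.minFac ≠ z.minFac → a < v → e.1 ≤ v) ∧ k e tl = true := by
  intro l
  induction l with
  | nil => intro a k hg h; exact absurd h (by simp [lof])
  | cons e tl ih =>
    intro a k hg h
    have h0 : lof z.minFac (e :: tl) k = cond (Nat.beq e.2.1 z.minFac) (lof z.minFac tl k) (k e tl) :=
      rfl
    rw [h0, beq_cond] at h
    obtain ⟨c1, c2, c3⟩ := hg.head
    by_cases hr : e.2.1 = z.minFac
    · rw [if_pos hr] at h
      obtain ⟨e', tl', d1, d2, d3, d4, d5⟩ := ih e.1 k hg.tail h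
      refine ⟨e', tl', d1, d2, by omega, ?_, d5⟩
      intro v hv hvz hav
      have h3 := hg.gap hv hav
      rcases h3.eq_or_lt with h4 | h4
      · exact absurd (by rw [← h4, ← c3.2.1, hr]) hvz
      · exact d4 v hv hvz h4
    · rw [if_neg hr] at h
      exact ⟨e, tl, c3, hg.tail, c1, fun v hv _ hav => hg.gap hv hav, h⟩

end Pool.Agent.EZ
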