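import Pool.Agent.EZ.EngSpecs
import Pool.Agent.EZ.Scan

/-!
# Engine: module SV (survival probabilities)
-/

set_option autoImplicit false

namespace Pool.Agent.EZ

open Finset

theorem pp_le_nine {v : ℕ} (hv : IsPrimePow v) (h : v ≤ 9) :
    v = 2 ∨ v = 3 ∨ v = 4 ∨ v = 5 ∨ v = 7 ∨ v = 8 ∨ v = 9 := by
  have h2 := hv.two_le
  by_contra hc
  have h6 : v = 6 := by omega
  subst h6
  have h3 := (kp_ne_zero_iff (n := 6) (by norm_num) (by norm_num)).2 hv
  exact h3 (by decide +kernel)

theorem pp_small_run : ((List.range 65).all fun n => Nat.ble n 9 || Nat.beq (kp n) 0 ||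
    Nat.beq (kp n) 1 || Nat.beq n 16 || Nat.beq n 25 || Nat.beq n 27 || Nat.beq n 32 ||
    Nat.beq n 49 || Nat.beq n 64) = true := by decide +kernel

theorem pp_small (v : ℕ) (hv : IsPrimePow v) (h9 : 9 < v) (h64 : v ≤ 64) (hnp : v ≠ v.minFac) :
    v = 16 ∨ v = 25 ∨ v = 27 ∨ v = 32 ∨ v = 49 ∨ v = 64 := by
  have key0 := List.all_eq_true.1 pp_small_run v (List.mem_range.2 (by omega))
  simp only [Bool.or_eq_true, Nat.ble_eq, Nat.beq_eq] at key0
  suffices h1 : kp v ≠ 1 by
    have h0 := (kp_ne_zero_iff (n := v) (by omega) (by omega)).2 hv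
    omega
  intro h1
  have hvm := vonMangoldt_kp (n := v) (by omega) (by omega)
  have hk : kp v ≠ 0 := by omega
  rw [if_neg hk, h1] at hvm
  rw [ArithmeticFunction.vonMangoldt_apply, if_pos hv] at hvm
  have hp : v.minFac.Prime := Nat.minFac_prime (by omega)
  have h2 : Real.log (v.minFac : ℝ) = Real.log (v : ℝ) := by
    rw [hvm]; simp
  have h3 : (v.minFac : ℝ) = v := by
    apply Real.log_injOn_pos
    · exact Set.mem_Ioi.2 (by exact_mod_cast hp.pos)
    · exact Set.mem_Ioi.2 (by
        have : 0 < v := by omega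
        exact_mod_cast this)
    · exact h2
  have h4 : v.minFac = v := by exact_mod_cast h3
  exact hnp h4.symm

theorem svF_eq (x v : ℕ) (hx : 70000 ≤ x) (hv : IsPrimePow v) : svF x v v.minFac = svN x v v.minFac := by
  have hp : v.minFac.Prime := Nat.minFac_prime hv.one_lt.ne'
  have m2 : Nat.minFac 2 = 2 := by norm_num
  have m3 : Nat.minFac 3 = 3 := by norm_num
  have m4 : Nat.minFac 4 = 2 := by norm_num
  have m5 : Nat.minFac 5 = 5 := by norm_num
  have m7 : Nat.minFac 7 = 7 := by norm_num
  have m8 : Nat.minFac 8 = 2 := by norm_num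
  have m9 : Nat.minFac 9 = 3 := by norm_num
  have m16 : Nat.minFac 16 = 2 := by norm_num
  have m25 : Nat.minFac 25 = 5 := by norm_num
  have m27 : Nat.minFac 27 = 3 := by norm_num
  have m32 : Nat.minFac 32 = 2 := by norm_num
  have m49 : Nat.minFac 49 = 7 := by norm_num
  have m64 : Nat.minFac 64 = 2 := by norm_num
  have x1 : ¬ x ≤ 10000 := by omega
  have x2 : ¬ x ≤ 15000 := by omega
  have x3 : ¬ x ≤ 30000 := by omega
  have x4 : ¬ x ≤ 20000 := by omega
  have x5 : ¬ x ≤ 35000 := by omega
  have x6 : ¬ x ≤ 55000 := by omega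
  have x7 : ¬ x ≤ 60000 := by omega
  have x8 : ¬ x ≤ 50000 := by omega
  have x9 : ¬ x ≤ 40000 := by omega
  have x10 : ¬ x ≤ 65000 := by omega
  by_cases h9 : v ≤ 9
  · rcases pp_le_nine hv h9 with h | h | h | h | h | h | h <;>
    · subst h
      simp only [m2, m3, m4, m5, m7, m8, m9, svF, beq_cond, ble_cond, svN, ck, pk]
      norm_num [x1, x2, x3, x4, x5, x6, x7, x8, x9, x10]
  · by_cases h64 : v ≤ 64
    · by_cases hnp : v = v.minFac
      · have hvp : v.Prime := hnp ▸ hp
        have h11 : 11 ≤ v := by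
          by_contra hc
          have h10 : v = 10 := by omega
          rw [h10] at hvp
          exact absurd hvp (by norm_num)
        rw [← hnp, svN_prime x v h11 hvp, ← svP_eq]
        simp only [svF, svP, beq_cond, ble_cond, if_neg h9, if_true]
        rfl
      · rcases pp_small v hv (by omega) h64 hnp with h | h | h | h | h | h <;>
        · subst h
          simp only [m16, m25, m27, m32, m49, m64, svF, beq_cond, ble_cond, svN, ck, pk]
          norm_num
    · have h1 := svB_eq x v v.minFac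
      rw [← h1]
      simp only [svF, svB, svP, beq_cond, ble_cond, if_neg h9, if_neg h64]
      by_cases hr : v = v.minFac
      · rw [if_pos hr, if_pos hr]
      · rw [if_neg hr, if_neg hr, if_neg (by omega), if_neg (by omega), if_neg (by omega),
          if_neg (by omega), if_neg (by omega)]

theorem Sx_far (x w c : ℕ) (_hx : 70000 ≤ x) (hxc : x ≤ 5000 * c) (hc : 64 ≤ c) (hcw : c < w)
    (hw : IsPrimePow w) : Sx x w = 1 := by
  have hp : w.minFac.Prime := Nat.minFac_prime hw.one_lt.ne'
  have h1 : svB x w w.minFac = 1000 := by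
    unfold svB
    rw [ble_cond, if_neg (by omega)]
    by_cases hr : w = w.minFac
    · rw [beq_cond, if_pos hr]
      unfold svP
      rw [ble_cond, if_pos (by change x ≤ (w - 2) * 10000; omega)]
    · rw [beq_cond, if_neg hr, ble_cond]
      have hd : w / w.minFac ≤ w / 2 := Nat.div_le_div_left hp.two_le (by norm_num)
      rw [if_pos (by change x ≤ (w - w / w.minFac) * 10000; omega)]
  rw [svB_Sx x w w.minFac rfl, h1]
  norm_num

theorem Sv_proof : Stmt_Sv := ⟨svF_eq, Sx_far⟩

end Pool.Agent.EZ
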