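import Pool.Agent.EZ.Cap

/-!
# Pairs of clock values: the hypothesis of the top lemma, checked by the kernel
-/

set_option autoImplicit false
set_option linter.unusedSectionVars false
set_option linter.unusedVariables false

namespace Pool.Agent.EZ

open Finset

/-- upper bound for `exp w - 1`. -/
def Eb (w : ℚ) : ℚ := w + w ^ 2 / 2 + w ^ 3 / 6 + w ^ 4 / 24 + w ^ 5 / 100

theorem exp_sub_one_le_Eb (w : ℚ) (h0 : 0 ≤ w) (h1 : w ≤ 1) :
    Real.exp (w : ℝ) - 1 ≤ ((Eb w : ℚ) : ℝ) := by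
  have h0' : (0 : ℝ) ≤ w := by exact_mod_cast h0
  have h1' : (w : ℝ) ≤ 1 := by exact_mod_cast h1
  have := Real.exp_bound' h0' h1' (n := 5) (by norm_num)
  simp only [Finset.sum_range_succ, Nat.factorial, Finset.sum_range_zero] at this
  unfold Eb
  push_cast at this ⊢
  norm_num at this ⊢
  linarith

/-- weight of the first `b` powers of `r` at clock value `x`. -/
def pwQ (x r : ℕ) : ℕ → ℚ
  | 0 => 0
  | b + 1 => pwQ x r b + (svN x (r ^ (b + 1)) r : ℚ) / (1000 * r ^ (b + 1))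

/-- weight of the powers of `r` at clock value `x`: the first `b` exactly, the rest at most
geometric. -/
def PWq (x r b : ℕ) : ℚ := pwQ x r b + 1 / (r ^ b * (r - 1))

theorem pwQ_nonneg (x r : ℕ) : ∀ b, 0 ≤ pwQ x r b
  | 0 => le_rfl
  | b + 1 => add_nonneg (pwQ_nonneg x r b) (by positivity)

theorem PWq_nonneg (x r b : ℕ) (hr : 1 ≤ r) : 0 ≤ PWq x r b := by
  have h1 := pwQ_nonneg x r b
  have h2 : (0 : ℚ) ≤ (r : ℚ) - 1 := by
    have : (1 : ℚ) ≤ r := by exact_mod_cast hr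
    linarith
  unfold PWq
  positivity

theorem pwQ_eq (x r : ℕ) (hr : r.Prime) : ∀ b : ℕ,
    ∑ k ∈ Icc 1 b, Sx x (r ^ k) / ((r ^ k : ℕ) : ℝ) = ((pwQ x r b : ℚ) : ℝ)
  | 0 => by simp [pwQ]
  | b + 1 => by
    have e : pwQ x r (b + 1) = pwQ x r b + (svN x (r ^ (b + 1)) r : ℚ) / (1000 * r ^ (b + 1)) := rfl
    rw [Finset.sum_Icc_succ_top (by omega), pwQ_eq x r hr b, e]
    push_cast
    congr 1
    unfold Sx
    rw [hr.pow_minFac (by omega), div_div]

theorem PWq_le (x r : ℕ) (hr : r.Prime) (b K : ℕ) :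
    ∑ k ∈ Icc 1 K, Sx x (r ^ k) / ((r ^ k : ℕ) : ℝ) ≤ ((PWq x r b : ℚ) : ℝ) := by
  have h1 := Icc_split (fun k => Sx x (r ^ k) / ((r ^ k : ℕ) : ℝ)) (fun k => Sx_div_nonneg _ _) 1 b K
    (by omega)
  have h2 := full_tail x r (b + 1) K hr.two_le
  have h3 := pwQ_eq x r hr b
  have hr0 : (r : ℝ) ≠ 0 := by exact_mod_cast hr.ne_zero
  have hr1 : (0 : ℝ) < (r : ℝ) - 1 := by
    have : (2 : ℝ) ≤ r := by exact_mod_cast hr.two_le
    linarith
  have h4 : (r : ℝ) / ((r : ℝ) ^ (b + 1) * ((r : ℝ) - 1)) = 1 / ((r : ℝ) ^ b * ((r : ℝ) - 1)) := by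
    rw [pow_succ]
    field_simp
  rw [h4] at h2
  unfold PWq
  push_cast
  push_cast at h1 h2 h3 ⊢
  linarith

/-- (PW) -/
theorem PWq_filter (x r b : ℕ) (hr : r.Prime) (VS : Finset ℕ) (hVS : ∀ v ∈ VS, IsPrimePow v) :
    ∑ v ∈ VS.filter (fun v => v.minFac = r), Sx x v / (v : ℝ) ≤ ((PWq x r b : ℚ) : ℝ) := by
  rcases sum_over_prime VS hVS r (fun v => Sx x v / (v : ℝ)) (fun w => Sx_div_nonneg x w) with h | h
  · rw [h]
    exact_mod_cast PWq_nonneg x r b hr.one_lt.le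
  · obtain ⟨_, K, hK⟩ := h
    exact hK.trans (PWq_le x r hr b K)

theorem filter_not_prime (x r : ℕ) (hr : ¬ r.Prime) (VS : Finset ℕ) (hVS : ∀ v ∈ VS, IsPrimePow v) :
    ∑ v ∈ VS.filter (fun v => v.minFac = r), Sx x v / (v : ℝ) = 0 := by
  rcases sum_over_prime VS hVS r (fun v => Sx x v / (v : ℝ)) (fun w => Sx_div_nonneg x w) with h | h
  · exact h
  · exact absurd h.1 hr

theorem filter_excluded (x r p : ℕ) (hr : r = p) (VS : Finset ℕ) (hVS : ∀ v ∈ VS, v.minFac ≠ p) :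
    ∑ v ∈ VS.filter (fun v => v.minFac = r), Sx x v / (v : ℝ) = 0 := by
  apply Finset.sum_eq_zero
  intro w hw
  obtain ⟨h1, h2⟩ := Finset.mem_filter.1 hw
  exact absurd (h2.trans hr) (hVS w h1)

/-- trivial bound. -/
theorem filter_triv (x r : ℕ) (hr : r.Prime) (VS : Finset ℕ) (hVS : ∀ v ∈ VS, IsPrimePow v) :
    ∑ v ∈ VS.filter (fun v => v.minFac = r), Sx x v / (v : ℝ) ≤ 1 / ((r : ℝ) - 1) := by
  have h := PWq_filter x r 0 hr VS hVS
  unfold PWq pwQ at h
  push_cast at h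
  simpa using h

/-- the numeric check for the pair `x`, `x'` of clock values over the roots of the prime `p`, the
primes up to `R` explicitly, the others with the caps `1 / (R - 1)` and `c`. -/
def pairOK (p x x' R : ℕ) (c L : ℚ) : Prop :=
  (∀ r < R, r.Prime → r ≠ p →
    PWq x r 8 ≤ 1 / 2 ∧ PWq x' r 8 ≤ 1 / 2 ∧ Eb (PWq x r 8) * Eb (PWq x' r 8) ≤ L) ∧
  3 ≤ R ∧ 0 ≤ c ∧ c ≤ 1 / 2 ∧ 0 ≤ L ∧ Eb (1 / (R - 1)) * Eb c ≤ L ∧
  (1 / (R - 1) ≤ c ∨ (70000 ≤ x' ∧ 13125 ≤ c * x'))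

instance (p x x' R : ℕ) (c L : ℚ) : Decidable (pairOK p x x' R c L) := by
  unfold pairOK; infer_instance

theorem exp_half (w w' : ℝ) (h : w ≤ 1 / 2) (h' : w' ≤ 1 / 2) :
    1 ≤ Real.exp (-w) + Real.exp (-w') := by
  have h1 := Real.add_one_le_exp (-w)
  have h2 := Real.add_one_le_exp (-w')
  linarith

theorem Eb_nonneg {w : ℚ} (h : 0 ≤ w) : 0 ≤ Eb w := by unfold Eb; positivity

/-- the hypothesis of the top lemma. -/
theorem pair_lemma (p x x' R : ℕ) (c L : ℚ) (h : pairOK p x x' R c L) : ∃ w w' : ℕ → ℝ,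
    (∀ r, 0 ≤ w r ∧ 0 ≤ w' r ∧ 1 ≤ Real.exp (-w r) + Real.exp (-w' r) ∧
      (Real.exp (w r) - 1) * (Real.exp (w' r) - 1) ≤ (L : ℝ)) ∧
    (∀ VS : Finset ℕ, (∀ v ∈ VS, IsPrimePow v ∧ v.minFac ≠ p) → ∀ r,
      ∑ v ∈ VS.filter (fun v => v.minFac = r), Sx x v / (v : ℝ) ≤ w r ∧
      ∑ v ∈ VS.filter (fun v => v.minFac = r), Sx x' v / (v : ℝ) ≤ w' r) := by
  classical
  obtain ⟨h1, hR, hc0, hc1, hL, h2, h3⟩ := h
  have hR' : (3 : ℚ) ≤ R := by exact_mod_cast hR
  have hRp : (0 : ℚ) < (R : ℚ) - 1 := by linarith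
  have hRq : (1 : ℚ) / ((R : ℚ) - 1) ≤ 1 / 2 := by
    rw [div_le_div_iff₀ hRp (by norm_num)]; linarith
  have hRq0 : (0 : ℚ) ≤ 1 / ((R : ℚ) - 1) := by positivity
  refine ⟨fun r => if r.Prime ∧ r ≠ p then (if r < R then ((PWq x r 8 : ℚ) : ℝ)
      else ((1 / ((R : ℚ) - 1) : ℚ) : ℝ)) else 0,
    fun r => if r.Prime ∧ r ≠ p then (if r < R then ((PWq x' r 8 : ℚ) : ℝ)
      else ((c : ℚ) : ℝ)) else 0, ?_, ?_⟩
  · intro r
    by_cases hr : r.Prime ∧ r ≠ p
    · simp only [if_pos hr]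
      by_cases hrR : r < R
      · simp only [if_pos hrR]
        obtain ⟨h4, h5, h6⟩ := h1 r hrR hr.1 hr.2
        have h7 := PWq_nonneg x r 8 hr.1.one_lt.le
        have h8 := PWq_nonneg x' r 8 hr.1.one_lt.le
        refine ⟨by exact_mod_cast h7, by exact_mod_cast h8, ?_, ?_⟩
        · apply exp_half
          · have : ((PWq x r 8 : ℚ) : ℝ) ≤ ((1 / 2 : ℚ) : ℝ) := by exact_mod_cast h4
            simpa using this
          · have : ((PWq x' r 8 : ℚ) : ℝ) ≤ ((1 / 2 : ℚ) : ℝ) := by exact_mod_cast h5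
            simpa using this
        · have h9 := exp_sub_one_le_Eb _ h7 (by linarith)
          have h10 := exp_sub_one_le_Eb _ h8 (by linarith)
          have h11 : 0 ≤ Real.exp ((PWq x' r 8 : ℚ) : ℝ) - 1 := by
            have : (0 : ℝ) ≤ ((PWq x' r 8 : ℚ) : ℝ) := by exact_mod_cast h8
            have := Real.one_le_exp this
            linarith
          have h12 : (0 : ℝ) ≤ ((Eb (PWq x r 8) : ℚ) : ℝ) := by exact_mod_cast Eb_nonneg h7
          calc (Real.exp ((PWq x r 8 : ℚ) : ℝ) - 1) * (Real.exp ((PWq x' r 8 : ℚ) : ℝ) - 1)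
              ≤ ((Eb (PWq x r 8) : ℚ) : ℝ) * ((Eb (PWq x' r 8) : ℚ) : ℝ) :=
                mul_le_mul h9 h10 h11 h12
            _ ≤ (L : ℝ) := by exact_mod_cast h6
      · simp only [if_neg hrR]
        refine ⟨by exact_mod_cast hRq0, by exact_mod_cast hc0, ?_, ?_⟩
        · apply exp_half
          · have : (((1 / ((R : ℚ) - 1) : ℚ)) : ℝ) ≤ ((1 / 2 : ℚ) : ℝ) := by exact_mod_cast hRq
            simpa using this
          · have : ((c : ℚ) : ℝ) ≤ ((1 / 2 : ℚ) : ℝ) := by exact_mod_cast hc1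
            simpa using this
        · have h9 := exp_sub_one_le_Eb _ hRq0 (by linarith)
          have h10 := exp_sub_one_le_Eb _ hc0 (by linarith)
          have h11 : 0 ≤ Real.exp ((c : ℚ) : ℝ) - 1 := by
            have : (0 : ℝ) ≤ ((c : ℚ) : ℝ) := by exact_mod_cast hc0
            have := Real.one_le_exp this
            linarith
          have h12 : (0 : ℝ) ≤ ((Eb (1 / ((R : ℚ) - 1)) : ℚ) : ℝ) := by exact_mod_cast Eb_nonneg hRq0
          calc (Real.exp ((1 / ((R : ℚ) - 1) : ℚ) : ℝ) - 1) * (Real.exp ((c : ℚ) : ℝ) - 1)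
              ≤ ((Eb (1 / ((R : ℚ) - 1)) : ℚ) : ℝ) * ((Eb c : ℚ) : ℝ) :=
                mul_le_mul h9 h10 h11 h12
            _ ≤ (L : ℝ) := by exact_mod_cast h2
    · simp only [if_neg hr]
      refine ⟨le_rfl, le_rfl, ?_, ?_⟩
      · norm_num
      · simp
        exact_mod_cast hL
  · intro VS hVS r
    by_cases hr : r.Prime ∧ r ≠ p
    · simp only [if_pos hr]
      by_cases hrR : r < R
      · simp only [if_pos hrR]
        exact ⟨PWq_filter x r 8 hr.1 VS (fun v hv => (hVS v hv).1),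
          PWq_filter x' r 8 hr.1 VS (fun v hv => (hVS v hv).1)⟩
      · simp only [if_neg hrR]
        have hrR' : (R : ℝ) ≤ r := by exact_mod_cast (not_lt.1 hrR)
        have hR3 : (3 : ℝ) ≤ R := by exact_mod_cast hR
        have h5 : (1 : ℝ) / ((r : ℝ) - 1) ≤ 1 / ((R : ℝ) - 1) :=
          one_div_le_one_div_of_le (by linarith) (by linarith)
        constructor
        · have h4 := filter_triv x r hr.1 VS (fun v hv => (hVS v hv).1)
          push_cast
          linarith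
        · rcases h3 with h3 | ⟨h3, h3'⟩
          · have h4 := filter_triv x' r hr.1 VS (fun v hv => (hVS v hv).1)
            have h6 : (((1 / ((R : ℚ) - 1) : ℚ)) : ℝ) ≤ ((c : ℚ) : ℝ) := by exact_mod_cast h3
            push_cast at h6
            linarith
          · have h4 := (stmt_CAP x' VS (fun v hv => (hVS v hv).1) r).1 h3
            refine h4.trans ?_
            have hx0 : (0 : ℝ) < x' := by exact_mod_cast (by omega : 0 < x')
            rw [div_le_iff₀ hx0]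
            exact_mod_cast h3'
    · simp only [if_neg hr]
      by_cases hrp : r.Prime
      · have hrp' : r = p := by
          by_contra hh
          exact hr ⟨hrp, hh⟩
        exact ⟨(filter_excluded x r p hrp' VS (fun v hv => (hVS v hv).2)).le,
          (filter_excluded x' r p hrp' VS (fun v hv => (hVS v hv).2)).le⟩
      · exact ⟨(filter_not_prime x r hrp VS (fun v hv => (hVS v hv).1)).le,
          (filter_not_prime x' r hrp VS (fun v hv => (hVS v hv).1)).le⟩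

theorem filter_half (x r : ℕ) (hr : r.Prime) (h2 : r = 2 → 10000 < x) (VS : Finset ℕ)
    (hVS : ∀ v ∈ VS, IsPrimePow v) :
    ∑ v ∈ VS.filter (fun v => v.minFac = r), Sx x v / (v : ℝ) ≤ 1 / 2 := by
  by_cases h : r = 2
  · have hx := h2 h
    subst h
    have h1 := PWq_filter x 2 1 hr VS hVS
    have h3 : svN x 2 2 = 0 := by
      simp only [svN, ck, pk]
      norm_num
      omega
    unfold PWq pwQ pwQ at h1
    simp only [zero_add, pow_one] at h1
    rw [h3] at h1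
    push_cast at h1
    norm_num at h1
    norm_num
    exact h1
  · refine (filter_triv x r hr VS hVS).trans ?_
    have h3 : 3 ≤ r := by
      have := hr.two_le
      omega
    have h3' : (3 : ℝ) ≤ r := by exact_mod_cast h3
    rw [div_le_div_iff₀ (by linarith) (by norm_num)]
    linarith

/-- the hypothesis of the top lemma with the constant `1`. -/
theorem pair_one (p x x' : ℕ) (h : p = 2 ∨ (10000 < x ∧ 10000 < x')) : ∃ w w' : ℕ → ℝ,
    (∀ r, 0 ≤ w r ∧ 0 ≤ w' r ∧ 1 ≤ Real.exp (-w r) + Real.exp (-w' r) ∧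
      (Real.exp (w r) - 1) * (Real.exp (w' r) - 1) ≤ 1) ∧
    (∀ VS : Finset ℕ, (∀ v ∈ VS, IsPrimePow v ∧ v.minFac ≠ p) → ∀ r,
      ∑ v ∈ VS.filter (fun v => v.minFac = r), Sx x v / (v : ℝ) ≤ w r ∧
      ∑ v ∈ VS.filter (fun v => v.minFac = r), Sx x' v / (v : ℝ) ≤ w' r) := by
  classical
  refine ⟨fun r => if r.Prime ∧ r ≠ p then 1 / 2 else 0,
    fun r => if r.Prime ∧ r ≠ p then 1 / 2 else 0, ?_, ?_⟩
  · intro r
    by_cases hr : r.Prime ∧ r ≠ p
    · simp only [if_pos hr]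
      refine ⟨by norm_num, by norm_num, exp_half _ _ le_rfl le_rfl, ?_⟩
      have h1 := exp_sub_one_le_Eb (1 / 2) (by norm_num) (by norm_num)
      have h2 : Eb (1 / 2) ≤ 1 := by unfold Eb; norm_num
      have h2' : ((Eb (1 / 2) : ℚ) : ℝ) ≤ 1 := by exact_mod_cast h2
      have h3 : (((1 / 2 : ℚ)) : ℝ) = 1 / 2 := by norm_num
      rw [h3] at h1
      have h4 : 0 ≤ Real.exp (1 / 2 : ℝ) - 1 := by
        have := Real.one_le_exp (by norm_num : (0 : ℝ) ≤ 1 / 2)
        linarith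
      nlinarith
    · simp only [if_neg hr]
      refine ⟨le_rfl, le_rfl, ?_, ?_⟩
      · norm_num
      · simp
  · intro VS hVS r
    by_cases hr : r.Prime ∧ r ≠ p
    · simp only [if_pos hr]
      constructor
      · apply filter_half x r hr.1 _ VS (fun v hv => (hVS v hv).1)
        intro h2
        rcases h with h | h
        · exact absurd (h2.trans h.symm) hr.2
        · exact h.1
      · apply filter_half x' r hr.1 _ VS (fun v hv => (hVS v hv).1)
        intro h2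
        rcases h with h | h
        · exact absurd (h2.trans h.symm) hr.2
        · exact h.2
    · simp only [if_neg hr]
      by_cases hrp : r.Prime
      · have hrp' : r = p := by
          by_contra hh
          exact hr ⟨hrp, hh⟩
        exact ⟨(filter_excluded x r p hrp' VS (fun v hv => (hVS v hv).2)).le,
          (filter_excluded x' r p hrp' VS (fun v hv => (hVS v hv).2)).le⟩
      · exact ⟨(filter_not_prime x r hrp VS (fun v hv => (hVS v hv).1)).le,
          (filter_not_prime x' r hrp VS (fun v hv => (hVS v hv).1)).le⟩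

/-! ### the higher powers -/

theorem pk_power (p k j : ℕ) (hp : p.Prime) (hk : 2 ≤ k) (h : p ^ k ≠ 9) :
    pk (p ^ k) p j = if j = 0 then 1000 else 0 := by
  have hnp : ¬ (p ^ k).Prime := Nat.Prime.not_prime_pow hk
  have h3 : p ^ k ≠ 3 := fun h => hnp (h ▸ Nat.prime_three)
  have h5 : p ^ k ≠ 5 := fun h => hnp (h ▸ Nat.prime_five)
  have h7 : p ^ k ≠ 7 := fun h => hnp (by rw [h]; norm_num)
  have hr : ¬ (11 ≤ p ^ k ∧ p ^ k = p) := fun h => hnp (h.2.symm ▸ hp)
  simp only [pk, if_neg h3, if_neg h5, if_neg h7, if_neg h, if_neg hr]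

theorem qD_power (p k : ℕ) (j : Fin 5) (hp : p.Prime) (hk : 2 ≤ k) (h : p ^ k ≠ 9) :
    qD (p ^ k) j = if j = 0 then 1 else 0 := by
  unfold qD
  rw [hp.pow_minFac (by omega), pk_power p k j hp hk h]
  by_cases hj : j = 0
  · subst hj; norm_num
  · have : (j : ℕ) ≠ 0 := fun h => hj (Fin.ext h)
    rw [if_neg this, if_neg hj]; norm_num

/-- a single atom. -/
theorem avg_power (p k : ℕ) (A : ℝ) (hp : p.Prime) (hk : 2 ≤ k) (h : p ^ k ≠ 9)
    (hA : ABSB (p ^ k) (ck (p ^ k) p 0) A) : AvgABS (p ^ k) A := by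
  intro M hM
  have h1 := hA M hM
  rw [Finset.sum_eq_single (0 : Fin 5)]
  · rw [qD_power p k 0 hp hk h, if_pos rfl, one_mul, hp.pow_minFac (by omega)]
    exact h1
  · intro j _ hj
    rw [qD_power p k j hp hk h, if_neg hj, zero_mul]
  · intro h; exact absurd (Finset.mem_univ _) h

theorem powOK_of (hpow : ∀ hi, Stmt_Pow 16 hi) (p k : ℕ) (hp : p.Prime) (hk : 2 ≤ k)
    (h : 16 ≤ p ^ k) : AvgABS (p ^ k) (cA (p ^ k)) ∧ LINB (p ^ k) (ck (p ^ k) p 0) 1.2 := by
  have h1 := hpow (p ^ k + 1) (p ^ k) (hp.isPrimePow.pow (by omega)) (Nat.Prime.not_prime_pow hk) h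
    (Nat.lt_succ_self _)
  unfold PowOK at h1
  rw [hp.pow_minFac (by omega)] at h1
  exact ⟨avg_power p k _ hp hk (by omega) h1.1, h1.2⟩

end Pool.Agent.EZ
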