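import Pool.Agent.EZ.LTools
import Pool.Agent.EZ.LPair

/-!
# Module L2: the account of the prime 2
-/

set_option autoImplicit false
set_option linter.unusedSectionVars false
set_option linter.unusedVariables false

namespace Pool.Agent.EZ

open Finset Pool.Agent.EZ.LT

namespace LT

theorem sum_range_rest {B : Finset ℕ} (hB : QPset (↑B : Set ℕ)) {p e n : ℕ} (K : ℕ)
    (hp : p.Prime) {α : ℝ} (hα : 0 ≤ α)
    (h : ∀ i, n ≤ i → ld qD cD B (p ^ (e + 1 + i)) ≤ hh ((p : ℝ) ^ (e + 1 + i)) * α) :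
    ∑ i ∈ range K, ld qD cD B (p ^ (e + 1 + i)) ≤
      ∑ i ∈ range n, ld qD cD B (p ^ (e + 1 + i)) + α * (Gz p (e + n) / Real.log p) := by
  have h2 := hp.two_le
  have hl := log_pos' h2
  have e1 : ∑ i ∈ range K, ld qD cD B (p ^ (e + 1 + i)) ≤
      ∑ i ∈ range (n + K), ld qD cD B (p ^ (e + 1 + i)) := by
    apply Finset.sum_le_sum_of_subset_of_nonneg
    · intro a ha; rw [Finset.mem_range] at ha ⊢; omega
    · intro k _ _; exact ld_nonneg qD cD hB qD_nonneg _
  refine e1.trans ?_
  rw [Finset.sum_range_add]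
  gcongr
  calc ∑ x ∈ range K, ld qD cD B (p ^ (e + 1 + (n + x)))
      ≤ ∑ x ∈ range K, gz p (e + n + 1 + x) * (α / Real.log p) := by
        apply Finset.sum_le_sum
        intro x _
        refine (h (n + x) (by omega)).trans (le_of_eq ?_)
        rw [hh_pow]
        have : e + 1 + (n + x) = e + n + 1 + x := by ring
        rw [this]
        ring
    _ = (∑ x ∈ range K, gz p (e + n + 1 + x)) * (α / Real.log p) := by rw [Finset.sum_mul]
    _ ≤ Gz p (e + n) * (α / Real.log p) := by
        apply mul_le_mul_of_nonneg_right (Gz_lb h2 (e + n) K) (by positivity)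
    _ = _ := by ring

theorem atom_bound {c l tt lam a a0 as S0 D C : ℝ} {g : ℝ → ℝ} (hc : 0 ≤ c) (hl : 0 ≤ l)
    (hlam : 0 ≤ lam) (hconv : ConvexOn ℝ (Set.Icc 0 1) g) (hanti : AntitoneOn g (Set.Icc 0 1))
    (h0 : 0 ≤ a0) (h01 : a0 < as) (hs1 : as ≤ 1) (ha0 : 0 ≤ a) (ha1 : a ≤ 1)
    (hD1 : D ≤ S0) (hD2 : D ≤ g a) (v1 : c * (l * a0) + lam * S0 ≤ C)
    (v2 : c * (l * a0) + lam * g a0 ≤ C) (v3 : c * (l * as) + lam * g as ≤ C)
    (v4 : c * tt + lam * g as ≤ C) : c * min tt (l * a) + lam * D ≤ C := by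
  rcases le_total a a0 with h | h
  · refine le_trans (add_le_add (mul_le_mul_of_nonneg_left ((min_le_right _ _).trans
      (mul_le_mul_of_nonneg_left h hl)) hc) (mul_le_mul_of_nonneg_left hD1 hlam)) v1
  rcases le_total a as with h' | h'
  · have hd : 0 < as - a0 := by linarith
    have hx : a0 ∈ Set.Icc (0 : ℝ) 1 := ⟨h0, by linarith⟩
    have hy : as ∈ Set.Icc (0 : ℝ) 1 := ⟨by linarith, hs1⟩
    have hs : 0 ≤ (as - a) / (as - a0) := div_nonneg (by linarith) hd.le
    have hs' : 0 ≤ (a - a0) / (as - a0) := div_nonneg (by linarith) hd.le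
    have hss : (as - a) / (as - a0) + (a - a0) / (as - a0) = 1 := by
      rw [← add_div, show as - a + (a - a0) = as - a0 by ring]
      exact div_self hd.ne'
    have key := hconv.2 hx hy hs hs' hss
    simp only [smul_eq_mul] at key
    set s := (as - a) / (as - a0) with hsdef
    set s' := (a - a0) / (as - a0) with hsdef'
    have ea : s * a0 + s' * as = a := by
      rw [hsdef, hsdef']
      field_simp
      ring
    rw [ea] at key
    have h1 : c * min tt (l * a) ≤ s * (c * (l * a0)) + s' * (c * (l * as)) := by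
      refine (mul_le_mul_of_nonneg_left (min_le_right _ _) hc).trans (le_of_eq ?_)
      rw [← ea]; ring
    have h2 : lam * D ≤ lam * (s * g a0 + s' * g as) :=
      mul_le_mul_of_nonneg_left (hD2.trans key) hlam
    have h3 := mul_le_mul_of_nonneg_left v2 hs
    have h4 := mul_le_mul_of_nonneg_left v3 hs'
    have h5 : s * C + s' * C = C := by rw [← add_mul, hss, one_mul]
    nlinarith
  · have h2 : D ≤ g as := hD2.trans (hanti ⟨by linarith, hs1⟩ ⟨ha0, ha1⟩ h')
    refine le_trans (add_le_add (mul_le_mul_of_nonneg_left (min_le_left _ _) hc)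
      (mul_le_mul_of_nonneg_left h2 hlam)) v4

end LT

/-- tail bound for `z = 2`. -/
noncomputable def g2 (a : ℝ) : ℝ :=
  1 / 8 * 0.970 * phi 0.3426 a + 1 / 24 * 1.011 * phi 0.0821 a + 1 / 64 * 1.2 * phi 0.0372 a

theorem g2_convex : ConvexOn ℝ (Set.Icc 0 1) g2 := by
  have h1 := (phi_convexOn (L := 0.3426) (by norm_num) (by norm_num)).smul
    (c := (1 / 8 * 0.970 : ℝ)) (by norm_num)
  have h2 := (phi_convexOn (L := 0.0821) (by norm_num) (by norm_num)).smul
    (c := (1 / 24 * 1.011 : ℝ)) (by norm_num)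
  have h3 := (phi_convexOn (L := 0.0372) (by norm_num) (by norm_num)).smul
    (c := (1 / 64 * 1.2 : ℝ)) (by norm_num)
  exact (h1.add h2).add h3

theorem g2_anti : AntitoneOn g2 (Set.Icc 0 1) := by
  intro x hx y hy hxy
  have h1 := phi_antitoneOn (L := 0.3426) (by norm_num) hx hy hxy
  have h2 := phi_antitoneOn (L := 0.0821) (by norm_num) hx hy hxy
  have h3 := phi_antitoneOn (L := 0.0372) (by norm_num) hx hy hxy
  unfold g2
  linarith

theorem stmt_L2 : Stmt_L2 := by
  intro hTL hPow hS2 hS4 hS8 B hB hpB hM K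
  obtain ⟨l2, a2, t2⟩ := hS2
  obtain ⟨l4, a4, t4⟩ := hS4
  obtain ⟨l8, a8, t8⟩ := hS8
  have hlog : 0 < Real.log ((2 : ℕ) : ℝ) := log_pos' le_rfl
  have hhpos : 0 < hh (((2 ^ 1 : ℕ)) : ℝ) := by
    unfold hh
    have : 0 < Real.log (2 : ℝ) := by exact_mod_cast hlog
    push_cast
    norm_num
    exact this
  have hck : ∀ j : Fin 5, pk (2 ^ 1) 2 j ≠ 0 → (j : ℕ) = 0 := by
    intro j hj
    fin_cases j
    · rfl
    all_goals exact absurd rfl hj
  have hck' : ∀ (i : ℕ) (j : Fin 5), pk (2 ^ (1 + 1 + i)) 2 j ≠ 0 → (j : ℕ) = 0 := by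
    intro i j hj
    by_contra h
    rw [pk_power 2 (1 + 1 + i) j Nat.prime_two (by omega) (by
      intro h9
      have : Even (2 ^ (1 + 1 + i)) := (Nat.even_pow.2 ⟨even_two, by omega⟩)
      rw [h9] at this
      exact absurd this (by decide)), if_neg h] at hj
    exact hj rfl
  obtain ⟨a, ha, hz, hu⟩ := hTL B 2 1 hB Nat.prime_two one_ne_zero hpB
    (fun _ => 0.632) (fun _ => 0.607 * Tz 2 1 / hh (((2 ^ 1 : ℕ)) : ℝ))
    (fun i => if i = 0 then 0.947 else if i = 1 then 0.976 else cA (2 ^ (1 + 1 + i)))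
    (fun i _ => if i = 0 then 0.970 else if i = 1 then 1.011 else 1.2)
    (fun _ i _ => if i = 0 then 0.3426 else if i = 1 then 0.0821 else if i = 2 then 0.0372 else 1)
    (by
      intro j hj
      have hj0 := hck j hj
      have e : ck (2 ^ 1) 2 j = 10000 := by rw [hj0]; rfl
      rw [e]
      refine ⟨l2, ?_⟩
      intro M hM hI
      have h1 := t2 M hM hI
      have e2 : 0.607 * Tz 2 1 / hh (((2 ^ 1 : ℕ)) : ℝ) * hh (((2 ^ 1 : ℕ)) : ℝ) =
          0.607 * Tz 2 1 := by field_simp
      rw [e2]; exact h1)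
    (by
      intro i
      rcases Nat.lt_or_ge i 2 with h | h
      · interval_cases i
        · exact avg_power 2 2 _ Nat.prime_two le_rfl (by norm_num) a4
        · exact avg_power 2 3 _ Nat.prime_two (by norm_num) (by norm_num) a8
      · simp only [if_neg (show i ≠ 0 by omega), if_neg (show i ≠ 1 by omega)]
        refine (powOK_of hPow 2 (1 + 1 + i) Nat.prime_two (by omega) ?_).1
        calc 16 = 2 ^ 4 := by norm_num
          _ ≤ 2 ^ (1 + 1 + i) := Nat.pow_le_pow_right (by norm_num) (by omega))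
    (by
      intro i j hj
      have hj0 := hck' i j hj
      rcases Nat.lt_or_ge i 2 with h | h
      · interval_cases i
        · refine ⟨by norm_num, ?_⟩
          have e : ck (2 ^ (1 + 1 + 0)) 2 j = 20000 := by rw [hj0]; rfl
          rw [e]; exact l4
        · refine ⟨by norm_num, ?_⟩
          have e : ck (2 ^ (1 + 1 + 1)) 2 j = 50000 := by rw [hj0]; rfl
          rw [e]; exact l8
      · simp only [if_neg (show i ≠ 0 by omega), if_neg (show i ≠ 1 by omega)]
        refine ⟨by norm_num, ?_⟩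
        rw [hj0]
        refine (powOK_of hPow 2 (1 + 1 + i) Nat.prime_two (by omega) ?_).2
        calc 16 = 2 ^ 4 := by norm_num
          _ ≤ 2 ^ (1 + 1 + i) := Nat.pow_le_pow_right (by norm_num) (by omega))
    (by
      intro j i j'
      show (0 : ℝ) < if i = 0 then 0.3426 else if i = 1 then 0.0821 else if i = 2 then 0.0372 else 1
      split_ifs <;> norm_num)
    (by
      intro j i j' hj hj'
      have hj0 := hck j hj
      have hj0' := hck' i j' hj'
      have e : ck (2 ^ 1) 2 j = 10000 := by rw [hj0]; rfl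
      rw [e]
      rcases Nat.lt_or_ge i 3 with h | h
      · interval_cases i
        · have e : ck (2 ^ (1 + 1 + 0)) 2 j' = 20000 := by rw [hj0']; rfl
          rw [e]
          have := pair_lemma 2 10000 20000 5 (1 / 4) (3426 / 10000) (by decide +kernel)
          norm_num at this ⊢
          exact this
        · have e : ck (2 ^ (1 + 1 + 1)) 2 j' = 50000 := by rw [hj0']; rfl
          rw [e]
          have := pair_lemma 2 10000 50000 7 (1 / 6) (821 / 10000) (by decide +kernel)
          norm_num at this ⊢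
          exact this
        · have e : ck (2 ^ (1 + 1 + 2)) 2 j' = 70000 := by rw [hj0']; rfl
          rw [e]
          have := pair_lemma 2 10000 70000 11 (1 / 10) (372 / 10000) (by decide +kernel)
          norm_num at this ⊢
          exact this
      · simp only [if_neg (show i ≠ 0 by omega), if_neg (show i ≠ 1 by omega),
          if_neg (show i ≠ 2 by omega)]
        exact pair_one 2 10000 _ (Or.inl rfl))
  have hsum1 : ∀ f : Fin 5 → ℝ, ∑ j, qD (2 ^ 1) j * f j = f 0 := by
    intro f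
    rw [Finset.sum_eq_single (0 : Fin 5)]
    · rw [qD_pow Nat.prime_two one_ne_zero]
      have : pk (2 ^ 1) 2 ((0 : Fin 5) : ℕ) = 1000 := rfl
      rw [this]; norm_num
    · intro j _ hj
      rw [qD_pow Nat.prime_two one_ne_zero]
      have : pk (2 ^ 1) 2 (j : ℕ) = 0 := by
        by_contra h
        exact hj (Fin.ext (hck j h))
      rw [this]; simp
    · intro h; exact absurd (Finset.mem_univ _) h
  have hne9 : ∀ i : ℕ, 2 ^ (1 + 1 + i) ≠ 9 := by
    intro i h9
    have : Even (2 ^ (1 + 1 + i)) := (Nat.even_pow.2 ⟨even_two, by omega⟩)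
    rw [h9] at this
    exact absurd this (by decide)
  have hsum2 : ∀ (i : ℕ) (f : Fin 5 → ℝ), ∑ j, qD (2 ^ (1 + 1 + i)) j * f j = f 0 := by
    intro i f
    rw [Finset.sum_eq_single (0 : Fin 5)]
    · rw [qD_power 2 (1 + 1 + i) 0 Nat.prime_two (by omega) (hne9 i), if_pos rfl, one_mul]
    · intro j _ hj
      rw [qD_power 2 (1 + 1 + i) j Nat.prime_two (by omega) (hne9 i), if_neg hj, zero_mul]
    · intro h; exact absurd (Finset.mem_univ _) h
  rw [hsum1] at hz
  have hu1 : ∀ i, ld qD cD B (2 ^ (1 + 1 + i)) ≤ hh (((2 : ℕ) : ℝ) ^ (1 + 1 + i)) *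
      (if i = 0 then 0.947 else if i = 1 then 0.976 else cA (2 ^ (1 + 1 + i))) := fun i => (hu i).1
  have hu2 : ∀ i, ld qD cD B (2 ^ (1 + 1 + i)) ≤ hh (((2 : ℕ) : ℝ) ^ (1 + 1 + i)) *
      ((if i = 0 then 0.970 else if i = 1 then 1.011 else 1.2) *
        phi (if i = 0 then 0.3426 else if i = 1 then 0.0821 else if i = 2 then 0.0372 else 1)
          (a 0)) := by
    intro i
    have := (hu i).2 0 (by show (1000 : ℕ) ≠ 0; norm_num)
    rw [hsum2] at this
    exact this
  have hrest := sum_range_rest hB (p := 2) (e := 1) (n := 3) K Nat.prime_two (α := 0.965)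
    (by norm_num) (by
      intro i hi
      have h1 := hu1 i
      rw [if_neg (by omega), if_neg (by omega)] at h1
      have h2 : cA (2 ^ (1 + 1 + i)) = 0.965 := by
        unfold cA
        have h16 : 2 ^ (1 + 1 + i) ≠ 16 := by
          have : 2 ^ 5 ≤ 2 ^ (1 + 1 + i) := Nat.pow_le_pow_right (by norm_num) (by omega)
          omega
        rw [if_neg h16, Nat.prime_two.pow_minFac (by omega), if_pos (by norm_num)]
      rw [h2] at h1
      exact h1)
  have hG := Gz_split (p := 2) le_rfl 1 3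
  have hR0 := Gz_nonneg 2 (1 + 3)
  have hR1 := Gz_ub (p := 2) le_rfl (1 + 3)
  have hTz := Tz_eq 2 1
  set L := Real.log ((2 : ℕ) : ℝ) with hL
  set R := Gz 2 (1 + 3) with hR
  set G := Gz 2 1 with hG'
  have hg : ∑ i ∈ range 3, gz 2 (1 + 1 + i) = 1 / 8 + 1 / 24 + 1 / 64 := by
    simp only [Finset.sum_range_succ, Finset.sum_range_zero, gz]
    norm_num
  rw [hg] at hG
  have hR1' : R ≤ 0.0125 := by
    refine hR1.trans ?_
    norm_num
  -- scaled quantities
  set D0 := ld qD cD B (2 ^ (1 + 1 + 0)) with hD0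
  set D1 := ld qD cD B (2 ^ (1 + 1 + 1)) with hD1
  set D2 := ld qD cD B (2 ^ (1 + 1 + 2)) with hD2
  have e0 : hh (((2 : ℕ) : ℝ) ^ (1 + 1 + 0)) * L = 1 / 8 := by
    rw [hh_pow, ← hL, div_mul_cancel₀ _ hlog.ne', gz]; norm_num
  have e1 : hh (((2 : ℕ) : ℝ) ^ (1 + 1 + 1)) * L = 1 / 24 := by
    rw [hh_pow, ← hL, div_mul_cancel₀ _ hlog.ne', gz]; norm_num
  have e2 : hh (((2 : ℕ) : ℝ) ^ (1 + 1 + 2)) * L = 1 / 64 := by
    rw [hh_pow, ← hL, div_mul_cancel₀ _ hlog.ne', gz]; norm_num
  have ez : hh (((2 : ℕ) : ℝ) ^ 1) * L = 1 / 2 := by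
    rw [hh_pow, ← hL, div_mul_cancel₀ _ hlog.ne', gz]; norm_num
  have scale : ∀ {x y z w : ℝ}, x ≤ y * z → y * L = w → x * L ≤ w * z := by
    intro x y z w h1 h2
    calc x * L ≤ y * z * L := mul_le_mul_of_nonneg_right h1 hlog.le
      _ = w * z := by rw [← h2]; ring
  have hcA : cA (2 ^ (1 + 1 + 2)) = 0.985 := by
    unfold cA; rw [if_pos (by norm_num)]
  have a0 : D0 * L ≤ 1 / 8 * 0.947 := by
    have := scale (hu1 0) e0
    rw [if_pos rfl] at this
    exact this
  have a1 : D1 * L ≤ 1 / 24 * 0.976 := by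
    have := scale (hu1 1) e1
    rw [if_neg (by norm_num), if_pos rfl] at this
    exact this
  have a2' : D2 * L ≤ 1 / 64 * 0.985 := by
    have := scale (hu1 2) e2
    rw [if_neg (by norm_num), if_neg (by norm_num), hcA] at this
    exact this
  have b0 : D0 * L ≤ 1 / 8 * (0.970 * phi 0.3426 (a 0)) := by
    have := scale (hu2 0) e0
    rw [if_pos rfl, if_pos rfl] at this
    exact this
  have b1 : D1 * L ≤ 1 / 24 * (1.011 * phi 0.0821 (a 0)) := by
    have := scale (hu2 1) e1
    rw [if_neg (by norm_num), if_pos rfl, if_neg (by norm_num), if_pos rfl] at this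
    exact this
  have b2 : D2 * L ≤ 1 / 64 * (1.2 * phi 0.0372 (a 0)) := by
    have := scale (hu2 2) e2
    rw [if_neg (by norm_num), if_neg (by norm_num), if_neg (by norm_num), if_neg (by norm_num),
      if_pos rfl] at this
    exact this
  have z0 := scale hz ez
  have htt : 0.607 * Tz 2 1 / hh (((2 ^ 1 : ℕ)) : ℝ) = 0.607 * 2 * G := by
    have h1 : hh (((2 ^ 1 : ℕ)) : ℝ) = 1 / 2 / L := by
      rw [eq_div_iff hlog.ne', ← ez]
      norm_num
    rw [h1, hTz]
    have := hlog.ne'
    field_simp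
  rw [htt] at z0
  have key := atom_bound (c := 1 / 2) (l := 0.632) (tt := 0.607 * 2 * G) (lam := 1) (a := a 0)
    (a0 := 0.006) (as := 0.371) (S0 := 1 / 8 * 0.947 + 1 / 24 * 0.976 + 1 / 64 * 0.985)
    (D := (D0 + D1 + D2) * L) (C := 1 / 8 + 1 / 24 + 1 / 64 + 0.035 * R) (g := g2)
    (by norm_num) (by norm_num) (by norm_num) g2_convex g2_anti (by norm_num) (by norm_num)
    (by norm_num) (ha 0).1 (ha 0).2 (by linarith) (by unfold g2; linarith)
    (by norm_num; linarith) (by
      have : g2 0.006 ≤ 0.17453 := by unfold g2 phi; norm_num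
      linarith) (by
      have : g2 0.371 ≤ 0.0509 := by unfold g2 phi; norm_num
      linarith) (by
      have : g2 0.371 ≤ 0.0509 := by unfold g2 phi; norm_num
      rw [hG]
      linarith)
  have hs3 : ∑ i ∈ range 3, ld qD cD B (2 ^ (1 + 1 + i)) = D0 + D1 + D2 := by
    simp only [Finset.sum_range_succ, Finset.sum_range_zero]
    rw [hD0, hD1, hD2]
    ring
  rw [hs3] at hrest
  rw [hTz, le_div_iff₀ hlog]
  have h1 : 0.965 * (R / L) * L = 0.965 * R := by
    have := hlog.ne'
    field_simp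
  have h2 := mul_le_mul_of_nonneg_right hrest hlog.le
  rw [add_mul, add_mul, h1] at h2
  rw [add_mul]
  rw [hG]
  linarith

end Pool.Agent.EZ
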