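import Pool.Agent.EZ.L9

/-!
# The account of 3
-/

set_option autoImplicit false
set_option linter.unusedSectionVars false
set_option linter.unusedVariables false

namespace Pool.Agent.EZ

open Finset

theorem pk3 (j : ℕ) : pk (3 ^ 1) 3 j = if j = 0 then 230 else if j = 1 then 770 else 0 := by
  norm_num [pk]

theorem qD3 (j : Fin 5) : qD (3 ^ 1) j = if j = 0 then 0.23 else if j = 1 then 0.77 else 0 := by
  unfold qD
  rw [Nat.prime_three.pow_minFac (by norm_num), pk3]
  fin_cases j <;> norm_num

/-- the constants `Lam`. -/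
noncomputable def Lam3 (j : Fin 5) (i : ℕ) (j' : Fin 5) : ℚ :=
  if i = 0 then (if j = 0 then (if j' = 0 then 1847 / 10000 else 866 / 10000)
    else (if j' = 0 then 809 / 10000 else 379 / 10000))
  else if i = 1 then (if j = 0 then 42 / 1000 else 184 / 10000)
  else if i = 2 then (if j = 0 then 103 / 10000 else 45 / 10000) else 1

theorem avg9 (a b : ℝ) (ha : ABSB (3 ^ 2) 40000 a) (hb : ABSB (3 ^ 2) 65000 b) :
    AvgABS (3 ^ 2) (0.43 * a + 0.57 * b) := by
  intro M hM
  have h1 := ha M hM
  have h2 := hb M hM
  simp only [Fin.sum_univ_five, qD9, Nat.prime_three.pow_minFac (by norm_num : (2 : ℕ) ≠ 0)]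
  have e0 : ck (3 ^ 2) 3 ((0 : Fin 5) : ℕ) = 40000 := by decide
  have e1 : ck (3 ^ 2) 3 ((1 : Fin 5) : ℕ) = 65000 := by decide
  rw [e0, e1]
  norm_num [f20, f30, f40, f21, f31, f41]
  norm_num at h1 h2
  linarith

theorem stmt_L3 : Stmt_L3 := by
  intro hTL hpow hSa hSb hSa' hSb'
  obtain ⟨a1, a2, a3⟩ := hSa
  obtain ⟨b1, b2, b3⟩ := hSb
  obtain ⟨c1, c2, c3⟩ := hSa'
  obtain ⟨d1, d2, d3⟩ := hSb'
  have hlo := Tz_lower 3 1 6 (by norm_num)
  have hhi := Tz_upper 3 1 6 (by norm_num)
  have zero_of : ∀ (i : ℕ) (j' : Fin 5), pk (3 ^ (1 + 1 + (i + 1))) 3 j' ≠ 0 → j' = 0 := by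
    intro i j' hj'
    rw [pk_power 3 (1 + 1 + (i + 1)) j' Nat.prime_three (by omega)
      (by have := three_pow_ge (1 + 1 + (i + 1)) (by omega); omega)] at hj'
    by_contra h
    have : (j' : ℕ) ≠ 0 := fun h' => h (Fin.ext h')
    simp [this] at hj'
  refine topOK_core hTL 3 1 3 Nat.prime_three (by norm_num)
    (fun j => if j = 0 then 0.855 else if j = 1 then 0.710 else 0)
    (fun j => if j = 0 then 1.320 else if j = 1 then 0.649 else 0)
    (fun j => if j = 0 then 0.37 else if j = 1 then 0.63 else 0)
    (fun j => if j = 0 then 0.381 else if j = 1 then 0.619 else 0)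
    (fun j => if j = 0 then 0.0025 else if j = 1 then 0.003 else 0)
    (fun j => if j = 0 then 0.3341 else if j = 1 then 0.1978 else 1)
    (fun i => if i = 0 then 0.95473 else 0.965)
    (fun i j' => if i = 0 then (if j' = 0 then 1.182 else 0.866) else 1.2)
    (fun j i j' => ((Lam3 j i j' : ℚ) : ℝ))
    0.965 _ _ ?_ ?_ ?_ ?_ ?_ ?_ ?_ ?_ ?_ ?_ ?_ ?_ ?_ hlo hhi ?_
  · -- the root
    intro j hj
    rw [pk3] at hj
    fin_cases j
    · exact ⟨a1, a3⟩
    · exact ⟨b1, b3⟩
    · simp at hj
    · simp at hj
    · simp at hj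
  · intro i
    rcases i with _ | i
    · refine ⟨?_, by norm_num⟩
      have := avg9 _ _ c2 d2
      norm_num at this ⊢
      exact this
    · simp only [Nat.succ_ne_zero, if_false]
      exact ⟨(three_pow hpow (1 + 1 + (i + 1)) (by omega)).1, by norm_num⟩
  · intro i j' hj'
    rcases i with _ | i
    · rw [show 1 + 1 + 0 = 2 from rfl, pk9] at hj'
      fin_cases j'
      · exact c1
      · exact d1
      · simp at hj'
      · simp at hj'
      · simp at hj'
    · have := zero_of i j' hj'
      subst this
      exact (three_pow hpow (1 + 1 + (i + 1)) (by omega)).2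
  · intro i j'; split_ifs <;> norm_num
  · intro j i j'
    unfold Lam3
    split_ifs <;> norm_num
  · intro j i j' hj hj'
    rw [pk3] at hj
    rcases i with _ | _ | _ | i
    · rw [show 1 + 1 + 0 = 2 from rfl, pk9] at hj'
      fin_cases j
      · fin_cases j'
        · exact pair_lemma 3 15000 40000 11 (1 / 10) (1847 / 10000) (by decide +kernel)
        · exact pair_lemma 3 15000 65000 11 (1 / 10) (866 / 10000) (by decide +kernel)
        · simp at hj'
        · simp at hj'
        · simp at hj'
      · fin_cases j'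
        · exact pair_lemma 3 30000 40000 11 (1 / 10) (809 / 10000) (by decide +kernel)
        · exact pair_lemma 3 30000 65000 11 (1 / 10) (379 / 10000) (by decide +kernel)
        · simp at hj'
        · simp at hj'
        · simp at hj'
      · simp at hj
      · simp at hj
      · simp at hj
    · have := zero_of 0 j' hj'
      subst this
      fin_cases j
      · exact pair_lemma 3 15000 189000 11 (1 / 10) (42 / 1000) (by decide +kernel)
      · exact pair_lemma 3 30000 189000 11 (1 / 10) (184 / 10000) (by decide +kernel)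
      · simp at hj
      · simp at hj
      · simp at hj
    · have := zero_of 1 j' hj'
      subst this
      fin_cases j
      · exact pair_lemma 3 15000 540000 11 (1 / 40) (103 / 10000) (by decide +kernel)
      · exact pair_lemma 3 30000 540000 11 (1 / 40) (45 / 10000) (by decide +kernel)
      · simp at hj
      · simp at hj
      · simp at hj
    · have := zero_of (i + 2) j' hj'
      subst this
      have h3 := three_pow_ge (1 + 1 + (i + 1 + 1 + 1)) (by omega)
      have e : ((Lam3 j (i + 1 + 1 + 1) 0 : ℚ) : ℝ) = 1 := by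
        unfold Lam3
        rw [if_neg (by omega), if_neg (by omega), if_neg (by omega)]
        norm_num
      simp only [e]
      apply pair_one 3
      right
      constructor
      · fin_cases j
        · decide
        · decide
        · simp at hj
        · simp at hj
        · simp at hj
      · exact ck_gt _ _ (by omega) (by norm_num)
  · intro i hi
    rw [if_neg (by omega)]
  · intro j; split_ifs <;> norm_num
  · intro j hj
    rw [pk3] at hj
    fin_cases j <;> simp at hj ⊢
  · simp only [Fin.sum_univ_five]
    norm_num [f20, f30, f40, f21, f31, f41]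
  · simp only [Fin.sum_univ_five]
    norm_num [f20, f30, f40, f21, f31, f41]
  · intro j; split_ifs <;> norm_num
  · intro j; split_ifs <;> norm_num
  · intro j T h1 h2
    have hq3 := fun j' => qD_power 3 3 j' Nat.prime_three (by norm_num) (by norm_num)
    have hq4 := fun j' => qD_power 3 4 j' Nat.prime_three (by norm_num) (by norm_num)
    simp only [Finset.sum_range_succ, Finset.sum_range_zero, GGp] at h1 h2
    norm_num at h1 h2
    unfold AtomOK SSn
    simp only [Finset.sum_range_succ, Finset.sum_range_zero, Fin.sum_univ_five, GGp, qD3]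
    have e : (1 + 1 + 0 : ℕ) = 2 := rfl
    have e' : (1 + 1 + 1 : ℕ) = 3 := rfl
    have e'' : (1 + 1 + 2 : ℕ) = 4 := rfl
    simp only [e, e', e'', hq3, hq4, qD9]
    unfold phi Lam3
    fin_cases j <;> norm_num [f20, f30, f40, f21, f31, f41] <;> refine ⟨?_, ?_, ?_, ?_⟩ <;> linarith

end Pool.Agent.EZ
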