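import Pool.Agent.EZ.L8
/-! Module L4: `Pool.Agent.EZ.L4_proof : Stmt_L4` is proved in `Pool.Agent.EZ.L8`. -/
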