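import Pool.Agent.EZ.L9

/-!
# The account of 5
-/

set_option autoImplicit false
set_option linter.unusedSectionVars false
set_option linter.unusedVariables false

namespace Pool.Agent.EZ

open Finset

theorem pk5 (j : ℕ) : pk (5 ^ 1) 5 j = if j = 0 then 120 else if j = 1 then 880 else 0 := by
  norm_num [pk]

theorem qD5 (j : Fin 5) : qD (5 ^ 1) j = if j = 0 then 0.12 else if j = 1 then 0.88 else 0 := by
  unfold qD
  rw [Nat.prime_five.pow_minFac (by norm_num), pk5]
  fin_cases j <;> norm_num

/-- the constants `Lam`. -/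
noncomputable def Lam5 (j : Fin 5) (i : ℕ) (j' : Fin 5) : ℚ :=
  if i = 0 then (if j = 0 then 184 / 10000 else 87 / 10000)
  else if i = 1 then (if j = 0 then 224 / 100000 else 105 / 100000)
  else if i = 2 then (if j = 0 then 112 / 100000 else 53 / 100000) else 1

theorem five_pow_ge (k : ℕ) (hk : 2 ≤ k) : 25 ≤ 5 ^ k := by
  have h1 : 5 ^ 2 ≤ 5 ^ k := Nat.pow_le_pow_right (by norm_num) hk
  omega

theorem five_pow (hpow : ∀ hi, Stmt_Pow 16 hi) (k : ℕ) (hk : 2 ≤ k) :
    AvgABS (5 ^ k) 0.965 ∧ LINB (5 ^ k) (ck (5 ^ k) 5 0) 1.2 := by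
  have h2 := five_pow_ge k hk
  have h := powOK_of hpow 5 k Nat.prime_five (by omega) (by omega)
  have e : cA (5 ^ k) = 0.965 := by
    unfold cA
    rw [if_neg (by omega), Nat.prime_five.pow_minFac (by omega), if_pos (by norm_num)]
  rw [e] at h
  exact h

theorem stmt_L5 : Stmt_L5 := by
  intro hTL hpow hSa hSb
  obtain ⟨a1, a2, a3⟩ := hSa
  obtain ⟨b1, b2, b3⟩ := hSb
  have hlo := Tz_lower 5 1 6 (by norm_num)
  have hhi := Tz_upper 5 1 6 (by norm_num)
  have zero_of : ∀ (i : ℕ) (j' : Fin 5), pk (5 ^ (1 + 1 + i)) 5 j' ≠ 0 → j' = 0 := by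
    intro i j' hj'
    rw [pk_power 5 (1 + 1 + i) j' Nat.prime_five (by omega)
      (by have := five_pow_ge (1 + 1 + i) (by omega); omega)] at hj'
    by_contra h
    have : (j' : ℕ) ≠ 0 := fun h' => h (Fin.ext h')
    simp [this] at hj'
  refine topOK_core hTL 5 1 3 Nat.prime_five (by norm_num)
    (fun j => if j = 0 then 0.873 else if j = 1 then 0.766 else 0)
    (fun j => if j = 0 then 1.390 else if j = 1 then 0.853 else 0)
    (fun j => if j = 0 then 0.18 else if j = 1 then 0.82 else 0)
    (fun j => if j = 0 then 0.19 else if j = 1 then 0.81 else 0)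
    (fun j => if j = 0 then 0.0025 else if j = 1 then 0.0015 else 0)
    (fun j => if j = 0 then 0.1842 else if j = 1 then 0.1289 else 1)
    (fun i => 0.965)
    (fun i j' => 1.2)
    (fun j i j' => ((Lam5 j i j' : ℚ) : ℝ))
    0.965 _ _ ?_ ?_ ?_ ?_ ?_ ?_ ?_ ?_ ?_ ?_ ?_ ?_ ?_ hlo hhi ?_
  · -- the root
    intro j hj
    rw [pk5] at hj
    fin_cases j
    · exact ⟨a1, a3⟩
    · exact ⟨b1, b3⟩
    · simp at hj
    · simp at hj
    · simp at hj
  · intro i
    exact ⟨(five_pow hpow (1 + 1 + i) (by omega)).1, by norm_num⟩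
  · intro i j' hj'
    have := zero_of i j' hj'
    subst this
    exact (five_pow hpow (1 + 1 + i) (by omega)).2
  · intro i j'; norm_num
  · intro j i j'
    unfold Lam5
    split_ifs <;> norm_num
  · intro j i j' hj hj'
    rw [pk5] at hj
    have := zero_of i j' hj'
    subst this
    rcases i with _ | _ | _ | i
    · fin_cases j
      · exact pair_lemma 5 35000 188000 11 (7 / 100) (184 / 10000) (by decide +kernel)
      · exact pair_lemma 5 55000 188000 11 (7 / 100) (87 / 10000) (by decide +kernel)
      · simp at hj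
      · simp at hj
      · simp at hj
    · fin_cases j
      · exact pair_lemma 5 35000 1000000 17 (132 / 10000) (224 / 100000) (by decide +kernel)
      · exact pair_lemma 5 55000 1000000 17 (132 / 10000) (105 / 100000) (by decide +kernel)
      · simp at hj
      · simp at hj
      · simp at hj
    · fin_cases j
      · exact pair_lemma 5 35000 5000000 17 (27 / 10000) (112 / 100000) (by decide +kernel)
      · exact pair_lemma 5 55000 5000000 17 (27 / 10000) (53 / 100000) (by decide +kernel)
      · simp at hj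
      · simp at hj
      · simp at hj
    · have h3 := five_pow_ge (1 + 1 + (i + 1 + 1 + 1)) (by omega)
      have e : ((Lam5 j (i + 1 + 1 + 1) 0 : ℚ) : ℝ) = 1 := by
        unfold Lam5
        rw [if_neg (by omega), if_neg (by omega), if_neg (by omega)]
        norm_num
      simp only [e]
      apply pair_one 5
      right
      constructor
      · fin_cases j
        · decide
        · decide
        · simp at hj
        · simp at hj
        · simp at hj
      · exact ck_gt _ _ (by omega) (by norm_num)
  · intro i hi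
    norm_num
  · intro j; split_ifs <;> norm_num
  · intro j hj
    rw [pk5] at hj
    fin_cases j <;> simp at hj ⊢
  · simp only [Fin.sum_univ_five]
    norm_num [f20, f30, f40, f21, f31, f41]
  · simp only [Fin.sum_univ_five]
    norm_num [f20, f30, f40, f21, f31, f41]
  · intro j; split_ifs <;> norm_num
  · intro j; split_ifs <;> norm_num
  · intro j T h1 h2
    have hq2 := fun j' => qD_power 5 2 j' Nat.prime_five (by norm_num) (by norm_num)
    have hq3 := fun j' => qD_power 5 3 j' Nat.prime_five (by norm_num) (by norm_num)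
    have hq4 := fun j' => qD_power 5 4 j' Nat.prime_five (by norm_num) (by norm_num)
    simp only [Finset.sum_range_succ, Finset.sum_range_zero, GGp] at h1 h2
    norm_num at h1 h2
    unfold AtomOK SSn
    simp only [Finset.sum_range_succ, Finset.sum_range_zero, Fin.sum_univ_five, GGp, qD5]
    have e : (1 + 1 + 0 : ℕ) = 2 := rfl
    have e' : (1 + 1 + 1 : ℕ) = 3 := rfl
    have e'' : (1 + 1 + 2 : ℕ) = 4 := rfl
    simp only [e, e', e'', hq2, hq3, hq4]
    unfold phi Lam5
    fin_cases j <;> norm_num [f20, f30, f40, f21, f31, f41] <;> refine ⟨?_, ?_, ?_, ?_⟩ <;> linarith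

end Pool.Agent.EZ
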