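import Pool.Agent.EZ.L9

/-!
# The account of 7
-/

set_option autoImplicit false
set_option linter.unusedSectionVars false
set_option linter.unusedVariables false

namespace Pool.Agent.EZ

open Finset

theorem prime_seven' : Nat.Prime 7 := by norm_num

theorem pk7 (j : ℕ) : pk (7 ^ 1) 7 j = if j = 0 then 800 else if j = 1 then 200 else 0 := by
  norm_num [pk]

theorem qD7 (j : Fin 5) : qD (7 ^ 1) j = if j = 0 then 0.8 else if j = 1 then 0.2 else 0 := by
  unfold qD
  rw [prime_seven'.pow_minFac (by norm_num), pk7]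
  fin_cases j <;> norm_num

/-- the constants `Lam`. -/
noncomputable def Lam7 (j : Fin 5) (i : ℕ) (j' : Fin 5) : ℚ :=
  if i = 0 then (if j = 0 then 43 / 10000 else 206 / 100000)
  else if i = 1 then (if j = 0 then 53 / 100000 else 26 / 100000) else 1

theorem seven_pow_ge (k : ℕ) (hk : 2 ≤ k) : 49 ≤ 7 ^ k := by
  have h1 : 7 ^ 2 ≤ 7 ^ k := Nat.pow_le_pow_right (by norm_num) hk
  omega

theorem seven_pow (hpow : ∀ hi, Stmt_Pow 16 hi) (k : ℕ) (hk : 2 ≤ k) :
    AvgABS (7 ^ k) 0.965 ∧ LINB (7 ^ k) (ck (7 ^ k) 7 0) 1.2 := by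
  have h2 := seven_pow_ge k hk
  have h := powOK_of hpow 7 k prime_seven' (by omega) (by omega)
  have e : cA (7 ^ k) = 0.965 := by
    unfold cA
    rw [if_neg (by omega), prime_seven'.pow_minFac (by omega), if_pos (by norm_num)]
  rw [e] at h
  exact h

theorem stmt_L7 : Stmt_L7 := by
  intro hTL hpow hSa hSb
  obtain ⟨a1, a2, a3⟩ := hSa
  obtain ⟨b1, b2, b3⟩ := hSb
  have hlo := Tz_lower 7 1 6 (by norm_num)
  have hhi := Tz_upper 7 1 6 (by norm_num)
  have zero_of : ∀ (i : ℕ) (j' : Fin 5), pk (7 ^ (1 + 1 + i)) 7 j' ≠ 0 → j' = 0 := by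
    intro i j' hj'
    rw [pk_power 7 (1 + 1 + i) j' prime_seven' (by omega)
      (by have := seven_pow_ge (1 + 1 + i) (by omega); omega)] at hj'
    by_contra h
    have : (j' : ℕ) ≠ 0 := fun h' => h (Fin.ext h')
    simp [this] at hj'
  refine topOK_core hTL 7 1 2 prime_seven' (by norm_num)
    (fun j => if j = 0 then 0.817 else if j = 1 then 0.717 else 0)
    (fun j => if j = 0 then 1.015 else if j = 1 then 0.508 else 0)
    (fun j => if j = 0 then 0.89 else if j = 1 then 0.11 else 0)
    (fun j => if j = 0 then 0.88 else if j = 1 then 0.12 else 0)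
    (fun j => if j = 0 then 0.0008 else if j = 1 then 0.0005 else 0)
    (fun j => if j = 0 then 0.0982 else if j = 1 then 0.0560 else 1)
    (fun i => 0.965)
    (fun i j' => 1.2)
    (fun j i j' => ((Lam7 j i j' : ℚ) : ℝ))
    0.965 _ _ ?_ ?_ ?_ ?_ ?_ ?_ ?_ ?_ ?_ ?_ ?_ ?_ ?_ hlo hhi ?_
  · -- the root
    intro j hj
    rw [pk7] at hj
    fin_cases j
    · exact ⟨a1, a3⟩
    · exact ⟨b1, b3⟩
    · simp at hj
    · simp at hj
    · simp at hj
  · intro i
    exact ⟨(seven_pow hpow (1 + 1 + i) (by omega)).1, by norm_num⟩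
  · intro i j' hj'
    have := zero_of i j' hj'
    subst this
    exact (seven_pow hpow (1 + 1 + i) (by omega)).2
  · intro i j'; norm_num
  · intro j i j'
    unfold Lam7
    split_ifs <;> norm_num
  · intro j i j' hj hj'
    rw [pk7] at hj
    have := zero_of i j' hj'
    subst this
    rcases i with _ | _ | i
    · fin_cases j
      · exact pair_lemma 7 60000 420000 11 (313 / 10000) (43 / 10000) (by decide +kernel)
      · exact pair_lemma 7 127500 420000 19 (313 / 10000) (206 / 100000) (by decide +kernel)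
      · simp at hj
      · simp at hj
      · simp at hj
    · fin_cases j
      · exact pair_lemma 7 60000 2940000 11 (45 / 10000) (53 / 100000) (by decide +kernel)
      · exact pair_lemma 7 127500 2940000 23 (45 / 10000) (26 / 100000) (by decide +kernel)
      · simp at hj
      · simp at hj
      · simp at hj
    · have h3 := seven_pow_ge (1 + 1 + (i + 1 + 1)) (by omega)
      have e : ((Lam7 j (i + 1 + 1) 0 : ℚ) : ℝ) = 1 := by
        unfold Lam7
        rw [if_neg (by omega), if_neg (by omega)]
        norm_num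
      simp only [e]
      apply pair_one 7
      right
      constructor
      · fin_cases j
        · decide
        · decide
        · simp at hj
        · simp at hj
        · simp at hj
      · exact ck_gt _ _ (by omega) (by norm_num)
  · intro i hi
    norm_num
  · intro j; split_ifs <;> norm_num
  · intro j hj
    rw [pk7] at hj
    fin_cases j <;> simp at hj ⊢
  · simp only [Fin.sum_univ_five]
    norm_num [f20, f30, f40, f21, f31, f41]
  · simp only [Fin.sum_univ_five]
    norm_num [f20, f30, f40, f21, f31, f41]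
  · intro j; split_ifs <;> norm_num
  · intro j; split_ifs <;> norm_num
  · intro j T h1 h2
    have hq2 := fun j' => qD_power 7 2 j' prime_seven' (by norm_num) (by norm_num)
    have hq3 := fun j' => qD_power 7 3 j' prime_seven' (by norm_num) (by norm_num)
    have hq4 := fun j' => qD_power 7 4 j' prime_seven' (by norm_num) (by norm_num)
    simp only [Finset.sum_range_succ, Finset.sum_range_zero, GGp] at h1 h2
    norm_num at h1 h2
    unfold AtomOK SSn
    simp only [Finset.sum_range_succ, Finset.sum_range_zero, Fin.sum_univ_five, GGp, qD7]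
    have e : (1 + 1 + 0 : ℕ) = 2 := rfl
    have e' : (1 + 1 + 1 : ℕ) = 3 := rfl
    have e'' : (1 + 1 + 2 : ℕ) = 4 := rfl
    simp only [e, e', e'', hq2, hq3, hq4]
    unfold phi Lam7
    fin_cases j <;> norm_num [f20, f30, f40, f21, f31, f41] <;> refine ⟨?_, ?_, ?_, ?_⟩ <;> linarith

end Pool.Agent.EZ
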