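import Pool.Agent.EZ.L48

/-!
# Modules L8 and L4
-/

set_option autoImplicit false

namespace Pool.Agent.EZ.L48

open Finset Pool.Agent.EZ

/-- cutting the tail sum. -/
theorem tail_le (m n : ℕ) (A Bf : ℕ → ℝ) (c : ℝ) (hA : ∀ i, 0 ≤ A i) (hB : ∀ i, 0 ≤ Bf i)
    (hc : ∀ i, n ≤ i → A i ≤ c) (hc0 : 0 ≤ c) (K : ℕ) :
    ∑ i ∈ range K, sk (m + i) * min (A i) (Bf i)
      ≤ ∑ i ∈ range n, sk (m + i) * min (A i) (Bf i) + c * Rm (m + n) := by
  have hnn : ∀ i, 0 ≤ sk (m + i) * min (A i) (Bf i) := fun i =>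
    mul_nonneg (sk_nonneg _) (le_min (hA i) (hB i))
  have h1 : ∑ i ∈ range K, sk (m + i) * min (A i) (Bf i)
      ≤ ∑ i ∈ range (n + K), sk (m + i) * min (A i) (Bf i) := by
    apply Finset.sum_le_sum_of_subset_of_nonneg
    · intro i hi
      rw [Finset.mem_range] at hi ⊢
      omega
    · intro i _ _
      exact hnn i
  refine h1.trans ?_
  rw [Finset.sum_range_add]
  have h2 : ∑ i ∈ range K, sk (m + (n + i)) * min (A (n + i)) (Bf (n + i))
      ≤ ∑ i ∈ range K, c * sk (m + n + i) := by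
    apply Finset.sum_le_sum
    intro i _
    have h3 : min (A (n + i)) (Bf (n + i)) ≤ c := (min_le_left _ _).trans (hc _ (by omega))
    have h4 : sk (m + (n + i)) = sk (m + n + i) := by rw [add_assoc]
    rw [h4, mul_comm c]
    exact mul_le_mul_of_nonneg_left h3 (sk_nonneg _)
  have h5 : ∑ i ∈ range K, c * sk (m + n + i) ≤ c * Rm (m + n) := by
    rw [← Finset.mul_sum]
    apply mul_le_mul_of_nonneg_left _ hc0
    exact (sk_summable (m + n)).sum_le_tsum _ (fun i _ => sk_nonneg _)
  linarith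

theorem cA_two (k : ℕ) (hk : 5 ≤ k) : cA (2 ^ k) = 0.965 := by
  unfold cA
  have h1 : (2 : ℕ) ^ k ≠ 16 := by
    intro h
    have h2 : (2 : ℕ) ^ 5 ≤ 2 ^ k := Nat.pow_le_pow_right (by norm_num) hk
    omega
  rw [if_neg h1, if_pos]
  rw [Nat.prime_two.pow_minFac (by omega)]
  norm_num

theorem cA_16 : cA (2 ^ 4) = 0.985 := by
  unfold cA
  norm_num

theorem Rm_bounds : 1 / 160 + 1 / 384 + 1 / 896 + 1 / 2048 ≤ Rm 5 ∧
    Rm 5 ≤ 1 / 160 + 1 / 384 + 1 / 896 + 1 / 2048 + 2 / (9 * 512) := by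
  have h5 := Rm_succ 5
  have h6 := Rm_succ 6
  have h7 := Rm_succ 7
  have h8 := Rm_succ 8
  have h9 := Rm_nonneg 9
  have h9' := Rm_le 9 (by norm_num)
  norm_num [sk] at h5 h6 h7 h8 h9'
  constructor <;> linarith

theorem Rm_four : Rm 4 = 1 / 64 + Rm 5 := by
  have h := Rm_succ 4
  norm_num [sk] at h
  linarith

theorem Rm_three : Rm 3 = 1 / 24 + 1 / 64 + Rm 5 := by
  have h := Rm_succ 3
  have h4 := Rm_four
  norm_num [sk] at h
  linarith

theorem num8 (a : ℝ) (ha0 : 0 ≤ a) (ha1 : a ≤ 1) :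
    min (0.2606 * Rm 4) (1.011 * a * sk 3) + sk 4 * min 0.985 (1.2 * phi 0.0131 a)
      + 0.965 * Rm 5 ≤ Rm 4 := by
  obtain ⟨b1, b2⟩ := Rm_bounds
  have e4 := Rm_four
  have s3 : sk 3 = 1 / 24 := by norm_num [sk]
  have s4 : sk 4 = 1 / 64 := by norm_num [sk]
  rw [s3, s4]
  have p0 : phi 0.0131 0.003 ≤ 0.8133 := by unfold phi; norm_num
  have p1 : phi 0.0131 0.164 ≤ 0.063 := by unfold phi; norm_num
  rcases le_total a 0.003 with h | h
  · have h1 := min_le_right (0.2606 * Rm 4) (1.011 * a * (1 / 24))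
    have h2 := min_le_left (0.985 : ℝ) (1.2 * phi 0.0131 a)
    linarith
  rcases le_total a 0.164 with h' | h'
  · have h1 := min_le_right (0.2606 * Rm 4) (1.011 * a * (1 / 24))
    have h2 := min_le_right (0.985 : ℝ) (1.2 * phi 0.0131 a)
    have h3 := phi_chord (L := 0.0131) (s := 0.003) (a := a) (t := 0.164) (by norm_num)
      (by norm_num) (by norm_num) h h' (by norm_num)
    have h4 : (0.164 - a) * phi 0.0131 0.003 ≤ (0.164 - a) * 0.8133 :=
      mul_le_mul_of_nonneg_left p0 (by linarith)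
    have h5 : (a - 0.003) * phi 0.0131 0.164 ≤ (a - 0.003) * 0.063 :=
      mul_le_mul_of_nonneg_left p1 (by linarith)
    linarith
  · have h1 := min_le_left (0.2606 * Rm 4) (1.011 * a * (1 / 24))
    have h2 := min_le_right (0.985 : ℝ) (1.2 * phi 0.0131 a)
    have h3 := phi_anti (L := 0.0131) (s := 0.164) (a := a) (by norm_num) (by norm_num) h' ha1
    linarith

theorem num4 (a : ℝ) (ha0 : 0 ≤ a) (ha1 : a ≤ 1) :
    min (0.540 * Rm 3) (0.970 * a * sk 2) + (sk 3 * min 0.976 (1.011 * phi 0.0722 a)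
      + sk 4 * min 0.985 (1.2 * phi 0.0302 a))
      + 0.965 * Rm 5 ≤ Rm 3 := by
  obtain ⟨b1, b2⟩ := Rm_bounds
  have e3 := Rm_three
  have s2 : sk 2 = 1 / 8 := by norm_num [sk]
  have s3 : sk 3 = 1 / 24 := by norm_num [sk]
  have s4 : sk 4 = 1 / 64 := by norm_num [sk]
  rw [s2, s3, s4]
  have p0 : phi 0.0722 0.005 ≤ 0.935 := by unfold phi; norm_num
  have p1 : phi 0.0722 0.3 ≤ 0.1443 := by unfold phi; norm_num
  have q0 : phi 0.0302 0.005 ≤ 0.8575 := by unfold phi; norm_num
  have q1 : phi 0.0302 0.3 ≤ 0.0660 := by unfold phi; norm_num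
  rcases le_total a 0.005 with h | h
  · have h1 := min_le_right (0.540 * Rm 3) (0.970 * a * (1 / 8))
    have h2 := min_le_left (0.976 : ℝ) (1.011 * phi 0.0722 a)
    have h3 := min_le_left (0.985 : ℝ) (1.2 * phi 0.0302 a)
    linarith
  rcases le_total a 0.3 with h' | h'
  · have h1 := min_le_right (0.540 * Rm 3) (0.970 * a * (1 / 8))
    have h2 := min_le_right (0.976 : ℝ) (1.011 * phi 0.0722 a)
    have h2' := min_le_right (0.985 : ℝ) (1.2 * phi 0.0302 a)
    have h3 := phi_chord (L := 0.0722) (s := 0.005) (a := a) (t := 0.3) (by norm_num)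
      (by norm_num) (by norm_num) h h' (by norm_num)
    have h3' := phi_chord (L := 0.0302) (s := 0.005) (a := a) (t := 0.3) (by norm_num)
      (by norm_num) (by norm_num) h h' (by norm_num)
    have h4 : (0.3 - a) * phi 0.0722 0.005 ≤ (0.3 - a) * 0.935 :=
      mul_le_mul_of_nonneg_left p0 (by linarith)
    have h5 : (a - 0.005) * phi 0.0722 0.3 ≤ (a - 0.005) * 0.1443 :=
      mul_le_mul_of_nonneg_left p1 (by linarith)
    have h4' : (0.3 - a) * phi 0.0302 0.005 ≤ (0.3 - a) * 0.8575 :=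
      mul_le_mul_of_nonneg_left q0 (by linarith)
    have h5' : (a - 0.005) * phi 0.0302 0.3 ≤ (a - 0.005) * 0.0660 :=
      mul_le_mul_of_nonneg_left q1 (by linarith)
    linarith
  · have h1 := min_le_left (0.540 * Rm 3) (0.970 * a * (1 / 8))
    have h2 := min_le_right (0.976 : ℝ) (1.011 * phi 0.0722 a)
    have h2' := min_le_right (0.985 : ℝ) (1.2 * phi 0.0302 a)
    have h3 := phi_anti (L := 0.0722) (s := 0.3) (a := a) (by norm_num) (by norm_num) h' ha1
    have h3' := phi_anti (L := 0.0302) (s := 0.3) (a := a) (by norm_num) (by norm_num) h' ha1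
    linarith

theorem cA_nonneg (z : ℕ) : 0 ≤ cA z := by
  unfold cA
  split_ifs <;> norm_num

theorem pow16_le (k : ℕ) (hk : 4 ≤ k) : 16 ≤ 2 ^ k := by
  have h2 : (2 : ℕ) ^ 4 ≤ 2 ^ k := Nat.pow_le_pow_right (by norm_num) hk
  omega

end Pool.Agent.EZ.L48

namespace Pool.Agent.EZ

open Finset L48

theorem L8_proof : Stmt_L8 := by
  intro hTL hpow hS8
  obtain ⟨hl, hab, ht⟩ := hS8
  apply account hTL 3 (by norm_num) 50000 (by decide) 1.011 0.2606 hl ht
    (fun i => cA (2 ^ (3 + 1 + i))) (fun _ => 1.2) (fun i => if i = 0 then 0.0131 else 1)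
  · intro i
    exact (powOK_of hpow 2 (3 + 1 + i) Nat.prime_two (by omega) (L48.pow16_le _ (by omega))).1
  · intro i
    exact ⟨by norm_num,
      (powOK_of hpow 2 (3 + 1 + i) Nat.prime_two (by omega) (L48.pow16_le _ (by omega))).2⟩
  · intro i
    split_ifs <;> norm_num
  · intro i
    by_cases hi : i = 0
    · subst hi
      have h := pair_lemma 2 50000 70000 11 (1 / 10) (131 / 10000) (by decide +kernel)
      have e : ck (2 ^ (3 + 1 + 0)) 2 0 = 70000 := by decide
      rw [e, if_pos rfl]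
      push_cast at h
      have e2 : (131 / 10000 : ℝ) = 0.0131 := by norm_num
      rw [e2] at h
      exact h
    · rw [if_neg hi]
      exact pair_one 2 50000 _ (Or.inl rfl)
  · intro a ha0 ha1 K
    have h1 := tail_le 4 1 (fun i => cA (2 ^ (3 + 1 + i)))
      (fun i => 1.2 * phi (if i = 0 then 0.0131 else 1) a) 0.965 (fun i => cA_nonneg _)
      (fun i => mul_nonneg (by norm_num) (L48.phi_nonneg (by split_ifs <;> norm_num) ha0 ha1))
      (fun i hi => le_of_eq (cA_two _ (by omega))) (by norm_num) K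
    have h2 := num8 a ha0 ha1
    simp only [Finset.sum_range_one, if_true, Nat.add_zero] at h1
    rw [show 3 + 1 = 4 from rfl] at *
    rw [cA_16] at h1
    linarith

theorem L4_proof : Stmt_L4 := by
  intro hTL hpow hS4 hS8
  obtain ⟨hl, hab, ht⟩ := hS4
  obtain ⟨hl8, hab8, ht8⟩ := hS8
  apply account hTL 2 (by norm_num) 20000 (by decide) 0.970 0.540 hl ht
    (fun i => if i = 0 then 0.976 else cA (2 ^ (2 + 1 + i)))
    (fun i => if i = 0 then 1.011 else 1.2)
    (fun i => if i = 0 then 0.0722 else if i = 1 then 0.0302 else 1)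
  · intro i
    by_cases hi : i = 0
    · subst hi
      rw [if_pos rfl]
      exact avg_power 2 3 _ Nat.prime_two (by norm_num) (by norm_num) hab8
    · rw [if_neg hi]
      exact (powOK_of hpow 2 (2 + 1 + i) Nat.prime_two (by omega) (L48.pow16_le _ (by omega))).1
  · intro i
    by_cases hi : i = 0
    · subst hi
      rw [if_pos rfl]
      exact ⟨by norm_num, hl8⟩
    · rw [if_neg hi]
      exact ⟨by norm_num,
        (powOK_of hpow 2 (2 + 1 + i) Nat.prime_two (by omega) (L48.pow16_le _ (by omega))).2⟩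
  · intro i
    split_ifs <;> norm_num
  · intro i
    by_cases hi : i = 0
    · subst hi
      have h := pair_lemma 2 20000 50000 11 (1 / 10) (722 / 10000) (by decide +kernel)
      have e : ck (2 ^ (2 + 1 + 0)) 2 0 = 50000 := by decide
      rw [e, if_pos rfl]
      push_cast at h
      have e2 : (722 / 10000 : ℝ) = 0.0722 := by norm_num
      rw [e2] at h
      exact h
    · rw [if_neg hi]
      by_cases hi1 : i = 1
      · subst hi1
        have h := pair_lemma 2 20000 70000 11 (1 / 10) (302 / 10000) (by decide +kernel)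
        have e : ck (2 ^ (2 + 1 + 1)) 2 0 = 70000 := by decide
        rw [e, if_pos rfl]
        push_cast at h
        have e2 : (302 / 10000 : ℝ) = 0.0302 := by norm_num
        rw [e2] at h
        exact h
      · rw [if_neg hi1]
        exact pair_one 2 20000 _ (Or.inl rfl)
  · intro a ha0 ha1 K
    have h1 := tail_le 3 2 (fun i => if i = 0 then 0.976 else cA (2 ^ (2 + 1 + i)))
      (fun i => (if i = 0 then 1.011 else 1.2) *
        phi (if i = 0 then 0.0722 else if i = 1 then 0.0302 else 1) a) 0.965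
      (fun i => by
        split_ifs
        · norm_num
        · exact cA_nonneg _)
      (fun i => mul_nonneg (by split_ifs <;> norm_num)
        (L48.phi_nonneg (by split_ifs <;> norm_num) ha0 ha1))
      (fun i hi => by
        have h0 : i ≠ 0 := by omega
        rw [if_neg h0]
        exact le_of_eq (cA_two _ (by omega))) (by norm_num) K
    have h2 := num4 a ha0 ha1
    simp only [Finset.sum_range_succ, Finset.sum_range_zero, if_true, Nat.add_zero, zero_add,
      one_ne_zero, if_false] at h1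
    rw [show 2 + 1 = 3 from rfl] at *
    rw [show 3 + 1 = 4 from rfl, show 3 + 2 = 5 from rfl, cA_16] at h1
    linarith

end Pool.Agent.EZ
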