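import Pool.Agent.EZ.LCore

/-!
# The account of 9
-/

set_option autoImplicit false
set_option linter.unusedSectionVars false
set_option linter.unusedVariables false

namespace Pool.Agent.EZ

open Finset

theorem ck_gt (v r : ℕ) (hv : 3 ≤ v) (hr : 2 ≤ r) : 10000 < ck v r 0 := by
  have h1 : v / r ≤ v / 2 := Nat.div_le_div_left hr (by norm_num)
  by_cases hs : v ∈ ({2, 3, 4, 5, 7, 8, 9, 16, 25, 27, 32, 64} : Finset ℕ)
  · simp only [Finset.mem_insert, Finset.mem_singleton] at hs
    rcases hs with rfl | rfl | rfl | rfl | rfl | rfl | rfl | rfl | rfl | rfl | rfl | rfl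
    · omega
    all_goals simp [ck]
  · by_cases hr' : v = r
    · subst hr'
      simp only [Finset.mem_insert, Finset.mem_singleton, not_or] at hs
      obtain ⟨h2, h3, h4, h5, h7, h8, h9, h16, h25, h27, h32, h64⟩ := hs
      simp only [ck, if_neg h2, if_neg h3, if_neg h4, if_neg h5, if_neg h7, if_neg h8, if_neg h9,
        if_neg h16, if_neg h25, if_neg h27, if_neg h32, if_neg h64, if_true]
      norm_num
      omega
    · rw [ck_generic v r 0 hs hr']
      simp only [Finset.mem_insert, Finset.mem_singleton, not_or] at hs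
      omega

theorem f20 : ((2 : Fin 5) = 0) = False := by decide
theorem f30 : ((3 : Fin 5) = 0) = False := by decide
theorem f40 : ((4 : Fin 5) = 0) = False := by decide
theorem f21 : ((2 : Fin 5) = 1) = False := by decide
theorem f31 : ((3 : Fin 5) = 1) = False := by decide
theorem f41 : ((4 : Fin 5) = 1) = False := by decide

theorem cA_three (k : ℕ) (hk : 3 ≤ k) : cA (3 ^ k) = 0.965 := by
  unfold cA
  rw [Nat.prime_three.pow_minFac (by omega)]
  have h : 3 ^ k ≠ 16 := by
    intro h
    have h1 : 3 ^ 3 ≤ 3 ^ k := Nat.pow_le_pow_right (by norm_num) hk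
    omega
  rw [if_neg h, if_pos (by norm_num)]

theorem three_pow_ge (k : ℕ) (hk : 3 ≤ k) : 27 ≤ 3 ^ k := by
  have h1 : 3 ^ 3 ≤ 3 ^ k := Nat.pow_le_pow_right (by norm_num) hk
  omega

theorem three_pow (hpow : ∀ hi, Stmt_Pow 16 hi) (k : ℕ) (hk : 3 ≤ k) :
    AvgABS (3 ^ k) 0.965 ∧ LINB (3 ^ k) (ck (3 ^ k) 3 0) 1.2 := by
  have h2 := three_pow_ge k hk
  have h := powOK_of hpow 3 k Nat.prime_three (by omega) (by omega)
  rw [cA_three k hk] at h
  exact h

theorem pk9 (j : ℕ) : pk (3 ^ 2) 3 j = if j = 0 then 430 else if j = 1 then 570 else 0 := by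
  norm_num [pk]

theorem qD9 (j : Fin 5) : qD (3 ^ 2) j = if j = 0 then 0.43 else if j = 1 then 0.57 else 0 := by
  unfold qD
  rw [Nat.prime_three.pow_minFac (by norm_num), pk9]
  fin_cases j <;> norm_num

theorem stmt_L9 : Stmt_L9 := by
  intro hTL hpow hSa hSb
  obtain ⟨a1, a2, a3⟩ := hSa
  obtain ⟨b1, b2, b3⟩ := hSb
  have hlo := Tz_lower 3 2 4 (by norm_num)
  have hhi := Tz_upper 3 2 4 (by norm_num)
  refine topOK_core hTL 3 2 1 Nat.prime_three (by norm_num)
    (fun j => if j = 0 then 1.182 else if j = 1 then 0.866 else 0)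
    (fun j => if j = 0 then 0.737 else if j = 1 then 0.282 else 0)
    (fun j => if j = 0 then 0.48 else if j = 1 then 0.52 else 0)
    (fun j => if j = 0 then 0.483 else if j = 1 then 0.517 else 0)
    (fun j => if j = 0 then 0.005 else if j = 1 then 0.0025 else 0)
    (fun j => if j = 0 then 0.186 else if j = 1 then 0.0972 else 1)
    (fun _ => 0.965) (fun _ _ => 1.2)
    (fun j i _ => if i = 0 then (if j = 0 then (((184 / 10000 : ℚ)) : ℝ) else (((87 / 10000 : ℚ)) : ℝ)) else 1)
    0.965 _ _ ?_ ?_ ?_ ?_ ?_ ?_ ?_ ?_ ?_ ?_ ?_ ?_ ?_ hlo hhi ?_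
  · -- the root
    intro j hj
    rw [pk9] at hj
    fin_cases j
    · exact ⟨a1, a3⟩
    · exact ⟨b1, b3⟩
    · simp at hj
    · simp at hj
    · simp at hj
  · intro i
    exact ⟨(three_pow hpow (2 + 1 + i) (by omega)).1, by norm_num⟩
  · intro i j' hj'
    rw [pk_power 3 (2 + 1 + i) j' Nat.prime_three (by omega)
      (by have := three_pow_ge (2 + 1 + i) (by omega); omega)] at hj'
    have : j' = 0 := by
      by_contra h
      have : (j' : ℕ) ≠ 0 := fun h' => h (Fin.ext h')
      simp [this] at hj'
    subst this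
    exact (three_pow hpow (2 + 1 + i) (by omega)).2
  · intro i j'; norm_num
  · intro j i j'
    split_ifs <;> norm_num
  · intro j i j' hj hj'
    rw [pk_power 3 (2 + 1 + i) j' Nat.prime_three (by omega)
      (by have := three_pow_ge (2 + 1 + i) (by omega); omega)] at hj'
    have : j' = 0 := by
      by_contra h
      have : (j' : ℕ) ≠ 0 := fun h' => h (Fin.ext h')
      simp [this] at hj'
    subst this
    rw [pk9] at hj
    rcases Nat.eq_zero_or_pos i with hi | hi
    · subst hi
      fin_cases j
      · exact pair_lemma 3 40000 189000 11 (1 / 10) (184 / 10000) (by decide +kernel)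
      · exact pair_lemma 3 65000 189000 11 (1 / 14) (87 / 10000) (by decide +kernel)
      · simp at hj
      · simp at hj
      · simp at hj
    · rw [if_neg hi.ne']
      have h3 := three_pow_ge (2 + 1 + i) (by omega)
      apply pair_one 3
      right
      constructor
      · fin_cases j
        · decide
        · decide
        · simp at hj
        · simp at hj
        · simp at hj
      · exact ck_gt _ _ (by omega) (by norm_num)
  · intro i _; norm_num
  · intro j; split_ifs <;> norm_num
  · intro j hj
    rw [pk9] at hj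
    fin_cases j <;> simp at hj ⊢
  · simp only [Fin.sum_univ_five]
    norm_num [f20, f30, f40, f21, f31, f41]
  · simp only [Fin.sum_univ_five]
    norm_num [f20, f30, f40, f21, f31, f41]
  · intro j; split_ifs <;> norm_num
  · intro j; split_ifs <;> norm_num
  · intro j T h1 h2
    have hq := fun j' => qD_power 3 3 j' Nat.prime_three (by norm_num) (by norm_num)
    simp only [Finset.sum_range_succ, Finset.sum_range_zero, GGp] at h1 h2
    norm_num at h1 h2
    unfold AtomOK SSn
    simp only [Finset.sum_range_succ, Finset.sum_range_zero, Fin.sum_univ_five, GGp, qD9]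
    have e : (2 + 1 + 0 : ℕ) = 3 := rfl
    simp only [e, hq]
    unfold phi
    fin_cases j <;> norm_num [f20, f30, f40, f21, f31, f41] <;> refine ⟨?_, ?_, ?_, ?_⟩ <;> linarith

end Pool.Agent.EZ
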