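import Pool.Agent.EZ.AccCommon

/-!
# Accounts of the proper powers
-/

set_option autoImplicit false
set_option linter.unusedSectionVars false

namespace Pool.Agent.EZ

open Finset

namespace Acc

/-- clock of a proper power, not in the list of exceptions -/
theorem ck_gen_pow {u r : ℕ} (hu : 33 ≤ u) (h64 : u ≠ 64) (hur : u ≠ r) (j : ℕ) :
    ck u r j = (u - u / r) * 10000 := by
  unfold ck
  rw [if_neg (by omega), if_neg (by omega), if_neg (by omega), if_neg (by omega),
    if_neg (by omega), if_neg (by omega), if_neg (by omega), if_neg (by omega),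
    if_neg (by omega), if_neg (by omega), if_neg (by omega), if_neg (by omega), if_neg hur]

theorem pow_sub_div' {p : ℕ} (hp : 0 < p) (k : ℕ) :
    p ^ (k + 1) - p ^ (k + 1) / p = p ^ k * (p - 1) := by
  rw [pow_succ, Nat.mul_div_cancel _ hp, Nat.mul_sub, mul_one]

/-- one account, from the numbers -/
theorem pow_account (hTL : Stmt_TL) (hCAP : Stmt_CAP) (hPow : ∀ hi, Stmt_Pow 16 hi) {p e : ℕ}
    (hp : p.Prime) (he : 2 ≤ e) (hz : 16 ≤ p ^ e) {w w' L τ : ℝ} (hw0 : 0 ≤ w) (hw'0 : 0 ≤ w')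
    (hw : w ≤ 1 / 2) (hww : w + w' ≤ 1) (hL0 : 0 < L)
    (hL : (Real.exp w - 1) * (Real.exp w' - 1) ≤ L)
    (hx : 70000 ≤ ck (p ^ e) p 0) (hxw : 13125 / (ck (p ^ e) p 0 : ℝ) ≤ w)
    (hx' : ∀ i, 70000 ≤ ck (p ^ (e + 1 + i)) p 0 ∧ 13125 / (ck (p ^ (e + 1 + i)) p 0 : ℝ) ≤ w')
    (hτ : hh ((p : ℝ) ^ e) * τ ≤ Tz p e) (h1 : 1.2 * w ≤ 0.65 * τ)
    (h2 : 1.44 * L ≤ 0.033775 * τ) : TopOK p e := by
  intro B hB hpB hM K
  have hp0 : 0 < p := hp.pos
  have hmf0 : (p ^ e).minFac = p := hp.pow_minFac (by omega)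
  have hmf : ∀ i : ℕ, (p ^ (e + 1 + i)).minFac = p := fun i => hp.pow_minFac (by omega)
  have hbig : ∀ i : ℕ, 17 ≤ p ^ (e + 1 + i) := by
    intro i
    have : p ^ e < p ^ (e + 1 + i) := Nat.pow_lt_pow_right hp.one_lt (by omega)
    omega
  have hne0 : p ^ e ≠ p := by
    intro h
    have := Nat.pow_right_injective hp.two_le (h.trans (pow_one p).symm)
    omega
  have hne : ∀ i : ℕ, p ^ (e + 1 + i) ≠ p := by
    intro i h
    have := Nat.pow_right_injective hp.two_le (h.trans (pow_one p).symm)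
    omega
  have hnp : ∀ k : ℕ, 2 ≤ k → ¬ (p ^ k).Prime := fun i hi => Nat.Prime.not_prime_pow hi
  have hpp : ∀ k : ℕ, 2 ≤ k → IsPrimePow (p ^ k) := fun i hi => hp.isPrimePow.pow (by omega)
  have hcA : ∀ i : ℕ, cA (p ^ (e + 1 + i)) ≤ 0.965 := by
    intro i
    unfold cA
    have := hbig i
    rw [if_neg (by omega)]
    split_ifs <;> norm_num
  have hpow := fun i : ℕ => hPow (p ^ (e + 1 + i) + 1) (p ^ (e + 1 + i)) (hpp _ (by omega))
    (hnp _ (by omega)) (by have := hbig i; omega) (by omega)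
  have hpow0 := (hPow (p ^ e + 1) (p ^ e) (hpp _ he) (hnp _ he) hz (by omega)).2
  rw [hmf0] at hpow0
  have hj00 : ∀ j : Fin 5, pk (p ^ e) p j ≠ 0 → (j : ℕ) = 0 := by
    intro j hj
    by_contra h
    rw [pk_pow hz hne0, if_neg h] at hj
    exact hj rfl
  have hj0 : ∀ (i : ℕ) (j : Fin 5), pk (p ^ (e + 1 + i)) p j ≠ 0 → (j : ℕ) = 0 := by
    intro i j hj
    by_contra h
    rw [pk_pow (by have := hbig i; omega) (hne i), if_neg h] at hj
    exact hj rfl
  have hcap0 : ∀ VS : Finset ℕ, (∀ v ∈ VS, IsPrimePow v) → ∀ r,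
      ∑ v ∈ VS.filter (fun v => v.minFac = r), Sx (ck (p ^ e) p 0) v / (v : ℝ) ≤ w :=
    fun VS hVS r => ((hCAP _ VS hVS r).1 hx).trans hxw
  obtain ⟨a, ha, hD0, hD⟩ := hTL B p e hB hp (by omega) hpB (fun _ => 1.2) (fun _ => 1.2 * w)
    (fun _ => 0.965) (fun _ _ => 1.2) (fun _ _ _ => L) (by
      intro j hj
      rw [hj00 j hj]
      refine ⟨hpow0, ?_⟩
      exact TOPB_of_LINB (by omega) (by norm_num) hpow0 hw0 hw hcap0) (by
      intro i
      refine avgABS_pow (by have := hbig i; omega) (by rw [hmf i]; exact hne i) ?_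
      intro M hM
      refine ((hpow i).1 M hM).trans ?_
      refine mul_le_mul_of_nonneg_right (hcA i) (hh_nonneg ?_)
      exact_mod_cast (by have := hbig i; omega : 1 ≤ p ^ (e + 1 + i))) (by
      intro i j' hj'
      have := (hpow i).2
      rw [hmf i] at this
      rw [hj0 i j' hj']
      exact ⟨by norm_num, this⟩) (by
      intro j i j'
      exact hL0) (by
      intro j i j' hj hj'
      rw [hj00 j hj, hj0 i j' hj']
      refine ⟨fun _ => w, fun _ => w', fun r => ⟨hw0, hw'0, one_le_exp_add hww, hL⟩, ?_⟩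
      intro VS hVS r
      exact ⟨hcap0 VS (fun v hv => (hVS v hv).1) r,
        ((hCAP _ VS (fun v hv => (hVS v hv).1) r).1 (hx' i).1).trans (hx' i).2⟩)
  have hh0 := hh_pow_pos hp (k := e) (by omega)
  have hT0 := Tz_pos hp e
  have hq : ∀ j : Fin 5, qD (p ^ e) j = if (j : ℕ) = 0 then 1 else 0 := by
    intro j
    unfold qD
    rw [hmf0, pk_pow hz hne0]
    split_ifs <;> norm_num
  have hs : ∑ j, qD (p ^ e) j * min (1.2 * w) (1.2 * a j) = min (1.2 * w) (1.2 * a 0) := by
    simp only [hq, Fin.sum_univ_five]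
    simp
  rw [hs] at hD0
  have hpk0 : pk (p ^ e) p (0 : Fin 5) ≠ 0 := by
    rw [pk_pow hz hne0]; norm_num
  refine finish hp (by omega) (κ := 0.65) (A := 0.965) (c := 1.2) (L := L)
    (a := a 0) (ha 0).1 (ha 0).2 (by norm_num) hL0 (by norm_num) (by norm_num)
    (by norm_num) (by norm_num) ?_ ?_ ?_ ?_ (fun i => (hD i).1) ?_ K
  · nlinarith [mul_le_mul_of_nonneg_right h2 hh0.le]
  · nlinarith [mul_le_mul_of_nonneg_right h2 hh0.le]
  · refine hD0.trans ((mul_le_mul_of_nonneg_left (min_le_left _ _) hh0.le).trans ?_)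
    nlinarith [mul_le_mul_of_nonneg_right h1 hh0.le]
  · refine hD0.trans ((mul_le_mul_of_nonneg_left (min_le_right _ _) hh0.le).trans ?_)
    nlinarith
  · intro i
    have h3 := (hD i).2 0 hpk0
    have h4 := qD_sum (p ^ (e + 1 + i))
    rw [← Finset.sum_mul, h4, one_mul] at h3
    exact h3

theorem pow_lam {p c : ℝ} (hp : 2 ≤ p) (hc : 24.5 ≤ c) :
    (Real.exp (1.3125 / c) - 1) * (Real.exp (1.3125 / (p * c)) - 1) ≤ 1.8 / (p * c ^ 2) := by
  have h1 : 0 < c := by linarith
  have h0 : 0 < p := by linarith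
  have h2 : 0 < p * c := mul_pos h0 h1
  have hpc : 49 ≤ p * c := by nlinarith
  have hw : 1.3125 / c ≤ 0.0536 := by
    rw [div_le_iff₀ h1]; nlinarith
  have hw0 : 0 ≤ 1.3125 / c := by positivity
  have hw' : 1.3125 / (p * c) ≤ 0.0268 := by
    rw [div_le_iff₀ h2]; nlinarith
  have hw0' : 0 ≤ 1.3125 / (p * c) := by positivity
  have e1 := exp_sub_one_le3 hw0 (by linarith)
  have e2 := exp_sub_one_le3 hw0' (by linarith)
  have e1' : Real.exp (1.3125 / c) - 1 ≤ 1.3125 / c * 1.0275 := by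
    refine e1.trans (mul_le_mul_of_nonneg_left ?_ hw0)
    nlinarith
  have e2' : Real.exp (1.3125 / (p * c)) - 1 ≤ 1.3125 / (p * c) * 1.0137 := by
    refine e2.trans (mul_le_mul_of_nonneg_left ?_ hw0')
    nlinarith
  have e3 : 0 ≤ Real.exp (1.3125 / (p * c)) - 1 := by
    have := Real.one_le_exp hw0'; linarith
  calc _ ≤ (1.3125 / c * 1.0275) * (1.3125 / (p * c) * 1.0137) :=
        mul_le_mul e1' e2' e3 (by positivity)
    _ = (1.3125 * 1.0275 * 1.3125 * 1.0137) / (p * c ^ 2) := by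
        field_simp
    _ ≤ 1.8 / (p * c ^ 2) := by
        apply div_le_div_of_nonneg_right _ (by positivity)
        norm_num

/-- the general case -/
theorem pow_general (hTL : Stmt_TL) (hCAP : Stmt_CAP) (hPow : ∀ hi, Stmt_Pow 16 hi) {p e : ℕ}
    (hp : p.Prime) (he : 1 ≤ e) (hz : 49 ≤ p ^ (e + 1)) (h64 : p ^ (e + 1) ≠ 64)
    (h6 : 6 * p ≤ p ^ e * (p - 1)) : TopOK p (e + 1) := by
  have hp0 : 0 < p := hp.pos
  have hp2 : 2 ≤ p := hp.two_le
  set c : ℕ := p ^ e * (p - 1) with hc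
  have hc2 : p ^ (e + 1) ≤ 2 * c := by
    rw [hc, pow_succ]
    have : p ≤ 2 * (p - 1) := by omega
    nlinarith [Nat.pos_of_ne_zero (pow_ne_zero e hp0.ne')]
  have hcr : (24.5 : ℝ) ≤ c := by
    have : (49 : ℝ) ≤ 2 * (c : ℝ) := by exact_mod_cast hz.trans hc2
    linarith
  have hpr : (2 : ℝ) ≤ p := by exact_mod_cast hp2
  have h6r : 6 * (p : ℝ) ≤ c := by exact_mod_cast h6
  have hne0 : p ^ (e + 1) ≠ p := by
    intro h
    have := Nat.pow_right_injective hp.two_le (h.trans (pow_one p).symm)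
    omega
  have hck : ck (p ^ (e + 1)) p 0 = c * 10000 := by
    rw [ck_gen_pow (by omega) h64 hne0, pow_sub_div' hp0]
  have hck' : ∀ i, p * c * 10000 ≤ ck (p ^ (e + 1 + 1 + i)) p 0 := by
    intro i
    have h1 : p ^ (e + 1) < p ^ (e + 1 + 1 + i) := Nat.pow_lt_pow_right hp.one_lt (by omega)
    have h2 : p ^ (e + 1) * p ≤ p ^ (e + 1 + 1 + i) := by
      rw [← pow_succ]
      exact Nat.pow_le_pow_right hp0 (by omega)
    have h3 : 98 ≤ p ^ (e + 1 + 1 + i) := by nlinarith
    rw [ck_gen_pow (by omega) (by omega) (by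
      intro h
      have := Nat.pow_right_injective hp.two_le (h.trans (pow_one p).symm)
      omega), show e + 1 + 1 + i = (e + 1 + i) + 1 by omega, pow_sub_div' hp0]
    refine Nat.mul_le_mul_right _ ?_
    rw [hc, ← mul_assoc]
    refine Nat.mul_le_mul_right _ ?_
    rw [← pow_succ']
    exact Nat.pow_le_pow_right hp0 (by omega)
  have hcpos : (0 : ℝ) < c := by linarith
  have hppos : (0 : ℝ) < p := by linarith
  have hpc : (49 : ℝ) ≤ (p : ℝ) * c := by nlinarith
  have hTf := Tz_ge_first hp (e := e + 1) (by omega)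
  have hcn : 25 ≤ c := by omega
  refine pow_account hTL hCAP hPow hp (e := e + 1) (by omega) (by omega)
    (w := 1.3125 / c) (w' := 1.3125 / (p * c)) (L := 1.8 / (p * (c : ℝ) ^ 2)) (τ := 2 / (3 * p))
    (by positivity) (by positivity) ?_ ?_ (by positivity) (pow_lam hpr hcr) ?_ ?_ ?_ ?_ ?_ ?_
  · rw [div_le_iff₀ hcpos]; nlinarith
  · have h1 : 1.3125 / (c : ℝ) ≤ 0.0536 := by
      rw [div_le_iff₀ hcpos]; nlinarith
    have h2 : 1.3125 / ((p : ℝ) * c) ≤ 0.0268 := by
      rw [div_le_iff₀ (by positivity)]; nlinarith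
    linarith
  · rw [hck]; omega
  · rw [hck]
    push_cast
    rw [div_le_div_iff₀ (by positivity) hcpos]
    nlinarith
  · intro i
    have h1 := hck' i
    have h2 : 2 * 25 * 10000 ≤ p * c * 10000 :=
      Nat.mul_le_mul_right _ (Nat.mul_le_mul hp2 hcn)
    refine ⟨by omega, ?_⟩
    have h3 : (p : ℝ) * c * 10000 ≤ (ck (p ^ (e + 1 + 1 + i)) p 0 : ℝ) := by exact_mod_cast h1
    rw [div_le_div_iff₀ (by nlinarith) (by positivity)]
    nlinarith
  · refine le_trans ?_ hTf
    rw [mul_div_assoc]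
    refine mul_le_mul_of_nonneg_left ?_ (hh_pow_nonneg hp _)
    push_cast
    rw [div_div, div_le_div_iff₀ (by positivity) (by positivity)]
    have : (1 : ℝ) ≤ e := by exact_mod_cast he
    nlinarith
  · rw [← mul_div_assoc, ← mul_div_assoc, div_le_div_iff₀ hcpos (by positivity)]
    nlinarith
  · rw [← mul_div_assoc, ← mul_div_assoc, div_le_div_iff₀ (by positivity) (by positivity)]
    nlinarith [mul_nonneg hppos.le (mul_nonneg (sub_nonneg.2 hcr) (sub_nonneg.2 hcr))]

/-- a concrete bound for the product, from rational data -/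
theorem lam_num {w w' a b L : ℝ} (h0 : 0 ≤ w) (h1 : w ≤ 1 / 2) (h0' : 0 ≤ w') (h1' : w' ≤ 1 / 2)
    (ha : w * (1 + w / 2 + w ^ 2 * (2 / 9)) ≤ a) (hb : w' * (1 + w' / 2 + w' ^ 2 * (2 / 9)) ≤ b)
    (hL : a * b ≤ L) : (Real.exp w - 1) * (Real.exp w' - 1) ≤ L := by
  have e1 := (exp_sub_one_le3 h0 h1).trans ha
  have e2 := (exp_sub_one_le3 h0' h1').trans hb
  have e3 : 0 ≤ Real.exp w' - 1 := by
    have := Real.one_le_exp h0'; linarith
  have e4 : 0 ≤ Real.exp w - 1 := by
    have := Real.one_le_exp h0; linarith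
  exact (mul_le_mul e1 e2 e3 (e4.trans e1)).trans hL

/-- clocks of the large powers of `p` -/
theorem ck_tail {p k N : ℕ} (hp : p.Prime) (hk : 1 ≤ k) (h64 : 65 ≤ p ^ (k + 1))
    (hN : N ≤ p ^ k * (p - 1) * 10000) (i : ℕ) : N ≤ ck (p ^ (k + 1 + i)) p 0 := by
  have h1 : p ^ (k + 1) ≤ p ^ (k + 1 + i) := Nat.pow_le_pow_right hp.pos (by omega)
  rw [ck_gen_pow (by omega) (by omega) (by
      intro h
      have := Nat.pow_right_injective hp.two_le (h.trans (pow_one p).symm)
      omega), show k + 1 + i = (k + i) + 1 by omega, pow_sub_div' hp.pos]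
  refine hN.trans (Nat.mul_le_mul_right _ (Nat.mul_le_mul_right _ ?_))
  exact Nat.pow_le_pow_right hp.pos (by omega)

theorem div_clock_le {x N : ℕ} {w : ℝ} (hN : 0 < N) (hx : N ≤ x) (hw : 13125 / (N : ℝ) ≤ w) :
    13125 / (x : ℝ) ≤ w := by
  refine le_trans ?_ hw
  apply div_le_div_of_nonneg_left (by norm_num) (by exact_mod_cast hN) (by exact_mod_cast hx)

theorem pow_case64 (hTL : Stmt_TL) (hCAP : Stmt_CAP) (hPow : ∀ hi, Stmt_Pow 16 hi) :
    TopOK 2 6 := by
  have hp : Nat.Prime 2 := Nat.prime_two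
  have hck : ck (2 ^ 6) 2 0 = 420000 := by decide
  have hTf := Tz_ge_first hp (e := 6) (by omega)
  have h0 := hh_pow_nonneg hp 6
  refine pow_account hTL hCAP hPow hp (e := 6) (by omega) (by norm_num)
    (w := 0.03125) (w' := 0.0206) (L := 0.00067) (τ := 0.428) (by norm_num) (by norm_num)
    (by norm_num) (by norm_num) (by norm_num)
    (lam_num (a := 0.03175) (b := 0.02082) (by norm_num) (by norm_num) (by norm_num) (by norm_num)
      (by norm_num) (by norm_num) (by norm_num)) (by rw [hck]; norm_num)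
    (by rw [hck]; norm_num) ?_ ?_ (by norm_num) (by norm_num)
  · intro i
    have h := ck_tail (k := 6) (N := 640000) hp (by omega) (by norm_num) (by norm_num) i
    exact ⟨by omega, div_clock_le (by norm_num) h (by norm_num)⟩
  · refine le_trans ?_ hTf
    push_cast at h0 ⊢
    have e1 : ∀ x : ℝ, x * (6 / (6 + 1)) / 2 = x * (3 / 7) := fun x => by ring
    rw [e1]
    exact mul_le_mul_of_nonneg_left (by norm_num) h0

theorem pow_case32 (hTL : Stmt_TL) (hCAP : Stmt_CAP) (hPow : ∀ hi, Stmt_Pow 16 hi) :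
    TopOK 2 5 := by
  have hp : Nat.Prime 2 := Nat.prime_two
  have hck : ck (2 ^ 5) 2 0 = 192000 := by decide
  have hck' : ck (2 ^ (5 + 1 + 0)) 2 0 = 420000 := by decide
  have hTf := Tz_ge_first hp (e := 5) (by omega)
  have h0 := hh_pow_nonneg hp 5
  refine pow_account hTL hCAP hPow hp (e := 5) (by omega) (by norm_num)
    (w := 0.0684) (w' := 0.03125) (L := 0.0023) (τ := 0.41) (by norm_num) (by norm_num)
    (by norm_num) (by norm_num) (by norm_num)
    (lam_num (a := 0.0709) (b := 0.03175) (by norm_num) (by norm_num) (by norm_num) (by norm_num)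
      (by norm_num) (by norm_num) (by norm_num)) (by rw [hck]; norm_num)
    (by rw [hck]; norm_num) ?_ ?_ (by norm_num) (by norm_num)
  · intro i
    rcases Nat.eq_zero_or_pos i with rfl | hi
    · rw [hck']; exact ⟨by norm_num, by norm_num⟩
    · obtain ⟨i, rfl⟩ : ∃ k, i = k + 1 := ⟨i - 1, by omega⟩
      have h := ck_tail (k := 6) (N := 640000) hp (by omega) (by norm_num) (by norm_num) i
      rw [show 6 + 1 + i = 5 + 1 + (i + 1) by omega] at h
      exact ⟨by omega, div_clock_le (by norm_num) h (by norm_num)⟩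
  · refine le_trans ?_ hTf
    push_cast at h0 ⊢
    have e1 : ∀ x : ℝ, x * (5 / (5 + 1)) / 2 = x * (5 / 12) := fun x => by ring
    rw [e1]
    exact mul_le_mul_of_nonneg_left (by norm_num) h0

theorem pow_case27 (hTL : Stmt_TL) (hCAP : Stmt_CAP) (hPow : ∀ hi, Stmt_Pow 16 hi) :
    TopOK 3 3 := by
  have hp : Nat.Prime 3 := Nat.prime_three
  have hck : ck (3 ^ 3) 3 0 = 189000 := by decide
  have hTf := Tz_ge_first hp (e := 3) (by omega)
  have h0 := hh_pow_nonneg hp 3
  refine pow_account hTL hCAP hPow hp (e := 3) (by omega) (by norm_num)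
    (w := 0.0695) (w' := 0.0244) (L := 0.0018) (τ := 0.25) (by norm_num) (by norm_num)
    (by norm_num) (by norm_num) (by norm_num)
    (lam_num (a := 0.072) (b := 0.0248) (by norm_num) (by norm_num) (by norm_num) (by norm_num)
      (by norm_num) (by norm_num) (by norm_num)) (by rw [hck]; norm_num)
    (by rw [hck]; norm_num) ?_ ?_ (by norm_num) (by norm_num)
  · intro i
    have h := ck_tail (k := 3) (N := 540000) hp (by omega) (by norm_num) (by norm_num) i
    exact ⟨by omega, div_clock_le (by norm_num) h (by norm_num)⟩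
  · refine le_trans ?_ hTf
    push_cast at h0 ⊢
    have e1 : ∀ x : ℝ, x * (3 / (3 + 1)) / 3 = x * (1 / 4) := fun x => by ring
    rw [e1]
    exact mul_le_mul_of_nonneg_left (by norm_num) h0

theorem pow_case25 (hTL : Stmt_TL) (hCAP : Stmt_CAP) (hPow : ∀ hi, Stmt_Pow 16 hi) :
    TopOK 5 2 := by
  have hp : Nat.Prime 5 := Nat.prime_five
  have hck : ck (5 ^ 2) 5 0 = 188000 := by decide
  have hTf := Tz_ge_first hp (e := 2) (by omega)
  have h0 := hh_pow_nonneg hp 2
  refine pow_account hTL hCAP hPow hp (e := 2) (by omega) (by norm_num)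
    (w := 0.06982) (w' := 0.0132) (L := 0.00097) (τ := 0.1333) (by norm_num) (by norm_num)
    (by norm_num) (by norm_num) (by norm_num)
    (lam_num (a := 0.07235) (b := 0.0133) (by norm_num) (by norm_num) (by norm_num) (by norm_num)
      (by norm_num) (by norm_num) (by norm_num)) (by rw [hck]; norm_num)
    (by rw [hck]; norm_num) ?_ ?_ (by norm_num) (by norm_num)
  · intro i
    have h := ck_tail (k := 2) (N := 1000000) hp (by omega) (by norm_num) (by norm_num) i
    exact ⟨by omega, div_clock_le (by norm_num) h (by norm_num)⟩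
  · refine le_trans ?_ hTf
    push_cast at h0 ⊢
    have e1 : ∀ x : ℝ, x * (2 / (2 + 1)) / 5 = x * (2 / 15) := fun x => by ring
    rw [e1]
    exact mul_le_mul_of_nonneg_left (by norm_num) h0

theorem pow_case16 (hTL : Stmt_TL) (hCAP : Stmt_CAP) (hPow : ∀ hi, Stmt_Pow 16 hi) :
    TopOK 2 4 := by
  have hp : Nat.Prime 2 := Nat.prime_two
  have hck : ck (2 ^ 4) 2 0 = 70000 := by decide
  have hck' : ck (2 ^ (4 + 1 + 0)) 2 0 = 192000 := by decide
  have hck'' : ck (2 ^ (4 + 1 + 1)) 2 0 = 420000 := by decide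
  have h0 := hh_pow_nonneg hp 4
  refine pow_account hTL hCAP hPow hp (e := 4) (by omega) (by norm_num)
    (w := 0.1875) (w' := 0.0684) (L := 0.0147) (τ := 0.638) (by norm_num) (by norm_num)
    (by norm_num) (by norm_num) (by norm_num)
    (lam_num (a := 0.2067) (b := 0.0709) (by norm_num) (by norm_num) (by norm_num) (by norm_num)
      (by norm_num) (by norm_num) (by norm_num)) hck.ge
    (by rw [hck]; norm_num) ?_ ?_ (by norm_num) (by norm_num)
  · intro i
    rcases Nat.eq_zero_or_pos i with rfl | hi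
    · rw [hck']; exact ⟨by norm_num, by norm_num⟩
    obtain ⟨i, rfl⟩ : ∃ k, i = k + 1 := ⟨i - 1, by omega⟩
    rcases Nat.eq_zero_or_pos i with rfl | hi
    · rw [show 4 + 1 + (0 + 1) = 4 + 1 + 1 by omega, hck'']; exact ⟨by norm_num, by norm_num⟩
    obtain ⟨i, rfl⟩ : ∃ k, i = k + 1 := ⟨i - 1, by omega⟩
    have h := ck_tail (k := 6) (N := 640000) hp (by omega) (by norm_num) (by norm_num) i
    rw [show 6 + 1 + i = 4 + 1 + (i + 1 + 1) by omega] at h
    exact ⟨by omega, div_clock_le (by norm_num) h (by norm_num)⟩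
  · have h := sum_tail_le hp 4 3
    refine le_trans ?_ h
    simp only [Finset.sum_range_succ, Finset.sum_range_zero, zero_add]
    have r1 := hh_pow_ratio hp (e := 4) (by omega) 1
    have r2 := hh_pow_ratio hp (e := 4) (by omega) 2
    have r3 := hh_pow_ratio hp (e := 4) (by omega) 3
    rw [show 4 + 1 + 0 = 4 + 1 by omega, show 4 + 1 + 1 = 4 + 2 by omega,
      show 4 + 1 + 2 = 4 + 3 by omega, r1, r2, r3]
    push_cast at h0 ⊢
    norm_num at h0 ⊢
    nlinarith

end Acc

open Acc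

theorem lpow_proof : Stmt_Lpow := by
  intro hTL hCAP hPow p e hp he hz
  obtain ⟨e, rfl⟩ : ∃ k, e = k + 1 := ⟨e - 1, by omega⟩
  have he1 : 1 ≤ e := by omega
  rcases lt_or_ge p 7 with h7 | h7
  · interval_cases p
    · exact absurd hp (by norm_num)
    · exact absurd hp (by norm_num)
    · rcases lt_or_ge e 6 with h6 | h6
      · interval_cases e
        · norm_num at hz
        · norm_num at hz
        · exact pow_case16 hTL hCAP hPow
        · exact pow_case32 hTL hCAP hPow
        · exact pow_case64 hTL hCAP hPow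
      · have h1 : 2 ^ 6 ≤ 2 ^ e := Nat.pow_le_pow_right (by norm_num) h6
        have h2 : 2 ^ (e + 1) = 2 ^ e * 2 := pow_succ _ _
        exact pow_general hTL hCAP hPow hp (by omega) (by omega) (by omega) (by omega)
    · rcases lt_or_ge e 3 with h6 | h6
      · interval_cases e
        · norm_num at hz
        · exact pow_case27 hTL hCAP hPow
      · have h1 : 3 ^ 3 ≤ 3 ^ e := Nat.pow_le_pow_right (by norm_num) h6
        have h2 : 3 ^ (e + 1) = 3 ^ e * 3 := pow_succ _ _
        exact pow_general hTL hCAP hPow hp (by omega) (by omega) (by omega) (by omega)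
    · exact absurd hp (by norm_num)
    · rcases lt_or_ge e 2 with h6 | h6
      · interval_cases e
        exact pow_case25 hTL hCAP hPow
      · have h1 : 5 ^ 2 ≤ 5 ^ e := Nat.pow_le_pow_right (by norm_num) h6
        have h2 : 5 ^ (e + 1) = 5 ^ e * 5 := pow_succ _ _
        exact pow_general hTL hCAP hPow hp (by omega) (by omega) (by omega) (by omega)
    · exact absurd hp (by norm_num)
  · have h1 : p ^ 1 ≤ p ^ e := Nat.pow_le_pow_right hp.pos he1
    rw [pow_one] at h1
    have h2 : p * p ≤ p ^ (e + 1) := by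
      rw [pow_succ]; exact Nat.mul_le_mul_right _ h1
    have h3 : 7 * 7 ≤ p * p := Nat.mul_le_mul h7 h7
    refine pow_general hTL hCAP hPow hp he1 (by omega) ?_ ?_
    · intro h64
      have : p ∣ 2 ^ 6 := by
        rw [show 2 ^ 6 = p ^ (e + 1) by rw [h64]; norm_num]
        exact dvd_pow_self p (by omega)
      have := (Nat.prime_dvd_prime_iff_eq hp Nat.prime_two).1 (hp.dvd_of_dvd_pow this)
      omega
    · rw [mul_comm]
      exact Nat.mul_le_mul h1 (by omega)

end Pool.Agent.EZ
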