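import Pool.Agent.EZ.AccCommon

/-!
# Accounts of the large primes
-/

set_option autoImplicit false
set_option linter.unusedSectionVars false

namespace Pool.Agent.EZ

open Finset

namespace Acc

/-- clock of a prime at least 11 -/
theorem ck_prime {p : ℕ} (hp : p.Prime) (h11 : 11 ≤ p) (j : ℕ) :
    ck p p j = (p - 2) * 13 ^ j * 10 ^ (4 - j) := by
  have h16 : p ≠ 16 := by rintro rfl; exact absurd hp (by norm_num)
  have h25 : p ≠ 25 := by rintro rfl; exact absurd hp (by norm_num)
  have h27 : p ≠ 27 := by rintro rfl; exact absurd hp (by norm_num)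
  have h32 : p ≠ 32 := by rintro rfl; exact absurd hp (by norm_num)
  have h64 : p ≠ 64 := by rintro rfl; exact absurd hp (by norm_num)
  unfold ck
  rw [if_neg (by omega), if_neg (by omega), if_neg (by omega), if_neg (by omega),
    if_neg (by omega), if_neg (by omega), if_neg (by omega), if_neg (by omega),
    if_neg (by omega), if_neg (by omega), if_neg (by omega), if_neg (by omega), if_pos rfl]

/-- clock of a large proper power -/
theorem ck_large_pow {u r : ℕ} (hu : 65 ≤ u) (hur : u ≠ r) (j : ℕ) :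
    ck u r j = (u - u / r) * 10000 := by
  unfold ck
  rw [if_neg (by omega), if_neg (by omega), if_neg (by omega), if_neg (by omega),
    if_neg (by omega), if_neg (by omega), if_neg (by omega), if_neg (by omega),
    if_neg (by omega), if_neg (by omega), if_neg (by omega), if_neg (by omega), if_neg hur]

theorem pow_sub_div {p k : ℕ} (hp : 0 < p) : p ^ (k + 1) - p ^ (k + 1) / p = p ^ k * (p - 1) := by
  rw [pow_succ, Nat.mul_div_cancel _ hp, Nat.mul_sub, mul_one]

theorem ck_prime_ge {p : ℕ} (hp : p.Prime) (h11 : 11 ≤ p) (j : Fin 5) :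
    (p - 2) * 10000 ≤ ck p p j := by
  rw [ck_prime hp h11, mul_assoc]
  refine Nat.mul_le_mul_left _ ?_
  fin_cases j <;> norm_num

theorem prime_pair {x x' : ℝ} {p : ℝ} (hp : 11 ≤ p) (hx : (p - 2) * 10000 ≤ x)
    (hx' : p * (p - 1) * 10000 ≤ x') :
    (13125 / x ≤ 1.3125 / (p - 2)) ∧ (10230 / x' ≤ 1.023 / (p * (p - 1))) := by
  have h1 : 0 < p - 2 := by linarith
  have h2 : 0 < p * (p - 1) := mul_pos (by linarith) (by linarith)
  constructor
  · rw [div_le_div_iff₀ (by nlinarith) h1]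
    nlinarith
  · rw [div_le_div_iff₀ (by nlinarith) h2]
    nlinarith

theorem prime_lam {p : ℝ} (hp : 11 ≤ p) :
    (Real.exp (1.3125 / (p - 2)) - 1) * (Real.exp (1.023 / (p * (p - 1))) - 1) ≤ 2 / p ^ 3 := by
  have h1 : 0 < p - 2 := by linarith
  have h2 : 0 < p * (p - 1) := mul_pos (by linarith) (by linarith)
  have h0 : 0 < p := by linarith
  have hw : 1.3125 / (p - 2) ≤ 0.14584 := by
    rw [div_le_iff₀ h1]; nlinarith
  have hw0 : 0 ≤ 1.3125 / (p - 2) := by positivity
  have hw' : 1.023 / (p * (p - 1)) ≤ 0.0093 := by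
    rw [div_le_iff₀ h2]; nlinarith
  have hw0' : 0 ≤ 1.023 / (p * (p - 1)) := by positivity
  have e1 := exp_sub_one_le3 hw0 (by linarith)
  have e2 := exp_sub_one_le3 hw0' (by linarith)
  have e1' : Real.exp (1.3125 / (p - 2)) - 1 ≤ 1.3125 / (p - 2) * 1.0777 := by
    refine e1.trans (mul_le_mul_of_nonneg_left ?_ hw0)
    nlinarith
  have e2' : Real.exp (1.023 / (p * (p - 1))) - 1 ≤ 1.023 / (p * (p - 1)) * 1.0048 := by
    refine e2.trans (mul_le_mul_of_nonneg_left ?_ hw0')
    nlinarith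
  have e3 : 0 ≤ Real.exp (1.023 / (p * (p - 1))) - 1 := by
    have := Real.one_le_exp hw0'; linarith
  calc _ ≤ (1.3125 / (p - 2) * 1.0777) * (1.023 / (p * (p - 1)) * 1.0048) :=
        mul_le_mul e1' e2' e3 (by positivity)
    _ = (1.3125 * 1.0777 * 1.023 * 1.0048) / ((p - 2) * (p * (p - 1))) := by
        field_simp
    _ ≤ 2 / p ^ 3 := by
        rw [div_le_div_iff₀ (by positivity) (by positivity)]
        have h3 : 1.3125 * 1.0777 * 1.023 * 1.0048 * p ^ 2 ≤ 2 * ((p - 2) * (p - 1)) := by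
          nlinarith
        nlinarith

end Acc

open Acc

theorem lprime_proof : Stmt_Lprime := by
  intro hTL hCAP hPrime hPow p hp h11 B hB hpB hM K
  obtain ⟨l, t, hlt, hl, ht⟩ := hPrime (p + 1) p hp h11 (by omega)
  have h11' : (11 : ℝ) ≤ p := by exact_mod_cast h11
  have hp0 : 0 < p := hp.pos
  have hmf : ∀ i : ℕ, (p ^ (1 + 1 + i)).minFac = p := fun i => hp.pow_minFac (by omega)
  have hbig : ∀ i : ℕ, 121 ≤ p ^ (1 + 1 + i) := by
    intro i
    calc 121 = 11 ^ 2 := by norm_num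
      _ ≤ p ^ 2 := Nat.pow_le_pow_left h11 2
      _ ≤ p ^ (1 + 1 + i) := Nat.pow_le_pow_right hp0 (by omega)
  have hne : ∀ i : ℕ, p ^ (1 + 1 + i) ≠ p := by
    intro i h
    have := Nat.pow_right_injective hp.two_le (h.trans (pow_one p).symm)
    omega
  have hnp : ∀ i : ℕ, ¬ (p ^ (1 + 1 + i)).Prime := fun i => Nat.Prime.not_prime_pow (by omega)
  have hpp : ∀ i : ℕ, IsPrimePow (p ^ (1 + 1 + i)) := fun i => hp.isPrimePow.pow (by omega)
  have hcA : ∀ i : ℕ, cA (p ^ (1 + 1 + i)) = 0.9 := by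
    intro i
    unfold cA
    have := hbig i
    rw [if_neg (by omega), if_neg (by rw [hmf i]; omega)]
  have hck' : ∀ (i j' : ℕ), p * (p - 1) * 10000 ≤ ck (p ^ (1 + 1 + i)) p j' := by
    intro i j'
    rw [ck_large_pow (by have := hbig i; omega) (hne i)]
    refine Nat.mul_le_mul_right _ ?_
    rw [show 1 + 1 + i = (1 + i) + 1 by omega, pow_sub_div hp0]
    refine Nat.mul_le_mul_right _ ?_
    calc p = p ^ 1 := (pow_one p).symm
      _ ≤ p ^ (1 + i) := Nat.pow_le_pow_right hp0 (by omega)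
  have hpow := fun i : ℕ => hPow (p ^ (1 + 1 + i) + 1) (p ^ (1 + 1 + i)) (hpp i) (hnp i)
    (by have := hbig i; omega) (by omega)
  obtain ⟨a, ha, hD0, hD⟩ := hTL B p 1 hB hp one_ne_zero hpB l t (fun _ => 0.9) (fun _ _ => 1.2)
    (fun _ _ _ => 2 / (p : ℝ) ^ 3) (by
      intro j _
      rw [pow_one]
      exact ⟨(hlt j).1, (hlt j).2.1⟩) (by
      intro i
      refine avgABS_pow (by have := hbig i; omega) (by rw [hmf i]; exact hne i) ?_
      have := (hpow i).1
      rwa [hcA i] at this) (by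
      intro i j' hj'
      have hj0 : (j' : ℕ) = 0 := by
        by_contra h
        rw [pk_pow (by have := hbig i; omega) (hne i), if_neg h] at hj'
        exact hj' rfl
      have := (hpow i).2
      rw [hmf i] at this
      rw [hj0]
      exact ⟨by norm_num, this⟩) (by
      intro j i j'
      positivity) (by
      intro j i j' _ _
      refine ⟨fun _ => 1.3125 / ((p : ℝ) - 2), fun _ => 1.023 / ((p : ℝ) * ((p : ℝ) - 1)), ?_, ?_⟩
      · intro r
        have h1 : 0 < (p : ℝ) - 2 := by linarith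
        have h2 : 0 < (p : ℝ) * ((p : ℝ) - 1) := mul_pos (by linarith) (by linarith)
        refine ⟨by positivity, by positivity, ?_, prime_lam h11'⟩
        apply one_le_exp_add
        have hw : 1.3125 / ((p : ℝ) - 2) ≤ 0.14584 := by
          rw [div_le_iff₀ h1]; nlinarith
        have hw' : 1.023 / ((p : ℝ) * ((p : ℝ) - 1)) ≤ 0.0093 := by
          rw [div_le_iff₀ h2]; nlinarith
        linarith
      · intro VS hVS r
        have hx := ck_prime_ge hp h11 j
        have hx' := hck' i j'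
        have hxr : ((p : ℝ) - 2) * 10000 ≤ (ck p p j : ℝ) := by
          have : (((p - 2) * 10000 : ℕ) : ℝ) ≤ (ck p p j : ℝ) := by exact_mod_cast hx
          rw [Nat.cast_mul, Nat.cast_sub (by omega)] at this
          exact_mod_cast this
        have hxr' : (p : ℝ) * ((p : ℝ) - 1) * 10000 ≤ (ck (p ^ (1 + 1 + i)) p j' : ℝ) := by
          have : ((p * (p - 1) * 10000 : ℕ) : ℝ) ≤ (ck (p ^ (1 + 1 + i)) p j' : ℝ) := by
            exact_mod_cast hx'
          rw [Nat.cast_mul, Nat.cast_mul, Nat.cast_sub (by omega)] at this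
          exact_mod_cast this
        obtain ⟨g1, g2⟩ := prime_pair h11' hxr hxr'
        have c1 := (hCAP (ck p p j) VS (fun v hv => (hVS v hv).1) r).1
          (by
            have : (11 - 2) * 10000 ≤ (p - 2) * 10000 := Nat.mul_le_mul_right _ (by omega)
            omega)
        have c2 := (hCAP (ck (p ^ (1 + 1 + i)) p j') VS (fun v hv => (hVS v hv).1) r).2
          (by
            have : 11 * 10 * 10000 ≤ p * (p - 1) * 10000 :=
              Nat.mul_le_mul_right _ (Nat.mul_le_mul h11 (by omega))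
            omega)
        rw [pow_one]
        exact ⟨c1.trans g1, c2.trans g2⟩)
  obtain ⟨jm, -, hjm⟩ := Finset.exists_max_image (Finset.univ : Finset (Fin 5)) a ⟨0, mem_univ _⟩
  have hh0 := hh_pow_pos hp (k := 1) one_ne_zero
  have hpkj : pk (p ^ 1) p jm ≠ 0 := by
    rw [pow_one]
    unfold pk
    rw [if_neg (by omega), if_neg (by omega), if_neg (by omega), if_neg (by omega),
      if_pos ⟨h11, rfl⟩]
    fin_cases jm <;> norm_num
  have hTf := Tz_ge_first hp (e := 1) one_ne_zero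
  have hp11 : (121 : ℝ) ≤ (p : ℝ) ^ 2 := by nlinarith
  have hpos : (0 : ℝ) < p := by linarith
  -- L h ≤ small * T
  have hLh : 2 / (p : ℝ) ^ 3 * hh ((p : ℝ) ^ 1) ≤ 4 / 121 * Tz p 1 := by
    have e1 : 2 / (p : ℝ) ^ 3 * hh ((p : ℝ) ^ 1) =
        4 / (p : ℝ) ^ 2 * (hh ((p : ℝ) ^ 1) * (((1 : ℕ) : ℝ) / (((1 : ℕ) : ℝ) + 1)) / p) := by
      push_cast
      field_simp
      ring
    rw [e1]
    have e2 : 4 / (p : ℝ) ^ 2 ≤ 4 / 121 := by
      apply div_le_div_of_nonneg_left <;> linarith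
    refine (mul_le_mul_of_nonneg_left hTf (by positivity)).trans ?_
    exact mul_le_mul_of_nonneg_right e2 (Tz_pos hp 1).le
  have hT0 := Tz_pos hp 1
  refine finish hp one_ne_zero (κ := 0.96) (A := 0.9) (c := 0.93) (L := 2 / (p : ℝ) ^ 3)
    (a := a jm) (ha jm).1 (ha jm).2 (by norm_num) (by positivity) (by norm_num) (by norm_num)
    (by norm_num) (by norm_num) ?_ ?_ ?_ ?_ (fun i => (hD i).1) ?_ K
  · nlinarith
  · nlinarith
  · refine hD0.trans ?_
    have e1 : ∑ j, qD (p ^ 1) j * min (t j) (l j * a j) ≤ ∑ j, qD p j * t j := by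
      rw [pow_one]
      exact Finset.sum_le_sum fun j _ => mul_le_mul_of_nonneg_left (min_le_left _ _) (qD_nonneg _ _)
    calc hh ((p : ℝ) ^ 1) * ∑ j, qD (p ^ 1) j * min (t j) (l j * a j)
        ≤ hh ((p : ℝ) ^ 1) * ∑ j, qD p j * t j := mul_le_mul_of_nonneg_left e1 hh0.le
      _ = (∑ j, qD p j * t j) * hh (p : ℝ) := by rw [pow_one, mul_comm]
      _ ≤ _ := ht
  · refine hD0.trans ?_
    have e1 : ∑ j, qD (p ^ 1) j * min (t j) (l j * a j) ≤ (∑ j, qD p j * l j) * a jm := by
      rw [pow_one, Finset.sum_mul]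
      refine Finset.sum_le_sum fun j _ => ?_
      rw [mul_assoc]
      refine mul_le_mul_of_nonneg_left ((min_le_right _ _).trans ?_) (qD_nonneg _ _)
      exact mul_le_mul_of_nonneg_left (hjm j (mem_univ _)) (hlt j).2.2.1
    calc hh ((p : ℝ) ^ 1) * ∑ j, qD (p ^ 1) j * min (t j) (l j * a j)
        ≤ hh ((p : ℝ) ^ 1) * ((∑ j, qD p j * l j) * a jm) := mul_le_mul_of_nonneg_left e1 hh0.le
      _ ≤ hh ((p : ℝ) ^ 1) * (0.93 * a jm) :=
          mul_le_mul_of_nonneg_left (mul_le_mul_of_nonneg_right hl (ha jm).1) hh0.le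
      _ = _ := by ring
  · intro i
    have h1 := (hD i).2 jm hpkj
    have h2 := qD_sum (p ^ (1 + 1 + i))
    rw [← Finset.sum_mul, h2, one_mul] at h1
    exact h1

end Pool.Agent.EZ
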