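import Pool.Agent.EZ.Frame

/-!
# The top lemma
-/

set_option autoImplicit false
set_option linter.unusedSectionVars false
set_option linter.unusedVariables false

namespace Pool.Agent.EZ

open Finset

theorem minFac_pow' {p k : ℕ} (hp : p.Prime) (hk : k ≠ 0) : (p ^ k).minFac = p :=
  hp.pow_minFac hk

theorem qD_pow {p k : ℕ} (hp : p.Prime) (hk : k ≠ 0) (j : Fin 5) :
    qD (p ^ k) j = (pk (p ^ k) p j : ℝ) / 1000 := by
  unfold qD
  rw [minFac_pow' hp hk]

theorem le_phi {Lam a b : ℝ} (hL : 0 < Lam) (ha : 0 ≤ a) (ha1 : a ≤ 1)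
    (h : a * b ≤ Lam * ((1 - a) * (1 - b))) : b ≤ phi Lam a := by
  unfold phi
  have h1 : 0 ≤ Lam * (1 - a) := mul_nonneg hL.le (by linarith)
  have h2 : 0 < a + Lam * (1 - a) := by
    rcases eq_or_lt_of_le ha with h0 | h0
    · rw [← h0]; simpa using hL
    · linarith
  rw [le_div_iff₀ h2]
  nlinarith

theorem hit_le_one (x : ℕ) (VS : Finset ℕ) (hVS : ∀ v ∈ VS, IsPrimePow v) (M : Finset (Finset ℕ)) :
    hit x VS M ≤ 1 :=
  PU_le_one _ _ _ (fun w _ => Sx_nonneg x w) (fun w hw => by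
    exact_mod_cast (hVS w hw).one_lt) _

theorem cast_pow' (p k : ℕ) : ((p ^ k : ℕ) : ℝ) = (p : ℝ) ^ k := by push_cast; rfl

theorem stmt_TL : Stmt_TL := by
  intro B p e hB hp he hpe l t A l' Lam h1 hA h2 hLam hc
  set VS := (VB B).filter (fun v => v.minFac ≠ p) with hVS
  have hVSpp : ∀ v ∈ VS, IsPrimePow v := fun v hv => VB_pp v (Finset.mem_filter.1 hv).1
  have hVS2 : ∀ v ∈ VS, IsPrimePow v ∧ v.minFac ≠ p := fun v hv =>
    ⟨hVSpp v hv, (Finset.mem_filter.1 hv).2⟩
  have hsub : ∀ k, k ≠ 0 → ∀ m ∈ MM B (p ^ k), m ⊆ VS := by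
    intro k hk m hm
    have := MM_sub hB (p ^ k) m hm
    rw [minFac_pow' hp hk] at this
    exact this
  have hmf : (p ^ e).minFac = p := minFac_pow' hp he
  have hpp : IsPrimePow (p ^ e) := hp.isPrimePow.pow he
  refine ⟨fun j => hit (ck (p ^ e) p j) VS (MM B (p ^ e)), fun j =>
    ⟨hit_nonneg _ VS hVSpp _, hit_le_one _ VS hVSpp _⟩, ?_, ?_⟩
  · rw [ld_design, hmf, Finset.mul_sum]
    apply Finset.sum_le_sum
    intro j _
    rw [qD_pow hp he]
    rcases Nat.eq_zero_or_pos (pk (p ^ e) p j) with h0 | h0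
    · rw [h0]; simp
    · obtain ⟨hl, ht⟩ := h1 j h0.ne'
      have m1 := hl (MM B (p ^ e)) (Fam_MM hB _) VS hVSpp (hsub e he)
      have m2 := ht (MM B (p ^ e)) (Fam_MM hB _) (MM_Inter hB _ hpe hpp)
      rw [cast_pow'] at m1 m2
      have hh0 : 0 ≤ hh ((p : ℝ) ^ e) := by
        apply hh_nonneg
        exact one_le_pow₀ (by exact_mod_cast hp.one_lt.le)
      have m3 : mass (p ^ e) (ck (p ^ e) p j) (MM B (p ^ e))
          ≤ hh ((p : ℝ) ^ e) * min (t j) (l j * hit (ck (p ^ e) p j) VS (MM B (p ^ e))) := by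
        rcases le_total (t j) (l j * hit (ck (p ^ e) p j) VS (MM B (p ^ e))) with h | h
        · rw [min_eq_left h]; linarith
        · rw [min_eq_right h]; linarith
      calc _ ≤ (pk (p ^ e) p j : ℝ) / 1000 * (hh ((p : ℝ) ^ e)
            * min (t j) (l j * hit (ck (p ^ e) p j) VS (MM B (p ^ e)))) :=
            mul_le_mul_of_nonneg_left m3 (by positivity)
        _ = _ := by ring
  · intro i
    have hk : e + 1 + i ≠ 0 := by omega
    have hmk : (p ^ (e + 1 + i)).minFac = p := minFac_pow' hp hk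
    constructor
    · rw [ld_design]
      have := hA i (MM B (p ^ (e + 1 + i))) (Fam_MM hB _)
      rw [cast_pow'] at this
      linarith
    · intro j hj
      rw [ld_design, hmk, Finset.mul_sum]
      apply Finset.sum_le_sum
      intro j' _
      rw [qD_pow hp hk]
      rcases Nat.eq_zero_or_pos (pk (p ^ (e + 1 + i)) p j') with h0 | h0
      · rw [h0]; simp
      · obtain ⟨hl0, hl⟩ := h2 i j' h0.ne'
        have m1 := hl (MM B (p ^ (e + 1 + i))) (Fam_MM hB _) VS hVSpp (hsub _ hk)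
        rw [cast_pow'] at m1
        obtain ⟨w, w', hw1, hw2⟩ := hc j i j' hj h0.ne'
        have hcr := hit_cross (p ^ e) (ck (p ^ e) p j) (ck (p ^ (e + 1 + i)) p j') VS
          (by rw [hmf]; exact hVS2) (MM B (p ^ e)) (MM B (p ^ (e + 1 + i)))
          (fun m hm m' hm' => MM_cross hB hp he (by omega) hpe hm hm') (Lam j i j') w w'
          (fun r => (hw1 r).1) (fun r => (hw1 r).2.1) (fun r => (hw2 VS hVS2 r).1)
          (fun r => (hw2 VS hVS2 r).2) (fun r => (hw1 r).2.2.1) (fun r => (hw1 r).2.2.2)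
        have hph := le_phi (hLam j i j') (hit_nonneg _ VS hVSpp _) (hit_le_one _ VS hVSpp _) hcr
        have hh0 : 0 ≤ hh ((p : ℝ) ^ (e + 1 + i)) := by
          apply hh_nonneg
          exact one_le_pow₀ (by exact_mod_cast hp.one_lt.le)
        have m2 : l' i j' * hh ((p : ℝ) ^ (e + 1 + i)) * hit (ck (p ^ (e + 1 + i)) p j') VS
            (MM B (p ^ (e + 1 + i))) ≤ l' i j' * hh ((p : ℝ) ^ (e + 1 + i))
            * phi (Lam j i j') (hit (ck (p ^ e) p j) VS (MM B (p ^ e))) :=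
          mul_le_mul_of_nonneg_left hph (mul_nonneg hl0 hh0)
        calc _ ≤ (pk (p ^ (e + 1 + i)) p j' : ℝ) / 1000 * (l' i j' * hh ((p : ℝ) ^ (e + 1 + i))
              * phi (Lam j i j') (hit (ck (p ^ e) p j) VS (MM B (p ^ e)))) :=
              mul_le_mul_of_nonneg_left (m1.trans m2) (by positivity)
          _ = _ := by ring

end Pool.Agent.EZ
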