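import Pool.Agent.EZ.SInst
import Pool.Agent.EZ.EngSv
import Pool.Agent.EZ.TL
import Pool.Agent.EZ.L2
import Pool.Agent.EZ.L3
import Pool.Agent.EZ.L4
import Pool.Agent.EZ.L5
import Pool.Agent.EZ.L7
import Pool.Agent.EZ.L8
import Pool.Agent.EZ.L9
import Pool.Agent.EZ.Lprime
import Pool.Agent.EZ.Lpow

/-!
# All accounts, and the conjecture from the two numeric families
-/

set_option autoImplicit false

namespace Pool.Agent.EZ

open Finset

theorem top_all (hP : ∀ hi, Stmt_Prime 11 hi) (hQ : ∀ hi, Stmt_Pow 16 hi) :
    ∀ p e, p.Prime → e ≠ 0 → TopOK p e := by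
  intro p e hp he
  by_cases h16 : 2 ≤ e ∧ 16 ≤ p ^ e
  · exact lpow_proof stmt_TL stmt_CAP hQ p e hp h16.1 h16.2
  by_cases h11 : 11 ≤ p
  · have he1 : e = 1 := by
      by_contra hc
      apply h16
      refine ⟨by omega, ?_⟩
      calc 16 ≤ 11 ^ 2 := by norm_num
        _ ≤ p ^ 2 := Nat.pow_le_pow_left h11 2
        _ ≤ p ^ e := Nat.pow_le_pow_right hp.pos (by omega)
    subst he1
    exact lprime_proof stmt_TL stmt_CAP hP hQ p hp h11
  · rcases small_prime hp h11 with h | h | h | h
    · subst h
      have he4 : e < 4 := by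
        by_contra hc
        apply h16
        refine ⟨by omega, ?_⟩
        calc 16 = 2 ^ 4 := by norm_num
          _ ≤ 2 ^ e := Nat.pow_le_pow_right (by norm_num) (by omega)
      have : e = 1 ∨ e = 2 ∨ e = 3 := by omega
      rcases this with h | h | h
      · subst h; exact stmt_L2 stmt_TL hQ S2_proof S4_proof S8_proof
      · subst h; exact L4_proof stmt_TL hQ S4_proof S8_proof
      · subst h; exact L8_proof stmt_TL hQ S8_proof
    · subst h
      have he4 : e < 3 := by
        by_contra hc
        apply h16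
        refine ⟨by omega, ?_⟩
        calc 16 ≤ 3 ^ 3 := by norm_num
          _ ≤ 3 ^ e := Nat.pow_le_pow_right (by norm_num) (by omega)
      have : e = 1 ∨ e = 2 := by omega
      rcases this with h | h
      · subst h; exact stmt_L3 stmt_TL hQ S3a_proof S3b_proof S9a_proof S9b_proof
      · subst h; exact stmt_L9 stmt_TL hQ S9a_proof S9b_proof
    · subst h
      have he4 : e < 2 := by
        by_contra hc
        apply h16
        refine ⟨by omega, ?_⟩
        calc 16 ≤ 5 ^ 2 := by norm_num
          _ ≤ 5 ^ e := Nat.pow_le_pow_right (by norm_num) (by omega)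
      have : e = 1 := by omega
      subst this
      exact stmt_L5 stmt_TL hQ S5a_proof S5b_proof
    · subst h
      have he4 : e < 2 := by
        by_contra hc
        apply h16
        refine ⟨by omega, ?_⟩
        calc 16 ≤ 7 ^ 2 := by norm_num
          _ ≤ 7 ^ e := Nat.pow_le_pow_right (by norm_num) (by omega)
      have : e = 1 := by omega
      subst this
      exact stmt_L7 stmt_TL hQ S7a_proof S7b_proof

theorem hh_nat_nonneg (u : ℕ) : 0 ≤ hh (u : ℝ) := by
  unfold hh
  have := Real.log_natCast_nonneg u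
  positivity

theorem no_pp_mid {u : ℕ} (hu : IsPrimePow u) (hnp : ¬ u.Prime) (h1 : 9 < u) (h2 : u < 16) : False := by
  have hk := (kp_ne_zero_iff (n := u) (by omega) (by omega)).2 hu
  have h : u = 10 ∨ u = 11 ∨ u = 12 ∨ u = 13 ∨ u = 14 ∨ u = 15 := by omega
  rcases h with h | h | h | h | h | h <;> subst h
  · exact hk (by decide +kernel)
  · exact hnp (by norm_num)
  · exact hk (by decide +kernel)
  · exact hnp (by norm_num)
  · exact hk (by decide +kernel)
  · exact hk (by decide +kernel)

/-- average from bounds at all atoms. -/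
theorem avg_of {u : ℕ} {b : Fin 5 → ℝ} (h : ∀ j : Fin 5, pk u u.minFac j ≠ 0 →
    ABSB u (ck u u.minFac j) (b j)) (hs : ∑ j, qD u j * b j ≤ 1) : AvgABS u 1 := by
  intro M hM
  have h1 : ∑ j : Fin 5, qD u j * mass u (ck u u.minFac j) M ≤ ∑ j : Fin 5, qD u j * (b j * hh (u : ℝ)) := by
    apply Finset.sum_le_sum
    intro j _
    by_cases hj : pk u u.minFac j = 0
    · have : qD u j = 0 := by unfold qD; rw [hj]; simp
      rw [this, zero_mul, zero_mul]
    · exact mul_le_mul_of_nonneg_left (h j hj M hM) (qD_nonneg u j)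
  refine h1.trans ?_
  have e : ∑ j : Fin 5, qD u j * (b j * hh (u : ℝ)) = (∑ j, qD u j * b j) * hh (u : ℝ) := by
    rw [Finset.sum_mul]
    exact Finset.sum_congr rfl fun j _ => by ring
  rw [e]
  exact mul_le_mul_of_nonneg_right hs (hh_nat_nonneg u)

/-- linear bounds give absolute bounds. -/
theorem abs_of_lin {z x : ℕ} {l : ℝ} (hl : 0 ≤ l) (h : LINB z x l) : ABSB z x l := by
  intro M hM
  have hVS : ∀ v ∈ M.biUnion id, IsPrimePow v := by
    intro v hv
    obtain ⟨m, hm, hvm⟩ := Finset.mem_biUnion.1 hv
    exact ((hM.2.2 m hm).2 v hvm).1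
  have h1 := h M hM (M.biUnion id) hVS (fun m hm => Finset.subset_biUnion_of_mem id hm)
  refine h1.trans ?_
  have h2 : hit x (M.biUnion id) M ≤ 1 := by
    unfold hit
    exact PU_le_one _ _ _ (fun v _ => Sx_nonneg x v) (fun v hv => by exact_mod_cast (hVS v hv).one_lt) _
  exact mul_le_of_le_one_right (mul_nonneg hl (hh_nat_nonneg z)) h2

theorem avg_prime (hP : ∀ hi, Stmt_Prime 11 hi) {z : ℕ} (hz : z.Prime) (h11 : 11 ≤ z) : AvgABS z 1 := by
  obtain ⟨l, t, h1, h2, -⟩ := hP (z + 1) z hz h11 (by omega)
  apply avg_of (b := l)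
  · intro j _
    rw [hz.minFac_eq]
    exact abs_of_lin (h1 j).2.2.1 (h1 j).1
  · exact h2.trans (by norm_num)

theorem avg_pow (hQ : ∀ hi, Stmt_Pow 16 hi) {z : ℕ} (hz : IsPrimePow z) (hnp : ¬ z.Prime)
    (h16 : 16 ≤ z) : AvgABS z 1 := by
  have h := (hQ (z + 1) z hz hnp h16 (by omega)).1
  have hnm : z ≠ z.minFac := fun h => hnp (h ▸ Nat.minFac_prime hz.one_lt.ne')
  have hpk : ∀ j : ℕ, j ≠ 0 → pk z z.minFac j = 0 := by
    intro j hj
    unfold pk
    rw [if_neg (by omega), if_neg (by omega), if_neg (by omega), if_neg (by omega),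
      if_neg (fun h => hnm h.2), if_neg hj]
  apply avg_of (b := fun _ => cA z)
  · intro j hj
    by_cases h0 : (j : ℕ) = 0
    · rw [h0]; exact h
    · exact absurd (hpk j h0) hj
  · rw [← Finset.sum_mul, qD_sum, one_mul]
    unfold cA
    split_ifs <;> norm_num

theorem avg_all (hP : ∀ hi, Stmt_Prime 11 hi) (hQ : ∀ hi, Stmt_Pow 16 hi) :
    ∀ u, IsPrimePow u → AvgABS u 1 := by
  intro u hu
  have q0 : ((0 : Fin 5) : ℕ) = 0 := rfl
  have q1 : ((1 : Fin 5) : ℕ) = 1 := rfl
  have q2 : ((2 : Fin 5) : ℕ) = 2 := rfl
  have q3 : ((3 : Fin 5) : ℕ) = 3 := rfl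
  have q4 : ((4 : Fin 5) : ℕ) = 4 := rfl
  by_cases h9 : u ≤ 9
  · have m2 : Nat.minFac 2 = 2 := by norm_num
    have m3 : Nat.minFac 3 = 3 := by norm_num
    have m4 : Nat.minFac 4 = 2 := by norm_num
    have m5 : Nat.minFac 5 = 5 := by norm_num
    have m7 : Nat.minFac 7 = 7 := by norm_num
    have m8 : Nat.minFac 8 = 2 := by norm_num
    have m9 : Nat.minFac 9 = 3 := by norm_num
    rcases pp_le_nine hu h9 with h | h | h | h | h | h | h
    · subst h
      apply avg_of (b := fun _ => 0.611)
      · intro j _
        have := S2_proof.2.1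
        simpa [ck] using this
      · rw [← Finset.sum_mul, qD_sum]; norm_num
    · subst h
      apply avg_of (b := fun j => if j = 0 then 0.830 else 0.687)
      · intro j hj
        by_cases h0 : j = 0
        · subst h0
          have := S3a_proof.2.1
          simpa [ck] using this
        · have hj0 : (j : ℕ) ≠ 0 := fun h => h0 (Fin.ext h)
          have := S3b_proof.2.1
          simpa [ck, h0] using this
      · simp only [Fin.sum_univ_five, qD, m3, q0, q1, q2, q3, q4, pk]
        norm_num
    · subst h
      apply avg_of (b := fun _ => 0.947)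
      · intro j _
        have := S4_proof.2.1
        simpa [ck] using this
      · rw [← Finset.sum_mul, qD_sum]; norm_num
    · subst h
      apply avg_of (b := fun j => if j = 0 then 0.843 else 0.739)
      · intro j hj
        by_cases h0 : j = 0
        · subst h0
          have := S5a_proof.2.1
          simpa [ck] using this
        · have hj0 : (j : ℕ) ≠ 0 := fun h => h0 (Fin.ext h)
          have := S5b_proof.2.1
          simpa [ck, h0] using this
      · simp only [Fin.sum_univ_five, qD, m5, q0, q1, q2, q3, q4, pk]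
        norm_num
    · subst h
      apply avg_of (b := fun j => if j = 0 then 0.781 else 0.682)
      · intro j hj
        by_cases h0 : j = 0
        · subst h0
          have := S7a_proof.2.1
          simpa [ck] using this
        · have hj0 : (j : ℕ) ≠ 0 := fun h => h0 (Fin.ext h)
          have := S7b_proof.2.1
          simpa [ck, h0] using this
      · simp only [Fin.sum_univ_five, qD, m7, q0, q1, q2, q3, q4, pk]
        norm_num
    · subst h
      apply avg_of (b := fun _ => 0.976)
      · intro j _
        have := S8_proof.2.1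
        simpa [ck] using this
      · rw [← Finset.sum_mul, qD_sum]; norm_num
    · subst h
      apply avg_of (b := fun j => if j = 0 then 1.132 else 0.821)
      · intro j hj
        by_cases h0 : j = 0
        · subst h0
          have := S9a_proof.2.1
          simpa [ck] using this
        · have hj0 : (j : ℕ) ≠ 0 := fun h => h0 (Fin.ext h)
          have := S9b_proof.2.1
          simpa [ck, h0] using this
      · simp only [Fin.sum_univ_five, qD, m9, q0, q1, q2, q3, q4, pk]
        norm_num
  · by_cases hup : u.Prime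
    · have h11 : 11 ≤ u := by
        by_contra hc
        have h10 : u = 10 := by omega
        rw [h10] at hup
        exact absurd hup (by norm_num)
      exact avg_prime hP hup h11
    · have h16 : 16 ≤ u := by
        by_contra hc
        exact no_pp_mid hu hup (by omega) (by omega)
      exact avg_pow hQ hu hup h16

/-- the conjecture from the two numeric families. -/
theorem conjecture_of (hP : ∀ hi, Stmt_Prime 11 hi) (hQ : ∀ hi, Stmt_Pow 16 hi) (B : Set ℕ)
    (hB : QPset B) :
    Summable (fun b : B => hh ((b : ℕ) : ℝ)) ∧ ∑' b : B, hh ((b : ℕ) : ℝ) ≤ ∑' n, FF n :=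
  final_of (avg_all hP hQ) (top_all hP hQ) B hB

end Pool.Agent.EZ
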