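import Mathlib

/-!
# The charging inequality for random clocks
-/

set_option autoImplicit false
set_option linter.unusedSectionVars false

namespace Pool.Agent.EZ

open Finset

variable {V α : Type*} [DecidableEq V] [LinearOrder α]

/-- probability that the clock of `v` is at least `x`. -/
noncomputable def sv {J : ℕ} (q : V → Fin J → ℝ) (c : V → Fin J → α) (x : α) (v : V) : ℝ :=
  ∑ j, if x ≤ c v j then q v j else 0

theorem sv_nonneg {J : ℕ} (q : V → Fin J → ℝ) (c : V → Fin J → α) (x : α) (v : V)
    (hq : ∀ j, 0 ≤ q v j) : 0 ≤ sv q c x v :=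
  Finset.sum_nonneg fun j _ => by split_ifs; exacts [hq j, le_rfl]

/-- some component carries the smallest clock. -/
theorem charge {J : ℕ} (q : V → Fin J → ℝ) (c : V → Fin J → α) (m : Finset V) (hm : m.Nonempty)
    (hq : ∀ v ∈ m, ∀ j, 0 ≤ q v j) (hs : ∀ v ∈ m, ∑ j, q v j = 1) :
    1 ≤ ∑ u ∈ m, ∑ j, q u j * ∏ v ∈ m.erase u, sv q c (c u j) v := by
  classical
  -- work with functions on the subtype
  have h1 : (1 : ℝ) = ∑ f ∈ Fintype.piFinset (fun _ : m => (Finset.univ : Finset (Fin J))),
      ∏ v : m, q v (f v) := by
    rw [← Finset.prod_univ_sum (fun _ : m => (Finset.univ : Finset (Fin J)))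
      (fun (v : m) (j : Fin J) => q v j)]
    symm
    apply Finset.prod_eq_one
    intro v _
    exact hs v v.2
  have h2 : ∀ u : m, ∑ j, q u j * ∏ v ∈ m.erase u, sv q c (c u j) v
      = ∑ f ∈ Fintype.piFinset (fun _ : m => (Finset.univ : Finset (Fin J))),
          if (∀ v : m, c u (f u) ≤ c v (f v)) then ∏ v : m, q v (f v) else 0 := by
    intro u
    -- expand the product for fixed `j`
    have h3 : ∀ j, q u j * ∏ v ∈ m.erase u, sv q c (c u j) v
        = ∏ v : m, ∑ i, (if v = u then (if i = j then q u j else 0)
            else (if c u j ≤ c v i then q v i else 0)) := by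
      intro j
      rw [← Finset.mul_prod_erase Finset.univ _ (Finset.mem_univ u)]
      congr 1
      · simp
      · have : ∏ v ∈ m.erase u, sv q c (c u j) v
            = ∏ v ∈ (Finset.univ : Finset m).erase u, sv q c (c u j) (v : V) := by
          apply Finset.prod_bij (fun v hv => (⟨v, Finset.mem_of_mem_erase hv⟩ : m))
          · intro v hv
            rw [Finset.mem_erase]
            refine ⟨?_, Finset.mem_univ _⟩
            intro h
            exact Finset.ne_of_mem_erase hv (congrArg Subtype.val h)
          · intro v _ w _ h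
            exact congrArg Subtype.val h
          · intro v hv
            refine ⟨v, ?_, rfl⟩
            rw [Finset.mem_erase] at hv ⊢
            exact ⟨fun h => hv.1 (Subtype.ext h), v.2⟩
          · intro v _; rfl
        rw [this]
        apply Finset.prod_congr rfl
        intro v hv
        have hne := Finset.ne_of_mem_erase hv
        unfold sv
        apply Finset.sum_congr rfl
        intro i _
        rw [if_neg hne]
    have h4 : ∀ j, (∏ v : m, ∑ i, (if v = u then (if i = j then q u j else 0)
            else (if c u j ≤ c v i then q v i else 0)))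
        = ∑ f ∈ Fintype.piFinset (fun _ : m => (Finset.univ : Finset (Fin J))),
            if f u = j then (if (∀ v : m, c u (f u) ≤ c v (f v)) then ∏ v : m, q v (f v) else 0)
            else 0 := by
      intro j
      rw [Finset.prod_univ_sum]
      apply Finset.sum_congr rfl
      intro f _
      by_cases hf : f u = j
      · rw [if_pos hf]
        by_cases hall : ∀ v : m, c u (f u) ≤ c v (f v)
        · rw [if_pos hall]
          apply Finset.prod_congr rfl
          intro v _
          by_cases hv : v = u
          · subst hv
            rw [if_pos rfl, if_pos hf, hf]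
          · rw [if_neg hv, if_pos (by rw [← hf]; exact hall v)]
        · rw [if_neg hall]
          push Not at hall
          obtain ⟨v, hv⟩ := hall
          have hvu : v ≠ u := by rintro rfl; exact lt_irrefl _ hv
          apply Finset.prod_eq_zero (Finset.mem_univ v)
          rw [if_neg hvu, if_neg]
          rw [← hf]; exact not_le.2 hv
      · rw [if_neg hf]
        apply Finset.prod_eq_zero (Finset.mem_univ u)
        rw [if_pos rfl, if_neg hf]
    calc _ = ∑ j, ∑ f ∈ Fintype.piFinset (fun _ : m => (Finset.univ : Finset (Fin J))),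
            (if f u = j then (if (∀ v : m, c u (f u) ≤ c v (f v)) then ∏ v : m, q v (f v) else 0)
            else 0) := Finset.sum_congr rfl fun j _ => (h3 j).trans (h4 j)
      _ = _ := by
        rw [Finset.sum_comm]
        apply Finset.sum_congr rfl
        intro f _
        rw [Finset.sum_ite_eq Finset.univ (f u)]
        simp
  have h5 : ∑ u ∈ m, ∑ j, q u j * ∏ v ∈ m.erase u, sv q c (c u j) v
      = ∑ u : m, ∑ j, q u j * ∏ v ∈ m.erase u, sv q c (c u j) v :=
    (Finset.sum_coe_sort m (fun u => ∑ j, q u j * ∏ v ∈ m.erase u, sv q c (c u j) v)).symm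
  rw [h5, Finset.sum_congr rfl (fun u _ => h2 u), Finset.sum_comm, h1]
  apply Finset.sum_le_sum
  intro f _
  -- a minimiser
  have : Nonempty m := ⟨⟨hm.choose, hm.choose_spec⟩⟩
  obtain ⟨u, -, hu⟩ := Finset.exists_min_image (Finset.univ : Finset m) (fun v => c v (f v))
    Finset.univ_nonempty
  have hpos : 0 ≤ ∏ v : m, q v (f v) := Finset.prod_nonneg fun v _ => hq v v.2 _
  calc ∏ v : m, q v (f v)
      = if (∀ v : m, c u (f u) ≤ c v (f v)) then ∏ v : m, q v (f v) else 0 := by
        rw [if_pos (fun v => hu v (Finset.mem_univ v))]
    _ ≤ _ := Finset.single_le_sum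
        (f := fun u : m => if (∀ v : m, c u (f u) ≤ c v (f v)) then ∏ v : m, q v (f v) else 0)
        (fun x _ => by split_ifs; exacts [hpos, le_rfl]) (Finset.mem_univ u)

end Pool.Agent.EZ
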