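import Pool.Agent.EZ.Comps
import Pool.Agent.EZ.Charge

/-!
# Assembly: from the account inequalities to the conjecture (finite sets)
-/

set_option autoImplicit false
set_option linter.unusedSectionVars false

namespace Pool.Agent.EZ

open Finset

variable {α : Type*} [LinearOrder α]

/-- the load of the root `u`. -/
noncomputable def ld {J : ℕ} (q : ℕ → Fin J → ℝ) (c : ℕ → Fin J → α) (B : Finset ℕ) (u : ℕ) : ℝ :=
  ∑ j, q u j * ∑ m ∈ MM B u, (∏ v ∈ m, sv q c (c u j) v) * hh ((u : ℝ) * ∏ v ∈ m, (v : ℝ))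

theorem hh_nonneg {x : ℝ} (hx : 1 ≤ x) : 0 ≤ hh x := by
  unfold hh
  have := Real.log_nonneg hx
  positivity

theorem ld_eq {J : ℕ} (q : ℕ → Fin J → ℝ) (c : ℕ → Fin J → α) {B : Finset ℕ}
    (hB : QPset (↑B : Set ℕ)) (u : ℕ) :
    ld q c B u = ∑ b ∈ B.filter (fun b => u ∈ comps b ∧ b ≠ u),
      (∑ j, q u j * ∏ v ∈ (comps b).erase u, sv q c (c u j) v) * hh (b : ℝ) := by
  have hinj : Set.InjOn (fun b => (comps b).erase u)
      (↑(B.filter (fun b => u ∈ comps b ∧ b ≠ u)) : Set ℕ) := by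
    intro b hb b' hb' h
    obtain ⟨h1, h2, -⟩ := Finset.mem_filter.1 (Finset.mem_coe.1 hb)
    obtain ⟨h1', h2', -⟩ := Finset.mem_filter.1 (Finset.mem_coe.1 hb')
    have hb0 : b ≠ 0 := by have := hB.1 b (Finset.mem_coe.2 h1); omega
    have hb0' : b' ≠ 0 := by have := hB.1 b' (Finset.mem_coe.2 h1'); omega
    apply comps_inj hb0 hb0'
    have h' : (comps b).erase u = (comps b').erase u := h
    rw [← Finset.insert_erase h2, ← Finset.insert_erase h2', h']
  unfold ld MM
  simp only [Finset.sum_image hinj]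
  have hval : ∀ b ∈ B.filter (fun b => u ∈ comps b ∧ b ≠ u),
      (u : ℝ) * ∏ v ∈ (comps b).erase u, (v : ℝ) = (b : ℝ) := by
    intro b hb
    obtain ⟨h1, h2, -⟩ := Finset.mem_filter.1 hb
    have hb0 : b ≠ 0 := by have := hB.1 b (Finset.mem_coe.2 h1); omega
    rw [Finset.mul_prod_erase (comps b) (fun v => (v : ℝ)) h2]
    have h3 := congrArg (Nat.cast : ℕ → ℝ) (prod_comps hb0)
    rwa [Nat.cast_prod] at h3
  calc _ = ∑ j, q u j * ∑ b ∈ B.filter (fun b => u ∈ comps b ∧ b ≠ u),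
        (∏ v ∈ (comps b).erase u, sv q c (c u j) v) * hh (b : ℝ) := by
        apply Finset.sum_congr rfl
        intro j _
        congr 1
        apply Finset.sum_congr rfl
        intro b hb
        rw [hval b hb]
    _ = _ := by
        simp only [Finset.mul_sum, Finset.sum_mul]
        rw [Finset.sum_comm]
        apply Finset.sum_congr rfl
        intro b _
        apply Finset.sum_congr rfl
        intro j _
        ring

theorem ld_nonneg {J : ℕ} (q : ℕ → Fin J → ℝ) (c : ℕ → Fin J → α) {B : Finset ℕ}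
    (hB : QPset (↑B : Set ℕ)) (hq : ∀ v j, 0 ≤ q v j) (u : ℕ) : 0 ≤ ld q c B u := by
  rw [ld_eq q c hB]
  apply Finset.sum_nonneg
  intro b hb
  have h1 := (Finset.mem_filter.1 hb).1
  have hb2 := hB.1 b (Finset.mem_coe.2 h1)
  apply mul_nonneg
  · apply Finset.sum_nonneg
    intro j _
    exact mul_nonneg (hq _ _) (Finset.prod_nonneg fun v _ => sv_nonneg q c _ v (hq v))
  · apply hh_nonneg
    exact_mod_cast (by omega : 1 ≤ b)

theorem total_le {J : ℕ} (q : ℕ → Fin J → ℝ) (c : ℕ → Fin J → α) {B : Finset ℕ}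
    (hB : QPset (↑B : Set ℕ)) (hq : ∀ v j, 0 ≤ q v j)
    (hs : ∀ v, IsPrimePow v → ∑ j, q v j = 1) (U : Finset ℕ) (hU : ∀ b ∈ B, comps b ⊆ U) :
    ∑ b ∈ B, hh (b : ℝ) ≤ ∑ b ∈ B.filter (fun b => IsPrimePow b), hh (b : ℝ) + ∑ u ∈ U, ld q c B u := by
  rw [← Finset.sum_filter_add_sum_filter_not B (fun b => IsPrimePow b)]
  have hpos : ∀ b ∈ B, 0 ≤ hh (b : ℝ) := by
    intro b hb
    have := hB.1 b (Finset.mem_coe.2 hb)
    apply hh_nonneg
    exact_mod_cast (by omega : 1 ≤ b)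
  have key : ∑ b ∈ B.filter (fun b => ¬ IsPrimePow b), hh (b : ℝ) ≤ ∑ u ∈ U, ld q c B u := by
    set X : ℕ → ℕ → ℝ := fun b u => (∑ j, q u j * ∏ v ∈ (comps b).erase u, sv q c (c u j) v) * hh (b : ℝ)
      with hX
    have hXn : ∀ b ∈ B, ∀ u, 0 ≤ X b u := by
      intro b hb u
      apply mul_nonneg _ (hpos b hb)
      apply Finset.sum_nonneg
      intro j _
      exact mul_nonneg (hq _ _) (Finset.prod_nonneg fun v _ => sv_nonneg q c _ v (hq v))
    calc ∑ b ∈ B.filter (fun b => ¬ IsPrimePow b), hh (b : ℝ)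
        ≤ ∑ b ∈ B.filter (fun b => ¬ IsPrimePow b), ∑ u ∈ comps b, X b u := by
          apply Finset.sum_le_sum
          intro b hb
          obtain ⟨hbB, -⟩ := Finset.mem_filter.1 hb
          have hb2 := hB.1 b (Finset.mem_coe.2 hbB)
          have := charge q c (comps b) (comps_nonempty hb2) (fun v _ => hq v)
            (fun v hv => hs v (comps_primePow hv))
          simp only [hX]
          rw [← Finset.sum_mul]
          nlinarith [hpos b hbB]
      _ = ∑ b ∈ B.filter (fun b => ¬ IsPrimePow b), ∑ u ∈ U, if u ∈ comps b then X b u else 0 := by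
          apply Finset.sum_congr rfl
          intro b hb
          obtain ⟨hbB, -⟩ := Finset.mem_filter.1 hb
          rw [← Finset.sum_filter]
          apply Finset.sum_congr _ (fun _ _ => rfl)
          ext u
          simp only [Finset.mem_filter]
          exact ⟨fun h => ⟨hU b hbB h, h⟩, fun h => h.2⟩
      _ = ∑ u ∈ U, ∑ b ∈ B.filter (fun b => ¬ IsPrimePow b), (if u ∈ comps b then X b u else 0) :=
          Finset.sum_comm
      _ ≤ ∑ u ∈ U, ld q c B u := by
          apply Finset.sum_le_sum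
          intro u _
          rw [ld_eq q c hB, ← Finset.sum_filter, Finset.filter_filter]
          apply Finset.sum_le_sum_of_subset_of_nonneg
          · intro b hb
            obtain ⟨hbB, hnp, hub⟩ := Finset.mem_filter.1 hb
            refine Finset.mem_filter.2 ⟨hbB, hub, ?_⟩
            rintro rfl
            exact hnp (comps_primePow hub)
          · intro b hb _
            exact hXn b (Finset.mem_filter.1 hb).1 u
  linarith

/-! ### accounts per prime -/

theorem summable_hh_pow {p : ℕ} (hp : p.Prime) : Summable (fun k : ℕ => hh ((p : ℝ) ^ (k + 1))) := by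
  have hp2 : (2 : ℝ) ≤ p := by exact_mod_cast hp.two_le
  have hlp : Real.log 2 ≤ Real.log p := Real.log_le_log (by norm_num) hp2
  have hl2 : 0 < Real.log 2 := Real.log_pos (by norm_num)
  apply Summable.of_nonneg_of_le (f := fun k : ℕ => (1 / Real.log 2) * (1 / 2 : ℝ) ^ k)
  · intro k
    apply hh_nonneg
    exact one_le_pow₀ (by linarith)
  · intro k
    unfold hh
    rw [Real.log_pow]
    have h1 : (2 : ℝ) ^ k ≤ (p : ℝ) ^ (k + 1) := by
      calc (2 : ℝ) ^ k ≤ 2 ^ (k + 1) := pow_le_pow_right₀ (by norm_num) (by omega)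
        _ ≤ _ := pow_le_pow_left₀ (by norm_num) hp2 _
    have h2 : Real.log 2 ≤ ((k + 1 : ℕ) : ℝ) * Real.log p := by
      have : (1 : ℝ) ≤ ((k + 1 : ℕ) : ℝ) := by push_cast; linarith [Nat.cast_nonneg (α := ℝ) k]
      nlinarith
    have h3 : (2 : ℝ) ^ k * Real.log 2 ≤ (p : ℝ) ^ (k + 1) * (((k + 1 : ℕ) : ℝ) * Real.log p) :=
      mul_le_mul h1 h2 hl2.le (by positivity)
    calc 1 / ((p : ℝ) ^ (k + 1) * (((k + 1 : ℕ) : ℝ) * Real.log p)) ≤ 1 / ((2 : ℝ) ^ k * Real.log 2) :=
          one_div_le_one_div_of_le (by positivity) h3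
      _ = _ := by
        rw [one_div_pow]
        field_simp
  · exact (summable_geometric_of_lt_one (by norm_num) (by norm_num)).mul_left _

/-- the account inequalities. -/
structure Accounts {J : ℕ} (q : ℕ → Fin J → ℝ) (c : ℕ → Fin J → α) (B : Finset ℕ) : Prop where
  absent : ∀ u, IsPrimePow u → u ∉ B → (MM B u).Nonempty → ld q c B u ≤ hh (u : ℝ)
  top : ∀ p e, p.Prime → e ≠ 0 → p ^ e ∈ B → (MM B (p ^ e)).Nonempty → ∀ K : ℕ,
    ld q c B (p ^ e) + ∑ i ∈ range K, ld q c B (p ^ (e + 1 + i))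
      ≤ ∑' i : ℕ, hh ((p : ℝ) ^ (e + 1 + i))

theorem ld_empty {J : ℕ} (q : ℕ → Fin J → ℝ) (c : ℕ → Fin J → α) {B : Finset ℕ} {u : ℕ}
    (h : ¬ (MM B u).Nonempty) : ld q c B u = 0 := by
  rw [Finset.not_nonempty_iff_eq_empty] at h
  unfold ld
  simp [h]

theorem prime_account {J : ℕ} (q : ℕ → Fin J → ℝ) (c : ℕ → Fin J → α) {B : Finset ℕ}
    (hB : QPset (↑B : Set ℕ)) (h : Accounts q c B) {p : ℕ} (hp : p.Prime) (K : ℕ) :
    ∑ k ∈ range K, ((if p ^ (k + 1) ∈ B then hh ((p : ℝ) ^ (k + 1)) else 0) + ld q c B (p ^ (k + 1)))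
      ≤ ∑' k : ℕ, hh ((p : ℝ) ^ (k + 1)) := by
  classical
  have hp1 : (1 : ℝ) ≤ p := by exact_mod_cast hp.one_lt.le
  have hnn : ∀ k : ℕ, 0 ≤ hh ((p : ℝ) ^ (k + 1)) := fun k => hh_nonneg (one_le_pow₀ hp1)
  have hpp : ∀ k : ℕ, IsPrimePow (p ^ (k + 1)) := fun k => hp.isPrimePow.pow (by omega)
  have hlow : ∀ k : ℕ, ¬ (p ^ (k + 1) ∈ B ∧ (MM B (p ^ (k + 1))).Nonempty) →
      (if p ^ (k + 1) ∈ B then hh ((p : ℝ) ^ (k + 1)) else 0) + ld q c B (p ^ (k + 1))
        ≤ hh ((p : ℝ) ^ (k + 1)) := by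
    intro k hk
    by_cases hM : (MM B (p ^ (k + 1))).Nonempty
    · have hnB : p ^ (k + 1) ∉ B := fun h' => hk ⟨h', hM⟩
      rw [if_neg hnB, zero_add]
      have := h.absent _ (hpp k) hnB hM
      push_cast at this
      exact this
    · rw [ld_empty q c hM, add_zero]
      split_ifs
      · exact le_rfl
      · exact hnn k
  by_cases hex : ∃ k, k < K ∧ p ^ (k + 1) ∈ B ∧ (MM B (p ^ (k + 1))).Nonempty
  · set e := Nat.find hex with he
    obtain ⟨heK, heB, heM⟩ := Nat.find_spec hex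
    rw [← he] at heK heB heM
    have hmin : ∀ k < e, ¬ (p ^ (k + 1) ∈ B ∧ (MM B (p ^ (k + 1))).Nonempty) := by
      intro k hk hk'
      exact Nat.find_min hex hk ⟨by omega, hk'⟩
    obtain ⟨R, hR⟩ : ∃ R, K = e + 1 + R := ⟨K - (e + 1), by omega⟩
    rw [hR, Finset.sum_range_add, Finset.sum_range_succ]
    have h1 : ∑ k ∈ range e, ((if p ^ (k + 1) ∈ B then hh ((p : ℝ) ^ (k + 1)) else 0)
        + ld q c B (p ^ (k + 1))) ≤ ∑ k ∈ range e, hh ((p : ℝ) ^ (k + 1)) :=
      Finset.sum_le_sum fun k hk => hlow k (hmin k (Finset.mem_range.1 hk))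
    have h2 : ∀ i ∈ range R, ((if p ^ (e + 1 + i + 1) ∈ B then hh ((p : ℝ) ^ (e + 1 + i + 1)) else 0)
        + ld q c B (p ^ (e + 1 + i + 1))) = ld q c B (p ^ ((e + 1) + 1 + i)) := by
      intro i _
      have : p ^ (e + 1 + i + 1) ∉ B :=
        no_power_above hB hp (by omega) (by omega : e + 1 < e + 1 + i + 1) heB heM
      rw [if_neg this, zero_add]
      congr 2; ring
    rw [Finset.sum_congr rfl h2, if_pos heB]
    have h3 := h.top p (e + 1) hp (by omega) heB heM R
    have h4 := (summable_hh_pow hp).sum_add_tsum_nat_add (e + 1)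
    rw [Finset.sum_range_succ] at h4
    have h5 : ∑' i : ℕ, hh ((p : ℝ) ^ (i + (e + 1) + 1)) = ∑' i : ℕ, hh ((p : ℝ) ^ (e + 1 + 1 + i)) := by
      congr 1; ext i; congr 2; ring
    rw [h5] at h4
    linarith
  · push Not at hex
    calc _ ≤ ∑ k ∈ range K, hh ((p : ℝ) ^ (k + 1)) := by
          apply Finset.sum_le_sum
          intro k hk
          apply hlow
          rintro ⟨h1, h2⟩
          exact (Finset.not_nonempty_iff_eq_empty.2 (by
            have := hex k (Finset.mem_range.1 hk) h1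
            simpa using this)) h2
      _ ≤ _ := (summable_hh_pow hp).sum_le_tsum _ (fun k _ => hnn k)

/-- injectivity of the parametrisation of prime powers. -/
theorem pp_inj {p p' k k' : ℕ} (hp : p.Prime) (hp' : p'.Prime) (h : p ^ (k + 1) = p' ^ (k' + 1)) :
    p = p' ∧ k = k' := by
  have h1 := hp.pow_minFac (k := k + 1) (by omega)
  have h2 := hp'.pow_minFac (k := k' + 1) (by omega)
  have h3 : p = p' := by rw [← h1, ← h2, h]
  subst h3
  have := Nat.pow_right_injective hp.two_le h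
  exact ⟨rfl, by omega⟩

/-- the finite form. -/
theorem finite_form {J : ℕ} (q : ℕ → Fin J → ℝ) (c : ℕ → Fin J → α) {B : Finset ℕ}
    (hB : QPset (↑B : Set ℕ)) (hq : ∀ v j, 0 ≤ q v j)
    (hs : ∀ v, IsPrimePow v → ∑ j, q v j = 1) (h : Accounts q c B) :
    ∃ N : ℕ, ∑ b ∈ B, hh (b : ℝ)
      ≤ ∑ p ∈ (range N).filter Nat.Prime, ∑' k : ℕ, hh ((p : ℝ) ^ (k + 1)) := by
  classical
  set U := B.biUnion comps with hU
  set N := (∑ b ∈ B, b) + 1 with hN
  have hbN : ∀ b ∈ B, b < N := by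
    intro b hb
    have : b ≤ ∑ b ∈ B, b := Finset.single_le_sum (f := fun b => b) (fun _ _ => Nat.zero_le _) hb
    omega
  have hUN : ∀ u ∈ U, IsPrimePow u ∧ u < N := by
    intro u hu
    obtain ⟨b, hb, hub⟩ := Finset.mem_biUnion.1 hu
    refine ⟨comps_primePow hub, lt_of_le_of_lt ?_ (hbN b hb)⟩
    have hb2 := hB.1 b (Finset.mem_coe.2 hb)
    apply Nat.le_of_dvd (by omega)
    rw [← prod_comps (b := b) (by omega)]
    exact Finset.dvd_prod_of_mem _ hub
  refine ⟨N, ?_⟩
  set P := (range N).filter Nat.Prime with hP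
  set g : ℕ → ℝ := fun u => (if u ∈ B then hh (u : ℝ) else 0) + ld q c B u with hg
  set W := (P ×ˢ range N).image (fun x : ℕ × ℕ => x.1 ^ (x.2 + 1)) with hW
  have hinj : Set.InjOn (fun x : ℕ × ℕ => x.1 ^ (x.2 + 1)) (↑(P ×ˢ range N) : Set (ℕ × ℕ)) := by
    rintro ⟨p, k⟩ h1 ⟨p', k'⟩ h2 h3
    simp only [Finset.coe_product, Set.mem_prod, Finset.mem_coe] at h1 h2
    have hp := (Finset.mem_filter.1 h1.1).2
    have hp' := (Finset.mem_filter.1 h2.1).2
    obtain ⟨e1, e2⟩ := pp_inj hp hp' h3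
    exact Prod.ext e1 e2
  have hWmem : ∀ u, IsPrimePow u → u < N → u ∈ W := by
    intro u hu huN
    obtain ⟨p, k, hp, hk, rfl⟩ := (isPrimePow_nat_iff _).1 hu
    obtain ⟨k', rfl⟩ : ∃ k', k = k' + 1 := ⟨k - 1, by omega⟩
    rw [hW, Finset.mem_image]
    refine ⟨(p, k'), ?_, rfl⟩
    rw [Finset.mem_product]
    have h1 : p ≤ p ^ (k' + 1) := Nat.le_self_pow (by omega) p
    have h2 : k' < p ^ (k' + 1) := by
      calc k' < k' + 1 := by omega
        _ < p ^ (k' + 1) := Nat.lt_pow_self hp.one_lt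
    refine ⟨Finset.mem_filter.2 ⟨Finset.mem_range.2 (by omega), hp⟩, Finset.mem_range.2 (by omega)⟩
  have hbnn : ∀ b ∈ B, 0 ≤ hh (b : ℝ) := by
    intro b hb
    have := hB.1 b (Finset.mem_coe.2 hb)
    apply hh_nonneg
    exact_mod_cast (by omega : 1 ≤ b)
  calc ∑ b ∈ B, hh (b : ℝ)
      ≤ ∑ b ∈ B.filter (fun b => IsPrimePow b), hh (b : ℝ) + ∑ u ∈ U, ld q c B u :=
        total_le q c hB hq hs U (fun b hb => Finset.subset_biUnion_of_mem comps hb)
    _ ≤ ∑ u ∈ W, (if u ∈ B then hh (u : ℝ) else 0) + ∑ u ∈ W, ld q c B u := by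
        apply add_le_add
        · rw [← Finset.sum_filter]
          apply Finset.sum_le_sum_of_subset_of_nonneg
          · intro b hb
            obtain ⟨h1, h2⟩ := Finset.mem_filter.1 hb
            exact Finset.mem_filter.2 ⟨hWmem b h2 (hbN b h1), h1⟩
          · intro b hb _
            exact hbnn b (Finset.mem_filter.1 hb).2
        · apply Finset.sum_le_sum_of_subset_of_nonneg
          · intro u hu
            exact hWmem u (hUN u hu).1 (hUN u hu).2
          · intro u _ _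
            exact ld_nonneg q c hB hq u
    _ = ∑ u ∈ W, g u := by rw [← Finset.sum_add_distrib]
    _ = ∑ x ∈ P ×ˢ range N, g (x.1 ^ (x.2 + 1)) := by rw [hW, Finset.sum_image hinj]
    _ = ∑ p ∈ P, ∑ k ∈ range N, g (p ^ (k + 1)) := Finset.sum_product _ _ _
    _ ≤ _ := by
        apply Finset.sum_le_sum
        intro p hp
        have := prime_account q c hB h (Finset.mem_filter.1 hp).2 N
        refine le_trans (le_of_eq ?_) this
        apply Finset.sum_congr rfl
        intro k _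
        simp only [hg]
        push_cast
        rfl

end Pool.Agent.EZ
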