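import Pool.Agent.EZ.LP2

/-!
# Cross-intersecting families under two product measures of components
-/

set_option autoImplicit false
set_option linter.unusedSectionVars false
set_option linter.unusedVariables false

namespace Pool.Agent.EZ

open Finset

variable {V ι : Type*} [DecidableEq V] [DecidableEq ι]

/-- passing to the up-set of sets of primes. -/
theorem PU_le_merge (π : V → ι) (VS : Finset V) (S val : V → ℝ) (hS : ∀ v ∈ VS, 0 ≤ S v)
    (hval : ∀ v ∈ VS, 1 < val v) (l : List ι) (hl : l.Nodup) (hlV : ∀ v ∈ VS, π v ∈ l)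
    (D : Set (Finset V)) :
    PU VS S val D ≤ ExL l (fun r => 1 - Real.exp (-∑ v ∈ VS.filter (fun v => π v = r), S v / val v))
      (ind {T | ∃ m ∈ D, m.image π ⊆ T}) := by
  unfold PU
  rw [← Pr_dl VS S val (fun _ => 0) 0 0]
  have htv : Val (tt VS.toList (dl S val 0 0) (fun _ => 0) (0 + 1)) := by
    intro x hx
    have := tt_val VS.toList (dl S val 0 0) (fun _ => 0) (by
      intro j v hv
      have hv' : v ∈ VS := by simpa using hv
      exact dl_nonneg S val 0 0 le_rfl j v (hS v hv') (hval v hv')) (0 + 1) x hx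
    exact ⟨this.1, this.2.le⟩
  have h1 : Pr (tt VS.toList (dl S val 0 0) (fun _ => 0) (0 + 1)) (ind (up D))
      ≤ Pr (tt VS.toList (dl S val 0 0) (fun _ => 0) (0 + 1))
        (fun T => ind {T | ∃ m ∈ D, m.image π ⊆ T} (T.image π)) := by
    apply Pr_mono _ htv
    intro T
    by_cases hS : T ∈ up D
    · have hS' : T.image π ∈ {T | ∃ m ∈ D, m.image π ⊆ T} := by
        obtain ⟨m, hm, hmS⟩ := hS
        exact ⟨m, hm, Finset.image_subset_image hmS⟩
      rw [ind_of_mem hS, ind_of_mem hS']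
    · rw [ind_of_not_mem hS]; exact ind_nonneg _ _
  refine h1.trans (le_of_eq ?_)
  rw [Pr_merge π l hl _ (by
    intro x hx
    have := (tt_mem _ _ _ _ x hx).1
    exact hlV _ (by simpa using this))]
  congr 1
  ext r
  rw [surv_dl]
  have h0 : sg 0 0 0 = 0 := by simp [sg]
  rw [h0]
  simp only [aa_zero]

/-- two-measure cross-intersection theorem. -/
theorem PU_cross (π : V → ι) (VS VS' : Finset V) (S S' val : V → ℝ)
    (hS : ∀ v ∈ VS, 0 ≤ S v) (hS' : ∀ v ∈ VS', 0 ≤ S' v)
    (hval : ∀ v ∈ VS, 1 < val v) (hval' : ∀ v ∈ VS', 1 < val v) (lam : ℝ) (hlam : 0 ≤ lam)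
    (w w' : ι → ℝ) (hw0 : ∀ r, 0 ≤ w r) (hw0' : ∀ r, 0 ≤ w' r)
    (hw : ∀ r, ∑ v ∈ VS.filter (fun v => π v = r), S v / val v ≤ w r)
    (hw' : ∀ r, ∑ v ∈ VS'.filter (fun v => π v = r), S' v / val v ≤ w' r)
    (hsum : ∀ r, 1 ≤ Real.exp (-w r) + Real.exp (-w' r))
    (h : ∀ r, (Real.exp (w r) - 1) * (Real.exp (w' r) - 1) ≤ lam ^ 2)
    (D D' : Set (Finset V)) (hD : ∀ m ∈ D, ∀ m' ∈ D', ∃ v ∈ m, ∃ v' ∈ m', π v = π v') :
    PU VS S val D * PU VS' S' val D'
      ≤ lam ^ 2 * ((1 - PU VS S val D) * (1 - PU VS' S' val D')) := by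
  set l : List ι := ((VS ∪ VS').image π).toList with hl
  have hlnd : l.Nodup := Finset.nodup_toList _
  have hmem : ∀ v ∈ VS ∪ VS', π v ∈ l := fun v hv => by
    rw [hl, Finset.mem_toList]
    exact Finset.mem_image_of_mem _ hv
  set p : ι → ℝ := fun r => 1 - Real.exp (-∑ v ∈ VS.filter (fun v => π v = r), S v / val v) with hp
  set q : ι → ℝ := fun r => 1 - Real.exp (-∑ v ∈ VS'.filter (fun v => π v = r), S' v / val v)
    with hq
  set F : Set (Finset ι) := {T | ∃ m ∈ D, m.image π ⊆ T} with hF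
  set G : Set (Finset ι) := {T | ∃ m ∈ D', m.image π ⊆ T} with hG
  have h1 := PU_le_merge π VS S val hS hval l hlnd
    (fun v hv => hmem v (Finset.mem_union_left _ hv)) D
  have h2 := PU_le_merge π VS' S' val hS' hval' l hlnd
    (fun v hv => hmem v (Finset.mem_union_right _ hv)) D'
  have n1 : ∀ r, 0 ≤ ∑ v ∈ VS.filter (fun v => π v = r), S v / val v := fun r =>
    Finset.sum_nonneg (fun v hv => div_nonneg (hS v (Finset.mem_filter.1 hv).1)
      (le_trans zero_le_one (hval v (Finset.mem_filter.1 hv).1).le))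
  have n2 : ∀ r, 0 ≤ ∑ v ∈ VS'.filter (fun v => π v = r), S' v / val v := fun r =>
    Finset.sum_nonneg (fun v hv => div_nonneg (hS' v (Finset.mem_filter.1 hv).1)
      (le_trans zero_le_one (hval' v (Finset.mem_filter.1 hv).1).le))
  have hc := cross l hlnd p q lam hlam
    (fun r _ => by
      have : Real.exp (-∑ v ∈ VS.filter (fun v => π v = r), S v / val v) ≤ 1 :=
        Real.exp_le_one_iff.2 (by linarith [n1 r])
      simp only [hp]; linarith)
    (fun r _ => by
      have : Real.exp (-∑ v ∈ VS'.filter (fun v => π v = r), S' v / val v) ≤ 1 :=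
        Real.exp_le_one_iff.2 (by linarith [n2 r])
      simp only [hq]; linarith)
    (fun r _ => by
      have e1 : Real.exp (-w r) ≤ Real.exp (-∑ v ∈ VS.filter (fun v => π v = r), S v / val v) :=
        Real.exp_le_exp.2 (by linarith [hw r])
      have e2 : Real.exp (-w' r) ≤ Real.exp (-∑ v ∈ VS'.filter (fun v => π v = r), S' v / val v) :=
        Real.exp_le_exp.2 (by linarith [hw' r])
      simp only [hp, hq]
      linarith [hsum r])
    (fun r _ => by
      set a := ∑ v ∈ VS.filter (fun v => π v = r), S v / val v with ha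
      set b := ∑ v ∈ VS'.filter (fun v => π v = r), S' v / val v with hb
      have e1 : Real.exp a ≤ Real.exp (w r) := Real.exp_le_exp.2 (hw r)
      have e2 : Real.exp b ≤ Real.exp (w' r) := Real.exp_le_exp.2 (hw' r)
      have f1 : 1 ≤ Real.exp a := Real.one_le_exp (n1 r)
      have f2 : 1 ≤ Real.exp b := Real.one_le_exp (n2 r)
      have g1 : 1 - Real.exp (-a) = (Real.exp a - 1) * Real.exp (-a) := by
        rw [sub_mul, ← Real.exp_add]; simp
      have g2 : 1 - Real.exp (-b) = (Real.exp b - 1) * Real.exp (-b) := by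
        rw [sub_mul, ← Real.exp_add]; simp
      simp only [hp, hq]
      rw [sub_sub_cancel, sub_sub_cancel, ← ha, ← hb, g1, g2]
      have hle : (Real.exp a - 1) * (Real.exp b - 1) ≤ lam ^ 2 :=
        (mul_le_mul (by linarith) (by linarith) (by linarith) (by linarith)).trans (h r)
      have hpos : 0 ≤ Real.exp (-a) * Real.exp (-b) := by positivity
      calc _ = (Real.exp a - 1) * (Real.exp b - 1) * (Real.exp (-a) * Real.exp (-b)) := by ring
        _ ≤ _ := mul_le_mul_of_nonneg_right hle hpos)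
    F G (by
      rintro T ⟨m, hm, hmT⟩ T' ⟨m', hm', hmT'⟩ hd
      obtain ⟨v, hv, v', hv', hvv⟩ := hD m hm m' hm'
      have a1 : π v ∈ T := hmT (Finset.mem_image_of_mem _ hv)
      have a2 : π v ∈ T' := hmT' (hvv ▸ Finset.mem_image_of_mem _ hv')
      exact Finset.disjoint_left.1 hd a1 a2)
  have p0 := PU_nonneg VS S val hS hval D
  have q0 := PU_nonneg VS' S' val hS' hval' D'
  set X := ExL l p (ind F)
  set Y := ExL l q (ind G)
  set P := PU VS S val D
  set Q := PU VS' S' val D'
  have pq0 : ∀ r, 0 ≤ p r ∧ p r ≤ 1 := fun r => by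
    have : Real.exp (-∑ v ∈ VS.filter (fun v => π v = r), S v / val v) ≤ 1 :=
      Real.exp_le_one_iff.2 (by linarith [n1 r])
    have h3 := Real.exp_pos (-∑ v ∈ VS.filter (fun v => π v = r), S v / val v)
    simp only [hp]
    constructor <;> linarith
  have qq0 : ∀ r, 0 ≤ q r ∧ q r ≤ 1 := fun r => by
    have : Real.exp (-∑ v ∈ VS'.filter (fun v => π v = r), S' v / val v) ≤ 1 :=
      Real.exp_le_one_iff.2 (by linarith [n2 r])
    have h3 := Real.exp_pos (-∑ v ∈ VS'.filter (fun v => π v = r), S' v / val v)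
    simp only [hq]
    constructor <;> linarith
  have X1 : X ≤ 1 := by
    have := ExL_mono l p (fun r _ => (pq0 r).1) (fun r _ => (pq0 r).2) (ind F) (fun _ => 1)
      (ind_le_one F)
    rwa [ExL_const] at this
  have Y1 : Y ≤ 1 := by
    have := ExL_mono l q (fun r _ => (qq0 r).1) (fun r _ => (qq0 r).2) (ind G) (fun _ => 1)
      (ind_le_one G)
    rwa [ExL_const] at this
  calc P * Q ≤ X * Y := mul_le_mul h1 h2 q0 (p0.trans h1)
    _ ≤ lam ^ 2 * ((1 - X) * (1 - Y)) := hc
    _ ≤ lam ^ 2 * ((1 - P) * (1 - Q)) := by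
        apply mul_le_mul_of_nonneg_left _ (by positivity)
        apply mul_le_mul <;> linarith

end Pool.Agent.EZ
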