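import Pool.Agent.EZ.MertensAbel

/-!
# `sup_y exp (EE y) (1 - exp (- λ y))` (helper46)
-/

set_option autoImplicit false

namespace Pool.Agent.EZ

open Finset ArithmeticFunction MeasureTheory
open scoped Nat

noncomputable section

/-- `EE y ≤ e^{-y} (y + 1) / (y (y + 2))`. -/
theorem EE_le {y : ℝ} (hy : 0 < y) : EE y ≤ Real.exp (-y) * ((y + 1) / (y * (y + 2))) := by
  -- `G x = - e^{-x} R x`, `G' = e^{-x} (1/x + 2/(x^2 (x+2)^2))`
  set G : ℝ → ℝ := fun x => -(Real.exp (-x) * ((x + 1) / (x * (x + 2)))) with hG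
  set G' : ℝ → ℝ := fun x => Real.exp (-x) * (1 / x + 2 / (x ^ 2 * (x + 2) ^ 2)) with hG'
  have hderiv : ∀ x ∈ Set.Ioi y, HasDerivAt G (G' x) x := by
    intro x hx
    have hx0 : 0 < x := lt_trans hy hx
    have h1 : HasDerivAt (fun x : ℝ => Real.exp (-x)) (-Real.exp (-x)) x := by
      have := (hasDerivAt_neg x).exp
      simpa using this
    have h2 : HasDerivAt (fun x : ℝ => (x + 1) / (x * (x + 2)))
        ((1 * (x * (x + 2)) - (x + 1) * (1 * (x + 2) + x * 1)) / (x * (x + 2)) ^ 2) x := by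
      apply HasDerivAt.div
      · exact (hasDerivAt_id x).add_const 1
      · exact (hasDerivAt_id x).mul ((hasDerivAt_id x).add_const 2)
      · positivity
    have h3 := (h1.mul h2).neg
    refine h3.congr_deriv ?_
    rw [hG']
    have : (x : ℝ) ≠ 0 := hx0.ne'
    have h4 : x + 2 ≠ 0 := by linarith
    field_simp
    ring
  have hcont : ContinuousWithinAt G (Set.Ici y) y := by
    apply ContinuousAt.continuousWithinAt
    rw [hG]
    apply ContinuousAt.neg
    apply ContinuousAt.mul
    · exact (Real.continuous_exp.comp continuous_neg).continuousAt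
    · apply ContinuousAt.div
      · fun_prop
      · fun_prop
      · positivity
  have hpos : ∀ x ∈ Set.Ioi y, 0 ≤ G' x := by
    intro x hx
    have hx0 : 0 < x := lt_trans hy hx
    rw [hG']
    positivity
  have hlim : Filter.Tendsto G Filter.atTop (nhds 0) := by
    rw [hG]
    have h1 : Filter.Tendsto (fun x : ℝ => Real.exp (-x)) Filter.atTop (nhds 0) :=
      Real.tendsto_exp_neg_atTop_nhds_zero
    have h2 : Filter.Tendsto (fun x : ℝ => (x + 1) / (x * (x + 2))) Filter.atTop (nhds 0) := by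
      have h3 : Filter.Tendsto (fun x : ℝ => 1 / x) Filter.atTop (nhds 0) := by
        simpa using tendsto_inv_atTop_zero (𝕜 := ℝ)
      refine squeeze_zero' ?_ ?_ h3
      · filter_upwards [Filter.eventually_gt_atTop 0] with x hx
        positivity
      · filter_upwards [Filter.eventually_gt_atTop 0] with x hx
        rw [div_le_div_iff₀ (by positivity) hx]
        nlinarith
    have := (h1.mul h2).neg
    simpa using this
  have hint : IntegrableOn G' (Set.Ioi y) :=
    integrableOn_Ioi_deriv_of_nonneg hcont hderiv hpos hlim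
  have hval : ∫ x in Set.Ioi y, G' x = 0 - G y :=
    integral_Ioi_of_hasDerivAt_of_nonneg hcont hderiv hpos hlim
  have hle : EE y ≤ ∫ x in Set.Ioi y, G' x := by
    unfold EE
    apply setIntegral_mono_on (EE_integrable hy) hint measurableSet_Ioi
    intro x hx
    have hx0 : 0 < x := lt_trans hy hx
    rw [hG', div_eq_mul_one_div]
    apply mul_le_mul_of_nonneg_left _ (Real.exp_pos _).le
    have : 0 ≤ 2 / (x ^ 2 * (x + 2) ^ 2) := by positivity
    linarith
  rw [hval] at hle
  rw [hG] at hle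
  simpa using hle

/-- `log F₂` decreases. -/
theorem F2_antitone {a b : ℝ} (ha : 0 < a) (hab : a ≤ b) :
    EE b + Real.log (1 - Real.exp (-(2 * b))) ≤ EE a + Real.log (1 - Real.exp (-(2 * a))) := by
  have hint1 := EE_intervalIntegrable ha hab
  set g : ℝ → ℝ := fun x => 2 * Real.exp (-(2 * x)) / (1 - Real.exp (-(2 * x))) with hg
  have hlt : ∀ x : ℝ, 0 < x → Real.exp (-(2 * x)) < 1 := fun x hx => by
    rw [Real.exp_lt_one_iff]
    linarith
  have hderiv : ∀ x ∈ Set.uIcc a b, HasDerivAt (fun x : ℝ => Real.log (1 - Real.exp (-(2 * x))))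
      (g x) x := by
    intro x hx
    rw [Set.uIcc_of_le hab] at hx
    have hx0 : 0 < x := lt_of_lt_of_le ha hx.1
    have h1 : HasDerivAt (fun x : ℝ => 1 - Real.exp (-(2 * x))) (2 * Real.exp (-(2 * x))) x := by
      have h2 : HasDerivAt (fun x : ℝ => -(2 * x)) (-2) x := by
        have h := (hasDerivAt_id x).const_mul (-2 : ℝ)
        have e : (fun x : ℝ => -(2 * x)) = fun x : ℝ => (-2 : ℝ) * id x := by
          funext t; simp
        rw [e]
        refine h.congr_deriv ?_
        ring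
      have := (h2.exp).const_sub 1
      refine this.congr_deriv ?_
      ring
    have h3 := h1.log (by linarith [hlt x hx0])
    exact h3
  have hcg : ContinuousOn g (Set.uIcc a b) := by
    rw [hg]
    apply ContinuousOn.div
    · fun_prop
    · fun_prop
    · intro x hx
      rw [Set.uIcc_of_le hab] at hx
      have hx0 : 0 < x := lt_of_lt_of_le ha hx.1
      linarith [hlt x hx0]
  have hftc := intervalIntegral.integral_eq_sub_of_hasDerivAt hderiv hcg.intervalIntegrable
  have hle : ∫ x in a..b, g x ≤ ∫ x in a..b, Real.exp (-x) / x := by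
    apply intervalIntegral.integral_mono_on hab hcg.intervalIntegrable hint1
    intro x hx
    have hx0 : 0 < x := lt_of_lt_of_le ha hx.1
    rw [hg]
    have h1 := hlt x hx0
    rw [div_le_div_iff₀ (by linarith) hx0]
    -- 2 e^{-2x} x ≤ e^{-x} (1 - e^{-2x})  iff 2 x ≤ e^x - e^{-x}
    have h2 := Real.self_le_sinh_iff.2 hx0.le
    rw [Real.sinh_eq] at h2
    have h3 : Real.exp (-(2 * x)) = Real.exp (-x) * Real.exp (-x) := by
      rw [← Real.exp_add]; congr 1; ring
    have h4 : Real.exp x * Real.exp (-x) = 1 := by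
      rw [← Real.exp_add]; simp
    have h5 : 0 < Real.exp (-x) := Real.exp_pos _
    rw [h3]
    have h6 : 2 * x ≤ Real.exp x - Real.exp (-x) := by linarith
    calc 2 * (Real.exp (-x) * Real.exp (-x)) * x = (Real.exp (-x) * Real.exp (-x)) * (2 * x) := by ring
      _ ≤ (Real.exp (-x) * Real.exp (-x)) * (Real.exp x - Real.exp (-x)) :=
          mul_le_mul_of_nonneg_left h6 (by positivity)
      _ = Real.exp (-x) * ((Real.exp x * Real.exp (-x)) - Real.exp (-x) * Real.exp (-x)) := by ring
      _ = Real.exp (-x) * (1 - Real.exp (-x) * Real.exp (-x)) := by rw [h4]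
  rw [hftc, ← EE_sub ha hab] at hle
  linarith

/-- Taylor polynomial of `e^{-x}`. -/
def Tp (n : ℕ) (x : ℝ) : ℝ := ∑ k ∈ range n, (-1) ^ k * x ^ k / (k.factorial : ℝ)

theorem Tp_zero (n : ℕ) : Tp (n + 1) 0 = 1 := by
  unfold Tp
  rw [Finset.sum_range_succ']
  simp

theorem Tp_hasDerivAt (n : ℕ) (x : ℝ) : HasDerivAt (Tp (n + 1)) (-(Tp n x)) x := by
  induction n with
  | zero =>
    have : Tp (0 + 1) = fun _ => (1 : ℝ) := by
      funext t; simp [Tp]
    rw [this]
    have h2 : -(Tp 0 x) = 0 := by simp [Tp]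
    rw [h2]
    exact hasDerivAt_const _ _
  | succ n ih =>
    have h1 : Tp (n + 1 + 1) = fun t => Tp (n + 1) t
        + (-1) ^ (n + 1) * t ^ (n + 1) / ((n + 1).factorial : ℝ) := by
      funext t
      unfold Tp
      rw [Finset.sum_range_succ _ (n + 1)]
    rw [h1]
    have h2 : HasDerivAt (fun t : ℝ => (-1) ^ (n + 1) * t ^ (n + 1) / ((n + 1).factorial : ℝ))
        ((-1) ^ (n + 1) * (((n + 1 : ℕ) : ℝ) * x ^ n) / ((n + 1).factorial : ℝ)) x := by
      have := ((hasDerivAt_pow (n + 1) x).const_mul ((-1 : ℝ) ^ (n + 1))).div_const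
        ((n + 1).factorial : ℝ)
      simpa using this
    refine (ih.add h2).congr_deriv ?_
    unfold Tp
    rw [Finset.sum_range_succ _ n, Nat.factorial_succ]
    push_cast
    have h3 : ((n.factorial : ℕ) : ℝ) ≠ 0 := by exact_mod_cast Nat.factorial_ne_zero n
    have h4 : (n : ℝ) + 1 ≠ 0 := by positivity
    field_simp
    ring

/-- Alternating bounds. -/
theorem exp_neg_Tp (m : ℕ) : (∀ x : ℝ, 0 ≤ x → Real.exp (-x) ≤ Tp (2 * m + 1) x) ∧
    (∀ x : ℝ, 0 ≤ x → Tp (2 * m + 2) x ≤ Real.exp (-x)) := by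
  have hexp : ∀ x : ℝ, HasDerivAt (fun x : ℝ => Real.exp (-x)) (-Real.exp (-x)) x := by
    intro x
    have := (hasDerivAt_neg x).exp
    simpa using this
  have step1 : ∀ n : ℕ, (∀ x : ℝ, 0 ≤ x → Real.exp (-x) ≤ Tp n x) →
      ∀ x : ℝ, 0 ≤ x → Tp (n + 1) x ≤ Real.exp (-x) := by
    intro n h x hx
    have hd : ∀ t : ℝ, HasDerivAt (fun t => Real.exp (-t) - Tp (n + 1) t)
        (-Real.exp (-t) - -(Tp n t)) t := fun t => (hexp t).sub (Tp_hasDerivAt n t)
    have hmono : MonotoneOn (fun t => Real.exp (-t) - Tp (n + 1) t) (Set.Ici 0) := by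
      apply monotoneOn_of_deriv_nonneg (convex_Ici 0)
      · exact fun t _ => (hd t).continuousAt.continuousWithinAt
      · exact fun t _ => (hd t).differentiableAt.differentiableWithinAt
      · intro t ht
        rw [interior_Ici] at ht
        rw [(hd t).deriv]
        have := h t (le_of_lt ht)
        linarith
    have h1 := hmono (Set.mem_Ici.2 le_rfl) (Set.mem_Ici.2 hx) hx
    simp only [neg_zero, Real.exp_zero, Tp_zero] at h1
    linarith
  have step2 : ∀ n : ℕ, (∀ x : ℝ, 0 ≤ x → Tp n x ≤ Real.exp (-x)) →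
      ∀ x : ℝ, 0 ≤ x → Real.exp (-x) ≤ Tp (n + 1) x := by
    intro n h x hx
    have hd : ∀ t : ℝ, HasDerivAt (fun t => Tp (n + 1) t - Real.exp (-t))
        (-(Tp n t) - -Real.exp (-t)) t := fun t => (Tp_hasDerivAt n t).sub (hexp t)
    have hmono : MonotoneOn (fun t => Tp (n + 1) t - Real.exp (-t)) (Set.Ici 0) := by
      apply monotoneOn_of_deriv_nonneg (convex_Ici 0)
      · exact fun t _ => (hd t).continuousAt.continuousWithinAt
      · exact fun t _ => (hd t).differentiableAt.differentiableWithinAt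
      · intro t ht
        rw [interior_Ici] at ht
        rw [(hd t).deriv]
        have := h t (le_of_lt ht)
        linarith
    have h1 := hmono (Set.mem_Ici.2 le_rfl) (Set.mem_Ici.2 hx) hx
    simp only [neg_zero, Real.exp_zero, Tp_zero] at h1
    linarith
  induction m with
  | zero =>
    have h0 : ∀ x : ℝ, 0 ≤ x → Real.exp (-x) ≤ Tp (2 * 0 + 1) x := by
      intro x hx
      have : Tp (2 * 0 + 1) x = 1 := by simp [Tp]
      rw [this]
      exact Real.exp_le_one_iff.2 (by linarith)
    exact ⟨h0, step1 _ h0⟩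
  | succ m ih =>
    have h1 := step2 _ ih.2
    have e1 : 2 * m + 2 + 1 = 2 * (m + 1) + 1 := by ring
    rw [e1] at h1
    exact ⟨h1, step1 _ h1⟩

/-- `∑_{k=1}^{n} (-1)^k x^k / (k k!)`. -/
def Sp (n : ℕ) (x : ℝ) : ℝ :=
  ∑ k ∈ range n, (-1) ^ (k + 1) * x ^ (k + 1) / ((k + 1 : ℝ) * ((k + 1).factorial : ℝ))

theorem Sp_hasDerivAt (n : ℕ) {x : ℝ} (hx : x ≠ 0) :
    HasDerivAt (fun t => Real.log t + Sp n t) (Tp (n + 1) x / x) x := by
  have h1 : HasDerivAt (Sp n) (∑ k ∈ range n, (-1) ^ (k + 1) * (((k + 1 : ℕ) : ℝ) * x ^ k)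
      / ((k + 1 : ℝ) * ((k + 1).factorial : ℝ))) x := by
    unfold Sp
    apply HasDerivAt.fun_sum
    intro k _
    have := ((hasDerivAt_pow (k + 1) x).const_mul ((-1 : ℝ) ^ (k + 1))).div_const
        ((k + 1 : ℝ) * ((k + 1).factorial : ℝ))
    simpa using this
  refine ((Real.hasDerivAt_log hx).add h1).congr_deriv ?_
  unfold Tp
  rw [Finset.sum_range_succ', add_div, Finset.sum_div]
  simp only [pow_zero, Nat.factorial_zero, Nat.cast_one, mul_one, div_one]
  rw [add_comm, inv_eq_one_div]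
  congr 1
  apply Finset.sum_congr rfl
  intro k _
  push_cast
  have h4 : (k : ℝ) + 1 ≠ 0 := by positivity
  have h5 : (((k + 1).factorial : ℕ) : ℝ) ≠ 0 := by exact_mod_cast Nat.factorial_ne_zero _
  field_simp
  ring

theorem EE_sub_le_Sp (m : ℕ) {a b : ℝ} (ha : 0 < a) (hab : a ≤ b) :
    EE a - EE b ≤ (Real.log b + Sp (2 * m) b) - (Real.log a + Sp (2 * m) a) := by
  rw [EE_sub ha hab]
  have hderiv : ∀ x ∈ Set.uIcc a b, HasDerivAt (fun t => Real.log t + Sp (2 * m) t)
      (Tp (2 * m + 1) x / x) x := by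
    intro x hx
    rw [Set.uIcc_of_le hab] at hx
    exact Sp_hasDerivAt (2 * m) (by linarith [hx.1])
  have hc : ContinuousOn (fun x => Tp (2 * m + 1) x / x) (Set.uIcc a b) := by
    apply ContinuousOn.div
    · exact fun t _ => (Tp_hasDerivAt (2 * m) t).continuousAt.continuousWithinAt
    · exact continuousOn_id
    · intro x hx
      rw [Set.uIcc_of_le hab] at hx
      linarith [hx.1]
  have hftc := intervalIntegral.integral_eq_sub_of_hasDerivAt hderiv hc.intervalIntegrable
  rw [← hftc]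
  apply intervalIntegral.integral_mono_on hab (EE_intervalIntegrable ha hab) hc.intervalIntegrable
  intro x hx
  have hx0 : 0 < x := lt_of_lt_of_le ha hx.1
  exact div_le_div_of_nonneg_right ((exp_neg_Tp m).1 x hx0.le) hx0.le

/-- `log F₂(y) ≤ log 8 + EE 4 + Sp 20 4`. -/
theorem logF2_le {y : ℝ} (hy : 0 < y) : EE y + Real.log (1 - Real.exp (-(2 * y)))
    ≤ EE 4 + Real.log 4 + Sp 20 4 + Real.log 2 := by
  have key : ∀ t ∈ Set.Ioo (0 : ℝ) (min y 4), EE y + Real.log (1 - Real.exp (-(2 * y)))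
      ≤ EE 4 + Real.log 4 + Sp 20 4 + Real.log 2 - Sp 20 t := by
    intro t ht
    have ht0 : 0 < t := ht.1
    have hty : t ≤ y := (ht.2.le.trans (min_le_left _ _))
    have ht4 : t ≤ 4 := (ht.2.le.trans (min_le_right _ _))
    have h1 := F2_antitone ht0 hty
    have h2 := EE_sub_le_Sp 10 ht0 ht4
    have h3 : Real.log (1 - Real.exp (-(2 * t))) ≤ Real.log 2 + Real.log t := by
      rw [← Real.log_mul (by norm_num) ht0.ne']
      apply Real.log_le_log
      · have : Real.exp (-(2 * t)) < 1 := by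
          rw [Real.exp_lt_one_iff]; linarith
        linarith
      · have := Real.add_one_le_exp (-(2 * t))
        linarith
    have h4 : 2 * 10 = 20 := by norm_num
    rw [h4] at h2
    linarith
  have hS : Filter.Tendsto (fun t => EE 4 + Real.log 4 + Sp 20 4 + Real.log 2 - Sp 20 t)
      (nhdsWithin 0 (Set.Ioo 0 (min y 4))) (nhds (EE 4 + Real.log 4 + Sp 20 4 + Real.log 2 - Sp 20 0)) := by
    apply Filter.Tendsto.mono_left _ nhdsWithin_le_nhds
    apply ContinuousAt.tendsto
    have : Continuous (Sp 20) := by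
      unfold Sp
      fun_prop
    fun_prop
  have hS0 : Sp 20 0 = 0 := by
    unfold Sp
    apply Finset.sum_eq_zero
    intro k _
    simp
  rw [hS0, sub_zero] at hS
  have : (nhdsWithin (0 : ℝ) (Set.Ioo 0 (min y 4))).NeBot := by
    apply left_nhdsWithin_Ioo_neBot
    exact lt_min hy (by norm_num)
  apply ge_of_tendsto hS
  exact eventually_nhdsWithin_of_forall key

theorem Sp_four : Sp 20 4 ≤ -1.967289 := by
  unfold Sp
  simp only [Finset.sum_range_succ, Finset.sum_range_zero, Nat.factorial]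
  norm_num

theorem EE_four : EE 4 ≤ 0.0038159 := by
  have h := EE_le (y := 4) (by norm_num)
  have h1 : Real.exp (-4) ≤ 0.018316 := by
    have h2 : Real.exp 4 = Real.exp 1 ^ 4 := by
      rw [← Real.exp_nat_mul]; norm_num
    have h3 := Real.exp_one_gt_d9
    have h4 : (2.7182818283 : ℝ) ^ 4 ≤ Real.exp 1 ^ 4 := pow_le_pow_left₀ (by norm_num) h3.le 4
    rw [Real.exp_neg, h2]
    rw [inv_le_comm₀ (by positivity) (by norm_num)]
    refine le_trans ?_ h4
    norm_num
  refine h.trans ?_
  have h5 : ((4 : ℝ) + 1) / (4 * (4 + 2)) = 5 / 24 := by norm_num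
  rw [h5]
  nlinarith

/-- `F₂ ≤ 1.123`. -/
theorem F2_le {y : ℝ} (hy : 0 < y) : Real.exp (EE y) * (1 - Real.exp (-(2 * y))) ≤ 1.123 := by
  have h := logF2_le hy
  have h1 := Sp_four
  have h2 := EE_four
  have h3 := Real.log_two_lt_d9
  have h4 : Real.log 4 = 2 * Real.log 2 := by
    have : (4 : ℝ) = 2 ^ 2 := by norm_num
    rw [this, Real.log_pow]; push_cast; ring
  have hpos : 0 < 1 - Real.exp (-(2 * y)) := by
    have : Real.exp (-(2 * y)) < 1 := by
      rw [Real.exp_lt_one_iff]; linarith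
    linarith
  have h5 : Real.exp (EE y) * (1 - Real.exp (-(2 * y)))
      = Real.exp (EE y + Real.log (1 - Real.exp (-(2 * y)))) := by
    rw [Real.exp_add, Real.exp_log hpos]
  rw [h5]
  have h6 : EE y + Real.log (1 - Real.exp (-(2 * y))) ≤ 0.11600 := by
    rw [h4] at h
    linarith
  have h7 : (0.11600 : ℝ) ≤ Real.log 1.123 := by
    have h8 := log_series_lower 3 (x := 123 / 2123) (by norm_num) (by norm_num)
    have h9 : Real.log (1 + 123 / 2123) - Real.log (1 - 123 / 2123) = Real.log 1.123 := by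
      rw [← Real.log_div (by norm_num) (by norm_num)]
      norm_num
    rw [h9] at h8
    refine le_trans ?_ h8
    simp only [Finset.sum_range_succ, Finset.sum_range_zero]
    norm_num
  calc Real.exp (EE y + Real.log (1 - Real.exp (-(2 * y)))) ≤ Real.exp (Real.log 1.123) :=
        Real.exp_le_exp.2 (h6.trans h7)
    _ = 1.123 := Real.exp_log (by norm_num)

/-- General `λ`. -/
theorem Flam_le {y lam : ℝ} (hy : 0 < y) :
    Real.exp (EE y) * (1 - Real.exp (-(lam * y))) ≤ 1.123 * max 1 (lam / 2) := by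
  have hE := Real.exp_pos (EE y)
  have hF := F2_le hy
  rcases le_total lam 2 with h | h
  · have h1 : 1 - Real.exp (-(lam * y)) ≤ 1 - Real.exp (-(2 * y)) := by
      have : Real.exp (-(2 * y)) ≤ Real.exp (-(lam * y)) := by
        apply Real.exp_le_exp.2
        nlinarith
      linarith
    have h2 := mul_le_mul_of_nonneg_left h1 hE.le
    have h3 : (1 : ℝ) ≤ max 1 (lam / 2) := le_max_left _ _
    nlinarith
  · have h1 : 1 - Real.exp (-(lam * y)) ≤ (lam / 2) * (1 - Real.exp (-(2 * y))) := by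
      -- with u = e^{-2y} ∈ (0,1), r = lam/2 ≥ 1: 1 - u^r ≤ r (1 - u)
      have hu := Real.exp_pos (-(2 * y))
      have h2 : Real.exp (-(lam * y)) = Real.exp (-(2 * y)) ^ (lam / 2) := by
        rw [← Real.exp_mul]
        congr 1
        ring
      have h3 := one_add_mul_self_le_rpow_one_add (s := Real.exp (-(2 * y)) - 1) (by linarith)
        (p := lam / 2) (by linarith)
      rw [add_sub_cancel] at h3
      rw [h2]
      nlinarith
    have h2 := mul_le_mul_of_nonneg_left h1 hE.le
    have h3 : lam / 2 ≤ max 1 (lam / 2) := le_max_right _ _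
    have h4 : Real.exp (EE y) * (lam / 2 * (1 - Real.exp (-(2 * y))))
        = lam / 2 * (Real.exp (EE y) * (1 - Real.exp (-(2 * y)))) := by ring
    rw [h4] at h2
    have h5 : lam / 2 * (Real.exp (EE y) * (1 - Real.exp (-(2 * y)))) ≤ lam / 2 * 1.123 :=
      mul_le_mul_of_nonneg_left hF (by linarith)
    nlinarith

end

end Pool.Agent.EZ
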