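import Pool.Agent.EZ.Limit
import Pool.Agent.EZ.MertensSup

/-!
# The bound (FB): `exp (XX s) (1 - u^{-s}) ≤ 1.012` for sets of prime powers above `c ≥ 121`,
`log u ≤ 1.5 log c` (helper46)
-/

set_option autoImplicit false

namespace Pool.Agent.EZ

open Finset MeasureTheory

noncomputable section

/-- `-log w ≥ 3 (1 - w²) / (1 + 4 w + w²)` on `(0, 1]`. -/
theorem pade_log {w : ℝ} (h0 : 0 < w) (h1 : w ≤ 1) :
    3 * (1 - w ^ 2) / (1 + 4 * w + w ^ 2) ≤ -Real.log w := by
  have hd : ∀ u : ℝ, 0 < u → HasDerivAt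
      (fun u : ℝ => -Real.log u - 3 * (1 - u ^ 2) / (1 + 4 * u + u ^ 2))
      (-(1 - u) ^ 4 / (u * (1 + 4 * u + u ^ 2) ^ 2)) u := by
    intro u hu
    have hQ : 0 < 1 + 4 * u + u ^ 2 := by positivity
    have hnum : HasDerivAt (fun u : ℝ => 3 * (1 - u ^ 2)) (3 * (-(2 * u))) u := by
      have ha : HasDerivAt (fun u : ℝ => 1 - u ^ 2) (-(2 * u)) u := by
        simpa using (hasDerivAt_pow 2 u).const_sub (1 : ℝ)
      exact ha.const_mul 3
    have hden : HasDerivAt (fun u : ℝ => 1 + 4 * u + u ^ 2) (4 + 2 * u) u := by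
      have ha : HasDerivAt (fun u : ℝ => 1 + 4 * u) 4 u := by
        simpa using ((hasDerivAt_id u).const_mul (4 : ℝ)).const_add (1 : ℝ)
      have hb : HasDerivAt (fun u : ℝ => u ^ 2) (2 * u) u := by
        simpa using hasDerivAt_pow 2 u
      exact ha.add hb
    refine (((Real.hasDerivAt_log hu.ne').neg).sub (hnum.div hden hQ.ne')).congr_deriv ?_
    field_simp
    ring
  have hanti : AntitoneOn (fun u : ℝ => -Real.log u - 3 * (1 - u ^ 2) / (1 + 4 * u + u ^ 2))
      (Set.Icc w 1) := by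
    apply antitoneOn_of_deriv_nonpos (convex_Icc w 1)
    · exact fun u hu => (hd u (by linarith [hu.1])).continuousAt.continuousWithinAt
    · intro u hu
      rw [interior_Icc] at hu
      exact (hd u (by linarith [hu.1])).differentiableAt.differentiableWithinAt
    · intro u hu
      rw [interior_Icc] at hu
      rw [(hd u (by linarith [hu.1])).deriv]
      have hu0 : 0 < u := by linarith [hu.1]
      apply div_nonpos_of_nonpos_of_nonneg
      · have : 0 ≤ (1 - u) ^ 4 := by positivity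
        linarith
      · positivity
  have h := hanti (Set.left_mem_Icc.2 h1) (Set.right_mem_Icc.2 h1) h1
  simp only [Real.log_one, one_pow, sub_self, mul_zero, zero_div, neg_zero] at h
  linarith

/-- `log K`. -/
def LK (k y : ℝ) : ℝ := EE y + Real.log (1 - Real.exp (-(3 / 2 * y))) + k * Real.exp (-y)

/-- the derivative of the elementary part -/
def lkd (k y : ℝ) : ℝ :=
  3 / 2 * Real.exp (-(3 / 2 * y)) / (1 - Real.exp (-(3 / 2 * y))) - k * Real.exp (-y)

theorem lt_one_aux {x : ℝ} (hx : 0 < x) : Real.exp (-(3 / 2 * x)) < 1 := by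
  rw [Real.exp_lt_one_iff]
  linarith

theorem lk_hasDerivAt (k : ℝ) {x : ℝ} (hx : 0 < x) :
    HasDerivAt (fun x : ℝ => Real.log (1 - Real.exp (-(3 / 2 * x))) + k * Real.exp (-x)) (lkd k x) x := by
  have h1 : HasDerivAt (fun x : ℝ => 1 - Real.exp (-(3 / 2 * x))) (3 / 2 * Real.exp (-(3 / 2 * x))) x := by
    have h2 : HasDerivAt (fun x : ℝ => -(3 / 2 * x)) (-(3 / 2)) x := by
      have h := (hasDerivAt_id x).const_mul (-(3 / 2) : ℝ)
      have e : (fun x : ℝ => -(3 / 2 * x)) = fun x : ℝ => -(3 / 2) * id x := by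
        funext z; simp
      rw [e]
      refine h.congr_deriv ?_
      ring
    have := (h2.exp).const_sub 1
    refine this.congr_deriv ?_
    ring
  have h3 := h1.log (by linarith [lt_one_aux hx])
  have h4 : HasDerivAt (fun x : ℝ => k * Real.exp (-x)) (k * (Real.exp (-x) * (-1))) x :=
    ((hasDerivAt_neg x).exp).const_mul k
  refine (h3.add h4).congr_deriv ?_
  unfold lkd
  ring

theorem lkd_cont (k : ℝ) {a b : ℝ} (ha : 0 < a) (hab : a ≤ b) :
    ContinuousOn (lkd k) (Set.uIcc a b) := by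
  unfold lkd
  apply ContinuousOn.sub
  · apply ContinuousOn.div
    · fun_prop
    · fun_prop
    · intro x hx
      rw [Set.uIcc_of_le hab] at hx
      have hx0 : 0 < x := lt_of_lt_of_le ha hx.1
      linarith [lt_one_aux hx0]
  · fun_prop

theorem LK_diff (k : ℝ) {a b : ℝ} (ha : 0 < a) (hab : a ≤ b) :
    ∫ x in a..b, lkd k x = (Real.log (1 - Real.exp (-(3 / 2 * b))) + k * Real.exp (-b))
      - (Real.log (1 - Real.exp (-(3 / 2 * a))) + k * Real.exp (-a)) := by
  apply intervalIntegral.integral_eq_sub_of_hasDerivAt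
  · intro x hx
    rw [Set.uIcc_of_le hab] at hx
    exact lk_hasDerivAt k (lt_of_lt_of_le ha hx.1)
  · exact (lkd_cont k ha hab).intervalIntegrable

theorem exp_w (x : ℝ) : Real.exp (-(3 / 2 * x)) = Real.exp (-(x / 2)) ^ 3 ∧
    Real.exp (-x) = Real.exp (-(x / 2)) ^ 2 := by
  constructor
  · rw [← Real.exp_nat_mul]; congr 1; push_cast; ring
  · rw [← Real.exp_nat_mul]; congr 1; push_cast; ring

/-- `b = -2 log (3/8)` -/
def bK : ℝ := -(2 * Real.log (3 / 8))

theorem exp_bK : Real.exp (-(bK / 2)) = 3 / 8 := by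
  unfold bK
  have : -(-(2 * Real.log (3 / 8)) / 2) = Real.log (3 / 8) := by ring
  rw [this, Real.exp_log (by norm_num)]

theorem bK_lower : (1.9615 : ℝ) ≤ bK := by
  have h := pade_log (w := 3 / 8) (by norm_num) (by norm_num)
  unfold bK
  -- Pade is not enough: use the logarithm of `8/3 = (1+x)/(1-x)`, `x = 5/11`
  have h8 := log_series_lower 6 (x := 5 / 11) (by norm_num) (by norm_num)
  have h9 : Real.log (1 + 5 / 11) - Real.log (1 - 5 / 11) = -Real.log (3 / 8) := by
    rw [← Real.log_div (by norm_num) (by norm_num), ← Real.log_inv]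
    norm_num
  rw [h9] at h8
  have h10 : (0.98075 : ℝ) ≤ -Real.log (3 / 8) := by
    refine le_trans ?_ h8
    simp only [Finset.sum_range_succ, Finset.sum_range_zero]
    norm_num
  linarith

theorem bK_pos : 0 < bK := by linarith [bK_lower]

/-- increasing on `(0, b]`. -/
theorem LK_mono {y : ℝ} (hy : 0 < y) (hyb : y ≤ bK) : LK 0.08 y ≤ LK 0.08 bK := by
  have hle : ∫ x in y..bK, Real.exp (-x) / x ≤ ∫ x in y..bK, lkd 0.08 x := by
    apply intervalIntegral.integral_mono_on hyb (EE_intervalIntegrable hy hyb)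
      (lkd_cont 0.08 hy hyb).intervalIntegrable
    intro x hx
    have hx0 : 0 < x := lt_of_lt_of_le hy hx.1
    unfold lkd
    obtain ⟨e1, e2⟩ := exp_w x
    have h1 := lt_one_aux hx0
    rw [e1] at h1
    rw [e1, e2]
    set w := Real.exp (-(x / 2)) with hw
    have hw0 : 0 < w := Real.exp_pos _
    have hw1 : w ≤ 1 := Real.exp_le_one_iff.2 (by linarith)
    have hw2 : 3 / 8 ≤ w := by
      rw [← exp_bK, hw]
      apply Real.exp_le_exp.2
      linarith [hx.2]
    have hlog : Real.log w = -(x / 2) := by rw [hw, Real.log_exp]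
    have hp := pade_log hw0 hw1
    rw [hlog] at hp
    have h3 : 0 < 1 - w ^ 3 := by linarith
    have hD : 0 < 3 / 2 * w - 0.08 * (1 - w ^ 3) := by nlinarith [pow_pos hw0 3]
    -- `x ≥ 6 (1 - w²)/(1+4w+w²) ≥ (1 - w³) / D`
    have h4 : (1 - w ^ 3) / (3 / 2 * w - 0.08 * (1 - w ^ 3)) ≤ x := by
      have h5 : (1 - w ^ 3) / (3 / 2 * w - 0.08 * (1 - w ^ 3))
          ≤ 2 * (3 * (1 - w ^ 2) / (1 + 4 * w + w ^ 2)) := by
        rw [← mul_div_assoc, div_le_div_iff₀ hD (by positivity)]
        have h6 : 0 ≤ (1 - w) * ((1 - w) * (-1.48 + 2.04 * w + 5.04 * w ^ 2 + 0.52 * w ^ 3)) := by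
          have h7 : 0 ≤ -1.48 + 2.04 * w + 5.04 * w ^ 2 + 0.52 * w ^ 3 := by
            have h8 : (3 / 8 : ℝ) ^ 2 ≤ w ^ 2 := pow_le_pow_left₀ (by norm_num) hw2 2
            have h9 : (3 / 8 : ℝ) ^ 3 ≤ w ^ 3 := pow_le_pow_left₀ (by norm_num) hw2 3
            norm_num at h8 h9
            linarith
          exact mul_nonneg (by linarith) (mul_nonneg (by linarith) h7)
        nlinarith
      linarith
    rw [div_le_iff₀ hD] at h4
    rw [div_sub' h3.ne', div_le_div_iff₀ hx0 h3]
    have h5 : w ^ 2 * (1 - w ^ 3) ≤ w ^ 2 * (x * (3 / 2 * w - 0.08 * (1 - w ^ 3))) :=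
      mul_le_mul_of_nonneg_left h4 (by positivity)
    refine h5.trans (le_of_eq ?_)
    ring
  rw [LK_diff 0.08 hy hyb, ← EE_sub hy hyb] at hle
  unfold LK
  linarith

/-- decreasing on `[b, ∞)`. -/
theorem LK_anti {y : ℝ} (hyb : bK ≤ y) : LK 0.085 y ≤ LK 0.085 bK := by
  have hb := bK_pos
  have hle : ∫ x in bK..y, lkd 0.085 x ≤ ∫ x in bK..y, Real.exp (-x) / x := by
    apply intervalIntegral.integral_mono_on hyb (lkd_cont 0.085 hb hyb).intervalIntegrable
      (EE_intervalIntegrable hb hyb)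
    intro x hx
    have hx0 : 0 < x := lt_of_lt_of_le hb hx.1
    unfold lkd
    obtain ⟨e1, e2⟩ := exp_w x
    have h1 := lt_one_aux hx0
    rw [e1] at h1
    rw [e1, e2]
    set w := Real.exp (-(x / 2)) with hw
    have hw0 : 0 < w := Real.exp_pos _
    have hw2 : w ≤ 3 / 8 := by
      rw [← exp_bK, hw]
      apply Real.exp_le_exp.2
      linarith [hx.1]
    have h3 : 0 < 1 - w ^ 3 := by linarith
    have h9 : w ^ 3 ≤ (3 / 8 : ℝ) ^ 3 := pow_le_pow_left₀ hw0.le hw2 3
    norm_num at h9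
    -- `x w ≤ 2 / e`
    have h4 : x * w ≤ 2 * 0.3678794412 := by
      have h5 := Real.add_one_le_exp (x / 2 - 1)
      have h6 : Real.exp (x / 2 - 1) = Real.exp (-1) / w := by
        rw [hw, ← Real.exp_sub]; congr 1; ring
      rw [h6, sub_add_cancel, le_div_iff₀ hw0] at h5
      have h7 := Real.exp_neg_one_lt_d9
      linarith
    have h5 : 1.1665 ≤ 1 + 0.085 * x := by
      have := bK_lower
      linarith [hx.1]
    have h6 : x * (3 / 2 * w - 0.085 * (1 - w ^ 3)) ≤ 1 - w ^ 3 := by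
      nlinarith
    rw [div_sub' h3.ne', div_le_div_iff₀ h3 hx0]
    have h7 : w ^ 2 * (x * (3 / 2 * w - 0.085 * (1 - w ^ 3))) ≤ w ^ 2 * (1 - w ^ 3) :=
      mul_le_mul_of_nonneg_left h6 (by positivity)
    refine le_trans (le_of_eq ?_) h7
    ring
  rw [LK_diff 0.085 hb hyb, ← EE_sub hb hyb] at hle
  unfold LK
  linarith

theorem LK_bK : LK 0.085 bK ≤ Real.log 1.012 := by
  have hE := EE_le bK_pos
  obtain ⟨e1, e2⟩ := exp_w bK
  rw [exp_bK] at e1 e2
  unfold LK
  rw [e1, e2]
  rw [e2] at hE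
  have hb := bK_lower
  have h1 : (bK + 1) / (bK * (bK + 2)) ≤ 0.38115 := by
    rw [div_le_iff₀ (by positivity)]
    nlinarith
  have h2 : Real.log (1 - (3 / 8) ^ 3) ≤ -0.05417 := by
    have h8 := log_series_lower 2 (x := 27 / 997) (by norm_num) (by norm_num)
    have h9 : Real.log (1 + 27 / 997) - Real.log (1 - 27 / 997) = -Real.log (1 - (3 / 8) ^ 3) := by
      rw [← Real.log_div (by norm_num) (by norm_num), ← Real.log_inv]
      norm_num
    rw [h9] at h8
    have h10 : (0.05417 : ℝ) ≤ -Real.log (1 - (3 / 8) ^ 3) := by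
      refine le_trans ?_ h8
      simp only [Finset.sum_range_succ, Finset.sum_range_zero]
      norm_num
    linarith
  have h3 : (0.0119 : ℝ) ≤ Real.log 1.012 := by
    have h8 := log_series_lower 2 (x := 12 / 2012) (by norm_num) (by norm_num)
    have h9 : Real.log (1 + 12 / 2012) - Real.log (1 - 12 / 2012) = Real.log 1.012 := by
      rw [← Real.log_div (by norm_num) (by norm_num)]
      norm_num
    rw [h9] at h8
    refine le_trans ?_ h8
    simp only [Finset.sum_range_succ, Finset.sum_range_zero]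
    norm_num
  have h4 : (3 / 8 : ℝ) ^ 2 * ((bK + 1) / (bK * (bK + 2))) ≤ (3 / 8) ^ 2 * 0.38115 :=
    mul_le_mul_of_nonneg_left h1 (by norm_num)
  norm_num at hE h2 h4 ⊢
  linarith

/-- (K15) -/
theorem K15 {y : ℝ} (hy : 0 < y) : LK 0.08 y ≤ Real.log 1.012 := by
  rcases le_total y bK with h | h
  · have h1 := LK_mono hy h
    have h2 : LK 0.08 bK ≤ LK 0.085 bK := by
      unfold LK
      have := Real.exp_pos (-bK)
      nlinarith
    exact h1.trans (h2.trans LK_bK)
  · have h2 : LK 0.08 y ≤ LK 0.085 y := by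
      unfold LK
      have := Real.exp_pos (-y)
      nlinarith
    exact h2.trans ((LK_anti h).trans LK_bK)

theorem e1_ge {n : ℕ} (h : 121 ≤ n) : 13817 ≤ e1 n := by
  rcases Nat.lt_or_ge n 128 with h2 | h2
  · interval_cases n <;> decide
  · unfold e1
    have e : ∀ b : Bool, ∀ x y : ℕ, 13817 ≤ x → 13817 ≤ y → 13817 ≤ cond b x y := by
      intro b x y hx hy; cases b <;> assumption
    have h11 : Nat.ble 128 n = true := by rw [Nat.ble_eq]; exact h2
    rw [h11, cond_true]
    repeat' apply e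
    all_goals norm_num

theorem log_121 : (4.78 : ℝ) ≤ Real.log 121 := by
  have h1 : (138 : ℝ) * Real.log 2 ≤ 20 * Real.log 121 := by
    have h2 : Real.log ((2 : ℝ) ^ 138) ≤ Real.log ((121 : ℝ) ^ 20) :=
      Real.log_le_log (by norm_num) (by norm_num)
    rw [Real.log_pow, Real.log_pow] at h2
    push_cast at h2
    exact h2
  have := Real.log_two_gt_d9
  linarith

theorem log_10000 : (9.2 : ℝ) ≤ Real.log 10000 := by
  have h1 : (93 : ℝ) * Real.log 2 ≤ 7 * Real.log 10000 := by
    have h2 : Real.log ((2 : ℝ) ^ 93) ≤ Real.log ((10000 : ℝ) ^ 7) :=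
      Real.log_le_log (by norm_num) (by norm_num)
    rw [Real.log_pow, Real.log_pow] at h2
    push_cast at h2
    exact h2
  have := Real.log_two_gt_d9
  linarith

/-- sums over prime powers above `c ≥ 121`: error `0.08 c^{-s}`. -/
theorem R_bound_121 (F : Finset ℕ) (c s : ℝ) (hs : 0 < s) (hc : 121 ≤ c)
    (hF : ∀ v ∈ F, IsPrimePow v ∧ c < v) :
    ∑ v ∈ F, (v : ℝ) ^ (-1 - s) ≤ EE (s * Real.log c) + 0.08 * Real.exp (-(s * Real.log c)) := by
  have hc0 : 0 < c := by linarith
  have hL : Real.log 121 ≤ Real.log c := Real.log_le_log (by norm_num) hc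
  have h121 := log_121
  have hgw : gw s c = Real.exp (-(s * Real.log c)) / Real.log c := by
    unfold gw
    rw [Real.rpow_def_of_pos hc0]
    congr 2
    ring
  have hexp := Real.exp_pos (-(s * Real.log c))
  have hn0 : (⌊c⌋₊ : ℝ) ≤ c := Nat.floor_le hc0.le
  have hn1 : c ≤ ⌊c⌋₊ + 1 := (Nat.lt_floor_add_one c).le
  rcases lt_or_ge c 10000 with h | h
  · have hn : 121 ≤ ⌊c⌋₊ := Nat.le_floor (by exact_mod_cast hc)
    have hn' : ⌊c⌋₊ < 10000 := by
      rw [Nat.floor_lt hc0.le]; exact_mod_cast h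
    have he := e1_ge hn
    have he' : (13817 : ℝ) ≤ (e1 ⌊c⌋₊ : ℝ) := by exact_mod_cast he
    have hη : (0 : ℝ) ≤ 0.2569 := by norm_num
    -- use R_bound_gen with a larger error
    have h1 := R_bound_gen F ⌊c⌋₊ 10000 c s 0.2569 0.2264 hs (by omega) (by linarith) hn0 hn1
      (by norm_num) hη (by norm_num) (by
        intro N hN
        by_cases h : 10000 < N
        · rw [if_pos h]
          have := A1_incr_mid (by omega) hn' (by linarith : 0 < c) hn1 h.le
          linarith
        · rw [if_neg h]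
          have := A1_incr_small (by omega) hn' (by linarith : 0 < c) hn1 (by omega : 3 ≤ N) (by omega)
          linarith) hF
    have h2 : gw s (10000 : ℕ) ≤ Real.exp (-(s * Real.log c)) * 0.1087 := by
      have h2' : gw s (10000 : ℕ) ≤ Real.exp (-(s * Real.log c)) / 9.2 := by
        unfold gw
        rw [Real.rpow_def_of_pos (by norm_num)]
        push_cast
        apply div_le_div₀ hexp.le _ (by norm_num) log_10000
        apply Real.exp_le_exp.2
        have : Real.log c ≤ Real.log 10000 := Real.log_le_log hc0 h.le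
        nlinarith
      refine h2'.trans ?_
      rw [div_eq_mul_inv]
      apply mul_le_mul_of_nonneg_left _ hexp.le
      norm_num
    have h3 : gw s c ≤ Real.exp (-(s * Real.log c)) * 0.2093 := by
      have h3' : gw s c ≤ Real.exp (-(s * Real.log c)) / 4.78 := by
        rw [hgw]
        apply div_le_div_of_nonneg_left hexp.le (by norm_num)
        linarith
      refine h3'.trans ?_
      rw [div_eq_mul_inv]
      apply mul_le_mul_of_nonneg_left _ hexp.le
      norm_num
    linarith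
  · have hn : 10000 ≤ ⌊c⌋₊ := Nat.le_floor (by exact_mod_cast h)
    have h1 := R_bound_large F ⌊c⌋₊ c s hs hn hn0 hn1 hF
    have hL2 : Real.log 10000 ≤ Real.log c := Real.log_le_log (by norm_num) h
    have h2 := log_10000
    have h3 : gw s c ≤ Real.exp (-(s * Real.log c)) * 0.1087 := by
      have h3' : gw s c ≤ Real.exp (-(s * Real.log c)) / 9.2 := by
        rw [hgw]
        apply div_le_div_of_nonneg_left hexp.le (by norm_num)
        linarith
      refine h3'.trans ?_
      rw [div_eq_mul_inv]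
      apply mul_le_mul_of_nonneg_left _ hexp.le
      norm_num
    linarith

/-- (FB) -/
theorem FB_bound (VS : Finset ℕ) (S : ℕ → ℝ) (hS1 : ∀ v ∈ VS, S v ≤ 1)
    (hpp : ∀ v ∈ VS, IsPrimePow v) (c u : ℝ) (hc : 121 ≤ c)
    (hV : ∀ v ∈ VS, c < v ∨ S v ≤ 0) (hu : 1 < u) (hlu : Real.log u ≤ 1.5 * Real.log c)
    (s : ℝ) (hs : 0 ≤ s) :
    Real.exp (XX VS S (fun v : ℕ => (v : ℝ)) s) * (1 - u ^ (-s)) ≤ 1.012 := by
  rcases hs.eq_or_lt with h | hs0
  · subst h
    simp only [neg_zero, Real.rpow_zero, sub_self, mul_zero]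
    norm_num
  have hc0 : 0 < c := by linarith
  have hL : 0 < Real.log c := Real.log_pos (by linarith)
  set y := s * Real.log c with hy
  have hy0 : 0 < y := mul_pos hs0 hL
  have h1 : XX VS S (fun v : ℕ => (v : ℝ)) s ≤ EE y + 0.08 * Real.exp (-y) := by
    have h2 := R_bound_121 (VS.filter (fun v : ℕ => c < (v : ℝ))) c s hs0 hc (by
      intro v hv
      rw [mem_filter] at hv
      exact ⟨hpp v hv.1, hv.2⟩)
    refine le_trans ?_ h2
    unfold XX
    rw [← Finset.sum_filter_add_sum_filter_not VS (fun v : ℕ => c < (v : ℝ))]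
    have h3 : ∑ v ∈ VS.filter (fun v : ℕ => c < (v : ℝ)), aa S (fun v : ℕ => (v : ℝ)) v s
        ≤ ∑ v ∈ VS.filter (fun v : ℕ => c < (v : ℝ)), (v : ℝ) ^ (-1 - s) := by
      apply Finset.sum_le_sum
      intro v hv
      obtain ⟨hv1, -⟩ := Finset.mem_filter.1 hv
      unfold aa
      have e : -(1 + s) = -1 - s := by ring
      rw [e]
      exact mul_le_of_le_one_left (Real.rpow_nonneg (by positivity) _) (hS1 v hv1)
    have h4 : ∑ v ∈ VS.filter (fun v : ℕ => ¬ c < (v : ℝ)), aa S (fun v : ℕ => (v : ℝ)) v s ≤ 0 := by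
      apply Finset.sum_nonpos
      intro v hv
      obtain ⟨hv1, hv2⟩ := Finset.mem_filter.1 hv
      unfold aa
      apply mul_nonpos_of_nonpos_of_nonneg _ (Real.rpow_nonneg (by positivity) _)
      rcases hV v hv1 with h | h
      · exact absurd h hv2
      · exact h
    linarith
  have h2 : 1 - u ^ (-s) ≤ 1 - Real.exp (-(3 / 2 * y)) := by
    have : Real.exp (-(3 / 2 * y)) ≤ u ^ (-s) := by
      rw [Real.rpow_def_of_pos (by linarith)]
      apply Real.exp_le_exp.2
      rw [hy]
      nlinarith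
    linarith
  have h3 : 0 < 1 - Real.exp (-(3 / 2 * y)) := by
    linarith [lt_one_aux hy0]
  have h4 : 0 ≤ 1 - u ^ (-s) := by
    have := Real.rpow_le_one_of_one_le_of_nonpos hu.le (show -s ≤ 0 by linarith)
    linarith
  calc Real.exp (XX VS S (fun v : ℕ => (v : ℝ)) s) * (1 - u ^ (-s))
      ≤ Real.exp (EE y + 0.08 * Real.exp (-y)) * (1 - Real.exp (-(3 / 2 * y))) :=
        mul_le_mul (Real.exp_le_exp.2 h1) h2 h4 (Real.exp_pos _).le
    _ = Real.exp (LK 0.08 y) := by
        unfold LK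
        rw [show EE y + Real.log (1 - Real.exp (-(3 / 2 * y))) + 0.08 * Real.exp (-y)
          = EE y + 0.08 * Real.exp (-y) + Real.log (1 - Real.exp (-(3 / 2 * y))) by ring,
          Real.exp_add _ (Real.log _), Real.exp_log h3]
    _ ≤ Real.exp (Real.log 1.012) := Real.exp_le_exp.2 (K15 hy0)
    _ = 1.012 := Real.exp_log (by norm_num)

end

end Pool.Agent.EZ
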