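import Pool.Agent.EZ.LP

/-!
# The supremum bound with time dependent second visits
-/

set_option autoImplicit false
set_option linter.unusedSectionVars false

namespace Pool.Agent.EZ

open Finset Filter Topology

variable {V ι : Type*} [DecidableEq V] [DecidableEq ι]

theorem Y_le_kappa (π : V → ι) (K κ : ℝ) (hK0 : 0 ≤ K) (hκ : 0 ≤ κ) :
    ∀ t : List (V × ℝ × ℝ), Val t →
    (∀ x t', (x :: t') <:+ t → x.2.2 ≤ K ∧ ∃ ρ : ℝ, 0 ≤ ρ ∧ ρ < 1 ∧ Good π ρ t' ∧
      x.2.2 + K * (ρ / (1 - ρ)) ≤ κ) →
    ∀ D : Set (Finset V), QP π D → Y t D ≤ κ * Pr t (ind (up D)) := by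
  intro t
  induction t with
  | nil =>
    intro _ _ D _
    simp only [Y, Pr]
    exact mul_nonneg hκ (ind_nonneg _ _)
  | cons x t ih =>
    intro ht h D hQ
    obtain ⟨h0, h1⟩ := ht.head
    have ih' := ih ht.tail (fun y t' hy => h y t' (hy.trans (List.suffix_cons x t)))
    obtain ⟨hgK, ρ, hρ0, hρ1, hgood, hκx⟩ := h x t List.suffix_rfl
    have h1ρ : 0 < 1 - ρ := by linarith
    have hpay : ∀ y ∈ t, y.2.2 ≤ K := by
      intro y hy
      obtain ⟨p, q, hpq⟩ := List.append_of_mem hy
      exact (h y q (by rw [hpq]; exact ⟨x :: p, by simp⟩)).1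
    simp only [Y, Pr]
    have e1 := mul_le_mul_of_nonneg_left (ih' D hQ) (sub_nonneg.2 h1)
    have e2 : x.2.2 * ind D {x.1} + Y t (lk x.1 D)
        ≤ κ * Pr t (fun S => ind (up D) (insert x.1 S)) := by
      by_cases hx : ({x.1} : Finset V) ∈ D
      · rw [ind_of_mem hx, mul_one]
        have e3 : Pr t (fun S => ind (up D) (insert x.1 S)) = 1 := by
          have : (fun S : Finset V => ind (up D) (insert x.1 S)) = fun _ => 1 := by
            funext S
            exact ind_of_mem ⟨_, hx, by simp⟩
          rw [this, Pr_const]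
        rw [e3, mul_one]
        have s1 : Y t (lk x.1 D) ≤ K * Ac t (lk x.1 D) := Y_le_sup K t ht.tail hpay _
        have e4 := count π ρ hρ1 t ht.tail hgood (lk x.1 D \ {∅})
          (QP_subset (QP_lk hQ x.1) Set.sdiff_subset)
        rw [Ac_diff_empty] at e4
        have e5 := hgood t (List.suffix_refl _) _ (Inter_lk hQ x.1 hx)
        have e6 : Ac t (lk x.1 D) ≤ 1 / (1 - ρ) * ρ :=
          e4.trans (mul_le_mul_of_nonneg_left e5 (by positivity))
        have e8 := mul_le_mul_of_nonneg_left e6 hK0
        have e9 : 1 / (1 - ρ) * ρ = ρ / (1 - ρ) := by ring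
        rw [e9] at e8
        linarith
      · rw [ind_of_not_mem hx, mul_zero, zero_add]
        refine (ih' _ (QP_lk hQ x.1)).trans ?_
        exact mul_le_mul_of_nonneg_left (Pr_mono t ht.tail _ _ (up_lk x.1 D)) hκ
    have e3 := mul_le_mul_of_nonneg_left e2 h0
    linarith

theorem tt_split (VL : List V) (δ : ℕ → V → ℝ) (g : ℕ → ℝ) : ∀ (N : ℕ) (p : List (V × ℝ × ℝ))
    (x : V × ℝ × ℝ) (t' : List (V × ℝ × ℝ)), tt VL δ g N = p ++ x :: t' →
    ∃ j < N, x.2.2 = g j ∧ x.1 ∈ VL ∧ ∃ p', p = tt VL δ g j ++ p' := by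
  intro N
  induction N with
  | zero => intro p x t' h; simp [tt] at h
  | succ N ih =>
    intro p x t' h
    simp only [tt] at h
    rcases List.append_eq_append_iff.1 h with ⟨a', h1, h2⟩ | ⟨c', h1, h2⟩
    · refine ⟨N, by omega, ?_, ?_, a', h1⟩
      · have hx : x ∈ rnd VL (δ N) (g N) := by rw [h2]; simp
        obtain ⟨v, -, rfl⟩ := List.mem_map.1 hx
        rfl
      · have hx : x ∈ rnd VL (δ N) (g N) := by rw [h2]; simp
        obtain ⟨v, hv, rfl⟩ := List.mem_map.1 hx
        exact hv
    · cases c' with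
      | nil =>
        simp only [List.append_nil, List.nil_append] at h1 h2
        have hx : x ∈ rnd VL (δ N) (g N) := by rw [← h2]; simp
        obtain ⟨v, hv, hvx⟩ := List.mem_map.1 hx
        refine ⟨N, by omega, ?_, ?_, [], by rw [h1]; simp⟩
        · rw [← hvx]
        · rw [← hvx]; exact hv
      | cons y c'' =>
        simp only [List.cons_append, List.cons.injEq] at h2
        obtain ⟨h3, h4⟩ := h2
        rw [← h3] at h1
        obtain ⟨j, hj, h5, h6, h7⟩ := ih p x c'' h1
        exact ⟨j, by omega, h5, h6, h7⟩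

/-- the resolution error. -/
noncomputable def e2 (VS : Finset V) (S val : V → ℝ) (η : ℝ) : ℝ :=
  ∑ v ∈ VS, S v / val v * (1 - val v ^ (-η))

theorem aa_diff (S val : V → ℝ) (v : V) (hv : 1 < val v) (s : ℝ) :
    aa S val v 0 - aa S val v s = S v / val v * (1 - val v ^ (-s)) := by
  have h0 : 0 < val v := by linarith
  unfold aa
  rw [add_zero, neg_add, Real.rpow_add h0, Real.rpow_neg_one]
  ring

theorem surv_tt_split (π : V → ι) (r : ι) (t p' : List (V × ℝ × ℝ)) (x : V × ℝ × ℝ)
    (t' : List (V × ℝ × ℝ)) (hv : Val (t ++ p' ++ x :: t')) :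
    surv π r (t ++ p' ++ x :: t') ≤ surv π r t * surv π r t' := by
  have hv1 : Val t := fun y hy => hv y (by simp [hy])
  have hv2 : Val p' := fun y hy => hv y (by simp [hy])
  have hv3 : Val [x] := fun y hy => hv y (by
    rw [List.mem_singleton.1 hy]; simp)
  have hv4 : Val t' := fun y hy => hv y (by simp [hy])
  have e : t ++ p' ++ x :: t' = t ++ (p' ++ ([x] ++ t')) := by simp
  rw [e, surv_append, surv_append, surv_append]
  have a1 := surv_nonneg π r t hv1
  have a2 := surv_nonneg π r p' hv2
  have a3 := surv_nonneg π r [x] hv3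
  have a4 := surv_nonneg π r t' hv4
  have b2 := surv_le_one π r p' hv2
  have b3 := surv_le_one π r [x] hv3
  apply mul_le_mul_of_nonneg_left _ a1
  calc surv π r p' * (surv π r [x] * surv π r t') ≤ 1 * (1 * surv π r t') := by
        apply mul_le_mul b2 _ (mul_nonneg a3 a4) zero_le_one
        exact mul_le_mul_of_nonneg_right b3 a4
    _ = _ := by ring

/-- κ*-bound, nonempty members. -/
theorem kappa_bound_ne (π : V → ι) (VS : Finset V) (S val : V → ℝ) (hS : ∀ v ∈ VS, 0 ≤ S v)
    (hval : ∀ v ∈ VS, 1 < val v) (u : ℝ) (hu : 1 < u) (K κ Ω : ℝ) (ξ : ℝ → ℝ)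
    (hΩ0 : 0 ≤ Ω) (hξ0 : ∀ s, 0 ≤ s → 0 ≤ ξ s)
    (hΩ : ∀ r, ∑ v ∈ VS.filter (fun v => π v = r), S v / val v ≤ Ω) (hΩ2 : Real.exp Ω ≤ 2)
    (hK : ∀ s, 0 ≤ s → Real.exp (XX VS S val s) * (1 - u ^ (-s)) ≤ K)
    (hξ : ∀ s : ℝ, 0 ≤ s → ∀ r, ∑ v ∈ VS.filter (fun v => π v = r),
      S v / val v * (1 - val v ^ (-s)) ≤ ξ s)
    (hκ : ∀ s, 0 ≤ s → Real.exp (XX VS S val s) * (1 - u ^ (-s)) + K * (Real.exp (ξ s) - 1) ≤ κ)
    (hκ2 : 1 + K * (Real.exp Ω - 1) ≤ κ)
    (D : Finset (Finset V)) (hD : QP π (↑D : Set (Finset V)))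
    (hne : ∀ m ∈ D, m.Nonempty ∧ m ⊆ VS) :
    ∑ m ∈ D, (∏ v ∈ m, S v) * hh (u * ∏ v ∈ m, val v) ≤ hh u * κ * PU VS S val ↑D := by
  have hlog : 0 < Real.log u := Real.log_pos hu
  have hhu : 0 ≤ hh u := by unfold hh; positivity
  have hM : ∀ m ∈ D, 1 ≤ ∏ v ∈ m, val v := fun m hm => by
    have := Finset.prod_le_prod (s := m) (f := fun _ => (1 : ℝ)) (g := val)
      (fun _ _ => zero_le_one) (fun v hv => (hval v ((hne m hm).2 hv)).le)
    simpa using this
  have hK0 : 0 ≤ K := by
    have := hK 0 le_rfl
    simpa using this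
  have hκ1 : 1 ≤ κ := by
    have : 1 ≤ Real.exp Ω := Real.one_le_exp hΩ0
    have := mul_nonneg hK0 (sub_nonneg.2 this)
    linarith
  have hG0 : ∀ s : ℝ, 0 ≤ s → 0 ≤ Real.exp (XX VS S val s) * (1 - u ^ (-s)) := by
    intro s hs
    have := Real.rpow_le_one_of_one_le_of_nonpos hu.le (show -s ≤ 0 by linarith)
    exact mul_nonneg (Real.exp_pos _).le (by linarith)
  have hpos : ∀ v ∈ VS, ∀ s : ℝ, 0 ≤ s → 0 ≤ S v / val v * (1 - val v ^ (-s)) := by
    intro v hv s hs
    have h0 : 0 < val v := by linarith [hval v hv]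
    have := Real.rpow_le_one_of_one_le_of_nonpos (hval v hv).le (show -s ≤ 0 by linarith)
    exact mul_nonneg (div_nonneg (hS v hv) h0.le) (by linarith)
  have he2 : ∀ η : ℝ, 0 ≤ η → 0 ≤ e2 VS S val η := fun η hη =>
    Finset.sum_nonneg fun v hv => hpos v hv η hη
  have hP0 : 0 ≤ PU VS S val ↑D := PU_nonneg _ S val hS hval _
  -- the discretised bound
  have key : ∀ (n : ℕ) (η : ℝ), 0 < η →
      ∑ m ∈ D, (∏ v ∈ m, S v) * LL u (∏ v ∈ m, val v) n η
        ≤ hh u * (κ + ((Real.exp (XX VS S val (n * η)) - 1)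
          + (κ + K) * (Real.exp (e2 VS S val η) - 1))) * PU VS S val ↑D := by
    intro n η hη
    set err := (Real.exp (XX VS S val (n * η)) - 1)
          + (κ + K) * (Real.exp (e2 VS S val η) - 1) with herr
    have herr1 : 0 ≤ Real.exp (XX VS S val (n * η)) - 1 := by
      have : 0 ≤ XX VS S val (n * η) :=
        Finset.sum_nonneg fun v hv => aa_nonneg S val v (hS v hv) (hval v hv) _
      linarith [Real.one_le_exp this]
    have herr2 : 0 ≤ (κ + K) * (Real.exp (e2 VS S val η) - 1) := by
      have := Real.one_le_exp (he2 η hη.le)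
      exact mul_nonneg (by linarith) (by linarith)
    set t := tt VS.toList (dl S val n η) (gg VS S val u n η) (n + 1) with htdef
    have htv : ∀ x ∈ t, 0 ≤ x.2.1 ∧ x.2.1 < 1 :=
      tt_val VS.toList (dl S val n η) _ (fun j v hv => by
        rw [Finset.mem_toList] at hv
        exact dl_nonneg S val n η hη.le j v (hS v hv) (hval v hv)) (n + 1)
    have htV : Val t := fun x hx => ⟨(htv x hx).1, (htv x hx).2.le⟩
    have hgg : ∀ j, gg VS S val u n η j
        = hh u * (Real.exp (XX VS S val (sg n η j)) * (1 - u ^ (-(sg n η j)))) := by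
      intro j; unfold gg uu; ring
    have hsuffix : ∀ x t', (x :: t') <:+ t → x.2.2 ≤ hh u * K ∧ ∃ ρ : ℝ, 0 ≤ ρ ∧ ρ < 1 ∧
        Good π ρ t' ∧ x.2.2 + (hh u * K) * (ρ / (1 - ρ)) ≤ hh u * (κ + err) := by
      intro x t' hxt
      obtain ⟨p, hp⟩ := hxt
      obtain ⟨j, hj, hxj, hxV, p', hp'⟩ := tt_split _ _ _ _ p x t' (by rw [hp])
      have hsj : 0 ≤ sg n η j := sg_nonneg n η hη.le j
      have hx1 : x.2.2 ≤ hh u * K := by
        rw [hxj, hgg]
        exact mul_le_mul_of_nonneg_left (hK _ hsj) hhu
      refine ⟨hx1, ?_⟩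
      -- the survival probabilities of the tail
      have hdec : t = tt VS.toList (dl S val n η) (gg VS S val u n η) j ++ p' ++ x :: t' := by
        rw [← hp, hp']
      have hsurv : ∀ r, surv π r t
          ≤ surv π r (tt VS.toList (dl S val n η) (gg VS S val u n η) j) * surv π r t' := by
        intro r
        rw [hdec]
        apply surv_tt_split
        rw [← hdec]
        exact htV
      have hsT : ∀ r, surv π r t = Real.exp (-∑ v ∈ VS.filter (fun v => π v = r), S v / val v) := by
        intro r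
        rw [htdef, surv_dl]
        have h0 : sg n η n = 0 := by simp [sg]
        rw [h0]
        simp only [aa_zero]
      -- choose τ
      obtain ⟨τ, hτ0, hτΩ, hτs, hτκ⟩ : ∃ τ : ℝ, 0 ≤ τ ∧ τ ≤ Ω ∧
          (∀ r, Real.exp (-τ) ≤ surv π r t') ∧
          Real.exp (XX VS S val (sg n η j)) * (1 - u ^ (-(sg n η j))) + K * (Real.exp τ - 1)
            ≤ κ + err := by
        cases j with
        | zero =>
          refine ⟨Ω, hΩ0, le_rfl, ?_, ?_⟩
          · intro r
            have h1 := hsurv r
            rw [hsT r] at h1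
            simp only [tt, surv, one_mul] at h1
            refine le_trans ?_ h1
            exact Real.exp_le_exp.2 (by linarith [hΩ r])
          · have h0 : sg n η 0 = n * η := by simp [sg]
            rw [h0]
            have h1 : Real.exp (XX VS S val (n * η)) * (1 - u ^ (-((n : ℝ) * η)))
                ≤ Real.exp (XX VS S val (n * η)) := by
              have : 0 ≤ u ^ (-((n : ℝ) * η)) := Real.rpow_nonneg (by linarith) _
              have h2 := Real.exp_pos (XX VS S val (n * η))
              nlinarith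
            linarith
        | succ j =>
          have hstep : sg n η j = sg n η (j + 1) + η := by
            unfold sg
            have h2 : (n - j : ℕ) = (n - (j + 1)) + 1 := by omega
            rw [h2]; push_cast; ring
          have hrem : ∀ r, ∑ v ∈ VS.filter (fun v => π v = r),
              S v / val v * (1 - val v ^ (-(sg n η j)))
              ≤ ξ (sg n η (j + 1)) + e2 VS S val η := by
            intro r
            have h1 := hξ _ hsj r
            calc ∑ v ∈ VS.filter (fun v => π v = r), S v / val v * (1 - val v ^ (-(sg n η j)))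
                ≤ ∑ v ∈ VS.filter (fun v => π v = r), (S v / val v * (1 - val v ^ (-(sg n η (j + 1))))
                    + S v / val v * (1 - val v ^ (-η))) := by
                  apply Finset.sum_le_sum
                  intro v hv
                  have hv' := (Finset.mem_filter.1 hv).1
                  have h0 : 0 < val v := by linarith [hval v hv']
                  rw [← mul_add]
                  apply mul_le_mul_of_nonneg_left _ (div_nonneg (hS v hv') h0.le)
                  rw [hstep, neg_add, Real.rpow_add h0]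
                  have a1 := Real.rpow_le_one_of_one_le_of_nonpos (hval v hv').le
                    (show -(sg n η (j + 1)) ≤ 0 by linarith)
                  have a2 := Real.rpow_le_one_of_one_le_of_nonpos (hval v hv').le
                    (show -η ≤ 0 by linarith)
                  have a3 := Real.rpow_nonneg h0.le (-(sg n η (j + 1)))
                  have a4 := Real.rpow_nonneg h0.le (-η)
                  nlinarith
              _ = ∑ v ∈ VS.filter (fun v => π v = r), S v / val v * (1 - val v ^ (-(sg n η (j + 1))))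
                    + ∑ v ∈ VS.filter (fun v => π v = r), S v / val v * (1 - val v ^ (-η)) :=
                  Finset.sum_add_distrib
              _ ≤ _ := by
                  apply add_le_add h1
                  exact Finset.sum_le_sum_of_subset_of_nonneg (Finset.filter_subset _ _)
                    fun v hv _ => hpos v hv η hη.le
          refine ⟨min Ω (ξ (sg n η (j + 1)) + e2 VS S val η), ?_, min_le_left _ _, ?_, ?_⟩
          · exact le_min hΩ0 (add_nonneg (hξ0 _ hsj) (he2 η hη.le))
          · intro r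
            have h1 := hsurv r
            rw [hsT r, surv_dl] at h1
            have h2 : Real.exp (-∑ v ∈ VS.filter (fun v => π v = r),
                S v / val v * (1 - val v ^ (-(sg n η j)))) ≤ surv π r t' := by
              have h3 : Real.exp (-∑ v ∈ VS.filter (fun v => π v = r), S v / val v)
                  = Real.exp (-∑ v ∈ VS.filter (fun v => π v = r), aa S val v (sg n η j))
                    * Real.exp (-∑ v ∈ VS.filter (fun v => π v = r),
                      S v / val v * (1 - val v ^ (-(sg n η j)))) := by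
                rw [← Real.exp_add, ← neg_add, ← Finset.sum_add_distrib]
                congr 2
                apply Finset.sum_congr rfl
                intro v hv
                rw [← aa_diff S val v (hval v (Finset.mem_filter.1 hv).1), aa_zero]
                ring
              rw [h3] at h1
              exact le_of_mul_le_mul_left h1 (Real.exp_pos _)
            have h4 : Real.exp (-Ω) ≤ surv π r t' := by
              refine le_trans ?_ h2
              apply Real.exp_le_exp.2
              have h5 : ∑ v ∈ VS.filter (fun v => π v = r), S v / val v * (1 - val v ^ (-(sg n η j)))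
                  ≤ ∑ v ∈ VS.filter (fun v => π v = r), S v / val v := by
                apply Finset.sum_le_sum
                intro v hv
                have hv' := (Finset.mem_filter.1 hv).1
                have h0 : 0 < val v := by linarith [hval v hv']
                apply mul_le_of_le_one_right (div_nonneg (hS v hv') h0.le)
                linarith [Real.rpow_nonneg h0.le (-(sg n η j))]
              linarith [hΩ r]
            rcases min_choice Ω (ξ (sg n η (j + 1)) + e2 VS S val η) with h6 | h6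
            · rw [h6]; exact h4
            · rw [h6]
              refine le_trans ?_ h2
              exact Real.exp_le_exp.2 (by linarith [hrem r])
          · have h1 := hκ _ hsj
            have h2 : Real.exp (min Ω (ξ (sg n η (j + 1)) + e2 VS S val η))
                ≤ Real.exp (ξ (sg n η (j + 1))) * Real.exp (e2 VS S val η) := by
              rw [← Real.exp_add]
              exact Real.exp_le_exp.2 (min_le_right _ _)
            have h3 : K * Real.exp (ξ (sg n η (j + 1))) ≤ κ + K := by
              have := hG0 _ hsj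
              linarith
            have h4 := Real.one_le_exp (he2 η hη.le)
            have h5 := mul_le_mul_of_nonneg_left h2 hK0
            have h6 := mul_le_mul_of_nonneg_right h3 (sub_nonneg.2 h4)
            nlinarith
      refine ⟨1 - Real.exp (-τ), ?_, ?_, ?_, ?_⟩
      · have : Real.exp (-τ) ≤ 1 := Real.exp_le_one_iff.2 (by linarith)
        linarith
      · linarith [Real.exp_pos (-τ)]
      · have ht'V : Val t' := fun y hy => htV y (by rw [hdec]; simp [hy])
        apply good_of_surv π (VS.image π).toList (Finset.nodup_toList _) t' ht'V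
        · intro y hy
          rw [Finset.mem_toList]
          apply Finset.mem_image_of_mem
          rw [← Finset.mem_toList]
          have hyt : y ∈ t := by rw [hdec]; simp [hy]
          exact (tt_mem _ _ _ _ y hyt).1
        · have : Real.exp (-τ) ≤ 1 := Real.exp_le_one_iff.2 (by linarith)
          linarith
        · have h1 : Real.exp (-Ω) ≤ Real.exp (-τ) := Real.exp_le_exp.2 (by linarith)
          have h2 : Real.exp (-Ω) = (Real.exp Ω)⁻¹ := Real.exp_neg Ω
          have h3 : (2 : ℝ)⁻¹ ≤ (Real.exp Ω)⁻¹ := inv_anti₀ (Real.exp_pos _) hΩ2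
          linarith
        · intro r _
          linarith [hτs r]
      · rw [hxj, hgg]
        have h1 : (1 - Real.exp (-τ)) / (1 - (1 - Real.exp (-τ))) = Real.exp τ - 1 := by
          have h2 : Real.exp (-τ) ≠ 0 := (Real.exp_pos _).ne'
          have h3 : Real.exp τ * Real.exp (-τ) = 1 := by rw [← Real.exp_add]; simp
          rw [sub_sub_cancel, div_eq_iff h2]
          linarith
        rw [h1]
        calc _ = hh u * (Real.exp (XX VS S val (sg n η j)) * (1 - u ^ (-(sg n η j)))
              + K * (Real.exp τ - 1)) := by ring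
          _ ≤ _ := mul_le_mul_of_nonneg_left hτκ hhu
    have herr0 : 0 ≤ err := by linarith
    calc ∑ m ∈ D, (∏ v ∈ m, S v) * LL u (∏ v ∈ m, val v) n η
        ≤ ∑ m ∈ D, Y t {m} := Finset.sum_le_sum fun m hm =>
          lower VS S val hS hval u hu n η hη.le m (hne m hm).1 (hne m hm).2
      _ = Y t ↑D := (Y_finset t D).symm
      _ ≤ hh u * (κ + err) * Pr t (ind (up ↑D)) :=
          Y_le_kappa π (hh u * K) (hh u * (κ + err)) (by positivity)
            (mul_nonneg hhu (by linarith)) t htV hsuffix ↑D hD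
      _ = _ := by rw [htdef, Pr_dl]; rfl
  -- first limit
  have key2 : ∀ η : ℝ, 0 < η → ∑ m ∈ D, (∏ v ∈ m, S v) * LI u (∏ v ∈ m, val v) η
        ≤ hh u * (κ + (0 + (κ + K) * (Real.exp (e2 VS S val η) - 1))) * PU VS S val ↑D := by
    intro η hη
    have h1 : Tendsto (fun n => ∑ m ∈ D, (∏ v ∈ m, S v) * LL u (∏ v ∈ m, val v) n η) atTop
        (𝓝 (∑ m ∈ D, (∏ v ∈ m, S v) * LI u (∏ v ∈ m, val v) η)) :=
      tendsto_finsetSum _ fun m hm => (tendsto_LL u _ hu (hM m hm) η hη).const_mul _
    have h3 : Tendsto (fun n : ℕ => XX VS S val (n * η)) atTop (𝓝 0) := by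
      have : Tendsto (fun n : ℕ => XX VS S val (n * η)) atTop (𝓝 (∑ v ∈ VS, S v * 0)) := by
        apply tendsto_finsetSum
        intro v hv
        apply Tendsto.const_mul
        have h0 : 0 < val v := by linarith [hval v hv]
        have ha : ∀ n : ℕ, val v ^ (-(1 + (n : ℝ) * η)) = (val v)⁻¹ * (val v ^ (-η)) ^ n := by
          intro n
          rw [← Real.rpow_natCast, ← Real.rpow_mul h0.le, ← Real.rpow_neg_one, ← Real.rpow_add h0]
          congr 1; ring
        simp only [ha]
        have h5 : val v ^ (-η) < 1 := Real.rpow_lt_one_of_one_lt_of_neg (hval v hv) (by linarith)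
        have h6 := (tendsto_pow_atTop_nhds_zero_of_lt_one (Real.rpow_nonneg h0.le _) h5).const_mul (val v)⁻¹
        simpa using h6
      simpa using this
    have h4 : Tendsto (fun n : ℕ => Real.exp (XX VS S val (n * η)) - 1) atTop (𝓝 0) := by
      have := ((Real.continuous_exp.tendsto _).comp h3).sub_const 1
      simpa using this
    have h5 := (((h4.add_const ((κ + K) * (Real.exp (e2 VS S val η) - 1))).const_add κ).const_mul
      (hh u)).mul_const (PU VS S val ↑D)
    exact le_of_tendsto_of_tendsto' h1 h5 fun n => key n η hη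
  have h1 : Tendsto (fun η => ∑ m ∈ D, (∏ v ∈ m, S v) * LI u (∏ v ∈ m, val v) η) (𝓝[>] 0)
      (𝓝 (∑ m ∈ D, (∏ v ∈ m, S v) * hh (u * ∏ v ∈ m, val v))) :=
    tendsto_finsetSum _ fun m hm => (tendsto_LI u _ hu (hM m hm)).const_mul _
  have h3 : Tendsto (fun η : ℝ => Real.exp (e2 VS S val η) - 1) (𝓝[>] 0) (𝓝 0) := by
    have h4 : Tendsto (fun η : ℝ => e2 VS S val η) (𝓝[>] 0) (𝓝 0) := by
      have : Tendsto (fun η : ℝ => ∑ v ∈ VS, S v / val v * (1 - val v ^ (-η))) (𝓝[>] 0)
          (𝓝 (∑ v ∈ VS, S v / val v * (1 - val v ^ (-(0:ℝ))))) := by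
        apply tendsto_finsetSum
        intro v hv
        apply Tendsto.const_mul
        apply Tendsto.const_sub
        apply Tendsto.mono_left _ nhdsWithin_le_nhds
        apply ContinuousAt.tendsto
        apply ContinuousAt.rpow continuousAt_const
        · fun_prop
        · left; linarith [hval v hv]
      simpa [e2] using this
    have := ((Real.continuous_exp.tendsto _).comp h4).sub_const 1
    simpa using this
  have h5 := ((((h3.const_mul (κ + K)).const_add 0).const_add κ).const_mul (hh u)).mul_const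
    (PU VS S val ↑D)
  simp only [mul_zero, add_zero] at h5
  refine le_of_tendsto_of_tendsto h1 h5 ?_
  filter_upwards [self_mem_nhdsWithin] with η hη
  exact key2 η hη

/-- **κ*-bound.** -/
theorem kappa_bound (π : V → ι) (VS : Finset V) (S val : V → ℝ) (hS : ∀ v ∈ VS, 0 ≤ S v)
    (hval : ∀ v ∈ VS, 1 < val v) (u : ℝ) (hu : 1 < u) (K κ Ω : ℝ) (ξ : ℝ → ℝ)
    (hΩ0 : 0 ≤ Ω) (hξ0 : ∀ s, 0 ≤ s → 0 ≤ ξ s)
    (hΩ : ∀ r, ∑ v ∈ VS.filter (fun v => π v = r), S v / val v ≤ Ω) (hΩ2 : Real.exp Ω ≤ 2)
    (hK : ∀ s, 0 ≤ s → Real.exp (XX VS S val s) * (1 - u ^ (-s)) ≤ K)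
    (hξ : ∀ s : ℝ, 0 ≤ s → ∀ r, ∑ v ∈ VS.filter (fun v => π v = r),
      S v / val v * (1 - val v ^ (-s)) ≤ ξ s)
    (hκ : ∀ s, 0 ≤ s → Real.exp (XX VS S val s) * (1 - u ^ (-s)) + K * (Real.exp (ξ s) - 1) ≤ κ)
    (hκ2 : 1 + K * (Real.exp Ω - 1) ≤ κ)
    (D : Finset (Finset V)) (hD : QP π (↑D : Set (Finset V)))
    (hne : ∀ m ∈ D, m ⊆ VS) :
    ∑ m ∈ D, (∏ v ∈ m, S v) * hh (u * ∏ v ∈ m, val v) ≤ hh u * κ * PU VS S val ↑D := by
  have hlog : 0 < Real.log u := Real.log_pos hu
  have hhu : 0 ≤ hh u := by unfold hh; positivity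
  have hK0 : 0 ≤ K := by
    have := hK 0 le_rfl
    simpa using this
  by_cases he : ∅ ∈ D
  · rw [PU_empty_mem VS S val ↑D (by exact_mod_cast he), mul_one]
    rw [← Finset.insert_erase he, Finset.sum_insert (Finset.notMem_erase _ _)]
    simp only [Finset.prod_empty, mul_one, one_mul]
    have hexpΩ : Real.exp (-Ω) = (Real.exp Ω)⁻¹ := Real.exp_neg Ω
    have h2inv : (2 : ℝ)⁻¹ ≤ (Real.exp Ω)⁻¹ := inv_anti₀ (Real.exp_pos _) hΩ2
    have hle1 : Real.exp (-Ω) ≤ 1 := Real.exp_le_one_iff.2 (by linarith)
    have hr : ∀ r, 1 - (1 - Real.exp (-Ω))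
        ≤ Real.exp (-∑ v ∈ VS.filter (fun v => π v = r), S v / val v) := by
      intro r
      have : Real.exp (-Ω) ≤ Real.exp (-∑ v ∈ VS.filter (fun v => π v = r), S v / val v) :=
        Real.exp_le_exp.2 (by linarith [hΩ r])
      linarith
    have h1 := sup_bound_ne π VS S val hS hval u hu K (1 - Real.exp (-Ω)) (by linarith)
      (by linarith) hr hK (D.erase ∅)
      (QP_subset hD (by intro m hm; exact Finset.mem_of_mem_erase (by exact_mod_cast hm)))
      (fun m hm => ⟨Finset.nonempty_iff_ne_empty.2 (Finset.ne_of_mem_erase hm),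
        hne m (Finset.mem_of_mem_erase hm)⟩)
    have h2 : PU VS S val ↑(D.erase ∅) ≤ 1 - Real.exp (-Ω) := by
      apply PU_le_of_inter π VS S val hS hval (1 - Real.exp (-Ω)) (by linarith) (by linarith) hr
      intro m hm m' hm'
      have hm1 := Finset.mem_of_mem_erase (Finset.mem_coe.1 hm)
      have hm1' := Finset.mem_of_mem_erase (Finset.mem_coe.1 hm')
      have hm2 := Finset.ne_of_mem_erase (Finset.mem_coe.1 hm)
      have hm2' := Finset.ne_of_mem_erase (Finset.mem_coe.1 hm')
      have := hD ∅ (by exact_mod_cast he) m (by exact_mod_cast hm1) m' (by exact_mod_cast hm1')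
        (Finset.empty_ssubset.2 (Finset.nonempty_iff_ne_empty.2 hm2))
        (Finset.empty_ssubset.2 (Finset.nonempty_iff_ne_empty.2 hm2'))
      simpa using this
    have hinv : 1 / (1 - (1 - Real.exp (-Ω))) = Real.exp Ω := by
      rw [sub_sub_cancel, hexpΩ, one_div, inv_inv]
    rw [hinv] at h1
    have h3 : hh u * K * (Real.exp Ω * PU VS S val ↑(D.erase ∅))
        ≤ hh u * K * (Real.exp Ω * (1 - Real.exp (-Ω))) := by
      apply mul_le_mul_of_nonneg_left _ (by positivity)
      exact mul_le_mul_of_nonneg_left h2 (Real.exp_pos _).le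
    have h4 : Real.exp Ω * (1 - Real.exp (-Ω)) = Real.exp Ω - 1 := by
      have h3 : Real.exp Ω * Real.exp (-Ω) = 1 := by rw [← Real.exp_add]; simp
      linarith
    rw [h4] at h3
    have h5 := mul_le_mul_of_nonneg_left hκ2 hhu
    calc hh u + ∑ m ∈ D.erase ∅, (∏ v ∈ m, S v) * hh (u * ∏ v ∈ m, val v)
        ≤ hh u + hh u * K * (Real.exp Ω - 1) := by linarith
      _ = hh u * (1 + K * (Real.exp Ω - 1)) := by ring
      _ ≤ hh u * κ := h5
  · exact kappa_bound_ne π VS S val hS hval u hu K κ Ω ξ hΩ0 hξ0 hΩ hΩ2 hK hξ hκ hκ2 D hD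
      (fun m hm => ⟨Finset.nonempty_iff_ne_empty.2 (fun h => he (h ▸ hm)), hne m hm⟩)

end Pool.Agent.EZ
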