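import Pool.Agent.EZ.LP
import Pool.Agent.EZ.Kappa

/-!
# The suffix linear program with same-prime exclusion

Components are ordered in a list; a member of the family is charged to its first component `v`
and what remains is a quasi-primitive family over the root `z * val v`, whose components come
after `v` and lie over other primes.
-/

set_option autoImplicit false
set_option linter.unusedSectionVars false
set_option linter.unusedVariables false

namespace Pool.Agent.EZ

open Finset

variable {V ι : Type*} [DecidableEq V] [DecidableEq ι]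

/-! ### dependence of `PU` on the set of components -/

theorem ExL_filter_eq (p : V → ℝ) (P : V → Prop) [DecidablePred P] : ∀ (l : List V)
    (f : Finset V → ℝ), (∀ a ∈ l, ¬ P a → ∀ T, f (insert a T) = f T) →
    ExL (l.filter (fun a => decide (P a))) p f = ExL l p f := by
  intro l
  induction l with
  | nil => intro f _; rfl
  | cons a l ih =>
    intro f hf
    by_cases hP : P a
    · rw [List.filter_cons_of_pos (by simpa using hP)]
      show (1 - p a) * ExL (l.filter (fun a => decide (P a))) p f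
          + p a * ExL (l.filter (fun a => decide (P a))) p (fun T => f (insert a T))
        = (1 - p a) * ExL l p f + p a * ExL l p (fun T => f (insert a T))
      rw [ih f (fun b hb => hf b (List.mem_cons_of_mem _ hb)), ih (fun T => f (insert a T))]
      intro b hb hPb T
      show f (insert a (insert b T)) = f (insert a T)
      rw [Finset.insert_comm]
      exact hf b (List.mem_cons_of_mem _ hb) hPb _
    · rw [List.filter_cons_of_neg (by simpa using hP)]
      show ExL (l.filter (fun a => decide (P a))) p f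
        = (1 - p a) * ExL l p f + p a * ExL l p (fun T => f (insert a T))
      rw [ih f (fun b hb => hf b (List.mem_cons_of_mem _ hb))]
      have : (fun T => f (insert a T)) = f := by
        ext T; exact hf a List.mem_cons_self hP T
      rw [this]
      ring

/-- irrelevant components can be dropped. -/
theorem PU_subset_eq (VS VS' : Finset V) (hVS : VS' ⊆ VS) (S val : V → ℝ) (D : Set (Finset V))
    (hD : ∀ m ∈ D, m ⊆ VS') : PU VS' S val D = PU VS S val D := by
  have h1 : VS.toList.toFinset = VS := Finset.toList_toFinset VS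
  have h2 : (VS.toList.filter (fun a => decide (a ∈ VS'))).toFinset = VS' := by
    ext v
    simp only [List.mem_toFinset, List.mem_filter, Finset.mem_toList, decide_eq_true_eq]
    exact ⟨fun h => h.2, fun h => ⟨hVS h, h⟩⟩
  have e1 := PU_eq VS.toList (Finset.nodup_toList VS) S val D
  have e2 := PU_eq (VS.toList.filter (fun a => decide (a ∈ VS')))
    ((Finset.nodup_toList VS).filter _) S val D
  rw [h1] at e1
  rw [h2] at e2
  rw [e1, e2]
  apply ExL_filter_eq
  intro a _ ha T
  by_cases hT : T ∈ up D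
  · have : insert a T ∈ up D := by
      obtain ⟨m, hm, hmT⟩ := hT
      exact ⟨m, hm, hmT.trans (Finset.subset_insert _ _)⟩
    rw [ind_of_mem hT, ind_of_mem this]
  · have : insert a T ∉ up D := by
      rintro ⟨m, hm, hmT⟩
      apply hT
      refine ⟨m, hm, fun w hw => ?_⟩
      rcases Finset.mem_insert.1 (hmT hw) with h | h
      · exact absurd (h ▸ hD m hm hw) ha
      · exact h
    rw [ind_of_not_mem hT, ind_of_not_mem this]

theorem PU_mono (VS : Finset V) (S val : V → ℝ) (hS : ∀ v ∈ VS, 0 ≤ S v)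
    (hval : ∀ v ∈ VS, 1 < val v) {D D' : Set (Finset V)} (h : D ⊆ D') :
    PU VS S val D ≤ PU VS S val D' := by
  apply ExL_mono
  · intro a _; exact (PU_prob VS S val hS hval a).1
  · intro a _; exact (PU_prob VS S val hS hval a).2
  · intro T
    apply ind_mono
    rintro T ⟨m, hm, hmT⟩
    exact ⟨m, h hm, hmT⟩

/-! ### families supported on a suffix -/

/-- members using only components of `l'`. -/
def sfx (l' : List V) (M : Finset (Finset V)) : Finset (Finset V) :=
  M.filter (fun m => ∀ w ∈ m, w ∈ l')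

theorem mem_sfx {l' : List V} {M : Finset (Finset V)} {m : Finset V} :
    m ∈ sfx l' M ↔ m ∈ M ∧ ∀ w ∈ m, w ∈ l' := Finset.mem_filter

theorem sfx_self {l : List V} {M : Finset (Finset V)} (h : ∀ m ∈ M, ∀ w ∈ m, w ∈ l) :
    sfx l M = M := by
  apply Finset.filter_true_of_mem
  exact h

theorem sfx_av {v : V} {l' : List V} (hv : v ∉ l') (M : Finset (Finset V)) :
    sfx l' (av v M) = sfx l' M := by
  ext m
  simp only [mem_sfx, av, Finset.mem_filter]
  constructor
  · rintro ⟨⟨h1, _⟩, h3⟩; exact ⟨h1, h3⟩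
  · rintro ⟨h1, h3⟩; exact ⟨⟨h1, fun h => hv (h3 v h)⟩, h3⟩

/-- the general form of the linear program. -/
theorem lp_gen (S val : V → ℝ) (φ : Finset V → ℝ) (β cap : List V → ℝ) : ∀ l : List V, l.Nodup →
    (∀ v ∈ l, 0 ≤ S v) → (∀ v ∈ l, 1 < val v) → ∀ M : Finset (Finset V),
    (∀ m ∈ M, m.Nonempty ∧ ∀ v ∈ m, v ∈ l) →
    (∀ l' : List V, l' <:+ l → PU l'.toFinset S val ↑(sfx l' M) ≤ cap l') →
    (∀ v l', (v :: l') <:+ l → ∑ m ∈ (sfx (v :: l') M).filter (fun m => v ∈ m), φ m
      ≤ β (v :: l') * (pv S val v * PU l'.toFinset S val ↑(lkf v (sfx (v :: l') M)))) →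
    ∀ b : ℝ, 0 ≤ b →
    ∑ m ∈ M, φ m ≤ b * PU l.toFinset S val ↑M + RL S val β cap l b := by
  intro l
  induction l with
  | nil =>
    intro _ _ _ M hM _ _ b hb
    have : M = ∅ := by
      apply Finset.eq_empty_of_forall_notMem
      intro m hm
      obtain ⟨⟨v, hv⟩, h2⟩ := hM m hm
      exact absurd (h2 v hv) (by simp)
    subst this
    simp only [Finset.sum_empty, RL, add_zero]
    have : 0 ≤ PU ([] : List V).toFinset S val ↑(∅ : Finset (Finset V)) :=
      PU_nonneg _ S val (by simp) (by simp) _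
    exact mul_nonneg hb this
  | cons v l ih =>
    intro hnd hS hval M hM hcap hφ b hb
    obtain ⟨hvl, hl'⟩ := List.nodup_cons.1 hnd
    have hsuf : ∀ l' : List V, l' <:+ l → l' <:+ v :: l := fun l' h => h.trans (List.suffix_cons v l)
    have hSl : ∀ w ∈ l, 0 ≤ S w := fun w hw => hS w (List.mem_cons_of_mem _ hw)
    have hvall : ∀ w ∈ l, 1 < val w := fun w hw => hval w (List.mem_cons_of_mem _ hw)
    have hSf : ∀ w ∈ l.toFinset, 0 ≤ S w := fun w hw => hSl w (List.mem_toFinset.1 hw)
    have hvalf : ∀ w ∈ l.toFinset, 1 < val w := fun w hw => hvall w (List.mem_toFinset.1 hw)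
    have hav : ∀ m ∈ av v M, m ∈ M ∧ v ∉ m := fun m hm => Finset.mem_filter.1 hm
    obtain ⟨p0, p1⟩ := pv_mem S val v (hS v List.mem_cons_self) (hval v List.mem_cons_self)
    set B := max b (β (v :: l)) with hB
    have hB0 : 0 ≤ B := hb.trans (le_max_left _ _)
    have hvs : ∀ l' : List V, l' <:+ l → v ∉ l' := fun l' h h' => hvl (h.subset h')
    have ih' := ih hl' hSl hvall (av v M)
      (by
        intro m hm
        obtain ⟨h1, h2⟩ := hav m hm
        refine ⟨(hM m h1).1, fun w hw => ?_⟩
        rcases List.mem_cons.1 ((hM m h1).2 w hw) with h | h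
        · exact absurd (h ▸ hw) h2
        · exact h)
      (by
        intro l' h
        rw [sfx_av (hvs l' h)]
        exact hcap l' (hsuf l' h))
      (by
        intro w l' h
        rw [sfx_av (hvs _ h)]
        exact hφ w l' (hsuf _ h))
      ((1 - pv S val v) * B) (mul_nonneg (by linarith) hB0)
    have hMM : sfx (v :: l) M = M := sfx_self (fun m hm => (hM m hm).2)
    have hfirst := hφ v l List.suffix_rfl
    have hcapv := hcap (v :: l) List.suffix_rfl
    rw [hMM] at hfirst hcapv
    have hsum : ∑ m ∈ M, φ m = ∑ m ∈ M.filter (fun m => v ∈ m), φ m + ∑ m ∈ av v M, φ m := by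
      unfold av
      rw [Finset.sum_filter_add_sum_filter_not]
    set P := PU l.toFinset S val ↑(lkf v M) with hP
    set Qv := PU (v :: l).toFinset S val ↑M with hQv
    set Q' := PU l.toFinset S val ↑(av v M) with hQ'
    have hsplit := Q_split v l hnd S val hS hval M
    rw [← hP, ← hQ', ← hQv] at hsplit
    have hP0 : 0 ≤ P := PU_nonneg _ S val hSf hvalf _
    have hfirst' : ∑ m ∈ M.filter (fun m => v ∈ m), φ m ≤ B * (pv S val v * P) :=
      hfirst.trans (mul_le_mul_of_nonneg_right (le_max_right _ _) (mul_nonneg p0 hP0))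
    have hBQ : B * (pv S val v * P) + (1 - pv S val v) * B * Q' ≤ B * Qv := by
      have := mul_le_mul_of_nonneg_left hsplit hB0
      linarith
    have hfin : B * Qv ≤ b * Qv + max 0 (β (v :: l) - b) * cap (v :: l) := by
      have e : B = b + max 0 (β (v :: l) - b) := by
        rw [hB]
        rcases le_total (β (v :: l)) b with h | h
        · rw [max_eq_left h, max_eq_left (by linarith)]; ring
        · rw [max_eq_right h, max_eq_right (by linarith)]; ring
      rw [e, add_mul]
      have := mul_le_mul_of_nonneg_left hcapv (le_max_left (0:ℝ) (β (v :: l) - b))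
      linarith
    rw [hsum]
    simp only [RL]
    rw [← hB]
    linarith

/-- total efficiency. -/
noncomputable def AL (S val : V → ℝ) (β : List V → ℝ) : List V → ℝ
  | [] => 0
  | v :: l => β (v :: l) * pv S val v + AL S val β l

/-- the crude form: no use of disjointness. -/
theorem lp_sum (S val : V → ℝ) (φ : Finset V → ℝ) (β : List V → ℝ) : ∀ l : List V, l.Nodup →
    (∀ v ∈ l, 0 ≤ S v) → (∀ v ∈ l, 1 < val v) → ∀ M : Finset (Finset V),
    (∀ m ∈ M, m.Nonempty ∧ ∀ v ∈ m, v ∈ l) →
    (∀ v l', (v :: l') <:+ l → 0 ≤ β (v :: l')) →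
    (∀ v l', (v :: l') <:+ l → ∑ m ∈ (sfx (v :: l') M).filter (fun m => v ∈ m), φ m
      ≤ β (v :: l') * (pv S val v * PU l'.toFinset S val ↑(lkf v (sfx (v :: l') M)))) →
    ∑ m ∈ M, φ m ≤ AL S val β l := by
  intro l
  induction l with
  | nil =>
    intro _ _ _ M hM _ _
    have : M = ∅ := by
      apply Finset.eq_empty_of_forall_notMem
      intro m hm
      obtain ⟨⟨v, hv⟩, h2⟩ := hM m hm
      exact absurd (h2 v hv) (by simp)
    subst this
    simp [AL]
  | cons v l ih =>
    intro hnd hS hval M hM hβ hφ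
    obtain ⟨hvl, hl'⟩ := List.nodup_cons.1 hnd
    have hsuf : ∀ l' : List V, l' <:+ l → l' <:+ v :: l := fun l' h => h.trans (List.suffix_cons v l)
    have hSl : ∀ w ∈ l, 0 ≤ S w := fun w hw => hS w (List.mem_cons_of_mem _ hw)
    have hvall : ∀ w ∈ l, 1 < val w := fun w hw => hval w (List.mem_cons_of_mem _ hw)
    have hSf : ∀ w ∈ l.toFinset, 0 ≤ S w := fun w hw => hSl w (List.mem_toFinset.1 hw)
    have hvalf : ∀ w ∈ l.toFinset, 1 < val w := fun w hw => hvall w (List.mem_toFinset.1 hw)
    have hav : ∀ m ∈ av v M, m ∈ M ∧ v ∉ m := fun m hm => Finset.mem_filter.1 hm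
    obtain ⟨p0, p1⟩ := pv_mem S val v (hS v List.mem_cons_self) (hval v List.mem_cons_self)
    have hvs : ∀ l' : List V, l' <:+ l → v ∉ l' := fun l' h h' => hvl (h.subset h')
    have ih' := ih hl' hSl hvall (av v M)
      (by
        intro m hm
        obtain ⟨h1, h2⟩ := hav m hm
        refine ⟨(hM m h1).1, fun w hw => ?_⟩
        rcases List.mem_cons.1 ((hM m h1).2 w hw) with h | h
        · exact absurd (h ▸ hw) h2
        · exact h)
      (fun w l' h => hβ w l' (hsuf _ h))
      (by
        intro w l' h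
        rw [sfx_av (hvs _ h)]
        exact hφ w l' (hsuf _ h))
    have hMM : sfx (v :: l) M = M := sfx_self (fun m hm => (hM m hm).2)
    have hfirst := hφ v l List.suffix_rfl
    rw [hMM] at hfirst
    have hsum : ∑ m ∈ M, φ m = ∑ m ∈ M.filter (fun m => v ∈ m), φ m + ∑ m ∈ av v M, φ m := by
      unfold av
      rw [Finset.sum_filter_add_sum_filter_not]
    have hP1 : PU l.toFinset S val ↑(lkf v M) ≤ 1 := PU_le_one _ S val hSf hvalf _
    have h1 : β (v :: l) * (pv S val v * PU l.toFinset S val ↑(lkf v M)) ≤ β (v :: l) * pv S val v := by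
      apply mul_le_mul_of_nonneg_left _ (hβ v l List.suffix_rfl)
      calc _ ≤ pv S val v * 1 := mul_le_mul_of_nonneg_left hP1 p0
        _ = _ := mul_one _
    rw [hsum]
    simp only [AL]
    linarith

/-! ### monotonicity and scaling of the linear program -/

theorem RL_smul_cap (S val : V → ℝ) (β ρ : List V → ℝ) (c : ℝ) : ∀ (l : List V) (b : ℝ),
    RL S val β (fun l' => c * ρ l') l b = c * RL S val β ρ l b := by
  intro l
  induction l with
  | nil => intro b; simp [RL]
  | cons v l ih =>
    intro b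
    simp only [RL]
    rw [ih]
    ring

theorem RL_mono_cap (S val : V → ℝ) (β ρ ρ' : List V → ℝ) : ∀ (l : List V),
    (∀ l' : List V, l' <:+ l → ρ l' ≤ ρ' l') → ∀ b : ℝ,
    RL S val β ρ l b ≤ RL S val β ρ' l b := by
  intro l
  induction l with
  | nil => intro _ b; simp [RL]
  | cons v l ih =>
    intro h b
    simp only [RL]
    have h1 := ih (fun l' hl' => h l' (hl'.trans (List.suffix_cons v l)))
      ((1 - pv S val v) * max b (β (v :: l)))
    have h2 := mul_le_mul_of_nonneg_left (h (v :: l) List.suffix_rfl)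
      (le_max_left (0:ℝ) (β (v :: l) - b))
    linarith

/-- linear in the hitting probability. -/
theorem lp_lin (S val : V → ℝ) (φ : Finset V → ℝ) (β : List V → ℝ) (l : List V) (hl : l.Nodup)
    (hS : ∀ v ∈ l, 0 ≤ S v) (hval : ∀ v ∈ l, 1 < val v) (M : Finset (Finset V))
    (hM : ∀ m ∈ M, m.Nonempty ∧ ∀ v ∈ m, v ∈ l)
    (hφ : ∀ v l', (v :: l') <:+ l → ∑ m ∈ (sfx (v :: l') M).filter (fun m => v ∈ m), φ m
      ≤ β (v :: l') * (pv S val v * PU l'.toFinset S val ↑(lkf v (sfx (v :: l') M)))) :
    ∑ m ∈ M, φ m ≤ PU l.toFinset S val ↑M * RL S val β (fun _ => 1) l 0 := by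
  have hSf : ∀ w ∈ l.toFinset, 0 ≤ S w := fun w hw => hS w (List.mem_toFinset.1 hw)
  have hvalf : ∀ w ∈ l.toFinset, 1 < val w := fun w hw => hval w (List.mem_toFinset.1 hw)
  have h := lp_gen S val φ β (fun _ => PU l.toFinset S val ↑M * 1) l hl hS hval M hM
    (by
      intro l' hl'
      have hsub : l'.toFinset ⊆ l.toFinset := by
        intro w hw
        exact List.mem_toFinset.2 (hl'.subset (List.mem_toFinset.1 hw))
      rw [mul_one, PU_subset_eq l.toFinset l'.toFinset hsub S val _ (by
        intro m hm w hw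
        exact List.mem_toFinset.2 ((mem_sfx.1 (Finset.mem_coe.1 hm)).2 w hw))]
      apply PU_mono _ S val hSf hvalf
      intro m hm
      exact Finset.mem_coe.2 (mem_sfx.1 (Finset.mem_coe.1 hm)).1) hφ 0 le_rfl
  rw [RL_smul_cap, zero_mul, zero_add] at h
  exact h

/-! ### the constants -/

/-- `κ` is admissible for the root `u` and the components `VS`. -/
def Kap (π : V → ι) (VS : Finset V) (S val : V → ℝ) (u κ : ℝ) : Prop :=
  ∀ D : Finset (Finset V), QP π (↑D : Set (Finset V)) → (∀ m ∈ D, m ⊆ VS) →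
    ∑ m ∈ D, (∏ v ∈ m, S v) * hh (u * ∏ v ∈ m, val v) ≤ hh u * κ * PU VS S val ↑D

theorem Kap.mono {π : V → ι} {VS VS' : Finset V} {S val : V → ℝ} {u κ κ' : ℝ}
    (hS : ∀ v ∈ VS, 0 ≤ S v) (hval : ∀ v ∈ VS, 1 < val v) (hu : 1 < u)
    (h : Kap π VS S val u κ) (hVS : VS' ⊆ VS) (hκ : κ ≤ κ') : Kap π VS' S val u κ' := by
  intro D hD hm
  have h1 := h D hD (fun m hmD => (hm m hmD).trans hVS)
  have h2 := PU_subset_eq VS VS' hVS S val ↑D (fun m hmD => hm m (Finset.mem_coe.1 hmD))
  rw [h2]
  refine h1.trans ?_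
  have hlog : 0 < Real.log u := Real.log_pos hu
  have hhu : 0 ≤ hh u := by unfold hh; positivity
  apply mul_le_mul_of_nonneg_right _ (PU_nonneg VS S val hS hval _)
  exact mul_le_mul_of_nonneg_left hκ hhu

/-- members have at most one component over each prime. -/
def Trans (π : V → ι) (M : Finset (Finset V)) : Prop :=
  ∀ m ∈ M, ∀ v ∈ m, ∀ w ∈ m, π v = π w → v = w

/-- the first component estimate with same-prime exclusion. -/
theorem first_comp (π : V → ι) (S val : V → ℝ) (z : ℝ) (l : List V) (hl : l.Nodup)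
    (M : Finset (Finset V)) (hQP : QP π (↑M : Set (Finset V))) (hT : Trans π M)
    (v : V) (l' : List V) (hv : (v :: l') <:+ l) (hSv : 0 ≤ S v) (κ : ℝ)
    (hκ : Kap π (l'.toFinset.filter (fun w => π w ≠ π v)) S val (z * val v) κ)
    (β : ℝ) (hβ : S v * (hh (z * val v) * κ) ≤ β * pv S val v)
    (hS' : ∀ v ∈ l', 0 ≤ S v) (hval' : ∀ v ∈ l', 1 < val v) :
    ∑ m ∈ (sfx (v :: l') M).filter (fun m => v ∈ m), (∏ w ∈ m, S w) * hh (z * ∏ w ∈ m, val w)
      ≤ β * (pv S val v * PU l'.toFinset S val ↑(lkf v (sfx (v :: l') M))) := by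
  set N := sfx (v :: l') M with hN
  have hNM : ∀ m ∈ N, m ∈ M := fun m hm => (mem_sfx.1 hm).1
  have hlk : ∑ m ∈ N.filter (fun m => v ∈ m), (∏ w ∈ m, S w) * hh (z * ∏ w ∈ m, val w)
      = S v * ∑ m ∈ lkf v N, (∏ w ∈ m, S w) * hh ((z * val v) * ∏ w ∈ m, val w) := by
    unfold lkf
    rw [Finset.sum_image, Finset.mul_sum]
    · apply Finset.sum_congr rfl
      intro m hm
      obtain ⟨-, hv⟩ := Finset.mem_filter.1 hm
      rw [← Finset.mul_prod_erase m S hv, ← Finset.mul_prod_erase m val hv]
      rw [mul_assoc, mul_assoc z]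
    · intro m hm m' hm' h
      have hv := (Finset.mem_filter.1 (Finset.mem_coe.1 hm)).2
      have hv' := (Finset.mem_filter.1 (Finset.mem_coe.1 hm')).2
      have h' : m.erase v = m'.erase v := h
      rw [← Finset.insert_erase hv, ← Finset.insert_erase hv', h']
  have hmem : ∀ m ∈ lkf v N, m ⊆ l'.toFinset.filter (fun w => π w ≠ π v) := by
    intro m hm w hw
    obtain ⟨k, hk, rfl⟩ := Finset.mem_image.1 hm
    obtain ⟨hk1, hk2⟩ := Finset.mem_filter.1 hk
    have hwk := Finset.mem_of_mem_erase hw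
    have hwv := Finset.ne_of_mem_erase hw
    refine Finset.mem_filter.2 ⟨?_, ?_⟩
    · rcases List.mem_cons.1 ((mem_sfx.1 hk1).2 w hwk) with h | h
      · exact absurd h hwv
      · exact List.mem_toFinset.2 h
    · intro h
      exact hwv (hT k (hNM k hk1) w hwk v hk2 h)
  have hb := hκ (lkf v N) (by
    rw [lkf_coe]
    exact QP_lk (QP_subset hQP (fun m hm => Finset.mem_coe.2 (hNM m (Finset.mem_coe.1 hm)))) v) hmem
  have hPU := PU_subset_eq l'.toFinset (l'.toFinset.filter (fun w => π w ≠ π v))
    (Finset.filter_subset _ _) S val ↑(lkf v N) (fun m hm => hmem m (Finset.mem_coe.1 hm))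
  rw [hPU] at hb
  have hP0 : 0 ≤ PU l'.toFinset S val ↑(lkf v N) :=
    PU_nonneg _ S val (fun w hw => hS' w (List.mem_toFinset.1 hw))
      (fun w hw => hval' w (List.mem_toFinset.1 hw)) _
  rw [hlk]
  calc _ ≤ S v * (hh (z * val v) * κ * PU l'.toFinset S val ↑(lkf v N)) :=
        mul_le_mul_of_nonneg_left hb hSv
    _ = (S v * (hh (z * val v) * κ)) * PU l'.toFinset S val ↑(lkf v N) := by ring
    _ ≤ (β * pv S val v) * PU l'.toFinset S val ↑(lkf v N) := mul_le_mul_of_nonneg_right hβ hP0
    _ = _ := by ring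

end Pool.Agent.EZ
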