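import Pool.Agent.EZ.Rounds

/-!
# The continuous limit: bounds for the mass of a quasi-primitive family over a root.
-/

set_option autoImplicit false
set_option linter.unusedSectionVars false

namespace Pool.Agent.EZ

open Finset Filter Topology

/-- the weight `1/(x log x)`. -/
noncomputable def hh (x : ℝ) : ℝ := 1 / (x * Real.log x)

section defs

variable {V ι : Type*} [DecidableEq V] [DecidableEq ι]

/-- the density of a component at time `s`. -/
noncomputable def aa (S val : V → ℝ) (v : V) (s : ℝ) : ℝ := S v * val v ^ (-(1 + s))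

/-- the total density. -/
noncomputable def XX (VS : Finset V) (S val : V → ℝ) (s : ℝ) : ℝ := ∑ v ∈ VS, aa S val v s

/-- the time grid. -/
noncomputable def sg (n : ℕ) (η : ℝ) (j : ℕ) : ℝ := ((n - j : ℕ) : ℝ) * η

/-- the increments. -/
noncomputable def dl (S val : V → ℝ) (n : ℕ) (η : ℝ) : ℕ → V → ℝ
  | 0, v => aa S val v (sg n η 0)
  | j + 1, v => aa S val v (sg n η (j + 1)) - aa S val v (sg n η j)

/-- the payoff weights. -/
noncomputable def uu (u : ℝ) (n : ℕ) (η : ℝ) (j : ℕ) : ℝ := hh u * (1 - u ^ (-(sg n η j)))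

/-- the payoffs. -/
noncomputable def gg (VS : Finset V) (S val : V → ℝ) (u : ℝ) (n : ℕ) (η : ℝ) (j : ℕ) : ℝ :=
  Real.exp (XX VS S val (sg n η j)) * uu u n η j

/-- the discretised value of `hh (u M)`. -/
noncomputable def LL (u M : ℝ) (n : ℕ) (η : ℝ) : ℝ :=
  hh u * (1 - u ^ (-η)) * M ^ (-(1 + η)) * ∑ k ∈ range n, ((u * M) ^ (-η)) ^ k

theorem sg_nonneg (n : ℕ) (η : ℝ) (hη : 0 ≤ η) (j : ℕ) : 0 ≤ sg n η j := by
  unfold sg; positivity

theorem sg_anti (n : ℕ) (η : ℝ) (hη : 0 ≤ η) {i j : ℕ} (h : i ≤ j) : sg n η j ≤ sg n η i := by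
  unfold sg
  apply mul_le_mul_of_nonneg_right _ hη
  exact_mod_cast Nat.sub_le_sub_left h n

theorem aa_nonneg (S val : V → ℝ) (v : V) (hS : 0 ≤ S v) (hv : 1 < val v) (s : ℝ) :
    0 ≤ aa S val v s := mul_nonneg hS (Real.rpow_nonneg (by linarith) _)

theorem aa_anti (S val : V → ℝ) (v : V) (hS : 0 ≤ S v) (hv : 1 < val v) {s t : ℝ} (h : s ≤ t) :
    aa S val v t ≤ aa S val v s := by
  unfold aa
  apply mul_le_mul_of_nonneg_left _ hS
  exact Real.rpow_le_rpow_of_exponent_le hv.le (by linarith)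

theorem dl_nonneg (S val : V → ℝ) (n : ℕ) (η : ℝ) (hη : 0 ≤ η) (j : ℕ) (v : V) (hS : 0 ≤ S v)
    (hv : 1 < val v) : 0 ≤ dl S val n η j v := by
  cases j with
  | zero => exact aa_nonneg S val v hS hv _
  | succ j => exact sub_nonneg.2 (aa_anti S val v hS hv (sg_anti n η hη (Nat.le_succ j)))

theorem sum_dl (S val : V → ℝ) (n : ℕ) (η : ℝ) (v : V) (j : ℕ) :
    ∑ i ∈ range (j + 1), dl S val n η i v = aa S val v (sg n η j) := by
  induction j with
  | zero => simp [dl]
  | succ j ih => rw [Finset.sum_range_succ, ih]; simp [dl]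

theorem aa_zero (S val : V → ℝ) (v : V) : aa S val v 0 = S v / val v := by
  unfold aa
  rw [add_zero, Real.rpow_neg_one, div_eq_mul_inv]

theorem sum_dl_toList (VS : Finset V) (S val : V → ℝ) (n : ℕ) (η : ℝ) (j : ℕ) :
    ∑ i ∈ range (j + 1), (VS.toList.map (dl S val n η i)).sum = XX VS S val (sg n η j) := by
  unfold XX
  simp only [Finset.sum_map_toList]
  rw [Finset.sum_comm]
  exact Finset.sum_congr rfl fun v _ => sum_dl S val n η v j

theorem SS_dl (VS : Finset V) (S val : V → ℝ) (n : ℕ) (η : ℝ) (g : ℕ → ℝ) (j : ℕ) :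
    SS (tt VS.toList (dl S val n η) g (j + 1)) = Real.exp (-XX VS S val (sg n η j)) := by
  rw [SS_tt, sum_dl_toList]

theorem surv_dl (π : V → ι) (r : ι) (VS : Finset V) (S val : V → ℝ) (n : ℕ) (η : ℝ) (g : ℕ → ℝ)
    (j : ℕ) :
    surv π r (tt VS.toList (dl S val n η) g (j + 1))
      = Real.exp (-∑ v ∈ VS.filter (fun v => π v = r), aa S val v (sg n η j)) := by
  rw [surv_tt]
  congr 2
  have h : ∀ f : V → ℝ, ((VS.toList.filter (fun v => π v = r)).map f).sum
      = ∑ v ∈ VS.filter (fun v => π v = r), f v := by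
    intro f
    rw [← List.sum_toFinset f ((Finset.nodup_toList VS).filter _)]
    congr 1
    ext v
    simp
  simp only [h]
  rw [Finset.sum_comm]
  exact Finset.sum_congr rfl fun v _ => sum_dl S val n η v j

theorem uu_nonneg (u : ℝ) (hu : 1 < u) (n : ℕ) (η : ℝ) (hη : 0 ≤ η) (j : ℕ) : 0 ≤ uu u n η j := by
  unfold uu hh
  have h1 : 0 < Real.log u := Real.log_pos hu
  have h2 : u ^ (-(sg n η j)) ≤ 1 :=
    Real.rpow_le_one_of_one_le_of_nonpos hu.le (by linarith [sg_nonneg n η hη j])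
  have h3 : 0 ≤ 1 / (u * Real.log u) := by positivity
  exact mul_nonneg h3 (by linarith)

theorem uu_anti (u : ℝ) (hu : 1 < u) (n : ℕ) (η : ℝ) (hη : 0 ≤ η) {i j : ℕ} (h : i ≤ j) :
    uu u n η j ≤ uu u n η i := by
  unfold uu hh
  have h1 : 0 < Real.log u := Real.log_pos hu
  have h3 : 0 ≤ 1 / (u * Real.log u) := by positivity
  apply mul_le_mul_of_nonneg_left _ h3
  have := Real.rpow_le_rpow_of_exponent_le hu.le
    (show -(sg n η i) ≤ -(sg n η j) by linarith [sg_anti n η hη h])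
  linarith

theorem uu_diff (u : ℝ) (hu : 1 < u) (n : ℕ) (η : ℝ) (j : ℕ) (hj : j < n) :
    uu u n η j - uu u n η (j + 1)
      = hh u * (1 - u ^ (-η)) * u ^ (-(((n - 1 - j : ℕ) : ℝ) * η)) := by
  unfold uu sg
  have hu0 : (0 : ℝ) < u := by linarith
  have h1 : n - (j + 1) = n - 1 - j := by omega
  have h2 : (n - j : ℕ) = (n - 1 - j) + 1 := by omega
  rw [h1, h2]
  push_cast
  have h3 : u ^ (-((((n - 1 - j : ℕ) : ℝ) + 1) * η))
      = u ^ (-η) * u ^ (-(((n - 1 - j : ℕ) : ℝ) * η)) := by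
    rw [← Real.rpow_add hu0]; congr 1; ring
  rw [h3]
  ring

theorem prod_aa (S val : V → ℝ) (m : Finset V) (hv : ∀ v ∈ m, 1 < val v) (s : ℝ) :
    ∏ v ∈ m, aa S val v s = (∏ v ∈ m, S v) * (∏ v ∈ m, val v) ^ (-(1 + s)) := by
  unfold aa
  rw [Finset.prod_mul_distrib, Real.finsetProd_rpow m val (fun i hi => by linarith [hv i hi])]

theorem LL_eq (S val : V → ℝ) (u : ℝ) (hu : 1 < u) (n : ℕ) (η : ℝ) (m : Finset V)
    (hv : ∀ v ∈ m, 1 < val v) :
    ∑ j ∈ range n, (uu u n η j - uu u n η (j + 1)) * ∏ v ∈ m, ∑ i ∈ range (j + 1), dl S val n η i v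
      = (∏ v ∈ m, S v) * LL u (∏ v ∈ m, val v) n η := by
  set M := ∏ v ∈ m, val v with hM
  have hM0 : 0 < M := Finset.prod_pos fun v h => by linarith [hv v h]
  have hu0 : (0 : ℝ) < u := by linarith
  have h1 : ∀ j ∈ range n, (uu u n η j - uu u n η (j + 1))
      * ∏ v ∈ m, ∑ i ∈ range (j + 1), dl S val n η i v
      = (∏ v ∈ m, S v) * (hh u * (1 - u ^ (-η)) * M ^ (-(1 + η)))
        * ((u * M) ^ (-η)) ^ (n - 1 - j) := by
    intro j hj
    have hj' := Finset.mem_range.1 hj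
    rw [uu_diff u hu n η j hj']
    have h2 : ∏ v ∈ m, ∑ i ∈ range (j + 1), dl S val n η i v
        = ∏ v ∈ m, aa S val v (sg n η j) :=
      Finset.prod_congr rfl fun v _ => sum_dl S val n η v j
    rw [h2, prod_aa S val m hv]
    have h3 : M ^ (-(1 + sg n η j))
        = M ^ (-(1 + η)) * M ^ (-(((n - 1 - j : ℕ) : ℝ) * η)) := by
      rw [← Real.rpow_add hM0]
      congr 1
      unfold sg
      have h2 : (n - j : ℕ) = (n - 1 - j) + 1 := by omega
      rw [h2]; push_cast; ring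
    have h4 : ((u * M) ^ (-η)) ^ (n - 1 - j)
        = u ^ (-(((n - 1 - j : ℕ) : ℝ) * η)) * M ^ (-(((n - 1 - j : ℕ) : ℝ) * η)) := by
      rw [← Real.mul_rpow hu0.le hM0.le, ← Real.rpow_natCast, ← Real.rpow_mul (by positivity)]
      congr 1; ring
    rw [← hM, h3, h4]
    ring
  rw [Finset.sum_congr rfl h1, ← Finset.mul_sum, Finset.sum_range_reflect (fun k => ((u * M) ^ (-η)) ^ k) n]
  unfold LL
  ring

end defs

/-! ### limits -/

/-- the limit of `LL` as `n → ∞`. -/
noncomputable def LI (u M : ℝ) (η : ℝ) : ℝ :=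
  hh u * (1 - u ^ (-η)) * M ^ (-(1 + η)) * (1 - (u * M) ^ (-η))⁻¹

theorem tendsto_LL (u M : ℝ) (hu : 1 < u) (hM : 1 ≤ M) (η : ℝ) (hη : 0 < η) :
    Tendsto (fun n => LL u M n η) atTop (𝓝 (LI u M η)) := by
  unfold LL LI
  apply Tendsto.const_mul
  have h1 : 1 < u * M := by nlinarith
  have h2 : (u * M) ^ (-η) < 1 := Real.rpow_lt_one_of_one_lt_of_neg h1 (by linarith)
  have h3 : 0 ≤ (u * M) ^ (-η) := Real.rpow_nonneg (by linarith) _
  exact (hasSum_geometric_of_lt_one h3 h2).tendsto_sum_nat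

theorem tendsto_slope (c : ℝ) (hc : 1 < c) :
    Tendsto (fun η : ℝ => (1 - c ^ (-η)) / η) (𝓝[>] 0) (𝓝 (Real.log c)) := by
  have hc0 : (0 : ℝ) < c := by linarith
  have h1 : HasDerivAt (fun η : ℝ => 1 - c ^ (-η)) (Real.log c) 0 := by
    have h2 : HasDerivAt (fun η : ℝ => c ^ (-η)) (-Real.log c) 0 := by
      have h3 := (hasDerivAt_neg (0 : ℝ)).const_rpow hc0
      simpa using h3
    simpa using h2.const_sub 1
  have h4 := h1.tendsto_slope_zero_right
  refine h4.congr' ?_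
  filter_upwards [self_mem_nhdsWithin] with η hη
  simp only [zero_add, neg_zero, Real.rpow_zero, sub_self, sub_zero, smul_eq_mul]
  rw [div_eq_inv_mul]

theorem tendsto_LI (u M : ℝ) (hu : 1 < u) (hM : 1 ≤ M) :
    Tendsto (fun η => LI u M η) (𝓝[>] 0) (𝓝 (hh (u * M))) := by
  have h1 : 1 < u * M := by nlinarith
  have hlu : 0 < Real.log u := Real.log_pos hu
  have hl : 0 < Real.log (u * M) := Real.log_pos h1
  have hM0 : 0 < M := by linarith
  have hu0 : 0 < u := by linarith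
  have e1 := tendsto_slope u hu
  have e2 := (tendsto_slope (u * M) h1).inv₀ hl.ne'
  have e3 : Tendsto (fun η : ℝ => M ^ (-(1 + η))) (𝓝[>] 0) (𝓝 (M ^ (-(1 + (0:ℝ))))) := by
    apply Tendsto.mono_left _ nhdsWithin_le_nhds
    apply ContinuousAt.tendsto
    apply ContinuousAt.rpow continuousAt_const
    · fun_prop
    · left; exact hM0.ne'
  have e4 := ((e1.mul e2).mul e3).const_mul (hh u)
  have e5 : hh u * (Real.log u * (Real.log (u * M))⁻¹ * M ^ (-(1 + (0 : ℝ)))) = hh (u * M) := by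
    rw [add_zero, Real.rpow_neg_one]
    unfold hh
    field_simp
  rw [e5] at e4
  refine e4.congr' ?_
  filter_upwards [self_mem_nhdsWithin] with η hη
  have hη' : η ≠ 0 := (ne_of_gt hη)
  unfold LI
  rw [inv_div]
  have : (1 - (u * M) ^ (-η)) ≠ 0 := by
    have := Real.rpow_lt_one_of_one_lt_of_neg h1 (show -η < 0 by simpa using hη)
    linarith
  field_simp

section bounds

variable {V ι : Type*} [DecidableEq V] [DecidableEq ι]

theorem lower (VS : Finset V) (S val : V → ℝ) (hS : ∀ v ∈ VS, 0 ≤ S v)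
    (hval : ∀ v ∈ VS, 1 < val v) (u : ℝ) (hu : 1 < u) (n : ℕ) (η : ℝ) (hη : 0 ≤ η)
    (m : Finset V) (hm : m.Nonempty) (hmV : m ⊆ VS) :
    (∏ v ∈ m, S v) * LL u (∏ v ∈ m, val v) n η
      ≤ Y (tt VS.toList (dl S val n η) (gg VS S val u n η) (n + 1)) {m} := by
  rw [← LL_eq S val u hu n η m (fun v hv => hval v (hmV hv))]
  apply Y_tt_lower VS.toList (Finset.nodup_toList VS)
  · intro j v hv
    rw [Finset.mem_toList] at hv
    exact dl_nonneg S val n η hη j v (hS v hv) (hval v hv)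
  · intro j
    exact mul_nonneg (Real.exp_pos _).le (uu_nonneg u hu n η hη j)
  · intro j _
    rw [SS_dl]
    unfold gg
    have : Real.exp (XX VS S val (sg n η j)) * uu u n η j * Real.exp (-XX VS S val (sg n η j))
        = uu u n η j := by
      rw [mul_right_comm, ← Real.exp_add]; simp
    rw [this]
  · intro j _; exact uu_nonneg u hu n η hη j
  · intro j _; exact uu_anti u hu n η hη (Nat.le_succ j)
  · exact hm
  · intro v hv; rw [Finset.mem_toList]; exact hmV hv

theorem good_dl (π : V → ι) (VS : Finset V) (S val : V → ℝ) (hS : ∀ v ∈ VS, 0 ≤ S v)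
    (hval : ∀ v ∈ VS, 1 < val v) (g : ℕ → ℝ) (n : ℕ) (η : ℝ) (hη : 0 ≤ η)
    (ρ : ℝ) (hρ0 : 0 ≤ ρ) (hρ : ρ ≤ 1 / 2)
    (hr : ∀ r, 1 - ρ ≤ Real.exp (-∑ v ∈ VS.filter (fun v => π v = r), S v / val v)) :
    Good π ρ (tt VS.toList (dl S val n η) g (n + 1)) := by
  have hval1 := tt_val VS.toList (dl S val n η) g
    (fun j v hv => by
      rw [Finset.mem_toList] at hv
      exact dl_nonneg S val n η hη j v (hS v hv) (hval v hv)) (n + 1)
  apply good_of_surv π (VS.image π).toList (Finset.nodup_toList _) _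
    (fun x hx => ⟨(hval1 x hx).1, (hval1 x hx).2.le⟩)
  · intro x hx
    rw [Finset.mem_toList]
    apply Finset.mem_image_of_mem
    rw [← Finset.mem_toList]
    exact (tt_mem _ _ _ _ x hx).1
  · exact hρ0
  · exact hρ
  · intro r _
    rw [surv_dl]
    have h0 : sg n η n = 0 := by simp [sg]
    rw [h0]
    simp only [aa_zero]
    exact hr r

theorem Pr_dl (VS : Finset V) (S val : V → ℝ) (g : ℕ → ℝ) (n : ℕ) (η : ℝ)
    (F : Finset V → ℝ) :
    Pr (tt VS.toList (dl S val n η) g (n + 1)) F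
      = ExL VS.toList (fun v => if v ∈ VS then 1 - Real.exp (-(S v / val v)) else 0) F := by
  have h1 := Pr_merge (id : V → V) VS.toList (Finset.nodup_toList VS)
    (tt VS.toList (dl S val n η) g (n + 1)) (fun x hx => (tt_mem _ _ _ _ x hx).1) F
  simp only [Finset.image_id] at h1
  rw [h1]
  congr 1
  ext v
  rw [surv_dl]
  have h0 : sg n η n = 0 := by simp [sg]
  rw [h0]
  simp only [aa_zero, id]
  by_cases hv : v ∈ VS
  · rw [if_pos hv]
    have : VS.filter (fun w => w = v) = {v} := by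
      ext w; simp only [Finset.mem_filter, Finset.mem_singleton]
      constructor
      · rintro ⟨-, h⟩; exact h
      · rintro rfl; exact ⟨hv, rfl⟩
    rw [this, Finset.sum_singleton]
  · rw [if_neg hv]
    have : VS.filter (fun w => w = v) = ∅ := by
      ext w; simp only [Finset.mem_filter, Finset.notMem_empty, iff_false]
      rintro ⟨h, rfl⟩; exact hv h
    rw [this, Finset.sum_empty]; simp

end bounds

end Pool.Agent.EZ
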