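import Pool.Agent.EZ.MertensSup

/-!
# A quantitative decrease of `log F₂` (helper46)
-/

set_option autoImplicit false

namespace Pool.Agent.EZ

open Finset MeasureTheory

noncomputable section

/-- `log F₂ y = EE y + log (1 - e^{-2y})`. -/
def LF (y : ℝ) : ℝ := EE y + Real.log (1 - Real.exp (-(2 * y)))

/-- the comparison polynomial in `t = 1 - e^{-y}` -/
def gpoly (t : ℝ) : ℝ := t ^ 2 / 12 + t ^ 3 / 36

theorem phi_nonneg {t : ℝ} (h0 : 0 ≤ t) (h1 : t ≤ 0.89) :
    0 ≤ 12 * t * (2 - t) / (24 - 24 * t + 4 * t ^ 2 - t ^ 4) + Real.log (1 - t) := by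
  have hQ : ∀ u : ℝ, 0 ≤ u → u ≤ 0.89 → 0 < 24 - 24 * u + 4 * u ^ 2 - u ^ 4 := by
    intro u hu0 hu1
    have h2 : u ^ 2 ≤ 1 := by nlinarith
    have h4 : u ^ 4 ≤ 1 := by nlinarith [sq_nonneg (u ^ 2)]
    have : 0 ≤ u ^ 2 := sq_nonneg u
    nlinarith
  have hd : ∀ u : ℝ, 0 ≤ u → u ≤ 0.89 → HasDerivAt
      (fun u : ℝ => 12 * u * (2 - u) / (24 - 24 * u + 4 * u ^ 2 - u ^ 4) + Real.log (1 - u))
      (u ^ 4 * (104 - 144 * u + 32 * u ^ 2 - u ^ 4)
        / ((24 - 24 * u + 4 * u ^ 2 - u ^ 4) ^ 2 * (1 - u))) u := by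
    intro u hu0 hu1
    have hq := hQ u hu0 hu1
    have h1u : (0 : ℝ) < 1 - u := by linarith
    have hnum : HasDerivAt (fun u : ℝ => 12 * u * (2 - u)) (12 * (2 - u) + 12 * u * (-1)) u := by
      have ha : HasDerivAt (fun u : ℝ => 12 * u) 12 u := by
        simpa using (hasDerivAt_id u).const_mul (12 : ℝ)
      have hb : HasDerivAt (fun u : ℝ => 2 - u) (-1) u := by
        simpa using (hasDerivAt_id u).const_sub (2 : ℝ)
      exact ha.mul hb
    have hden : HasDerivAt (fun u : ℝ => 24 - 24 * u + 4 * u ^ 2 - u ^ 4)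
        (-24 + 8 * u - 4 * u ^ 3) u := by
      have ha : HasDerivAt (fun u : ℝ => 24 - 24 * u) (-24) u := by
        simpa using ((hasDerivAt_id u).const_mul (24 : ℝ)).const_sub (24 : ℝ)
      have hb : HasDerivAt (fun u : ℝ => 4 * u ^ 2) (4 * (2 * u)) u := by
        simpa using (hasDerivAt_pow 2 u).const_mul (4 : ℝ)
      have hc : HasDerivAt (fun u : ℝ => u ^ 4) (4 * u ^ 3) u := by
        simpa using hasDerivAt_pow 4 u
      refine ((ha.add hb).sub hc).congr_deriv ?_
      ring
    have hlog : HasDerivAt (fun u : ℝ => Real.log (1 - u)) (-1 / (1 - u)) u := by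
      have hb : HasDerivAt (fun u : ℝ => 1 - u) (-1) u := by
        simpa using (hasDerivAt_id u).const_sub (1 : ℝ)
      exact hb.log h1u.ne'
    refine ((hnum.div hden hq.ne').add hlog).congr_deriv ?_
    rw [div_add_div _ _ (pow_ne_zero 2 hq.ne') h1u.ne']
    congr 1
    ring
  have hmono : MonotoneOn (fun u : ℝ => 12 * u * (2 - u) / (24 - 24 * u + 4 * u ^ 2 - u ^ 4)
      + Real.log (1 - u)) (Set.Icc 0 0.89) := by
    apply monotoneOn_of_deriv_nonneg (convex_Icc 0 0.89)
    · exact fun u hu => (hd u hu.1 hu.2).continuousAt.continuousWithinAt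
    · intro u hu
      rw [interior_Icc] at hu
      exact (hd u hu.1.le hu.2.le).differentiableAt.differentiableWithinAt
    · intro u hu
      rw [interior_Icc] at hu
      rw [(hd u hu.1.le hu.2.le).deriv]
      have hu0 := hu.1
      have hu1 := hu.2
      have h5 : 0 ≤ 104 - 144 * u + 32 * u ^ 2 - u ^ 4 := by
        have h6 : 0 ≤ 0.89 - u := by linarith
        have h7 : u ^ 4 ≤ 0.89 ^ 2 * u ^ 2 := by
          have : u ^ 2 ≤ 0.89 ^ 2 := by nlinarith
          nlinarith [sq_nonneg u]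
        -- 104 - 144 u + (32 - .7921) u^2 ≥ 0 : discriminant
        nlinarith [mul_nonneg h6 h6, mul_nonneg h6 hu0.le]
      have h8 : 0 < 1 - u := by linarith
      positivity
  have h := hmono (Set.left_mem_Icc.2 (by norm_num)) (Set.mem_Icc.2 ⟨h0, h1⟩) h0
  simpa using h

/-- `1/y - 1/sinh y ≥ t/6 + t²/12`. -/
theorem step_ineq {y : ℝ} (hy : 0 < y) (h1 : 1 - Real.exp (-y) ≤ 0.89) :
    2 * Real.exp (-(2 * y)) / (1 - Real.exp (-(2 * y))) +
      Real.exp (-y) * ((1 - Real.exp (-y)) / 6 + (1 - Real.exp (-y)) ^ 2 / 12) ≤ Real.exp (-y) / y := by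
  set t : ℝ := 1 - Real.exp (-y) with ht
  have he : Real.exp (-y) = 1 - t := by rw [ht]; ring
  have he1 : Real.exp (-y) < 1 := by rw [Real.exp_lt_one_iff]; linarith
  have ht0 : 0 < t := by rw [ht]; linarith
  have h1t : 0 < 1 - t := by rw [← he]; exact Real.exp_pos _
  have h2 := phi_nonneg ht0.le h1
  have hlog : Real.log (1 - t) = -y := by rw [← he, Real.log_exp]
  rw [hlog] at h2
  have hQ : 0 < 24 - 24 * t + 4 * t ^ 2 - t ^ 4 := by
    have h2 : t ^ 2 ≤ 1 := by nlinarith
    have h4 : t ^ 4 ≤ 1 := by nlinarith [sq_nonneg (t ^ 2)]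
    have : 0 ≤ t ^ 2 := sq_nonneg t
    nlinarith
  have he2 : Real.exp (-(2 * y)) = (1 - t) ^ 2 := by
    rw [← he, ← Real.exp_nat_mul]; congr 1; push_cast; ring
  rw [he2, he]
  have h2t : 0 < 2 - t := by linarith
  have h3 : y ≤ 12 * t * (2 - t) / (24 - 24 * t + 4 * t ^ 2 - t ^ 4) := by linarith
  have h4 : (1 - t) / (12 * t * (2 - t) / (24 - 24 * t + 4 * t ^ 2 - t ^ 4)) ≤ (1 - t) / y :=
    div_le_div_of_nonneg_left h1t.le hy h3
  refine le_trans (le_of_eq ?_) h4
  have e1 : 1 - (1 - t) ^ 2 = t * (2 - t) := by ring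
  rw [e1]
  field_simp
  ring

theorem LF_add_gpoly {a b : ℝ} (ha : 0 < a) (hab : a ≤ b) (hb : 1 - Real.exp (-b) ≤ 0.89) :
    LF b + gpoly (1 - Real.exp (-b)) ≤ LF a + gpoly (1 - Real.exp (-a)) := by
  have hint1 := EE_intervalIntegrable ha hab
  have hlt : ∀ x : ℝ, 0 < x → Real.exp (-(2 * x)) < 1 := fun x hx => by
    rw [Real.exp_lt_one_iff]
    linarith
  set g : ℝ → ℝ := fun x => 2 * Real.exp (-(2 * x)) / (1 - Real.exp (-(2 * x)))
    + Real.exp (-x) * ((1 - Real.exp (-x)) / 6 + (1 - Real.exp (-x)) ^ 2 / 12) with hg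
  have hderiv : ∀ x ∈ Set.uIcc a b, HasDerivAt (fun x : ℝ => Real.log (1 - Real.exp (-(2 * x)))
      + gpoly (1 - Real.exp (-x))) (g x) x := by
    intro x hx
    rw [Set.uIcc_of_le hab] at hx
    have hx0 : 0 < x := lt_of_lt_of_le ha hx.1
    have h1 : HasDerivAt (fun x : ℝ => 1 - Real.exp (-(2 * x))) (2 * Real.exp (-(2 * x))) x := by
      have h2 : HasDerivAt (fun x : ℝ => -(2 * x)) (-2) x := by
        have h := (hasDerivAt_id x).const_mul (-2 : ℝ)
        have e : (fun x : ℝ => -(2 * x)) = fun x : ℝ => -2 * id x := by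
          funext z; simp
        rw [e]
        refine h.congr_deriv ?_
        ring
      have := (h2.exp).const_sub 1
      refine this.congr_deriv ?_
      ring
    have h3 := h1.log (by linarith [hlt x hx0])
    have h4 : HasDerivAt (fun x : ℝ => 1 - Real.exp (-x)) (Real.exp (-x)) x := by
      have h2 : HasDerivAt (fun x : ℝ => -x) (-1) x := hasDerivAt_neg x
      have := (h2.exp).const_sub 1
      refine this.congr_deriv ?_
      ring
    have h5 : HasDerivAt (fun x : ℝ => gpoly (1 - Real.exp (-x)))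
        (Real.exp (-x) * ((1 - Real.exp (-x)) / 6 + (1 - Real.exp (-x)) ^ 2 / 12)) x := by
      unfold gpoly
      have h6 := ((h4.pow 2).div_const 12).add ((h4.pow 3).div_const 36)
      refine h6.congr_deriv ?_
      push_cast
      ring
    exact h3.add h5
  have hcg : ContinuousOn g (Set.uIcc a b) := by
    rw [hg]
    apply ContinuousOn.add
    · apply ContinuousOn.div
      · fun_prop
      · fun_prop
      · intro x hx
        rw [Set.uIcc_of_le hab] at hx
        have hx0 : 0 < x := lt_of_lt_of_le ha hx.1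
        linarith [hlt x hx0]
    · fun_prop
  have hftc := intervalIntegral.integral_eq_sub_of_hasDerivAt hderiv hcg.intervalIntegrable
  have hle : ∫ x in a..b, g x ≤ ∫ x in a..b, Real.exp (-x) / x := by
    apply intervalIntegral.integral_mono_on hab hcg.intervalIntegrable hint1
    intro x hx
    have hx0 : 0 < x := lt_of_lt_of_le ha hx.1
    apply step_ineq hx0
    have : Real.exp (-b) ≤ Real.exp (-x) := Real.exp_le_exp.2 (by linarith [hx.2])
    linarith
  rw [hftc, ← EE_sub ha hab] at hle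
  unfold LF
  linarith

/-- Conclusion: `log F₂ y ≤ log F₂ y' + g(t') - t²/12`. -/
theorem LF_bound {a y : ℝ} (ha : 0 < a) (hay : a ≤ y) (ha1 : 1 - Real.exp (-a) ≤ 0.89) :
    LF y ≤ LF a + gpoly (1 - Real.exp (-a)) - (1 - Real.exp (-y)) ^ 2 / 12 := by
  rcases le_total (1 - Real.exp (-y)) 0.89 with h | h
  · have h1 := LF_add_gpoly ha hay h
    have h0 : 0 ≤ 1 - Real.exp (-y) := by
      have : Real.exp (-y) ≤ 1 := Real.exp_le_one_iff.2 (by linarith)
      linarith
    have h2 : (1 - Real.exp (-y)) ^ 2 / 12 ≤ gpoly (1 - Real.exp (-y)) := by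
      unfold gpoly
      have : 0 ≤ (1 - Real.exp (-y)) ^ 3 := by positivity
      linarith
    linarith
  · -- `b = -log 0.11`
    have hb0 : Real.exp (-(-Real.log 0.11)) = 0.11 := by
      rw [neg_neg, Real.exp_log (by norm_num)]
    have hb1 : 1 - Real.exp (-(-Real.log 0.11)) = 0.89 := by rw [hb0]; norm_num
    have hab : a ≤ -Real.log 0.11 := by
      have h1 : Real.exp (-(-Real.log 0.11)) ≤ Real.exp (-a) := by rw [hb0]; linarith
      have := Real.exp_le_exp.1 h1
      linarith
    have hby : -Real.log 0.11 ≤ y := by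
      have h1 : Real.exp (-y) ≤ Real.exp (-(-Real.log 0.11)) := by rw [hb0]; linarith
      have := Real.exp_le_exp.1 h1
      linarith
    have h1 := LF_add_gpoly ha hab (by rw [hb1])
    have h2 := F2_antitone (lt_of_lt_of_le ha hab) hby
    rw [hb1] at h1
    unfold LF at h1 ⊢
    have h3 : (1 - Real.exp (-y)) ^ 2 / 12 ≤ gpoly 0.89 := by
      unfold gpoly
      have h4 : 1 - Real.exp (-y) ≤ 1 := by linarith [Real.exp_pos (-y)]
      have h5 : (1 - Real.exp (-y)) ^ 2 ≤ 1 := by nlinarith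
      norm_num
      linarith
    linarith

/-- the correction coefficient -/
def ca (a : ℝ) : ℝ := if a ≤ 2 then (a - 1) / a else (a - 1) / 2

theorem ca_bound {a t : ℝ} (ha : 1 ≤ a) (h0 : 0 ≤ t) (h1 : t < 1) :
    t - (1 - (1 - t) ^ a) / a ≤ ca a * t ^ 2 := by
  have ha0 : 0 < a := by linarith
  have h1t : 0 < 1 - t := by linarith
  have hpow : (1 - t) ^ a = (1 - t) * (1 - t) ^ (a - 1) := by
    rw [Real.rpow_sub_one h1t.ne']
    field_simp
  unfold ca
  split_ifs with h
  · have h2 := rpow_one_add_le_one_add_mul_self (s := -t) (by linarith) (p := a - 1) (by linarith)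
      (by linarith)
    rw [← sub_eq_add_neg] at h2
    have h3 := mul_le_mul_of_nonneg_left h2 h1t.le
    rw [← hpow] at h3
    have h4 : t - (1 - (1 - t) ^ a) / a = (a * t - 1 + (1 - t) ^ a) / a := by
      field_simp
      ring
    have h5 : (a - 1) / a * t ^ 2 = ((a - 1) * t ^ 2) / a := by ring
    rw [h4, h5]
    apply div_le_div_of_nonneg_right _ ha0.le
    nlinarith
  · have ha2 : 2 ≤ a := by linarith
    -- h(u) = 1 - a u + a(a-1)/2 u² - (1-u)^a is monotone on [0, 1)
    have hd : ∀ u : ℝ, u < 1 → HasDerivAt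
        (fun u : ℝ => 1 - a * u + a * (a - 1) / 2 * u ^ 2 - (1 - u) ^ a)
        (-a + a * (a - 1) * u + a * (1 - u) ^ (a - 1)) u := by
      intro u hu
      have h2 : HasDerivAt (fun u : ℝ => 1 - u) (-1) u := by
        simpa using (hasDerivAt_id u).const_sub (1 : ℝ)
      have h3 := h2.rpow_const (p := a) (Or.inl (by linarith : (1 : ℝ) - u ≠ 0))
      have h4 : HasDerivAt (fun u : ℝ => 1 - a * u) (-a) u := by
        simpa using ((hasDerivAt_id u).const_mul a).const_sub (1 : ℝ)
      have h5 : HasDerivAt (fun u : ℝ => a * (a - 1) / 2 * u ^ 2) (a * (a - 1) / 2 * (2 * u)) u := by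
        simpa using (hasDerivAt_pow 2 u).const_mul (a * (a - 1) / 2)
      refine ((h4.add h5).sub h3).congr_deriv ?_
      ring
    have hmono : MonotoneOn (fun u : ℝ => 1 - a * u + a * (a - 1) / 2 * u ^ 2 - (1 - u) ^ a)
        (Set.Icc 0 t) := by
      apply monotoneOn_of_deriv_nonneg (convex_Icc 0 t)
      · exact fun u hu => (hd u (by linarith [hu.2])).continuousAt.continuousWithinAt
      · intro u hu
        rw [interior_Icc] at hu
        exact (hd u (by linarith [hu.2])).differentiableAt.differentiableWithinAt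
      · intro u hu
        rw [interior_Icc] at hu
        rw [(hd u (by linarith [hu.2])).deriv]
        have h2 := one_add_mul_self_le_rpow_one_add (s := -u) (by linarith [hu.2]) (p := a - 1)
          (by linarith)
        rw [← sub_eq_add_neg] at h2
        nlinarith
    have h2 := hmono (Set.left_mem_Icc.2 h0) (Set.right_mem_Icc.2 h0) h0
    simp only [mul_zero, sub_zero, ne_eq, OfNat.ofNat_ne_zero, not_false_eq_true, zero_pow, add_zero,
      Real.one_rpow, sub_self] at h2
    have h4 : t - (1 - (1 - t) ^ a) / a = (a * t - 1 + (1 - t) ^ a) / a := by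
      field_simp
      ring
    rw [h4, div_le_iff₀ ha0]
    nlinarith

end

end Pool.Agent.EZ
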