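import Pool.Agent.EZ.NBAbel
import Pool.Agent.EZ.NBF2
import Pool.Agent.EZ.Limit

/-!
# The bound (NB): payoff of a set of prime powers with small members weakened (helper46)
-/

set_option autoImplicit false

namespace Pool.Agent.EZ

open Finset MeasureTheory

noncomputable section

/-- prime powers up to `K` -/
def ppK (K : ℕ) : Finset ℕ := (Icc 1 K).filter IsPrimePow

theorem mem_ppK {K v : ℕ} : v ∈ ppK K ↔ IsPrimePow v ∧ v ≤ K := by
  unfold ppK
  rw [mem_filter, mem_Icc]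
  constructor
  · rintro ⟨⟨-, h2⟩, h3⟩; exact ⟨h3, h2⟩
  · rintro ⟨h1, h2⟩; exact ⟨⟨h1.pos, h2⟩, h1⟩

/-- the coefficients -/
def aS (S' : ℕ → ℝ) (m : ℕ) : ℝ := if IsPrimePow m then S' m * (Real.log m / m) else 0

theorem sum_aS (S' : ℕ → ℝ) (f : ℕ → ℝ) (K : ℕ) :
    ∑ m ∈ Icc 1 K, aS S' m * f m = ∑ v ∈ ppK K, S' v * (Real.log v / v) * f v := by
  unfold ppK
  rw [Finset.sum_filter]
  apply Finset.sum_congr rfl
  intro m _
  unfold aS
  split_ifs
  · rfl
  · simp

theorem EE_small (ε : ℝ) (hε : 0 < ε) : ∃ Y : ℝ, 1 ≤ Y ∧ ∀ y, Y ≤ y → EE y ≤ ε := by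
  refine ⟨max 1 (-Real.log ε), le_max_left _ _, ?_⟩
  intro y hy
  have h1 : 1 ≤ y := (le_max_left _ _).trans hy
  have h2 : -Real.log ε ≤ y := (le_max_right _ _).trans hy
  have h3 := EE_le (y := y) (by linarith)
  have h4 : (y + 1) / (y * (y + 2)) ≤ 1 := by
    rw [div_le_one (by positivity)]
    nlinarith
  have h5 : Real.exp (-y) ≤ ε := by
    rw [← Real.exp_log hε]
    apply Real.exp_le_exp.2
    linarith
  have h6 := mul_le_mul_of_nonneg_left h4 (Real.exp_pos (-y)).le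
  linarith

/-- The chain for fixed `s'`. -/
theorem NB_fix (VS Kd : Finset ℕ) (S S' : ℕ → ℝ) (N E1 E2 eta1 eta2 : ℝ) (n X : ℕ) (s' s : ℝ)
    (hs' : 0 < s') (hs : s' ≤ s)
    (hVS : ∀ v ∈ VS, IsPrimePow v) (hKd : ∀ v ∈ Kd, IsPrimePow v)
    (hS : ∀ v ∈ VS, S v ≤ S' v) (hS0 : ∀ v, 0 ≤ S' v) (hS1 : ∀ v, S' v ≤ 1)
    (hSK : ∀ v, v ∉ Kd → S' v = 1) (hN : 0 < N)
    (hn : (n : ℝ) ≤ Real.exp N) (hn' : Real.exp N ≤ n + 1) (hX : Real.exp N ≤ X)
    (hE1 : ∀ m, n ≤ m → m < X → Real.log ((m : ℝ) + 1) - A1 m ≤ E1)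
    (hE2 : ∀ m, X ≤ m → Real.log ((m : ℝ) + 1) - A1 m ≤ E2)
    (h1 : (∑ v ∈ Kd, (1 - S' v) * (Real.log v / v)) - N + E1 ≤ eta1)
    (h2 : (∑ v ∈ Kd, (1 - S' v) * (Real.log v / v)) - N + E2 ≤ eta2) :
    XX VS S (fun v : ℕ => (v : ℝ)) s ≤ Real.log (1 + 1 / s') + 0.4575
      - ∑ v ∈ Kd, (1 - S' v) * (v : ℝ) ^ (-(1 + s'))
      + EE (s * N) - EE (s' * N)
      + (eta1 * (ch s' s (Real.exp N) - ch s' s X) + eta2 * ch s' s X) := by
  have hs0 : 0 < s := by linarith
  have hrho : 1 < Real.exp N := by rw [Real.one_lt_exp_iff]; exact hN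
  apply le_of_forall_pos_le_add
  intro ε hε
  obtain ⟨Y, hY1, hY⟩ := EE_small ε hε
  set K0 := max X (max (VS.sup id) (Kd.sup id)) with hK0
  set K := max K0 ⌈Real.exp (Y / s')⌉₊ with hK
  have hXK : X ≤ K := le_trans (le_max_left _ _) (le_max_left _ _)
  have hVK : VS ⊆ ppK K := by
    intro v hv
    rw [mem_ppK]
    refine ⟨hVS v hv, ?_⟩
    refine le_trans (Finset.le_sup (f := id) hv) ?_
    exact le_trans (le_max_left _ _) (le_trans (le_max_right _ _) (le_max_left _ _))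
  have hKK : Kd ⊆ ppK K := by
    intro v hv
    rw [mem_ppK]
    refine ⟨hKd v hv, ?_⟩
    refine le_trans (Finset.le_sup (f := id) hv) ?_
    exact le_trans (le_max_right _ _) (le_trans (le_max_right _ _) (le_max_left _ _))
  have hEK : EE (s' * Real.log ((K : ℝ) + 1)) ≤ ε := by
    apply hY
    have h3 : Real.exp (Y / s') ≤ (K : ℝ) := by
      have h4 : Real.exp (Y / s') ≤ (⌈Real.exp (Y / s')⌉₊ : ℝ) := Nat.le_ceil _
      have h5 : ((⌈Real.exp (Y / s')⌉₊ : ℕ) : ℝ) ≤ (K : ℝ) := by exact_mod_cast le_max_right _ _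
      linarith
    have h4 : Y / s' ≤ Real.log ((K : ℝ) + 1) := by
      rw [Real.le_log_iff_exp_le (by positivity)]
      linarith
    rw [div_le_iff₀ hs'] at h4
    linarith
  -- partial sums
  have hB : ∀ m : ℕ, A1 m - (∑ v ∈ Kd, (1 - S' v) * (Real.log v / v)) ≤ ∑ k ∈ Icc 1 m, aS S' k := by
    intro m
    have e1 : ∑ k ∈ Icc 1 m, aS S' k = ∑ v ∈ ppK m, S' v * (Real.log v / v) := by
      have := sum_aS S' (fun _ => 1) m
      simpa using this
    have e2 : A1 m = ∑ v ∈ ppK m, Real.log v / v := rfl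
    rw [e1, e2]
    have e3 : ∑ v ∈ ppK m, Real.log v / v - ∑ v ∈ ppK m, S' v * (Real.log v / v)
        = ∑ v ∈ ppK m, (1 - S' v) * (Real.log v / v) := by
      rw [← Finset.sum_sub_distrib]
      apply Finset.sum_congr rfl
      intro v _; ring
    have hnn : ∀ v : ℕ, 0 ≤ (1 - S' v) * (Real.log v / v) := fun v =>
      mul_nonneg (by linarith [hS1 v]) (div_nonneg (Real.log_natCast_nonneg v) (Nat.cast_nonneg v))
    have e4 : ∑ v ∈ ppK m, (1 - S' v) * (Real.log v / v) ≤ ∑ v ∈ Kd, (1 - S' v) * (Real.log v / v) := by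
      rw [← Finset.sum_filter_add_sum_filter_not (ppK m) (fun v => v ∈ Kd)]
      have e5 : ∑ v ∈ (ppK m).filter (fun v => v ∉ Kd), (1 - S' v) * (Real.log v / v) = 0 := by
        apply Finset.sum_eq_zero
        intro v hv
        rw [hSK v (mem_filter.1 hv).2]
        ring
      rw [e5, add_zero]
      apply Finset.sum_le_sum_of_subset_of_nonneg
      · intro v hv
        exact (mem_filter.1 hv).2
      · intro v _ _
        exact hnn v
    linarith
  have hlogrho : Real.log (Real.exp N) = N := Real.log_exp N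
  have hab := abel_lower_two (aS S') n X (Real.exp N) s' s eta1 eta2 hs' hs hrho hn hn' (by
      intro m
      unfold aS
      split_ifs
      · exact mul_nonneg (hS0 m) (div_nonneg (Real.log_natCast_nonneg m) (Nat.cast_nonneg m))
      · exact le_rfl) (by
      unfold aS
      rw [if_neg not_isPrimePow_one]) hX (by
      intro m hm hmX
      have := hB m
      have := hE1 m hm hmX
      rw [hlogrho]
      linarith) (by
      intro m hm
      have := hB m
      have := hE2 m hm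
      rw [hlogrho]
      linarith) K hXK
  rw [hlogrho] at hab
  have hJ : EE (s' * N) - EE (s * N) - ε ≤ JJ s' s N (Real.log ((K : ℝ) + 1)) := by
    unfold JJ
    have hK1 : (1 : ℝ) < (K : ℝ) + 1 := by
      have h4 : (X : ℝ) ≤ K := by exact_mod_cast hXK
      linarith
    have := EE_nonneg (mul_pos hs0 (Real.log_pos hK1))
    linarith
  -- the sum
  have e1 : ∑ m ∈ Icc 1 K, aS S' m * ch s' s m
      = ∑ v ∈ ppK K, S' v * (v : ℝ) ^ (-(1 + s')) - ∑ v ∈ ppK K, S' v * (v : ℝ) ^ (-(1 + s)) := by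
    rw [sum_aS, ← Finset.sum_sub_distrib]
    apply Finset.sum_congr rfl
    intro v hv
    have hv2 : (1 : ℝ) < v := by exact_mod_cast (mem_ppK.1 hv).1.one_lt
    have hv0 : (0 : ℝ) < v := by linarith
    have hlog : Real.log (v : ℝ) ≠ 0 := (Real.log_pos hv2).ne'
    unfold ch gw
    have e : ∀ r : ℝ, (v : ℝ) ^ (-(1 + r)) = (v : ℝ) ^ (-r) / v := by
      intro r
      rw [show (-(1 + r)) = -r - 1 by ring, Real.rpow_sub_one hv0.ne']
    rw [e, e]
    field_simp
  have e2 : XX VS S (fun v : ℕ => (v : ℝ)) s ≤ ∑ v ∈ ppK K, S' v * (v : ℝ) ^ (-(1 + s)) := by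
    unfold XX aa
    calc ∑ v ∈ VS, S v * (v : ℝ) ^ (-(1 + s)) ≤ ∑ v ∈ VS, S' v * (v : ℝ) ^ (-(1 + s)) := by
          apply Finset.sum_le_sum
          intro v hv
          exact mul_le_mul_of_nonneg_right (hS v hv) (by positivity)
      _ ≤ _ := by
          apply Finset.sum_le_sum_of_subset_of_nonneg hVK
          intro v _ _
          exact mul_nonneg (hS0 v) (by positivity)
  have e3 : ∑ v ∈ ppK K, S' v * (v : ℝ) ^ (-(1 + s')) = ∑ v ∈ ppK K, (v : ℝ) ^ (-(1 + s'))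
      - ∑ v ∈ Kd, (1 - S' v) * (v : ℝ) ^ (-(1 + s')) := by
    have e4 : ∑ v ∈ Kd, (1 - S' v) * (v : ℝ) ^ (-(1 + s'))
        = ∑ v ∈ ppK K, (1 - S' v) * (v : ℝ) ^ (-(1 + s')) := by
      apply Finset.sum_subset hKK
      intro v _ hv
      rw [hSK v hv]; ring
    rw [e4, ← Finset.sum_sub_distrib]
    apply Finset.sum_congr rfl
    intro v _; ring
  have e5 := sum_pp_log hs' (ppK K) (fun v hv => (mem_ppK.1 hv).1)
  linarith

/-- (NB), logarithmic form. -/
theorem NB_log (VS Kd : Finset ℕ) (S S' : ℕ → ℝ) (N E1 E2 eta1 eta2 : ℝ) (n X : ℕ) (s : ℝ)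
    (hs : 0 < s)
    (hVS : ∀ v ∈ VS, IsPrimePow v) (hKd : ∀ v ∈ Kd, IsPrimePow v)
    (hS : ∀ v ∈ VS, S v ≤ S' v) (hS0 : ∀ v, 0 ≤ S' v) (hS1 : ∀ v, S' v ≤ 1)
    (hSK : ∀ v, v ∉ Kd → S' v = 1) (hN : 0 < N)
    (hn : (n : ℝ) ≤ Real.exp N) (hn' : Real.exp N ≤ n + 1) (hX : Real.exp N ≤ X)
    (hE1 : ∀ m, n ≤ m → m < X → Real.log ((m : ℝ) + 1) - A1 m ≤ E1)
    (hE2 : ∀ m, X ≤ m → Real.log ((m : ℝ) + 1) - A1 m ≤ E2)
    (h1 : (∑ v ∈ Kd, (1 - S' v) * (Real.log v / v)) - N + E1 ≤ eta1)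
    (h2 : (∑ v ∈ Kd, (1 - S' v) * (Real.log v / v)) - N + E2 ≤ eta2) :
    XX VS S (fun v : ℕ => (v : ℝ)) s + Real.log (1 - Real.exp (-(2 * (s * N))))
      ≤ Real.log (2 * N) + 0.4575 - ∑ v ∈ Kd, (1 - S' v) / (v : ℝ)
      - (1 - Real.exp (-(s * N))) ^ 2 / 12
      + (eta1 * (ch 0 s (Real.exp N) - ch 0 s X) + eta2 * ch 0 s X) := by
  set R : ℝ → ℝ := fun s' => gpoly (1 - Real.exp (-(s' * N))) - (1 - Real.exp (-(s * N))) ^ 2 / 12
      + Real.log (2 * N * (1 + s')) + 0.4575 - ∑ v ∈ Kd, (1 - S' v) * (v : ℝ) ^ (-(1 + s'))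
      + (eta1 * (ch s' s (Real.exp N) - ch s' s X) + eta2 * ch s' s X) with hR
  have hXpos : (0 : ℝ) < X := lt_of_lt_of_le (Real.exp_pos N) hX
  have hR0 : R 0 = Real.log (2 * N) + 0.4575 - ∑ v ∈ Kd, (1 - S' v) / (v : ℝ)
      - (1 - Real.exp (-(s * N))) ^ 2 / 12
      + (eta1 * (ch 0 s (Real.exp N) - ch 0 s X) + eta2 * ch 0 s X) := by
    rw [hR]
    simp only [zero_mul, neg_zero, Real.exp_zero, sub_self, add_zero, mul_one]
    have e1 : gpoly 0 = 0 := by simp [gpoly]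
    rw [e1]
    have e2 : ∑ v ∈ Kd, (1 - S' v) * (v : ℝ) ^ (-1 : ℝ) = ∑ v ∈ Kd, (1 - S' v) / (v : ℝ) := by
      apply Finset.sum_congr rfl
      intro v _
      rw [Real.rpow_neg_one]; rfl
    rw [e2]
    ring
  have hchc : ∀ x : ℝ, 0 < x → ContinuousAt (fun s' => ch s' s x) 0 := by
    intro x hx
    unfold ch gw
    have h3 : Continuous (fun s' : ℝ => x ^ (-s')) := by
      have := Real.continuous_const_rpow hx.ne'
      exact this.comp continuous_neg
    exact ((h3.div_const _).sub continuous_const).continuousAt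
  have hcont : ContinuousAt R 0 := by
    rw [hR]
    apply ContinuousAt.add
    · apply ContinuousAt.sub
      · apply ContinuousAt.add
        · apply ContinuousAt.add
          · apply ContinuousAt.sub
            · unfold gpoly
              fun_prop
            · exact continuousAt_const
          · apply ContinuousAt.log
            · fun_prop
            · simp only [add_zero, mul_one]
              positivity
        · exact continuousAt_const
      · apply Continuous.continuousAt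
        apply continuous_finsetSum
        intro v hv
        have hv0 : (v : ℝ) ≠ 0 := by
          have := (hKd v hv).pos
          positivity
        have h3 : Continuous (fun s' : ℝ => (v : ℝ) ^ (-(1 + s'))) := by
          have := Real.continuous_const_rpow hv0
          exact this.comp (by fun_prop : Continuous fun s' : ℝ => -(1 + s'))
        exact continuous_const.mul h3
    · exact (continuousAt_const.mul ((hchc _ (Real.exp_pos N)).sub (hchc _ hXpos))).add
        (continuousAt_const.mul (hchc _ hXpos))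
  rw [← hR0]
  have ht : Filter.Tendsto R (nhdsWithin 0 (Set.Ioi 0)) (nhds (R 0)) :=
    hcont.tendsto.mono_left nhdsWithin_le_nhds
  apply ge_of_tendsto ht
  have hev1 : ∀ᶠ s' in nhdsWithin (0 : ℝ) (Set.Ioi 0), s' < s :=
    nhdsWithin_le_nhds (Iio_mem_nhds hs)
  have hev2 : ∀ᶠ s' in nhdsWithin (0 : ℝ) (Set.Ioi 0), 1 - Real.exp (-(s' * N)) < 0.89 := by
    apply nhdsWithin_le_nhds
    have hc : ContinuousAt (fun s' : ℝ => 1 - Real.exp (-(s' * N))) 0 := by fun_prop
    have := hc.tendsto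
    simp only [zero_mul, neg_zero, Real.exp_zero, sub_self] at this
    exact this (Iio_mem_nhds (by norm_num))
  filter_upwards [hev1, hev2, self_mem_nhdsWithin] with s' hs1 hs2 hs3
  have hs3' : 0 < s' := hs3
  have k1 := NB_fix VS Kd S S' N E1 E2 eta1 eta2 n X s' s hs3' hs1.le hVS hKd hS hS0 hS1 hSK hN
    hn hn' hX hE1 hE2 h1 h2
  have k2 := LF_bound (a := s' * N) (y := s * N) (mul_pos hs3' hN)
    (mul_le_mul_of_nonneg_right hs1.le hN.le) hs2.le
  have k3 : Real.log (1 + 1 / s') + Real.log (1 - Real.exp (-(2 * (s' * N))))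
      ≤ Real.log (2 * N * (1 + s')) := by
    have hp : 0 < 1 - Real.exp (-(2 * (s' * N))) := by
      have : Real.exp (-(2 * (s' * N))) < 1 := by
        rw [Real.exp_lt_one_iff]
        have := mul_pos hs3' hN
        linarith
      linarith
    rw [← Real.log_mul (by positivity) hp.ne']
    apply Real.log_le_log (by positivity)
    have h4 : 1 - Real.exp (-(2 * (s' * N))) ≤ 2 * (s' * N) := by
      have := Real.add_one_le_exp (-(2 * (s' * N)))
      linarith
    have h5 : 0 ≤ 1 + 1 / s' := by positivity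
    have h6 := mul_le_mul_of_nonneg_left h4 h5
    refine h6.trans (le_of_eq ?_)
    field_simp
    ring
  unfold LF at k2
  rw [hR]
  simp only
  linarith

/-- (NB): in terms of `t = 1 - e^{-sN}`. -/
theorem NB_bound (VS Kd : Finset ℕ) (S S' : ℕ → ℝ) (N E1 E2 eta1 eta2 : ℝ) (n X : ℕ) (s : ℝ)
    (hs : 0 ≤ s)
    (hVS : ∀ v ∈ VS, IsPrimePow v) (hKd : ∀ v ∈ Kd, IsPrimePow v)
    (hS : ∀ v ∈ VS, S v ≤ S' v) (hS0 : ∀ v, 0 ≤ S' v) (hS1 : ∀ v, S' v ≤ 1)
    (hSK : ∀ v, v ∉ Kd → S' v = 1) (hN : 0 < N)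
    (hn : (n : ℝ) ≤ Real.exp N) (hn' : Real.exp N ≤ n + 1) (hX : Real.exp N ≤ X)
    (hE1 : ∀ m, n ≤ m → m < X → Real.log ((m : ℝ) + 1) - A1 m ≤ E1)
    (hE2 : ∀ m, X ≤ m → Real.log ((m : ℝ) + 1) - A1 m ≤ E2)
    (h1 : (∑ v ∈ Kd, (1 - S' v) * (Real.log v / v)) - N + E1 ≤ eta1)
    (h2 : (∑ v ∈ Kd, (1 - S' v) * (Real.log v / v)) - N + E2 ≤ eta2) (h12 : eta2 ≤ eta1) :
    Real.exp (XX VS S (fun v : ℕ => (v : ℝ)) s) * (1 - Real.exp (-(2 * (s * N))))
      ≤ 2 * N * Real.exp (0.4575 - ∑ v ∈ Kd, (1 - S' v) / (v : ℝ)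
        + eta2 / N * (1 - Real.exp (-(s * N)))
        - (1 / 12 - (eta1 - eta2) * ca (Real.log X / N) / N) * (1 - Real.exp (-(s * N))) ^ 2) := by
  rcases hs.eq_or_lt with h | hs0
  · subst h
    simp only [zero_mul, mul_zero, neg_zero, Real.exp_zero, sub_self]
    positivity
  have hsN : 0 < s * N := mul_pos hs0 hN
  have hp : 0 < 1 - Real.exp (-(2 * (s * N))) := by
    have : Real.exp (-(2 * (s * N))) < 1 := by
      rw [Real.exp_lt_one_iff]; linarith
    linarith
  have k1 := NB_log VS Kd S S' N E1 E2 eta1 eta2 n X s hs0 hVS hKd hS hS0 hS1 hSK hN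
    hn hn' hX hE1 hE2 h1 h2
  set t : ℝ := 1 - Real.exp (-(s * N)) with ht
  have he : Real.exp (-(s * N)) = 1 - t := by rw [ht]; ring
  have ht0 : 0 ≤ t := by
    have : Real.exp (-(s * N)) ≤ 1 := Real.exp_le_one_iff.2 (by linarith)
    rw [ht]; linarith
  have ht1 : t < 1 := by
    have := Real.exp_pos (-(s * N))
    rw [ht]; linarith
  have hXpos : (0 : ℝ) < X := lt_of_lt_of_le (Real.exp_pos N) hX
  have hlX : N ≤ Real.log X := by
    rw [Real.le_log_iff_exp_le hXpos]; exact hX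
  have hlXp : 0 < Real.log X := by linarith
  have e1 : ch 0 s (Real.exp N) = t / N := by
    unfold ch gw
    rw [Real.log_exp, neg_zero, Real.rpow_zero, ← Real.exp_mul]
    have : N * -s = -(s * N) := by ring
    rw [this, he]
    ring
  have e2 : ch 0 s X = (1 - (1 - t) ^ (Real.log X / N)) / Real.log X := by
    unfold ch gw
    rw [neg_zero, Real.rpow_zero, ← sub_div]
    congr 2
    rw [← he, ← Real.exp_mul, Real.rpow_def_of_pos hXpos]
    congr 1
    field_simp
  have k2 := ca_bound (a := Real.log X / N) (t := t) (by rw [le_div_iff₀ hN]; linarith) ht0 ht1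
  have k3 : eta1 * (ch 0 s (Real.exp N) - ch 0 s X) + eta2 * ch 0 s X
      ≤ eta2 / N * t + (eta1 - eta2) * ca (Real.log X / N) / N * t ^ 2 := by
    rw [e1, e2]
    have e3 : eta1 * (t / N - (1 - (1 - t) ^ (Real.log X / N)) / Real.log X)
        + eta2 * ((1 - (1 - t) ^ (Real.log X / N)) / Real.log X)
        = eta2 / N * t + (eta1 - eta2) / N
          * (t - (1 - (1 - t) ^ (Real.log X / N)) / (Real.log X / N)) := by
      field_simp
      ring
    rw [e3]
    have h4 : 0 ≤ (eta1 - eta2) / N := div_nonneg (by linarith) hN.le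
    have h5 := mul_le_mul_of_nonneg_left k2 h4
    have e4 : (eta1 - eta2) / N * (ca (Real.log X / N) * t ^ 2)
      = (eta1 - eta2) * ca (Real.log X / N) / N * t ^ 2 := by ring
    linarith
  have e5 : Real.exp (XX VS S (fun v : ℕ => (v : ℝ)) s) * (1 - Real.exp (-(2 * (s * N))))
      = Real.exp (XX VS S (fun v : ℕ => (v : ℝ)) s + Real.log (1 - Real.exp (-(2 * (s * N))))) := by
    rw [Real.exp_add, Real.exp_log hp]
  rw [e5]
  have e6 : ∀ z : ℝ, 2 * N * Real.exp z = Real.exp (Real.log (2 * N) + z) := by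
    intro z
    rw [Real.exp_add, Real.exp_log (by positivity)]
  rw [e6]
  apply Real.exp_le_exp.2
  have e7 : (1 / 12 - (eta1 - eta2) * ca (Real.log X / N) / N) * t ^ 2
      = t ^ 2 / 12 - (eta1 - eta2) * ca (Real.log X / N) / N * t ^ 2 := by ring
  rw [e7]
  linarith

end

end Pool.Agent.EZ
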