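import Pool.Agent.EZ.NB

/-!
# Values of the error terms in (NB) (helper46)
-/

set_option autoImplicit false

namespace Pool.Agent.EZ

open Finset

/-- `log (m+1) - A1 m ≤ 1 - eeT m / 10^4` for all `m ≥ 1`. -/
def eeT (m : ℕ) : ℕ := if m < 2 then 3068 else if m < 10000 then e1 m else 14209

theorem log_A1 (m : ℕ) (hm : 1 ≤ m) :
    Real.log ((m : ℝ) + 1) - A1 m ≤ 1 - (eeT m : ℝ) / 10000 := by
  unfold eeT
  split_ifs with h1 h2
  · have : m = 1 := by omega
    subst this
    have h0 : A1 1 = 0 := by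
      unfold A1
      rw [Finset.sum_filter]
      simp [not_isPrimePow_one]
    rw [h0]
    have := Real.log_two_lt_d9
    norm_num
    linarith
  · have h := (table1 (m + 1) (by omega) (by omega)).2.2
    rw [Nat.add_sub_cancel] at h
    push_cast at h
    linarith
  · have h := A1_lower_large m (by omega)
    have hm0 : (10000 : ℝ) ≤ m := by
      have : 10000 ≤ m := by omega
      exact_mod_cast this
    have h3 : Real.log ((m : ℝ) + 1) ≤ Real.log m + 0.0001 := by
      have h4 : (m : ℝ) + 1 = m * (1 + 1 / m) := by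
        have : (m : ℝ) ≠ 0 := by linarith
        field_simp
      rw [h4, Real.log_mul (by linarith) (by positivity)]
      have h5 : Real.log (1 + 1 / (m : ℝ)) ≤ 1 / (m : ℝ) := by
        have := Real.log_le_sub_one_of_pos (x := 1 + 1 / (m : ℝ)) (by positivity)
        linarith
      have h6 : (1 : ℝ) / m ≤ 1 / 10000 := one_div_le_one_div_of_le (by norm_num) hm0
      linarith
    push_cast
    linarith

theorem ee_ge_128 {m : ℕ} (h : 128 ≤ m) : 14209 ≤ eeT m := by
  unfold eeT
  rw [if_neg (by omega)]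
  split_ifs
  · unfold e1
    have e : ∀ b : Bool, ∀ x y : ℕ, 14209 ≤ x → 14209 ≤ y → 14209 ≤ cond b x y := by
      intro b x y hx hy; cases b <;> assumption
    have h11 : Nat.ble 128 m = true := by rw [Nat.ble_eq]; exact h
    rw [h11, cond_true]
    repeat' apply e
    all_goals norm_num
  · exact le_rfl

/-- A lower bound for all `eeT m`, `m ≥ n`. -/
theorem ee_ge (n val : ℕ) (hval : val ≤ 14209) (h : ∀ m ∈ Ico n 128, val ≤ eeT m) (m : ℕ) (hm : n ≤ m) :
    val ≤ eeT m := by
  rcases Nat.lt_or_ge m 128 with h2 | h2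
  · exact h m (mem_Ico.2 ⟨hm, h2⟩)
  · exact hval.trans (ee_ge_128 h2)

/-- the constants `E` in (NB). -/
theorem E_of (n val : ℕ) (hn : 1 ≤ n) (hval : val ≤ 14209) (h : ∀ m ∈ Ico n 128, val ≤ eeT m) :
    ∀ m, n ≤ m → Real.log ((m : ℝ) + 1) - A1 m ≤ 1 - (val : ℝ) / 10000 := by
  intro m hm
  have h1 := log_A1 m (hn.trans hm)
  have h2 : (val : ℝ) ≤ (eeT m : ℝ) := by exact_mod_cast ee_ge n val hval h m hm
  linarith

/-- `log (m+1) - A1 m ≤ -0.4209` for `m ≥ 127`. -/
theorem E_127 : ∀ m : ℕ, 127 ≤ m → Real.log ((m : ℝ) + 1) - A1 m ≤ -0.4209 := by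
  intro m hm
  have h := E_of 127 14209 (by norm_num) le_rfl (by decide) m hm
  norm_num at h ⊢
  linarith

end Pool.Agent.EZ
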