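import Pool.Agent.EZ.SumPP
import Pool.Agent.EZ.LP2
import Pool.Agent.EZ.Cross
import Pool.Agent.EZ.NB
import Pool.Agent.EZ.FB
import Pool.Agent.EZ.NBTable

/-!
# The design: clocks, survival probabilities, and the predicates used by the numeric modules
-/

set_option autoImplicit false
set_option linter.unusedSectionVars false

namespace Pool.Agent.EZ

open Finset

/-- position (unit `10^-4`) of atom `j` of the clock of the prime power `v` over the prime `r`. -/
def ck (v r j : ℕ) : ℕ :=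
  if v = 2 then 10000
  else if v = 3 then (if j = 0 then 15000 else 30000)
  else if v = 4 then 20000
  else if v = 5 then (if j = 0 then 35000 else 55000)
  else if v = 7 then (if j = 0 then 60000 else 127500)
  else if v = 8 then 50000
  else if v = 9 then (if j = 0 then 40000 else 65000)
  else if v = 16 then 70000
  else if v = 25 then 188000
  else if v = 27 then 189000
  else if v = 32 then 192000
  else if v = 64 then 420000
  else if v = r then (v - 2) * 13 ^ j * 10 ^ (4 - j)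
  else (v - v / r) * 10000

/-- probability (unit `10^-3`) of atom `j`. -/
def pk (v r j : ℕ) : ℕ :=
  if v = 3 then (if j = 0 then 230 else if j = 1 then 770 else 0)
  else if v = 5 then (if j = 0 then 120 else if j = 1 then 880 else 0)
  else if v = 7 then (if j = 0 then 800 else if j = 1 then 200 else 0)
  else if v = 9 then (if j = 0 then 430 else if j = 1 then 570 else 0)
  else if 11 ≤ v ∧ v = r then
    (if j = 0 then 231 else if j = 1 then 178 else if j = 2 then 136 else if j = 3 then 105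
      else if j = 4 then 350 else 0)
  else (if j = 0 then 1000 else 0)

/-- survival (unit `10^-3`) of `v` (over the prime `r`) at clock value `x` (unit `10^-4`). -/
def svN (x v r : ℕ) : ℕ :=
  (if x ≤ ck v r 0 then pk v r 0 else 0) + (if x ≤ ck v r 1 then pk v r 1 else 0)
    + (if x ≤ ck v r 2 then pk v r 2 else 0) + (if x ≤ ck v r 3 then pk v r 3 else 0)
    + (if x ≤ ck v r 4 then pk v r 4 else 0)

/-- survival probability of `v` at clock value `x`. -/
noncomputable def Sx (x v : ℕ) : ℝ := (svN x v v.minFac : ℝ) / 1000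

/-- atom probabilities -/
noncomputable def qD (v : ℕ) (j : Fin 5) : ℝ := (pk v v.minFac j : ℝ) / 1000

/-- atom positions -/
noncomputable def cD (v : ℕ) (j : Fin 5) : ℝ := (ck v v.minFac j : ℝ)

theorem qD_nonneg (v : ℕ) (j : Fin 5) : 0 ≤ qD v j := by unfold qD; positivity

theorem pk_sum (v r : ℕ) : pk v r 0 + pk v r 1 + pk v r 2 + pk v r 3 + pk v r 4 = 1000 := by
  by_cases h3 : v = 3
  · subst h3; rfl
  by_cases h5 : v = 5
  · subst h5; rfl
  by_cases h7 : v = 7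
  · subst h7; rfl
  by_cases h9 : v = 9
  · subst h9; rfl
  by_cases h11 : 11 ≤ v ∧ v = r
  · simp only [pk, if_neg h3, if_neg h5, if_neg h7, if_neg h9, if_pos h11]
    norm_num
  · simp only [pk, if_neg h3, if_neg h5, if_neg h7, if_neg h9, if_neg h11]
    norm_num

theorem qD_sum (v : ℕ) : ∑ j, qD v j = 1 := by
  have h := pk_sum v v.minFac
  have h' : ((pk v v.minFac 0 + pk v v.minFac 1 + pk v v.minFac 2 + pk v v.minFac 3
      + pk v v.minFac 4 : ℕ) : ℝ) = 1000 := by rw [h]; norm_num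
  push_cast at h'
  simp only [Fin.sum_univ_five, qD]
  have e0 : ((0 : Fin 5) : ℕ) = 0 := rfl
  have e1 : ((1 : Fin 5) : ℕ) = 1 := rfl
  have e2 : ((2 : Fin 5) : ℕ) = 2 := rfl
  have e3 : ((3 : Fin 5) : ℕ) = 3 := rfl
  have e4 : ((4 : Fin 5) : ℕ) = 4 := rfl
  rw [e0, e1, e2, e3, e4]
  linarith

theorem svN_le (x v r : ℕ) : svN x v r ≤ 1000 := by
  have h := pk_sum v r
  unfold svN
  split_ifs <;> omega

theorem Sx_nonneg (x v : ℕ) : 0 ≤ Sx x v := by unfold Sx; positivity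

theorem Sx_le_one (x v : ℕ) : Sx x v ≤ 1 := by
  unfold Sx
  rw [div_le_one (by norm_num)]
  exact_mod_cast svN_le x v v.minFac

/-- the survival function of the design. -/
theorem sv_design (x v : ℕ) : sv qD cD (x : ℝ) v = Sx x v := by
  unfold sv
  simp only [Fin.sum_univ_five, qD, cD, Sx, svN, Nat.cast_le, Nat.cast_add, Nat.cast_ite,
    Nat.cast_zero]
  have e0 : ((0 : Fin 5) : ℕ) = 0 := rfl
  have e1 : ((1 : Fin 5) : ℕ) = 1 := rfl
  have e2 : ((2 : Fin 5) : ℕ) = 2 := rfl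
  have e3 : ((3 : Fin 5) : ℕ) = 3 := rfl
  have e4 : ((4 : Fin 5) : ℕ) = 4 := rfl
  rw [e0, e1, e2, e3, e4]
  split_ifs <;> ring

/-- families over the root `z`. -/
def Fam (z : ℕ) (M : Finset (Finset ℕ)) : Prop :=
  QP Nat.minFac (↑M : Set (Finset ℕ)) ∧ Trans Nat.minFac M ∧
    ∀ m ∈ M, m.Nonempty ∧ ∀ v ∈ m, IsPrimePow v ∧ v.minFac ≠ z.minFac

/-- mass at clock value `x` of the family `M` over the root `z`. -/
noncomputable def mass (z x : ℕ) (M : Finset (Finset ℕ)) : ℝ :=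
  ∑ m ∈ M, (∏ v ∈ m, Sx x v) * hh ((z : ℝ) * ∏ v ∈ m, (v : ℝ))

/-- the hitting probability. -/
noncomputable def hit (x : ℕ) (VS : Finset ℕ) (M : Finset (Finset ℕ)) : ℝ :=
  PU VS (Sx x) (fun v : ℕ => (v : ℝ)) (↑M : Set (Finset ℕ))

/-- absolute bound. -/
def ABSB (z x : ℕ) (a : ℝ) : Prop := ∀ M, Fam z M → mass z x M ≤ a * hh (z : ℝ)

/-- bound linear in the hitting probability. -/
def LINB (z x : ℕ) (l : ℝ) : Prop := ∀ M, Fam z M → ∀ VS : Finset ℕ,
  (∀ v ∈ VS, IsPrimePow v) → (∀ m ∈ M, m ⊆ VS) → mass z x M ≤ l * hh (z : ℝ) * hit x VS M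

/-- bound for intersecting families. -/
def TOPB (z x : ℕ) (t : ℝ) : Prop := ∀ M, Fam z M → Inter Nat.minFac (↑M : Set (Finset ℕ)) →
  mass z x M ≤ t * hh (z : ℝ)

/-- admissible constant for the root `z v` with the components after `v`. -/
def KB (z x v : ℕ) (κ : ℝ) : Prop := ∀ VS : Finset ℕ,
  (∀ w ∈ VS, IsPrimePow w ∧ v < w ∧ w.minFac ≠ z.minFac ∧ w.minFac ≠ v.minFac) →
  Kap Nat.minFac VS (Sx x) (fun w : ℕ => (w : ℝ)) ((z : ℝ) * v) κ

/-- total weight of the components up to `y`. -/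
noncomputable def Wt (z x y : ℕ) : ℝ :=
  ∑ w ∈ (ppK y).filter (fun w => w.minFac ≠ z.minFac), Sx x w / (w : ℝ)

/-- the block theorem. -/
def Stmt_BT : Prop := ∀ (z x n : ℕ) (X : ℕ → ℕ) (G E : ℕ → ℝ), IsPrimePow z →
  X 0 = 0 → (∀ i < n, X i < X (i + 1)) → (∀ i, 0 ≤ G i) → (∀ i < n, G i ≤ G (i + 1)) →
  (∀ i ≤ n, Real.exp (-Wt z x (X i)) ≤ E i) →
  (∀ v, IsPrimePow v → v.minFac ≠ z.minFac → 0 < Sx x v → ∀ i ≤ n, X i < v →
    (i < n → v ≤ X (i + 1)) → ∃ κ : ℝ, KB z x v κ ∧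
      κ / Real.log ((z : ℝ) * v) * Real.exp (Wt z x v - Sx x v / (v : ℝ) / 2) ≤ G i) →
  LINB z x (Real.log z * (G 0 + ∑ i ∈ range n, (G (i + 1) - G i) * E (i + 1))) ∧
  ∀ ω : ℕ → ℝ, (∀ i ≤ n, Real.exp (ω i) ≤ 2 ∧ ∀ VS : Finset ℕ,
      (∀ w ∈ VS, IsPrimePow w ∧ X i < w ∧ w.minFac ≠ z.minFac) →
      ∀ r, ∑ w ∈ VS.filter (fun w => w.minFac = r), Sx x w / (w : ℝ) ≤ ω i) →
    TOPB z x (Real.log z * (G 0 * (1 - Real.exp (-ω 0))
      + ∑ i ∈ range n, (G (i + 1) - G i) * E (i + 1) * (1 - Real.exp (-ω (i + 1)))))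

/-- the crude absolute bound. -/
def Stmt_AB : Prop := ∀ (z x : ℕ) (C : ℕ → ℝ) (A : ℝ), IsPrimePow z → (∀ v, 0 ≤ C v) →
  (∀ v, IsPrimePow v → v.minFac ≠ z.minFac → 0 < Sx x v →
    KB z x v (C v * Real.log ((z : ℝ) * v))) →
  (∀ N, ∑ v ∈ (ppK N).filter (fun w => w.minFac ≠ z.minFac), Sx x v / (v : ℝ) * C v ≤ A) →
  ABSB z x (Real.log z * A)

end Pool.Agent.EZ
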