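import Pool.Agent.EZ.Block
import Pool.Agent.EZ.Design

/-!
# The block theorem and the crude absolute bound
-/

set_option autoImplicit false
set_option linter.unusedSectionVars false
set_option linter.unusedVariables false

namespace Pool.Agent.EZ

open Finset

theorem Wt_eq (z x y : ℕ) : Wt z x y = WtI (Sx x) z.minFac 0 (y + 1) := by
  unfold Wt WtI
  congr 1
  ext w
  rw [Finset.mem_filter, mem_ppK, mem_PPs]
  constructor
  · rintro ⟨⟨h1, h2⟩, h3⟩; exact ⟨⟨by omega, by omega⟩, h1, h3⟩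
  · rintro ⟨⟨_, h2⟩, h1, h3⟩; exact ⟨⟨h1, by omega⟩, h3⟩

/-- `1 - e^{-u} ≥ u e^{-u/2}`. -/
theorem one_sub_exp_ge {u : ℝ} (hu : 0 ≤ u) : u * Real.exp (-(u / 2)) ≤ 1 - Real.exp (-u) := by
  have h1 : u / 2 ≤ Real.sinh (u / 2) := Real.self_le_sinh_iff.2 (by linarith)
  rw [Real.sinh_eq] at h1
  have h2 : Real.exp (-(u / 2)) * Real.exp (u / 2) = 1 := by rw [← Real.exp_add]; simp
  have h3 : Real.exp (-(u / 2)) * Real.exp (-(u / 2)) = Real.exp (-u) := by
    rw [← Real.exp_add]; congr 1; ring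
  have h4 := mul_le_mul_of_nonneg_left h1 (Real.exp_pos (-(u / 2))).le
  nlinarith

theorem z_facts {z : ℕ} (hz : IsPrimePow z) : (1 : ℝ) < z ∧ 0 < Real.log z := by
  have h1 : (1 : ℝ) < z := by exact_mod_cast hz.one_lt
  exact ⟨h1, Real.log_pos h1⟩

theorem hh_z {z : ℕ} (hz : IsPrimePow z) : Real.log z * hh (z : ℝ) = 1 / (z : ℝ) := by
  obtain ⟨h1, h2⟩ := z_facts hz
  unfold hh
  field_simp

/-- the first component estimate in the design. -/
theorem first_comp_design (z x N : ℕ) (hz : IsPrimePow z) (M : Finset (Finset ℕ)) (hM : Fam z M)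
    (hMN : ∀ m ∈ M, ∀ w ∈ m, w < N) (v : ℕ) (hv : IsPrimePow v) (hvz : v.minFac ≠ z.minFac)
    (κ : ℝ) (hκ : 0 < Sx x v → KB z x v κ) (β : ℝ) (hβ0 : 0 ≤ β)
    (hβ : 0 < Sx x v → Sx x v * (hh ((z : ℝ) * v) * κ) ≤ β) :
    ∑ m ∈ (Mx M v).filter (fun m => v ∈ m), (∏ w ∈ m, Sx x w) * hh ((z : ℝ) * ∏ w ∈ m, (w : ℝ))
      ≤ β * PUN z.minFac N (Sx x) (v + 1) (lkf v (Mx M v)) := by
  obtain ⟨hQP, hT, hmem⟩ := hM
  have hP0 : 0 ≤ PUN z.minFac N (Sx x) (v + 1) (lkf v (Mx M v)) :=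
    PU_nonneg _ _ _ (fun w _ => Sx_nonneg x w) (fun w hw => PPs_val hw) _
  rcases eq_or_lt_of_le (Sx_nonneg x v) with h0 | h0
  · rw [Finset.sum_eq_zero]
    · exact mul_nonneg hβ0 hP0
    · intro m hm
      have hvm := (Finset.mem_filter.1 hm).2
      rw [Finset.prod_eq_zero hvm h0.symm, zero_mul]
  · have hκ' := hκ h0
    set N' := Mx M v with hN'
    have hNM : ∀ m ∈ N', m ∈ M := fun m hm => (mem_Mx.1 hm).1
    have hlk : ∑ m ∈ N'.filter (fun m => v ∈ m), (∏ w ∈ m, Sx x w) * hh ((z : ℝ) * ∏ w ∈ m, (w : ℝ))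
        = Sx x v * ∑ m ∈ lkf v N', (∏ w ∈ m, Sx x w) * hh (((z : ℝ) * v) * ∏ w ∈ m, (w : ℝ)) := by
      unfold lkf
      rw [Finset.sum_image, Finset.mul_sum]
      · apply Finset.sum_congr rfl
        intro m hm
        obtain ⟨-, hv⟩ := Finset.mem_filter.1 hm
        rw [← Finset.mul_prod_erase m (Sx x) hv, ← Finset.mul_prod_erase m (fun w : ℕ => (w : ℝ)) hv]
        rw [mul_assoc, mul_assoc (z : ℝ)]
      · intro m hm m' hm' h
        have hv := (Finset.mem_filter.1 (Finset.mem_coe.1 hm)).2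
        have hv' := (Finset.mem_filter.1 (Finset.mem_coe.1 hm')).2
        have h' : m.erase v = m'.erase v := h
        rw [← Finset.insert_erase hv, ← Finset.insert_erase hv', h']
    have hmem' : ∀ m ∈ lkf v N', m ⊆ (PPs z.minFac (v + 1) N).filter (fun w => w.minFac ≠ v.minFac) := by
      intro m hm w hw
      obtain ⟨k, hk, rfl⟩ := Finset.mem_image.1 hm
      obtain ⟨hk1, hk2⟩ := Finset.mem_filter.1 hk
      have hwk := Finset.mem_of_mem_erase hw
      have hwv := Finset.ne_of_mem_erase hw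
      have hkM := hNM k hk1
      obtain ⟨h1, h2⟩ := (hmem k hkM).2 w hwk
      have h3 := (mem_Mx.1 hk1).2 w hwk
      refine Finset.mem_filter.2 ⟨mem_PPs.2 ⟨⟨?_, hMN k hkM w hwk⟩, h1, h2⟩, ?_⟩
      · omega
      · intro h
        exact hwv (hT k hkM w hwk v hk2 h)
    have hb := hκ' ((PPs z.minFac (v + 1) N).filter (fun w => w.minFac ≠ v.minFac)) (by
      intro w hw
      obtain ⟨h1, h2⟩ := Finset.mem_filter.1 hw
      obtain ⟨⟨h3, h4⟩, h5, h6⟩ := mem_PPs.1 h1
      exact ⟨h5, by omega, h6, h2⟩) (lkf v N') (by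
      rw [lkf_coe]
      exact QP_lk (QP_subset hQP (fun m hm => Finset.mem_coe.2 (hNM m (Finset.mem_coe.1 hm)))) v) hmem'
    have hPU := PU_subset_eq (PPs z.minFac (v + 1) N)
      ((PPs z.minFac (v + 1) N).filter (fun w => w.minFac ≠ v.minFac))
      (Finset.filter_subset _ _) (Sx x) (fun w : ℕ => (w : ℝ)) ↑(lkf v N')
      (fun m hm => hmem' m (Finset.mem_coe.1 hm))
    rw [hPU] at hb
    rw [hlk]
    calc _ ≤ Sx x v * (hh ((z : ℝ) * v) * κ * PUN z.minFac N (Sx x) (v + 1) (lkf v N')) :=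
          mul_le_mul_of_nonneg_left hb (Sx_nonneg x v)
      _ = (Sx x v * (hh ((z : ℝ) * v) * κ)) * PUN z.minFac N (Sx x) (v + 1) (lkf v N') := by ring
      _ ≤ _ := mul_le_mul_of_nonneg_right (hβ h0) hP0

theorem hh_mul {z v : ℕ} (hz : IsPrimePow z) (hv : IsPrimePow v) :
    hh ((z : ℝ) * v) = 1 / ((z : ℝ) * v * Real.log ((z : ℝ) * v)) ∧ 0 < Real.log ((z : ℝ) * v) := by
  refine ⟨rfl, Real.log_pos ?_⟩
  have h1 : (1 : ℝ) < z := by exact_mod_cast hz.one_lt
  have h2 : (1 : ℝ) < v := by exact_mod_cast hv.one_lt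
  nlinarith

/-- the core of the block theorem. -/
theorem BT_core (z x n N : ℕ) (X : ℕ → ℕ) (G E : ℕ → ℝ) (hz : IsPrimePow z) (hX0 : X 0 = 0)
    (hX : ∀ i < n, X i < X (i + 1)) (hG : ∀ i, 0 ≤ G i) (hGm : ∀ i < n, G i ≤ G (i + 1))
    (hE : ∀ i ≤ n, Real.exp (-Wt z x (X i)) ≤ E i)
    (hκ : ∀ v, IsPrimePow v → v.minFac ≠ z.minFac → 0 < Sx x v → ∀ i ≤ n, X i < v →
      (i < n → v ≤ X (i + 1)) → ∃ κ : ℝ, KB z x v κ ∧
      κ / Real.log ((z : ℝ) * v) * Real.exp (Wt z x v - Sx x v / (v : ℝ) / 2) ≤ G i)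
    (M : Finset (Finset ℕ)) (hM : Fam z M) (hMN : ∀ m ∈ M, ∀ w ∈ m, w < N) (hN : X n + 1 ≤ N) :
    mass z x M ≤ 1 / (z : ℝ) * (G 0 * PUN z.minFac N (Sx x) (X 0 + 1) (Mx M (X 0 + 1))
      + ∑ i ∈ range n, (G (i + 1) - G i) * E (i + 1)
        * PUN z.minFac N (Sx x) (X (i + 1) + 1) (Mx M (X (i + 1) + 1))) := by
  obtain ⟨hz1, hlz⟩ := z_facts hz
  have hz0 : (0 : ℝ) < z := by linarith
  set q0 := z.minFac with hq0
  set S := Sx x with hS
  have hS0 : ∀ w, 0 ≤ S w := fun w => Sx_nonneg x w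
  set P : ℕ → ℝ := fun i => PUN q0 N S (X i + 1) (Mx M (X i + 1)) with hP
  have hP0 : ∀ i, 0 ≤ P i := fun i => PU_nonneg _ _ _ (fun w _ => hS0 w) (fun w hw => PPs_val hw) _
  set φ : Finset ℕ → ℝ := fun m => (∏ w ∈ m, Sx x w) * hh ((z : ℝ) * ∏ w ∈ m, (w : ℝ)) with hφ
  have hmem : ∀ m ∈ M, m.Nonempty ∧ ∀ w ∈ m, IsPrimePow w ∧ w.minFac ≠ q0 ∧ w < N := by
    intro m hm
    obtain ⟨h1, h2⟩ := hM.2.2 m hm
    exact ⟨h1, fun w hw => ⟨(h2 w hw).1, (h2 w hw).2, hMN m hm w hw⟩⟩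
  -- monotonicity of `X`
  have hXmono : ∀ k i, i + k ≤ n → X i ≤ X (i + k) := by
    intro k
    induction k with
    | zero => intro i _; exact le_rfl
    | succ k ih =>
      intro i hi
      have h1 := ih i (by omega)
      have h2 := hX (i + k) (by omega)
      have : i + (k + 1) = i + k + 1 := by omega
      rw [this]; omega
  -- the mass of first components
  have hfirst : ∀ i ≤ n, ∀ v, IsPrimePow v → v.minFac ≠ q0 → X i < v → (i < n → v ≤ X (i + 1)) →
      ∑ m ∈ (Mx M v).filter (fun m => v ∈ m), φ m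
        ≤ ((G i * Real.exp (-WtI S q0 0 (X i + 1)) / z) * Real.exp (-WtI S q0 (X i + 1) v))
          * (pv S (fun w : ℕ => (w : ℝ)) v * PUN q0 N S (v + 1) (lkf v (Mx M v))) := by
    intro i hi v hv hvq hXv hvX
    have hv1 : (1 : ℝ) < v := by exact_mod_cast hv.one_lt
    have hv0 : (0 : ℝ) < v := by linarith
    have hGE : (G i * Real.exp (-WtI S q0 0 (X i + 1)) / z) * Real.exp (-WtI S q0 (X i + 1) v)
        = G i / z * Real.exp (-WtI S q0 0 v) := by
      have h1 := WtI_split S q0 0 (X i + 1) v (by omega) (by omega)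
      rw [h1, neg_add, Real.exp_add]
      ring
    rw [hGE, ← mul_assoc]
    obtain ⟨p0, p1⟩ := pv_mem S (fun w : ℕ => (w : ℝ)) v (hS0 v) hv1
    by_cases hSv : 0 < S v
    · obtain ⟨κ, hκ1, hκ2⟩ := hκ v hv hvq hSv i hi hXv hvX
      apply first_comp_design z x N hz M hM hMN v hv hvq κ (fun _ => hκ1)
      · exact mul_nonneg (mul_nonneg (div_nonneg (hG i) hz0.le) (Real.exp_pos _).le) p0
      · intro _
        obtain ⟨e1, hlzv⟩ := hh_mul hz hv
        rw [e1]
        set u := S v / (v : ℝ) with hu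
        have hu0 : 0 ≤ u := div_nonneg (hS0 v) hv0.le
        have hW : Wt z x v = WtI S q0 0 v + u := by
          rw [Wt_eq, WtI_succ _ _ _ _ (by omega), if_pos ⟨hv, hvq⟩]
        rw [hW] at hκ2
        have hpv : u * Real.exp (-(u / 2)) ≤ pv S (fun w : ℕ => (w : ℝ)) v := by
          have := one_sub_exp_ge hu0
          unfold pv
          exact this
        have h2 : κ / Real.log ((z : ℝ) * v) ≤ G i * Real.exp (-WtI S q0 0 v) * Real.exp (-(u / 2)) := by
          have h3 := mul_le_mul_of_nonneg_right hκ2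
            (mul_pos (Real.exp_pos (-WtI S q0 0 v)) (Real.exp_pos (-(u / 2)))).le
          have h4 : Real.exp (WtI S q0 0 v + u - u / 2)
              * (Real.exp (-WtI S q0 0 v) * Real.exp (-(u / 2))) = 1 := by
            rw [← Real.exp_add, ← Real.exp_add, ← Real.exp_zero]
            congr 1; ring
          rw [mul_assoc, h4, mul_one] at h3
          linarith
        calc S v * (1 / ((z : ℝ) * v * Real.log ((z : ℝ) * v)) * κ)
            = u / z * (κ / Real.log ((z : ℝ) * v)) := by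
              rw [hu]; field_simp
          _ ≤ u / z * (G i * Real.exp (-WtI S q0 0 v) * Real.exp (-(u / 2))) :=
              mul_le_mul_of_nonneg_left h2 (div_nonneg hu0 hz0.le)
          _ = G i / z * Real.exp (-WtI S q0 0 v) * (u * Real.exp (-(u / 2))) := by ring
          _ ≤ G i / z * Real.exp (-WtI S q0 0 v) * pv S (fun w : ℕ => (w : ℝ)) v :=
              mul_le_mul_of_nonneg_left hpv
                (mul_nonneg (div_nonneg (hG i) hz0.le) (Real.exp_pos _).le)
    · apply first_comp_design z x N hz M hM hMN v hv hvq 0 (fun h => absurd h hSv)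
      · exact mul_nonneg (mul_nonneg (div_nonneg (hG i) hz0.le) (Real.exp_pos _).le) p0
      · intro h; exact absurd h hSv
  -- downward induction
  set W : ℕ → ℝ := fun i => WtI S q0 0 (X i + 1) with hW
  have key : ∀ k i, i + k = n → ∑ m ∈ Mx M (X i + 1), φ m
      ≤ (G i * Real.exp (-W i) / z) * P i
        + 1 / (z : ℝ) * ∑ j ∈ Finset.Ico i n, (G (j + 1) - G j) * E (j + 1) * P (j + 1) := by
    intro k
    induction k with
    | zero =>
      intro i hi
      have hin : i = n := by omega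
      rw [hin, Finset.Ico_self, Finset.sum_empty, mul_zero]
      obtain ⟨k', hk'⟩ : ∃ k', N = X n + 1 + k' := ⟨N - (X n + 1), by omega⟩
      have hB0 : 0 ≤ G n * Real.exp (-W n) / z :=
        div_nonneg (mul_nonneg (hG n) (Real.exp_pos _).le) hz0.le
      apply block_step q0 N S hS0 φ M hmem 0 (G n * Real.exp (-W n) / z) 0 (X n + 1) hB0 k' (by omega)
      · rw [← hk']
        have : Mx M N = ∅ := by
          apply Finset.eq_empty_of_forall_notMem
          intro m hm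
          obtain ⟨h1, h2⟩ := mem_Mx.1 hm
          obtain ⟨⟨w, hw⟩, h3⟩ := hmem m h1
          have := h2 w hw
          have := (h3 w hw).2.2
          omega
        rw [this, Finset.sum_empty, add_zero]
        exact mul_nonneg (mul_nonneg hB0 (Real.exp_pos _).le)
          (PU_nonneg _ _ _ (fun w _ => hS0 w) (fun w hw => PPs_val hw) _)
      · intro v hv
        rw [← hk'] at hv
        obtain ⟨⟨h1, h2⟩, h3, h4⟩ := mem_PPs.1 hv
        exact hfirst n le_rfl v h3 h4 (by omega) (fun h => absurd h (lt_irrefl n))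
    | succ k ih =>
      intro i hi
      have ih' := ih (i + 1) (by omega)
      have hXi := hX i (by omega)
      obtain ⟨k', hk'⟩ : ∃ k', X (i + 1) + 1 = X i + 1 + k' := ⟨X (i + 1) - X i, by omega⟩
      have hB0 : 0 ≤ G i * Real.exp (-W i) / z :=
        div_nonneg (mul_nonneg (hG i) (Real.exp_pos _).le) hz0.le
      have hXN : X (i + 1) + 1 ≤ N := by
        have := hXmono (n - (i + 1)) (i + 1) (by omega)
        have e : i + 1 + (n - (i + 1)) = n := by omega
        rw [e] at this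
        omega
      apply block_step q0 N S hS0 φ M hmem 0 (G i * Real.exp (-W i) / z) _ (X i + 1) hB0 k' (by omega)
      · rw [← hk']
        have e1 : G i * Real.exp (-W i) / z * Real.exp (-WtI S q0 (X i + 1) (X (i + 1) + 1))
            = G i * Real.exp (-W (i + 1)) / z := by
          have h1 := WtI_split S q0 0 (X i + 1) (X (i + 1) + 1) (by omega) (by omega)
          simp only [hW]
          rw [h1, neg_add, Real.exp_add]
          ring
        rw [e1, Finset.sum_eq_sum_Ico_succ_bot (by omega)]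
        have e2 : (G (i + 1) * Real.exp (-W (i + 1)) / z) * P (i + 1)
            = G i * Real.exp (-W (i + 1)) / z * P (i + 1)
              + 1 / (z : ℝ) * ((G (i + 1) - G i) * Real.exp (-W (i + 1)) * P (i + 1)) := by ring
        have e3 : (G (i + 1) - G i) * Real.exp (-W (i + 1)) * P (i + 1)
            ≤ (G (i + 1) - G i) * E (i + 1) * P (i + 1) := by
          apply mul_le_mul_of_nonneg_right _ (hP0 _)
          apply mul_le_mul_of_nonneg_left _ (sub_nonneg.2 (hGm i (by omega)))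
          have := hE (i + 1) (by omega)
          rw [Wt_eq] at this
          exact this
        have e4 := mul_le_mul_of_nonneg_left e3 (by positivity : (0:ℝ) ≤ 1 / (z : ℝ))
        rw [mul_add]
        change _ ≤ G i * Real.exp (-W (i + 1)) / z * P (i + 1) + _
        linarith
      · intro v hv
        rw [← hk'] at hv
        obtain ⟨⟨h1, h2⟩, h3, h4⟩ := mem_PPs.1 hv
        exact hfirst i (by omega) v h3 h4 (by omega) (fun _ => by omega)
  have h0 := key n 0 (by omega)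
  have hW0 : W 0 = 0 := by
    simp only [hW]
    rw [hX0]
    unfold WtI
    have : PPs q0 0 (0 + 1) = ∅ := by
      apply Finset.eq_empty_of_forall_notMem
      intro w hw
      obtain ⟨⟨h1, h2⟩, h3, -⟩ := mem_PPs.1 hw
      have := h3.two_le
      omega
    rw [this, Finset.sum_empty]
  have hM1 : Mx M (X 0 + 1) = M := by
    apply Finset.filter_true_of_mem
    intro m hm w hw
    have := ((hmem m hm).2 w hw).1.two_le
    rw [hX0]; omega
  rw [hW0, neg_zero, Real.exp_zero, mul_one, ← Finset.range_eq_Ico, hM1] at h0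
  unfold mass
  calc _ ≤ _ := h0
    _ = _ := by
      rw [mul_add]
      congr 1
      simp only [hP, hM1]
      ring

theorem exists_bound (M : Finset (Finset ℕ)) (a : ℕ) :
    ∃ N, a ≤ N ∧ ∀ m ∈ M, ∀ w ∈ m, w < N := by
  refine ⟨a + (∑ m ∈ M, ∑ w ∈ m, w) + 1, by omega, fun m hm w hw => ?_⟩
  have h1 : w ≤ ∑ w ∈ m, w := Finset.single_le_sum (f := fun w => w) (fun _ _ => Nat.zero_le _) hw
  have h2 : ∑ w ∈ m, w ≤ ∑ m ∈ M, ∑ w ∈ m, w :=
    Finset.single_le_sum (f := fun m => ∑ w ∈ m, w) (fun _ _ => Nat.zero_le _) hm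
  omega

theorem hit_nonneg (x : ℕ) (VS : Finset ℕ) (hVS : ∀ v ∈ VS, IsPrimePow v) (M : Finset (Finset ℕ)) :
    0 ≤ hit x VS M :=
  PU_nonneg _ _ _ (fun w _ => Sx_nonneg x w) (fun w hw => by
    exact_mod_cast (hVS w hw).one_lt) _

theorem PUN_eq_hit (z x N : ℕ) (M : Finset (Finset ℕ)) (hM : Fam z M)
    (hMN : ∀ m ∈ M, ∀ w ∈ m, w < N) (VS : Finset ℕ) (hVS : ∀ v ∈ VS, IsPrimePow v)
    (hMV : ∀ m ∈ M, m ⊆ VS) (a : ℕ) (ha : a ≤ 2) :
    PUN z.minFac N (Sx x) a M = hit x VS M := by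
  unfold PUN hit
  set U := M.biUnion (fun m => m) with hU
  have hmU : ∀ m ∈ (↑M : Set (Finset ℕ)), m ⊆ U := fun m hm w hw =>
    Finset.mem_biUnion.2 ⟨m, Finset.mem_coe.1 hm, hw⟩
  have h1 : U ⊆ PPs z.minFac a N := by
    intro w hw
    obtain ⟨m, hm, hwm⟩ := Finset.mem_biUnion.1 hw
    obtain ⟨h2, h3⟩ := (hM.2.2 m hm).2 w hwm
    have := h2.two_le
    exact mem_PPs.2 ⟨⟨by omega, hMN m hm w hwm⟩, h2, h3⟩
  have h2 : U ⊆ VS := by
    intro w hw
    obtain ⟨m, hm, hwm⟩ := Finset.mem_biUnion.1 hw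
    exact hMV m hm hwm
  rw [← PU_subset_eq _ U h1 _ _ _ hmU, ← PU_subset_eq _ U h2 _ _ _ hmU]

theorem Fam.sub {z : ℕ} {M M' : Finset (Finset ℕ)} (h : Fam z M) (hs : M' ⊆ M) : Fam z M' :=
  ⟨QP_subset h.1 (by exact_mod_cast hs), fun m hm => h.2.1 m (hs hm), fun m hm => h.2.2 m (hs hm)⟩

theorem stmt_BT : Stmt_BT := by
  intro z x n X G E hz hX0 hX hG hGm hE hκ
  obtain ⟨hz1, hlz⟩ := z_facts hz
  have hz0 : (0 : ℝ) < z := by linarith
  have hE0 : ∀ i ≤ n, 0 ≤ E i := fun i hi => (Real.exp_pos _).le.trans (hE i hi)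
  constructor
  · intro M hM VS hVS hMV
    obtain ⟨N, hN, hMN⟩ := exists_bound M (X n + 1)
    have h := BT_core z x n N X G E hz hX0 hX hG hGm hE hκ M hM hMN hN
    have hmem : ∀ m ∈ M, m.Nonempty ∧ ∀ w ∈ m, IsPrimePow w ∧ w.minFac ≠ z.minFac ∧ w < N := by
      intro m hm
      obtain ⟨h1, h2⟩ := hM.2.2 m hm
      exact ⟨h1, fun w hw => ⟨(h2 w hw).1, (h2 w hw).2, hMN m hm w hw⟩⟩
    have hM1 : Mx M (X 0 + 1) = M := by
      apply Finset.filter_true_of_mem
      intro m hm w hw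
      have := ((hmem m hm).2 w hw).1.two_le
      rw [hX0]; omega
    have hle : ∀ i, PUN z.minFac N (Sx x) (X i + 1) (Mx M (X i + 1)) ≤ hit x VS M := by
      intro i
      rw [← PUN_eq_hit z x N M hM hMN VS hVS hMV 1 (by omega)]
      have := PUN_mono_x (S := Sx x) (fun w => Sx_nonneg x w) hmem 1 (X i + 1) (by omega)
      have h1 : Mx M 1 = M := by
        have h2 := hM1
        rw [hX0] at h2
        exact h2
      rw [h1] at this
      exact this
    have hfin : G 0 * PUN z.minFac N (Sx x) (X 0 + 1) (Mx M (X 0 + 1))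
        + ∑ i ∈ range n, (G (i + 1) - G i) * E (i + 1)
          * PUN z.minFac N (Sx x) (X (i + 1) + 1) (Mx M (X (i + 1) + 1))
        ≤ (G 0 + ∑ i ∈ range n, (G (i + 1) - G i) * E (i + 1)) * hit x VS M := by
      rw [add_mul, Finset.sum_mul]
      apply add_le_add (mul_le_mul_of_nonneg_left (hle 0) (hG 0))
      apply Finset.sum_le_sum
      intro i hi
      have hi' := Finset.mem_range.1 hi
      exact mul_le_mul_of_nonneg_left (hle (i + 1))
        (mul_nonneg (sub_nonneg.2 (hGm i hi')) (hE0 (i + 1) (by omega)))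
    calc mass z x M ≤ _ := h
      _ ≤ 1 / (z : ℝ) * ((G 0 + ∑ i ∈ range n, (G (i + 1) - G i) * E (i + 1)) * hit x VS M) :=
          mul_le_mul_of_nonneg_left hfin (by positivity)
      _ = _ := by rw [← hh_z hz]; ring
  · intro ω hω M hM hI
    obtain ⟨N, hN, hMN⟩ := exists_bound M (X n + 1)
    have h := BT_core z x n N X G E hz hX0 hX hG hGm hE hκ M hM hMN hN
    have hcap : ∀ i ≤ n, PUN z.minFac N (Sx x) (X i + 1) (Mx M (X i + 1)) ≤ 1 - Real.exp (-ω i) := by
      intro i hi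
      obtain ⟨h2, h3⟩ := hω i hi
      have h0 : 0 ≤ ω i := by
        have := h3 ∅ (by simp) 0
        simpa using this
      have hexp : Real.exp (-ω i) = (Real.exp (ω i))⁻¹ := Real.exp_neg _
      have h2inv : (2 : ℝ)⁻¹ ≤ (Real.exp (ω i))⁻¹ := inv_anti₀ (Real.exp_pos _) h2
      have hle1 : Real.exp (-ω i) ≤ 1 := Real.exp_le_one_iff.2 (by linarith)
      apply PU_le_of_inter Nat.minFac _ (Sx x) _ (fun w _ => Sx_nonneg x w)
        (fun w hw => PPs_val hw) _ (by linarith) (by linarith)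
      · intro r
        have h4 := h3 (PPs z.minFac (X i + 1) N) (by
          intro w hw
          obtain ⟨⟨h5, _⟩, h6, h7⟩ := mem_PPs.1 hw
          exact ⟨h6, by omega, h7⟩) r
        have : Real.exp (-ω i) ≤ Real.exp (-∑ w ∈ (PPs z.minFac (X i + 1) N).filter
            (fun w => w.minFac = r), Sx x w / (w : ℝ)) := Real.exp_le_exp.2 (by linarith)
        linarith
      · intro m hm m' hm'
        exact hI m (Finset.mem_coe.2 (mem_Mx.1 (Finset.mem_coe.1 hm)).1) m'
          (Finset.mem_coe.2 (mem_Mx.1 (Finset.mem_coe.1 hm')).1)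
    have hfin : G 0 * PUN z.minFac N (Sx x) (X 0 + 1) (Mx M (X 0 + 1))
        + ∑ i ∈ range n, (G (i + 1) - G i) * E (i + 1)
          * PUN z.minFac N (Sx x) (X (i + 1) + 1) (Mx M (X (i + 1) + 1))
        ≤ G 0 * (1 - Real.exp (-ω 0))
          + ∑ i ∈ range n, (G (i + 1) - G i) * E (i + 1) * (1 - Real.exp (-ω (i + 1))) := by
      apply add_le_add (mul_le_mul_of_nonneg_left (hcap 0 (by omega)) (hG 0))
      apply Finset.sum_le_sum
      intro i hi
      have hi' := Finset.mem_range.1 hi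
      exact mul_le_mul_of_nonneg_left (hcap (i + 1) (by omega))
        (mul_nonneg (sub_nonneg.2 (hGm i hi')) (hE0 (i + 1) (by omega)))
    calc mass z x M ≤ _ := h
      _ ≤ 1 / (z : ℝ) * _ := mul_le_mul_of_nonneg_left hfin (by positivity)
      _ = _ := by rw [← hh_z hz]; ring

theorem stmt_AB : Stmt_AB := by
  intro z x C A hz hC hKB hA M hM
  obtain ⟨hz1, hlz⟩ := z_facts hz
  have hz0 : (0 : ℝ) < z := by linarith
  obtain ⟨N, hN, hMN⟩ := exists_bound M 1
  have hmem : ∀ m ∈ M, m.Nonempty ∧ ∀ w ∈ m, IsPrimePow w ∧ w.minFac ≠ z.minFac ∧ w < N := by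
    intro m hm
    obtain ⟨h1, h2⟩ := hM.2.2 m hm
    exact ⟨h1, fun w hw => ⟨(h2 w hw).1, (h2 w hw).2, hMN m hm w hw⟩⟩
  have h := sum_step z.minFac N (Sx x) (fun w => Sx_nonneg x w)
    (fun m => (∏ w ∈ m, Sx x w) * hh ((z : ℝ) * ∏ w ∈ m, (w : ℝ))) M hmem
    (fun v => 1 / (z : ℝ) * (Sx x v / (v : ℝ) * C v))
    (fun v => mul_nonneg (by positivity) (mul_nonneg (div_nonneg (Sx_nonneg x v) (Nat.cast_nonneg v))
      (hC v))) 0 (by
      intro v hv
      obtain ⟨⟨_, h2⟩, h3, h4⟩ := mem_PPs.1 hv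
      have hv1 : (1 : ℝ) < v := by exact_mod_cast h3.one_lt
      have hv0 : (0 : ℝ) < v := by linarith
      apply first_comp_design z x N hz M hM hMN v h3 h4 (C v * Real.log ((z : ℝ) * v))
        (fun h => hKB v h3 h4 h)
      · exact mul_nonneg (by positivity) (mul_nonneg (div_nonneg (Sx_nonneg x v) (Nat.cast_nonneg v))
          (hC v))
      · intro _
        obtain ⟨e1, hlzv⟩ := hh_mul hz h3
        rw [e1]
        apply le_of_eq
        field_simp)
  have hM1 : Mx M 0 = M := by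
    apply Finset.filter_true_of_mem
    intro m hm w hw
    omega
  rw [hM1] at h
  have h2 : ∑ v ∈ PPs z.minFac 0 N, 1 / (z : ℝ) * (Sx x v / (v : ℝ) * C v) ≤ 1 / (z : ℝ) * A := by
    rw [← Finset.mul_sum]
    apply mul_le_mul_of_nonneg_left _ (by positivity)
    refine le_trans ?_ (hA N)
    apply Finset.sum_le_sum_of_subset_of_nonneg
    · intro w hw
      obtain ⟨⟨_, h2⟩, h3, h4⟩ := mem_PPs.1 hw
      exact Finset.mem_filter.2 ⟨mem_ppK.2 ⟨h3, h2.le⟩, h4⟩
    · intro w _ _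
      exact mul_nonneg (div_nonneg (Sx_nonneg x w) (Nat.cast_nonneg w)) (hC w)
  calc mass z x M ≤ _ := h
    _ ≤ _ := h2
    _ = _ := by rw [← hh_z hz]; ring

end Pool.Agent.EZ
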