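import Pool.Agent.EZ.Cross

/-!
# The linear program for prime powers in intervals

`Mx M x` : members all of whose components are `≥ x`.  `PPs q0 a b` : prime powers in `[a, b)`
which are not powers of `q0`.
-/

set_option autoImplicit false
set_option linter.unusedSectionVars false
set_option linter.unusedVariables false

namespace Pool.Agent.EZ

open Finset

/-- prime powers in `[a, b)`, not over `q0`. -/
def PPs (q0 a b : ℕ) : Finset ℕ := (Finset.Ico a b).filter (fun w => IsPrimePow w ∧ w.minFac ≠ q0)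

theorem mem_PPs {q0 a b w : ℕ} : w ∈ PPs q0 a b ↔ (a ≤ w ∧ w < b) ∧ IsPrimePow w ∧ w.minFac ≠ q0 := by
  unfold PPs
  rw [Finset.mem_filter, Finset.mem_Ico]

theorem PPs_val {q0 a b w : ℕ} (h : w ∈ PPs q0 a b) : (1 : ℝ) < w := by
  have := (mem_PPs.1 h).2.1.two_le
  exact_mod_cast (by omega : 1 < w)

/-- members with all components at least `x`. -/
def Mx (M : Finset (Finset ℕ)) (x : ℕ) : Finset (Finset ℕ) := M.filter (fun m => ∀ w ∈ m, x ≤ w)

theorem mem_Mx {M : Finset (Finset ℕ)} {x : ℕ} {m : Finset ℕ} :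
    m ∈ Mx M x ↔ m ∈ M ∧ ∀ w ∈ m, x ≤ w := Finset.mem_filter

/-- total weight of the components in `[a, b)`. -/
noncomputable def WtI (S : ℕ → ℝ) (q0 a b : ℕ) : ℝ := ∑ w ∈ PPs q0 a b, S w / (w : ℝ)

theorem PPs_succ_left {q0 a b : ℕ} (hab : a < b) :
    PPs q0 a b = if IsPrimePow a ∧ a.minFac ≠ q0 then insert a (PPs q0 (a + 1) b)
      else PPs q0 (a + 1) b := by
  split_ifs with h
  · ext w
    rw [Finset.mem_insert, mem_PPs, mem_PPs]
    constructor
    · rintro ⟨⟨h1, h2⟩, h3⟩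
      rcases eq_or_lt_of_le h1 with h4 | h4
      · exact Or.inl h4.symm
      · exact Or.inr ⟨⟨h4, h2⟩, h3⟩
    · rintro (rfl | ⟨⟨h1, h2⟩, h3⟩)
      · exact ⟨⟨le_rfl, hab⟩, h⟩
      · exact ⟨⟨by omega, h2⟩, h3⟩
  · ext w
    rw [mem_PPs, mem_PPs]
    constructor
    · rintro ⟨⟨h1, h2⟩, h3⟩
      rcases eq_or_lt_of_le h1 with h4 | h4
      · exact absurd (h4 ▸ h3) h
      · exact ⟨⟨h4, h2⟩, h3⟩
    · rintro ⟨⟨h1, h2⟩, h3⟩
      exact ⟨⟨by omega, h2⟩, h3⟩

theorem PPs_succ_right {q0 a b : ℕ} (hab : a ≤ b) :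
    PPs q0 a (b + 1) = if IsPrimePow b ∧ b.minFac ≠ q0 then insert b (PPs q0 a b)
      else PPs q0 a b := by
  split_ifs with h
  · ext w
    rw [Finset.mem_insert, mem_PPs, mem_PPs]
    constructor
    · rintro ⟨⟨h1, h2⟩, h3⟩
      rcases eq_or_lt_of_le (Nat.lt_succ_iff.1 h2) with h4 | h4
      · exact Or.inl h4
      · exact Or.inr ⟨⟨h1, h4⟩, h3⟩
    · rintro (rfl | ⟨⟨h1, h2⟩, h3⟩)
      · exact ⟨⟨hab, by omega⟩, h⟩
      · exact ⟨⟨h1, by omega⟩, h3⟩
  · ext w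
    rw [mem_PPs, mem_PPs]
    constructor
    · rintro ⟨⟨h1, h2⟩, h3⟩
      rcases eq_or_lt_of_le (Nat.lt_succ_iff.1 h2) with h4 | h4
      · exact absurd (h4 ▸ h3) h
      · exact ⟨⟨h1, h4⟩, h3⟩
    · rintro ⟨⟨h1, h2⟩, h3⟩
      exact ⟨⟨h1, by omega⟩, h3⟩

theorem not_mem_PPs_succ {q0 a b : ℕ} : a ∉ PPs q0 (a + 1) b := by
  rw [mem_PPs]; omega

theorem not_mem_PPs_right {q0 a b : ℕ} : b ∉ PPs q0 a b := by
  rw [mem_PPs]; omega

theorem WtI_split (S : ℕ → ℝ) (q0 a b c : ℕ) (hab : a ≤ b) (hbc : b ≤ c) :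
    WtI S q0 a c = WtI S q0 a b + WtI S q0 b c := by
  unfold WtI
  rw [← Finset.sum_union]
  · congr 1
    ext w
    rw [Finset.mem_union, mem_PPs, mem_PPs, mem_PPs]
    constructor
    · rintro ⟨⟨h1, h2⟩, h3⟩
      rcases lt_or_ge w b with h | h
      · exact Or.inl ⟨⟨h1, h⟩, h3⟩
      · exact Or.inr ⟨⟨h, h2⟩, h3⟩
    · rintro (⟨⟨h1, h2⟩, h3⟩ | ⟨⟨h1, h2⟩, h3⟩)
      · exact ⟨⟨h1, by omega⟩, h3⟩
      · exact ⟨⟨by omega, h2⟩, h3⟩
  · rw [Finset.disjoint_left]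
    intro w h1 h2
    have := (mem_PPs.1 h1).1.2
    have := (mem_PPs.1 h2).1.1
    omega

theorem WtI_nonneg (S : ℕ → ℝ) (hS : ∀ w, 0 ≤ S w) (q0 a b : ℕ) : 0 ≤ WtI S q0 a b :=
  Finset.sum_nonneg fun w _ => div_nonneg (hS w) (Nat.cast_nonneg w)

theorem WtI_mono (S : ℕ → ℝ) (hS : ∀ w, 0 ≤ S w) (q0 a b c : ℕ) (hab : a ≤ b) (hbc : b ≤ c) :
    WtI S q0 a b ≤ WtI S q0 a c := by
  rw [WtI_split S q0 a b c hab hbc]
  linarith [WtI_nonneg S hS q0 b c]

theorem WtI_succ (S : ℕ → ℝ) (q0 a b : ℕ) (hab : a ≤ b) :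
    WtI S q0 a (b + 1) = WtI S q0 a b + (if IsPrimePow b ∧ b.minFac ≠ q0 then S b / (b : ℝ) else 0) := by
  unfold WtI
  rw [PPs_succ_right hab]
  split_ifs with h
  · rw [Finset.sum_insert not_mem_PPs_right, add_comm]
  · rw [add_zero]

/-- `Q_split` for finsets. -/
theorem Q_split_finset (v : ℕ) (VS : Finset ℕ) (hv : v ∉ VS) (S : ℕ → ℝ)
    (hS : ∀ w ∈ insert v VS, 0 ≤ S w) (hval : ∀ w ∈ insert v VS, (1 : ℝ) < (w : ℝ))
    (M : Finset (Finset ℕ)) :
    (1 - pv S (fun w : ℕ => (w : ℝ)) v) * PU VS S (fun w : ℕ => (w : ℝ)) ↑(av v M)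
      + pv S (fun w : ℕ => (w : ℝ)) v * PU VS S (fun w : ℕ => (w : ℝ)) ↑(lkf v M)
      ≤ PU (insert v VS) S (fun w : ℕ => (w : ℝ)) ↑M := by
  have h := Q_split v VS.toList (List.nodup_cons.2 ⟨by simpa using hv, Finset.nodup_toList VS⟩) S
    (fun w : ℕ => (w : ℝ))
    (by
      intro w hw
      rcases List.mem_cons.1 hw with h | h
      · exact hS w (h ▸ Finset.mem_insert_self _ _)
      · exact hS w (Finset.mem_insert_of_mem (by simpa using h)))
    (by
      intro w hw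
      rcases List.mem_cons.1 hw with h | h
      · exact hval w (h ▸ Finset.mem_insert_self _ _)
      · exact hval w (Finset.mem_insert_of_mem (by simpa using h))) M
  rw [List.toFinset_cons, Finset.toList_toFinset] at h
  exact h

section

variable (q0 N : ℕ) (S : ℕ → ℝ) (hS : ∀ w, 0 ≤ S w) (φ : Finset ℕ → ℝ) (M : Finset (Finset ℕ))

/-- the measure. -/
noncomputable def PUN (q0 N : ℕ) (S : ℕ → ℝ) (x : ℕ) (D : Finset (Finset ℕ)) : ℝ :=
  PU (PPs q0 x N) S (fun w : ℕ => (w : ℝ)) ↑D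

theorem Mx_succ_of_not {x : ℕ}
    (hM : ∀ m ∈ M, m.Nonempty ∧ ∀ w ∈ m, IsPrimePow w ∧ w.minFac ≠ q0 ∧ w < N)
    (hx : ¬ (IsPrimePow x ∧ x.minFac ≠ q0)) : Mx M x = Mx M (x + 1) := by
  ext m
  rw [mem_Mx, mem_Mx]
  constructor
  · rintro ⟨h1, h2⟩
    refine ⟨h1, fun w hw => ?_⟩
    have h3 := h2 w hw
    obtain ⟨h4, h5, h6⟩ := (hM m h1).2 w hw
    rcases eq_or_lt_of_le h3 with h | h
    · exact absurd (h ▸ ⟨h4, h5⟩) hx
    · exact h
  · rintro ⟨h1, h2⟩
    exact ⟨h1, fun w hw => by have := h2 w hw; omega⟩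

theorem av_Mx (x : ℕ) : av x (Mx M x) = Mx M (x + 1) := by
  ext m
  simp only [av, Finset.mem_filter, mem_Mx]
  constructor
  · rintro ⟨⟨h1, h2⟩, h3⟩
    refine ⟨h1, fun w hw => ?_⟩
    have h4 := h2 w hw
    rcases eq_or_lt_of_le h4 with h | h
    · exact absurd (h ▸ hw) h3
    · exact h
  · rintro ⟨h1, h2⟩
    refine ⟨⟨h1, fun w hw => by have := h2 w hw; omega⟩, fun h => ?_⟩
    have := h2 x h
    omega

theorem sum_Mx (x : ℕ) : ∑ m ∈ Mx M x, φ m
    = ∑ m ∈ (Mx M x).filter (fun m => x ∈ m), φ m + ∑ m ∈ Mx M (x + 1), φ m := by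
  rw [← av_Mx]
  unfold av
  rw [Finset.sum_filter_add_sum_filter_not]

theorem one_sub_pv (v : ℕ) : 1 - pv S (fun w : ℕ => (w : ℝ)) v = Real.exp (-(S v / (v : ℝ))) := by
  unfold pv; ring

include hS in
/-- one block of the linear program. -/
theorem block_step
    (hM : ∀ m ∈ M, m.Nonempty ∧ ∀ w ∈ m, IsPrimePow w ∧ w.minFac ≠ q0 ∧ w < N)
    (a B R : ℝ) (lo : ℕ) (hB : 0 ≤ B) : ∀ (k : ℕ), lo + k ≤ N →
    (∑ m ∈ Mx M (lo + k), φ m ≤ (B * Real.exp (-WtI S q0 lo (lo + k))) * PUN q0 N S (lo + k) (Mx M (lo + k))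
      + R) →
    (∀ v ∈ PPs q0 lo (lo + k), ∑ m ∈ (Mx M v).filter (fun m => v ∈ m), φ m
      ≤ (B * Real.exp (-WtI S q0 lo v)) * (pv S (fun w : ℕ => (w : ℝ)) v
        * PUN q0 N S (v + 1) (lkf v (Mx M v)))) →
    ∑ m ∈ Mx M lo, φ m ≤ B * PUN q0 N S lo (Mx M lo) + R := by
  intro k
  induction k with
  | zero =>
    intro _ h _
    have h0 : WtI S q0 lo (lo + 0) = 0 := by
      unfold WtI
      have : PPs q0 lo (lo + 0) = ∅ := by
        apply Finset.eq_empty_of_forall_notMem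
        intro w hw
        have := (mem_PPs.1 hw).1
        omega
      rw [this, Finset.sum_empty]
    rw [h0] at h
    simpa using h
  | succ k ih =>
    intro hk h hφ
    apply ih (by omega)
    · set x := lo + k with hx
      have hx1 : lo + (k + 1) = x + 1 := by omega
      rw [hx1] at h hk
      have hW := WtI_succ S q0 lo x (by omega)
      by_cases hp : IsPrimePow x ∧ x.minFac ≠ q0
      · rw [if_pos hp] at hW
        have hmem : x ∈ PPs q0 lo (lo + (k + 1)) := mem_PPs.2 ⟨⟨by omega, by omega⟩, hp⟩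
        have h1 := hφ x hmem
        have hins : PPs q0 x N = insert x (PPs q0 (x + 1) N) := by
          rw [PPs_succ_left (by omega), if_pos hp]
        have hs := Q_split_finset x (PPs q0 (x + 1) N) not_mem_PPs_succ S (fun w _ => hS w)
          (by
            intro w hw
            rw [← hins] at hw
            exact PPs_val hw) (Mx M x)
        rw [← hins, av_Mx] at hs
        have hs' : (1 - pv S (fun w : ℕ => (w : ℝ)) x) * PUN q0 N S (x + 1) (Mx M (x + 1))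
            + pv S (fun w : ℕ => (w : ℝ)) x * PUN q0 N S (x + 1) (lkf x (Mx M x))
            ≤ PUN q0 N S x (Mx M x) := hs
        have hE : Real.exp (-WtI S q0 lo (x + 1))
            = Real.exp (-WtI S q0 lo x) * (1 - pv S (fun w : ℕ => (w : ℝ)) x) := by
          rw [hW, one_sub_pv, ← Real.exp_add]
          congr 1; ring
        rw [hE] at h
        rw [sum_Mx]
        have hBE : 0 ≤ B * Real.exp (-WtI S q0 lo x) := mul_nonneg hB (Real.exp_pos _).le
        have h2 := mul_le_mul_of_nonneg_left hs' hBE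
        linarith
      · rw [if_neg hp, add_zero] at hW
        rw [hW] at h
        have e1 : Mx M x = Mx M (x + 1) := Mx_succ_of_not q0 N M hM hp
        have e2 : PPs q0 x N = PPs q0 (x + 1) N := by
          rw [PPs_succ_left (by omega), if_neg hp]
        unfold PUN at h ⊢
        rw [e1, e2]
        exact h
    · intro v hv
      apply hφ v
      obtain ⟨⟨h1, h2⟩, h3⟩ := mem_PPs.1 hv
      exact mem_PPs.2 ⟨⟨h1, by omega⟩, h3⟩

include hS in
/-- the crude bound. -/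
theorem sum_step
    (hM : ∀ m ∈ M, m.Nonempty ∧ ∀ w ∈ m, IsPrimePow w ∧ w.minFac ≠ q0 ∧ w < N)
    (α : ℕ → ℝ) (hα : ∀ v, 0 ≤ α v) (lo : ℕ)
    (hφ : ∀ v ∈ PPs q0 lo N, ∑ m ∈ (Mx M v).filter (fun m => v ∈ m), φ m
      ≤ α v * PUN q0 N S (v + 1) (lkf v (Mx M v))) :
    ∑ m ∈ Mx M lo, φ m ≤ ∑ v ∈ PPs q0 lo N, α v := by
  have key : ∀ k : ℕ, ∀ x : ℕ, lo ≤ x → x + k = N → ∑ m ∈ Mx M x, φ m ≤ ∑ v ∈ PPs q0 x N, α v := by
    intro k
    induction k with
    | zero =>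
      intro x hx hxN
      have : Mx M x = ∅ := by
        apply Finset.eq_empty_of_forall_notMem
        intro m hm
        obtain ⟨h1, h2⟩ := mem_Mx.1 hm
        obtain ⟨⟨w, hw⟩, h3⟩ := hM m h1
        have := h2 w hw
        have := (h3 w hw).2.2
        omega
      rw [this, Finset.sum_empty]
      exact Finset.sum_nonneg fun v _ => hα v
    | succ k ih =>
      intro x hx hxN
      have ih' := ih (x + 1) (by omega) (by omega)
      by_cases hp : IsPrimePow x ∧ x.minFac ≠ q0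
      · rw [PPs_succ_left (by omega), if_pos hp, Finset.sum_insert not_mem_PPs_succ, sum_Mx]
        have h1 := hφ x (mem_PPs.2 ⟨⟨hx, by omega⟩, hp⟩)
        have h2 : PUN q0 N S (x + 1) (lkf x (Mx M x)) ≤ 1 :=
          PU_le_one _ S _ (fun w _ => hS w) (fun w hw => PPs_val hw) _
        have h3 := mul_le_mul_of_nonneg_left h2 (hα x)
        linarith
      · rw [PPs_succ_left (by omega), if_neg hp, Mx_succ_of_not q0 N M hM hp]
        exact ih'
  rcases le_or_gt lo N with h | h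
  · exact key (N - lo) lo le_rfl (by omega)
  · have : Mx M lo = ∅ := by
      apply Finset.eq_empty_of_forall_notMem
      intro m hm
      obtain ⟨h1, h2⟩ := mem_Mx.1 hm
      obtain ⟨⟨w, hw⟩, h3⟩ := hM m h1
      have := h2 w hw
      have := (h3 w hw).2.2
      omega
    rw [this, Finset.sum_empty]
    exact Finset.sum_nonneg fun v _ => hα v

end

/-! ### the chain of blocks -/

/-- data of a block: end point, level, cap and weight bound. -/
structure BD where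
  hi : ℕ
  g : ℝ
  cap : ℝ
  del : ℝ

/-- value of the linear program. -/
noncomputable def RBk : List BD → ℝ → ℝ
  | [], _ => 0
  | D :: rest, b => max 0 (D.g - b) * D.cap + RBk rest (max b D.g * Real.exp (-D.del))

theorem RBk_nonneg : ∀ (bs : List BD), (∀ D ∈ bs, 0 ≤ D.cap) → ∀ b, 0 ≤ RBk bs b := by
  intro bs
  induction bs with
  | nil => intro _ b; exact le_rfl
  | cons D rest ih =>
    intro h b
    simp only [RBk]
    have := ih (fun D hD => h D (List.mem_cons_of_mem _ hD)) (max b D.g * Real.exp (-D.del))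
    have h2 := mul_nonneg (le_max_left (0:ℝ) (D.g - b)) (h D List.mem_cons_self)
    linarith

theorem RBk_anti : ∀ (bs : List BD), (∀ D ∈ bs, 0 ≤ D.cap) → ∀ b b', b ≤ b' → RBk bs b' ≤ RBk bs b := by
  intro bs
  induction bs with
  | nil => intro _ b b' _; exact le_rfl
  | cons D rest ih =>
    intro h b b' hb
    simp only [RBk]
    have h1 := ih (fun D hD => h D (List.mem_cons_of_mem _ hD)) (max b D.g * Real.exp (-D.del))
      (max b' D.g * Real.exp (-D.del))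
      (mul_le_mul_of_nonneg_right (max_le_max hb le_rfl) (Real.exp_pos _).le)
    have h2 : max 0 (D.g - b') ≤ max 0 (D.g - b) := max_le_max le_rfl (by linarith)
    have h3 := mul_le_mul_of_nonneg_right h2 (h D List.mem_cons_self)
    linarith

/-- validity of a chain of blocks from `x` to `N`. -/
def Chain (q0 N : ℕ) (S : ℕ → ℝ) (φ : Finset ℕ → ℝ) (M : Finset (Finset ℕ)) : ℕ → List BD → Prop
  | x, [] => x = N
  | x, D :: rest => x ≤ D.hi ∧ D.hi ≤ N ∧ 0 ≤ D.g ∧ 0 ≤ D.cap ∧ WtI S q0 x D.hi ≤ D.del ∧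
      PUN q0 N S x (Mx M x) ≤ D.cap ∧
      (∀ v ∈ PPs q0 x D.hi, ∑ m ∈ (Mx M v).filter (fun m => v ∈ m), φ m
        ≤ (D.g * Real.exp (-WtI S q0 x v)) * (pv S (fun w : ℕ => (w : ℝ)) v
          * PUN q0 N S (v + 1) (lkf v (Mx M v)))) ∧
      Chain q0 N S φ M D.hi rest

theorem Chain.cap_nonneg {q0 N : ℕ} {S : ℕ → ℝ} {φ : Finset ℕ → ℝ} {M : Finset (Finset ℕ)} :
    ∀ {bs : List BD} {x : ℕ}, Chain q0 N S φ M x bs → ∀ D ∈ bs, 0 ≤ D.cap := by
  intro bs
  induction bs with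
  | nil => intro x _ D hD; exact absurd hD (by simp)
  | cons E rest ih =>
    intro x h D hD
    rcases List.mem_cons.1 hD with h' | h'
    · rw [h']; exact h.2.2.2.1
    · exact ih h.2.2.2.2.2.2.2 D h'

theorem chain_bound (q0 N : ℕ) (S : ℕ → ℝ) (hS : ∀ w, 0 ≤ S w) (φ : Finset ℕ → ℝ)
    (M : Finset (Finset ℕ))
    (hM : ∀ m ∈ M, m.Nonempty ∧ ∀ w ∈ m, IsPrimePow w ∧ w.minFac ≠ q0 ∧ w < N) :
    ∀ (bs : List BD) (x : ℕ), Chain q0 N S φ M x bs → ∀ b : ℝ, 0 ≤ b →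
    ∑ m ∈ Mx M x, φ m ≤ b * PUN q0 N S x (Mx M x) + RBk bs b := by
  intro bs
  induction bs with
  | nil =>
    intro x h b hb
    have hxN : x = N := h
    have : Mx M x = ∅ := by
      apply Finset.eq_empty_of_forall_notMem
      intro m hm
      obtain ⟨h1, h2⟩ := mem_Mx.1 hm
      obtain ⟨⟨w, hw⟩, h3⟩ := hM m h1
      have := h2 w hw
      have := (h3 w hw).2.2
      omega
    rw [this]
    simp only [RBk, Finset.sum_empty, add_zero]
    exact mul_nonneg hb (PU_nonneg _ S _ (fun w _ => hS w) (fun w hw => PPs_val hw) _)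
  | cons D rest ih =>
    intro x h b hb
    obtain ⟨h1, h2, h3, h4, h5, h6, h7, h8⟩ := h
    set B := max b D.g with hB
    have hB0 : 0 ≤ B := hb.trans (le_max_left _ _)
    have hcap := Chain.cap_nonneg h8
    have ih' := ih D.hi h8 (B * Real.exp (-WtI S q0 x D.hi)) (mul_nonneg hB0 (Real.exp_pos _).le)
    have hanti : RBk rest (B * Real.exp (-WtI S q0 x D.hi)) ≤ RBk rest (B * Real.exp (-D.del)) := by
      apply RBk_anti rest hcap
      apply mul_le_mul_of_nonneg_left _ hB0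
      exact Real.exp_le_exp.2 (by linarith)
    obtain ⟨k, hk⟩ : ∃ k, D.hi = x + k := ⟨D.hi - x, by omega⟩
    have hstep := block_step q0 N S hS φ M hM 0 B (RBk rest (B * Real.exp (-D.del))) x hB0 k
      (by omega) (by rw [← hk]; linarith) (by
        intro v hv
        rw [← hk] at hv
        refine (h7 v hv).trans ?_
        apply mul_le_mul_of_nonneg_right
        · exact mul_le_mul_of_nonneg_right (le_max_right _ _) (Real.exp_pos _).le
        · apply mul_nonneg (pv_mem S _ v (hS v) (PPs_val hv)).1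
          exact PU_nonneg _ S _ (fun w _ => hS w) (fun w hw => PPs_val hw) _)
    have e : B * PUN q0 N S x (Mx M x) ≤ b * PUN q0 N S x (Mx M x) + max 0 (D.g - b) * D.cap := by
      have e1 : B = b + max 0 (D.g - b) := by
        rw [hB]
        rcases le_total D.g b with h | h
        · rw [max_eq_left h, max_eq_left (by linarith)]; ring
        · rw [max_eq_right h, max_eq_right (by linarith)]; ring
      rw [e1, add_mul]
      have := mul_le_mul_of_nonneg_left h6 (le_max_left (0:ℝ) (D.g - b))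
      linarith
    simp only [RBk]
    rw [← hB]
    linarith

/-- same blocks with cap `a`. -/
def BD.setcap (a : ℝ) (D : BD) : BD := { D with cap := a }

theorem RBk_setcap (a : ℝ) : ∀ (bs : List BD) (b : ℝ),
    RBk (bs.map (BD.setcap a)) b = a * RBk (bs.map (BD.setcap 1)) b := by
  intro bs
  induction bs with
  | nil => intro b; simp [RBk]
  | cons D rest ih =>
    intro b
    simp only [List.map_cons, RBk, BD.setcap]
    rw [ih (max b D.g * Real.exp (-D.del))]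
    ring

theorem PUN_mono_x {q0 N : ℕ} {S : ℕ → ℝ} (hS : ∀ w, 0 ≤ S w) {M : Finset (Finset ℕ)}
    (hM : ∀ m ∈ M, m.Nonempty ∧ ∀ w ∈ m, IsPrimePow w ∧ w.minFac ≠ q0 ∧ w < N) (x y : ℕ)
    (hxy : x ≤ y) : PUN q0 N S y (Mx M y) ≤ PUN q0 N S x (Mx M x) := by
  unfold PUN
  have hsub : PPs q0 y N ⊆ PPs q0 x N := by
    intro w hw
    obtain ⟨⟨h1, h2⟩, h3⟩ := mem_PPs.1 hw
    exact mem_PPs.2 ⟨⟨by omega, h2⟩, h3⟩
  rw [PU_subset_eq (PPs q0 x N) (PPs q0 y N) hsub S _ _ (by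
    intro m hm w hw
    obtain ⟨h1, h2⟩ := mem_Mx.1 (Finset.mem_coe.1 hm)
    obtain ⟨h3, h4, h5⟩ := (hM m h1).2 w hw
    exact mem_PPs.2 ⟨⟨h2 w hw, h5⟩, h3, h4⟩)]
  apply PU_mono _ S _ (fun w _ => hS w) (fun w hw => PPs_val hw)
  intro m hm
  obtain ⟨h1, h2⟩ := mem_Mx.1 (Finset.mem_coe.1 hm)
  exact Finset.mem_coe.2 (mem_Mx.2 ⟨h1, fun w hw => hxy.trans (h2 w hw)⟩)

theorem Chain.setcap {q0 N : ℕ} {S : ℕ → ℝ} (hS : ∀ w, 0 ≤ S w) {φ : Finset ℕ → ℝ}
    {M : Finset (Finset ℕ)}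
    (hM : ∀ m ∈ M, m.Nonempty ∧ ∀ w ∈ m, IsPrimePow w ∧ w.minFac ≠ q0 ∧ w < N) (x0 : ℕ) :
    ∀ {bs : List BD} {x : ℕ}, x0 ≤ x → Chain q0 N S φ M x bs →
      Chain q0 N S φ M x (bs.map (BD.setcap (PUN q0 N S x0 (Mx M x0)))) := by
  intro bs
  induction bs with
  | nil => intro x _ h; exact h
  | cons E rest ih =>
    intro x hx h
    obtain ⟨h1, h2, h3, h4, h5, h6, h7, h8⟩ := h
    refine ⟨h1, h2, h3, ?_, h5, ?_, h7, ih (hx.trans h1) h8⟩
    · exact PU_nonneg _ S _ (fun w _ => hS w) (fun w hw => PPs_val hw) _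
    · exact PUN_mono_x hS hM x0 x hx

/-- linear in the hitting probability. -/
theorem chain_lin (q0 N : ℕ) (S : ℕ → ℝ) (hS : ∀ w, 0 ≤ S w) (φ : Finset ℕ → ℝ)
    (M : Finset (Finset ℕ))
    (hM : ∀ m ∈ M, m.Nonempty ∧ ∀ w ∈ m, IsPrimePow w ∧ w.minFac ≠ q0 ∧ w < N)
    (bs : List BD) (x : ℕ) (h : Chain q0 N S φ M x bs) :
    ∑ m ∈ Mx M x, φ m ≤ PUN q0 N S x (Mx M x) * RBk (bs.map (BD.setcap 1)) 0 := by
  have h1 := Chain.setcap hS hM x le_rfl h
  have h2 := chain_bound q0 N S hS φ M hM _ x h1 0 le_rfl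
  rw [RBk_setcap, zero_mul, zero_add] at h2
  exact h2

end Pool.Agent.EZ
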