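import Pool.Agent.EZ.Limit

/-!
# The two bounds: supremum of the payoff, and first jump.
-/

set_option autoImplicit false
set_option linter.unusedSectionVars false

namespace Pool.Agent.EZ

open Finset Filter Topology

variable {V ι : Type*} [DecidableEq V] [DecidableEq ι]

/-- the probability that a random set of components contains a member of `D`. -/
noncomputable def PU (VS : Finset V) (S val : V → ℝ) (D : Set (Finset V)) : ℝ :=
  ExL VS.toList (fun v => if v ∈ VS then 1 - Real.exp (-(S v / val v)) else 0) (ind (up D))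

theorem PU_prob (VS : Finset V) (S val : V → ℝ) (hS : ∀ v ∈ VS, 0 ≤ S v)
    (hval : ∀ v ∈ VS, 1 < val v) (v : V) :
    0 ≤ (if v ∈ VS then 1 - Real.exp (-(S v / val v)) else 0) ∧
      (if v ∈ VS then 1 - Real.exp (-(S v / val v)) else 0) ≤ 1 := by
  split_ifs with h
  · have h1 := Real.exp_pos (-(S v / val v))
    have h2 : Real.exp (-(S v / val v)) ≤ 1 := by
      apply Real.exp_le_one_iff.2
      have := div_nonneg (hS v h) (le_trans zero_le_one (hval v h).le)
      linarith
    constructor <;> linarith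
  · exact ⟨le_rfl, zero_le_one⟩

theorem PU_nonneg (VS : Finset V) (S val : V → ℝ) (hS : ∀ v ∈ VS, 0 ≤ S v)
    (hval : ∀ v ∈ VS, 1 < val v) (D : Set (Finset V)) : 0 ≤ PU VS S val D := by
  have := ExL_mono VS.toList (fun v => if v ∈ VS then 1 - Real.exp (-(S v / val v)) else 0)
    (fun a _ => (PU_prob VS S val hS hval a).1) (fun a _ => (PU_prob VS S val hS hval a).2)
    (fun _ => 0) (ind (up D)) (ind_nonneg _)
  rw [ExL_const] at this
  exact this

theorem PU_le_one (VS : Finset V) (S val : V → ℝ) (hS : ∀ v ∈ VS, 0 ≤ S v)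
    (hval : ∀ v ∈ VS, 1 < val v) (D : Set (Finset V)) : PU VS S val D ≤ 1 := by
  have := ExL_mono VS.toList (fun v => if v ∈ VS then 1 - Real.exp (-(S v / val v)) else 0)
    (fun a _ => (PU_prob VS S val hS hval a).1) (fun a _ => (PU_prob VS S val hS hval a).2)
    (ind (up D)) (fun _ => 1) (ind_le_one _)
  rw [ExL_const] at this
  exact this

theorem PU_empty_mem (VS : Finset V) (S val : V → ℝ) (D : Set (Finset V)) (h : ∅ ∈ D) :
    PU VS S val D = 1 := by
  have : ind (up D) = fun _ => (1 : ℝ) := by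
    ext T
    exact ind_of_mem ⟨∅, h, Finset.empty_subset _⟩
  unfold PU
  rw [this, ExL_const]

/-- Erdős–Ko–Rado for `PU`. -/
theorem PU_le_of_inter (π : V → ι) (VS : Finset V) (S val : V → ℝ) (hS : ∀ v ∈ VS, 0 ≤ S v)
    (hval : ∀ v ∈ VS, 1 < val v) (ρ : ℝ) (hρ0 : 0 ≤ ρ) (hρ : ρ ≤ 1 / 2)
    (hr : ∀ r, 1 - ρ ≤ Real.exp (-∑ v ∈ VS.filter (fun v => π v = r), S v / val v))
    (D : Set (Finset V)) (hD : Inter π D) : PU VS S val D ≤ ρ := by
  have h1 := good_dl π VS S val hS hval (fun _ => 0) 0 0 le_rfl ρ hρ0 hρ hr _ (List.suffix_refl _) D hD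
  rw [Pr_dl] at h1
  exact h1

/-- supremum bound, nonempty members. -/
theorem sup_bound_ne (π : V → ι) (VS : Finset V) (S val : V → ℝ) (hS : ∀ v ∈ VS, 0 ≤ S v)
    (hval : ∀ v ∈ VS, 1 < val v) (u : ℝ) (hu : 1 < u) (K ρ : ℝ) (hρ0 : 0 ≤ ρ) (hρ : ρ ≤ 1 / 2)
    (hr : ∀ r, 1 - ρ ≤ Real.exp (-∑ v ∈ VS.filter (fun v => π v = r), S v / val v))
    (hK : ∀ s, 0 ≤ s → Real.exp (XX VS S val s) * (1 - u ^ (-s)) ≤ K)
    (D : Finset (Finset V)) (hD : QP π (↑D : Set (Finset V)))
    (hne : ∀ m ∈ D, m.Nonempty ∧ m ⊆ VS) :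
    ∑ m ∈ D, (∏ v ∈ m, S v) * hh (u * ∏ v ∈ m, val v)
      ≤ hh u * K * (1 / (1 - ρ) * PU VS S val ↑D) := by
  have hlog : 0 < Real.log u := Real.log_pos hu
  have hhu : 0 ≤ hh u := by unfold hh; positivity
  have hM : ∀ m ∈ D, 1 ≤ ∏ v ∈ m, val v := fun m hm => by
    have := Finset.prod_le_prod (s := m) (f := fun _ => (1 : ℝ)) (g := val)
      (fun _ _ => zero_le_one) (fun v hv => (hval v ((hne m hm).2 hv)).le)
    simpa using this
  -- the discretised bound
  have key : ∀ (n : ℕ) (η : ℝ), 0 < η →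
      ∑ m ∈ D, (∏ v ∈ m, S v) * LL u (∏ v ∈ m, val v) n η
        ≤ hh u * K * (1 / (1 - ρ) * PU VS S val ↑D) := by
    intro n η hη
    set t := tt VS.toList (dl S val n η) (gg VS S val u n η) (n + 1) with htdef
    have htv : ∀ x ∈ t, 0 ≤ x.2.1 ∧ x.2.1 < 1 :=
      tt_val VS.toList (dl S val n η) _ (fun j v hv => by
        rw [Finset.mem_toList] at hv
        exact dl_nonneg S val n η hη.le j v (hS v hv) (hval v hv)) (n + 1)
    have htV : Val t := fun x hx => ⟨(htv x hx).1, (htv x hx).2.le⟩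
    calc ∑ m ∈ D, (∏ v ∈ m, S v) * LL u (∏ v ∈ m, val v) n η
        ≤ ∑ m ∈ D, Y t {m} := Finset.sum_le_sum fun m hm =>
          lower VS S val hS hval u hu n η hη.le m (hne m hm).1 (hne m hm).2
      _ = Y t ↑D := (Y_finset t D).symm
      _ ≤ (hh u * K) * Ac t ↑D := by
          apply Y_le_sup _ t htV
          intro x hx
          obtain ⟨-, j, -, hj⟩ := tt_mem _ _ _ _ x hx
          rw [hj]
          unfold gg uu
          have := hK (sg n η j) (sg_nonneg n η hη.le j)
          calc _ = hh u * (Real.exp (XX VS S val (sg n η j)) * (1 - u ^ (-sg n η j))) := by ring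
            _ ≤ _ := mul_le_mul_of_nonneg_left this hhu
      _ ≤ (hh u * K) * (1 / (1 - ρ) * Pr t (ind (up ↑D))) := by
          have hK0 : 0 ≤ K := by
            have := hK 0 le_rfl
            simpa using this
          apply mul_le_mul_of_nonneg_left _ (mul_nonneg hhu hK0)
          exact count π ρ (by linarith) t htV
            (good_dl π VS S val hS hval _ n η hη.le ρ hρ0 hρ hr) _ hD
      _ = _ := by
          rw [htdef, Pr_dl]; rfl
  -- first limit
  have key2 : ∀ η : ℝ, 0 < η → ∑ m ∈ D, (∏ v ∈ m, S v) * LI u (∏ v ∈ m, val v) η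
        ≤ hh u * K * (1 / (1 - ρ) * PU VS S val ↑D) := by
    intro η hη
    have : Tendsto (fun n => ∑ m ∈ D, (∏ v ∈ m, S v) * LL u (∏ v ∈ m, val v) n η) atTop
        (𝓝 (∑ m ∈ D, (∏ v ∈ m, S v) * LI u (∏ v ∈ m, val v) η)) :=
      tendsto_finsetSum _ fun m hm => (tendsto_LL u _ hu (hM m hm) η hη).const_mul _
    exact le_of_tendsto' this fun n => key n η hη
  have : Tendsto (fun η => ∑ m ∈ D, (∏ v ∈ m, S v) * LI u (∏ v ∈ m, val v) η) (𝓝[>] 0)
      (𝓝 (∑ m ∈ D, (∏ v ∈ m, S v) * hh (u * ∏ v ∈ m, val v))) :=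
    tendsto_finsetSum _ fun m hm => (tendsto_LI u _ hu (hM m hm)).const_mul _
  refine le_of_tendsto this ?_
  filter_upwards [self_mem_nhdsWithin] with η hη
  exact key2 η hη

theorem K_ge_one (VS : Finset V) (S val : V → ℝ) (hS : ∀ v ∈ VS, 0 ≤ S v)
    (hval : ∀ v ∈ VS, 1 < val v) (u : ℝ) (hu : 1 < u) (K : ℝ)
    (hK : ∀ s, 0 ≤ s → Real.exp (XX VS S val s) * (1 - u ^ (-s)) ≤ K) : 1 ≤ K := by
  have h1 : Tendsto (fun s : ℝ => 1 - u ^ (-s)) atTop (𝓝 (1 - 0)) := by
    apply Tendsto.const_sub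
    have := tendsto_rpow_atTop_of_base_lt_one (u⁻¹) (by
      have : 0 < u⁻¹ := inv_pos.2 (by linarith)
      linarith) (inv_lt_one_of_one_lt₀ hu)
    refine this.congr ?_
    intro s
    rw [Real.inv_rpow (by linarith), Real.rpow_neg (by linarith)]
  rw [sub_zero] at h1
  refine le_of_tendsto h1 ?_
  filter_upwards [eventually_ge_atTop 0] with s hs
  refine le_trans ?_ (hK s hs)
  have h2 : 0 ≤ 1 - u ^ (-s) := by
    have := Real.rpow_le_one_of_one_le_of_nonpos hu.le (show -s ≤ 0 by linarith)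
    linarith
  have h3 : 1 ≤ Real.exp (XX VS S val s) := by
    apply Real.one_le_exp
    exact Finset.sum_nonneg fun v hv => aa_nonneg S val v (hS v hv) (hval v hv) s
  nlinarith

/-- supremum bound. -/
theorem sup_bound (π : V → ι) (VS : Finset V) (S val : V → ℝ) (hS : ∀ v ∈ VS, 0 ≤ S v)
    (hval : ∀ v ∈ VS, 1 < val v) (u : ℝ) (hu : 1 < u) (K ρ : ℝ) (hρ0 : 0 ≤ ρ) (hρ : ρ ≤ 1 / 2)
    (hr : ∀ r, 1 - ρ ≤ Real.exp (-∑ v ∈ VS.filter (fun v => π v = r), S v / val v))
    (hK : ∀ s, 0 ≤ s → Real.exp (XX VS S val s) * (1 - u ^ (-s)) ≤ K)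
    (D : Finset (Finset V)) (hD : QP π (↑D : Set (Finset V)))
    (hne : ∀ m ∈ D, m ⊆ VS) :
    ∑ m ∈ D, (∏ v ∈ m, S v) * hh (u * ∏ v ∈ m, val v)
      ≤ hh u * K * (1 / (1 - ρ) * PU VS S val ↑D) := by
  have hlog : 0 < Real.log u := Real.log_pos hu
  have hhu : 0 ≤ hh u := by unfold hh; positivity
  have hK1 := K_ge_one VS S val hS hval u hu K hK
  by_cases he : ∅ ∈ D
  · rw [PU_empty_mem VS S val ↑D (by exact_mod_cast he)]
    rw [← Finset.insert_erase he, Finset.sum_insert (Finset.notMem_erase _ _)]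
    simp only [Finset.prod_empty, mul_one, one_mul]
    have h1 := sup_bound_ne π VS S val hS hval u hu K ρ hρ0 hρ hr hK (D.erase ∅)
      (QP_subset hD (by intro m hm; exact Finset.mem_of_mem_erase (by exact_mod_cast hm)))
      (fun m hm => ⟨Finset.nonempty_iff_ne_empty.2 (Finset.ne_of_mem_erase hm),
        hne m (Finset.mem_of_mem_erase hm)⟩)
    have h2 : PU VS S val ↑(D.erase ∅) ≤ ρ := by
      apply PU_le_of_inter π VS S val hS hval ρ hρ0 hρ hr
      intro m hm m' hm'
      have hm1 := Finset.mem_of_mem_erase (Finset.mem_coe.1 hm)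
      have hm1' := Finset.mem_of_mem_erase (Finset.mem_coe.1 hm')
      have hm2 := Finset.ne_of_mem_erase (Finset.mem_coe.1 hm)
      have hm2' := Finset.ne_of_mem_erase (Finset.mem_coe.1 hm')
      have := hD ∅ (by exact_mod_cast he) m (by exact_mod_cast hm1) m' (by exact_mod_cast hm1')
        (Finset.empty_ssubset.2 (Finset.nonempty_iff_ne_empty.2 hm2))
        (Finset.empty_ssubset.2 (Finset.nonempty_iff_ne_empty.2 hm2'))
      simpa using this
    have h1ρ : 0 < 1 - ρ := by linarith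
    have h3 : hh u * K * (1 / (1 - ρ) * PU VS S val ↑(D.erase ∅))
        ≤ hh u * K * (1 / (1 - ρ) * ρ) := by
      apply mul_le_mul_of_nonneg_left _ (by positivity)
      exact mul_le_mul_of_nonneg_left h2 (by positivity)
    have h4 : hh u + hh u * K * (1 / (1 - ρ) * ρ) ≤ hh u * K * (1 / (1 - ρ)) := by
      have : hh u * K * (1 / (1 - ρ)) - hh u * K * (1 / (1 - ρ) * ρ) = hh u * K := by
        field_simp
      nlinarith
    linarith
  · exact sup_bound_ne π VS S val hS hval u hu K ρ hρ0 hρ hr hK D hD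
      (fun m hm => ⟨Finset.nonempty_iff_ne_empty.2 (fun h => he (h ▸ hm)), hne m hm⟩)

/-! ### first jump -/

theorem exp_sub_one_le (x : ℝ) : Real.exp x - 1 ≤ x * Real.exp x := by
  have h1 := Real.add_one_le_exp (-x)
  have h2 : Real.exp x * Real.exp (-x) = 1 := by rw [← Real.exp_add]; simp
  have h3 := Real.exp_pos x
  nlinarith

/-- increments of the total density. -/
noncomputable def dX (VS : Finset V) (S val : V → ℝ) (n : ℕ) (η : ℝ) (j : ℕ) : ℝ :=
  ∑ v ∈ VS, dl S val n η j v

/-- error -/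
noncomputable def ee (VS : Finset V) (S val : V → ℝ) (n : ℕ) (η : ℝ) : ℝ :=
  XX VS S val (n * η) + ∑ v ∈ VS, S v / val v * (1 - val v ^ (-η))

theorem dl_le (S val : V → ℝ) (v : V) (hS : 0 ≤ S v) (hv : 1 < val v) (n : ℕ) (η : ℝ) (hη : 0 ≤ η)
    (j : ℕ) : dl S val n η (j + 1) v ≤ S v / val v * (1 - val v ^ (-η)) := by
  have h0 : 0 < val v := by linarith
  have hq : 0 ≤ 1 - val v ^ (-η) := by
    have := Real.rpow_le_one_of_one_le_of_nonpos hv.le (show -η ≤ 0 by linarith)
    linarith
  show aa S val v (sg n η (j + 1)) - aa S val v (sg n η j) ≤ _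
  by_cases hj : j < n
  · have h2 : (n - j : ℕ) = (n - (j + 1)) + 1 := by omega
    have h3 : sg n η j = sg n η (j + 1) + η := by
      unfold sg; rw [h2]; push_cast; ring
    have h4 : aa S val v (sg n η j) = aa S val v (sg n η (j + 1)) * val v ^ (-η) := by
      unfold aa
      rw [h3, mul_assoc, ← Real.rpow_add h0]
      congr 2; ring
    rw [h4, ← aa_zero]
    have h5 : aa S val v (sg n η (j + 1)) ≤ aa S val v 0 :=
      aa_anti S val v hS hv (sg_nonneg n η hη _)
    nlinarith
  · have h1 : sg n η (j + 1) = sg n η j := by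
      unfold sg
      have : n - (j + 1) = n - j := by omega
      rw [this]
    rw [h1, sub_self]
    exact mul_nonneg (div_nonneg hS h0.le) hq

theorem dX_le (VS : Finset V) (S val : V → ℝ) (hS : ∀ v ∈ VS, 0 ≤ S v)
    (hval : ∀ v ∈ VS, 1 < val v) (n : ℕ) (η : ℝ) (hη : 0 ≤ η) (j : ℕ) :
    dX VS S val n η j ≤ ee VS S val n η := by
  have hX : 0 ≤ XX VS S val (n * η) :=
    Finset.sum_nonneg fun v hv => aa_nonneg S val v (hS v hv) (hval v hv) _
  have hE : 0 ≤ ∑ v ∈ VS, S v / val v * (1 - val v ^ (-η)) :=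
    Finset.sum_nonneg fun v hv => by
      have h0 : 0 < val v := by linarith [hval v hv]
      have := Real.rpow_le_one_of_one_le_of_nonpos (hval v hv).le (show -η ≤ 0 by linarith)
      exact mul_nonneg (div_nonneg (hS v hv) h0.le) (by linarith)
  unfold ee
  cases j with
  | zero =>
    have : dX VS S val n η 0 = XX VS S val (n * η) := by
      unfold dX XX
      apply Finset.sum_congr rfl
      intro v _
      show aa S val v (sg n η 0) = _
      unfold sg; simp
    linarith
  | succ j =>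
    have : dX VS S val n η (j + 1) ≤ ∑ v ∈ VS, S v / val v * (1 - val v ^ (-η)) :=
      Finset.sum_le_sum fun v hv => dl_le S val v (hS v hv) (hval v hv) n η hη j
    linarith

theorem dX_nonneg (VS : Finset V) (S val : V → ℝ) (hS : ∀ v ∈ VS, 0 ≤ S v)
    (hval : ∀ v ∈ VS, 1 < val v) (n : ℕ) (η : ℝ) (hη : 0 ≤ η) (j : ℕ) :
    0 ≤ dX VS S val n η j :=
  Finset.sum_nonneg fun v hv => dl_nonneg S val n η hη j v (hS v hv) (hval v hv)

theorem XX_succ (VS : Finset V) (S val : V → ℝ) (n : ℕ) (η : ℝ) (j : ℕ) :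
    XX VS S val (sg n η (j + 1)) = XX VS S val (sg n η j) + dX VS S val n η (j + 1) := by
  unfold XX dX
  rw [← Finset.sum_add_distrib]
  apply Finset.sum_congr rfl
  intro v _
  show _ = _ + (aa S val v (sg n η (j + 1)) - aa S val v (sg n η j))
  ring

theorem FJ_dl (VS : Finset V) (S val : V → ℝ) (u : ℝ) (n : ℕ) (η : ℝ) :
    FJ (tt VS.toList (dl S val n η) (gg VS S val u n η) (n + 1))
      = ∑ j ∈ range (n + 1), uu u n η j * (Real.exp (dX VS S val n η j) - 1) := by
  rw [FJ_tt]
  apply Finset.sum_congr rfl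
  intro j _
  rw [SS_rnd, Finset.sum_map_toList]
  have hd : ∑ v ∈ VS, dl S val n η j v = dX VS S val n η j := rfl
  rw [hd]
  set x := dX VS S val n η j with hx
  have h1 : SS (tt VS.toList (dl S val n η) (gg VS S val u n η) j)
      * Real.exp (XX VS S val (sg n η j)) = Real.exp x := by
    cases j with
    | zero =>
      simp only [tt, SS, one_mul]
      congr 1
    | succ j =>
      rw [SS_dl, XX_succ, ← hx, ← Real.exp_add]
      congr 1; ring
  have h2 : Real.exp x * Real.exp (-x) = 1 := by rw [← Real.exp_add]; simp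
  unfold gg
  calc _ = (SS (tt VS.toList (dl S val n η) (gg VS S val u n η) j)
      * Real.exp (XX VS S val (sg n η j))) * (uu u n η j * (1 - Real.exp (-x))) := by
        unfold gg; ring
    _ = uu u n η j * (Real.exp x - Real.exp x * Real.exp (-x)) := by rw [h1]; ring
    _ = _ := by rw [h2]

theorem sum_uu_dl (S val : V → ℝ) (u : ℝ) (hu : 1 < u) (v : V) (hv : 1 < val v) (n : ℕ) (η : ℝ) :
    ∑ j ∈ range (n + 1), uu u n η j * dl S val n η j v = S v * LL u (val v) n η := by
  have h1 := LL_eq S val u hu n η {v} (fun w hw => by rw [Finset.mem_singleton.1 hw]; exact hv)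
  simp only [Finset.prod_singleton, sum_dl] at h1
  rw [← h1]
  have h2 : ∀ k, ∑ j ∈ range (k + 1), uu u n η j * dl S val n η j v
      = uu u n η k * aa S val v (sg n η k)
        + ∑ j ∈ range k, (uu u n η j - uu u n η (j + 1)) * aa S val v (sg n η j) := by
    intro k
    induction k with
    | zero => simp [dl]
    | succ k ih =>
      rw [Finset.sum_range_succ, ih, Finset.sum_range_succ]
      show _ + uu u n η (k + 1) * (aa S val v (sg n η (k + 1)) - aa S val v (sg n η k)) = _
      ring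
  rw [h2 n]
  have h3 : uu u n η n = 0 := by unfold uu sg; simp
  rw [h3, zero_mul, zero_add]

/-- first jump bound. -/
theorem jump_bound (π : V → ι) (VS : Finset V) (S val : V → ℝ) (hS : ∀ v ∈ VS, 0 ≤ S v)
    (hval : ∀ v ∈ VS, 1 < val v) (u : ℝ) (hu : 1 < u) (ρ : ℝ) (hρ0 : 0 ≤ ρ) (hρ : ρ ≤ 1 / 2)
    (hr : ∀ r, 1 - ρ ≤ Real.exp (-∑ v ∈ VS.filter (fun v => π v = r), S v / val v))
    (hmono : ∀ s t, 0 ≤ s → s ≤ t → Real.exp (XX VS S val s) * (1 - u ^ (-s))
      ≤ Real.exp (XX VS S val t) * (1 - u ^ (-t)))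
    (D : Finset (Finset V)) (hD : QP π (↑D : Set (Finset V)))
    (hne : ∀ m ∈ D, m.Nonempty ∧ m ⊆ VS) :
    ∑ m ∈ D, (∏ v ∈ m, S v) * hh (u * ∏ v ∈ m, val v)
      ≤ 1 / (1 - ρ) * ∑ v ∈ VS, S v * hh (u * val v) := by
  have hlog : 0 < Real.log u := Real.log_pos hu
  have hhu : 0 ≤ hh u := by unfold hh; positivity
  have h1ρ : 0 < 1 - ρ := by linarith
  have hM : ∀ m ∈ D, 1 ≤ ∏ v ∈ m, val v := fun m hm => by
    have := Finset.prod_le_prod (s := m) (f := fun _ => (1 : ℝ)) (g := val)
      (fun _ _ => zero_le_one) (fun v hv => (hval v ((hne m hm).2 hv)).le)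
    simpa using this
  -- the discretised bound
  have key : ∀ (n : ℕ) (η : ℝ), 0 < η →
      ∑ m ∈ D, (∏ v ∈ m, S v) * LL u (∏ v ∈ m, val v) n η
        ≤ 1 / (1 - ρ) * (Real.exp (ee VS S val n η) * ∑ v ∈ VS, S v * LL u (val v) n η) := by
    intro n η hη
    set t := tt VS.toList (dl S val n η) (gg VS S val u n η) (n + 1) with htdef
    have htv : ∀ x ∈ t, 0 ≤ x.2.1 ∧ x.2.1 < 1 :=
      tt_val VS.toList (dl S val n η) _ (fun j v hv => by
        rw [Finset.mem_toList] at hv
        exact dl_nonneg S val n η hη.le j v (hS v hv) (hval v hv)) (n + 1)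
    have htV : Val t := fun x hx => ⟨(htv x hx).1, (htv x hx).2.le⟩
    calc ∑ m ∈ D, (∏ v ∈ m, S v) * LL u (∏ v ∈ m, val v) n η
        ≤ ∑ m ∈ D, Y t {m} := Finset.sum_le_sum fun m hm =>
          lower VS S val hS hval u hu n η hη.le m (hne m hm).1 (hne m hm).2
      _ = Y t ↑D := (Y_finset t D).symm
      _ ≤ 1 / (1 - ρ) * FJ t := by
          apply Y_le_FJ π ρ (by linarith) t htV
            (good_dl π VS S val hS hval _ n η hη.le ρ hρ0 hρ hr) _ _ _ hD
          · intro x hx
            obtain ⟨-, j, -, hj⟩ := tt_mem _ _ _ _ x hx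
            rw [hj]
            exact mul_nonneg (Real.exp_pos _).le (uu_nonneg u hu n η hη.le j)
          · apply tt_pairwise
            intro i j hij _
            unfold gg uu
            have := hmono (sg n η j) (sg n η i) (sg_nonneg n η hη.le j) (sg_anti n η hη.le hij)
            calc _ = hh u * (Real.exp (XX VS S val (sg n η j)) * (1 - u ^ (-sg n η j))) := by ring
              _ ≤ hh u * (Real.exp (XX VS S val (sg n η i)) * (1 - u ^ (-sg n η i))) :=
                mul_le_mul_of_nonneg_left this hhu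
              _ = _ := by ring
      _ ≤ _ := by
          apply mul_le_mul_of_nonneg_left _ (by positivity)
          rw [htdef, FJ_dl]
          calc ∑ j ∈ range (n + 1), uu u n η j * (Real.exp (dX VS S val n η j) - 1)
              ≤ ∑ j ∈ range (n + 1), uu u n η j * (dX VS S val n η j * Real.exp (ee VS S val n η)) := by
                apply Finset.sum_le_sum
                intro j _
                apply mul_le_mul_of_nonneg_left _ (uu_nonneg u hu n η hη.le j)
                refine (exp_sub_one_le _).trans ?_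
                apply mul_le_mul_of_nonneg_left _ (dX_nonneg VS S val hS hval n η hη.le j)
                exact Real.exp_le_exp.2 (dX_le VS S val hS hval n η hη.le j)
            _ = Real.exp (ee VS S val n η) * ∑ j ∈ range (n + 1), ∑ v ∈ VS, uu u n η j * dl S val n η j v := by
                rw [Finset.mul_sum]
                apply Finset.sum_congr rfl
                intro j _
                unfold dX
                rw [← Finset.mul_sum]
                ring
            _ = _ := by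
                rw [Finset.sum_comm]
                congr 1
                exact Finset.sum_congr rfl fun v hv => sum_uu_dl S val u hu v (hval v hv) n η
  -- first limit
  have key2 : ∀ η : ℝ, 0 < η → ∑ m ∈ D, (∏ v ∈ m, S v) * LI u (∏ v ∈ m, val v) η
        ≤ 1 / (1 - ρ) * (Real.exp (∑ v ∈ VS, S v / val v * (1 - val v ^ (-η)))
          * ∑ v ∈ VS, S v * LI u (val v) η) := by
    intro η hη
    have h1 : Tendsto (fun n => ∑ m ∈ D, (∏ v ∈ m, S v) * LL u (∏ v ∈ m, val v) n η) atTop
        (𝓝 (∑ m ∈ D, (∏ v ∈ m, S v) * LI u (∏ v ∈ m, val v) η)) :=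
      tendsto_finsetSum _ fun m hm => (tendsto_LL u _ hu (hM m hm) η hη).const_mul _
    have h2 : Tendsto (fun n => ∑ v ∈ VS, S v * LL u (val v) n η) atTop
        (𝓝 (∑ v ∈ VS, S v * LI u (val v) η)) :=
      tendsto_finsetSum _ fun v hv => (tendsto_LL u _ hu (hval v hv).le η hη).const_mul _
    have h3 : Tendsto (fun n : ℕ => XX VS S val (n * η)) atTop (𝓝 0) := by
      have : Tendsto (fun n : ℕ => XX VS S val (n * η)) atTop (𝓝 (∑ v ∈ VS, S v * 0)) := by
        apply tendsto_finsetSum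
        intro v hv
        apply Tendsto.const_mul
        have h0 : 0 < val v := by linarith [hval v hv]
        have ha : ∀ n : ℕ, val v ^ (-(1 + (n : ℝ) * η)) = (val v)⁻¹ * (val v ^ (-η)) ^ n := by
          intro n
          rw [← Real.rpow_natCast, ← Real.rpow_mul h0.le, ← Real.rpow_neg_one, ← Real.rpow_add h0]
          congr 1; ring
        simp only [ha]
        have h5 : val v ^ (-η) < 1 := Real.rpow_lt_one_of_one_lt_of_neg (hval v hv) (by linarith)
        have h6 := (tendsto_pow_atTop_nhds_zero_of_lt_one (Real.rpow_nonneg h0.le _) h5).const_mul (val v)⁻¹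
        simpa using h6
      simpa using this
    have h4 : Tendsto (fun n : ℕ => Real.exp (ee VS S val n η)) atTop
        (𝓝 (Real.exp (∑ v ∈ VS, S v / val v * (1 - val v ^ (-η))))) := by
      apply (Real.continuous_exp.tendsto _).comp
      unfold ee
      have := h3.add_const (∑ v ∈ VS, S v / val v * (1 - val v ^ (-η)))
      simpa using this
    exact le_of_tendsto_of_tendsto' h1 ((h4.mul h2).const_mul _) fun n => key n η hη
  have h1 : Tendsto (fun η => ∑ m ∈ D, (∏ v ∈ m, S v) * LI u (∏ v ∈ m, val v) η) (𝓝[>] 0)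
      (𝓝 (∑ m ∈ D, (∏ v ∈ m, S v) * hh (u * ∏ v ∈ m, val v))) :=
    tendsto_finsetSum _ fun m hm => (tendsto_LI u _ hu (hM m hm)).const_mul _
  have h2 : Tendsto (fun η => ∑ v ∈ VS, S v * LI u (val v) η) (𝓝[>] 0)
      (𝓝 (∑ v ∈ VS, S v * hh (u * val v))) :=
    tendsto_finsetSum _ fun v hv => (tendsto_LI u _ hu (hval v hv).le).const_mul _
  have h3 : Tendsto (fun η : ℝ => Real.exp (∑ v ∈ VS, S v / val v * (1 - val v ^ (-η)))) (𝓝[>] 0)
      (𝓝 (Real.exp 0)) := by
    apply (Real.continuous_exp.tendsto _).comp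
    have : Tendsto (fun η : ℝ => ∑ v ∈ VS, S v / val v * (1 - val v ^ (-η))) (𝓝[>] 0)
        (𝓝 (∑ v ∈ VS, S v / val v * (1 - val v ^ (-(0:ℝ))))) := by
      apply tendsto_finsetSum
      intro v hv
      apply Tendsto.const_mul
      apply Tendsto.const_sub
      apply Tendsto.mono_left _ nhdsWithin_le_nhds
      apply ContinuousAt.tendsto
      apply ContinuousAt.rpow continuousAt_const
      · fun_prop
      · left; linarith [hval v hv]
    simpa using this
  have h4 := (h3.mul h2).const_mul (1 / (1 - ρ))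
  rw [Real.exp_zero, one_mul] at h4
  refine le_of_tendsto_of_tendsto h1 h4 ?_
  filter_upwards [self_mem_nhdsWithin] with η hη
  exact key2 η hη

end Pool.Agent.EZ
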