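import Pool.Agent.EZ.Scan

/-!
# Caps: the prime weights of the components after `a`
-/

set_option autoImplicit false
set_option linter.unusedSectionVars false
set_option linter.unusedVariables false

namespace Pool.Agent.EZ

open Finset

/-- smallest power of `r` above `B` (start value `c`). -/
noncomputable def nxp (r B f : ℕ) : ℕ → ℕ :=
  Nat.rec (motive := fun _ => ℕ → ℕ) (fun c => c)
    (fun _ ih c => cond (Nat.ble c B) (frn (Nat.mul c r) fun c' => ih c') c) f

theorem nxp_succ (r B f c : ℕ) : nxp r B (f + 1) c = if c ≤ B then nxp r B f (c * r) else c := by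
  have h : nxp r B (f + 1) c = cond (Nat.ble c B) (frn (Nat.mul c r) fun c' => nxp r B f c') c := rfl
  rw [h, ble_cond, frn_eq]
  rfl

theorem nxp_le (r B : ℕ) (hr : 2 ≤ r) : ∀ f j : ℕ, (∀ i < j, r ^ i ≤ B) →
    ∀ k, B < r ^ k → nxp r B f (r ^ j) ≤ r ^ k := by
  intro f
  induction f with
  | zero =>
    intro j hj k hk
    change r ^ j ≤ r ^ k
    apply Nat.pow_le_pow_right (by omega)
    by_contra hc
    have := hj k (by omega)
    omega
  | succ f ih =>
    intro j hj k hk
    rw [nxp_succ]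
    by_cases h : r ^ j ≤ B
    · rw [if_pos h, ← pow_succ]
      apply ih (j + 1) _ k hk
      intro i hi
      rcases Nat.lt_succ_iff_lt_or_eq.1 hi with h1 | h1
      · exact hj i h1
      · rw [h1]; exact h
    · rw [if_neg h]
      apply Nat.pow_le_pow_right (by omega)
      by_contra hc
      have := hj k (by omega)
      omega

theorem nxp_pos (r B : ℕ) (hr : 2 ≤ r) : ∀ f c : ℕ, 0 < c → 0 < nxp r B f c := by
  intro f
  induction f with
  | zero => intro c hc; exact hc
  | succ f ih =>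
    intro c hc
    rw [nxp_succ]
    split_ifs
    · exact ih _ (by positivity)
    · exact hc

/-- the cap of the small prime `r`. -/
noncomputable def cr (r rz B : ℕ) : ℕ :=
  cond (Nat.beq r rz) 0
    (Nat.succ (Nat.div (Nat.mul r 1000000000000) (Nat.mul (Nat.sub r 1) (nxp r B 14 1))))

/-- maximum -/
def mx (a b : ℕ) : ℕ := cond (Nat.ble a b) b a

theorem le_mx_left (a b : ℕ) : a ≤ mx a b := by unfold mx; rw [ble_cond]; split_ifs <;> omega
theorem le_mx_right (a b : ℕ) : b ≤ mx a b := by unfold mx; rw [ble_cond]; split_ifs <;> omega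

/-- crude cap beyond `B`. -/
noncomputable def crude (rz B : ℕ) : ℕ :=
  frn (cr 2 rz B) fun c2 => frn (cr 3 rz B) fun c3 => frn (cr 5 rz B) fun c5 =>
    frn (cr 7 rz B) fun c7 => frn (Nat.succ (Nat.div 1100000000000 (Nat.succ B))) fun c11 =>
      frn (mx c2 c3) fun m1 => frn (mx c5 c7) fun m2 => frn (mx m1 m2) fun m3 => mx m3 c11

theorem crude_eq (rz B : ℕ) : crude rz B = mx (mx (mx (cr 2 rz B) (cr 3 rz B))
    (mx (cr 5 rz B) (cr 7 rz B))) (Nat.succ (Nat.div 1100000000000 (Nat.succ B))) := by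
  unfold crude
  simp only [frn_eq]

/-- value of an entry. -/
def cval (s v r : ℕ) : ℕ :=
  Nat.succ (Nat.div (Nat.add (Nat.mul s 1000000000) (Nat.succ (Nat.div 1000000000000 (Nat.sub r 1)))) v)

/-- maximum over the alive entries up to `B`. -/
noncomputable def capS (x rz B : ℕ) (l : List PE) : ℕ → ℕ :=
  List.rec (motive := fun _ => ℕ → ℕ) (fun m => m)
    (fun e _ ih m => cond (Nat.ble e.1 B)
      (cond (Nat.beq e.2.1 rz) (ih m)
        (frn (svB x e.1 e.2.1) fun s => cond (Nat.beq s 0) (ih m)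
          (frn (cval s e.1 e.2.1) fun t => frn (mx t m) fun m' => ih m'))) m) l

theorem capS_cons (x rz B : ℕ) (e : PE) (tl : List PE) (m : ℕ) : capS x rz B (e :: tl) m =
    if e.1 ≤ B then (if e.2.1 = rz then capS x rz B tl m else
      (if svB x e.1 e.2.1 = 0 then capS x rz B tl m else
        capS x rz B tl (mx (cval (svB x e.1 e.2.1) e.1 e.2.1) m))) else m := by
  have h : capS x rz B (e :: tl) m = cond (Nat.ble e.1 B)
      (cond (Nat.beq e.2.1 rz) (capS x rz B tl m)
        (frn (svB x e.1 e.2.1) fun s => cond (Nat.beq s 0) (capS x rz B tl m)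
          (frn (cval s e.1 e.2.1) fun t => frn (mx t m) fun m' => capS x rz B tl m'))) m := rfl
  rw [h, ble_cond, beq_cond]
  simp only [frn_eq, beq_cond]

theorem capS_ge (x rz B : ℕ) : ∀ (l : List PE) (m : ℕ), m ≤ capS x rz B l m := by
  intro l
  induction l with
  | nil => intro m; exact le_rfl
  | cons e tl ih =>
    intro m
    rw [capS_cons]
    split_ifs
    · exact ih m
    · exact ih m
    · exact (le_mx_right _ _).trans (ih _)
    · exact le_rfl

theorem capS_mem (x rz B : ℕ) : ∀ (l : List PE) (m : ℕ), l.Pairwise (fun p q => p.1 < q.1) →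
    ∀ e ∈ l, e.1 ≤ B → e.2.1 ≠ rz → svB x e.1 e.2.1 ≠ 0 →
      cval (svB x e.1 e.2.1) e.1 e.2.1 ≤ capS x rz B l m := by
  intro l
  induction l with
  | nil => intro m _ e he; simp at he
  | cons f tl ih =>
    intro m hp e he heB her hes
    rw [List.pairwise_cons] at hp
    rw [capS_cons]
    rcases List.mem_cons.1 he with rfl | he
    · rw [if_pos heB, if_neg her, if_neg hes]
      exact (le_mx_left _ _).trans (capS_ge _ _ _ _ _)
    · have hf : f.1 ≤ B := (hp.1 e he).le.trans heB
      rw [if_pos hf]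
      split_ifs
      · exact ih _ hp.2 e he heB her hes
      · exact ih _ hp.2 e he heB her hes
      · exact ih _ hp.2 e he heB her hes

/-- bound of the scan for the cap. -/
def Bf (a : ℕ) : ℕ := mx a 64

/-- the cap after `a`. -/
noncomputable def capF (x rz a : ℕ) (l : List PE) : ℕ :=
  frn (Bf a) fun B => frn (crude rz B) fun c => capS x rz B l c

theorem capF_eq (x rz a : ℕ) (l : List PE) : capF x rz a l = capS x rz (Bf a) l (crude rz (Bf a)) := by
  unfold capF
  simp only [frn_eq]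

theorem cr_spec (r rz B : ℕ) (hr : 2 ≤ r) (hrz : r ≠ rz) (k : ℕ) (hk : B < r ^ k) :
    Up ((r : ℝ) / ((r : ℝ) ^ k * ((r : ℝ) - 1))) (cr r rz B) := by
  unfold cr
  rw [beq_cond, if_neg hrz]
  have h1 := nxp_le r B hr 14 0 (by intro i hi; omega) k hk
  rw [pow_zero] at h1
  have h0 := nxp_pos r B hr 14 1 (by norm_num)
  have hr' : (2 : ℝ) ≤ r := by exact_mod_cast hr
  have hr1 : (0 : ℝ) < (r : ℝ) - 1 := by linarith
  have hn0 : (0 : ℝ) < (nxp r B 14 1 : ℝ) := by exact_mod_cast h0
  have hn1 : (nxp r B 14 1 : ℝ) ≤ (r : ℝ) ^ k := by exact_mod_cast h1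
  have h2 := cast_div_ge (Nat.mul r 1000000000000) (Nat.mul (Nat.sub r 1) (nxp r B 14 1))
    (Nat.mul_pos (by change 0 < r - 1; omega) h0)
  have e1 : ((Nat.mul r 1000000000000 : ℕ) : ℝ) = (r : ℝ) * 1000000000000 := by
    change ((r * 1000000000000 : ℕ) : ℝ) = _
    push_cast; ring
  have e2 : ((Nat.mul (Nat.sub r 1) (nxp r B 14 1) : ℕ) : ℝ) = ((r : ℝ) - 1) * nxp r B 14 1 := by
    change (((r - 1) * nxp r B 14 1 : ℕ) : ℝ) = _
    rw [Nat.cast_mul, Nat.cast_sub (by omega)]
    push_cast; ring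
  rw [e1, e2] at h2
  unfold Up
  refine le_trans ?_ h2
  rw [div_mul_eq_mul_div]
  apply div_le_div_of_nonneg_left (by positivity) (by positivity)
  rw [mul_comm]
  exact mul_le_mul_of_nonneg_right hn1 hr1.le

theorem small_prime {r : ℕ} (hp : r.Prime) (h : ¬ 11 ≤ r) : r = 2 ∨ r = 3 ∨ r = 5 ∨ r = 7 := by
  have : r ≤ 10 := by omega
  interval_cases r <;> first | omega | (exfalso; revert hp; norm_num)

theorem capF_sound (z x a N : ℕ) (l : List PE) (hg : TGood a N l) (hB : Bf a ≤ N) (ha : 1 ≤ a) :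
    CapB z x a ((capF x z.minFac a l : ℝ) / 1000000000000) := by
  set B := Bf a with hBdef
  have haB : a ≤ B := le_mx_left _ _
  have hB64 : 64 ≤ B := le_mx_right _ _
  rw [capF_eq, ← hBdef]
  set C := capS x z.minFac B l (crude z.minFac B) with hC
  have hcr : crude z.minFac B ≤ C := capS_ge _ _ _ _ _
  intro VS hVS r
  have hC0 : (0 : ℝ) ≤ (C : ℝ) / 1000000000000 := by positivity
  by_cases hrz : r = z.minFac
  · have : VS.filter (fun w => w.minFac = r) = ∅ := by
      apply Finset.filter_false_of_mem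
      intro w hw h
      exact (hVS w hw).2.2 (h.trans hrz)
    rw [this, Finset.sum_empty]
    exact hC0
  have hf : ∀ w : ℕ, 0 ≤ (if a < w then Sx x w / (w : ℝ) else 0) := by
    intro w
    split_ifs
    · exact Sx_div_nonneg x w
    · exact le_rfl
  have e1 : ∑ w ∈ VS.filter (fun w => w.minFac = r), Sx x w / (w : ℝ)
      = ∑ w ∈ VS.filter (fun w => w.minFac = r), (if a < w then Sx x w / (w : ℝ) else 0) := by
    apply Finset.sum_congr rfl
    intro w hw
    rw [if_pos (hVS w (Finset.mem_filter.1 hw).1).2.1]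
  rw [e1]
  rcases sum_over_prime VS (fun v hv => (hVS v hv).1) r _ hf with h | ⟨hp, K, hK⟩
  · rw [h]; exact hC0
  refine hK.trans ?_
  have hr2 := hp.two_le
  have hr' : (2 : ℝ) ≤ r := by exact_mod_cast hr2
  have hr1 : (0 : ℝ) < (r : ℝ) - 1 := by linarith
  have hex : ∃ k, a < r ^ k ∧ (B < r ^ k ∨ 0 < Sx x (r ^ k)) := by
    refine ⟨B + 1, ?_, Or.inl ?_⟩
    · have : B + 1 < r ^ (B + 1) := Nat.lt_pow_self hp.one_lt
      omega
    · have : B + 1 < r ^ (B + 1) := Nat.lt_pow_self hp.one_lt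
      omega
  classical
  set k1 := Nat.find hex with hk1
  have hk1s := Nat.find_spec hex
  rw [← hk1] at hk1s
  have hk1m : ∀ k < k1, ¬ (a < r ^ k ∧ (B < r ^ k ∨ 0 < Sx x (r ^ k))) := fun k hk => Nat.find_min hex hk
  have hk1pos : 1 ≤ k1 := by
    rcases Nat.eq_zero_or_pos k1 with h | h
    · rw [h, pow_zero] at hk1s
      have := hk1s.1
      omega
    · exact h
  have hzero : ∑ k ∈ Icc 1 K, (if a < r ^ k then Sx x (r ^ k) / ((r ^ k : ℕ) : ℝ) else 0)
      ≤ ∑ k ∈ Icc k1 K, Sx x (r ^ k) / ((r ^ k : ℕ) : ℝ) := by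
    rw [← Finset.sum_filter_add_sum_filter_not (Icc 1 K) (fun k => k1 ≤ k)]
    have e2 : ∑ k ∈ (Icc 1 K).filter (fun k => ¬ k1 ≤ k),
        (if a < r ^ k then Sx x (r ^ k) / ((r ^ k : ℕ) : ℝ) else 0) = 0 := by
      apply Finset.sum_eq_zero
      intro k hk
      have h1 := hk1m k (by have := (Finset.mem_filter.1 hk).2; omega)
      split_ifs with h2
      · have h3 : ¬ 0 < Sx x (r ^ k) := fun h3 => h1 ⟨h2, Or.inr h3⟩
        have h4 : Sx x (r ^ k) = 0 := le_antisymm (not_lt.1 h3) (Sx_nonneg x _)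
        rw [h4]; simp
      · rfl
    rw [e2, add_zero]
    have e3 : (Icc 1 K).filter (fun k => k1 ≤ k) = Icc k1 K := by
      ext k
      simp only [Finset.mem_filter, Finset.mem_Icc]
      omega
    rw [e3]
    apply Finset.sum_le_sum
    intro k _
    split_ifs
    · exact le_rfl
    · exact Sx_div_nonneg x _
  refine hzero.trans ?_
  have hUp : ∀ {y : ℝ} {X : ℕ}, Up y X → X ≤ C → y ≤ (C : ℝ) / 1000000000000 := by
    intro y X h1 h2
    unfold Up at h1
    rw [le_div_iff₀ (by norm_num)]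
    refine h1.trans ?_
    exact_mod_cast h2
  by_cases hBk : B < r ^ k1
  · refine (full_tail x r k1 K hr2).trans ?_
    rw [crude_eq] at hcr
    have small : ∀ q, q ≠ z.minFac → cr q z.minFac B ≤ C → 2 ≤ q → r = q →
        (r : ℝ) / ((r : ℝ) ^ k1 * ((r : ℝ) - 1)) ≤ (C : ℝ) / 1000000000000 := by
      intro q hq h1 hq2 hrq
      subst hrq
      exact hUp (cr_spec r z.minFac B hq2 hq k1 hBk) h1
    have h2 := le_mx_left (mx (mx (cr 2 z.minFac B) (cr 3 z.minFac B))
      (mx (cr 5 z.minFac B) (cr 7 z.minFac B))) (Nat.succ (Nat.div 1100000000000 (Nat.succ B)))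
    have h3 := le_mx_right (mx (mx (cr 2 z.minFac B) (cr 3 z.minFac B))
      (mx (cr 5 z.minFac B) (cr 7 z.minFac B))) (Nat.succ (Nat.div 1100000000000 (Nat.succ B)))
    have h4 := le_mx_left (mx (cr 2 z.minFac B) (cr 3 z.minFac B)) (mx (cr 5 z.minFac B) (cr 7 z.minFac B))
    have h5 := le_mx_right (mx (cr 2 z.minFac B) (cr 3 z.minFac B)) (mx (cr 5 z.minFac B) (cr 7 z.minFac B))
    have h6 := le_mx_left (cr 2 z.minFac B) (cr 3 z.minFac B)
    have h7 := le_mx_right (cr 2 z.minFac B) (cr 3 z.minFac B)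
    have h8 := le_mx_left (cr 5 z.minFac B) (cr 7 z.minFac B)
    have h9 := le_mx_right (cr 5 z.minFac B) (cr 7 z.minFac B)
    by_cases hr11 : 11 ≤ r
    · apply hUp (X := Nat.succ (Nat.div 1100000000000 (Nat.succ B))) _ (by omega)
      unfold Up
      refine le_trans ?_ (cast_div_ge 1100000000000 (Nat.succ B) (by omega))
      have hr11' : (11 : ℝ) ≤ r := by exact_mod_cast hr11
      have hBr : ((Nat.succ B : ℕ) : ℝ) ≤ (r : ℝ) ^ k1 := by exact_mod_cast hBk
      have hB0 : (0 : ℝ) < ((Nat.succ B : ℕ) : ℝ) := by positivity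
      rw [div_mul_eq_mul_div, div_le_div_iff₀ (by positivity) hB0]
      push_cast at hBr hB0 ⊢
      have h10 : (r : ℝ) ≤ 1.1 * ((r : ℝ) - 1) := by linarith
      calc (r : ℝ) * 1000000000000 * ((B : ℝ) + 1) ≤ (1.1 * ((r : ℝ) - 1)) * 1000000000000 * ((B : ℝ) + 1) := by
            gcongr
        _ = 1100000000000 * (((B : ℝ) + 1) * ((r : ℝ) - 1)) := by ring
        _ ≤ 1100000000000 * ((r : ℝ) ^ k1 * ((r : ℝ) - 1)) := by gcongr
    · rcases small_prime hp hr11 with h | h | h | h
      · exact small 2 (by rw [← h]; exact hrz) (by omega) (by norm_num) h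
      · exact small 3 (by rw [← h]; exact hrz) (by omega) (by norm_num) h
      · exact small 5 (by rw [← h]; exact hrz) (by omega) (by norm_num) h
      · exact small 7 (by rw [← h]; exact hrz) (by omega) (by norm_num) h
  · have hS : 0 < Sx x (r ^ k1) := by
      rcases hk1s.2 with h | h
      · exact absurd h hBk
      · exact h
    have hpp : IsPrimePow (r ^ k1) := hp.isPrimePow.pow (by omega)
    have hmf : (r ^ k1).minFac = r := hp.pow_minFac (by omega)
    obtain ⟨e, he, he1⟩ := hg.2.2 (r ^ k1) hpp hk1s.1 (by omega)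
    obtain ⟨_, _, heok⟩ := hg.1 e he
    have her : e.2.1 = r := by rw [heok.2.1, he1, hmf]
    have hsv : Sx x e.1 = (svB x e.1 e.2.1 : ℝ) / 1000 := svB_Sx x e.1 e.2.1 heok.2.1
    have hs0 : svB x e.1 e.2.1 ≠ 0 := by
      intro h
      rw [h] at hsv
      rw [← he1, hsv] at hS
      simp at hS
    have hmem := capS_mem x z.minFac B l (crude z.minFac B) hg.2.1 e he (by omega)
      (by rw [her]; exact hrz) hs0
    apply le_trans _ (hUp (X := cval (svB x e.1 e.2.1) e.1 e.2.1)
      (y := (Sx x e.1 + 1 / ((r : ℝ) - 1)) / (e.1 : ℝ)) _ hmem)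
    · rcases Nat.lt_or_ge K k1 with hKk | hKk
      · rw [Finset.Icc_eq_empty (by omega), Finset.sum_empty]
        have := Sx_nonneg x e.1
        positivity
      · rw [← Finset.add_sum_Ioc_eq_sum_Icc hKk]
        have h3 : ∑ k ∈ Ioc k1 K, Sx x (r ^ k) / ((r ^ k : ℕ) : ℝ)
            = ∑ k ∈ Icc (k1 + 1) K, Sx x (r ^ k) / ((r ^ k : ℕ) : ℝ) := by
          apply Finset.sum_congr _ (fun _ _ => rfl)
          ext k
          simp only [Finset.mem_Ioc, Finset.mem_Icc]
          omega
        rw [h3]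
        have h4 := full_tail x r (k1 + 1) K hr2
        have h5 : (r : ℝ) / ((r : ℝ) ^ (k1 + 1) * ((r : ℝ) - 1)) = 1 / ((r : ℝ) - 1) / (e.1 : ℝ) := by
          rw [he1]
          push_cast
          rw [pow_succ]
          field_simp
        rw [h5] at h4
        rw [add_div, he1]
        rw [he1] at h4
        linarith
    · unfold Up cval
      have hv0 : 0 < e.1 := heok.1.pos
      have hv0' : (0 : ℝ) < (e.1 : ℝ) := by exact_mod_cast hv0
      refine le_trans ?_ (cast_div_ge _ _ hv0)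
      rw [div_mul_eq_mul_div]
      apply div_le_div_of_nonneg_right _ hv0'.le
      have e4 : ((Nat.add (Nat.mul (svB x e.1 e.2.1) 1000000000)
          (Nat.succ (Nat.div 1000000000000 (Nat.sub e.2.1 1))) : ℕ) : ℝ)
          = (svB x e.1 e.2.1 : ℝ) * 1000000000
            + ((Nat.succ (Nat.div 1000000000000 (Nat.sub e.2.1 1)) : ℕ) : ℝ) := by
        refine (Nat.cast_add (R := ℝ) (Nat.mul (svB x e.1 e.2.1) 1000000000) _).trans ?_
        congr 1
        change ((svB x e.1 e.2.1 * 1000000000 : ℕ) : ℝ) = _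
        push_cast; ring
      rw [e4, hsv, her]
      have h6 := cast_div_ge 1000000000000 (Nat.sub r 1) (by change 0 < r - 1; omega)
      have e5 : ((Nat.sub r 1 : ℕ) : ℝ) = (r : ℝ) - 1 := by
        change ((r - 1 : ℕ) : ℝ) = _
        rw [Nat.cast_sub (by omega)]; push_cast; ring
      rw [e5] at h6
      have h7 : (1 : ℝ) / ((r : ℝ) - 1) * 1000000000000 ≤
          ((Nat.succ (Nat.div 1000000000000 (Nat.sub r 1)) : ℕ) : ℝ) := by
        refine le_trans (le_of_eq ?_) h6
        push_cast; ring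
      rw [add_mul]
      refine add_le_add (le_of_eq (by ring)) h7

end Pool.Agent.EZ
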