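import Pool.Agent.EZ.Steps
import Pool.Agent.EZ.Limit

/-!
# Components of integers and quasi-primitive sets
-/

set_option autoImplicit false
set_option linter.unusedSectionVars false

namespace Pool.Agent.EZ

open Finset

/-- a quasi-primitive set of integers. -/
def QPset (B : Set ℕ) : Prop :=
  (∀ b ∈ B, 2 ≤ b) ∧ ∀ x ∈ B, ∀ y ∈ B, ∀ z ∈ B, x < y → y < z → Nat.gcd y z ≠ x

/-- the unitary prime power divisors. -/
def comps (b : ℕ) : Finset ℕ := b.primeFactors.image (fun p => p ^ b.factorization p)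

theorem mem_comps {b v : ℕ} : v ∈ comps b ↔ ∃ p ∈ b.primeFactors, p ^ b.factorization p = v :=
  Finset.mem_image

theorem fact_pos {b p : ℕ} (hp : p ∈ b.primeFactors) : b.factorization p ≠ 0 := by
  have := Nat.support_factorization b
  rw [← this] at hp
  exact Finsupp.mem_support_iff.1 hp

theorem minFac_comp {b p : ℕ} (hp : p ∈ b.primeFactors) : (p ^ b.factorization p).minFac = p :=
  (Nat.prime_of_mem_primeFactors hp).pow_minFac (fact_pos hp)

theorem comps_injOn (b : ℕ) : Set.InjOn (fun p => p ^ b.factorization p) (b.primeFactors : Set ℕ) := by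
  intro p hp q hq h
  have h1 := minFac_comp (Finset.mem_coe.1 hp)
  have h2 := minFac_comp (Finset.mem_coe.1 hq)
  have h' : p ^ b.factorization p = q ^ b.factorization q := h
  rw [← h1, ← h2, h']

theorem prod_comps {b : ℕ} (hb : b ≠ 0) : ∏ v ∈ comps b, v = b := by
  unfold comps
  rw [Finset.prod_image (comps_injOn b)]
  exact Nat.prod_factorization_pow_eq_self hb

theorem comps_primePow {b v : ℕ} (hv : v ∈ comps b) : IsPrimePow v := by
  obtain ⟨p, hp, rfl⟩ := mem_comps.1 hv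
  exact (Nat.prime_of_mem_primeFactors hp).isPrimePow.pow (fact_pos hp)

theorem comp_eq {b v : ℕ} (hv : v ∈ comps b) :
    v.minFac ∈ b.primeFactors ∧ v.minFac ^ b.factorization v.minFac = v := by
  obtain ⟨p, hp, rfl⟩ := mem_comps.1 hv
  rw [minFac_comp hp]
  exact ⟨hp, rfl⟩

theorem comps_minFac_inj {b v w : ℕ} (hv : v ∈ comps b) (hw : w ∈ comps b)
    (h : v.minFac = w.minFac) : v = w := by
  rw [← (comp_eq hv).2, ← (comp_eq hw).2, h]

theorem mem_comps_of_fact {b q : ℕ} (hb : b ≠ 0) (hq : q.Prime) (h : b.factorization q ≠ 0) :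
    q ^ b.factorization q ∈ comps b ∧ (q ^ b.factorization q).minFac = q := by
  have hm : q ∈ b.primeFactors := by
    rw [← Nat.support_factorization]
    exact Finsupp.mem_support_iff.2 h
  exact ⟨mem_comps.2 ⟨q, hm, rfl⟩, minFac_comp hm⟩

theorem comps_nonempty {b : ℕ} (hb : 2 ≤ b) : (comps b).Nonempty := by
  unfold comps
  apply Finset.Nonempty.image
  exact Nat.nonempty_primeFactors.2 (by omega)

theorem comps_primePow_eq {u : ℕ} (hu : IsPrimePow u) : comps u = {u} := by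
  obtain ⟨p, k, hp, hk, rfl⟩ := (isPrimePow_nat_iff _).1 hu
  unfold comps
  rw [Nat.primeFactors_prime_pow hk.ne' hp]
  simp [hp.factorization_self]

theorem comps_inj {b b' : ℕ} (hb : b ≠ 0) (hb' : b' ≠ 0) (h : comps b = comps b') : b = b' := by
  rw [← prod_comps hb, ← prod_comps hb', h]

theorem dvd_of_comps_subset {b b' : ℕ} (hb : b ≠ 0) (hb' : b' ≠ 0) (h : comps b ⊆ comps b') :
    b ∣ b' := by
  rw [← prod_comps hb, ← prod_comps hb']
  exact Finset.prod_dvd_prod_of_subset _ _ _ h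

/-- if `p ∣ b` and the components of `b` are components of `b'` then the exponents agree. -/
theorem fact_eq_of_subset {b b' q : ℕ} (hb : b ≠ 0) (hq : q.Prime) (h : comps b ⊆ comps b')
    (hne : b.factorization q ≠ 0) : b'.factorization q = b.factorization q := by
  obtain ⟨h1, h2⟩ := mem_comps_of_fact hb hq hne
  have h3 := comp_eq (h h1)
  rw [h2] at h3
  exact Nat.pow_right_injective hq.two_le h3.2

/-- the basic consequence of quasi-primitivity. -/
theorem qp_prime {B : Set ℕ} (hB : QPset B) {a b b' : ℕ} (ha : a ∈ B) (hb : b ∈ B) (hb' : b' ∈ B)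
    (hab : a ∣ b) (hab' : a ∣ b') (h1 : a ≠ b) (h2 : a ≠ b') (h3 : b ≠ b') :
    ∃ q : ℕ, q.Prime ∧ a.factorization q < b.factorization q ∧
      a.factorization q < b'.factorization q := by
  have ha0 : a ≠ 0 := by have := hB.1 a ha; omega
  have hb0 : b ≠ 0 := by have := hB.1 b hb; omega
  have hb0' : b' ≠ 0 := by have := hB.1 b' hb'; omega
  have hlt : a < b := lt_of_le_of_ne (Nat.le_of_dvd (by omega) hab) h1
  have hlt' : a < b' := lt_of_le_of_ne (Nat.le_of_dvd (by omega) hab') h2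
  have hg : Nat.gcd b b' ≠ a := by
    rcases lt_or_gt_of_ne h3 with h | h
    · exact hB.2 a ha b hb b' hb' hlt h
    · rw [Nat.gcd_comm]; exact hB.2 a ha b' hb' b hb hlt' h
  have hg0 : Nat.gcd b b' ≠ 0 := Nat.gcd_ne_zero_left hb0
  have hag : a ∣ Nat.gcd b b' := Nat.dvd_gcd hab hab'
  by_contra hcon
  push Not at hcon
  apply hg
  apply Nat.dvd_antisymm _ hag
  rw [← Nat.factorization_le_iff_dvd hg0 ha0]
  intro q
  by_cases hq : q.Prime
  · rw [Nat.factorization_gcd hb0 hb0']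
    simp only [Finsupp.inf_apply]
    by_cases h : a.factorization q < b.factorization q
    · exact (inf_le_right).trans (hcon q hq h)
    · exact (inf_le_left).trans (not_lt.1 h)
  · rw [Nat.factorization_eq_zero_of_not_prime _ hq]
    exact Nat.zero_le _

/-- the family over the root `u`. -/
def MM (B : Finset ℕ) (u : ℕ) : Finset (Finset ℕ) :=
  (B.filter (fun b => u ∈ comps b ∧ b ≠ u)).image (fun b => (comps b).erase u)

theorem mem_MM {B : Finset ℕ} {u : ℕ} {m : Finset ℕ} :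
    m ∈ MM B u ↔ ∃ b ∈ B, u ∈ comps b ∧ b ≠ u ∧ (comps b).erase u = m := by
  unfold MM
  simp only [Finset.mem_image, Finset.mem_filter]
  constructor
  · rintro ⟨b, ⟨h1, h2, h3⟩, h4⟩; exact ⟨b, h1, h2, h3, h4⟩
  · rintro ⟨b, h1, h2, h3, h4⟩; exact ⟨b, ⟨h1, h2, h3⟩, h4⟩

theorem MM_member {B : Finset ℕ} (hB : QPset (↑B : Set ℕ)) {u : ℕ} {m : Finset ℕ}
    (hm : m ∈ MM B u) : m.Nonempty ∧ (∀ v ∈ m, IsPrimePow v ∧ v.minFac ≠ u.minFac) ∧
      Set.InjOn Nat.minFac (m : Set ℕ) := by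
  obtain ⟨b, hb, hu, hbu, rfl⟩ := mem_MM.1 hm
  have hb0 : b ≠ 0 := by have := hB.1 b (Finset.mem_coe.2 hb); omega
  refine ⟨?_, ?_, ?_⟩
  · rw [Finset.nonempty_iff_ne_empty]
    intro h
    rw [Finset.erase_eq_empty_iff] at h
    rcases h with h | h
    · rw [h] at hu; simp at hu
    · apply hbu
      rw [← prod_comps hb0, h, Finset.prod_singleton]
  · intro v hv
    obtain ⟨h1, h2⟩ := Finset.mem_erase.1 hv
    exact ⟨comps_primePow h2, fun h => h1 (comps_minFac_inj h2 hu h)⟩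
  · intro v hv w hw h
    exact comps_minFac_inj (Finset.mem_of_mem_erase (Finset.mem_coe.1 hv))
      (Finset.mem_of_mem_erase (Finset.mem_coe.1 hw)) h

/-- a prime whose exponent increases in a multiple of `a` whose components contain those of `a`
gives a new component -/
theorem new_comp {a b q : ℕ} (ha : a ≠ 0) (hb : b ≠ 0) (hq : q.Prime) (h : comps a ⊆ comps b)
    (hlt : a.factorization q < b.factorization q) :
    q ^ b.factorization q ∈ comps b ∧ q ^ b.factorization q ∉ comps a ∧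
      (q ^ b.factorization q).minFac = q := by
  obtain ⟨h1, h2⟩ := mem_comps_of_fact hb hq (by omega)
  refine ⟨h1, ?_, h2⟩
  intro h3
  have h4 := comp_eq h3
  rw [h2] at h4
  have h5 : a.factorization q ≠ 0 := fact_pos h4.1
  have := fact_eq_of_subset ha hq h h5
  omega

theorem MM_QP {B : Finset ℕ} (hB : QPset (↑B : Set ℕ)) (u : ℕ) :
    QP Nat.minFac (↑(MM B u) : Set (Finset ℕ)) := by
  intro m hm m' hm' m'' hm'' h1 h2
  obtain ⟨b, hb, hu, hbu, rfl⟩ := mem_MM.1 (Finset.mem_coe.1 hm)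
  obtain ⟨b', hb', hu', hbu', rfl⟩ := mem_MM.1 (Finset.mem_coe.1 hm')
  obtain ⟨b'', hb'', hu'', hbu'', rfl⟩ := mem_MM.1 (Finset.mem_coe.1 hm'')
  have hb0 : b ≠ 0 := by have := hB.1 b (Finset.mem_coe.2 hb); omega
  have hb0' : b' ≠ 0 := by have := hB.1 b' (Finset.mem_coe.2 hb'); omega
  have hb0'' : b'' ≠ 0 := by have := hB.1 b'' (Finset.mem_coe.2 hb''); omega
  have hs : ∀ c : ℕ, u ∈ comps c → (comps b).erase u ⊂ (comps c).erase u → comps b ⊆ comps c := by
    intro c huc h v hv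
    by_cases hvu : v = u
    · rw [hvu]; exact huc
    · exact Finset.mem_of_mem_erase (h.1 (Finset.mem_erase.2 ⟨hvu, hv⟩))
  have hs' := hs b' hu' h1
  have hs'' := hs b'' hu'' h2
  have hne' : b ≠ b' := by rintro rfl; exact (ssubset_irrefl _) h1
  have hne'' : b ≠ b'' := by rintro rfl; exact (ssubset_irrefl _) h2
  by_cases h3 : b' = b''
  · subst h3
    obtain ⟨v, hv, hvn⟩ := Finset.exists_of_ssubset h1
    exact ⟨v, Finset.mem_sdiff.2 ⟨hv, hvn⟩, v, Finset.mem_sdiff.2 ⟨hv, hvn⟩, rfl⟩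
  · obtain ⟨q, hq, hl1, hl2⟩ := qp_prime hB (Finset.mem_coe.2 hb) (Finset.mem_coe.2 hb')
      (Finset.mem_coe.2 hb'') (dvd_of_comps_subset hb0 hb0' hs')
      (dvd_of_comps_subset hb0 hb0'' hs'') hne' hne'' h3
    obtain ⟨c1, c2, c3⟩ := new_comp hb0 hb0' hq hs' hl1
    obtain ⟨d1, d2, d3⟩ := new_comp hb0 hb0'' hq hs'' hl2
    refine ⟨_, Finset.mem_sdiff.2 ⟨Finset.mem_erase.2 ⟨?_, c1⟩, fun h => c2 (Finset.mem_of_mem_erase h)⟩,
      _, Finset.mem_sdiff.2 ⟨Finset.mem_erase.2 ⟨?_, d1⟩, fun h => d2 (Finset.mem_of_mem_erase h)⟩, ?_⟩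
    · intro h; exact c2 (h ▸ hu)
    · intro h; exact d2 (h ▸ hu)
    · rw [c3, d3]

theorem MM_Inter {B : Finset ℕ} (hB : QPset (↑B : Set ℕ)) (u : ℕ) (huB : u ∈ B)
    (hu : IsPrimePow u) : Inter Nat.minFac (↑(MM B u) : Set (Finset ℕ)) := by
  intro m hm m' hm'
  have hmem := MM_member hB (Finset.mem_coe.1 hm)
  obtain ⟨b, hb, hub, hbu, rfl⟩ := mem_MM.1 (Finset.mem_coe.1 hm)
  obtain ⟨b', hb', hub', hbu', rfl⟩ := mem_MM.1 (Finset.mem_coe.1 hm')
  have hb0 : b ≠ 0 := by have := hB.1 b (Finset.mem_coe.2 hb); omega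
  have hb0' : b' ≠ 0 := by have := hB.1 b' (Finset.mem_coe.2 hb'); omega
  have hu0 : u ≠ 0 := hu.ne_zero
  have hcu := comps_primePow_eq hu
  have hs : ∀ c : ℕ, u ∈ comps c → comps u ⊆ comps c := by
    intro c hc; rw [hcu]; exact Finset.singleton_subset_iff.2 hc
  by_cases h3 : b = b'
  · subst h3
    obtain ⟨v, hv⟩ := hmem.1
    exact ⟨v, hv, v, hv, rfl⟩
  · obtain ⟨q, hq, hl1, hl2⟩ := qp_prime hB (Finset.mem_coe.2 huB) (Finset.mem_coe.2 hb)
      (Finset.mem_coe.2 hb') (dvd_of_comps_subset hu0 hb0 (hs b hub))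
      (dvd_of_comps_subset hu0 hb0' (hs b' hub')) hbu.symm hbu'.symm h3
    obtain ⟨c1, c2, c3⟩ := new_comp hu0 hb0 hq (hs b hub) hl1
    obtain ⟨d1, d2, d3⟩ := new_comp hu0 hb0' hq (hs b' hub') hl2
    rw [hcu] at c2 d2
    refine ⟨_, Finset.mem_erase.2 ⟨fun h => c2 (by rw [h]; exact Finset.mem_singleton_self u), c1⟩,
      _, Finset.mem_erase.2 ⟨fun h => d2 (by rw [h]; exact Finset.mem_singleton_self u), d1⟩, ?_⟩
    rw [c3, d3]

/-- families over a top and over a higher power of the same prime cross-intersect -/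
theorem MM_cross {B : Finset ℕ} (hB : QPset (↑B : Set ℕ)) {p e k : ℕ} (hp : p.Prime) (he : e ≠ 0)
    (hek : e < k) (huB : p ^ e ∈ B) {m m' : Finset ℕ} (hm : m ∈ MM B (p ^ e))
    (hm' : m' ∈ MM B (p ^ k)) : ∃ v ∈ m, ∃ v' ∈ m', v.minFac = v'.minFac := by
  obtain ⟨b, hb, hub, hbu, rfl⟩ := mem_MM.1 hm
  obtain ⟨b', hb', hub', hbu', rfl⟩ := mem_MM.1 hm'
  have hb0 : b ≠ 0 := by have := hB.1 b (Finset.mem_coe.2 hb); omega
  have hb0' : b' ≠ 0 := by have := hB.1 b' (Finset.mem_coe.2 hb'); omega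
  have hk : k ≠ 0 := by omega
  have hf : b.factorization p = e := by
    have := comp_eq hub
    rw [hp.pow_minFac he] at this
    exact Nat.pow_right_injective hp.two_le this.2
  have hf' : b'.factorization p = k := by
    have := comp_eq hub'
    rw [hp.pow_minFac hk] at this
    exact Nat.pow_right_injective hp.two_le this.2
  have hne : b ≠ b' := by rintro rfl; omega
  have hd : p ^ e ∣ b := by
    rw [← prod_comps hb0]; exact Finset.dvd_prod_of_mem _ hub
  have hd' : p ^ e ∣ b' := by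
    refine (pow_dvd_pow p hek.le).trans ?_
    rw [← prod_comps hb0']; exact Finset.dvd_prod_of_mem _ hub'
  have hne' : p ^ e ≠ b' := by
    rintro rfl
    rw [hp.factorization_pow] at hf'
    simp at hf'
    omega
  obtain ⟨q, hq, hl1, hl2⟩ := qp_prime hB (Finset.mem_coe.2 huB) (Finset.mem_coe.2 hb)
      (Finset.mem_coe.2 hb') hd hd' hbu.symm hne' hne
  have hqp : q ≠ p := by
    rintro rfl
    rw [hp.factorization_pow, hf] at hl1
    simp at hl1
  have hq1 : b.factorization q ≠ 0 := by omega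
  have hq2 : b'.factorization q ≠ 0 := by omega
  obtain ⟨c1, c2⟩ := mem_comps_of_fact hb0 hq hq1
  obtain ⟨d1, d2⟩ := mem_comps_of_fact hb0' hq hq2
  refine ⟨_, Finset.mem_erase.2 ⟨?_, c1⟩, _, Finset.mem_erase.2 ⟨?_, d1⟩, by rw [c2, d2]⟩
  · intro h
    apply hqp
    rw [← c2, h, hp.pow_minFac he]
  · intro h
    apply hqp
    rw [← d2, h, hp.pow_minFac hk]

/-- above a top there is no further power in `B`. -/
theorem no_power_above {B : Finset ℕ} (hB : QPset (↑B : Set ℕ)) {p e k : ℕ} (hp : p.Prime)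
    (he : e ≠ 0) (hek : e < k) (huB : p ^ e ∈ B) (hM : (MM B (p ^ e)).Nonempty) :
    p ^ k ∉ B := by
  intro hkB
  obtain ⟨m, hm⟩ := hM
  obtain ⟨b, hb, hub, hbu, rfl⟩ := mem_MM.1 hm
  have hb0 : b ≠ 0 := by have := hB.1 b (Finset.mem_coe.2 hb); omega
  have hf : b.factorization p = e := by
    have := comp_eq hub
    rw [hp.pow_minFac he] at this
    exact Nat.pow_right_injective hp.two_le this.2
  have hd : p ^ e ∣ b := by
    rw [← prod_comps hb0]; exact Finset.dvd_prod_of_mem _ hub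
  have hne : b ≠ p ^ k := by
    rintro rfl
    rw [hp.factorization_pow] at hf
    simp at hf
    omega
  have hne' : p ^ e ≠ p ^ k := fun h => by
    have := Nat.pow_right_injective hp.two_le h
    omega
  obtain ⟨q, hq, hl1, hl2⟩ := qp_prime hB (Finset.mem_coe.2 huB) (Finset.mem_coe.2 hb)
      (Finset.mem_coe.2 hkB) hd (pow_dvd_pow p hek.le) hbu.symm hne' hne
  rw [hp.factorization_pow, hp.factorization_pow] at hl2
  by_cases hqp : q = p
  · subst hqp
    rw [hp.factorization_pow, hf] at hl1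
    simp at hl1
  · simp [Finsupp.single_apply, Ne.symm hqp] at hl2

end Pool.Agent.EZ
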