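import Mathlib

/-!
# p-biased Erdős–Ko–Rado (non uniform, cross version) by tensorised maximal correlation

`ExL l p f` is the expectation of `f` at a random subset of the (duplicate free) list `l`, the
element `i` being present with probability `p i`, independently.
-/

set_option autoImplicit false
set_option linter.unusedSectionVars false

namespace Pool.Agent.EZ

variable {ι : Type*} [DecidableEq ι]

/-- expectation over a product Bernoulli measure on the coordinates of the list. -/
noncomputable def ExL : List ι → (ι → ℝ) → (Finset ι → ℝ) → ℝ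
  | [], _, f => f ∅
  | a :: l, p, f => (1 - p a) * ExL l p f + p a * ExL l p (fun T => f (insert a T))

/-- expectation of `f x * g y` for the coupling in which no coordinate is present in both. -/
noncomputable def BxL : List ι → (ι → ℝ) → (ι → ℝ) → (Finset ι → ℝ) → (Finset ι → ℝ) → ℝ
  | [], _, _, f, g => f ∅ * g ∅
  | a :: l, p, q, f, g => (1 - p a - q a) * BxL l p q f g
      + p a * BxL l p q (fun T => f (insert a T)) g
      + q a * BxL l p q f (fun T => g (insert a T))

theorem ExL_congr (l : List ι) (p : ι → ℝ) : ∀ (f g : Finset ι → ℝ),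
    (∀ T, f T = g T) → ExL l p f = ExL l p g := by
  intro f g h
  have : f = g := funext h
  rw [this]

theorem ExL_congr_p (l : List ι) : ∀ (p q : ι → ℝ) (f : Finset ι → ℝ),
    (∀ a ∈ l, p a = q a) → ExL l p f = ExL l q f := by
  induction l with
  | nil => intro p q f _; rfl
  | cons a l ih =>
    intro p q f h
    simp only [ExL]
    rw [ih p q _ (fun b hb => h b (List.mem_cons_of_mem _ hb)),
      ih p q _ (fun b hb => h b (List.mem_cons_of_mem _ hb)), h a List.mem_cons_self]

theorem ExL_const (l : List ι) (p : ι → ℝ) (c : ℝ) : ExL l p (fun _ => c) = c := by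
  induction l with
  | nil => rfl
  | cons a l ih => simp only [ExL, ih]; ring

theorem ExL_mono (l : List ι) (p : ι → ℝ) (hp0 : ∀ a ∈ l, 0 ≤ p a) (hp1 : ∀ a ∈ l, p a ≤ 1) :
    ∀ (f g : Finset ι → ℝ), (∀ T, f T ≤ g T) → ExL l p f ≤ ExL l p g := by
  induction l with
  | nil => intro f g h; exact h ∅
  | cons a l ih =>
    intro f g h
    have h0 := hp0 a List.mem_cons_self
    have h1 := hp1 a List.mem_cons_self
    have ih' := ih (fun b hb => hp0 b (List.mem_cons_of_mem _ hb))
      (fun b hb => hp1 b (List.mem_cons_of_mem _ hb))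
    simp only [ExL]
    have e1 := ih' f g h
    have e2 := ih' (fun T => f (insert a T)) (fun T => g (insert a T)) (fun T => h _)
    have e3 : (1 - p a) * ExL l p f ≤ (1 - p a) * ExL l p g :=
      mul_le_mul_of_nonneg_left e1 (by linarith)
    have e4 := mul_le_mul_of_nonneg_left e2 h0
    linarith

theorem ExL_nonneg (l : List ι) (p : ι → ℝ) (hp0 : ∀ a ∈ l, 0 ≤ p a) (hp1 : ∀ a ∈ l, p a ≤ 1)
    (f : Finset ι → ℝ) (hf : ∀ T, 0 ≤ f T) : 0 ≤ ExL l p f := by
  have := ExL_mono l p hp0 hp1 (fun _ => 0) f hf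
  rwa [ExL_const] at this

theorem ExL_add (l : List ι) (p : ι → ℝ) : ∀ (f g : Finset ι → ℝ),
    ExL l p (fun T => f T + g T) = ExL l p f + ExL l p g := by
  induction l with
  | nil => intro f g; rfl
  | cons a l ih =>
    intro f g
    simp only [ExL]
    rw [ih f g, ih (fun T => f (insert a T)) (fun T => g (insert a T))]
    ring

theorem ExL_smul (l : List ι) (p : ι → ℝ) (c : ℝ) : ∀ (f : Finset ι → ℝ),
    ExL l p (fun T => c * f T) = c * ExL l p f := by
  induction l with
  | nil => intro f; rfl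
  | cons a l ih =>
    intro f
    simp only [ExL]
    rw [ih f, ih (fun T => f (insert a T))]
    ring

/-- variance -/
noncomputable def VarL (l : List ι) (p : ι → ℝ) (f : Finset ι → ℝ) : ℝ :=
  ExL l p (fun T => f T ^ 2) - ExL l p f ^ 2

theorem VarL_cons (a : ι) (l : List ι) (p : ι → ℝ) (f : Finset ι → ℝ) :
    VarL (a :: l) p f = (1 - p a) * VarL l p f + p a * VarL l p (fun T => f (insert a T))
      + p a * (1 - p a) * (ExL l p (fun T => f (insert a T)) - ExL l p f) ^ 2 := by
  simp only [VarL, ExL]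
  ring

theorem VarL_nonneg (l : List ι) (p : ι → ℝ) (hp0 : ∀ a ∈ l, 0 ≤ p a) (hp1 : ∀ a ∈ l, p a ≤ 1) :
    ∀ f : Finset ι → ℝ, 0 ≤ VarL l p f := by
  induction l with
  | nil => intro f; simp [VarL, ExL]
  | cons a l ih =>
    intro f
    have h0 := hp0 a List.mem_cons_self
    have h1 := hp1 a List.mem_cons_self
    have ih' := ih (fun b hb => hp0 b (List.mem_cons_of_mem _ hb))
      (fun b hb => hp1 b (List.mem_cons_of_mem _ hb))
    rw [VarL_cons]
    have e1 := ih' f
    have e2 := ih' (fun T => f (insert a T))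
    have e3 : 0 ≤ 1 - p a := by linarith
    positivity

theorem sqrt_cs (a b c d : ℝ) (ha : 0 ≤ a) (hb : 0 ≤ b) (hc : 0 ≤ c) (hd : 0 ≤ d) :
    √a * √b + √c * √d ≤ √(a + c) * √(b + d) := by
  rw [← Real.sqrt_mul ha, ← Real.sqrt_mul hc, ← Real.sqrt_mul (by positivity)]
  apply Real.le_sqrt_of_sq_le
  have h1 : √(a * b) ^ 2 = a * b := Real.sq_sqrt (by positivity)
  have h2 : √(c * d) ^ 2 = c * d := Real.sq_sqrt (by positivity)
  have h3 : 2 * (√(a * b) * √(c * d)) ≤ a * d + c * b := by
    rw [← Real.sqrt_mul (by positivity)]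
    have : a * b * (c * d) = (a * d) * (c * b) := by ring
    rw [this, Real.sqrt_mul (by positivity)]
    have h4 : √(a * d) ^ 2 = a * d := Real.sq_sqrt (by positivity)
    have h5 : √(c * b) ^ 2 = c * b := Real.sq_sqrt (by positivity)
    nlinarith [sq_nonneg (√(a * d) - √(c * b))]
  nlinarith

/-- tensorised maximal correlation. -/
theorem corr (l : List ι) (p q : ι → ℝ) (lam : ℝ) (hlam : 0 ≤ lam)
    (hp0 : ∀ a ∈ l, 0 ≤ p a) (hq0 : ∀ a ∈ l, 0 ≤ q a) (hpq : ∀ a ∈ l, p a + q a ≤ 1)
    (h : ∀ a ∈ l, p a * q a ≤ lam ^ 2 * ((1 - p a) * (1 - q a))) :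
    ∀ f g : Finset ι → ℝ, |BxL l p q f g - ExL l p f * ExL l q g|
      ≤ lam * (√(VarL l p f) * √(VarL l q g)) := by
  induction l with
  | nil =>
    intro f g
    simp [BxL, ExL, VarL]
  | cons a l ih =>
    intro f g
    have ih' := ih (fun b hb => hp0 b (List.mem_cons_of_mem _ hb))
      (fun b hb => hq0 b (List.mem_cons_of_mem _ hb))
      (fun b hb => hpq b (List.mem_cons_of_mem _ hb))
      (fun b hb => h b (List.mem_cons_of_mem _ hb))
    have hpa := hp0 a List.mem_cons_self
    have hqa := hq0 a List.mem_cons_self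
    have hpqa := hpq a List.mem_cons_self
    have ha := h a List.mem_cons_self
    have hp1 : ∀ b ∈ l, p b ≤ 1 := fun b hb => by
      have := hpq b (List.mem_cons_of_mem _ hb)
      have := hq0 b (List.mem_cons_of_mem _ hb)
      linarith
    have hq1 : ∀ b ∈ l, q b ≤ 1 := fun b hb => by
      have := hpq b (List.mem_cons_of_mem _ hb)
      have := hp0 b (List.mem_cons_of_mem _ hb)
      linarith
    have hp0' : ∀ b ∈ l, 0 ≤ p b := fun b hb => hp0 b (List.mem_cons_of_mem _ hb)
    have hq0' : ∀ b ∈ l, 0 ≤ q b := fun b hb => hq0 b (List.mem_cons_of_mem _ hb)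
    rw [VarL_cons, VarL_cons]
    simp only [BxL, ExL]
    have i00 := ih' f g
    have i10 := ih' (fun T => f (insert a T)) g
    have i01 := ih' f (fun T => g (insert a T))
    have v0 := VarL_nonneg l p hp0' hp1 f
    have v1 := VarL_nonneg l p hp0' hp1 (fun T => f (insert a T))
    have w0 := VarL_nonneg l q hq0' hq1 g
    have w1 := VarL_nonneg l q hq0' hq1 (fun T => g (insert a T))
    set P := p a
    set Q := q a
    set e0 := ExL l p f
    set e1 := ExL l p (fun T => f (insert a T))
    set d0 := ExL l q g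
    set d1 := ExL l q (fun T => g (insert a T))
    set V0 := VarL l p f
    set V1 := VarL l p (fun T => f (insert a T))
    set W0 := VarL l q g
    set W1 := VarL l q (fun T => g (insert a T))
    set B00 := BxL l p q f g
    set B10 := BxL l p q (fun T => f (insert a T)) g
    set B01 := BxL l p q f (fun T => g (insert a T))
    have hP1 : 0 ≤ 1 - P := by linarith
    have hQ1 : 0 ≤ 1 - Q := by linarith
    have hPQ : 0 ≤ 1 - P - Q := by linarith
    -- the main term
    have key : (1 - P - Q) * B00 + P * B10 + Q * B01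
        - ((1 - P) * e0 + P * e1) * ((1 - Q) * d0 + Q * d1)
        = (1 - P - Q) * (B00 - e0 * d0) + P * (B10 - e1 * d0) + Q * (B01 - e0 * d1)
          - P * Q * ((e1 - e0) * (d1 - d0)) := by ring
    rw [key]
    -- first Cauchy–Schwarz
    have c1 : |P * Q * ((e1 - e0) * (d1 - d0))|
        ≤ lam * (√(P * (1 - P) * (e1 - e0) ^ 2) * √(Q * (1 - Q) * (d1 - d0) ^ 2)) := by
      rw [← Real.sqrt_mul (by positivity), ← Real.sqrt_sq hlam, ← Real.sqrt_mul (by positivity)]
      apply Real.le_sqrt_of_sq_le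
      rw [sq_abs]
      have : (P * Q * ((e1 - e0) * (d1 - d0))) ^ 2
          = (P * Q) * ((P * Q) * ((e1 - e0) ^ 2 * (d1 - d0) ^ 2)) := by ring
      rw [this]
      have h2 : lam ^ 2 * (P * (1 - P) * (e1 - e0) ^ 2 * (Q * (1 - Q) * (d1 - d0) ^ 2))
          = (lam ^ 2 * ((1 - P) * (1 - Q))) * ((P * Q) * ((e1 - e0) ^ 2 * (d1 - d0) ^ 2)) := by
        ring
      rw [h2]
      exact mul_le_mul_of_nonneg_right ha (by positivity)
    -- second Cauchy–Schwarz
    have c2 : (1 - P - Q) * (√V0 * √W0) + P * (√V1 * √W0) + Q * (√V0 * √W1)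
        ≤ √((1 - P) * V0 + P * V1) * √((1 - Q) * W0 + Q * W1) := by
      have s1 : √((1 - P - Q) * V0 + (P * V1 + Q * V0)) = √((1 - P) * V0 + P * V1) := by
        congr 1; ring
      have s2 : √((1 - P - Q) * W0 + (P * W0 + Q * W1)) = √((1 - Q) * W0 + Q * W1) := by
        congr 1; ring
      rw [← s1, ← s2]
      have t1 := sqrt_cs ((1 - P - Q) * V0) ((1 - P - Q) * W0) (P * V1 + Q * V0) (P * W0 + Q * W1)
        (by positivity) (by positivity) (by positivity) (by positivity)
      have t2 := sqrt_cs (P * V1) (P * W0) (Q * V0) (Q * W1)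
        (by positivity) (by positivity) (by positivity) (by positivity)
      have r1 : √((1 - P - Q) * V0) * √((1 - P - Q) * W0) = (1 - P - Q) * (√V0 * √W0) := by
        rw [Real.sqrt_mul hPQ, Real.sqrt_mul hPQ]
        have := Real.mul_self_sqrt hPQ
        linear_combination (√V0 * √W0) * this
      have r2 : √(P * V1) * √(P * W0) = P * (√V1 * √W0) := by
        rw [Real.sqrt_mul hpa, Real.sqrt_mul hpa]
        have := Real.mul_self_sqrt hpa
        linear_combination (√V1 * √W0) * this
      have r3 : √(Q * V0) * √(Q * W1) = Q * (√V0 * √W1) := by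
        rw [Real.sqrt_mul hqa, Real.sqrt_mul hqa]
        have := Real.mul_self_sqrt hqa
        linear_combination (√V0 * √W1) * this
      rw [r1] at t1
      rw [r2, r3] at t2
      linarith
    have c3 := sqrt_cs ((1 - P) * V0 + P * V1) ((1 - Q) * W0 + Q * W1)
      (P * (1 - P) * (e1 - e0) ^ 2) (Q * (1 - Q) * (d1 - d0) ^ 2)
      (by positivity) (by positivity) (by positivity) (by positivity)
    have a1 : |(1 - P - Q) * (B00 - e0 * d0)| ≤ (1 - P - Q) * (lam * (√V0 * √W0)) := by
      rw [abs_mul, abs_of_nonneg hPQ]; exact mul_le_mul_of_nonneg_left i00 hPQ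
    have a2 : |P * (B10 - e1 * d0)| ≤ P * (lam * (√V1 * √W0)) := by
      rw [abs_mul, abs_of_nonneg hpa]; exact mul_le_mul_of_nonneg_left i10 hpa
    have a3 : |Q * (B01 - e0 * d1)| ≤ Q * (lam * (√V0 * √W1)) := by
      rw [abs_mul, abs_of_nonneg hqa]; exact mul_le_mul_of_nonneg_left i01 hqa
    have tri : |(1 - P - Q) * (B00 - e0 * d0) + P * (B10 - e1 * d0) + Q * (B01 - e0 * d1)
          - P * Q * ((e1 - e0) * (d1 - d0))|
        ≤ |(1 - P - Q) * (B00 - e0 * d0)| + |P * (B10 - e1 * d0)| + |Q * (B01 - e0 * d1)|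
          + |P * Q * ((e1 - e0) * (d1 - d0))| := by
      refine (abs_sub _ _).trans ?_
      gcongr
      refine (abs_add_le _ _).trans ?_
      gcongr
      exact abs_add_le _ _
    refine tri.trans ?_
    calc _ ≤ (1 - P - Q) * (lam * (√V0 * √W0)) + P * (lam * (√V1 * √W0))
          + Q * (lam * (√V0 * √W1))
          + lam * (√(P * (1 - P) * (e1 - e0) ^ 2) * √(Q * (1 - Q) * (d1 - d0) ^ 2)) := by
          linarith
      _ = lam * (((1 - P - Q) * (√V0 * √W0) + P * (√V1 * √W0) + Q * (√V0 * √W1))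
          + √(P * (1 - P) * (e1 - e0) ^ 2) * √(Q * (1 - Q) * (d1 - d0) ^ 2)) := by ring
      _ ≤ _ := by
          apply mul_le_mul_of_nonneg_left _ hlam
          linarith

/-- the coupling never makes both sets contain a common coordinate. -/
theorem BxL_eq_zero (l : List ι) (hl : l.Nodup) (p q : ι → ℝ) : ∀ f g : Finset ι → ℝ,
    (∀ T T' : Finset ι, Disjoint T T' → (∀ i ∈ T, i ∈ l) → (∀ i ∈ T', i ∈ l) → f T * g T' = 0) →
    BxL l p q f g = 0 := by
  induction l with
  | nil => intro f g h; exact h ∅ ∅ (by simp) (by simp) (by simp)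
  | cons a l ih =>
    intro f g h
    have hl' := (List.nodup_cons.1 hl).2
    have ha := (List.nodup_cons.1 hl).1
    simp only [BxL]
    rw [ih hl' f g, ih hl' (fun T => f (insert a T)) g, ih hl' f (fun T => g (insert a T))]
    · ring
    · intro T T' hd hT hT'
      refine h T (insert a T') ?_ (fun i hi => List.mem_cons_of_mem _ (hT i hi)) ?_
      · rw [Finset.disjoint_insert_right]
        exact ⟨fun h => ha (hT a h), hd⟩
      · intro i hi
        rcases Finset.mem_insert.1 hi with rfl | hi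
        · exact List.mem_cons_self
        · exact List.mem_cons_of_mem _ (hT' i hi)
    · intro T T' hd hT hT'
      refine h (insert a T) T' ?_ ?_ (fun i hi => List.mem_cons_of_mem _ (hT' i hi))
      · rw [Finset.disjoint_insert_left]
        exact ⟨fun h => ha (hT' a h), hd⟩
      · intro i hi
        rcases Finset.mem_insert.1 hi with rfl | hi
        · exact List.mem_cons_self
        · exact List.mem_cons_of_mem _ (hT i hi)
    · intro T T' hd hT hT'
      exact h T T' hd (fun i hi => List.mem_cons_of_mem _ (hT i hi))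
        (fun i hi => List.mem_cons_of_mem _ (hT' i hi))

open Classical in
/-- indicator function of a family of sets. -/
noncomputable def ind (F : Set (Finset ι)) (T : Finset ι) : ℝ := if T ∈ F then 1 else 0

theorem ind_of_mem {F : Set (Finset ι)} {T : Finset ι} (h : T ∈ F) : ind F T = 1 := by
  unfold ind; rw [if_pos h]

theorem ind_of_not_mem {F : Set (Finset ι)} {T : Finset ι} (h : T ∉ F) : ind F T = 0 := by
  unfold ind; rw [if_neg h]

theorem ind_sq (F : Set (Finset ι)) (T : Finset ι) : ind F T ^ 2 = ind F T := by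
  unfold ind; split_ifs <;> simp

theorem ind_nonneg (F : Set (Finset ι)) (T : Finset ι) : 0 ≤ ind F T := by
  unfold ind; split_ifs <;> simp

theorem ind_le_one (F : Set (Finset ι)) (T : Finset ι) : ind F T ≤ 1 := by
  unfold ind; split_ifs <;> simp

theorem ind_mono {F G : Set (Finset ι)} (h : F ⊆ G) (T : Finset ι) : ind F T ≤ ind G T := by
  unfold ind
  split_ifs with h1 h2 h2
  · exact le_rfl
  · exact absurd (h h1) h2
  · exact zero_le_one
  · exact le_rfl

/-- cross-intersecting families in two product measures. -/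
theorem cross (l : List ι) (hl : l.Nodup) (p q : ι → ℝ) (lam : ℝ) (hlam : 0 ≤ lam)
    (hp0 : ∀ a ∈ l, 0 ≤ p a) (hq0 : ∀ a ∈ l, 0 ≤ q a) (hpq : ∀ a ∈ l, p a + q a ≤ 1)
    (h : ∀ a ∈ l, p a * q a ≤ lam ^ 2 * ((1 - p a) * (1 - q a)))
    (F G : Set (Finset ι)) (hFG : ∀ T ∈ F, ∀ T' ∈ G, ¬ Disjoint T T') :
    ExL l p (ind F) * ExL l q (ind G)
      ≤ lam ^ 2 * ((1 - ExL l p (ind F)) * (1 - ExL l q (ind G))) := by
  have hp1 : ∀ b ∈ l, p b ≤ 1 := fun b hb => by
    have := hpq b hb
    have := hq0 b hb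
    linarith
  have hq1 : ∀ b ∈ l, q b ≤ 1 := fun b hb => by
    have := hpq b hb
    have := hp0 b hb
    linarith
  have h0 : BxL l p q (ind F) (ind G) = 0 := by
    apply BxL_eq_zero l hl
    intro T T' hd _ _
    unfold ind
    split_ifs with h1 h2
    · exact absurd hd (hFG T h1 T' h2)
    all_goals simp
  have hc := corr l p q lam hlam hp0 hq0 hpq h (ind F) (ind G)
  rw [h0, zero_sub, abs_neg] at hc
  have v1 : VarL l p (ind F) = ExL l p (ind F) * (1 - ExL l p (ind F)) := by
    unfold VarL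
    simp only [ind_sq]
    ring
  have v2 : VarL l q (ind G) = ExL l q (ind G) * (1 - ExL l q (ind G)) := by
    unfold VarL
    simp only [ind_sq]
    ring
  rw [v1, v2] at hc
  have a0 := ExL_nonneg l p hp0 hp1 (ind F) (ind_nonneg F)
  have b0 := ExL_nonneg l q hq0 hq1 (ind G) (ind_nonneg G)
  have a1 : ExL l p (ind F) ≤ 1 := by
    have := ExL_mono l p hp0 hp1 (ind F) (fun _ => 1) (ind_le_one F)
    rwa [ExL_const] at this
  have b1 : ExL l q (ind G) ≤ 1 := by
    have := ExL_mono l q hq0 hq1 (ind G) (fun _ => 1) (ind_le_one G)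
    rwa [ExL_const] at this
  set α := ExL l p (ind F)
  set β := ExL l q (ind G)
  have a1' : 0 ≤ 1 - α := by linarith
  have b1' : 0 ≤ 1 - β := by linarith
  rw [abs_of_nonneg (by positivity), ← Real.sqrt_mul (by positivity)] at hc
  have hsq : (α * β) ^ 2 ≤ lam ^ 2 * (α * (1 - α) * (β * (1 - β))) := by
    have h1 : (α * β) ^ 2 ≤ (lam * √(α * (1 - α) * (β * (1 - β)))) ^ 2 :=
      pow_le_pow_left₀ (by positivity) hc 2
    rwa [mul_pow lam, Real.sq_sqrt (by positivity)] at h1
  rcases eq_or_lt_of_le (show 0 ≤ α * β by positivity) with h | h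
  · rw [← h]; positivity
  · have h2 : (α * β) * (α * β) ≤ (α * β) * (lam ^ 2 * ((1 - α) * (1 - β))) := by
      calc (α * β) * (α * β) = (α * β) ^ 2 := by ring
        _ ≤ _ := hsq
        _ = _ := by ring
    exact le_of_mul_le_mul_left h2 h

/-- p-biased Erdős–Ko–Rado theorem with non uniform probabilities. -/
theorem ekr (l : List ι) (hl : l.Nodup) (p : ι → ℝ) (ρ : ℝ) (hρ0 : 0 ≤ ρ) (hρ : ρ ≤ 1 / 2)
    (hp0 : ∀ a ∈ l, 0 ≤ p a) (hp : ∀ a ∈ l, p a ≤ ρ)
    (F : Set (Finset ι)) (hF : ∀ T ∈ F, ∀ T' ∈ F, ¬ Disjoint T T') :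
    ExL l p (ind F) ≤ ρ := by
  have h1ρ : 0 < 1 - ρ := by linarith
  have hc := cross l hl p p (ρ / (1 - ρ)) (by positivity) hp0 hp0
    (fun a ha => by have := hp a ha; linarith) (fun a ha => by
      have h1 := hp a ha
      have h0 := hp0 a ha
      have h2 : p a ≤ ρ / (1 - ρ) * (1 - p a) := by
        rw [div_mul_eq_mul_div, le_div_iff₀ h1ρ]
        nlinarith
      have h3 : 0 ≤ ρ / (1 - ρ) * (1 - p a) := h0.trans h2
      calc p a * p a ≤ (ρ / (1 - ρ) * (1 - p a)) * (ρ / (1 - ρ) * (1 - p a)) :=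
            mul_le_mul h2 h2 h0 h3
        _ = _ := by ring) F F hF
  have hp1 : ∀ b ∈ l, p b ≤ 1 := fun b hb => by have := hp b hb; linarith
  have a0 := ExL_nonneg l p hp0 hp1 (ind F) (ind_nonneg F)
  have a1 : ExL l p (ind F) ≤ 1 := by
    have := ExL_mono l p hp0 hp1 (ind F) (fun _ => 1) (ind_le_one F)
    rwa [ExL_const] at this
  set α := ExL l p (ind F)
  have h2 : α ≤ ρ / (1 - ρ) * (1 - α) := by
    have h3 : 0 ≤ ρ / (1 - ρ) * (1 - α) := mul_nonneg (by positivity) (by linarith)
    refine (abs_le_of_sq_le_sq' ?_ h3).2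
    calc α ^ 2 = α * α := by ring
      _ ≤ _ := hc
      _ = _ := by ring
  rw [div_mul_eq_mul_div, le_div_iff₀ h1ρ] at h2
  linarith

end Pool.Agent.EZ
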