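import Pool.Agent.EZ.Specs2

/-!
# Sums of `1/v` and `1/(v log (z v))` over large prime powers: modules HU and FS (helper46)
-/

set_option autoImplicit false

namespace Pool.Agent.EZ

open Finset

noncomputable section

/-- the coefficients -/
def ppw (m : ℕ) : ℝ := if IsPrimePow m then Real.log m / (m : ℝ) else 0

theorem ppw_nonneg (m : ℕ) : 0 ≤ ppw m := by
  unfold ppw
  split_ifs
  · exact div_nonneg (Real.log_natCast_nonneg m) (Nat.cast_nonneg _)
  · exact le_rfl

theorem sum_ppw {X N : ℕ} (h : X ≤ N) : ∑ m ∈ Ioc X N, ppw m = A1 N - A1 X := by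
  induction N, h using Nat.le_induction with
  | base => simp
  | succ N hN ih =>
    have h1 : Ioc X (N + 1) = insert (N + 1) (Ioc X N) := by
      ext m; simp only [mem_Ioc, mem_insert]; omega
    rw [h1, Finset.sum_insert (by simp), ih, A1_succ]
    unfold ppw
    push_cast
    ring

/-- Abel summation, upper bound. -/
theorem abel_up (f Φ : ℕ → ℝ) (X : ℕ) (η : ℝ) (hX : 1 ≤ X)
    (hB : ∀ N, X ≤ N → A1 N - A1 X ≤ Real.log N - Real.log X + η)
    (hf : ∀ M, X ≤ M → f (M + 1) ≤ f M) (hf0 : ∀ M, X ≤ M → 0 ≤ f M)
    (hΦ : ∀ M, X ≤ M → f (M + 1) * (Real.log ((M + 1 : ℕ) : ℝ) - Real.log M) ≤ Φ (M + 1) - Φ M)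
    (N : ℕ) (hN : X ≤ N) :
    ∑ m ∈ Ioc X N, ppw m * f m ≤ Φ N - Φ X + η * f X := by
  have key : ∀ N, X ≤ N → ∑ m ∈ Ioc X N, ppw m * f m ≤ Φ N - Φ X + η * f X
      + (A1 N - A1 X - (Real.log N - Real.log X + η)) * f N := by
    intro N hN
    induction N, hN using Nat.le_induction with
    | base => simp
    | succ N hN ih =>
      have h1 : Ioc X (N + 1) = insert (N + 1) (Ioc X N) := by
        ext m; simp only [mem_Ioc, mem_insert]; omega
      rw [h1, Finset.sum_insert (by simp), A1_succ]
      have h2 := hB N hN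
      have h3 := hf N hN
      have h4 := hΦ N hN
      have h5 : (A1 N - A1 X - (Real.log N - Real.log X + η)) * f N
          ≤ (A1 N - A1 X - (Real.log N - Real.log X + η)) * f (N + 1) :=
        mul_le_mul_of_nonpos_left h3 (by linarith)
      have h6 : ppw (N + 1) = if IsPrimePow (N + 1) then Real.log ((N : ℝ) + 1) / ((N : ℝ) + 1)
          else 0 := by
        unfold ppw; push_cast; rfl
      push_cast at h4 ⊢
      rw [h6]
      nlinarith
  have h1 := key N hN
  have h2 := hB N hN
  have h4 : (A1 N - A1 X - (Real.log N - Real.log X + η)) * f N ≤ 0 :=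
    mul_nonpos_of_nonpos_of_nonneg (by linarith) (hf0 N hN)
  linarith

/-- Abel summation, lower bound. -/
theorem abel_lo (f Φ : ℕ → ℝ) (X : ℕ) (η : ℝ) (hX : 1 ≤ X)
    (hB : ∀ N, X ≤ N → Real.log N - Real.log X - η ≤ A1 N - A1 X)
    (hf : ∀ M, X ≤ M → f (M + 1) ≤ f M) (hf0 : ∀ M, X ≤ M → 0 ≤ f M)
    (hΦ : ∀ M, X ≤ M → Φ (M + 1 + 1) - Φ (M + 1)
      ≤ f (M + 1) * (Real.log ((M + 1 : ℕ) : ℝ) - Real.log M))
    (N : ℕ) (hN : X ≤ N) :
    Φ (N + 1) - Φ (X + 1) - η * f X ≤ ∑ m ∈ Ioc X N, ppw m * f m := by
  have key : ∀ N, X ≤ N → Φ (N + 1) - Φ (X + 1) - η * f X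
      + (A1 N - A1 X - (Real.log N - Real.log X - η)) * f N ≤ ∑ m ∈ Ioc X N, ppw m * f m := by
    intro N hN
    induction N, hN using Nat.le_induction with
    | base => simp
    | succ N hN ih =>
      have h1 : Ioc X (N + 1) = insert (N + 1) (Ioc X N) := by
        ext m; simp only [mem_Ioc, mem_insert]; omega
      rw [h1, Finset.sum_insert (by simp), A1_succ]
      have h2 := hB N hN
      have h3 := hf N hN
      have h4 := hΦ N hN
      have h5 : (A1 N - A1 X - (Real.log N - Real.log X - η)) * f (N + 1)
          ≤ (A1 N - A1 X - (Real.log N - Real.log X - η)) * f N :=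
        mul_le_mul_of_nonneg_left h3 (by linarith)
      have h6 : ppw (N + 1) = if IsPrimePow (N + 1) then Real.log ((N : ℝ) + 1) / ((N : ℝ) + 1)
          else 0 := by
        unfold ppw; push_cast; rfl
      push_cast at h4 ⊢
      rw [h6]
      nlinarith
  have h1 := key N hN
  have h2 := hB N hN
  have h4 : 0 ≤ (A1 N - A1 X - (Real.log N - Real.log X - η)) * f N :=
    mul_nonneg (by linarith) (hf0 N hN)
  linarith

/-- increments of `Hpp` -/
theorem Hpp_sub {X N : ℕ} (h : X ≤ N) (hX : 1 ≤ X) :
    Hpp N - Hpp X = ∑ m ∈ Ioc X N, ppw m * (1 / Real.log m) := by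
  induction N, h using Nat.le_induction with
  | base => simp
  | succ N hN ih =>
    have h1 : Ioc X (N + 1) = insert (N + 1) (Ioc X N) := by
      ext m; simp only [mem_Ioc, mem_insert]; omega
    rw [h1, Finset.sum_insert (by simp), ← ih]
    have h2 : Hpp (N + 1) = Hpp N + if IsPrimePow (N + 1) then 1 / ((N + 1 : ℕ) : ℝ) else 0 := by
      unfold Hpp ppK
      have h3 : Icc 1 (N + 1) = insert (N + 1) (Icc 1 N) := by
        ext m; simp only [mem_Icc, mem_insert]; omega
      rw [h3, Finset.filter_insert]
      split_ifs with h4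
      · rw [Finset.sum_insert (by simp)]
        ring
      · ring
    rw [h2]
    unfold ppw
    have hl : 0 < Real.log ((N + 1 : ℕ) : ℝ) := Real.log_pos (by
      have : (1 : ℕ) < N + 1 := by omega
      exact_mod_cast this)
    split_ifs
    · field_simp
      ring
    · ring

theorem log_lt_facts {M : ℕ} (hM : 2 ≤ M) : 0 < Real.log (M : ℝ) ∧
    Real.log (M : ℝ) ≤ Real.log ((M + 1 : ℕ) : ℝ) := by
  have h1 : (1 : ℝ) < M := by exact_mod_cast (by omega : 1 < M)
  refine ⟨Real.log_pos h1, Real.log_le_log (by linarith) ?_⟩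
  push_cast; linarith

theorem A1_at_10000 : Real.log 10000 + 0.6276 ≤ A1 10000 ∧ A1 10000 ≤ Real.log 10000 + 0.6386 := by
  have h3 := (table1 10000 (by norm_num) le_rfl)
  have h5 := A1_mono (show 9999 ≤ 10000 by norm_num)
  have e1' : e1 (10000 - 1) = 16276 := by decide +kernel
  have h6 := h3.2.2
  have h7 := h3.2.1
  rw [e1'] at h6
  norm_num at h6 h7 ⊢
  constructor <;> linarith

/-- module HU -/
theorem HU_proof : Stmt_HU := by
  intro y hy
  obtain ⟨ha, hb⟩ := A1_at_10000
  have hlog := log_10000
  have hcast : ((10000 : ℕ) : ℝ) = 10000 := by norm_num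
  have hff : ∀ M : ℕ, 10000 ≤ M → 1 / Real.log ((M + 1 : ℕ) : ℝ) ≤ 1 / Real.log (M : ℝ) := by
    intro M hM
    obtain ⟨h1, h2⟩ := log_lt_facts (M := M) (by omega)
    exact one_div_le_one_div_of_le h1 h2
  have hff0 : ∀ M : ℕ, 10000 ≤ M → 0 ≤ 1 / Real.log (M : ℝ) := by
    intro M hM
    exact (one_div_pos.2 (log_lt_facts (M := M) (by omega)).1).le
  have hsub := Hpp_sub hy (by norm_num)
  have hly : 0 < Real.log (y : ℝ) := (log_lt_facts (M := y) (by omega)).1
  have hlX : 0 < Real.log (10000 : ℝ) := by linarith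
  have hdiv : Real.log (Real.log y / Real.log 10000)
      = Real.log (Real.log y) - Real.log (Real.log 10000) := Real.log_div hly.ne' hlX.ne'
  constructor
  · have h := abel_up (fun m => 1 / Real.log (m : ℝ)) (fun m => Real.log (Real.log (m : ℝ))) 10000
      0.2374 (by norm_num) (by
        intro N hN
        have := A1_upper_large N hN
        rw [hcast]
        linarith) hff hff0 (by
        intro M hM
        obtain ⟨h1, h2⟩ := log_lt_facts (M := M) (by omega)
        have h3 : 0 < Real.log ((M + 1 : ℕ) : ℝ) := by linarith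
        have h4 := Real.one_sub_inv_le_log_of_pos (div_pos h3 h1)
        rw [Real.log_div h3.ne' h1.ne', inv_div] at h4
        refine le_trans (le_of_eq ?_) h4
        field_simp) y hy
    rw [← hsub] at h
    simp only [hcast] at h
    have h5 : (0.2374 : ℝ) * (1 / Real.log 10000) ≤ 0.048 := by
      rw [mul_one_div, div_le_iff₀ hlX]
      linarith
    rw [hdiv]
    linarith
  · have h := abel_lo (fun m => 1 / Real.log (m : ℝ)) (fun m => Real.log (Real.log (m : ℝ))) 10000
      0.2176 (by norm_num) (by
        intro N hN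
        have := A1_lower_large N hN
        rw [hcast]
        linarith) hff hff0 (by
        intro M hM
        obtain ⟨h1, h2⟩ := log_lt_facts (M := M) (by omega)
        obtain ⟨h3, h4⟩ := log_lt_facts (M := M + 1) (by omega)
        have h5 : 0 < Real.log ((M + 1 + 1 : ℕ) : ℝ) := by linarith
        have h6 := Real.log_le_sub_one_of_pos (div_pos h5 h3)
        rw [Real.log_div h5.ne' h3.ne'] at h6
        have hM0 : (0 : ℝ) < M := by exact_mod_cast (by omega : 0 < M)
        -- `log (M+2) - log (M+1) ≤ log (M+1) - log M`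
        have h7 : Real.log ((M + 1 + 1 : ℕ) : ℝ) - Real.log ((M + 1 : ℕ) : ℝ)
            ≤ Real.log ((M + 1 : ℕ) : ℝ) - Real.log (M : ℝ) := by
          rw [← Real.log_div (by positivity) (by positivity),
            ← Real.log_div (by positivity) (by positivity)]
          apply Real.log_le_log (by positivity)
          rw [div_le_div_iff₀ (by positivity) hM0]
          push_cast
          nlinarith
        have h8 : Real.log ((M + 1 + 1 : ℕ) : ℝ) / Real.log ((M + 1 : ℕ) : ℝ) - 1
            = 1 / Real.log ((M + 1 : ℕ) : ℝ) * (Real.log ((M + 1 + 1 : ℕ) : ℝ)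
              - Real.log ((M + 1 : ℕ) : ℝ)) := by
          field_simp
        rw [h8] at h6
        have h9 := mul_le_mul_of_nonneg_left h7 (one_div_pos.2 h3).le
        linarith) y hy
    rw [← hsub] at h
    simp only [hcast] at h
    have h5 : (0.2176 : ℝ) * (1 / Real.log 10000) ≤ 0.02366 := by
      rw [mul_one_div, div_le_iff₀ hlX]
      linarith
    have h6 : Real.log (Real.log (y : ℝ)) ≤ Real.log (Real.log ((y + 1 : ℕ) : ℝ)) :=
      Real.log_le_log hly (log_lt_facts (M := y) (by omega)).2
    have h7 : Real.log (Real.log ((10000 + 1 : ℕ) : ℝ)) ≤ Real.log (Real.log 10000) + 0.0001 := by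
      have h8 : Real.log ((10000 + 1 : ℕ) : ℝ) ≤ Real.log 10000 + 0.0001 := by
        have h9 : ((10000 + 1 : ℕ) : ℝ) = 10000 * 1.0001 := by norm_num
        rw [h9, Real.log_mul (by norm_num) (by norm_num)]
        have := Real.log_le_sub_one_of_pos (by norm_num : (0 : ℝ) < 1.0001)
        linarith
      have h10 : 0 < Real.log ((10000 + 1 : ℕ) : ℝ) := (log_lt_facts (M := 10000 + 1) (by norm_num)).1
      have h11 := Real.log_le_sub_one_of_pos (div_pos h10 hlX)
      rw [Real.log_div h10.ne' hlX.ne'] at h11
      have h12 : Real.log ((10000 + 1 : ℕ) : ℝ) / Real.log 10000 ≤ 1 + 0.0001 := by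
        rw [div_le_iff₀ hlX]
        nlinarith
      linarith
    rw [hdiv]
    linarith

/-- module FS -/
theorem FS_proof : Stmt_FS := by
  intro z X N hz hX
  have hz1 : (1 : ℝ) < z := by exact_mod_cast (by omega : 1 < z)
  have hZ : 0 < Real.log (z : ℝ) := Real.log_pos hz1
  have hXr : (10000 : ℝ) ≤ X := by exact_mod_cast hX
  have hLX : 0 < Real.log (X : ℝ) := Real.log_pos (by linarith)
  have hlogmul : ∀ m : ℕ, 1 ≤ m → Real.log ((z : ℝ) * m) = Real.log z + Real.log m := by
    intro m hm
    rw [Real.log_mul (by linarith) (by positivity)]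
  have hpos : 0 ≤ 1 / Real.log z * Real.log (1 + Real.log z / Real.log X)
      + 0.4443 / (Real.log X * Real.log ((z : ℝ) * X)) := by
    rw [hlogmul X (by omega)]
    have h1 : 0 ≤ Real.log (1 + Real.log z / Real.log X) :=
      Real.log_nonneg (by have := div_pos hZ hLX; linarith)
    positivity
  rcases Nat.lt_or_ge N X with h | hXN
  · have : (ppK N).filter (fun v => X < v) = ∅ := by
      apply Finset.filter_eq_empty_iff.2
      intro v hv
      have := (mem_ppK.1 hv).2
      omega
    rw [this, Finset.sum_empty]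
    exact hpos
  have hsum : ∑ v ∈ (ppK N).filter (fun v => X < v), 1 / ((v : ℝ) * Real.log ((z : ℝ) * v))
      = ∑ m ∈ Ioc X N, ppw m * (1 / (Real.log m * (Real.log z + Real.log m))) := by
    have h1 : (ppK N).filter (fun v => X < v) = (Ioc X N).filter IsPrimePow := by
      ext v
      rw [mem_filter, mem_ppK, mem_filter, mem_Ioc]
      tauto
    rw [h1, Finset.sum_filter]
    apply Finset.sum_congr rfl
    intro m hm
    rw [mem_Ioc] at hm
    unfold ppw
    have hl : 0 < Real.log (m : ℝ) := (log_lt_facts (M := m) (by omega)).1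
    have hm0 : (0 : ℝ) < m := by exact_mod_cast (by omega : 0 < m)
    split_ifs
    · rw [hlogmul m (by omega)]
      field_simp
    · ring
  rw [hsum]
  have h := abel_up (fun m => 1 / (Real.log (m : ℝ) * (Real.log z + Real.log m)))
    (fun m => 1 / Real.log z * (Real.log (Real.log (m : ℝ)) - Real.log (Real.log z + Real.log m)))
    X 0.4440 (by omega) (by
      intro N hN
      have h1 := A1_upper_large N (by omega)
      have h2 := A1_lower_large X hX
      linarith) (by
      intro M hM
      obtain ⟨h1, h2⟩ := log_lt_facts (M := M) (by omega)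
      apply one_div_le_one_div_of_le
      · positivity
      · apply mul_le_mul h2 (by linarith) (by positivity) (by linarith)) (by
      intro M hM
      obtain ⟨h1, h2⟩ := log_lt_facts (M := M) (by omega)
      positivity) (by
      intro M hM
      obtain ⟨h1, h2⟩ := log_lt_facts (M := M) (by omega)
      set L := Real.log (M : ℝ) with hL
      set L' := Real.log ((M + 1 : ℕ) : ℝ) with hL'
      set Z := Real.log (z : ℝ) with hZd
      have h3 : 0 < L' := by linarith
      have h4 : 0 < L' * (Z + L) / ((Z + L') * L) := by positivity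
      have h5 := Real.one_sub_inv_le_log_of_pos h4
      have h6 : Real.log (L' * (Z + L) / ((Z + L') * L))
          = (Real.log L' - Real.log (Z + L')) - (Real.log L - Real.log (Z + L)) := by
        rw [Real.log_div (by positivity) (by positivity), Real.log_mul (by positivity) (by positivity),
          Real.log_mul (by positivity) (by positivity)]
        ring
      rw [h6, inv_div] at h5
      have h7 : 1 - (Z + L') * L / (L' * (Z + L)) = Z * ((L' - L) / (L' * (Z + L))) := by
        field_simp
        ring
      rw [h7] at h5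
      have h8 : 1 / Z * (Z * ((L' - L) / (L' * (Z + L)))) ≤ 1 / Z *
          ((Real.log L' - Real.log (Z + L')) - (Real.log L - Real.log (Z + L))) :=
        mul_le_mul_of_nonneg_left h5 (by positivity)
      have h9 : 1 / Z * (Z * ((L' - L) / (L' * (Z + L)))) = (L' - L) / (L' * (Z + L)) := by
        field_simp
      rw [h9] at h8
      have h10 : 1 / (L' * (Z + L')) * (L' - L) ≤ (L' - L) / (L' * (Z + L)) := by
        rw [one_div_mul_eq_div]
        apply div_le_div_of_nonneg_left (by linarith) (by positivity)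
        apply mul_le_mul_of_nonneg_left _ h3.le
        linarith
      linarith) N hXN
  have hLN : 0 < Real.log (N : ℝ) := (log_lt_facts (M := N) (by omega)).1
  have hN0 : 1 / Real.log (z : ℝ) * (Real.log (Real.log (N : ℝ))
      - Real.log (Real.log z + Real.log N)) ≤ 0 := by
    apply mul_nonpos_of_nonneg_of_nonpos (by positivity)
    have := Real.log_le_log hLN (by linarith : Real.log (N : ℝ) ≤ Real.log z + Real.log N)
    linarith
  have hX1 : Real.log (1 + Real.log z / Real.log X)
      = Real.log (Real.log z + Real.log X) - Real.log (Real.log X) := by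
    rw [← Real.log_div (by positivity) hLX.ne']
    congr 1
    field_simp
    ring
  have hlast : 0.4440 * (1 / (Real.log (X : ℝ) * (Real.log z + Real.log X)))
      ≤ 0.4443 / (Real.log X * Real.log ((z : ℝ) * X)) := by
    rw [hlogmul X (by omega), mul_one_div]
    apply div_le_div_of_nonneg_right (by norm_num) (by positivity)
  rw [hX1]
  have e : 1 / Real.log (z : ℝ) * (Real.log (Real.log z + Real.log X) - Real.log (Real.log X))
      = -(1 / Real.log (z : ℝ) * (Real.log (Real.log X) - Real.log (Real.log z + Real.log X))) := by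
    ring
  rw [e]
  linarith

end

end Pool.Agent.EZ
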