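import Pool.Agent.EZ.MertensPP

/-!
# Estimates for `A1` (helper46)
-/

set_option autoImplicit false

namespace Pool.Agent.EZ

open Finset ArithmeticFunction
open scoped Nat

theorem tst1_spec (n Ll Lu Al' Al Au Hu : ℕ) (h : tst1 n Ll Lu Al' Al Au Hu = true) :
    Hu ≤ 1226900000000 ∧ Au ≤ Ll + 638600000000 ∧
      Lu + 100000000 * e1 (n - 1) ≤ Al' + 1000000000000 := by
  unfold tst1 at h
  rw [cond_false_iff, cond_false_iff, Nat.ble_eq, Nat.ble_eq, Nat.ble_eq] at h
  exact h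

theorem table1 (n : ℕ) (h3 : 3 ≤ n) (hn : n ≤ 10000) :
    H1 n ≤ 1.2269 ∧ A1 n ≤ Real.log n + 0.6386 ∧
      Real.log n - 1 + (e1 (n - 1) : ℝ) / 10000 ≤ A1 (n - 1) := by
  have hS : (SC : ℝ) = 1000000000000 := by norm_num [SC]
  refine loop1_sound tst1 (fun n => H1 n ≤ 1.2269 ∧ A1 n ≤ Real.log n + 0.6386 ∧
      Real.log n - 1 + (e1 (n - 1) : ℝ) / 10000 ≤ A1 (n - 1)) ?_ 9998 2 _ _ _ _ _
      (by norm_num) (by norm_num) inv1_two table1_run n (by omega) (by omega)
  intro n Ll Lu Al' Al Au Hu hinv hAl' hT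
  obtain ⟨i1, i2, i3, i4, i5⟩ := hinv
  rw [hS] at i1 i2 i3 i4 i5 hAl'
  obtain ⟨h1, h2, h3⟩ := tst1_spec _ _ _ _ _ _ _ hT
  have hsub : n + 1 - 1 = n := by omega
  rw [hsub] at h3 ⊢
  generalize e1 n = L at *
  have h1' : ((Hu : ℕ) : ℝ) ≤ ((1226900000000 : ℕ) : ℝ) := by
    exact_mod_cast h1
  have h2' : ((Au : ℕ) : ℝ) ≤ ((Ll + 638600000000 : ℕ) : ℝ) := by
    exact_mod_cast h2
  have h3' : ((Lu + 100000000 * L : ℕ) : ℝ) ≤ ((Al' + 1000000000000 : ℕ) : ℝ) := by
    exact_mod_cast h3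
  clear h1 h2 h3 hT
  push_cast at h1' h2' h3' i1 i2 i3 i4 i5 ⊢
  refine ⟨?_, ?_, ?_⟩
  · linarith
  · linarith
  · linarith

theorem A1_mono : Monotone A1 := by
  intro a b h
  apply Finset.sum_le_sum_of_subset_of_nonneg
  · exact Finset.filter_subset_filter _ (Finset.Icc_subset_Icc_right h)
  · intro n hn _
    exact div_nonneg (Real.log_natCast_nonneg n) (Nat.cast_nonneg n)

/-- tail of `H1`. -/
theorem H1_tail (N : ℕ) (hN : 10000 ≤ N) :
    H1 N + psiN 10000 / 10000 ^ 2 + 2.25 / N ≤ H1 10000 + 2.25 / 10000 + psiN N / (N : ℝ) ^ 2 := by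
  induction N, hN using Nat.le_induction with
  | base => push_cast; linarith
  | succ n hn ih =>
    have hn0 : (10000 : ℝ) ≤ n := by exact_mod_cast hn
    have hnp : (0 : ℝ) < n := by linarith
    have h1 : H1 (n + 1) ≤ H1 n + (psiN (n + 1) - psiN n) / (n : ℝ) ^ 2 := by
      rw [H1_succ, psiN_succ]
      have e1 : psiN n + vonMangoldt (n + 1) - psiN n = vonMangoldt (n + 1) := by ring
      rw [e1]
      by_cases hp : (n + 1).Prime
      · rw [if_pos hp, vonMangoldt_apply_prime hp]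
        have e2 : ((n + 1 : ℕ) : ℝ) - 1 = n := by push_cast; ring
        rw [e2]
      · rw [if_neg hp]
        have := vonMangoldt_nonneg (n := n + 1)
        have h2 : 0 ≤ vonMangoldt (n + 1) / (n : ℝ) ^ 2 := div_nonneg this (by positivity)
        linarith
    have hpsi := psiN_le (n + 1)
    push_cast at hpsi ⊢
    -- need: (ψ' - ψ)/n² + ψ/n² ... telescoping
    have key : psiN (n + 1) / (n : ℝ) ^ 2 + 2.25 / ((n : ℝ) + 1)
        ≤ 2.25 / n + psiN (n + 1) / ((n : ℝ) + 1) ^ 2 := by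
      have h3 : psiN (n + 1) / (n : ℝ) ^ 2 - psiN (n + 1) / ((n : ℝ) + 1) ^ 2
          = psiN (n + 1) * ((2 * n + 1) / ((n : ℝ) ^ 2 * (n + 1) ^ 2)) := by
        field_simp
        ring
      have h4 : (2.25 : ℝ) / n - 2.25 / ((n : ℝ) + 1) = 2.25 * (n * (n + 1)) / ((n : ℝ) ^ 2 * (n + 1) ^ 2) := by
        field_simp
        ring
      have h5 : psiN (n + 1) * ((2 * n + 1) / ((n : ℝ) ^ 2 * (n + 1) ^ 2))
          ≤ (1.12 * (n + 1)) * ((2 * n + 1) / ((n : ℝ) ^ 2 * (n + 1) ^ 2)) :=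
        mul_le_mul_of_nonneg_right hpsi (by positivity)
      have h6 : (1.12 * ((n : ℝ) + 1)) * ((2 * n + 1) / ((n : ℝ) ^ 2 * (n + 1) ^ 2))
          ≤ 2.25 * (n * (n + 1)) / ((n : ℝ) ^ 2 * (n + 1) ^ 2) := by
        rw [← mul_div_assoc]
        apply div_le_div_of_nonneg_right _ (by positivity)
        nlinarith
      linarith
    have h7 : (psiN (n + 1) - psiN n) / (n : ℝ) ^ 2
        = psiN (n + 1) / (n : ℝ) ^ 2 - psiN n / (n : ℝ) ^ 2 := by ring
    linarith

theorem H1_mono : Monotone H1 := by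
  intro a b h
  apply Finset.sum_le_sum_of_subset_of_nonneg
  · exact Finset.filter_subset_filter _ (Finset.Icc_subset_Icc_right h)
  · intro n hn _
    exact div_nonneg (Real.log_natCast_nonneg n) (by positivity)

theorem H1_le (N : ℕ) : H1 N ≤ 1.2272 := by
  have h0 := (table1 10000 (by norm_num) le_rfl).1
  by_cases hN : N ≤ 10000
  · have := H1_mono hN
    linarith
  · have hN' : 10000 ≤ N := by omega
    have h := H1_tail N hN'
    have hn0 : (10000 : ℝ) ≤ N := by exact_mod_cast hN'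
    have hnp : (0 : ℝ) < N := by linarith
    have h1 := psiN_le N
    have h2 : psiN N / (N : ℝ) ^ 2 ≤ 1.12 / N := by
      rw [div_le_div_iff₀ (by positivity) hnp]
      nlinarith
    have h3 := psiN_nonneg 10000
    have h4 : (0 : ℝ) ≤ psiN 10000 / 10000 ^ 2 := by positivity
    have h5 : (1.12 : ℝ) / N ≤ 2.25 / N := div_le_div_of_nonneg_right (by norm_num) hnp.le
    linarith

/-- `D1 N = A1 N - A N`, summand. -/
theorem A1_sub_A (N : ℕ) : A1 N - A N = ∑ n ∈ (Icc 1 N).filter IsPrimePow,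
    (Real.log n - vonMangoldt n) / n := by
  have h1 : A N = ∑ n ∈ (Icc 1 N).filter IsPrimePow, vonMangoldt n / n := by
    unfold A
    rw [Finset.sum_filter]
    refine Finset.sum_congr rfl fun n _ => ?_
    by_cases h : IsPrimePow n
    · rw [if_pos h]
    · rw [if_neg h, vonMangoldt_eq_zero_iff.2 h, zero_div]
  rw [h1]
  unfold A1
  rw [← Finset.sum_sub_distrib]
  exact Finset.sum_congr rfl fun n _ => by ring

theorem geo_sum (q : ℕ) (hq : 2 ≤ q) (N : ℕ) :
    ∑ f ∈ Icc 1 N, ((f : ℝ) - 1) / (q : ℝ) ^ f ≤ 1 / ((q : ℝ) - 1) ^ 2 := by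
  have hq0 : (2 : ℝ) ≤ q := by exact_mod_cast hq
  -- induction with explicit remainder: sum = 1/(q-1)^2 - (something ≥ 0)/q^N
  have key : ∀ N : ℕ, ∑ f ∈ Icc 1 N, ((f : ℝ) - 1) / (q : ℝ) ^ f
      = 1 / ((q : ℝ) - 1) ^ 2 - (N * (q - 1) + 1) / (((q : ℝ) - 1) ^ 2 * q ^ N) := by
    intro N
    induction N with
    | zero => simp
    | succ n ih =>
      rw [Finset.sum_Icc_succ_top (by omega), ih]
      have h1 : ((q : ℝ) - 1) ≠ 0 := by linarith
      have h2 : (q : ℝ) ≠ 0 := by linarith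
      push_cast
      rw [pow_succ]
      field_simp
      ring
  rw [key N]
  have : 0 ≤ ((N : ℝ) * (q - 1) + 1) / (((q : ℝ) - 1) ^ 2 * q ^ N) := by
    apply div_nonneg
    · have : (0 : ℝ) ≤ N * (q - 1) := mul_nonneg (Nat.cast_nonneg N) (by linarith)
      linarith
    · positivity
  linarith

theorem D1_le_H1 (N : ℕ) : A1 N - A N ≤ H1 N := by
  rw [A1_sub_A]
  set S := (Icc 1 N).filter IsPrimePow with hS
  have hmaps : ∀ n ∈ S, n.minFac ∈ (Icc 1 N).filter Nat.Prime := by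
    intro n hn
    rw [hS, mem_filter, mem_Icc] at hn
    have hn1 : n ≠ 1 := by
      rintro rfl
      exact not_isPrimePow_one hn.2
    rw [mem_filter, mem_Icc]
    exact ⟨⟨(Nat.minFac_pos n), (Nat.minFac_le (by omega)).trans hn.1.2⟩, Nat.minFac_prime hn1⟩
  rw [← Finset.sum_fiberwise_of_maps_to hmaps]
  unfold H1
  apply Finset.sum_le_sum
  intro q hq
  rw [mem_filter, mem_Icc] at hq
  have hq2 : 2 ≤ q := hq.2.two_le
  have hqr : (0 : ℝ) < q := by exact_mod_cast (by omega : 0 < q)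
  have hsub : S.filter (fun n => n.minFac = q) ⊆ (Icc 1 N).image (fun f => q ^ f) := by
    intro n hn
    rw [mem_filter] at hn
    obtain ⟨hn1, hn2⟩ := hn
    rw [hS, mem_filter, mem_Icc] at hn1
    obtain ⟨p, k, hp, hk, hpk⟩ := hn1.2
    have hp' : p.Prime := hp.nat_prime
    have hpq : p = q := by
      rw [← hn2, ← hpk]
      exact (Nat.Prime.pow_minFac hp' (by omega)).symm
    rw [mem_image]
    refine ⟨k, ?_, by rw [← hpk, hpq]⟩
    rw [mem_Icc]
    refine ⟨hk, ?_⟩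
    have : k < 2 ^ k := Nat.lt_two_pow_self
    have h2 : 2 ^ k ≤ q ^ k := Nat.pow_le_pow_left hq2 k
    have h3 : q ^ k = n := by rw [← hpq]; exact hpk
    omega
  have hnn : ∀ n : ℕ, 1 ≤ n → 0 ≤ (Real.log n - vonMangoldt n) / n := by
    intro n _
    apply div_nonneg
    · have : vonMangoldt n ≤ Real.log n := vonMangoldt_le_log
      linarith
    · exact Nat.cast_nonneg n
  calc ∑ n ∈ S.filter (fun n => n.minFac = q), (Real.log n - vonMangoldt n) / n
      ≤ ∑ n ∈ (Icc 1 N).image (fun f => q ^ f), (Real.log n - vonMangoldt n) / n := by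
        apply Finset.sum_le_sum_of_subset_of_nonneg hsub
        intro n hn _
        obtain ⟨f, -, rfl⟩ := mem_image.1 hn
        exact hnn _ (Nat.one_le_pow _ _ (by omega))
    _ = ∑ f ∈ Icc 1 N, (Real.log ((q ^ f : ℕ) : ℝ) - vonMangoldt (q ^ f)) / ((q ^ f : ℕ) : ℝ) := by
        apply Finset.sum_image
        intro a _ b _ hab
        exact Nat.pow_right_injective hq2 hab
    _ = ∑ f ∈ Icc 1 N, Real.log q * (((f : ℝ) - 1) / (q : ℝ) ^ f) := by
        apply Finset.sum_congr rfl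
        intro f hf
        rw [mem_Icc] at hf
        rw [vonMangoldt_apply_pow (by omega), vonMangoldt_apply_prime hq.2]
        push_cast
        rw [Real.log_pow]
        ring
    _ = Real.log q * ∑ f ∈ Icc 1 N, ((f : ℝ) - 1) / (q : ℝ) ^ f := by rw [Finset.mul_sum]
    _ ≤ Real.log q * (1 / ((q : ℝ) - 1) ^ 2) :=
        mul_le_mul_of_nonneg_left (geo_sum q hq2 N) (Real.log_natCast_nonneg q)
    _ = Real.log q / ((q : ℝ) - 1) ^ 2 := by ring

theorem D1_mono {M N : ℕ} (h : M ≤ N) : A1 M - A M ≤ A1 N - A N := by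
  rw [A1_sub_A, A1_sub_A]
  apply Finset.sum_le_sum_of_subset_of_nonneg
  · exact Finset.filter_subset_filter _ (Finset.Icc_subset_Icc_right h)
  · intro n hn _
    apply div_nonneg
    · have : vonMangoldt n ≤ Real.log n := vonMangoldt_le_log
      linarith
    · exact Nat.cast_nonneg n

theorem A1_upper_small (N : ℕ) (h3 : 3 ≤ N) (hN : N ≤ 10000) : A1 N ≤ Real.log N + 0.6386 :=
  (table1 N h3 hN).2.1

theorem A1_upper_large (N : ℕ) (hN : 10000 ≤ N) : A1 N ≤ Real.log N + 0.8650 := by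
  have h1 := D1_le_H1 N
  have h2 := H1_le N
  have h3 := A_upper_large N hN
  linarith

theorem A1_lower_large (N : ℕ) (hN : 10000 ≤ N) : Real.log N + 0.4210 ≤ A1 N := by
  have h1 := D1_mono hN
  have h2 := A_lower_large N hN
  have h3 := (table1 10000 (by norm_num) le_rfl).2.2
  have h4 := (table 10000 (by norm_num) le_rfl).2.1
  have h5 := A1_mono (show 9999 ≤ 10000 by norm_num)
  have e1' : e1 (10000 - 1) = 16276 := by decide +kernel
  have e2' : upc 10000 = 68 := by decide +kernel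
  rw [e1'] at h3
  rw [e2'] at h4
  have e3 : 10000 - 1 = 9999 := rfl
  rw [e3] at h3
  push_cast at h3 h4
  linarith

/-- Increments, both ends small. `c` is in `[n, n + 1]`. -/
theorem A1_incr_small {n N : ℕ} {c : ℝ} (h2 : 2 ≤ n) (hn : n < 10000) (hc0 : 0 < c)
    (hc' : c ≤ n + 1) (h3 : 3 ≤ N) (hN' : N ≤ 10000) :
    A1 N - A1 n ≤ Real.log N - Real.log c + (1.6386 - (e1 n : ℝ) / 10000) := by
  have h4 := A1_upper_small N h3 hN'
  have h5 := (table1 (n + 1) (by omega) (by omega)).2.2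
  rw [Nat.add_sub_cancel] at h5
  have h6 : Real.log c ≤ Real.log ((n + 1 : ℕ) : ℝ) := Real.log_le_log hc0 (by push_cast; exact hc')
  linarith

theorem A1_incr_mid {n N : ℕ} {c : ℝ} (h2 : 2 ≤ n) (hn : n < 10000) (hc0 : 0 < c)
    (hc' : c ≤ n + 1) (hN' : 10000 ≤ N) :
    A1 N - A1 n ≤ Real.log N - Real.log c + (1.8650 - (e1 n : ℝ) / 10000) := by
  have h4 := A1_upper_large N hN'
  have h5 := (table1 (n + 1) (by omega) (by omega)).2.2
  rw [Nat.add_sub_cancel] at h5
  have h6 : Real.log c ≤ Real.log ((n + 1 : ℕ) : ℝ) := Real.log_le_log hc0 (by push_cast; exact hc')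
  linarith

theorem A1_incr_large {n N : ℕ} {c : ℝ} (hn : 10000 ≤ n) (hc0 : 0 < c)
    (hc' : c ≤ n + 1) (hN' : 10000 ≤ N) :
    A1 N - A1 n ≤ Real.log N - Real.log c + 0.4441 := by
  have h4 := A1_upper_large N hN'
  have h5 := A1_lower_large n hn
  have hnr : (10000 : ℝ) ≤ n := by exact_mod_cast hn
  have h6 : Real.log c ≤ Real.log (n : ℝ) + 0.0001 := by
    have h7 : Real.log c ≤ Real.log ((n : ℝ) * (1 + 1 / n)) := by
      apply Real.log_le_log hc0
      have : (n : ℝ) * (1 + 1 / n) = n + 1 := by field_simp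
      rw [this]; exact hc'
    rw [Real.log_mul (by linarith) (by positivity)] at h7
    have h8 : Real.log (1 + 1 / (n : ℝ)) ≤ 1 / (n : ℝ) := by
      have := Real.log_le_sub_one_of_pos (x := 1 + 1 / (n : ℝ)) (by positivity)
      linarith
    have h9 : (1 : ℝ) / n ≤ 1 / 10000 := one_div_le_one_div_of_le (by norm_num) hnr
    linarith
  linarith

end Pool.Agent.EZ
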