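import Pool.Agent.EZ.Assembly
import Pool.Agent.EZ.MertensPP2

/-!
# Summability over prime powers, and the passage from finite sets to arbitrary sets
-/

set_option autoImplicit false
set_option linter.unusedSectionVars false

namespace Pool.Agent.EZ

open Finset

/-- the summand over prime powers -/
noncomputable def FF (n : ℕ) : ℝ := if IsPrimePow n then hh (n : ℝ) else 0

theorem FF_nonneg (n : ℕ) : 0 ≤ FF n := by
  unfold FF
  split_ifs with h
  · exact hh_nonneg (by exact_mod_cast h.one_lt.le)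
  · exact le_rfl

/-- partial sums -/
noncomputable def PF (N : ℕ) : ℝ := ∑ n ∈ Icc 1 N, FF n

/-- inverse logarithm -/
noncomputable def il (n : ℕ) : ℝ := 1 / Real.log n

theorem il_anti {n : ℕ} (hn : 2 ≤ n) : il (n + 1) ≤ il n ∧ 0 ≤ il (n + 1) := by
  unfold il
  have h1 : 0 < Real.log (n : ℝ) := Real.log_pos (by exact_mod_cast hn)
  have h2 : Real.log (n : ℝ) ≤ Real.log ((n + 1 : ℕ) : ℝ) :=
    Real.log_le_log (by positivity) (by push_cast; linarith)
  exact ⟨one_div_le_one_div_of_le h1 h2, by positivity⟩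

theorem A1_upper_all (N : ℕ) (h3 : 3 ≤ N) : A1 N ≤ Real.log N + 0.865 := by
  by_cases h : N ≤ 10000
  · have := A1_upper_small N h3 h
    linarith
  · have := A1_upper_large N (by omega)
    linarith

theorem PF_step (n : ℕ) (hn : 3 ≤ n) :
    PF (n + 1) - A1 (n + 1) * il (n + 1) ^ 2 + 2 * il (n + 1) + 0.865 * il (n + 1) ^ 2
      ≤ PF n - A1 n * il n ^ 2 + 2 * il n + 0.865 * il n ^ 2 := by
  have hP : PF (n + 1) = PF n + FF (n + 1) := by
    unfold PF
    rw [Finset.sum_Icc_succ_top (by omega)]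
  obtain ⟨h1, h2⟩ := il_anti (by omega : 2 ≤ n)
  have hterm : FF (n + 1) = (A1 (n + 1) - A1 n) * il (n + 1) ^ 2 := by
    rw [A1_succ]
    unfold FF hh il
    have hl : 0 < Real.log ((n + 1 : ℕ) : ℝ) := Real.log_pos (by exact_mod_cast (by omega : 1 < n + 1))
    split_ifs
    · field_simp
      ring
    · ring
  have hA := A1_upper_all n hn
  have hl : 0 < Real.log (n : ℝ) := Real.log_pos (by exact_mod_cast (by omega : 1 < n))
  have hla : Real.log (n : ℝ) * il n = 1 := by unfold il; field_simp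
  have hd : 0 ≤ il n ^ 2 - il (n + 1) ^ 2 := by nlinarith
  have h3 : A1 n * (il n ^ 2 - il (n + 1) ^ 2)
      ≤ (Real.log n + 0.865) * (il n ^ 2 - il (n + 1) ^ 2) :=
    mul_le_mul_of_nonneg_right hA hd
  have h4 : Real.log n * (il n ^ 2 - il (n + 1) ^ 2) ≤ 2 * (il n - il (n + 1)) := by
    have e : Real.log n * (il n ^ 2 - il (n + 1) ^ 2)
        = (Real.log n * (il n + il (n + 1))) * (il n - il (n + 1)) := by ring
    rw [e]
    apply mul_le_mul_of_nonneg_right _ (by linarith)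
    have : Real.log n * il (n + 1) ≤ Real.log n * il n := mul_le_mul_of_nonneg_left h1 hl.le
    linarith
  rw [hP, hterm]
  nlinarith

theorem PF_bound (N : ℕ) (hN : 3 ≤ N) :
    PF N ≤ PF 3 - A1 3 * il 3 ^ 2 + 2 * il 3 + 0.865 * il 3 ^ 2 + il 3 + 0.865 * il 3 ^ 2 := by
  have key : ∀ N, 3 ≤ N → PF N - A1 N * il N ^ 2 + 2 * il N + 0.865 * il N ^ 2
      ≤ PF 3 - A1 3 * il 3 ^ 2 + 2 * il 3 + 0.865 * il 3 ^ 2 := by
    intro N hN
    induction N, hN using Nat.le_induction with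
    | base => exact le_rfl
    | succ n hn ih => exact (PF_step n hn).trans ih
  have hil : ∀ N, 3 ≤ N → il N ≤ il 3 ∧ 0 ≤ il N := by
    intro N hN
    induction N, hN using Nat.le_induction with
    | base => exact ⟨le_rfl, by unfold il; positivity⟩
    | succ n hn ih =>
      obtain ⟨h1, h2⟩ := il_anti (by omega : 2 ≤ n)
      exact ⟨h1.trans ih.1, h2⟩
  obtain ⟨h1, h2⟩ := hil N hN
  have h3 := key N hN
  have hA := A1_upper_all N hN
  have hl : 0 < Real.log (N : ℝ) := Real.log_pos (by exact_mod_cast (by omega : 1 < N))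
  have hla : Real.log (N : ℝ) * il N = 1 := by unfold il; field_simp
  have h4 : A1 N * il N ^ 2 ≤ il N + 0.865 * il N ^ 2 := by
    have := mul_le_mul_of_nonneg_right hA (sq_nonneg (il N))
    have e : (Real.log N + 0.865) * il N ^ 2 = (Real.log N * il N) * il N + 0.865 * il N ^ 2 := by ring
    rw [e, hla] at this
    linarith
  nlinarith

theorem summable_FF : Summable FF := by
  apply summable_of_sum_range_le (c := PF 3 - A1 3 * il 3 ^ 2 + 2 * il 3 + 0.865 * il 3 ^ 2 + il 3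
    + 0.865 * il 3 ^ 2) FF_nonneg
  intro n
  refine le_trans ?_ (PF_bound (n + 3) (by omega))
  unfold PF
  have h0 : FF 0 = 0 := by
    unfold FF
    rw [if_neg (by intro h; exact h.ne_zero rfl)]
  calc ∑ i ∈ range n, FF i ≤ ∑ i ∈ range (n + 4), FF i :=
        Finset.sum_le_sum_of_subset_of_nonneg (Finset.range_mono (by omega)) fun i _ _ => FF_nonneg i
    _ = ∑ i ∈ Icc 1 (n + 3), FF i := by
        rw [Finset.sum_range_succ', h0, add_zero, ← Nat.Ico_zero_eq_range,
          Finset.sum_Ico_add' (fun i => FF i) 0 (n + 3) 1]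
        apply Finset.sum_congr _ (fun _ _ => rfl)
        ext i
        simp only [Finset.mem_Ico, Finset.mem_Icc]
        omega

/-- finite sums over primes of the prime power series are bounded by the total sum. -/
theorem primes_le_total (N : ℕ) :
    ∑ p ∈ (range N).filter Nat.Prime, ∑' k : ℕ, hh ((p : ℝ) ^ (k + 1)) ≤ ∑' n, FF n := by
  set P := (range N).filter Nat.Prime with hP
  have hF : ∀ (p : ℕ), p.Prime → ∀ k : ℕ, hh ((p : ℝ) ^ (k + 1)) = FF (p ^ (k + 1)) := by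
    intro p hp k
    unfold FF
    rw [if_pos (hp.isPrimePow.pow (by omega))]
    push_cast
    rfl
  have hinj : Function.Injective (fun x : P × ℕ => (x.1 : ℕ) ^ (x.2 + 1)) := by
    rintro ⟨⟨p, hp⟩, k⟩ ⟨⟨p', hp'⟩, k'⟩ h
    obtain ⟨e1, e2⟩ := pp_inj (Finset.mem_filter.1 hp).2 (Finset.mem_filter.1 hp').2 h
    subst e1; subst e2
    rfl
  have hs : Summable (fun x : P × ℕ => FF ((x.1 : ℕ) ^ (x.2 + 1))) :=
    summable_FF.comp_injective hinj
  calc ∑ p ∈ P, ∑' k : ℕ, hh ((p : ℝ) ^ (k + 1)) = ∑ p : P, ∑' k : ℕ, FF ((p : ℕ) ^ (k + 1)) := by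
        rw [Finset.sum_coe_sort P (fun p => ∑' k : ℕ, FF (p ^ (k + 1)))]
        apply Finset.sum_congr rfl
        intro p hp
        congr 1
        ext k
        exact hF p (Finset.mem_filter.1 hp).2 k
    _ = ∑' p : P, ∑' k : ℕ, FF ((p : ℕ) ^ (k + 1)) := (tsum_fintype _).symm
    _ = ∑' x : P × ℕ, FF ((x.1 : ℕ) ^ (x.2 + 1)) := (hs.tsum_prod).symm
    _ ≤ ∑' n, FF n := tsum_comp_le_tsum_of_inj summable_FF FF_nonneg hinj

/-- from finite sets to arbitrary sets. -/
theorem of_finite (h : ∀ B : Finset ℕ, QPset (↑B : Set ℕ) → ∑ b ∈ B, hh (b : ℝ) ≤ ∑' n, FF n)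
    (B : Set ℕ) (hB : QPset B) :
    Summable (fun b : B => hh ((b : ℕ) : ℝ)) ∧ ∑' b : B, hh ((b : ℕ) : ℝ) ≤ ∑' n, FF n := by
  classical
  have hnn : ∀ b : B, 0 ≤ hh ((b : ℕ) : ℝ) := by
    intro b
    have := hB.1 b b.2
    exact hh_nonneg (by exact_mod_cast (by omega : 1 ≤ (b : ℕ)))
  have hfin : ∀ s : Finset B, ∑ b ∈ s, hh ((b : ℕ) : ℝ) ≤ ∑' n, FF n := by
    intro s
    have h1 := h (s.map (Function.Embedding.subtype _)) ⟨by
        intro b hb
        obtain ⟨x, -, rfl⟩ := Finset.mem_map.1 (Finset.mem_coe.1 hb)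
        exact hB.1 _ x.2, by
        intro x hx y hy z hz
        obtain ⟨x, -, rfl⟩ := Finset.mem_map.1 (Finset.mem_coe.1 hx)
        obtain ⟨y, -, rfl⟩ := Finset.mem_map.1 (Finset.mem_coe.1 hy)
        obtain ⟨z, -, rfl⟩ := Finset.mem_map.1 (Finset.mem_coe.1 hz)
        exact hB.2 _ x.2 _ y.2 _ z.2⟩
    rw [Finset.sum_map] at h1
    exact h1
  have hs : Summable (fun b : B => hh ((b : ℕ) : ℝ)) := summable_of_sum_le hnn hfin
  exact ⟨hs, hs.tsum_le_of_sum_le hfin⟩

/-- reduction of the conjecture to the account inequalities. -/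
theorem conjecture_of_accounts
    (h : ∀ B : Finset ℕ, QPset (↑B : Set ℕ) → ∃ (J : ℕ) (q : ℕ → Fin J → ℝ) (c : ℕ → Fin J → ℝ),
      (∀ v j, 0 ≤ q v j) ∧ (∀ v, IsPrimePow v → ∑ j, q v j = 1) ∧ Accounts q c B)
    (B : Set ℕ) (hB : QPset B) :
    Summable (fun b : B => hh ((b : ℕ) : ℝ)) ∧ ∑' b : B, hh ((b : ℕ) : ℝ) ≤ ∑' n, FF n := by
  apply of_finite _ B hB
  intro B hB
  obtain ⟨J, q, c, hq, hs, hacc⟩ := h B hB
  obtain ⟨N, hN⟩ := finite_form q c hB hq hs hacc
  exact hN.trans (primes_le_total N)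

end Pool.Agent.EZ
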