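import Pool.Agent.EZ.EngTabOK
import Pool.Agent.EZ.HU
import Pool.Agent.EZ.SumPP

/-!
# The numerical engine: module BLK (helper59)
-/

set_option autoImplicit false

namespace Pool.Agent.EZ

open Finset ArithmeticFunction

namespace TB

/-! ### lower bounds for the exponential function -/

/-- Taylor sum: `s` is the running sum, `t` the last term `y ^ i / i !`, scale `10^12`. -/
noncomputable def elo (y k : ℕ) : ℕ → ℕ → ℕ → (ℕ → Bool) → Bool :=
  Nat.rec (motive := fun _ => ℕ → ℕ → ℕ → (ℕ → Bool) → Bool)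
    (fun _ _ s c => c s)
    (fun _ ih i t s c =>
      frc (Nat.div (Nat.mul t y) (Nat.mul 1000000000000 (Nat.succ i))) fun t' =>
      frc (Nat.add s t') fun s' => ih (Nat.succ i) t' s' c) k

theorem elo_sound (y : ℕ) (c : ℕ → Bool) : ∀ (k i t s : ℕ),
    (t : ℝ) ≤ 1000000000000 * (((y : ℝ) / 1000000000000) ^ i / i.factorial) →
    (s : ℝ) ≤ 1000000000000 * ∑ j ∈ range (i + 1), ((y : ℝ) / 1000000000000) ^ j / j.factorial →
    elo y k i t s c = true → ∃ r : ℕ, c r = true ∧
      (r : ℝ) ≤ 1000000000000 * Real.exp ((y : ℝ) / 1000000000000) := by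
  intro k
  induction k with
  | zero =>
    intro i t s _ hs h
    refine ⟨s, h, hs.trans ?_⟩
    apply mul_le_mul_of_nonneg_left _ (by norm_num)
    exact Real.sum_le_exp_of_nonneg (by positivity) _
  | succ k ih =>
    intro i t s ht hs h
    have e0 : elo y (k + 1) i t s c =
      frc (Nat.div (Nat.mul t y) (Nat.mul 1000000000000 (Nat.succ i))) fun t' =>
      frc (Nat.add s t') fun s' => elo y k (Nat.succ i) t' s' c := rfl
    rw [e0] at h
    simp only [frc_eq] at h
    have h1 : ((t * y / (1000000000000 * (i + 1)) : ℕ) : ℝ)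
        ≤ 1000000000000 * (((y : ℝ) / 1000000000000) ^ (i + 1) / (i + 1).factorial) := by
      have h2 := Nat.cast_div_le (α := ℝ) (m := t * y) (n := 1000000000000 * (i + 1))
      refine h2.trans ?_
      push_cast
      have h3 : (t : ℝ) * y / (1000000000000 * (i + 1))
          ≤ 1000000000000 * (((y : ℝ) / 1000000000000) ^ i / i.factorial) * y
            / (1000000000000 * (i + 1)) := by
        apply div_le_div_of_nonneg_right _ (by positivity)
        exact mul_le_mul_of_nonneg_right ht (Nat.cast_nonneg _)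
      refine h3.trans (le_of_eq ?_)
      rw [Nat.factorial_succ]
      push_cast
      have h4 : (i.factorial : ℝ) ≠ 0 := by exact_mod_cast i.factorial_ne_zero
      rw [pow_succ]
      field_simp
    refine ih (i + 1) (t * y / (1000000000000 * (i + 1))) (s + t * y / (1000000000000 * (i + 1)))
      h1 ?_ h
    rw [Finset.sum_range_succ, Nat.cast_add]
    generalize t * y / (1000000000000 * (i + 1)) = a at h1 ⊢
    linarith

/-- test: `S9 * exp (0.4575 - H) ≤ h0`, if `Hl ≤ SF * H`. -/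
noncomputable def expT (Hl h0 : ℕ) : Bool :=
  frc (Nat.sub (Nat.div Hl 1000000) 457500000000) fun y =>
  elo y 24 0 1000000000000 1000000000000 fun s =>
    Nat.ble 1000000000000000000000 (Nat.mul s h0) && Nat.ble 457500000000 (Nat.div Hl 1000000)

theorem big_eq (r h0 : ℕ) (E : ℝ) (hr : (r : ℝ) ≤ 1000000000000 * E)
    (h : Nat.ble 1000000000000000000000 (Nat.mul r h0) = true) :
    1000000000 ≤ (h0 : ℝ) * E := by
  rw [Nat.ble_eq] at h
  have h4 : ((1000000000000000000000 : ℕ) : ℝ) ≤ ((Nat.mul r h0 : ℕ) : ℝ) := Nat.cast_le.2 h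
  have h5 : ((Nat.mul r h0 : ℕ) : ℝ) = (r : ℝ) * h0 := Nat.cast_mul r h0
  rw [h5] at h4
  have h6 : (r : ℝ) * h0 ≤ 1000000000000 * E * h0 :=
    mul_le_mul_of_nonneg_right hr (Nat.cast_nonneg _)
  have h7 : ((1000000000000000000000 : ℕ) : ℝ) = 1000000000000 * 1000000000 := by norm_num
  rw [h7] at h4
  nlinarith

theorem sub_aux (a b : ℕ) (h : Nat.ble b a = true) : Nat.sub a b + b = a :=
  Nat.sub_add_cancel (Nat.le_of_ble_eq_true h)

theorem expT_sound {Hl h0 : ℕ} {H : ℝ} (hH : (Hl : ℝ) ≤ SF * H) (h : expT Hl h0 = true) :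
    (S9 : ℝ) * Real.exp (0.4575 - H) ≤ (h0 : ℝ) := by
  unfold expT at h
  rw [frc_eq] at h
  set y : ℕ := Nat.sub (Nat.div Hl 1000000) 457500000000 with hy
  obtain ⟨r, hr, hr2⟩ := elo_sound y _ 24 0 1000000000000 1000000000000
    (by rw [pow_zero, Nat.factorial_zero]; norm_num)
    (by rw [zero_add, Finset.sum_range_one, pow_zero, Nat.factorial_zero]; norm_num) h
  rw [Bool.and_eq_true] at hr
  obtain ⟨r1, r2⟩ := hr
  have hy' := sub_aux (Nat.div Hl 1000000) 457500000000 r2
  rw [← hy] at hy'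
  have h1 : ((Nat.div Hl 1000000 : ℕ) : ℝ) ≤ (Hl : ℝ) / 1000000 := by
    have := Nat.cast_div_le (α := ℝ) (m := Hl) (n := 1000000)
    rw [Nat.cast_ofNat] at this
    exact this
  rw [← hy'] at h1
  rw [SF_eq] at hH
  rw [Nat.cast_add, Nat.cast_ofNat] at h1
  have h2 : (y : ℝ) / 1000000000000 ≤ H - 0.4575 := by
    rw [div_le_iff₀ (by norm_num)]
    linarith
  have h3 : (r : ℝ) ≤ 1000000000000 * Real.exp (H - 0.4575) :=
    hr2.trans (mul_le_mul_of_nonneg_left (Real.exp_le_exp.2 h2) (by norm_num))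
  have h4 := big_eq r h0 (Real.exp (H - 0.4575)) h3 r1
  have h5 : Real.exp (0.4575 - H) = (Real.exp (H - 0.4575))⁻¹ := by
    rw [← Real.exp_neg, neg_sub]
  rw [h5, S9_real, ← div_eq_mul_inv, div_le_iff₀ (Real.exp_pos _)]
  exact h4

/-! ### the blocks below `10^4` -/

/-- entry check -/
noncomputable def bchk (b : BEnt) (n Ll Lu Au Hl : ℕ) : Bool :=
  Nat.beq b.1 n && (Nat.ble (Nat.mul b.2.1 1000000000) Ll &&
    (Nat.ble Lu (Nat.mul b.2.2.1 1000000000) && (Nat.ble Au (Nat.mul b.2.2.2.1 1000000000) &&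
    expT Hl b.2.2.2.2.1)))

theorem bchk_sound {b : BEnt} {n Ll Lu Au Hl Hu : ℕ} (hinv : InvF n Ll Lu Au Hl Hu)
    (h : bchk b n Ll Lu Au Hl = true) : b.1 = n ∧ BOK b := by
  obtain ⟨i1, i2, i3, i4, i5⟩ := hinv
  unfold bchk at h
  simp only [Bool.and_eq_true, Nat.beq_eq, Nat.ble_eq] at h
  obtain ⟨t1, t2, t3, t4, t5⟩ := h
  change b.2.1 * 1000000000 ≤ Ll at t2
  change Lu ≤ b.2.2.1 * 1000000000 at t3
  change Au ≤ b.2.2.2.1 * 1000000000 at t4
  have t2' : ((b.2.1 * 1000000000 : ℕ) : ℝ) ≤ Ll := by exact_mod_cast t2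
  have t3' : (Lu : ℝ) ≤ ((b.2.2.1 * 1000000000 : ℕ) : ℝ) := by exact_mod_cast t3
  have t4' : (Au : ℝ) ≤ ((b.2.2.2.1 * 1000000000 : ℕ) : ℝ) := by exact_mod_cast t4
  refine ⟨t1, ?_⟩
  unfold BOK
  rw [t1]
  refine ⟨?_, ?_, ?_, expT_sound i4 t5⟩
  all_goals
    rw [S9_real]
    rw [SF_eq] at i1 i2 i3
    push_cast at t2' t3' t4'
    linarith

/-- The test at the block ends: `l` remaining block ends (increasing), `hp` the scaled lower bound
of `Hpp` at the last block end and `dp` its allowed increment. -/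
noncomputable def bnext (l : List BEnt) (n Ll Lu Au Hl Hu hp dp : ℕ)
    (k : List BEnt → ℕ → ℕ → Bool) : Bool :=
  List.casesOn (motive := fun _ => Bool) l false (fun b tl =>
    cond (Nat.beq b.1 n)
      (cond (bchk b n Ll Lu Au Hl && Nat.ble Hu (Nat.add hp (Nat.mul dp 1000000000)))
        (k tl Hl b.2.2.2.2.2) false)
      (k l hp dp))

/-- the loop. -/
noncomputable def blkLoop (k : ℕ) : ℕ → ℕ → ℕ → ℕ → ℕ → ℕ → List BEnt → ℕ → ℕ → Bool :=
  Nat.rec (motive := fun _ => ℕ → ℕ → ℕ → ℕ → ℕ → ℕ → List BEnt → ℕ → ℕ → Bool)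
    (fun _ _ _ _ _ _ l _ _ => List.casesOn (motive := fun _ => Bool) l true (fun _ _ => false))
    (fun _ ih n Ll Lu Au Hl Hu l hp dp => stepK n Ll Lu Au Hl Hu
      (fun n' Ll' Lu' => bnext l n' Ll' Lu' Au Hl Hu hp dp
        (fun tl hp' dp' => ih n' Ll' Lu' Au Hl Hu tl hp' dp'))
      (fun n' _ Ll' Lu' Au' Hl' Hu' => bnext l n' Ll' Lu' Au' Hl' Hu' hp dp
        (fun tl hp' dp' => ih n' Ll' Lu' Au' Hl' Hu' tl hp' dp'))) k

/-- The invariant for the processed blocks `acc` (decreasing). -/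
def AccOK (acc : List BEnt) (n hp dp : ℕ) : Prop :=
  match acc with
  | [] => True
  | b :: L => b.1 ≤ n ∧ BOK b ∧ BlkOK L b.1 ∧ (hp : ℝ) ≤ SF * Hpp b.1 ∧ b.2.2.2.2.2 = dp

theorem AccOK_mono {acc : List BEnt} {n m hp dp : ℕ} (h : AccOK acc n hp dp) (hnm : n ≤ m) :
    AccOK acc m hp dp := by
  cases acc with
  | nil => trivial
  | cons b L =>
    obtain ⟨h1, h2⟩ := h
    exact ⟨by omega, h2⟩

theorem bnext_sound {l acc : List BEnt} {n Ll Lu Au Hl Hu hp dp : ℕ}
    {k : List BEnt → ℕ → ℕ → Bool} (hinv : InvF (n + 1) Ll Lu Au Hl Hu) (hacc : AccOK acc n hp dp)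
    (h : bnext l (n + 1) Ll Lu Au Hl Hu hp dp k = true) :
    ∃ l' acc' hp' dp', l'.reverse ++ acc' = l.reverse ++ acc ∧ AccOK acc' (n + 1) hp' dp' ∧
      k l' hp' dp' = true := by
  cases l with
  | nil => exact absurd h (by simp [bnext])
  | cons b tl =>
    unfold bnext at h
    simp only at h
    cases hb : Nat.beq b.1 (n + 1) with
    | false =>
      rw [hb, cond_false] at h
      exact ⟨b :: tl, acc, hp, dp, rfl, AccOK_mono hacc (by omega), h⟩
    | true =>
      rw [hb, cond_true] at h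
      cases hc : (bchk b (n + 1) Ll Lu Au Hl && Nat.ble Hu (Nat.add hp (Nat.mul dp 1000000000))) with
      | false => rw [hc] at h; simp at h
      | true =>
        rw [hc, cond_true] at h
        rw [Bool.and_eq_true, Nat.ble_eq] at hc
        obtain ⟨c1, c2⟩ := hc
        change Hu ≤ hp + dp * 1000000000 at c2
        obtain ⟨g1, g2⟩ := bchk_sound hinv c1
        have hi4 := hinv.2.2.2.1
        have hi5 := hinv.2.2.2.2
        refine ⟨tl, b :: acc, Hl, b.2.2.2.2.2, ?_, ?_, h⟩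
        · rw [List.reverse_cons, List.append_assoc]; rfl
        · refine ⟨by omega, g2, ?_, by rw [g1]; exact hi4, rfl⟩
          cases acc with
          | nil => trivial
          | cons b' L =>
            obtain ⟨a1, a2, a3, a4, a5⟩ := hacc
            refine ⟨by omega, a2, ?_, a3⟩
            intro _
            rw [g1, a5, S9_real]
            have c2' : (Hu : ℝ) ≤ ((hp + dp * 1000000000 : ℕ) : ℝ) := by exact_mod_cast c2
            rw [SF_eq] at a4 hi5
            push_cast at c2' hi5 ⊢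
            nlinarith

theorem blkLoop_sound : ∀ (k n Ll Lu Au Hl Hu : ℕ) (l acc : List BEnt) (hp dp : ℕ), 1 ≤ n →
    n + k < 101 ^ 2 → InvF n Ll Lu Au Hl Hu → blkLoop k n Ll Lu Au Hl Hu l hp dp = true →
    AccOK acc n hp dp → ∃ hp' dp', AccOK (l.reverse ++ acc) (n + k) hp' dp' := by
  intro k
  induction k with
  | zero =>
    intro n Ll Lu Au Hl Hu l acc hp dp _ _ _ h hacc
    cases l with
    | nil => exact ⟨hp, dp, by simpa using hacc⟩
    | cons e tl => exact absurd h (by simp [blkLoop])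
  | succ k ih =>
    intro n Ll Lu Au Hl Hu l acc hp dp hn hk hinv h hacc
    have e0 : blkLoop (k + 1) n Ll Lu Au Hl Hu l hp dp = stepK n Ll Lu Au Hl Hu
      (fun n' Ll' Lu' => bnext l n' Ll' Lu' Au Hl Hu hp dp
        (fun tl hp' dp' => blkLoop k n' Ll' Lu' Au Hl Hu tl hp' dp'))
      (fun n' _ Ll' Lu' Au' Hl' Hu' => bnext l n' Ll' Lu' Au' Hl' Hu' hp dp
        (fun tl hp' dp' => blkLoop k n' Ll' Lu' Au' Hl' Hu' tl hp' dp')) := rfl
    rw [e0] at h
    have e1 : n + (k + 1) = n + 1 + k := by ring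
    rw [e1]
    rcases step_sound hn (by omega) hinv h with
      ⟨_, Ll', Lu', hj, hk0⟩ | ⟨_, Ll', Lu', Au', Hl', Hu', hj, hk1⟩
    · obtain ⟨l', acc', hp', dp', r1, r2, r3⟩ := bnext_sound hj hacc hk0
      rw [← r1]
      exact ih (n + 1) _ _ _ _ _ l' acc' hp' dp' (by omega) (by omega) hj r3 r2
    · obtain ⟨l', acc', hp', dp', r1, r2, r3⟩ := bnext_sound hj hacc hk1
      rw [← r1]
      exact ih (n + 1) _ _ _ _ _ l' acc' hp' dp' (by omega) (by omega) hj r3 r2

/-! ### the blocks beyond `10^4` -/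

theorem h_large (h1 : Real.exp (0.4575 - Hpp 10000) ≤ 0.061044407)
    (h2 : Real.log 10000 ≤ 9.210340372) (X : ℕ) (hX : 10000 ≤ X) :
    Real.exp (0.4575 - Hpp X) ≤ 0.5759 / Real.log X := by
  have h3 := (HU_proof X hX).2
  have hl0 : (0 : ℝ) < Real.log 10000 := Real.log_pos (by norm_num)
  have hlX : (0 : ℝ) < Real.log X := by
    apply Real.log_pos
    have : (1 : ℕ) < X := by omega
    exact_mod_cast this
  have h4 : Real.exp (0.4575 - Hpp X) ≤ Real.exp (0.4575 - Hpp 10000 + 0.024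
      - Real.log (Real.log X / Real.log 10000)) := Real.exp_le_exp.2 (by linarith)
  rw [Real.exp_sub (0.4575 - Hpp 10000 + 0.024), Real.exp_add (0.4575 - Hpp 10000),
    Real.exp_log (div_pos hlX hl0)] at h4
  have h5 : Real.exp (0.024 : ℝ) ≤ 1.024292 := by
    have := Real.exp_bound' (x := 0.024) (n := 3) (by norm_num) (by norm_num) (by norm_num)
    refine this.trans ?_
    norm_num [Finset.sum_range_succ, Nat.factorial]
  refine h4.trans ?_
  rw [div_div_eq_mul_div]
  apply div_le_div_of_nonneg_right _ hlX.le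
  have h6 : Real.exp (0.4575 - Hpp 10000) * Real.exp 0.024 ≤ 0.061044407 * 1.024292 :=
    mul_le_mul h1 h5 (Real.exp_pos _).le (by norm_num)
  calc Real.exp (0.4575 - Hpp 10000) * Real.exp 0.024 * Real.log 10000
      ≤ 0.061044407 * 1.024292 * 9.210340372 :=
        mul_le_mul h6 h2 hl0.le (by norm_num)
    _ ≤ 0.5759 := by norm_num

/-- check of a block end `2 ^ k`. -/
def topchk (b : BEnt) (k : ℕ) : Bool :=
  Nat.beq b.1 (Nat.pow 2 k) && (Nat.ble b.2.1 (Nat.mul k 693147180) &&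
    (Nat.ble (Nat.mul k 693147181) b.2.2.1 &&
    (Nat.ble (Nat.add (Nat.mul k 693147181) 865000000) b.2.2.2.1 &&
    (Nat.ble 575900000000000000 (Nat.mul b.2.2.2.2.1 (Nat.mul k 693147180)) && Nat.ble 14 k))))

/-- the bound beyond `10^4`. -/
def HLarge : Prop := ∀ X : ℕ, 10000 ≤ X → Real.exp (0.4575 - Hpp X) ≤ 0.5759 / Real.log X

theorem topchk_sound (hL : HLarge) {b : BEnt} {k : ℕ} (h : topchk b k = true) : b.1 = 2 ^ k ∧ 14 ≤ k ∧ BOK b := by
  unfold topchk at h
  simp only [Bool.and_eq_true, Nat.beq_eq, Nat.ble_eq] at h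
  obtain ⟨t1, t2, t3, t4, t5, t6⟩ := h
  change b.1 = 2 ^ k at t1
  change b.2.1 ≤ k * 693147180 at t2
  change k * 693147181 ≤ b.2.2.1 at t3
  change k * 693147181 + 865000000 ≤ b.2.2.2.1 at t4
  change 575900000000000000 ≤ b.2.2.2.2.1 * (k * 693147180) at t5
  have l1 := Real.log_two_gt_d9
  have l2 := Real.log_two_lt_d9
  have hk : (14 : ℝ) ≤ k := by exact_mod_cast t6
  have hX : 10000 ≤ b.1 := by
    rw [t1]
    calc 10000 ≤ 2 ^ 14 := by norm_num
      _ ≤ 2 ^ k := Nat.pow_le_pow_right (by norm_num) t6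
  have hlog : Real.log (b.1 : ℝ) = k * Real.log 2 := by
    rw [t1]; push_cast; rw [Real.log_pow]
  have t2' : (b.2.1 : ℝ) ≤ ((k * 693147180 : ℕ) : ℝ) := by exact_mod_cast t2
  have t3' : ((k * 693147181 : ℕ) : ℝ) ≤ (b.2.2.1 : ℝ) := by exact_mod_cast t3
  have t4' : ((k * 693147181 + 865000000 : ℕ) : ℝ) ≤ (b.2.2.2.1 : ℝ) := by exact_mod_cast t4
  have t5' : ((575900000000000000 : ℕ) : ℝ) ≤ ((b.2.2.2.2.1 * (k * 693147180) : ℕ) : ℝ) := by
    exact_mod_cast t5
  push_cast at t2' t3' t4' t5'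
  have hA := A1_upper_large b.1 hX
  have hH := hL b.1 hX
  rw [hlog] at hA hH
  have hk2 : (k : ℝ) * 0.69314718 ≤ k * Real.log 2 := by nlinarith
  have hk3 : (k : ℝ) * Real.log 2 ≤ k * 0.693147181 := by nlinarith
  refine ⟨t1, t6, ?_⟩
  unfold BOK
  rw [hlog, S9_real]
  refine ⟨by linarith, by linarith, by linarith, ?_⟩
  have hkl : 0 < (k : ℝ) * Real.log 2 := by linarith
  have h7 : 1000000000 * Real.exp (0.4575 - Hpp b.1) ≤ 1000000000 * (0.5759 / (k * Real.log 2)) :=
    mul_le_mul_of_nonneg_left hH (by norm_num)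
  refine h7.trans ?_
  rw [← mul_div_assoc, div_le_iff₀ hkl]
  have h8 : (b.2.2.2.2.1 : ℝ) * (k * 0.69314718) ≤ (b.2.2.2.2.1 : ℝ) * (k * Real.log 2) :=
    mul_le_mul_of_nonneg_left hk2 (Nat.cast_nonneg _)
  linarith

/-- the list of the top blocks, `l` decreasing exponents. -/
def topL : List BEnt → List ℕ → Bool
  | [], [] => true
  | b :: L, k :: K => topchk b k && topL L K
  | _, _ => false

theorem topL_sound (hL : HLarge) : ∀ (L : List BEnt) (K : List ℕ) (M : List BEnt) (b0 : BEnt) (N : ℕ),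
    topL L K = true → K.Pairwise (fun a b => b < a) → b0.1 ≤ 10000 → BOK b0 → 10000 ≤ b0.1 →
    BlkOK M b0.1 → (∀ k ∈ K, 2 ^ k < N) → 10000 < N →
    BlkOK (L ++ b0 :: M) N := by
  intro L
  induction L with
  | nil =>
    intro K M b0 N h _ h1 h2 h3 h4 _ hN
    exact ⟨by omega, h2, fun h5 => by omega, h4⟩
  | cons b L ih =>
    intro K M b0 N h hK h1 h2 h3 h4 h5 hN
    cases K with
    | nil => simp [topL] at h
    | cons k K =>
      unfold topL at h
      rw [Bool.and_eq_true] at h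
      obtain ⟨g1, g2⟩ := h
      obtain ⟨e1, e2, e3⟩ := topchk_sound hL g1
      have hb : 10000 < b.1 := by
        rw [e1]
        calc 10000 < 2 ^ 14 := by norm_num
          _ ≤ 2 ^ k := Nat.pow_le_pow_right (by norm_num) e2
      refine ⟨by rw [e1]; exact h5 k (by simp), e3, fun h6 => by omega, ?_⟩
      refine ih K M b0 b.1 g2 (List.pairwise_cons.1 hK).2 h1 h2 h3 h4 ?_ hb
      intro j hj
      rw [e1]
      exact Nat.pow_lt_pow_right (by norm_num) ((List.pairwise_cons.1 hK).1 j hj)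

/-- exponents of the top blocks. -/
def topK : List ℕ := [72, 69, 66, 63, 60, 57, 54, 52, 50, 48, 46, 44, 42, 40, 38, 36, 35, 34, 33,
  32, 31, 30, 29, 28, 27, 26, 25, 24, 23, 22, 21, 20, 19, 18, 17, 16, 15, 14]

theorem top_run : topL (blk.take 38) topK = true := by decide +kernel

theorem low_run : blkLoop 9999 1 0 0 0 0 0 (blk.drop 38).reverse 10000000000000000000 0 = true := by decide +kernel

theorem low_head : blk.drop 38 = (10000, 9210340370, 9210340372, 9845651658,
    61044407, 0) :: blk.drop 39 := by decide +kernel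

theorem top_head : blk.take 38 = (4722366482869645213696, 49906596888, 49906597032, 50771597032,
    11539557, 0) :: (blk.take 38).drop 1 := by decide +kernel

end TB

open TB in
/-- module BLK -/
theorem Blk_proof : Stmt_Blk := by
  obtain ⟨hp, dp, h⟩ := blkLoop_sound 9999 1 0 0 0 0 0 (blk.drop 38).reverse []
    10000000000000000000 0 le_rfl (by norm_num) inv_one low_run trivial
  rw [List.reverse_reverse, List.append_nil, low_head] at h
  obtain ⟨_, h2, h3, _, _⟩ := h
  have hL : HLarge := by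
    obtain ⟨g1, g2, g3, g4⟩ := h2
    rw [S9_real] at g2 g4
    norm_num at g2 g4
    exact h_large (by norm_num; linarith) (by linarith)
  have hsplit : blk = blk.take 38 ++ blk.drop 38 := (List.take_append_drop 38 blk).symm
  have htop := top_run
  rw [top_head] at htop
  unfold topK topL at htop
  rw [Bool.and_eq_true] at htop
  obtain ⟨t1, t2⟩ := htop
  obtain ⟨e1, e2, e3⟩ := topchk_sound hL t1
  refine ⟨_, (blk.take 38).drop 1 ++ blk.drop 38, ?_, e3, by norm_num, ?_⟩
  · conv_lhs => rw [hsplit, top_head]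
    rfl
  · rw [low_head]
    refine topL_sound hL _ _ (blk.drop 39) (10000, 9210340370, 9210340372, 9845651658,
      61044407, 0) _ t2 (by decide) le_rfl h2 le_rfl h3 ?_ (by norm_num)
    intro k hk
    have : ∀ k ∈ ([69, 66, 63, 60, 57, 54, 52, 50, 48, 46, 44, 42, 40, 38, 36, 35, 34, 33,
      32, 31, 30, 29, 28, 27, 26, 25, 24, 23, 22, 21, 20, 19, 18, 17, 16, 15, 14] : List ℕ),
      2 ^ k < 4722366482869645213696 := by decide +kernel
    exact this k hk

end Pool.Agent.EZ
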