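import Pool.Agent.EZ.Specs
import Pool.Agent.EZ.Kappa

/-!
# Admissible constants from the near bound
-/

set_option autoImplicit false
set_option linter.unusedSectionVars false
set_option linter.unusedVariables false

namespace Pool.Agent.EZ

open Finset Filter Topology

/-- `1 - (1-t)^λ ≤ max 1 λ * t`. -/
theorem bern_aux {t lam : ℝ} (ht0 : 0 ≤ t) (ht1 : t < 1) (hl : 0 ≤ lam) :
    1 - (1 - t) ^ lam ≤ max 1 lam * t := by
  rcases le_total 1 lam with h | h
  · rw [max_eq_right h]
    have := one_add_mul_self_le_rpow_one_add (s := -t) (by linarith) h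
    have e : (1 : ℝ) + -t = 1 - t := by ring
    rw [e] at this
    linarith
  · rw [max_eq_left h]
    have h1 : (1 - t) ^ (1 : ℝ) ≤ (1 - t) ^ lam :=
      Real.rpow_le_rpow_of_exponent_ge (by linarith) (by linarith) h
    rw [Real.rpow_one] at h1
    linarith

/-- convexity of the exponential. -/
theorem exp_mul_sub_one_le {w t : ℝ} (ht0 : 0 ≤ t) (ht1 : t ≤ 1) :
    Real.exp (w * t) - 1 ≤ (Real.exp w - 1) * t := by
  have h := convexOn_exp.2 (Set.mem_univ (0:ℝ)) (Set.mem_univ w) (by linarith : 0 ≤ 1 - t) ht0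
    (by ring)
  simp only [smul_eq_mul, mul_zero, zero_add, Real.exp_zero, mul_one] at h
  rw [mul_comm t w] at h
  nlinarith

theorem stmt_NBR : Stmt_NBR := by
  intro z x X1 v X n E1 E2 A A' B ω eK w2 e hz hv hvz hS1 hn1 hn hn' hX hE1 hE2 hk1 hk2 hA0 hAA' hB0
    hB hω0 hω2 hω heK hw2 he VS hVS
  have hz1 : (1 : ℝ) < z := by exact_mod_cast hz.one_lt
  have hv1 : (1 : ℝ) < v := by exact_mod_cast hv.one_lt
  have hzv1 : (1 : ℝ) < (z : ℝ) * v := by nlinarith
  have hL : 0 < Real.log ((z : ℝ) * v) := Real.log_pos hzv1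
  set N := Real.log ((z : ℝ) * v) / 2 with hN
  have hN0 : 0 < N := by positivity
  have h2N : 2 * N = Real.log ((z : ℝ) * v) := by rw [hN]; ring
  have hexpN : Real.exp N * Real.exp N = (z : ℝ) * v := by
    rw [← Real.exp_add, ← two_mul, h2N, Real.exp_log (by linarith)]
  have hEN := Real.exp_pos N
  have hnN : (n : ℝ) ≤ Real.exp N := by
    have h1 : ((n ^ 2 : ℕ) : ℝ) ≤ ((z * v : ℕ) : ℝ) := by exact_mod_cast hn
    push_cast at h1
    rw [← hexpN] at h1
    by_contra h
    push Not at h
    nlinarith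
  have hnN' : Real.exp N ≤ (n : ℝ) + 1 := by
    have h1 : ((z * v : ℕ) : ℝ) ≤ (((n + 1) ^ 2 : ℕ) : ℝ) := by exact_mod_cast hn'
    push_cast at h1
    rw [← hexpN] at h1
    by_contra h
    push Not at h
    have : (0 : ℝ) ≤ n := Nat.cast_nonneg n
    nlinarith
  have hNX : Real.exp N ≤ (X : ℝ) := by
    have h1 : ((z * v : ℕ) : ℝ) ≤ ((X ^ 2 : ℕ) : ℝ) := by exact_mod_cast hX
    push_cast at h1
    rw [← hexpN] at h1
    by_contra h
    push Not at h
    have : (0 : ℝ) ≤ X := Nat.cast_nonneg X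
    nlinarith
  set Y := max X1 v with hY
  set Kd := ppK Y with hKd
  set S' : ℕ → ℝ := fun w => if w ∈ Kd then (if w ≤ v ∨ w.minFac = z.minFac then 0 else Sx x w) else 1
    with hS'
  set M := ∑ w ∈ Kd, (1 - S' w) / (w : ℝ) with hM
  -- the killed weight
  have hMle : Mz z x X1 + Wt z x v ≤ M := by
    have e1 : M = ∑ w ∈ Kd, (if w.minFac = z.minFac then 1 else 1 - Sx x w) / (w : ℝ)
        + ∑ w ∈ Kd, (if w.minFac = z.minFac then 0 else if w ≤ v then Sx x w else 0) / (w : ℝ) := by
      rw [hM, ← Finset.sum_add_distrib]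
      apply Finset.sum_congr rfl
      intro w hw
      rw [← add_div]
      congr 1
      simp only [hS', if_pos hw]
      by_cases h1 : w.minFac = z.minFac
      · simp [h1]
      · by_cases h2 : w ≤ v
        · simp [h1, h2]
        · simp [h1, h2]
    have e2 : Mz z x X1 ≤ ∑ w ∈ Kd, (if w.minFac = z.minFac then 1 else 1 - Sx x w) / (w : ℝ) := by
      unfold Mz
      apply Finset.sum_le_sum_of_subset_of_nonneg
      · intro w hw
        obtain ⟨h1, h2⟩ := mem_ppK.1 hw
        exact mem_ppK.2 ⟨h1, h2.trans (le_max_left _ _)⟩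
      · intro w _ _
        apply div_nonneg _ (Nat.cast_nonneg w)
        split_ifs
        · exact zero_le_one
        · linarith [Sx_le_one x w]
    have e3 : Wt z x v = ∑ w ∈ Kd, (if w.minFac = z.minFac then 0 else if w ≤ v then Sx x w else 0)
        / (w : ℝ) := by
      unfold Wt
      symm
      have hsub : (ppK v).filter (fun w => w.minFac ≠ z.minFac) ⊆ Kd := by
        intro w hw
        obtain ⟨h1, h2⟩ := mem_ppK.1 (Finset.mem_filter.1 hw).1
        exact mem_ppK.2 ⟨h1, h2.trans (le_max_right _ _)⟩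
      rw [← Finset.sum_subset hsub]
      · apply Finset.sum_congr rfl
        intro w hw
        obtain ⟨h1, h2⟩ := Finset.mem_filter.1 hw
        have h3 := (mem_ppK.1 h1).2
        rw [if_neg h2, if_pos h3]
      · intro w hw hnw
        by_cases h1 : w.minFac = z.minFac
        · simp [h1]
        · have : ¬ w ≤ v := by
            intro h2
            exact hnw (Finset.mem_filter.2 ⟨mem_ppK.2 ⟨(mem_ppK.1 hw).1, h2⟩, h1⟩)
          simp [h1, this]
    linarith
  have hkap : ∑ w ∈ Kd, (1 - S' w) * (Real.log w / w) = kapv z x Y v := by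
    unfold kapv
    apply Finset.sum_congr rfl
    intro w hw
    congr 1
    simp only [hS', if_pos hw]
    split_ifs <;> ring
  -- the near bound
  set tt' : ℝ → ℝ := fun s => 1 - Real.exp (-(s * N)) with htt
  have hrpow : ∀ s : ℝ, ((z : ℝ) * v) ^ (-s) = Real.exp (-(2 * (s * N))) := by
    intro s
    rw [Real.rpow_def_of_pos (by linarith), ← h2N]
    congr 1; ring
  set C0 := 2 * N * Real.exp (0.4575 - M) with hC0
  have hC00 : 0 < C0 := by positivity
  have hNB : ∀ VS' : Finset ℕ, (∀ w ∈ VS', IsPrimePow w ∧ v < w ∧ w.minFac ≠ z.minFac) →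
      ∀ s : ℝ, 0 ≤ s → Real.exp (XX VS' (Sx x) (fun w : ℕ => (w : ℝ)) s)
        * (1 - ((z : ℝ) * v) ^ (-s)) ≤ C0 * Real.exp (A * tt' s - B * tt' s ^ 2) := by
    intro VS' hVS' s hs
    have h := NB_bound VS' Kd (Sx x) S' N E1 E2 (A' * N) (A * N) n X s hs
      (fun w hw => (hVS' w hw).1) (fun w hw => (mem_ppK.1 hw).1)
      (by
        intro w hw
        obtain ⟨h1, h2, h3⟩ := hVS' w hw
        simp only [hS']
        by_cases hK : w ∈ Kd
        · rw [if_pos hK, if_neg (by push Not; exact ⟨h2, h3⟩)]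
        · rw [if_neg hK]; exact Sx_le_one x w)
      (by
        intro w
        simp only [hS']
        split_ifs
        · exact le_rfl
        · exact Sx_nonneg x w
        · exact zero_le_one)
      (by
        intro w
        simp only [hS']
        split_ifs
        · exact zero_le_one
        · exact Sx_le_one x w
        · exact le_rfl)
      (by
        intro w hw
        simp only [hS']
        rw [if_neg hw]) hN0 hnN hnN' hNX hE1 hE2
      (by rw [hkap]; linarith) (by rw [hkap]; linarith)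
      (mul_le_mul_of_nonneg_right hAA' hN0.le)
    rw [hrpow]
    refine h.trans ?_
    have e1 : A * N / N = A := by field_simp
    have e2 : (A' * N - A * N) * ca (Real.log X / N) / N = (A' - A) * ca (Real.log X / N) := by
      field_simp
    rw [e1, e2, hC0, mul_assoc (2 * N), ← Real.exp_add]
    apply mul_le_mul_of_nonneg_left _ (by positivity)
    apply Real.exp_le_exp.2
    have ht2 : 0 ≤ (1 - Real.exp (-(s * N))) ^ 2 := sq_nonneg _
    simp only [htt]
    have := mul_le_mul_of_nonneg_right hB ht2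
    rw [← hM]
    nlinarith
  have ht : ∀ s : ℝ, 0 ≤ s → 0 ≤ tt' s ∧ tt' s < 1 := by
    intro s hs
    simp only [htt]
    have h1 := Real.exp_pos (-(s * N))
    have h2 : Real.exp (-(s * N)) ≤ 1 := Real.exp_le_one_iff.2 (by nlinarith)
    constructor <;> linarith
  have hlim : 1 ≤ C0 * Real.exp (A - B) := by
    have hval : ∀ s : ℝ, 0 ≤ s → 1 - Real.exp (-(2 * (s * N))) ≤ C0 * Real.exp (A * tt' s - B * tt' s ^ 2) := by
      intro s hs
      have h := hNB ∅ (by simp) s hs
      rw [hrpow] at h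
      simp only [XX, Finset.sum_empty, Real.exp_zero, one_mul] at h
      exact h
    have hsN : Tendsto (fun s : ℝ => s * N) atTop atTop := tendsto_id.atTop_mul_const hN0
    have h1 : Tendsto tt' atTop (𝓝 1) := by
      have : Tendsto (fun s : ℝ => Real.exp (-(s * N))) atTop (𝓝 0) :=
        Real.tendsto_exp_neg_atTop_nhds_zero.comp hsN
      simpa [htt] using this.const_sub 1
    have h2 : Tendsto (fun s : ℝ => 1 - Real.exp (-(2 * (s * N)))) atTop (𝓝 1) := by
      have h3 : Tendsto (fun s : ℝ => 2 * (s * N)) atTop atTop :=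
        hsN.const_mul_atTop (by norm_num)
      have : Tendsto (fun s : ℝ => Real.exp (-(2 * (s * N)))) atTop (𝓝 0) :=
        Real.tendsto_exp_neg_atTop_nhds_zero.comp h3
      simpa using this.const_sub 1
    have h3 : Tendsto (fun s : ℝ => C0 * Real.exp (A * tt' s - B * tt' s ^ 2)) atTop
        (𝓝 (C0 * Real.exp (A - B))) := by
      have h4 : Tendsto (fun s : ℝ => A * tt' s - B * tt' s ^ 2) atTop (𝓝 (A * 1 - B * 1 ^ 2)) :=
        (h1.const_mul A).sub ((h1.pow 2).const_mul B)
      have e : A * 1 - B * 1 ^ 2 = A - B := by ring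
      rw [e] at h4
      exact ((Real.continuous_exp.tendsto _).comp h4).const_mul C0
    refine le_of_tendsto_of_tendsto h2 h3 ?_
    filter_upwards [eventually_ge_atTop (0:ℝ)] with s hs
    exact hval s hs
  -- final constant
  have hcomb : ∀ t : ℝ, 0 ≤ t → t ≤ 1 → C0 * Real.exp (A * t - B * t ^ 2)
      + C0 * Real.exp eK * ((Real.exp ω - 1) * t) ≤ C0 * Real.exp e := by
    intro t ht0 ht1
    have hew : 0 ≤ Real.exp ω - 1 := by linarith [Real.add_one_le_exp ω]
    have h1 : Real.exp eK ≤ Real.exp (A * t - B * t ^ 2) * Real.exp (eK + B) := by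
      rw [← Real.exp_add]
      apply Real.exp_le_exp.2
      have : B * t ^ 2 ≤ B := by
        have : t ^ 2 ≤ 1 := by nlinarith
        nlinarith
      nlinarith [mul_nonneg hA0 ht0]
    have h2 : Real.exp eK * ((Real.exp ω - 1) * t) ≤ Real.exp (A * t - B * t ^ 2) * (w2 * t) := by
      calc Real.exp eK * ((Real.exp ω - 1) * t)
          ≤ Real.exp (A * t - B * t ^ 2) * Real.exp (eK + B) * ((Real.exp ω - 1) * t) :=
            mul_le_mul_of_nonneg_right h1 (mul_nonneg hew ht0)
        _ = Real.exp (A * t - B * t ^ 2) * (((Real.exp ω - 1) * Real.exp (eK + B)) * t) := by ring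
        _ ≤ Real.exp (A * t - B * t ^ 2) * (w2 * t) := by
            apply mul_le_mul_of_nonneg_left _ (Real.exp_pos _).le
            exact mul_le_mul_of_nonneg_right hw2 ht0
    have h3 : Real.exp (A * t - B * t ^ 2) + Real.exp eK * ((Real.exp ω - 1) * t) ≤ Real.exp e := by
      calc _ ≤ Real.exp (A * t - B * t ^ 2) * (1 + w2 * t) := by linarith
        _ ≤ Real.exp (A * t - B * t ^ 2) * Real.exp (w2 * t) := by
            apply mul_le_mul_of_nonneg_left _ (Real.exp_pos _).le
            linarith [Real.add_one_le_exp (w2 * t)]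
        _ = Real.exp ((A + w2) * t - B * t ^ 2) := by
            rw [← Real.exp_add]; congr 1; ring
        _ ≤ _ := Real.exp_le_exp.2 (he t ht0 ht1)
    nlinarith
  have hVS3 : ∀ w ∈ VS, IsPrimePow w ∧ v < w ∧ w.minFac ≠ z.minFac := fun w hw =>
    ⟨(hVS w hw).1, (hVS w hw).2.1, (hVS w hw).2.2.1⟩
  have hval : ∀ w ∈ VS, (1 : ℝ) < ((w : ℕ) : ℝ) := fun w hw => by
    exact_mod_cast (hVS w hw).1.one_lt
  have hSw : ∀ r, ∑ w ∈ VS.filter (fun w => w.minFac = r), Sx x w / (w : ℝ) ≤ ω := by
    intro r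
    refine le_trans ?_ (hω VS hVS r)
    apply Finset.sum_le_sum
    intro w hw
    have h0 : 0 ≤ Sx x w / (w : ℝ) := div_nonneg (Sx_nonneg x w) (Nat.cast_nonneg w)
    calc _ = Sx x w / (w : ℝ) * 1 := by ring
      _ ≤ _ := mul_le_mul_of_nonneg_left (le_max_left _ _) h0
  have hK : ∀ s : ℝ, 0 ≤ s → Real.exp (XX VS (Sx x) (fun w : ℕ => (w : ℝ)) s)
      * (1 - ((z : ℝ) * v) ^ (-s)) ≤ C0 * Real.exp eK := by
    intro s hs
    refine (hNB VS hVS3 s hs).trans ?_
    apply mul_le_mul_of_nonneg_left _ hC00.le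
    exact Real.exp_le_exp.2 (heK _ (ht s hs).1 (ht s hs).2.le)
  have hkap' : Kap Nat.minFac VS (Sx x) (fun w : ℕ => (w : ℝ)) ((z : ℝ) * v) (C0 * Real.exp e) := by
    intro D hD hDV
    apply kappa_bound Nat.minFac VS (Sx x) (fun w : ℕ => (w : ℝ)) (fun w _ => Sx_nonneg x w) hval
      ((z : ℝ) * v) hzv1 (C0 * Real.exp eK) (C0 * Real.exp e) ω (fun s => ω * tt' s) hω0
      (fun s hs => mul_nonneg hω0 (ht s hs).1) hSw hω2 hK
    · intro s hs r
      obtain ⟨t0, t1⟩ := ht s hs
      calc ∑ w ∈ VS.filter (fun w => w.minFac = r), Sx x w / (w : ℝ) * (1 - (w : ℝ) ^ (-s))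
          ≤ ∑ w ∈ VS.filter (fun w => w.minFac = r), (Sx x w / (w : ℝ)
            * max 1 (Real.log w / N)) * tt' s := by
            apply Finset.sum_le_sum
            intro w hw
            have hwV := (Finset.mem_filter.1 hw).1
            have hw1 := hval w hwV
            have hlw : 0 ≤ Real.log w / N := div_nonneg (Real.log_nonneg hw1.le) hN0.le
            have h0 : 0 ≤ Sx x w / (w : ℝ) := div_nonneg (Sx_nonneg x w) (Nat.cast_nonneg w)
            have e1 : (w : ℝ) ^ (-s) = (1 - tt' s) ^ (Real.log w / N) := by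
              have : 1 - tt' s = Real.exp (-(s * N)) := by simp only [htt]; ring
              rw [this, ← Real.exp_mul, Real.rpow_def_of_pos (by linarith)]
              congr 1
              field_simp
            rw [e1, mul_assoc]
            exact mul_le_mul_of_nonneg_left (bern_aux t0 t1 hlw) h0
        _ = (∑ w ∈ VS.filter (fun w => w.minFac = r), Sx x w / (w : ℝ)
            * max 1 (Real.log w / N)) * tt' s := by rw [Finset.sum_mul]
        _ ≤ ω * tt' s := mul_le_mul_of_nonneg_right (hω VS hVS r) t0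
    · intro s hs
      obtain ⟨t0, t1⟩ := ht s hs
      have h1 := hNB VS hVS3 s hs
      have h2 := exp_mul_sub_one_le (w := ω) t0 t1.le
      have h3 : C0 * Real.exp eK * (Real.exp (ω * tt' s) - 1)
          ≤ C0 * Real.exp eK * ((Real.exp ω - 1) * tt' s) :=
        mul_le_mul_of_nonneg_left h2 (by positivity)
      have h4 := hcomb (tt' s) t0 t1.le
      linarith
    · have h4 := hcomb 1 zero_le_one le_rfl
      have e1 : A * 1 - B * 1 ^ 2 = A - B := by ring
      rw [e1, mul_one] at h4
      linarith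
    · exact hD
    · exact hDV
  apply Kap.mono (fun w _ => Sx_nonneg x w) hval hzv1 hkap' subset_rfl
  rw [hC0, h2N, mul_assoc, ← Real.exp_add]
  apply mul_le_mul_of_nonneg_left _ hL.le
  apply Real.exp_le_exp.2
  linarith

end Pool.Agent.EZ
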