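import Pool.Agent.EZ.EngExpB
import Pool.Agent.EZ.NBTable
import Pool.Agent.EZ.NBR

/-!
# Engine: module CELL
-/

set_option autoImplicit false
set_option linter.unusedSectionVars false
set_option linter.unusedVariables false

namespace Pool.Agent.EZ

open Finset CellAux

/-! ### logarithms -/

theorem log_two_upper : Real.log 2 ≤ 0.69314718056 := by
  have t : |(2⁻¹ : ℝ)| = 2⁻¹ := by rw [abs_of_pos]; norm_num
  have z := Real.abs_log_sub_add_sum_range_le (show |(2⁻¹ : ℝ)| < 1 by rw [t]; norm_num) 46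
  rw [t] at z
  have e : Real.log (1 - (2⁻¹ : ℝ)) = - Real.log 2 := by
    rw [← Real.log_inv]; norm_num
  rw [e] at z
  have h := (abs_le.1 z).1
  simp only [Finset.sum_range_succ, Finset.sum_range_zero] at h
  norm_num at h
  norm_num
  linarith

theorem log32_le : (S9 : ℝ) * Real.log ((32 : ℕ) : ℝ) ≤ ((3465735903 : ℕ) : ℝ) := by
  have h := log_two_upper
  have e : Real.log ((32 : ℕ) : ℝ) = 5 * Real.log 2 := by
    have : ((32 : ℕ) : ℝ) = 2 ^ 5 := by norm_num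
    rw [this, Real.log_pow]; norm_num
  rw [e, S9_eq]
  push_cast
  linarith

theorem log64_le : (S9 : ℝ) * Real.log ((64 : ℕ) : ℝ) ≤ ((4158883084 : ℕ) : ℝ) := by
  have h := log_two_upper
  have e : Real.log ((64 : ℕ) : ℝ) = 6 * Real.log 2 := by
    have : ((64 : ℕ) : ℝ) = 2 ^ 6 := by norm_num
    rw [this, Real.log_pow]; norm_num
  rw [e, S9_eq]
  push_cast
  linarith

theorem log127_le : (S9 : ℝ) * Real.log ((127 : ℕ) : ℝ) ≤ ((4844187087 : ℕ) : ℝ) := by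
  have h := log_two_upper
  have h1 := Real.sum_range_le_log_div (x := 1 / 255) (by norm_num) (by norm_num) 2
  have e2 : ((1 : ℝ) + 1 / 255) / (1 - 1 / 255) = 128 / 127 := by norm_num
  rw [e2, Real.log_div (by norm_num) (by norm_num)] at h1
  have e : Real.log (128 : ℝ) = 7 * Real.log 2 := by
    have : (128 : ℝ) = 2 ^ 7 := by norm_num
    rw [this, Real.log_pow]; norm_num
  rw [e] at h1
  simp only [Finset.sum_range_succ, Finset.sum_range_zero] at h1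
  rw [S9_eq]
  push_cast at h1 ⊢
  norm_num at h1 ⊢
  linarith

/-! ### tables -/

theorem tabT0_dec : ∀ n ∈ Icc 1 127, (∀ m ∈ Ico n 128, dig T0 n ≤ eeT m) ∧ dig T0 n ≤ 14209 := by
  decide +kernel

theorem tabT32_dec : ∀ n ∈ Icc 1 127, ∀ m ∈ Ico n 32, dig T32 n ≤ eeT m := by
  decide +kernel

theorem tabT64_dec : ∀ n ∈ Icc 1 127, ∀ m ∈ Ico n 64, dig T64 n ≤ eeT m := by
  decide +kernel

theorem tabT127_dec : ∀ n ∈ Icc 1 127, ∀ m ∈ Ico n 127, dig T127 n ≤ eeT m := by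
  decide +kernel

theorem ee32 : ∀ m, 32 ≤ m → 11798 ≤ eeT m := fun m hm =>
  ee_ge 32 11798 (by norm_num) (by decide +kernel) m hm

theorem ee64 : ∀ m, 64 ≤ m → 13045 ≤ eeT m := fun m hm =>
  ee_ge 64 13045 (by norm_num) (by decide +kernel) m hm

theorem ee127 : ∀ m, 127 ≤ m → 14209 ≤ eeT m := fun m hm =>
  ee_ge 127 14209 (by norm_num) (by decide +kernel) m hm

/-! ### square root -/

theorem sq_aux (t n s : ℕ) (hn : n * n ≤ t) :
    (cond (Nat.ble (Nat.mul (Nat.add n s) (Nat.add n s)) t) (Nat.add n s) n) *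
      (cond (Nat.ble (Nat.mul (Nat.add n s) (Nat.add n s)) t) (Nat.add n s) n) ≤ t ∧
    (cond (Nat.ble (Nat.mul (Nat.add n s) (Nat.add n s)) t) (Nat.add n s) n) ≤ n + s ∧
    n ≤ (cond (Nat.ble (Nat.mul (Nat.add n s) (Nat.add n s)) t) (Nat.add n s) n) := by
  cases h : Nat.ble (Nat.mul (Nat.add n s) (Nat.add n s)) t
  · simp only [cond_false]
    exact ⟨hn, Nat.le_add_right _ _, le_rfl⟩
  · simp only [cond_true]
    exact ⟨Nat.le_of_ble_eq_true h, le_rfl, Nat.le_add_right _ _⟩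

theorem sq7_spec (t : ℕ) (k : ℕ → Bool) (h : sq7K t k = true) :
    ∃ n, k n = true ∧ n * n ≤ t ∧ n ≤ 127 ∧ (0 < t → 1 ≤ n) := by
  unfold sq7K at h
  simp only [frc_eq] at h
  set n0 := cond (Nat.ble 4096 t) 64 0 with hn0
  have h0 : n0 * n0 ≤ t ∧ n0 ≤ 64 := by
    rw [hn0]
    cases hh : Nat.ble 4096 t
    · simp
    · simp only [cond_true]
      exact ⟨by have := Nat.le_of_ble_eq_true hh; omega, le_rfl⟩
  have a1 := sq_aux t n0 32 h0.1
  set n1 := cond (Nat.ble (Nat.mul (Nat.add n0 32) (Nat.add n0 32)) t) (Nat.add n0 32) n0 with hn1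
  have a2 := sq_aux t n1 16 a1.1
  set n2 := cond (Nat.ble (Nat.mul (Nat.add n1 16) (Nat.add n1 16)) t) (Nat.add n1 16) n1 with hn2
  have a3 := sq_aux t n2 8 a2.1
  set n3 := cond (Nat.ble (Nat.mul (Nat.add n2 8) (Nat.add n2 8)) t) (Nat.add n2 8) n2 with hn3
  have a4 := sq_aux t n3 4 a3.1
  set n4 := cond (Nat.ble (Nat.mul (Nat.add n3 4) (Nat.add n3 4)) t) (Nat.add n3 4) n3 with hn4
  have a5 := sq_aux t n4 2 a4.1
  set n5 := cond (Nat.ble (Nat.mul (Nat.add n4 2) (Nat.add n4 2)) t) (Nat.add n4 2) n4 with hn5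
  have a6 := sq_aux t n5 1 a5.1
  set n6 := cond (Nat.ble (Nat.mul (Nat.add n5 1) (Nat.add n5 1)) t) (Nat.add n5 1) n5 with hn6
  refine ⟨n6, h, a6.1, by omega, ?_⟩
  intro ht
  by_contra hlt
  have h60 : n6 = 0 := by omega
  have h50 : n5 = 0 := by omega
  rw [h50] at hn6
  have hb : Nat.ble (Nat.mul (Nat.add 0 1) (Nat.add 0 1)) t = true :=
    Nat.ble_eq_true_of_le (by show 1 * 1 ≤ t; omega)
  rw [hb, cond_true] at hn6
  rw [h60] at hn6
  exact absurd hn6 (by decide)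

theorem S9_posN : 0 < S9 := by unfold S9; norm_num

theorem div_S9_nonneg (a : ℕ) : (0 : ℝ) ≤ (a : ℝ) / S9 :=
  div_nonneg (Nat.cast_nonneg _) S9_pos.le

theorem pos_of_NL {N : ℕ} {L : ℝ} (hN : 0 < N) (hL : (N : ℝ) ≤ (S9 : ℝ) * L) : 0 < L := by
  have hN' : (0 : ℝ) < N := by exact_mod_cast hN
  exact pos_of_mul_pos_right (lt_of_lt_of_le hN' hL) S9_pos.le

/-! ### one candidate -/

/-- what `cell1K` guarantees -/
def C1OK (A B t e : ℕ) : Prop := e ≤ 2000000000 → ∃ eK w2 : ℝ,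
  (∀ s : ℝ, 0 ≤ s → s ≤ 1 → (A : ℝ) / S9 * s - (B : ℝ) / S9 * s ^ 2 ≤ eK) ∧
  (∀ E : ℝ, E ≤ (t : ℝ) / S9 → 1 ≤ E → (E - 1) * Real.exp (eK + (B : ℝ) / S9) ≤ w2) ∧
  (∀ s : ℝ, 0 ≤ s → s ≤ 1 → ((A : ℝ) / S9 + w2) * s - (B : ℝ) / S9 * s ^ 2 ≤ (e : ℝ) / S9)

theorem cell1_spec (A B t : ℕ) (hB : 0 < B) (k : ℕ → Bool) (h : cell1K A B t k = true) :
    ∃ e, k e = true ∧ C1OK A B t e := by
  unfold cell1K at h
  simp only [frc_eq] at h
  set y := Nat.add (quad A B) B with hy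
  have hS := S9_pos
  cases hb : Nat.ble y 2000000000
  · rw [hb, cond_false] at h
    exact ⟨BAD, h, fun hh => absurd hh (by decide)⟩
  · rw [hb, cond_true] at h
    obtain ⟨u, hu, hu2⟩ := Exp1 y _ h
    have hy2 := hu2 (Nat.le_of_ble_eq_true hb)
    refine ⟨_, hu, ?_⟩
    intro _
    set w := cdv (Nat.mul (Nat.sub t S9) u) S9 with hw
    refine ⟨(quad A B : ℝ) / S9, (w : ℝ) / S9, ?_, ?_, ?_⟩
    · intro s h0 h1
      exact Exp2 A B hB s h0 h1
    · intro E hE hE1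
      have e1 : (quad A B : ℝ) / S9 + (B : ℝ) / S9 = (y : ℝ) / S9 := by
        have : y = quad A B + B := rfl
        rw [this]; push_cast; ring
      rw [e1]
      have e2 : E - 1 ≤ ((Nat.sub t S9 : ℕ) : ℝ) / S9 := by
        have h3 : (t : ℝ) - S9 ≤ ((Nat.sub t S9 : ℕ) : ℝ) := by
          have : t ≤ Nat.sub t S9 + S9 := by
            have : Nat.sub t S9 = t - S9 := rfl
            omega
          have : (t : ℝ) ≤ ((Nat.sub t S9 : ℕ) : ℝ) + S9 := by exact_mod_cast this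
          linarith
        have h4 : (t : ℝ) / S9 - 1 = ((t : ℝ) - S9) / S9 := by field_simp
        calc E - 1 ≤ (t : ℝ) / S9 - 1 := by linarith
          _ = ((t : ℝ) - S9) / S9 := h4
          _ ≤ _ := div_le_div_of_nonneg_right h3 hS.le
      have h5 := le_cdv (Nat.mul (Nat.sub t S9) u) S9 (by unfold S9; norm_num)
      rw [← hw] at h5
      calc (E - 1) * Real.exp ((y : ℝ) / S9)
          ≤ ((Nat.sub t S9 : ℕ) : ℝ) / S9 * ((u : ℝ) / S9) :=
            mul_le_mul e2 hy2 (Real.exp_pos _).le (div_S9_nonneg _)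
        _ = ((Nat.mul (Nat.sub t S9) u : ℕ) : ℝ) / S9 / S9 := by
            have e3 : ((Nat.mul (Nat.sub t S9) u : ℕ) : ℝ) = ((Nat.sub t S9 : ℕ) : ℝ) * u :=
              Nat.cast_mul _ _
            rw [e3, div_mul_div_comm, div_div]
        _ ≤ _ := div_le_div_of_nonneg_right h5 hS.le
    · intro s h0 h1
      have := Exp2 (A + w) B hB s h0 h1
      refine le_trans (le_of_eq ?_) this
      push_cast
      ring

/-! ### the parameter A -/

theorem AofE_spec {K N em : ℕ} {kp L : ℝ} (hN : 0 < N) (hL : (N : ℝ) ≤ (S9 : ℝ) * L)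
    (hk : kp ≤ (K : ℝ) / S9) :
    kp + (1 - (em : ℝ) / 10000) ≤ (1 + (AofE K N em : ℝ) / S9) * L := by
  have hS := S9_pos
  have hN' : (0 : ℝ) < N := by exact_mod_cast hN
  set M := Nat.sub (Nat.add K S9) (Nat.mul 100000 em) with hM
  set q := cdv (Nat.mul M S9) N with hq
  have h1 : (S9 : ℝ) * (kp + (1 - (em : ℝ) / 10000)) ≤ (M : ℝ) := by
    have h2 : K + S9 ≤ M + 100000 * em := by
      simp only [Nat.sub_eq, Nat.add_eq, Nat.mul_eq] at hM
      rw [hM]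
      exact Nat.sub_le_iff_le_add.1 le_rfl
    have h3 : (K : ℝ) + S9 ≤ (M : ℝ) + 100000 * em := by exact_mod_cast h2
    have h4 : (S9 : ℝ) * kp ≤ K := by
      rw [le_div_iff₀ hS] at hk
      linarith
    rw [S9_eq] at h3 h4 ⊢
    linarith
  have h5 := le_cdv (Nat.mul M S9) N hN
  rw [← hq] at h5
  have h6 : (M : ℝ) * S9 / N ≤ q := by
    refine le_trans (le_of_eq ?_) h5
    have : Nat.mul M S9 = M * S9 := rfl
    rw [this]; push_cast; rfl
  have h7 : (q : ℝ) ≤ (AofE K N em : ℝ) + S9 := by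
    have : q ≤ AofE K N em + S9 := by
      have : AofE K N em = q - S9 := rfl
      omega
    exact_mod_cast this
  have h8 : (M : ℝ) * S9 ≤ ((AofE K N em : ℝ) + S9) * N := by
    rw [div_le_iff₀ hN'] at h6
    nlinarith
  have hA0 : (0 : ℝ) ≤ (AofE K N em : ℝ) + S9 := add_nonneg (Nat.cast_nonneg _) hS.le
  have h9 : (M : ℝ) * S9 ≤ ((AofE K N em : ℝ) + S9) * (S9 * L) :=
    h8.trans (mul_le_mul_of_nonneg_left hL hA0)
  have h10 : (M : ℝ) ≤ ((AofE K N em : ℝ) + S9) * L := by nlinarith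
  have h11 : (1 + (AofE K N em : ℝ) / S9) * L = ((AofE K N em : ℝ) + S9) * L / S9 := by
    field_simp
    ring
  rw [h11, le_div_iff₀ hS]
  nlinarith

/-! ### the goal -/

/-- the conclusion of CELL for one value of `e`. -/
def CGood (zv zvhi N K Oc e : ℕ) : Prop := e ≤ 2000000000 → ∀ z x X1 v : ℕ, IsPrimePow z →
    IsPrimePow v → v.minFac ≠ z.minFac →
    (∀ w, IsPrimePow w → X1 < w → w.minFac ≠ z.minFac → Sx x w = 1) →
    0 < zv → zv ≤ z * v → z * v ≤ zvhi → 0 < N →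
    (N : ℝ) ≤ (S9 : ℝ) * (Real.log ((z : ℝ) * v) / 2) →
    kapv z x (max X1 v) v ≤ (K : ℝ) / S9 → OcOK z x v ((Oc : ℝ) / S9) →
    CellOK z x X1 v ((e : ℝ) / S9)

theorem omega_ok {z x v N Oc om : ℕ} (hz : IsPrimePow z) (hv : IsPrimePow v) (hN : 0 < N)
    (hL : (N : ℝ) ≤ (S9 : ℝ) * (Real.log ((z : ℝ) * v) / 2)) (hOc : OcOK z x v ((Oc : ℝ) / S9))
    (hom : om = cdv (Nat.mul Oc S9) N) :
    ∀ VS : Finset ℕ, (∀ w ∈ VS, IsPrimePow w ∧ v < w ∧ w.minFac ≠ z.minFac ∧ w.minFac ≠ v.minFac) →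
    ∀ r, ∑ w ∈ VS.filter (fun w => w.minFac = r), Sx x w / (w : ℝ)
      * max 1 (Real.log w / (Real.log ((z : ℝ) * v) / 2)) ≤ (om : ℝ) / S9 := by
  intro VS hVS r
  have hS := S9_pos
  have hN' : (0 : ℝ) < N := by exact_mod_cast hN
  set L := Real.log ((z : ℝ) * v) / 2 with hLdef
  have hL0 : 0 < L := pos_of_NL hN hL
  have hz1 : (1 : ℝ) < z := by exact_mod_cast hz.one_lt
  have hv1 : (1 : ℝ) < v := by exact_mod_cast hv.one_lt
  have hsplit : 2 * L = Real.log z + Real.log v := by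
    rw [hLdef, Real.log_mul (by linarith) (by linarith)]; ring
  have h1 := hOc VS (fun w hw => ⟨(hVS w hw).1, (hVS w hw).2.1, (hVS w hw).2.2.1⟩) r
  have h2 : ∑ w ∈ VS.filter (fun w => w.minFac = r), Sx x w / (w : ℝ) * max 1 (Real.log w / L)
      ≤ ∑ w ∈ VS.filter (fun w => w.minFac = r),
        (Sx x w / (w : ℝ) * max (Real.log z) (Real.log w)) * (1 / L) := by
    apply Finset.sum_le_sum
    intro w hw
    have hw' := hVS w (Finset.mem_filter.1 hw).1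
    have hvw : (v : ℝ) < w := by exact_mod_cast hw'.2.1
    have hlog : Real.log v ≤ Real.log w := Real.log_le_log (by linarith) hvw.le
    rw [mul_assoc]
    apply mul_le_mul_of_nonneg_left _ (div_nonneg (Sx_nonneg _ _) (Nat.cast_nonneg _))
    rw [mul_one_div]
    apply max_le
    · rw [one_le_div hL0]
      rcases le_total (Real.log z) (Real.log v) with h | h
      · exact le_trans (by linarith) (le_max_right _ _)
      · exact le_trans (by linarith) (le_max_left _ _)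
    · exact div_le_div_of_nonneg_right (le_max_right _ _) hL0.le
  refine h2.trans ?_
  rw [← Finset.sum_mul]
  have h3 : (∑ w ∈ VS.filter (fun w => w.minFac = r),
      (Sx x w / (w : ℝ) * max (Real.log z) (Real.log w))) * (1 / L) ≤ (Oc : ℝ) / S9 * (1 / L) :=
    mul_le_mul_of_nonneg_right h1 (by positivity)
  refine h3.trans ?_
  have h4 := le_cdv (Nat.mul Oc S9) N hN
  rw [← hom] at h4
  have e1 : Nat.mul Oc S9 = Oc * S9 := rfl
  rw [e1] at h4
  push_cast at h4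
  calc (Oc : ℝ) / S9 * (1 / L) = (Oc : ℝ) / (S9 * L) := by field_simp
    _ ≤ (Oc : ℝ) / N := by
        apply div_le_div_of_nonneg_left (by positivity) hN' hL
    _ = (Oc : ℝ) * S9 / N / S9 := by field_simp
    _ ≤ _ := div_le_div_of_nonneg_right h4 hS.le

/-- facts on `nv = sqrt (z v)`. -/
theorem nv_facts {zv n m : ℕ} (hn : n * n ≤ zv) (hm : zv ≤ m) (h1 : 1 ≤ n) :
    1 ≤ Nat.sqrt m ∧ (Nat.sqrt m) ^ 2 ≤ m ∧ m ≤ (Nat.sqrt m + 1) ^ 2 ∧ n ≤ Nat.sqrt m := by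
  have h2 : n ≤ Nat.sqrt m := Nat.le_sqrt.2 (hn.trans hm)
  refine ⟨h1.trans h2, ?_, ?_, h2⟩
  · rw [pow_two]; exact Nat.sqrt_le m
  · have h3 := Nat.lt_succ_sqrt m
    rw [pow_two]; exact h3.le

theorem base_good (hNBR : Stmt_NBR) {zv zvhi N K Oc n om t e : ℕ} (hn : n * n ≤ zv)
    (hn127 : n ≤ 127) (hn1 : 0 < zv → 1 ≤ n) (hom : om = cdv (Nat.mul Oc S9) N)
    (ht : Real.exp ((om : ℝ) / S9) ≤ (t : ℝ) / S9) (ht2 : t ≤ 2000000000)
    (he : C1OK (AofE K N (dig T0 n)) 83333333 t e) : CGood zv zvhi N K Oc e := by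
  intro he2 z x X1 v hz hv hvz hS1 hzv hzv1 hzv2 hN hL hk hOc
  obtain ⟨eK, w2, c1, c2, c3⟩ := he he2
  have hS := S9_pos
  obtain ⟨f1, f2, f3, f4⟩ := nv_facts hn hzv1 (hn1 hzv)
  have hom0 : (0 : ℝ) ≤ (om : ℝ) / S9 := div_S9_nonneg _
  have ht2' : (t : ℝ) / S9 ≤ 2 := by
    rw [div_le_iff₀ hS, S9_eq]
    have : (t : ℝ) ≤ 2000000000 := by exact_mod_cast ht2
    linarith
  have hT := tabT0_dec n (mem_Icc.2 ⟨hn1 hzv, hn127⟩)
  have hE : ∀ m, Nat.sqrt (z * v) ≤ m →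
      Real.log ((m : ℝ) + 1) - A1 m ≤ 1 - (dig T0 n : ℝ) / 10000 := by
    intro m hm
    exact E_of n (dig T0 n) (hn1 hzv) hT.2 hT.1 m (f4.trans hm)
  have hA := AofE_spec (em := dig T0 n) hN hL hk
  exact hNBR z x X1 v (Nat.sqrt (z * v) + 1) (Nat.sqrt (z * v)) (1 - (dig T0 n : ℝ) / 10000)
    (1 - (dig T0 n : ℝ) / 10000) ((AofE K N (dig T0 n) : ℝ) / S9) ((AofE K N (dig T0 n) : ℝ) / S9)
    ((83333333 : ℕ) / S9) ((om : ℝ) / S9) eK w2 ((e : ℝ) / S9) hz hv hvz hS1 f1 f2 f3 f3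
    (fun m hm _ => hE m hm) (fun m hm => hE m (by omega)) hA hA (div_S9_nonneg _) le_rfl
    (div_pos (by norm_num) hS) (by rw [sub_self, zero_mul, S9_eq]; norm_num) hom0 (ht.trans ht2')
    (omega_ok hz hv hN hL hOc hom) c1 (c2 _ ht (Real.one_le_exp hom0)) c3

theorem ca_mono {a b : ℝ} (ha : 0 < a) (hab : a ≤ b) : ca a ≤ ca b := by
  unfold ca
  split_ifs with h1 h2 h2
  · rw [div_le_div_iff₀ ha (by linarith)]
    nlinarith
  · have h3 : (a - 1) / a ≤ 1 / 2 := by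
      rw [div_le_div_iff₀ ha (by norm_num)]
      linarith
    linarith
  · exact absurd (hab.trans h2) h1
  · linarith

theorem can_ok {N LX : ℕ} {lX L : ℝ} (hN : 0 < N) (hL : (N : ℝ) ≤ (S9 : ℝ) * L)
    (hLX : (S9 : ℝ) * lX ≤ (LX : ℝ)) (hlX : 0 < lX) :
    ca (lX / L) ≤ ((cond (Nat.ble LX (Nat.mul 2 N)) (Nat.sub S9 (Nat.div (Nat.mul N S9) LX))
        (cdv (Nat.mul (Nat.sub LX N) S9) (Nat.mul 2 N)) : ℕ) : ℝ) / S9 := by
  have hS := S9_pos
  have hN' : (0 : ℝ) < N := by exact_mod_cast hN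
  have hL0 : 0 < L := pos_of_NL hN hL
  have hLX0 : (0 : ℝ) < LX := lt_of_lt_of_le (mul_pos hS hlX) hLX
  have hLXn : 0 < LX := by exact_mod_cast hLX0
  have hab : lX / L ≤ (LX : ℝ) / N := by
    rw [div_le_div_iff₀ hL0 hN']
    have h1 := mul_le_mul hLX hL hN'.le hLX0.le
    have h2 : (S9 : ℝ) * (lX * N) ≤ (S9 : ℝ) * (LX * L) := by nlinarith
    exact le_of_mul_le_mul_left h2 hS
  refine (ca_mono (div_pos hlX hL0) hab).trans ?_
  unfold ca
  cases hb : Nat.ble LX (Nat.mul 2 N)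
  · have h2 : 2 * N < LX := by
      by_contra h
      have : Nat.ble LX (Nat.mul 2 N) = true := Nat.ble_eq_true_of_le (by
        show LX ≤ 2 * N; omega)
      rw [this] at hb; exact absurd hb (by decide)
    have h2' : (2 : ℝ) * N < LX := by exact_mod_cast h2
    rw [if_neg (by rw [div_le_iff₀ hN']; linarith), cond_false]
    have h3 := le_cdv (Nat.mul (Nat.sub LX N) S9) (Nat.mul 2 N) (by show 0 < 2 * N; omega)
    have e1 : ((Nat.mul (Nat.sub LX N) S9 : ℕ) : ℝ) = ((LX : ℝ) - N) * S9 := by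
      have : Nat.mul (Nat.sub LX N) S9 = (LX - N) * S9 := rfl
      rw [this, Nat.cast_mul, Nat.cast_sub (by omega)]
    have e2 : ((Nat.mul 2 N : ℕ) : ℝ) = 2 * (N : ℝ) := by
      have : Nat.mul 2 N = 2 * N := rfl
      rw [this, Nat.cast_mul]; norm_num
    rw [e1, e2] at h3
    refine le_trans (le_of_eq ?_) (div_le_div_of_nonneg_right h3 hS.le)
    have hS' := hS.ne'
    have hN'' := hN'.ne'
    generalize (S9 : ℝ) = T at hS' ⊢
    field_simp
  · have h2 : LX ≤ 2 * N := Nat.le_of_ble_eq_true hb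
    have h2' : (LX : ℝ) ≤ 2 * N := by exact_mod_cast h2
    rw [if_pos (by rw [div_le_iff₀ hN']; linarith), cond_true, le_div_iff₀ hS]
    have h3 : S9 ≤ Nat.sub S9 (Nat.div (Nat.mul N S9) LX) + Nat.div (Nat.mul N S9) LX :=
      Nat.sub_le_iff_le_add.1 le_rfl
    have h3' : (S9 : ℝ) ≤ ((Nat.sub S9 (Nat.div (Nat.mul N S9) LX) : ℕ) : ℝ) +
        ((Nat.div (Nat.mul N S9) LX : ℕ) : ℝ) := by exact_mod_cast h3
    have h4 : ((Nat.div (Nat.mul N S9) LX : ℕ) : ℝ) ≤ (N : ℝ) * S9 / LX := by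
      have := Nat.cast_div_le (α := ℝ) (m := N * S9) (n := LX)
      refine le_trans this (le_of_eq ?_)
      rw [Nat.cast_mul]
    have h5 : ((LX : ℝ) / N - 1) / ((LX : ℝ) / N) * S9 = S9 - (N : ℝ) * S9 / LX := by
      have hN'' := hN'.ne'
      have hLX' := hLX0.ne'
      generalize (S9 : ℝ) = T
      field_simp
    rw [h5]
    linarith

theorem candK_good (hNBR : Stmt_NBR) {zv zvhi N K Oc n om t : ℕ} (X TX EX LX best : ℕ)
    (k : ℕ → Bool) (hn : n * n ≤ zv)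
    (hn127 : n ≤ 127) (hn1 : 0 < zv → 1 ≤ n) (hom : om = cdv (Nat.mul Oc S9) N)
    (ht : Real.exp ((om : ℝ) / S9) ≤ (t : ℝ) / S9) (ht2 : t ≤ 2000000000)
    (hTX : ∀ n ∈ Icc 1 127, ∀ m ∈ Ico n X, dig TX n ≤ eeT m)
    (hEX : ∀ m, X ≤ m → EX ≤ eeT m) (hLX : (S9 : ℝ) * Real.log (X : ℝ) ≤ (LX : ℝ)) (hX2 : 2 ≤ X)
    (hbest : CGood zv zvhi N K Oc best) (h : candK zvhi N K t n X TX EX LX best k = true) :
    ∃ e, k e = true ∧ CGood zv zvhi N K Oc e := by
  unfold candK at h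
  simp only [frc_eq] at h
  cases hb1 : Nat.ble X n
  swap
  · rw [hb1, cond_true] at h
    exact ⟨best, h, hbest⟩
  rw [hb1, cond_false] at h
  cases hb2 : Nat.ble zvhi (Nat.mul X X)
  · rw [hb2, cond_false] at h
    exact ⟨best, h, hbest⟩
  rw [hb2, cond_true] at h
  set A := AofE K N EX with hA
  set AA := Nat.max A (AofE K N (dig TX n)) with hAA
  set can := cond (Nat.ble LX (Nat.mul 2 N)) (Nat.sub S9 (Nat.div (Nat.mul N S9) LX))
        (cdv (Nat.mul (Nat.sub LX N) S9) (Nat.mul 2 N)) with hcan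
  set d := cdv (Nat.mul (Nat.sub AA A) can) S9 with hd
  cases hb3 : Nat.ble d 80000000
  · rw [hb3, cond_false] at h
    exact ⟨best, h, hbest⟩
  rw [hb3, cond_true] at h
  have hd8 : d ≤ 80000000 := Nat.le_of_ble_eq_true hb3
  have hBpos : 0 < Nat.sub 83333333 d := by
    have : Nat.sub 83333333 d = 83333333 - d := rfl
    omega
  obtain ⟨e, he, hC⟩ := cell1_spec A (Nat.sub 83333333 d) t hBpos _ h
  refine ⟨Nat.min best e, he, ?_⟩
  rcases le_total best e with hbe | hbe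
  · have : Nat.min best e = best := Nat.min_eq_left hbe
    rw [this]; exact hbest
  have : Nat.min best e = e := Nat.min_eq_right hbe
  rw [this]
  intro he2 z x X1 v hz hv hvz hS1 hzv hzv1 hzv2 hN hL hk hOc
  obtain ⟨eK, w2, c1, c2, c3⟩ := hC he2
  have hS := S9_pos
  have hN' : (0 : ℝ) < N := by exact_mod_cast hN
  obtain ⟨f1, f2, f3, f4⟩ := nv_facts hn hzv1 (hn1 hzv)
  have hom0 : (0 : ℝ) ≤ (om : ℝ) / S9 := div_S9_nonneg _
  have ht2' : (t : ℝ) / S9 ≤ 2 := by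
    rw [div_le_iff₀ hS, S9_eq]
    have : (t : ℝ) ≤ 2000000000 := by exact_mod_cast ht2
    linarith
  have hzX : z * v ≤ X ^ 2 := by
    have h1 : zvhi ≤ X * X := Nat.le_of_ble_eq_true hb2
    rw [pow_two]; exact hzv2.trans h1
  have hE1 : ∀ m, Nat.sqrt (z * v) ≤ m → m < X →
      Real.log ((m : ℝ) + 1) - A1 m ≤ 1 - (dig TX n : ℝ) / 10000 := by
    intro m hm hmX
    have h1 := log_A1 m (f1.trans hm)
    have h2 := hTX n (mem_Icc.2 ⟨hn1 hzv, hn127⟩) m (mem_Ico.2 ⟨f4.trans hm, hmX⟩)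
    have h3 : (dig TX n : ℝ) ≤ (eeT m : ℝ) := by exact_mod_cast h2
    linarith
  have hE2 : ∀ m, X ≤ m → Real.log ((m : ℝ) + 1) - A1 m ≤ 1 - (EX : ℝ) / 10000 := by
    intro m hm
    have h1 := log_A1 m (by omega)
    have h3 : (EX : ℝ) ≤ (eeT m : ℝ) := by exact_mod_cast hEX m hm
    linarith
  have hlX : 0 < Real.log (X : ℝ) := Real.log_pos (by exact_mod_cast hX2)
  have hcan' := can_ok (N := N) (LX := LX) hN hL hLX hlX
  rw [← hcan] at hcan'
  have hA' := AofE_spec (em := EX) hN hL hk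
  have hB' := AofE_spec (em := dig TX n) hN hL hk
  rw [← hA] at hA'
  have hL0 : 0 < Real.log ((z : ℝ) * v) / 2 := pos_of_NL hN hL
  have hAle : A ≤ AA := Nat.le_max_left _ _
  have hAle2 : AofE K N (dig TX n) ≤ AA := Nat.le_max_right _ _
  have hAle' : (A : ℝ) / S9 ≤ (AA : ℝ) / S9 :=
    div_le_div_of_nonneg_right (by exact_mod_cast hAle) hS.le
  have hAle2' : (AofE K N (dig TX n) : ℝ) / S9 ≤ (AA : ℝ) / S9 :=
    div_le_div_of_nonneg_right (by exact_mod_cast hAle2) hS.le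
  have hB'' : kapv z x (max X1 v) v + (1 - (dig TX n : ℝ) / 10000) ≤
      (1 + (AA : ℝ) / S9) * (Real.log ((z : ℝ) * v) / 2) :=
    hB'.trans (mul_le_mul_of_nonneg_right (by linarith) hL0.le)
  have hBB : ((Nat.sub 83333333 d : ℕ) : ℝ) / S9 ≤
      1 / 12 - ((AA : ℝ) / S9 - (A : ℝ) / S9) *
        ca (Real.log (X : ℝ) / (Real.log ((z : ℝ) * v) / 2)) := by
    have h1 : ((Nat.sub 83333333 d : ℕ) : ℝ) = 83333333 - (d : ℝ) := by
      have : Nat.sub 83333333 d = 83333333 - d := rfl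
      rw [this, Nat.cast_sub (by omega)]; norm_num
    have h2 := le_cdv (Nat.mul (Nat.sub AA A) can) S9 S9_posN
    rw [← hd] at h2
    have h3 : ((Nat.mul (Nat.sub AA A) can : ℕ) : ℝ) = ((AA : ℝ) - A) * can := by
      have : Nat.mul (Nat.sub AA A) can = (AA - A) * can := rfl
      rw [this, Nat.cast_mul, Nat.cast_sub hAle]
    rw [h3] at h2
    have h4 : ((AA : ℝ) / S9 - (A : ℝ) / S9) * ca (Real.log (X : ℝ) / (Real.log ((z : ℝ) * v) / 2))
        ≤ ((AA : ℝ) / S9 - (A : ℝ) / S9) * ((can : ℝ) / S9) :=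
      mul_le_mul_of_nonneg_left hcan' (by linarith)
    have h5 : ((AA : ℝ) / S9 - (A : ℝ) / S9) * ((can : ℝ) / S9) ≤ (d : ℝ) / S9 := by
      refine le_trans (le_of_eq ?_) (div_le_div_of_nonneg_right h2 hS.le)
      generalize (S9 : ℝ) = T
      ring
    have h6 : (83333333 - (d : ℝ)) / S9 = 83333333 / S9 - (d : ℝ) / S9 := sub_div _ _ _
    have h7 : (83333333 : ℝ) / S9 ≤ 1 / 12 := by rw [S9_eq]; norm_num
    rw [h1, h6]
    linarith
  exact hNBR z x X1 v X (Nat.sqrt (z * v)) (1 - (dig TX n : ℝ) / 10000)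
    (1 - (EX : ℝ) / 10000) ((A : ℝ) / S9) ((AA : ℝ) / S9)
    (((Nat.sub 83333333 d : ℕ) : ℝ) / S9) ((om : ℝ) / S9) eK w2 ((e : ℝ) / S9) hz hv hvz hS1 f1 f2
    f3 hzX hE1 hE2 hB'' hA' (div_S9_nonneg _) hAle'
    (div_pos (by exact_mod_cast hBpos) hS) hBB hom0 (ht.trans ht2')
    (omega_ok hz hv hN hL hOc hom) c1 (c2 _ ht (Real.one_le_exp hom0)) c3

theorem BAD_good (zv zvhi N K Oc : ℕ) : CGood zv zvhi N K Oc BAD := fun h => absurd h (by decide)

theorem Cell_of (hNBR : Stmt_NBR) : Stmt_Cell := by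
  intro zv zvhi N K Oc k h
  show ∃ e, k e = true ∧ CGood zv zvhi N K Oc e
  unfold cellK at h
  obtain ⟨n, hn, hn2, hn127, hn1⟩ := sq7_spec zv _ h
  simp only [frc_eq] at hn
  set om := cdv (Nat.mul Oc S9) N with hom
  cases hb : Nat.ble om 700000000
  · rw [hb, cond_false] at hn
    exact ⟨BAD, hn, BAD_good _ _ _ _ _⟩
  rw [hb, cond_true] at hn
  obtain ⟨t, ht, ht1⟩ := Exp1 om _ hn
  have ht1' := ht1 (by have := Nat.le_of_ble_eq_true hb; omega)
  cases hb2 : Nat.ble t 2000000000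
  · rw [hb2, cond_false] at ht
    exact ⟨BAD, ht, BAD_good _ _ _ _ _⟩
  rw [hb2, cond_true] at ht
  have ht2 : t ≤ 2000000000 := Nat.le_of_ble_eq_true hb2
  obtain ⟨e0, he0, hC0⟩ := cell1_spec _ 83333333 t (by norm_num) _ ht
  have g0 := base_good hNBR (zvhi := zvhi) hn2 hn127 hn1 hom ht1' ht2 hC0
  obtain ⟨e1, he1, g1⟩ := candK_good hNBR 32 T32 11798 3465735903 e0 _ hn2 hn127 hn1 hom ht1' ht2
    tabT32_dec ee32 log32_le (by norm_num) g0 he0
  obtain ⟨e2, he2, g2⟩ := candK_good hNBR 64 T64 13045 4158883084 e1 _ hn2 hn127 hn1 hom ht1' ht2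
    tabT64_dec ee64 log64_le (by norm_num) g1 he1
  exact candK_good hNBR 127 T127 14209 4844187087 e2 _ hn2 hn127 hn1 hom ht1' ht2
    tabT127_dec ee127 log127_le (by norm_num) g2 he2

theorem Cell_proof : Stmt_Cell := Cell_of stmt_NBR

end Pool.Agent.EZ
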