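import Pool.Agent.EZ.EngFar

/-!
# Far parts of the absolute constants: the 23 instances (helper39)
-/

set_option autoImplicit false

namespace Pool.Agent.EZ

theorem isPP_of (z p k : ℕ) (hp : p.Prime) (hk : 0 < k) (h : z = p ^ k) : IsPrimePow z :=
  ⟨p, k, Nat.prime_iff.1 hp, hk, h.symm⟩

theorem far_16 : SumOK 16 (ck 16 (Nat.minFac 16) 0) 10000 (((10900 : ℕ) : ℝ) / 100000) := by
  rw [show ck 16 (Nat.minFac 16) 0 = 70000 by norm_num [ck]]
  exact far_small 16 70000 2.772588 2.772589 0.263160 (((10900 : ℕ) : ℝ) / 100000) (isPP_of 16 2 4 (by norm_num) (by norm_num) (by norm_num)) (by norm_num) (by norm_num)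
    (le_trans (by norm_num) (pow_le_log 16 1 4 (by norm_num) (by norm_num) (Nat.le_of_ble_eq_true (by decide +kernel))))
    ((log_le_pow 16 1 4 (by norm_num) (by norm_num) (Nat.le_of_ble_eq_true (by decide +kernel))).trans (by norm_num))
    (by norm_num) (by norm_num) (by norm_num) (by norm_num)

theorem far_25 : SumOK 25 (ck 25 (Nat.minFac 25) 0) 10000 (((10175 : ℕ) : ℝ) / 100000) := by
  rw [show ck 25 (Nat.minFac 25) 0 = 188000 by norm_num [ck]]
  exact far_small 25 188000 3.218861 3.218889 0.299728 (((10175 : ℕ) : ℝ) / 100000) (isPP_of 25 5 2 (by norm_num) (by norm_num) (by norm_num)) (by norm_num) (by norm_num)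
    (le_trans (by norm_num) (pow_le_log 25 73 339 (by norm_num) (by norm_num) (Nat.le_of_ble_eq_true (by decide +kernel))))
    ((log_le_pow 25 351 1630 (by norm_num) (by norm_num) (Nat.le_of_ble_eq_true (by decide +kernel))).trans (by norm_num))
    (by norm_num) (by norm_num) (by norm_num) (by norm_num)

theorem far_27 : SumOK 27 (ck 27 (Nat.minFac 27) 0) 10000 (((10501 : ℕ) : ℝ) / 100000) := by
  rw [show ck 27 (Nat.minFac 27) 0 = 189000 by norm_num [ck]]
  exact far_small 27 189000 3.295827 3.295847 0.305900 (((10501 : ℕ) : ℝ) / 100000) (isPP_of 27 3 3 (by norm_num) (by norm_num) (by norm_num)) (by norm_num) (by norm_num)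
    (le_trans (by norm_num) (pow_le_log 27 359 1707 (by norm_num) (by norm_num) (Nat.le_of_ble_eq_true (by decide +kernel))))
    ((log_le_pow 27 102 485 (by norm_num) (by norm_num) (Nat.le_of_ble_eq_true (by decide +kernel))).trans (by norm_num))
    (by norm_num) (by norm_num) (by norm_num) (by norm_num)

theorem far_32 : SumOK 32 (ck 32 (Nat.minFac 32) 0) 10000 (((10391 : ℕ) : ℝ) / 100000) := by
  rw [show ck 32 (Nat.minFac 32) 0 = 192000 by norm_num [ck]]
  exact far_small 32 192000 3.465735 3.465736 0.319393 (((10391 : ℕ) : ℝ) / 100000) (isPP_of 32 2 5 (by norm_num) (by norm_num) (by norm_num)) (by norm_num) (by norm_num)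
    (le_trans (by norm_num) (pow_le_log 32 1 5 (by norm_num) (by norm_num) (Nat.le_of_ble_eq_true (by decide +kernel))))
    ((log_le_pow 32 1 5 (by norm_num) (by norm_num) (Nat.le_of_ble_eq_true (by decide +kernel))).trans (by norm_num))
    (by norm_num) (by norm_num) (by norm_num) (by norm_num)

theorem far_49 : SumOK 49 (ck 49 (Nat.minFac 49) 0) 10000 (((11171 : ℕ) : ℝ) / 100000) := by
  rw [show ck 49 (Nat.minFac 49) 0 = 420000 by norm_num [ck]]
  exact far_small 49 420000 3.891817 3.891827 0.352455 (((11171 : ℕ) : ℝ) / 100000) (isPP_of 49 7 2 (by norm_num) (by norm_num) (by norm_num)) (by norm_num) (by norm_num)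
    (le_trans (by norm_num) (pow_le_log 49 340 1909 (by norm_num) (by norm_num) (Nat.le_of_ble_eq_true (by decide +kernel))))
    ((log_le_pow 49 231 1297 (by norm_num) (by norm_num) (Nat.le_of_ble_eq_true (by decide +kernel))).trans (by norm_num))
    (by norm_num) (by norm_num) (by norm_num) (by norm_num)

theorem far_64 : SumOK 64 (ck 64 (Nat.minFac 64) 0) 10000 (((10120 : ℕ) : ℝ) / 100000) := by
  rw [show ck 64 (Nat.minFac 64) 0 = 420000 by norm_num [ck]]
  exact far_small 64 420000 4.158883 4.158884 0.372632 (((10120 : ℕ) : ℝ) / 100000) (isPP_of 64 2 6 (by norm_num) (by norm_num) (by norm_num)) (by norm_num) (by norm_num)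
    (le_trans (by norm_num) (pow_le_log 64 1 6 (by norm_num) (by norm_num) (Nat.le_of_ble_eq_true (by decide +kernel))))
    ((log_le_pow 64 1 6 (by norm_num) (by norm_num) (Nat.le_of_ble_eq_true (by decide +kernel))).trans (by norm_num))
    (by norm_num) (by norm_num) (by norm_num) (by norm_num)

theorem far_81 : SumOK 81 (ck 81 (Nat.minFac 81) 0) 10000 (((10567 : ℕ) : ℝ) / 100000) := by
  rw [show ck 81 (Nat.minFac 81) 0 = 540000 by norm_num [ck]]
  exact far_small 81 540000 4.394444 4.394463 0.390100 (((10567 : ℕ) : ℝ) / 100000) (isPP_of 81 3 4 (by norm_num) (by norm_num) (by norm_num)) (by norm_num) (by norm_num)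
    (le_trans (by norm_num) (pow_le_log 81 256 1623 (by norm_num) (by norm_num) (Nat.le_of_ble_eq_true (by decide +kernel))))
    ((log_le_pow 81 153 970 (by norm_num) (by norm_num) (Nat.le_of_ble_eq_true (by decide +kernel))).trans (by norm_num))
    (by norm_num) (by norm_num) (by norm_num) (by norm_num)

theorem far_121 : SumOK 121 (ck 121 (Nat.minFac 121) 0) 10000 (((10265 : ℕ) : ℝ) / 100000) := by
  rw [show ck 121 (Nat.minFac 121) 0 = 1100000 by norm_num [ck]]
  exact far_big 121 1100000 14641 14641 4.795780 4.795830 9.591576 9.591588 9.591576 9.591588 0.433048 0.433048 0.433048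
    1.420367 1.420367 1.420367 (((10265 : ℕ) : ℝ) / 100000) (isPP_of 121 11 2 (by norm_num) (by norm_num) (by norm_num))
    (by norm_num) (by norm_num) (by norm_num) (by norm_num) (by norm_num)
    (le_trans (by norm_num) (pow_le_log 121 382 2643 (by norm_num) (by norm_num) (Nat.le_of_ble_eq_true (by decide +kernel))))
    ((log_le_pow 121 37 256 (by norm_num) (by norm_num) (Nat.le_of_ble_eq_true (by decide +kernel))).trans (by norm_num))
    (le_trans (by norm_num) (pow_le_log 14641 228 3155 (by norm_num) (by norm_num) (Nat.le_of_ble_eq_true (by decide +kernel))))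
    ((log_le_pow 14641 265 3667 (by norm_num) (by norm_num) (Nat.le_of_ble_eq_true (by decide +kernel))).trans (by norm_num))
    (le_trans (by norm_num) (pow_le_log 14641 228 3155 (by norm_num) (by norm_num) (Nat.le_of_ble_eq_true (by decide +kernel))))
    ((log_le_pow 14641 265 3667 (by norm_num) (by norm_num) (Nat.le_of_ble_eq_true (by decide +kernel))).trans (by norm_num))
    (by norm_num) (by norm_num) (by norm_num) (by norm_num) (by norm_num) (by norm_num) (by norm_num)
    (by norm_num) (by norm_num) (by norm_num) (by norm_num) (by norm_num)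
    (by norm_num [tay]) (by norm_num [tay]) (by norm_num [tay]) (by norm_num) (by norm_num)
    (by norm_num)

theorem far_125 : SumOK 125 (ck 125 (Nat.minFac 125) 0) 10000 (((11036 : ℕ) : ℝ) / 100000) := by
  rw [show ck 125 (Nat.minFac 125) 0 = 1000000 by norm_num [ck]]
  exact far_big 125 1000000 15625 15625 4.828310 4.828318 9.656620 9.656635 9.656620 9.656635 0.438994 0.438994 0.438994
    1.428837 1.428837 1.428837 (((11036 : ℕ) : ℝ) / 100000) (isPP_of 125 5 3 (by norm_num) (by norm_num) (by norm_num))
    (by norm_num) (by norm_num) (by norm_num) (by norm_num) (by norm_num)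
    (le_trans (by norm_num) (pow_le_log 125 263 1832 (by norm_num) (by norm_num) (Nat.le_of_ble_eq_true (by decide +kernel))))
    ((log_le_pow 125 380 2647 (by norm_num) (by norm_num) (Nat.le_of_ble_eq_true (by decide +kernel))).trans (by norm_num))
    (le_trans (by norm_num) (pow_le_log 15625 263 3664 (by norm_num) (by norm_num) (Nat.le_of_ble_eq_true (by decide +kernel))))
    ((log_le_pow 15625 190 2647 (by norm_num) (by norm_num) (Nat.le_of_ble_eq_true (by decide +kernel))).trans (by norm_num))
    (le_trans (by norm_num) (pow_le_log 15625 263 3664 (by norm_num) (by norm_num) (Nat.le_of_ble_eq_true (by decide +kernel))))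
    ((log_le_pow 15625 190 2647 (by norm_num) (by norm_num) (Nat.le_of_ble_eq_true (by decide +kernel))).trans (by norm_num))
    (by norm_num) (by norm_num) (by norm_num) (by norm_num) (by norm_num) (by norm_num) (by norm_num)
    (by norm_num) (by norm_num) (by norm_num) (by norm_num) (by norm_num)
    (by norm_num [tay]) (by norm_num [tay]) (by norm_num [tay]) (by norm_num) (by norm_num)
    (by norm_num)

theorem far_128 : SumOK 128 (ck 128 (Nat.minFac 128) 0) 10000 (((9760 : ℕ) : ℝ) / 100000) := by
  rw [show ck 128 (Nat.minFac 128) 0 = 640000 by norm_num [ck]]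
  exact far_big 128 640000 16384 16384 4.852030 4.852031 9.704060 9.704061 9.704060 9.704061 0.443312 0.443312 0.443312
    1.435020 1.435020 1.435020 (((9760 : ℕ) : ℝ) / 100000) (isPP_of 128 2 7 (by norm_num) (by norm_num) (by norm_num))
    (by norm_num) (by norm_num) (by norm_num) (by norm_num) (by norm_num)
    (le_trans (by norm_num) (pow_le_log 128 1 7 (by norm_num) (by norm_num) (Nat.le_of_ble_eq_true (by decide +kernel))))
    ((log_le_pow 128 1 7 (by norm_num) (by norm_num) (Nat.le_of_ble_eq_true (by decide +kernel))).trans (by norm_num))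
    (le_trans (by norm_num) (pow_le_log 16384 1 14 (by norm_num) (by norm_num) (Nat.le_of_ble_eq_true (by decide +kernel))))
    ((log_le_pow 16384 1 14 (by norm_num) (by norm_num) (Nat.le_of_ble_eq_true (by decide +kernel))).trans (by norm_num))
    (le_trans (by norm_num) (pow_le_log 16384 1 14 (by norm_num) (by norm_num) (Nat.le_of_ble_eq_true (by decide +kernel))))
    ((log_le_pow 16384 1 14 (by norm_num) (by norm_num) (Nat.le_of_ble_eq_true (by decide +kernel))).trans (by norm_num))
    (by norm_num) (by norm_num) (by norm_num) (by norm_num) (by norm_num) (by norm_num) (by norm_num)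
    (by norm_num) (by norm_num) (by norm_num) (by norm_num) (by norm_num)
    (by norm_num [tay]) (by norm_num [tay]) (by norm_num [tay]) (by norm_num) (by norm_num)
    (by norm_num)

theorem far_169 : SumOK 169 (ck 169 (Nat.minFac 169) 0) 10000 (((10319 : ℕ) : ℝ) / 100000) := by
  rw [show ck 169 (Nat.minFac 169) 0 = 1560000 by norm_num [ck]]
  exact far_big 169 1560000 28561 28561 5.129886 5.129900 10.259790 10.259800 10.259790 10.259800 0.492854 0.492854 0.492854
    1.507905 1.507905 1.507905 (((10319 : ℕ) : ℝ) / 100000) (isPP_of 169 13 2 (by norm_num) (by norm_num) (by norm_num))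
    (by norm_num) (by norm_num) (by norm_num) (by norm_num) (by norm_num)
    (le_trans (by norm_num) (pow_le_log 169 232 1717 (by norm_num) (by norm_num) (Nat.le_of_ble_eq_true (by decide +kernel))))
    ((log_le_pow 169 227 1680 (by norm_num) (by norm_num) (Nat.le_of_ble_eq_true (by decide +kernel))).trans (by norm_num))
    (le_trans (by norm_num) (pow_le_log 28561 343 5077 (by norm_num) (by norm_num) (Nat.le_of_ble_eq_true (by decide +kernel))))
    ((log_le_pow 28561 227 3360 (by norm_num) (by norm_num) (Nat.le_of_ble_eq_true (by decide +kernel))).trans (by norm_num))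
    (le_trans (by norm_num) (pow_le_log 28561 343 5077 (by norm_num) (by norm_num) (Nat.le_of_ble_eq_true (by decide +kernel))))
    ((log_le_pow 28561 227 3360 (by norm_num) (by norm_num) (Nat.le_of_ble_eq_true (by decide +kernel))).trans (by norm_num))
    (by norm_num) (by norm_num) (by norm_num) (by norm_num) (by norm_num) (by norm_num) (by norm_num)
    (by norm_num) (by norm_num) (by norm_num) (by norm_num) (by norm_num)
    (by norm_num [tay]) (by norm_num [tay]) (by norm_num [tay]) (by norm_num) (by norm_num)
    (by norm_num)

theorem far_243 : SumOK 243 (ck 243 (Nat.minFac 243) 0) 10000 (((10518 : ℕ) : ℝ) / 100000) := by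
  rw [show ck 243 (Nat.minFac 243) 0 = 1620000 by norm_num [ck]]
  exact far_big 243 1620000 59049 59049 5.493061 5.493079 10.986122 10.986141 10.986122 10.986141 0.554780 0.554780 0.554780
    1.604235 1.604235 1.604235 (((10518 : ℕ) : ℝ) / 100000) (isPP_of 243 3 5 (by norm_num) (by norm_num) (by norm_num))
    (by norm_num) (by norm_num) (by norm_num) (by norm_num) (by norm_num)
    (le_trans (by norm_num) (pow_le_log 243 133 1054 (by norm_num) (by norm_num) (Nat.le_of_ble_eq_true (by decide +kernel))))
    ((log_le_pow 243 306 2425 (by norm_num) (by norm_num) (Nat.le_of_ble_eq_true (by decide +kernel))).trans (by norm_num))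
    (le_trans (by norm_num) (pow_le_log 59049 133 2108 (by norm_num) (by norm_num) (Nat.le_of_ble_eq_true (by decide +kernel))))
    ((log_le_pow 59049 286 4533 (by norm_num) (by norm_num) (Nat.le_of_ble_eq_true (by decide +kernel))).trans (by norm_num))
    (le_trans (by norm_num) (pow_le_log 59049 133 2108 (by norm_num) (by norm_num) (Nat.le_of_ble_eq_true (by decide +kernel))))
    ((log_le_pow 59049 286 4533 (by norm_num) (by norm_num) (Nat.le_of_ble_eq_true (by decide +kernel))).trans (by norm_num))
    (by norm_num) (by norm_num) (by norm_num) (by norm_num) (by norm_num) (by norm_num) (by norm_num)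
    (by norm_num) (by norm_num) (by norm_num) (by norm_num) (by norm_num)
    (by norm_num [tay]) (by norm_num [tay]) (by norm_num [tay]) (by norm_num) (by norm_num)
    (by norm_num)

theorem far_256 : SumOK 256 (ck 256 (Nat.minFac 256) 0) 10000 (((9829 : ℕ) : ℝ) / 100000) := by
  rw [show ck 256 (Nat.minFac 256) 0 = 1280000 by norm_num [ck]]
  exact far_big 256 1280000 32768 65536 5.545177 5.545178 10.397207 10.397208 11.090354 11.090355 0.469463 0.469463 0.469463
    1.473043 1.473043 1.473043 (((9829 : ℕ) : ℝ) / 100000) (isPP_of 256 2 8 (by norm_num) (by norm_num) (by norm_num))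
    (by norm_num) (by norm_num) (by norm_num) (by norm_num) (by norm_num)
    (le_trans (by norm_num) (pow_le_log 256 1 8 (by norm_num) (by norm_num) (Nat.le_of_ble_eq_true (by decide +kernel))))
    ((log_le_pow 256 1 8 (by norm_num) (by norm_num) (Nat.le_of_ble_eq_true (by decide +kernel))).trans (by norm_num))
    (le_trans (by norm_num) (pow_le_log 32768 1 15 (by norm_num) (by norm_num) (Nat.le_of_ble_eq_true (by decide +kernel))))
    ((log_le_pow 32768 1 15 (by norm_num) (by norm_num) (Nat.le_of_ble_eq_true (by decide +kernel))).trans (by norm_num))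
    (le_trans (by norm_num) (pow_le_log 65536 1 16 (by norm_num) (by norm_num) (Nat.le_of_ble_eq_true (by decide +kernel))))
    ((log_le_pow 65536 1 16 (by norm_num) (by norm_num) (Nat.le_of_ble_eq_true (by decide +kernel))).trans (by norm_num))
    (by norm_num) (by norm_num) (by norm_num) (by norm_num) (by norm_num) (by norm_num) (by norm_num)
    (by norm_num) (by norm_num) (by norm_num) (by norm_num) (by norm_num)
    (by norm_num [tay]) (by norm_num [tay]) (by norm_num [tay]) (by norm_num) (by norm_num)
    (by norm_num)

theorem far_289 : SumOK 289 (ck 289 (Nat.minFac 289) 0) 10000 (((10254 : ℕ) : ℝ) / 100000) := by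
  rw [show ck 289 (Nat.minFac 289) 0 = 2720000 by norm_num [ck]]
  exact far_big 289 2720000 83521 83521 5.666421 5.666428 11.332849 11.332856 11.332849 11.332856 0.583274 0.583274 0.583274
    1.650603 1.650603 1.650603 (((10254 : ℕ) : ℝ) / 100000) (isPP_of 289 17 2 (by norm_num) (by norm_num) (by norm_num))
    (by norm_num) (by norm_num) (by norm_num) (by norm_num) (by norm_num)
    (le_trans (by norm_num) (pow_le_log 289 303 2477 (by norm_num) (by norm_num) (Nat.le_of_ble_eq_true (by decide +kernel))))
    ((log_le_pow 289 343 2804 (by norm_num) (by norm_num) (Nat.le_of_ble_eq_true (by decide +kernel))).trans (by norm_num))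
    (le_trans (by norm_num) (pow_le_log 83521 323 5281 (by norm_num) (by norm_num) (Nat.le_of_ble_eq_true (by decide +kernel))))
    ((log_le_pow 83521 343 5608 (by norm_num) (by norm_num) (Nat.le_of_ble_eq_true (by decide +kernel))).trans (by norm_num))
    (le_trans (by norm_num) (pow_le_log 83521 323 5281 (by norm_num) (by norm_num) (Nat.le_of_ble_eq_true (by decide +kernel))))
    ((log_le_pow 83521 343 5608 (by norm_num) (by norm_num) (Nat.le_of_ble_eq_true (by decide +kernel))).trans (by norm_num))
    (by norm_num) (by norm_num) (by norm_num) (by norm_num) (by norm_num) (by norm_num) (by norm_num)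
    (by norm_num) (by norm_num) (by norm_num) (by norm_num) (by norm_num)
    (by norm_num [tay]) (by norm_num [tay]) (by norm_num [tay]) (by norm_num) (by norm_num)
    (by norm_num)

theorem far_343 : SumOK 343 (ck 343 (Nat.minFac 343) 0) 10000 (((10978 : ℕ) : ℝ) / 100000) := by
  rw [show ck 343 (Nat.minFac 343) 0 = 2940000 by norm_num [ck]]
  exact far_big 343 2940000 117649 117649 5.837722 5.837740 11.675452 11.675480 11.675452 11.675480 0.610788 0.610788 0.610788
    1.696649 1.696649 1.696649 (((10978 : ℕ) : ℝ) / 100000) (isPP_of 343 7 3 (by norm_num) (by norm_num) (by norm_num))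
    (by norm_num) (by norm_num) (by norm_num) (by norm_num) (by norm_num)
    (le_trans (by norm_num) (pow_le_log 343 263 2215 (by norm_num) (by norm_num) (Nat.le_of_ble_eq_true (by decide +kernel))))
    ((log_le_pow 343 154 1297 (by norm_num) (by norm_num) (Nat.le_of_ble_eq_true (by decide +kernel))).trans (by norm_num))
    (le_trans (by norm_num) (pow_le_log 117649 340 5727 (by norm_num) (by norm_num) (Nat.le_of_ble_eq_true (by decide +kernel))))
    ((log_le_pow 117649 77 1297 (by norm_num) (by norm_num) (Nat.le_of_ble_eq_true (by decide +kernel))).trans (by norm_num))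
    (le_trans (by norm_num) (pow_le_log 117649 340 5727 (by norm_num) (by norm_num) (Nat.le_of_ble_eq_true (by decide +kernel))))
    ((log_le_pow 117649 77 1297 (by norm_num) (by norm_num) (Nat.le_of_ble_eq_true (by decide +kernel))).trans (by norm_num))
    (by norm_num) (by norm_num) (by norm_num) (by norm_num) (by norm_num) (by norm_num) (by norm_num)
    (by norm_num) (by norm_num) (by norm_num) (by norm_num) (by norm_num)
    (by norm_num [tay]) (by norm_num [tay]) (by norm_num [tay]) (by norm_num) (by norm_num)
    (by norm_num)

theorem far_361 : SumOK 361 (ck 361 (Nat.minFac 361) 0) 10000 (((10249 : ℕ) : ℝ) / 100000) := by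
  rw [show ck 361 (Nat.minFac 361) 0 = 3420000 by norm_num [ck]]
  exact far_big 361 3420000 130321 130321 5.888870 5.888887 11.777749 11.777758 11.777749 11.777758 0.618879 0.618879 0.618879
    1.710432 1.710432 1.710432 (((10249 : ℕ) : ℝ) / 100000) (isPP_of 361 19 2 (by norm_num) (by norm_num) (by norm_num))
    (by norm_num) (by norm_num) (by norm_num) (by norm_num) (by norm_num)
    (le_trans (by norm_num) (pow_le_log 361 361 3067 (by norm_num) (by norm_num) (Nat.le_of_ble_eq_true (by decide +kernel))))
    ((log_le_pow 361 121 1028 (by norm_num) (by norm_num) (Nat.le_of_ble_eq_true (by decide +kernel))).trans (by norm_num))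
    (le_trans (by norm_num) (pow_le_log 130321 241 4095 (by norm_num) (by norm_num) (Nat.le_of_ble_eq_true (by decide +kernel))))
    ((log_le_pow 130321 362 6151 (by norm_num) (by norm_num) (Nat.le_of_ble_eq_true (by decide +kernel))).trans (by norm_num))
    (le_trans (by norm_num) (pow_le_log 130321 241 4095 (by norm_num) (by norm_num) (Nat.le_of_ble_eq_true (by decide +kernel))))
    ((log_le_pow 130321 362 6151 (by norm_num) (by norm_num) (Nat.le_of_ble_eq_true (by decide +kernel))).trans (by norm_num))
    (by norm_num) (by norm_num) (by norm_num) (by norm_num) (by norm_num) (by norm_num) (by norm_num)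
    (by norm_num) (by norm_num) (by norm_num) (by norm_num) (by norm_num)
    (by norm_num [tay]) (by norm_num [tay]) (by norm_num [tay]) (by norm_num) (by norm_num)
    (by norm_num)

theorem far_512 : SumOK 512 (ck 512 (Nat.minFac 512) 0) 10000 (((9903 : ℕ) : ℝ) / 100000) := by
  rw [show ck 512 (Nat.minFac 512) 0 = 2560000 by norm_num [ck]]
  exact far_big 512 2560000 32768 262144 6.238324 6.238325 10.397207 10.397208 12.476649 12.476650 0.403531 0.553392 0.553392
    1.379054 1.602010 1.602010 (((9903 : ℕ) : ℝ) / 100000) (isPP_of 512 2 9 (by norm_num) (by norm_num) (by norm_num))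
    (by norm_num) (by norm_num) (by norm_num) (by norm_num) (by norm_num)
    (le_trans (by norm_num) (pow_le_log 512 1 9 (by norm_num) (by norm_num) (Nat.le_of_ble_eq_true (by decide +kernel))))
    ((log_le_pow 512 1 9 (by norm_num) (by norm_num) (Nat.le_of_ble_eq_true (by decide +kernel))).trans (by norm_num))
    (le_trans (by norm_num) (pow_le_log 32768 1 15 (by norm_num) (by norm_num) (Nat.le_of_ble_eq_true (by decide +kernel))))
    ((log_le_pow 32768 1 15 (by norm_num) (by norm_num) (Nat.le_of_ble_eq_true (by decide +kernel))).trans (by norm_num))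
    (le_trans (by norm_num) (pow_le_log 262144 1 18 (by norm_num) (by norm_num) (Nat.le_of_ble_eq_true (by decide +kernel))))
    ((log_le_pow 262144 1 18 (by norm_num) (by norm_num) (Nat.le_of_ble_eq_true (by decide +kernel))).trans (by norm_num))
    (by norm_num) (by norm_num) (by norm_num) (by norm_num) (by norm_num) (by norm_num) (by norm_num)
    (by norm_num) (by norm_num) (by norm_num) (by norm_num) (by norm_num)
    (by norm_num [tay]) (by norm_num [tay]) (by norm_num [tay]) (by norm_num) (by norm_num)
    (by norm_num)

theorem far_529 : SumOK 529 (ck 529 (Nat.minFac 529) 0) 10000 (((10157 : ℕ) : ℝ) / 100000) := by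
  rw [show ck 529 (Nat.minFac 529) 0 = 5060000 by norm_num [ck]]
  exact far_big 529 5060000 32768 279841 6.270986 6.270999 10.397207 10.397208 12.541972 12.541987 0.400570 0.558188 0.558188
    1.374977 1.609712 1.609712 (((10157 : ℕ) : ℝ) / 100000) (isPP_of 529 23 2 (by norm_num) (by norm_num) (by norm_num))
    (by norm_num) (by norm_num) (by norm_num) (by norm_num) (by norm_num)
    (le_trans (by norm_num) (pow_le_log 529 191 1728 (by norm_num) (by norm_num) (Nat.le_of_ble_eq_true (by decide +kernel))))
    ((log_le_pow 529 297 2687 (by norm_num) (by norm_num) (Nat.le_of_ble_eq_true (by decide +kernel))).trans (by norm_num))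
    (le_trans (by norm_num) (pow_le_log 32768 1 15 (by norm_num) (by norm_num) (Nat.le_of_ble_eq_true (by decide +kernel))))
    ((log_le_pow 32768 1 15 (by norm_num) (by norm_num) (Nat.le_of_ble_eq_true (by decide +kernel))).trans (by norm_num))
    (le_trans (by norm_num) (pow_le_log 279841 191 3456 (by norm_num) (by norm_num) (Nat.le_of_ble_eq_true (by decide +kernel))))
    ((log_le_pow 279841 244 4415 (by norm_num) (by norm_num) (Nat.le_of_ble_eq_true (by decide +kernel))).trans (by norm_num))
    (by norm_num) (by norm_num) (by norm_num) (by norm_num) (by norm_num) (by norm_num) (by norm_num)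
    (by norm_num) (by norm_num) (by norm_num) (by norm_num) (by norm_num)
    (by norm_num [tay]) (by norm_num [tay]) (by norm_num [tay]) (by norm_num) (by norm_num)
    (by norm_num)

theorem far_625 : SumOK 625 (ck 625 (Nat.minFac 625) 0) 10000 (((10648 : ℕ) : ℝ) / 100000) := by
  rw [show ck 625 (Nat.minFac 625) 0 = 5000000 by norm_num [ck]]
  exact far_big 625 5000000 390625 390625 6.437749 6.437757 12.875499 12.875513 12.875499 12.875513 0.702400 0.702400 0.702400
    1.859424 1.859424 1.859424 (((10648 : ℕ) : ℝ) / 100000) (isPP_of 625 5 4 (by norm_num) (by norm_num) (by norm_num))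
    (by norm_num) (by norm_num) (by norm_num) (by norm_num) (by norm_num)
    (le_trans (by norm_num) (pow_le_log 625 358 3325 (by norm_num) (by norm_num) (Nat.le_of_ble_eq_true (by decide +kernel))))
    ((log_le_pow 625 285 2647 (by norm_num) (by norm_num) (Nat.le_of_ble_eq_true (by decide +kernel))).trans (by norm_num))
    (le_trans (by norm_num) (pow_le_log 390625 179 3325 (by norm_num) (by norm_num) (Nat.le_of_ble_eq_true (by decide +kernel))))
    ((log_le_pow 390625 285 5294 (by norm_num) (by norm_num) (Nat.le_of_ble_eq_true (by decide +kernel))).trans (by norm_num))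
    (le_trans (by norm_num) (pow_le_log 390625 179 3325 (by norm_num) (by norm_num) (Nat.le_of_ble_eq_true (by decide +kernel))))
    ((log_le_pow 390625 285 5294 (by norm_num) (by norm_num) (Nat.le_of_ble_eq_true (by decide +kernel))).trans (by norm_num))
    (by norm_num) (by norm_num) (by norm_num) (by norm_num) (by norm_num) (by norm_num) (by norm_num)
    (by norm_num) (by norm_num) (by norm_num) (by norm_num) (by norm_num)
    (by norm_num [tay]) (by norm_num [tay]) (by norm_num [tay]) (by norm_num) (by norm_num)
    (by norm_num)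

theorem far_729 : SumOK 729 (ck 729 (Nat.minFac 729) 0) 10000 (((10329 : ℕ) : ℝ) / 100000) := by
  rw [show ck 729 (Nat.minFac 729) 0 = 4860000 by norm_num [ck]]
  exact far_big 729 4860000 32768 531441 6.591655 6.591694 10.397207 10.397208 13.183343 13.183350 0.372148 0.604281 0.604281
    1.336448 1.685644 1.685644 (((10329 : ℕ) : ℝ) / 100000) (isPP_of 729 3 6 (by norm_num) (by norm_num) (by norm_num))
    (by norm_num) (by norm_num) (by norm_num) (by norm_num) (by norm_num)
    (le_trans (by norm_num) (pow_le_log 729 359 3414 (by norm_num) (by norm_num) (Nat.le_of_ble_eq_true (by decide +kernel))))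
    ((log_le_pow 729 51 485 (by norm_num) (by norm_num) (Nat.le_of_ble_eq_true (by decide +kernel))).trans (by norm_num))
    (le_trans (by norm_num) (pow_le_log 32768 1 15 (by norm_num) (by norm_num) (Nat.le_of_ble_eq_true (by decide +kernel))))
    ((log_le_pow 32768 1 15 (by norm_num) (by norm_num) (Nat.le_of_ble_eq_true (by decide +kernel))).trans (by norm_num))
    (le_trans (by norm_num) (pow_le_log 531441 307 5839 (by norm_num) (by norm_num) (Nat.le_of_ble_eq_true (by decide +kernel))))
    ((log_le_pow 531441 358 6809 (by norm_num) (by norm_num) (Nat.le_of_ble_eq_true (by decide +kernel))).trans (by norm_num))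
    (by norm_num) (by norm_num) (by norm_num) (by norm_num) (by norm_num) (by norm_num) (by norm_num)
    (by norm_num) (by norm_num) (by norm_num) (by norm_num) (by norm_num)
    (by norm_num [tay]) (by norm_num [tay]) (by norm_num [tay]) (by norm_num) (by norm_num)
    (by norm_num)

theorem far_841 : SumOK 841 (ck 841 (Nat.minFac 841) 0) 10000 (((10035 : ℕ) : ℝ) / 100000) := by
  rw [show ck 841 (Nat.minFac 841) 0 = 8120000 by norm_num [ck]]
  exact far_big 841 8120000 32768 707281 6.734585 6.734602 10.397207 10.397208 13.469171 13.469184 0.359848 0.624265 0.624265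
    1.320110 1.719669 1.719669 (((10035 : ℕ) : ℝ) / 100000) (isPP_of 841 29 2 (by norm_num) (by norm_num) (by norm_num))
    (by norm_num) (by norm_num) (by norm_num) (by norm_num) (by norm_num)
    (le_trans (by norm_num) (pow_le_log 841 257 2497 (by norm_num) (by norm_num) (Nat.le_of_ble_eq_true (by decide +kernel))))
    ((log_le_pow 841 169 1642 (by norm_num) (by norm_num) (Nat.le_of_ble_eq_true (by decide +kernel))).trans (by norm_num))
    (le_trans (by norm_num) (pow_le_log 32768 1 15 (by norm_num) (by norm_num) (Nat.le_of_ble_eq_true (by decide +kernel))))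
    ((log_le_pow 32768 1 15 (by norm_num) (by norm_num) (Nat.le_of_ble_eq_true (by decide +kernel))).trans (by norm_num))
    (le_trans (by norm_num) (pow_le_log 707281 257 4994 (by norm_num) (by norm_num) (Nat.le_of_ble_eq_true (by decide +kernel))))
    ((log_le_pow 707281 213 4139 (by norm_num) (by norm_num) (Nat.le_of_ble_eq_true (by decide +kernel))).trans (by norm_num))
    (by norm_num) (by norm_num) (by norm_num) (by norm_num) (by norm_num) (by norm_num) (by norm_num)
    (by norm_num) (by norm_num) (by norm_num) (by norm_num) (by norm_num)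
    (by norm_num [tay]) (by norm_num [tay]) (by norm_num [tay]) (by norm_num) (by norm_num)
    (by norm_num)

theorem far_961 : SumOK 961 (ck 961 (Nat.minFac 961) 0) 10000 (((9983 : ℕ) : ℝ) / 100000) := by
  rw [show ck 961 (Nat.minFac 961) 0 = 9300000 by norm_num [ck]]
  exact far_big 961 9300000 32768 923521 6.867963 6.867978 10.397207 10.397208 13.735938 13.735955 0.348568 0.642620 0.642620
    1.305303 1.751525 1.751525 (((9983 : ℕ) : ℝ) / 100000) (isPP_of 961 31 2 (by norm_num) (by norm_num) (by norm_num))
    (by norm_num) (by norm_num) (by norm_num) (by norm_num) (by norm_num)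
    (le_trans (by norm_num) (pow_le_log 961 382 3785 (by norm_num) (by norm_num) (Nat.le_of_ble_eq_true (by decide +kernel))))
    ((log_le_pow 961 131 1298 (by norm_num) (by norm_num) (Nat.le_of_ble_eq_true (by decide +kernel))).trans (by norm_num))
    (le_trans (by norm_num) (pow_le_log 32768 1 15 (by norm_num) (by norm_num) (Nat.le_of_ble_eq_true (by decide +kernel))))
    ((log_le_pow 32768 1 15 (by norm_num) (by norm_num) (Nat.le_of_ble_eq_true (by decide +kernel))).trans (by norm_num))
    (le_trans (by norm_num) (pow_le_log 923521 322 6381 (by norm_num) (by norm_num) (Nat.le_of_ble_eq_true (by decide +kernel))))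
    ((log_le_pow 923521 131 2596 (by norm_num) (by norm_num) (Nat.le_of_ble_eq_true (by decide +kernel))).trans (by norm_num))
    (by norm_num) (by norm_num) (by norm_num) (by norm_num) (by norm_num) (by norm_num) (by norm_num)
    (by norm_num) (by norm_num) (by norm_num) (by norm_num) (by norm_num)
    (by norm_num [tay]) (by norm_num [tay]) (by norm_num [tay]) (by norm_num) (by norm_num)
    (by norm_num)

theorem far_1024 : SumOK 1024 (ck 1024 (Nat.minFac 1024) 0) 10000 (((9913 : ℕ) : ℝ) / 100000) := by
  rw [show ck 1024 (Nat.minFac 1024) 0 = 5120000 by norm_num [ck]]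
  exact far_big 1024 5120000 32768 131072 6.931471 6.931472 10.397207 10.397208 11.783502 11.783503 0.343262 0.411257 0.528941
    1.298395 1.389750 1.563314 (((9913 : ℕ) : ℝ) / 100000) (isPP_of 1024 2 10 (by norm_num) (by norm_num) (by norm_num))
    (by norm_num) (by norm_num) (by norm_num) (by norm_num) (by norm_num)
    (le_trans (by norm_num) (pow_le_log 1024 1 10 (by norm_num) (by norm_num) (Nat.le_of_ble_eq_true (by decide +kernel))))
    ((log_le_pow 1024 1 10 (by norm_num) (by norm_num) (Nat.le_of_ble_eq_true (by decide +kernel))).trans (by norm_num))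
    (le_trans (by norm_num) (pow_le_log 32768 1 15 (by norm_num) (by norm_num) (Nat.le_of_ble_eq_true (by decide +kernel))))
    ((log_le_pow 32768 1 15 (by norm_num) (by norm_num) (Nat.le_of_ble_eq_true (by decide +kernel))).trans (by norm_num))
    (le_trans (by norm_num) (pow_le_log 131072 1 17 (by norm_num) (by norm_num) (Nat.le_of_ble_eq_true (by decide +kernel))))
    ((log_le_pow 131072 1 17 (by norm_num) (by norm_num) (Nat.le_of_ble_eq_true (by decide +kernel))).trans (by norm_num))
    (by norm_num) (by norm_num) (by norm_num) (by norm_num) (by norm_num) (by norm_num) (by norm_num)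
    (by norm_num) (by norm_num) (by norm_num) (by norm_num) (by norm_num)
    (by norm_num [tay]) (by norm_num [tay]) (by norm_num [tay]) (by norm_num) (by norm_num)
    (by norm_num)

/-- module FAR -/
theorem Far_proof : Stmt_Far := by
  intro t ht
  simp only [farT, List.mem_cons, List.not_mem_nil, or_false] at ht
  rcases ht with rfl | rfl | rfl | rfl | rfl | rfl | rfl | rfl | rfl | rfl | rfl | rfl | rfl | rfl | rfl | rfl | rfl | rfl | rfl | rfl | rfl | rfl | rfl
  · exact far_16
  · exact far_25
  · exact far_27
  · exact far_32
  · exact far_49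
  · exact far_64
  · exact far_81
  · exact far_121
  · exact far_125
  · exact far_128
  · exact far_169
  · exact far_243
  · exact far_256
  · exact far_289
  · exact far_343
  · exact far_361
  · exact far_512
  · exact far_529
  · exact far_625
  · exact far_729
  · exact far_841
  · exact far_961
  · exact far_1024

end Pool.Agent.EZ
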