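import Pool.Agent.EZ.EngSpecs
import Pool.Agent.EZ.NBR
import Pool.Agent.EZ.Cap
import Pool.Agent.EZ.HU

/-!
# Tail weights, and the universal level beyond `10^4` (helper46)
-/

set_option autoImplicit false

namespace Pool.Agent.EZ

open Finset

/-- sums over the powers of one prime beyond `u`, abstract form. -/
theorem tail_abs (g T : ℕ → ℝ) (u r : ℕ) (hr : 2 ≤ r)
    (hanti : ∀ a b, u ≤ a → a ≤ b → T b ≤ T a) (hstep : ∀ w, u < w → g w + T (r * w) ≤ T w)
    (hT : ∀ w, u ≤ w → 0 ≤ T w) : ∀ n k : ℕ,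
    ∑ j ∈ range n, (if u < r ^ (k + j) then g (r ^ (k + j)) else 0) ≤ T (max u (r ^ k)) := by
  intro n
  induction n with
  | zero =>
    intro k
    rw [Finset.sum_range_zero]
    exact hT _ (le_max_left _ _)
  | succ n ih =>
    intro k
    rw [Finset.sum_range_succ']
    have h1 := ih (k + 1)
    have e : ∀ j, k + 1 + j = k + (j + 1) := by intro j; omega
    simp only [e] at h1
    rw [Nat.add_zero]
    have hpow : r ^ (k + 1) = r * r ^ k := by rw [pow_succ, mul_comm]
    have hle : r ^ k ≤ r ^ (k + 1) := by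
      rw [hpow]
      exact Nat.le_mul_of_pos_left _ (by omega)
    by_cases h : u < r ^ k
    · rw [if_pos h]
      rw [max_eq_right h.le]
      rw [max_eq_right (h.le.trans hle), hpow] at h1
      have := hstep _ h
      linarith
    · rw [if_neg h, add_zero]
      refine h1.trans (hanti _ _ (le_max_left _ _) ?_)
      exact max_le_max_left _ hle

/-- sums over one prime beyond `u`. -/
theorem tail_gen (g T : ℕ → ℝ) (u : ℕ) (hg : ∀ w, 0 ≤ g w)
    (hanti : ∀ a b, u ≤ a → a ≤ b → T b ≤ T a)
    (hstep : ∀ r w, 2 ≤ r → u < w → g w + T (r * w) ≤ T w)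
    (hT : ∀ w, u ≤ w → 0 ≤ T w) (VS : Finset ℕ) (hVS : ∀ w ∈ VS, IsPrimePow w ∧ u < w) (r : ℕ) :
    ∑ w ∈ VS.filter (fun w => w.minFac = r), g w ≤ T u := by
  set f : ℕ → ℝ := fun w => if u < w then g w else 0 with hf
  have hf0 : ∀ w, 0 ≤ f w := by
    intro w
    simp only [hf]
    split_ifs
    · exact hg w
    · exact le_rfl
  have e : ∑ w ∈ VS.filter (fun w => w.minFac = r), g w
      = ∑ w ∈ VS.filter (fun w => w.minFac = r), f w := by
    apply Finset.sum_congr rfl
    intro w hw
    simp only [hf]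
    rw [if_pos (hVS w (Finset.mem_filter.1 hw).1).2]
  rw [e]
  rcases sum_over_prime VS (fun v hv => (hVS v hv).1) r f hf0 with h | ⟨hr, K, h⟩
  · rw [h]; exact hT u le_rfl
  · refine h.trans ?_
    have h2 := tail_abs g T u r hr.two_le hanti (fun w hw => hstep r w hr.two_le hw) hT K 1
    have h3 : T (max u (r ^ 1)) ≤ T u := hanti _ _ le_rfl (le_max_left _ _)
    refine le_trans ?_ (h2.trans h3)
    have h4 : Icc 1 K = (range K).image (fun j => 1 + j) := by
      ext a
      simp only [Finset.mem_Icc, Finset.mem_image, Finset.mem_range]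
      constructor
      · rintro ⟨h5, h6⟩
        exact ⟨a - 1, by omega, by omega⟩
      · rintro ⟨b, h5, rfl⟩
        omega
    rw [h4, Finset.sum_image (by intro a _ b _ h; simpa using h)]

/-- weights of one prime beyond `u`. -/
theorem tail_one (x u : ℕ) (hu : 1 ≤ u) (VS : Finset ℕ) (hVS : ∀ w ∈ VS, IsPrimePow w ∧ u < w)
    (r : ℕ) : ∑ w ∈ VS.filter (fun w => w.minFac = r), Sx x w / (w : ℝ) ≤ 2 / u := by
  have hu0 : (0 : ℝ) < u := by exact_mod_cast hu
  refine le_trans (Finset.sum_le_sum (g := fun w : ℕ => 1 / (w : ℝ)) (fun w hw => ?_)) ?_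
  · exact div_le_div_of_nonneg_right (Sx_le_one x w) (Nat.cast_nonneg _)
  · refine tail_gen (fun w : ℕ => 1 / (w : ℝ)) (fun w : ℕ => 2 / (w : ℝ)) u (fun w => by positivity)
      ?_ ?_ (fun w _ => by positivity) VS hVS r
    · intro a b ha hab
      have ha0 : (0 : ℝ) < a := by exact_mod_cast (by omega : 0 < a)
      exact div_le_div_of_nonneg_left (by norm_num) ha0 (by exact_mod_cast hab)
    · intro r w hr hw
      have hw0 : (0 : ℝ) < w := by exact_mod_cast (by omega : 0 < w)
      have hr2 : (2 : ℝ) ≤ r := by exact_mod_cast hr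
      push_cast
      rw [div_add_div _ _ hw0.ne' (by positivity), div_le_div_iff₀ (by positivity) hw0]
      nlinarith [mul_pos hw0 hw0, mul_nonneg (sub_nonneg.2 hr2) (mul_pos hw0 hw0).le]

theorem log_le_mul_log_two (r : ℕ) (hr : 1 ≤ r) : Real.log r ≤ ((r : ℝ) - 1) * Real.log 2 := by
  obtain ⟨s, rfl⟩ : ∃ s, r = s + 1 := ⟨r - 1, by omega⟩
  have h1 : s + 1 ≤ 2 ^ s := Nat.lt_two_pow_self
  have h2 : ((s + 1 : ℕ) : ℝ) ≤ (2 : ℝ) ^ s := by exact_mod_cast h1
  have h3 := Real.log_le_log (by positivity) h2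
  rw [Real.log_pow] at h3
  push_cast at h3 ⊢
  linarith

/-- weights of one prime beyond `u`, with logarithms. -/
theorem tail_max (z x u : ℕ) (hz : 1 ≤ z) (hu : 3 ≤ u) (VS : Finset ℕ)
    (hVS : ∀ w ∈ VS, IsPrimePow w ∧ u < w) (r : ℕ) :
    ∑ w ∈ VS.filter (fun w => w.minFac = r), Sx x w / (w : ℝ) * max (Real.log z) (Real.log w)
      ≤ (2 * max (Real.log z) (Real.log u) + 2 * Real.log 2) / u := by
  have hl2 : 0 < Real.log 2 := Real.log_pos (by norm_num)
  have hz0 : 0 ≤ Real.log z := Real.log_natCast_nonneg z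
  refine le_trans (Finset.sum_le_sum (g := fun w : ℕ => max (Real.log z) (Real.log w) / (w : ℝ))
    (fun w hw => ?_)) ?_
  · rw [div_mul_eq_mul_div]
    apply div_le_div_of_nonneg_right _ (Nat.cast_nonneg _)
    exact mul_le_of_le_one_left (hz0.trans (le_max_left _ _)) (Sx_le_one x w)
  · refine tail_gen (fun w : ℕ => max (Real.log z) (Real.log w) / (w : ℝ))
      (fun w : ℕ => (2 * max (Real.log z) (Real.log w) + 2 * Real.log 2) / (w : ℝ)) u
      (fun w => div_nonneg (hz0.trans (le_max_left _ _)) (Nat.cast_nonneg _)) ?_ ?_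
      (fun w _ => div_nonneg (by have := hz0.trans (le_max_left _ (Real.log w)); positivity)
        (Nat.cast_nonneg _)) VS hVS r
    · intro a b ha hab
      have ha0 : (0 : ℝ) < a := by exact_mod_cast (by omega : 0 < a)
      have hab' : (a : ℝ) ≤ b := by exact_mod_cast hab
      have hb0 : (0 : ℝ) < b := lt_of_lt_of_le ha0 hab'
      have h3 : (3 : ℝ) ≤ a := by exact_mod_cast hu.trans ha
      have he : Real.exp 1 ≤ 3 := by have := Real.exp_one_lt_d9; linarith
      have h1 : Real.log b / b ≤ Real.log a / a :=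
        Real.log_div_self_antitoneOn (show Real.exp 1 ≤ (a : ℝ) by linarith)
          (show Real.exp 1 ≤ (b : ℝ) by linarith) hab'
      have h2 : Real.log z / b ≤ Real.log z / a := div_le_div_of_nonneg_left hz0 ha0 hab'
      have h4 : Real.log 2 / b ≤ Real.log 2 / a := div_le_div_of_nonneg_left hl2.le ha0 hab'
      have e1 : ∀ c : ℝ, 0 < c → (2 * max (Real.log z) (Real.log c) + 2 * Real.log 2) / c
          = 2 * max (Real.log z / c) (Real.log c / c) + 2 * (Real.log 2 / c) := by
        intro c hc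
        rw [max_div_div_right hc.le]
        ring
      rw [e1 _ ha0, e1 _ hb0]
      have := max_le_max h2 h1
      linarith
    · intro r w hr hw
      have hw3 : (3 : ℝ) ≤ w := by exact_mod_cast (by omega : 3 ≤ w)
      have hw0 : (0 : ℝ) < w := by linarith
      have hr2 : (2 : ℝ) ≤ r := by exact_mod_cast hr
      have hr0 : (0 : ℝ) < r := by linarith
      have hM0 : 0 ≤ max (Real.log z) (Real.log w) := hz0.trans (le_max_left _ _)
      have hlr : Real.log r ≤ ((r : ℝ) - 1) * Real.log 2 := log_le_mul_log_two r (by omega)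
      have hlr0 : 0 ≤ Real.log r := Real.log_natCast_nonneg r
      have hM : max (Real.log z) (Real.log ((r * w : ℕ) : ℝ)) ≤ max (Real.log z) (Real.log w)
          + Real.log r := by
        push_cast
        rw [Real.log_mul hr0.ne' hw0.ne']
        apply max_le
        · have := le_max_left (Real.log z) (Real.log w)
          linarith
        · have := le_max_right (Real.log z) (Real.log w)
          linarith
      have h1 : (2 * max (Real.log z) (Real.log ((r * w : ℕ) : ℝ)) + 2 * Real.log 2)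
          / ((r * w : ℕ) : ℝ) ≤ (max (Real.log z) (Real.log w) + 2 * Real.log 2) / w := by
        push_cast at hM ⊢
        rw [div_le_div_iff₀ (by positivity) hw0]
        have h2 : 2 * max (Real.log z) (Real.log ((r : ℝ) * w)) + 2 * Real.log 2
            ≤ (max (Real.log z) (Real.log w) + 2 * Real.log 2) * r := by
          nlinarith [mul_nonneg hM0 (sub_nonneg.2 hr2)]
        calc _ ≤ (max (Real.log z) (Real.log w) + 2 * Real.log 2) * r * w :=
              mul_le_mul_of_nonneg_right h2 hw0.le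
          _ = _ := by ring
      have h3 : max (Real.log z) (Real.log w) / w
          + (max (Real.log z) (Real.log w) + 2 * Real.log 2) / w
          = (2 * max (Real.log z) (Real.log w) + 2 * Real.log 2) / w := by ring
      linarith

/-- the killed mass when nothing survives below. -/
theorem kapv_self (z x v : ℕ) : kapv z x v v = A1 v := by
  unfold kapv A1 ppK
  apply Finset.sum_congr rfl
  intro w hw
  rw [if_pos (Or.inl (Finset.mem_Icc.1 (Finset.mem_filter.1 hw).1).2), one_mul]

/-- `OcOK` from the logarithms. -/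
theorem OcOK_tail (z x u : ℕ) (hz : 1 ≤ z) (hu : 3 ≤ u) :
    OcOK z x u ((2 * max (Real.log z) (Real.log u) + 2 * Real.log 2) / u) :=
  fun VS hVS r => tail_max z x u hz hu VS (fun w hw => ⟨(hVS w hw).1, (hVS w hw).2.1⟩) r

theorem OaOK_tail (z x u : ℕ) (hu : 1 ≤ u) : OaOK z x u (2 / u) :=
  fun VS hVS r => tail_one x u hu VS (fun w hw => ⟨(hVS w hw).1, (hVS w hw).2.1⟩) r

/-- the hypothesis of (NBR) on the weights. -/
theorem omega_of_Oc {z x v : ℕ} {o ω : ℝ} (hz : IsPrimePow z) (hv : IsPrimePow v)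
    (h : OcOK z x v o) (hω : o ≤ ω * (Real.log ((z : ℝ) * v) / 2)) (VS : Finset ℕ)
    (hVS : ∀ w ∈ VS, IsPrimePow w ∧ v < w ∧ w.minFac ≠ z.minFac ∧ w.minFac ≠ v.minFac) (r : ℕ) :
    ∑ w ∈ VS.filter (fun w => w.minFac = r), Sx x w / (w : ℝ)
      * max 1 (Real.log w / (Real.log ((z : ℝ) * v) / 2)) ≤ ω := by
  have hz1 : (1 : ℝ) < z := by exact_mod_cast hz.one_lt
  have hv1 : (1 : ℝ) < v := by exact_mod_cast hv.one_lt
  have hL : 0 < Real.log ((z : ℝ) * v) := Real.log_pos (by nlinarith)
  have hN : 0 < Real.log ((z : ℝ) * v) / 2 := by linarith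
  have h1 := h VS (fun w hw => ⟨(hVS w hw).1, (hVS w hw).2.1, (hVS w hw).2.2.1⟩) r
  have h2 : (∑ w ∈ VS.filter (fun w => w.minFac = r), Sx x w / (w : ℝ)
      * max 1 (Real.log w / (Real.log ((z : ℝ) * v) / 2))) * (Real.log ((z : ℝ) * v) / 2)
      ≤ ω * (Real.log ((z : ℝ) * v) / 2) := by
    refine le_trans ?_ hω
    refine le_trans ?_ h1
    rw [Finset.sum_mul]
    apply Finset.sum_le_sum
    intro w hw
    have hvw : v < w := (hVS w (Finset.mem_filter.1 hw).1).2.1
    rw [mul_assoc]
    apply mul_le_mul_of_nonneg_left _ (Sx_div_nonneg x w)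
    rw [max_mul_of_nonneg _ _ hN.le, one_mul, div_mul_cancel₀ _ hN.ne']
    have h3 : Real.log v ≤ Real.log w :=
      Real.log_le_log (by linarith) (by exact_mod_cast hvw.le)
    apply max_le
    · rw [Real.log_mul (by linarith) (by linarith)]
      have h4 := le_max_left (Real.log (z : ℝ)) (Real.log (w : ℝ))
      have h5 := le_max_right (Real.log (z : ℝ)) (Real.log (w : ℝ))
      linarith
    · exact le_max_right _ _
  exact le_of_mul_le_mul_right h2 hN

theorem Hi_proof : Stmt_Hi := by
  intro z x X1 v hz hv hvz hS hX1 hz11 hv4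
  have hz1 : (11 : ℝ) ≤ z := by exact_mod_cast hz11
  have hv1 : (10000 : ℝ) < v := by exact_mod_cast hv4
  have hzv : (110000 : ℝ) ≤ (z : ℝ) * v := by nlinarith
  have hzvN : 110000 ≤ z * v := by nlinarith
  have hlz : Real.log 11 ≤ Real.log z := Real.log_le_log (by norm_num) hz1
  have hl11 : (1 : ℝ) ≤ Real.log 11 := by
    rw [Real.le_log_iff_exp_le (by norm_num)]
    have := Real.exp_one_lt_d9
    linarith
  have hlv : Real.log 10000 ≤ Real.log v := Real.log_le_log (by norm_num) hv1.le
  have hl2 : Real.log 2 < 0.6931471808 := Real.log_two_lt_d9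
  have hl2' : 0.6931471803 < Real.log 2 := Real.log_two_gt_d9
  have hl4 : (9 : ℝ) ≤ Real.log 10000 := by
    have h1 : Real.log ((2 : ℝ) ^ 13) ≤ Real.log 10000 := Real.log_le_log (by norm_num) (by norm_num)
    rw [Real.log_pow] at h1
    push_cast at h1
    linarith
  have hlog : Real.log ((z : ℝ) * v) = Real.log z + Real.log v :=
    Real.log_mul (by linarith) (by linarith)
  have hn1 : 331 ≤ Nat.sqrt (z * v) := by
    rw [Nat.le_sqrt]
    omega
  have hE : ∀ m, Nat.sqrt (z * v) ≤ m → Real.log ((m : ℝ) + 1) - A1 m ≤ 0 := by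
    intro m hm
    have := E_127 m (by omega)
    linarith
  have hA := A1_upper_all v (by omega)
  have hk : kapv z x (max X1 v) v = A1 v := by rw [max_eq_right hX1, kapv_self]
  have hsq1 : Nat.sqrt (z * v) ^ 2 ≤ z * v := Nat.sqrt_le' _
  have hsq2 : z * v < (Nat.sqrt (z * v) + 1) ^ 2 := Nat.lt_succ_sqrt' _
  refine stmt_NBR z x X1 v (Nat.sqrt (z * v) + 1) (Nat.sqrt (z * v)) 0 0 1 1 (1 / 12) 0.00043
    (11 / 12) 0.00133 0.918 hz hv hvz hS (by omega) hsq1 hsq2.le hsq2.le
    (fun m hm _ => hE m hm) (fun m hm => hE m (by omega)) ?_ ?_ (by norm_num) le_rfl (by norm_num)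
    (by norm_num) (by norm_num) ?_ ?_ ?_ ?_ ?_
  · rw [hk, hlog]; linarith
  · rw [hk, hlog]; linarith
  · have := Real.exp_one_gt_d9
    have h1 : Real.exp 0.00043 ≤ Real.exp (1 / 2) := Real.exp_le_exp.2 (by norm_num)
    have h2 : Real.exp (1 / 2) * Real.exp (1 / 2) = Real.exp 1 := by rw [← Real.exp_add]; norm_num
    have h3 := Real.exp_one_lt_d9
    have h4 := Real.exp_pos (1 / 2)
    nlinarith
  · refine omega_of_Oc hz hv (OcOK_tail z x v (by omega) (by omega)) ?_
    rw [hlog, div_le_iff₀ (by linarith)]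
    have h1 : max (Real.log z) (Real.log v) ≤ Real.log z + Real.log v := by
      apply max_le <;> linarith
    have h2 : (4.3 : ℝ) ≤ 0.00043 * v := by linarith
    have h3 : 0 < Real.log z + Real.log v := by linarith
    have h4 : 4.3 * (Real.log z + Real.log v) ≤ 0.00043 * v * (Real.log z + Real.log v) :=
      mul_le_mul_of_nonneg_right h2 h3.le
    have h5 : (10 : ℝ) ≤ Real.log z + Real.log v := by linarith
    nlinarith
  · intro t h0 h1
    nlinarith
  · have h1 : Real.exp 0.00043 - 1 ≤ 0.0004302 := by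
      have h2 := Real.abs_exp_sub_one_sub_id_le (x := (0.00043 : ℝ)) (by norm_num [abs_of_pos])
      rw [abs_le] at h2
      have h3 := h2.2
      norm_num at h3 ⊢
      linarith
    have h2 : Real.exp (11 / 12 + 1 / 12) = Real.exp 1 := by norm_num
    rw [h2]
    have h3 := Real.exp_one_lt_d9
    have h4 := Real.exp_pos 1
    nlinarith
  · intro t h0 h1
    nlinarith

end Pool.Agent.EZ
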