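import Pool.Agent.EZ.EngSpecs
import Pool.Agent.EZ.Cap

/-!
# The numerical engine: general lemmas (tails of one prime, weights, rounding)
-/

set_option autoImplicit false
set_option linter.unusedVariables false
set_option linter.unusedSectionVars false

namespace Pool.Agent.EZ

open Finset

namespace EngPB

/-! ### tails of the powers of one prime -/

theorem first_power (r u : ℕ) (hr : 2 ≤ r) (hu : 1 ≤ u) :
    ∃ k0, 1 ≤ k0 ∧ u < r ^ k0 ∧ ∀ k, k < k0 → r ^ k ≤ u := by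
  have hex : ∃ k, u < r ^ k := ⟨u, Nat.lt_pow_self (by omega)⟩
  classical
  refine ⟨Nat.find hex, ?_, Nat.find_spec hex, fun k hk => not_lt.1 (Nat.find_min hex hk)⟩
  by_contra h
  have h0 : Nat.find hex = 0 := by omega
  have := Nat.find_spec hex
  rw [h0] at this
  simp at this
  omega

/-- reduction of a sum over large powers of one prime. -/
theorem tail_red (VS : Finset ℕ) (u : ℕ) (hu : 1 ≤ u) (h : ∀ w ∈ VS, IsPrimePow w ∧ u < w) (r : ℕ)
    (f : ℕ → ℝ) (hf : ∀ w, 0 ≤ f w) (B : ℝ) (hB : 0 ≤ B)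
    (hmain : r.Prime → ∀ k0, 1 ≤ k0 → u < r ^ k0 → ∀ K, ∑ k ∈ Icc k0 K, f (r ^ k) ≤ B) :
    ∑ w ∈ VS.filter (fun w => w.minFac = r), f w ≤ B := by
  have e : ∑ w ∈ VS.filter (fun w => w.minFac = r), f w
      = ∑ w ∈ VS.filter (fun w => w.minFac = r), (if u < w then f w else 0) := by
    apply Finset.sum_congr rfl
    intro w hw
    rw [if_pos (h w (Finset.mem_filter.1 hw).1).2]
  rw [e]
  rcases sum_over_prime VS (fun w hw => (h w hw).1) r (fun w => if u < w then f w else 0)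
    (fun w => by split_ifs <;> [exact hf w; exact le_rfl]) with h0 | ⟨hr, K, hK⟩
  · rw [h0]; exact hB
  · refine hK.trans ?_
    obtain ⟨k0, hk0, hk1, hk2⟩ := first_power r u hr.two_le hu
    refine le_trans ?_ (hmain hr k0 hk0 hk1 K)
    rw [← Finset.sum_filter]
    apply Finset.sum_le_sum_of_subset_of_nonneg
    · intro k hk
      rw [Finset.mem_filter, Finset.mem_Icc] at hk
      rw [Finset.mem_Icc]
      refine ⟨?_, hk.1.2⟩
      by_contra hc
      have := hk2 k (by omega)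
      omega
    · intro k _ _
      exact hf _

theorem tail_inv (VS : Finset ℕ) (u : ℕ) (hu : 1 ≤ u) (h : ∀ w ∈ VS, IsPrimePow w ∧ u < w) (r : ℕ) :
    ∑ w ∈ VS.filter (fun w => w.minFac = r), 1 / (w : ℝ) ≤ 2 / (u : ℝ) := by
  have hu' : (0 : ℝ) < u := by exact_mod_cast hu
  apply tail_red VS u hu h r (fun w => 1 / (w : ℝ)) (fun w => by positivity) _ (by positivity)
  intro hr k0 hk0 hk1 K
  have hr2 := hr.two_le
  have hr' : (2 : ℝ) ≤ r := by exact_mod_cast hr2
  have h1 := geo_le r hr2 k0 K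
  have hp : (u : ℝ) ≤ (r : ℝ) ^ k0 := by exact_mod_cast hk1.le
  push_cast
  refine h1.trans ?_
  rw [div_le_div_iff₀ (by nlinarith) hu']
  nlinarith

/-- auxiliary closed form -/
theorem tail_log_aux (r k0 : ℕ) (hr : 2 ≤ r) (a : ℝ) (n : ℕ) :
    ∑ k ∈ Ico k0 (k0 + n), max a (Real.log ((r : ℝ) ^ k)) / (r : ℝ) ^ k ≤
      (max a (Real.log ((r : ℝ) ^ k0)) * (r / (r - 1)) + Real.log r * (r / (r - 1) ^ 2))
        / (r : ℝ) ^ k0
      - ((max a (Real.log ((r : ℝ) ^ k0)) + n * Real.log r) * (r / (r - 1))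
        + Real.log r * (r / (r - 1) ^ 2)) / (r : ℝ) ^ (k0 + n) := by
  have hr' : (2 : ℝ) ≤ r := by exact_mod_cast hr
  have hr1 : (r : ℝ) - 1 ≠ 0 := by linarith
  have hr0 : (r : ℝ) ≠ 0 := by linarith
  have hlog : 0 ≤ Real.log r := Real.log_nonneg (by linarith)
  induction n with
  | zero => simp
  | succ n ih =>
    rw [← Nat.add_assoc, Finset.sum_Ico_succ_top (by omega)]
    have hterm : max a (Real.log ((r : ℝ) ^ (k0 + n))) ≤
        max a (Real.log ((r : ℝ) ^ k0)) + n * Real.log r := by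
      apply max_le
      · have := le_max_left a (Real.log ((r : ℝ) ^ k0))
        have : 0 ≤ (n : ℝ) * Real.log r := by positivity
        linarith
      · rw [Real.log_pow, Real.log_pow]
        have := le_max_right a (k0 * Real.log r)
        push_cast
        linarith
    set M := max a (Real.log ((r : ℝ) ^ k0)) with hM
    have hpos : (0 : ℝ) < (r : ℝ) ^ (k0 + n) := by positivity
    have h1 : max a (Real.log ((r : ℝ) ^ (k0 + n))) / (r : ℝ) ^ (k0 + n) ≤
        (M + n * Real.log r) / (r : ℝ) ^ (k0 + n) := div_le_div_of_nonneg_right hterm hpos.le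
    have h2 : ((M + n * Real.log r) * (r / (r - 1))
        + Real.log r * (r / (r - 1) ^ 2)) / (r : ℝ) ^ (k0 + n)
        - ((M + (n + 1 : ℕ) * Real.log r) * (r / (r - 1))
        + Real.log r * (r / (r - 1) ^ 2)) / (r : ℝ) ^ (k0 + n + 1)
        = (M + n * Real.log r) / (r : ℝ) ^ (k0 + n) := by
      rw [pow_succ]
      push_cast
      field_simp
      ring
    linarith

theorem log_div_anti {u w : ℝ} (hu : 3 ≤ u) (huw : u ≤ w) : Real.log w / w ≤ Real.log u / u := by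
  have he : Real.exp 1 ≤ u := by
    have := Real.exp_one_lt_d9
    linarith
  exact Real.log_div_self_antitoneOn he (he.trans huw) huw

theorem tail_log (VS : Finset ℕ) (u : ℕ) (hu : 3 ≤ u) (a : ℝ) (ha : 0 ≤ a)
    (h : ∀ w ∈ VS, IsPrimePow w ∧ u < w) (r : ℕ) :
    ∑ w ∈ VS.filter (fun w => w.minFac = r), max a (Real.log w) / (w : ℝ) ≤
      (2 * max a (Real.log u) + 2 * Real.log 2) / (u : ℝ) := by
  have hu' : (3 : ℝ) ≤ u := by exact_mod_cast hu
  have hl2 : 0 ≤ Real.log 2 := Real.log_nonneg (by norm_num)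
  have hmu : 0 ≤ max a (Real.log u) := ha.trans (le_max_left _ _)
  apply tail_red VS u (by omega) h r (fun w => max a (Real.log w) / (w : ℝ))
    (fun w => div_nonneg (ha.trans (le_max_left _ _)) (Nat.cast_nonneg w)) _ (by positivity)
  intro hr k0 hk0 hk1 K
  have hr2 := hr.two_le
  have hr' : (2 : ℝ) ≤ r := by exact_mod_cast hr2
  have hlog : 0 ≤ Real.log r := Real.log_nonneg (by linarith)
  have hr1 : (0 : ℝ) < (r : ℝ) - 1 := by linarith
  set M := max a (Real.log ((r : ℝ) ^ k0)) with hM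
  have hM0 : 0 ≤ M := ha.trans (le_max_left _ _)
  have hw0 : (u : ℝ) ≤ (r : ℝ) ^ k0 := by exact_mod_cast hk1.le
  have hw1 : (0 : ℝ) < (r : ℝ) ^ k0 := by linarith
  have hf1 : (r : ℝ) / (r - 1) ≤ 2 := by rw [div_le_iff₀ hr1]; linarith
  have hlr : Real.log r ≤ ((r : ℝ) - 1) * Real.log 2 := by
    have h1 : (r : ℝ) ≤ 2 ^ (r - 1) := by
      have : r ≤ 2 ^ (r - 1) := by
        have : r - 1 < 2 ^ (r - 1) := Nat.lt_pow_self (by norm_num)
        omega
      exact_mod_cast this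
    have h2 := Real.log_le_log (by linarith) h1
    rw [Real.log_pow, Nat.cast_sub (by omega)] at h2
    simpa using h2
  have hf2 : Real.log r * ((r : ℝ) / (r - 1) ^ 2) ≤ 2 * Real.log 2 := by
    have e : Real.log r * ((r : ℝ) / (r - 1) ^ 2) = (Real.log r / (r - 1)) * (r / (r - 1)) := by
      field_simp
    rw [e]
    have h3 : Real.log r / (r - 1) ≤ Real.log 2 := by
      rw [div_le_iff₀ hr1]; linarith
    have h4 : 0 ≤ Real.log r / ((r : ℝ) - 1) := div_nonneg hlog hr1.le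
    have h5 : 0 ≤ (r : ℝ) / (r - 1) := by positivity
    nlinarith
  have hsum : ∑ k ∈ Icc k0 K, max a (Real.log (((r ^ k : ℕ)) : ℝ)) / ((r ^ k : ℕ) : ℝ) ≤
      (2 * M + 2 * Real.log 2) / (r : ℝ) ^ k0 := by
    push_cast
    have h6 : (M * (r / (r - 1)) + Real.log r * (r / (r - 1) ^ 2)) / (r : ℝ) ^ k0 ≤
        (2 * M + 2 * Real.log 2) / (r : ℝ) ^ k0 := by
      apply div_le_div_of_nonneg_right _ hw1.le
      nlinarith
    rcases le_or_gt k0 (K + 1) with hkK | hkK
    · have e : Icc k0 K = Ico k0 (k0 + (K + 1 - k0)) := by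
        ext k
        simp only [Finset.mem_Icc, Finset.mem_Ico]
        omega
      rw [e]
      refine (tail_log_aux r k0 hr2 a _).trans ?_
      have h7 : 0 ≤ ((M + ((K + 1 - k0 : ℕ) : ℝ) * Real.log r) * (r / (r - 1))
        + Real.log r * (r / (r - 1) ^ 2)) / (r : ℝ) ^ (k0 + (K + 1 - k0)) := by positivity
      linarith
    · rw [Finset.Icc_eq_empty (by omega), Finset.sum_empty]
      positivity
  refine hsum.trans ?_
  -- monotonicity
  have h8 : M / (r : ℝ) ^ k0 ≤ max a (Real.log u) / u := by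
    rw [hM]
    rcases max_cases a (Real.log ((r : ℝ) ^ k0)) with ⟨hm, _⟩ | ⟨hm, _⟩
    · rw [hm]
      exact div_le_div₀ hmu (le_max_left _ _) (by linarith) hw0
    · rw [hm]
      refine (log_div_anti hu' hw0).trans ?_
      exact div_le_div_of_nonneg_right (le_max_right _ _) (by linarith)
  have h9 : Real.log 2 / (r : ℝ) ^ k0 ≤ Real.log 2 / u :=
    div_le_div_of_nonneg_left hl2 (by linarith) hw0
  have e1 : (2 * M + 2 * Real.log 2) / (r : ℝ) ^ k0
      = 2 * (M / (r : ℝ) ^ k0) + 2 * (Real.log 2 / (r : ℝ) ^ k0) := by ring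
  have e2 : (2 * max a (Real.log u) + 2 * Real.log 2) / (u : ℝ)
      = 2 * (max a (Real.log u) / u) + 2 * (Real.log 2 / u) := by ring
  rw [e1, e2]
  linarith

theorem oaOK (z x u : ℕ) (hu : 1 ≤ u) : OaOK z x u (2 / (u : ℝ)) := by
  intro VS hVS r
  refine le_trans (Finset.sum_le_sum (g := fun w : ℕ => 1 / (w : ℝ)) fun w _ => ?_)
    (tail_inv VS u hu (fun w hw => ⟨(hVS w hw).1, (hVS w hw).2.1⟩) r)
  exact div_le_div_of_nonneg_right (Sx_le_one x w) (Nat.cast_nonneg w)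

theorem OaOK.mono {z x u u' : ℕ} {o o' : ℝ} (h : OaOK z x u o) (hu : u ≤ u') (ho : o ≤ o') :
    OaOK z x u' o' := by
  intro VS hVS r
  exact (h VS (fun w hw => ⟨(hVS w hw).1, lt_of_le_of_lt hu (hVS w hw).2.1, (hVS w hw).2.2⟩) r).trans
    ho

theorem ocOK (z x u : ℕ) (hu : 3 ≤ u) (hz : 1 ≤ z) :
    OcOK z x u ((2 * max (Real.log z) (Real.log u) + 2 * Real.log 2) / (u : ℝ)) := by
  intro VS hVS r
  have hz0 : 0 ≤ Real.log (z : ℝ) := Real.log_natCast_nonneg z
  refine le_trans (Finset.sum_le_sum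
    (g := fun w : ℕ => max (Real.log z) (Real.log w) / (w : ℝ)) fun w _ => ?_)
    (tail_log VS u hu _ hz0 (fun w hw => ⟨(hVS w hw).1, (hVS w hw).2.1⟩) r)
  have h1 := Sx_le_one x w
  have h2 : 0 ≤ max (Real.log (z : ℝ)) (Real.log w) := hz0.trans (le_max_left _ _)
  rw [div_mul_eq_mul_div]
  apply div_le_div_of_nonneg_right _ (Nat.cast_nonneg w)
  exact mul_le_of_le_one_left h2 h1

theorem OcOK.mono {z x u u' : ℕ} {o o' : ℝ} (h : OcOK z x u o) (hu : u ≤ u') (ho : o ≤ o') :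
    OcOK z x u' o' := by
  intro VS hVS r
  exact (h VS (fun w hw => ⟨(hVS w hw).1, lt_of_le_of_lt hu (hVS w hw).2.1, (hVS w hw).2.2⟩) r).trans
    ho

/-! ### weights -/

/-- the total weight -/
theorem HW (z x c X : ℕ) (hcX : c ≤ X)
    (hS : ∀ w, IsPrimePow w → c < w → w.minFac ≠ z.minFac → Sx x w = 1) :
    Hpp X = Mz z x c + Wt z x X
      + ∑ w ∈ ((ppK X).filter (fun w => c < w)).filter (fun w => w.minFac = z.minFac), 1 / (w : ℝ) := by
  have e1 : Mz z x c = ∑ w ∈ ppK X, (if w ≤ c then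
      ((if w.minFac = z.minFac then 1 else 1 - Sx x w) / (w : ℝ)) else 0) := by
    unfold Mz
    rw [← Finset.sum_filter]
    apply Finset.sum_congr _ (fun _ _ => rfl)
    ext w
    simp only [Finset.mem_filter, mem_ppK]
    constructor
    · rintro ⟨h1, h2⟩; exact ⟨⟨h1, h2.trans hcX⟩, h2⟩
    · rintro ⟨⟨h1, h2⟩, h3⟩; exact ⟨h1, h3⟩
  have e2 : Wt z x X = ∑ w ∈ ppK X, (if w.minFac ≠ z.minFac then Sx x w / (w : ℝ) else 0) := by
    unfold Wt; rw [Finset.sum_filter]
  have e3 : ∑ w ∈ ((ppK X).filter (fun w => c < w)).filter (fun w => w.minFac = z.minFac),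
      1 / (w : ℝ) = ∑ w ∈ ppK X, (if c < w ∧ w.minFac = z.minFac then 1 / (w : ℝ) else 0) := by
    rw [Finset.filter_filter, Finset.sum_filter]
  rw [e1, e2, e3]
  unfold Hpp
  rw [← Finset.sum_add_distrib, ← Finset.sum_add_distrib]
  apply Finset.sum_congr rfl
  intro w hw
  rw [mem_ppK] at hw
  by_cases h1 : w ≤ c
  · have h2 : ¬ (c < w ∧ w.minFac = z.minFac) := fun h => by omega
    rw [if_pos h1, if_neg h2]
    by_cases h3 : w.minFac = z.minFac
    · rw [if_pos h3, if_neg (by simpa using h3)]; ring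
    · rw [if_neg h3, if_pos h3]; ring
  · rw [if_neg h1]
    by_cases h3 : w.minFac = z.minFac
    · rw [if_neg (by simpa using h3), if_pos ⟨by omega, h3⟩]; ring
    · rw [if_pos h3, if_neg (fun h => h3 h.2), hS w hw.1 (by omega) h3]; ring

theorem HW_ge (z x c X : ℕ) (hc : 1 ≤ c) (hcX : c ≤ X)
    (hS : ∀ w, IsPrimePow w → c < w → w.minFac ≠ z.minFac → Sx x w = 1) :
    Hpp X - 2 / c ≤ Mz z x c + Wt z x X := by
  have h := HW z x c X hcX hS
  have h2 := tail_inv ((ppK X).filter (fun w => c < w)) c hc (fun w hw => by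
    rw [Finset.mem_filter, mem_ppK] at hw; exact ⟨hw.1.1, hw.2⟩) z.minFac
  linarith

theorem HW_eq (z x c : ℕ)
    (hS : ∀ w, IsPrimePow w → c < w → w.minFac ≠ z.minFac → Sx x w = 1) :
    Hpp c = Mz z x c + Wt z x c := by
  have h := HW z x c c le_rfl hS
  rw [h, Finset.sum_eq_zero]
  · ring
  · intro w hw
    simp only [Finset.mem_filter, mem_ppK] at hw
    omega

theorem kapv_eq (z x c v : ℕ) (h : c ≤ v) : kapv z x (max c v) v = A1 v := by
  rw [max_eq_right h]
  unfold kapv A1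
  change ∑ w ∈ ppK v, _ = ∑ n ∈ ppK v, _
  apply Finset.sum_congr rfl
  intro w hw
  rw [mem_ppK] at hw
  rw [if_pos (Or.inl hw.2), one_mul]

theorem A1_mono {a b : ℕ} (h : a ≤ b) : A1 a ≤ A1 b := by
  unfold A1
  apply Finset.sum_le_sum_of_subset_of_nonneg
  · intro w hw
    rw [Finset.mem_filter, Finset.mem_Icc] at hw ⊢
    exact ⟨⟨hw.1.1, hw.1.2.trans h⟩, hw.2⟩
  · intro w _ _
    exact div_nonneg (Real.log_natCast_nonneg w) (Nat.cast_nonneg w)

theorem Hpp_mono {a b : ℕ} (h : a ≤ b) : Hpp a ≤ Hpp b := by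
  unfold Hpp
  apply Finset.sum_le_sum_of_subset_of_nonneg
  · intro w hw
    rw [mem_ppK] at hw ⊢
    exact ⟨hw.1, hw.2.trans h⟩
  · intro w _ _
    positivity

/-! ### rounding -/

theorem cdv_ge (a b : ℕ) (hb : 0 < b) : (a : ℝ) / b ≤ (cdv a b : ℝ) := by
  have h : a ≤ cdv a b * b := by
    have e : cdv a b = (a + (b - 1)) / b := rfl
    rw [e]
    have h1 := Nat.div_add_mod (a + (b - 1)) b
    have h2 := Nat.mod_lt (a + (b - 1)) hb
    have h3 : b * ((a + (b - 1)) / b) = (a + (b - 1)) / b * b := Nat.mul_comm _ _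
    omega
  have hb' : (0 : ℝ) < b := by exact_mod_cast hb
  rw [div_le_iff₀ hb']
  exact_mod_cast h

theorem S9_eq : (S9 : ℝ) = 1000000000 := by unfold S9; norm_num

theorem S9_pos : (0 : ℝ) < (S9 : ℝ) := by rw [S9_eq]; norm_num

/-! ### the run -/

theorem run_pos {z q x zlo c : ℕ} (h : Run z q x zlo c) : 2000000000 ≤ zlo := by
  obtain ⟨_, _, h11, _, _, _, _, h1⟩ := h
  have h2 : (11 : ℝ) ≤ z := by exact_mod_cast h11
  have h3 : Real.log 8 ≤ Real.log z := Real.log_le_log (by norm_num) (by linarith)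
  have h4 : Real.log 8 = 3 * Real.log 2 := by
    rw [show (8 : ℝ) = 2 ^ 3 by norm_num, Real.log_pow]; norm_num
  have h5 := Real.log_two_gt_d9
  rw [S9_eq] at h1
  have : (2000000000 : ℝ) ≤ zlo := by linarith
  exact_mod_cast this
end EngPB

/-! ### the general statements -/

theorem oa_top (z x u : ℕ) (hu : 1 ≤ u) : OaOK z x u (2 / (u : ℝ)) := EngPB.oaOK z x u hu

theorem oc_top (z x u : ℕ) (hu : 3 ≤ u) (hz : 1 ≤ z) :
    OcOK z x u ((2 * max (Real.log z) (Real.log u) + 2 * Real.log 2) / (u : ℝ)) :=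
  EngPB.ocOK z x u hu hz

theorem mw_ge (z x c X : ℕ) (hc : 1 ≤ c) (hcX : c ≤ X)
    (hS : ∀ w, IsPrimePow w → c < w → w.minFac ≠ z.minFac → Sx x w = 1) :
    Hpp X - 2 / (c : ℝ) ≤ Mz z x c + Wt z x X := EngPB.HW_ge z x c X hc hcX hS

theorem mw_eq (z x c : ℕ)
    (hS : ∀ w, IsPrimePow w → c < w → w.minFac ≠ z.minFac → Sx x w = 1) :
    Mz z x c + Wt z x c = Hpp c := (EngPB.HW_eq z x c hS).symm

end Pool.Agent.EZ
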