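import Pool.Agent.EZ.EngP1
import Pool.Agent.EZ.EngHi

/-!
# The numerical engine: the singles, absolute constant (P1A)
-/

set_option autoImplicit false
set_option linter.unusedSectionVars false

namespace Pool.Agent.EZ

open Finset

namespace P1

theorem SumOK_gap {z x u v : ℕ} {a : ℝ} (h : SumOK z x u a) (hvu : v ≤ u)
    (h0 : ∀ w, IsPrimePow w → w.minFac ≠ z.minFac → v < w → w ≤ u → Sx x w = 0) :
    SumOK z x v a := by
  obtain ⟨C, hC0, hC, hs⟩ := h
  refine ⟨C, hC0, ?_, ?_⟩
  · intro w h1 h2 h3 h4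
    by_cases h5 : u < w
    · exact hC w h1 h2 h3 h5
    · have := h0 w h1 h2 h4 (by omega)
      linarith
  · intro N
    refine le_trans (le_of_eq ?_) (hs N)
    symm
    apply Finset.sum_subset
    · intro w hw
      rw [Finset.mem_filter] at hw ⊢
      exact ⟨hw.1, by omega, hw.2.2⟩
    · intro w hw hw2
      rw [Finset.mem_filter] at hw hw2
      have h1 := mem_ppK.1 hw.1
      have h5 : ¬ u < w := fun h6 => hw2 ⟨hw.1, h6, hw.2.2⟩
      rw [h0 w h1.1 hw.2.2 hw.2.1 (by omega)]
      simp

theorem SumOK_step {z x v : ℕ} {a t C0 : ℝ} (h : SumOK z x v a) (hv : IsPrimePow v)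
    (hC0 : 0 ≤ C0) (hK : KB z x v (C0 * Real.log ((z : ℝ) * v)))
    (ht : Sx x v / (v : ℝ) * C0 ≤ t) : SumOK z x (v - 1) (a + t) := by
  obtain ⟨C, hCn, hC, hs⟩ := h
  have hv1 := hv.one_lt
  have ht0 : 0 ≤ t := (mul_nonneg (Sx_div_nonneg x v) hC0).trans ht
  refine ⟨Function.update C v C0, ?_, ?_, ?_⟩
  · intro w
    by_cases hw : w = v
    · subst hw; rw [Function.update_self]; exact hC0
    · rw [Function.update_of_ne hw]; exact hCn w
  · intro w h1 h2 h3 h4
    by_cases hw : w = v
    · subst hw; rw [Function.update_self]; exact hK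
    · rw [Function.update_of_ne hw]
      exact hC w h1 h2 h3 (by omega)
  · intro N
    have e : ∑ w ∈ (ppK N).filter (fun w => v < w ∧ w.minFac ≠ z.minFac),
        Sx x w / (w : ℝ) * Function.update C v C0 w
        = ∑ w ∈ (ppK N).filter (fun w => v < w ∧ w.minFac ≠ z.minFac), Sx x w / (w : ℝ) * C w := by
      apply Finset.sum_congr rfl
      intro w hw
      rw [Finset.mem_filter] at hw
      rw [Function.update_of_ne (by omega)]
    have h1 := hs N
    rw [← e] at h1
    have hsub : (ppK N).filter (fun w => v - 1 < w ∧ w.minFac ≠ z.minFac)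
        ⊆ insert v ((ppK N).filter (fun w => v < w ∧ w.minFac ≠ z.minFac)) := by
      intro w hw
      rw [Finset.mem_filter] at hw
      rw [Finset.mem_insert, Finset.mem_filter]
      by_cases hwv : w = v
      · exact Or.inl hwv
      · exact Or.inr ⟨hw.1, by omega, hw.2.2⟩
    have hnn : ∀ w, 0 ≤ Sx x w / (w : ℝ) * Function.update C v C0 w := by
      intro w
      apply mul_nonneg (Sx_div_nonneg x w)
      by_cases hw : w = v
      · subst hw; rw [Function.update_self]; exact hC0
      · rw [Function.update_of_ne hw]; exact hCn w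
    have h2 := Finset.sum_le_sum_of_subset_of_nonneg hsub
      (f := fun w => Sx x w / (w : ℝ) * Function.update C v C0 w) (fun w _ _ => hnn w)
    rw [Finset.sum_insert (by rw [Finset.mem_filter]; rintro ⟨-, h3, -⟩; omega),
      Function.update_self] at h2
    linarith

/-- contribution of a component -/
def tF (h E wd : ℕ) : ℕ := cdv (cdv ((wd + 1) * h) S9 * E) S9

def tG (F wd l : ℕ) : ℕ := cdv (cdv ((wd + 1) * 1012) 1000 * F) l

noncomputable def mK (z v h E wd l : ℕ) (kk : ℕ → Bool) : Bool :=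
  cond (Nat.ble (max 121 (z * z)) v)
    (expK (cdv 2000000000 v) fun F => kk (min (tF h E wd) (tG F wd l))) (kk (tF h E wd))

theorem pass1A_cons (z q x zlo : ℕ) (k : ℕ → Bool) (v r lv lr a1 : ℕ) (L : List Ent)
    (D h Oc acc : ℕ) :
    pass1A z q x zlo k ((v, r, lv, lr, a1) :: L) D h Oc acc =
      (fun s : ℕ => cond (Nat.beq s 0)
        (pass1A z q x zlo k L (D + cdv (lv + 2) v) h Oc acc)
        (cellK (z * v) (z * v) ((zlo + lv) / 2) (a1 + D) Oc fun e =>
          cond (Nat.ble e 2000000000)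
            (expK e fun E => mK z v h E (wdF s v) (zlo + lv) fun t =>
              pass1A z q x zlo k L (dF D s lv v) (hF h (wdF s v))
                (max Oc (ocF s r v zlo lv lr)) (acc + t))
            false)) (cond (Nat.beq r q) 0 (svF x v r)) := by
  show (frc v fun v => frc r fun r => frc (Nat.add lv 2) fun lu =>
      frc (cond (Nat.beq r q) 0 (svF x v r)) fun s =>
      cond (Nat.beq s 0)
        (frc (Nat.add D (cdv lu v)) fun D' => pass1A z q x zlo k L D' h Oc acc)
        (frc (Nat.mul z v) fun zv => frc (Nat.div (Nat.add zlo lv) 2) fun N =>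
          frc (Nat.add a1 D) fun K =>
          cellK zv zv N K Oc fun e =>
          cond (Nat.ble e 2000000000)
            (frc (Nat.div (Nat.mul s S9) (Nat.mul 1000 v)) fun wd => frc (Nat.succ wd) fun wu =>
              expK e fun E =>
              frc (cdv (Nat.mul (cdv (Nat.mul wu h) S9) E) S9) fun t =>
              (fun kk : ℕ → Bool =>
                cond (Nat.ble (Nat.max 121 (Nat.mul z z)) v)
                  (expK (cdv 2000000000 v) fun F =>
                      frc (Nat.min t (cdv (Nat.mul (cdv (Nat.mul wu 1012) 1000) F)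
                        (Nat.add zlo lv))) kk)
                  (kk t)) fun t =>
              frc (cdv (Nat.mul wu wu) S9) fun wu2 =>
              frc (cdv (Nat.mul h (Nat.add (Nat.add S9 wu) (Nat.add (cdv wu2 2)
                (cdv (Nat.mul wu2 wu) 4000000000)))) S9) fun h' =>
              frc (Nat.pred r) fun r1 =>
              frc (Nat.add (Nat.mul s r1) 1000) fun a =>
              frc (Nat.mul (Nat.mul 1000 r1) v) fun b =>
              frc (Nat.max Oc (Nat.add (cdv (Nat.mul (Nat.max (Nat.add zlo 2) lu) a) b)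
                (cdv (Nat.mul r (Nat.add lr 2)) (Nat.mul (Nat.mul r1 r1) v)))) fun Oc' =>
              frc (Nat.add D (cdv (Nat.mul (Nat.sub 1000 s) lu) (Nat.mul 1000 v))) fun D' =>
              frc (Nat.add acc t) fun acc' =>
              pass1A z q x zlo k L D' h' Oc' acc')
            false)) = _
  simp only [frc_eq]
  rfl

theorem tF_ok {h E wd : ℕ} {w X Y : ℝ} (h2 : w * S9 ≤ (wd : ℝ) + 1)
    (hh : Real.exp X ≤ (h : ℝ) / S9) (hE : Real.exp Y ≤ (E : ℝ) / S9) :
    w * Real.exp (X + Y) ≤ (tF h E wd : ℝ) / S9 := by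
  have hS := S9_pos
  rw [le_div_iff₀ hS] at hh hE
  rw [le_div_iff₀ hS]
  unfold tF
  refine le_trans ?_ (cdv_ge _ _ (by unfold S9; norm_num))
  rw [le_div_iff₀ hS, Nat.cast_mul]
  have e1 := cdv_ge ((wd + 1) * h) S9 (by unfold S9; norm_num)
  have e2 : w * S9 * Real.exp X ≤ (cdv ((wd + 1) * h) S9 : ℝ) := by
    refine le_trans ?_ e1
    rw [le_div_iff₀ hS]
    push_cast
    calc w * S9 * Real.exp X * S9 = (w * S9) * (Real.exp X * S9) := by ring
      _ ≤ ((wd : ℝ) + 1) * h := mul_le_mul h2 hh (by positivity) (by positivity)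
  rw [Real.exp_add]
  calc w * (Real.exp X * Real.exp Y) * S9 * S9
      = (w * S9 * Real.exp X) * (Real.exp Y * S9) := by ring
    _ ≤ _ := mul_le_mul e2 hE (by positivity) (Nat.cast_nonneg _)

theorem tG_ok {F wd l : ℕ} {w Y lg : ℝ} (h2 : w * S9 ≤ (wd : ℝ) + 1)
    (hF : Real.exp Y ≤ (F : ℝ) / S9) (hl : (l : ℝ) ≤ S9 * lg) (hl0 : 0 < l) :
    w * (1.012 * Real.exp Y / lg) ≤ (tG F wd l : ℝ) / S9 := by
  have hS := S9_pos
  have hl0' : (0 : ℝ) < l := by exact_mod_cast hl0
  have hlg : 0 < lg := by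
    by_contra h
    rw [not_lt] at h
    nlinarith
  rw [le_div_iff₀ hS] at hF
  rw [le_div_iff₀ hS]
  unfold tG
  refine le_trans ?_ (cdv_ge _ _ hl0)
  rw [le_div_iff₀ hl0', Nat.cast_mul]
  have e1 := cdv_ge ((wd + 1) * 1012) 1000 (by norm_num)
  have e2 : w * S9 * 1.012 ≤ (cdv ((wd + 1) * 1012) 1000 : ℝ) := by
    refine le_trans ?_ e1
    rw [le_div_iff₀ (by norm_num)]
    push_cast
    nlinarith
  by_cases hw : 0 ≤ w
  · calc w * (1.012 * Real.exp Y / lg) * S9 * l
        ≤ w * (1.012 * Real.exp Y / lg) * S9 * (S9 * lg) :=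
          mul_le_mul_of_nonneg_left hl (by positivity)
      _ = (w * S9 * 1.012) * (Real.exp Y * S9) := by field_simp
      _ ≤ _ := mul_le_mul e2 hF (by positivity) (Nat.cast_nonneg _)
  · rw [not_le] at hw
    have h3 : w * (1.012 * Real.exp Y / lg) * S9 * l ≤ 0 := by
      have : 0 ≤ (1.012 * Real.exp Y / lg) * S9 * l := by positivity
      nlinarith
    exact h3.trans (by positivity)

theorem mK_ok (hExp : Stmt_Exp) (hFBK : Stmt_FBK) {z x c v h E wd l e : ℕ} {kk : ℕ → Bool}
    (hz : IsPrimePow z) (hv : IsPrimePow v) (h2 : Sx x v / (v : ℝ) * S9 ≤ (wd : ℝ) + 1)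
    (hh : Real.exp (0.4575 - Mz z x c - Wt z x v) ≤ (h : ℝ) / S9)
    (hE : Real.exp ((e : ℝ) / S9) ≤ (E : ℝ) / S9) (hcell : CellOK z x c v ((e : ℝ) / S9))
    (hl : (l : ℝ) ≤ S9 * Real.log ((z : ℝ) * v)) (hl0 : 0 < l) (hk : mK z v h E wd l kk = true) :
    ∃ t : ℕ, kk t = true ∧ ∃ C0 : ℝ, 0 ≤ C0 ∧ KB z x v (C0 * Real.log ((z : ℝ) * v)) ∧
      Sx x v / (v : ℝ) * C0 ≤ (t : ℝ) / S9 := by
  have hS := S9_pos
  have hv1 := hv.one_lt
  have hz1 := hz.one_lt
  have hzr : (1 : ℝ) < z := by exact_mod_cast hz1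
  have hvr : (1 : ℝ) < v := by exact_mod_cast hv1
  have hlog : 0 < Real.log ((z : ℝ) * v) := Real.log_pos (by nlinarith)
  -- first candidate
  have c1 : 0 ≤ Real.exp (0.4575 - Mz z x c - Wt z x v + (e : ℝ) / S9) ∧
      KB z x v (Real.exp (0.4575 - Mz z x c - Wt z x v + (e : ℝ) / S9) * Real.log ((z : ℝ) * v)) ∧
      Sx x v / (v : ℝ) * Real.exp (0.4575 - Mz z x c - Wt z x v + (e : ℝ) / S9)
        ≤ (tF h E wd : ℝ) / S9 := by
    refine ⟨(Real.exp_pos _).le, ?_, tF_ok h2 hh hE⟩
    rw [mul_comm]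
    exact hcell
  unfold mK at hk
  by_cases hb : max 121 (z * z) ≤ v
  · rw [ble_of_le hb, cond_true] at hk
    obtain ⟨F, hkF, hF⟩ := hExp.1 _ _ hk
    have h121 : 121 ≤ v := (le_max_left _ _).trans hb
    have hzz : z * z ≤ v := (le_max_right _ _).trans hb
    have hv0 : 0 < v := by omega
    have hy : cdv 2000000000 v ≤ 2000000000 := by
      change (2000000000 + (v - 1)) / v ≤ 2000000000
      rw [Nat.div_le_iff_le_mul_add_pred hv0]
      nlinarith
    have hF' := hF hy
    have hF2 : Real.exp (2 / (v : ℝ)) ≤ (F : ℝ) / S9 := by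
      refine le_trans (Real.exp_le_exp.2 ?_) hF'
      rw [le_div_iff₀ hS]
      refine le_trans (le_of_eq ?_) (cdv_ge 2000000000 v hv0)
      rw [S9_val]
      push_cast
      ring
    refine ⟨_, hkF, ?_⟩
    rcases le_total (tF h E wd) (tG F wd l) with hmin | hmin
    · rw [min_eq_left hmin]
      exact ⟨_, c1⟩
    · rw [min_eq_right hmin]
      refine ⟨1.012 * Real.exp (2 / (v : ℝ)) / Real.log ((z : ℝ) * v), by positivity, ?_,
        tG_ok h2 hF2 hl hl0⟩
      rw [div_mul_cancel₀ _ hlog.ne']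
      refine hFBK z x v (2 / (v : ℝ)) hz hv h121 (by rw [sq]; exact hzz) (by positivity) ?_ ?_
      · have h3 : (121 : ℝ) ≤ v := by exact_mod_cast h121
        have h4 : 2 / (v : ℝ) ≤ 1 / 2 := by
          rw [div_le_div_iff₀ (by linarith) (by norm_num)]
          linarith
        have h5 : Real.exp (1 / 2) ≤ 2 := by
          rw [← Real.le_log_iff_exp_le (by norm_num)]
          have := Real.log_two_gt_d9
          linarith
        exact (Real.exp_le_exp.2 h4).trans h5
      · intro VS hVS r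
        exact tail_one x v (by omega) VS (fun w hw => ⟨(hVS w hw).1, (hVS w hw).2.1⟩) r
  · rw [ble_false (by omega), cond_false] at hk
    exact ⟨_, hk, _, c1⟩

end P1

open P1

theorem P1A_proof : Stmt_Exp → Stmt_Cell → Stmt_Sv → Stmt_FBK → Stmt_P1A := by
  intro hExp hCell hSv hFBK z q x zlo c k f hR L
  have hR' := hR
  obtain ⟨hz, hq, hz11, hx, hxc, hc, hzl, hzu⟩ := hR
  induction L with
  | nil =>
    intro u D h Oc acc hT huc _ _ _ hA hk
    exact ⟨acc, hk, SumOK_gap hA (Nat.zero_le u) (fun w h1 _ _ h2 => absurd h1 (hT w h2))⟩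
  | cons en L ih =>
    obtain ⟨v, r, lv, lr, a1⟩ := en
    intro u D h Oc acc hT huc hk1 hw1 hOc hAc hk
    obtain ⟨hvu, hno, hv, hr, hl1, hl2, hlr, hA, hT'⟩ := hT
    dsimp only at hvu hno hv hr hl1 hl2 hlr hA hT'
    have hv1 := hv.one_lt
    have hvc : v ≤ c := hvu.trans huc
    have hst : St z x c v D h Oc := St.gap ⟨hk1, hw1, hOc⟩ hvu hno
    have hAv : SumOK z x v ((acc : ℝ) / S9 + f) :=
      SumOK_gap hAc hvu (fun w h1 _ h2 h3 => absurd h1 (hno w h2 h3))
    rw [pass1A_cons] at hk
    generalize hs : cond (Nat.beq r q) 0 (svF x v r) = s at hk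
    obtain ⟨hs0, hs1⟩ := sv_val hSv hx hv hr hq hs.symm
    by_cases h0 : s = 0
    · subst h0
      have hk' : pass1A z q x zlo k L (D + cdv (lv + 2) v) h Oc acc = true := hk
      have h2 := hst.zero hv hvc (hs0 rfl) hl2
      refine ih (v - 1) _ _ _ _ hT' (by omega) h2.kap h2.wt h2.oc
        (SumOK_gap hAv (Nat.sub_le v 1) (fun w h3 h4 h5 h6 => ?_)) hk'
      have : w = v := by omega
      subst this
      rcases hs0 rfl with h7 | h7
      · exact absurd h7 h4
      · exact h7
    · obtain ⟨hrz, hsx, hs2⟩ := hs1 h0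
      have hb : Nat.beq s 0 = false := by
        cases hb : Nat.beq s 0 with
        | false => rfl
        | true => exact absurd (Nat.eq_of_beq_eq_true hb) h0
      dsimp only at hk
      rw [hb, cond_false] at hk
      obtain ⟨e, hke, he⟩ := cell_single hCell hSv hR' hst hv hvc hrz hl1 hA hk
      by_cases hee : e ≤ 2000000000
      · rw [ble_of_le hee, cond_true] at hke
        obtain ⟨E, hkE, hE⟩ := hExp.1 e _ hke
        have hcell := he hee
        have hE2 := hE hee
        have h2 := hst.pos hv hvc hr hrz hsx hs2 hzu hl2 hlr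
        have hb2 := wdF_bounds (s := s) (v := v) (by omega)
        have hv0 : (0 : ℝ) < v := by exact_mod_cast (by omega : 0 < v)
        have hz0 : (0 : ℝ) < z := by exact_mod_cast (by omega : 0 < z)
        obtain ⟨t, hkt, C0, hC0, hKB, ht⟩ := mK_ok (c := c) (x := x) (e := e) hExp hFBK hz hv
          (by rw [hsx]; exact hb2.2) hst.wt hE2 hcell
          (by rw [Real.log_mul hz0.ne' hv0.ne', mul_add]; push_cast; linarith) (by
            have h3 : Real.log 11 ≤ Real.log z :=
              Real.log_le_log (by norm_num) (by exact_mod_cast hz11)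
            have h4 : (1 : ℝ) ≤ Real.log 11 := by
              rw [Real.le_log_iff_exp_le (by norm_num)]
              have := Real.exp_one_lt_d9
              linarith
            have h5 : (1000000000 : ℝ) ≤ (zlo : ℝ) + 2 := by
              refine le_trans ?_ hzu
              rw [S9_val]
              nlinarith
            have h6 : 1000000000 ≤ zlo + 2 := by exact_mod_cast h5
            omega) hkE
        have h3 := SumOK_step hAv hv hC0 hKB ht
        refine ih (v - 1) _ _ _ _ hT' (by omega) h2.kap h2.wt h2.oc ?_ hkt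
        have e1 : ((acc + t : ℕ) : ℝ) / S9 + f = (acc : ℝ) / S9 + f + (t : ℝ) / S9 := by
          push_cast; ring
        rw [e1]
        exact h3
      · rw [ble_false (by omega), cond_false] at hke
        exact absurd hke (by simp)

end Pool.Agent.EZ
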