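import Pool.Agent.EZ.EngExp
import Pool.Agent.EZ.BT

/-!
# The numerical engine: the second pass
-/

set_option autoImplicit false

namespace Pool.Agent.EZ

open Finset

theorem Wt_zero' (z x : ℕ) : Wt z x 0 = 0 := by
  unfold Wt ppK
  simp

theorem PV_extract {z x c u : ℕ} {L : List Piece} (h : PV z x c u L) :
    ∃ (n : ℕ) (X : ℕ → ℕ) (Q : ℕ → Piece), L = (List.range (n + 1)).map Q ∧ X 0 = u ∧
      (∀ i < n, X i < X (i + 1)) ∧ (∀ i ≤ n, PW z x c (X i) (Q i)) ∧
      (∀ v, IsPrimePow v → v.minFac ≠ z.minFac → 0 < Sx x v → ∀ i ≤ n, X i < v →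
        (i < n → v ≤ X (i + 1)) → PL z x c v (Q i)) := by
  induction h with
  | last u p h1 h2 =>
    refine ⟨0, fun _ => u, fun _ => p, rfl, rfl, fun i hi => by omega, fun i _ => h2, ?_⟩
    intro v hv1 hv2 hv3 i _ hi _
    exact h1 v hv1 hv2 hv3 hi
  | step u u' p L hu h1 h2 _ ih =>
    obtain ⟨n, X, Q, rfl, hX0, hX, hW, hP⟩ := ih
    refine ⟨n + 1, fun i => Nat.casesOn i u X, fun i => Nat.casesOn i p Q, ?_, rfl, ?_, ?_, ?_⟩
    · rw [List.range_succ_eq_map (n := n + 1), List.map_cons, List.map_map]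
      rfl
    · intro i hi
      cases i with
      | zero => change u < X 0; rw [hX0]; exact hu
      | succ i => exact hX i (by omega)
    · intro i hi
      cases i with
      | zero => exact h2
      | succ i => exact hW i (by omega)
    · intro v hv1 hv2 hv3 i hi h3 h4
      cases i with
      | zero => exact h1 v hv1 hv2 hv3 h3 (by have := h4 (by omega); rw [← hX0]; exact this)
      | succ i => exact hP v hv1 hv2 hv3 i (by omega) h3 (fun h => h4 (by omega))

/-- running maximum of the levels -/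
def curQ (Q : ℕ → Piece) : ℕ → ℕ
  | 0 => 0
  | i + 1 => max (curQ Q i) (Q i).1

theorem pass2_cons (p : Piece) (L : List Piece) (cur top lin : ℕ) (k : ℕ → ℕ → Bool) :
    pass2 (p :: L) cur top lin k =
      cond (Nat.ble p.2.2 600000000) (cond (Nat.ble p.1 cur) (pass2 L cur top lin k)
        (frc (cdv (Nat.mul (Nat.sub p.1 cur) p.2.1) S9) fun t =>
          frc (cdv (Nat.mul p.2.2 p.2.2) S9) fun o2 =>
          frc (Nat.add top (cdv (Nat.mul t (Nat.sub (Nat.add p.2.2 (cdv (Nat.mul o2 p.2.2) 6000000000))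
            (Nat.div (Nat.mul p.2.2 p.2.2) 2000000000))) S9)) fun top' =>
          frc (Nat.add lin t) fun lin' =>
          pass2 L p.1 top' lin' k)) false := rfl

theorem one_sub_exp_le {w : ℝ} (hw : 0 ≤ w) : 1 - Real.exp (-w) ≤ w - w ^ 2 / 2 + w ^ 3 / 6 := by
  have h := Real.exp_pos (-w)
  -- exp(-w) ≥ 1 - w + w²/2 - w³/6
  have key : ∀ y : ℝ, 0 ≤ y → 1 - y + y ^ 2 / 2 - y ^ 3 / 6 ≤ Real.exp (-y) := by
    have h1 : ∀ y : ℝ, 0 ≤ y → 1 - y ≤ Real.exp (-y) := fun y _ => by
      have := Real.add_one_le_exp (-y); linarith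
    have h2 : ∀ y : ℝ, 0 ≤ y → Real.exp (-y) ≤ 1 - y + y ^ 2 / 2 := by
      intro y hy
      have hm : MonotoneOn (fun t : ℝ => 1 - t + t ^ 2 / 2 - Real.exp (-t)) (Set.Ici 0) := by
        apply monotoneOn_of_deriv_nonneg (convex_Ici 0)
        · fun_prop
        · fun_prop
        · intro t ht
          rw [interior_Ici] at ht
          have hd : HasDerivAt (fun t : ℝ => 1 - t + t ^ 2 / 2 - Real.exp (-t))
              (-1 + t + Real.exp (-t)) t := by
            have e1 : HasDerivAt (fun t : ℝ => Real.exp (-t)) (Real.exp (-t) * (-1)) t :=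
              (hasDerivAt_neg t).exp
            have e2 : HasDerivAt (fun t : ℝ => t ^ 2 / 2) ((2 : ℕ) * t ^ (2 - 1) * 1 / 2) t :=
              ((hasDerivAt_id t).pow 2).div_const 2
            have e3 : HasDerivAt (fun t : ℝ => 1 - t) (-1) t := by
              simpa using (hasDerivAt_id t).const_sub 1
            exact ((e3.add e2).sub e1).congr_deriv (by norm_num)
          rw [hd.deriv]
          have := h1 t (le_of_lt ht)
          linarith
      have := hm (Set.mem_Ici.2 le_rfl) (Set.mem_Ici.2 hy) hy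
      simp only [neg_zero, Real.exp_zero] at this
      norm_num at this
      linarith
    intro y hy
    have hm : MonotoneOn (fun t : ℝ => Real.exp (-t) - (1 - t + t ^ 2 / 2 - t ^ 3 / 6))
        (Set.Ici 0) := by
      apply monotoneOn_of_deriv_nonneg (convex_Ici 0)
      · fun_prop
      · fun_prop
      · intro t ht
        rw [interior_Ici] at ht
        have hd : HasDerivAt (fun t : ℝ => Real.exp (-t) - (1 - t + t ^ 2 / 2 - t ^ 3 / 6))
            (-Real.exp (-t) - (-1 + t - t ^ 2 / 2)) t := by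
          have e1 : HasDerivAt (fun t : ℝ => Real.exp (-t)) (Real.exp (-t) * (-1)) t :=
            (hasDerivAt_neg t).exp
          have e2 : HasDerivAt (fun t : ℝ => t ^ 2 / 2) ((2 : ℕ) * t ^ (2 - 1) * 1 / 2) t :=
            ((hasDerivAt_id t).pow 2).div_const 2
          have e4 : HasDerivAt (fun t : ℝ => t ^ 3 / 6) ((3 : ℕ) * t ^ (3 - 1) * 1 / 6) t :=
            ((hasDerivAt_id t).pow 3).div_const 6
          have e3 : HasDerivAt (fun t : ℝ => 1 - t) (-1) t := by
            simpa using (hasDerivAt_id t).const_sub 1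
          exact (e1.sub ((e3.add e2).sub e4)).congr_deriv (by norm_num; ring)
        rw [hd.deriv]
        have := h2 t (le_of_lt ht)
        linarith
    have := hm (Set.mem_Ici.2 le_rfl) (Set.mem_Ici.2 hy) hy
    simp only [neg_zero, Real.exp_zero] at this
    norm_num at this
    linarith
  have := key w hw
  linarith

/-- the increment of the second pass -/
theorem top_incr (t o : ℕ) :
    (t : ℝ) / S9 * ((o : ℝ) / S9 - ((o : ℝ) / S9) ^ 2 / 2 + ((o : ℝ) / S9) ^ 3 / 6)
      ≤ (cdv (Nat.mul t (Nat.sub (Nat.add o (cdv (Nat.mul (cdv (Nat.mul o o) S9) o) 6000000000))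
            (Nat.div (Nat.mul o o) 2000000000))) S9 : ℝ) / S9 := by
  have hS := S9_pos
  rw [le_div_iff₀ hS]
  refine le_trans ?_ (cdv_ge _ S9 (by unfold S9; norm_num))
  rw [le_div_iff₀ hS]
  set w : ℝ := (o : ℝ) / S9 with hw
  have hw0 : 0 ≤ w := by positivity
  have how : (o : ℝ) = w * S9 := by rw [hw]; field_simp
  have h1 := sq_step hw0 le_rfl (a := o)
  set o2 := cdv (Nat.mul o o) S9 with ho2
  have h1' : w ^ 2 * S9 ≤ (o2 : ℝ) := by rwa [le_div_iff₀ hS] at h1
  have h3 : w ^ 3 / 6 * S9 ≤ (cdv (Nat.mul o2 o) 6000000000 : ℝ) := by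
    refine le_trans ?_ (cdv_ge (Nat.mul o2 o) 6000000000 (by norm_num))
    have e1 : ((Nat.mul o2 o : ℕ) : ℝ) = (o2 : ℝ) * o := by
      change ((o2 * o : ℕ) : ℝ) = _
      push_cast; ring
    rw [e1, how, le_div_iff₀ (by norm_num)]
    push_cast
    have hx3 : w ^ 2 * S9 * (w * S9) ≤ (o2 : ℝ) * (w * S9) :=
      mul_le_mul_of_nonneg_right h1' (by positivity)
    rw [S9_val] at hx3 ⊢
    nlinarith [hx3]
  have h4 : ((Nat.div (Nat.mul o o) 2000000000 : ℕ) : ℝ) ≤ w ^ 2 / 2 * S9 := by
    have e1 : ((Nat.div (Nat.mul o o) 2000000000 : ℕ) : ℝ) ≤ ((o * o : ℕ) : ℝ) / 2000000000 := by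
      change ((o * o / 2000000000 : ℕ) : ℝ) ≤ _
      have := @Nat.cast_div_le ℝ _ _ _ (o * o) 2000000000
      push_cast at this ⊢
      exact this
    refine e1.trans (le_of_eq ?_)
    push_cast
    rw [how, S9_val]
    ring
  have h5 : (w - w ^ 2 / 2 + w ^ 3 / 6) * S9 ≤
      ((Nat.sub (Nat.add o (cdv (Nat.mul o2 o) 6000000000))
        (Nat.div (Nat.mul o o) 2000000000) : ℕ) : ℝ) := by
    have e1 : ((o + cdv (Nat.mul o2 o) 6000000000 : ℕ) : ℝ)
        - ((Nat.div (Nat.mul o o) 2000000000 : ℕ) : ℝ)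
        ≤ ((o + cdv (Nat.mul o2 o) 6000000000 - Nat.div (Nat.mul o o) 2000000000 : ℕ) : ℝ) := by
      rw [sub_le_iff_le_add]
      exact_mod_cast (le_tsub_add : o + cdv (Nat.mul o2 o) 6000000000
        ≤ o + cdv (Nat.mul o2 o) 6000000000 - Nat.div (Nat.mul o o) 2000000000
          + Nat.div (Nat.mul o o) 2000000000)
    refine le_trans ?_ e1
    push_cast
    rw [how]
    nlinarith [h3, h4]
  set s := Nat.sub (Nat.add o (cdv (Nat.mul o2 o) 6000000000))
        (Nat.div (Nat.mul o o) 2000000000) with hs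
  have e2 : ((Nat.mul t s : ℕ) : ℝ) = (t : ℝ) * s := by
    change ((t * s : ℕ) : ℝ) = _
    push_cast; ring
  rw [e2]
  have ht0 : (0 : ℝ) ≤ t := by positivity
  have := mul_le_mul_of_nonneg_left h5 ht0
  have e3 : (t : ℝ) / S9 * (w - w ^ 2 / 2 + w ^ 3 / 6) * S9 * S9
      = (t : ℝ) * ((w - w ^ 2 / 2 + w ^ 3 / 6) * S9) := by
    field_simp
  rw [e3]
  exact this

theorem stmt_P2 : Stmt_P2 := by
  intro z x c P k hz hPV hpass
  obtain ⟨n, X, Q, rfl, hX0, hX, hW, hP⟩ := PV_extract hPV
  have hS := S9_pos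
  set c0 : ℝ := Real.exp (0.4575 - Mz z x c) with hc0
  have hc0pos : 0 < c0 := Real.exp_pos _
  set Ew : ℕ → ℝ := fun i => Real.exp (-Wt z x (X i)) with hEw
  set om : ℕ → ℝ := fun i => ((Q i).2.2 : ℝ) / S9 with hom
  set dl : ℕ → ℝ := fun i => (((curQ Q (i + 1) : ℕ) : ℝ) - curQ Q i) / S9 with hdl
  have hcur : ∀ i, curQ Q i ≤ curQ Q (i + 1) := fun i => le_max_left _ _
  have hdl0 : ∀ i, 0 ≤ dl i := by
    intro i
    have : ((curQ Q i : ℕ) : ℝ) ≤ curQ Q (i + 1) := by exact_mod_cast hcur i
    rw [hdl]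
    exact div_nonneg (by linarith) hS.le
  have hwt : ∀ i ≤ n, c0 * Ew i ≤ ((Q i).2.1 : ℝ) / S9 := by
    intro i hi
    have h1 := (hW i hi).1
    rw [hc0, hEw]
    simp only
    rw [← Real.exp_add]
    refine le_trans (le_of_eq ?_) h1
    congr 1
  -- forward induction
  have hfw : ∀ i, i ≤ n + 1 → ∃ top lin : ℕ,
      pass2 (((List.range (n + 1)).drop i).map Q) (curQ Q i) top lin k = true ∧
      c0 * ∑ j ∈ range i, dl j * Ew j ≤ (lin : ℝ) / S9 ∧
      c0 * ∑ j ∈ range i, dl j * Ew j * (1 - Real.exp (-om j)) ≤ (top : ℝ) / S9 ∧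
      ∀ j < i, (Q j).2.2 ≤ 600000000 := by
    intro i
    induction i with
    | zero =>
      intro _
      refine ⟨0, 0, ?_, by simp, by simp, fun j hj => by omega⟩
      exact hpass
    | succ i ih =>
      intro hi
      obtain ⟨top, lin, h1, h2, h3, h4⟩ := ih (by omega)
      have hdrop : ((List.range (n + 1)).drop i).map Q
          = Q i :: ((List.range (n + 1)).drop (i + 1)).map Q := by
        have : (List.range (n + 1)).drop i = i :: (List.range (n + 1)).drop (i + 1) := by
          have h := List.drop_eq_getElem_cons (l := List.range (n + 1)) (i := i)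
            (by simpa using (by omega : i < n + 1))
          rw [h]
          simp
        rw [this, List.map_cons]
      rw [hdrop, pass2_cons] at h1
      cases hb : Nat.ble (Q i).2.2 600000000 with
      | false => rw [hb, cond_false] at h1; exact absurd h1 (by decide)
      | true =>
        rw [hb, cond_true] at h1
        have hb' := le_of_ble hb
        have h4' : ∀ j < i + 1, (Q j).2.2 ≤ 600000000 := by
          intro j hj
          rcases Nat.lt_succ_iff_lt_or_eq.1 hj with h | h
          · exact h4 j h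
          · rw [h]; exact hb'
        cases hc : Nat.ble (Q i).1 (curQ Q i) with
        | true =>
          rw [hc, cond_true] at h1
          have hc' := le_of_ble hc
          have hcc : curQ Q (i + 1) = curQ Q i := max_eq_left hc'
          have hd0 : dl i = 0 := by
            rw [hdl]; simp only; rw [hcc, sub_self, zero_div]
          refine ⟨top, lin, ?_, ?_, ?_, h4'⟩
          · rw [hcc]; exact h1
          · rw [sum_range_succ, hd0, zero_mul, add_zero]; exact h2
          · rw [sum_range_succ, hd0, zero_mul, zero_mul, add_zero]; exact h3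
        | false =>
          rw [hc, cond_false] at h1
          simp only [frc_eq] at h1
          have hc' : curQ Q i < (Q i).1 := by
            by_contra hcon
            rw [ble_of_le (not_lt.1 hcon)] at hc
            exact absurd hc (by decide)
          have hcc : curQ Q (i + 1) = (Q i).1 := max_eq_right hc'.le
          set t := cdv (Nat.mul (Nat.sub (Q i).1 (curQ Q i)) (Q i).2.1) S9 with ht
          have htt : c0 * (dl i * Ew i) ≤ (t : ℝ) / S9 := by
            rw [le_div_iff₀ hS]
            refine le_trans ?_ (cdv_ge _ S9 (by unfold S9; norm_num))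
            rw [le_div_iff₀ hS]
            have e1 : ((Nat.mul (Nat.sub (Q i).1 (curQ Q i)) (Q i).2.1 : ℕ) : ℝ)
                = (((Q i).1 : ℝ) - curQ Q i) * (Q i).2.1 := by
              change ((((Q i).1 - curQ Q i) * (Q i).2.1 : ℕ) : ℝ) = _
              rw [Nat.cast_mul, Nat.cast_sub hc'.le]
            rw [e1]
            have e2 : dl i * S9 = ((Q i).1 : ℝ) - curQ Q i := by
              rw [hdl]; simp only; rw [hcc]; field_simp
            have e3 := hwt i (by omega)
            rw [le_div_iff₀ hS] at e3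
            have e4 : c0 * (dl i * Ew i) * S9 * S9 = (dl i * S9) * (c0 * Ew i * S9) := by ring
            rw [e4, e2]
            apply mul_le_mul_of_nonneg_left e3
            rw [← e2]
            exact mul_nonneg (hdl0 i) hS.le
          refine ⟨Nat.add top (cdv (Nat.mul t (Nat.sub (Nat.add (Q i).2.2
            (cdv (Nat.mul (cdv (Nat.mul (Q i).2.2 (Q i).2.2) S9) (Q i).2.2) 6000000000))
            (Nat.div (Nat.mul (Q i).2.2 (Q i).2.2) 2000000000))) S9), Nat.add lin t,
            ?_, ?_, ?_, h4'⟩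
          · rw [hcc]; exact h1
          · rw [sum_range_succ, mul_add]
            change _ ≤ ((lin + t : ℕ) : ℝ) / S9
            push_cast
            rw [add_div]
            linarith
          · rw [sum_range_succ, mul_add]
            change _ ≤ ((top + _ : ℕ) : ℝ) / S9
            rw [Nat.cast_add, add_div]
            refine add_le_add h3 ?_
            refine le_trans ?_ (top_incr t (Q i).2.2)
            have hom0 : 0 ≤ om i := by rw [hom]; positivity
            have e5 := one_sub_exp_le hom0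
            have e6 : 0 ≤ 1 - Real.exp (-om i) := by
              have : Real.exp (-om i) ≤ 1 := Real.exp_le_one_iff.2 (by linarith)
              linarith
            calc c0 * (dl i * Ew i * (1 - Real.exp (-om i)))
                = (c0 * (dl i * Ew i)) * (1 - Real.exp (-om i)) := by ring
              _ ≤ ((t : ℝ) / S9) * (1 - Real.exp (-om i)) := mul_le_mul_of_nonneg_right htt e6
              _ ≤ ((t : ℝ) / S9) * (om i - om i ^ 2 / 2 + om i ^ 3 / 6) :=
                  mul_le_mul_of_nonneg_left e5 (by positivity)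
  obtain ⟨top, lin, h1, h2, h3, h4⟩ := hfw (n + 1) le_rfl
  have hnil : ((List.range (n + 1)).drop (n + 1)).map Q = [] := by
    rw [List.drop_of_length_le (by simp)]
    rfl
  rw [hnil] at h1
  have hk : k top lin = true := h1
  refine ⟨top, lin, hk, ?_⟩
  -- apply the block theorem
  have hE0 : Ew 0 = 1 := by
    rw [hEw]; simp only; rw [hX0, Wt_zero', neg_zero, Real.exp_zero]
  have hG := stmt_BT z x n X (fun i => c0 * (((curQ Q (i + 1) : ℕ) : ℝ) / S9)) Ew hz hX0 hX
    (fun i => by positivity)
    (fun i _ => by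
      apply mul_le_mul_of_nonneg_left _ hc0pos.le
      apply div_le_div_of_nonneg_right _ hS.le
      exact_mod_cast hcur (i + 1))
    (fun i _ => le_rfl)
    (fun v hv1 hv2 hv3 i hi h5 h6 => by
      obtain ⟨e, he1, he2⟩ := hP v hv1 hv2 hv3 i hi h5 h6
      refine ⟨_, he1, ?_⟩
      have hlog : 0 < Real.log ((z : ℝ) * v) := by
        apply Real.log_pos
        have z1 : (1 : ℝ) < z := by exact_mod_cast hz.one_lt
        have v1 : (1 : ℝ) < v := by exact_mod_cast hv1.one_lt
        nlinarith
      rw [mul_div_assoc, mul_comm (Real.log ((z : ℝ) * v)), div_mul_eq_mul_div, mul_div_assoc,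
        div_self hlog.ne', mul_one, ← Real.exp_add]
      have e1 : 0.4575 - Mz z x c - Wt z x v + e + (Wt z x v - Sx x v / (v : ℝ) / 2)
          = (0.4575 - Mz z x c) + (e - Sx x v / (v : ℝ) / 2) := by ring
      rw [e1, Real.exp_add]
      refine mul_le_mul_of_nonneg_left (he2.trans ?_) hc0pos.le
      apply div_le_div_of_nonneg_right _ hS.le
      have : (Q i).1 ≤ curQ Q (i + 1) := le_max_right _ _
      exact_mod_cast this)
  obtain ⟨hL, hT⟩ := hG
  have z1 : (1 : ℝ) < z := by exact_mod_cast hz.one_lt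
  have hlz : 0 < Real.log z := Real.log_pos z1
  have hhz : 0 ≤ hh (z : ℝ) := hh_nonneg z1.le
  have hGd : ∀ i, c0 * (((curQ Q (i + 1 + 1) : ℕ) : ℝ) / S9) - c0 * (((curQ Q (i + 1) : ℕ) : ℝ) / S9)
      = c0 * dl (i + 1) := by
    intro i
    rw [hdl]; simp only; ring
  have hG0 : c0 * (((curQ Q (0 + 1) : ℕ) : ℝ) / S9) = c0 * dl 0 := by
    rw [hdl]; simp only
    have : curQ Q 0 = 0 := rfl
    rw [this]; simp
  constructor
  · intro M hM VS hVS hMV
    refine (hL M hM VS hVS hMV).trans ?_
    apply mul_le_mul_of_nonneg_right _ (hit_nonneg x VS hVS M)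
    apply mul_le_mul_of_nonneg_right _ hhz
    apply mul_le_mul_of_nonneg_left _ hlz.le
    refine le_trans (le_of_eq ?_) h2
    rw [sum_range_succ', hG0, hE0, mul_one, mul_add, add_comm]
    congr 1
    rw [Finset.mul_sum]
    refine sum_congr rfl fun i _ => ?_
    rw [hGd]; ring
  · intro M hM hI
    have hT' := hT om (fun i hi => ⟨?_, (hW i hi).2⟩)
    · refine (hT' M hM hI).trans ?_
      apply mul_le_mul_of_nonneg_right _ hhz
      apply mul_le_mul_of_nonneg_left _ hlz.le
      refine le_trans (le_of_eq ?_) h3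
      rw [sum_range_succ', hG0, hE0, mul_one, mul_add, add_comm]
      congr 1
      · rw [Finset.mul_sum]
        refine sum_congr rfl fun i _ => ?_
        rw [hGd]; ring
      · ring
    · have h5 := h4 i (by omega)
      have h6 : om i ≤ 0.6 := by
        rw [hom]; simp only
        rw [div_le_iff₀ hS, S9_val]
        have : ((Q i).2.2 : ℝ) ≤ 600000000 := by exact_mod_cast h5
        linarith
      have h7 : Real.exp (om i) ≤ Real.exp 0.6 := Real.exp_le_exp.2 h6
      have h8 := exp_taylor4 (x := 0.6) (by norm_num) (by norm_num)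
      have h9 : (1 : ℝ) + 0.6 + 0.6 ^ 2 / 2 + 0.6 ^ 3 / 6 + 0.6 ^ 4 / 19 ≤ 2 := by norm_num
      exact h7.trans (h8.trans h9)

end Pool.Agent.EZ
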