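import Pool.Agent.EZ.EngPB

/-!
# The numerical engine: the blocks, absolute constants
-/

set_option autoImplicit false
set_option linter.unusedVariables false
set_option linter.unusedSectionVars false

namespace Pool.Agent.EZ

open Finset

namespace EngPB

theorem Wt_succ (z x n : ℕ) : Wt z x (n + 1) = Wt z x n +
    (if IsPrimePow (n + 1) ∧ (n + 1).minFac ≠ z.minFac then Sx x (n + 1) / ((n + 1 : ℕ) : ℝ) else 0) := by
  unfold Wt ppK
  rw [Finset.filter_filter, Finset.filter_filter, Finset.sum_filter, Finset.sum_filter,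
    Finset.sum_Icc_succ_top (by omega)]

theorem sum_succ (z X n : ℕ) (f : ℕ → ℝ) (h : X ≤ n) :
    ∑ v ∈ (ppK (n + 1)).filter (fun w => X < w ∧ w.minFac ≠ z.minFac), f v =
    ∑ v ∈ (ppK n).filter (fun w => X < w ∧ w.minFac ≠ z.minFac), f v +
    (if IsPrimePow (n + 1) ∧ (n + 1).minFac ≠ z.minFac then f (n + 1) else 0) := by
  unfold ppK
  rw [Finset.filter_filter, Finset.filter_filter, Finset.sum_filter, Finset.sum_filter,
    Finset.sum_Icc_succ_top (by omega)]
  congr 1
  have h1 : X < n + 1 := by omega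
  simp only [h1, true_and]

theorem tele (z x X Y : ℕ) (h : X ≤ Y) :
    ∑ v ∈ (ppK Y).filter (fun w => X < w ∧ w.minFac ≠ z.minFac),
      Sx x v / (v : ℝ) * Real.exp (-Wt z x v) ≤ Real.exp (-Wt z x X) - Real.exp (-Wt z x Y) := by
  induction Y, h using Nat.le_induction with
  | base =>
    rw [sub_self, Finset.sum_eq_zero]
    intro w hw
    simp only [Finset.mem_filter, mem_ppK] at hw
    omega
  | succ n hn ih =>
    rw [sum_succ z X n _ hn]
    split_ifs with h1
    · have e := Wt_succ z x n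
      rw [if_pos h1] at e
      rw [e]
      set s := Sx x (n + 1) / ((n + 1 : ℕ) : ℝ) with hs
      have h2 : s * Real.exp (-(Wt z x n + s)) ≤ Real.exp (-Wt z x n) - Real.exp (-(Wt z x n + s)) := by
        have h3 : Real.exp (-Wt z x n) = Real.exp (-(Wt z x n + s)) * Real.exp s := by
          rw [← Real.exp_add]; congr 1; ring
        rw [h3]
        have h4 := Real.add_one_le_exp s
        have h5 := Real.exp_pos (-(Wt z x n + s))
        nlinarith
      linarith
    · have e := Wt_succ z x n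
      rw [if_neg h1, add_zero] at e
      rw [e]
      linarith

theorem Wt_le_Hpp (z x X Y : ℕ) (h : X ≤ Y) : Wt z x Y - Wt z x X ≤ Hpp Y - Hpp X := by
  induction Y, h using Nat.le_induction with
  | base => simp
  | succ n hn ih =>
    have e := Wt_succ z x n
    have e2 : Hpp (n + 1) = Hpp n + (if IsPrimePow (n + 1) then 1 / ((n + 1 : ℕ) : ℝ) else 0) := by
      unfold Hpp ppK
      rw [Finset.sum_filter, Finset.sum_filter, Finset.sum_Icc_succ_top (by omega)]
    rw [e, e2]
    have h3 : (if IsPrimePow (n + 1) ∧ (n + 1).minFac ≠ z.minFac then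
        Sx x (n + 1) / ((n + 1 : ℕ) : ℝ) else 0) ≤
        (if IsPrimePow (n + 1) then 1 / ((n + 1 : ℕ) : ℝ) else 0) := by
      split_ifs with h4 h5 h6
      · exact div_le_div_of_nonneg_right (Sx_le_one x _) (Nat.cast_nonneg _)
      · exact absurd h4.1 h5
      · positivity
      · exact le_rfl
    linarith

theorem sum_inv_le (z X Y : ℕ) (h : X ≤ Y) :
    ∑ v ∈ (ppK Y).filter (fun w => X < w ∧ w.minFac ≠ z.minFac), 1 / (v : ℝ) ≤ Hpp Y - Hpp X := by
  induction Y, h using Nat.le_induction with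
  | base =>
    rw [sub_self, Finset.sum_eq_zero]
    intro w hw
    simp only [Finset.mem_filter, mem_ppK] at hw
    omega
  | succ n hn ih =>
    rw [sum_succ z X n _ hn]
    have e2 : Hpp (n + 1) = Hpp n + (if IsPrimePow (n + 1) then 1 / ((n + 1 : ℕ) : ℝ) else 0) := by
      unfold Hpp ppK
      rw [Finset.sum_filter, Finset.sum_filter, Finset.sum_Icc_succ_top (by omega)]
    rw [e2]
    have h3 : (if IsPrimePow (n + 1) ∧ (n + 1).minFac ≠ z.minFac then
        1 / ((n + 1 : ℕ) : ℝ) else 0) ≤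
        (if IsPrimePow (n + 1) then 1 / ((n + 1 : ℕ) : ℝ) else 0) := by
      split_ifs with h4 h5 h6
      · exact le_rfl
      · exact absurd h4.1 h5
      · positivity
      · exact le_rfl
    linarith

/-- `1 - exp (-d) ≤ d - d^2/2 + d^3/6` -/
theorem one_sub_exp_le (d : ℝ) (hd : 0 ≤ d) : 1 - Real.exp (-d) ≤ d - d ^ 2 / 2 + d ^ 3 / 6 := by
  have h1 : ∀ t : ℝ, 0 ≤ t → 1 - t ≤ Real.exp (-t) := fun t _ => Real.one_sub_le_exp_neg t
  -- exp (-t) ≤ 1 - t + t^2/2
  have h2 : ∀ t : ℝ, 0 ≤ t → Real.exp (-t) ≤ 1 - t + t ^ 2 / 2 := by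
    intro t ht
    have hm : MonotoneOn (fun s : ℝ => 1 - s + s ^ 2 / 2 - Real.exp (-s)) (Set.Ici 0) := by
      apply monotoneOn_of_deriv_nonneg (convex_Ici 0)
      · fun_prop
      · fun_prop
      · intro s hs
        rw [interior_Ici, Set.mem_Ioi] at hs
        have hd : HasDerivAt (fun s : ℝ => 1 - s + s ^ 2 / 2 - Real.exp (-s))
            (0 - 1 + 2 * s ^ 1 * 1 / 2 - Real.exp (-s) * (-1)) s :=
          (((hasDerivAt_const s (1 : ℝ)).sub (hasDerivAt_id' s)).add
            (((hasDerivAt_id' s).pow 2).div_const 2)).sub ((hasDerivAt_neg s).exp)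
        rw [hd.deriv]
        have := h1 s hs.le
        linarith
    have := hm (Set.mem_Ici.2 le_rfl) (Set.mem_Ici.2 ht) ht
    simp only [neg_zero, Real.exp_zero] at this
    linarith
  have hm : MonotoneOn (fun s : ℝ => s - s ^ 2 / 2 + s ^ 3 / 6 + Real.exp (-s)) (Set.Ici 0) := by
    apply monotoneOn_of_deriv_nonneg (convex_Ici 0)
    · fun_prop
    · fun_prop
    · intro s hs
      rw [interior_Ici, Set.mem_Ioi] at hs
      have hd : HasDerivAt (fun s : ℝ => s - s ^ 2 / 2 + s ^ 3 / 6 + Real.exp (-s))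
          (1 - 2 * s ^ 1 * 1 / 2 + 3 * s ^ 2 * 1 / 6 + Real.exp (-s) * (-1)) s :=
        (((hasDerivAt_id' s).sub (((hasDerivAt_id' s).pow 2).div_const 2)).add
          (((hasDerivAt_id' s).pow 3).div_const 6)).add ((hasDerivAt_neg s).exp)
      rw [hd.deriv]
      have := h2 s hs.le
      linarith
  have := hm (Set.mem_Ici.2 le_rfl) (Set.mem_Ici.2 hd) hd
  simp only [neg_zero, Real.exp_zero] at this
  linarith

/-- a block for the absolute constants -/
def SumB (z x X Y : ℕ) (t : ℝ) : Prop := ∃ C : ℕ → ℝ, (∀ v, 0 ≤ C v) ∧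
  (∀ v, IsPrimePow v → v.minFac ≠ z.minFac → X < v → v ≤ Y →
    KB z x v (C v * Real.log ((z : ℝ) * v))) ∧
  ∑ v ∈ (ppK Y).filter (fun w => X < w ∧ w.minFac ≠ z.minFac), Sx x v / (v : ℝ) * C v ≤ t

theorem SumB.mono {z x X Y : ℕ} {t t' : ℝ} (h : SumB z x X Y t) (ht : t ≤ t') : SumB z x X Y t' := by
  obtain ⟨C, h1, h2, h3⟩ := h
  exact ⟨C, h1, h2, h3.trans ht⟩

theorem SumOK.mono {z x u : ℕ} {t t' : ℝ} (h : SumOK z x u t) (ht : t ≤ t') : SumOK z x u t' := by
  obtain ⟨C, h1, h2, h3⟩ := h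
  exact ⟨C, h1, h2, fun N => (h3 N).trans ht⟩

theorem SumB.step {z x X Y : ℕ} {t a : ℝ} (h : SumB z x X Y t) (h' : SumOK z x Y a) (hXY : X ≤ Y) :
    SumOK z x X (t + a) := by
  obtain ⟨C, h1, h2, h3⟩ := h
  obtain ⟨C', h1', h2', h3'⟩ := h'
  refine ⟨fun v => if v ≤ Y then C v else C' v, ?_, ?_, ?_⟩
  · intro v
    simp only
    split_ifs
    · exact h1 v
    · exact h1' v
  · intro v hv hvz hs hXv
    simp only
    split_ifs with hvY
    · exact h2 v hv hvz hXv hvY
    · exact h2' v hv hvz hs (not_le.1 hvY)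
  · intro N
    refine le_trans ?_ (add_le_add h3 (h3' N))
    rw [← Finset.sum_filter_add_sum_filter_not ((ppK N).filter _) (fun v => v ≤ Y)]
    apply add_le_add
    · rw [Finset.sum_congr rfl (g := fun v => Sx x v / (v : ℝ) * C v)]
      · apply Finset.sum_le_sum_of_subset_of_nonneg
        · intro v hv
          simp only [Finset.mem_filter, mem_ppK] at hv ⊢
          exact ⟨⟨hv.1.1.1, hv.2⟩, hv.1.2⟩
        · intro v _ _
          exact mul_nonneg (Sx_div_nonneg x v) (h1 v)
      · intro v hv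
        rw [Finset.mem_filter] at hv
        simp only [if_pos hv.2]
    · rw [Finset.sum_congr rfl (g := fun v => Sx x v / (v : ℝ) * C' v)]
      · apply Finset.sum_le_sum_of_subset_of_nonneg
        · intro v hv
          simp only [Finset.mem_filter, mem_ppK] at hv ⊢
          exact ⟨hv.1.1, not_le.1 hv.2, hv.1.2.2⟩
        · intro v _ _
          exact mul_nonneg (Sx_div_nonneg x v) (h1' v)
      · intro v hv
        rw [Finset.mem_filter] at hv
        simp only [if_neg hv.2]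

/-- first bound for a block -/
theorem blockA1 {z x c X Y e h E dH : ℕ} (hXY : X ≤ Y)
    (hcell : ∀ v, IsPrimePow v → v.minFac ≠ z.minFac → X < v → v ≤ Y → CellOK z x c v ((e : ℝ) / S9))
    (hE : Real.exp ((e : ℝ) / S9) ≤ (E : ℝ) / S9)
    (hh : Real.exp (0.4575 - Mz z x c - Wt z x X) ≤ (h : ℝ) / S9)
    (hd : (S9 : ℝ) * (Hpp Y - Hpp X) ≤ (dH : ℝ)) :
    SumB z x X Y ((cdv (cdv (E * h) S9 * ((dH + cdv (cdv (dH * dH) S9 * dH) 6000000000)
      - dH * dH / 2000000000)) S9 : ℝ) / S9) := by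
  have hS := S9_pos
  refine ⟨fun v => Real.exp (0.4575 - Mz z x c - Wt z x v + (e : ℝ) / S9), fun v => (Real.exp_pos _).le,
    ?_, ?_⟩
  · intro v hv hvz hXv hvY
    rw [mul_comm]
    exact hcell v hv hvz hXv hvY
  · have e1 : ∀ v : ℕ, Sx x v / (v : ℝ) * Real.exp (0.4575 - Mz z x c - Wt z x v + (e : ℝ) / S9) =
        Real.exp (0.4575 - Mz z x c + (e : ℝ) / S9) * (Sx x v / (v : ℝ) * Real.exp (-Wt z x v)) := by
      intro v
      rw [show 0.4575 - Mz z x c - Wt z x v + (e : ℝ) / S9 =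
        (0.4575 - Mz z x c + (e : ℝ) / S9) + (-Wt z x v) by ring, Real.exp_add]
      ring
    simp only [e1]
    rw [← Finset.mul_sum]
    set D := Wt z x Y - Wt z x X with hD
    have hD0 : 0 ≤ D := by
      rw [hD]
      unfold Wt
      rw [sub_nonneg]
      apply Finset.sum_le_sum_of_subset_of_nonneg
      · intro w hw
        rw [Finset.mem_filter, mem_ppK] at hw ⊢
        exact ⟨⟨hw.1.1, hw.1.2.trans hXY⟩, hw.2⟩
      · intro w _ _
        exact Sx_div_nonneg x w
    have hDd : D ≤ (dH : ℝ) / S9 := by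
      rw [le_div_iff₀ hS, mul_comm]
      exact (mul_le_mul_of_nonneg_left (Wt_le_Hpp z x X Y hXY) hS.le).trans hd
    set d := (dH : ℝ) / S9 with hdd
    have h1 : ∑ v ∈ (ppK Y).filter (fun w => X < w ∧ w.minFac ≠ z.minFac),
        Sx x v / (v : ℝ) * Real.exp (-Wt z x v) ≤ Real.exp (-Wt z x X) * (d - d ^ 2 / 2 + d ^ 3 / 6) := by
      refine (tele z x X Y hXY).trans ?_
      have e2 : Real.exp (-Wt z x X) - Real.exp (-Wt z x Y) =
          Real.exp (-Wt z x X) * (1 - Real.exp (-D)) := by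
        rw [mul_sub, mul_one, ← Real.exp_add, hD]
        congr 2
        ring
      rw [e2]
      apply mul_le_mul_of_nonneg_left _ (Real.exp_pos _).le
      refine le_trans ?_ (one_sub_exp_le d (hD0.trans hDd))
      have : Real.exp (-d) ≤ Real.exp (-D) := Real.exp_le_exp.2 (by linarith)
      linarith
    have hq : d - d ^ 2 / 2 + d ^ 3 / 6 ≤
        (((dH + cdv (cdv (dH * dH) S9 * dH) 6000000000) - dH * dH / 2000000000 : ℕ) : ℝ) / S9 := by
      rw [le_div_iff₀ hS]
      have a1 : (((dH + cdv (cdv (dH * dH) S9 * dH) 6000000000 : ℕ) : ℝ)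
          - ((dH * dH / 2000000000 : ℕ) : ℝ)) ≤
          (((dH + cdv (cdv (dH * dH) S9 * dH) 6000000000) - dH * dH / 2000000000 : ℕ) : ℝ) := by
        rw [sub_le_iff_le_add]
        exact_mod_cast (le_tsub_add)
      refine le_trans ?_ a1
      have a2 : ((dH * dH / 2000000000 : ℕ) : ℝ) ≤ ((dH * dH : ℕ) : ℝ) / ((2000000000 : ℕ) : ℝ) :=
        Nat.cast_div_le
      have a3 := cdv_ge (cdv (dH * dH) S9 * dH) 6000000000 (by norm_num)
      have a4 := cdv_ge (dH * dH) S9 (by unfold S9; norm_num)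
      have hdH : (0 : ℝ) ≤ dH := Nat.cast_nonneg _
      have a5 : (dH : ℝ) * dH / S9 * dH ≤ (cdv (dH * dH) S9 : ℝ) * dH := by
        apply mul_le_mul_of_nonneg_right _ hdH
        push_cast at a4
        exact a4
      push_cast at a2 a3 ⊢
      rw [hdd]
      have a6 : ((dH : ℝ) / S9 - ((dH : ℝ) / S9) ^ 2 / 2 + ((dH : ℝ) / S9) ^ 3 / 6) * S9 =
        dH + ((dH : ℝ) * dH / S9 * dH) / 6000000000 - (dH * dH) / 2000000000 := by
        rw [S9_eq]; field_simp; ring
      rw [a6]
      have a7 : ((dH : ℝ) * dH / S9 * dH) / 6000000000 ≤ (cdv (dH * dH) S9 : ℝ) * dH / 6000000000 :=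
        div_le_div_of_nonneg_right a5 (by norm_num)
      linarith
    have hq0 : 0 ≤ d - d ^ 2 / 2 + d ^ 3 / 6 := by
      have h3 := one_sub_exp_le d (hD0.trans hDd)
      have : Real.exp (-d) ≤ 1 := by
        rw [← Real.exp_zero]; exact Real.exp_le_exp.2 (by linarith [hD0.trans hDd])
      linarith
    rw [le_div_iff₀ hS]
    refine le_trans ?_ (cdv_ge _ _ (by unfold S9; norm_num))
    rw [le_div_iff₀ hS]
    push_cast only [Nat.cast_mul]
    have b1 : Real.exp (0.4575 - Mz z x c + (e : ℝ) / S9) * Real.exp (-Wt z x X) ≤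
        ((E : ℝ) / S9) * ((h : ℝ) / S9) := by
      have : Real.exp (0.4575 - Mz z x c + (e : ℝ) / S9) * Real.exp (-Wt z x X) =
        Real.exp ((e : ℝ) / S9) * Real.exp (0.4575 - Mz z x c - Wt z x X) := by
        rw [← Real.exp_add, ← Real.exp_add]; congr 1; ring
      rw [this]
      exact mul_le_mul hE hh (Real.exp_pos _).le (by positivity)
    have b2 : ((E : ℝ) / S9) * ((h : ℝ) / S9) ≤ (cdv (E * h) S9 : ℝ) / S9 := by
      rw [le_div_iff₀ hS]
      have := cdv_ge (E * h) S9 (by unfold S9; norm_num)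
      push_cast at this
      refine le_trans (le_of_eq ?_) this
      field_simp
    have b3 := mul_le_mul_of_nonneg_left h1 (Real.exp_pos (0.4575 - Mz z x c + (e : ℝ) / S9)).le
    have b4 : Real.exp (0.4575 - Mz z x c + (e : ℝ) / S9) *
        (Real.exp (-Wt z x X) * (d - d ^ 2 / 2 + d ^ 3 / 6)) ≤
        ((cdv (E * h) S9 : ℝ) / S9) *
        ((((dH + cdv (cdv (dH * dH) S9 * dH) 6000000000) - dH * dH / 2000000000 : ℕ) : ℝ) / S9) := by
      rw [← mul_assoc]
      exact mul_le_mul (b1.trans b2) hq hq0 (by positivity)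
    have b5 := b3.trans b4
    have b6 := mul_le_mul_of_nonneg_right (mul_le_mul_of_nonneg_right b5 hS.le) hS.le
    refine b6.trans (le_of_eq ?_)
    field_simp

/-- second bound for a block -/
theorem blockA2 (hF : Stmt_FBK) {z x X Y dH F n : ℕ} (hz : IsPrimePow z) (h121 : 121 ≤ X)
    (hzX : z * z ≤ X) (hXY : X ≤ Y) (hFe : Real.exp (2 / (X : ℝ)) ≤ (F : ℝ) / S9)
    (hn : 0 < n) (hn2 : (n : ℝ) ≤ S9 * Real.log z + S9 * Real.log X)
    (hd : (S9 : ℝ) * (Hpp Y - Hpp X) ≤ (dH : ℝ)) :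
    SumB z x X Y ((cdv (cdv (dH * 1012) 1000 * F) n : ℝ) / S9) := by
  have hS := S9_pos
  have hX0 : (0 : ℝ) < X := by exact_mod_cast (by omega : 0 < X)
  have hX1 : (121 : ℝ) ≤ X := by exact_mod_cast h121
  have hz2 : 2 ≤ z := hz.two_le
  have hz2' : (2 : ℝ) ≤ z := by exact_mod_cast hz2
  have hlz : 0 < Real.log z := Real.log_pos (by linarith)
  have hlX : 0 < Real.log X := Real.log_pos (by linarith)
  have hF0 : (0 : ℝ) ≤ F := Nat.cast_nonneg _
  have hlog : ∀ v : ℕ, X < v → Real.log z + Real.log X ≤ Real.log ((z : ℝ) * v) := by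
    intro v hv
    have hv' : (X : ℝ) ≤ v := by exact_mod_cast hv.le
    rw [Real.log_mul (by linarith) (by linarith)]
    have := Real.log_le_log hX0 hv'
    linarith
  refine ⟨fun v => if X < v then 1.012 * Real.exp (2 / (X : ℝ)) / Real.log ((z : ℝ) * v) else 0,
    ?_, ?_, ?_⟩
  · intro v
    simp only
    split_ifs with h
    · have := hlog v h
      have : 0 < Real.log ((z : ℝ) * v) := by linarith
      positivity
    · exact le_rfl
  · intro v hv hvz hXv hvY
    simp only [if_pos hXv]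
    have h1 : 0 < Real.log ((z : ℝ) * v) := by have := hlog v hXv; linarith
    rw [div_mul_cancel₀ _ h1.ne']
    apply hF z x v (2 / (X : ℝ)) hz hv (by omega) (by nlinarith) (by positivity)
    · have h2 : 2 / (X : ℝ) ≤ Real.log 2 := by
        have := Real.log_two_gt_d9
        rw [div_le_iff₀ hX0]
        nlinarith
      calc Real.exp (2 / (X : ℝ)) ≤ Real.exp (Real.log 2) := Real.exp_le_exp.2 h2
        _ = 2 := Real.exp_log (by norm_num)
    · intro VS hVS r
      exact oaOK z x X (by omega) VS (fun w hw => ⟨(hVS w hw).1, by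
        have := (hVS w hw).2.1; omega, (hVS w hw).2.2.1⟩) r
  · set K := 1.012 * Real.exp (2 / (X : ℝ)) / (Real.log z + Real.log X) with hK
    have hK0 : 0 ≤ K := by positivity
    have h1 : ∑ v ∈ (ppK Y).filter (fun w => X < w ∧ w.minFac ≠ z.minFac),
        Sx x v / (v : ℝ) * (if X < v then 1.012 * Real.exp (2 / (X : ℝ)) / Real.log ((z : ℝ) * v) else 0)
        ≤ (Hpp Y - Hpp X) * K := by
      refine le_trans ?_ (mul_le_mul_of_nonneg_right (sum_inv_le z X Y hXY) hK0)
      rw [Finset.sum_mul]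
      apply Finset.sum_le_sum
      intro v hv
      rw [Finset.mem_filter] at hv
      rw [if_pos hv.2.1]
      have h2 := hlog v hv.2.1
      apply mul_le_mul
      · exact div_le_div_of_nonneg_right (Sx_le_one x _) (Nat.cast_nonneg _)
      · exact div_le_div_of_nonneg_left (by positivity) (by linarith) h2
      · have : 0 < Real.log ((z : ℝ) * v) := by linarith
        positivity
      · positivity
    refine h1.trans ?_
    have h3 : Hpp Y - Hpp X ≤ (dH : ℝ) / S9 := by rw [le_div_iff₀ hS, mul_comm]; exact hd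
    have hn' : (0 : ℝ) < n := by exact_mod_cast hn
    have h4 : K ≤ 1.012 * F / n := by
      rw [hK, div_le_div_iff₀ (by linarith) hn']
      have h5 : 1.012 * Real.exp (2 / (X : ℝ)) * n ≤ 1.012 * Real.exp (2 / (X : ℝ)) *
          (S9 * Real.log z + S9 * Real.log X) := mul_le_mul_of_nonneg_left hn2 (by positivity)
      have h6 : Real.exp (2 / (X : ℝ)) * S9 ≤ F := by
        rw [le_div_iff₀ hS] at hFe; exact hFe
      have h7 : Real.exp (2 / (X : ℝ)) * S9 * (Real.log z + Real.log X) ≤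
        F * (Real.log z + Real.log X) := mul_le_mul_of_nonneg_right h6 (by linarith)
      nlinarith
    have h5 : (Hpp Y - Hpp X) * K ≤ (dH : ℝ) / S9 * (1.012 * F / n) :=
      mul_le_mul h3 h4 hK0 (by positivity)
    refine h5.trans ?_
    rw [le_div_iff₀ hS]
    refine le_trans ?_ (cdv_ge _ _ hn)
    rw [le_div_iff₀ hn']
    have h6 := cdv_ge (dH * 1012) 1000 (by norm_num)
    push_cast at h6 ⊢
    have h7 := mul_le_mul_of_nonneg_right h6 hF0
    refine le_trans (le_of_eq ?_) h7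
    field_simp
    norm_num
    ring

theorem passBA_cons (z zlo c hf : ℕ) (k : BEnt → ℕ → Bool) (b : BEnt) (L : List BEnt)
    (Xhi a1 acc : ℕ) : passBA z zlo c hf k (b :: L) Xhi a1 acc =
    cellK (z * b.1) (z * Xhi) ((zlo + b.2.1) / 2) a1
      (cdv (2 * max (zlo + 2) b.2.2.1 + 1386294362) b.1) (fun e =>
      cond (Nat.ble e 2000000000)
        (expK e fun E =>
          (fun kk : ℕ → Bool =>
            cond (Nat.ble (max 121 (z * z)) b.1)
              (expK (cdv 2000000000 b.1) fun F =>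
                kk (min (cdv (cdv (E * (cond (Nat.beq b.1 c) b.2.2.2.2.1 (cdv (b.2.2.2.2.1 * hf) S9))) S9
                  * ((b.2.2.2.2.2 + cdv (cdv (b.2.2.2.2.2 * b.2.2.2.2.2) S9 * b.2.2.2.2.2) 6000000000)
                  - b.2.2.2.2.2 * b.2.2.2.2.2 / 2000000000)) S9)
                  (cdv (cdv (b.2.2.2.2.2 * 1012) 1000 * F) (zlo + b.2.1))))
              (kk (cdv (cdv (E * (cond (Nat.beq b.1 c) b.2.2.2.2.1 (cdv (b.2.2.2.2.1 * hf) S9))) S9
                  * ((b.2.2.2.2.2 + cdv (cdv (b.2.2.2.2.2 * b.2.2.2.2.2) S9 * b.2.2.2.2.2) 6000000000)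
                  - b.2.2.2.2.2 * b.2.2.2.2.2 / 2000000000)) S9))) fun t =>
          cond (Nat.ble b.1 c) (cond (Nat.beq b.1 c) (k b (acc + t)) false)
            (passBA z zlo c hf k L b.1 b.2.2.2.1 (acc + t)))
        false) := by
  have h : passBA z zlo c hf k (b :: L) Xhi a1 acc = (frc b.1 fun X => frc b.2.1 fun ll =>
      frc b.2.2.1 fun lu => frc b.2.2.2.2.2 fun dH =>
      cellK (Nat.mul z X) (Nat.mul z Xhi) (Nat.div (Nat.add zlo ll) 2) a1
        (cdv (Nat.add (Nat.mul 2 (Nat.max (Nat.add zlo 2) lu)) 1386294362) X) fun e =>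
      cond (Nat.ble e 2000000000)
        (expK e fun E =>
          frc (cond (Nat.beq X c) b.2.2.2.2.1 (cdv (Nat.mul b.2.2.2.2.1 hf) S9)) fun h =>
          frc (cdv (Nat.mul dH dH) S9) fun dH2 =>
          frc (Nat.sub (Nat.add dH (cdv (Nat.mul dH2 dH) 6000000000))
            (Nat.div (Nat.mul dH dH) 2000000000)) fun dd =>
          frc (cdv (Nat.mul (cdv (Nat.mul E h) S9) dd) S9) fun t =>
          (fun kk : ℕ → Bool =>
            cond (Nat.ble (Nat.max 121 (Nat.mul z z)) X)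
              (expK (cdv 2000000000 X) fun F =>
                  frc (Nat.min t (cdv (Nat.mul (cdv (Nat.mul dH 1012) 1000) F)
                    (Nat.add zlo ll))) kk) (kk t)) fun t =>
          frc (Nat.add acc t) fun acc' =>
          cond (Nat.ble X c) (cond (Nat.beq X c) (k b acc') false)
            (passBA z zlo c hf k L X b.2.2.2.1 acc'))
        false) := rfl
  rw [h]
  simp only [frc_eq]
  rfl

/-- a block of the absolute pass -/
theorem blockA (hExp : Stmt_Exp) (hCell : Stmt_Cell) (hSv : Stmt_Sv) (hF : Stmt_FBK)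
    {z q x zlo c hf : ℕ} (hr : Run z q x zlo c) (hhf : (S9 : ℝ) * Real.exp (2 / c) ≤ (hf : ℝ))
    (k : BEnt → ℕ → Bool) (b : BEnt) (L : List BEnt) (Xhi a1 acc : ℕ) (hcb : c ≤ b.1)
    (hbX : b.1 < Xhi) (hb : BOK b) (hH : (S9 : ℝ) * (Hpp Xhi - Hpp b.1) ≤ (b.2.2.2.2.2 : ℝ))
    (ha1 : (S9 : ℝ) * A1 Xhi ≤ (a1 : ℝ)) (h : passBA z zlo c hf k (b :: L) Xhi a1 acc = true) :
    ∃ t : ℕ, SumB z x b.1 Xhi ((t : ℝ) / S9) ∧
      (cond (Nat.ble b.1 c) (cond (Nat.beq b.1 c) (k b (acc + t)) false)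
            (passBA z zlo c hf k L b.1 b.2.2.2.1 (acc + t))) = true := by
  rw [passBA_cons] at h
  obtain ⟨hll, hlu, hA, hHb⟩ := hb
  obtain ⟨e, h1, h2⟩ := block_cell hCell hSv hr hcb hll hlu ha1 _ h
  have hz2 := run_pos hr
  have hr' := hr
  obtain ⟨hz, hq, h11, hx7, hxc, hc64, hz1, hz3⟩ := hr'
  have hble : Nat.ble e 2000000000 = true := by
    cases hh : Nat.ble e 2000000000
    · rw [hh] at h1; exact Bool.noConfusion h1
    · rfl
  have hle : e ≤ 2000000000 := Nat.le_of_ble_eq_true hble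
  rw [hble, cond_true] at h1
  obtain ⟨E, h3, h4⟩ := hExp.1 _ _ h1
  have hE := h4 hle
  have hcell := h2 hle
  set h0 := (bif Nat.beq b.1 c then b.2.2.2.2.1 else cdv (b.2.2.2.2.1 * hf) S9) with hh0
  have hw : Real.exp (0.4575 - Mz z x c - Wt z x b.1) ≤ (h0 : ℝ) / S9 := by
    cases hbe : Nat.beq b.1 c
    · rw [hbe, cond_false] at hh0
      rw [hh0]
      have hne : b.1 ≠ c := by
        intro hc
        rw [hc] at hbe
        rw [Nat.beq_refl] at hbe
        exact Bool.noConfusion hbe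
      exact weight_ok hSv hr hhf (by omega) hHb
    · rw [hbe, cond_true] at hh0
      have hbc : b.1 = c := Nat.eq_of_beq_eq_true hbe
      rw [hh0, hbc]
      exact weight_eq hSv hr (by rw [← hbc]; exact hHb)
  have hB1 := blockA1 (z := z) (x := x) (c := c) hbX.le hcell hE hw hH
  set t0 := cdv (cdv (E * h0) S9 * ((b.2.2.2.2.2 + cdv (cdv (b.2.2.2.2.2 * b.2.2.2.2.2) S9
    * b.2.2.2.2.2) 6000000000) - b.2.2.2.2.2 * b.2.2.2.2.2 / 2000000000)) S9 with ht0
  simp only at h3
  cases hm : Nat.ble (max 121 (z * z)) b.1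
  · rw [hm, cond_false] at h3
    exact ⟨t0, hB1, h3⟩
  · rw [hm, cond_true] at h3
    have hmax : max 121 (z * z) ≤ b.1 := Nat.le_of_ble_eq_true hm
    obtain ⟨F, h5, h6⟩ := hExp.1 _ _ h3
    refine ⟨_, ?_, h5⟩
    have hX0 : (0 : ℝ) < b.1 := by exact_mod_cast (by omega : 0 < b.1)
    have hcd : cdv 2000000000 b.1 ≤ 2000000000 := by
      have e : cdv 2000000000 b.1 = (2000000000 + (b.1 - 1)) / b.1 := rfl
      rw [e, Nat.div_le_iff_le_mul_add_pred (by omega)]
      nlinarith [(by omega : 1 ≤ b.1)]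
    have hFe : Real.exp (2 / (b.1 : ℝ)) ≤ (F : ℝ) / S9 := by
      refine le_trans (Real.exp_le_exp.2 ?_) (h6 hcd)
      rw [le_div_iff₀ S9_pos]
      refine le_trans (le_of_eq ?_) (cdv_ge _ _ (by omega))
      rw [S9_eq]
      push_cast
      ring
    have hB2 := blockA2 hF (z := z) (x := x) (n := zlo + b.2.1) hz (le_trans (le_max_left _ _) hmax)
      (le_trans (le_max_right _ _) hmax) hbX.le hFe (by omega) (by push_cast; linarith) hH
    rcases min_cases t0 (cdv (cdv (b.2.2.2.2.2 * 1012) 1000 * F) (zlo + b.2.1)) with ⟨hmin, _⟩ | ⟨hmin, _⟩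
    · rw [hmin]; exact hB1
    · rw [hmin]; exact hB2

theorem kk_exists (hExp : Stmt_Exp) (c : Bool) (n t0 : ℕ) (m : ℕ → ℕ) (G : ℕ → Bool)
    (h : cond c (expK n fun F => G (m F)) (G t0) = true) : ∃ t, G t = true := by
  cases c
  · exact ⟨t0, h⟩
  · obtain ⟨F, h5, _⟩ := hExp.1 _ _ h
    exact ⟨_, h5⟩

end EngPB

open EngPB

theorem PBA_proof (hExp : Stmt_Exp) (hCell : Stmt_Cell) (hSv : Stmt_Sv) (hF : Stmt_FBK) : Stmt_PBA := by
  intro z q x zlo c hf k f hr hhf L
  induction L with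
  | nil => intro Xhi a1 acc _ _ _ _ _ h; exact Bool.noConfusion h
  | cons b L ih =>
    intro Xhi a1 acc hL hcX hX ha1 hS h
    obtain ⟨hb1, hb2, hb3, hb4⟩ := hL
    -- the left end is at least `c`
    have hcb : c ≤ b.1 := by
      by_contra hc
      have hble : Nat.ble b.1 c = true := Nat.ble_eq_true_of_le (by omega)
      have hbeq : Nat.beq b.1 c = false := by
        cases hh : Nat.beq b.1 c
        · rfl
        · exact absurd (Nat.eq_of_beq_eq_true hh) (by omega)
      rw [passBA_cons] at h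
      obtain ⟨e, h1, _⟩ := hCell _ _ _ _ _ _ h
      cases hble2 : Nat.ble e 2000000000
      · rw [hble2] at h1; exact Bool.noConfusion h1
      · rw [hble2, cond_true] at h1
        obtain ⟨E, h3, _⟩ := hExp.1 _ _ h1
        obtain ⟨t, ht⟩ := kk_exists hExp _ _ _ _ (fun t => cond (Nat.ble b.1 c)
          (cond (Nat.beq b.1 c) (k b (acc + t)) false)
          (passBA z zlo c hf k L b.1 b.2.2.2.1 (acc + t))) h3
        rw [hble, hbeq] at ht
        exact Bool.noConfusion ht
    obtain ⟨t, hB, hk⟩ := blockA hExp hCell hSv hF hr hhf k b L Xhi a1 acc hcb hb1 hb2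
      (hb3 (by omega)) ha1 h
    have hS' : SumOK z x b.1 (((acc + t : ℕ) : ℝ) / S9 + f) := by
      refine SumOK.mono (hB.step hS hb1.le) (le_of_eq ?_)
      push_cast
      ring
    cases hbc : Nat.ble b.1 c
    · rw [hbc, cond_false] at hk
      exact ih b.1 b.2.2.2.1 _ hb4 hcb (by omega) hb2.2.2.1 hS' hk
    · rw [hbc, cond_true] at hk
      cases hbe : Nat.beq b.1 c
      · rw [hbe, cond_false] at hk; exact Bool.noConfusion hk
      · rw [hbe, cond_true] at hk
        have hbc' : b.1 = c := Nat.eq_of_beq_eq_true hbe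
        refine ⟨b, _, hk, hbc', hb2, ?_⟩
        rw [← hbc']
        exact hS'

end Pool.Agent.EZ
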