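import Pool.Agent.EZ.Specs2

/-!
# A kernel table of `Hpp`: module HT (helper46)
-/

set_option autoImplicit false

namespace Pool.Agent.EZ

open Finset

noncomputable section

/-- The loop: state `n`, `10^12` times the lower bound of `Hpp n`, number of prime powers. -/
noncomputable def loopH (T : ℕ → ℕ → ℕ → Bool) (k : ℕ) : ℕ → ℕ → ℕ → Bool :=
  Nat.rec (motive := fun _ => ℕ → ℕ → ℕ → Bool) (fun _ _ _ => true)
    (fun _ ih n Hl c =>
      frc (Nat.succ n) fun n' =>
      cond (Nat.beq (kp n') 0)
        (cond (T n' Hl c) (ih n' Hl c) false)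
        (frc (Nat.add Hl (Nat.div 1000000000000 n')) fun Hl' =>
          frc (Nat.succ c) fun c' =>
          cond (T n' Hl' c') (ih n' Hl' c') false)) k

/-- The invariant. -/
def InvH (n Hl c : ℕ) : Prop :=
  (Hl : ℝ) ≤ 1000000000000 * Hpp n ∧ 1000000000000 * Hpp n ≤ (Hl : ℝ) + c

theorem Hpp_succ (n : ℕ) :
    Hpp (n + 1) = Hpp n + if IsPrimePow (n + 1) then 1 / ((n + 1 : ℕ) : ℝ) else 0 := by
  unfold Hpp ppK
  have h3 : Icc 1 (n + 1) = insert (n + 1) (Icc 1 n) := by
    ext m; simp only [mem_Icc, mem_insert]; omega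
  rw [h3, Finset.filter_insert]
  split_ifs with h4
  · rw [Finset.sum_insert (by simp)]
    ring
  · ring

theorem div_up_aux (a b : ℕ) (hb : 0 < b) : (a : ℝ) / b ≤ ((a / b : ℕ) : ℝ) + 1 := by
  have h6 : a < (a / b + 1) * b := by
    have := Nat.lt_div_mul_add (a := a) hb
    nlinarith
  have h7 : (a : ℝ) < (((a / b : ℕ) : ℝ) + 1) * (b : ℝ) := by exact_mod_cast h6
  rw [div_le_iff₀ (by exact_mod_cast hb)]
  exact h7.le

theorem loopH_sound (T : ℕ → ℕ → ℕ → Bool) (Q : ℕ → Prop)
    (hT : ∀ n Hl c : ℕ, InvH n Hl c → T n Hl c = true → Q n) :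
    ∀ k n Hl c, 1 ≤ n → n + k < 101 ^ 2 → InvH n Hl c →
      loopH T k n Hl c = true → ∀ N, n < N → N ≤ n + k → Q N := by
  intro k
  induction k with
  | zero => intro n Hl c _ _ _ _ N h1 h2; omega
  | succ k ih =>
    intro n Hl c hn hk hinv hloop N h1 h2
    obtain ⟨i1, i2⟩ := hinv
    have e0 : loopH T (k + 1) n Hl c =
        frc (Nat.succ n) fun n' =>
      cond (Nat.beq (kp n') 0)
        (cond (T n' Hl c) (loopH T k n' Hl c) false)
        (frc (Nat.add Hl (Nat.div 1000000000000 n')) fun Hl' =>
          frc (Nat.succ c) fun c' =>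
          cond (T n' Hl' c') (loopH T k n' Hl' c') false) := rfl
    rw [e0] at hloop
    simp only [frc_eq] at hloop
    have hkp := kp_ne_zero_iff (n := n + 1) (by omega) (by omega)
    have hs := Hpp_succ n
    cases hκ : Nat.beq (kp n.succ) 0 with
    | true =>
      rw [hκ, cond_true] at hloop
      have hκ' : kp (n + 1) = 0 := by rwa [Nat.beq_eq] at hκ
      have hnp : ¬ IsPrimePow (n + 1) := by rw [← hkp]; simp [hκ']
      rw [if_neg hnp, add_zero] at hs
      have hinv' : InvH (n + 1) Hl c := by
        unfold InvH; rw [hs]; exact ⟨i1, i2⟩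
      cases hTT : T n.succ Hl c with
      | false => rw [hTT] at hloop; simp at hloop
      | true =>
        rw [hTT, cond_true] at hloop
        by_cases hN : N = n + 1
        · rw [hN]; exact hT _ _ _ hinv' hTT
        · exact ih (n + 1) Hl c (by omega) (by omega) hinv' hloop N (by omega) (by omega)
    | false =>
      rw [hκ, cond_false] at hloop
      have hκ' : kp (n + 1) ≠ 0 := by
        intro h
        have : Nat.beq (kp n.succ) 0 = true := by rw [Nat.beq_eq]; exact h
        rw [this] at hκ
        cases hκ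
      have hpp : IsPrimePow (n + 1) := hkp.1 hκ'
      rw [if_pos hpp] at hs
      set Hl' : ℕ := Nat.add Hl (Nat.div 1000000000000 n.succ) with hHl'
      have h3 : (Hl' : ℝ) = (Hl : ℝ) + ((1000000000000 / (n + 1) : ℕ) : ℝ) := by
        rw [hHl']
        exact Nat.cast_add _ _
      have h4 : ((1000000000000 / (n + 1) : ℕ) : ℝ) ≤ 1000000000000 * (1 / ((n + 1 : ℕ) : ℝ)) := by
        have := Nat.cast_div_le (α := ℝ) (m := 1000000000000) (n := n + 1)
        refine this.trans (le_of_eq ?_)
        push_cast
        ring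
      have h5 : 1000000000000 * (1 / ((n + 1 : ℕ) : ℝ))
          ≤ ((1000000000000 / (n + 1) : ℕ) : ℝ) + 1 := by
        have := div_up_aux 1000000000000 (n + 1) (by omega)
        refine le_trans (le_of_eq ?_) this
        push_cast
        ring
      have hinv' : InvH (n + 1) Hl' c.succ := by
        unfold InvH
        rw [hs, h3]
        push_cast at h4 h5 ⊢
        constructor <;> linarith
      cases hTT : T n.succ Hl' c.succ with
      | false => rw [hTT] at hloop; simp at hloop
      | true =>
        rw [hTT, cond_true] at hloop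
        by_cases hN : N = n + 1
        · rw [hN]; exact hT _ _ _ hinv' hTT
        · exact ih (n + 1) Hl' c.succ (by omega) (by omega) hinv' hloop N (by omega) (by omega)

theorem InvH_one : InvH 1 0 0 := by
  have : Hpp 1 = 0 := by
    unfold Hpp ppK
    simp [Finset.sum_filter, not_isPrimePow_one]
  unfold InvH
  rw [this]
  simp

/-- the table in units of `10^-6`; `0` for the other arguments. -/
def htN (n : ℕ) : ℕ :=
  cond (Nat.ble n 101)
    (cond (Nat.beq n 29) 2159087 (cond (Nat.beq n 37) 2249622 (cond (Nat.beq n 43) 2297268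
      (cond (Nat.beq n 53) 2357821 (cond (Nat.beq n 64) 2406788 (cond (Nat.beq n 79) 2462155
      (cond (Nat.beq n 101) 2517995 0)))))))
    (cond (Nat.ble n 1000)
      (cond (Nat.beq n 121) 2563338 (cond (Nat.beq n 160) 2628855 (cond (Nat.beq n 210) 2684305
      (cond (Nat.beq n 280) 2745643 (cond (Nat.beq n 400) 2811215 (cond (Nat.beq n 600) 2878325
      (cond (Nat.beq n 1000) 2959563 0)))))))
      (cond (Nat.beq n 1700) 3037002 (cond (Nat.beq n 3000) 3111753 (cond (Nat.beq n 5500) 3185499
      (cond (Nat.beq n 10000) 3253654 0)))))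

/-- the test -/
def tstH (n Hl c : ℕ) : Bool :=
  frc (htN n) fun h => cond (Nat.beq h 0) true
    (cond (Nat.ble (Nat.mul h 1000000) (Nat.add Hl 2000000))
      (Nat.ble (Nat.add Hl c) (Nat.add (Nat.mul h 1000000) 2000000)) false)

theorem tableH_run : loopH tstH 9999 1 0 0 = true := by decide +kernel

theorem tableH (N : ℕ) (h1 : 1 < N) (h2 : N ≤ 10000) (h3 : htN N ≠ 0) :
    |Hpp N - (htN N : ℝ) / 1000000| ≤ 0.000002 := by
  refine loopH_sound tstH (fun N => htN N ≠ 0 → |Hpp N - (htN N : ℝ) / 1000000| ≤ 0.000002) ?_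
    9999 1 0 0 le_rfl (by norm_num) InvH_one tableH_run N h1 (by omega) h3
  intro n Hl c hinv hT hne
  obtain ⟨i1, i2⟩ := hinv
  unfold tstH at hT
  rw [frc_eq] at hT
  have hb : Nat.beq (htN n) 0 = false := by
    cases hb : Nat.beq (htN n) 0 with
    | false => rfl
    | true => rw [Nat.beq_eq] at hb; exact absurd hb hne
  rw [hb, cond_false] at hT
  have hT' : Nat.ble (Nat.mul (htN n) 1000000) (Nat.add Hl 2000000) = true ∧
      Nat.ble (Nat.add Hl c) (Nat.add (Nat.mul (htN n) 1000000) 2000000) = true := by
    cases h1 : Nat.ble (Nat.mul (htN n) 1000000) (Nat.add Hl 2000000) with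
    | false => rw [h1] at hT; cases hT
    | true => rw [h1, cond_true] at hT; exact ⟨rfl, hT⟩
  obtain ⟨t1, t2⟩ := hT'
  rw [Nat.ble_eq] at t1 t2
  change htN n * 1000000 ≤ Hl + 2000000 at t1
  change Hl + c ≤ htN n * 1000000 + 2000000 at t2
  have t1' : (htN n : ℝ) * 1000000 ≤ Hl + 2000000 := by exact_mod_cast t1
  have t2' : (Hl : ℝ) + c ≤ htN n * 1000000 + 2000000 := by exact_mod_cast t2
  rw [abs_le]
  have hc : (0 : ℝ) ≤ c := Nat.cast_nonneg c
  constructor <;> linarith

theorem tableH' (N v : ℕ) (h1 : 1 < N) (h2 : N ≤ 10000) (h3 : htN N = v) (h4 : v ≠ 0) :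
    |Hpp N - (v : ℝ) / 1000000| ≤ 0.000002 := by
  have := tableH N h1 h2 (by rw [h3]; exact h4)
  rwa [h3] at this

/-- module HT -/
theorem HT_proof : Stmt_HT := by
  intro t ht
  unfold HTab at ht
  simp only [List.mem_cons, List.not_mem_nil, or_false] at ht
  rcases ht with h | h | h | h | h | h | h | h | h | h | h | h | h | h | h | h | h | h
  all_goals subst h
  · have h := tableH' 29 2159087 (by norm_num) (by norm_num) (by decide) (by norm_num)
    norm_num at h ⊢
    exact h
  · have h := tableH' 37 2249622 (by norm_num) (by norm_num) (by decide) (by norm_num)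
    norm_num at h ⊢
    exact h
  · have h := tableH' 43 2297268 (by norm_num) (by norm_num) (by decide) (by norm_num)
    norm_num at h ⊢
    exact h
  · have h := tableH' 53 2357821 (by norm_num) (by norm_num) (by decide) (by norm_num)
    norm_num at h ⊢
    exact h
  · have h := tableH' 64 2406788 (by norm_num) (by norm_num) (by decide) (by norm_num)
    norm_num at h ⊢
    exact h
  · have h := tableH' 79 2462155 (by norm_num) (by norm_num) (by decide) (by norm_num)
    norm_num at h ⊢
    exact h
  · have h := tableH' 101 2517995 (by norm_num) (by norm_num) (by decide) (by norm_num)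
    norm_num at h ⊢
    exact h
  · have h := tableH' 121 2563338 (by norm_num) (by norm_num) (by decide) (by norm_num)
    norm_num at h ⊢
    exact h
  · have h := tableH' 160 2628855 (by norm_num) (by norm_num) (by decide) (by norm_num)
    norm_num at h ⊢
    exact h
  · have h := tableH' 210 2684305 (by norm_num) (by norm_num) (by decide) (by norm_num)
    norm_num at h ⊢
    exact h
  · have h := tableH' 280 2745643 (by norm_num) (by norm_num) (by decide) (by norm_num)
    norm_num at h ⊢
    exact h
  · have h := tableH' 400 2811215 (by norm_num) (by norm_num) (by decide) (by norm_num)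
    norm_num at h ⊢
    exact h
  · have h := tableH' 600 2878325 (by norm_num) (by norm_num) (by decide) (by norm_num)
    norm_num at h ⊢
    exact h
  · have h := tableH' 1000 2959563 (by norm_num) (by norm_num) (by decide) (by norm_num)
    norm_num at h ⊢
    exact h
  · have h := tableH' 1700 3037002 (by norm_num) (by norm_num) (by decide) (by norm_num)
    norm_num at h ⊢
    exact h
  · have h := tableH' 3000 3111753 (by norm_num) (by norm_num) (by decide) (by norm_num)
    norm_num at h ⊢
    exact h
  · have h := tableH' 5500 3185499 (by norm_num) (by norm_num) (by decide) (by norm_num)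
    norm_num at h ⊢
    exact h
  · have h := tableH' 10000 3253654 (by norm_num) (by norm_num) (by decide) (by norm_num)
    norm_num at h ⊢
    exact h

end

end Pool.Agent.EZ
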