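import Pool.Agent.EZ.EngSpecs
import Pool.Agent.EZ.HT

/-!
# The numerical engine: module TAB (helper59)

A kernel loop with precision `10^-18` for `log n`, `A1 n`, `Hpp n`, and the correctness of the
table `tab` of the prime powers up to `2521`.
-/

set_option autoImplicit false

namespace Pool.Agent.EZ

open Finset ArithmeticFunction

namespace TB

/-- The scale. -/
def SF : ℕ := 1000000000000000000

theorem SF_eq : (SF : ℝ) = 1000000000000000000 := by norm_num [SF]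

/-- Scaled lower bound of the logarithm step, `t` terms. -/
def slo (m t : ℕ) : ℕ :=
  Nat.rec (motive := fun _ => ℕ) 0 (fun s ih => Nat.add ih
    (Nat.div 2000000000000000000 (Nat.mul (Nat.succ (Nat.mul 2 s))
      (Nat.pow m (Nat.succ (Nat.mul 2 s)))))) t

/-- The additional error. -/
def ser (m t : ℕ) : ℕ :=
  Nat.add (Nat.succ t) (Nat.div 4000000000000000000 (Nat.mul (Nat.succ (Nat.mul 2 t))
      (Nat.pow m (Nat.succ (Nat.mul 2 t)))))

theorem slo_succ (m t : ℕ) : slo m (t + 1) = slo m t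
    + 2000000000000000000 / ((2 * t + 1) * m ^ (2 * t + 1)) := rfl

theorem ser_eq (m t : ℕ) : ser m t = t + 1
    + 4000000000000000000 / ((2 * t + 1) * m ^ (2 * t + 1)) := rfl

theorem slo_bounds (m t : ℕ) (hm : 1 ≤ m) :
    (slo m t : ℝ) ≤ SF * ∑ k ∈ range t, (2 : ℝ) * (1 / (2 * k + 1)) * (1 / (m : ℝ)) ^ (2 * k + 1) ∧
    SF * ∑ k ∈ range t, (2 : ℝ) * (1 / (2 * k + 1)) * (1 / (m : ℝ)) ^ (2 * k + 1)
      ≤ (slo m t : ℝ) + t := by
  have hm0 : (0 : ℝ) < m := by exact_mod_cast hm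
  induction t with
  | zero => simp [slo]
  | succ t ih =>
    obtain ⟨i1, i2⟩ := ih
    have hd : 0 < (2 * t + 1) * m ^ (2 * t + 1) := by positivity
    have h1 := Nat.cast_div_le (α := ℝ) (m := 2000000000000000000)
      (n := (2 * t + 1) * m ^ (2 * t + 1))
    have h2 := div_up_aux 2000000000000000000 ((2 * t + 1) * m ^ (2 * t + 1)) hd
    have h3 : ((2000000000000000000 : ℕ) : ℝ) / (((2 * t + 1) * m ^ (2 * t + 1) : ℕ) : ℝ)
        = SF * ((2 : ℝ) * (1 / (2 * t + 1)) * (1 / (m : ℝ)) ^ (2 * t + 1)) := by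
      rw [SF_eq]
      push_cast
      rw [one_div_pow]
      field_simp
      norm_num
    rw [h3] at h1 h2
    rw [slo_succ, Finset.sum_range_succ, mul_add]
    push_cast at h1 h2 ⊢
    constructor <;> linarith

theorem log_step (n t : ℕ) (hn : 1 ≤ n) :
    (slo (2 * n + 1) t : ℝ) ≤ SF * (Real.log ((n : ℝ) + 1) - Real.log n) ∧
    SF * (Real.log ((n : ℝ) + 1) - Real.log n)
      ≤ (slo (2 * n + 1) t : ℝ) + (ser (2 * n + 1) t : ℝ) := by
  obtain ⟨h1, h2⟩ := slo_bounds (2 * n + 1) t (by omega)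
  have hn1 : (1 : ℝ) ≤ n := by exact_mod_cast hn
  have hc : ((2 * n + 1 : ℕ) : ℝ) = 2 * n + 1 := by push_cast; ring
  have hS : (0 : ℝ) < SF := by rw [SF_eq]; norm_num
  set x : ℝ := 1 / (((2 * n + 1 : ℕ)) : ℝ) with hx
  have hx0 : 0 ≤ x := by positivity
  have hx3 : x ≤ 1 / 3 := by
    rw [hx, hc]
    apply one_div_le_one_div_of_le (by norm_num)
    linarith
  have hx1 : x < 1 := by linarith
  have h5 := log_series_lower t hx0 hx1
  have h6 := log_series_upper t hx0 hx1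
  have h7 : Real.log ((n : ℝ) + 1) - Real.log n = Real.log (1 + x) - Real.log (1 - x) := by
    rw [log_step_eq n hn, hx, hc]
  rw [h7]
  refine ⟨h1.trans (mul_le_mul_of_nonneg_left h5 hS.le), ?_⟩
  have h8 : (1 - x ^ 2)⁻¹ ≤ 2 := by
    rw [inv_le_comm₀ (by nlinarith) (by norm_num)]
    nlinarith
  have h9 : 2 * (1 / (2 * (t : ℝ) + 1)) * x ^ (2 * t + 1) * (1 - x ^ 2)⁻¹
      ≤ 2 * (1 / (2 * (t : ℝ) + 1)) * x ^ (2 * t + 1) * 2 :=
    mul_le_mul_of_nonneg_left h8 (by positivity)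
  have hd : 0 < (2 * t + 1) * (2 * n + 1) ^ (2 * t + 1) := by positivity
  have h10 := div_up_aux 4000000000000000000 ((2 * t + 1) * (2 * n + 1) ^ (2 * t + 1)) hd
  have h11 : ((4000000000000000000 : ℕ) : ℝ) / (((2 * t + 1) * (2 * n + 1) ^ (2 * t + 1) : ℕ) : ℝ)
      = SF * (2 * (1 / (2 * (t : ℝ) + 1)) * x ^ (2 * t + 1) * 2) := by
    rw [SF_eq, hx]
    push_cast
    rw [one_div_pow]
    field_simp
    norm_num
  rw [h11] at h10
  rw [ser_eq]
  push_cast at h10 ⊢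
  have h12 : SF * (Real.log (1 + x) - Real.log (1 - x)) ≤
      SF * (∑ k ∈ range t, (2 : ℝ) * (1 / (2 * k + 1)) * x ^ (2 * k + 1)
        + 2 * (1 / (2 * (t : ℝ) + 1)) * x ^ (2 * t + 1) * 2) :=
    mul_le_mul_of_nonneg_left (by linarith) hS.le
  rw [mul_add] at h12
  linarith

/-- Number of terms. -/
def nt (n : ℕ) : ℕ := cond (Nat.ble 64 n) 4 (cond (Nat.ble 8 n) 8 14)

/-- One step of the loop. -/
noncomputable def stepK (n Ll Lu Au Hl Hu : ℕ) (k0 : ℕ → ℕ → ℕ → Bool)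
    (k1 : ℕ → ℕ → ℕ → ℕ → ℕ → ℕ → ℕ → Bool) : Bool :=
  frc (Nat.succ n) fun n' =>
  frc (Nat.add n n') fun m =>
  frc (nt n) fun t =>
  frc (slo m t) fun d =>
  frc (Nat.add Ll d) fun Ll' =>
  frc (Nat.add Lu (Nat.add d (ser m t))) fun Lu' =>
  frc (kp n') fun κ =>
  cond (Nat.beq κ 0) (k0 n' Ll' Lu')
    (frc (Nat.add Au (Nat.succ (Nat.div Lu' n'))) fun Au' =>
     frc (Nat.div 1000000000000000000 n') fun h =>
     frc (Nat.add Hl h) fun Hl' =>
     frc (Nat.succ (Nat.add Hu h)) fun Hu' => k1 n' κ Ll' Lu' Au' Hl' Hu')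

/-- The invariant. -/
def InvF (n Ll Lu Au Hl Hu : ℕ) : Prop :=
  (Ll : ℝ) ≤ SF * Real.log n ∧ SF * Real.log n ≤ Lu ∧ SF * A1 n ≤ Au ∧
    (Hl : ℝ) ≤ SF * Hpp n ∧ SF * Hpp n ≤ Hu

theorem inv_one : InvF 1 0 0 0 0 0 := by
  have hA : A1 1 = 0 := by
    unfold A1
    simp [Finset.sum_filter, not_isPrimePow_one]
  have hH : Hpp 1 = 0 := by
    unfold Hpp ppK
    simp [Finset.sum_filter, not_isPrimePow_one]
  unfold InvF
  rw [hA, hH]
  simp

theorem step_sound {n Ll Lu Au Hl Hu : ℕ} {k0 : ℕ → ℕ → ℕ → Bool}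
    {k1 : ℕ → ℕ → ℕ → ℕ → ℕ → ℕ → ℕ → Bool} (hn : 1 ≤ n) (hn2 : n + 1 < 101 ^ 2)
    (hinv : InvF n Ll Lu Au Hl Hu) (h : stepK n Ll Lu Au Hl Hu k0 k1 = true) :
    (¬ IsPrimePow (n + 1) ∧ ∃ Ll' Lu', InvF (n + 1) Ll' Lu' Au Hl Hu ∧
      k0 (n + 1) Ll' Lu' = true) ∨
    (IsPrimePow (n + 1) ∧ ∃ Ll' Lu' Au' Hl' Hu', InvF (n + 1) Ll' Lu' Au' Hl' Hu' ∧
      k1 (n + 1) (kp (n + 1)) Ll' Lu' Au' Hl' Hu' = true) := by
  obtain ⟨i1, i2, i3, i4, i5⟩ := hinv
  unfold stepK at h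
  simp only [frc_eq] at h
  have hm : Nat.add n (Nat.succ n) = 2 * n + 1 := by
    change n + (n + 1) = 2 * n + 1
    ring
  rw [hm] at h
  obtain ⟨s1, s2⟩ := log_step n (nt n) hn
  set d : ℕ := slo (2 * n + 1) (nt n) with hd
  set e : ℕ := ser (2 * n + 1) (nt n) with he
  have hLl : Nat.add Ll d = Ll + d := rfl
  have hLu : Nat.add Lu (Nat.add d e) = Lu + (d + e) := rfl
  rw [hLl, hLu] at h
  have b1 : ((Ll + d : ℕ) : ℝ) ≤ SF * Real.log ((n + 1 : ℕ) : ℝ) := by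
    push_cast
    linarith
  have b2 : SF * Real.log ((n + 1 : ℕ) : ℝ) ≤ ((Lu + (d + e) : ℕ) : ℝ) := by
    push_cast
    linarith
  have hkp := kp_ne_zero_iff (n := n + 1) (by omega) (by omega)
  have hHs := Hpp_succ n
  have hAs := A1_succ n
  have hS : (0 : ℝ) < SF := by rw [SF_eq]; norm_num
  cases hκ : Nat.beq (kp n.succ) 0 with
  | true =>
    rw [hκ, cond_true] at h
    left
    have hκ' : kp (n + 1) = 0 := by rwa [Nat.beq_eq] at hκ
    have hnp : ¬ IsPrimePow (n + 1) := by rw [← hkp]; simp [hκ']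
    rw [if_neg hnp, add_zero] at hHs hAs
    refine ⟨hnp, Ll + d, Lu + (d + e), ⟨b1, b2, ?_, ?_, ?_⟩, h⟩
    · rw [hAs]; exact i3
    · rw [hHs]; exact i4
    · rw [hHs]; exact i5
  | false =>
    rw [hκ, cond_false] at h
    right
    have hκ' : kp (n + 1) ≠ 0 := by
      intro h0
      have : Nat.beq (kp n.succ) 0 = true := by rw [Nat.beq_eq]; exact h0
      rw [this] at hκ
      cases hκ
    have hpp : IsPrimePow (n + 1) := hkp.1 hκ'
    rw [if_pos hpp] at hHs hAs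
    have hn1 : (0 : ℝ) < ((n + 1 : ℕ) : ℝ) := by positivity
    refine ⟨hpp, Ll + d, Lu + (d + e), Au + ((Lu + (d + e)) / (n + 1) + 1),
      Hl + SF / (n + 1), Hu + SF / (n + 1) + 1, ⟨b1, b2, ?_, ?_, ?_⟩, h⟩
    · have h5 := le_cast_div_add_one (Lu + (d + e)) (n + 1) (by omega)
      have h6 : SF * Real.log ((n + 1 : ℕ) : ℝ) / ((n + 1 : ℕ) : ℝ)
          ≤ ((Lu + (d + e) : ℕ) : ℝ) / ((n + 1 : ℕ) : ℝ) :=
        div_le_div_of_nonneg_right b2 hn1.le
      rw [hAs, mul_add, ← mul_div_assoc]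
      push_cast at h5 h6 ⊢
      linarith
    · have h5 := Nat.cast_div_le (α := ℝ) (m := SF) (n := n + 1)
      rw [hHs, mul_add, mul_one_div]
      push_cast at h5 ⊢
      linarith
    · have h5 := div_up_aux SF (n + 1) (by omega)
      rw [hHs, mul_add, mul_one_div]
      push_cast at h5 ⊢
      linarith

/-! ### the table -/

/-- entry check. -/
def tchk (en : Ent) (n κ Ll Lu Au : ℕ) : Bool :=
  Nat.beq en.1 n && (Nat.beq en.2.1 (spf pl n) && (Nat.ble (Nat.mul en.2.2.1 1000000000) Ll &&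
    (Nat.ble Lu (Nat.mul (Nat.add en.2.2.1 2) 1000000000) &&
    (Nat.ble Lu (Nat.mul κ (Nat.mul (Nat.add en.2.2.2.1 2) 1000000000)) &&
    Nat.ble Au (Nat.mul en.2.2.2.2 1000000000)))))

/-- match the head of the list. -/
def tnext (l : List Ent) (c : Ent → Bool) (k : List Ent → Bool) : Bool :=
  List.casesOn (motive := fun _ => Bool) l false (fun e tl => cond (c e) (k tl) false)

/-- the loop. -/
noncomputable def tabLoop (k : ℕ) : ℕ → ℕ → ℕ → ℕ → List Ent → Bool :=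
  Nat.rec (motive := fun _ => ℕ → ℕ → ℕ → ℕ → List Ent → Bool)
    (fun _ _ _ _ l => List.casesOn (motive := fun _ => Bool) l true (fun _ _ => false))
    (fun _ ih n Ll Lu Au l => stepK n Ll Lu Au 0 0 (fun n' Ll' Lu' => ih n' Ll' Lu' Au l)
      (fun n' κ Ll' Lu' Au' _ _ => tnext l (fun en => tchk en n' κ Ll' Lu' Au')
        (fun tl => ih n' Ll' Lu' Au' tl))) k

/-- The shorter invariant. -/
def InvT (n Ll Lu Au : ℕ) : Prop :=
  (Ll : ℝ) ≤ SF * Real.log n ∧ SF * Real.log n ≤ Lu ∧ SF * A1 n ≤ Au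

/-- correct entry -/
def EntOK (en : Ent) : Prop :=
  IsPrimePow en.1 ∧ en.2.1 = en.1.minFac ∧
      (en.2.2.1 : ℝ) ≤ (S9 : ℝ) * Real.log en.1 ∧ (S9 : ℝ) * Real.log en.1 ≤ (en.2.2.1 : ℝ) + 2 ∧
      (S9 : ℝ) * Real.log (en.1.minFac : ℝ) ≤ (en.2.2.2.1 : ℝ) + 2 ∧
      (S9 : ℝ) * A1 en.1 ≤ (en.2.2.2.2 : ℝ)

theorem S9_real : (S9 : ℝ) = 1000000000 := by norm_num [S9]

theorem tchk_sound {en : Ent} {n Ll Lu Au : ℕ} (hn : 2 ≤ n) (hn2 : n < 101 ^ 2)
    (hpp : IsPrimePow n) (h1 : (Ll : ℝ) ≤ SF * Real.log n) (h2 : SF * Real.log n ≤ Lu)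
    (h3 : SF * A1 n ≤ Au) (h : tchk en n (kp n) Ll Lu Au = true) :
    en.1 = n ∧ EntOK en := by
  unfold tchk at h
  simp only [Bool.and_eq_true, Nat.beq_eq, Nat.ble_eq] at h
  obtain ⟨t1, t2, t3, t4, t5, t6⟩ := h
  change en.2.2.1 * 1000000000 ≤ Ll at t3
  change Lu ≤ (en.2.2.1 + 2) * 1000000000 at t4
  change Lu ≤ kp n * ((en.2.2.2.1 + 2) * 1000000000) at t5
  change Au ≤ en.2.2.2.2 * 1000000000 at t6
  have t3' : ((en.2.2.1 * 1000000000 : ℕ) : ℝ) ≤ Ll := by exact_mod_cast t3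
  have t4' : (Lu : ℝ) ≤ (((en.2.2.1 + 2) * 1000000000 : ℕ) : ℝ) := by exact_mod_cast t4
  have t5' : (Lu : ℝ) ≤ ((kp n * ((en.2.2.2.1 + 2) * 1000000000) : ℕ) : ℝ) := by
    exact_mod_cast t5
  have t6' : (Au : ℝ) ≤ ((en.2.2.2.2 * 1000000000 : ℕ) : ℝ) := by exact_mod_cast t6
  have hk := (kp_ne_zero_iff hn hn2).2 hpp
  have hvm := vonMangoldt_kp hn hn2
  rw [if_neg hk, vonMangoldt_apply, if_pos hpp] at hvm
  have hkpos : (0 : ℝ) < kp n := by exact_mod_cast Nat.pos_of_ne_zero hk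
  rw [SF_eq] at h1 h2 h3
  push_cast at t3' t4' t5' t6'
  refine ⟨t1, ?_⟩
  unfold EntOK
  rw [t1, S9_real]
  refine ⟨hpp, ?_, ?_, ?_, ?_, ?_⟩
  · rw [t2]; exact spf_pl hn hn2
  · linarith
  · linarith
  · rw [hvm, ← mul_div_assoc, div_le_iff₀ hkpos]
    nlinarith
  · linarith

theorem TabOK_cons (en : Ent) (L : List Ent) (u : ℕ) (h1 : en.1 ≤ u)
    (h2 : ∀ w, en.1 < w → w ≤ u → ¬ IsPrimePow w) (h3 : EntOK en) (h4 : TabOK L (en.1 - 1)) :
    TabOK (en :: L) u := by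
  obtain ⟨a1, a2, a3, a4, a5, a6⟩ := h3
  exact ⟨h1, h2, a1, a2, a3, a4, a5, a6, h4⟩

theorem TabOK_skip {L : List Ent} {n : ℕ} (h : TabOK L n) (hn : ¬ IsPrimePow (n + 1)) :
    TabOK L (n + 1) := by
  cases L with
  | nil =>
    intro w hw
    by_cases hw1 : w = n + 1
    · rw [hw1]; exact hn
    · exact h w (by omega)
  | cons en L =>
    obtain ⟨h1, h2, h3⟩ := h
    refine ⟨by omega, ?_, h3⟩
    intro w hw hw'
    by_cases hw1 : w = n + 1
    · rw [hw1]; exact hn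
    · exact h2 w hw (by omega)

theorem tabLoop_sound : ∀ (k n Ll Lu Au : ℕ) (l acc : List Ent), 1 ≤ n → n + k < 101 ^ 2 →
    InvT n Ll Lu Au → tabLoop k n Ll Lu Au l = true → TabOK acc n →
    TabOK (l.reverse ++ acc) (n + k) := by
  intro k
  induction k with
  | zero =>
    intro n Ll Lu Au l acc _ _ _ h hacc
    cases l with
    | nil => simpa using hacc
    | cons e tl => exact absurd h (by simp [tabLoop])
  | succ k ih =>
    intro n Ll Lu Au l acc hn hk hinv h hacc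
    obtain ⟨i1, i2, i3⟩ := hinv
    -- add trivial bounds for `Hpp`
    have e0 : tabLoop (k + 1) n Ll Lu Au l = stepK n Ll Lu Au 0 0
      (fun n' Ll' Lu' => tabLoop k n' Ll' Lu' Au l)
      (fun n' κ Ll' Lu' Au' _ _ => tnext l (fun en => tchk en n' κ Ll' Lu' Au')
        (fun tl => tabLoop k n' Ll' Lu' Au' tl)) := rfl
    rw [e0] at h
    have e1 : n + (k + 1) = n + 1 + k := by ring
    rw [e1]
    -- the step does not depend on the bounds for `Hpp`
    obtain ⟨Hb, hHb⟩ := exists_nat_ge (SF * Hpp n)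
    have hH0 : (0 : ℝ) ≤ SF * Hpp n := by
      apply mul_nonneg (Nat.cast_nonneg _)
      unfold Hpp
      exact Finset.sum_nonneg fun w _ => by positivity
    have h' : stepK n Ll Lu Au 0 Hb
      (fun n' Ll' Lu' => tabLoop k n' Ll' Lu' Au l)
      (fun n' κ Ll' Lu' Au' _ _ => tnext l (fun en => tchk en n' κ Ll' Lu' Au')
        (fun tl => tabLoop k n' Ll' Lu' Au' tl)) = true := by
      rw [← h]
      unfold stepK
      simp only [frc_eq]
    rcases step_sound hn (by omega) ⟨i1, i2, i3, by simpa using hH0, hHb⟩ h' with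
      ⟨hnp, Ll', Lu', ⟨j1, j2, j3, _, _⟩, hk0⟩ | ⟨hpp, Ll', Lu', Au', Hl', Hu', ⟨j1, j2, j3, _, _⟩, hk1⟩
    · exact ih (n + 1) Ll' Lu' Au l acc (by omega) (by omega) ⟨j1, j2, j3⟩ hk0
        (TabOK_skip hacc hnp)
    · cases l with
      | nil => exact absurd hk1 (by simp [tnext])
      | cons en tl =>
        unfold tnext at hk1
        simp only at hk1
        cases hte : tchk en (n + 1) (kp (n + 1)) Ll' Lu' Au' with
        | false => rw [hte] at hk1; simp at hk1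
        | true =>
          rw [hte, cond_true] at hk1
          obtain ⟨g1, g2⟩ := tchk_sound (by omega) (by omega) hpp j1 j2 j3 hte
          have := ih (n + 1) Ll' Lu' Au' tl (en :: acc) (by omega) (by omega) ⟨j1, j2, j3⟩ hk1
            (TabOK_cons en acc (n + 1) (by omega) (fun w hw hw' => by omega) g2
              (by rw [g1]; exact hacc))
          rw [List.reverse_cons, List.append_assoc]
          exact this

theorem tab_run : tabLoop 2520 1 0 0 0 tab.reverse = true := by decide +kernel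

end TB

open TB in
/-- module TAB -/
theorem Tab_proof : Stmt_Tab := by
  have h0 : TabOK [] 1 := by
    intro w hw hpp
    have := hpp.two_le
    omega
  obtain ⟨i1, i2, i3, _, _⟩ := inv_one
  have h := tabLoop_sound 2520 1 0 0 0 tab.reverse [] le_rfl (by norm_num) ⟨i1, i2, i3⟩
    tab_run h0
  rw [List.reverse_reverse, List.append_nil] at h
  exact h

end Pool.Agent.EZ
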