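import Pool.Agent.EZ.UE
import Pool.Agent.EZ.AccCommon

/-!
# Large prime roots (helper46)
-/

set_option autoImplicit false

namespace Pool.Agent.EZ

open Finset

theorem ck_dU (z : ℕ) (hz : 11 ≤ z) (hp : z.Prime) : ∀ j : Fin 5, ck z z j = (z - 2) * dU j := by
  apply forall_five
  · rw [ck_prime z _ hz hp, dU_0]; norm_num
  · rw [ck_prime z _ hz hp, dU_1]; norm_num [mul_assoc]
  · rw [ck_prime z _ hz hp, dU_2]; norm_num [mul_assoc]
  · rw [ck_prime z _ hz hp, dU_3]; norm_num [mul_assoc]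
  · rw [ck_prime z _ hz hp, dU_4]; norm_num [mul_assoc]

theorem qD_qU (z : ℕ) (hz : 11 ≤ z) (hp : z.Prime) : ∀ j : Fin 5, qD z j = qU j := by
  have h : ∀ j : ℕ, pk z z j = (if j = 0 then 231 else if j = 1 then 178 else if j = 2 then 136
      else if j = 3 then 105 else if j = 4 then 350 else 0) := by
    intro j
    unfold pk
    rw [if_neg (by omega : z ≠ 3), if_neg (by omega : z ≠ 5),
      if_neg (by omega : z ≠ 7), if_neg (by omega : z ≠ 9), if_pos ⟨hz, rfl⟩]
  apply forall_five <;> unfold qD <;> rw [hp.minFac_eq, h] <;>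
    simp only [qU_0, qU_1, qU_2, qU_3, qU_4] <;> norm_num

/-- a large prime root satisfies the standing hypotheses. -/
theorem big_prime (z : ℕ) (hp : z.Prime) (h : 401 ≤ z) (j : Fin 5) : Big z ((z - 2) * dU j) := by
  have hd := dU_pos j
  obtain ⟨t, rfl⟩ : ∃ t, z = t + 2 := ⟨z - 2, by omega⟩
  rw [Nat.add_sub_cancel]
  have h1 : t * 10000 ≤ t * dU j := Nat.mul_le_mul_left t hd.1
  have h2 : t * dU j ≤ t * 28561 := Nat.mul_le_mul_left t hd.2
  refine ⟨hp.isPrimePow, by omega, ?_, by omega, by omega, Or.inl hp, ?_⟩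
  · rw [Nat.le_div_iff_mul_le (by norm_num)]
    calc 139 * 28561 ≤ 399 * 10000 := by norm_num
      _ ≤ t * 10000 := Nat.mul_le_mul_right _ (by omega)
      _ ≤ t * dU j := h1
  · have htr : (399 : ℝ) ≤ t := by exact_mod_cast (by omega : 399 ≤ t)
    have h3 : (t : ℝ) * 10000 ≤ ((t * dU j : ℕ) : ℝ) := by exact_mod_cast h1
    have h4 : Real.log ((t + 2 : ℕ) : ℝ) ≤ 5.99147 + ((t : ℝ) + 2 - 400) / 400 := by
      have e : ((t + 2 : ℕ) : ℝ) = 400 * (((t : ℝ) + 2) / 400) := by push_cast; ring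
      rw [e, Real.log_mul (by norm_num) (by positivity)]
      have h5 := Real.log_le_sub_one_of_pos (x := ((t : ℝ) + 2) / 400) (by positivity)
      have h6 := log_400.2
      linarith
    have h7 : 0.13 * ((t : ℝ) * 10000 / 28561) ≤ 0.13 * (((t * dU j : ℕ) : ℝ) / 28561) := by
      apply mul_le_mul_of_nonneg_left _ (by norm_num)
      exact div_le_div_of_nonneg_right h3 (by norm_num)
    refine le_trans ?_ h7
    have h8 : 0.13 * ((t : ℝ) * 10000 / 28561) = (1300 / 28561) * t := by ring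
    rw [h8]
    linarith

/-- ratio of logarithms. -/
theorem ratio_bound (z : ℕ) (h : 401 ≤ z) (i j : Fin 5) (k : ℕ) (ψ : ℝ)
    (hψ1 : 1.00085 ≤ ψ) (hψ : 1.00085 * 5.9889 ≤ ψ * (5.9889 - k * 0.26241))
    (hd : (dU i : ℝ) ≤ dU j * 1.3 ^ k) :
    Real.log z / Real.log ((((z - 2) * dU j / dU i : ℕ) : ℝ) + 1) ≤ ψ := by
  obtain ⟨t, rfl⟩ : ∃ t, z = t + 2 := ⟨z - 2, by omega⟩
  rw [Nat.add_sub_cancel]
  have htr : (399 : ℝ) ≤ t := by exact_mod_cast (by omega : 399 ≤ t)
  have ht0 : (0 : ℝ) < t := by linarith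
  have hdi0 : (0 : ℝ) < dU i := by exact_mod_cast (by have := (dU_pos i).1; omega : 0 < dU i)
  have hdj0 : (0 : ℝ) < dU j := by exact_mod_cast (by have := (dU_pos j).1; omega : 0 < dU j)
  have hl0 : 5.9889 ≤ Real.log (t : ℝ) := by
    have h1 : Real.log 400 - Real.log t ≤ 400 / t - 1 := by
      rw [← Real.log_div (by norm_num) ht0.ne']
      exact Real.log_le_sub_one_of_pos (by positivity)
    have h1' : Real.log 399 ≤ Real.log t := Real.log_le_log (by norm_num) htr
    have h2 : Real.log 400 - Real.log 399 ≤ 400 / 399 - 1 := by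
      rw [← Real.log_div (by norm_num) (by norm_num)]
      exact Real.log_le_sub_one_of_pos (by norm_num)
    have h3 := log_400.1
    norm_num at h2
    linarith
  set l := Real.log (t : ℝ) with hl
  have hL : Real.log ((t + 2 : ℕ) : ℝ) ≤ 1.00085 * l := by
    have e : ((t + 2 : ℕ) : ℝ) = t * (1 + 2 / t) := by push_cast; field_simp
    rw [e, Real.log_mul ht0.ne' (by positivity)]
    have h5 := Real.log_le_sub_one_of_pos (x := 1 + 2 / (t : ℝ)) (by positivity)
    have h6 : 2 / (t : ℝ) ≤ 0.00502 := by rw [div_le_iff₀ ht0]; linarith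
    linarith
  have hL0 : 0 ≤ Real.log ((t + 2 : ℕ) : ℝ) := Real.log_natCast_nonneg _
  have hlam := log_13
  have hlam0 := log_13_nonneg
  -- lower bound of the denominator
  have hden : l - k * Real.log 1.3 ≤ Real.log (((t * dU j / dU i : ℕ) : ℝ) + 1) := by
    have h1 : ((t * dU j : ℕ) : ℝ) / dU i ≤ ((t * dU j / dU i : ℕ) : ℝ) + 1 := by
      have h2 := Nat.lt_succ_floor (((t * dU j : ℕ) : ℝ) / (dU i : ℝ))
      rw [Nat.floor_div_eq_div] at h2
      push_cast at h2 ⊢
      linarith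
    have h3 : (t : ℝ) / 1.3 ^ k ≤ ((t * dU j : ℕ) : ℝ) / dU i := by
      push_cast
      rw [div_le_div_iff₀ (by positivity) hdi0]
      calc (t : ℝ) * dU i ≤ t * (dU j * 1.3 ^ k) := mul_le_mul_of_nonneg_left hd ht0.le
        _ = t * dU j * 1.3 ^ k := by ring
    have h4 := Real.log_le_log (by positivity) (h3.trans h1)
    rw [Real.log_div ht0.ne' (by positivity), Real.log_pow] at h4
    exact h4
  have hk0 : (0 : ℝ) ≤ k := Nat.cast_nonneg k
  have h1 : (k : ℝ) * Real.log 1.3 ≤ k * 0.26241 := mul_le_mul_of_nonneg_left hlam hk0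
  have h2 : 0 ≤ ψ * (k * 0.26241 - (k : ℝ) * Real.log 1.3) :=
    mul_nonneg (by linarith) (by linarith)
  have h3 : 0 ≤ (ψ - 1.00085) * (l - 5.9889) := mul_nonneg (by linarith) (by linarith)
  have h4 : 1.00085 * l ≤ ψ * (l - k * Real.log 1.3) := by
    have e : ψ * (l - k * Real.log 1.3) - 1.00085 * l
        = ψ * (k * 0.26241 - (k : ℝ) * Real.log 1.3) + (ψ - 1.00085) * (l - 5.9889)
          + (ψ * (5.9889 - k * 0.26241) - 1.00085 * 5.9889) := by ring
    linarith
  have hpos : 0 < l - k * Real.log 1.3 := by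
    by_contra hcon
    push Not at hcon
    have : ψ * (l - k * Real.log 1.3) ≤ 0 := mul_nonpos_of_nonneg_of_nonpos (by linarith) hcon
    linarith
  rw [div_le_iff₀ (lt_of_lt_of_le hpos hden)]
  have h5 : ψ * (l - k * Real.log 1.3) ≤ ψ * Real.log (((t * dU j / dU i : ℕ) : ℝ) + 1) :=
    mul_le_mul_of_nonneg_left hden (by linarith)
  linarith

/-- upper bounds for the normalised base of the five atoms. -/
noncomputable def FP : Fin 5 → ℝ := ![1.112456, 1.070214, 1.039325, 1.016934, 1.00085]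

theorem FP_0 : FP 0 = 1.112456 := rfl
theorem FP_1 : FP 1 = 1.070214 := rfl
theorem FP_2 : FP 2 = 1.039325 := rfl
theorem FP_3 : FP 3 = 1.016934 := rfl
theorem FP_4 : FP 4 = 1.00085 := rfl

theorem FP_spec (z : ℕ) (h : 401 ≤ z) : ∀ j : Fin 5,
    ∑ i, qU i * (Real.log z / Real.log ((((z - 2) * dU j / dU i : ℕ) : ℝ) + 1)) ≤ FP j := by
  have r0 : ∀ i j : Fin 5, (dU i : ℝ) ≤ dU j →
      Real.log z / Real.log ((((z - 2) * dU j / dU i : ℕ) : ℝ) + 1) ≤ 1.00085 := by
    intro i j hd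
    apply ratio_bound z h i j 0 _ le_rfl (by norm_num)
    rw [pow_zero, mul_one]; exact hd
  have r1 : ∀ i j : Fin 5, (dU i : ℝ) ≤ dU j * 1.3 ^ 1 →
      Real.log z / Real.log ((((z - 2) * dU j / dU i : ℕ) : ℝ) + 1) ≤ 1.0468 := fun i j hd =>
    ratio_bound z h i j 1 _ (by norm_num) (by norm_num) hd
  have r2 : ∀ i j : Fin 5, (dU i : ℝ) ≤ dU j * 1.3 ^ 2 →
      Real.log z / Real.log ((((z - 2) * dU j / dU i : ℕ) : ℝ) + 1) ≤ 1.09699 := fun i j hd =>
    ratio_bound z h i j 2 _ (by norm_num) (by norm_num) hd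
  have r3 : ∀ i j : Fin 5, (dU i : ℝ) ≤ dU j * 1.3 ^ 3 →
      Real.log z / Real.log ((((z - 2) * dU j / dU i : ℕ) : ℝ) + 1) ≤ 1.15233 := fun i j hd =>
    ratio_bound z h i j 3 _ (by norm_num) (by norm_num) hd
  have r4 : ∀ i j : Fin 5, (dU i : ℝ) ≤ dU j * 1.3 ^ 4 →
      Real.log z / Real.log ((((z - 2) * dU j / dU i : ℕ) : ℝ) + 1) ≤ 1.21355 := fun i j hd =>
    ratio_bound z h i j 4 _ (by norm_num) (by norm_num) hd
  apply forall_five
  · rw [Fin.sum_univ_five, qU_0, qU_1, qU_2, qU_3, qU_4, FP_0]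
    have a0 := r0 0 0 le_rfl
    have a1 := r1 1 0 (by rw [dU_1, dU_0]; norm_num)
    have a2 := r2 2 0 (by rw [dU_2, dU_0]; norm_num)
    have a3 := r3 3 0 (by rw [dU_3, dU_0]; norm_num)
    have a4 := r4 4 0 (by rw [dU_4, dU_0]; norm_num)
    linarith
  · rw [Fin.sum_univ_five, qU_0, qU_1, qU_2, qU_3, qU_4, FP_1]
    have a0 := r0 0 1 (by rw [dU_1, dU_0]; norm_num)
    have a1 := r0 1 1 le_rfl
    have a2 := r1 2 1 (by rw [dU_2, dU_1]; norm_num)
    have a3 := r2 3 1 (by rw [dU_3, dU_1]; norm_num)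
    have a4 := r3 4 1 (by rw [dU_4, dU_1]; norm_num)
    linarith
  · rw [Fin.sum_univ_five, qU_0, qU_1, qU_2, qU_3, qU_4, FP_2]
    have a0 := r0 0 2 (by rw [dU_2, dU_0]; norm_num)
    have a1 := r0 1 2 (by rw [dU_2, dU_1]; norm_num)
    have a2 := r0 2 2 le_rfl
    have a3 := r1 3 2 (by rw [dU_3, dU_2]; norm_num)
    have a4 := r2 4 2 (by rw [dU_4, dU_2]; norm_num)
    linarith
  · rw [Fin.sum_univ_five, qU_0, qU_1, qU_2, qU_3, qU_4, FP_3]
    have a0 := r0 0 3 (by rw [dU_3, dU_0]; norm_num)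
    have a1 := r0 1 3 (by rw [dU_3, dU_1]; norm_num)
    have a2 := r0 2 3 (by rw [dU_3, dU_2]; norm_num)
    have a3 := r0 3 3 le_rfl
    have a4 := r1 4 3 (by rw [dU_4, dU_3]; norm_num)
    linarith
  · rw [Fin.sum_univ_five, qU_0, qU_1, qU_2, qU_3, qU_4, FP_4]
    have a0 := r0 0 4 (by rw [dU_4, dU_0]; norm_num)
    have a1 := r0 1 4 (by rw [dU_4, dU_1]; norm_num)
    have a2 := r0 2 4 (by rw [dU_4, dU_2]; norm_num)
    have a3 := r0 3 4 (by rw [dU_4, dU_3]; norm_num)
    have a4 := r0 4 4 le_rfl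
    linarith

theorem exp_num {a b : ℝ} (h0 : 0 ≤ a) (h1 : a ≤ 1)
    (h : 1 + a + a ^ 2 / 2 + a ^ 3 / 6 + a ^ 4 / 24 + a ^ 5 * (6 / 600) ≤ b) : Real.exp a ≤ b := by
  have h2 := Real.exp_bound' h0 h1 (n := 5) (by norm_num)
  norm_num [Finset.sum_range_succ, Nat.factorial] at h2
  linarith

/-- the constants of a large prime root. -/
theorem prime_bounds (z : ℕ) (hp : z.Prime) (h : 401 ≤ z) (j : Fin 5) :
    LINB z (ck z z j) (0.5833 * (1.1306 * FP j + 0.343795)) ∧
    TOPB z (ck z z j) (0.5833 * (1.1306 * FP j * (10230 / (((z - 2) * dU j : ℕ) : ℝ))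
      + 0.033428 / z)) := by
  have H := big_prime z hp h j
  rw [ck_dU z (by omega) hp j]
  have hL := H.L
  have hz0 := H.zr
  obtain ⟨h1, h2⟩ := H.core (C0 := 0.206) (C1 := 0.262) (C2 := 0.3836) (ρ0 := 1.1306)
    (ρ1 := 1.1957) (ρ2 := 1.3503) (F := FP j) (by norm_num) (by norm_num) (by norm_num)
    (by norm_num) (by norm_num) (by norm_num) (by linarith) (by linarith) (by linarith)
    (by linarith)
    (exp_num (by norm_num) (by norm_num) (by norm_num))
    (exp_num (by norm_num) (by norm_num) (by norm_num))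
    (exp_num (by norm_num) (by norm_num) (by norm_num)) (by norm_num) (by norm_num) (by norm_num)
    (FP_spec z h j)
  constructor
  · intro M hM VS hVS hM2
    refine (h1 M hM VS hVS hM2).trans ?_
    apply mul_le_mul_of_nonneg_right _ (hit_nonneg _ VS hVS M)
    apply mul_le_mul_of_nonneg_right
    · apply mul_le_mul_of_nonneg_left _ (by norm_num)
      linarith
    · unfold hh
      have := (z_facts H.hz).1
      positivity
  · intro M hM hI
    refine (h2 M hM hI).trans ?_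
    apply mul_le_mul_of_nonneg_right
    · apply mul_le_mul_of_nonneg_left _ (by norm_num)
      have : ((1.1957 - 1.1306) / 3 + (1.3503 - 1.1957) * (4 / 57)
          + ((1.5125 - 1.3503) / 2 + 0.3781 / 4) / 200) / (z : ℝ) ≤ 0.033428 / z :=
        div_le_div_of_nonneg_right (by norm_num) (by linarith)
      linarith
    · unfold hh
      have := (z_facts H.hz).1
      positivity

/-- the large prime roots. -/
theorem UPrime_proof (hi : ℕ) : Stmt_Prime 400 hi := by
  intro z hp hlo _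
  have h401 : 401 ≤ z := by
    rcases Nat.lt_or_ge z 401 with h | h
    · have : z = 400 := by omega
      subst this
      exact absurd hp (by norm_num)
    · exact h
  have hz0 : (401 : ℝ) ≤ z := by exact_mod_cast h401
  refine ⟨fun j => 0.5833 * (1.1306 * FP j + 0.343795),
    fun j => 0.5833 * (1.1306 * FP j * (10230 / (((z - 2) * dU j : ℕ) : ℝ)) + 0.033428 / z),
    ?_, ?_, ?_⟩
  · intro j
    obtain ⟨h1, h2⟩ := prime_bounds z hp h401 j
    have hF : 0 ≤ FP j := by
      revert j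
      intro j _ _
      revert j
      apply forall_five <;> simp only [FP_0, FP_1, FP_2, FP_3, FP_4] <;> norm_num
    exact ⟨h1, h2, by positivity, by positivity⟩
  · rw [Fin.sum_univ_five]
    simp only [qD_qU z (by omega) hp, qU_0, qU_1, qU_2, qU_3, qU_4, FP_0, FP_1, FP_2, FP_3, FP_4]
    norm_num
  · have hT := Acc.Tz_ge_first hp (e := 1) one_ne_zero
    rw [pow_one] at hT
    have hhz : 0 < hh (z : ℝ) := by
      unfold hh
      have := (z_facts hp.isPrimePow).1
      have := (z_facts hp.isPrimePow).2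
      positivity
    have hx : ∀ j : Fin 5, 10230 / (((z - 2) * dU j : ℕ) : ℝ) ≤ 10230 * 1.00502 / (dU j : ℝ) / z := by
      intro j
      obtain ⟨t, ht⟩ : ∃ t, z = t + 2 := ⟨z - 2, by omega⟩
      have hd0 : (0 : ℝ) < dU j := by exact_mod_cast (by have := (dU_pos j).1; omega : 0 < dU j)
      have htr : (399 : ℝ) ≤ t := by exact_mod_cast (by omega : 399 ≤ t)
      rw [ht, Nat.add_sub_cancel, div_div]
      push_cast
      rw [div_le_div_iff₀ (by positivity) (by positivity)]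
      have : (t : ℝ) + 2 ≤ 1.00502 * t := by linarith
      have h5 : (dU j : ℝ) * ((t : ℝ) + 2) ≤ dU j * (1.00502 * t) :=
        mul_le_mul_of_nonneg_left this hd0.le
      nlinarith
    have x0 := hx 0
    have x1 := hx 1
    have x2 := hx 2
    have x3 := hx 3
    have x4 := hx 4
    rw [dU_0] at x0
    rw [dU_1] at x1
    rw [dU_2] at x2
    rw [dU_3] at x3
    rw [dU_4] at x4
    have hsum : ∑ j, qD z j * (0.5833 * (1.1306 * FP j * (10230 / (((z - 2) * dU j : ℕ) : ℝ))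
        + 0.033428 / z)) ≤ 0.48 / z := by
      rw [Fin.sum_univ_five]
      simp only [qD_qU z (by omega) hp, qU_0, qU_1, qU_2, qU_3, qU_4, FP_0, FP_1, FP_2, FP_3, FP_4]
      rw [dU_0, dU_1, dU_2, dU_3, dU_4]
      have hinv : 0 < 1 / (z : ℝ) := by positivity
      have e : ∀ a : ℝ, a / (z : ℝ) = a * (1 / z) := fun a => by ring
      rw [e] at x0 x1 x2 x3 x4
      rw [e 0.033428, e 0.48]
      push_cast at x0 x1 x2 x3 x4 ⊢
      nlinarith
    calc _ ≤ 0.48 / (z : ℝ) * hh (z : ℝ) := mul_le_mul_of_nonneg_right hsum hhz.le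
      _ = 0.96 * (hh (z : ℝ) * (((1 : ℕ) : ℝ) / (((1 : ℕ) : ℝ) + 1)) / z) := by
          push_cast; ring
      _ ≤ 0.96 * Tz z 1 := mul_le_mul_of_nonneg_left hT (by norm_num)

end Pool.Agent.EZ
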