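import Pool.Agent.EZ.UG

/-!
# Large roots that are proper powers: conclusion (helper46)
-/

set_option autoImplicit false

namespace Pool.Agent.EZ

open Finset

/-- ratio of logarithms. -/
theorem ratio_pow {z x : ℕ} (hx0 : 0 < x) (μ0 L0 : ℝ) (hL0 : 0 < L0) (hL : L0 ≤ Real.log z)
    (hμ : Real.log z - μ0 ≤ Real.log ((x : ℝ) / 10000)) (hμ0 : 0 ≤ μ0) (i : Fin 5) (k : ℕ) (ψ : ℝ)
    (hψ1 : 1 ≤ ψ) (hψ : L0 ≤ ψ * (L0 - μ0 - k * 0.26241)) (hd : (dU i : ℝ) ≤ 10000 * 1.3 ^ k) :
    Real.log z / Real.log (((x / dU i : ℕ) : ℝ) + 1) ≤ ψ := by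
  have hdi0 : (0 : ℝ) < dU i := by exact_mod_cast (by have := (dU_pos i).1; omega : 0 < dU i)
  have hxr : (0 : ℝ) < x := by exact_mod_cast hx0
  have hlam := log_13
  have hlam0 := log_13_nonneg
  set L := Real.log (z : ℝ) with hLdef
  have hden : L - μ0 - k * Real.log 1.3 ≤ Real.log (((x / dU i : ℕ) : ℝ) + 1) := by
    have h1 : (x : ℝ) / dU i ≤ ((x / dU i : ℕ) : ℝ) + 1 := by
      have h2 := Nat.lt_succ_floor ((x : ℝ) / (dU i : ℝ))
      rw [Nat.floor_div_eq_div] at h2
      push_cast at h2 ⊢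
      linarith
    have h3 : (x : ℝ) / 10000 / 1.3 ^ k ≤ (x : ℝ) / dU i := by
      rw [div_div]
      exact div_le_div_of_nonneg_left hxr.le hdi0 hd
    have h4 := Real.log_le_log (by positivity) (h3.trans h1)
    rw [Real.log_div (by positivity) (by positivity), Real.log_pow] at h4
    linarith
  have hk0 : (0 : ℝ) ≤ k := Nat.cast_nonneg k
  have h1 : (k : ℝ) * Real.log 1.3 ≤ k * 0.26241 := mul_le_mul_of_nonneg_left hlam hk0
  have h2 : 0 ≤ ψ * (k * 0.26241 - (k : ℝ) * Real.log 1.3) :=
    mul_nonneg (by linarith) (by linarith)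
  have h3 : 0 ≤ (ψ - 1) * (L - L0) := mul_nonneg (by linarith) (by linarith)
  have h4 : L ≤ ψ * (L - μ0 - k * Real.log 1.3) := by
    have e : ψ * (L - μ0 - k * Real.log 1.3) - L
        = ψ * (k * 0.26241 - (k : ℝ) * Real.log 1.3) + (ψ - 1) * (L - L0)
          + (ψ * (L0 - μ0 - k * 0.26241) - L0) := by ring
    linarith
  have hpos : 0 < L - μ0 - k * Real.log 1.3 := by
    by_contra hcon
    push Not at hcon
    have : ψ * (L - μ0 - k * Real.log 1.3) ≤ 0 := mul_nonpos_of_nonneg_of_nonpos (by linarith) hcon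
    linarith
  rw [div_le_iff₀ (lt_of_lt_of_le hpos hden)]
  have h5 : ψ * (L - μ0 - k * Real.log 1.3) ≤ ψ * Real.log (((x / dU i : ℕ) : ℝ) + 1) :=
    mul_le_mul_of_nonneg_left hden (by linarith)
  linarith

/-- sizes of the proper powers beyond `1024`. -/
theorem pow_sizes (q k : ℕ) (hq : q.Prime) (hk : 2 ≤ k) (h : 1025 ≤ q ^ k) :
    1331 ≤ q ^ k ∧ (q < 11 → 2048 ≤ q ^ k) := by
  have small : q < 11 → 2048 ≤ q ^ k := by
    intro h11
    have h2 := hq.two_le
    have key : ∀ b m : ℕ, q = b → b ^ m < 1025 → 2048 ≤ b ^ (m + 1) → 2048 ≤ q ^ k := by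
      intro b m hb h3 h4
      subst hb
      have hm : m < k := by
        by_contra hcon
        push Not at hcon
        have : q ^ k ≤ q ^ m := Nat.pow_le_pow_right (by omega) hcon
        omega
      exact h4.trans (Nat.pow_le_pow_right (by omega) hm)
    interval_cases q
    · exact key 2 10 rfl (by norm_num) (by norm_num)
    · exact key 3 6 rfl (by norm_num) (by norm_num)
    · exact absurd hq (by norm_num)
    · exact key 5 4 rfl (by norm_num) (by norm_num)
    · exact absurd hq (by norm_num)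
    · exact key 7 3 rfl (by norm_num) (by norm_num)
    · exact absurd hq (by norm_num)
    · exact absurd hq (by norm_num)
    · exact absurd hq (by norm_num)
  refine ⟨?_, small⟩
  rcases Nat.lt_or_ge q 11 with h11 | h11
  · have := small h11
    omega
  · rcases Nat.lt_or_ge 2 k with h3 | h3
    · calc 1331 = 11 ^ 3 := by norm_num
        _ ≤ q ^ 3 := Nat.pow_le_pow_left h11 3
        _ ≤ q ^ k := Nat.pow_le_pow_right (by omega) h3
    · have hk2 : k = 2 := by omega
      subst hk2
      by_contra hcon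
      push Not at hcon
      have h4 : q ≤ 36 := by
        by_contra h5
        push Not at h5
        have : 37 ^ 2 ≤ q ^ 2 := Nat.pow_le_pow_left h5 2
        omega
      have h6 : 33 ≤ q := by
        by_contra h5
        push Not at h5
        have : q ^ 2 ≤ 32 ^ 2 := Nat.pow_le_pow_left (by omega) 2
        omega
      interval_cases q
      · exact absurd hq (by norm_num)
      · exact absurd hq (by norm_num)
      · exact absurd hq (by norm_num)
      · exact absurd hq (by norm_num)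

theorem log_1331 : 7.1876 ≤ Real.log 1331 := by
  have h1 := Real.log_three_gt_d9
  have h2 := log_seven_bounds.1
  have e : Real.log 1323 = 3 * Real.log 3 + 2 * Real.log 7 := by
    rw [show (1323 : ℝ) = 3 ^ 3 * 7 ^ 2 by norm_num, Real.log_mul (by norm_num) (by norm_num),
      Real.log_pow, Real.log_pow]
    norm_num
  have h3 : Real.log 1323 ≤ Real.log 1331 := Real.log_le_log (by norm_num) (by norm_num)
  linarith

theorem log_2048 : 7.6246 ≤ Real.log 2048 := by
  have h1 := Real.log_two_gt_d9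
  have e : Real.log 2048 = 11 * Real.log 2 := by
    rw [show (2048 : ℝ) = 2 ^ 11 by norm_num, Real.log_pow]; norm_num
  linarith

theorem exp_num' {a b : ℝ} (h0 : 0 ≤ a) (h1 : a ≤ 1)
    (h : 1 + a + a ^ 2 / 2 + a ^ 3 / 6 + a ^ 4 / 24 + a ^ 5 * (6 / 600) ≤ b) : Real.exp a ≤ b := by
  have h2 := Real.exp_bound' h0 h1 (n := 5) (by norm_num)
  norm_num [Finset.sum_range_succ, Nat.factorial] at h2
  linarith

/-- conclusion for a proper power from a bound of the normalised base. -/
theorem pow_final {z x : ℕ} (H : Big z x) (hL : 7.1876 ≤ Real.log z) {F A : ℝ}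
    (hF : ∑ i, qU i * (Real.log z / Real.log (((x / dU i : ℕ) : ℝ) + 1)) ≤ F)
    (hF2 : F ≤ 1.3)
    (hA : 0.5833 * (1.0966 * F + 0.190734) - 0.2676 * 1.3391 + 0.42114 ≤ A) :
    ABSB z x A ∧ LINB z x 1.2 := by
  obtain ⟨h1, -⟩ := H.core (C0 := 0.1755) (C1 := 0.252) (C2 := 0.3753) (ρ0 := 1.0966)
    (ρ1 := 1.1838) (ρ2 := 1.3391) (F := F) (by norm_num) (by norm_num) (by norm_num)
    (by norm_num) (by norm_num) (by norm_num) (by linarith) (by linarith) (by linarith)
    (by linarith)
    (exp_num' (by norm_num) (by norm_num) (by norm_num))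
    (exp_num' (by norm_num) (by norm_num) (by norm_num))
    (exp_num' (by norm_num) (by norm_num) (by norm_num)) (by norm_num) (by norm_num) (by norm_num)
    hF
  have h2 := H.absolute (C0 := 0.1755) (C1 := 0.252) (C2 := 0.3753) (ρ0 := 1.0966)
    (ρ1 := 1.1838) (ρ2 := 1.3391) (F := F) (by norm_num) (by norm_num) (by norm_num)
    (by norm_num) (by norm_num) (by norm_num) (by linarith) (by linarith) (by linarith)
    (by linarith)
    (exp_num' (by norm_num) (by norm_num) (by norm_num))
    (exp_num' (by norm_num) (by norm_num) (by norm_num))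
    (exp_num' (by norm_num) (by norm_num) (by norm_num)) (by norm_num) (by norm_num) (by linarith)
    hF
  have hh0 : 0 ≤ hh (z : ℝ) := by
    unfold hh
    have := (z_facts H.hz).1
    positivity
  constructor
  · intro M hM
    refine (h2 M hM).trans (mul_le_mul_of_nonneg_right ?_ hh0)
    linarith
  · intro M hM VS hVS hM2
    refine (h1 M hM VS hVS hM2).trans ?_
    apply mul_le_mul_of_nonneg_right _ (hit_nonneg _ VS hVS M)
    apply mul_le_mul_of_nonneg_right _ hh0
    linarith

/-- the proper powers beyond `1024`. -/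
theorem UPow_proof (hi : ℕ) : Stmt_Pow 1025 hi := by
  intro z hz hnp hlo _
  obtain ⟨q, k, hq, hk, rfl⟩ := (isPrimePow_nat_iff _).1 hz
  have hk2 : 2 ≤ k := by
    by_contra hcon
    have : k = 1 := by omega
    subst this
    rw [pow_one] at hnp
    exact hnp hq
  have hmf : (q ^ k).minFac = q := hq.pow_minFac (by omega)
  obtain ⟨hs1, hs2⟩ := pow_sizes q k hq hk2 hlo
  have hdiv : q ^ k / q = q ^ (k - 1) := by
    obtain ⟨m, rfl⟩ : ∃ m, k = m + 1 := ⟨k - 1, by omega⟩
    rw [pow_succ, Nat.mul_div_cancel _ hq.pos]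
    rfl
  have hqk : q ^ k = q * q ^ (k - 1) := by rw [← pow_succ']; congr 1; omega
  have hqq : q * q ≤ q ^ k := by
    rw [← pow_two]; exact Nat.pow_le_pow_right hq.pos hk2
  have hne : q ^ k ≠ q := by
    intro h; rw [h] at hnp; exact hnp hq
  have hck : ck (q ^ k) (q ^ k).minFac 0 = (q ^ k - q ^ (k - 1)) * 10000 := by
    rw [hmf, ck_generic _ _ _ ?_ hne, hdiv]
    simp only [Finset.mem_insert, Finset.mem_singleton, not_or]
    refine ⟨?_, ?_, ?_, ?_, ?_, ?_, ?_, ?_, ?_, ?_, ?_, ?_⟩ <;> omega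
  have hhalf : 2 * q ^ (k - 1) ≤ q ^ k := by
    rw [hqk]; exact Nat.mul_le_mul_right _ hq.two_le
  have hpos : 0 < q ^ (k - 1) := Nat.pow_pos hq.pos
  unfold PowOK
  rw [hck]
  set z := q ^ k with hzdef
  set s := q ^ (k - 1) with hsdef
  set x := (z - s) * 10000 with hxdef
  have hzr : (1331 : ℝ) ≤ z := by exact_mod_cast hs1
  have hxz : 5000 * z ≤ x := by omega
  have hxr : (5000 : ℝ) * z ≤ x := by exact_mod_cast hxz
  have hLup : Real.log (z : ℝ) ≤ 5.99147 + ((z : ℝ) - 400) / 400 := by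
    have e : (z : ℝ) = 400 * ((z : ℝ) / 400) := by ring
    rw [e, Real.log_mul (by norm_num) (by positivity)]
    have h5 := Real.log_le_sub_one_of_pos (x := (z : ℝ) / 400) (by positivity)
    have h6 := log_400.2
    have e2 : (400 * ((z : ℝ) / 400) - 400) / 400 = (z : ℝ) / 400 - 1 := by ring
    rw [e2]
    linarith
  have H : Big z x := by
    refine ⟨hz, by omega, ?_, ?_, hxz, Or.inr ?_, ?_⟩
    · rw [Nat.le_div_iff_mul_le (by norm_num)]
      calc 139 * 28561 ≤ 5000 * 1331 := by norm_num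
        _ ≤ 5000 * z := Nat.mul_le_mul_left _ hs1
        _ ≤ x := hxz
    · calc x ≤ z * 10000 := Nat.mul_le_mul_right _ (Nat.sub_le _ _)
        _ ≤ 28561 * z := by rw [mul_comm]; exact Nat.mul_le_mul_right _ (by norm_num)
    · rw [hmf]
      have h1 : q ≤ x / 28561 := by
        rw [Nat.le_div_iff_mul_le (by norm_num)]
        rcases Nat.lt_or_ge q 6 with h6 | h6
        · calc q * 28561 ≤ 5 * 28561 := Nat.mul_le_mul_right _ (by omega)
            _ ≤ 5000 * 1331 := by norm_num
            _ ≤ 5000 * z := Nat.mul_le_mul_left _ hs1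
            _ ≤ x := hxz
        · calc q * 28561 ≤ q * (5000 * q) := Nat.mul_le_mul_left _ (by omega)
            _ = 5000 * (q * q) := by ring
            _ ≤ 5000 * z := Nat.mul_le_mul_left _ hqq
            _ ≤ x := hxz
      omega
    · have h1 : 0.13 * ((5000 : ℝ) * z / 28561) ≤ 0.13 * ((x : ℝ) / 28561) := by
        apply mul_le_mul_of_nonneg_left _ (by norm_num)
        exact div_le_div_of_nonneg_right hxr (by norm_num)
      refine le_trans ?_ h1
      have h2 : 0.13 * ((5000 : ℝ) * z / 28561) = 650 / 28561 * z := by ring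
      rw [h2]
      linarith
  have hL0 : 7.1876 ≤ Real.log (z : ℝ) := log_1331.trans (Real.log_le_log (by norm_num) hzr)
  have hx0 : 0 < x := by omega
  have hxs : (x : ℝ) / 10000 = (z : ℝ) - s := by
    rw [hxdef]
    push_cast [Nat.cast_sub (show s ≤ z by omega)]
    ring
  have hz16 : z ≠ 16 := by omega
  unfold cA
  rw [if_neg hz16, hmf]
  by_cases hq11 : q < 11
  · rw [if_pos hq11]
    have hL1 : 7.6246 ≤ Real.log (z : ℝ) := by
      refine log_2048.trans (Real.log_le_log (by norm_num) ?_)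
      exact_mod_cast hs2 hq11
    have hμ : Real.log z - 0.69315 ≤ Real.log ((x : ℝ) / 10000) := by
      rw [hxs]
      have h1 : (z : ℝ) / 2 ≤ (z : ℝ) - s := by
        have : (2 : ℝ) * s ≤ z := by exact_mod_cast hhalf
        linarith
      have h2 := Real.log_le_log (by positivity) h1
      rw [Real.log_div (by positivity) (by norm_num)] at h2
      have := Real.log_two_lt_d9
      linarith
    have r : ∀ (i : Fin 5) (k : ℕ) (ψ : ℝ), 1 ≤ ψ → 7.6246 ≤ ψ * (7.6246 - 0.69315 - k * 0.26241) →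
        (dU i : ℝ) ≤ 10000 * 1.3 ^ k →
        Real.log z / Real.log (((x / dU i : ℕ) : ℝ) + 1) ≤ ψ := fun i k ψ h1 h2 h3 =>
      ratio_pow hx0 0.69315 7.6246 (by norm_num) hL1 hμ (by norm_num) i k ψ h1 h2 h3
    have a0 := r 0 0 1.10001 (by norm_num) (by norm_num) (by rw [dU_0]; norm_num)
    have a1 := r 1 1 1.14329 (by norm_num) (by norm_num) (by rw [dU_1]; norm_num)
    have a2 := r 2 2 1.19012 (by norm_num) (by norm_num) (by rw [dU_2]; norm_num)
    have a3 := r 3 3 1.24095 (by norm_num) (by norm_num) (by rw [dU_3]; norm_num)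
    have a4 := r 4 4 1.29632 (by norm_num) (by norm_num) (by rw [dU_4]; norm_num)
    refine pow_final H hL0 (F := 1.2036) ?_ (by norm_num) (by norm_num)
    rw [Fin.sum_univ_five, qU_0, qU_1, qU_2, qU_3, qU_4]
    linarith
  · rw [if_neg hq11]
    have hμ : Real.log z - 0.1 ≤ Real.log ((x : ℝ) / 10000) := by
      rw [hxs]
      have h1 : (z : ℝ) / 1.1 ≤ (z : ℝ) - s := by
        have h3 : 11 * s ≤ z := by
          rw [hqk]; exact Nat.mul_le_mul_right _ (by omega)
        have : (11 : ℝ) * s ≤ z := by exact_mod_cast h3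
        rw [div_le_iff₀ (by norm_num)]
        linarith
      have h2 := Real.log_le_log (by positivity) h1
      rw [Real.log_div (by positivity) (by norm_num)] at h2
      have := Real.log_le_sub_one_of_pos (x := (1.1 : ℝ)) (by norm_num)
      linarith
    have r : ∀ (i : Fin 5) (k : ℕ) (ψ : ℝ), 1 ≤ ψ → 7.1876 ≤ ψ * (7.1876 - 0.1 - k * 0.26241) →
        (dU i : ℝ) ≤ 10000 * 1.3 ^ k →
        Real.log z / Real.log (((x / dU i : ℕ) : ℝ) + 1) ≤ ψ := fun i k ψ h1 h2 h3 =>
      ratio_pow hx0 0.1 7.1876 (by norm_num) hL0 hμ (by norm_num) i k ψ h1 h2 h3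
    have a0 := r 0 0 1.01412 (by norm_num) (by norm_num) (by rw [dU_0]; norm_num)
    have a1 := r 1 1 1.05311 (by norm_num) (by norm_num) (by rw [dU_1]; norm_num)
    have a2 := r 2 2 1.09522 (by norm_num) (by norm_num) (by rw [dU_2]; norm_num)
    have a3 := r 3 3 1.14084 (by norm_num) (by norm_num) (by rw [dU_3]; norm_num)
    have a4 := r 4 4 1.19042 (by norm_num) (by norm_num) (by rw [dU_4]; norm_num)
    refine pow_final H hL0 (F := 1.1072) ?_ (by norm_num) (by norm_num)
    rw [Fin.sum_univ_five, qU_0, qU_1, qU_2, qU_3, qU_4]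
    linarith

end Pool.Agent.EZ
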