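import Pool.Agent.EZ.EngFinal
import Pool.Agent.EZ.EngCell
import Pool.Agent.EZ.EngHi
import Pool.Agent.EZ.EngLem
import Pool.Agent.EZ.EngFarInst
import Pool.Agent.EZ.EngP1A
import Pool.Agent.EZ.EngP2
import Pool.Agent.EZ.EngPBA
import Pool.Agent.EZ.EngBlk
import Pool.Agent.EZ.EngTabOK
import Pool.Agent.EZ.EngSv
import Pool.Agent.EZ.UF
import Pool.Agent.EZ.UH

/-!
# The engine: wiring
-/

set_option autoImplicit false

namespace Pool.Agent.EZ

open Finset

theorem mw_self (z x c : ℕ) : Mz z x c + Wt z x c = Hpp c := by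
  have e2 : Wt z x c = ∑ w ∈ ppK c, (if w.minFac ≠ z.minFac then Sx x w / (w : ℝ) else 0) := by
    unfold Wt; rw [Finset.sum_filter]
  rw [e2]
  unfold Mz Hpp
  rw [← Finset.sum_add_distrib]
  apply Finset.sum_congr rfl
  intro w _
  by_cases h3 : w.minFac = z.minFac
  · rw [if_pos h3, if_neg (by simpa using h3)]; ring
  · rw [if_neg h3, if_pos h3]; ring

theorem Lem_proof : Stmt_Lem := by
  refine ⟨fun z x u hu => oa_top z x u hu, fun z x u hz hu => oc_top z x u hu (by omega), ?_, ?_⟩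
  · intro z x c X _ hc hcX hS
    exact mw_ge z x c X hc hcX hS
  · intro z x c
    exact mw_self z x c

theorem Run_proof : Stmt_Run :=
  run_proof stmt_Exp Tab_proof Blk_proof Hi_proof Sv_proof Lem_proof
    (PB_proof stmt_Exp Cell_proof Sv_proof Hi_proof)
    (P1_proof stmt_Exp Cell_proof Sv_proof) stmt_P2

theorem Abs_proof : Stmt_Abs :=
  abs_proof stmt_Exp Tab_proof Blk_proof Lem_proof
    (PBA_proof stmt_Exp Cell_proof Sv_proof FBK_proof)
    (P1A_proof stmt_Exp Cell_proof Sv_proof FBK_proof) stmt_AB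

theorem Prime_all : ∀ hi, Stmt_Prime 11 hi := by
  intro hi z hz h11 hzhi
  by_cases h : z < 400
  · exact prime_E Run_proof Tab_proof z hz h11 h
  · exact UPrime_proof hi z hz (by omega) hzhi

theorem Pow_all : ∀ hi, Stmt_Pow 16 hi := by
  intro hi z hz hnp h16 hzhi
  by_cases h : z < 1025
  · exact pow_E Run_proof Abs_proof Far_proof Tab_proof z hz hnp h16 h
  · exact UPow_proof hi z hz hnp (by omega) hzhi

end Pool.Agent.EZ
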