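import Pool.Agent.EZ.MertensLoop
import Pool.Agent.EZ.EngTab

/-!
# The numerical engine for the roots `z ≥ 11`: definitions

All quantities are scaled by `S9 = 10^9` and rounded up. The functions ending in `K` are in
continuation passing style (they force the evaluation of intermediate results).
-/

set_option autoImplicit false

namespace Pool.Agent.EZ

/-- scale -/
def S9 : ℕ := 1000000000

/-- ceiling of `a / b` -/
def cdv (a b : ℕ) : ℕ := Nat.div (Nat.add a (Nat.pred b)) b

/-- upper bound for `S9 * exp (y / S9)`, `y ≤ 2 * S9` -/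
noncomputable def expK (y : ℕ) (k : ℕ → Bool) : Bool :=
  frc (cdv y 16) fun u => frc (cdv (Nat.mul u u) S9) fun u2 =>
  frc (Nat.add (Nat.add (Nat.add S9 u) (cdv u2 2)) (Nat.add (cdv (Nat.mul u2 u) 6000000000)
    (cdv (Nat.mul u2 u2) 19000000000))) fun a =>
  frc (cdv (Nat.mul a a) S9) fun b => frc (cdv (Nat.mul b b) S9) fun c =>
  frc (cdv (Nat.mul c c) S9) fun d => frc (cdv (Nat.mul d d) S9) k

/-- bad value -/
def BAD : ℕ := 1000000000000

/-- upper bound for `sup_{0 ≤ t ≤ 1} (C t - B t ^ 2)` -/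
def quad (C B : ℕ) : ℕ :=
  cond (Nat.ble C (Nat.mul 2 B)) (cdv (Nat.mul C C) (Nat.mul 4 B)) (Nat.sub C B)

/-- one candidate: `A`, `B`, `t ≥ exp ω` -/
noncomputable def cell1K (A B t : ℕ) (k : ℕ → Bool) : Bool :=
  frc (quad A B) fun eK => frc (Nat.add eK B) fun y =>
  cond (Nat.ble y 2000000000)
    (expK y fun u => frc (cdv (Nat.mul (Nat.sub t S9) u) S9) fun w2 =>
      frc (quad (Nat.add A w2) B) k)
    (k BAD)

/-- digit of a packed table -/
def dig (T n : ℕ) : ℕ := Nat.mod (Nat.div T (Nat.pow 16384 n)) 16384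

/-- `A` from the killed mass `K`, the error `em` and `N` -/
def AofE (K N em : ℕ) : ℕ :=
  Nat.sub (cdv (Nat.mul (Nat.sub (Nat.add K S9) (Nat.mul 100000 em)) S9) N) S9

/-- candidate with two levels -/
noncomputable def candK (zvhi N K t n X TX EX LX best : ℕ) (k : ℕ → Bool) : Bool :=
  cond (Nat.ble X n) (k best)
  (cond (Nat.ble zvhi (Nat.mul X X))
    (frc (AofE K N EX) fun A => frc (Nat.max A (AofE K N (dig TX n))) fun A1 =>
      frc (cond (Nat.ble LX (Nat.mul 2 N)) (Nat.sub S9 (Nat.div (Nat.mul N S9) LX))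
        (cdv (Nat.mul (Nat.sub LX N) S9) (Nat.mul 2 N))) fun ca =>
      frc (cdv (Nat.mul (Nat.sub A1 A) ca) S9) fun d =>
      cond (Nat.ble d 80000000)
        (cell1K A (Nat.sub 83333333 d) t fun e => frc (Nat.min best e) k) (k best))
    (k best))

/-- square root, at most 127 -/
noncomputable def sq7K (t : ℕ) (k : ℕ → Bool) : Bool :=
  frc (cond (Nat.ble 4096 t) 64 0) fun n =>
  frc (cond (Nat.ble (Nat.mul (Nat.add n 32) (Nat.add n 32)) t) (Nat.add n 32) n) fun n =>
  frc (cond (Nat.ble (Nat.mul (Nat.add n 16) (Nat.add n 16)) t) (Nat.add n 16) n) fun n =>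
  frc (cond (Nat.ble (Nat.mul (Nat.add n 8) (Nat.add n 8)) t) (Nat.add n 8) n) fun n =>
  frc (cond (Nat.ble (Nat.mul (Nat.add n 4) (Nat.add n 4)) t) (Nat.add n 4) n) fun n =>
  frc (cond (Nat.ble (Nat.mul (Nat.add n 2) (Nat.add n 2)) t) (Nat.add n 2) n) fun n =>
  frc (cond (Nat.ble (Nat.mul (Nat.add n 1) (Nat.add n 1)) t) (Nat.add n 1) n) k

/-- the exponent `e` of a cell: `zv ≤ z v ≤ zvhi`, `N ≤ S9 log (z v) / 2`, `K` killed mass,
`Oc` bound for the tail weights -/
noncomputable def cellK (zv zvhi N K Oc : ℕ) (k : ℕ → Bool) : Bool :=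
  sq7K zv fun n => frc (cdv (Nat.mul Oc S9) N) fun om =>
  cond (Nat.ble om 700000000)
    (expK om fun t =>
      cond (Nat.ble t 2000000000)
        (frc (AofE K N (dig T0 n)) fun A =>
          cell1K A 83333333 t fun e0 =>
          candK zvhi N K t n 32 T32 11798 3465735903 e0 fun e1 =>
          candK zvhi N K t n 64 T64 13045 4158883084 e1 fun e2 =>
          candK zvhi N K t n 127 T127 14209 4844187087 e2 k)
        (k BAD)) (k BAD)

/-- fast survival probabilities, `70000 ≤ x` -/
def svF (x v r : ℕ) : ℕ :=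
  cond (Nat.ble v 9) (cond (Nat.beq v 7) (cond (Nat.ble x 127500) 200 0) 0)
  (cond (Nat.beq v r)
    (cond (Nat.ble x (Nat.mul (Nat.sub v 2) 10000)) 1000
    (cond (Nat.ble x (Nat.mul (Nat.sub v 2) 13000)) 769
    (cond (Nat.ble x (Nat.mul (Nat.sub v 2) 16900)) 591
    (cond (Nat.ble x (Nat.mul (Nat.sub v 2) 21970)) 455
    (cond (Nat.ble x (Nat.mul (Nat.sub v 2) 28561)) 350 0)))))
  (cond (Nat.beq v 16) (cond (Nat.ble x 70000) 1000 0)
  (cond (Nat.beq v 25) (cond (Nat.ble x 188000) 1000 0)
  (cond (Nat.beq v 27) (cond (Nat.ble x 189000) 1000 0)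
  (cond (Nat.beq v 32) (cond (Nat.ble x 192000) 1000 0)
  (cond (Nat.beq v 64) (cond (Nat.ble x 420000) 1000 0)
    (cond (Nat.ble x (Nat.mul (Nat.sub v (Nat.div v r)) 10000)) 1000 0)))))))

/-- entries: `v`, `minFac v`, lower bound of `log v`, of `log (minFac v)`, upper bound of `A1 v` -/
abbrev Ent := ℕ × ℕ × ℕ × ℕ × ℕ

/-- block ends: `X`, bounds for `log X`, upper bounds for `A1 X`, `exp (0.4575 - H X)` and the
increment of `H` -/
abbrev BEnt := ℕ × ℕ × ℕ × ℕ × ℕ × ℕ

/-- pieces: level, weight, cap -/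
abbrev Piece := ℕ × ℕ × ℕ

/-- second pass -/
noncomputable def pass2 (L : List Piece) : ℕ → ℕ → ℕ → (ℕ → ℕ → Bool) → Bool :=
  List.rec (motive := fun _ => ℕ → ℕ → ℕ → (ℕ → ℕ → Bool) → Bool)
    (fun _ top lin k => k top lin)
    (fun p _ ih cur top lin k =>
      cond (Nat.ble p.2.2 600000000) (cond (Nat.ble p.1 cur) (ih cur top lin k)
        (frc (cdv (Nat.mul (Nat.sub p.1 cur) p.2.1) S9) fun t =>
          frc (cdv (Nat.mul p.2.2 p.2.2) S9) fun o2 =>
          frc (Nat.add top (cdv (Nat.mul t (Nat.sub (Nat.add p.2.2 (cdv (Nat.mul o2 p.2.2) 6000000000))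
            (Nat.div (Nat.mul p.2.2 p.2.2) 2000000000))) S9)) fun top' =>
          frc (Nat.add lin t) fun lin' =>
          ih p.1 top' lin' k)) false) L

/-- first pass over the singles: state `D` (killed mass), `h`, `Oa`, `Oc`, pieces. -/
noncomputable def pass1 (z q x zlo : ℕ) (k : List Piece → Bool) (L : List Ent) :
    ℕ → ℕ → ℕ → ℕ → List Piece → Bool :=
  List.rec (motive := fun _ => ℕ → ℕ → ℕ → ℕ → List Piece → Bool)
    (fun _ _ _ _ P => k P)
    (fun en _ ih D h Oa Oc P =>
      frc en.1 fun v => frc en.2.1 fun r => frc (Nat.add en.2.2.1 2) fun lu =>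
      frc (cond (Nat.beq r q) 0 (svF x v r)) fun s =>
      cond (Nat.beq s 0)
        (frc (Nat.add D (cdv lu v)) fun D' => ih D' h Oa Oc P)
        (frc (Nat.mul z v) fun zv => frc (Nat.div (Nat.add zlo en.2.2.1) 2) fun N =>
          frc (Nat.add en.2.2.2.2 D) fun K =>
          cellK zv zv N K Oc fun e =>
          cond (Nat.ble e 2000000000)
            (frc (Nat.div (Nat.mul s S9) (Nat.mul 1000 v)) fun wd => frc (Nat.succ wd) fun wu =>
              expK e fun E =>
              frc (cdv (Nat.mul E (Nat.add (Nat.sub S9 (Nat.div wd 2))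
                (cdv (Nat.mul wu wu) 8000000000))) S9) fun g =>
              frc (cdv (Nat.mul wu wu) S9) fun wu2 =>
              frc (cdv (Nat.mul h (Nat.add (Nat.add S9 wu) (Nat.add (cdv wu2 2)
                (cdv (Nat.mul wu2 wu) 4000000000)))) S9) fun h' =>
              frc (Nat.pred r) fun r1 =>
              frc (Nat.add (Nat.mul s r1) 1000) fun a =>
              frc (Nat.mul (Nat.mul 1000 r1) v) fun b =>
              frc (Nat.max Oa (cdv (Nat.mul S9 a) b)) fun Oa' =>
              frc (Nat.max Oc (Nat.add (cdv (Nat.mul (Nat.max (Nat.add zlo 2) lu) a) b)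
                (cdv (Nat.mul r (Nat.add en.2.2.2.1 2)) (Nat.mul (Nat.mul r1 r1) v)))) fun Oc' =>
              frc (Nat.add D (cdv (Nat.mul (Nat.sub 1000 s) lu) (Nat.mul 1000 v))) fun D' =>
              ih D' h' Oa' Oc' ((g, h', Oa') :: P))
            false)) L

/-- drop the entries larger than `c` -/
noncomputable def dropE (c : ℕ) (L : List Ent) : List Ent :=
  List.rec (motive := fun _ => List Ent) []
    (fun en l ih => cond (Nat.ble en.1 c) (en :: l) ih) L

/-- the blocks: list decreasing, state: data of the upper end, correction factor `hf` -/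
noncomputable def passB (z zlo c hf : ℕ) (k : BEnt → List Piece → Bool) (L : List BEnt) :
    ℕ → ℕ → List Piece → Bool :=
  List.rec (motive := fun _ => ℕ → ℕ → List Piece → Bool)
    (fun _ _ _ => false)
    (fun b _ ih Xhi a1 P =>
      frc b.1 fun X => frc b.2.1 fun ll => frc b.2.2.1 fun lu =>
      cellK (Nat.mul z X) (Nat.mul z Xhi) (Nat.div (Nat.add zlo ll) 2) a1
        (cdv (Nat.add (Nat.mul 2 (Nat.max (Nat.add zlo 2) lu)) 1386294362) X) fun e0 =>
      frc (cond (Nat.ble 10000 X) (Nat.min e0 918000000) e0) fun e =>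
      cond (Nat.ble e 2000000000)
        (expK e fun E => frc (cdv 2000000000 X) fun o =>
          cond (Nat.ble X c)
            (cond (Nat.beq X c) (k b ((E, b.2.2.2.2.1, o) :: P)) false)
            (frc (cdv (Nat.mul b.2.2.2.2.1 hf) S9) fun h =>
              ih X b.2.2.2.1 ((E, h, o) :: P)))
        false) L

/-- run for a root `z`, `q = minFac z`, clock value `x`, cut `c`. -/
noncomputable def runK (z q x zlo c : ℕ) (k : ℕ → ℕ → Bool) : Bool :=
  cond (Nat.ble x (Nat.mul 5000 c))
  (expK (cdv 2000000000 c) fun hf =>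
    match blk with
    | [] => false
    | b :: bs =>
      frc (cdv (Nat.mul b.2.2.2.2.1 hf) S9) fun h =>
      frc (cdv 2000000000 b.1) fun o =>
      expK 918000000 fun E =>
      passB z zlo c hf (fun b P =>
        pass1 z q x zlo (fun P => pass2 P 0 0 0 k) (dropE c tab) 0 b.2.2.2.2.1 (cdv 2000000000 c)
          (cdv (Nat.add (Nat.mul 2 (Nat.max (Nat.add zlo 2) b.2.2.1)) 1386294362) c) P)
        bs b.1 b.2.2.2.1 [(E, h, o)]) false

/-! ### the absolute constants -/

/-- first pass for the absolute constant (singles): state `D`, `h`, `Oc`, `acc`. -/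
noncomputable def pass1A (z q x zlo : ℕ) (k : ℕ → Bool) (L : List Ent) :
    ℕ → ℕ → ℕ → ℕ → Bool :=
  List.rec (motive := fun _ => ℕ → ℕ → ℕ → ℕ → Bool)
    (fun _ _ _ acc => k acc)
    (fun en _ ih D h Oc acc =>
      frc en.1 fun v => frc en.2.1 fun r => frc (Nat.add en.2.2.1 2) fun lu =>
      frc (cond (Nat.beq r q) 0 (svF x v r)) fun s =>
      cond (Nat.beq s 0)
        (frc (Nat.add D (cdv lu v)) fun D' => ih D' h Oc acc)
        (frc (Nat.mul z v) fun zv => frc (Nat.div (Nat.add zlo en.2.2.1) 2) fun N =>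
          frc (Nat.add en.2.2.2.2 D) fun K =>
          cellK zv zv N K Oc fun e =>
          cond (Nat.ble e 2000000000)
            (frc (Nat.div (Nat.mul s S9) (Nat.mul 1000 v)) fun wd => frc (Nat.succ wd) fun wu =>
              expK e fun E =>
              frc (cdv (Nat.mul (cdv (Nat.mul wu h) S9) E) S9) fun t =>
              (fun kk : ℕ → Bool =>
                cond (Nat.ble (Nat.max 121 (Nat.mul z z)) v)
                  (expK (cdv 2000000000 v) fun F =>
                      frc (Nat.min t (cdv (Nat.mul (cdv (Nat.mul wu 1012) 1000) F)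
                        (Nat.add zlo en.2.2.1))) kk)
                  (kk t)) fun t =>
              frc (cdv (Nat.mul wu wu) S9) fun wu2 =>
              frc (cdv (Nat.mul h (Nat.add (Nat.add S9 wu) (Nat.add (cdv wu2 2)
                (cdv (Nat.mul wu2 wu) 4000000000)))) S9) fun h' =>
              frc (Nat.pred r) fun r1 =>
              frc (Nat.add (Nat.mul s r1) 1000) fun a =>
              frc (Nat.mul (Nat.mul 1000 r1) v) fun b =>
              frc (Nat.max Oc (Nat.add (cdv (Nat.mul (Nat.max (Nat.add zlo 2) lu) a) b)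
                (cdv (Nat.mul r (Nat.add en.2.2.2.1 2)) (Nat.mul (Nat.mul r1 r1) v)))) fun Oc' =>
              frc (Nat.add D (cdv (Nat.mul (Nat.sub 1000 s) lu) (Nat.mul 1000 v))) fun D' =>
              frc (Nat.add acc t) fun acc' =>
              ih D' h' Oc' acc')
            false)) L

/-- the blocks below `10^4` for the absolute constant. -/
noncomputable def passBA (z zlo c hf : ℕ) (k : BEnt → ℕ → Bool) (L : List BEnt) :
    ℕ → ℕ → ℕ → Bool :=
  List.rec (motive := fun _ => ℕ → ℕ → ℕ → Bool)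
    (fun _ _ _ => false)
    (fun b _ ih Xhi a1 acc =>
      frc b.1 fun X => frc b.2.1 fun ll => frc b.2.2.1 fun lu => frc b.2.2.2.2.2 fun dH =>
      cellK (Nat.mul z X) (Nat.mul z Xhi) (Nat.div (Nat.add zlo ll) 2) a1
        (cdv (Nat.add (Nat.mul 2 (Nat.max (Nat.add zlo 2) lu)) 1386294362) X) fun e =>
      cond (Nat.ble e 2000000000)
        (expK e fun E =>
          frc (cond (Nat.beq X c) b.2.2.2.2.1 (cdv (Nat.mul b.2.2.2.2.1 hf) S9)) fun h =>
          frc (cdv (Nat.mul dH dH) S9) fun dH2 =>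
          frc (Nat.sub (Nat.add dH (cdv (Nat.mul dH2 dH) 6000000000))
            (Nat.div (Nat.mul dH dH) 2000000000)) fun dd =>
          frc (cdv (Nat.mul (cdv (Nat.mul E h) S9) dd) S9) fun t =>
          (fun kk : ℕ → Bool =>
            cond (Nat.ble (Nat.max 121 (Nat.mul z z)) X)
              (expK (cdv 2000000000 X) fun F =>
                  frc (Nat.min t (cdv (Nat.mul (cdv (Nat.mul dH 1012) 1000) F)
                    (Nat.add zlo ll))) kk) (kk t)) fun t =>
          frc (Nat.add acc t) fun acc' =>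
          cond (Nat.ble X c) (cond (Nat.beq X c) (k b acc') false) (ih X b.2.2.2.1 acc'))
        false) L

/-- drop the blocks larger than `10^4` -/
noncomputable def dropB (L : List BEnt) : List BEnt :=
  List.rec (motive := fun _ => List BEnt) []
    (fun b l ih => cond (Nat.ble b.1 10000) (b :: l) ih) L

/-- run for the absolute constant: root `z`, `q = minFac z`, clock value `x`, cut `c`. -/
noncomputable def absK (z q x zlo c : ℕ) (k : ℕ → Bool) : Bool :=
  cond (Nat.ble x (Nat.mul 5000 c))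
  (expK (cdv 2000000000 c) fun hf =>
    match dropB blk with
    | [] => false
    | b :: bs =>
      cond (Nat.beq b.1 10000)
      (passBA z zlo c hf (fun b acc =>
        pass1A z q x zlo k (dropE c tab) 0 b.2.2.2.2.1
          (cdv (Nat.add (Nat.mul 2 (Nat.max (Nat.add zlo 2) b.2.2.1)) 1386294362) c) acc)
        bs b.1 b.2.2.2.1 0) false) false

end Pool.Agent.EZ
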