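import Pool.Agent.EZ.EngDefs

/-!
# The numerical engine: complete runs
-/

set_option autoImplicit false

namespace Pool.Agent.EZ

/-- all five clocks of a prime `z`. -/
noncomputable def primeK (z zlo c0 c1 c2 c3 c4 : ℕ) : Bool :=
  runK z z (Nat.mul (Nat.sub z 2) 10000) zlo c0 fun t0 l0 =>
  runK z z (Nat.mul (Nat.sub z 2) 13000) zlo c1 fun t1 l1 =>
  runK z z (Nat.mul (Nat.sub z 2) 16900) zlo c2 fun t2 l2 =>
  runK z z (Nat.mul (Nat.sub z 2) 21970) zlo c3 fun t3 l3 =>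
  runK z z (Nat.mul (Nat.sub z 2) 28561) zlo c4 fun t4 l4 =>
  cond (Nat.ble (Nat.mul (Nat.add zlo 2) (Nat.add (Nat.mul 231 l0) (Nat.add (Nat.mul 178 l1)
    (Nat.add (Nat.mul 136 l2) (Nat.add (Nat.mul 105 l3) (Nat.mul 350 l4)))))) 930000000000000000000)
    (Nat.ble (Nat.mul (Nat.mul 12 (Nat.mul z (Nat.mul z z))) (Nat.mul (Nat.add zlo 2)
      (Nat.add (Nat.mul 231 t0) (Nat.add (Nat.mul 178 t1)
    (Nat.add (Nat.mul 136 t2) (Nat.add (Nat.mul 105 t3) (Nat.mul 350 t4)))))))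
      (Nat.mul 960000000000000000000 (Nat.add (Nat.mul 6 (Nat.mul z z)) (Nat.add (Nat.mul 4 z) 3))))
    false

/-- run for a power `z` with minimal prime factor `q`, far part `F`, constant `cAn / 1000`. -/
noncomputable def powK (z q x zlo c F cAn : ℕ) : Bool :=
  cond (absK z q x zlo c fun acc =>
    Nat.ble (Nat.mul (Nat.add zlo 2) (Nat.add acc (Nat.mul F 10000))) (Nat.mul cAn 1000000000000000))
  (runK z q x zlo c fun _ lin => Nat.ble (Nat.mul (Nat.add zlo 2) lin) 1200000000000000000) false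

end Pool.Agent.EZ
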