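import Pool.Agent.EZ.EngSpecs

/-!
# The numerical engine: elementary functions
-/

set_option autoImplicit false

namespace Pool.Agent.EZ

open Finset

theorem cdv_ge (a b : ℕ) (hb : 0 < b) : (a : ℝ) / (b : ℝ) ≤ (cdv a b : ℝ) := by
  have hb' : (0 : ℝ) < b := by exact_mod_cast hb
  rw [div_le_iff₀ hb']
  have h : a ≤ cdv a b * b := by
    change a ≤ (a + (b - 1)) / b * b
    have h1 := Nat.div_add_mod (a + (b - 1)) b
    have h2 := Nat.mod_lt (a + (b - 1)) hb
    have h3 : (a + (b - 1)) / b * b = b * ((a + (b - 1)) / b) := Nat.mul_comm _ _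
    omega
  exact_mod_cast h

theorem ble_of_le {a b : ℕ} (h : a ≤ b) : Nat.ble a b = true := Nat.ble_eq_true_of_le h

theorem le_of_ble {a b : ℕ} (h : Nat.ble a b = true) : a ≤ b := Nat.le_of_ble_eq_true h

theorem ble_false {a b : ℕ} (h : b < a) : Nat.ble a b = false := by
  cases hh : Nat.ble a b with
  | false => rfl
  | true => exact absurd (le_of_ble hh) (by omega)

theorem S9_pos : (0 : ℝ) < (S9 : ℝ) := by
  have : 0 < S9 := by unfold S9; norm_num
  exact_mod_cast this

theorem S9_val : (S9 : ℝ) = 1000000000 := by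
  unfold S9; norm_num

theorem exp_taylor4 {x : ℝ} (h0 : 0 ≤ x) (h1 : x ≤ 1) :
    Real.exp x ≤ 1 + x + x ^ 2 / 2 + x ^ 3 / 6 + x ^ 4 / 19 := by
  have h := Real.exp_bound' h0 h1 (n := 4) (by norm_num)
  refine h.trans ?_
  have h4 : 0 ≤ x ^ 4 := by positivity
  simp only [Finset.sum_range_succ, Finset.sum_range_zero, Nat.factorial]
  norm_num
  nlinarith [h4]

/-- one squaring step -/
theorem sq_step {a : ℕ} {e : ℝ} (h0 : 0 ≤ e) (ha : e ≤ (a : ℝ) / S9) :
    e ^ 2 ≤ (cdv (Nat.mul a a) S9 : ℝ) / S9 := by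
  have hS := S9_pos
  have h1 := cdv_ge (Nat.mul a a) S9 (by unfold S9; norm_num)
  rw [le_div_iff₀ hS]
  refine le_trans ?_ h1
  rw [le_div_iff₀ hS]
  rw [le_div_iff₀ hS] at ha
  have h2 : (e * S9) ^ 2 ≤ (a : ℝ) ^ 2 := by
    apply pow_le_pow_left₀ _ ha
    positivity
  have h3 : ((Nat.mul a a : ℕ) : ℝ) = (a : ℝ) ^ 2 := by
    change ((a * a : ℕ) : ℝ) = _
    push_cast; ring
  rw [h3]
  nlinarith [h2]

theorem stmt_Exp : Stmt_Exp := by
  constructor
  · intro y k h
    unfold expK at h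
    simp only [frc_eq] at h
    refine ⟨_, h, fun hy => ?_⟩
    have hS := S9_pos
    set u := cdv y 16 with hu
    set u2 := cdv (Nat.mul u u) S9 with hu2
    set x : ℝ := (u : ℝ) / S9 with hx
    have hux : (u : ℝ) = x * S9 := by rw [hx]; field_simp
    have hx0 : 0 ≤ x := by rw [hx]; positivity
    have hu8 : u ≤ 125000000 := by
      rw [hu]
      change (y + 15) / 16 ≤ 125000000
      omega
    have hx1 : x ≤ 1 := by
      rw [hx, div_le_one hS, S9_val]
      have : (u : ℝ) ≤ 125000000 := by exact_mod_cast hu8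
      linarith
    have h16 : (y : ℝ) / S9 ≤ 16 * x := by
      have := cdv_ge y 16 (by norm_num)
      rw [← hu, hux] at this
      rw [div_le_iff₀ hS]
      push_cast at this
      linarith
    -- the square
    have hq2 : x ^ 2 ≤ (u2 : ℝ) / S9 := by
      rw [hu2]
      exact sq_step hx0 le_rfl
    have hq2' : x ^ 2 * S9 ≤ (u2 : ℝ) := by
      rwa [le_div_iff₀ hS] at hq2
    -- the first sum
    have h2 : x ^ 2 / 2 * S9 ≤ (cdv u2 2 : ℝ) := by
      have := cdv_ge u2 2 (by norm_num)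
      push_cast at this
      linarith
    have h3 : x ^ 3 / 6 * S9 ≤ (cdv (Nat.mul u2 u) 6000000000 : ℝ) := by
      refine le_trans ?_ (cdv_ge (Nat.mul u2 u) 6000000000 (by norm_num))
      have e1 : ((Nat.mul u2 u : ℕ) : ℝ) = (u2 : ℝ) * u := by
        change ((u2 * u : ℕ) : ℝ) = _
        push_cast; ring
      rw [e1, hux, le_div_iff₀ (by norm_num)]
      push_cast
      have hx3 : x ^ 2 * S9 * (x * S9) ≤ (u2 : ℝ) * (x * S9) :=
        mul_le_mul_of_nonneg_right hq2' (by positivity)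
      rw [S9_val] at hx3 ⊢
      nlinarith [hx3]
    have h4 : x ^ 4 / 19 * S9 ≤ (cdv (Nat.mul u2 u2) 19000000000 : ℝ) := by
      refine le_trans ?_ (cdv_ge (Nat.mul u2 u2) 19000000000 (by norm_num))
      have e1 : ((Nat.mul u2 u2 : ℕ) : ℝ) = (u2 : ℝ) * u2 := by
        change ((u2 * u2 : ℕ) : ℝ) = _
        push_cast; ring
      rw [e1, le_div_iff₀ (by norm_num)]
      push_cast
      have hx4 : x ^ 2 * S9 * (x ^ 2 * S9) ≤ (u2 : ℝ) * u2 :=
        mul_le_mul hq2' hq2' (by positivity) (by positivity)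
      rw [S9_val] at hx4 ⊢
      nlinarith [hx4]
    set a := Nat.add (Nat.add (Nat.add S9 u) (cdv u2 2)) (Nat.add (cdv (Nat.mul u2 u) 6000000000)
      (cdv (Nat.mul u2 u2) 19000000000)) with ha
    have hea : Real.exp x ≤ (a : ℝ) / S9 := by
      refine (exp_taylor4 hx0 hx1).trans ?_
      rw [le_div_iff₀ hS]
      have ha' : (a : ℝ) = (S9 : ℝ) + u + (cdv u2 2 : ℝ) + ((cdv (Nat.mul u2 u) 6000000000 : ℝ)
        + (cdv (Nat.mul u2 u2) 19000000000 : ℝ)) := by
        rw [ha]
        change ((S9 + u + cdv u2 2 + (cdv (Nat.mul u2 u) 6000000000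
          + cdv (Nat.mul u2 u2) 19000000000) : ℕ) : ℝ) = _
        push_cast
        ring
      rw [ha', hux]
      nlinarith [h2, h3, h4]
    have s1 := sq_step (Real.exp_pos x).le hea
    have s2 := sq_step (by positivity) s1
    have s3 := sq_step (by positivity) s2
    have s4 := sq_step (by positivity) s3
    refine le_trans (Real.exp_le_exp.2 h16) (le_trans (le_of_eq ?_) s4)
    rw [← pow_mul, ← pow_mul, ← pow_mul, ← Real.exp_nat_mul]
    norm_num
  · intro C B hB t ht0 ht1
    have hS := S9_pos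
    have hB' : (0 : ℝ) < B := by exact_mod_cast hB
    have e0 : (C : ℝ) / S9 * t - (B : ℝ) / S9 * t ^ 2 = ((C : ℝ) * t - B * t ^ 2) / S9 := by ring
    rw [e0]
    apply div_le_div_of_nonneg_right _ hS.le
    unfold quad
    by_cases hC : C ≤ 2 * B
    · have hb : Nat.ble C (Nat.mul 2 B) = true := ble_of_le hC
      rw [hb, cond_true]
      refine le_trans ?_ (cdv_ge (Nat.mul C C) (Nat.mul 4 B) (by
        change 0 < 4 * B; omega))
      have e1 : ((Nat.mul C C : ℕ) : ℝ) = (C : ℝ) * C := by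
        change ((C * C : ℕ) : ℝ) = _
        push_cast; ring
      have e2 : ((Nat.mul 4 B : ℕ) : ℝ) = 4 * (B : ℝ) := by
        change ((4 * B : ℕ) : ℝ) = _
        push_cast; ring
      rw [e1, e2, le_div_iff₀ (by positivity)]
      nlinarith [sq_nonneg ((C : ℝ) - 2 * B * t)]
    · have hb : Nat.ble C (Nat.mul 2 B) = false := by
        cases hh : Nat.ble C (Nat.mul 2 B) with
        | false => rfl
        | true => exact absurd (le_of_ble hh) hC
      rw [hb, cond_false]
      have hC' : 2 * (B : ℝ) ≤ C := by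
        have : 2 * B ≤ C := by omega
        exact_mod_cast this
      have e1 : ((Nat.sub C B : ℕ) : ℝ) = (C : ℝ) - B := by
        change ((C - B : ℕ) : ℝ) = _
        rw [Nat.cast_sub (by omega)]
      rw [e1]
      have h1 : 0 ≤ 1 - t := by linarith
      have h2 : 0 ≤ (C : ℝ) - B * (1 + t) := by nlinarith
      nlinarith [mul_nonneg h1 h2]

end Pool.Agent.EZ
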