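import Pool.Agent.EZ.EngSpecs

/-!
# Engine: module EXP
-/

set_option autoImplicit false
set_option linter.unusedSectionVars false
set_option linter.unusedVariables false

namespace Pool.Agent.EZ.CellAux

open Finset

theorem le_cdv (a b : ℕ) (hb : 0 < b) : (a : ℝ) / b ≤ (cdv a b : ℝ) := by
  have hb' : (0 : ℝ) < b := by exact_mod_cast hb
  rw [div_le_iff₀ hb']
  have h : a ≤ cdv a b * b := by
    have e : cdv a b = (a + (b - 1)) / b := rfl
    rw [e]
    have h1 := Nat.div_add_mod (a + (b - 1)) b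
    have h2 := Nat.mod_lt (a + (b - 1)) hb
    rw [mul_comm] at h1
    omega
  exact_mod_cast h

theorem cdv_le (a b : ℕ) (hb : 0 < b) : (cdv a b : ℝ) ≤ (a : ℝ) / b + 1 := by
  have hb' : (0 : ℝ) < b := by exact_mod_cast hb
  have h : cdv a b * b ≤ a + b := by
    have e : cdv a b = (a + (b - 1)) / b := rfl
    rw [e]
    have h1 := Nat.div_mul_le_self (a + (b - 1)) b
    omega
  have h' : (cdv a b : ℝ) * b ≤ a + b := by exact_mod_cast h
  have e : (a : ℝ) / b + 1 = (a + b) / b := by field_simp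
  rw [e, le_div_iff₀ hb']
  exact h'

theorem S9_pos : (0 : ℝ) < (S9 : ℝ) := by unfold S9; norm_num

theorem S9_eq : ((S9 : ℕ) : ℝ) = 1000000000 := by unfold S9; norm_num

theorem exp_le_19 {x : ℝ} (h0 : 0 ≤ x) (h1 : x ≤ 1) :
    Real.exp x ≤ 1 + x + x ^ 2 / 2 + x ^ 3 / 6 + x ^ 4 / 19 := by
  have := Real.exp_bound' h0 h1 (n := 4) (by norm_num)
  simp only [Finset.sum_range_succ, Finset.sum_range_zero, Nat.factorial] at this
  norm_num at this
  have h4 : 0 ≤ x ^ 4 := by positivity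
  nlinarith

/-- one squaring step. -/
theorem sq_step (a : ℕ) : ((a : ℝ) / S9) ^ 2 ≤ (cdv (Nat.mul a a) S9 : ℝ) / S9 := by
  have h := le_cdv (Nat.mul a a) S9 (by unfold S9; norm_num)
  have hS := S9_pos
  have e : ((a : ℝ) / S9) ^ 2 = ((Nat.mul a a : ℕ) : ℝ) / S9 / S9 := by
    have : Nat.mul a a = a * a := rfl
    rw [this]; push_cast
    field_simp
  rw [e]
  exact div_le_div_of_nonneg_right h hS.le

theorem Exp1 (y : ℕ) (k : ℕ → Bool) (h : expK y k = true) : ∃ u : ℕ, k u = true ∧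
    (y ≤ 2000000000 → Real.exp ((y : ℝ) / S9) ≤ (u : ℝ) / S9) := by
  unfold expK at h
  simp only [frc_eq] at h
  refine ⟨_, h, ?_⟩
  intro hy
  set u := cdv y 16 with hu
  set u2 := cdv (Nat.mul u u) S9 with hu2
  set a := Nat.add (Nat.add (Nat.add S9 u) (cdv u2 2)) (Nat.add (cdv (Nat.mul u2 u) 6000000000)
    (cdv (Nat.mul u2 u2) 19000000000)) with ha
  have hS := S9_pos
  set U : ℝ := (u : ℝ) / S9 with hU
  have hU0 : 0 ≤ U := by positivity
  have hu_lo := le_cdv y 16 (by norm_num)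
  have hu_hi := cdv_le y 16 (by norm_num)
  rw [← hu] at hu_lo hu_hi
  have hy' : (y : ℝ) ≤ 2000000000 := by exact_mod_cast hy
  have hU1 : U ≤ 1 := by
    rw [hU, div_le_one hS, S9_eq]
    push_cast at hu_hi
    linarith
  have h1 : Real.exp ((y : ℝ) / S9) ≤ Real.exp U ^ 16 := by
    rw [← Real.exp_nat_mul]
    apply Real.exp_le_exp.2
    rw [hU]
    push_cast at hu_lo ⊢
    rw [← mul_div_assoc]
    apply div_le_div_of_nonneg_right _ hS.le
    linarith
  -- a bounds the exponential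
  have g2 := le_cdv (Nat.mul u u) S9 (by unfold S9; norm_num)
  rw [← hu2] at g2
  have g2' : U ^ 2 * S9 ≤ (u2 : ℝ) := by
    refine le_trans (le_of_eq ?_) g2
    have : Nat.mul u u = u * u := rfl
    rw [this, hU]; push_cast
    field_simp
  have g3 := le_cdv u2 2 (by norm_num)
  have g4 := le_cdv (Nat.mul u2 u) 6000000000 (by norm_num)
  have g5 := le_cdv (Nat.mul u2 u2) 19000000000 (by norm_num)
  have e4 : Nat.mul u2 u = u2 * u := rfl
  have e5 : Nat.mul u2 u2 = u2 * u2 := rfl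
  rw [e4] at g4
  rw [e5] at g5
  push_cast at g3 g4 g5
  have huU : (u : ℝ) = U * S9 := by rw [hU]; field_simp
  have hexp := exp_le_19 hU0 hU1
  have haR : (a : ℝ) = (S9 : ℝ) + u + cdv u2 2 + (cdv (u2 * u) 6000000000 + cdv (u2 * u2) 19000000000) := by
    have : a = S9 + u + cdv u2 2 + (cdv (u2 * u) 6000000000 + cdv (u2 * u2) 19000000000) := rfl
    rw [this]; push_cast; ring
  have hA : Real.exp U ≤ (a : ℝ) / S9 := by
    rw [le_div_iff₀ hS, haR]
    refine (mul_le_mul_of_nonneg_right hexp hS.le).trans ?_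
    rw [S9_eq] at g2' huU ⊢
    have k1 : U ^ 3 * 1000000000 / 6 ≤ (u2 : ℝ) * u / 6000000000 := by
      rw [huU]
      have := mul_le_mul_of_nonneg_right g2' hU0
      nlinarith
    have k2 : U ^ 4 * 1000000000 / 19 ≤ (u2 : ℝ) * u2 / 19000000000 := by
      have h0 : 0 ≤ U ^ 2 * 1000000000 := by positivity
      have := mul_le_mul g2' g2' h0 (h0.trans g2')
      nlinarith
    nlinarith
  have hA0 : 0 ≤ Real.exp U := (Real.exp_pos _).le
  have sq : ∀ {v : ℝ} {b : ℕ}, 0 ≤ v → v ≤ (b : ℝ) / S9 →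
      v ^ 2 ≤ (cdv (Nat.mul b b) S9 : ℝ) / S9 := by
    intro v b hv hb
    exact (pow_le_pow_left₀ hv hb 2).trans (sq_step b)
  have s1 := sq hA0 hA
  have s2 := sq (by positivity) s1
  have s3 := sq (by positivity) s2
  have s4 := sq (by positivity) s3
  refine h1.trans (le_trans (le_of_eq ?_) s4)
  ring

theorem Exp2 (C B : ℕ) (hB : 0 < B) (t : ℝ) (h0 : 0 ≤ t) (h1 : t ≤ 1) :
    (C : ℝ) / S9 * t - (B : ℝ) / S9 * t ^ 2 ≤ (quad C B : ℝ) / S9 := by
  have hS := S9_pos
  have hB' : (0 : ℝ) < B := by exact_mod_cast hB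
  have e : (C : ℝ) / S9 * t - (B : ℝ) / S9 * t ^ 2 = (C * t - B * t ^ 2) / S9 := by
    field_simp
  rw [e]
  apply div_le_div_of_nonneg_right _ hS.le
  unfold quad
  rcases Nat.lt_or_ge (2 * B) C with h | h
  · have hb : Nat.ble C (Nat.mul 2 B) = false := by
      cases hh : Nat.ble C (Nat.mul 2 B)
      · rfl
      · exact absurd (Nat.le_of_ble_eq_true hh) (by have : Nat.mul 2 B = 2 * B := rfl; omega)
    rw [hb, cond_false]
    have hc : ((Nat.sub C B : ℕ) : ℝ) = C - B := by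
      have : Nat.sub C B = C - B := rfl
      rw [this, Nat.cast_sub (by omega)]
    rw [hc]
    have h2 : (2 : ℝ) * B < C := by exact_mod_cast h
    nlinarith [mul_nonneg (sub_nonneg.2 h1) h0, mul_nonneg (sub_nonneg.2 h1) hB'.le]
  · have hb : Nat.ble C (Nat.mul 2 B) = true := Nat.ble_eq_true_of_le h
    rw [hb, cond_true]
    have h2 := le_cdv (Nat.mul C C) (Nat.mul 4 B) (by have : Nat.mul 4 B = 4 * B := rfl; omega)
    refine le_trans ?_ h2
    have e1 : Nat.mul C C = C * C := rfl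
    have e2 : Nat.mul 4 B = 4 * B := rfl
    rw [e1, e2]
    push_cast
    rw [le_div_iff₀ (by positivity)]
    nlinarith [sq_nonneg ((C : ℝ) - 2 * B * t)]

theorem Exp_proof : Stmt_Exp := ⟨Exp1, fun C B hB t h0 h1 => Exp2 C B hB t h0 h1⟩

end Pool.Agent.EZ.CellAux
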