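import Pool.Agent.EZ.EngSpecs
import Pool.Agent.EZ.HU

/-!
# Far sums, second form: module FS2 (helper39)
-/

set_option autoImplicit false

namespace Pool.Agent.EZ

open Finset

/-- module FS2 -/
theorem FS2_proof : Stmt_FS2 := by
  intro X Y N hX hXY
  have hXr : (10000 : ℝ) ≤ X := by exact_mod_cast hX
  have hLX : 0 < Real.log (X : ℝ) := Real.log_pos (by linarith)
  have hsub : (ppK N).filter (fun v => X < v ∧ v ≤ Y) ⊆ (Ioc X Y).filter IsPrimePow := by
    intro v hv
    rw [mem_filter, mem_ppK] at hv
    rw [mem_filter, mem_Ioc]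
    exact ⟨⟨hv.2.1, hv.2.2⟩, hv.1.1⟩
  have h1 : ∑ v ∈ (ppK N).filter (fun v => X < v ∧ v ≤ Y), 1 / ((v : ℝ) * Real.log v)
      ≤ ∑ v ∈ (Ioc X Y).filter IsPrimePow, 1 / ((v : ℝ) * Real.log v) := by
    apply Finset.sum_le_sum_of_subset_of_nonneg hsub
    intro v _ _
    have := Real.log_natCast_nonneg v
    positivity
  have h2 : ∑ v ∈ (Ioc X Y).filter IsPrimePow, 1 / ((v : ℝ) * Real.log v)
      = ∑ m ∈ Ioc X Y, ppw m * (1 / Real.log m ^ 2) := by
    rw [Finset.sum_filter]
    apply Finset.sum_congr rfl
    intro m hm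
    rw [mem_Ioc] at hm
    unfold ppw
    have hl : 0 < Real.log (m : ℝ) := (log_lt_facts (M := m) (by omega)).1
    have hm0 : (0 : ℝ) < m := by exact_mod_cast (by omega : 0 < m)
    split_ifs
    · field_simp
    · ring
  have h := abel_up (fun m => 1 / Real.log (m : ℝ) ^ 2) (fun m => -(1 / Real.log (m : ℝ)))
    X 0.4440 (by omega) (by
      intro N hN
      have h1 := A1_upper_large N (by omega)
      have h2 := A1_lower_large X hX
      linarith) (by
      intro M hM
      obtain ⟨h1, h2⟩ := log_lt_facts (M := M) (by omega)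
      apply one_div_le_one_div_of_le
      · positivity
      · exact pow_le_pow_left₀ h1.le h2 2) (by
      intro M hM
      positivity) (by
      intro M hM
      obtain ⟨h1, h2⟩ := log_lt_facts (M := M) (by omega)
      set L := Real.log (M : ℝ) with hL
      set L' := Real.log ((M + 1 : ℕ) : ℝ) with hL'
      have h3 : 0 < L' := by linarith
      have h4 : -(1 / L') - -(1 / L) = (L' - L) / (L' * L) := by
        field_simp
        ring
      rw [h4, one_div_mul_eq_div]
      apply div_le_div_of_nonneg_left (by linarith) (by positivity)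
      rw [pow_two]
      exact mul_le_mul_of_nonneg_left h2 h3.le) Y hXY
  have h3 : (0.4440 : ℝ) * (1 / Real.log (X : ℝ) ^ 2) ≤ 0.4443 / Real.log (X : ℝ) ^ 2 := by
    rw [mul_one_div]
    apply div_le_div_of_nonneg_right (by norm_num) (by positivity)
  rw [h2] at h1

  linarith

end Pool.Agent.EZ
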