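import Pool.Agent.EZ.Design

/-!
# Statements of the modules
-/

set_option autoImplicit false
set_option linter.unusedSectionVars false

namespace Pool.Agent.EZ

open Finset

/-- averaged absolute bound over the root `u`. -/
def AvgABS (u : ℕ) (a : ℝ) : Prop := ∀ M, Fam u M →
  ∑ j : Fin 5, qD u j * mass u (ck u u.minFac j) M ≤ a * hh (u : ℝ)

/-- the total of the higher powers. -/
noncomputable def Tz (p e : ℕ) : ℝ := ∑' i : ℕ, hh ((p : ℝ) ^ (e + 1 + i))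

/-- the account of a prime with smallest top `p ^ e`. -/
def TopOK (p e : ℕ) : Prop := ∀ B : Finset ℕ, QPset (↑B : Set ℕ) → p ^ e ∈ B →
  (MM B (p ^ e)).Nonempty → ∀ K : ℕ,
  ld qD cD B (p ^ e) + ∑ i ∈ range K, ld qD cD B (p ^ (e + 1 + i)) ≤ Tz p e

/-! ### from roots to accounts -/

/-- `b ≤ phi Λ a` when `a b ≤ Λ (1 - a) (1 - b)`. -/
noncomputable def phi (Lam a : ℝ) : ℝ := Lam * (1 - a) / (a + Lam * (1 - a))

/-- top lemma: a single hitting probability per atom of the top controls all masses. -/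
def Stmt_TL : Prop := ∀ (B : Finset ℕ) (p e : ℕ), QPset (↑B : Set ℕ) → p.Prime → e ≠ 0 →
  p ^ e ∈ B → ∀ (l t : Fin 5 → ℝ) (A : ℕ → ℝ) (l' : ℕ → Fin 5 → ℝ)
  (Lam : Fin 5 → ℕ → Fin 5 → ℝ),
  (∀ j : Fin 5, pk (p ^ e) p j ≠ 0 → LINB (p ^ e) (ck (p ^ e) p j) (l j) ∧
    TOPB (p ^ e) (ck (p ^ e) p j) (t j)) →
  (∀ i, AvgABS (p ^ (e + 1 + i)) (A i)) →
  (∀ (i : ℕ) (j' : Fin 5), pk (p ^ (e + 1 + i)) p j' ≠ 0 → 0 ≤ l' i j' ∧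
    LINB (p ^ (e + 1 + i)) (ck (p ^ (e + 1 + i)) p j') (l' i j')) →
  (∀ (j : Fin 5) (i : ℕ) (j' : Fin 5), 0 < Lam j i j') →
  (∀ (j : Fin 5) (i : ℕ) (j' : Fin 5), pk (p ^ e) p j ≠ 0 → pk (p ^ (e + 1 + i)) p j' ≠ 0 → ∃ w w' : ℕ → ℝ,
    (∀ r, 0 ≤ w r ∧ 0 ≤ w' r ∧ 1 ≤ Real.exp (-w r) + Real.exp (-w' r) ∧
      (Real.exp (w r) - 1) * (Real.exp (w' r) - 1) ≤ Lam j i j') ∧
    (∀ VS : Finset ℕ, (∀ v ∈ VS, IsPrimePow v ∧ v.minFac ≠ p) → ∀ r,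
      ∑ v ∈ VS.filter (fun v => v.minFac = r), Sx (ck (p ^ e) p j) v / (v : ℝ) ≤ w r ∧
      ∑ v ∈ VS.filter (fun v => v.minFac = r), Sx (ck (p ^ (e + 1 + i)) p j') v / (v : ℝ) ≤ w' r)) →
  ∃ a : Fin 5 → ℝ, (∀ j, 0 ≤ a j ∧ a j ≤ 1) ∧
    ld qD cD B (p ^ e) ≤ hh ((p : ℝ) ^ e) * ∑ j, qD (p ^ e) j * min (t j) (l j * a j) ∧
    ∀ i, ld qD cD B (p ^ (e + 1 + i)) ≤ hh ((p : ℝ) ^ (e + 1 + i)) * A i ∧
      ∀ j : Fin 5, pk (p ^ e) p j ≠ 0 → ld qD cD B (p ^ (e + 1 + i)) ≤ hh ((p : ℝ) ^ (e + 1 + i)) *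
        ∑ j' : Fin 5, qD (p ^ (e + 1 + i)) j' * (l' i j' * phi (Lam j i j') (a j))

/-- maximal prime weight. -/
def Stmt_CAP : Prop := ∀ (x : ℕ) (VS : Finset ℕ), (∀ v ∈ VS, IsPrimePow v) → ∀ r : ℕ,
  (70000 ≤ x → ∑ v ∈ VS.filter (fun v => v.minFac = r), Sx x v / (v : ℝ) ≤ 13125 / x) ∧
  (1100000 ≤ x → ∑ v ∈ VS.filter (fun v => v.minFac = r), Sx x v / (v : ℝ) ≤ 10230 / x)

/-- primes at least 11. -/
def Stmt_Prime (lo hi : ℕ) : Prop := ∀ z : ℕ, z.Prime → lo ≤ z → z < hi → ∃ l t : Fin 5 → ℝ,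
  (∀ j : Fin 5, LINB z (ck z z j) (l j) ∧ TOPB z (ck z z j) (t j) ∧ 0 ≤ l j ∧ 0 ≤ t j) ∧
  ∑ j, qD z j * l j ≤ 0.93 ∧ (∑ j, qD z j * t j) * hh (z : ℝ) ≤ 0.96 * Tz z 1

/-- proper powers at least 16; `cA` bound for the absolute constant. -/
def PowOK (z : ℕ) (A : ℝ) : Prop := ABSB z (ck z z.minFac 0) A ∧ LINB z (ck z z.minFac 0) 1.2

/-- proper powers: absolute constant. -/
noncomputable def cA (z : ℕ) : ℝ := if z = 16 then 0.985 else if z.minFac < 11 then 0.965 else 0.9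

def Stmt_Pow (lo hi : ℕ) : Prop := ∀ z : ℕ, IsPrimePow z → ¬ z.Prime → lo ≤ z → z < hi →
  PowOK z (cA z)

/-- the constants for the small roots. Each is `(x, l, t, a)`:
`LINB z x l`, `TOPB z x (t * Tz / hh)`, `ABSB z x a`. -/
def SmallOK (p e x : ℕ) (l t a : ℝ) : Prop :=
  LINB (p ^ e) x l ∧ ABSB (p ^ e) x a ∧
    ∀ M, Fam (p ^ e) M → Inter Nat.minFac (↑M : Set (Finset ℕ)) → mass (p ^ e) x M ≤ t * Tz p e

/-- accounts of the large primes. -/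
def Stmt_Lprime : Prop := Stmt_TL → Stmt_CAP → (∀ hi, Stmt_Prime 11 hi) → (∀ hi, Stmt_Pow 16 hi) →
  ∀ p, p.Prime → 11 ≤ p → TopOK p 1

/-- accounts of the proper powers. -/
def Stmt_Lpow : Prop := Stmt_TL → Stmt_CAP → (∀ hi, Stmt_Pow 16 hi) →
  ∀ p e, p.Prime → 2 ≤ e → 16 ≤ p ^ e → TopOK p e

def Stmt_S2 : Prop := SmallOK 2 1 10000 0.632 0.607 0.611
def Stmt_S3a : Prop := SmallOK 3 1 15000 0.855 1.320 0.830
def Stmt_S3b : Prop := SmallOK 3 1 30000 0.710 0.649 0.687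
def Stmt_S4 : Prop := SmallOK 2 2 20000 0.970 0.540 0.947
def Stmt_S5a : Prop := SmallOK 5 1 35000 0.873 1.390 0.843
def Stmt_S5b : Prop := SmallOK 5 1 55000 0.766 0.853 0.739
def Stmt_S7a : Prop := SmallOK 7 1 60000 0.817 1.015 0.781
def Stmt_S7b : Prop := SmallOK 7 1 127500 0.717 0.508 0.682
def Stmt_S8 : Prop := SmallOK 2 3 50000 1.011 0.2606 0.976
def Stmt_S9a : Prop := SmallOK 3 2 40000 1.182 0.737 1.132
def Stmt_S9b : Prop := SmallOK 3 2 65000 0.866 0.282 0.821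

def Stmt_L2 : Prop := Stmt_TL → (∀ hi, Stmt_Pow 16 hi) → Stmt_S2 → Stmt_S4 → Stmt_S8 → TopOK 2 1
def Stmt_L3 : Prop := Stmt_TL → (∀ hi, Stmt_Pow 16 hi) → Stmt_S3a → Stmt_S3b → Stmt_S9a → Stmt_S9b →
  TopOK 3 1
def Stmt_L4 : Prop := Stmt_TL → (∀ hi, Stmt_Pow 16 hi) → Stmt_S4 → Stmt_S8 → TopOK 2 2
def Stmt_L5 : Prop := Stmt_TL → (∀ hi, Stmt_Pow 16 hi) → Stmt_S5a → Stmt_S5b → TopOK 5 1
def Stmt_L7 : Prop := Stmt_TL → (∀ hi, Stmt_Pow 16 hi) → Stmt_S7a → Stmt_S7b → TopOK 7 1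
def Stmt_L8 : Prop := Stmt_TL → (∀ hi, Stmt_Pow 16 hi) → Stmt_S8 → TopOK 2 3
def Stmt_L9 : Prop := Stmt_TL → (∀ hi, Stmt_Pow 16 hi) → Stmt_S9a → Stmt_S9b → TopOK 3 2

/-! ### analytic inputs -/

/-- killed mass for the root `z v` at clock value `x`. -/
noncomputable def kapv (z x Y v : ℕ) : ℝ :=
  ∑ w ∈ ppK Y, (if w ≤ v ∨ w.minFac = z.minFac then 1 else 1 - Sx x w) * (Real.log w / (w : ℝ))

/-- total killed weight. -/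
noncomputable def Mz (z x Y : ℕ) : ℝ :=
  ∑ w ∈ ppK Y, (if w.minFac = z.minFac then 1 else 1 - Sx x w) / (w : ℝ)

/-- admissible constants from (NB). -/
def Stmt_NBR : Prop := ∀ (z x X1 v X n : ℕ) (E1 E2 A A' B ω eK w2 e : ℝ), IsPrimePow z →
  IsPrimePow v → v.minFac ≠ z.minFac →
  (∀ w, IsPrimePow w → X1 < w → w.minFac ≠ z.minFac → Sx x w = 1) →
  1 ≤ n → n ^ 2 ≤ z * v → z * v ≤ (n + 1) ^ 2 → z * v ≤ X ^ 2 →
  (∀ m, n ≤ m → m < X → Real.log ((m : ℝ) + 1) - A1 m ≤ E1) →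
  (∀ m, X ≤ m → Real.log ((m : ℝ) + 1) - A1 m ≤ E2) →
  kapv z x (max X1 v) v + E1 ≤ (1 + A') * (Real.log ((z : ℝ) * v) / 2) →
  kapv z x (max X1 v) v + E2 ≤ (1 + A) * (Real.log ((z : ℝ) * v) / 2) →
  0 ≤ A → A ≤ A' → 0 < B →
  B ≤ 1 / 12 - (A' - A) * ca (Real.log X / (Real.log ((z : ℝ) * v) / 2)) →
  0 ≤ ω → Real.exp ω ≤ 2 →
  (∀ VS : Finset ℕ, (∀ w ∈ VS, IsPrimePow w ∧ v < w ∧ w.minFac ≠ z.minFac ∧ w.minFac ≠ v.minFac) →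
    ∀ r, ∑ w ∈ VS.filter (fun w => w.minFac = r), Sx x w / (w : ℝ)
      * max 1 (Real.log w / (Real.log ((z : ℝ) * v) / 2)) ≤ ω) →
  (∀ t : ℝ, 0 ≤ t → t ≤ 1 → A * t - B * t ^ 2 ≤ eK) →
  (Real.exp ω - 1) * Real.exp (eK + B) ≤ w2 →
  (∀ t : ℝ, 0 ≤ t → t ≤ 1 → (A + w2) * t - B * t ^ 2 ≤ e) →
  KB z x v (Real.log ((z : ℝ) * v) * Real.exp (0.4575 - Mz z x X1 - Wt z x v + e))

/-- admissible constants from (FB). -/
def Stmt_FBK : Prop := ∀ (z x v : ℕ) (ω : ℝ), IsPrimePow z → IsPrimePow v → 121 ≤ v → z ^ 2 ≤ v →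
  0 ≤ ω → Real.exp ω ≤ 2 →
  (∀ VS : Finset ℕ, (∀ w ∈ VS, IsPrimePow w ∧ v < w ∧ w.minFac ≠ z.minFac ∧ w.minFac ≠ v.minFac) →
    ∀ r, ∑ w ∈ VS.filter (fun w => w.minFac = r), Sx x w / (w : ℝ) ≤ ω) →
  KB z x v (1.012 * Real.exp ω)

/-- admissible constants for small roots and `31 ≤ v`. -/
def Stmt_FB31 : Prop := ∀ (z x v : ℕ) (ω : ℝ), IsPrimePow z → IsPrimePow v → z ≤ 9 →
  0 ≤ ω → Real.exp ω ≤ 2 →
  (∀ VS : Finset ℕ, (∀ w ∈ VS, IsPrimePow w ∧ v < w ∧ w.minFac ≠ z.minFac ∧ w.minFac ≠ v.minFac) →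
    ∀ r, ∑ w ∈ VS.filter (fun w => w.minFac = r), Sx x w / (w : ℝ) ≤ ω) →
  (31 ≤ v → KB z x v (1.09 * Real.exp ω)) ∧ (64 ≤ v → KB z x v (1.035 * Real.exp ω))

/-! ### the conclusion -/

theorem Fam_MM {B : Finset ℕ} (hB : QPset (↑B : Set ℕ)) (u : ℕ) : Fam u (MM B u) := by
  refine ⟨MM_QP hB u, ?_, ?_⟩
  · intro m hm v hv w hw h
    exact (MM_member hB hm).2.2 (Finset.mem_coe.2 hv) (Finset.mem_coe.2 hw) h
  · intro m hm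
    exact ⟨(MM_member hB hm).1, (MM_member hB hm).2.1⟩

theorem ld_design (B : Finset ℕ) (u : ℕ) :
    ld qD cD B u = ∑ j : Fin 5, qD u j * mass u (ck u u.minFac j) (MM B u) := by
  unfold ld mass
  apply Finset.sum_congr rfl
  intro j _
  congr 1
  apply Finset.sum_congr rfl
  intro m _
  congr 1
  apply Finset.prod_congr rfl
  intro v _
  have : cD u j = ((ck u u.minFac j : ℕ) : ℝ) := rfl
  rw [this]
  exact sv_design _ v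

/-- the conjecture from the two families of root inequalities. -/
theorem final_of (hA : ∀ u, IsPrimePow u → AvgABS u 1) (hT : ∀ p e, p.Prime → e ≠ 0 → TopOK p e)
    (B : Set ℕ) (hB : QPset B) :
    Summable (fun b : B => hh ((b : ℕ) : ℝ)) ∧ ∑' b : B, hh ((b : ℕ) : ℝ) ≤ ∑' n, FF n := by
  apply conjecture_of_accounts _ B hB
  intro B hB
  refine ⟨5, qD, cD, qD_nonneg, fun v _ => qD_sum v, ?_, ?_⟩
  · intro u hu _ _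
    rw [ld_design]
    have := hA u hu (MM B u) (Fam_MM hB u)
    linarith
  · intro p e hp he hpe hM K
    exact hT p e hp he B hB hpe hM K

end Pool.Agent.EZ
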