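import Pool.Agent.EZ.FBTwo
import Pool.Agent.EZ.Specs
import Pool.Agent.EZ.Kappa

/-!
# Modules FBK and FB31 (helper46)
-/

set_option autoImplicit false

namespace Pool.Agent.EZ

open Finset

noncomputable section

/-- `KB` from a uniform bound of the payoff. -/
theorem KB_const (z x v : ℕ) (K ω : ℝ) (hu : 1 < (z : ℝ) * v) (hK : 1 ≤ K) (hω : 0 ≤ ω)
    (hω2 : Real.exp ω ≤ 2)
    (hG : ∀ VS : Finset ℕ, (∀ w ∈ VS, IsPrimePow w ∧ v < w) → ∀ s : ℝ, 0 ≤ s →
      Real.exp (XX VS (Sx x) (fun w : ℕ => (w : ℝ)) s) * (1 - ((z : ℝ) * v) ^ (-s)) ≤ K)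
    (hw : ∀ VS : Finset ℕ,
      (∀ w ∈ VS, IsPrimePow w ∧ v < w ∧ w.minFac ≠ z.minFac ∧ w.minFac ≠ v.minFac) →
      ∀ r, ∑ w ∈ VS.filter (fun w => w.minFac = r), Sx x w / (w : ℝ) ≤ ω) :
    KB z x v (K * Real.exp ω) := by
  intro VS hVS D hD hm
  have hVS' : ∀ w ∈ VS, IsPrimePow w ∧ v < w := fun w hw => ⟨(hVS w hw).1, (hVS w hw).2.1⟩
  have hw1 : ∀ w ∈ VS, (1 : ℝ) < (w : ℝ) := fun w hw => by exact_mod_cast (hVS w hw).1.one_lt
  have h1 := Real.add_one_le_exp ω
  apply kappa_bound Nat.minFac VS (Sx x) (fun w : ℕ => (w : ℝ)) (fun w _ => Sx_nonneg x w)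
    hw1 ((z : ℝ) * v) hu K (K * Real.exp ω) ω (fun _ => ω) hω (fun _ _ => hω)
  · exact hw VS hVS
  · exact hω2
  · exact hG VS hVS'
  · intro s hs r
    refine le_trans ?_ (hw VS hVS r)
    apply Finset.sum_le_sum
    intro w hw
    have h2 : 0 ≤ Sx x w / (w : ℝ) := div_nonneg (Sx_nonneg _ _) (Nat.cast_nonneg _)
    have h3 : 0 ≤ (w : ℝ) ^ (-s) := Real.rpow_nonneg (Nat.cast_nonneg _) _
    nlinarith
  · intro s hs
    have := hG VS hVS' s hs
    nlinarith
  · nlinarith
  · exact hD
  · exact hm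

/-- module FBK, with the weaker hypothesis on `ω`. -/
theorem FBK_restr (z x v : ℕ) (ω : ℝ) (hz : IsPrimePow z) (hv : IsPrimePow v) (hv121 : 121 ≤ v)
    (hzv : z ^ 2 ≤ v) (hω : 0 ≤ ω) (hω2 : Real.exp ω ≤ 2)
    (hw : ∀ VS : Finset ℕ,
      (∀ w ∈ VS, IsPrimePow w ∧ v < w ∧ w.minFac ≠ z.minFac ∧ w.minFac ≠ v.minFac) →
      ∀ r, ∑ w ∈ VS.filter (fun w => w.minFac = r), Sx x w / (w : ℝ) ≤ ω) :
    KB z x v (1.012 * Real.exp ω) := by
  have hz1 : 1 < z := hz.one_lt
  have hv1 : 1 < v := hv.one_lt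
  have hu : 1 < (z : ℝ) * v := by
    have : 1 < z * v := by nlinarith
    exact_mod_cast this
  apply KB_const z x v 1.012 ω hu (by norm_num) hω hω2 _ hw
  intro VS hVS s hs
  have hz0 : (0 : ℝ) < z := by positivity
  have hv0 : (0 : ℝ) < v := by positivity
  apply FB_bound VS (Sx x) (fun w _ => Sx_le_one x w) (fun w hw => (hVS w hw).1) (v : ℝ)
    ((z : ℝ) * v) (by exact_mod_cast hv121) _ hu _ s hs
  · intro w hw
    left
    exact_mod_cast (hVS w hw).2
  · rw [Real.log_mul hz0.ne' hv0.ne']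
    have h1 : Real.log ((z : ℝ) ^ 2) ≤ Real.log (v : ℝ) :=
      Real.log_le_log (by positivity) (by exact_mod_cast hzv)
    rw [Real.log_pow] at h1
    push_cast at h1
    linarith

/-- module FBK -/
theorem FBK_proof : Stmt_FBK := by
  intro z x v ω hz hv hv121 hzv hω hω2 hw
  exact FBK_restr z x v ω hz hv hv121 hzv hω hω2 hw

theorem e1_pp (n : ℕ) (hn : 31 ≤ n) (hpp : IsPrimePow n) :
    12218 ≤ e1 n ∧ (64 ≤ n → 13348 ≤ e1 n) := by
  rcases Nat.lt_or_ge n 128 with h | h
  · have h1 : ∀ n < 128, 31 ≤ n → kp n ≠ 0 → 12218 ≤ e1 n ∧ (64 ≤ n → 13348 ≤ e1 n) := by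
      decide +kernel
    exact h1 n h hn ((kp_ne_zero_iff (by omega) (by omega)).2 hpp)
  · have := e1_ge (n := n) (by omega)
    constructor <;> omega

/-- sums over prime powers above a prime power `v ≥ 31`. -/
theorem R_bound_pp (F : Finset ℕ) (v : ℕ) (s : ℝ) (hs : 0 < s) (hv : 31 ≤ v) (hpp : IsPrimePow v)
    (hF : ∀ w ∈ F, IsPrimePow w ∧ v < w) :
    ∑ w ∈ F, (w : ℝ) ^ (-1 - s) ≤ EE (s * Real.log v) + 0.15 * Real.exp (-(s * Real.log v)) ∧
    (64 ≤ v → ∑ w ∈ F, (w : ℝ) ^ (-1 - s)
      ≤ EE (s * Real.log v) + 0.1 * Real.exp (-(s * Real.log v))) := by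
  have hvr : (31 : ℝ) ≤ v := by exact_mod_cast hv
  have hexp := Real.exp_pos (-(s * Real.log v))
  have hF' : ∀ w ∈ F, IsPrimePow w ∧ (v : ℝ) < (w : ℝ) := fun w hw =>
    ⟨(hF w hw).1, by exact_mod_cast (hF w hw).2⟩
  rcases Nat.lt_or_ge v 121 with h | h
  · have hv0 : (0 : ℝ) < v := by linarith
    obtain ⟨ha, hb⟩ := e1_pp v hv hpp
    have key : ∀ (η L k : ℝ), 1.6386 - (e1 v : ℝ) / 10000 ≤ η → 0 ≤ η → 0 < L → L ≤ Real.log v →
        η / L + 0.0247 ≤ k →
        ∑ w ∈ F, (w : ℝ) ^ (-1 - s) ≤ EE (s * Real.log v) + k * Real.exp (-(s * Real.log v)) := by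
      intro η L k h1 hη hL hLv hk
      have h2 := R_bound_gen F v 10000 (v : ℝ) s η 0.2264 hs (by omega) (by linarith) le_rfl
        (by linarith) (by norm_num) hη (by norm_num) (by
          intro N hN
          by_cases h : 10000 < N
          · rw [if_pos h]
            have := A1_incr_mid (n := v) (N := N) (c := v) (by omega) (by omega) hv0 (by linarith) h.le
            linarith
          · rw [if_neg h]
            have := A1_incr_small (n := v) (N := N) (c := v) (by omega) (by omega) hv0 (by linarith)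
              (by omega : 3 ≤ N) (by omega)
            linarith) hF'
      have h3 : gw s (10000 : ℕ) ≤ Real.exp (-(s * Real.log v)) * 0.1087 := by
        have h2' : gw s (10000 : ℕ) ≤ Real.exp (-(s * Real.log v)) / 9.2 := by
          unfold gw
          rw [Real.rpow_def_of_pos (by norm_num)]
          push_cast
          apply div_le_div₀ hexp.le _ (by norm_num) log_10000
          apply Real.exp_le_exp.2
          have : Real.log (v : ℝ) ≤ Real.log 10000 :=
            Real.log_le_log hv0 (by exact_mod_cast (by omega : v ≤ 10000))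
          nlinarith
        refine h2'.trans ?_
        rw [div_eq_mul_inv]
        apply mul_le_mul_of_nonneg_left _ hexp.le
        norm_num
      have h4 : gw s (v : ℝ) ≤ Real.exp (-(s * Real.log v)) * (1 / L) := by
        unfold gw
        rw [Real.rpow_def_of_pos hv0]
        have e : Real.log (v : ℝ) * (-s) = -(s * Real.log v) := by ring
        rw [e, mul_one_div]
        exact div_le_div_of_nonneg_left hexp.le hL hLv
      have h5 := mul_le_mul_of_nonneg_left h4 hη
      have h6 := mul_le_mul_of_nonneg_left h3 (by norm_num : (0 : ℝ) ≤ 0.2264)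
      have h7 := mul_le_mul_of_nonneg_left hk hexp.le
      have h8 : η * (Real.exp (-(s * Real.log v)) * (1 / L))
          = Real.exp (-(s * Real.log v)) * (η / L) := by ring
      rw [h8] at h5
      nlinarith
    constructor
    · apply key 0.4168 3.43 0.15 _ (by norm_num) (by norm_num) _ (by norm_num)
      · have : (12218 : ℝ) ≤ (e1 v : ℝ) := by exact_mod_cast ha
        linarith
      · have h1 : (99 : ℝ) * Real.log 2 ≤ 20 * Real.log 31 := by
          have h2 : Real.log ((2 : ℝ) ^ 99) ≤ Real.log ((31 : ℝ) ^ 20) :=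
            Real.log_le_log (by norm_num) (by norm_num)
          rw [Real.log_pow, Real.log_pow] at h2
          push_cast at h2
          exact h2
        have h3 := Real.log_two_gt_d9
        have h4 : Real.log 31 ≤ Real.log v := Real.log_le_log (by norm_num) hvr
        linarith
    · intro h64
      have hvr' : (64 : ℝ) ≤ v := by exact_mod_cast h64
      apply key 0.3038 4.158 0.1 _ (by norm_num) (by norm_num) _ (by norm_num)
      · have : (13348 : ℝ) ≤ (e1 v : ℝ) := by exact_mod_cast hb h64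
        linarith
      · have h1 : Real.log (64 : ℝ) = 6 * Real.log 2 := by
          have : (64 : ℝ) = 2 ^ 6 := by norm_num
          rw [this, Real.log_pow]
          push_cast
          ring
        have h3 := Real.log_two_gt_d9
        have h4 : Real.log 64 ≤ Real.log v := Real.log_le_log (by norm_num) hvr'
        linarith
  · have h1 := R_bound_121 F (v : ℝ) s hs (by exact_mod_cast h) hF'
    constructor
    · nlinarith
    · intro _
      nlinarith

theorem XX_le_pp (VS : Finset ℕ) (x : ℕ) (s : ℝ) :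
    XX VS (Sx x) (fun w : ℕ => (w : ℝ)) s ≤ ∑ w ∈ VS, (w : ℝ) ^ (-1 - s) := by
  unfold XX
  apply Finset.sum_le_sum
  intro w hw
  unfold aa
  have e : -(1 + s) = -1 - s := by ring
  rw [e]
  exact mul_le_of_le_one_left (Real.rpow_nonneg (by positivity) _) (Sx_le_one x w)

/-- module FB31, with the weaker hypothesis on `ω`. -/
theorem FB31_restr (z x v : ℕ) (ω : ℝ) (hz : IsPrimePow z) (hv : IsPrimePow v) (hz9 : z ≤ 9)
    (hω : 0 ≤ ω) (hω2 : Real.exp ω ≤ 2)
    (hw : ∀ VS : Finset ℕ,
      (∀ w ∈ VS, IsPrimePow w ∧ v < w ∧ w.minFac ≠ z.minFac ∧ w.minFac ≠ v.minFac) →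
      ∀ r, ∑ w ∈ VS.filter (fun w => w.minFac = r), Sx x w / (w : ℝ) ≤ ω) :
    (31 ≤ v → KB z x v (1.09 * Real.exp ω)) ∧ (64 ≤ v → KB z x v (1.035 * Real.exp ω)) := by
  have hz1 : 1 < z := hz.one_lt
  have hv1 : 1 < v := hv.one_lt
  have hu : 1 < (z : ℝ) * v := by
    have : 1 < z * v := by nlinarith
    exact_mod_cast this
  have hz0 : (0 : ℝ) < z := by positivity
  have hv0 : (0 : ℝ) < v := by positivity
  have hlz : Real.log (z : ℝ) ≤ Real.log 9 := Real.log_le_log hz0 (by exact_mod_cast hz9)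
  -- general step
  have step : ∀ (K lam k : ℝ), 0 < lam → 1 ≤ K → 31 ≤ v →
      Real.log ((z : ℝ) * v) ≤ lam * Real.log v →
      (∀ (VS : Finset ℕ), (∀ w ∈ VS, IsPrimePow w ∧ v < w) → ∀ s : ℝ, 0 < s →
        ∑ w ∈ VS, (w : ℝ) ^ (-1 - s) ≤ EE (s * Real.log v) + k * Real.exp (-(s * Real.log v))) →
      (∀ y : ℝ, 0 < y → Real.exp (EE y + k * Real.exp (-y)) * (1 - Real.exp (-(lam * y))) ≤ K) →
      KB z x v (K * Real.exp ω) := by
    intro K lam k hlam hK h31 hlu hR hF
    apply KB_const z x v K ω hu hK hω hω2 _ hw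
    intro VS hVS s hs
    rcases hs.eq_or_lt with h | hs0
    · subst h
      simp only [neg_zero, Real.rpow_zero, sub_self, mul_zero]
      linarith
    have hL : 0 < Real.log (v : ℝ) := Real.log_pos (by exact_mod_cast hv1)
    have hy0 : 0 < s * Real.log v := mul_pos hs0 hL
    have h1 := (XX_le_pp VS x s).trans (hR VS hVS s hs0)
    have h2 : 1 - ((z : ℝ) * v) ^ (-s) ≤ 1 - Real.exp (-(lam * (s * Real.log v))) := by
      have : Real.exp (-(lam * (s * Real.log v))) ≤ ((z : ℝ) * v) ^ (-s) := by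
        rw [Real.rpow_def_of_pos (by positivity)]
        apply Real.exp_le_exp.2
        have := mul_le_mul_of_nonneg_left hlu hs
        linarith
      linarith
    have h3 : 0 ≤ 1 - Real.exp (-(lam * (s * Real.log v))) := by
      have : Real.exp (-(lam * (s * Real.log v))) ≤ 1 :=
        Real.exp_le_one_iff.2 (by have := mul_pos hlam hy0; linarith)
      linarith
    calc Real.exp (XX VS (Sx x) (fun w : ℕ => (w : ℝ)) s) * (1 - ((z : ℝ) * v) ^ (-s))
        ≤ Real.exp (XX VS (Sx x) (fun w : ℕ => (w : ℝ)) s)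
          * (1 - Real.exp (-(lam * (s * Real.log v)))) :=
          mul_le_mul_of_nonneg_left h2 (Real.exp_pos _).le
      _ ≤ Real.exp (EE (s * Real.log v) + k * Real.exp (-(s * Real.log v)))
          * (1 - Real.exp (-(lam * (s * Real.log v)))) :=
          mul_le_mul_of_nonneg_right (Real.exp_le_exp.2 h1) h3
      _ ≤ K := hF _ hy0
  constructor
  · intro h31
    apply step 1.09 1.64 0.15 (by norm_num) (by norm_num) h31 _ _ (fun y hy => Kn hy)
    · rw [Real.log_mul hz0.ne' hv0.ne']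
      have h1 : (25 : ℝ) * Real.log 9 ≤ 16 * Real.log 31 := by
        have h2 : Real.log ((9 : ℝ) ^ 25) ≤ Real.log ((31 : ℝ) ^ 16) :=
          Real.log_le_log (by norm_num) (by norm_num)
        rw [Real.log_pow, Real.log_pow] at h2
        push_cast at h2
        exact h2
      have h4 : Real.log 31 ≤ Real.log (v : ℝ) :=
        Real.log_le_log (by norm_num) (by exact_mod_cast h31)
      linarith
    · intro VS hVS s hs
      exact (R_bound_pp VS v s hs h31 hv hVS).1
  · intro h64
    apply step 1.035 1.53 0.1 (by norm_num) (by norm_num) (by omega) _ _ (fun y hy => Kf hy)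
    · rw [Real.log_mul hz0.ne' hv0.ne']
      have h1 : (100 : ℝ) * Real.log 9 ≤ 53 * Real.log 64 := by
        have h2 : Real.log ((9 : ℝ) ^ 100) ≤ Real.log ((64 : ℝ) ^ 53) :=
          Real.log_le_log (by norm_num) (by norm_num)
        rw [Real.log_pow, Real.log_pow] at h2
        push_cast at h2
        exact h2
      have h4 : Real.log 64 ≤ Real.log (v : ℝ) :=
        Real.log_le_log (by norm_num) (by exact_mod_cast h64)
      linarith
    · intro VS hVS s hs
      exact (R_bound_pp VS v s hs (by omega) hv hVS).2 h64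

/-- module FB31 -/
theorem FB31_proof : Stmt_FB31 := by
  intro z x v ω hz hv hz9 hω hω2 hw
  exact FB31_restr z x v ω hz hv hz9 hω hω2 hw

end

end Pool.Agent.EZ
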