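import Pool.Agent.EZ.CapF

/-!
# Fixed point functions
-/

set_option autoImplicit false

namespace Pool.Agent.EZ

open Finset

theorem Up.nonneg_of {x : ℝ} {X Y : ℕ} (h : Up x X) (hXY : X ≤ Y) : Up x Y := by
  unfold Up at *
  refine h.trans ?_
  exact_mod_cast hXY

theorem Up.lit (n : ℕ) : Up (n : ℝ) (Nat.mul n 1000000000000) := by
  unfold Up
  apply le_of_eq
  change _ = ((n * 1000000000000 : ℕ) : ℝ)
  push_cast; ring

theorem Up.self (X : ℕ) : Up ((X : ℝ) / 1000000000000) X := by
  unfold Up
  apply le_of_eq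
  field_simp

theorem Lo.self (X : ℕ) : Lo ((X : ℝ) / 1000000000000) X := by
  unfold Lo
  apply le_of_eq
  field_simp

theorem Up.le {x : ℝ} {X : ℕ} (h : Up x X) : x ≤ (X : ℝ) / 1000000000000 := by
  unfold Up at h
  rw [le_div_iff₀ (by norm_num)]
  exact h

theorem Up.of_le {x : ℝ} {X : ℕ} (h : x ≤ (X : ℝ) / 1000000000000) : Up x X := by
  unfold Up
  rwa [le_div_iff₀ (by norm_num)] at h

theorem Lo.le {x : ℝ} {X : ℕ} (h : Lo x X) : (X : ℝ) / 1000000000000 ≤ x := by
  unfold Lo at h
  rw [div_le_iff₀ (by norm_num)]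
  exact h

/-- forced `exn`. -/
noncomputable def exnN (X : ℕ) : ℕ :=
  frn (Nat.div X 8) fun y => frn (exn0 y) fun e => frn (mu e e) fun e2 => frn (mu e2 e2) fun e4 =>
    mu e4 e4

theorem exnN_up {x : ℝ} {X : ℕ} (h : Lo x X) : Up (Real.exp (-x)) (exnN X) := by
  have h1 := exn_up h
  have e : exnN X = exn X := by
    unfold exnN
    simp only [frn_eq]
    rfl
  rw [e]; exact h1

/-- `exp t`, `t ≤ 1`, rounded up. -/
def exu0 (t : ℕ) : ℕ :=
  Nat.add 1000000000000 (mu t (Nat.add 1000000000000 (du (mu t (Nat.add 1000000000000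
    (du (mu t (Nat.add 1000000000000 (du (mu t (Nat.add 1000000000000 (du (mu t
      (Nat.add 1000000000000 (du (mu t (Nat.add 1000000000000 (du (mu t
        (Nat.add 1000000000000 (du (mu t 1125000000000) 8))) 7))) 6))) 5))) 4))) 3))) 2)))

theorem exp_taylor_up {t : ℝ} (h0 : 0 ≤ t) (h1 : t ≤ 1) : Real.exp t ≤
    1 + t * (1 + t * (1 + t * (1 + t * (1 + t * (1 + t * (1 + t * (1 + t * 1.125 / 8) / 7) / 6) / 5)
      / 4) / 3) / 2) := by
  have h := Real.exp_bound' h0 h1 (n := 8) (by norm_num)
  refine h.trans (le_of_eq ?_)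
  simp only [Finset.sum_range_succ, Finset.sum_range_zero, Nat.factorial]
  push_cast
  ring

theorem exu0_up {t : ℝ} {X : ℕ} (h0 : 0 ≤ t) (h1 : t ≤ 1) (h : Up t X) :
    Up (Real.exp t) (exu0 X) := by
  refine Up.mono ?_ (exp_taylor_up h0 h1)
  have hd : ∀ {y : ℝ} {Y : ℕ} (n : ℕ), 0 < n → 0 ≤ y → Up y Y →
      Up (1 + t * y / n) (Nat.add 1000000000000 (du (mu X Y) n)) := by
    intro y Y n hn hy hY
    exact Up.one.add ((Up.mul h0 hy h hY).div n hn)
  have a8 : Up (1 + t * 1.125 / (8 : ℕ)) _ :=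
    hd (y := 1.125) (Y := 1125000000000) 8 (by norm_num) (by norm_num) (by unfold Up; norm_num)
  have a7 := hd 7 (by norm_num) (by positivity) a8
  have a6 := hd 6 (by norm_num) (by positivity) a7
  have a5 := hd 5 (by norm_num) (by positivity) a6
  have a4 := hd 4 (by norm_num) (by positivity) a5
  have a3 := hd 3 (by norm_num) (by positivity) a4
  have a2 := hd 2 (by norm_num) (by positivity) a3
  have a1 := Up.one.add (Up.mul h0 (by positivity) h a2)
  push_cast at a1
  exact a1

/-- `exp (X)`, rounded up. -/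
noncomputable def exuN (X : ℕ) : ℕ :=
  cond (Nat.ble X 7900000000000)
    (frn (Nat.succ (Nat.div X 8)) fun y => frn (exu0 y) fun e => frn (mu e e) fun e2 =>
      frn (mu e2 e2) fun e4 => mu e4 e4)
    (Nat.mul (Nat.pow 3 (Nat.succ (Nat.div X 1000000000000))) 1000000000000)

theorem exuN_up {x : ℝ} {X : ℕ} (h0 : 0 ≤ x) (h : Up x X) : Up (Real.exp x) (exuN X) := by
  unfold exuN
  rw [ble_cond]
  split_ifs with hX
  · simp only [frn_eq]
    have h2 : Up (x / 8) (Nat.succ (Nat.div X 8)) := by
      have := Up.div 8 (by norm_num) h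
      push_cast at this
      exact this
    have h3 : x / 8 ≤ 1 := by
      have := h.le
      have hX' : (X : ℝ) ≤ 7900000000000 := by exact_mod_cast hX
      linarith
    have h4 := exu0_up (by positivity) h3 h2
    have hp := (Real.exp_pos (x / 8)).le
    have h5 := Up.mul hp hp h4 h4
    have h6 := Up.mul (by positivity) (by positivity) h5 h5
    have h7 := Up.mul (by positivity) (by positivity) h6 h6
    refine Up.mono h7 (le_of_eq ?_)
    rw [← Real.exp_add, ← Real.exp_add, ← Real.exp_add]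
    congr 1
    ring
  · have h1 : x ≤ ((Nat.succ (Nat.div X 1000000000000) : ℕ) : ℝ) := by
      have h2 := cast_div_ge X 1000000000000 (by norm_num)
      have h3 := h.le
      push_cast at h2 ⊢
      linarith
    unfold Up
    have h2 : Real.exp x ≤ 3 ^ (Nat.succ (Nat.div X 1000000000000)) := by
      calc Real.exp x ≤ Real.exp ((Nat.succ (Nat.div X 1000000000000) : ℕ) : ℝ) := Real.exp_le_exp.2 h1
        _ = Real.exp 1 ^ (Nat.succ (Nat.div X 1000000000000)) := by
          rw [← Real.exp_nat_mul, mul_one]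
        _ ≤ 3 ^ (Nat.succ (Nat.div X 1000000000000)) := by
          apply pow_le_pow_left₀ (Real.exp_pos _).le
          have := Real.exp_one_lt_d9
          linarith
    have e : ((Nat.mul (Nat.pow 3 (Nat.succ (Nat.div X 1000000000000))) 1000000000000 : ℕ) : ℝ)
        = 3 ^ (Nat.succ (Nat.div X 1000000000000)) * 1000000000000 := by
      change ((3 ^ (Nat.succ (Nat.div X 1000000000000)) * 1000000000000 : ℕ) : ℝ) = _
      push_cast
      ring
    rw [e]
    exact mul_le_mul_of_nonneg_right h2 (by norm_num)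

/-- `1 - exp (-X)`, rounded up. -/
def sfn (X : ℕ) : ℕ :=
  Nat.sub (Nat.add (Nat.add X (Nat.succ (Nat.div (Nat.pow X 3) 6000000000000000000000000)))
      (Nat.succ (Nat.div (Nat.pow X 5) 120000000000000000000000000000000000000000000000000)))
    (Nat.add (Nat.div (Nat.mul X X) 2000000000000)
      (Nat.div (Nat.pow X 4) 24000000000000000000000000000000000000))

theorem sfn_up {x : ℝ} {X : ℕ} (h : Up x X) : Up (1 - Real.exp (-x)) (sfn X) := by
  set y : ℝ := (X : ℝ) / 1000000000000 with hy
  have hy0 : 0 ≤ y := by positivity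
  have h1 := (exp_neg_Tp 2).2 y hy0
  have e1 : Tp (2 * 2 + 2) y = 1 - (y + y ^ 3 / 6 + y ^ 5 / 120 - (y ^ 2 / 2 + y ^ 4 / 24)) := by
    unfold Tp
    simp only [Finset.sum_range_succ, Finset.sum_range_zero, Nat.factorial]
    push_cast
    ring
  rw [e1] at h1
  have h2 : 1 - Real.exp (-x) ≤ y + y ^ 3 / 6 + y ^ 5 / 120 - (y ^ 2 / 2 + y ^ 4 / 24) := by
    have h3 : Real.exp (-y) ≤ Real.exp (-x) := Real.exp_le_exp.2 (by have := h.le; linarith)
    linarith
  refine Up.mono ?_ h2
  unfold sfn
  apply Up.sub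
  · apply Up.add
    · apply Up.add (Up.self X)
      have h := cast_div_ge (Nat.pow X 3) 6000000000000000000000000 (by norm_num)
      unfold Up
      refine le_trans (le_of_eq ?_) h
      have e : ((Nat.pow X 3 : ℕ) : ℝ) = (X : ℝ) ^ 3 := by
        change ((X ^ 3 : ℕ) : ℝ) = _
        push_cast; ring
      rw [e, hy]
      push_cast
      ring
    · have h := cast_div_ge (Nat.pow X 5) 120000000000000000000000000000000000000000000000000
        (by norm_num)
      unfold Up
      refine le_trans (le_of_eq ?_) h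
      have e : ((Nat.pow X 5 : ℕ) : ℝ) = (X : ℝ) ^ 5 := by
        change ((X ^ 5 : ℕ) : ℝ) = _
        push_cast; ring
      rw [e, hy]
      push_cast
      ring
  · apply Lo.add
    · have h := cast_div_le' (Nat.mul X X) 2000000000000
      unfold Lo
      refine le_trans h (le_of_eq ?_)
      have e : ((Nat.mul X X : ℕ) : ℝ) = (X : ℝ) * X := by
        change ((X * X : ℕ) : ℝ) = _
        push_cast; ring
      rw [e, hy]
      push_cast
      ring
    · have h := cast_div_le' (Nat.pow X 4) 24000000000000000000000000000000000000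
      unfold Lo
      refine le_trans h (le_of_eq ?_)
      have e : ((Nat.pow X 4 : ℕ) : ℝ) = (X : ℝ) ^ 4 := by
        change ((X ^ 4 : ℕ) : ℝ) = _
        push_cast; ring
      rw [e, hy]
      push_cast
      ring

end Pool.Agent.EZ
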