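import Pool.Agent.EZ.EngHi
import Pool.Agent.EZ.EngFS2
import Pool.Agent.EZ.FBK
import Pool.Agent.EZ.HT
import Pool.Agent.EZ.Num

/-!
# Far parts of the absolute constants: module FAR (helper39)
-/

set_option autoImplicit false

namespace Pool.Agent.EZ

open Finset

theorem KB_mono' {z x v : ℕ} {κ κ' : ℝ} (hz : IsPrimePow z) (hv : IsPrimePow v)
    (h : KB z x v κ) (hκ : κ ≤ κ') : KB z x v κ' := by
  intro VS hVS
  have hz1 : (1 : ℝ) < z := by exact_mod_cast hz.one_lt
  have hv1 : (1 : ℝ) < v := by exact_mod_cast hv.one_lt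
  exact Kap.mono (fun w _ => Sx_nonneg x w) (fun w hw => by exact_mod_cast (hVS w hw).1.one_lt)
    (by nlinarith) (h VS hVS) (Finset.Subset.refl _) hκ

/-- everything beyond `10^4` is alive. -/
theorem Sx_alive (x w : ℕ) (hx : x ≤ 50000000) (hw : IsPrimePow w) (hw4 : 10000 < w) :
    Sx x w = 1 := by
  obtain ⟨r, k, hr, hk, rfl⟩ := hw
  have hrp : r.Prime := Nat.prime_iff.2 hr
  rcases Nat.lt_or_ge k 2 with hk2 | hk2
  · obtain rfl : k = 1 := by omega
    rw [pow_one] at hw4 ⊢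
    rw [Sx_eq_svN x r r hrp.minFac_eq, svN_prime x r (by omega) hrp]
    rw [if_pos (by omega), if_pos (by omega), if_pos (by omega), if_pos (by omega),
      if_pos (by omega)]
    norm_num
  · have h2 : r ^ (k - 1) * 2 ≤ r ^ k := by
      obtain ⟨m, rfl⟩ : ∃ m, k = m + 1 := ⟨k - 1, by omega⟩
      rw [pow_succ]
      exact Nat.mul_le_mul_left _ hrp.two_le
    rw [Sx_generic x r k hrp hk2 (by
      intro h
      simp only [Finset.mem_insert, Finset.mem_singleton] at h
      omega), if_pos (by omega)]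

/-- powers of one prime beyond `u`. -/
theorem tail_inv (u : ℕ) (hu : 1 ≤ u) (VS : Finset ℕ) (hVS : ∀ w ∈ VS, IsPrimePow w ∧ u < w)
    (r : ℕ) : ∑ w ∈ VS.filter (fun w => w.minFac = r), 1 / (w : ℝ) ≤ 2 / u := by
  have hu0 : (0 : ℝ) < u := by exact_mod_cast hu
  refine tail_gen (fun w : ℕ => 1 / (w : ℝ)) (fun w : ℕ => 2 / (w : ℝ)) u (fun w => by positivity)
    ?_ ?_ (fun w _ => by positivity) VS hVS r
  · intro a b ha hab
    have ha0 : (0 : ℝ) < a := by exact_mod_cast (by omega : 0 < a)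
    exact div_le_div_of_nonneg_left (by norm_num) ha0 (by exact_mod_cast hab)
  · intro r w hr hw
    have hw0 : (0 : ℝ) < w := by exact_mod_cast (by omega : 0 < w)
    have hr2 : (2 : ℝ) ≤ r := by exact_mod_cast hr
    push_cast
    rw [div_add_div _ _ hw0.ne' (by positivity), div_le_div_iff₀ (by positivity) hw0]
    nlinarith [mul_pos hw0 hw0, mul_nonneg (sub_nonneg.2 hr2) (mul_pos hw0 hw0).le]

/-- total weight against `Hpp`. -/
theorem mw_ge4 (z x v : ℕ) (hx : x ≤ 50000000) (hv : 10000 ≤ v) :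
    Hpp v - 0.0002 ≤ Mz z x 10000 + Wt z x v := by
  have hsplit : ∀ f : ℕ → ℝ, ∑ w ∈ ppK v, f w = ∑ w ∈ ppK 10000, f w
      + ∑ w ∈ (ppK v).filter (fun w => 10000 < w), f w := by
    intro f
    rw [← Finset.sum_filter_add_sum_filter_not (ppK v) (fun w => 10000 < w), add_comm]
    congr 1
    apply Finset.sum_congr _ (fun _ _ => rfl)
    ext w
    simp only [mem_filter, mem_ppK]
    constructor
    · rintro ⟨⟨h1, h2⟩, h3⟩; exact ⟨h1, by omega⟩
    · rintro ⟨h1, h2⟩; exact ⟨⟨h1, by omega⟩, by omega⟩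
  have h1 : Wt z x v = ∑ w ∈ ppK v, (if w.minFac ≠ z.minFac then Sx x w / (w : ℝ) else 0) := by
    unfold Wt
    rw [Finset.sum_filter]
  have h2 := tail_inv 10000 (by norm_num) ((ppK v).filter (fun w => 10000 < w)) (by
    intro w hw
    rw [mem_filter, mem_ppK] at hw
    exact ⟨hw.1.1, hw.2⟩) z.minFac
  rw [Finset.sum_filter] at h2
  unfold Hpp Mz
  rw [h1, hsplit (fun w => 1 / (w : ℝ)), hsplit (fun w => if w.minFac ≠ z.minFac then _ else _)]
  have h3 : ∑ w ∈ ppK 10000, 1 / (w : ℝ)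
      = ∑ w ∈ ppK 10000, (if w.minFac = z.minFac then 1 else 1 - Sx x w) / (w : ℝ)
      + ∑ w ∈ ppK 10000, (if w.minFac ≠ z.minFac then Sx x w / (w : ℝ) else 0) := by
    rw [← Finset.sum_add_distrib]
    apply Finset.sum_congr rfl
    intro w _
    by_cases h : w.minFac = z.minFac
    · simp [h]
    · simp only [h, if_false, ne_eq, not_false_eq_true, if_true]
      ring
  have h4 : ∑ w ∈ (ppK v).filter (fun w => 10000 < w), 1 / (w : ℝ)
      = ∑ w ∈ (ppK v).filter (fun w => 10000 < w),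
        (if w.minFac ≠ z.minFac then Sx x w / (w : ℝ) else 0)
      + ∑ w ∈ (ppK v).filter (fun w => 10000 < w),
        (if w.minFac = z.minFac then 1 / (w : ℝ) else 0) := by
    rw [← Finset.sum_add_distrib]
    apply Finset.sum_congr rfl
    intro w hw
    rw [mem_filter, mem_ppK] at hw
    rw [Sx_alive x w hx hw.1.1 hw.2]
    by_cases h : w.minFac = z.minFac
    · simp [h]
    · simp [h]
  push_cast at h2
  linarith

/-- logarithms from powers of two. -/
theorem log_le_pow (m a b : ℕ) (hm : 0 < m) (ha : 0 < a) (h : m ^ a ≤ 2 ^ b) :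
    Real.log m ≤ (b : ℝ) / a * 0.6931471808 := by
  have h2 := Real.log_two_lt_d9
  have hm0 : (0 : ℝ) < m := by exact_mod_cast hm
  have ha0 : (0 : ℝ) < a := by exact_mod_cast ha
  have h1 : Real.log ((m : ℝ) ^ a) ≤ Real.log ((2 : ℝ) ^ b) :=
    Real.log_le_log (by positivity) (by exact_mod_cast h)
  rw [Real.log_pow, Real.log_pow] at h1
  rw [div_mul_eq_mul_div, le_div_iff₀ ha0]
  have hb0 : (0 : ℝ) ≤ b := Nat.cast_nonneg b
  nlinarith

theorem pow_le_log (m a b : ℕ) (hm : 0 < m) (ha : 0 < a) (h : 2 ^ b ≤ m ^ a) :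
    (b : ℝ) / a * 0.6931471803 ≤ Real.log m := by
  have h2 := Real.log_two_gt_d9
  have hm0 : (0 : ℝ) < m := by exact_mod_cast hm
  have ha0 : (0 : ℝ) < a := by exact_mod_cast ha
  have h1 : Real.log ((2 : ℝ) ^ b) ≤ Real.log ((m : ℝ) ^ a) :=
    Real.log_le_log (by positivity) (by exact_mod_cast h)
  rw [Real.log_pow, Real.log_pow] at h1
  rw [div_mul_eq_mul_div, div_le_iff₀ ha0]
  have hb0 : (0 : ℝ) ≤ b := Nat.cast_nonneg b
  nlinarith

theorem log4_bounds : (9.2103 : ℝ) ≤ Real.log 10000 ∧ Real.log 10000 ≤ 9.21036 := by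
  have h1 := pow_le_log 10000 73 970 (by norm_num) (by norm_num)
    (Nat.le_of_ble_eq_true (by decide +kernel))
  have h2 := log_le_pow 10000 212 2817 (by norm_num) (by norm_num)
    (Nat.le_of_ble_eq_true (by decide +kernel))
  norm_num at h1 h2 ⊢
  constructor <;> linarith

/-- Mertens factor. -/
theorem exp_mw (z x v : ℕ) (hx : x ≤ 50000000) (hv : 10000 ≤ v) :
    Real.exp (0.4575 - Mz z x 10000 - Wt z x v) ≤ 0.5761 / Real.log v := by
  have h1 := mw_ge4 z x v hx hv
  have h2 := (HU_proof v hv).2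
  have h3 := HT_proof (10000, 3.253654) (by simp [HTab])
  rw [abs_le] at h3
  simp only at h3
  have hlv : 0 < Real.log (v : ℝ) := Real.log_pos (by exact_mod_cast (by omega : 1 < v))
  have hl4 := log4_bounds
  have h4 : Real.exp (0.4575 - Mz z x 10000 - Wt z x v)
      ≤ Real.exp (-2.771952 + (Real.log (Real.log 10000) - Real.log (Real.log v))) := by
    apply Real.exp_le_exp.2
    rw [Real.log_div hlv.ne' (by linarith)] at h2
    norm_num at h3 ⊢
    linarith [h3.1]
  refine h4.trans ?_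
  rw [Real.exp_add, Real.exp_sub, Real.exp_log (by linarith), Real.exp_log hlv]
  have h5 : Real.exp (-2.771952) ≤ 0.0625399 := by
    have h6 : Real.exp (-2.771952) = Real.exp (-(4 * Real.log 2)) *
        Real.exp (4 * Real.log 2 - 2.771952) := by
      rw [← Real.exp_add]; congr 1; ring
    have h7 : Real.exp (-(4 * Real.log 2)) = 1 / 16 := by
      rw [Real.exp_neg, show (4 : ℝ) * Real.log 2 = Real.log (2 ^ 4) by
        rw [Real.log_pow]; norm_num, Real.exp_log (by norm_num)]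
      norm_num
    have h8 : Real.exp (4 * Real.log 2 - 2.771952) ≤ Real.exp 0.0006368 := by
      apply Real.exp_le_exp.2
      have := Real.log_two_lt_d9
      linarith
    have h9 := exp_taylor_up (t := 0.0006368) (by norm_num) (by norm_num)
    rw [h6, h7]
    norm_num at h9 ⊢
    linarith
  rw [← mul_div_assoc]
  apply div_le_div_of_nonneg_right _ hlv.le
  have h10 := Real.exp_pos (-2.771952)
  calc Real.exp (-2.771952) * Real.log 10000 ≤ 0.0625399 * 9.21036 := by
        apply mul_le_mul h5 hl4.2 (by linarith) (by norm_num)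
    _ ≤ 0.5761 := by norm_num

/-- level of a block `(a, b]` beyond `10^4`. -/
theorem far_mid (z x v a b : ℕ) (A e lz la lb : ℝ) (hz : IsPrimePow z) (hv : IsPrimePow v)
    (hvz : v.minFac ≠ z.minFac) (hx : x ≤ 50000000) (hz11 : 11 ≤ z) (ha : 10000 ≤ a)
    (hav : a < v) (hvb : v ≤ b) (hA : 1 / 6 ≤ A) (hA1 : A ≤ 1) (hlz : lz ≤ Real.log z)
    (hla : la ≤ Real.log a) (hlb : Real.log b ≤ lb)
    (hAb : lb + 0.4441 ≤ (1 + A) * ((lz + la) / 2)) (he : A - 1 / 12 + 0.0012 ≤ e) :
    CellOK z x 10000 v e := by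
  have hz1 : (11 : ℝ) ≤ z := by exact_mod_cast hz11
  have hv1 : (10000 : ℝ) < v := by exact_mod_cast (by omega : 10000 < v)
  have hzvN : 110000 ≤ z * v := by nlinarith
  have hlzp : 0 ≤ Real.log (z : ℝ) := Real.log_natCast_nonneg z
  have hlav : Real.log a ≤ Real.log v := Real.log_le_log (by
    have : (10000 : ℝ) ≤ a := by exact_mod_cast ha
    linarith) (by exact_mod_cast hav.le)
  have hlvb : Real.log v ≤ Real.log b := Real.log_le_log (by linarith) (by exact_mod_cast hvb)
  have hl4 : (9 : ℝ) ≤ Real.log v := by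
    have h1 := log4_bounds.1
    have h2 : Real.log 10000 ≤ Real.log v := Real.log_le_log (by norm_num) hv1.le
    linarith
  have hlog : Real.log ((z : ℝ) * v) = Real.log z + Real.log v :=
    Real.log_mul (by linarith) (by linarith)
  have hn1 : 331 ≤ Nat.sqrt (z * v) := by
    rw [Nat.le_sqrt]
    omega
  have hE : ∀ m, Nat.sqrt (z * v) ≤ m → Real.log ((m : ℝ) + 1) - A1 m ≤ -0.4209 :=
    fun m hm => E_127 m (by omega)
  have hAv := A1_upper_all v (by omega)
  have hk : kapv z x (max 10000 v) v = A1 v := by rw [max_eq_right (by omega), kapv_self]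
  have hsq1 : Nat.sqrt (z * v) ^ 2 ≤ z * v := Nat.sqrt_le' _
  have hsq2 : z * v < (Nat.sqrt (z * v) + 1) ^ 2 := Nat.lt_succ_sqrt' _
  have hkap : kapv z x (max 10000 v) v + -0.4209 ≤ (1 + A) * (Real.log ((z : ℝ) * v) / 2) := by
    rw [hk, hlog]
    have h1 : (1 + A) * ((lz + la) / 2) ≤ (1 + A) * ((Real.log z + Real.log v) / 2) :=
      mul_le_mul_of_nonneg_left (by linarith) (by linarith)
    linarith
  refine stmt_NBR z x 10000 v (Nat.sqrt (z * v) + 1) (Nat.sqrt (z * v)) (-0.4209) (-0.4209) A A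
    (1 / 12) 0.00043 (A - 1 / 12) 0.0012 e hz hv hvz
    (fun w hw hw4 _ => Sx_alive x w hx hw hw4) (by omega) hsq1 hsq2.le hsq2.le
    (fun m hm _ => hE m hm) (fun m hm => hE m (by omega)) hkap hkap (by linarith) le_rfl
    (by norm_num) (by rw [sub_self, zero_mul, sub_zero]) (by norm_num) ?_ ?_ ?_ ?_ ?_
  · have := Real.exp_one_gt_d9
    have h1 : Real.exp 0.00043 ≤ Real.exp (1 / 2) := Real.exp_le_exp.2 (by norm_num)
    have h2 : Real.exp (1 / 2) * Real.exp (1 / 2) = Real.exp 1 := by rw [← Real.exp_add]; norm_num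
    have h3 := Real.exp_one_lt_d9
    have h4 := Real.exp_pos (1 / 2)
    nlinarith
  · refine omega_of_Oc hz hv (OcOK_tail z x v (by omega) (by omega)) ?_
    have hl2 := Real.log_two_lt_d9
    rw [hlog, div_le_iff₀ (by linarith)]
    have h1 : max (Real.log z) (Real.log v) ≤ Real.log z + Real.log v := by
      apply max_le <;> linarith
    have h2 : (4.3 : ℝ) ≤ 0.00043 * v := by linarith
    have h3 : 0 < Real.log z + Real.log v := by linarith
    have h4 : 4.3 * (Real.log z + Real.log v) ≤ 0.00043 * v * (Real.log z + Real.log v) :=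
      mul_le_mul_of_nonneg_right h2 h3.le
    nlinarith
  · intro t h0 h1
    nlinarith [mul_nonneg (sub_nonneg.2 h1) (by linarith : (0 : ℝ) ≤ A - (1 + t) / 12)]
  · have h1 : Real.exp 0.00043 - 1 ≤ 0.0004302 := by
      have h2 := Real.abs_exp_sub_one_sub_id_le (x := (0.00043 : ℝ)) (by norm_num [abs_of_pos])
      rw [abs_le] at h2
      have h3 := h2.2
      norm_num at h3 ⊢
      linarith
    have h2 : Real.exp (A - 1 / 12 + 1 / 12) ≤ Real.exp 1 := Real.exp_le_exp.2 (by linarith)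
    have h3 := Real.exp_one_lt_d9
    have h4 := Real.exp_pos (A - 1 / 12 + 1 / 12)
    have h5 : 0 ≤ Real.exp 0.00043 - 1 := by
      have := Real.add_one_le_exp (0.00043 : ℝ)
      linarith
    nlinarith
  · intro t h0 h1
    nlinarith [mul_nonneg (sub_nonneg.2 h1) (by linarith : (0 : ℝ) ≤ A + 0.0012 - (1 + t) / 12)]

/-- step function -/
noncomputable def gst (a2 a3 : ℕ) (g1 g2 g3 : ℝ) (v : ℕ) : ℝ :=
  if v ≤ a2 then g1 else if v ≤ a3 then g2 else g3

/-- the constants -/
noncomputable def farC (z Y a2 a3 : ℕ) (g1 g2 g3 : ℝ) (v : ℕ) : ℝ :=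
  if v ≤ Y then gst a2 a3 g1 g2 g3 v * (0.5761 / Real.log v) else 1.0123 / Real.log ((z : ℝ) * v)

theorem gst_nonneg {a2 a3 : ℕ} {g1 g2 g3 : ℝ} (h1 : 0 ≤ g1) (h12 : g1 ≤ g2) (h23 : g2 ≤ g3)
    (v : ℕ) : 0 ≤ gst a2 a3 g1 g2 g3 v := by
  unfold gst
  split_ifs <;> linarith

theorem farC_nonneg {z Y a2 a3 : ℕ} {g1 g2 g3 : ℝ} (h1 : 0 ≤ g1) (h12 : g1 ≤ g2)
    (h23 : g2 ≤ g3) (v : ℕ) : 0 ≤ farC z Y a2 a3 g1 g2 g3 v := by
  unfold farC
  have h := gst_nonneg (a2 := a2) (a3 := a3) h1 h12 h23 v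
  split_ifs
  · exact mul_nonneg h (div_nonneg (by norm_num) (Real.log_natCast_nonneg v))
  · have : 0 ≤ Real.log ((z : ℝ) * v) := by
      have := Real.log_natCast_nonneg (z * v)
      push_cast at this
      exact this
    positivity

theorem far_sumOK (z x Y a2 a3 : ℕ) (g1 g2 g3 t : ℝ) (hz : IsPrimePow z) (hx : x ≤ 50000000)
    (hY : 10000 ≤ Y) (hzY : z ^ 2 ≤ Y) (h2 : 10000 ≤ a2) (h23 : a2 ≤ a3) (h3Y : a3 ≤ Y)
    (hg1 : 0 ≤ g1) (h12 : g1 ≤ g2) (hg23 : g2 ≤ g3)
    (hlev : ∀ v, IsPrimePow v → v.minFac ≠ z.minFac → 10000 < v → v ≤ Y →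
      ∃ e, CellOK z x 10000 v e ∧ Real.exp e ≤ gst a2 a3 g1 g2 g3 v)
    (ht : 0.5761 * (g1 * (1 / Real.log (10000 : ℕ) - 1 / Real.log Y + 0.4443 / Real.log (10000 : ℕ) ^ 2)
      + (g2 - g1) * (1 / Real.log a2 - 1 / Real.log Y + 0.4443 / Real.log a2 ^ 2)
      + (g3 - g2) * (1 / Real.log a3 - 1 / Real.log Y + 0.4443 / Real.log a3 ^ 2))
      + 1.0123 * (1 / Real.log z * Real.log (1 + Real.log z / Real.log Y)
      + 0.4443 / (Real.log Y * Real.log ((z : ℝ) * Y))) ≤ t) :
    SumOK z x 10000 t := by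
  have hz1 : (1 : ℝ) < z := by exact_mod_cast hz.one_lt
  refine ⟨farC z Y a2 a3 g1 g2 g3, farC_nonneg hg1 h12 hg23, ?_, ?_⟩
  · intro v hv hvz _ hv4
    have hv1 : (10000 : ℝ) < v := by exact_mod_cast hv4
    have hlv : 0 < Real.log (v : ℝ) := Real.log_pos (by linarith)
    have hlzv : 0 < Real.log ((z : ℝ) * v) := Real.log_pos (by nlinarith)
    unfold farC
    split_ifs with hvY
    · obtain ⟨e, he, hg⟩ := hlev v hv hvz hv4 hvY
      refine KB_mono' hz hv he ?_
      rw [mul_comm (gst _ _ _ _ _ _ * _)]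
      apply mul_le_mul_of_nonneg_left _ hlzv.le
      rw [Real.exp_add, mul_comm]
      exact mul_le_mul hg (exp_mw z x v hx hv4.le) (Real.exp_pos _).le
        (gst_nonneg hg1 h12 hg23 v)
    · rw [div_mul_cancel₀ _ hlzv.ne']
      have hzv : z ^ 2 ≤ v := by omega
      refine KB_mono' hz hv (FBK_restr z x v 0.0002 hz hv (by omega) hzv (by norm_num) ?_ ?_) ?_
      · have := Real.exp_one_gt_d9
        have h1 : Real.exp 0.0002 ≤ Real.exp (1 / 2) := Real.exp_le_exp.2 (by norm_num)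
        have h2 : Real.exp (1 / 2) * Real.exp (1 / 2) = Real.exp 1 := by
          rw [← Real.exp_add]; norm_num
        have h3 := Real.exp_one_lt_d9
        have h4 := Real.exp_pos (1 / 2)
        nlinarith
      · intro VS hVS r
        refine (tail_one x v (by omega) VS (fun w hw => ⟨(hVS w hw).1, (hVS w hw).2.1⟩) r).trans ?_
        rw [div_le_iff₀ (by linarith)]
        linarith
      · have h9 := exp_taylor_up (t := 0.0002) (by norm_num) (by norm_num)
        norm_num at h9 ⊢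
        linarith
  · intro N
    refine le_trans ?_ ht
    set h : ℕ → ℝ := fun v => 1 / ((v : ℝ) * Real.log v) with hh
    have hh0 : ∀ v, 0 ≤ h v := fun v => by
      have := Real.log_natCast_nonneg v
      simp only [hh]
      positivity
    set k : ℕ → ℝ := fun v => 1 / ((v : ℝ) * Real.log ((z : ℝ) * v)) with hk
    have hk0 : ∀ v, 0 ≤ k v := fun v => by
      have : 0 ≤ Real.log ((z : ℝ) * v) := by
        have := Real.log_natCast_nonneg (z * v)
        push_cast at this
        exact this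
      simp only [hk]
      positivity
    have f1 := FS2_proof 10000 Y N le_rfl hY
    have f2 := FS2_proof a2 Y N h2 (h23.trans h3Y)
    have f3 := FS2_proof a3 Y N (h2.trans h23) h3Y
    have f4 := FS_proof z Y N (by exact_mod_cast hz.one_lt) hY
    rw [Finset.sum_filter] at f1 f2 f3 f4
    have key : ∑ v ∈ (ppK N).filter (fun w => 10000 < w ∧ w.minFac ≠ z.minFac),
        Sx x v / (v : ℝ) * farC z Y a2 a3 g1 g2 g3 v
        ≤ ∑ v ∈ ppK N, (0.5761 * (g1 * (if 10000 < v ∧ v ≤ Y then h v else 0)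
          + (g2 - g1) * (if a2 < v ∧ v ≤ Y then h v else 0)
          + (g3 - g2) * (if a3 < v ∧ v ≤ Y then h v else 0))
          + 1.0123 * (if Y < v then k v else 0)) := by
      rw [Finset.sum_filter]
      apply Finset.sum_le_sum
      intro v hv
      have c1 : 0 ≤ (if 10000 < v ∧ v ≤ Y then h v else 0) := by
        split_ifs
        · exact hh0 v
        · exact le_rfl
      have c2 : 0 ≤ (if a2 < v ∧ v ≤ Y then h v else 0) := by
        split_ifs
        · exact hh0 v
        · exact le_rfl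
      have c3 : 0 ≤ (if a3 < v ∧ v ≤ Y then h v else 0) := by
        split_ifs
        · exact hh0 v
        · exact le_rfl
      have c4 : 0 ≤ (if Y < v then k v else 0) := by
        split_ifs
        · exact hk0 v
        · exact le_rfl
      by_cases hc : 10000 < v ∧ v.minFac ≠ z.minFac
      · rw [if_pos hc]
        have hv0 : (0 : ℝ) < v := by exact_mod_cast (by omega : 0 < v)
        have hlv : 0 < Real.log (v : ℝ) := Real.log_pos (by
          exact_mod_cast (by omega : 1 < v))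
        have hlzv : 0 < Real.log ((z : ℝ) * v) := Real.log_pos (by
          have : (1 : ℝ) < v := by exact_mod_cast (by omega : 1 < v)
          nlinarith)
        have hC := farC_nonneg (z := z) (Y := Y) (a2 := a2) (a3 := a3) hg1 h12 hg23 v
        have s1 : Sx x v / (v : ℝ) * farC z Y a2 a3 g1 g2 g3 v
            ≤ 1 / (v : ℝ) * farC z Y a2 a3 g1 g2 g3 v := by
          apply mul_le_mul_of_nonneg_right _ hC
          exact div_le_div_of_nonneg_right (Sx_le_one x v) hv0.le
        refine s1.trans ?_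
        unfold farC
        by_cases hvY : v ≤ Y
        · rw [if_pos hvY, if_pos ⟨hc.1, hvY⟩, if_neg (by omega : ¬ Y < v)]
          have e1 : 1 / (v : ℝ) * (gst a2 a3 g1 g2 g3 v * (0.5761 / Real.log v))
              = 0.5761 * (gst a2 a3 g1 g2 g3 v * h v) := by
            simp only [hh]
            field_simp
          rw [e1]
          have := hh0 v
          unfold gst
          split_ifs
          all_goals first | omega | nlinarith
        · rw [if_neg hvY, if_neg (fun h0 => hvY h0.2), if_neg (fun h0 => hvY h0.2),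
            if_neg (fun h0 => hvY h0.2), if_pos (by omega : Y < v)]
          have e1 : 1 / (v : ℝ) * (1.0123 / Real.log ((z : ℝ) * v)) = 1.0123 * k v := by
            simp only [hk]
            field_simp
          rw [e1]
          linarith
      · rw [if_neg hc]
        have := mul_nonneg hg1 c1
        have := mul_nonneg (sub_nonneg.2 h12) c2
        have := mul_nonneg (sub_nonneg.2 hg23) c3
        linarith
    refine key.trans ?_
    rw [Finset.sum_add_distrib, ← Finset.mul_sum, ← Finset.mul_sum, Finset.sum_add_distrib,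
      Finset.sum_add_distrib, ← Finset.mul_sum, ← Finset.mul_sum, ← Finset.mul_sum]
    have d1 := mul_le_mul_of_nonneg_left f1 hg1
    have d2 := mul_le_mul_of_nonneg_left f2 (sub_nonneg.2 h12)
    have d3 := mul_le_mul_of_nonneg_left f3 (sub_nonneg.2 hg23)
    simp only [hh, hk]
    linarith

/-- Taylor polynomial bounding `exp`. -/
noncomputable def tay (t : ℝ) : ℝ :=
  1 + t * (1 + t * (1 + t * (1 + t * (1 + t * (1 + t * (1 + t * (1 + t * 1.125 / 8) / 7) / 6) / 5)
    / 4) / 3) / 2)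

theorem exp_le_tay {t g : ℝ} (h0 : 0 ≤ t) (h1 : t ≤ 1) (h : tay t ≤ g) : Real.exp t ≤ g :=
  (exp_taylor_up h0 h1).trans h

theorem log_le_of_tay {x y : ℝ} (hx : 0 < x) (hy : 0 ≤ y)
    (h : x ≤ 1 + y + y ^ 2 / 2 + y ^ 3 / 6 + y ^ 4 / 24 + y ^ 5 / 120 + y ^ 6 / 720) :
    Real.log x ≤ y := by
  rw [Real.log_le_iff_le_exp hx]
  have h1 := Real.sum_le_exp_of_nonneg hy 7
  simp only [Finset.sum_range_succ, Finset.sum_range_zero, Nat.factorial] at h1
  push_cast at h1
  norm_num at h1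
  linarith

theorem log_three_half : Real.log (1 + 1 / 2) ≤ 0.40547 :=
  log_le_of_tay (by norm_num) (by norm_num) (by norm_num)

theorem far_small (z x : ℕ) (l u y t : ℝ) (hz : IsPrimePow z) (hx : x ≤ 50000000)
    (hz2 : z ^ 2 ≤ 10000) (hl : l ≤ Real.log z) (hu : Real.log z ≤ u) (hl0 : 0 < l) (hy : 0 ≤ y)
    (hyu : 1 + u / 9.2103 ≤ 1 + y + y ^ 2 / 2 + y ^ 3 / 6 + y ^ 4 / 24 + y ^ 5 / 120 + y ^ 6 / 720)
    (num : 1.0123 * (y / l + 0.4443 / (9.2103 * (l + 9.2103))) ≤ t) : SumOK z x 10000 t := by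
  have hz1 : (1 : ℝ) < z := by exact_mod_cast hz.one_lt
  have h4 := log4_bounds
  have e4 : Real.log ((10000 : ℕ) : ℝ) = Real.log 10000 := by norm_num
  refine far_sumOK z x 10000 10000 10000 0 0 0 t hz hx le_rfl hz2 le_rfl le_rfl le_rfl le_rfl
    le_rfl le_rfl (fun v _ _ h1 h2 => absurd h2 (by omega)) ?_
  rw [e4, show ((10000 : ℕ) : ℝ) = 10000 by norm_num, Real.log_mul (by linarith) (by norm_num)]
  refine le_trans ?_ num
  have hlz : 0 < Real.log (z : ℝ) := by linarith
  have h5 : Real.log (1 + Real.log z / Real.log 10000) ≤ y := by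
    apply log_le_of_tay (by positivity) hy
    refine le_trans ?_ hyu
    have : Real.log z / Real.log 10000 ≤ u / 9.2103 := by
      apply div_le_div₀ (by linarith) hu (by norm_num) h4.1
    linarith
  have h6 : 1 / Real.log z * Real.log (1 + Real.log z / Real.log 10000) ≤ y / l := by
    rw [one_div_mul_eq_div]
    exact div_le_div₀ hy h5 hl0 hl
  have h7 : 0.4443 / (Real.log 10000 * (Real.log z + Real.log 10000))
      ≤ 0.4443 / (9.2103 * (l + 9.2103)) := by
    apply div_le_div_of_nonneg_left (by norm_num) (by positivity)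
    exact mul_le_mul h4.1 (by linarith) (by linarith) (by linarith)
  linarith

theorem far_big (z x a2 a3 : ℕ) (l u l2 u2 l3 u3 A1 A2 A3 g1 g2 g3 t : ℝ) (hz : IsPrimePow z)
    (hx : x ≤ 50000000) (hz2 : 10000 ≤ z ^ 2) (h2 : 10000 ≤ a2) (h23 : a2 ≤ a3)
    (h3 : a3 ≤ z ^ 2) (hl : l ≤ Real.log z) (hu : Real.log z ≤ u) (hl2 : l2 ≤ Real.log a2)
    (hu2 : Real.log a2 ≤ u2) (hl3 : l3 ≤ Real.log a3) (hu3 : Real.log a3 ≤ u3)
    (hl0 : 0 < l) (hl20 : 0 < l2) (hl30 : 0 < l3)
    (hA1 : 1 / 6 ≤ A1) (hA1' : A1 ≤ 1) (hA2 : 1 / 6 ≤ A2) (hA2' : A2 ≤ 1) (hA3 : 1 / 6 ≤ A3)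
    (hA3' : A3 ≤ 1)
    (b1 : u2 + 0.4441 ≤ (1 + A1) * ((l + 9.2103) / 2))
    (b2 : u3 + 0.4441 ≤ (1 + A2) * ((l + l2) / 2))
    (b3 : 2 * u + 0.4441 ≤ (1 + A3) * ((l + l3) / 2))
    (e1 : tay (A1 - 1 / 12 + 0.0012) ≤ g1) (e2 : tay (A2 - 1 / 12 + 0.0012) ≤ g2)
    (e3 : tay (A3 - 1 / 12 + 0.0012) ≤ g3) (hg12 : g1 ≤ g2) (hg23 : g2 ≤ g3)
    (num : 0.5761 * (g1 * (1 / 9.2103 - 1 / (2 * u) + 0.4443 / 9.2103 ^ 2)
      + (g2 - g1) * (1 / l2 - 1 / (2 * u) + 0.4443 / l2 ^ 2)
      + (g3 - g2) * (1 / l3 - 1 / (2 * u) + 0.4443 / l3 ^ 2))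
      + 1.0123 * (1 / l * (0.40547 + 0.07405 / l)) ≤ t) : SumOK z x 10000 t := by
  have hz1 : (1 : ℝ) < z := by exact_mod_cast hz.one_lt
  have h4 := log4_bounds
  have e4 : Real.log ((10000 : ℕ) : ℝ) = Real.log 10000 := by norm_num
  have hlz : 0 < Real.log (z : ℝ) := by linarith
  have hz11 : 11 ≤ z := by nlinarith
  have eY : Real.log ((z ^ 2 : ℕ) : ℝ) = 2 * Real.log z := by
    push_cast
    rw [Real.log_pow]
    norm_num
  have E1 := exp_le_tay (by linarith) (by linarith) e1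
  have E2 := exp_le_tay (by linarith) (by linarith) e2
  have E3 := exp_le_tay (by linarith) (by linarith) e3
  have hg1 : 0 ≤ g1 := (Real.exp_pos _).le.trans E1
  refine far_sumOK z x (z ^ 2) a2 a3 g1 g2 g3 t hz hx hz2 le_rfl h2 h23 h3 hg1 hg12 hg23 ?_ ?_
  · intro v hv hvz hv4 hvY
    unfold gst
    split_ifs with c1 c2
    · exact ⟨_, far_mid z x v 10000 a2 A1 _ l 9.2103 u2 hz hv hvz hx hz11 le_rfl hv4 c1 hA1 hA1' hl
        (by rw [e4]; exact h4.1) hu2 b1 le_rfl, E1⟩
    · exact ⟨_, far_mid z x v a2 a3 A2 _ l l2 u3 hz hv hvz hx hz11 h2 (by omega) c2 hA2 hA2' hl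
        hl2 hu3 b2 le_rfl, E2⟩
    · exact ⟨_, far_mid z x v a3 (z ^ 2) A3 _ l l3 (2 * u) hz hv hvz hx hz11 (h2.trans h23)
        (by omega) hvY hA3 hA3' hl hl3 (by rw [eY]; linarith) b3 le_rfl, E3⟩
  · refine le_trans ?_ num
    rw [Real.log_mul (by linarith) (by positivity), eY, e4]
    have hF : ∀ a la : ℝ, 0 < la → la ≤ Real.log a →
        1 / Real.log a - 1 / (2 * Real.log z) + 0.4443 / Real.log a ^ 2
          ≤ 1 / la - 1 / (2 * u) + 0.4443 / la ^ 2 := by
      intro a la h0 h1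
      have i1 : 1 / Real.log a ≤ 1 / la := one_div_le_one_div_of_le h0 h1
      have i2 : 1 / (2 * u) ≤ 1 / (2 * Real.log z) :=
        one_div_le_one_div_of_le (by linarith) (by linarith)
      have i3 : 0.4443 / Real.log a ^ 2 ≤ 0.4443 / la ^ 2 := by
        apply div_le_div_of_nonneg_left (by norm_num) (by positivity)
        exact pow_le_pow_left₀ h0.le h1 2
      linarith
    have F1 := mul_le_mul_of_nonneg_left (hF 10000 9.2103 (by norm_num) h4.1) hg1
    have F2 := mul_le_mul_of_nonneg_left (hF a2 l2 hl20 hl2) (sub_nonneg.2 hg12)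
    have F3 := mul_le_mul_of_nonneg_left (hF a3 l3 hl30 hl3) (sub_nonneg.2 hg23)
    have e5 : Real.log (z : ℝ) / (2 * Real.log z) = 1 / 2 := by field_simp
    have e6 : 0.4443 / (2 * Real.log z * (Real.log z + 2 * Real.log z))
        = 1 / Real.log z * (0.07405 / Real.log z) := by
      field_simp
      norm_num
    have e7 : 1 / Real.log z * Real.log (1 + Real.log z / (2 * Real.log z))
        + 0.4443 / (2 * Real.log z * (Real.log z + 2 * Real.log z))
        ≤ 1 / l * (0.40547 + 0.07405 / l) := by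
      rw [e5, e6, ← mul_add]
      have i1 : 1 / Real.log z ≤ 1 / l := one_div_le_one_div_of_le hl0 hl
      have i2 : 0.07405 / Real.log z ≤ 0.07405 / l :=
        div_le_div_of_nonneg_left (by norm_num) hl0 hl
      have i3 := log_three_half
      have i4 : 0 ≤ Real.log (1 + 1 / 2) := Real.log_nonneg (by norm_num)
      apply mul_le_mul i1 (by linarith) (by positivity) (by positivity)
    linarith

end Pool.Agent.EZ
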