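import Pool.Agent.EZ.EngPrime

/-!
# The numerical engine: proper powers
-/

set_option autoImplicit false

namespace Pool.Agent.EZ

open Finset

theorem hh_pos' {z : ℕ} (hz : 2 ≤ z) : 0 < hh (z : ℝ) := by
  have h1 : (0 : ℝ) < z := by
    have : 0 < z := by omega
    exact_mod_cast this
  have h2 : 0 < Real.log z := Real.log_pos (by
    have : 1 < z := by omega
    exact_mod_cast this)
  unfold hh
  positivity

theorem pow_of_run (hR : Stmt_Run) (hA : Stmt_Abs) (hF : Stmt_Far) {z q x zlo c F cAn : ℕ}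
    (hmem : (z, F) ∈ farT) (hz : IsPrimePow z) (hq : q = z.minFac) (hx : x = ck z z.minFac 0)
    (h11 : 11 ≤ z) (h70 : 70000 ≤ x) (hc : 64 ≤ c ∧ c ≤ 2521 ∧ x ≤ 5000 * c)
    (hz1 : (zlo : ℝ) ≤ (S9 : ℝ) * Real.log z) (hz2 : (S9 : ℝ) * Real.log z ≤ (zlo : ℝ) + 2)
    (hcA : (cAn : ℝ) / 1000 ≤ cA z) (h : powK z q x zlo c F cAn = true) : PowOK z (cA z) := by
  have hr : Run z q x zlo c := ⟨hz, hq, h11, h70, hc.2.2, hc.1, hz1, hz2⟩
  obtain ⟨ha, hl⟩ := cond_true_of h
  have hf := hF _ hmem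
  have hf' : SumOK z x 10000 ((F : ℝ) / 100000) := by rw [hx]; exact hf
  obtain ⟨acc, h1, h2⟩ := hA z q x zlo c _ _ hr hc.2.1 hf' ha
  obtain ⟨top, lin, h3, h4, -⟩ := hR z q x zlo c _ hr hc.2.1 hl
  rw [Nat.ble_eq] at h1 h3
  have h1' : (zlo + 2) * (acc + F * 10000) ≤ cAn * 1000000000000000 := h1
  have h3' : (zlo + 2) * lin ≤ 1200000000000000000 := h3
  have r1 : ((zlo : ℝ) + 2) * (acc + F * 10000) ≤ cAn * 1000000000000000 := by exact_mod_cast h1'
  have r3 : ((zlo : ℝ) + 2) * lin ≤ 1200000000000000000 := by exact_mod_cast h3'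
  have hhp := hh_pos' (show 2 ≤ z by omega)
  constructor
  · intro M hM
    rw [← hx]
    refine (h2 M hM).trans (mul_le_mul_of_nonneg_right ?_ hhp.le)
    refine le_trans ?_ hcA
    have h5 := mul_le_mul_of_nonneg_right hz2 (show (0 : ℝ) ≤ (acc : ℝ) + F * 10000 by positivity)
    have h6 := h5.trans r1
    rw [S9r] at h6 ⊢
    linarith
  · intro M hM VS hVS hMV
    rw [← hx]
    refine (h4 M hM VS hVS hMV).trans ?_
    have hhit : 0 ≤ hit x VS M :=
      PU_nonneg VS (Sx x) (fun v : ℕ => (v : ℝ)) (fun v _ => Sx_nonneg x v)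
        (fun v hv => by
          have := (hVS v hv).one_lt
          exact_mod_cast this) _
    apply mul_le_mul_of_nonneg_right _ hhit
    apply mul_le_mul_of_nonneg_right _ hhp.le
    have h5 := mul_le_mul_of_nonneg_right hz2 (show (0 : ℝ) ≤ (lin : ℝ) by positivity)
    have h6 := h5.trans r3
    rw [S9r] at h6 ⊢
    linarith

end Pool.Agent.EZ
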