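import Pool.Agent.EZ.EngDefs2

/-!
# Kernel runs for primes
-/

set_option autoImplicit false

namespace Pool.Agent.EZ

def prL1 : List (ℕ × ℕ × ℕ × ℕ × ℕ × ℕ × ℕ) := [(107, 4672828833, 211, 293, 379, 491, 631), (109, 4691347881, 229, 293, 379, 491, 631), (167, 5117993811, 347, 449, 577, 757, 997), (173, 5153291593, 347, 449, 631, 757, 997), (271, 5602118819, 577, 757, 911, 1201, 1597), (277, 5624017505, 577, 757, 997, 1321, 1597), (389, 5963579342, 829, 1093, 1321, 1753, 2297)]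

theorem prR1 : (prL1.all fun t => primeK t.1 t.2.1 t.2.2.1 t.2.2.2.1 t.2.2.2.2.1 t.2.2.2.2.2.1 t.2.2.2.2.2.2) = true := by
  decide +kernel

end Pool.Agent.EZ
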