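import Pool.Agent.EZ.EngDefs2

/-!
# Kernel runs for primes
-/

set_option autoImplicit false

namespace Pool.Agent.EZ

def prL2 : List (ℕ × ℕ × ℕ × ℕ × ℕ × ℕ × ℕ) := [(37, 3610917911, 317, 317, 317, 317, 317), (103, 4634728987, 211, 271, 347, 449, 577), (137, 4919980924, 271, 379, 491, 631, 829), (191, 5252273427, 379, 529, 691, 911, 1093), (251, 5525452938, 529, 691, 911, 1201, 1453), (283, 5645446896, 577, 757, 997, 1321, 1753), (383, 5948034988, 829, 997, 1321, 1753, 2297)]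

theorem prR2 : (prL2.all fun t => primeK t.1 t.2.1 t.2.2.1 t.2.2.2.1 t.2.2.2.2.1 t.2.2.2.2.2.1 t.2.2.2.2.2.2) = true := by
  decide +kernel

end Pool.Agent.EZ
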