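import Pool.Agent.EZ.EngDefs2

/-!
# Kernel runs for primes
-/

set_option autoImplicit false

namespace Pool.Agent.EZ

def prL3 : List (ℕ × ℕ × ℕ × ℕ × ℕ × ℕ × ℕ) := [(13, 2564949356, 317, 317, 317, 317, 317), (23, 3135494214, 317, 317, 317, 317, 317), (61, 4110873863, 121, 163, 211, 271, 347), (67, 4204692618, 131, 179, 229, 293, 379), (181, 5198497030, 379, 491, 631, 829, 1093), (257, 5549076083, 529, 691, 911, 1201, 1597), (293, 5680172608, 631, 757, 997, 1321, 1753), (373, 5921578418, 757, 997, 1321, 1753, 2297)]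

theorem prR3 : (prL3.all fun t => primeK t.1 t.2.1 t.2.2.1 t.2.2.2.1 t.2.2.2.2.1 t.2.2.2.2.2.1 t.2.2.2.2.2.2) = true := by
  decide +kernel

end Pool.Agent.EZ
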