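import Pool.Agent.EZ.EngDefs2

/-!
# Kernel runs for primes
-/

set_option autoImplicit false

namespace Pool.Agent.EZ

def prL4 : List (ℕ × ℕ × ℕ × ℕ × ℕ × ℕ × ℕ) := [(11, 2397895271, 317, 317, 317, 317, 317), (53, 3970291912, 103, 139, 179, 229, 293), (71, 4262679876, 139, 193, 251, 317, 409), (127, 4844187085, 251, 347, 449, 577, 757), (197, 5283203727, 409, 529, 691, 911, 1201), (233, 5451038452, 491, 631, 829, 1093, 1321), (307, 5726847746, 631, 829, 1093, 1453, 1753), (379, 5937536204, 757, 997, 1321, 1753, 2297)]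

theorem prR4 : (prL4.all fun t => primeK t.1 t.2.1 t.2.2.1 t.2.2.2.1 t.2.2.2.2.1 t.2.2.2.2.2.1 t.2.2.2.2.2.2) = true := by
  decide +kernel

end Pool.Agent.EZ
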