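import Pool.Agent.EZ.EngDefs2

/-!
# Kernel runs for primes
-/

set_option autoImplicit false

namespace Pool.Agent.EZ

def prL5 : List (ℕ × ℕ × ℕ × ℕ × ℕ × ℕ × ℕ) := [(101, 4615120515, 211, 271, 347, 449, 577), (113, 4727387817, 229, 293, 379, 491, 691), (157, 5056245804, 317, 409, 529, 691, 911), (199, 5293304823, 409, 529, 691, 911, 1201), (229, 5433722002, 491, 631, 829, 1093, 1321), (317, 5758901772, 631, 829, 1093, 1453, 1913), (367, 5905361847, 757, 997, 1321, 1753, 2099)]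

theorem prR5 : (prL5.all fun t => primeK t.1 t.2.1 t.2.2.1 t.2.2.2.1 t.2.2.2.2.1 t.2.2.2.2.2.1 t.2.2.2.2.2.2) = true := by
  decide +kernel

end Pool.Agent.EZ
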