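import Pool.Agent.EZ.EngDefs2

/-!
# Kernel runs for primes
-/

set_option autoImplicit false

namespace Pool.Agent.EZ

def prL6 : List (ℕ × ℕ × ℕ × ℕ × ℕ × ℕ × ℕ) := [(19, 2944438978, 317, 317, 317, 317, 317), (31, 3433987203, 317, 317, 317, 317, 317), (83, 4418840606, 163, 211, 293, 379, 491), (211, 5351858132, 449, 577, 757, 997, 1201), (239, 5476463550, 491, 631, 829, 1093, 1453), (313, 5746203189, 631, 829, 1093, 1453, 1913), (359, 5883322387, 757, 997, 1321, 1597, 2099)]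

theorem prR6 : (prL6.all fun t => primeK t.1 t.2.1 t.2.2.1 t.2.2.2.1 t.2.2.2.2.1 t.2.2.2.2.2.1 t.2.2.2.2.2.2) = true := by
  decide +kernel

end Pool.Agent.EZ
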