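import Pool.Agent.EZ.EngDefs2

/-!
# Kernel runs for primes
-/

set_option autoImplicit false

namespace Pool.Agent.EZ

def prL7 : List (ℕ × ℕ × ℕ × ℕ × ℕ × ℕ × ℕ) := [(59, 4077537442, 121, 151, 193, 251, 347), (73, 4290459440, 151, 193, 251, 317, 409), (131, 4875197322, 271, 347, 449, 577, 757), (149, 5003946304, 317, 409, 529, 691, 911), (163, 5093750199, 347, 449, 577, 757, 997), (269, 5594711378, 577, 757, 911, 1201, 1597), (311, 5739792911, 631, 829, 1093, 1453, 1913), (353, 5866468055, 757, 997, 1201, 1597, 2099)]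

theorem prR7 : (prL7.all fun t => primeK t.1 t.2.1 t.2.2.1 t.2.2.2.1 t.2.2.2.2.1 t.2.2.2.2.2.1 t.2.2.2.2.2.2) = true := by
  decide +kernel

end Pool.Agent.EZ
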