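import Pool.Agent.EZ.EngDefs2

/-!
# Kernel runs for primes
-/

set_option autoImplicit false

namespace Pool.Agent.EZ

def prL8 : List (ℕ × ℕ × ℕ × ℕ × ℕ × ℕ × ℕ) := [(17, 2833213343, 317, 317, 317, 317, 317), (41, 3713572065, 317, 317, 317, 317, 317), (97, 4574710977, 193, 251, 347, 449, 577), (223, 5407171770, 449, 577, 757, 997, 1321), (241, 5484796932, 491, 631, 829, 1093, 1453), (331, 5802118374, 691, 911, 1201, 1453, 1913), (349, 5855071921, 757, 911, 1201, 1597, 2099)]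

theorem prR8 : (prL8.all fun t => primeK t.1 t.2.1 t.2.2.1 t.2.2.2.1 t.2.2.2.2.1 t.2.2.2.2.2.1 t.2.2.2.2.2.2) = true := by
  decide +kernel

end Pool.Agent.EZ
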