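import Pool.Agent.EZ.EngDefs2

/-!
# Kernel runs for primes
-/

set_option autoImplicit false

namespace Pool.Agent.EZ

def prL9 : List (ℕ × ℕ × ℕ × ℕ × ℕ × ℕ × ℕ) := [(43, 3761200114, 317, 317, 317, 317, 317), (89, 4488636368, 179, 229, 317, 409, 529), (151, 5017279835, 317, 409, 529, 691, 911), (193, 5262690187, 409, 529, 691, 911, 1093), (227, 5424950016, 491, 631, 829, 997, 1321), (337, 5820082929, 691, 911, 1201, 1597, 2099), (347, 5849324778, 691, 911, 1201, 1597, 2099)]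

theorem prR9 : (prL9.all fun t => primeK t.1 t.2.1 t.2.2.1 t.2.2.2.1 t.2.2.2.2.1 t.2.2.2.2.2.1 t.2.2.2.2.2.2) = true := by
  decide +kernel

end Pool.Agent.EZ
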