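import Pool.Agent.EZ.EngDefs2

/-!
# Kernel runs for powers
-/

set_option autoImplicit false

namespace Pool.Agent.EZ

def pwL : List (ℕ × ℕ × ℕ × ℕ × ℕ × ℕ × ℕ) := [(16, 2, 70000, 2772588721, 757, 10900, 985), (25, 5, 188000, 3218875823, 757, 10175, 965), (27, 3, 189000, 3295836865, 757, 10501, 965), (32, 2, 192000, 3465735901, 757, 10391, 965), (49, 7, 420000, 3891820297, 757, 11171, 965), (64, 2, 420000, 4158883082, 757, 10120, 965), (81, 3, 540000, 4394449153, 757, 10567, 965), (121, 11, 1100000, 4795790544, 757, 10265, 900), (125, 5, 1000000, 4828313736, 757, 11036, 965), (128, 2, 640000, 4852030262, 757, 9760, 965), (169, 13, 1560000, 5129898713, 757, 10319, 900), (243, 3, 1620000, 5493061442, 757, 10518, 965), (256, 2, 1280000, 5545177443, 757, 9829, 965), (289, 17, 2720000, 5666426687, 757, 10254, 900), (343, 7, 2940000, 5837730446, 757, 10978, 965), (361, 19, 3420000, 5888877957, 757, 10249, 900), (512, 2, 2560000, 6238324624, 757, 9903, 965), (529, 23, 5060000, 6270988430, 1093, 10157, 900),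 (625, 5, 5000000, 6437751648, 1093, 10648, 965), (729, 3, 4860000, 6591673731, 997, 10329, 965), (841, 29, 8120000, 6734591658, 1753, 10035, 900), (961, 31, 9300000, 6867974407, 1913, 9983, 900), (1024, 2, 5120000, 6931471804, 1093, 9913, 965)]

theorem pwR : (pwL.all fun t => powK t.1 t.2.1 t.2.2.1 t.2.2.2.1 t.2.2.2.2.1 t.2.2.2.2.2.1 t.2.2.2.2.2.2) = true := by
  decide +kernel

end Pool.Agent.EZ
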