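import Pool.Agent.EZ.MertensMain

/-!
# Explicit estimates for `A1 N = ∑_{v ≤ N prime power} log v / v` (helper46)
-/

set_option autoImplicit false

namespace Pool.Agent.EZ

open Finset ArithmeticFunction
open scoped Nat

/-- `A1 N = ∑_{v ≤ N prime power} log v / v`. -/
noncomputable def A1 (N : ℕ) : ℝ := ∑ n ∈ (Icc 1 N).filter IsPrimePow, Real.log n / n

/-- `H1 N = ∑_{q ≤ N prime} log q / (q - 1) ^ 2`. -/
noncomputable def H1 (N : ℕ) : ℝ := ∑ n ∈ (Icc 1 N).filter Nat.Prime, Real.log n / ((n : ℝ) - 1) ^ 2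

theorem A1_succ (n : ℕ) : A1 (n + 1) = A1 n
    + (if IsPrimePow (n + 1) then Real.log ((n + 1 : ℕ) : ℝ) / ((n + 1 : ℕ) : ℝ) else 0) := by
  unfold A1
  rw [Finset.sum_filter, Finset.sum_filter, Finset.sum_Icc_succ_top (by omega)]

theorem H1_succ (n : ℕ) : H1 (n + 1) = H1 n
    + (if Nat.Prime (n + 1) then Real.log ((n + 1 : ℕ) : ℝ) / (((n + 1 : ℕ) : ℝ) - 1) ^ 2
      else 0) := by
  unfold H1
  rw [Finset.sum_filter, Finset.sum_filter, Finset.sum_Icc_succ_top (by omega)]

theorem kp_ne_zero_iff {n : ℕ} (hn : 2 ≤ n) (hn2 : n < 101 ^ 2) : kp n ≠ 0 ↔ IsPrimePow n := by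
  have h := vonMangoldt_kp hn hn2
  constructor
  · intro hk
    rw [if_neg hk] at h
    by_contra hcon
    rw [vonMangoldt_eq_zero_iff.2 hcon] at h
    have h1 : 0 < Real.log (n : ℝ) := Real.log_pos (by exact_mod_cast hn)
    have h2 : (0 : ℝ) < kp n := by exact_mod_cast Nat.pos_of_ne_zero hk
    have := div_pos h1 h2
    linarith
  · intro hp hk
    rw [if_pos hk] at h
    exact (vonMangoldt_eq_zero_iff.1 h) hp

theorem kp_eq_one_of_prime {n : ℕ} (hn : n.Prime) (hn2 : n < 101 ^ 2) : kp n = 1 := by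
  have h := vonMangoldt_kp hn.two_le hn2
  have hk := (kp_ne_zero_iff hn.two_le hn2).2 hn.isPrimePow
  rw [if_neg hk, vonMangoldt_apply_prime hn] at h
  have h1 : 0 < Real.log (n : ℝ) := Real.log_pos (by exact_mod_cast hn.two_le)
  have h2 : (kp n : ℝ) ≠ 0 := by exact_mod_cast hk
  rw [eq_div_iff h2] at h
  have h3 : (kp n : ℝ) = 1 := by
    have : Real.log (n : ℝ) * (kp n - 1) = 0 := by linarith
    rcases mul_eq_zero.1 this with h4 | h4
    · linarith
    · linarith
  exact_mod_cast h3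

/-- The loop: state `n`, bounds for `log n`, `A1 n`, `H1 n`. -/
noncomputable def loop1 (T : ℕ → ℕ → ℕ → ℕ → ℕ → ℕ → ℕ → Bool) (k : ℕ) :
    ℕ → ℕ → ℕ → ℕ → ℕ → ℕ → Bool :=
  Nat.rec (motive := fun _ => ℕ → ℕ → ℕ → ℕ → ℕ → ℕ → Bool) (fun _ _ _ _ _ _ => true)
    (fun _ ih n Ll Lu Al Au Hu =>
      frc (Nat.succ n) fun n' =>
      frc (Nat.add n n') fun m =>
      frc (dlo m) fun d =>
      frc (Nat.add Ll d) fun Ll' =>
      frc (Nat.add Lu (Nat.add d (der m))) fun Lu' =>
      frc (kp n') fun κ =>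
      cond (Nat.beq κ 0)
        (cond (T n' Ll' Lu' Al Al Au Hu) (ih n' Ll' Lu' Al Au Hu) false)
        (frc (Nat.add Al (Nat.div Ll' n')) fun Al' =>
          frc (Nat.add Au (Nat.succ (Nat.div Lu' n'))) fun Au' =>
          frc (cond (Nat.beq κ 1) (Nat.add Hu (Nat.succ (Nat.div Lu' (Nat.mul n n)))) Hu) fun Hu' =>
          cond (T n' Ll' Lu' Al Al' Au' Hu') (ih n' Ll' Lu' Al' Au' Hu') false)) k

/-- The invariant. -/
def Inv1 (n Ll Lu Al Au Hu : ℕ) : Prop :=
  (Ll : ℝ) ≤ SC * Real.log n ∧ SC * Real.log n ≤ Lu ∧ (Al : ℝ) ≤ SC * A1 n ∧ SC * A1 n ≤ Au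
    ∧ SC * H1 n ≤ Hu

theorem loop1_sound (T : ℕ → ℕ → ℕ → ℕ → ℕ → ℕ → ℕ → Bool) (Q : ℕ → Prop)
    (hT : ∀ n Ll Lu Al' Al Au Hu : ℕ, Inv1 (n + 1) Ll Lu Al Au Hu → (Al' : ℝ) ≤ SC * A1 n →
      T (n + 1) Ll Lu Al' Al Au Hu = true → Q (n + 1)) :
    ∀ k n Ll Lu Al Au Hu, 1 ≤ n → n + k < 101 ^ 2 → Inv1 n Ll Lu Al Au Hu →
      loop1 T k n Ll Lu Al Au Hu = true → ∀ N, n < N → N ≤ n + k → Q N := by
  intro k
  induction k with
  | zero => intro n Ll Lu Al Au Hu _ _ _ _ N h1 h2; omega
  | succ k ih =>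
    intro n Ll Lu Al Au Hu hn hk hinv hloop N h1 h2
    obtain ⟨i1, i2, i3, i4, i5⟩ := hinv
    have hm : Nat.add n (Nat.succ n) = 2 * n + 1 := by
      change n + (n + 1) = 2 * n + 1
      ring
    have e0 : loop1 T (k + 1) n Ll Lu Al Au Hu =
        frc (Nat.succ n) fun n' =>
      frc (Nat.add n n') fun m =>
      frc (dlo m) fun d =>
      frc (Nat.add Ll d) fun Ll' =>
      frc (Nat.add Lu (Nat.add d (der m))) fun Lu' =>
      frc (kp n') fun κ =>
      cond (Nat.beq κ 0)
        (cond (T n' Ll' Lu' Al Al Au Hu) (loop1 T k n' Ll' Lu' Al Au Hu) false)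
        (frc (Nat.add Al (Nat.div Ll' n')) fun Al' =>
          frc (Nat.add Au (Nat.succ (Nat.div Lu' n'))) fun Au' =>
          frc (cond (Nat.beq κ 1) (Nat.add Hu (Nat.succ (Nat.div Lu' (Nat.mul n n)))) Hu) fun Hu' =>
          cond (T n' Ll' Lu' Al Al' Au' Hu') (loop1 T k n' Ll' Lu' Al' Au' Hu') false) := rfl
    rw [e0] at hloop
    simp only [frc_eq] at hloop
    rw [hm] at hloop
    have hn0 : (0 : ℝ) < n := by exact_mod_cast hn
    set Ll' : ℕ := Nat.add Ll (dlo (2 * n + 1)) with hLl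
    set Lu' : ℕ := Nat.add Lu (Nat.add (dlo (2 * n + 1)) (der (2 * n + 1))) with hLu
    have b1 : (Ll' : ℝ) ≤ SC * Real.log ((n + 1 : ℕ) : ℝ) := by
      have h3 := dlo_le n hn
      have h4 : (Ll' : ℝ) = Ll + dlo (2 * n + 1) := by
        rw [hLl]; exact Nat.cast_add _ _
      rw [h4]
      push_cast
      linarith
    have b2 : SC * Real.log ((n + 1 : ℕ) : ℝ) ≤ (Lu' : ℝ) := by
      have h3 := le_dup n hn
      have h4 : (Lu' : ℝ) = Lu + (dlo (2 * n + 1) + der (2 * n + 1)) := by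
        rw [hLu]
        have := Nat.cast_add (R := ℝ) Lu (Nat.add (dlo (2 * n + 1)) (der (2 * n + 1)))
        have h5 := Nat.cast_add (R := ℝ) (dlo (2 * n + 1)) (der (2 * n + 1))
        exact this.trans (by rw [← h5]; rfl)
      rw [h4]
      push_cast
      linarith
    have hS : (0 : ℝ) < SC := by norm_num [SC]
    cases hκ : Nat.beq (kp n.succ) 0 with
    | true =>
      rw [hκ] at hloop
      simp only [cond_true] at hloop
      rw [Nat.beq_eq] at hκ
      have hκ' : kp (n + 1) = 0 := hκ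
      have hnpp : ¬ IsPrimePow (n + 1) := by
        rw [← kp_ne_zero_iff (by omega) (by omega)]
        simpa using hκ'
      have hnp : ¬ (n + 1).Prime := fun h => hnpp h.isPrimePow
      have hA : A1 (n + 1) = A1 n := by rw [A1_succ, if_neg hnpp]; simp
      have hP : H1 (n + 1) = H1 n := by rw [H1_succ, if_neg hnp]; simp
      have hinv' : Inv1 (n + 1) Ll' Lu' Al Au Hu := by
        refine ⟨b1, b2, ?_, ?_, ?_⟩
        · rw [hA]; exact i3
        · rw [hA]; exact i4
        · rw [hP]; exact i5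
      cases hTT : T n.succ Ll' Lu' Al Al Au Hu with
      | false => rw [hTT] at hloop; simp at hloop
      | true =>
        rw [hTT] at hloop
        simp only [cond_true] at hloop
        by_cases hN : N = n + 1
        · rw [hN]
          exact hT n Ll' Lu' Al Al Au Hu hinv' i3 hTT
        · exact ih (n + 1) Ll' Lu' Al Au Hu (by omega) (by omega) hinv' hloop N (by omega) (by omega)
    | false =>
      rw [hκ] at hloop
      simp only [cond_false] at hloop
      have hκ' : kp (n + 1) ≠ 0 := by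
        intro h
        have : Nat.beq (kp n.succ) 0 = true := by rw [Nat.beq_eq]; exact h
        rw [this] at hκ
        exact absurd hκ (by simp)
      have hpp : IsPrimePow (n + 1) := (kp_ne_zero_iff (by omega) (by omega)).1 hκ'
      have hn1 : (0 : ℝ) < ((n + 1 : ℕ) : ℝ) := by positivity
      have hA : A1 (n + 1) = A1 n + Real.log ((n + 1 : ℕ) : ℝ) / ((n + 1 : ℕ) : ℝ) := by
        rw [A1_succ, if_pos hpp]
      set Al' : ℕ := Nat.add Al (Nat.div Ll' n.succ) with hAl
      set Au' : ℕ := Nat.add Au (Nat.succ (Nat.div Lu' n.succ)) with hAu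
      set Hu' : ℕ := cond (Nat.beq (kp n.succ) 1) (Nat.add Hu (Nat.succ (Nat.div Lu' (Nat.mul n n)))) Hu
        with hHu
      have hinv' : Inv1 (n + 1) Ll' Lu' Al' Au' Hu' := by
        refine ⟨b1, b2, ?_, ?_, ?_⟩
        · have h4 : (Al' : ℝ) = Al + ((Ll' / (n + 1) : ℕ) : ℝ) := by
            rw [hAl]; exact Nat.cast_add _ _
          have h5 := Nat.cast_div_le (α := ℝ) (m := Ll') (n := n + 1)
          have h6 : (Ll' : ℝ) / ((n + 1 : ℕ) : ℝ) ≤ SC * Real.log ((n + 1 : ℕ) : ℝ) / ((n + 1 : ℕ) : ℝ) :=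
            div_le_div_of_nonneg_right b1 hn1.le
          have e7 : (SC : ℝ) * (A1 n + Real.log ((n + 1 : ℕ) : ℝ) / ((n + 1 : ℕ) : ℝ))
            = SC * A1 n + SC * Real.log ((n + 1 : ℕ) : ℝ) / ((n + 1 : ℕ) : ℝ) := by ring
          rw [h4, hA, e7]
          linarith
        · have h4 : (Au' : ℝ) = Au + (((Lu' / (n + 1) : ℕ) : ℝ) + 1) := by
            rw [hAu]
            have := Nat.cast_add (R := ℝ) Au (Nat.succ (Nat.div Lu' n.succ))
            refine this.trans ?_
            congr 1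
            exact Nat.cast_succ _
          have h5 := le_cast_div_add_one Lu' (n + 1) (by omega)
          have h6 : SC * Real.log ((n + 1 : ℕ) : ℝ) / ((n + 1 : ℕ) : ℝ) ≤ (Lu' : ℝ) / ((n + 1 : ℕ) : ℝ) :=
            div_le_div_of_nonneg_right b2 hn1.le
          have e7 : (SC : ℝ) * (A1 n + Real.log ((n + 1 : ℕ) : ℝ) / ((n + 1 : ℕ) : ℝ))
            = SC * A1 n + SC * Real.log ((n + 1 : ℕ) : ℝ) / ((n + 1 : ℕ) : ℝ) := by ring
          rw [h4, hA, e7]
          linarith
        · by_cases hpr : (n + 1).Prime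
          · have hk1 : kp n.succ = 1 := kp_eq_one_of_prime hpr (by omega)
            have h0 : Hu' = Nat.add Hu (Nat.succ (Nat.div Lu' (Nat.mul n n))) := by
              rw [hHu, hk1]; rfl
            have h4 : (Hu' : ℝ) = Hu + (((Lu' / (n * n) : ℕ) : ℝ) + 1) := by
              rw [h0]
              have := Nat.cast_add (R := ℝ) Hu (Nat.succ (Nat.div Lu' (Nat.mul n n)))
              refine this.trans ?_
              congr 1
              exact Nat.cast_succ _
            have h5 := le_cast_div_add_one Lu' (n * n) (by positivity)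
            have h6 : SC * Real.log ((n + 1 : ℕ) : ℝ) / ((n * n : ℕ) : ℝ) ≤ (Lu' : ℝ) / ((n * n : ℕ) : ℝ) :=
              div_le_div_of_nonneg_right b2 (by positivity)
            have e8 : (((n + 1 : ℕ) : ℝ) - 1) ^ 2 = ((n * n : ℕ) : ℝ) := by push_cast; ring
            have e7 : (SC : ℝ) * (H1 n + Real.log ((n + 1 : ℕ) : ℝ) / ((n * n : ℕ) : ℝ))
              = SC * H1 n + SC * Real.log ((n + 1 : ℕ) : ℝ) / ((n * n : ℕ) : ℝ) := by ring
            rw [h4, H1_succ, if_pos hpr, e8, e7]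
            linarith
          · have hP : H1 (n + 1) = H1 n := by rw [H1_succ, if_neg hpr]; simp
            rw [hP]
            refine i5.trans ?_
            rw [hHu]
            cases Nat.beq (kp n.succ) 1 with
            | false => exact le_refl _
            | true =>
              have : Hu ≤ Nat.add Hu (Nat.succ (Nat.div Lu' (Nat.mul n n))) := Nat.le_add_right _ _
              exact_mod_cast this
      cases hTT : T n.succ Ll' Lu' Al Al' Au' Hu' with
      | false => rw [hTT] at hloop; simp at hloop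
      | true =>
        rw [hTT] at hloop
        simp only [cond_true] at hloop
        by_cases hN : N = n + 1
        · rw [hN]
          exact hT n Ll' Lu' Al Al' Au' Hu' hinv' i3 hTT
        · exact ih (n + 1) Ll' Lu' Al' Au' Hu' (by omega) (by omega) hinv' hloop N (by omega)
            (by omega)

/-- The state at `2`. -/
theorem inv1_two : Inv1 2 693147180300 693147180800 346573590150 346573590400 693147180800 := by
  have h1 := Real.log_two_gt_d9
  have h2 := Real.log_two_lt_d9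
  have hA : A1 2 = Real.log 2 / 2 := by
    have : A1 1 = 0 := by
      unfold A1
      simp [Finset.sum_filter, not_isPrimePow_one]
    have h3 := A1_succ 1
    rw [this, if_pos (show IsPrimePow (1 + 1) from Nat.prime_two.isPrimePow)] at h3
    have h4 : A1 2 = A1 (1 + 1) := rfl
    rw [h4, h3]
    norm_num
  have hP : H1 2 = Real.log 2 := by
    have : H1 1 = 0 := by
      unfold H1
      simp [Finset.sum_filter, Nat.not_prime_one]
    have h3 := H1_succ 1
    rw [this, if_pos (show Nat.Prime (1 + 1) from Nat.prime_two)] at h3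
    have h4 : H1 2 = H1 (1 + 1) := rfl
    rw [h4, h3]
    norm_num
  unfold Inv1
  rw [hA, hP]
  have hS : (SC : ℝ) = 1000000000000 := by norm_num [SC]
  rw [hS]
  push_cast
  refine ⟨?_, ?_, ?_, ?_, ?_⟩ <;> linarith

/-- List lookup. -/
def getl : ℕ → List ℕ → ℕ
  | _, [] => 0
  | 0, a :: _ => a
  | n + 1, _ :: l => getl n l

/-- Table for `2 ≤ n < 128`. -/
def e1List : List ℕ := [2479, 3264, 4499, 5894, 4353, 5797, 7219, 8607, 7653, 8963, 8163, 9395, 8705, 8059, 9186, 10281, 9740, 10777, 10289, 9824, 9380, 10317, 9909, 10804, 10427, 11284, 10933, 11755, 11427, 12218, 12993, 12694, 12404, 12123, 11849, 12558, 12298, 12045, 11798, 12463, 12228, 12872, 12648, 12428, 12213, 12821, 12615, 13208, 13009, 12815, 12625, 13187, 13004, 12823, 12646, 12472, 12301, 12825, 12659, 13171, 13011, 12853, 13348, 13195, 13045, 13524, 13378, 13234, 13092, 13553, 13415, 13867, 13732, 13600, 13469, 13340, 13213, 13640, 13516, 13936, 13815, 14227, 14109, 13992, 13876, 13762, 13649,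 14042, 13931, 13822, 13714, 13607, 13501, 13396, 13293, 13662, 13560, 13460, 13360, 13719, 13621, 13974, 13879, 13784, 13690, 14034, 13941, 14281, 14190, 14100, 14011, 14342, 14254, 14168, 14082, 13997, 13912, 13829, 13746, 14060, 13978, 13897, 13817, 14124, 14044, 14347]

/-- `A1 n ≥ log x - 1 + e1 n / 10^4` for `n ≤ x ≤ n + 1`. -/
def e1 (n : ℕ) : ℕ :=
  (cond (Nat.ble 8000 n) 16276 (cond (Nat.ble 7000 n) 16253 (cond (Nat.ble 6000 n) 16243 (cond (Nat.ble 5000 n) 16210 (cond (Nat.ble 4000 n) 16187 (cond (Nat.ble 3000 n) 16093 (cond (Nat.ble 2500 n) 16050 (cond (Nat.ble 2000 n) 16000 (cond (Nat.ble 1500 n) 15929 (cond (Nat.ble 1250 n) 15796 (cond (Nat.ble 1000 n) 15767 (cond (Nat.ble 850 n) 15725 (cond (Nat.ble 700 n) 15622 (cond (Nat.ble 600 n) 15553 (cond (Nat.ble 500 n) 15431 (cond (Nat.ble 400 n) 15301 (cond (Nat.ble 300 n) 15071 (cond (Nat.ble 256 n) 15009 (cond (Nat.ble 200 n) 14384 (cond (Nat.ble 160 n) 14384 (cond (Nat.ble 128 n) 14294 (getl (Nat.sub n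 2) e1List))))))))))))))))))))))

/-- The test. -/
def tst1 (n Ll Lu Al' _Al Au Hu : ℕ) : Bool :=
  cond (Nat.ble Hu 1226900000000)
    (cond (Nat.ble Au (Nat.add Ll 638600000000))
      (Nat.ble (Nat.add Lu (Nat.mul 100000000 (e1 (Nat.pred n)))) (Nat.add Al' 1000000000000))
      false) false

theorem table1_run : loop1 tst1 9998 2 693147180300 693147180800 346573590150 346573590400
    693147180800 = true := by decide +kernel

end Pool.Agent.EZ
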