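import Pool.Agent.EZ.EngR0
import Pool.Agent.EZ.EngR1
import Pool.Agent.EZ.EngR2
import Pool.Agent.EZ.EngR3
import Pool.Agent.EZ.EngR4
import Pool.Agent.EZ.EngR5
import Pool.Agent.EZ.EngR6
import Pool.Agent.EZ.EngR7
import Pool.Agent.EZ.EngR8
import Pool.Agent.EZ.EngR9
import Pool.Agent.EZ.EngRP
import Pool.Agent.EZ.EngPow
import Pool.Agent.EZ.MertensPP

/-!
# The numerical engine: conclusions
-/

set_option autoImplicit false

namespace Pool.Agent.EZ

open Finset

/-- all rows -/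
def prL : List (ℕ × ℕ × ℕ × ℕ × ℕ × ℕ × ℕ) :=
  prL0 ++ (prL1 ++ (prL2 ++ (prL3 ++ (prL4 ++ (prL5 ++ (prL6 ++ (prL7 ++ (prL8 ++ prL9))))))))

theorem prR : ∀ t ∈ prL,
    primeK t.1 t.2.1 t.2.2.1 t.2.2.2.1 t.2.2.2.2.1 t.2.2.2.2.2.1 t.2.2.2.2.2.2 = true := by
  intro t ht
  unfold prL at ht
  simp only [List.mem_append] at ht
  rcases ht with h | h | h | h | h | h | h | h | h | h
  · exact List.all_eq_true.1 prR0 t h
  · exact List.all_eq_true.1 prR1 t h
  · exact List.all_eq_true.1 prR2 t h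
  · exact List.all_eq_true.1 prR3 t h
  · exact List.all_eq_true.1 prR4 t h
  · exact List.all_eq_true.1 prR5 t h
  · exact List.all_eq_true.1 prR6 t h
  · exact List.all_eq_true.1 prR7 t h
  · exact List.all_eq_true.1 prR8 t h
  · exact List.all_eq_true.1 prR9 t h

/-- side conditions of a cut -/
def okC (z m c : ℕ) : Bool := Nat.ble 64 c && Nat.ble c 2521 && Nat.ble (Nat.mul (Nat.sub z 2) m) (Nat.mul 5000 c)

/-- membership of a log in the table -/
def okL (z l : ℕ) : Bool := tab.any fun en => Nat.beq en.1 z && Nat.beq en.2.2.1 l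

theorem prC : (prL.all fun t => okL t.1 t.2.1 && okC t.1 10000 t.2.2.1 && okC t.1 13000 t.2.2.2.1 &&
    okC t.1 16900 t.2.2.2.2.1 && okC t.1 21970 t.2.2.2.2.2.1 && okC t.1 28561 t.2.2.2.2.2.2) = true := by
  decide +kernel

theorem prCov : ((List.range 400).all fun z => Nat.blt z 11 || !(Nat.beq (spf pl z) z) ||
    prL.any fun t => Nat.beq t.1 z) = true := by
  decide +kernel

theorem okL_spec (hT : Stmt_Tab) {z l : ℕ} (h : okL z l = true) :
    (l : ℝ) ≤ (S9 : ℝ) * Real.log z ∧ (S9 : ℝ) * Real.log z ≤ (l : ℝ) + 2 := by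
  unfold okL at h
  rw [List.any_eq_true] at h
  obtain ⟨en, hen, h1⟩ := h
  rw [Bool.and_eq_true, Nat.beq_eq, Nat.beq_eq] at h1
  obtain ⟨a1, a2, a3, a4, a5⟩ := en
  obtain ⟨h2, h3⟩ := h1
  simp only at h2 h3
  rw [← h2, ← h3]
  exact tab_log hT hen

theorem okC_spec {z m c : ℕ} (h : okC z m c = true) : 64 ≤ c ∧ c ≤ 2521 ∧ (z - 2) * m ≤ 5000 * c := by
  unfold okC at h
  rw [Bool.and_eq_true, Bool.and_eq_true, Nat.ble_eq, Nat.ble_eq, Nat.ble_eq] at h
  exact ⟨h.1.1, h.1.2, h.2⟩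

theorem prime_E (hR : Stmt_Run) (hT : Stmt_Tab) : Stmt_Prime 11 400 := by
  intro z hz h11 h400
  have h1 := List.all_eq_true.1 prCov z (List.mem_range.2 h400)
  have hspf : spf pl z = z := by
    rw [spf_pl (by omega) (by omega)]
    exact hz.minFac_eq
  rw [Bool.or_eq_true, Bool.or_eq_true, hspf] at h1
  have hb1 : ¬ Nat.blt z 11 = true := by
    intro h
    have : z < 11 := by
      have := Nat.le_of_ble_eq_true h
      omega
    omega
  have hb2 : ¬ (!(Nat.beq z z)) = true := by simp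
  rcases h1 with (h1 | h1) | h1
  · exact absurd h1 hb1
  · exact absurd h1 hb2
  · rw [List.any_eq_true] at h1
    obtain ⟨t, ht, htz⟩ := h1
    rw [Nat.beq_eq] at htz
    have h2 := prR t ht
    have h3 := List.all_eq_true.1 prC t ht
    simp only [Bool.and_eq_true] at h3
    rw [htz] at h2 h3
    obtain ⟨⟨⟨⟨⟨g1, g2⟩, g3⟩, g4⟩, g5⟩, g6⟩ := h3
    obtain ⟨hl1, hl2⟩ := okL_spec hT g1
    exact prime_of_run hR hz h11 hl1 hl2 (okC_spec g2) (okC_spec g3) (okC_spec g4) (okC_spec g5)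
      (okC_spec g6) h2

/-- side conditions for powers -/
def okP (t : ℕ × ℕ × ℕ × ℕ × ℕ × ℕ × ℕ) : Bool :=
  okL t.1 t.2.2.2.1 && Nat.beq (spf pl t.1) t.2.1 && Nat.beq (ck t.1 t.2.1 0) t.2.2.1 &&
    Nat.ble 11 t.1 && Nat.ble 70000 t.2.2.1 && Nat.ble 64 t.2.2.2.2.1 &&
    Nat.ble t.2.2.2.2.1 2521 && Nat.ble t.2.2.1 (Nat.mul 5000 t.2.2.2.2.1) &&
    Nat.blt t.1 10201 &&
    farT.any (fun u => Nat.beq u.1 t.1 && Nat.beq u.2 t.2.2.2.2.2.1) &&
    cond (Nat.beq t.1 16) (Nat.ble t.2.2.2.2.2.2 985)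
      (cond (Nat.blt t.2.1 11) (Nat.ble t.2.2.2.2.2.2 965) (Nat.ble t.2.2.2.2.2.2 900))

theorem pwC : (pwL.all okP) = true := by decide +kernel

theorem pwCov : ((List.range 1025).all fun z => Nat.blt z 16 || Nat.beq (kp z) 0 || Nat.beq (kp z) 1 ||
    pwL.any fun t => Nat.beq t.1 z) = true := by
  decide +kernel

theorem not_prime_kp {n : ℕ} (hn : 2 ≤ n) (hn2 : n < 101 ^ 2) (hpp : IsPrimePow n) (hnp : ¬ n.Prime) :
    kp n ≠ 1 := by
  intro h1
  have h := vonMangoldt_kp hn hn2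
  have hk : kp n ≠ 0 := (kp_ne_zero_iff hn hn2).2 hpp
  rw [if_neg hk, h1] at h
  have hp : n.minFac.Prime := Nat.minFac_prime (by omega)
  rw [ArithmeticFunction.vonMangoldt_apply, if_pos hpp] at h
  have h2 : Real.log (n.minFac : ℝ) = Real.log (n : ℝ) := by
    rw [h]; simp
  have h3 : (n.minFac : ℝ) = n := by
    apply Real.log_injOn_pos
    · exact Set.mem_Ioi.2 (by exact_mod_cast hp.pos)
    · exact Set.mem_Ioi.2 (by
        have : 0 < n := by omega
        exact_mod_cast this)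
    · exact h2
  have h4 : n.minFac = n := by exact_mod_cast h3
  rw [h4] at hp
  exact hnp hp

theorem pow_E (hR : Stmt_Run) (hA : Stmt_Abs) (hF : Stmt_Far) (hT : Stmt_Tab) : Stmt_Pow 16 1025 := by
  intro z hz hnp h16 h1025
  have h1 := List.all_eq_true.1 pwCov z (List.mem_range.2 h1025)
  rw [Bool.or_eq_true, Bool.or_eq_true, Bool.or_eq_true] at h1
  have hb1 : ¬ Nat.blt z 16 = true := by
    intro h
    have := Nat.le_of_ble_eq_true h
    omega
  have hb2 : ¬ Nat.beq (kp z) 0 = true := by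
    rw [Nat.beq_eq]; exact (kp_ne_zero_iff (by omega) (by omega)).2 hz
  have hb3 : ¬ Nat.beq (kp z) 1 = true := by
    rw [Nat.beq_eq]; exact not_prime_kp (by omega) (by omega) hz hnp
  rcases h1 with ((h1 | h1) | h1) | h1
  · exact absurd h1 hb1
  · exact absurd h1 hb2
  · exact absurd h1 hb3
  · rw [List.any_eq_true] at h1
    obtain ⟨t, ht, htz⟩ := h1
    rw [Nat.beq_eq] at htz
    have h2 := List.all_eq_true.1 pwR t ht
    have h3 := List.all_eq_true.1 pwC t ht
    obtain ⟨t1, q, x, l, c, F, A⟩ := t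
    simp only at htz
    subst htz
    unfold okP at h3
    simp only [Bool.and_eq_true, Nat.ble_eq, Nat.beq_eq] at h3
    obtain ⟨⟨⟨⟨⟨⟨⟨⟨⟨⟨g1, g2⟩, g3⟩, g4⟩, g5⟩, g6⟩, g7⟩, g8⟩, g9⟩, g10⟩, g11⟩ := h3
    have hq : q = t1.minFac := by
      rw [← g2]
      exact spf_pl (by omega) (by omega)
    obtain ⟨hl1, hl2⟩ := okL_spec hT g1
    have hmem : (t1, F) ∈ farT := by
      rw [List.any_eq_true] at g10
      obtain ⟨u, hu, hu2⟩ := g10
      rw [Bool.and_eq_true, Nat.beq_eq, Nat.beq_eq] at hu2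
      obtain ⟨u1, u2⟩ := u
      obtain ⟨e1, e2⟩ := hu2
      simp only at e1 e2
      rw [← e1, ← e2]
      exact hu
    refine pow_of_run hR hA hF hmem hz hq (by rw [← hq]; exact g3.symm) g4 g5 ⟨g6, g7, g8⟩ hl1 hl2 ?_ h2
    unfold cA
    by_cases h16' : t1 = 16
    · rw [if_pos h16']
      rw [h16'] at g11
      have g : A ≤ 985 := by
        have : Nat.ble A 985 = true := g11
        rwa [Nat.ble_eq] at this
      have g' : (A : ℝ) ≤ 985 := by exact_mod_cast g
      linarith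
    · rw [if_neg h16']
      have hb : Nat.beq t1 16 = false := by
        cases hh : Nat.beq t1 16
        · rfl
        · rw [Nat.beq_eq] at hh; exact absurd hh h16'
      rw [hb, cond_false] at g11
      by_cases h11 : t1.minFac < 11
      · rw [if_pos h11]
        have hb : Nat.blt q 11 = true := by
          rw [hq]; exact Nat.ble_eq_true_of_le h11
        rw [hb, cond_true, Nat.ble_eq] at g11
        have g' : (A : ℝ) ≤ 965 := by exact_mod_cast g11
        linarith
      · rw [if_neg h11]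
        have hb : Nat.blt q 11 = false := by
          cases hh : Nat.blt q 11
          · rfl
          · have := Nat.le_of_ble_eq_true hh
            omega
        rw [hb, cond_false, Nat.ble_eq] at g11
        have g' : (A : ℝ) ≤ 900 := by exact_mod_cast g11
        linarith

end Pool.Agent.EZ
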