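import Pool.Agent.EZ.EngExp
import Pool.Agent.EZ.Cap

/-!
# The numerical engine: the singles (P1, P1A)
-/

set_option autoImplicit false
set_option linter.unusedSectionVars false

namespace Pool.Agent.EZ

open Finset

namespace P1

/-! ### steps of the quantities -/

theorem ppK_gap {u v : ℕ} (hvu : v ≤ u) (hno : ∀ w, v < w → w ≤ u → ¬ IsPrimePow w) :
    ppK u = ppK v := by
  ext w
  rw [mem_ppK, mem_ppK]
  constructor
  · rintro ⟨h1, h2⟩
    refine ⟨h1, ?_⟩
    by_contra h3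
    exact hno w (by omega) h2 h1
  · rintro ⟨h1, h2⟩
    exact ⟨h1, by omega⟩

theorem A1_gap {u v : ℕ} (hvu : v ≤ u) (hno : ∀ w, v < w → w ≤ u → ¬ IsPrimePow w) :
    A1 u = A1 v := by
  have h : ppK u = ppK v := ppK_gap hvu hno
  unfold ppK at h
  unfold A1
  rw [h]

theorem A1_pred {v : ℕ} (hv : IsPrimePow v) : A1 v = A1 (v - 1) + Real.log v / v := by
  obtain ⟨n, rfl⟩ : ∃ n, v = n + 1 := ⟨v - 1, by have := hv.one_lt; omega⟩
  rw [A1_succ, if_pos hv, Nat.add_sub_cancel]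

theorem kapv_gap {z x Y u v : ℕ} (hvu : v ≤ u) (hno : ∀ w, v < w → w ≤ u → ¬ IsPrimePow w) :
    kapv z x Y v = kapv z x Y u := by
  unfold kapv
  apply Finset.sum_congr rfl
  intro w hw
  have hw' := mem_ppK.1 hw
  have e : (w ≤ v ∨ w.minFac = z.minFac) ↔ (w ≤ u ∨ w.minFac = z.minFac) := by
    constructor
    · rintro (h | h)
      · left; omega
      · exact Or.inr h
    · rintro (h | h)
      · left
        by_contra h3
        exact hno w (by omega) h hw'.1
      · exact Or.inr h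
  simp only [e]

theorem kapv_pred {z x Y v : ℕ} (hv : IsPrimePow v) (hvY : v ≤ Y) :
    kapv z x Y v = kapv z x Y (v - 1)
      + (if v.minFac = z.minFac then 0 else Sx x v * (Real.log v / v)) := by
  have hv1 := hv.one_lt
  have key : ∀ w ∈ ppK Y, (if w ≤ v ∨ w.minFac = z.minFac then 1 else 1 - Sx x w)
      * (Real.log w / (w : ℝ)) = (if w ≤ v - 1 ∨ w.minFac = z.minFac then 1 else 1 - Sx x w)
      * (Real.log w / (w : ℝ))
      + (if w = v then (if v.minFac = z.minFac then 0 else Sx x v * (Real.log v / v)) else 0) := by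
    intro w _
    by_cases h : w = v
    · subst h
      rw [if_pos (Or.inl le_rfl), if_pos rfl]
      by_cases h2 : w.minFac = z.minFac
      · rw [if_pos (Or.inr h2), if_pos h2]; ring
      · rw [if_neg (by rintro (h3 | h3) <;> omega), if_neg h2]; ring
    · rw [if_neg h, add_zero]
      have e : (w ≤ v ∨ w.minFac = z.minFac) ↔ (w ≤ v - 1 ∨ w.minFac = z.minFac) := by
        constructor
        · rintro (h3 | h3)
          · left; omega
          · exact Or.inr h3
        · rintro (h3 | h3)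
          · left; omega
          · exact Or.inr h3
      simp only [e]
  unfold kapv
  rw [Finset.sum_congr rfl key, Finset.sum_add_distrib, Finset.sum_ite_eq',
    if_pos (mem_ppK.2 ⟨hv, hvY⟩)]

theorem Wt_gap' {z x a b : ℕ} (hab : a ≤ b)
    (h : ∀ w, IsPrimePow w → w.minFac ≠ z.minFac → a < w → w ≤ b → Sx x w = 0) :
    Wt z x b = Wt z x a := by
  unfold Wt
  symm
  apply Finset.sum_subset
  · intro w hw
    rw [Finset.mem_filter, mem_ppK] at hw ⊢
    exact ⟨⟨hw.1.1, by omega⟩, hw.2⟩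
  · intro w hw hw2
    rw [Finset.mem_filter, mem_ppK] at hw hw2
    have : a < w := by
      by_contra h3
      exact hw2 ⟨⟨hw.1.1, by omega⟩, hw.2⟩
    rw [h w hw.1.1 hw.2 this hw.1.2, zero_div]

theorem Wt_pred {z x v : ℕ} (hv : IsPrimePow v) (hvz : v.minFac ≠ z.minFac) :
    Wt z x v = Wt z x (v - 1) + Sx x v / (v : ℝ) := by
  have hv1 := hv.one_lt
  unfold Wt
  have hmem : v ∈ (ppK v).filter (fun w => w.minFac ≠ z.minFac) := by
    rw [Finset.mem_filter, mem_ppK]
    exact ⟨⟨hv, le_rfl⟩, hvz⟩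
  rw [← Finset.sum_erase_add _ _ hmem]
  congr 1
  apply Finset.sum_congr _ (fun _ _ => rfl)
  ext w
  rw [Finset.mem_erase, Finset.mem_filter, Finset.mem_filter, mem_ppK, mem_ppK]
  constructor
  · rintro ⟨h1, ⟨h2, h3⟩, h4⟩
    exact ⟨⟨h2, by omega⟩, h4⟩
  · rintro ⟨⟨h2, h3⟩, h4⟩
    exact ⟨by omega, ⟨h2, by omega⟩, h4⟩

/-! ### bounds over one prime -/

/-- sums of `F` over the powers of one prime beyond `u` -/
def GOK (z u : ℕ) (F : ℕ → ℝ) (o : ℝ) : Prop := ∀ VS : Finset ℕ,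
  (∀ w ∈ VS, IsPrimePow w ∧ u < w ∧ w.minFac ≠ z.minFac) → ∀ r : ℕ,
    ∑ w ∈ VS.filter (fun w => w.minFac = r), F w ≤ o

theorem GOK_mono {z u : ℕ} {F : ℕ → ℝ} {o o' : ℝ} (h : GOK z u F o) (ho : o ≤ o') :
    GOK z u F o' := fun VS hVS r => (h VS hVS r).trans ho

theorem GOK_gap {z u v : ℕ} {F : ℕ → ℝ} {o : ℝ} (h : GOK z u F o)
    (h0 : ∀ w, IsPrimePow w → w.minFac ≠ z.minFac → v < w → w ≤ u → F w = 0) : GOK z v F o := by
  intro VS hVS r
  have h1 := h (VS.filter (fun w => u < w)) (fun w hw => by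
    rw [Finset.mem_filter] at hw
    exact ⟨(hVS w hw.1).1, hw.2, (hVS w hw.1).2.2⟩) r
  refine le_trans (le_of_eq ?_) h1
  symm
  apply Finset.sum_subset
  · intro w hw
    rw [Finset.mem_filter, Finset.mem_filter] at hw
    rw [Finset.mem_filter]
    exact ⟨hw.1.1, hw.2⟩
  · intro w hw hw2
    rw [Finset.mem_filter] at hw
    rw [Finset.mem_filter, Finset.mem_filter] at hw2
    have h2 := hVS w hw.1
    apply h0 w h2.1 h2.2.2 h2.2.1
    by_contra h3
    exact hw2 ⟨⟨hw.1, by omega⟩, hw.2⟩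

theorem GOK_step {z m r : ℕ} {F : ℕ → ℝ} {o o' : ℝ} (hr : r.Prime) (hm : m ≠ 0)
    (hF : ∀ w, 0 ≤ F w) (h : GOK z (r ^ m) F o)
    (ht : ∀ K, F (r ^ m) + ∑ k ∈ Icc (m + 1) K, F (r ^ k) ≤ o') :
    GOK z (r ^ m - 1) F (max o o') := by
  intro VS hVS r0
  have hpos : 0 < r ^ m := Nat.pos_of_ne_zero (pow_ne_zero m hr.ne_zero)
  by_cases hr0 : r0 = r
  · subst hr0
    refine le_trans ?_ (le_max_right _ _)
    set f : ℕ → ℝ := fun w => if w < r0 ^ m then 0 else F w with hf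
    have hf0 : ∀ w, 0 ≤ f w := by
      intro w
      simp only [hf]
      split_ifs
      · exact le_rfl
      · exact hF w
    have e : ∑ w ∈ VS.filter (fun w => w.minFac = r0), F w
        = ∑ w ∈ VS.filter (fun w => w.minFac = r0), f w := by
      apply Finset.sum_congr rfl
      intro w hw
      simp only [hf]
      rw [if_neg]
      have := (hVS w (Finset.mem_filter.1 hw).1).2.1
      omega
    rw [e]
    have h0' : 0 ≤ o' := by
      have := ht 0
      have h1 : 0 ≤ ∑ k ∈ Icc (m + 1) 0, F (r0 ^ k) := Finset.sum_nonneg fun k _ => hF _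
      have h2 := hF (r0 ^ m)
      linarith
    rcases sum_over_prime VS (fun v hv => (hVS v hv).1) r0 f hf0 with h1 | ⟨-, K, h1⟩
    · rw [h1]; exact h0'
    · refine h1.trans ?_
      refine le_trans ?_ (ht K)
      have h2 : ∑ k ∈ Icc 1 K, f (r0 ^ k) ≤ ∑ k ∈ insert m (Icc (m + 1) K), f (r0 ^ k) := by
        have e2 : ∑ k ∈ Icc 1 K, f (r0 ^ k) = ∑ k ∈ (Icc 1 K).filter (fun k => m ≤ k), f (r0 ^ k) := by
          symm
          apply Finset.sum_subset (Finset.filter_subset _ _)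
          intro k hk hk2
          rw [Finset.mem_filter] at hk2
          simp only [hf]
          rw [if_pos]
          apply Nat.pow_lt_pow_right hr.one_lt
          by_contra h3
          exact hk2 ⟨hk, by omega⟩
        rw [e2]
        apply Finset.sum_le_sum_of_subset_of_nonneg
        · intro k hk
          rw [Finset.mem_filter, Finset.mem_Icc] at hk
          rw [Finset.mem_insert, Finset.mem_Icc]
          omega
        · intro k _ _
          exact hf0 _
      refine h2.trans ?_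
      rw [Finset.sum_insert (by rw [Finset.mem_Icc]; omega)]
      have h3 : ∀ w, f w ≤ F w := by
        intro w
        simp only [hf]
        split_ifs
        · exact hF w
        · exact le_rfl
      exact add_le_add (h3 _) (Finset.sum_le_sum fun k _ => h3 _)
  · refine le_trans ?_ (le_max_left _ _)
    have h1 := h (VS.filter (fun w => r ^ m < w)) (fun w hw => by
      rw [Finset.mem_filter] at hw
      exact ⟨(hVS w hw.1).1, hw.2, (hVS w hw.1).2.2⟩) r0
    refine le_trans (le_of_eq ?_) h1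
    apply Finset.sum_congr _ (fun _ _ => rfl)
    ext w
    rw [Finset.mem_filter, Finset.mem_filter, Finset.mem_filter]
    constructor
    · rintro ⟨h2, h3⟩
      refine ⟨⟨h2, ?_⟩, h3⟩
      have h4 := (hVS w h2).2.1
      have h5 : w ≠ r ^ m := by
        rintro rfl
        rw [hr.pow_minFac hm] at h3
        exact hr0 h3.symm
      omega
    · rintro ⟨⟨h2, -⟩, h3⟩
      exact ⟨h2, h3⟩

/-- the weights beyond a prime power -/
theorem tail_a (x r m K : ℕ) (hr : 2 ≤ r) :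
    ∑ k ∈ Icc (m + 1) K, Sx x (r ^ k) / ((r ^ k : ℕ) : ℝ) ≤ 1 / ((r : ℝ) ^ m * ((r : ℝ) - 1)) := by
  refine (full_tail x r (m + 1) K hr).trans (le_of_eq ?_)
  have h1 : (2 : ℝ) ≤ r := by exact_mod_cast hr
  have h2 : (r : ℝ) - 1 ≠ 0 := by intro h; linarith
  have h3 : (r : ℝ) ≠ 0 := by intro h; linarith
  rw [pow_succ]
  field_simp

/-- the weights beyond a prime power, with logarithms -/
theorem tail_c (z x r m K : ℕ) (hr : 2 ≤ r) {M : ℝ}
    (hMz : Real.log z ≤ M) (hMv : Real.log ((r ^ m : ℕ) : ℝ) ≤ M) :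
    ∑ k ∈ Icc (m + 1) K, Sx x (r ^ k) / ((r ^ k : ℕ) : ℝ)
      * max (Real.log z) (Real.log ((r ^ k : ℕ) : ℝ))
      ≤ M / ((r : ℝ) ^ m * ((r : ℝ) - 1)) + r * Real.log r / (((r : ℝ) - 1) ^ 2 * (r : ℝ) ^ m) := by
  have h1 : (2 : ℝ) ≤ r := by exact_mod_cast hr
  have h2 : 0 < (r : ℝ) - 1 := by linarith
  have h3 : 0 < (r : ℝ) := by linarith
  have hlr : 0 ≤ Real.log r := Real.log_natCast_nonneg r
  have hM0 : 0 ≤ M := (Real.log_natCast_nonneg z).trans hMz
  set T : ℕ → ℝ := fun K => (M + ((K : ℝ) - m) * Real.log r) / ((r : ℝ) ^ K * ((r : ℝ) - 1))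
    + r * Real.log r / (((r : ℝ) - 1) ^ 2 * (r : ℝ) ^ K) with hT
  have hterm : ∀ k, m ≤ k → Sx x (r ^ k) / ((r ^ k : ℕ) : ℝ)
      * max (Real.log z) (Real.log ((r ^ k : ℕ) : ℝ)) ≤ (M + ((k : ℝ) - m) * Real.log r) / (r : ℝ) ^ k := by
    intro k hk
    have hk' : (m : ℝ) ≤ k := by exact_mod_cast hk
    have h4 : max (Real.log z) (Real.log ((r ^ k : ℕ) : ℝ)) ≤ M + ((k : ℝ) - m) * Real.log r := by
      apply max_le
      · nlinarith [mul_nonneg (sub_nonneg.2 hk') hlr]
      · push_cast at hMv ⊢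
        rw [Real.log_pow] at hMv ⊢
        nlinarith
    have h5 : 0 ≤ max (Real.log z) (Real.log ((r ^ k : ℕ) : ℝ)) :=
      (Real.log_natCast_nonneg z).trans (le_max_left _ _)
    have h6 : (0 : ℝ) < (r : ℝ) ^ k := by positivity
    push_cast at h4 h5 ⊢
    rw [div_mul_eq_mul_div]
    apply div_le_div_of_nonneg_right _ h6.le
    calc Sx x (r ^ k) * max (Real.log z) (Real.log ((r : ℝ) ^ k))
        ≤ 1 * max (Real.log z) (Real.log ((r : ℝ) ^ k)) :=
          mul_le_mul_of_nonneg_right (Sx_le_one x _) h5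
      _ ≤ _ := by rw [one_mul]; exact h4
  have hT0 : ∀ k, m ≤ k → 0 ≤ T k := by
    intro k hk
    have hk' : (m : ℝ) ≤ k := by exact_mod_cast hk
    have : 0 ≤ M + ((k : ℝ) - m) * Real.log r := by
      nlinarith [mul_nonneg (sub_nonneg.2 hk') hlr]
    simp only [hT]
    positivity
  have hstep : ∀ k, m ≤ k → (M + (((k + 1 : ℕ) : ℝ) - m) * Real.log r) / (r : ℝ) ^ (k + 1) + T (k + 1)
      = T k := by
    intro k _
    simp only [hT]
    push_cast
    rw [pow_succ]
    field_simp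
    ring
  have hTm : T m = M / ((r : ℝ) ^ m * ((r : ℝ) - 1))
      + r * Real.log r / (((r : ℝ) - 1) ^ 2 * (r : ℝ) ^ m) := by
    simp only [hT, sub_self, zero_mul, add_zero]
  rw [← hTm]
  rcases Nat.lt_or_ge K m with hK | hK
  · rw [Finset.Icc_eq_empty (by omega), Finset.sum_empty]
    exact hT0 m le_rfl
  · have main : ∑ k ∈ Icc (m + 1) K, (M + ((k : ℝ) - m) * Real.log r) / (r : ℝ) ^ k + T K = T m := by
      induction K, hK using Nat.le_induction with
      | base => rw [Finset.Icc_eq_empty (by omega), Finset.sum_empty, zero_add]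
      | succ K hK ih =>
        rw [Finset.sum_Icc_succ_top (by omega), add_assoc, hstep K hK, ih]
    have h7 : ∑ k ∈ Icc (m + 1) K, Sx x (r ^ k) / ((r ^ k : ℕ) : ℝ)
        * max (Real.log z) (Real.log ((r ^ k : ℕ) : ℝ))
        ≤ ∑ k ∈ Icc (m + 1) K, (M + ((k : ℝ) - m) * Real.log r) / (r : ℝ) ^ k := by
      apply Finset.sum_le_sum
      intro k hk
      exact hterm k (by have := (Finset.mem_Icc.1 hk).1; omega)
    have := hT0 K hK
    linarith

/-! ### the functions of the pass -/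

def wdF (s v : ℕ) : ℕ := s * S9 / (1000 * v)

def gF (E wd : ℕ) : ℕ := cdv (E * ((S9 - wd / 2) + cdv ((wd + 1) * (wd + 1)) 8000000000)) S9

def w2F (wd : ℕ) : ℕ := cdv ((wd + 1) * (wd + 1)) S9

def hF (h wd : ℕ) : ℕ :=
  cdv (h * ((S9 + (wd + 1)) + (cdv (w2F wd) 2 + cdv (w2F wd * (wd + 1)) 4000000000))) S9

def oaF (s r v : ℕ) : ℕ := cdv (S9 * (s * (r - 1) + 1000)) (1000 * (r - 1) * v)

def ocF (s r v zlo lv lr : ℕ) : ℕ :=
  cdv (max (zlo + 2) (lv + 2) * (s * (r - 1) + 1000)) (1000 * (r - 1) * v)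
    + cdv (r * (lr + 2)) ((r - 1) * (r - 1) * v)

def dF (D s lv v : ℕ) : ℕ := D + cdv ((1000 - s) * (lv + 2)) (1000 * v)

theorem pass1_cons (z q x zlo : ℕ) (k : List Piece → Bool) (v r lv lr a1 : ℕ) (L : List Ent)
    (D h Oa Oc : ℕ) (P : List Piece) :
    pass1 z q x zlo k ((v, r, lv, lr, a1) :: L) D h Oa Oc P =
      (fun s : ℕ => cond (Nat.beq s 0)
        (pass1 z q x zlo k L (D + cdv (lv + 2) v) h Oa Oc P)
        (cellK (z * v) (z * v) ((zlo + lv) / 2) (a1 + D) Oc fun e =>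
          cond (Nat.ble e 2000000000)
            (expK e fun E =>
              pass1 z q x zlo k L (dF D s lv v) (hF h (wdF s v)) (max Oa (oaF s r v))
                (max Oc (ocF s r v zlo lv lr))
                ((gF E (wdF s v), hF h (wdF s v), max Oa (oaF s r v)) :: P))
            false)) (cond (Nat.beq r q) 0 (svF x v r)) := by
  show (frc v fun v => frc r fun r => frc (Nat.add lv 2) fun lu =>
      frc (cond (Nat.beq r q) 0 (svF x v r)) fun s =>
      cond (Nat.beq s 0)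
        (frc (Nat.add D (cdv lu v)) fun D' => pass1 z q x zlo k L D' h Oa Oc P)
        (frc (Nat.mul z v) fun zv => frc (Nat.div (Nat.add zlo lv) 2) fun N =>
          frc (Nat.add a1 D) fun K =>
          cellK zv zv N K Oc fun e =>
          cond (Nat.ble e 2000000000)
            (frc (Nat.div (Nat.mul s S9) (Nat.mul 1000 v)) fun wd => frc (Nat.succ wd) fun wu =>
              expK e fun E =>
              frc (cdv (Nat.mul E (Nat.add (Nat.sub S9 (Nat.div wd 2))
                (cdv (Nat.mul wu wu) 8000000000))) S9) fun g =>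
              frc (cdv (Nat.mul wu wu) S9) fun wu2 =>
              frc (cdv (Nat.mul h (Nat.add (Nat.add S9 wu) (Nat.add (cdv wu2 2)
                (cdv (Nat.mul wu2 wu) 4000000000)))) S9) fun h' =>
              frc (Nat.pred r) fun r1 =>
              frc (Nat.add (Nat.mul s r1) 1000) fun a =>
              frc (Nat.mul (Nat.mul 1000 r1) v) fun b =>
              frc (Nat.max Oa (cdv (Nat.mul S9 a) b)) fun Oa' =>
              frc (Nat.max Oc (Nat.add (cdv (Nat.mul (Nat.max (Nat.add zlo 2) lu) a) b)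
                (cdv (Nat.mul r (Nat.add lr 2)) (Nat.mul (Nat.mul r1 r1) v)))) fun Oc' =>
              frc (Nat.add D (cdv (Nat.mul (Nat.sub 1000 s) lu) (Nat.mul 1000 v))) fun D' =>
              pass1 z q x zlo k L D' h' Oa' Oc' ((g, h', Oa') :: P))
            false)) = _
  simp only [frc_eq]
  rfl

/-! ### numerical facts -/

theorem exp_neg_le {t : ℝ} (ht : 0 ≤ t) : Real.exp (-t) ≤ 1 - t + t ^ 2 / 2 := by
  have h1 := Real.quadratic_le_exp_of_nonneg ht
  have h2 : 0 < Real.exp t := Real.exp_pos t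
  rw [Real.exp_neg, inv_le_comm₀ h2 (by nlinarith [sq_nonneg (t - 1)])]
  refine le_trans ?_ h1
  rw [inv_le_iff_one_le_mul₀ (by nlinarith [sq_nonneg (t - 1)])]
  nlinarith [pow_nonneg ht 4, sq_nonneg (t ^ 2)]

theorem exp_le3 {w : ℝ} (h0 : 0 ≤ w) (h1 : w ≤ 1) :
    Real.exp w ≤ 1 + w + w ^ 2 / 2 + w ^ 3 / 4 := by
  have h2 := Real.exp_bound' h0 h1 (n := 3) (by norm_num)
  simp [Finset.sum_range_succ, Nat.factorial] at h2
  nlinarith [pow_nonneg h0 3]

theorem wdF_bounds {s v : ℕ} (hv : 0 < v) :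
    (wdF s v : ℝ) ≤ (s : ℝ) / 1000 / v * S9 ∧ (s : ℝ) / 1000 / v * S9 ≤ (wdF s v : ℝ) + 1 := by
  have hv' : (0 : ℝ) < v := by exact_mod_cast hv
  have hb : 0 < 1000 * v := by omega
  have h1 := Nat.div_mul_le_self (s * S9) (1000 * v)
  have h2 := Nat.lt_div_mul_add (a := s * S9) hb
  have h1' : ((s * S9 / (1000 * v) : ℕ) : ℝ) * (1000 * v) ≤ (s : ℝ) * S9 := by exact_mod_cast h1
  have h2' : (s : ℝ) * S9 ≤ ((s * S9 / (1000 * v) : ℕ) : ℝ) * (1000 * v) + 1000 * v := by
    exact_mod_cast h2.le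
  have e : (s : ℝ) / 1000 / v * S9 = (s : ℝ) * S9 / (1000 * v) := by field_simp
  unfold wdF
  rw [e]
  constructor
  · rw [le_div_iff₀ (by positivity)]
    exact h1'
  · rw [div_le_iff₀ (by positivity)]
    linarith

theorem cdv_scaled {a b : ℕ} {y : ℝ} (hb : 0 < b) (h : y ≤ (a : ℝ) / b) : y ≤ (cdv a b : ℝ) :=
  h.trans (cdv_ge a b hb)

theorem gF_ok {E wd : ℕ} {w X : ℝ} (hw0 : 0 ≤ w) (h1 : (wd : ℝ) ≤ w * S9) (h2 : w * S9 ≤ (wd : ℝ) + 1)
    (hE : Real.exp X ≤ (E : ℝ) / S9) : Real.exp (X - w / 2) ≤ (gF E wd : ℝ) / S9 := by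
  have hS := S9_pos
  have hY : Real.exp (-(w / 2)) * S9
      ≤ (((S9 - wd / 2) + cdv ((wd + 1) * (wd + 1)) 8000000000 : ℕ) : ℝ) := by
    have e1 := exp_neg_le (t := w / 2) (by linarith)
    have e2 : (((wd + 1) * (wd + 1) : ℕ) : ℝ) / (8000000000 : ℕ)
        ≤ (cdv ((wd + 1) * (wd + 1)) 8000000000 : ℝ) := cdv_ge _ _ (by norm_num)
    have e3 : (S9 : ℝ) - (wd : ℝ) / 2 ≤ ((S9 - wd / 2 : ℕ) : ℝ) := by
      have h3 : S9 ≤ (S9 - wd / 2) + wd / 2 := by omega
      have h4 : (S9 : ℝ) ≤ ((S9 - wd / 2 : ℕ) : ℝ) + ((wd / 2 : ℕ) : ℝ) := by exact_mod_cast h3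
      have h5 : ((wd / 2 : ℕ) : ℝ) ≤ (wd : ℝ) / 2 := Nat.cast_div_le
      linarith
    have e4 : (w * S9) ^ 2 ≤ ((wd : ℝ) + 1) ^ 2 := pow_le_pow_left₀ (by positivity) h2 2
    have e5 : w ^ 2 / 8 * S9 ≤ (cdv ((wd + 1) * (wd + 1)) 8000000000 : ℝ) := by
      refine le_trans ?_ e2
      rw [le_div_iff₀ (by norm_num)]
      push_cast
      rw [S9_val] at e4 ⊢
      nlinarith
    rw [Nat.cast_add]
    have e6 : Real.exp (-(w / 2)) * S9 ≤ (1 - w / 2 + (w / 2) ^ 2 / 2) * S9 :=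
      mul_le_mul_of_nonneg_right e1 hS.le
    nlinarith
  have e7 : Real.exp (X - w / 2) = Real.exp X * Real.exp (-(w / 2)) := by
    rw [← Real.exp_add]; congr 1
  rw [e7, le_div_iff₀ hS]
  refine le_trans ?_ (cdv_ge _ _ (by unfold S9; norm_num))
  rw [le_div_iff₀ hS]
  rw [le_div_iff₀ hS] at hE
  rw [Nat.cast_mul]
  calc Real.exp X * Real.exp (-(w / 2)) * S9 * S9
      = (Real.exp X * S9) * (Real.exp (-(w / 2)) * S9) := by ring
    _ ≤ _ := mul_le_mul hE hY (by positivity) (Nat.cast_nonneg _)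

theorem hF_ok {h wd : ℕ} {w X : ℝ} (hw0 : 0 ≤ w) (hw1 : w ≤ 1) (h2 : w * S9 ≤ (wd : ℝ) + 1)
    (hh : Real.exp X ≤ (h : ℝ) / S9) : Real.exp (X + w) ≤ (hF h wd : ℝ) / S9 := by
  have hS := S9_pos
  have hw2 : w ^ 2 * S9 ≤ (w2F wd : ℝ) := by
    unfold w2F
    refine le_trans ?_ (cdv_ge _ _ (by unfold S9; norm_num))
    rw [le_div_iff₀ hS]
    have e4 : (w * S9) ^ 2 ≤ ((wd : ℝ) + 1) ^ 2 := pow_le_pow_left₀ (by positivity) h2 2
    push_cast
    nlinarith
  have hY : Real.exp w * S9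
      ≤ (((S9 + (wd + 1)) + (cdv (w2F wd) 2 + cdv (w2F wd * (wd + 1)) 4000000000) : ℕ) : ℝ) := by
    have e1 := exp_le3 hw0 hw1
    have e2 := cdv_ge (w2F wd) 2 (by norm_num)
    have e3 := cdv_ge (w2F wd * (wd + 1)) 4000000000 (by norm_num)
    have e5 : w ^ 3 / 4 * S9 ≤ (cdv (w2F wd * (wd + 1)) 4000000000 : ℝ) := by
      refine le_trans ?_ e3
      rw [le_div_iff₀ (by norm_num)]
      push_cast
      have e6 : (w ^ 2 * S9) * (w * S9) ≤ (w2F wd : ℝ) * ((wd : ℝ) + 1) :=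
        mul_le_mul hw2 h2 (by positivity) (Nat.cast_nonneg _)
      rw [S9_val] at e6 ⊢
      nlinarith
    push_cast at e2 ⊢
    have e6 : Real.exp w * S9 ≤ (1 + w + w ^ 2 / 2 + w ^ 3 / 4) * S9 :=
      mul_le_mul_of_nonneg_right e1 hS.le
    nlinarith
  rw [Real.exp_add, le_div_iff₀ hS]
  unfold hF
  refine le_trans ?_ (cdv_ge _ _ (by unfold S9; norm_num))
  rw [le_div_iff₀ hS]
  rw [le_div_iff₀ hS] at hh
  rw [Nat.cast_mul]
  calc Real.exp X * Real.exp w * S9 * S9 = (Real.exp X * S9) * (Real.exp w * S9) := by ring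
    _ ≤ _ := mul_le_mul hh hY (by positivity) (Nat.cast_nonneg _)

theorem oaF_ok {s r v : ℕ} (hr : 2 ≤ r) (hv : 0 < v) :
    (s : ℝ) / 1000 / v + 1 / ((v : ℝ) * ((r : ℝ) - 1)) ≤ (oaF s r v : ℝ) / S9 := by
  have hS := S9_pos
  have hv' : (0 : ℝ) < v := by exact_mod_cast hv
  have hr' : (2 : ℝ) ≤ r := by exact_mod_cast hr
  have hr1 : (0 : ℝ) < (r : ℝ) - 1 := by linarith
  have hb : 0 < 1000 * (r - 1) * v := Nat.mul_pos (by omega) hv
  rw [le_div_iff₀ hS]
  unfold oaF
  refine le_trans (le_of_eq ?_) (cdv_ge _ _ hb)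
  push_cast
  rw [Nat.cast_sub (by omega)]
  push_cast
  field_simp

theorem ocF_ok {s r v zlo lv lr : ℕ} {lz lgv lgr : ℝ} (hr : 2 ≤ r) (hv : 0 < v)
    (h1 : lz * S9 ≤ (zlo : ℝ) + 2) (h2 : lgv * S9 ≤ (lv : ℝ) + 2) (h3 : lgr * S9 ≤ (lr : ℝ) + 2) :
    (s : ℝ) / 1000 / v * max lz lgv + (max lz lgv / ((v : ℝ) * ((r : ℝ) - 1))
      + r * lgr / (((r : ℝ) - 1) ^ 2 * v)) ≤ (ocF s r v zlo lv lr : ℝ) / S9 := by
  have hS := S9_pos
  have hv' : (0 : ℝ) < v := by exact_mod_cast hv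
  have hr' : (2 : ℝ) ≤ r := by exact_mod_cast hr
  have hr1 : (0 : ℝ) < (r : ℝ) - 1 := by linarith
  have hb : 0 < 1000 * (r - 1) * v := Nat.mul_pos (by omega) hv
  have hb2 : 0 < (r - 1) * (r - 1) * v := Nat.mul_pos (Nat.mul_pos (by omega) (by omega)) hv
  have hM : max lz lgv * S9 ≤ ((max (zlo + 2) (lv + 2) : ℕ) : ℝ) := by
    rw [max_mul_of_nonneg _ _ hS.le]
    push_cast
    exact max_le_max h1 h2
  rw [le_div_iff₀ hS]
  unfold ocF
  rw [Nat.cast_add]
  have e1 := cdv_ge (max (zlo + 2) (lv + 2) * (s * (r - 1) + 1000)) (1000 * (r - 1) * v) hb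
  have e2 := cdv_ge (r * (lr + 2)) ((r - 1) * (r - 1) * v) hb2
  have e3 : ((s : ℝ) / 1000 / v * max lz lgv + max lz lgv / ((v : ℝ) * ((r : ℝ) - 1))) * S9
      ≤ ((max (zlo + 2) (lv + 2) * (s * (r - 1) + 1000) : ℕ) : ℝ) / ((1000 * (r - 1) * v : ℕ) : ℝ) := by
    have e4 : ((s : ℝ) / 1000 / v * max lz lgv + max lz lgv / ((v : ℝ) * ((r : ℝ) - 1))) * S9
        = (max lz lgv * S9) * ((s * ((r : ℝ) - 1) + 1000) / (1000 * ((r : ℝ) - 1) * v)) := by
      field_simp
    have e5 : ((max (zlo + 2) (lv + 2) * (s * (r - 1) + 1000) : ℕ) : ℝ)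
        / ((1000 * (r - 1) * v : ℕ) : ℝ)
        = ((max (zlo + 2) (lv + 2) : ℕ) : ℝ)
          * ((s * ((r : ℝ) - 1) + 1000) / (1000 * ((r : ℝ) - 1) * v)) := by
      rw [Nat.cast_mul, Nat.cast_add, Nat.cast_mul, Nat.cast_mul, Nat.cast_mul,
        Nat.cast_sub (by omega : 1 ≤ r)]
      push_cast
      ring
    rw [e4, e5]
    exact mul_le_mul_of_nonneg_right hM (by positivity)
  have e6 : (r * lgr / (((r : ℝ) - 1) ^ 2 * v)) * S9
      ≤ ((r * (lr + 2) : ℕ) : ℝ) / (((r - 1) * (r - 1) * v : ℕ) : ℝ) := by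
    rw [Nat.cast_mul, Nat.cast_mul, Nat.cast_mul, Nat.cast_sub (by omega : 1 ≤ r)]
    push_cast
    rw [div_mul_eq_mul_div, ← sq]
    apply div_le_div_of_nonneg_right _ (by positivity)
    nlinarith
  linarith

/-! ### the state -/

/-- the state beyond `u` -/
structure St (z x c u D h Oc : ℕ) : Prop where
  kap : kapv z x c u ≤ A1 u + (D : ℝ) / S9
  wt : Real.exp (0.4575 - Mz z x c - Wt z x u) ≤ (h : ℝ) / S9
  oc : OcOK z x u ((Oc : ℝ) / S9)

theorem St.gap {z x c u v D h Oc : ℕ} (hs : St z x c u D h Oc) (hvu : v ≤ u)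
    (hno : ∀ w, v < w → w ≤ u → ¬ IsPrimePow w) : St z x c v D h Oc where
  kap := by rw [kapv_gap hvu hno, ← A1_gap hvu hno]; exact hs.kap
  wt := by
    rw [← Wt_gap' hvu (fun w h1 _ h2 h3 => absurd h1 (hno w h2 h3))]
    exact hs.wt
  oc := GOK_gap hs.oc (fun w h1 _ h2 h3 => absurd h1 (hno w h2 h3))

theorem Oa_gap {z x u v : ℕ} {o : ℝ} (h : OaOK z x u o)
    (hno : ∀ w, v < w → w ≤ u → ¬ IsPrimePow w) : OaOK z x v o :=
  GOK_gap h (fun w h1 _ h2 h3 => absurd h1 (hno w h2 h3))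

theorem St.zero {z x c v D h Oc lv : ℕ} (hs : St z x c v D h Oc) (hv : IsPrimePow v) (hvc : v ≤ c)
    (h0 : v.minFac = z.minFac ∨ Sx x v = 0) (hl : (S9 : ℝ) * Real.log v ≤ (lv : ℝ) + 2) :
    St z x c (v - 1) (D + cdv (lv + 2) v) h Oc where
  kap := by
    have hv1 := hv.one_lt
    have hv0 : (0 : ℝ) < v := by exact_mod_cast (by omega : 0 < v)
    have hS := S9_pos
    have h1 := kapv_pred (z := z) (x := x) hv hvc
    have h2 : (if v.minFac = z.minFac then 0 else Sx x v * (Real.log v / v)) = 0 := by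
      rcases h0 with h0 | h0
      · rw [if_pos h0]
      · rw [h0, zero_mul, ite_self]
    rw [h2, add_zero] at h1
    have h3 := A1_pred hv
    have h4 := hs.kap
    have h5 := cdv_ge (lv + 2) v (by omega)
    rw [← h1]
    have h6 : Real.log v / v ≤ (cdv (lv + 2) v : ℝ) / S9 := by
      rw [div_le_div_iff₀ hv0 hS]
      rw [div_le_iff₀ hv0] at h5
      push_cast at h5
      linarith
    rw [Nat.cast_add, add_div]
    linarith
  wt := by
    rw [← Wt_gap' (Nat.sub_le v 1) (fun w h1 h2 h3 h4 => by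
      have : w = v := by omega
      subst this
      rcases h0 with h0 | h0
      · exact absurd h0 h2
      · exact h0)]
    exact hs.wt
  oc := by
    refine GOK_gap hs.oc (fun w h1 h2 h3 h4 => ?_)
    have : w = v := by omega
    subst this
    rcases h0 with h0 | h0
    · exact absurd h0 h2
    · rw [h0, zero_div, zero_mul]

theorem Oa_zero {z x v : ℕ} {o : ℝ} (h : OaOK z x v o)
    (h0 : v.minFac = z.minFac ∨ Sx x v = 0) : OaOK z x (v - 1) o := by
  refine GOK_gap h (fun w h1 h2 h3 h4 => ?_)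
  have : w = v := by omega
  subst this
  rcases h0 with h0 | h0
  · exact absurd h0 h2
  · rw [h0, zero_div]

theorem St.pos {z x c v D h Oc r s lv lr zlo : ℕ} (hs : St z x c v D h Oc) (hv : IsPrimePow v)
    (hvc : v ≤ c) (hr : r = v.minFac) (hrz : v.minFac ≠ z.minFac) (hsx : Sx x v = (s : ℝ) / 1000)
    (hs1 : s ≤ 1000) (hz : (S9 : ℝ) * Real.log z ≤ (zlo : ℝ) + 2)
    (hl : (S9 : ℝ) * Real.log v ≤ (lv : ℝ) + 2)
    (hlr : (S9 : ℝ) * Real.log (v.minFac : ℝ) ≤ (lr : ℝ) + 2) :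
    St z x c (v - 1) (dF D s lv v) (hF h (wdF s v)) (max Oc (ocF s r v zlo lv lr)) where
  kap := by
    have hv1 := hv.one_lt
    have hv0 : (0 : ℝ) < v := by exact_mod_cast (by omega : 0 < v)
    have hS := S9_pos
    have h1 := kapv_pred (z := z) (x := x) hv hvc
    rw [if_neg hrz, hsx] at h1
    have h3 := A1_pred hv
    have h4 := hs.kap
    have h5 := cdv_ge ((1000 - s) * (lv + 2)) (1000 * v) (by omega)
    have h6 : (1 - (s : ℝ) / 1000) * (Real.log v / v)
        ≤ (cdv ((1000 - s) * (lv + 2)) (1000 * v) : ℝ) / S9 := by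
      rw [le_div_iff₀ hS]
      refine le_trans ?_ h5
      rw [le_div_iff₀ (by exact_mod_cast (by omega : 0 < 1000 * v))]
      have e : (((1000 - s) * (lv + 2) : ℕ) : ℝ) = (1000 - (s : ℝ)) * ((lv : ℝ) + 2) := by
        rw [Nat.cast_mul, Nat.cast_sub hs1]
        push_cast
        ring
      rw [e]
      push_cast
      have h7 : (0 : ℝ) ≤ 1000 - s := by
        have : (s : ℝ) ≤ 1000 := by exact_mod_cast hs1
        linarith
      calc (1 - (s : ℝ) / 1000) * (Real.log v / v) * S9 * (1000 * v)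
          = (1000 - (s : ℝ)) * (S9 * Real.log v) := by field_simp
        _ ≤ _ := mul_le_mul_of_nonneg_left hl h7
    unfold dF
    rw [Nat.cast_add, add_div]
    linarith
  wt := by
    have hv1 := hv.one_lt
    have hv0 : (2 : ℝ) ≤ v := by exact_mod_cast (by omega : 2 ≤ v)
    have h1 := Wt_pred (x := x) hv hrz
    have h2 := wdF_bounds (s := s) (v := v) (by omega)
    have hw0 : 0 ≤ (s : ℝ) / 1000 / v := by positivity
    have hw1 : (s : ℝ) / 1000 / v ≤ 1 := by
      have h3 : (s : ℝ) ≤ 1000 := by exact_mod_cast hs1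
      rw [div_le_one (by linarith)]
      linarith
    have h3 := hF_ok (X := 0.4575 - Mz z x c - Wt z x v) hw0 hw1 h2.2 hs.wt
    refine le_trans (le_of_eq ?_) h3
    rw [h1, hsx]
    congr 1
    ring
  oc := by
    have hv1 := hv.one_lt
    have hS := S9_pos
    obtain ⟨p, m, hp, hm, rfl⟩ := (isPrimePow_nat_iff _).1 hv
    have hmf : (p ^ m).minFac = p := hp.pow_minFac hm.ne'
    rw [hmf] at hr hlr
    subst hr
    have hz1 := hz
    have hmax : ((max Oc (ocF s r (r ^ m) zlo lv lr) : ℕ) : ℝ) / S9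
        = max ((Oc : ℝ) / S9) ((ocF s r (r ^ m) zlo lv lr : ℝ) / S9) := by
      rw [max_div_div_right hS.le, Nat.cast_max]
    rw [hmax]
    refine GOK_step hp hm.ne' (fun w => ?_) hs.oc (fun K => ?_)
    · exact mul_nonneg (Sx_div_nonneg x w)
        ((Real.log_natCast_nonneg z).trans (le_max_left _ _))
    · have h2 := tail_c z x r m K hp.two_le (M := max (Real.log z) (Real.log ((r ^ m : ℕ) : ℝ)))
        (le_max_left _ _) (le_max_right _ _)
      have h3 := ocF_ok (s := s) (zlo := zlo) (lv := lv) (lr := lr) (lz := Real.log z)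
        (lgv := Real.log ((r ^ m : ℕ) : ℝ))
        (lgr := Real.log r) hp.two_le (by omega : 0 < r ^ m) (by linarith) (by linarith)
        (by linarith)
      refine le_trans ?_ h3
      rw [hsx]
      have e : ((r ^ m : ℕ) : ℝ) = (r : ℝ) ^ m := Nat.cast_pow r m
      rw [e] at h2 ⊢
      linarith

theorem Oa_pos {z x v Oa r s : ℕ} (h : OaOK z x v ((Oa : ℝ) / S9)) (hv : IsPrimePow v)
    (hr : r = v.minFac) (hsx : Sx x v = (s : ℝ) / 1000) :
    OaOK z x (v - 1) ((max Oa (oaF s r v) : ℕ) / S9) := by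
  have hv1 := hv.one_lt
  have hS := S9_pos
  obtain ⟨p, m, hp, hm, rfl⟩ := (isPrimePow_nat_iff _).1 hv
  have hmf : (p ^ m).minFac = p := hp.pow_minFac hm.ne'
  rw [hmf] at hr
  subst hr
  have hmax : ((max Oa (oaF s r (r ^ m)) : ℕ) : ℝ) / S9
      = max ((Oa : ℝ) / S9) ((oaF s r (r ^ m) : ℝ) / S9) := by
    rw [max_div_div_right hS.le, Nat.cast_max]
  rw [hmax]
  refine GOK_step hp hm.ne' (fun w => Sx_div_nonneg x w) h (fun K => ?_)
  have h2 := tail_a x r m K hp.two_le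
  have h3 := oaF_ok (s := s) hp.two_le (by omega : 0 < r ^ m)
  refine le_trans ?_ h3
  rw [hsx]
  have e : ((r ^ m : ℕ) : ℝ) = (r : ℝ) ^ m := Nat.cast_pow r m
  rw [e]
  linarith

/-- pieces do not change where nothing is alive. -/
theorem PV_gap {z x c u v : ℕ} {P : List Piece} (h : PV z x c u P) (hvu : v ≤ u)
    (h0 : ∀ w, IsPrimePow w → w.minFac ≠ z.minFac → v < w → w ≤ u → Sx x w = 0) :
    PV z x c v P := by
  have hw : ∀ p, PW z x c u p → PW z x c v p := by
    intro p hp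
    refine ⟨?_, GOK_gap hp.2 (fun w h1 h2 h3 h4 => by rw [h0 w h1 h2 h3 h4, zero_div])⟩
    rw [← Wt_gap' hvu h0]
    exact hp.1
  cases h with
  | last _ p h1 h2 =>
    refine PV.last v p (fun w h3 h4 h5 h6 => ?_) (hw p h2)
    by_cases h7 : u < w
    · exact h1 w h3 h4 h5 h7
    · have := h0 w h3 h4 h6 (by omega)
      linarith
  | step _ u' p L h1 h2 h3 h4 =>
    refine PV.step v u' p L (by omega) (fun w h5 h6 h7 h8 h9 => ?_) (hw p h3) h4
    by_cases h10 : u < w
    · exact h2 w h5 h6 h7 h10 h9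
    · have := h0 w h5 h6 h8 (by omega)
      linarith

/-- the level of a single component. -/
theorem cell_single (hCell : Stmt_Cell) (hSv : Stmt_Sv) {z q x zlo c v lv a1 D h Oc : ℕ}
    {k : ℕ → Bool} (hR : Run z q x zlo c) (hs : St z x c v D h Oc) (hv : IsPrimePow v)
    (hvc : v ≤ c) (hrz : v.minFac ≠ z.minFac) (hl : (lv : ℝ) ≤ (S9 : ℝ) * Real.log v)
    (hA : (S9 : ℝ) * A1 v ≤ (a1 : ℝ))
    (hk : cellK (z * v) (z * v) ((zlo + lv) / 2) (a1 + D) Oc k = true) :
    ∃ e : ℕ, k e = true ∧ (e ≤ 2000000000 → CellOK z x c v ((e : ℝ) / S9)) := by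
  obtain ⟨hz, hq, hz11, hx, hxc, hc, hzl, hzu⟩ := hR
  obtain ⟨e, hke, he⟩ := hCell _ _ _ _ _ k hk
  refine ⟨e, hke, fun he2 => ?_⟩
  have hS := S9_pos
  have hv1 := hv.one_lt
  have hzv : 0 < z * v := Nat.mul_pos (by omega) (by omega)
  have hz0 : (0 : ℝ) < z := by exact_mod_cast (by omega : 0 < z)
  have hv0 : (0 : ℝ) < v := by exact_mod_cast (by omega : 0 < v)
  refine he he2 z x c v hz hv hrz (fun w h1 h2 _ => hSv.2 x w c hx hxc hc h2 h1) hzv le_rfl le_rfl
    ?_ ?_ ?_ hs.oc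
  · -- 0 < N
    have h1 : Real.log 11 ≤ Real.log z :=
      Real.log_le_log (by norm_num) (by exact_mod_cast hz11)
    have h2 : (1 : ℝ) ≤ Real.log 11 := by
      rw [Real.le_log_iff_exp_le (by norm_num)]
      have := Real.exp_one_lt_d9
      linarith
    have h3 : (1000000000 : ℝ) ≤ (zlo : ℝ) + 2 := by
      refine le_trans ?_ hzu
      rw [S9_val]
      nlinarith
    have h4 : 1000000000 ≤ zlo + 2 := by exact_mod_cast h3
    omega
  · -- N ≤ S9 log (z v) / 2
    rw [Real.log_mul hz0.ne' hv0.ne']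
    have h1 : (((zlo + lv) / 2 : ℕ) : ℝ) ≤ ((zlo + lv : ℕ) : ℝ) / 2 := Nat.cast_div_le
    push_cast at h1
    refine h1.trans ?_
    have e : (S9 : ℝ) * ((Real.log z + Real.log v) / 2)
        = (S9 * Real.log z + S9 * Real.log v) / 2 := by ring
    rw [e]
    linarith
  · rw [max_eq_left hvc]
    have h1 := hs.kap
    rw [Nat.cast_add, add_div]
    have h2 : A1 v ≤ (a1 : ℝ) / S9 := by
      rw [le_div_iff₀ hS]; linarith
    linarith

theorem sv_val (hSv : Stmt_Sv) {x v r q s z : ℕ} (hx : 70000 ≤ x) (hv : IsPrimePow v)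
    (hr : r = v.minFac) (hq : q = z.minFac)
    (hs : s = cond (Nat.beq r q) 0 (svF x v r)) :
    (s = 0 → v.minFac = z.minFac ∨ Sx x v = 0) ∧
    (s ≠ 0 → v.minFac ≠ z.minFac ∧ Sx x v = (s : ℝ) / 1000 ∧ s ≤ 1000) := by
  have h1 : svF x v v.minFac = svN x v v.minFac := hSv.1 x v hx hv
  by_cases hrq : r = q
  · have h2 : s = 0 := by
      have hb : Nat.beq r q = true := by
        cases hb : Nat.beq r q with
        | true => rfl
        | false => exact absurd hrq (Nat.ne_of_beq_eq_false hb)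
      rw [hs, hb]
      rfl
    refine ⟨fun _ => Or.inl (by rw [← hr, ← hq, hrq]), fun h3 => absurd h2 h3⟩
  · have h2 : Nat.beq r q = false := by
      cases hb : Nat.beq r q with
      | false => rfl
      | true => exact absurd (Nat.eq_of_beq_eq_true hb) hrq
    have h3 : s = svF x v r := by
      rw [hs, h2]; rfl
    rw [hr, h1] at h3
    constructor
    · intro h4
      right
      unfold Sx
      rw [← h3, h4]
      norm_num
    · intro _
      refine ⟨by rw [← hr, ← hq]; exact hrq, ?_, ?_⟩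
      · unfold Sx; rw [h3]
      · rw [h3]; exact svN_le _ _ _

end P1

open P1

theorem P1_proof : Stmt_Exp → Stmt_Cell → Stmt_Sv → Stmt_P1 := by
  intro hExp hCell hSv z q x zlo c k hR L
  have hR' := hR
  obtain ⟨hz, hq, hz11, hx, hxc, hc, hzl, hzu⟩ := hR
  induction L with
  | nil =>
    intro u D h Oa Oc P hT huc _ _ _ _ hP hk
    refine ⟨P, hk, PV_gap hP (Nat.zero_le u) (fun w h1 _ _ h2 => absurd h1 (hT w h2))⟩
  | cons en L ih =>
    obtain ⟨v, r, lv, lr, a1⟩ := en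
    intro u D h Oa Oc P hT huc hk1 hw1 hOa hOc hP hk
    obtain ⟨hvu, hno, hv, hr, hl1, hl2, hlr, hA, hT'⟩ := hT
    dsimp only at hvu hno hv hr hl1 hl2 hlr hA hT'
    have hv1 := hv.one_lt
    have hvc : v ≤ c := hvu.trans huc
    have hst : St z x c v D h Oc := St.gap ⟨hk1, hw1, hOc⟩ hvu hno
    have hOav := Oa_gap hOa hno
    have hPv : PV z x c v P := PV_gap hP hvu (fun w h1 _ h2 h3 => absurd h1 (hno w h2 h3))
    rw [pass1_cons] at hk
    generalize hs : cond (Nat.beq r q) 0 (svF x v r) = s at hk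
    obtain ⟨hs0, hs1⟩ := sv_val hSv hx hv hr hq hs.symm
    by_cases h0 : s = 0
    · subst h0
      have hk' : pass1 z q x zlo k L (D + cdv (lv + 2) v) h Oa Oc P = true := hk
      have h2 := hst.zero hv hvc (hs0 rfl) hl2
      refine ih (v - 1) _ _ _ _ _ hT' (by omega) h2.kap h2.wt (Oa_zero hOav (hs0 rfl)) h2.oc
        (PV_gap hPv (Nat.sub_le v 1) (fun w h3 h4 h5 h6 => ?_)) hk'
      have : w = v := by omega
      subst this
      rcases hs0 rfl with h7 | h7
      · exact absurd h7 h4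
      · exact h7
    · obtain ⟨hrz, hsx, hs2⟩ := hs1 h0
      have hb : Nat.beq s 0 = false := by
        cases hb : Nat.beq s 0 with
        | false => rfl
        | true => exact absurd (Nat.eq_of_beq_eq_true hb) h0
      dsimp only at hk
      rw [hb, cond_false] at hk
      obtain ⟨e, hke, he⟩ := cell_single hCell hSv hR' hst hv hvc hrz hl1 hA hk
      by_cases hee : e ≤ 2000000000
      · rw [ble_of_le hee, cond_true] at hke
        obtain ⟨E, hkE, hE⟩ := hExp.1 e _ hke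
        have hcell := he hee
        have hE2 := hE hee
        have h2 := hst.pos hv hvc hr hrz hsx hs2 hzu hl2 hlr
        have h3 := Oa_pos hOav hv hr hsx
        have hb2 := wdF_bounds (s := s) (v := v) (by omega)
        have hv0 : (0 : ℝ) < v := by exact_mod_cast (by omega : 0 < v)
        have hg := gF_ok (w := (s : ℝ) / 1000 / v) (by positivity) hb2.1 hb2.2 hE2
        refine ih (v - 1) _ _ _ _ _ hT' (by omega) h2.kap h2.wt h3 h2.oc
          (PV.step (v - 1) v _ P (by omega) (fun w h4 h5 h6 h7 h8 => ?_) ⟨h2.wt, h3⟩ hPv) hkE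
        have : w = v := by omega
        subst this
        exact ⟨_, hcell, by rw [hsx]; exact hg⟩
      · rw [ble_false (by omega), cond_false] at hke
        exact absurd hke (by simp)

end Pool.Agent.EZ
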