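import Pool.Agent.EZ.EngLem

/-!
# The numerical engine: the blocks
-/

set_option autoImplicit false
set_option linter.unusedVariables false
set_option linter.unusedSectionVars false

namespace Pool.Agent.EZ

open Finset

namespace EngPB

/-- the cells of a block -/
theorem block_cell (hCell : Stmt_Cell) (hSv : Stmt_Sv) {z q x zlo c : ℕ} (hr : Run z q x zlo c)
    {X ll lu Xhi a1 : ℕ} (hcX : c ≤ X)
    (hll : (ll : ℝ) ≤ (S9 : ℝ) * Real.log X) (hlu : (S9 : ℝ) * Real.log X ≤ (lu : ℝ))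
    (ha1 : (S9 : ℝ) * A1 Xhi ≤ (a1 : ℝ)) (k : ℕ → Bool)
    (h : cellK (z * X) (z * Xhi) ((zlo + ll) / 2) a1
      (cdv (2 * max (zlo + 2) lu + 1386294362) X) k = true) :
    ∃ e : ℕ, k e = true ∧ (e ≤ 2000000000 → ∀ v, IsPrimePow v → v.minFac ≠ z.minFac → X < v →
      v ≤ Xhi → CellOK z x c v ((e : ℝ) / S9)) := by
  obtain ⟨e, h1, h2⟩ := hCell _ _ _ _ _ k h
  refine ⟨e, h1, fun he v hv hvz hXv hvX => ?_⟩
  have hz2 := run_pos hr
  obtain ⟨hz, hq, h11, hx7, hxc, hc64, hz1, hz3⟩ := hr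
  have hX3 : 3 ≤ X := by omega
  have hX0 : (0 : ℝ) < X := by exact_mod_cast (by omega : 0 < X)
  have hXv' : (X : ℝ) ≤ v := by exact_mod_cast hXv.le
  have hz0 : (0 : ℝ) < z := by exact_mod_cast (by omega : 0 < z)
  have hlogv : Real.log X ≤ Real.log v := Real.log_le_log hX0 hXv'
  have hS := S9_pos
  refine h2 he z x c v hz hv hvz (fun w hw hcw _ => hSv.2 x w c hx7 hxc hc64 hcw hw) ?_ ?_ ?_ ?_ ?_
    ?_ ?_
  · exact Nat.mul_pos (by omega) (by omega)
  · exact Nat.mul_le_mul_left z hXv.le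
  · exact Nat.mul_le_mul_left z hvX
  · omega
  · have e1 : (((zlo + ll) / 2 : ℕ) : ℝ) ≤ ((zlo + ll : ℕ) : ℝ) / 2 := Nat.cast_div_le
    push_cast at e1
    rw [Real.log_mul hz0.ne' (by linarith)]
    nlinarith
  · rw [kapv_eq z x c v (by omega), le_div_iff₀ hS, mul_comm]
    exact (mul_le_mul_of_nonneg_left (A1_mono hvX) hS.le).trans ha1
  · refine OcOK.mono (ocOK z x X hX3 (by omega)) hXv.le ?_
    rw [le_div_iff₀ hS]
    refine le_trans ?_ (cdv_ge _ _ (by omega))
    rw [div_mul_eq_mul_div]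
    apply div_le_div_of_nonneg_right _ hX0.le
    push_cast
    have hl2 := Real.log_two_lt_d9
    have hm : max (Real.log z) (Real.log X) * S9 ≤ max ((zlo : ℝ) + 2) (lu : ℝ) := by
      rcases max_cases (Real.log (z : ℝ)) (Real.log X) with ⟨hm, _⟩ | ⟨hm, _⟩
      · rw [hm, mul_comm]; exact hz3.trans (le_max_left _ _)
      · rw [hm, mul_comm]; exact hlu.trans (le_max_right _ _)
    rw [S9_eq] at hm ⊢
    nlinarith

theorem passB_cons (z zlo c hf : ℕ) (k : BEnt → List Piece → Bool) (b : BEnt) (L : List BEnt)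
    (Xhi a1 : ℕ) (P : List Piece) : passB z zlo c hf k (b :: L) Xhi a1 P =
    cellK (z * b.1) (z * Xhi) ((zlo + b.2.1) / 2) a1
      (cdv (2 * max (zlo + 2) b.2.2.1 + 1386294362) b.1) (fun e0 =>
      cond (Nat.ble (cond (Nat.ble 10000 b.1) (min e0 918000000) e0) 2000000000)
        (expK (cond (Nat.ble 10000 b.1) (min e0 918000000) e0) fun E =>
          cond (Nat.ble b.1 c)
            (cond (Nat.beq b.1 c) (k b ((E, b.2.2.2.2.1, cdv 2000000000 b.1) :: P)) false)
            (passB z zlo c hf k L b.1 b.2.2.2.1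
              ((E, cdv (b.2.2.2.2.1 * hf) S9, cdv 2000000000 b.1) :: P)))
        false) := by
  have h : passB z zlo c hf k (b :: L) Xhi a1 P = (frc b.1 fun X => frc b.2.1 fun ll =>
      frc b.2.2.1 fun lu =>
      cellK (Nat.mul z X) (Nat.mul z Xhi) (Nat.div (Nat.add zlo ll) 2) a1
        (cdv (Nat.add (Nat.mul 2 (Nat.max (Nat.add zlo 2) lu)) 1386294362) X) fun e0 =>
      frc (cond (Nat.ble 10000 X) (Nat.min e0 918000000) e0) fun e =>
      cond (Nat.ble e 2000000000)
        (expK e fun E => frc (cdv 2000000000 X) fun o =>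
          cond (Nat.ble X c)
            (cond (Nat.beq X c) (k b ((E, b.2.2.2.2.1, o) :: P)) false)
            (frc (cdv (Nat.mul b.2.2.2.2.1 hf) S9) fun h =>
              passB z zlo c hf k L X b.2.2.2.1 ((E, h, o) :: P)))
        false) := rfl
  rw [h]
  simp only [frc_eq]
  rfl

/-- the cap of a block -/
theorem cap_ok (z x X : ℕ) (hX : 1 ≤ X) : OaOK z x X ((cdv 2000000000 X : ℝ) / S9) := by
  have hX0 : (0 : ℝ) < X := by exact_mod_cast hX
  refine OaOK.mono (oaOK z x X hX) le_rfl ?_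
  rw [le_div_iff₀ S9_pos]
  refine le_trans (le_of_eq ?_) (cdv_ge _ _ hX)
  rw [S9_eq]
  push_cast
  ring

/-- the weight at the left end of a block -/
theorem weight_ok (hSv : Stmt_Sv) {z q x zlo c hf : ℕ} (hr : Run z q x zlo c)
    (hhf : (S9 : ℝ) * Real.exp (2 / c) ≤ (hf : ℝ)) {X h0 : ℕ} (hcX : c < X)
    (hh : (S9 : ℝ) * Real.exp (0.4575 - Hpp X) ≤ (h0 : ℝ)) :
    Real.exp (0.4575 - Mz z x c - Wt z x X) ≤ (cdv (h0 * hf) S9 : ℝ) / S9 := by
  obtain ⟨hz, hq, h11, hx7, hxc, hc64, hz1, hz3⟩ := hr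
  have hS := S9_pos
  have h1 := HW_ge z x c X (by omega) hcX.le (fun w hw hcw _ => hSv.2 x w c hx7 hxc hc64 hcw hw)
  have h2 : Real.exp (0.4575 - Mz z x c - Wt z x X) ≤
      Real.exp (0.4575 - Hpp X) * Real.exp (2 / c) := by
    rw [← Real.exp_add]
    apply Real.exp_le_exp.2
    linarith
  refine h2.trans ?_
  rw [le_div_iff₀ hS]
  refine le_trans ?_ (cdv_ge _ _ (by unfold S9; norm_num))
  rw [le_div_iff₀ hS]
  push_cast
  have h3 : (S9 : ℝ) * Real.exp (0.4575 - Hpp X) * ((S9 : ℝ) * Real.exp (2 / c)) ≤ h0 * hf :=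
    mul_le_mul hh hhf (by positivity) ((by positivity : (0 : ℝ) ≤ _).trans hh)
  linarith

theorem weight_eq (hSv : Stmt_Sv) {z q x zlo c : ℕ} (hr : Run z q x zlo c) {h0 : ℕ}
    (hh : (S9 : ℝ) * Real.exp (0.4575 - Hpp c) ≤ (h0 : ℝ)) :
    Real.exp (0.4575 - Mz z x c - Wt z x c) ≤ (h0 : ℝ) / S9 := by
  obtain ⟨hz, hq, h11, hx7, hxc, hc64, hz1, hz3⟩ := hr
  have h1 := HW_eq z x c (fun w hw hcw _ => hSv.2 x w c hx7 hxc hc64 hcw hw)
  rw [le_div_iff₀ S9_pos, mul_comm, sub_sub, ← h1]
  exact hh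

end EngPB

open EngPB

theorem PB_proof (hExp : Stmt_Exp) (hCell : Stmt_Cell) (hSv : Stmt_Sv) (hHi : Stmt_Hi) : Stmt_PB := by
  intro z q x zlo c hf k hr hhf L
  induction L with
  | nil => intro Xhi a1 P _ _ _ _ h; exact Bool.noConfusion h
  | cons b L ih =>
    intro Xhi a1 P hL hcX ha1 hP h
    obtain ⟨hb1, hb2, hb3, hb4⟩ := hL
    rw [passB_cons] at h
    have hbOK := hb2
    obtain ⟨hll, hlu, hA, hH⟩ := hb2
    -- the left end is at least `c`
    have hcb : c ≤ b.1 := by
      by_contra hc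
      have hble : Nat.ble b.1 c = true := Nat.ble_eq_true_of_le (by omega)
      have hbeq : Nat.beq b.1 c = false := by
        cases hh : Nat.beq b.1 c
        · rfl
        · exact absurd (Nat.eq_of_beq_eq_true hh) (by omega)
      obtain ⟨e0, h1, _⟩ := hCell _ _ _ _ _ _ h
      cases hble2 : Nat.ble (cond (Nat.ble 10000 b.1) (min e0 918000000) e0) 2000000000
      · rw [hble2] at h1; exact Bool.noConfusion h1
      · rw [hble2, cond_true] at h1
        obtain ⟨E, h3, _⟩ := hExp.1 _ _ h1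
        rw [hble, hbeq] at h3
        exact Bool.noConfusion h3
    obtain ⟨e0, h1, h2⟩ := block_cell hCell hSv hr hcb hll hlu ha1 _ h
    have hr' := hr
    obtain ⟨hz, hq, h11, hx7, hxc, hc64, hz1, hz3⟩ := hr'
    set e := cond (Nat.ble 10000 b.1) (min e0 918000000) e0 with he
    have hble : Nat.ble e 2000000000 = true := by
      cases hh : Nat.ble e 2000000000
      · rw [hh] at h1; exact Bool.noConfusion h1
      · rfl
    have hle : e ≤ 2000000000 := Nat.le_of_ble_eq_true hble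
    rw [hble, cond_true] at h1
    obtain ⟨E, h3, h4⟩ := hExp.1 _ _ h1
    have hE := h4 hle
    -- the level
    have hcell : ∀ v, IsPrimePow v → v.minFac ≠ z.minFac → b.1 < v → v ≤ Xhi →
        CellOK z x c v ((e : ℝ) / S9) := by
      intro v hv hvz hbv hvX
      by_cases h10 : 10000 ≤ b.1
      · have hb10 : Nat.ble 10000 b.1 = true := Nat.ble_eq_true_of_le h10
        rw [hb10, cond_true] at he
        rcases le_total e0 918000000 with hm | hm
        · rw [min_eq_left hm] at he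
          rw [he]
          exact h2 (by omega) v hv hvz hbv hvX
        · rw [min_eq_right hm] at he
          have := hHi z x c v hz hv hvz (fun w hw hcw _ => hSv.2 x w c hx7 hxc hc64 hcw hw)
            (by omega) h11 (by omega)
          rw [he, S9_eq]
          norm_num at this ⊢
          exact this
      · have hb10 : Nat.ble 10000 b.1 = false := by
          cases hh : Nat.ble 10000 b.1
          · rfl
          · exact absurd (Nat.le_of_ble_eq_true hh) h10
        rw [hb10, cond_false] at he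
        rw [he]
        exact h2 (by omega) v hv hvz hbv hvX
    have hlev : ∀ p : Piece, p.1 = E → ∀ v, IsPrimePow v → v.minFac ≠ z.minFac → 0 < Sx x v →
        b.1 < v → v ≤ Xhi → PL z x c v p := by
      intro p hp v hv hvz _ hbv hvX
      refine ⟨(e : ℝ) / S9, hcell v hv hvz hbv hvX, ?_⟩
      rw [hp]
      refine le_trans ?_ hE
      apply Real.exp_le_exp.2
      have := Sx_div_nonneg x v
      linarith
    cases hbc : Nat.ble b.1 c
    · rw [hbc, cond_false] at h3
      have hcb' : c < b.1 := by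
        by_contra hc
        rw [Nat.ble_eq_true_of_le (not_lt.1 hc)] at hbc
        exact absurd hbc (by decide)
      refine ih b.1 b.2.2.2.1 _ hb4 hcb hA ?_ h3
      refine PV.step b.1 Xhi _ P hb1 (hlev _ rfl) ⟨?_, cap_ok z x b.1 (by omega)⟩ hP
      exact weight_ok hSv hr hhf hcb' hH
    · rw [hbc, cond_true] at h3
      cases hbe : Nat.beq b.1 c
      · rw [hbe] at h3; exact Bool.noConfusion h3
      · rw [hbe, cond_true] at h3
        have hbc' : b.1 = c := Nat.eq_of_beq_eq_true hbe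
        refine ⟨b, _, h3, hbc', hbOK, ?_⟩
        have hPW : PW z x c c (E, b.2.2.2.2.1, cdv 2000000000 b.1) := by
          refine ⟨?_, ?_⟩
          · exact weight_eq hSv hr (by rw [← hbc']; exact hH)
          · simp only
            rw [hbc']
            exact cap_ok z x c (by omega)
        have hlev' := hlev (E, b.2.2.2.2.1, cdv 2000000000 b.1) rfl
        rw [hbc'] at hlev'
        exact PV.step c Xhi _ P (by omega) (by rw [hbc']; exact hlev') hPW hP

end Pool.Agent.EZ
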