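import Pool.Agent.EZ.TL
import Pool.Agent.EZ.Cap

/-!
# Shared tools for the L-modules: prime weights, `phi`, values of `hh` and `Tz`
-/

set_option autoImplicit false
set_option linter.unusedSectionVars false
set_option linter.unusedVariables false

namespace Pool.Agent.EZ.LT

open Finset

/-! ### prime weights -/

theorem pw_geom {r : ℕ} (hr : 2 ≤ r) (K m : ℕ) :
    ∑ k ∈ Ico K (K + m), 1 / ((r : ℝ) ^ (k + 1)) ≤ 1 / ((r : ℝ) ^ K * (r - 1)) -
      1 / ((r : ℝ) ^ (K + m) * (r - 1)) := by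
  have hr' : (2 : ℝ) ≤ r := by exact_mod_cast hr
  have hr1 : (0 : ℝ) < (r : ℝ) - 1 := by linarith
  have hr0 : (0 : ℝ) < (r : ℝ) := by linarith
  induction m with
  | zero => simp
  | succ m ih =>
    rw [← Nat.add_assoc, Finset.sum_Ico_succ_top (by omega)]
    have e : 1 / ((r : ℝ) ^ (K + m + 1)) = 1 / ((r : ℝ) ^ (K + m) * (r - 1)) -
        1 / ((r : ℝ) ^ (K + m + 1) * (r - 1)) := by
      rw [pow_succ]
      field_simp
    linarith

/-- the weight of the powers of a prime `r`. -/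
theorem pw_le {x r : ℕ} (hr : r.Prime) (K : ℕ) (VS : Finset ℕ) (hVS : ∀ v ∈ VS, IsPrimePow v) :
    ∑ v ∈ VS.filter (fun v => v.minFac = r), Sx x v / (v : ℝ) ≤
      ∑ k ∈ range K, Sx x (r ^ (k + 1)) / ((r : ℝ) ^ (k + 1)) + 1 / ((r : ℝ) ^ K * (r - 1)) := by
  have hr2 := hr.two_le
  have hr' : (2 : ℝ) ≤ r := by exact_mod_cast hr2
  have hr1 : (0 : ℝ) < (r : ℝ) - 1 := by linarith
  have hr0 : (0 : ℝ) < (r : ℝ) := by linarith
  have h0 : (0 : ℝ) ≤ ∑ k ∈ range K, Sx x (r ^ (k + 1)) / ((r : ℝ) ^ (k + 1)) :=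
    Finset.sum_nonneg fun k _ => div_nonneg (Sx_nonneg _ _) (by positivity)
  rcases sum_over_prime VS hVS r (fun v => Sx x v / (v : ℝ))
    (fun w => div_nonneg (Sx_nonneg _ _) (Nat.cast_nonneg _)) with h | ⟨-, N, h⟩
  · rw [h]
    have : (0 : ℝ) ≤ 1 / ((r : ℝ) ^ K * (r - 1)) := by positivity
    linarith
  · refine h.trans ?_
    have e1 : ∑ k ∈ Icc 1 N, Sx x (r ^ k) / ((r ^ k : ℕ) : ℝ) =
        ∑ k ∈ range N, Sx x (r ^ (k + 1)) / ((r : ℝ) ^ (k + 1)) := by
      rw [Finset.range_eq_Ico, Finset.sum_Ico_add' (fun k => Sx x (r ^ k) / ((r : ℝ) ^ k)) 0 N 1]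
      apply Finset.sum_congr
      · ext a; simp only [Finset.mem_Icc, Finset.mem_Ico]; omega
      · intro k _; push_cast; rfl
    rw [e1]
    have e2 : ∑ k ∈ range N, Sx x (r ^ (k + 1)) / ((r : ℝ) ^ (k + 1)) ≤
        ∑ k ∈ range (K + N), Sx x (r ^ (k + 1)) / ((r : ℝ) ^ (k + 1)) := by
      apply Finset.sum_le_sum_of_subset_of_nonneg
      · intro a ha; rw [Finset.mem_range] at ha ⊢; omega
      · intro k _ _; exact div_nonneg (Sx_nonneg _ _) (by positivity)
    have e3 : ∑ k ∈ range (K + N), Sx x (r ^ (k + 1)) / ((r : ℝ) ^ (k + 1)) =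
        ∑ k ∈ range K, Sx x (r ^ (k + 1)) / ((r : ℝ) ^ (k + 1)) +
        ∑ k ∈ Ico K (K + N), Sx x (r ^ (k + 1)) / ((r : ℝ) ^ (k + 1)) := by
      rw [Finset.sum_range_add_sum_Ico _ (by omega)]
    have e4 : ∑ k ∈ Ico K (K + N), Sx x (r ^ (k + 1)) / ((r : ℝ) ^ (k + 1)) ≤
        ∑ k ∈ Ico K (K + N), 1 / ((r : ℝ) ^ (k + 1)) := by
      apply Finset.sum_le_sum
      intro k _
      exact div_le_div_of_nonneg_right (Sx_le_one _ _) (by positivity)
    have e5 := pw_geom hr2 K N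
    have e6 : (0 : ℝ) ≤ 1 / ((r : ℝ) ^ (K + N) * (r - 1)) := by positivity
    linarith

theorem pw_zero {x r : ℕ} (hr : ¬ r.Prime) (VS : Finset ℕ) (hVS : ∀ v ∈ VS, IsPrimePow v) :
    ∑ v ∈ VS.filter (fun v => v.minFac = r), Sx x v / (v : ℝ) = 0 := by
  rcases sum_over_prime VS hVS r (fun v => Sx x v / (v : ℝ))
    (fun w => div_nonneg (Sx_nonneg _ _) (Nat.cast_nonneg _)) with h | ⟨h, -⟩
  · exact h
  · exact absurd h hr

theorem pw_self {x p : ℕ} (VS : Finset ℕ) (hVS : ∀ v ∈ VS, v.minFac ≠ p) :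
    ∑ v ∈ VS.filter (fun v => v.minFac = p), Sx x v / (v : ℝ) = 0 := by
  rw [Finset.filter_false_of_mem hVS, Finset.sum_empty]

/-! ### `phi` -/

theorem phi_den {L a : ℝ} (hL : 0 < L) (ha : 0 ≤ a) (ha1 : a ≤ 1) : 0 < a + L * (1 - a) := by
  rcases eq_or_lt_of_le ha with h0 | h0
  · rw [← h0]; simpa using hL
  · have : 0 ≤ L * (1 - a) := mul_nonneg hL.le (by linarith)
    linarith

theorem phi_nonneg {L a : ℝ} (hL : 0 < L) (ha : 0 ≤ a) (ha1 : a ≤ 1) : 0 ≤ phi L a :=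
  div_nonneg (mul_nonneg hL.le (by linarith)) (phi_den hL ha ha1).le

theorem phi_le_one {L a : ℝ} (hL : 0 < L) (ha : 0 ≤ a) (ha1 : a ≤ 1) : phi L a ≤ 1 := by
  unfold phi
  rw [div_le_one (phi_den hL ha ha1)]
  linarith

theorem phi_anti {L a b : ℝ} (hL : 0 < L) (ha : 0 ≤ a) (hab : a ≤ b) (hb1 : b ≤ 1) :
    phi L b ≤ phi L a := by
  unfold phi
  rw [div_le_div_iff₀ (phi_den hL (ha.trans hab) hb1) (phi_den hL ha (hab.trans hb1))]
  nlinarith [mul_nonneg hL.le (sub_nonneg.2 hab)]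

theorem phi_mono {L L' a : ℝ} (hL : 0 < L) (hLL : L ≤ L') (ha : 0 ≤ a) (ha1 : a ≤ 1) :
    phi L a ≤ phi L' a := by
  unfold phi
  rw [div_le_div_iff₀ (phi_den hL ha ha1) (phi_den (hL.trans_le hLL) ha ha1)]
  nlinarith [mul_nonneg (mul_nonneg (sub_nonneg.2 hLL) ha) (sub_nonneg.2 ha1)]

theorem phi_antitoneOn {L : ℝ} (hL : 0 < L) : AntitoneOn (phi L) (Set.Icc 0 1) :=
  fun _ ha _ hb hab => phi_anti hL ha.1 hab hb.2

theorem phi_chord {L s a t : ℝ} (hL : 0 < L) (hL1 : L ≤ 1) (hs : 0 ≤ s) (hsa : s ≤ a) (hat : a ≤ t)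
    (ht : t ≤ 1) : (t - s) * phi L a ≤ (t - a) * phi L s + (a - s) * phi L t := by
  have d1 := phi_den hL hs (hsa.trans (hat.trans ht))
  have d2 := phi_den hL (hs.trans hsa) (hat.trans ht)
  have d3 := phi_den hL (hs.trans (hsa.trans hat)) ht
  have key : (t - a) * phi L s + (a - s) * phi L t - (t - s) * phi L a =
      L * (t - a) * (a - s) * ((1 - L) * (t - s)) /
        ((s + L * (1 - s)) * (a + L * (1 - a)) * (t + L * (1 - t))) := by
    unfold phi
    field_simp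
    ring
  have : 0 ≤ L * (t - a) * (a - s) * ((1 - L) * (t - s)) /
        ((s + L * (1 - s)) * (a + L * (1 - a)) * (t + L * (1 - t))) := by
    apply div_nonneg
    · exact mul_nonneg (mul_nonneg (mul_nonneg hL.le (by linarith)) (by linarith))
        (mul_nonneg (by linarith) (by linarith))
    · positivity
  linarith

theorem phi_convexOn {L : ℝ} (hL : 0 < L) (hL1 : L ≤ 1) : ConvexOn ℝ (Set.Icc 0 1) (phi L) := by
  refine ⟨convex_Icc 0 1, ?_⟩
  intro x hx y hy a b ha hb hab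
  wlog hxy : x ≤ y generalizing x y a b with H
  · have := H hy hx hb ha (by linarith) (le_of_not_ge hxy)
    rw [add_comm (a • x), add_comm (a • phi L x)]
    exact this
  · rcases eq_or_lt_of_le hxy with h | h
    · subst h
      have : a • x + b • x = x := by rw [← add_smul, hab, one_smul]
      rw [this]
      have : a • phi L x + b • phi L x = phi L x := by rw [← add_smul, hab, one_smul]
      rw [this]
    · have e1 : y - (a * x + b * y) = a * (y - x) := by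
        have : a = 1 - b := by linarith
        rw [this]; ring
      have e2 : a * x + b * y - x = b * (y - x) := by
        have : a = 1 - b := by linarith
        rw [this]; ring
      have hz1 : x ≤ a • x + b • y := by
        simp only [smul_eq_mul]
        have := mul_nonneg hb (sub_nonneg.2 hxy)
        linarith
      have hz2 : a • x + b • y ≤ y := by
        simp only [smul_eq_mul]
        have := mul_nonneg ha (sub_nonneg.2 hxy)
        linarith
      have h1 := phi_chord hL hL1 hx.1 hz1 hz2 hy.2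
      simp only [smul_eq_mul] at h1 ⊢
      rw [e1, e2] at h1
      have h2 : 0 < y - x := by linarith
      have h3 : (y - x) * phi L (a * x + b * y) ≤ (y - x) * (a * phi L x + b * phi L y) := by
        linarith
      exact le_of_mul_le_mul_left h3 h2

/-! ### values of `hh` and `Tz` -/

/-- `1 / (k p^k)`. -/
noncomputable def gz (p k : ℕ) : ℝ := 1 / ((k : ℝ) * (p : ℝ) ^ k)

theorem gz_nonneg (p k : ℕ) : 0 ≤ gz p k := by unfold gz; positivity

theorem hh_pow (p k : ℕ) : hh ((p : ℝ) ^ k) = gz p k / Real.log p := by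
  unfold hh gz
  rw [Real.log_pow, div_div]
  congr 1
  ring

theorem gz_le {p : ℕ} (hp : 2 ≤ p) {N k : ℕ} (hN : 0 < N) (hk : N ≤ k) :
    gz p k ≤ 1 / (N : ℝ) * (1 / (p : ℝ) ^ k) := by
  have hp' : (2 : ℝ) ≤ p := by exact_mod_cast hp
  unfold gz
  rw [one_div_mul_one_div]
  apply one_div_le_one_div_of_le (by positivity)
  have : (N : ℝ) ≤ k := by exact_mod_cast hk
  exact mul_le_mul_of_nonneg_right this (by positivity)

theorem hasSum_geo {p : ℕ} (hp : 2 ≤ p) (N : ℕ) :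
    HasSum (fun i : ℕ => 1 / (p : ℝ) ^ (N + i)) (1 / (p : ℝ) ^ N * (p / (p - 1))) := by
  have hp' : (2 : ℝ) ≤ p := by exact_mod_cast hp
  have h : HasSum (fun i : ℕ => (1 / (p : ℝ)) ^ i) (1 - 1 / (p : ℝ))⁻¹ := by
    apply hasSum_geometric_of_lt_one (by positivity)
    rw [div_lt_one (by positivity)]
    linarith
  have h2 := h.mul_left (1 / (p : ℝ) ^ N)
  have e : (1 - 1 / (p : ℝ))⁻¹ = p / (p - 1) := by
    have h3 : (p : ℝ) ≠ 0 := by positivity
    have h4 : (p : ℝ) - 1 ≠ 0 := by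
      intro h; linarith
    field_simp
  rw [e] at h2
  have e2 : (fun i : ℕ => 1 / (p : ℝ) ^ (N + i)) =
      fun i : ℕ => 1 / (p : ℝ) ^ N * (1 / (p : ℝ)) ^ i := by
    funext i
    rw [pow_add, one_div_pow, one_div_mul_one_div]
  rw [e2]
  exact h2

/-- the (rational) sum `∑_{k > e} 1/(k p^k)`. -/
noncomputable def Gz (p e : ℕ) : ℝ := ∑' i : ℕ, gz p (e + 1 + i)

theorem gz_summable {p : ℕ} (hp : 2 ≤ p) (e : ℕ) : Summable (fun i : ℕ => gz p (e + 1 + i)) := by
  refine Summable.of_nonneg_of_le (fun i => gz_nonneg _ _) (fun i => ?_)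
    (((hasSum_geo hp (e + 1)).summable).mul_left (1 / ((e + 1 : ℕ) : ℝ)))
  exact gz_le hp (Nat.succ_pos e) (by omega)

theorem Tz_eq (p e : ℕ) : Tz p e = Gz p e / Real.log p := by
  unfold Tz Gz
  simp_rw [hh_pow]
  exact tsum_div_const

/-- `T = first n terms + rest`. -/
theorem Gz_split {p : ℕ} (hp : 2 ≤ p) (e n : ℕ) :
    Gz p e = ∑ i ∈ range n, gz p (e + 1 + i) + Gz p (e + n) := by
  unfold Gz
  rw [← (gz_summable hp e).sum_add_tsum_nat_add n]
  congr 1
  apply tsum_congr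
  intro i
  congr 1
  ring

theorem Gz_nonneg (p e : ℕ) : 0 ≤ Gz p e := tsum_nonneg fun i => gz_nonneg _ _

theorem Gz_lb {p : ℕ} (hp : 2 ≤ p) (e n : ℕ) :
    ∑ i ∈ range n, gz p (e + 1 + i) ≤ Gz p e := by
  rw [Gz_split hp e n]
  linarith [Gz_nonneg p (e + n)]

theorem Gz_ub {p : ℕ} (hp : 2 ≤ p) (e : ℕ) :
    Gz p e ≤ 1 / ((e + 1 : ℕ) : ℝ) * (1 / (p : ℝ) ^ e * (1 / (p - 1))) := by
  have hp' : (2 : ℝ) ≤ p := by exact_mod_cast hp
  have h := (hasSum_geo hp (e + 1)).mul_left (1 / ((e + 1 : ℕ) : ℝ))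
  have h2 : Gz p e ≤ _ := Summable.tsum_le_tsum (fun i => gz_le hp (Nat.succ_pos e) (by omega))
    (gz_summable hp e) h.summable
  refine h2.trans (le_of_eq ?_)
  rw [h.tsum_eq]
  have h4 : (p : ℝ) - 1 ≠ 0 := by
    intro h; linarith
  have h5 : (p : ℝ) ≠ 0 := by positivity
  rw [pow_succ]
  field_simp

/-- upper bound by the first `n` terms and a geometric tail. -/
theorem Gz_ub' {p : ℕ} (hp : 2 ≤ p) (e n : ℕ) :
    Gz p e ≤ ∑ i ∈ range n, gz p (e + 1 + i) +
      1 / ((e + n + 1 : ℕ) : ℝ) * (1 / (p : ℝ) ^ (e + n) * (1 / (p - 1))) := by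
  rw [Gz_split hp e n]
  linarith [Gz_ub hp (e + n)]

theorem log_pos' {p : ℕ} (hp : 2 ≤ p) : 0 < Real.log p :=
  Real.log_pos (by exact_mod_cast hp)

end Pool.Agent.EZ.LT
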