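import Pool.Agent.EZ.EngRun
import Pool.Agent.EZ.LTools
import Pool.Agent.EZ.EngDefs2

/-!
# The numerical engine: primes and powers
-/

set_option autoImplicit false

namespace Pool.Agent.EZ

open Finset

theorem ck_primeE {z : ℕ} (hz : z.Prime) (h11 : 11 ≤ z) (j : ℕ) :
    ck z z j = (z - 2) * 13 ^ j * 10 ^ (4 - j) := by
  have h16 : z ≠ 16 := by rintro rfl; exact absurd hz (by norm_num)
  have h25 : z ≠ 25 := by rintro rfl; exact absurd hz (by norm_num)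
  have h27 : z ≠ 27 := by rintro rfl; exact absurd hz (by norm_num)
  have h32 : z ≠ 32 := by rintro rfl; exact absurd hz (by norm_num)
  have h64 : z ≠ 64 := by rintro rfl; exact absurd hz (by norm_num)
  unfold ck
  rw [if_neg (by omega), if_neg (by omega), if_neg (by omega), if_neg (by omega),
    if_neg (by omega), if_neg (by omega), if_neg (by omega), if_neg h16, if_neg h25, if_neg h27,
    if_neg h32, if_neg h64, if_pos rfl]

theorem pk_primeE {z : ℕ} (h11 : 11 ≤ z) : pk z z 0 = 231 ∧ pk z z 1 = 178 ∧ pk z z 2 = 136 ∧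
    pk z z 3 = 105 ∧ pk z z 4 = 350 := by
  unfold pk
  rw [if_neg (by omega), if_neg (by omega), if_neg (by omega), if_neg (by omega),
    if_pos ⟨h11, rfl⟩]
  simp [if_neg (by omega : ¬ z = 3), if_neg (by omega : ¬ z = 5), if_neg (by omega : ¬ z = 7),
    if_neg (by omega : ¬ z = 9), h11]

/-- lower bound for `Tz`. -/
theorem Tz_ge {z : ℕ} (hz : 2 ≤ z) :
    (6 * (z : ℝ) ^ 2 + 4 * z + 3) / (12 * (z : ℝ) ^ 4) / Real.log z ≤ Tz z 1 := by
  rw [LT.Tz_eq]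
  apply div_le_div_of_nonneg_right _ (Real.log_nonneg (by
    have : 1 ≤ z := by omega
    exact_mod_cast this))
  refine le_trans (le_of_eq ?_) (LT.Gz_lb hz 1 3)
  have hz0 : (z : ℝ) ≠ 0 := by
    have : z ≠ 0 := by omega
    exact_mod_cast this
  simp only [Finset.sum_range_succ, Finset.sum_range_zero, LT.gz]
  push_cast
  field_simp
  ring

theorem prime_of_run (hR : Stmt_Run) {z zlo c0 c1 c2 c3 c4 : ℕ} (hz : z.Prime) (h11 : 11 ≤ z)
    (hz1 : (zlo : ℝ) ≤ (S9 : ℝ) * Real.log z) (hz2 : (S9 : ℝ) * Real.log z ≤ (zlo : ℝ) + 2)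
    (hc0 : 64 ≤ c0 ∧ c0 ≤ 2521 ∧ (z - 2) * 10000 ≤ 5000 * c0)
    (hc1 : 64 ≤ c1 ∧ c1 ≤ 2521 ∧ (z - 2) * 13000 ≤ 5000 * c1)
    (hc2 : 64 ≤ c2 ∧ c2 ≤ 2521 ∧ (z - 2) * 16900 ≤ 5000 * c2)
    (hc3 : 64 ≤ c3 ∧ c3 ≤ 2521 ∧ (z - 2) * 21970 ≤ 5000 * c3)
    (hc4 : 64 ≤ c4 ∧ c4 ≤ 2521 ∧ (z - 2) * 28561 ≤ 5000 * c4)
    (h : primeK z zlo c0 c1 c2 c3 c4 = true) :
    ∃ l t : Fin 5 → ℝ,
  (∀ j : Fin 5, LINB z (ck z z j) (l j) ∧ TOPB z (ck z z j) (t j) ∧ 0 ≤ l j ∧ 0 ≤ t j) ∧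
  ∑ j, qD z j * l j ≤ 0.93 ∧ (∑ j, qD z j * t j) * hh (z : ℝ) ≤ 0.96 * Tz z 1 := by
  have hmf : z = z.minFac := hz.minFac_eq.symm
  have h70 : ∀ m, 10000 ≤ m → 70000 ≤ (z - 2) * m := fun m hm => by
    have : 9 * 10000 ≤ (z - 2) * m := Nat.mul_le_mul (by omega) hm
    omega
  have mk : ∀ m c, 10000 ≤ m → 64 ≤ c ∧ c ≤ 2521 ∧ (z - 2) * m ≤ 5000 * c →
      Run z z ((z - 2) * m) zlo c := fun m c hm hc =>
    ⟨hz.isPrimePow, hmf, h11, h70 m hm, hc.2.2, hc.1, hz1, hz2⟩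
  unfold primeK at h
  obtain ⟨t0, l0, h, L0, T0⟩ := hR z z _ zlo c0 _ (mk 10000 c0 le_rfl hc0) hc0.2.1 h
  obtain ⟨t1, l1, h, L1, T1⟩ := hR z z _ zlo c1 _ (mk 13000 c1 (by norm_num) hc1) hc1.2.1 h
  obtain ⟨t2, l2, h, L2, T2⟩ := hR z z _ zlo c2 _ (mk 16900 c2 (by norm_num) hc2) hc2.2.1 h
  obtain ⟨t3, l3, h, L3, T3⟩ := hR z z _ zlo c3 _ (mk 21970 c3 (by norm_num) hc3) hc3.2.1 h
  obtain ⟨t4, l4, h, L4, T4⟩ := hR z z _ zlo c4 _ (mk 28561 c4 (by norm_num) hc4) hc4.2.1 h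
  obtain ⟨hl, ht⟩ := cond_true_of h
  rw [Nat.ble_eq] at hl ht
  have hlog : 0 < Real.log z := Real.log_pos (by
    have : 1 < z := by omega
    exact_mod_cast this)
  have hz0 : (0 : ℝ) < z := by
    have : 0 < z := by omega
    exact_mod_cast this
  have hlN : (zlo + 2) * (231 * l0 + (178 * l1 + (136 * l2 + (105 * l3 + 350 * l4))))
    ≤ 930000000000000000000 := hl
  have htN : 12 * (z * (z * z)) * ((zlo + 2) * (231 * t0 + (178 * t1 + (136 * t2 + (105 * t3 + 350 * t4)))))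
    ≤ 960000000000000000000 * (6 * (z * z) + (4 * z + 3)) := ht
  have hlR : ((zlo : ℝ) + 2) * (231 * l0 + (178 * l1 + (136 * l2 + (105 * l3 + 350 * l4))))
    ≤ 930000000000000000000 := by exact_mod_cast hlN
  have htR : 12 * ((z : ℝ) * (z * z)) * (((zlo : ℝ) + 2) * (231 * t0 + (178 * t1 + (136 * t2 + (105 * t3 + 350 * t4)))))
    ≤ 960000000000000000000 * (6 * (z * z) + (4 * z + 3)) := by exact_mod_cast htN
  obtain ⟨p0, p1, p2, p3, p4⟩ := pk_primeE h11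
  have e0 : ck z z ((0 : Fin 5) : ℕ) = (z - 2) * 10000 := by rw [ck_primeE hz h11]; norm_num
  have e1 : ck z z ((1 : Fin 5) : ℕ) = (z - 2) * 13000 := by rw [ck_primeE hz h11]; norm_num [mul_assoc]
  have e2 : ck z z ((2 : Fin 5) : ℕ) = (z - 2) * 16900 := by rw [ck_primeE hz h11]; norm_num [mul_assoc]
  have e3 : ck z z ((3 : Fin 5) : ℕ) = (z - 2) * 21970 := by rw [ck_primeE hz h11]; norm_num [mul_assoc]
  have e4 : ck z z ((4 : Fin 5) : ℕ) = (z - 2) * 28561 := by rw [ck_primeE hz h11]; norm_num [mul_assoc]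
  have nn : ∀ m : ℕ, 0 ≤ Real.log z * ((m : ℝ) / S9) := fun m =>
    mul_nonneg hlog.le (div_nonneg (Nat.cast_nonneg _) S9pos.le)
  refine ⟨![Real.log z * ((l0 : ℝ) / S9), Real.log z * ((l1 : ℝ) / S9), Real.log z * ((l2 : ℝ) / S9),
    Real.log z * ((l3 : ℝ) / S9), Real.log z * ((l4 : ℝ) / S9)],
    ![Real.log z * ((t0 : ℝ) / S9), Real.log z * ((t1 : ℝ) / S9), Real.log z * ((t2 : ℝ) / S9),
    Real.log z * ((t3 : ℝ) / S9), Real.log z * ((t4 : ℝ) / S9)], ?_, ?_, ?_⟩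
  · have L0' : LINB z (ck z z ((0 : Fin 5) : ℕ)) (Real.log z * ((l0 : ℝ) / S9)) := by rw [e0]; exact L0
    have L1' : LINB z (ck z z ((1 : Fin 5) : ℕ)) (Real.log z * ((l1 : ℝ) / S9)) := by rw [e1]; exact L1
    have L2' : LINB z (ck z z ((2 : Fin 5) : ℕ)) (Real.log z * ((l2 : ℝ) / S9)) := by rw [e2]; exact L2
    have L3' : LINB z (ck z z ((3 : Fin 5) : ℕ)) (Real.log z * ((l3 : ℝ) / S9)) := by rw [e3]; exact L3
    have L4' : LINB z (ck z z ((4 : Fin 5) : ℕ)) (Real.log z * ((l4 : ℝ) / S9)) := by rw [e4]; exact L4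
    have T0' : TOPB z (ck z z ((0 : Fin 5) : ℕ)) (Real.log z * ((t0 : ℝ) / S9)) := by rw [e0]; exact T0
    have T1' : TOPB z (ck z z ((1 : Fin 5) : ℕ)) (Real.log z * ((t1 : ℝ) / S9)) := by rw [e1]; exact T1
    have T2' : TOPB z (ck z z ((2 : Fin 5) : ℕ)) (Real.log z * ((t2 : ℝ) / S9)) := by rw [e2]; exact T2
    have T3' : TOPB z (ck z z ((3 : Fin 5) : ℕ)) (Real.log z * ((t3 : ℝ) / S9)) := by rw [e3]; exact T3
    have T4' : TOPB z (ck z z ((4 : Fin 5) : ℕ)) (Real.log z * ((t4 : ℝ) / S9)) := by rw [e4]; exact T4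
    intro j
    fin_cases j
    · exact ⟨L0', T0', nn _, nn _⟩
    · exact ⟨L1', T1', nn _, nn _⟩
    · exact ⟨L2', T2', nn _, nn _⟩
    · exact ⟨L3', T3', nn _, nn _⟩
    · exact ⟨L4', T4', nn _, nn _⟩
  · have q0 : qD z 0 = 231 / 1000 := by unfold qD; rw [← hmf]; change ((pk z z 0 : ℕ) : ℝ) / 1000 = _; rw [p0]; norm_num
    have q1 : qD z 1 = 178 / 1000 := by unfold qD; rw [← hmf]; change ((pk z z 1 : ℕ) : ℝ) / 1000 = _; rw [p1]; norm_num
    have q2 : qD z 2 = 136 / 1000 := by unfold qD; rw [← hmf]; change ((pk z z 2 : ℕ) : ℝ) / 1000 = _; rw [p2]; norm_num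
    have q3 : qD z 3 = 105 / 1000 := by unfold qD; rw [← hmf]; change ((pk z z 3 : ℕ) : ℝ) / 1000 = _; rw [p3]; norm_num
    have q4 : qD z 4 = 350 / 1000 := by unfold qD; rw [← hmf]; change ((pk z z 4 : ℕ) : ℝ) / 1000 = _; rw [p4]; norm_num
    rw [Fin.sum_univ_five, q0, q1, q2, q3, q4]
    change 231 / 1000 * (Real.log z * ((l0 : ℝ) / S9)) + 178 / 1000 * (Real.log z * ((l1 : ℝ) / S9))
      + 136 / 1000 * (Real.log z * ((l2 : ℝ) / S9)) + 105 / 1000 * (Real.log z * ((l3 : ℝ) / S9))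
      + 350 / 1000 * (Real.log z * ((l4 : ℝ) / S9)) ≤ 0.93
    have hs : (0 : ℝ) ≤ 231 * l0 + (178 * l1 + (136 * l2 + (105 * l3 + 350 * l4))) := by positivity
    have h1 := mul_le_mul_of_nonneg_right hz2 hs
    have h2 := h1.trans hlR
    rw [S9r] at h2 ⊢
    linarith
  · have q0 : qD z 0 = 231 / 1000 := by unfold qD; rw [← hmf]; change ((pk z z 0 : ℕ) : ℝ) / 1000 = _; rw [p0]; norm_num
    have q1 : qD z 1 = 178 / 1000 := by unfold qD; rw [← hmf]; change ((pk z z 1 : ℕ) : ℝ) / 1000 = _; rw [p1]; norm_num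
    have q2 : qD z 2 = 136 / 1000 := by unfold qD; rw [← hmf]; change ((pk z z 2 : ℕ) : ℝ) / 1000 = _; rw [p2]; norm_num
    have q3 : qD z 3 = 105 / 1000 := by unfold qD; rw [← hmf]; change ((pk z z 3 : ℕ) : ℝ) / 1000 = _; rw [p3]; norm_num
    have q4 : qD z 4 = 350 / 1000 := by unfold qD; rw [← hmf]; change ((pk z z 4 : ℕ) : ℝ) / 1000 = _; rw [p4]; norm_num
    rw [Fin.sum_univ_five, q0, q1, q2, q3, q4]
    change (231 / 1000 * (Real.log z * ((t0 : ℝ) / S9)) + 178 / 1000 * (Real.log z * ((t1 : ℝ) / S9))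
      + 136 / 1000 * (Real.log z * ((t2 : ℝ) / S9)) + 105 / 1000 * (Real.log z * ((t3 : ℝ) / S9))
      + 350 / 1000 * (Real.log z * ((t4 : ℝ) / S9))) * hh (z : ℝ) ≤ _
    have hT := Tz_ge (show 2 ≤ z by omega)
    refine le_trans ?_ (mul_le_mul_of_nonneg_left hT (by norm_num))
    have hs : (0 : ℝ) ≤ 231 * t0 + (178 * t1 + (136 * t2 + (105 * t3 + 350 * t4))) := by positivity
    have hz3 : (0 : ℝ) ≤ 12 * ((z : ℝ) * (z * z)) := by positivity
    have h1 := mul_le_mul_of_nonneg_left (mul_le_mul_of_nonneg_right hz2 hs) hz3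
    have h2 := h1.trans htR
    have e : (231 / 1000 * (Real.log z * ((t0 : ℝ) / S9)) + 178 / 1000 * (Real.log z * ((t1 : ℝ) / S9))
      + 136 / 1000 * (Real.log z * ((t2 : ℝ) / S9)) + 105 / 1000 * (Real.log z * ((t3 : ℝ) / S9))
      + 350 / 1000 * (Real.log z * ((t4 : ℝ) / S9))) * hh (z : ℝ)
      = (231 * t0 + (178 * t1 + (136 * t2 + (105 * t3 + 350 * t4)))) / (1000 * S9 * z) := by
      unfold hh
      have := S9pos.ne'
      field_simp
      ring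
    rw [e, div_div, ← mul_div_assoc, div_le_div_iff₀ (by rw [S9r]; positivity) (by positivity)]
    rw [S9r] at h2 ⊢
    have e4 : (z : ℝ) ^ 4 = z * (z * (z * z)) := by ring
    rw [e4]
    nlinarith [mul_le_mul_of_nonneg_left h2 hz0.le]

/-- logs of the table. -/
theorem tab_log (hT : Stmt_Tab) {z r l a b : ℕ} (h : (z, r, l, a, b) ∈ tab) :
    (l : ℝ) ≤ (S9 : ℝ) * Real.log z ∧ (S9 : ℝ) * Real.log z ≤ (l : ℝ) + 2 := by
  have key : ∀ (L : List Ent) (u : ℕ), TabOK L u → ∀ en ∈ L,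
      (en.2.2.1 : ℝ) ≤ (S9 : ℝ) * Real.log en.1 ∧ (S9 : ℝ) * Real.log en.1 ≤ (en.2.2.1 : ℝ) + 2 := by
    intro L
    induction L with
    | nil => intro u _ en hen; exact absurd hen (by simp)
    | cons e0 L ih =>
      intro u hu en hen
      obtain ⟨h1, h2, h3, h4, h5, h6, h7, h8, h9⟩ := hu
      rcases List.mem_cons.1 hen with h | h
      · rw [h]; exact ⟨h5, h6⟩
      · exact ih _ h9 en h
  exact key tab 2521 hT _ h

end Pool.Agent.EZ
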