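import Pool.Agent.EZ.EngDefs2

/-!
# Kernel runs for primes
-/

set_option autoImplicit false

namespace Pool.Agent.EZ

def prL0 : List (ℕ × ℕ × ℕ × ℕ × ℕ × ℕ × ℕ) := [(29, 3367295828, 317, 317, 317, 317, 317), (47, 3850147600, 97, 121, 163, 211, 271), (79, 4369447851, 163, 211, 271, 347, 449), (139, 4934473932, 293, 379, 491, 631, 829), (179, 5187385804, 379, 491, 631, 829, 1093), (263, 5572154031, 529, 691, 911, 1201, 1597), (281, 5638354668, 577, 757, 997, 1321, 1597), (397, 5983936279, 829, 1093, 1453, 1753, 2297)]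

theorem prR0 : (prL0.all fun t => primeK t.1 t.2.1 t.2.2.1 t.2.2.2.1 t.2.2.2.2.1 t.2.2.2.2.2.1 t.2.2.2.2.2.2) = true := by
  decide +kernel

end Pool.Agent.EZ
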