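import Pool.Agent.EZ.EngSpecs

/-!
# The numerical engine: soundness of a run
-/

set_option autoImplicit false

namespace Pool.Agent.EZ

open Finset

/-- general facts on the tables (proved in `EngLem`). -/
def Stmt_Lem : Prop :=
  (∀ z x u : ℕ, 1 ≤ u → OaOK z x u (2 / (u : ℝ))) ∧
  (∀ z x u : ℕ, 2 ≤ z → 3 ≤ u →
    OcOK z x u ((2 * max (Real.log z) (Real.log u) + 2 * Real.log 2) / (u : ℝ))) ∧
  (∀ z x c X : ℕ, IsPrimePow z → 1 ≤ c → c ≤ X →
    (∀ w, IsPrimePow w → c < w → w.minFac ≠ z.minFac → Sx x w = 1) →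
    Hpp X - 2 / (c : ℝ) ≤ Mz z x c + Wt z x X) ∧
  (∀ z x c : ℕ, Mz z x c + Wt z x c = Hpp c)

theorem S9r : (S9 : ℝ) = 1000000000 := by norm_num [S9]

theorem S9pos : (0 : ℝ) < S9 := by rw [S9r]; norm_num

theorem cdv_geR (a b : ℕ) (hb : 0 < b) : (a : ℝ) / b ≤ (cdv a b : ℝ) := by
  have hb' : (0 : ℝ) < b := by exact_mod_cast hb
  rw [div_le_iff₀ hb']
  have h : a ≤ cdv a b * b := by
    have e : cdv a b = (a + (b - 1)) / b := rfl
    rw [e]
    have h1 := Nat.div_add_mod (a + (b - 1)) b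
    have h2 := Nat.mod_lt (a + (b - 1)) hb
    have h3 : (a + (b - 1)) / b * b = b * ((a + (b - 1)) / b) := Nat.mul_comm _ _
    omega
  exact_mod_cast h

theorem cond_true_of {b c : Bool} (h : cond b c false = true) : b = true ∧ c = true := by
  cases b
  · simp at h
  · simpa using h

/-- the exponential with a division. -/
theorem exp_two_div (hE : Stmt_Exp) (c : ℕ) (hc : 1 ≤ c) (k : ℕ → Bool)
    (h : expK (cdv 2000000000 c) k = true) :
    ∃ u : ℕ, k u = true ∧ (S9 : ℝ) * Real.exp (2 / c) ≤ (u : ℝ) := by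
  obtain ⟨u, hk, hu⟩ := hE.1 _ _ h
  refine ⟨u, hk, ?_⟩
  have h1 : cdv 2000000000 c ≤ 2000000000 := by
    change (2000000000 + (c - 1)) / c ≤ 2000000000
    rw [Nat.div_le_iff_le_mul_add_pred (by omega)]
    have : 2000000000 ≤ c * 2000000000 := Nat.le_mul_of_pos_left _ (by omega)
    omega
  have h2 := hu h1
  have h3 := cdv_geR 2000000000 c (by omega)
  have h4 : (2 : ℝ) / c ≤ (cdv 2000000000 c : ℝ) / S9 := by
    rw [le_div_iff₀ S9pos, S9r]
    push_cast at h3
    calc (2 : ℝ) / c * 1000000000 = 2000000000 / c := by ring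
      _ ≤ _ := h3
  have h5 := (Real.exp_le_exp.2 h4).trans h2
  rw [le_div_iff₀ S9pos] at h5
  linarith

/-- tables after dropping. -/
theorem dropE_ok (c : ℕ) : ∀ (L : List Ent) (u : ℕ), TabOK L u → c ≤ u → TabOK (dropE c L) c := by
  intro L
  induction L with
  | nil =>
    intro u h hc w hw
    exact h w (hw.trans hc)
  | cons en L ih =>
    intro u h hc
    have e : dropE c (en :: L) = cond (Nat.ble en.1 c) (en :: L) (dropE c L) := rfl
    rw [e]
    obtain ⟨h1, h2, h3, h4, h5, h6, h7, h8, h9⟩ := h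
    cases hb : Nat.ble en.1 c with
    | true =>
      rw [cond_true]
      have hle : en.1 ≤ c := by rwa [Nat.ble_eq] at hb
      exact ⟨hle, fun w hw1 hw2 => h2 w hw1 (hw2.trans hc), h3, h4, h5, h6, h7, h8, h9⟩
    | false =>
      rw [cond_false]
      have hlt : ¬ en.1 ≤ c := by
        intro h
        rw [← Nat.ble_eq] at h
        rw [h] at hb
        exact absurd hb (by simp)
      exact ih (en.1 - 1) h9 (by omega)

theorem Wt_Hpp (z x X : ℕ) : 0 ≤ Wt z x X :=
  Finset.sum_nonneg fun w _ => div_nonneg (Sx_nonneg x w) (Nat.cast_nonneg _)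

/-- total killed mass at the cut. -/
theorem kapv_cut (z x c : ℕ) : kapv z x c c = A1 c := by
  unfold kapv A1 ppK
  apply Finset.sum_congr rfl
  intro w hw
  rw [Finset.mem_filter, Finset.mem_Icc] at hw
  rw [if_pos (Or.inl hw.1.2), one_mul]

theorem oc_cut (hL : Stmt_Lem) {z q x zlo c lu : ℕ} (hr : Run z q x zlo c)
    (hlu : (S9 : ℝ) * Real.log c ≤ (lu : ℝ)) :
    OcOK z x c ((cdv (Nat.add (Nat.mul 2 (Nat.max (Nat.add zlo 2) lu)) 1386294362) c : ℝ) / S9) := by
  obtain ⟨hz, _, hz11, _, _, hc64, _, hz2⟩ := hr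
  have h1 := hL.2.1 z x c (by omega) (by omega)
  intro VS hVS r
  refine (h1 VS hVS r).trans ?_
  have hc0 : (0 : ℝ) < c := by
    have : 0 < c := by omega
    exact_mod_cast this
  have h2 := cdv_geR (Nat.add (Nat.mul 2 (Nat.max (Nat.add zlo 2) lu)) 1386294362) c (by omega)
  rw [le_div_iff₀ S9pos]
  refine le_trans ?_ h2
  rw [div_mul_eq_mul_div]
  apply div_le_div_of_nonneg_right _ hc0.le
  have h3 : ((Nat.add (Nat.mul 2 (Nat.max (Nat.add zlo 2) lu)) 1386294362 : ℕ) : ℝ)
      = 2 * max ((zlo : ℝ) + 2) lu + 1386294362 := by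
    change ((2 * (max (zlo + 2) lu) + 1386294362 : ℕ) : ℝ) = _
    push_cast
    ring
  rw [h3]
  have h4 : max (Real.log z) (Real.log c) * S9 ≤ max ((zlo : ℝ) + 2) lu := by
    rw [max_mul_of_nonneg _ _ S9pos.le]
    exact max_le_max (by linarith) (by linarith)
  have h5 := Real.log_two_lt_d9
  rw [S9r] at h4 ⊢
  nlinarith

/-- (RUN). -/
theorem run_proof (hE : Stmt_Exp) (hT : Stmt_Tab) (hB : Stmt_Blk) (hHi : Stmt_Hi) (hSv : Stmt_Sv)
    (hL : Stmt_Lem) (hPB : Stmt_PB) (hP1 : Stmt_P1) (hP2 : Stmt_P2) : Stmt_Run := by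
  intro z q x zlo c k hr hc h
  have hr' := hr
  obtain ⟨hz, hq, hz11, hx7, hxc, hc64, hz1, hz2⟩ := hr
  unfold runK at h
  obtain ⟨_, h⟩ := cond_true_of h
  obtain ⟨hf, h, hhf⟩ := exp_two_div hE c (by omega) _ h
  obtain ⟨b, bs, hblk, hb, hb4, hbs⟩ := hB
  rw [hblk] at h
  simp only [frc_eq] at h
  obtain ⟨E, h, hEE⟩ := hE.1 _ _ h
  have hEE := hEE (by norm_num)
  have hb0 : (0 : ℝ) < (b.1 : ℝ) := by
    have : 0 < b.1 := by omega
    exact_mod_cast this
  have hhf0 : 0 ≤ (hf : ℝ) := Nat.cast_nonneg _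
  -- the last piece
  have hPV : PV z x c b.1 [(E, cdv (Nat.mul b.2.2.2.2.1 hf) S9, cdv 2000000000 b.1)] := by
    apply PV.last
    · intro v hv hvq _ hbv
      refine ⟨0.918, hHi z x c v hz hv hvq ?_ (by omega) hz11 (by omega), ?_⟩
      · intro w hw hcw _
        exact hSv.2 x w c hx7 hxc hc64 hcw hw
      · have h0 : 0 ≤ Sx x v / (v : ℝ) := div_nonneg (Sx_nonneg x v) (Nat.cast_nonneg _)
        have h1 : Real.exp (0.918 - Sx x v / (v : ℝ) / 2) ≤ Real.exp (((918000000 : ℕ) : ℝ) / S9) := by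
          apply Real.exp_le_exp.2
          rw [S9r]
          push_cast
          linarith
        exact h1.trans hEE
    · constructor
      · change Real.exp (0.4575 - Mz z x c - Wt z x b.1) ≤
          ((cdv (Nat.mul b.2.2.2.2.1 hf) S9 : ℕ) : ℝ) / S9
        have h1 := hL.2.2.1 z x c b.1 hz (by omega) (by omega)
          (fun w hw hcw _ => hSv.2 x w c hx7 hxc hc64 hcw hw)
        have h2 : Real.exp (0.4575 - Mz z x c - Wt z x b.1) ≤
            Real.exp (0.4575 - Hpp b.1) * Real.exp (2 / c) := by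
          rw [← Real.exp_add]
          apply Real.exp_le_exp.2
          linarith
        refine h2.trans ?_
        have h3 := cdv_geR (Nat.mul b.2.2.2.2.1 hf) S9 (by norm_num [S9])
        have h4 : ((Nat.mul b.2.2.2.2.1 hf : ℕ) : ℝ) = (b.2.2.2.2.1 : ℝ) * hf := Nat.cast_mul _ _
        rw [h4] at h3
        rw [le_div_iff₀ S9pos]
        refine le_trans ?_ h3
        rw [le_div_iff₀ S9pos]
        have h5 := hb.2.2.2
        have h6 : (0 : ℝ) ≤ (S9 : ℝ) * Real.exp (2 / (c : ℝ)) :=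
          mul_nonneg S9pos.le (Real.exp_pos _).le
        have h7 := mul_le_mul h5 hhf h6 (Nat.cast_nonneg (b.2.2.2.2.1))
        calc Real.exp (0.4575 - Hpp b.1) * Real.exp (2 / (c : ℝ)) * S9 * S9
            = (S9 : ℝ) * Real.exp (0.4575 - Hpp b.1) * (S9 * Real.exp (2 / (c : ℝ))) := by ring
          _ ≤ _ := h7
      · have h1 := hL.1 z x b.1 (by omega)
        intro VS hVS r
        refine (h1 VS hVS r).trans ?_
        have h2 := cdv_geR 2000000000 b.1 (by omega)
        rw [le_div_iff₀ S9pos, S9r]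
        push_cast at h2
        calc (2 : ℝ) / b.1 * 1000000000 = 2000000000 / b.1 := by ring
          _ ≤ _ := h2
  obtain ⟨b', P, h, hbc, hb', hPV'⟩ := hPB z q x zlo c hf _ hr' hhf bs b.1 b.2.2.2.1 _ hbs
    (by omega) hb.2.2.1 hPV h
  rw [← hbc] at hc
  obtain ⟨P', h, hPV0⟩ := hP1 z q x zlo c _ hr' (dropE c tab) c 0 b'.2.2.2.2.1
    (cdv 2000000000 c) (cdv (Nat.add (Nat.mul 2 (Nat.max (Nat.add zlo 2) b'.2.2.1)) 1386294362) c)
    P (dropE_ok c tab 2521 hT (by omega)) le_rfl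
    (by rw [kapv_cut]; simp) (by
      have h1 := hL.2.2.2 z x c
      have h2 : 0.4575 - Mz z x c - Wt z x c = 0.4575 - Hpp b'.1 := by rw [hbc]; linarith
      rw [h2, le_div_iff₀ S9pos]
      have := hb'.2.2.2
      linarith) (by
      have h1 := hL.1 z x c (by omega)
      intro VS hVS r
      refine (h1 VS hVS r).trans ?_
      have h2 := cdv_geR 2000000000 c (by omega)
      rw [le_div_iff₀ S9pos, S9r]
      push_cast at h2
      calc (2 : ℝ) / c * 1000000000 = 2000000000 / c := by ring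
        _ ≤ _ := h2) (oc_cut hL hr' (by
          have := hb'.2.1
          rw [hbc] at this
          exact this)) hPV' h
  exact hP2 z x c P' k hz hPV0 h

theorem ppK_filter_pos (z N : ℕ) : (ppK N).filter (fun w => 0 < w ∧ w.minFac ≠ z.minFac)
    = (ppK N).filter (fun w => w.minFac ≠ z.minFac) := by
  apply Finset.filter_congr
  intro w hw
  rw [mem_ppK] at hw
  simp [hw.1.pos]

theorem abs_of_sum (hAB : Stmt_AB) {z x : ℕ} {a : ℝ} (hz : IsPrimePow z) (h : SumOK z x 0 a) :
    ABSB z x (Real.log z * a) := by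
  obtain ⟨C, hC0, hC, hs⟩ := h
  apply hAB z x C a hz hC0
  · intro v hv hvq hS
    exact hC v hv hvq hS hv.pos
  · intro N
    have := hs N
    rwa [ppK_filter_pos] at this

/-- (ABS). -/
theorem abs_proof (hE : Stmt_Exp) (hT : Stmt_Tab) (hB : Stmt_Blk)
    (hL : Stmt_Lem) (hPBA : Stmt_PBA) (hP1A : Stmt_P1A) (hAB : Stmt_AB) : Stmt_Abs := by
  intro z q x zlo c k f hr hc hf h
  have hr' := hr
  obtain ⟨hz, hq, hz11, hx7, hxc, hc64, hz1, hz2⟩ := hr
  unfold absK at h
  obtain ⟨_, h⟩ := cond_true_of h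
  obtain ⟨hh, h, hhf⟩ := exp_two_div hE c (by omega) _ h
  obtain ⟨b, bs, hblk, hb, hb4, hbs⟩ := hB
  -- the list below `10^4`
  have hdrop : ∀ (L : List BEnt) (X : ℕ), BlkOK L X → ∀ b bs, dropB L = b :: bs → BOK b ∧ BlkOK bs b.1 := by
    intro L
    induction L with
    | nil => intro X _ b bs h; exact absurd h (by simp [dropB])
    | cons a L ih =>
      intro X hX b bs h
      have e : dropB (a :: L) = cond (Nat.ble a.1 10000) (a :: L) (dropB L) := rfl
      rw [e] at h
      obtain ⟨h1, h2, h3, h4⟩ := hX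
      cases hb : Nat.ble a.1 10000 with
      | true =>
        rw [hb, cond_true] at h
        injection h with h5 h6
        rw [← h5, ← h6]
        exact ⟨h2, h4⟩
      | false =>
        rw [hb, cond_false] at h
        exact ih a.1 h4 b bs h
  have hd2 : ∀ b' bs', dropB blk = b' :: bs' → b'.1 = 10000 → BOK b' ∧ BlkOK bs' b'.1 := by
    intro b' bs' h5 h6
    rw [hblk] at h5
    have e : dropB (b :: bs) = cond (Nat.ble b.1 10000) (b :: bs) (dropB bs) := rfl
    rw [e] at h5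
    cases hb' : Nat.ble b.1 10000 with
    | true =>
      rw [hb', cond_true] at h5
      injection h5 with h7 h8
      rw [← h7, ← h8]
      exact ⟨hb, hbs⟩
    | false =>
      rw [hb', cond_false] at h5
      exact hdrop bs b.1 hbs b' bs' h5
  cases hD : dropB blk with
  | nil => rw [hD] at h; simp at h
  | cons b1 bs1 =>
    rw [hD] at h
    obtain ⟨h10, h⟩ := cond_true_of h
    have hb10 : b1.1 = 10000 := by rwa [Nat.beq_eq] at h10
    obtain ⟨hB1, hB2⟩ := hd2 b1 bs1 hD hb10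
    obtain ⟨b', acc, h, hbc, hb', hS⟩ := hPBA z q x zlo c hh _ f hr' hhf bs1 b1.1 b1.2.2.2.1 0 hB2
      (by omega) (by omega) hB1.2.2.1 (by rw [hb10]; simpa using hf) h
    obtain ⟨acc', h, hS'⟩ := hP1A z q x zlo c _ f hr' (dropE c tab) c 0 b'.2.2.2.2.1
      (cdv (Nat.add (Nat.mul 2 (Nat.max (Nat.add zlo 2) b'.2.2.1)) 1386294362) c) acc
      (dropE_ok c tab 2521 hT (by omega)) le_rfl (by rw [kapv_cut]; simp) (by
        have h1 := hL.2.2.2 z x c
        have h2 : 0.4575 - Mz z x c - Wt z x c = 0.4575 - Hpp b'.1 := by rw [hbc]; linarith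
        rw [h2, le_div_iff₀ S9pos]
        have := hb'.2.2.2
        linarith) (oc_cut hL hr' (by
          have := hb'.2.1
          rw [hbc] at this
          exact this)) hS h
    exact ⟨acc', h, abs_of_sum hAB hz hS'⟩

end Pool.Agent.EZ
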