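import Pool.Agent.EZ.Specs

/-!
# Further statements: sums over prime powers
-/

set_option autoImplicit false

namespace Pool.Agent.EZ

open Finset

/-- sum of the reciprocals of the prime powers up to `y`. -/
noncomputable def Hpp (y : ℕ) : ℝ := ∑ w ∈ ppK y, 1 / (w : ℝ)

/-- table of `Hpp`, error at most `2 * 10^(-6)`. -/
def HTab : List (ℕ × ℝ) :=
  [(29, 2.159087), (37, 2.249622), (43, 2.297268), (53, 2.357821), (64, 2.406788), (79, 2.462155),
   (101, 2.517995), (121, 2.563338), (160, 2.628855), (210, 2.684305), (280, 2.745643),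
   (400, 2.811215), (600, 2.878325), (1000, 2.959563), (1700, 3.037002), (3000, 3.111753),
   (5500, 3.185499), (10000, 3.253654)]

def Stmt_HT : Prop := ∀ t ∈ HTab, |Hpp t.1 - t.2| ≤ 0.000002

/-- growth of `Hpp` beyond `10^4`. -/
def Stmt_HU : Prop := ∀ y : ℕ, 10000 ≤ y →
  Hpp y ≤ Hpp 10000 + Real.log (Real.log y / Real.log 10000) + 0.048 ∧
  Hpp 10000 + Real.log (Real.log y / Real.log 10000) - 0.024 ≤ Hpp y

/-- far sums. -/
def Stmt_FS : Prop := ∀ z X N : ℕ, 2 ≤ z → 10000 ≤ X →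
  ∑ v ∈ (ppK N).filter (fun v => X < v), 1 / ((v : ℝ) * Real.log ((z : ℝ) * v))
    ≤ 1 / Real.log z * Real.log (1 + Real.log z / Real.log X)
      + 0.4443 / (Real.log X * Real.log ((z : ℝ) * X))

end Pool.Agent.EZ
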