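import Pool.Agent.EZ.EngDefs
import Pool.Agent.EZ.Specs2

/-!
# The numerical engine: statements of the modules
-/

set_option autoImplicit false

namespace Pool.Agent.EZ

open Finset

/-! ### predicates -/

/-- the (NB) constant with exponent `e` is admissible for the component `v`. -/
def CellOK (z x X1 v : ℕ) (e : ℝ) : Prop :=
  KB z x v (Real.log ((z : ℝ) * v) * Real.exp (0.4575 - Mz z x X1 - Wt z x v + e))

/-- prime weights beyond `u`. -/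
def OaOK (z x u : ℕ) (o : ℝ) : Prop := ∀ VS : Finset ℕ,
  (∀ w ∈ VS, IsPrimePow w ∧ u < w ∧ w.minFac ≠ z.minFac) → ∀ r : ℕ,
    ∑ w ∈ VS.filter (fun w => w.minFac = r), Sx x w / (w : ℝ) ≤ o

/-- prime weights beyond `u` with the factor `max (log z) (log w)`. -/
def OcOK (z x u : ℕ) (o : ℝ) : Prop := ∀ VS : Finset ℕ,
  (∀ w ∈ VS, IsPrimePow w ∧ u < w ∧ w.minFac ≠ z.minFac) → ∀ r : ℕ,
    ∑ w ∈ VS.filter (fun w => w.minFac = r),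
      Sx x w / (w : ℝ) * max (Real.log z) (Real.log w) ≤ o

/-- correct tables of prime powers `≤ u`, decreasing. -/
def TabOK : List Ent → ℕ → Prop
  | [], u => ∀ w, w ≤ u → ¬ IsPrimePow w
  | en :: L, u => en.1 ≤ u ∧ (∀ w, en.1 < w → w ≤ u → ¬ IsPrimePow w) ∧ IsPrimePow en.1 ∧
      en.2.1 = en.1.minFac ∧
      (en.2.2.1 : ℝ) ≤ (S9 : ℝ) * Real.log en.1 ∧ (S9 : ℝ) * Real.log en.1 ≤ (en.2.2.1 : ℝ) + 2 ∧
      (S9 : ℝ) * Real.log (en.1.minFac : ℝ) ≤ (en.2.2.2.1 : ℝ) + 2 ∧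
      (S9 : ℝ) * A1 en.1 ≤ (en.2.2.2.2 : ℝ) ∧ TabOK L (en.1 - 1)

/-- correct block data. -/
def BOK (b : BEnt) : Prop :=
  (b.2.1 : ℝ) ≤ (S9 : ℝ) * Real.log b.1 ∧ (S9 : ℝ) * Real.log b.1 ≤ (b.2.2.1 : ℝ) ∧
  (S9 : ℝ) * A1 b.1 ≤ (b.2.2.2.1 : ℝ) ∧
  (S9 : ℝ) * Real.exp (0.4575 - Hpp b.1) ≤ (b.2.2.2.2.1 : ℝ)

/-- decreasing list of block ends below `Xhi`. -/
def BlkOK : List BEnt → ℕ → Prop
  | [], _ => True
  | b :: L, Xhi => b.1 < Xhi ∧ BOK b ∧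
      (b.1 < 10000 → (S9 : ℝ) * (Hpp Xhi - Hpp b.1) ≤ (b.2.2.2.2.2 : ℝ)) ∧ BlkOK L b.1

/-- weight and cap of a piece beginning at `u`. -/
def PW (z x c u : ℕ) (p : Piece) : Prop :=
  Real.exp (0.4575 - Mz z x c - Wt z x u) ≤ (p.2.1 : ℝ) / S9 ∧ OaOK z x u ((p.2.2 : ℝ) / S9)

/-- level of a piece at the component `v`. -/
def PL (z x c v : ℕ) (p : Piece) : Prop := ∃ e : ℝ, CellOK z x c v e ∧
  Real.exp (e - Sx x v / (v : ℝ) / 2) ≤ (p.1 : ℝ) / S9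

/-- pieces valid beyond `u`. -/
inductive PV (z x c : ℕ) : ℕ → List Piece → Prop
  | last (u : ℕ) (p : Piece) : (∀ v, IsPrimePow v → v.minFac ≠ z.minFac → 0 < Sx x v → u < v →
      PL z x c v p) → PW z x c u p → PV z x c u [p]
  | step (u u' : ℕ) (p : Piece) (L : List Piece) : u < u' →
      (∀ v, IsPrimePow v → v.minFac ≠ z.minFac → 0 < Sx x v → u < v → v ≤ u' →
        PL z x c v p) → PW z x c u p → PV z x c u' L → PV z x c u (p :: L)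

/-- absolute bound beyond `u`. -/
def SumOK (z x u : ℕ) (a : ℝ) : Prop := ∃ C : ℕ → ℝ, (∀ v, 0 ≤ C v) ∧
  (∀ v, IsPrimePow v → v.minFac ≠ z.minFac → 0 < Sx x v → u < v →
    KB z x v (C v * Real.log ((z : ℝ) * v))) ∧
  ∀ N, ∑ v ∈ (ppK N).filter (fun w => u < w ∧ w.minFac ≠ z.minFac), Sx x v / (v : ℝ) * C v ≤ a

/-- setup of a run -/
def Run (z q x zlo c : ℕ) : Prop := IsPrimePow z ∧ q = z.minFac ∧ 11 ≤ z ∧ 70000 ≤ x ∧
  x ≤ 5000 * c ∧ 64 ≤ c ∧ (zlo : ℝ) ≤ (S9 : ℝ) * Real.log z ∧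
  (S9 : ℝ) * Real.log z ≤ (zlo : ℝ) + 2

/-! ### modules -/

/-- (EXP) elementary functions. -/
def Stmt_Exp : Prop :=
  (∀ (y : ℕ) (k : ℕ → Bool), expK y k = true → ∃ u : ℕ, k u = true ∧
    (y ≤ 2000000000 → Real.exp ((y : ℝ) / S9) ≤ (u : ℝ) / S9)) ∧
  (∀ C B : ℕ, 0 < B → ∀ t : ℝ, 0 ≤ t → t ≤ 1 →
    (C : ℝ) / S9 * t - (B : ℝ) / S9 * t ^ 2 ≤ (quad C B : ℝ) / S9)

/-- (CELL). -/
def Stmt_Cell : Prop := ∀ (zv zvhi N K Oc : ℕ) (k : ℕ → Bool), cellK zv zvhi N K Oc k = true →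
  ∃ e : ℕ, k e = true ∧ (e ≤ 2000000000 → ∀ z x X1 v : ℕ, IsPrimePow z → IsPrimePow v →
    v.minFac ≠ z.minFac →
    (∀ w, IsPrimePow w → X1 < w → w.minFac ≠ z.minFac → Sx x w = 1) →
    0 < zv → zv ≤ z * v → z * v ≤ zvhi → 0 < N →
    (N : ℝ) ≤ (S9 : ℝ) * (Real.log ((z : ℝ) * v) / 2) →
    kapv z x (max X1 v) v ≤ (K : ℝ) / S9 → OcOK z x v ((Oc : ℝ) / S9) →
    CellOK z x X1 v ((e : ℝ) / S9))

/-- (SV) survival probabilities. -/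
def Stmt_Sv : Prop :=
  (∀ x v : ℕ, 70000 ≤ x → IsPrimePow v → svF x v v.minFac = svN x v v.minFac) ∧
  (∀ x w c : ℕ, 70000 ≤ x → x ≤ 5000 * c → 64 ≤ c → c < w → IsPrimePow w → Sx x w = 1)

/-- (TAB) tables. -/
def Stmt_Tab : Prop := TabOK tab 2521

/-- (BLK) block data. -/
def Stmt_Blk : Prop := ∃ (b : BEnt) (bs : List BEnt), blk = b :: bs ∧ BOK b ∧ 10000 ≤ b.1 ∧
  BlkOK bs b.1

/-- (HI) universal level beyond `10^4`. -/
def Stmt_Hi : Prop := ∀ (z x X1 v : ℕ), IsPrimePow z → IsPrimePow v → v.minFac ≠ z.minFac →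
  (∀ w, IsPrimePow w → X1 < w → w.minFac ≠ z.minFac → Sx x w = 1) → X1 ≤ v →
  11 ≤ z → 10000 < v → CellOK z x X1 v 0.918

/-- (PB) the blocks. -/
def Stmt_PB : Prop := ∀ (z q x zlo c hf : ℕ) (k : BEnt → List Piece → Bool), Run z q x zlo c →
  (S9 : ℝ) * Real.exp (2 / c) ≤ (hf : ℝ) →
  ∀ (L : List BEnt) (Xhi a1 : ℕ) (P : List Piece), BlkOK L Xhi → c ≤ Xhi →
  (S9 : ℝ) * A1 Xhi ≤ (a1 : ℝ) → PV z x c Xhi P →
  passB z zlo c hf k L Xhi a1 P = true →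
  ∃ (b : BEnt) (P' : List Piece), k b P' = true ∧ b.1 = c ∧ BOK b ∧ PV z x c c P'

/-- (P1) the singles. -/
def Stmt_P1 : Prop := ∀ (z q x zlo c : ℕ) (k : List Piece → Bool), Run z q x zlo c →
  ∀ (L : List Ent) (u D h Oa Oc : ℕ) (P : List Piece), TabOK L u → u ≤ c →
  kapv z x c u ≤ A1 u + (D : ℝ) / S9 →
  Real.exp (0.4575 - Mz z x c - Wt z x u) ≤ (h : ℝ) / S9 →
  OaOK z x u ((Oa : ℝ) / S9) → OcOK z x u ((Oc : ℝ) / S9) → PV z x c u P →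
  pass1 z q x zlo k L D h Oa Oc P = true →
  ∃ P' : List Piece, k P' = true ∧ PV z x c 0 P'

/-- (P2) the second pass. -/
def Stmt_P2 : Prop := ∀ (z x c : ℕ) (P : List Piece) (k : ℕ → ℕ → Bool), IsPrimePow z →
  PV z x c 0 P → pass2 P 0 0 0 k = true →
  ∃ top lin : ℕ, k top lin = true ∧ LINB z x (Real.log z * ((lin : ℝ) / S9)) ∧
    TOPB z x (Real.log z * ((top : ℝ) / S9))

/-- (RUN) conclusion of the first part. -/
def Stmt_Run : Prop := ∀ (z q x zlo c : ℕ) (k : ℕ → ℕ → Bool), Run z q x zlo c → c ≤ 2521 →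
  runK z q x zlo c k = true →
  ∃ top lin : ℕ, k top lin = true ∧ LINB z x (Real.log z * ((lin : ℝ) / S9)) ∧
    TOPB z x (Real.log z * ((top : ℝ) / S9))

/-- (PBA) the blocks, absolute constant. -/
def Stmt_PBA : Prop := ∀ (z q x zlo c hf : ℕ) (k : BEnt → ℕ → Bool) (f : ℝ), Run z q x zlo c →
  (S9 : ℝ) * Real.exp (2 / c) ≤ (hf : ℝ) →
  ∀ (L : List BEnt) (Xhi a1 acc : ℕ), BlkOK L Xhi → c ≤ Xhi → Xhi ≤ 10000 →
  (S9 : ℝ) * A1 Xhi ≤ (a1 : ℝ) → SumOK z x Xhi ((acc : ℝ) / S9 + f) →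
  passBA z zlo c hf k L Xhi a1 acc = true →
  ∃ (b : BEnt) (acc' : ℕ), k b acc' = true ∧ b.1 = c ∧ BOK b ∧ SumOK z x c ((acc' : ℝ) / S9 + f)

/-- (P1A) the singles, absolute constant. -/
def Stmt_P1A : Prop := ∀ (z q x zlo c : ℕ) (k : ℕ → Bool) (f : ℝ), Run z q x zlo c →
  ∀ (L : List Ent) (u D h Oc acc : ℕ), TabOK L u → u ≤ c →
  kapv z x c u ≤ A1 u + (D : ℝ) / S9 →
  Real.exp (0.4575 - Mz z x c - Wt z x u) ≤ (h : ℝ) / S9 →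
  OcOK z x u ((Oc : ℝ) / S9) → SumOK z x u ((acc : ℝ) / S9 + f) →
  pass1A z q x zlo k L D h Oc acc = true →
  ∃ acc' : ℕ, k acc' = true ∧ SumOK z x 0 ((acc' : ℝ) / S9 + f)

/-- (ABS) the absolute constants (from PBA, P1A, AB, TAB, BLK). -/
def Stmt_Abs : Prop := ∀ (z q x zlo c : ℕ) (k : ℕ → Bool) (f : ℝ), Run z q x zlo c → c ≤ 2521 →
  SumOK z x 10000 f → absK z q x zlo c k = true →
  ∃ acc : ℕ, k acc = true ∧ ABSB z x (Real.log z * ((acc : ℝ) / S9 + f))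

/-- far sums, second form. -/
def Stmt_FS2 : Prop := ∀ X Y N : ℕ, 10000 ≤ X → X ≤ Y →
  ∑ v ∈ (ppK N).filter (fun v => X < v ∧ v ≤ Y), 1 / ((v : ℝ) * Real.log v)
    ≤ 1 / Real.log X - 1 / Real.log Y + 0.4443 / Real.log X ^ 2

/-- far parts of the absolute constants (in units of `10^(-5)`) -/
def farT : List (ℕ × ℕ) := [(16, 10900), (25, 10175), (27, 10501), (32, 10391), (49, 11171),
  (64, 10120), (81, 10567), (121, 10265), (125, 11036), (128, 9760), (169, 10319), (243, 10518),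
  (256, 9829), (289, 10254), (343, 10978), (361, 10249), (512, 9903), (529, 10157), (625, 10648),
  (729, 10329), (841, 10035), (961, 9983), (1024, 9913)]

/-- (FAR). -/
def Stmt_Far : Prop := ∀ t ∈ farT, SumOK t.1 (ck t.1 t.1.minFac 0) 10000 ((t.2 : ℝ) / 100000)

end Pool.Agent.EZ
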