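import Pool.Agent.EZ.FB

/-!
# Bounds for `exp (XX s) (1 - u^{-s})` for prime powers above `31` and `64` (helper46)
-/

set_option autoImplicit false

namespace Pool.Agent.EZ

open Finset MeasureTheory

noncomputable section

/-- `EE y ≤ e^{-y} (y² + 5 y + 2) / (y (y² + 6 y + 6))`. -/
theorem EE_le3 {y : ℝ} (hy : 0 < y) :
    EE y ≤ Real.exp (-y) * ((y ^ 2 + 5 * y + 2) / (y * (y ^ 2 + 6 * y + 6))) := by
  set G : ℝ → ℝ := fun x => -(Real.exp (-x) * ((x ^ 2 + 5 * x + 2) / (x * (x ^ 2 + 6 * x + 6))))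
    with hG
  set G' : ℝ → ℝ := fun x => Real.exp (-x) * (1 / x + 12 / (x ^ 2 * (x ^ 2 + 6 * x + 6) ^ 2)) with hG'
  have hderiv : ∀ x ∈ Set.Ioi y, HasDerivAt G (G' x) x := by
    intro x hx
    have hx0 : 0 < x := lt_trans hy hx
    have h1 : HasDerivAt (fun x : ℝ => Real.exp (-x)) (-Real.exp (-x)) x := by
      have := (hasDerivAt_neg x).exp
      simpa using this
    have hn : HasDerivAt (fun x : ℝ => x ^ 2 + 5 * x + 2) (2 * x + 5) x := by
      have ha := (hasDerivAt_pow 2 x).add ((hasDerivAt_id x).const_mul (5 : ℝ))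
      have hb := ha.add_const (2 : ℝ)
      refine (hb.congr_deriv ?_)
      simp
    have hdd : HasDerivAt (fun x : ℝ => x * (x ^ 2 + 6 * x + 6))
        (1 * (x ^ 2 + 6 * x + 6) + x * (2 * x + 6)) x := by
      have ha := (hasDerivAt_pow 2 x).add ((hasDerivAt_id x).const_mul (6 : ℝ))
      have hb : HasDerivAt (fun x : ℝ => x ^ 2 + 6 * x + 6) (2 * x + 6) x := by
        have hc := ha.add_const (6 : ℝ)
        refine (hc.congr_deriv ?_)
        simp
      exact (hasDerivAt_id x).mul hb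
    have h2 : HasDerivAt (fun x : ℝ => (x ^ 2 + 5 * x + 2) / (x * (x ^ 2 + 6 * x + 6)))
        (((2 * x + 5) * (x * (x ^ 2 + 6 * x + 6))
          - (x ^ 2 + 5 * x + 2) * (1 * (x ^ 2 + 6 * x + 6) + x * (2 * x + 6)))
          / (x * (x ^ 2 + 6 * x + 6)) ^ 2) x :=
      hn.div hdd (by positivity)
    have h3 := (h1.mul h2).neg
    refine h3.congr_deriv ?_
    rw [hG']
    have : (x : ℝ) ≠ 0 := hx0.ne'
    have h4 : x ^ 2 + 6 * x + 6 ≠ 0 := by positivity
    field_simp
    ring
  have hcont : ContinuousWithinAt G (Set.Ici y) y := by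
    apply ContinuousAt.continuousWithinAt
    rw [hG]
    apply ContinuousAt.neg
    apply ContinuousAt.mul
    · exact (Real.continuous_exp.comp continuous_neg).continuousAt
    · apply ContinuousAt.div
      · fun_prop
      · fun_prop
      · positivity
  have hpos : ∀ x ∈ Set.Ioi y, 0 ≤ G' x := by
    intro x hx
    have hx0 : 0 < x := lt_trans hy hx
    rw [hG']
    positivity
  have hlim : Filter.Tendsto G Filter.atTop (nhds 0) := by
    rw [hG]
    have h1 : Filter.Tendsto (fun x : ℝ => Real.exp (-x)) Filter.atTop (nhds 0) :=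
      Real.tendsto_exp_neg_atTop_nhds_zero
    have h2 : Filter.Tendsto (fun x : ℝ => (x ^ 2 + 5 * x + 2) / (x * (x ^ 2 + 6 * x + 6)))
        Filter.atTop (nhds 0) := by
      have h3 : Filter.Tendsto (fun x : ℝ => 1 / x) Filter.atTop (nhds 0) := by
        simpa using tendsto_inv_atTop_zero (𝕜 := ℝ)
      refine squeeze_zero' ?_ ?_ h3
      · filter_upwards [Filter.eventually_gt_atTop 0] with x hx
        positivity
      · filter_upwards [Filter.eventually_gt_atTop 0] with x hx
        rw [div_le_div_iff₀ (by positivity) hx]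
        nlinarith
    have := (h1.mul h2).neg
    simpa using this
  have hint : IntegrableOn G' (Set.Ioi y) :=
    integrableOn_Ioi_deriv_of_nonneg hcont hderiv hpos hlim
  have hval : ∫ x in Set.Ioi y, G' x = 0 - G y :=
    integral_Ioi_of_hasDerivAt_of_nonneg hcont hderiv hpos hlim
  have hle : EE y ≤ ∫ x in Set.Ioi y, G' x := by
    unfold EE
    apply setIntegral_mono_on (EE_integrable hy) hint measurableSet_Ioi
    intro x hx
    have hx0 : 0 < x := lt_trans hy hx
    rw [hG', div_eq_mul_one_div]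
    apply mul_le_mul_of_nonneg_left _ (Real.exp_pos _).le
    have : 0 ≤ 12 / (x ^ 2 * (x ^ 2 + 6 * x + 6) ^ 2) := by positivity
    linarith
  rw [hval] at hle
  rw [hG] at hle
  simpa using hle

/-! ### exponent `3/2`, `k = 0.1` -/

/-- `c = -2 log (83/200)` -/
def cK : ℝ := -(2 * Real.log (83 / 200))

theorem exp_cK : Real.exp (-(cK / 2)) = 83 / 200 := by
  unfold cK
  have : -(-(2 * Real.log (83 / 200)) / 2) = Real.log (83 / 200) := by ring
  rw [this, Real.exp_log (by norm_num)]

theorem cK_lower : (1.7589 : ℝ) ≤ cK := by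
  unfold cK
  have h8 := log_series_lower 8 (x := 117 / 283) (by norm_num) (by norm_num)
  have h9 : Real.log (1 + 117 / 283) - Real.log (1 - 117 / 283) = -Real.log (83 / 200) := by
    rw [← Real.log_div (by norm_num) (by norm_num), ← Real.log_inv]
    norm_num
  rw [h9] at h8
  have h10 : (0.87945 : ℝ) ≤ -Real.log (83 / 200) := by
    refine le_trans ?_ h8
    simp only [Finset.sum_range_succ, Finset.sum_range_zero]
    norm_num
  linarith

theorem cK_pos : 0 < cK := by linarith [cK_lower]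

/-- increasing on `(0, c]`. -/
theorem LK_mono2 {y : ℝ} (hy : 0 < y) (hyb : y ≤ cK) : LK 0.1 y ≤ LK 0.1 cK := by
  have hle : ∫ x in y..cK, Real.exp (-x) / x ≤ ∫ x in y..cK, lkd 0.1 x := by
    apply intervalIntegral.integral_mono_on hyb (EE_intervalIntegrable hy hyb)
      (lkd_cont 0.1 hy hyb).intervalIntegrable
    intro x hx
    have hx0 : 0 < x := lt_of_lt_of_le hy hx.1
    unfold lkd
    obtain ⟨e1, e2⟩ := exp_w x
    have h1 := lt_one_aux hx0
    rw [e1] at h1
    rw [e1, e2]
    set w := Real.exp (-(x / 2)) with hw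
    have hw0 : 0 < w := Real.exp_pos _
    have hw1 : w ≤ 1 := Real.exp_le_one_iff.2 (by linarith)
    have hw2 : 83 / 200 ≤ w := by
      rw [← exp_cK, hw]
      apply Real.exp_le_exp.2
      linarith [hx.2]
    have hlog : Real.log w = -(x / 2) := by rw [hw, Real.log_exp]
    have hp := pade_log hw0 hw1
    rw [hlog] at hp
    have h3 : 0 < 1 - w ^ 3 := by linarith
    have hD : 0 < 3 / 2 * w - 0.1 * (1 - w ^ 3) := by nlinarith [pow_pos hw0 3]
    have h4 : (1 - w ^ 3) / (3 / 2 * w - 0.1 * (1 - w ^ 3)) ≤ x := by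
      have h5 : (1 - w ^ 3) / (3 / 2 * w - 0.1 * (1 - w ^ 3))
          ≤ 2 * (3 * (1 - w ^ 2) / (1 + 4 * w + w ^ 2)) := by
        rw [← mul_div_assoc, div_le_div_iff₀ hD (by positivity)]
        have h6 : 0 ≤ (1 - w) * ((1 - w) * (-1.6 + 1.8 * w + 4.8 * w ^ 2 + 0.4 * w ^ 3)) := by
          have h7 : 0 ≤ -1.6 + 1.8 * w + 4.8 * w ^ 2 + 0.4 * w ^ 3 := by
            have h8 : (83 / 200 : ℝ) ^ 2 ≤ w ^ 2 := pow_le_pow_left₀ (by norm_num) hw2 2
            have h9 : (83 / 200 : ℝ) ^ 3 ≤ w ^ 3 := pow_le_pow_left₀ (by norm_num) hw2 3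
            norm_num at h8 h9
            linarith
          exact mul_nonneg (by linarith) (mul_nonneg (by linarith) h7)
        nlinarith
      linarith
    rw [div_le_iff₀ hD] at h4
    rw [div_sub' h3.ne', div_le_div_iff₀ hx0 h3]
    have h5 : w ^ 2 * (1 - w ^ 3) ≤ w ^ 2 * (x * (3 / 2 * w - 0.1 * (1 - w ^ 3))) :=
      mul_le_mul_of_nonneg_left h4 (by positivity)
    refine h5.trans (le_of_eq ?_)
    ring
  rw [LK_diff 0.1 hy hyb, ← EE_sub hy hyb] at hle
  unfold LK
  linarith

/-- decreasing on `[c, ∞)`. -/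
theorem LK_anti2 {y : ℝ} (hyb : cK ≤ y) : LK 0.108 y ≤ LK 0.108 cK := by
  have hb := cK_pos
  have hle : ∫ x in cK..y, lkd 0.108 x ≤ ∫ x in cK..y, Real.exp (-x) / x := by
    apply intervalIntegral.integral_mono_on hyb (lkd_cont 0.108 hb hyb).intervalIntegrable
      (EE_intervalIntegrable hb hyb)
    intro x hx
    have hx0 : 0 < x := lt_of_lt_of_le hb hx.1
    unfold lkd
    obtain ⟨e1, e2⟩ := exp_w x
    have h1 := lt_one_aux hx0
    rw [e1] at h1
    rw [e1, e2]
    set w := Real.exp (-(x / 2)) with hw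
    have hw0 : 0 < w := Real.exp_pos _
    have hw2 : w ≤ 83 / 200 := by
      rw [← exp_cK, hw]
      apply Real.exp_le_exp.2
      linarith [hx.1]
    have h3 : 0 < 1 - w ^ 3 := by linarith
    have h9 : w ^ 3 ≤ (83 / 200 : ℝ) ^ 3 := pow_le_pow_left₀ hw0.le hw2 3
    norm_num at h9
    have h4 : x * w ≤ 2 * 0.3678794412 := by
      have h5 := Real.add_one_le_exp (x / 2 - 1)
      have h6 : Real.exp (x / 2 - 1) = Real.exp (-1) / w := by
        rw [hw, ← Real.exp_sub]; congr 1; ring
      rw [h6, sub_add_cancel, le_div_iff₀ hw0] at h5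
      have h7 := Real.exp_neg_one_lt_d9
      linarith
    have h5 : 1.1899 ≤ 1 + 0.108 * x := by
      have := cK_lower
      linarith [hx.1]
    have h6 : x * (3 / 2 * w - 0.108 * (1 - w ^ 3)) ≤ 1 - w ^ 3 := by
      nlinarith
    rw [div_sub' h3.ne', div_le_div_iff₀ h3 hx0]
    have h7 : w ^ 2 * (x * (3 / 2 * w - 0.108 * (1 - w ^ 3))) ≤ w ^ 2 * (1 - w ^ 3) :=
      mul_le_mul_of_nonneg_left h6 (by positivity)
    refine le_trans (le_of_eq ?_) h7
    ring
  rw [LK_diff 0.108 hb hyb, ← EE_sub hb hyb] at hle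
  unfold LK
  linarith

theorem LK_cK : LK 0.108 cK ≤ 0.01369 := by
  have hE := EE_le3 cK_pos
  obtain ⟨e1, e2⟩ := exp_w cK
  rw [exp_cK] at e1 e2
  unfold LK
  rw [e1, e2]
  rw [e2] at hE
  have hb := cK_lower
  have hb0 := cK_pos
  have h1 : (cK ^ 2 + 5 * cK + 2) / (cK * (cK ^ 2 + 6 * cK + 6)) ≤ 0.401942 := by
    rw [div_le_iff₀ (by positivity)]
    obtain ⟨t, ht⟩ : ∃ t, t = cK - 1.7589 := ⟨_, rfl⟩
    have ht0 : 0 ≤ t := by linarith
    have hc : cK = 1.7589 + t := by linarith
    rw [hc]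
    have h2 : 0 ≤ t ^ 2 := by positivity
    have h3 : 0 ≤ t ^ 3 := by positivity
    nlinarith
  have h2 : Real.log (1 - (83 / 200) ^ 3) ≤ -0.074150 := by
    have h8 := log_series_lower 3 (x := 571787 / 15428213) (by norm_num) (by norm_num)
    have h9 : Real.log (1 + 571787 / 15428213) - Real.log (1 - 571787 / 15428213)
        = -Real.log (1 - (83 / 200) ^ 3) := by
      rw [← Real.log_div (by norm_num) (by norm_num), ← Real.log_inv]
      norm_num
    rw [h9] at h8
    have h10 : (0.074150 : ℝ) ≤ -Real.log (1 - (83 / 200) ^ 3) := by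
      refine le_trans ?_ h8
      simp only [Finset.sum_range_succ, Finset.sum_range_zero]
      norm_num
    linarith
  have h4 : (83 / 200 : ℝ) ^ 2 * ((cK ^ 2 + 5 * cK + 2) / (cK * (cK ^ 2 + 6 * cK + 6)))
      ≤ (83 / 200) ^ 2 * 0.401942 :=
    mul_le_mul_of_nonneg_left h1 (by norm_num)
  norm_num at hE h2 h4 ⊢
  linarith

/-- (K15) with `k = 0.1` -/
theorem K15b {y : ℝ} (hy : 0 < y) : LK 0.1 y ≤ 0.01369 := by
  rcases le_total y cK with h | h
  · have h1 := LK_mono2 hy h
    have h2 : LK 0.1 cK ≤ LK 0.108 cK := by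
      unfold LK
      have := Real.exp_pos (-cK)
      nlinarith
    exact h1.trans (h2.trans LK_cK)
  · have h2 : LK 0.1 y ≤ LK 0.108 y := by
      unfold LK
      have := Real.exp_pos (-y)
      nlinarith
    exact h2.trans ((LK_anti2 h).trans LK_cK)

/-! ### exponent `5/3` -/

/-- `log K` for the exponent `5/3`. -/
def LKf (k y : ℝ) : ℝ := EE y + Real.log (1 - Real.exp (-(5 / 3 * y))) + k * Real.exp (-y)

/-- the derivative of the elementary part -/
def lkdf (k y : ℝ) : ℝ :=
  5 / 3 * Real.exp (-(5 / 3 * y)) / (1 - Real.exp (-(5 / 3 * y))) - k * Real.exp (-y)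

theorem lt_one_auxf {x : ℝ} (hx : 0 < x) : Real.exp (-(5 / 3 * x)) < 1 := by
  rw [Real.exp_lt_one_iff]
  linarith

theorem lkf_hasDerivAt (k : ℝ) {x : ℝ} (hx : 0 < x) :
    HasDerivAt (fun x : ℝ => Real.log (1 - Real.exp (-(5 / 3 * x))) + k * Real.exp (-x))
      (lkdf k x) x := by
  have h1 : HasDerivAt (fun x : ℝ => 1 - Real.exp (-(5 / 3 * x)))
      (5 / 3 * Real.exp (-(5 / 3 * x))) x := by
    have h2 : HasDerivAt (fun x : ℝ => -(5 / 3 * x)) (-(5 / 3)) x := by
      have h := (hasDerivAt_id x).const_mul (-(5 / 3) : ℝ)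
      have e : (fun x : ℝ => -(5 / 3 * x)) = fun x : ℝ => -(5 / 3) * id x := by
        funext z; simp
      rw [e]
      refine h.congr_deriv ?_
      ring
    have := (h2.exp).const_sub 1
    refine this.congr_deriv ?_
    ring
  have h3 := h1.log (by linarith [lt_one_auxf hx])
  have h4 : HasDerivAt (fun x : ℝ => k * Real.exp (-x)) (k * (Real.exp (-x) * (-1))) x :=
    ((hasDerivAt_neg x).exp).const_mul k
  refine (h3.add h4).congr_deriv ?_
  unfold lkdf
  ring

theorem lkdf_cont (k : ℝ) {a b : ℝ} (ha : 0 < a) (hab : a ≤ b) :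
    ContinuousOn (lkdf k) (Set.uIcc a b) := by
  unfold lkdf
  apply ContinuousOn.sub
  · apply ContinuousOn.div
    · fun_prop
    · fun_prop
    · intro x hx
      rw [Set.uIcc_of_le hab] at hx
      have hx0 : 0 < x := lt_of_lt_of_le ha hx.1
      linarith [lt_one_auxf hx0]
  · fun_prop

theorem LKf_diff (k : ℝ) {a b : ℝ} (ha : 0 < a) (hab : a ≤ b) :
    ∫ x in a..b, lkdf k x = (Real.log (1 - Real.exp (-(5 / 3 * b))) + k * Real.exp (-b))
      - (Real.log (1 - Real.exp (-(5 / 3 * a))) + k * Real.exp (-a)) := by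
  apply intervalIntegral.integral_eq_sub_of_hasDerivAt
  · intro x hx
    rw [Set.uIcc_of_le hab] at hx
    exact lkf_hasDerivAt k (lt_of_lt_of_le ha hx.1)
  · exact (lkdf_cont k ha hab).intervalIntegrable

theorem exp_wf (x : ℝ) : Real.exp (-(5 / 3 * x)) = Real.exp (-(x / 3)) ^ 5 ∧
    Real.exp (-x) = Real.exp (-(x / 3)) ^ 3 := by
  constructor
  · rw [← Real.exp_nat_mul]; congr 1; push_cast; ring
  · rw [← Real.exp_nat_mul]; congr 1; push_cast; ring

/-- `d = -3 log (9/10)` -/
def dK : ℝ := -(3 * Real.log (9 / 10))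

theorem exp_dK : Real.exp (-(dK / 3)) = 9 / 10 := by
  unfold dK
  have : -(-(3 * Real.log (9 / 10)) / 3) = Real.log (9 / 10) := by ring
  rw [this, Real.exp_log (by norm_num)]

theorem dK_bounds : (0.31608 : ℝ) ≤ dK ∧ dK ≤ 0.3161 := by
  have h9 : Real.log (1 + 1 / 19) - Real.log (1 - 1 / 19) = -Real.log (9 / 10) := by
    rw [← Real.log_div (by norm_num) (by norm_num), ← Real.log_inv]
    norm_num
  constructor
  · unfold dK
    have h8 := log_series_lower 3 (x := 1 / 19) (by norm_num) (by norm_num)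
    rw [h9] at h8
    have h10 : (0.10536 : ℝ) ≤ -Real.log (9 / 10) := by
      refine le_trans ?_ h8
      simp only [Finset.sum_range_succ, Finset.sum_range_zero]
      norm_num
    linarith
  · unfold dK
    have h8 := log_series_upper 3 (x := 1 / 19) (by norm_num) (by norm_num)
    rw [h9] at h8
    have h10 : -Real.log (9 / 10) ≤ (0.105365 : ℝ) := by
      refine h8.trans ?_
      simp only [Finset.sum_range_succ, Finset.sum_range_zero]
      norm_num
    linarith

theorem dK_pos : 0 < dK := by linarith [dK_bounds.1]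

/-- decreasing on `[d, ∞)`. -/
theorem LKf_anti {y : ℝ} (hyb : dK ≤ y) : LKf 0.15 y ≤ LKf 0.15 dK := by
  have hb := dK_pos
  have hle : ∫ x in dK..y, lkdf 0.15 x ≤ ∫ x in dK..y, Real.exp (-x) / x := by
    apply intervalIntegral.integral_mono_on hyb (lkdf_cont 0.15 hb hyb).intervalIntegrable
      (EE_intervalIntegrable hb hyb)
    intro x hx
    have hx0 : 0 < x := lt_of_lt_of_le hb hx.1
    unfold lkdf
    obtain ⟨e1, e2⟩ := exp_wf x
    have h1 := lt_one_auxf hx0
    rw [e1] at h1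
    rw [e1, e2]
    set w := Real.exp (-(x / 3)) with hw
    have hw0 : 0 < w := Real.exp_pos _
    have hw2 : w ≤ 9 / 10 := by
      rw [← exp_dK, hw]
      apply Real.exp_le_exp.2
      linarith [hx.1]
    have h3 : 0 < 1 - w ^ 5 := by linarith
    -- `x ≤ 3 (1 - w²) / (2 w)`
    have h4 : x * w ≤ 3 * (1 - w ^ 2) / 2 := by
      have h5 := Real.self_le_sinh_iff.2 (by linarith : 0 ≤ x / 3)
      rw [Real.sinh_eq] at h5
      have h6 : Real.exp (x / 3) * w = 1 := by rw [hw, ← Real.exp_add]; simp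
      have h7 := mul_le_mul_of_nonneg_right h5 hw0.le
      have h8 : (Real.exp (x / 3) - w) / 2 * w = (1 - w ^ 2) / 2 := by
        have : (Real.exp (x / 3) - w) / 2 * w = (Real.exp (x / 3) * w - w ^ 2) / 2 := by ring
        rw [this, h6]
      rw [← hw] at h7
      rw [h8] at h7
      linarith
    have hQ : 0 ≤ 0.45 + 2.9 * w - 0.1 * w ^ 2 - 3.1 * w ^ 3 - 1.1 * w ^ 4 + 0.45 * w ^ 5 := by
      obtain ⟨t, ht⟩ : ∃ t, t = 9 / 10 - w := ⟨_, rfl⟩
      have ht0 : 0 ≤ t := by linarith
      have ht1 : t ≤ 9 / 10 := by linarith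
      have hwt : w = 9 / 10 - t := by linarith
      rcases le_total w (1 / 2) with hh | hh
      · have a1 : w ^ 2 ≤ 1 / 2 * w := by nlinarith
        have a2 : w ^ 3 ≤ 1 / 4 * w := by nlinarith [pow_pos hw0 2]
        have a3 : w ^ 4 ≤ 1 / 8 * w := by nlinarith [pow_pos hw0 2, pow_pos hw0 3]
        have a4 : 0 ≤ w ^ 5 := by positivity
        nlinarith
      · have a1 : w ^ 2 ≤ 9 / 10 * w := by nlinarith
        have a4 : (1 / 2 : ℝ) ^ 5 ≤ w ^ 5 := pow_le_pow_left₀ (by norm_num) hh 5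
        have a2 : w ^ 3 ≤ 0.729 := by
          have := pow_le_pow_left₀ hw0.le hw2 3
          norm_num at this ⊢
          linarith
        have a3 : w ^ 4 ≤ 0.6561 := by
          have := pow_le_pow_left₀ hw0.le hw2 4
          norm_num at this ⊢
          linarith
        -- use convexity in `w`
        have b1 : 0 ≤ t ^ 2 := by positivity
        have b2 : 0 ≤ t ^ 3 := by positivity
        have b3 : 0 ≤ t ^ 4 := by positivity
        have b4 : 0 ≤ (9/10 - t) ^ 5 := by rw [← hwt]; positivity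
        have b5 : 0 ≤ t ^ 5 := by positivity
        rw [hwt] at a4 ⊢
        nlinarith
    have h5 : (1 - w ^ 2) * (5 * w ^ 2 - 0.45 * (1 - w ^ 5)) ≤ 2 * w * (1 - w ^ 5) := by
      have : 0 ≤ (1 - w) * ((1 - w)
          * (0.45 + 2.9 * w - 0.1 * w ^ 2 - 3.1 * w ^ 3 - 1.1 * w ^ 4 + 0.45 * w ^ 5)) :=
        mul_nonneg (by linarith) (mul_nonneg (by linarith) hQ)
      nlinarith
    have h6 : x * (5 / 3 * w ^ 2 - 0.15 * (1 - w ^ 5)) ≤ 1 - w ^ 5 := by
      rcases le_total (5 / 3 * w ^ 2 - 0.15 * (1 - w ^ 5)) 0 with hneg | hpos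
      · have := mul_nonpos_of_nonneg_of_nonpos hx0.le hneg
        linarith
      · have h7 := mul_le_mul_of_nonneg_right h4 hpos
        have h8 : w * (x * (5 / 3 * w ^ 2 - 0.15 * (1 - w ^ 5))) ≤ w * (1 - w ^ 5) := by
          nlinarith
        exact le_of_mul_le_mul_left h8 hw0
    rw [div_sub' h3.ne', div_le_div_iff₀ h3 hx0]
    have h7 : w ^ 3 * (x * (5 / 3 * w ^ 2 - 0.15 * (1 - w ^ 5))) ≤ w ^ 3 * (1 - w ^ 5) :=
      mul_le_mul_of_nonneg_left h6 (by positivity)
    refine le_trans (le_of_eq ?_) h7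
    ring
  rw [LKf_diff 0.15 hb hyb, ← EE_sub hb hyb] at hle
  unfold LKf
  linarith

/-- upper bound of `EE` on `(0, 1]`. -/
theorem EE_near {y : ℝ} (hy : 0 < y) (hy1 : y ≤ 1) :
    EE y ≤ -0.57715 - Real.log y + (y - y ^ 2 / 4 + y ^ 3 / 18) := by
  have h1 := EE_sub_le_Sp 3 hy hy1
  have h2 := EE_sub_le_Sp 10 (by norm_num : (0 : ℝ) < 1) (by norm_num : (1 : ℝ) ≤ 4)
  have h3 := EE_four
  have h4 := Sp_four
  have h5 := Real.log_two_lt_d9
  have h6 : Real.log 4 = 2 * Real.log 2 := by
    have : (4 : ℝ) = 2 ^ 2 := by norm_num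
    rw [this, Real.log_pow]; push_cast; ring
  have e20 : 2 * 10 = 20 := by norm_num
  have e6 : 2 * 3 = 6 := by norm_num
  rw [e20] at h2
  rw [e6] at h1
  have h7 : Sp 6 1 - Sp 20 1 ≤ 0.0000001 + 0.0000271 := by
    unfold Sp
    simp only [Finset.sum_range_succ, Finset.sum_range_zero, Nat.factorial]
    norm_num
  have h8 : -(Sp 6 y) ≤ y - y ^ 2 / 4 + y ^ 3 / 18 := by
    unfold Sp
    simp only [Finset.sum_range_succ, Finset.sum_range_zero, Nat.factorial]
    have a1 : 0 ≤ y ^ 6 := by positivity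
    have a2 : y ^ 5 ≤ y ^ 4 := by
      have : y ^ 5 = y ^ 4 * y := by ring
      rw [this]
      exact mul_le_of_le_one_right (by positivity) hy1
    have a3 : 0 ≤ y ^ 4 := by positivity
    push_cast
    norm_num
    nlinarith
  rw [Real.log_one] at h1 h2
  rw [h6] at h2
  linarith

/-- value at `d` -/
theorem LKf_dK : LKf 0.15 dK ≤ 0.0861 := by
  obtain ⟨h1, h2⟩ := dK_bounds
  have hE := EE_near dK_pos (by linarith)
  obtain ⟨e1, e2⟩ := exp_wf dK
  rw [exp_dK] at e1 e2
  unfold LKf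
  rw [e1, e2]
  -- `log d ≥ -1.1519`
  have h3 : (-1.1519 : ℝ) ≤ Real.log dK := by
    have h4 : Real.log (0.31608 : ℝ) ≤ Real.log dK := Real.log_le_log (by norm_num) h1
    have h5 : 3 * Real.log (0.31608 : ℝ) = Real.log ((0.31608 : ℝ) ^ 3) := by
      rw [Real.log_pow]; push_cast; ring
    have h6 : Real.log ((1 / 2 : ℝ) ^ 5 * 1.0104) ≤ Real.log ((0.31608 : ℝ) ^ 3) :=
      Real.log_le_log (by norm_num) (by norm_num)
    rw [Real.log_mul (by norm_num) (by norm_num), Real.log_pow, one_div, Real.log_inv] at h6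
    have h7 : (0.01029 : ℝ) ≤ Real.log 1.0104 :=
      le_trans (by norm_num) (Real.one_sub_inv_le_log_of_pos (by norm_num : (0 : ℝ) < 1.0104))
    have h8 := Real.log_two_lt_d9
    push_cast at h6
    linarith
  have h4 : Real.log (1 - (9 / 10) ^ 5) ≤ -0.8927 := by
    have h5 : Real.log (1 - (9 / 10 : ℝ) ^ 5) = Real.log 0.81902 - Real.log 2 := by
      rw [← Real.log_div (by norm_num) (by norm_num)]
      norm_num
    have h8 := log_series_lower 2 (x := 18098 / 181902) (by norm_num) (by norm_num)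
    have h9 : Real.log (1 + 18098 / 181902) - Real.log (1 - 18098 / 181902)
        = -Real.log 0.81902 := by
      rw [← Real.log_div (by norm_num) (by norm_num), ← Real.log_inv]
      norm_num
    rw [h9] at h8
    have h10 : (0.1996 : ℝ) ≤ -Real.log 0.81902 := by
      refine le_trans ?_ h8
      simp only [Finset.sum_range_succ, Finset.sum_range_zero]
      norm_num
    have h11 := Real.log_two_gt_d9
    linarith
  have h5 : dK - dK ^ 2 / 4 + dK ^ 3 / 18 ≤ 0.2930 := by
    nlinarith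
  norm_num at hE h4 ⊢
  linarith

/-- `log (1 + u) ≤ u - u²/2` for `u ∈ (-1, 0]`. -/
theorem log_one_add_le {u : ℝ} (h0 : -1 < u) (h1 : u ≤ 0) : Real.log (1 + u) ≤ u - u ^ 2 / 2 := by
  have hd : ∀ t : ℝ, -1 < t → HasDerivAt (fun t : ℝ => t - t ^ 2 / 2 - Real.log (1 + t))
      (-(t ^ 2) / (1 + t)) t := by
    intro t ht
    have h2 : HasDerivAt (fun t : ℝ => 1 + t) 1 t := (hasDerivAt_id t).const_add 1
    have h3 := h2.log (by linarith)
    have h4 : HasDerivAt (fun t : ℝ => t - t ^ 2 / 2) (1 - t) t := by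
      have := (hasDerivAt_id t).sub ((hasDerivAt_pow 2 t).div_const 2)
      refine this.congr_deriv ?_
      simp
    refine (h4.sub h3).congr_deriv ?_
    have : (1 : ℝ) + t ≠ 0 := by linarith
    field_simp
    ring
  have hanti : AntitoneOn (fun t : ℝ => t - t ^ 2 / 2 - Real.log (1 + t)) (Set.Icc u 0) := by
    apply antitoneOn_of_deriv_nonpos (convex_Icc u 0)
    · exact fun t ht => (hd t (by linarith [ht.1])).continuousAt.continuousWithinAt
    · intro t ht
      rw [interior_Icc] at ht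
      exact (hd t (by linarith [ht.1])).differentiableAt.differentiableWithinAt
    · intro t ht
      rw [interior_Icc] at ht
      rw [(hd t (by linarith [ht.1])).deriv]
      apply div_nonpos_of_nonpos_of_nonneg
      · have : 0 ≤ t ^ 2 := by positivity
        linarith
      · linarith [ht.1]
  have h := hanti (Set.left_mem_Icc.2 h1) (Set.right_mem_Icc.2 h1) h1
  simp only [add_zero, Real.log_one] at h
  norm_num at h
  linarith

/-- the bound near `0`, exponent `1.64`. -/
theorem Kn_near {y : ℝ} (hy : 0 < y) (hy1 : y ≤ dK) :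
    EE y + Real.log (1 - Real.exp (-(1.64 * y))) + 0.15 * Real.exp (-y) ≤ 0.0861 := by
  have hd := dK_bounds.2
  have hy2 : y ≤ 0.3161 := by linarith
  have hE := EE_near hy (by linarith)
  set x := 1.64 * y with hx
  have hx0 : 0 < x := by positivity
  have h1 := (exp_neg_Tp 1).2 x hx0.le
  have h2 := (exp_neg_Tp 1).1 y hy.le
  have e1 : Tp (2 * 1 + 2) x = 1 - x + x ^ 2 / 2 - x ^ 3 / 6 := by
    unfold Tp
    simp only [Finset.sum_range_succ, Finset.sum_range_zero, Nat.factorial]
    push_cast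
    ring
  have e2 : Tp (2 * 1 + 1) y = 1 - y + y ^ 2 / 2 := by
    unfold Tp
    simp only [Finset.sum_range_succ, Finset.sum_range_zero, Nat.factorial]
    push_cast
    ring
  rw [e1] at h1
  rw [e2] at h2
  have hx1 : x ≤ 0.5185 := by rw [hx]; linarith
  set u := -(x / 2) + x ^ 2 / 6 with hu
  have hu0 : u ≤ 0 := by rw [hu]; nlinarith
  have hu1 : -1 < u := by rw [hu]; nlinarith
  have h3 : 1 - Real.exp (-x) ≤ x * (1 + u) := by
    rw [hu]
    nlinarith
  have hpos : 0 < 1 - Real.exp (-x) := by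
    have : Real.exp (-x) < 1 := by rw [Real.exp_lt_one_iff]; linarith
    linarith
  have h4 : Real.log (1 - Real.exp (-x)) ≤ Real.log x + Real.log (1 + u) := by
    rw [← Real.log_mul hx0.ne' (by linarith)]
    exact Real.log_le_log hpos h3
  have h5 := log_one_add_le hu1 hu0
  have h6 : Real.log x = Real.log 1.64 + Real.log y := by
    rw [hx, Real.log_mul (by norm_num) hy.ne']
  have h7 : Real.log (1.64 : ℝ) ≤ 0.4948 := by
    have h8 := log_series_upper 3 (x := 16 / 66) (by norm_num) (by norm_num)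
    have h9 : Real.log (1 + 16 / 66) - Real.log (1 - 16 / 66) = Real.log 1.64 := by
      rw [← Real.log_div (by norm_num) (by norm_num)]
      norm_num
    rw [h9] at h8
    refine h8.trans ?_
    simp only [Finset.sum_range_succ, Finset.sum_range_zero]
    norm_num
  have h8 : u - u ^ 2 / 2 ≤ -(x / 2) + x ^ 2 / 24 + x ^ 3 / 12 := by
    rw [hu]
    have : 0 ≤ x ^ 4 := by positivity
    nlinarith
  have h9 : -(x / 2) + x ^ 2 / 24 + x ^ 3 / 12 = -0.82 * y + 1.64 ^ 2 / 24 * y ^ 2
      + 1.64 ^ 3 / 12 * y ^ 3 := by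
    rw [hx]; ring
  have h10 : y ^ 3 ≤ 0.1 * y := by nlinarith
  have h11 : 0 ≤ y ^ 2 := by positivity
  rw [h9] at h8
  norm_num at h8
  nlinarith

/-- exponent `1.64`, `k = 0.15`. -/
theorem Kn {y : ℝ} (hy : 0 < y) :
    Real.exp (EE y + 0.15 * Real.exp (-y)) * (1 - Real.exp (-(1.64 * y))) ≤ 1.09 := by
  have hpos : 0 < 1 - Real.exp (-(1.64 * y)) := by
    have : Real.exp (-(1.64 * y)) < 1 := by rw [Real.exp_lt_one_iff]; linarith
    linarith
  have h1 : EE y + 0.15 * Real.exp (-y) + Real.log (1 - Real.exp (-(1.64 * y))) ≤ 0.0861 := by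
    rcases le_total y dK with h | h
    · have := Kn_near hy h
      linarith
    · have h2 := (LKf_anti h).trans LKf_dK
      unfold LKf at h2
      have h3 : Real.log (1 - Real.exp (-(1.64 * y))) ≤ Real.log (1 - Real.exp (-(5 / 3 * y))) := by
        apply Real.log_le_log hpos
        have : Real.exp (-(5 / 3 * y)) ≤ Real.exp (-(1.64 * y)) := by
          apply Real.exp_le_exp.2; linarith
        linarith
      linarith
  have h2 : Real.exp (EE y + 0.15 * Real.exp (-y)) * (1 - Real.exp (-(1.64 * y)))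
      = Real.exp (EE y + 0.15 * Real.exp (-y) + Real.log (1 - Real.exp (-(1.64 * y)))) := by
    rw [Real.exp_add (EE y + 0.15 * Real.exp (-y)), Real.exp_log hpos]
  rw [h2]
  have h3 : (0.0861 : ℝ) ≤ Real.log 1.09 := by
    have h8 := log_series_lower 2 (x := 9 / 209) (by norm_num) (by norm_num)
    have h9 : Real.log (1 + 9 / 209) - Real.log (1 - 9 / 209) = Real.log 1.09 := by
      rw [← Real.log_div (by norm_num) (by norm_num)]
      norm_num
    rw [h9] at h8
    refine le_trans ?_ h8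
    simp only [Finset.sum_range_succ, Finset.sum_range_zero]
    norm_num
  calc _ ≤ Real.exp (Real.log 1.09) := Real.exp_le_exp.2 (h1.trans h3)
    _ = 1.09 := Real.exp_log (by norm_num)

/-- exponent `1.53`, `k = 0.1`. -/
theorem Kf {y : ℝ} (hy : 0 < y) :
    Real.exp (EE y + 0.1 * Real.exp (-y)) * (1 - Real.exp (-(1.53 * y))) ≤ 1.035 := by
  have h1 := K15b hy
  unfold LK at h1
  have hpos : 0 < 1 - Real.exp (-(3 / 2 * y)) := by linarith [lt_one_aux hy]
  have h2 : Real.exp (EE y + 0.1 * Real.exp (-y)) * (1 - Real.exp (-(3 / 2 * y)))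
      ≤ Real.exp 0.01369 := by
    have : Real.exp (EE y + 0.1 * Real.exp (-y)) * (1 - Real.exp (-(3 / 2 * y)))
      = Real.exp (EE y + 0.1 * Real.exp (-y) + Real.log (1 - Real.exp (-(3 / 2 * y)))) := by
      rw [Real.exp_add (EE y + 0.1 * Real.exp (-y)), Real.exp_log hpos]
    rw [this]
    apply Real.exp_le_exp.2
    linarith
  have h3 : 1 - Real.exp (-(1.53 * y)) ≤ 1.02 * (1 - Real.exp (-(3 / 2 * y))) := by
    have hu := Real.exp_pos (-(3 / 2 * y))
    have h2 : Real.exp (-(1.53 * y)) = Real.exp (-(3 / 2 * y)) ^ (1.02 : ℝ) := by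
      rw [← Real.exp_mul]
      congr 1
      ring
    have h3 := one_add_mul_self_le_rpow_one_add (s := Real.exp (-(3 / 2 * y)) - 1) (by linarith)
      (p := 1.02) (by norm_num)
    rw [add_sub_cancel] at h3
    rw [h2]
    linarith
  have h4 : Real.exp 0.01369 ≤ 1.0147 := by
    rw [← Real.le_log_iff_exp_le (by norm_num)]
    have h8 := log_series_lower 2 (x := 147 / 20147) (by norm_num) (by norm_num)
    have h9 : Real.log (1 + 147 / 20147) - Real.log (1 - 147 / 20147) = Real.log 1.0147 := by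
      rw [← Real.log_div (by norm_num) (by norm_num)]
      norm_num
    rw [h9] at h8
    refine le_trans ?_ h8
    simp only [Finset.sum_range_succ, Finset.sum_range_zero]
    norm_num
  have hE := Real.exp_pos (EE y + 0.1 * Real.exp (-y))
  have h5 := mul_le_mul_of_nonneg_left h3 hE.le
  nlinarith

end

end Pool.Agent.EZ
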