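import Pool.Agent.EZ.Account
import Pool.Agent.EZ.EngAll

/-!
# The Erdos-Zhang conjecture for quasi-primitive sets
-/

set_option autoImplicit false

namespace Pool.Agent.EZ

/-- the conjecture. -/
theorem conjecture (B : Set ℕ) (hB : QPset B) :
    Summable (fun b : B => hh ((b : ℕ) : ℝ)) ∧ ∑' b : B, hh ((b : ℕ) : ℝ) ≤ ∑' n, FF n :=
  conjecture_of Prime_all Pow_all B hB

end Pool.Agent.EZ
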