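import Pool.Agent.EZ.BT
import Pool.Agent.EZ.Specs

/-!
# From the design bounds to the accounts
-/

set_option autoImplicit false
set_option linter.unusedSectionVars false
set_option linter.unusedVariables false

namespace Pool.Agent.EZ

open Finset


theorem mass_nonneg (z x : ℕ) (hz : 1 ≤ z) (M : Finset (Finset ℕ)) (hM : Fam z M) :
    0 ≤ mass z x M := by
  unfold mass
  apply Finset.sum_nonneg
  intro m hm
  apply mul_nonneg (Finset.prod_nonneg fun v _ => Sx_nonneg x v)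
  apply hh_nonneg
  have h1 : (1 : ℝ) ≤ z := by exact_mod_cast hz
  have h2 : (1 : ℝ) ≤ ∏ v ∈ m, (v : ℝ) := by
    rw [← Nat.cast_prod]
    have : 1 ≤ ∏ v ∈ m, v := by
      apply Nat.one_le_iff_ne_zero.2
      rw [Finset.prod_ne_zero_iff]
      intro v hv
      have := ((hM.2.2 m hm).2 v hv).1.two_le
      omega
    exact_mod_cast this
  nlinarith

/-- the load of `u` in terms of absolute bounds. -/
theorem ld_le_abs {B : Finset ℕ} (hB : QPset (↑B : Set ℕ)) (u : ℕ) (a : ℕ → ℝ)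
    (h : ∀ j < 5, qD u (Fin.ofNat 5 j) ≠ 0 → ABSB u (ck u u.minFac j) (a j)) :
    ld qD cD B u ≤ (∑ j : Fin 5, qD u j * a j) * hh (u : ℝ) := by
  rw [ld_design, Finset.sum_mul]
  apply Finset.sum_le_sum
  intro j _
  rcases eq_or_ne (qD u j) 0 with h0 | h0
  · rw [h0]; simp
  · rw [mul_assoc]
    apply mul_le_mul_of_nonneg_left _ (qD_nonneg u j)
    apply h j j.2 _ _ (Fam_MM hB u)
    have : Fin.ofNat 5 (j : ℕ) = j := by ext; simp [Fin.ofNat, Nat.mod_eq_of_lt j.2]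
    rw [this]
    exact h0

/-- the same for intersecting families. -/
theorem ld_le_top {B : Finset ℕ} (hB : QPset (↑B : Set ℕ)) (u : ℕ) (hu : IsPrimePow u) (huB : u ∈ B)
    (t : ℕ → ℝ) (h : ∀ j < 5, qD u (Fin.ofNat 5 j) ≠ 0 → TOPB u (ck u u.minFac j) (t j)) :
    ld qD cD B u ≤ (∑ j : Fin 5, qD u j * t j) * hh (u : ℝ) := by
  rw [ld_design, Finset.sum_mul]
  apply Finset.sum_le_sum
  intro j _
  rcases eq_or_ne (qD u j) 0 with h0 | h0
  · rw [h0]; simp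
  · rw [mul_assoc]
    apply mul_le_mul_of_nonneg_left _ (qD_nonneg u j)
    apply h j j.2 _ _ (Fam_MM hB u) (MM_Inter hB u huB hu)
    have : Fin.ofNat 5 (j : ℕ) = j := by ext; simp [Fin.ofNat, Nat.mod_eq_of_lt j.2]
    rw [this]
    exact h0

/-- the same, linear in the hitting probabilities. -/
theorem ld_le_lin {B : Finset ℕ} (hB : QPset (↑B : Set ℕ)) (u : ℕ) (VS : Finset ℕ)
    (hVS : ∀ v ∈ VS, IsPrimePow v) (hMV : ∀ m ∈ MM B u, m ⊆ VS)
    (l : ℕ → ℝ) (h : ∀ j < 5, qD u (Fin.ofNat 5 j) ≠ 0 → LINB u (ck u u.minFac j) (l j)) :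
    ld qD cD B u ≤ (∑ j : Fin 5, qD u j * (l j * hit (ck u u.minFac j) VS (MM B u))) * hh (u : ℝ) := by
  rw [ld_design, Finset.sum_mul]
  apply Finset.sum_le_sum
  intro j _
  rcases eq_or_ne (qD u j) 0 with h0 | h0
  · rw [h0]; simp
  · rw [mul_assoc]
    apply mul_le_mul_of_nonneg_left _ (qD_nonneg u j)
    have h1 := h j j.2 (by
      have : Fin.ofNat 5 (j : ℕ) = j := by ext; simp [Fin.ofNat, Nat.mod_eq_of_lt j.2]
      rw [this]
      exact h0) (MM B u) (Fam_MM hB u) VS hVS hMV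
    linarith

/-- a common finite set of components. -/
noncomputable def VB (B : Finset ℕ) : Finset ℕ := B.biUnion comps

theorem VB_pp {B : Finset ℕ} : ∀ v ∈ VB B, IsPrimePow v := by
  intro v hv
  obtain ⟨b, _, hb⟩ := Finset.mem_biUnion.1 hv
  exact comps_primePow hb

theorem MM_sub {B : Finset ℕ} (hB : QPset (↑B : Set ℕ)) (u : ℕ) :
    ∀ m ∈ MM B u, m ⊆ (VB B).filter (fun v => v.minFac ≠ u.minFac) := by
  intro m hm v hv
  obtain ⟨_, h2, _⟩ := MM_member hB hm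
  obtain ⟨b, hb, _, _, rfl⟩ := mem_MM.1 hm
  exact Finset.mem_filter.2 ⟨Finset.mem_biUnion.2 ⟨b, hb, Finset.mem_of_mem_erase hv⟩, (h2 v hv).2⟩

/-- hitting probabilities of cross-intersecting families. -/
theorem hit_cross (z : ℕ) (x x' : ℕ) (VS : Finset ℕ) (hVS : ∀ v ∈ VS, IsPrimePow v ∧ v.minFac ≠ z.minFac)
    (M M' : Finset (Finset ℕ))
    (hc : ∀ m ∈ M, ∀ m' ∈ M', ∃ v ∈ m, ∃ v' ∈ m', v.minFac = v'.minFac)
    (lam2 : ℝ) (w w' : ℕ → ℝ) (hw0 : ∀ r, 0 ≤ w r) (hw0' : ∀ r, 0 ≤ w' r)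
    (hw : ∀ r, ∑ v ∈ VS.filter (fun v => v.minFac = r), Sx x v / (v : ℝ) ≤ w r)
    (hw' : ∀ r, ∑ v ∈ VS.filter (fun v => v.minFac = r), Sx x' v / (v : ℝ) ≤ w' r)
    (hsum : ∀ r, 1 ≤ Real.exp (-w r) + Real.exp (-w' r))
    (h : ∀ r, (Real.exp (w r) - 1) * (Real.exp (w' r) - 1) ≤ lam2) :
    hit x VS M * hit x' VS M' ≤ lam2 * ((1 - hit x VS M) * (1 - hit x' VS M')) := by
  have h0 : 0 ≤ lam2 := by
    refine le_trans ?_ (h 0)
    have h1 := Real.add_one_le_exp (w 0)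
    have h2 := Real.add_one_le_exp (w' 0)
    have h3 := hw0 0
    have h4 := hw0' 0
    exact mul_nonneg (by linarith) (by linarith)
  have hval : ∀ v ∈ VS, (1 : ℝ) < ((v : ℕ) : ℝ) := fun v hv => by
    exact_mod_cast (hVS v hv).1.one_lt
  have := PU_cross Nat.minFac VS VS (Sx x) (Sx x') (fun v : ℕ => (v : ℝ)) (fun v _ => Sx_nonneg x v)
    (fun v _ => Sx_nonneg x' v) hval hval (Real.sqrt lam2) (Real.sqrt_nonneg _) w w' hw0 hw0' hw hw' hsum
    (by intro r; rw [Real.sq_sqrt h0]; exact h r) (↑M) (↑M')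
    (fun m hm m' hm' => hc m (Finset.mem_coe.1 hm) m' (Finset.mem_coe.1 hm'))
  rw [Real.sq_sqrt h0] at this
  exact this

/-- admissible constants from a bound for the payoff and the largest weight of a prime. -/
theorem KB_of_K (z x v : ℕ) (hz : IsPrimePow z) (hv : IsPrimePow v) (K Ω : ℝ) (hΩ : Real.exp Ω ≤ 2)
    (hK : ∀ VS : Finset ℕ, (∀ w ∈ VS, IsPrimePow w ∧ v < w ∧ w.minFac ≠ z.minFac ∧ w.minFac ≠ v.minFac) →
      ∀ s : ℝ, 0 ≤ s → Real.exp (XX VS (Sx x) (fun w : ℕ => (w : ℝ)) s) * (1 - ((z : ℝ) * v) ^ (-s)) ≤ K)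
    (hω : ∀ VS : Finset ℕ, (∀ w ∈ VS, IsPrimePow w ∧ v < w ∧ w.minFac ≠ z.minFac ∧ w.minFac ≠ v.minFac) →
      ∀ r, ∑ w ∈ VS.filter (fun w => w.minFac = r), Sx x w / (w : ℝ) ≤ Ω) :
    KB z x v (K * Real.exp Ω) := by
  intro VS hVS D hD hm
  have h0 : 0 ≤ Ω := by
    have := hω ∅ (by simp) 0
    simpa using this
  have hexp : Real.exp (-Ω) = (Real.exp Ω)⁻¹ := Real.exp_neg _
  have h2inv : (2 : ℝ)⁻¹ ≤ (Real.exp Ω)⁻¹ := inv_anti₀ (Real.exp_pos _) hΩ
  have hle1 : Real.exp (-Ω) ≤ 1 := Real.exp_le_one_iff.2 (by linarith)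
  have hu : (1 : ℝ) < (z : ℝ) * v := by
    have h1 : (1 : ℝ) < z := by exact_mod_cast hz.one_lt
    have h2 : (1 : ℝ) < v := by exact_mod_cast hv.one_lt
    nlinarith
  have h := sup_bound Nat.minFac VS (Sx x) (fun w : ℕ => (w : ℝ)) (fun w _ => Sx_nonneg x w)
    (fun w hw => by exact_mod_cast (hVS w hw).1.one_lt) ((z : ℝ) * v) hu K (1 - Real.exp (-Ω))
    (by linarith) (by linarith) (by
      intro r
      have h1 := hω VS hVS r
      have : Real.exp (-Ω) ≤ Real.exp (-∑ w ∈ VS.filter (fun w => w.minFac = r), Sx x w / (w : ℝ)) :=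
        Real.exp_le_exp.2 (by linarith)
      linarith) (fun s hs => hK VS hVS s hs) D hD hm
  have hinv : 1 / (1 - (1 - Real.exp (-Ω))) = Real.exp Ω := by
    rw [sub_sub_cancel, Real.exp_neg, one_div, inv_inv]
  rw [hinv] at h
  calc _ ≤ _ := h
    _ = _ := by ring

end Pool.Agent.EZ
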