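import Pool.Agent.EZ.GridZeta

/-!
# The payoff on one cell `[a, b]` of a grid (helper46)
-/

set_option autoImplicit false

namespace Pool.Agent.EZ

open Finset

noncomputable section

theorem rpow_neg_anti {q s a : ℝ} (hq : 1 ≤ q) (h : a ≤ s) : q ^ (-(1 + s)) ≤ q ^ (-(1 + a)) :=
  Real.rpow_le_rpow_of_exponent_le hq (by linarith)

theorem rpow_neg_anti' {q s a : ℝ} (hq : 1 ≤ q) (h : a ≤ s) : q ^ (-s) ≤ q ^ (-a) :=
  Real.rpow_le_rpow_of_exponent_le hq (by linarith)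

theorem mem_sp4 {q : ℕ} (hq : q ∈ sp4) : 2 ≤ q := by
  unfold sp4 at hq
  simp only [mem_insert, mem_singleton] at hq
  omega

theorem dd_anti {a s : ℝ} (ha : 0 ≤ a) (h : a ≤ s) : dd s ≤ dd a := by
  unfold dd
  apply add_le_add
  · apply Finset.sum_le_sum
    intro q hq
    have h2 := mem_sp4 hq
    have hq1 : (1 : ℝ) < q := by exact_mod_cast h2
    apply dfn_mono (by positivity) (rpow_neg_anti hq1.le h)
    apply Real.rpow_lt_one_of_one_lt_of_neg hq1
    linarith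
  · apply mul_le_mul_of_nonneg_left _ (by norm_num)
    apply pow_le_pow_left₀ (by positivity)
    exact rpow_neg_anti' (by norm_num) h

/-- killed part -/
def kill (Kd : Finset ℕ) (S' : ℕ → ℝ) (b : ℝ) : ℝ := ∑ v ∈ Kd, (1 - S' v) * (v : ℝ) ^ (-(1 + b))

theorem kill_anti (Kd : Finset ℕ) (S' : ℕ → ℝ) (hKd : ∀ v ∈ Kd, IsPrimePow v)
    (hS1 : ∀ v, S' v ≤ 1) {s b : ℝ} (h : s ≤ b) : kill Kd S' b ≤ kill Kd S' s := by
  unfold kill
  apply Finset.sum_le_sum
  intro v hv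
  apply mul_le_mul_of_nonneg_left _ (by linarith [hS1 v])
  apply rpow_neg_anti _ h
  have := (hKd v hv).pos
  exact_mod_cast this

/-- upper bound for the density. -/
theorem XX_le_mid (VS Kd : Finset ℕ) (S S' : ℕ → ℝ) (s : ℝ) (hs : 0 < s)
    (hVS : ∀ v ∈ VS, IsPrimePow v) (hKd : ∀ v ∈ Kd, IsPrimePow v)
    (hS : ∀ v ∈ VS, S v ≤ S' v) (hS0 : ∀ v, 0 ≤ S' v)
    (hSK : ∀ v, v ∉ Kd → S' v = 1) :
    XX VS S (fun v : ℕ => (v : ℝ)) s ≤ Real.log (Zt s) + dd s - kill Kd S' s := by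
  classical
  have h1 : XX VS S (fun v : ℕ => (v : ℝ)) s ≤ ∑ v ∈ VS ∪ Kd, S' v * (v : ℝ) ^ (-(1 + s)) := by
    unfold XX aa
    calc ∑ v ∈ VS, S v * (v : ℝ) ^ (-(1 + s)) ≤ ∑ v ∈ VS, S' v * (v : ℝ) ^ (-(1 + s)) := by
          apply Finset.sum_le_sum
          intro v hv
          exact mul_le_mul_of_nonneg_right (hS v hv) (by positivity)
      _ ≤ _ := by
          apply Finset.sum_le_sum_of_subset_of_nonneg Finset.subset_union_left
          intro v _ _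
          exact mul_nonneg (hS0 v) (by positivity)
  have h2 : ∑ v ∈ VS ∪ Kd, S' v * (v : ℝ) ^ (-(1 + s)) = ∑ v ∈ VS ∪ Kd, (v : ℝ) ^ (-(1 + s))
      - kill Kd S' s := by
    have e4 : kill Kd S' s = ∑ v ∈ VS ∪ Kd, (1 - S' v) * (v : ℝ) ^ (-(1 + s)) := by
      unfold kill
      apply Finset.sum_subset Finset.subset_union_right
      intro v _ hv
      rw [hSK v hv]; ring
    rw [e4, ← Finset.sum_sub_distrib]
    apply Finset.sum_congr rfl
    intro v _; ring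
  have h3 := sum_pp_mid hs (VS ∪ Kd) (by
    intro v hv
    rcases mem_union.1 hv with h | h
    · exact hVS v h
    · exact hKd v h)
  linarith

/-- `G s = exp (XX s) (1 - u^{-s})`. -/
def GG (VS : Finset ℕ) (S : ℕ → ℝ) (u s : ℝ) : ℝ :=
  Real.exp (XX VS S (fun v : ℕ => (v : ℝ)) s) * (1 - u ^ (-s))

/-- the bound on a cell. -/
theorem G_cell (VS Kd : Finset ℕ) (S S' : ℕ → ℝ) (u a b s Q : ℝ) (hs : 0 < s) (ha : 0 ≤ a)
    (has : a ≤ s) (hsb : s ≤ b) (hu : 1 < u)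
    (hVS : ∀ v ∈ VS, IsPrimePow v) (hKd : ∀ v ∈ Kd, IsPrimePow v)
    (hS : ∀ v ∈ VS, S v ≤ S' v) (hS0 : ∀ v, 0 ≤ S' v) (hS1 : ∀ v, S' v ≤ 1)
    (hSK : ∀ v, v ∉ Kd → S' v = 1) (hQ : (1 - u ^ (-s)) / s ≤ Q) :
    GG VS S u s ≤ ((1 + (2 : ℝ) ^ (-(1 + a))) * (1 - u ^ (-b)) + (5 / 2 : ℝ) ^ (-a) * Q)
      * Real.exp (dd a - kill Kd S' b) := by
  have h1 := XX_le_mid VS Kd S S' s hs hVS hKd hS hS0 hSK
  have h2 := dd_anti ha has
  have h3 := kill_anti Kd S' hKd hS1 hsb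
  have h4 : 0 ≤ 1 - u ^ (-s) := by
    have := Real.rpow_le_one_of_one_le_of_nonpos hu.le (show -s ≤ 0 by linarith)
    linarith
  have h5 : Real.exp (XX VS S (fun v : ℕ => (v : ℝ)) s) ≤ Zt s * Real.exp (dd a - kill Kd S' b) := by
    calc Real.exp (XX VS S (fun v : ℕ => (v : ℝ)) s)
        ≤ Real.exp (Real.log (Zt s) + (dd a - kill Kd S' b)) := Real.exp_le_exp.2 (by linarith)
      _ = _ := by rw [Real.exp_add, Real.exp_log (Zt_pos hs)]
  unfold GG
  calc Real.exp (XX VS S (fun v : ℕ => (v : ℝ)) s) * (1 - u ^ (-s))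
      ≤ Zt s * Real.exp (dd a - kill Kd S' b) * (1 - u ^ (-s)) :=
        mul_le_mul_of_nonneg_right h5 h4
    _ = ((1 + (2 : ℝ) ^ (-(1 + s))) * (1 - u ^ (-s)) + (5 / 2 : ℝ) ^ (-s) * ((1 - u ^ (-s)) / s))
        * Real.exp (dd a - kill Kd S' b) := by
        unfold Zt
        ring
    _ ≤ _ := by
        apply mul_le_mul_of_nonneg_right _ (Real.exp_pos _).le
        apply add_le_add
        · apply mul_le_mul _ _ h4 (by positivity)
          · have := rpow_neg_anti (q := 2) (by norm_num) has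
            linarith
          · have := rpow_neg_anti' hu.le hsb
            linarith
        · apply mul_le_mul (rpow_neg_anti' (by norm_num) has) hQ
            (div_nonneg h4 hs.le) (by positivity)

/-- far cells -/
theorem G_far (VS Kd : Finset ℕ) (S S' : ℕ → ℝ) (u a s : ℝ) (ha : 0 < a)
    (has : a ≤ s) (hu : 1 < u)
    (hVS : ∀ v ∈ VS, IsPrimePow v) (hKd : ∀ v ∈ Kd, IsPrimePow v)
    (hS : ∀ v ∈ VS, S v ≤ S' v) (hS0 : ∀ v, 0 ≤ S' v) (hS1 : ∀ v, S' v ≤ 1)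
    (hSK : ∀ v, v ∉ Kd → S' v = 1) :
    GG VS S u s ≤ Zt a * Real.exp (dd a) := by
  have hs : 0 < s := by linarith
  have h1 := XX_le_mid VS Kd S S' s hs hVS hKd hS hS0 hSK
  have h2 := dd_anti ha.le has
  have h3 : 0 ≤ kill Kd S' s := by
    apply Finset.sum_nonneg
    intro v _
    exact mul_nonneg (by linarith [hS1 v]) (by positivity)
  have h4 : 1 - u ^ (-s) ≤ 1 := by
    have : 0 < u ^ (-s) := Real.rpow_pos_of_pos (by linarith) _
    linarith
  have h5 : Real.exp (XX VS S (fun v : ℕ => (v : ℝ)) s) ≤ Zt s * Real.exp (dd a) := by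
    calc Real.exp (XX VS S (fun v : ℕ => (v : ℝ)) s)
        ≤ Real.exp (Real.log (Zt s) + dd a) := Real.exp_le_exp.2 (by linarith)
      _ = _ := by rw [Real.exp_add, Real.exp_log (Zt_pos hs)]
  have h6 : Zt s ≤ Zt a := by
    unfold Zt
    have := rpow_neg_anti (q := 2) (by norm_num) has
    have h7 := rpow_neg_anti' (q := 5 / 2) (by norm_num) has
    have h8 : (5 / 2 : ℝ) ^ (-s) / s ≤ (5 / 2 : ℝ) ^ (-a) / a :=
      div_le_div₀ (by positivity) h7 ha has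
    linarith
  unfold GG
  calc Real.exp (XX VS S (fun v : ℕ => (v : ℝ)) s) * (1 - u ^ (-s))
      ≤ Real.exp (XX VS S (fun v : ℕ => (v : ℝ)) s) * 1 :=
        mul_le_mul_of_nonneg_left h4 (Real.exp_pos _).le
    _ ≤ Zt s * Real.exp (dd a) := by rw [mul_one]; exact h5
    _ ≤ _ := mul_le_mul_of_nonneg_right h6 (Real.exp_pos _).le

/-- `(1 - u^{-s})/s` decreases. -/
theorem Q_anti {u a s : ℝ} (hu : 1 < u) (ha : 0 < a) (h : a ≤ s) :
    (1 - u ^ (-s)) / s ≤ (1 - u ^ (-a)) / a := by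
  have hs : 0 < s := by linarith
  have hu0 : 0 < u := by linarith
  rw [div_le_div_iff₀ hs ha]
  -- with `w = u^{-s}`, `u^{-a} = w^{a/s}`, concavity (Bernoulli)
  have hb := rpow_one_add_le_one_add_mul_self (s := u ^ (-s) - 1) (by
      have : 0 < u ^ (-s) := Real.rpow_pos_of_pos hu0 _
      linarith) (p := a / s) (by positivity) (by rw [div_le_one hs]; exact h)
  have e1 : (1 + (u ^ (-s) - 1)) ^ (a / s) = u ^ (-a) := by
    rw [add_sub_cancel, ← Real.rpow_mul hu0.le]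
    congr 1
    field_simp
  rw [e1] at hb
  have h2 : a / s * (u ^ (-s) - 1) * s = a * (u ^ (-s) - 1) := by field_simp
  have h3 := mul_le_mul_of_nonneg_right hb hs.le
  nlinarith

/-- `(1 - u^{-s})/s ≤ log u`. -/
theorem Q_zero {u s : ℝ} (hu : 1 < u) (hs : 0 < s) : (1 - u ^ (-s)) / s ≤ Real.log u := by
  rw [div_le_iff₀ hs, Real.rpow_def_of_pos (by linarith)]
  have := Real.add_one_le_exp (Real.log u * -s)
  linarith

/-- `log u ≤ m (1/c - c)/2` if `c ≤ u^{-1/m}`. -/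
theorem log_le_of_root {u c : ℝ} {m : ℕ} (hm : 0 < m) (hu : 1 < u) (hc : 0 < c) (hcm : c ≤ u ^ (-(1 / (m : ℝ)))) :
    Real.log u ≤ m * ((1 / c - c) / 2) := by
  have hm' : (0 : ℝ) < m := by exact_mod_cast hm
  -- `L = log u / m`, `c ≤ e^{-L}`; `L ≤ sinh L`
  set L := Real.log u / m with hL
  have hL0 : 0 ≤ L := div_nonneg (Real.log_pos hu).le hm'.le
  have h1 : u ^ (-(1 / (m : ℝ))) = Real.exp (-L) := by
    rw [Real.rpow_def_of_pos (by linarith), hL]
    congr 1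
    ring
  rw [h1] at hcm
  have h2 := Real.self_le_sinh_iff.2 hL0
  rw [Real.sinh_eq] at h2
  have h3 : Real.exp L ≤ 1 / c := by
    rw [le_div_iff₀ hc]
    have h4 : Real.exp L * c ≤ Real.exp L * Real.exp (-L) :=
      mul_le_mul_of_nonneg_left hcm (Real.exp_pos _).le
    rw [← Real.exp_add] at h4
    simpa using h4
  -- `exp L - exp (-L) ≤ 1/c - c`
  have h5 : Real.exp L - Real.exp (-L) ≤ 1 / c - c := by linarith
  have h6 : Real.log u = m * L := by rw [hL]; field_simp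
  rw [h6]
  apply mul_le_mul_of_nonneg_left _ hm'.le
  linarith

end

end Pool.Agent.EZ
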