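import Pool.Agent.EZ.GridCell

/-!
# Fixed point arithmetic for the grid (helper46)
-/

set_option autoImplicit false

namespace Pool.Agent.EZ

open Finset

noncomputable section

/-- `x ≤ X / 10^12`. -/
def Up (x : ℝ) (X : ℕ) : Prop := x * 1000000000000 ≤ (X : ℝ)

/-- `X / 10^12 ≤ x`. -/
def Lo (x : ℝ) (X : ℕ) : Prop := (X : ℝ) ≤ x * 1000000000000

/-- product, rounded up -/
def mu (x y : ℕ) : ℕ := Nat.succ (Nat.div (Nat.mul x y) 1000000000000)

/-- product, rounded down -/
def ml (x y : ℕ) : ℕ := Nat.div (Nat.mul x y) 1000000000000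

/-- quotient by a natural number, rounded up -/
def du (x n : ℕ) : ℕ := Nat.succ (Nat.div x n)

theorem Up.mono {x y : ℝ} {X : ℕ} (h : Up y X) (hxy : x ≤ y) : Up x X := by
  unfold Up at *
  linarith

theorem Lo.mono {x y : ℝ} {X : ℕ} (h : Lo x X) (hxy : x ≤ y) : Lo y X := by
  unfold Lo at *
  linarith

theorem cast_div_ge (a b : ℕ) (hb : 0 < b) : (a : ℝ) / b ≤ ((Nat.succ (Nat.div a b) : ℕ) : ℝ) := by
  have h := le_cast_div_add_one a b hb
  refine h.trans (le_of_eq ?_)
  change ((a / b : ℕ) : ℝ) + 1 = ((a / b + 1 : ℕ) : ℝ)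
  push_cast
  ring

theorem cast_div_le' (a b : ℕ) : ((Nat.div a b : ℕ) : ℝ) ≤ (a : ℝ) / b :=
  Nat.cast_div_le (α := ℝ) (m := a) (n := b)

theorem Up.mul {x y : ℝ} {X Y : ℕ} (_hx : 0 ≤ x) (hy : 0 ≤ y) (h1 : Up x X) (h2 : Up y Y) :
    Up (x * y) (mu X Y) := by
  unfold Up mu at *
  have h := cast_div_ge (Nat.mul X Y) 1000000000000 (by norm_num)
  refine le_trans ?_ h
  have e : ((Nat.mul X Y : ℕ) : ℝ) = (X : ℝ) * Y := by
    change ((X * Y : ℕ) : ℝ) = _
    push_cast; ring
  rw [e]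
  push_cast
  rw [le_div_iff₀ (by norm_num)]
  have h3 : (x * 1000000000000) * (y * 1000000000000) ≤ (X : ℝ) * Y :=
    mul_le_mul h1 h2 (by positivity) (Nat.cast_nonneg X)
  linarith

theorem Lo.mul {x y : ℝ} {X Y : ℕ} (hx : 0 ≤ x) (h1 : Lo x X) (h2 : Lo y Y) :
    Lo (x * y) (ml X Y) := by
  unfold Lo ml at *
  have h := cast_div_le' (Nat.mul X Y) 1000000000000
  refine le_trans h ?_
  have e : ((Nat.mul X Y : ℕ) : ℝ) = (X : ℝ) * Y := by
    change ((X * Y : ℕ) : ℝ) = _
    push_cast; ring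
  rw [e]
  push_cast
  rw [div_le_iff₀ (by norm_num)]
  have h3 : (X : ℝ) * Y ≤ (x * 1000000000000) * (y * 1000000000000) :=
    mul_le_mul h1 h2 (Nat.cast_nonneg Y) (by positivity)
  linarith

theorem Up.add {x y : ℝ} {X Y : ℕ} (h1 : Up x X) (h2 : Up y Y) : Up (x + y) (Nat.add X Y) := by
  unfold Up at *
  have e : ((Nat.add X Y : ℕ) : ℝ) = (X : ℝ) + Y := by
    change ((X + Y : ℕ) : ℝ) = _
    push_cast; ring
  rw [e]; linarith

theorem Lo.add {x y : ℝ} {X Y : ℕ} (h1 : Lo x X) (h2 : Lo y Y) : Lo (x + y) (Nat.add X Y) := by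
  unfold Lo at *
  have e : ((Nat.add X Y : ℕ) : ℝ) = (X : ℝ) + Y := by
    change ((X + Y : ℕ) : ℝ) = _
    push_cast; ring
  rw [e]; linarith

theorem Up.sub {x y : ℝ} {X Y : ℕ} (h1 : Up x X) (h2 : Lo y Y) : Up (x - y) (Nat.sub X Y) := by
  unfold Up Lo at *
  have e : (X : ℝ) - Y ≤ ((Nat.sub X Y : ℕ) : ℝ) := by
    have h3 : X ≤ (X - Y) + Y := by omega
    have h4 : (X : ℝ) ≤ (((X - Y) + Y : ℕ) : ℝ) := by exact_mod_cast h3
    push_cast at h4
    change (X : ℝ) - Y ≤ ((X - Y : ℕ) : ℝ)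
    linarith
  linarith

theorem Lo.sub {x y : ℝ} {X Y : ℕ} (h1 : Lo x X) (h2 : Up y Y) (h : Y ≤ X) :
    Lo (x - y) (Nat.sub X Y) := by
  unfold Up Lo at *
  have e : ((Nat.sub X Y : ℕ) : ℝ) = (X : ℝ) - Y := by
    change ((X - Y : ℕ) : ℝ) = _
    rw [Nat.cast_sub h]
  rw [e]; linarith

theorem Up.div {x : ℝ} {X : ℕ} (n : ℕ) (hn : 0 < n) (h : Up x X) : Up (x / n) (du X n) := by
  unfold Up du at *
  have h1 := cast_div_ge X n hn
  refine le_trans ?_ h1
  have hn' : (0 : ℝ) < n := by exact_mod_cast hn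
  rw [div_mul_eq_mul_div]
  exact div_le_div_of_nonneg_right h hn'.le

theorem Lo.div {x : ℝ} {X : ℕ} (n : ℕ) (h : Lo x X) : Lo (x / n) (Nat.div X n) := by
  unfold Lo at *
  have h1 := cast_div_le' X n
  refine le_trans h1 ?_
  rw [div_mul_eq_mul_div]
  exact div_le_div_of_nonneg_right h (Nat.cast_nonneg n)

theorem Up.one : Up 1 1000000000000 := by unfold Up; norm_num

theorem Lo.one : Lo 1 1000000000000 := by unfold Lo; norm_num

/-! ### the exponential -/

/-- Taylor of order 4 -/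
def exn0 (y : ℕ) : ℕ :=
  Nat.sub (Nat.add (Nat.add 1000000000000 (Nat.succ (Nat.div (Nat.mul y y) 2000000000000)))
      (Nat.succ (Nat.div (Nat.pow y 4) 24000000000000000000000000000000000000)))
    (Nat.add y (Nat.div (Nat.pow y 3) 6000000000000000000000000))

theorem exn0_up (Y : ℕ) : Up (Real.exp (-((Y : ℝ) / 1000000000000))) (exn0 Y) := by
  set y : ℝ := (Y : ℝ) / 1000000000000 with hy
  have hy0 : 0 ≤ y := by positivity
  have h1 := (exp_neg_Tp 2).1 y hy0
  have e1 : Tp (2 * 2 + 1) y = 1 + y ^ 2 / 2 + y ^ 4 / 24 - (y + y ^ 3 / 6) := by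
    unfold Tp
    simp only [Finset.sum_range_succ, Finset.sum_range_zero, Nat.factorial]
    push_cast
    ring
  rw [e1] at h1
  refine Up.mono ?_ h1
  apply Up.sub
  · apply Up.add
    · apply Up.add Up.one
      have h := cast_div_ge (Nat.mul Y Y) 2000000000000 (by norm_num)
      unfold Up
      refine le_trans (le_of_eq ?_) h
      have e : ((Nat.mul Y Y : ℕ) : ℝ) = (Y : ℝ) * Y := by
        change ((Y * Y : ℕ) : ℝ) = _
        push_cast; ring
      rw [e, hy]
      push_cast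
      ring
    · have h := cast_div_ge (Nat.pow Y 4) 24000000000000000000000000000000000000 (by norm_num)
      unfold Up
      refine le_trans (le_of_eq ?_) h
      have e : ((Nat.pow Y 4 : ℕ) : ℝ) = (Y : ℝ) ^ 4 := by
        change ((Y ^ 4 : ℕ) : ℝ) = _
        push_cast; ring
      rw [e, hy]
      push_cast
      ring
  · apply Lo.add
    · unfold Lo
      rw [hy]
      apply le_of_eq
      field_simp
    · have h := cast_div_le' (Nat.pow Y 3) 6000000000000000000000000
      unfold Lo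
      refine le_trans h (le_of_eq ?_)
      have e : ((Nat.pow Y 3 : ℕ) : ℝ) = (Y : ℝ) ^ 3 := by
        change ((Y ^ 3 : ℕ) : ℝ) = _
        push_cast; ring
      rw [e, hy]
      push_cast
      ring

/-- `exp (-X)`, rounded up -/
def exn (X : ℕ) : ℕ :=
  mu (mu (mu (exn0 (Nat.div X 8)) (exn0 (Nat.div X 8))) (mu (exn0 (Nat.div X 8)) (exn0 (Nat.div X 8))))
    (mu (mu (exn0 (Nat.div X 8)) (exn0 (Nat.div X 8))) (mu (exn0 (Nat.div X 8)) (exn0 (Nat.div X 8))))

theorem exn_up {x : ℝ} {X : ℕ} (h : Lo x X) : Up (Real.exp (-x)) (exn X) := by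
  have h1 := exn0_up (Nat.div X 8)
  have h2 : Lo (x / 8) (Nat.div X 8) := by
    have := Lo.div 8 h
    push_cast at this
    exact this
  have h3 : Up (Real.exp (-(x / 8))) (exn0 (Nat.div X 8)) := by
    refine Up.mono h1 ?_
    apply Real.exp_le_exp.2
    unfold Lo at h2
    have : ((Nat.div X 8 : ℕ) : ℝ) / 1000000000000 ≤ x / 8 := by
      rw [div_le_iff₀ (by norm_num)]
      exact h2
    linarith
  have hp := (Real.exp_pos (-(x / 8))).le
  have h4 := Up.mul hp hp h3 h3
  have h5 := Up.mul (by positivity) (by positivity) h4 h4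
  have h6 := Up.mul (by positivity) (by positivity) h5 h5
  unfold exn
  refine Up.mono h6 (le_of_eq ?_)
  rw [← Real.exp_add, ← Real.exp_add, ← Real.exp_add]
  congr 1
  ring

/-- forcing version -/
def exnK (X : ℕ) (k : ℕ → Bool) : Bool :=
  frc (Nat.div X 8) fun y => frc (exn0 y) fun e => frc (mu e e) fun e2 => frc (mu e2 e2) fun e4 =>
    frc (mu e4 e4) k

theorem exnK_eq (X : ℕ) (k : ℕ → Bool) : exnK X k = k (exn X) := by
  unfold exnK
  simp only [frc_eq]
  rfl

/-! ### the function `dfn` -/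

/-- upper bound of `dfn` -/
def dfu (X : ℕ) : ℕ :=
  Nat.sub (Nat.succ (Nat.div (Nat.mul X 1000000000000) (Nat.sub 1000000000000 X)))
    (Nat.add
      (Nat.add (Nat.mul 2 (Nat.div (Nat.mul X 1000000000000) (Nat.sub 2000000000000 X)))
        (Nat.div (Nat.mul 2 (Nat.pow (Nat.div (Nat.mul X 1000000000000) (Nat.sub 2000000000000 X)) 3))
          3000000000000000000000000))
      (Nat.div (Nat.mul 2 (Nat.pow (Nat.div (Nat.mul X 1000000000000) (Nat.sub 2000000000000 X)) 5))
          5000000000000000000000000000000000000000000000000))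

theorem dfu_up {x : ℝ} {X : ℕ} (hx : 0 ≤ x) (h : Up x X) (hX : X < 1000000000000) :
    Up (dfn x) (dfu X) := by
  set z : ℝ := (X : ℝ) / 1000000000000 with hz
  have hXr : (X : ℝ) < 1000000000000 := by exact_mod_cast hX
  have hz0 : 0 ≤ z := by positivity
  have hz1 : z < 1 := by rw [hz, div_lt_one (by norm_num)]; exact hXr
  have hxz : x ≤ z := by
    unfold Up at h
    rw [hz, le_div_iff₀ (by norm_num)]
    exact h
  refine Up.mono ?_ (dfn_mono hx hxz hz1)
  set w : ℝ := z / (2 - z) with hw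
  have h2z : 0 < 2 - z := by linarith
  have hw0 : 0 ≤ w := by positivity
  have hw1 : w < 1 := by rw [hw, div_lt_one h2z]; linarith
  have hlog : -Real.log (1 - z) = Real.log (1 + w) - Real.log (1 - w) := by
    have e1 : 1 + w = 2 / (2 - z) := by rw [hw]; field_simp; ring
    have e2 : 1 - w = 2 * (1 - z) / (2 - z) := by rw [hw]; field_simp; ring
    rw [e1, e2, ← Real.log_div (by positivity) (by
      apply div_ne_zero _ h2z.ne'
      apply mul_ne_zero (by norm_num)
      linarith), ← Real.log_inv]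
    congr 1
    have : 1 - z ≠ 0 := by linarith
    field_simp
  have hser := log_series_lower 3 hw0 hw1
  simp only [Finset.sum_range_succ, Finset.sum_range_zero] at hser
  rw [← hlog] at hser
  set Y := Nat.div (Nat.mul X 1000000000000) (Nat.sub 2000000000000 X) with hY
  have hYw : Lo w Y := by
    have h1 := cast_div_le' (Nat.mul X 1000000000000) (Nat.sub 2000000000000 X)
    unfold Lo
    refine le_trans h1 (le_of_eq ?_)
    have e1 : ((Nat.mul X 1000000000000 : ℕ) : ℝ) = (X : ℝ) * 1000000000000 := by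
      change ((X * 1000000000000 : ℕ) : ℝ) = _
      push_cast; ring
    have e2 : ((Nat.sub 2000000000000 X : ℕ) : ℝ) = 2000000000000 - (X : ℝ) := by
      change ((2000000000000 - X : ℕ) : ℝ) = _
      rw [Nat.cast_sub (by omega)]
      push_cast; ring
    rw [e1, e2, hw, hz]
    have h5 : (2000000000000 : ℝ) - X ≠ 0 := by linarith
    have e3 : (2 : ℝ) - (X : ℝ) / 1000000000000 = (2000000000000 - X) / 1000000000000 := by ring
    rw [e3]
    field_simp
  have hY0 : (0 : ℝ) ≤ (Y : ℝ) := Nat.cast_nonneg Y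
  have hYw' : (Y : ℝ) ≤ w * 1000000000000 := hYw
  -- combine
  have hd : dfn z ≤ z / (1 - z) - (2 * w + 2 / 3 * w ^ 3 + 2 / 5 * w ^ 5) := by
    unfold dfn
    push_cast at hser
    norm_num at hser
    linarith
  refine Up.mono ?_ hd
  unfold dfu
  apply Up.sub
  · have h1 := cast_div_ge (Nat.mul X 1000000000000) (Nat.sub 1000000000000 X) (by
      change 0 < 1000000000000 - X
      omega)
    unfold Up
    refine le_trans (le_of_eq ?_) h1
    have e1 : ((Nat.mul X 1000000000000 : ℕ) : ℝ) = (X : ℝ) * 1000000000000 := by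
      change ((X * 1000000000000 : ℕ) : ℝ) = _
      push_cast; ring
    have e2 : ((Nat.sub 1000000000000 X : ℕ) : ℝ) = 1000000000000 - (X : ℝ) := by
      change ((1000000000000 - X : ℕ) : ℝ) = _
      rw [Nat.cast_sub (by omega)]
      push_cast; ring
    rw [e1, e2, hz]
    have h2 : (1000000000000 : ℝ) - X ≠ 0 := by linarith
    have h3 : (1 : ℝ) - (X : ℝ) / 1000000000000 ≠ 0 := by
      rw [← hz]; linarith
    field_simp
  · apply Lo.add
    · apply Lo.add
      · unfold Lo
        have e1 : ((Nat.mul 2 Y : ℕ) : ℝ) = 2 * (Y : ℝ) := by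
          change ((2 * Y : ℕ) : ℝ) = _
          push_cast; ring
        rw [e1]
        linarith
      · have h1 := cast_div_le' (Nat.mul 2 (Nat.pow Y 3)) 3000000000000000000000000
        unfold Lo
        refine le_trans h1 ?_
        have e1 : ((Nat.mul 2 (Nat.pow Y 3) : ℕ) : ℝ) = 2 * (Y : ℝ) ^ 3 := by
          change ((2 * Y ^ 3 : ℕ) : ℝ) = _
          push_cast; ring
        rw [e1]
        have h2 : (Y : ℝ) ^ 3 ≤ (w * 1000000000000) ^ 3 := pow_le_pow_left₀ hY0 hYw' 3
        push_cast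
        rw [div_le_iff₀ (by norm_num)]
        nlinarith
    · have h1 := cast_div_le' (Nat.mul 2 (Nat.pow Y 5)) 5000000000000000000000000000000000000000000000000
      unfold Lo
      refine le_trans h1 ?_
      have e1 : ((Nat.mul 2 (Nat.pow Y 5) : ℕ) : ℝ) = 2 * (Y : ℝ) ^ 5 := by
        change ((2 * Y ^ 5 : ℕ) : ℝ) = _
        push_cast; ring
      rw [e1]
      have h2 : (Y : ℝ) ^ 5 ≤ (w * 1000000000000) ^ 5 := pow_le_pow_left₀ hY0 hYw' 5
      push_cast
      rw [div_le_iff₀ (by norm_num)]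
      nlinarith

/-- forcing version -/
def dfuK (X : ℕ) (k : ℕ → Bool) : Bool :=
  frc (Nat.div (Nat.mul X 1000000000000) (Nat.sub 2000000000000 X)) fun y =>
  frc (Nat.sub (Nat.succ (Nat.div (Nat.mul X 1000000000000) (Nat.sub 1000000000000 X)))
    (Nat.add
      (Nat.add (Nat.mul 2 y) (Nat.div (Nat.mul 2 (Nat.pow y 3)) 3000000000000000000000000))
      (Nat.div (Nat.mul 2 (Nat.pow y 5)) 5000000000000000000000000000000000000000000000000))) k

theorem dfuK_eq (X : ℕ) (k : ℕ → Bool) : dfuK X k = k (dfu X) := by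
  unfold dfuK
  simp only [frc_eq]
  rfl

end

end Pool.Agent.EZ
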