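import Pool.Agent.EZ.GridMain
import Pool.Agent.EZ.Design
import Pool.Agent.EZ.Kappa

/-!
# From the grid to the constants `KB` (helper46)
-/

set_option autoImplicit false

namespace Pool.Agent.EZ

open Finset Filter Topology

noncomputable section

/-! ### the decreasing function -/

/-- `x ↦ x⁻¹ (1 - x^(-s))` is antitone on `[3, ∞)`. -/
theorem phi_anti {x y s : ℝ} (hx : 3 ≤ x) (hxy : x ≤ y) (hs : 0 ≤ s) :
    1 / y * (1 - y ^ (-s)) ≤ 1 / x * (1 - x ^ (-s)) := by
  have hx0 : 0 < x := by linarith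
  have hy0 : 0 < y := by linarith
  set t := y / x with ht
  have ht1 : 1 ≤ t := by rw [ht, le_div_iff₀ hx0]; linarith
  have hy : y = x * t := by rw [ht]; field_simp
  have e1 : y ^ (-s) = x ^ (-s) * t ^ (-s) := by
    rw [hy, Real.mul_rpow hx0.le (by linarith)]
  have h1 : 1 - t ^ (-s) ≤ s * (t - 1) := by
    have h2 : t ^ (-s) = Real.exp (-(s * Real.log t)) := by
      rw [Real.rpow_def_of_pos (by linarith)]
      congr 1; ring
    have h3 := Real.add_one_le_exp (-(s * Real.log t))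
    have h4 := Real.log_le_sub_one_of_pos (by linarith : 0 < t)
    have h5 := mul_le_mul_of_nonneg_left h4 hs
    rw [h2]; linarith
  have h6 : x ^ (-s) ≤ Real.exp (-s) := by
    rw [Real.rpow_def_of_pos hx0]
    apply Real.exp_le_exp.2
    have h7 : 1 ≤ Real.log x := by
      rw [Real.le_log_iff_exp_le hx0]
      have := Real.exp_one_lt_d9
      linarith
    nlinarith
  have h8 : Real.exp (-s) * (1 + s) ≤ 1 := by
    have := Real.add_one_le_exp s
    have h9 : Real.exp (-s) * Real.exp s = 1 := by rw [← Real.exp_add]; simp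
    have h10 := mul_le_mul_of_nonneg_left this (Real.exp_pos (-s)).le
    linarith
  have h11 : x ^ (-s) * (t - t ^ (-s)) ≤ t - 1 := by
    have hxs : 0 ≤ x ^ (-s) := Real.rpow_nonneg hx0.le _
    have h12 : t - t ^ (-s) ≤ (1 + s) * (t - 1) := by nlinarith
    have h13 : 0 ≤ (1 + s) * (t - 1) := by
      apply mul_nonneg <;> linarith
    calc x ^ (-s) * (t - t ^ (-s)) ≤ x ^ (-s) * ((1 + s) * (t - 1)) :=
          mul_le_mul_of_nonneg_left h12 hxs
      _ ≤ Real.exp (-s) * ((1 + s) * (t - 1)) := mul_le_mul_of_nonneg_right h6 h13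
      _ = (Real.exp (-s) * (1 + s)) * (t - 1) := by ring
      _ ≤ 1 * (t - 1) := mul_le_mul_of_nonneg_right h8 (by linarith)
      _ = t - 1 := one_mul _
  have key : (1 - y ^ (-s)) ≤ t * (1 - x ^ (-s)) := by
    rw [e1]; nlinarith
  have : 1 / y * (1 - y ^ (-s)) ≤ 1 / y * (t * (1 - x ^ (-s))) :=
    mul_le_mul_of_nonneg_left key (by positivity)
  refine this.trans (le_of_eq ?_)
  rw [ht]
  field_simp

/-! ### survival probabilities -/

theorem svN_one {x w : ℕ} (hw : 17 ≤ w) (hpp : IsPrimePow w) (hx : x ≤ 127500) :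
    svN x w w.minFac = 1000 := by
  have hck : ∀ j, j < 5 → x ≤ ck w w.minFac j := by
    intro j hj
    unfold ck
    rw [if_neg (by omega), if_neg (by omega), if_neg (by omega), if_neg (by omega),
      if_neg (by omega), if_neg (by omega), if_neg (by omega), if_neg (by omega)]
    split_ifs with h1 h2 h3 h4 h5
    · omega
    · omega
    · omega
    · omega
    · have : 10000 ≤ 13 ^ j * 10 ^ (4 - j) := by
        interval_cases j <;> norm_num
      have h6 : 15 ≤ w - 2 := by omega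
      have := Nat.mul_le_mul h6 this
      rw [mul_assoc]
      omega
    · have hm : w.minFac.Prime := Nat.minFac_prime (by omega)
      have h6 : w / w.minFac ≤ w / 2 := Nat.div_le_div_left hm.two_le (by norm_num)
      have h7 : ¬ w.Prime := fun h => h5 h.minFac_eq.symm
      have h8 : 26 ≤ w := by
        by_contra hlt
        have h9 : w ≤ 25 := by omega
        interval_cases w
        · exact h7 (by norm_num)
        · revert hpp; rw [isPrimePow_iff_unique_prime_dvd]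
          rintro ⟨p, ⟨hp, -⟩, hu⟩
          have a1 := hu 2 ⟨by norm_num, by norm_num⟩
          have a2 := hu 3 ⟨by norm_num, by norm_num⟩
          omega
        · exact h7 (by norm_num)
        · revert hpp; rw [isPrimePow_iff_unique_prime_dvd]
          rintro ⟨p, ⟨hp, -⟩, hu⟩
          have a1 := hu 2 ⟨by norm_num, by norm_num⟩
          have a2 := hu 5 ⟨by norm_num, by norm_num⟩
          omega
        · revert hpp; rw [isPrimePow_iff_unique_prime_dvd]
          rintro ⟨p, ⟨hp, -⟩, hu⟩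
          have a1 := hu 3 ⟨by norm_num, by norm_num⟩
          have a2 := hu 7 ⟨by norm_num, by norm_num⟩
          omega
        · revert hpp; rw [isPrimePow_iff_unique_prime_dvd]
          rintro ⟨p, ⟨hp, -⟩, hu⟩
          have a1 := hu 2 ⟨by norm_num, by norm_num⟩
          have a2 := hu 11 ⟨by norm_num, by norm_num⟩
          omega
        · exact h7 (by norm_num)
        · revert hpp; rw [isPrimePow_iff_unique_prime_dvd]
          rintro ⟨p, ⟨hp, -⟩, hu⟩
          have a1 := hu 2 ⟨by norm_num, by norm_num⟩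
          have a2 := hu 3 ⟨by norm_num, by norm_num⟩
          omega
        · exact h1 rfl
      omega
  have h := pk_sum w w.minFac
  unfold svN
  rw [if_pos (hck 0 (by norm_num)), if_pos (hck 1 (by norm_num)), if_pos (hck 2 (by norm_num)),
    if_pos (hck 3 (by norm_num)), if_pos (hck 4 (by norm_num))]
  exact h

theorem minFac_pow_prime {q k : ℕ} (hq : q.Prime) : (q ^ (k + 1)).minFac = q := by
  rw [Nat.pow_minFac (by omega), hq.minFac_eq]

theorem Sx_pow {q : ℕ} (hq : q.Prime) (x k : ℕ) :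
    Sx x (q ^ (k + 1)) = (svN x (q ^ (k + 1)) q : ℝ) / 1000 := by
  unfold Sx
  rw [minFac_pow_prime hq]

/-! ### contributions of one prime -/

/-- term -/
def fterm (x v r k : ℕ) (s : ℝ) : ℝ :=
  if v < r ^ (k + 1) then
    Sx x (r ^ (k + 1)) / ((r ^ (k + 1) : ℕ) : ℝ) * (1 - ((r ^ (k + 1) : ℕ) : ℝ) ^ (-s)) else 0

/-- contribution of the prime `r` -/
def fsum (x v r N : ℕ) (s : ℝ) : ℝ := ∑ k ∈ range N, fterm x v r k s

theorem one_sub_nonneg {w : ℕ} {s : ℝ} (hw : 1 ≤ w) (hs : 0 ≤ s) : 0 ≤ 1 - (w : ℝ) ^ (-s) := by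
  have : (w : ℝ) ^ (-s) ≤ 1 :=
    Real.rpow_le_one_of_one_le_of_nonpos (by exact_mod_cast hw) (by linarith)
  linarith

theorem fterm_nonneg (x v r k : ℕ) {s : ℝ} (hr : 1 ≤ r) (hs : 0 ≤ s) : 0 ≤ fterm x v r k s := by
  unfold fterm
  split_ifs with h
  · apply mul_nonneg (div_nonneg (Sx_nonneg _ _) (Nat.cast_nonneg _))
    exact one_sub_nonneg (Nat.one_le_pow _ _ hr) hs
  · exact le_rfl

theorem fsum_mono {x v r N M : ℕ} {s : ℝ} (hr : 1 ≤ r) (hs : 0 ≤ s) (h : N ≤ M) :
    fsum x v r N s ≤ fsum x v r M s :=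
  Finset.sum_le_sum_of_subset_of_nonneg (Finset.range_mono h)
    fun k _ _ => fterm_nonneg x v r k hr hs

theorem prime_sum_le (x v : ℕ) (VS : Finset ℕ) (hVS : ∀ w ∈ VS, IsPrimePow w ∧ v < w) (r : ℕ)
    (hr : r.Prime) : ∃ N, ∀ s : ℝ, 0 ≤ s →
    ∑ w ∈ VS.filter (fun w => w.minFac = r), Sx x w / (w : ℝ) * (1 - (w : ℝ) ^ (-s))
      ≤ fsum x v r N s := by
  refine ⟨VS.sup id + 1, fun s hs => ?_⟩
  have hinj : Set.InjOn (fun k : ℕ => r ^ (k + 1))
      ↑((range (VS.sup id + 1)).filter (fun k => v < r ^ (k + 1))) := by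
    intro a _ b _ hab
    have := Nat.pow_right_injective hr.two_le hab
    omega
  have e1 : fsum x v r (VS.sup id + 1) s
      = ∑ w ∈ ((range (VS.sup id + 1)).filter (fun k => v < r ^ (k + 1))).image
        (fun k => r ^ (k + 1)), Sx x w / (w : ℝ) * (1 - (w : ℝ) ^ (-s)) := by
    rw [Finset.sum_image hinj, Finset.sum_filter]
    rfl
  rw [e1]
  apply Finset.sum_le_sum_of_subset_of_nonneg
  · intro w hw
    obtain ⟨hw1, hw2⟩ := Finset.mem_filter.1 hw
    obtain ⟨hpp, hv⟩ := hVS w hw1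
    rw [Finset.mem_image]
    rw [isPrimePow_nat_iff] at hpp
    obtain ⟨p, k, hp, hk, hpk⟩ := hpp
    obtain ⟨j, rfl⟩ : ∃ j, k = j + 1 := ⟨k - 1, by omega⟩
    have hpr : p = r := by
      rw [← hw2, ← hpk, minFac_pow_prime hp]
    subst hpr
    refine ⟨j, ?_, hpk⟩
    rw [Finset.mem_filter, Finset.mem_range]
    refine ⟨?_, by rw [hpk]; exact hv⟩
    have h1 : w ≤ VS.sup id := Finset.le_sup (f := id) hw1
    have h2 : j + 1 < p ^ (j + 1) := Nat.lt_pow_self hp.one_lt
    omega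
  · intro w hw _
    rw [Finset.mem_image] at hw
    obtain ⟨k, -, rfl⟩ := hw
    apply mul_nonneg (div_nonneg (Sx_nonneg _ _) (Nat.cast_nonneg _))
    exact one_sub_nonneg (Nat.one_le_pow _ _ hr.pos) hs

/-- domination -/
theorem fsum_dom (x v q r b N : ℕ) {s : ℝ} (hs : 0 ≤ s) (hq : 2 ≤ q) (hqr : q ≤ r)
    (h3 : 3 ≤ q ^ (b + 1)) (hv : v < q ^ (b + 1))
    (hS : ∀ k, b ≤ k → Sx x (q ^ (k + 1)) = 1)
    (hfirst : ∀ k, v < r ^ (k + 1) → q ^ (b + 1) ≤ r ^ (k + 1)) :
    fsum x v r N s ≤ fsum x v q (N + b) s := by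
  by_cases hex : ∃ k, v < r ^ (k + 1)
  swap
  · push Not at hex
    have : fsum x v r N s = 0 := by
      unfold fsum
      apply Finset.sum_eq_zero
      intro k _
      unfold fterm
      rw [if_neg (by have := hex k; omega)]
    rw [this]
    exact Finset.sum_nonneg fun k _ => fterm_nonneg x v q k (by omega) hs
  have ha := Nat.find_spec hex
  set a := Nat.find hex with hadef
  have hmin : ∀ k, v < r ^ (k + 1) → a ≤ k := fun k hk => Nat.find_min' hex hk
  have hB := hfirst a ha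
  have e1 : fsum x v r N s = ∑ k ∈ (range N).filter (fun k => v < r ^ (k + 1)), fterm x v r k s := by
    unfold fsum
    rw [Finset.sum_filter]
    apply Finset.sum_congr rfl
    intro k _
    split_ifs with h
    · rfl
    · unfold fterm
      rw [if_neg h]
  rw [e1]
  have hterm : ∀ k ∈ (range N).filter (fun k => v < r ^ (k + 1)),
      fterm x v r k s ≤ fterm x v q (k - a + b) s := by
    intro k hk
    obtain ⟨-, hk2⟩ := Finset.mem_filter.1 hk
    have hak := hmin k hk2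
    have h1 : q ^ (k - a + b + 1) ≤ r ^ (k + 1) := by
      calc q ^ (k - a + b + 1) = q ^ (k - a) * q ^ (b + 1) := by rw [← pow_add]; congr 1
        _ ≤ r ^ (k - a) * r ^ (a + 1) := Nat.mul_le_mul (Nat.pow_le_pow_left hqr _) hB
        _ = r ^ (k + 1) := by rw [← pow_add]; congr 1; omega
    have h2 : q ^ (b + 1) ≤ q ^ (k - a + b + 1) := Nat.pow_le_pow_right (by omega) (by omega)
    unfold fterm
    rw [if_pos hk2, if_pos (by omega), hS _ (by omega)]
    have h4 : (3 : ℝ) ≤ ((q ^ (k - a + b + 1) : ℕ) : ℝ) := by exact_mod_cast h3.trans h2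
    have h5 : ((q ^ (k - a + b + 1) : ℕ) : ℝ) ≤ ((r ^ (k + 1) : ℕ) : ℝ) := by exact_mod_cast h1
    have h6 := phi_anti h4 h5 hs
    refine le_trans ?_ h6
    apply mul_le_mul_of_nonneg_right
    · exact div_le_div_of_nonneg_right (Sx_le_one _ _) (Nat.cast_nonneg _)
    · exact one_sub_nonneg (Nat.one_le_pow _ _ (by omega)) hs
  have hinj : Set.InjOn (fun k : ℕ => k - a + b) ↑((range N).filter (fun k => v < r ^ (k + 1))) := by
    intro k hk k' hk' hkk
    rw [Finset.mem_coe, Finset.mem_filter] at hk hk'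
    have h1 := hmin k hk.2
    have h2 := hmin k' hk'.2
    simp only at hkk
    omega
  calc ∑ k ∈ (range N).filter (fun k => v < r ^ (k + 1)), fterm x v r k s
      ≤ ∑ k ∈ (range N).filter (fun k => v < r ^ (k + 1)), fterm x v q (k - a + b) s :=
        Finset.sum_le_sum hterm
    _ = ∑ j ∈ ((range N).filter (fun k => v < r ^ (k + 1))).image (fun k => k - a + b),
        fterm x v q j s := (Finset.sum_image (f := fun j => fterm x v q j s) hinj).symm
    _ ≤ fsum x v q (N + b) s := by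
        apply Finset.sum_le_sum_of_subset_of_nonneg
        · intro j hj
          rw [Finset.mem_image] at hj
          obtain ⟨k, hk, rfl⟩ := hj
          rw [Finset.mem_filter, Finset.mem_range] at hk
          rw [Finset.mem_range]
          omega
        · intro k _ _
          exact fterm_nonneg x v q k (by omega) hs

/-! ### the list part -/

/-- `xi` weight of `v` -/
def xw (bs : List GE) (v : ℕ) : ℕ := (bs.map fun e => if e.1 = v then e.2.2 else 0).sum

theorem xw_cons (e : GE) (bs : List GE) (v : ℕ) :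
    xw (e :: bs) v = (if e.1 = v then e.2.2 else 0) + xw bs v := by
  unfold xw
  rw [List.map_cons, List.sum_cons]

theorem sum_xw (bs : List GE) (f : ℕ → ℝ) (T : Finset ℕ) (hT : ∀ e ∈ bs, e.2.2 = 0 ∨ e.1 ∈ T) :
    ∑ v ∈ T, (xw bs v : ℝ) / 10000 * f v = (bs.map fun e => (e.2.2 : ℝ) / 10000 * f e.1).sum := by
  induction bs with
  | nil =>
    rw [List.map_nil, List.sum_nil]
    apply Finset.sum_eq_zero
    intro v _
    unfold xw
    simp
  | cons e bs ih =>
    rw [List.map_cons, List.sum_cons, ← ih (fun e' he' => hT e' (List.mem_cons_of_mem _ he'))]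
    have h1 : (e.2.2 : ℝ) / 10000 * f e.1
        = ∑ v ∈ T, (if e.1 = v then (e.2.2 : ℝ) / 10000 * f v else 0) := by
      rw [Finset.sum_ite_eq]
      split_ifs with h
      · rfl
      · rcases hT e (by simp) with h' | h'
        · rw [h']; simp
        · exact absurd h' h
    rw [h1, ← Finset.sum_add_distrib]
    apply Finset.sum_congr rfl
    intro v _
    rw [xw_cons]
    push_cast
    split_ifs <;> ring

/-- geometric tail -/
theorem geom_tail {q : ℝ} (hq : 1 < q) (K N : ℕ) (_ : K ≤ N) :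
    ∑ k ∈ range N, 1 / q ^ (k + 1) ≤ (∑ k ∈ range K, 1 / q ^ (k + 1)) + 1 / (q ^ K * (q - 1)) := by
  have hq0 : 0 < q := by linarith
  have hq1 : 0 < q - 1 := by linarith
  have key : ∀ N, ∑ k ∈ range N, 1 / q ^ (k + 1) = 1 / (q - 1) - 1 / (q ^ N * (q - 1)) := by
    intro N
    induction N with
    | zero => simp
    | succ n ih =>
      rw [Finset.sum_range_succ, ih]
      field_simp
      ring
  rw [key N, key K]
  have : 0 ≤ 1 / (q ^ N * (q - 1)) := by positivity
  linarith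

/-- the bound for the candidate prime `q`. -/
theorem fsum_le_W (x v q Kq : ℕ) (bs : List GE) (W : ℕ) (hq : q.Prime)
    (hsup : ∀ e ∈ bs, e.2.2 = 0 ∨ ∃ k < Kq, e.1 = q ^ (k + 1))
    (hval : ∀ k < Kq, xw bs (q ^ (k + 1)) =
      if v < q ^ (k + 1) then 10 * svN x (q ^ (k + 1)) q else 0)
    (hW : (∑ k ∈ range Kq, if v < q ^ (k + 1) then
        (1000000000 * svN x (q ^ (k + 1)) q) / q ^ (k + 1) + 1 else 0)
      + 1000000000000 / (q ^ Kq * (q - 1)) + 1 ≤ W) (N : ℕ) (s : ℝ) (hs : 0 ≤ s) :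
    fsum x v q N s ≤ (W : ℝ) / 1000000000000 - XLs bs s := by
  have hq2 := hq.two_le
  refine (fsum_mono (by omega) hs (le_max_left N Kq)).trans ?_
  set M := max N Kq with hM
  have hKM : Kq ≤ M := le_max_right _ _
  have hXL : XLs bs s = ∑ k ∈ range Kq, (if v < q ^ (k + 1) then
      Sx x (q ^ (k + 1)) * ((q ^ (k + 1) : ℕ) : ℝ) ^ (-(1 + s)) else 0) := by
    unfold XLs
    rw [← sum_xw bs (fun w => (w : ℝ) ^ (-(1 + s))) ((range Kq).image fun k => q ^ (k + 1))]
    · rw [Finset.sum_image (by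
        intro a _ b _ hab
        have := Nat.pow_right_injective hq.two_le hab
        omega)]
      apply Finset.sum_congr rfl
      intro k hk
      rw [hval k (Finset.mem_range.1 hk)]
      split_ifs with h
      · rw [Sx_pow hq]
        push_cast
        ring
      · simp
    · intro e he
      rcases hsup e he with h | ⟨k, hk, hk2⟩
      · left; exact h
      · right
        rw [Finset.mem_image]
        exact ⟨k, Finset.mem_range.2 hk, hk2.symm⟩
  have hsplit : fsum x v q M s ≤ (∑ k ∈ range M, if v < q ^ (k + 1) then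
        Sx x (q ^ (k + 1)) / ((q ^ (k + 1) : ℕ) : ℝ) else 0) - XLs bs s := by
    have e1 : XLs bs s ≤ ∑ k ∈ range M, (if v < q ^ (k + 1) then
        Sx x (q ^ (k + 1)) * ((q ^ (k + 1) : ℕ) : ℝ) ^ (-(1 + s)) else 0) := by
      rw [hXL]
      apply Finset.sum_le_sum_of_subset_of_nonneg (Finset.range_mono hKM)
      intro k _ _
      split_ifs
      · exact mul_nonneg (Sx_nonneg _ _) (Real.rpow_nonneg (Nat.cast_nonneg _) _)
      · exact le_rfl
    have e2 : fsum x v q M s = (∑ k ∈ range M, if v < q ^ (k + 1) then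
        Sx x (q ^ (k + 1)) / ((q ^ (k + 1) : ℕ) : ℝ) else 0) - ∑ k ∈ range M,
        (if v < q ^ (k + 1) then
        Sx x (q ^ (k + 1)) * ((q ^ (k + 1) : ℕ) : ℝ) ^ (-(1 + s)) else 0) := by
      unfold fsum
      rw [← Finset.sum_sub_distrib]
      apply Finset.sum_congr rfl
      intro k _
      unfold fterm
      split_ifs with h
      · have hp : (0 : ℝ) < ((q ^ (k + 1) : ℕ) : ℝ) := by
          exact_mod_cast Nat.pos_of_ne_zero (pow_ne_zero _ (by omega))
        have : ((q ^ (k + 1) : ℕ) : ℝ) ^ (-(1 + s)) = ((q ^ (k + 1) : ℕ) : ℝ)⁻¹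
            * ((q ^ (k + 1) : ℕ) : ℝ) ^ (-s) := by
          rw [neg_add, Real.rpow_add hp, Real.rpow_neg_one]
        rw [this]
        ring
      · simp
    rw [e2]
    linarith
  refine hsplit.trans ?_
  have hA : (∑ k ∈ range M, if v < q ^ (k + 1) then
        Sx x (q ^ (k + 1)) / ((q ^ (k + 1) : ℕ) : ℝ) else 0) ≤ (W : ℝ) / 1000000000000 := by
    have hq0 : (1 : ℝ) < (q : ℝ) := by exact_mod_cast hq.one_lt
    have h1 := geom_tail hq0 Kq M hKM
    have h2 := Finset.sum_range_add_sum_Ico (fun k => 1 / (q : ℝ) ^ (k + 1)) hKM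
    have h3 := Finset.sum_range_add_sum_Ico (fun k => if v < q ^ (k + 1) then
        Sx x (q ^ (k + 1)) / ((q ^ (k + 1) : ℕ) : ℝ) else 0) hKM
    have h4 : ∑ k ∈ Finset.Ico Kq M, (if v < q ^ (k + 1) then
        Sx x (q ^ (k + 1)) / ((q ^ (k + 1) : ℕ) : ℝ) else 0)
        ≤ ∑ k ∈ Finset.Ico Kq M, 1 / (q : ℝ) ^ (k + 1) := by
      apply Finset.sum_le_sum
      intro k _
      split_ifs
      · rw [Nat.cast_pow]
        exact div_le_div_of_nonneg_right (Sx_le_one _ _) (by positivity)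
      · positivity
    have h5 : ∑ k ∈ range Kq, (if v < q ^ (k + 1) then
        Sx x (q ^ (k + 1)) / ((q ^ (k + 1) : ℕ) : ℝ) else 0)
        ≤ ((∑ k ∈ range Kq, if v < q ^ (k + 1) then
          (1000000000 * svN x (q ^ (k + 1)) q) / q ^ (k + 1) + 1 else 0 : ℕ) : ℝ)
          / 1000000000000 := by
      rw [Nat.cast_sum, Finset.sum_div]
      apply Finset.sum_le_sum
      intro k _
      split_ifs
      · have hp : 0 < q ^ (k + 1) := Nat.pos_of_ne_zero (pow_ne_zero _ (by omega))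
        have h6 := cast_div_ge (1000000000 * svN x (q ^ (k + 1)) q) (q ^ (k + 1)) hp
        rw [Sx_pow hq, le_div_iff₀ (by norm_num)]
        refine le_trans (le_of_eq ?_) h6
        push_cast
        ring
      · simp
    have h7 : 1 / ((q : ℝ) ^ Kq * ((q : ℝ) - 1))
        ≤ ((1000000000000 / (q ^ Kq * (q - 1)) + 1 : ℕ) : ℝ) / 1000000000000 := by
      have hp : 0 < q ^ Kq * (q - 1) := by
        apply Nat.mul_pos
        · exact Nat.pos_of_ne_zero (pow_ne_zero _ (by omega))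
        · omega
      have h6 := cast_div_ge 1000000000000 (q ^ Kq * (q - 1)) hp
      have e3 : ((q ^ Kq * (q - 1) : ℕ) : ℝ) = (q : ℝ) ^ Kq * ((q : ℝ) - 1) := by
        rw [Nat.cast_mul, Nat.cast_pow, Nat.cast_sub (by omega)]
        norm_num
      rw [e3] at h6
      rw [le_div_iff₀ (by norm_num)]
      refine le_trans (le_of_eq ?_) h6
      push_cast
      ring
    have h8 : (((∑ k ∈ range Kq, if v < q ^ (k + 1) then
        (1000000000 * svN x (q ^ (k + 1)) q) / q ^ (k + 1) + 1 else 0)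
      + 1000000000000 / (q ^ Kq * (q - 1)) + 1 : ℕ) : ℝ) ≤ (W : ℝ) := by exact_mod_cast hW
    rw [add_assoc, Nat.cast_add] at h8
    have h9 : (W : ℝ) / 1000000000000 ≥ ((∑ k ∈ range Kq, if v < q ^ (k + 1) then
          (1000000000 * svN x (q ^ (k + 1)) q) / q ^ (k + 1) + 1 else 0 : ℕ) : ℝ)
          / 1000000000000 + ((1000000000000 / (q ^ Kq * (q - 1)) + 1 : ℕ) : ℝ) / 1000000000000 := by
      rw [← add_div]
      exact div_le_div_of_nonneg_right h8 (by norm_num)
    linarith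
  linarith

/-! ### from the bounds to `KB` -/

theorem XX_tendsto (VS : Finset ℕ) (S : ℕ → ℝ) (hVS : ∀ w ∈ VS, 1 < w) :
    Tendsto (fun s : ℝ => XX VS S (fun v : ℕ => (v : ℝ)) s) atTop (𝓝 0) := by
  unfold XX
  have : Tendsto (fun s : ℝ => ∑ v ∈ VS, aa S (fun v : ℕ => (v : ℝ)) v s) atTop
      (𝓝 (∑ v ∈ VS, (0 : ℝ))) := by
    apply tendsto_finsetSum
    intro w hw
    unfold aa
    have h1 : Tendsto (fun s : ℝ => (w : ℝ) ^ (-(1 + s))) atTop (𝓝 0) := by
      have hw1 : (1 : ℝ) < w := by exact_mod_cast hVS w hw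
      have h2 := (tendsto_rpow_atBot_of_base_gt_one (w : ℝ) hw1)
      exact h2.comp (tendsto_neg_atBot_iff.2 (tendsto_atTop_add_const_left _ 1 tendsto_id))
    simpa using h1.const_mul (S w)
  simpa using this

theorem rpow_neg_tendsto {u : ℝ} (hu : 1 < u) : Tendsto (fun s : ℝ => u ^ (-s)) atTop (𝓝 0) :=
  (tendsto_rpow_atBot_of_base_gt_one u hu).comp tendsto_neg_atTop_atBot

/-- `KB` from bounds prime by prime. -/
theorem KB_of (z x v : ℕ) (K κ : ℝ) (hu : 1 < (z : ℝ) * v) (hK : 0 < K) (hκ1 : 1 ≤ κ)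
    (hκK : κ ≤ 1 + K)
    (hr : ∀ VS : Finset ℕ,
      (∀ w ∈ VS, IsPrimePow w ∧ v < w ∧ w.minFac ≠ z.minFac ∧ w.minFac ≠ v.minFac) →
      (∀ s : ℝ, 0 ≤ s → GG VS (Sx x) ((z : ℝ) * v) s ≤ K) ∧
      ∀ r : ℕ, ∀ s : ℝ, 0 ≤ s → GG VS (Sx x) ((z : ℝ) * v) s
        + K * (Real.exp (∑ w ∈ VS.filter (fun w => w.minFac = r),
          Sx x w / (w : ℝ) * (1 - (w : ℝ) ^ (-s))) - 1) ≤ κ) : KB z x v κ := by
  intro VS hVS D hD hm
  obtain ⟨h1, h2⟩ := hr VS hVS
  have hw1 : ∀ w ∈ VS, 1 < w := fun w hw => (hVS w hw).1.one_lt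
  have hGlim : Tendsto (fun s : ℝ => GG VS (Sx x) ((z : ℝ) * v) s) atTop (𝓝 1) := by
    unfold GG
    have h3 := (Real.continuous_exp.tendsto 0).comp (XX_tendsto VS (Sx x) hw1)
    have h4 := (rpow_neg_tendsto hu).const_sub 1
    have h5 := h3.mul h4
    simpa using h5
  have hflim : ∀ r : ℕ, Tendsto (fun s : ℝ => ∑ w ∈ VS.filter (fun w => w.minFac = r),
      Sx x w / (w : ℝ) * (1 - (w : ℝ) ^ (-s))) atTop
      (𝓝 (∑ w ∈ VS.filter (fun w => w.minFac = r), Sx x w / (w : ℝ))) := by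
    intro r
    apply tendsto_finsetSum
    intro w hw
    have hw2 : (1 : ℝ) < w := by exact_mod_cast hw1 w (Finset.mem_filter.1 hw).1
    have h4 := ((rpow_neg_tendsto hw2).const_sub 1).const_mul (Sx x w / (w : ℝ))
    simpa using h4
  have hnn : ∀ r : ℕ, ∀ s : ℝ, 0 ≤ s → 0 ≤ ∑ w ∈ VS.filter (fun w => w.minFac = r),
      Sx x w / (w : ℝ) * (1 - (w : ℝ) ^ (-s)) := by
    intro r s hs
    apply Finset.sum_nonneg
    intro w hw
    apply mul_nonneg (div_nonneg (Sx_nonneg _ _) (Nat.cast_nonneg _))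
    exact one_sub_nonneg (hw1 w (Finset.mem_filter.1 hw).1).le hs
  have hGκ : ∀ s : ℝ, 0 ≤ s → GG VS (Sx x) ((z : ℝ) * v) s ≤ κ := by
    intro s hs
    have h3 := h2 0 s hs
    have h4 := Real.one_le_exp (hnn 0 s hs)
    have h5 : 0 ≤ K * (Real.exp (∑ w ∈ VS.filter (fun w => w.minFac = 0),
          Sx x w / (w : ℝ) * (1 - (w : ℝ) ^ (-s))) - 1) := mul_nonneg hK.le (by linarith)
    linarith
  have hlim2 : ∀ r : ℕ, 1 + K * (Real.exp (∑ w ∈ VS.filter (fun w => w.minFac = r),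
      Sx x w / (w : ℝ)) - 1) ≤ κ := by
    intro r
    have h3 := hGlim.add ((((Real.continuous_exp.tendsto _).comp (hflim r)).sub_const 1).const_mul K)
    refine le_of_tendsto h3 ?_
    filter_upwards [eventually_ge_atTop (0 : ℝ)] with s hs
    exact h2 r s hs
  have hA : ∀ s : ℝ, 0 ≤ s → 1 ≤ 1 + (κ - GG VS (Sx x) ((z : ℝ) * v) s) / K := by
    intro s hs
    have := div_nonneg (sub_nonneg.2 (hGκ s hs)) hK.le
    linarith
  have hB : 1 ≤ 1 + (κ - 1) / K := by
    have := div_nonneg (sub_nonneg.2 hκ1) hK.le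
    linarith
  apply kappa_bound Nat.minFac VS (Sx x) (fun w : ℕ => (w : ℝ)) (fun w _ => Sx_nonneg x w)
    (fun w hw => by exact_mod_cast hw1 w hw) ((z : ℝ) * v) hu K κ (Real.log (1 + (κ - 1) / K))
    (fun s => Real.log (1 + (κ - GG VS (Sx x) ((z : ℝ) * v) s) / K))
    (Real.log_nonneg hB) (fun s hs => Real.log_nonneg (hA s hs))
  · intro r
    rw [Real.le_log_iff_exp_le (by linarith)]
    have h3 := hlim2 r
    have h4 : Real.exp (∑ w ∈ VS.filter (fun w => w.minFac = r), Sx x w / (w : ℝ)) - 1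
        ≤ (κ - 1) / K := by
      rw [le_div_iff₀ hK]; linarith
    linarith
  · rw [Real.exp_log (by linarith)]
    have : (κ - 1) / K ≤ 1 := by rw [div_le_one hK]; linarith
    linarith
  · intro s hs
    exact h1 s hs
  · intro s hs r
    have hA' := hA s hs
    rw [Real.le_log_iff_exp_le (by linarith)]
    have h3 := h2 r s hs
    have h4 : Real.exp (∑ w ∈ VS.filter (fun w => w.minFac = r),
        Sx x w / (w : ℝ) * (1 - (w : ℝ) ^ (-s))) - 1
        ≤ (κ - GG VS (Sx x) ((z : ℝ) * v) s) / K := by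
      rw [le_div_iff₀ hK]; linarith
    linarith
  · intro s hs
    have hA' := hA s hs
    rw [Real.exp_log (by linarith)]
    apply le_of_eq
    unfold GG
    field_simp
    ring
  · rw [Real.exp_log (by linarith)]
    apply le_of_eq
    field_simp
    ring
  · exact hD
  · exact hm

/-! ### the check -/

/-- data of a candidate prime `q` -/
structure CD where
  q : ℕ
  Kq : ℕ
  b : ℕ
  bs : List GE
  W : ℕ
  K : ℕ
  phs : List PH

/-- the small primes -/
def spr : List ℕ := [2, 3, 5, 7, 11, 13, 17, 19, 23, 29, 31]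

/-- light checks -/
def cdL (z x v K : ℕ) (c : CD) : Prop :=
  c.q ∈ spr ∧
  (∀ e ∈ c.bs, e.1 ≤ 10200 ∧ (e.1 ≤ v ∨ spf pl e.1 = spf pl z ∨ spf pl e.1 = spf pl v ∨
     kw c.bs e.1 + 10 * svN x e.1 (spf pl e.1) ≤ 10000)) ∧
  (∀ e ∈ c.bs, e.2.2 = 0 ∨ ∃ k < c.Kq, e.1 = c.q ^ (k + 1)) ∧
  (∀ k < c.Kq, xw c.bs (c.q ^ (k + 1)) =
      if v < c.q ^ (k + 1) then 10 * svN x (c.q ^ (k + 1)) c.q else 0) ∧
  ((∑ k ∈ range c.Kq, if v < c.q ^ (k + 1) then
        (1000000000 * svN x (c.q ^ (k + 1)) c.q) / c.q ^ (k + 1) + 1 else 0)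
      + 1000000000000 / (c.q ^ c.Kq * (c.q - 1)) + 1 ≤ c.W) ∧
  3 ≤ c.q ^ (c.b + 1) ∧ v < c.q ^ (c.b + 1) ∧
  (∀ k < c.Kq, c.b ≤ k → svN x (c.q ^ (k + 1)) c.q = 1000) ∧
  17 ≤ c.q ^ (c.Kq + 1) ∧ K ≤ c.K

instance (z x v K : ℕ) (c : CD) : Decidable (cdL z x v K c) := by
  unfold cdL; infer_instance

/-- coverage of the primes -/
def covL (z v : ℕ) (cs : List CD) : Prop :=
  (∀ r ∈ spr, r = spf pl z ∨ r = spf pl v ∨ ∃ c ∈ cs, r = c.q ∨
    (c.q ≤ r ∧ c.q ^ (c.b + 1) ≤ 256 ∧
      ∀ k < 8, v < r ^ (k + 1) → c.q ^ (c.b + 1) ≤ r ^ (k + 1))) ∧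
  ∃ c ∈ cs, c.q ≤ 32 ∧ c.q ^ (c.b + 1) ≤ 32

instance (z v : ℕ) (cs : List CD) : Decidable (covL z v cs) := by
  unfold covL; infer_instance

theorem mem_spr_prime {q : ℕ} (h : q ∈ spr) : q.Prime := by
  unfold spr at h
  simp only [List.mem_cons, List.not_mem_nil, or_false] at h
  rcases h with h | h | h | h | h | h | h | h | h | h | h <;> subst h <;> norm_num

theorem prime_mem_spr {q : ℕ} (hq : q.Prime) (h : q < 32) : q ∈ spr := by
  have h2 := hq.two_le
  by_contra hcon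
  unfold spr at hcon
  simp only [List.mem_cons, List.not_mem_nil, or_false, not_or] at hcon
  interval_cases q <;> first | omega | (revert hq; norm_num)

/-- **`KB` from the check.** -/
theorem KB_of_check (z x v K kap : ℕ) (cs : List CD)
    (h0 : (2 ≤ z ∧ z ≤ 100) ∧ (2 ≤ v ∧ v ≤ 31) ∧ x ≤ 127500 ∧ 0 < K ∧ 1000000000000 ≤ kap ∧
      kap ≤ 1000000000000 + K ∧ ∃ c ∈ cs, c.K ≤ K)
    (hL : ∀ c ∈ cs, cdL z x v K c) (hcov : covL z v cs)
    (hB : ∀ c ∈ cs, chkB c.bs c.bs = true)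
    (hC : ∀ c ∈ cs, checkAll c.bs (z * v) c.W c.K kap c.phs 0 = true) :
    KB z x v ((kap : ℝ) / 1000000000000) := by
  obtain ⟨⟨hz1, hz2⟩, ⟨hv1, hv2⟩, hx, hK, hk1, hk2, c0, hc0, hc0K⟩ := h0
  have huN : 1 < z * v := by nlinarith
  have hu : 1 < (z : ℝ) * v := by exact_mod_cast huN
  have hzf : spf pl z = z.minFac := spf_pl hz1 (by omega)
  have hvf : spf pl v = v.minFac := spf_pl hv1 (by omega)
  have hK0 : (0 : ℝ) < (K : ℝ) / 1000000000000 := by
    have : (0 : ℝ) < K := by exact_mod_cast hK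
    positivity
  apply KB_of z x v ((K : ℝ) / 1000000000000) ((kap : ℝ) / 1000000000000) hu hK0
  · rw [le_div_iff₀ (by norm_num), one_mul]
    exact_mod_cast hk1
  · have : (kap : ℝ) ≤ 1000000000000 + K := by exact_mod_cast hk2
    rw [div_le_iff₀ (by norm_num)]
    have e : (1 + (K : ℝ) / 1000000000000) * 1000000000000 = 1000000000000 + K := by ring
    rw [e]; exact this
  intro VS hVS
  have hpp : ∀ w ∈ VS, IsPrimePow w := fun w hw => (hVS w hw).1
  have hgrid : ∀ c ∈ cs, ∀ s : ℝ, 0 ≤ s →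
      GG VS (Sx x) ((z : ℝ) * v) s ≤ (c.K : ℝ) / 1000000000000 ∧
      GG VS (Sx x) ((z : ℝ) * v) s + (c.K : ℝ) / 1000000000000
        * (Real.exp ((c.W : ℝ) / 1000000000000 - XLs c.bs s) - 1)
        ≤ (kap : ℝ) / 1000000000000 := by
    intro c hc s hs
    have hS : ∀ w ∈ VS, Sx x w ≤ 1 - (kw c.bs w : ℝ) / 10000 := by
      intro w hw
      obtain ⟨hw1, hw2, hw3, hw4⟩ := hVS w hw
      by_cases hmem : ∃ e ∈ c.bs, e.1 = w
      · obtain ⟨e, he, rfl⟩ := hmem
        obtain ⟨h1, h2⟩ := (hL c hc).2.1 e he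
        have h3 : spf pl e.1 = e.1.minFac := spf_pl hw1.two_le (by omega)
        rw [h3, hzf, hvf] at h2
        rcases h2 with h2 | h2 | h2 | h2
        · omega
        · exact absurd h2 hw3
        · exact absurd h2 hw4
        · have h4 : (kw c.bs e.1 : ℝ) + 10 * (svN x e.1 e.1.minFac : ℝ) ≤ 10000 := by
            exact_mod_cast h2
          unfold Sx
          linarith
      · push Not at hmem
        rw [kw_eq_zero hmem]
        simpa using Sx_le_one x w
    have h5 := grid_pair c.bs (z * v) c.W c.K kap c.phs huN (hB c hc) (hC c hc) VS (Sx x) hpp hS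
      s hs
    have e1 : (((z * v : ℕ)) : ℝ) = (z : ℝ) * v := by push_cast; ring
    rw [e1] at h5
    exact h5
  refine ⟨?_, ?_⟩
  · intro s hs
    refine (hgrid c0 hc0 s hs).1.trans ?_
    apply div_le_div_of_nonneg_right _ (by norm_num)
    exact_mod_cast hc0K
  intro r s hs
  -- facts about candidates
  have hW : ∀ c ∈ cs, ∀ N, ∀ s : ℝ, 0 ≤ s →
      fsum x v c.q N s ≤ (c.W : ℝ) / 1000000000000 - XLs c.bs s := by
    intro c hc N s hs
    obtain ⟨l1, l2, l3, l4, l5, -⟩ := hL c hc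
    exact fsum_le_W x v c.q c.Kq c.bs c.W (mem_spr_prime l1) l3 l4 l5 N s hs
  have hfull : ∀ c ∈ cs, ∀ k, c.b ≤ k → Sx x (c.q ^ (k + 1)) = 1 := by
    intro c hc k hk
    obtain ⟨l1, l2, l3, l4, l5, l6, l7, l8, l9, l10⟩ := hL c hc
    have hq := mem_spr_prime l1
    rw [Sx_pow hq]
    have : svN x (c.q ^ (k + 1)) c.q = 1000 := by
      by_cases hkq : k < c.Kq
      · exact l8 k hkq hk
      · have h1 : 17 ≤ c.q ^ (k + 1) :=
          l9.trans (Nat.pow_le_pow_right hq.pos (by omega))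
        have h2 := svN_one h1 (hq.isPrimePow.pow (by omega)) hx
        rwa [minFac_pow_prime hq] at h2
    rw [this]
    norm_num
  have claim : ∃ c ∈ cs, ∑ w ∈ VS.filter (fun w => w.minFac = r),
      Sx x w / (w : ℝ) * (1 - (w : ℝ) ^ (-s)) ≤ (c.W : ℝ) / 1000000000000 - XLs c.bs s := by
    by_cases hemp : VS.filter (fun w => w.minFac = r) = ∅
    · refine ⟨c0, hc0, ?_⟩
      rw [hemp, Finset.sum_empty]
      have := hW c0 hc0 0 s hs
      simpa [fsum] using this
    · obtain ⟨w0, hw0⟩ := Finset.nonempty_iff_ne_empty.2 hemp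
      obtain ⟨hw1, hw2⟩ := Finset.mem_filter.1 hw0
      obtain ⟨g1, g2, g3, g4⟩ := hVS w0 hw1
      have hrp : r.Prime := by
        rw [← hw2]; exact Nat.minFac_prime g1.one_lt.ne'
      rw [hw2] at g3 g4
      obtain ⟨N, hN⟩ := prime_sum_le x v VS (fun w hw => ⟨(hVS w hw).1, (hVS w hw).2.1⟩) r hrp
      have hN' := hN s hs
      have hdom : ∀ c ∈ cs, c.q ≤ r → (∀ k, v < r ^ (k + 1) → c.q ^ (c.b + 1) ≤ r ^ (k + 1)) →
          fsum x v r N s ≤ (c.W : ℝ) / 1000000000000 - XLs c.bs s := by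
        intro c hc hcr hfirst
        obtain ⟨l1, l2, l3, l4, l5, l6, l7, l8, l9, l10⟩ := hL c hc
        have hq := mem_spr_prime l1
        exact (fsum_dom x v c.q r c.b N hs hq.two_le hcr l6 l7 (hfull c hc) hfirst).trans
          (hW c hc _ s hs)
      obtain ⟨cov1, cov2⟩ := hcov
      by_cases hr32 : r < 32
      · rcases cov1 r (prime_mem_spr hrp hr32) with h | h | ⟨c, hc, h⟩
        · rw [hzf] at h; exact absurd h g3
        · rw [hvf] at h; exact absurd h g4
        · refine ⟨c, hc, hN'.trans ?_⟩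
          rcases h with h | ⟨h1, h2, h3⟩
          · rw [h]; exact hW c hc N s hs
          · apply hdom c hc h1
            intro k hk
            by_cases hk8 : k < 8
            · exact h3 k hk8 hk
            · have h4 : 2 ^ 9 ≤ r ^ (k + 1) :=
                (Nat.pow_le_pow_left hrp.two_le 9).trans (Nat.pow_le_pow_right hrp.pos (by omega))
              omega
      · obtain ⟨c, hc, h1, h2⟩ := cov2
        refine ⟨c, hc, hN'.trans ?_⟩
        apply hdom c hc (by omega)
        intro k _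
        have h4 : r ^ 1 ≤ r ^ (k + 1) := Nat.pow_le_pow_right hrp.pos (by omega)
        rw [pow_one] at h4
        omega
  obtain ⟨c, hc, hle⟩ := claim
  have hg := (hgrid c hc s hs).2
  have hKc : (K : ℝ) / 1000000000000 ≤ (c.K : ℝ) / 1000000000000 := by
    apply div_le_div_of_nonneg_right _ (by norm_num)
    exact_mod_cast (hL c hc).2.2.2.2.2.2.2.2.2
  have hnn : 0 ≤ ∑ w ∈ VS.filter (fun w => w.minFac = r),
      Sx x w / (w : ℝ) * (1 - (w : ℝ) ^ (-s)) := by
    apply Finset.sum_nonneg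
    intro w hw
    apply mul_nonneg (div_nonneg (Sx_nonneg _ _) (Nat.cast_nonneg _))
    exact one_sub_nonneg (hpp w (Finset.mem_filter.1 hw).1).one_lt.le hs
  have h1 := Real.one_le_exp hnn
  have h2 := Real.exp_le_exp.2 hle
  have h3 : (K : ℝ) / 1000000000000 * (Real.exp (∑ w ∈ VS.filter (fun w => w.minFac = r),
      Sx x w / (w : ℝ) * (1 - (w : ℝ) ^ (-s))) - 1)
      ≤ (c.K : ℝ) / 1000000000000
        * (Real.exp ((c.W : ℝ) / 1000000000000 - XLs c.bs s) - 1) := by
    apply mul_le_mul hKc (by linarith) (by linarith) (by positivity)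
  linarith

/-- the same, with the constant in units of `10^-5`. -/
theorem KB_of_check5 (z x v K kap k5 : ℕ) (cs : List CD) (hk : kap = k5 * 10000000)
    (h0 : (2 ≤ z ∧ z ≤ 100) ∧ (2 ≤ v ∧ v ≤ 31) ∧ x ≤ 127500 ∧ 0 < K ∧ 1000000000000 ≤ kap ∧
      kap ≤ 1000000000000 + K ∧ ∃ c ∈ cs, c.K ≤ K)
    (hL : ∀ c ∈ cs, cdL z x v K c) (hcov : covL z v cs)
    (hB : ∀ c ∈ cs, chkB c.bs c.bs = true)
    (hC : ∀ c ∈ cs, checkAll c.bs (z * v) c.W c.K kap c.phs 0 = true) :
    KB z x v ((k5 : ℝ) / 100000) := by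
  have h := KB_of_check z x v K kap cs h0 hL hcov hB hC
  have e : ((kap : ℝ) / 1000000000000) = (k5 : ℝ) / 100000 := by
    rw [hk]; push_cast; ring
  rwa [e] at h

end

end Pool.Agent.EZ
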