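import Pool.Agent.EZ.GridD01
import Pool.Agent.EZ.GridD02
import Pool.Agent.EZ.GridD03
import Pool.Agent.EZ.GridD04
import Pool.Agent.EZ.GridD05
import Pool.Agent.EZ.GridD06
import Pool.Agent.EZ.GridD07
import Pool.Agent.EZ.GridD08
import Pool.Agent.EZ.GridD09
import Pool.Agent.EZ.GridD10

/-!
# The constants `KB` for small roots (helper46)
-/

set_option autoImplicit false

namespace Pool.Agent.EZ

theorem KB_2_10000_3 : KB 2 10000 3 (128665 / 100000) :=
  KB_of_check5 2 10000 3 1001402213970 1286650000000 128665 [cd1] rfl (by decide +kernel) (by decide +kernel)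
    (by decide +kernel)
    (List.forall_mem_cons.2 ⟨cd1B, List.forall_mem_nil _⟩)
    (List.forall_mem_cons.2 ⟨cd1C, List.forall_mem_nil _⟩)

theorem KB_2_10000_5 : KB 2 10000 5 (118380 / 100000) :=
  KB_of_check5 2 10000 5 1002151657066 1183800000000 118380 [cd2, cd3] rfl (by decide +kernel) (by decide +kernel)
    (by decide +kernel)
    (List.forall_mem_cons.2 ⟨cd2B, List.forall_mem_cons.2 ⟨cd3B, List.forall_mem_nil _⟩⟩)
    (List.forall_mem_cons.2 ⟨cd2C, List.forall_mem_cons.2 ⟨cd3C, List.forall_mem_nil _⟩⟩)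

theorem KB_2_10000_7 : KB 2 10000 7 (118399 / 100000) :=
  KB_of_check5 2 10000 7 1002412697315 1183990000000 118399 [cd4] rfl (by decide +kernel) (by decide +kernel)
    (by decide +kernel)
    (List.forall_mem_cons.2 ⟨cd4B, List.forall_mem_nil _⟩)
    (List.forall_mem_cons.2 ⟨cd4C, List.forall_mem_nil _⟩)

theorem KB_2_10000_9 : KB 2 10000 9 (110780 / 100000) :=
  KB_of_check5 2 10000 9 1002758318425 1107800000000 110780 [cd5, cd6] rfl (by decide +kernel) (by decide +kernel)
    (by decide +kernel)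
    (List.forall_mem_cons.2 ⟨cd5B, List.forall_mem_cons.2 ⟨cd6B, List.forall_mem_nil _⟩⟩)
    (List.forall_mem_cons.2 ⟨cd5C, List.forall_mem_cons.2 ⟨cd6C, List.forall_mem_nil _⟩⟩)

theorem KB_2_10000_11 : KB 2 10000 11 (108980 / 100000) :=
  KB_of_check5 2 10000 11 1003005417659 1089800000000 108980 [cd7, cd8, cd9] rfl (by decide +kernel) (by decide +kernel)
    (by decide +kernel)
    (List.forall_mem_cons.2 ⟨cd7B, List.forall_mem_cons.2 ⟨cd8B, List.forall_mem_cons.2 ⟨cd9B, List.forall_mem_nil _⟩⟩⟩)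
    (List.forall_mem_cons.2 ⟨cd7C, List.forall_mem_cons.2 ⟨cd8C, List.forall_mem_cons.2 ⟨cd9C, List.forall_mem_nil _⟩⟩⟩)

theorem KB_2_10000_13 : KB 2 10000 13 (106763 / 100000) :=
  KB_of_check5 2 10000 13 1003135213716 1067630000000 106763 [cd10, cd11, cd12] rfl (by decide +kernel) (by decide +kernel)
    (by decide +kernel)
    (List.forall_mem_cons.2 ⟨cd10B, List.forall_mem_cons.2 ⟨cd11B, List.forall_mem_cons.2 ⟨cd12B, List.forall_mem_nil _⟩⟩⟩)
    (List.forall_mem_cons.2 ⟨cd10C, List.forall_mem_cons.2 ⟨cd11C, List.forall_mem_cons.2 ⟨cd12C, List.forall_mem_nil _⟩⟩⟩)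

theorem KB_2_10000_17 : KB 2 10000 17 (106082 / 100000) :=
  KB_of_check5 2 10000 17 1003539640355 1060820000000 106082 [cd13, cd14, cd15] rfl (by decide +kernel) (by decide +kernel)
    (by decide +kernel)
    (List.forall_mem_cons.2 ⟨cd13B, List.forall_mem_cons.2 ⟨cd14B, List.forall_mem_cons.2 ⟨cd15B, List.forall_mem_nil _⟩⟩⟩)
    (List.forall_mem_cons.2 ⟨cd13C, List.forall_mem_cons.2 ⟨cd14C, List.forall_mem_cons.2 ⟨cd15C, List.forall_mem_nil _⟩⟩⟩)

theorem KB_2_10000_19 : KB 2 10000 19 (106085 / 100000) :=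
  KB_of_check5 2 10000 19 1003569793231 1060850000000 106085 [cd16, cd17, cd18] rfl (by decide +kernel) (by decide +kernel)
    (by decide +kernel)
    (List.forall_mem_cons.2 ⟨cd16B, List.forall_mem_cons.2 ⟨cd17B, List.forall_mem_cons.2 ⟨cd18B, List.forall_mem_nil _⟩⟩⟩)
    (List.forall_mem_cons.2 ⟨cd16C, List.forall_mem_cons.2 ⟨cd17C, List.forall_mem_cons.2 ⟨cd18C, List.forall_mem_nil _⟩⟩⟩)

theorem KB_2_10000_23 : KB 2 10000 23 (106099 / 100000) :=
  KB_of_check5 2 10000 23 1003701317623 1060990000000 106099 [cd19, cd20] rfl (by decide +kernel) (by decide +kernel)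
    (by decide +kernel)
    (List.forall_mem_cons.2 ⟨cd19B, List.forall_mem_cons.2 ⟨cd20B, List.forall_mem_nil _⟩⟩)
    (List.forall_mem_cons.2 ⟨cd19C, List.forall_mem_cons.2 ⟨cd20C, List.forall_mem_nil _⟩⟩)

theorem KB_2_10000_25 : KB 2 10000 25 (106100 / 100000) :=
  KB_of_check5 2 10000 25 1003709798521 1061000000000 106100 [cd21] rfl (by decide +kernel) (by decide +kernel)
    (by decide +kernel)
    (List.forall_mem_cons.2 ⟨cd21B, List.forall_mem_nil _⟩)
    (List.forall_mem_cons.2 ⟨cd21C, List.forall_mem_nil _⟩)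

theorem KB_2_10000_27 : KB 2 10000 27 (104017 / 100000) :=
  KB_of_check5 2 10000 27 1003713690633 1040170000000 104017 [cd22, cd23, cd24] rfl (by decide +kernel) (by decide +kernel)
    (by decide +kernel)
    (List.forall_mem_cons.2 ⟨cd22B, List.forall_mem_cons.2 ⟨cd23B, List.forall_mem_cons.2 ⟨cd24B, List.forall_mem_nil _⟩⟩⟩)
    (List.forall_mem_cons.2 ⟨cd22C, List.forall_mem_cons.2 ⟨cd23C, List.forall_mem_cons.2 ⟨cd24C, List.forall_mem_nil _⟩⟩⟩)

theorem KB_2_10000_29 : KB 2 10000 29 (103771 / 100000) :=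
  KB_of_check5 2 10000 29 1003720582861 1037710000000 103771 [cd25, cd26, cd27] rfl (by decide +kernel) (by decide +kernel)
    (by decide +kernel)
    (List.forall_mem_cons.2 ⟨cd25B, List.forall_mem_cons.2 ⟨cd26B, List.forall_mem_cons.2 ⟨cd27B, List.forall_mem_nil _⟩⟩⟩)
    (List.forall_mem_cons.2 ⟨cd25C, List.forall_mem_cons.2 ⟨cd26C, List.forall_mem_cons.2 ⟨cd27C, List.forall_mem_nil _⟩⟩⟩)

theorem KB_3_15000_4 : KB 3 15000 4 (129006 / 100000) :=
  KB_of_check5 3 15000 4 1014053141137 1290060000000 129006 [cd28] rfl (by decide +kernel) (by decide +kernel)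
    (by decide +kernel)
    (List.forall_mem_cons.2 ⟨cd28B, List.forall_mem_nil _⟩)
    (List.forall_mem_cons.2 ⟨cd28C, List.forall_mem_nil _⟩)

theorem KB_3_15000_5 : KB 3 15000 5 (129033 / 100000) :=
  KB_of_check5 3 15000 5 1009769733045 1290330000000 129033 [cd29, cd30] rfl (by decide +kernel) (by decide +kernel)
    (by decide +kernel)
    (List.forall_mem_cons.2 ⟨cd29B, List.forall_mem_cons.2 ⟨cd30B, List.forall_mem_nil _⟩⟩)
    (List.forall_mem_cons.2 ⟨cd29C, List.forall_mem_cons.2 ⟨cd30C, List.forall_mem_nil _⟩⟩)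

theorem KB_3_15000_7 : KB 3 15000 7 (128987 / 100000) :=
  KB_of_check5 3 15000 7 1010475774750 1289870000000 128987 [cd31] rfl (by decide +kernel) (by decide +kernel)
    (by decide +kernel)
    (List.forall_mem_cons.2 ⟨cd31B, List.forall_mem_nil _⟩)
    (List.forall_mem_cons.2 ⟨cd31C, List.forall_mem_nil _⟩)

theorem KB_3_15000_8 : KB 3 15000 8 (110880 / 100000) :=
  KB_of_check5 3 15000 8 1004020156049 1108800000000 110880 [cd32, cd33] rfl (by decide +kernel) (by decide +kernel)
    (by decide +kernel)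
    (List.forall_mem_cons.2 ⟨cd32B, List.forall_mem_cons.2 ⟨cd33B, List.forall_mem_nil _⟩⟩)
    (List.forall_mem_cons.2 ⟨cd32C, List.forall_mem_cons.2 ⟨cd33C, List.forall_mem_nil _⟩⟩)

theorem KB_3_15000_11 : KB 3 15000 11 (113796 / 100000) :=
  KB_of_check5 3 15000 11 1005723127868 1137960000000 113796 [cd34, cd35] rfl (by decide +kernel) (by decide +kernel)
    (by decide +kernel)
    (List.forall_mem_cons.2 ⟨cd34B, List.forall_mem_cons.2 ⟨cd35B, List.forall_mem_nil _⟩⟩)
    (List.forall_mem_cons.2 ⟨cd34C, List.forall_mem_cons.2 ⟨cd35C, List.forall_mem_nil _⟩⟩)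

theorem KB_3_15000_13 : KB 3 15000 13 (113768 / 100000) :=
  KB_of_check5 3 15000 13 1005044684104 1137680000000 113768 [cd36] rfl (by decide +kernel) (by decide +kernel)
    (by decide +kernel)
    (List.forall_mem_cons.2 ⟨cd36B, List.forall_mem_nil _⟩)
    (List.forall_mem_cons.2 ⟨cd36C, List.forall_mem_nil _⟩)

theorem KB_3_15000_16 : KB 3 15000 16 (106872 / 100000) :=
  KB_of_check5 3 15000 16 1005012914247 1068720000000 106872 [cd37, cd38] rfl (by decide +kernel) (by decide +kernel)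
    (by decide +kernel)
    (List.forall_mem_cons.2 ⟨cd37B, List.forall_mem_cons.2 ⟨cd38B, List.forall_mem_nil _⟩⟩)
    (List.forall_mem_cons.2 ⟨cd37C, List.forall_mem_cons.2 ⟨cd38C, List.forall_mem_nil _⟩⟩)

theorem KB_3_15000_17 : KB 3 15000 17 (106889 / 100000) :=
  KB_of_check5 3 15000 17 1004424014122 1068890000000 106889 [cd39, cd40, cd41] rfl (by decide +kernel) (by decide +kernel)
    (by decide +kernel)
    (List.forall_mem_cons.2 ⟨cd39B, List.forall_mem_cons.2 ⟨cd40B, List.forall_mem_cons.2 ⟨cd41B, List.forall_mem_nil _⟩⟩⟩)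
    (List.forall_mem_cons.2 ⟨cd39C, List.forall_mem_cons.2 ⟨cd40C, List.forall_mem_cons.2 ⟨cd41C, List.forall_mem_nil _⟩⟩⟩)

theorem KB_3_15000_19 : KB 3 15000 19 (106866 / 100000) :=
  KB_of_check5 3 15000 19 1004147827865 1068660000000 106866 [cd42, cd43, cd44] rfl (by decide +kernel) (by decide +kernel)
    (by decide +kernel)
    (List.forall_mem_cons.2 ⟨cd42B, List.forall_mem_cons.2 ⟨cd43B, List.forall_mem_cons.2 ⟨cd44B, List.forall_mem_nil _⟩⟩⟩)
    (List.forall_mem_cons.2 ⟨cd42C, List.forall_mem_cons.2 ⟨cd43C, List.forall_mem_cons.2 ⟨cd44C, List.forall_mem_nil _⟩⟩⟩)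

theorem KB_3_15000_23 : KB 3 15000 23 (106890 / 100000) :=
  KB_of_check5 3 15000 23 1004489533119 1068900000000 106890 [cd45, cd46] rfl (by decide +kernel) (by decide +kernel)
    (by decide +kernel)
    (List.forall_mem_cons.2 ⟨cd45B, List.forall_mem_cons.2 ⟨cd46B, List.forall_mem_nil _⟩⟩)
    (List.forall_mem_cons.2 ⟨cd45C, List.forall_mem_cons.2 ⟨cd46C, List.forall_mem_nil _⟩⟩)

theorem KB_3_15000_25 : KB 3 15000 25 (106874 / 100000) :=
  KB_of_check5 3 15000 25 1004296157491 1068740000000 106874 [cd47, cd48] rfl (by decide +kernel) (by decide +kernel)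
    (by decide +kernel)
    (List.forall_mem_cons.2 ⟨cd47B, List.forall_mem_cons.2 ⟨cd48B, List.forall_mem_nil _⟩⟩)
    (List.forall_mem_cons.2 ⟨cd47C, List.forall_mem_cons.2 ⟨cd48C, List.forall_mem_nil _⟩⟩)

theorem KB_3_15000_29 : KB 3 15000 29 (106889 / 100000) :=
  KB_of_check5 3 15000 29 1004513929522 1068890000000 106889 [cd49, cd50] rfl (by decide +kernel) (by decide +kernel)
    (by decide +kernel)
    (List.forall_mem_cons.2 ⟨cd49B, List.forall_mem_cons.2 ⟨cd50B, List.forall_mem_nil _⟩⟩)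
    (List.forall_mem_cons.2 ⟨cd49C, List.forall_mem_cons.2 ⟨cd50C, List.forall_mem_nil _⟩⟩)

theorem KB_3_30000_5 : KB 3 30000 5 (129033 / 100000) :=
  KB_of_check5 3 30000 5 1009769733045 1290330000000 129033 [cd29, cd30] rfl (by decide +kernel) (by decide +kernel)
    (by decide +kernel)
    (List.forall_mem_cons.2 ⟨cd29B, List.forall_mem_cons.2 ⟨cd30B, List.forall_mem_nil _⟩⟩)
    (List.forall_mem_cons.2 ⟨cd29C, List.forall_mem_cons.2 ⟨cd30C, List.forall_mem_nil _⟩⟩)

theorem KB_3_30000_7 : KB 3 30000 7 (128987 / 100000) :=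
  KB_of_check5 3 30000 7 1010475774750 1289870000000 128987 [cd31] rfl (by decide +kernel) (by decide +kernel)
    (by decide +kernel)
    (List.forall_mem_cons.2 ⟨cd31B, List.forall_mem_nil _⟩)
    (List.forall_mem_cons.2 ⟨cd31C, List.forall_mem_nil _⟩)

theorem KB_3_30000_8 : KB 3 30000 8 (110880 / 100000) :=
  KB_of_check5 3 30000 8 1004020156049 1108800000000 110880 [cd32, cd33] rfl (by decide +kernel) (by decide +kernel)
    (by decide +kernel)
    (List.forall_mem_cons.2 ⟨cd32B, List.forall_mem_cons.2 ⟨cd33B, List.forall_mem_nil _⟩⟩)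
    (List.forall_mem_cons.2 ⟨cd32C, List.forall_mem_cons.2 ⟨cd33C, List.forall_mem_nil _⟩⟩)

theorem KB_3_30000_11 : KB 3 30000 11 (113796 / 100000) :=
  KB_of_check5 3 30000 11 1005723127868 1137960000000 113796 [cd34, cd35] rfl (by decide +kernel) (by decide +kernel)
    (by decide +kernel)
    (List.forall_mem_cons.2 ⟨cd34B, List.forall_mem_cons.2 ⟨cd35B, List.forall_mem_nil _⟩⟩)
    (List.forall_mem_cons.2 ⟨cd34C, List.forall_mem_cons.2 ⟨cd35C, List.forall_mem_nil _⟩⟩)

theorem KB_3_30000_13 : KB 3 30000 13 (113768 / 100000) :=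
  KB_of_check5 3 30000 13 1005044684104 1137680000000 113768 [cd36] rfl (by decide +kernel) (by decide +kernel)
    (by decide +kernel)
    (List.forall_mem_cons.2 ⟨cd36B, List.forall_mem_nil _⟩)
    (List.forall_mem_cons.2 ⟨cd36C, List.forall_mem_nil _⟩)

theorem KB_3_30000_16 : KB 3 30000 16 (106872 / 100000) :=
  KB_of_check5 3 30000 16 1005012914247 1068720000000 106872 [cd37, cd38] rfl (by decide +kernel) (by decide +kernel)
    (by decide +kernel)
    (List.forall_mem_cons.2 ⟨cd37B, List.forall_mem_cons.2 ⟨cd38B, List.forall_mem_nil _⟩⟩)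
    (List.forall_mem_cons.2 ⟨cd37C, List.forall_mem_cons.2 ⟨cd38C, List.forall_mem_nil _⟩⟩)

theorem KB_3_30000_17 : KB 3 30000 17 (106889 / 100000) :=
  KB_of_check5 3 30000 17 1004424014122 1068890000000 106889 [cd39, cd40, cd41] rfl (by decide +kernel) (by decide +kernel)
    (by decide +kernel)
    (List.forall_mem_cons.2 ⟨cd39B, List.forall_mem_cons.2 ⟨cd40B, List.forall_mem_cons.2 ⟨cd41B, List.forall_mem_nil _⟩⟩⟩)
    (List.forall_mem_cons.2 ⟨cd39C, List.forall_mem_cons.2 ⟨cd40C, List.forall_mem_cons.2 ⟨cd41C, List.forall_mem_nil _⟩⟩⟩)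

theorem KB_3_30000_19 : KB 3 30000 19 (106866 / 100000) :=
  KB_of_check5 3 30000 19 1004147827865 1068660000000 106866 [cd42, cd43, cd44] rfl (by decide +kernel) (by decide +kernel)
    (by decide +kernel)
    (List.forall_mem_cons.2 ⟨cd42B, List.forall_mem_cons.2 ⟨cd43B, List.forall_mem_cons.2 ⟨cd44B, List.forall_mem_nil _⟩⟩⟩)
    (List.forall_mem_cons.2 ⟨cd42C, List.forall_mem_cons.2 ⟨cd43C, List.forall_mem_cons.2 ⟨cd44C, List.forall_mem_nil _⟩⟩⟩)

theorem KB_3_30000_23 : KB 3 30000 23 (106890 / 100000) :=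
  KB_of_check5 3 30000 23 1004489533119 1068900000000 106890 [cd45, cd46] rfl (by decide +kernel) (by decide +kernel)
    (by decide +kernel)
    (List.forall_mem_cons.2 ⟨cd45B, List.forall_mem_cons.2 ⟨cd46B, List.forall_mem_nil _⟩⟩)
    (List.forall_mem_cons.2 ⟨cd45C, List.forall_mem_cons.2 ⟨cd46C, List.forall_mem_nil _⟩⟩)

theorem KB_3_30000_25 : KB 3 30000 25 (106874 / 100000) :=
  KB_of_check5 3 30000 25 1004296157491 1068740000000 106874 [cd47, cd48] rfl (by decide +kernel) (by decide +kernel)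
    (by decide +kernel)
    (List.forall_mem_cons.2 ⟨cd47B, List.forall_mem_cons.2 ⟨cd48B, List.forall_mem_nil _⟩⟩)
    (List.forall_mem_cons.2 ⟨cd47C, List.forall_mem_cons.2 ⟨cd48C, List.forall_mem_nil _⟩⟩)

theorem KB_3_30000_29 : KB 3 30000 29 (106889 / 100000) :=
  KB_of_check5 3 30000 29 1004513929522 1068890000000 106889 [cd49, cd50] rfl (by decide +kernel) (by decide +kernel)
    (by decide +kernel)
    (List.forall_mem_cons.2 ⟨cd49B, List.forall_mem_cons.2 ⟨cd50B, List.forall_mem_nil _⟩⟩)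
    (List.forall_mem_cons.2 ⟨cd49C, List.forall_mem_cons.2 ⟨cd50C, List.forall_mem_nil _⟩⟩)

theorem KB_4_20000_3 : KB 4 20000 3 (129006 / 100000) :=
  KB_of_check5 4 20000 3 1014053141137 1290060000000 129006 [cd28] rfl (by decide +kernel) (by decide +kernel)
    (by decide +kernel)
    (List.forall_mem_cons.2 ⟨cd28B, List.forall_mem_nil _⟩)
    (List.forall_mem_cons.2 ⟨cd28C, List.forall_mem_nil _⟩)

theorem KB_4_20000_5 : KB 4 20000 5 (119281 / 100000) :=
  KB_of_check5 4 20000 5 1023193426472 1192810000000 119281 [cd51, cd52] rfl (by decide +kernel) (by decide +kernel)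
    (by decide +kernel)
    (List.forall_mem_cons.2 ⟨cd51B, List.forall_mem_cons.2 ⟨cd52B, List.forall_mem_nil _⟩⟩)
    (List.forall_mem_cons.2 ⟨cd51C, List.forall_mem_cons.2 ⟨cd52C, List.forall_mem_nil _⟩⟩)

theorem KB_4_20000_7 : KB 4 20000 7 (118894 / 100000) :=
  KB_of_check5 4 20000 7 1018675543608 1188940000000 118894 [cd53] rfl (by decide +kernel) (by decide +kernel)
    (by decide +kernel)
    (List.forall_mem_cons.2 ⟨cd53B, List.forall_mem_nil _⟩)
    (List.forall_mem_cons.2 ⟨cd53C, List.forall_mem_nil _⟩)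

theorem KB_4_20000_9 : KB 4 20000 9 (111075 / 100000) :=
  KB_of_check5 4 20000 9 1010887386711 1110750000000 111075 [cd54, cd55] rfl (by decide +kernel) (by decide +kernel)
    (by decide +kernel)
    (List.forall_mem_cons.2 ⟨cd54B, List.forall_mem_cons.2 ⟨cd55B, List.forall_mem_nil _⟩⟩)
    (List.forall_mem_cons.2 ⟨cd54C, List.forall_mem_cons.2 ⟨cd55C, List.forall_mem_nil _⟩⟩)

theorem KB_4_20000_11 : KB 4 20000 11 (109219 / 100000) :=
  KB_of_check5 4 20000 11 1009256563700 1092190000000 109219 [cd56, cd57, cd58] rfl (by decide +kernel) (by decide +kernel)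
    (by decide +kernel)
    (List.forall_mem_cons.2 ⟨cd56B, List.forall_mem_cons.2 ⟨cd57B, List.forall_mem_cons.2 ⟨cd58B, List.forall_mem_nil _⟩⟩⟩)
    (List.forall_mem_cons.2 ⟨cd56C, List.forall_mem_cons.2 ⟨cd57C, List.forall_mem_cons.2 ⟨cd58C, List.forall_mem_nil _⟩⟩⟩)

theorem KB_4_20000_13 : KB 4 20000 13 (106951 / 100000) :=
  KB_of_check5 4 20000 13 1006827921745 1069510000000 106951 [cd59, cd60, cd61] rfl (by decide +kernel) (by decide +kernel)
    (by decide +kernel)
    (List.forall_mem_cons.2 ⟨cd59B, List.forall_mem_cons.2 ⟨cd60B, List.forall_mem_cons.2 ⟨cd61B, List.forall_mem_nil _⟩⟩⟩)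
    (List.forall_mem_cons.2 ⟨cd59C, List.forall_mem_cons.2 ⟨cd60C, List.forall_mem_cons.2 ⟨cd61C, List.forall_mem_nil _⟩⟩⟩)

theorem KB_4_20000_17 : KB 4 20000 17 (106400 / 100000) :=
  KB_of_check5 4 20000 17 1008188956739 1064000000000 106400 [cd62, cd63, cd64] rfl (by decide +kernel) (by decide +kernel)
    (by decide +kernel)
    (List.forall_mem_cons.2 ⟨cd62B, List.forall_mem_cons.2 ⟨cd63B, List.forall_mem_cons.2 ⟨cd64B, List.forall_mem_nil _⟩⟩⟩)
    (List.forall_mem_cons.2 ⟨cd62C, List.forall_mem_cons.2 ⟨cd63C, List.forall_mem_cons.2 ⟨cd64C, List.forall_mem_nil _⟩⟩⟩)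

theorem KB_4_20000_19 : KB 4 20000 19 (106298 / 100000) :=
  KB_of_check5 4 20000 19 1006806505952 1062980000000 106298 [cd65, cd66, cd67] rfl (by decide +kernel) (by decide +kernel)
    (by decide +kernel)
    (List.forall_mem_cons.2 ⟨cd65B, List.forall_mem_cons.2 ⟨cd66B, List.forall_mem_cons.2 ⟨cd67B, List.forall_mem_nil _⟩⟩⟩)
    (List.forall_mem_cons.2 ⟨cd65C, List.forall_mem_cons.2 ⟨cd66C, List.forall_mem_cons.2 ⟨cd67C, List.forall_mem_nil _⟩⟩⟩)

theorem KB_4_20000_23 : KB 4 20000 23 (106325 / 100000) :=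
  KB_of_check5 4 20000 23 1007377478973 1063250000000 106325 [cd68, cd69] rfl (by decide +kernel) (by decide +kernel)
    (by decide +kernel)
    (List.forall_mem_cons.2 ⟨cd68B, List.forall_mem_cons.2 ⟨cd69B, List.forall_mem_nil _⟩⟩)
    (List.forall_mem_cons.2 ⟨cd68C, List.forall_mem_cons.2 ⟨cd69C, List.forall_mem_nil _⟩⟩)

theorem KB_4_20000_25 : KB 4 20000 25 (106264 / 100000) :=
  KB_of_check5 4 20000 25 1006453648297 1062640000000 106264 [cd70] rfl (by decide +kernel) (by decide +kernel)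
    (by decide +kernel)
    (List.forall_mem_cons.2 ⟨cd70B, List.forall_mem_nil _⟩)
    (List.forall_mem_cons.2 ⟨cd70C, List.forall_mem_nil _⟩)

theorem KB_4_20000_27 : KB 4 20000 27 (104148 / 100000) :=
  KB_of_check5 4 20000 27 1005752643149 1041480000000 104148 [cd71, cd72, cd73] rfl (by decide +kernel) (by decide +kernel)
    (by decide +kernel)
    (List.forall_mem_cons.2 ⟨cd71B, List.forall_mem_cons.2 ⟨cd72B, List.forall_mem_cons.2 ⟨cd73B, List.forall_mem_nil _⟩⟩⟩)
    (List.forall_mem_cons.2 ⟨cd71C, List.forall_mem_cons.2 ⟨cd72C, List.forall_mem_cons.2 ⟨cd73C, List.forall_mem_nil _⟩⟩⟩)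

theorem KB_4_20000_29 : KB 4 20000 29 (103884 / 100000) :=
  KB_of_check5 4 20000 29 1005432578927 1038840000000 103884 [cd74, cd75, cd76] rfl (by decide +kernel) (by decide +kernel)
    (by decide +kernel)
    (List.forall_mem_cons.2 ⟨cd74B, List.forall_mem_cons.2 ⟨cd75B, List.forall_mem_cons.2 ⟨cd76B, List.forall_mem_nil _⟩⟩⟩)
    (List.forall_mem_cons.2 ⟨cd74C, List.forall_mem_cons.2 ⟨cd75C, List.forall_mem_cons.2 ⟨cd76C, List.forall_mem_nil _⟩⟩⟩)

theorem KB_5_35000_7 : KB 5 35000 7 (137112 / 100000) :=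
  KB_of_check5 5 35000 7 1271814804762 1371120000000 137112 [cd77] rfl (by decide +kernel) (by decide +kernel)
    (by decide +kernel)
    (List.forall_mem_cons.2 ⟨cd77B, List.forall_mem_nil _⟩)
    (List.forall_mem_cons.2 ⟨cd77C, List.forall_mem_nil _⟩)

theorem KB_5_35000_8 : KB 5 35000 8 (120089 / 100000) :=
  KB_of_check5 5 35000 8 1058880649478 1200890000000 120089 [cd78] rfl (by decide +kernel) (by decide +kernel)
    (by decide +kernel)
    (List.forall_mem_cons.2 ⟨cd78B, List.forall_mem_nil _⟩)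
    (List.forall_mem_cons.2 ⟨cd78C, List.forall_mem_nil _⟩)

theorem KB_5_35000_9 : KB 5 35000 9 (115491 / 100000) :=
  KB_of_check5 5 35000 9 1045290732525 1154910000000 115491 [cd79, cd80] rfl (by decide +kernel) (by decide +kernel)
    (by decide +kernel)
    (List.forall_mem_cons.2 ⟨cd79B, List.forall_mem_cons.2 ⟨cd80B, List.forall_mem_nil _⟩⟩)
    (List.forall_mem_cons.2 ⟨cd79C, List.forall_mem_cons.2 ⟨cd80C, List.forall_mem_nil _⟩⟩)

theorem KB_5_35000_11 : KB 5 35000 11 (115260 / 100000) :=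
  KB_of_check5 5 35000 11 1052159311626 1152600000000 115260 [cd81, cd82] rfl (by decide +kernel) (by decide +kernel)
    (by decide +kernel)
    (List.forall_mem_cons.2 ⟨cd81B, List.forall_mem_cons.2 ⟨cd82B, List.forall_mem_nil _⟩⟩)
    (List.forall_mem_cons.2 ⟨cd81C, List.forall_mem_cons.2 ⟨cd82C, List.forall_mem_nil _⟩⟩)

theorem KB_5_35000_13 : KB 5 35000 13 (114542 / 100000) :=
  KB_of_check5 5 35000 13 1028388570373 1145420000000 114542 [cd83] rfl (by decide +kernel) (by decide +kernel)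
    (by decide +kernel)
    (List.forall_mem_cons.2 ⟨cd83B, List.forall_mem_nil _⟩)
    (List.forall_mem_cons.2 ⟨cd83C, List.forall_mem_nil _⟩)

theorem KB_5_35000_16 : KB 5 35000 16 (107434 / 100000) :=
  KB_of_check5 5 35000 16 1017221834933 1074340000000 107434 [cd84, cd85] rfl (by decide +kernel) (by decide +kernel)
    (by decide +kernel)
    (List.forall_mem_cons.2 ⟨cd84B, List.forall_mem_cons.2 ⟨cd85B, List.forall_mem_nil _⟩⟩)
    (List.forall_mem_cons.2 ⟨cd84C, List.forall_mem_cons.2 ⟨cd85C, List.forall_mem_nil _⟩⟩)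

theorem KB_5_35000_17 : KB 5 35000 17 (107584 / 100000) :=
  KB_of_check5 5 35000 17 1014930146742 1075840000000 107584 [cd86, cd87, cd88] rfl (by decide +kernel) (by decide +kernel)
    (by decide +kernel)
    (List.forall_mem_cons.2 ⟨cd86B, List.forall_mem_cons.2 ⟨cd87B, List.forall_mem_cons.2 ⟨cd88B, List.forall_mem_nil _⟩⟩⟩)
    (List.forall_mem_cons.2 ⟨cd86C, List.forall_mem_cons.2 ⟨cd87C, List.forall_mem_cons.2 ⟨cd88C, List.forall_mem_nil _⟩⟩⟩)

theorem KB_5_35000_19 : KB 5 35000 19 (107325 / 100000) :=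
  KB_of_check5 5 35000 19 1011173189744 1073250000000 107325 [cd89, cd90, cd91] rfl (by decide +kernel) (by decide +kernel)
    (by decide +kernel)
    (List.forall_mem_cons.2 ⟨cd89B, List.forall_mem_cons.2 ⟨cd90B, List.forall_mem_cons.2 ⟨cd91B, List.forall_mem_nil _⟩⟩⟩)
    (List.forall_mem_cons.2 ⟨cd89C, List.forall_mem_cons.2 ⟨cd90C, List.forall_mem_cons.2 ⟨cd91C, List.forall_mem_nil _⟩⟩⟩)

theorem KB_5_35000_23 : KB 5 35000 23 (107347 / 100000) :=
  KB_of_check5 5 35000 23 1011861459540 1073470000000 107347 [cd92, cd93] rfl (by decide +kernel) (by decide +kernel)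
    (by decide +kernel)
    (List.forall_mem_cons.2 ⟨cd92B, List.forall_mem_cons.2 ⟨cd93B, List.forall_mem_nil _⟩⟩)
    (List.forall_mem_cons.2 ⟨cd92C, List.forall_mem_cons.2 ⟨cd93C, List.forall_mem_nil _⟩⟩)

theorem KB_5_35000_27 : KB 5 35000 27 (107317 / 100000) :=
  KB_of_check5 5 35000 27 1011468017111 1073170000000 107317 [cd94, cd95] rfl (by decide +kernel) (by decide +kernel)
    (by decide +kernel)
    (List.forall_mem_cons.2 ⟨cd94B, List.forall_mem_cons.2 ⟨cd95B, List.forall_mem_nil _⟩⟩)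
    (List.forall_mem_cons.2 ⟨cd94C, List.forall_mem_cons.2 ⟨cd95C, List.forall_mem_nil _⟩⟩)

theorem KB_5_35000_29 : KB 5 35000 29 (107240 / 100000) :=
  KB_of_check5 5 35000 29 1010434713114 1072400000000 107240 [cd96, cd97] rfl (by decide +kernel) (by decide +kernel)
    (by decide +kernel)
    (List.forall_mem_cons.2 ⟨cd96B, List.forall_mem_cons.2 ⟨cd97B, List.forall_mem_nil _⟩⟩)
    (List.forall_mem_cons.2 ⟨cd96C, List.forall_mem_cons.2 ⟨cd97C, List.forall_mem_nil _⟩⟩)

theorem KB_5_55000_7 : KB 5 55000 7 (116005 / 100000) :=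
  KB_of_check5 5 55000 7 1071578371918 1160050000000 116005 [cd98, cd99, cd100] rfl (by decide +kernel) (by decide +kernel)
    (by decide +kernel)
    (List.forall_mem_cons.2 ⟨cd98B, List.forall_mem_cons.2 ⟨cd99B, List.forall_mem_cons.2 ⟨cd100B, List.forall_mem_nil _⟩⟩⟩)
    (List.forall_mem_cons.2 ⟨cd98C, List.forall_mem_cons.2 ⟨cd99C, List.forall_mem_cons.2 ⟨cd100C, List.forall_mem_nil _⟩⟩⟩)

theorem KB_5_55000_9 : KB 5 55000 9 (115491 / 100000) :=
  KB_of_check5 5 55000 9 1045290732525 1154910000000 115491 [cd79, cd80] rfl (by decide +kernel) (by decide +kernel)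
    (by decide +kernel)
    (List.forall_mem_cons.2 ⟨cd79B, List.forall_mem_cons.2 ⟨cd80B, List.forall_mem_nil _⟩⟩)
    (List.forall_mem_cons.2 ⟨cd79C, List.forall_mem_cons.2 ⟨cd80C, List.forall_mem_nil _⟩⟩)

theorem KB_5_55000_11 : KB 5 55000 11 (115260 / 100000) :=
  KB_of_check5 5 55000 11 1052159311626 1152600000000 115260 [cd81, cd82] rfl (by decide +kernel) (by decide +kernel)
    (by decide +kernel)
    (List.forall_mem_cons.2 ⟨cd81B, List.forall_mem_cons.2 ⟨cd82B, List.forall_mem_nil _⟩⟩)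
    (List.forall_mem_cons.2 ⟨cd81C, List.forall_mem_cons.2 ⟨cd82C, List.forall_mem_nil _⟩⟩)

theorem KB_5_55000_13 : KB 5 55000 13 (114542 / 100000) :=
  KB_of_check5 5 55000 13 1028388570373 1145420000000 114542 [cd83] rfl (by decide +kernel) (by decide +kernel)
    (by decide +kernel)
    (List.forall_mem_cons.2 ⟨cd83B, List.forall_mem_nil _⟩)
    (List.forall_mem_cons.2 ⟨cd83C, List.forall_mem_nil _⟩)

theorem KB_5_55000_16 : KB 5 55000 16 (107434 / 100000) :=
  KB_of_check5 5 55000 16 1017221834933 1074340000000 107434 [cd84, cd85] rfl (by decide +kernel) (by decide +kernel)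
    (by decide +kernel)
    (List.forall_mem_cons.2 ⟨cd84B, List.forall_mem_cons.2 ⟨cd85B, List.forall_mem_nil _⟩⟩)
    (List.forall_mem_cons.2 ⟨cd84C, List.forall_mem_cons.2 ⟨cd85C, List.forall_mem_nil _⟩⟩)

theorem KB_5_55000_17 : KB 5 55000 17 (107584 / 100000) :=
  KB_of_check5 5 55000 17 1014930146742 1075840000000 107584 [cd86, cd87, cd88] rfl (by decide +kernel) (by decide +kernel)
    (by decide +kernel)
    (List.forall_mem_cons.2 ⟨cd86B, List.forall_mem_cons.2 ⟨cd87B, List.forall_mem_cons.2 ⟨cd88B, List.forall_mem_nil _⟩⟩⟩)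
    (List.forall_mem_cons.2 ⟨cd86C, List.forall_mem_cons.2 ⟨cd87C, List.forall_mem_cons.2 ⟨cd88C, List.forall_mem_nil _⟩⟩⟩)

theorem KB_5_55000_19 : KB 5 55000 19 (107325 / 100000) :=
  KB_of_check5 5 55000 19 1011173189744 1073250000000 107325 [cd89, cd90, cd91] rfl (by decide +kernel) (by decide +kernel)
    (by decide +kernel)
    (List.forall_mem_cons.2 ⟨cd89B, List.forall_mem_cons.2 ⟨cd90B, List.forall_mem_cons.2 ⟨cd91B, List.forall_mem_nil _⟩⟩⟩)
    (List.forall_mem_cons.2 ⟨cd89C, List.forall_mem_cons.2 ⟨cd90C, List.forall_mem_cons.2 ⟨cd91C, List.forall_mem_nil _⟩⟩⟩)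

theorem KB_5_55000_23 : KB 5 55000 23 (107347 / 100000) :=
  KB_of_check5 5 55000 23 1011861459540 1073470000000 107347 [cd92, cd93] rfl (by decide +kernel) (by decide +kernel)
    (by decide +kernel)
    (List.forall_mem_cons.2 ⟨cd92B, List.forall_mem_cons.2 ⟨cd93B, List.forall_mem_nil _⟩⟩)
    (List.forall_mem_cons.2 ⟨cd92C, List.forall_mem_cons.2 ⟨cd93C, List.forall_mem_nil _⟩⟩)

theorem KB_5_55000_27 : KB 5 55000 27 (107317 / 100000) :=
  KB_of_check5 5 55000 27 1011468017111 1073170000000 107317 [cd94, cd95] rfl (by decide +kernel) (by decide +kernel)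
    (by decide +kernel)
    (List.forall_mem_cons.2 ⟨cd94B, List.forall_mem_cons.2 ⟨cd95B, List.forall_mem_nil _⟩⟩)
    (List.forall_mem_cons.2 ⟨cd94C, List.forall_mem_cons.2 ⟨cd95C, List.forall_mem_nil _⟩⟩)

theorem KB_5_55000_29 : KB 5 55000 29 (107240 / 100000) :=
  KB_of_check5 5 55000 29 1010434713114 1072400000000 107240 [cd96, cd97] rfl (by decide +kernel) (by decide +kernel)
    (by decide +kernel)
    (List.forall_mem_cons.2 ⟨cd96B, List.forall_mem_cons.2 ⟨cd97B, List.forall_mem_nil _⟩⟩)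
    (List.forall_mem_cons.2 ⟨cd96C, List.forall_mem_cons.2 ⟨cd97C, List.forall_mem_nil _⟩⟩)

theorem KB_7_60000_9 : KB 7 60000 9 (120044 / 100000) :=
  KB_of_check5 7 60000 9 1166742371119 1200440000000 120044 [cd101, cd102] rfl (by decide +kernel) (by decide +kernel)
    (by decide +kernel)
    (List.forall_mem_cons.2 ⟨cd101B, List.forall_mem_cons.2 ⟨cd102B, List.forall_mem_nil _⟩⟩)
    (List.forall_mem_cons.2 ⟨cd101C, List.forall_mem_cons.2 ⟨cd102C, List.forall_mem_nil _⟩⟩)

theorem KB_7_60000_11 : KB 7 60000 11 (119563 / 100000) :=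
  KB_of_check5 7 60000 11 1170490934520 1195630000000 119563 [cd103, cd104] rfl (by decide +kernel) (by decide +kernel)
    (by decide +kernel)
    (List.forall_mem_cons.2 ⟨cd103B, List.forall_mem_cons.2 ⟨cd104B, List.forall_mem_nil _⟩⟩)
    (List.forall_mem_cons.2 ⟨cd103C, List.forall_mem_cons.2 ⟨cd104C, List.forall_mem_nil _⟩⟩)

theorem KB_7_60000_13 : KB 7 60000 13 (117597 / 100000) :=
  KB_of_check5 7 60000 13 1129017905146 1175970000000 117597 [cd105] rfl (by decide +kernel) (by decide +kernel)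
    (by decide +kernel)
    (List.forall_mem_cons.2 ⟨cd105B, List.forall_mem_nil _⟩)
    (List.forall_mem_cons.2 ⟨cd105C, List.forall_mem_nil _⟩)

theorem KB_7_60000_16 : KB 7 60000 16 (109552 / 100000) :=
  KB_of_check5 7 60000 16 1057985950337 1095520000000 109552 [cd106, cd107, cd108] rfl (by decide +kernel) (by decide +kernel)
    (by decide +kernel)
    (List.forall_mem_cons.2 ⟨cd106B, List.forall_mem_cons.2 ⟨cd107B, List.forall_mem_cons.2 ⟨cd108B, List.forall_mem_nil _⟩⟩⟩)
    (List.forall_mem_cons.2 ⟨cd106C, List.forall_mem_cons.2 ⟨cd107C, List.forall_mem_cons.2 ⟨cd108C, List.forall_mem_nil _⟩⟩⟩)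

theorem KB_7_60000_17 : KB 7 60000 17 (110140 / 100000) :=
  KB_of_check5 7 60000 17 1063528282175 1101400000000 110140 [cd109, cd110, cd111, cd112] rfl (by decide +kernel) (by decide +kernel)
    (by decide +kernel)
    (List.forall_mem_cons.2 ⟨cd109B, List.forall_mem_cons.2 ⟨cd110B, List.forall_mem_cons.2 ⟨cd111B, List.forall_mem_cons.2 ⟨cd112B, List.forall_mem_nil _⟩⟩⟩⟩)
    (List.forall_mem_cons.2 ⟨cd109C, List.forall_mem_cons.2 ⟨cd110C, List.forall_mem_cons.2 ⟨cd111C, List.forall_mem_cons.2 ⟨cd112C, List.forall_mem_nil _⟩⟩⟩⟩)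

theorem KB_7_60000_19 : KB 7 60000 19 (109115 / 100000) :=
  KB_of_check5 7 60000 19 1042430123366 1091150000000 109115 [cd113, cd114, cd115, cd116] rfl (by decide +kernel) (by decide +kernel)
    (by decide +kernel)
    (List.forall_mem_cons.2 ⟨cd113B, List.forall_mem_cons.2 ⟨cd114B, List.forall_mem_cons.2 ⟨cd115B, List.forall_mem_cons.2 ⟨cd116B, List.forall_mem_nil _⟩⟩⟩⟩)
    (List.forall_mem_cons.2 ⟨cd113C, List.forall_mem_cons.2 ⟨cd114C, List.forall_mem_cons.2 ⟨cd115C, List.forall_mem_cons.2 ⟨cd116C, List.forall_mem_nil _⟩⟩⟩⟩)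

theorem KB_7_60000_23 : KB 7 60000 23 (109091 / 100000) :=
  KB_of_check5 7 60000 23 1042090945556 1090910000000 109091 [cd117, cd118, cd119] rfl (by decide +kernel) (by decide +kernel)
    (by decide +kernel)
    (List.forall_mem_cons.2 ⟨cd117B, List.forall_mem_cons.2 ⟨cd118B, List.forall_mem_cons.2 ⟨cd119B, List.forall_mem_nil _⟩⟩⟩)
    (List.forall_mem_cons.2 ⟨cd117C, List.forall_mem_cons.2 ⟨cd118C, List.forall_mem_cons.2 ⟨cd119C, List.forall_mem_nil _⟩⟩⟩)

theorem KB_7_60000_25 : KB 7 60000 25 (108438 / 100000) :=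
  KB_of_check5 7 60000 25 1030478275580 1084380000000 108438 [cd120, cd121] rfl (by decide +kernel) (by decide +kernel)
    (by decide +kernel)
    (List.forall_mem_cons.2 ⟨cd120B, List.forall_mem_cons.2 ⟨cd121B, List.forall_mem_nil _⟩⟩)
    (List.forall_mem_cons.2 ⟨cd120C, List.forall_mem_cons.2 ⟨cd121C, List.forall_mem_nil _⟩⟩)

theorem KB_7_60000_27 : KB 7 60000 27 (107968 / 100000) :=
  KB_of_check5 7 60000 27 1022720927828 1079680000000 107968 [cd122, cd123] rfl (by decide +kernel) (by decide +kernel)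
    (by decide +kernel)
    (List.forall_mem_cons.2 ⟨cd122B, List.forall_mem_cons.2 ⟨cd123B, List.forall_mem_nil _⟩⟩)
    (List.forall_mem_cons.2 ⟨cd122C, List.forall_mem_cons.2 ⟨cd123C, List.forall_mem_nil _⟩⟩)

theorem KB_7_60000_29 : KB 7 60000 29 (107791 / 100000) :=
  KB_of_check5 7 60000 29 1020398151770 1077910000000 107791 [cd124, cd125] rfl (by decide +kernel) (by decide +kernel)
    (by decide +kernel)
    (List.forall_mem_cons.2 ⟨cd124B, List.forall_mem_cons.2 ⟨cd125B, List.forall_mem_nil _⟩⟩)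
    (List.forall_mem_cons.2 ⟨cd124C, List.forall_mem_cons.2 ⟨cd125C, List.forall_mem_nil _⟩⟩)

theorem KB_7_127500_11 : KB 7 127500 11 (110850 / 100000) :=
  KB_of_check5 7 127500 11 1081163666782 1108500000000 110850 [cd126, cd127, cd128, cd129, cd130] rfl (by decide +kernel) (by decide +kernel)
    (by decide +kernel)
    (List.forall_mem_cons.2 ⟨cd126B, List.forall_mem_cons.2 ⟨cd127B, List.forall_mem_cons.2 ⟨cd128B, List.forall_mem_cons.2 ⟨cd129B, List.forall_mem_cons.2 ⟨cd130B, List.forall_mem_nil _⟩⟩⟩⟩⟩)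
    (List.forall_mem_cons.2 ⟨cd126C, List.forall_mem_cons.2 ⟨cd127C, List.forall_mem_cons.2 ⟨cd128C, List.forall_mem_cons.2 ⟨cd129C, List.forall_mem_cons.2 ⟨cd130C, List.forall_mem_nil _⟩⟩⟩⟩⟩)

theorem KB_7_127500_13 : KB 7 127500 13 (109942 / 100000) :=
  KB_of_check5 7 127500 13 1061359574642 1099420000000 109942 [cd131, cd132, cd133, cd134] rfl (by decide +kernel) (by decide +kernel)
    (by decide +kernel)
    (List.forall_mem_cons.2 ⟨cd131B, List.forall_mem_cons.2 ⟨cd132B, List.forall_mem_cons.2 ⟨cd133B, List.forall_mem_cons.2 ⟨cd134B, List.forall_mem_nil _⟩⟩⟩⟩)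
    (List.forall_mem_cons.2 ⟨cd131C, List.forall_mem_cons.2 ⟨cd132C, List.forall_mem_cons.2 ⟨cd133C, List.forall_mem_cons.2 ⟨cd134C, List.forall_mem_nil _⟩⟩⟩⟩)

theorem KB_7_127500_17 : KB 7 127500 17 (110140 / 100000) :=
  KB_of_check5 7 127500 17 1063528282175 1101400000000 110140 [cd109, cd110, cd111, cd112] rfl (by decide +kernel) (by decide +kernel)
    (by decide +kernel)
    (List.forall_mem_cons.2 ⟨cd109B, List.forall_mem_cons.2 ⟨cd110B, List.forall_mem_cons.2 ⟨cd111B, List.forall_mem_cons.2 ⟨cd112B, List.forall_mem_nil _⟩⟩⟩⟩)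
    (List.forall_mem_cons.2 ⟨cd109C, List.forall_mem_cons.2 ⟨cd110C, List.forall_mem_cons.2 ⟨cd111C, List.forall_mem_cons.2 ⟨cd112C, List.forall_mem_nil _⟩⟩⟩⟩)

theorem KB_7_127500_19 : KB 7 127500 19 (109115 / 100000) :=
  KB_of_check5 7 127500 19 1042430123366 1091150000000 109115 [cd113, cd114, cd115, cd116] rfl (by decide +kernel) (by decide +kernel)
    (by decide +kernel)
    (List.forall_mem_cons.2 ⟨cd113B, List.forall_mem_cons.2 ⟨cd114B, List.forall_mem_cons.2 ⟨cd115B, List.forall_mem_cons.2 ⟨cd116B, List.forall_mem_nil _⟩⟩⟩⟩)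
    (List.forall_mem_cons.2 ⟨cd113C, List.forall_mem_cons.2 ⟨cd114C, List.forall_mem_cons.2 ⟨cd115C, List.forall_mem_cons.2 ⟨cd116C, List.forall_mem_nil _⟩⟩⟩⟩)

theorem KB_7_127500_23 : KB 7 127500 23 (109091 / 100000) :=
  KB_of_check5 7 127500 23 1042090945556 1090910000000 109091 [cd117, cd118, cd119] rfl (by decide +kernel) (by decide +kernel)
    (by decide +kernel)
    (List.forall_mem_cons.2 ⟨cd117B, List.forall_mem_cons.2 ⟨cd118B, List.forall_mem_cons.2 ⟨cd119B, List.forall_mem_nil _⟩⟩⟩)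
    (List.forall_mem_cons.2 ⟨cd117C, List.forall_mem_cons.2 ⟨cd118C, List.forall_mem_cons.2 ⟨cd119C, List.forall_mem_nil _⟩⟩⟩)

theorem KB_7_127500_25 : KB 7 127500 25 (108438 / 100000) :=
  KB_of_check5 7 127500 25 1030478275580 1084380000000 108438 [cd120, cd121] rfl (by decide +kernel) (by decide +kernel)
    (by decide +kernel)
    (List.forall_mem_cons.2 ⟨cd120B, List.forall_mem_cons.2 ⟨cd121B, List.forall_mem_nil _⟩⟩)
    (List.forall_mem_cons.2 ⟨cd120C, List.forall_mem_cons.2 ⟨cd121C, List.forall_mem_nil _⟩⟩)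

theorem KB_7_127500_27 : KB 7 127500 27 (107968 / 100000) :=
  KB_of_check5 7 127500 27 1022720927828 1079680000000 107968 [cd122, cd123] rfl (by decide +kernel) (by decide +kernel)
    (by decide +kernel)
    (List.forall_mem_cons.2 ⟨cd122B, List.forall_mem_cons.2 ⟨cd123B, List.forall_mem_nil _⟩⟩)
    (List.forall_mem_cons.2 ⟨cd122C, List.forall_mem_cons.2 ⟨cd123C, List.forall_mem_nil _⟩⟩)

theorem KB_7_127500_29 : KB 7 127500 29 (107791 / 100000) :=
  KB_of_check5 7 127500 29 1020398151770 1077910000000 107791 [cd124, cd125] rfl (by decide +kernel) (by decide +kernel)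
    (by decide +kernel)
    (List.forall_mem_cons.2 ⟨cd124B, List.forall_mem_cons.2 ⟨cd125B, List.forall_mem_nil _⟩⟩)
    (List.forall_mem_cons.2 ⟨cd124C, List.forall_mem_cons.2 ⟨cd125C, List.forall_mem_nil _⟩⟩)

theorem KB_8_50000_5 : KB 8 50000 5 (122676 / 100000) :=
  KB_of_check5 8 50000 5 1159908537837 1226760000000 122676 [cd135, cd136] rfl (by decide +kernel) (by decide +kernel)
    (by decide +kernel)
    (List.forall_mem_cons.2 ⟨cd135B, List.forall_mem_cons.2 ⟨cd136B, List.forall_mem_nil _⟩⟩)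
    (List.forall_mem_cons.2 ⟨cd135C, List.forall_mem_cons.2 ⟨cd136C, List.forall_mem_nil _⟩⟩)

theorem KB_8_50000_7 : KB 8 50000 7 (117458 / 100000) :=
  KB_of_check5 8 50000 7 1127335637007 1174580000000 117458 [cd137, cd138, cd139] rfl (by decide +kernel) (by decide +kernel)
    (by decide +kernel)
    (List.forall_mem_cons.2 ⟨cd137B, List.forall_mem_cons.2 ⟨cd138B, List.forall_mem_cons.2 ⟨cd139B, List.forall_mem_nil _⟩⟩⟩)
    (List.forall_mem_cons.2 ⟨cd137C, List.forall_mem_cons.2 ⟨cd138C, List.forall_mem_cons.2 ⟨cd139C, List.forall_mem_nil _⟩⟩⟩)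

theorem KB_8_50000_9 : KB 8 50000 9 (114139 / 100000) :=
  KB_of_check5 8 50000 9 1090573790252 1141390000000 114139 [cd140, cd141] rfl (by decide +kernel) (by decide +kernel)
    (by decide +kernel)
    (List.forall_mem_cons.2 ⟨cd140B, List.forall_mem_cons.2 ⟨cd141B, List.forall_mem_nil _⟩⟩)
    (List.forall_mem_cons.2 ⟨cd140C, List.forall_mem_cons.2 ⟨cd141C, List.forall_mem_nil _⟩⟩)

theorem KB_8_50000_11 : KB 8 50000 11 (112391 / 100000) :=
  KB_of_check5 8 50000 11 1092338009421 1123910000000 112391 [cd142, cd143, cd144] rfl (by decide +kernel) (by decide +kernel)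
    (by decide +kernel)
    (List.forall_mem_cons.2 ⟨cd142B, List.forall_mem_cons.2 ⟨cd143B, List.forall_mem_cons.2 ⟨cd144B, List.forall_mem_nil _⟩⟩⟩)
    (List.forall_mem_cons.2 ⟨cd142C, List.forall_mem_cons.2 ⟨cd143C, List.forall_mem_cons.2 ⟨cd144C, List.forall_mem_nil _⟩⟩⟩)

theorem KB_8_50000_13 : KB 8 50000 13 (109381 / 100000) :=
  KB_of_check5 8 50000 13 1056766805556 1093810000000 109381 [cd145, cd146, cd147] rfl (by decide +kernel) (by decide +kernel)
    (by decide +kernel)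
    (List.forall_mem_cons.2 ⟨cd145B, List.forall_mem_cons.2 ⟨cd146B, List.forall_mem_cons.2 ⟨cd147B, List.forall_mem_nil _⟩⟩⟩)
    (List.forall_mem_cons.2 ⟨cd145C, List.forall_mem_cons.2 ⟨cd146C, List.forall_mem_cons.2 ⟨cd147C, List.forall_mem_nil _⟩⟩⟩)

theorem KB_8_50000_17 : KB 8 50000 17 (109430 / 100000) :=
  KB_of_check5 8 50000 17 1058416163604 1094300000000 109430 [cd148, cd149, cd150] rfl (by decide +kernel) (by decide +kernel)
    (by decide +kernel)
    (List.forall_mem_cons.2 ⟨cd148B, List.forall_mem_cons.2 ⟨cd149B, List.forall_mem_cons.2 ⟨cd150B, List.forall_mem_nil _⟩⟩⟩)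
    (List.forall_mem_cons.2 ⟨cd148C, List.forall_mem_cons.2 ⟨cd149C, List.forall_mem_cons.2 ⟨cd150C, List.forall_mem_nil _⟩⟩⟩)

theorem KB_8_50000_19 : KB 8 50000 19 (108386 / 100000) :=
  KB_of_check5 8 50000 19 1041589264901 1083860000000 108386 [cd151, cd152, cd153] rfl (by decide +kernel) (by decide +kernel)
    (by decide +kernel)
    (List.forall_mem_cons.2 ⟨cd151B, List.forall_mem_cons.2 ⟨cd152B, List.forall_mem_cons.2 ⟨cd153B, List.forall_mem_nil _⟩⟩⟩)
    (List.forall_mem_cons.2 ⟨cd151C, List.forall_mem_cons.2 ⟨cd152C, List.forall_mem_cons.2 ⟨cd153C, List.forall_mem_nil _⟩⟩⟩)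

theorem KB_8_50000_23 : KB 8 50000 23 (108289 / 100000) :=
  KB_of_check5 8 50000 23 1040504570590 1082890000000 108289 [cd154, cd155] rfl (by decide +kernel) (by decide +kernel)
    (by decide +kernel)
    (List.forall_mem_cons.2 ⟨cd154B, List.forall_mem_cons.2 ⟨cd155B, List.forall_mem_nil _⟩⟩)
    (List.forall_mem_cons.2 ⟨cd154C, List.forall_mem_cons.2 ⟨cd155C, List.forall_mem_nil _⟩⟩)

theorem KB_8_50000_25 : KB 8 50000 25 (107623 / 100000) :=
  KB_of_check5 8 50000 25 1029746018605 1076230000000 107623 [cd156] rfl (by decide +kernel) (by decide +kernel)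
    (by decide +kernel)
    (List.forall_mem_cons.2 ⟨cd156B, List.forall_mem_nil _⟩)
    (List.forall_mem_cons.2 ⟨cd156C, List.forall_mem_nil _⟩)

theorem KB_8_50000_27 : KB 8 50000 27 (105222 / 100000) :=
  KB_of_check5 8 50000 27 1022169356473 1052220000000 105222 [cd157, cd158, cd159] rfl (by decide +kernel) (by decide +kernel)
    (by decide +kernel)
    (List.forall_mem_cons.2 ⟨cd157B, List.forall_mem_cons.2 ⟨cd158B, List.forall_mem_cons.2 ⟨cd159B, List.forall_mem_nil _⟩⟩⟩)
    (List.forall_mem_cons.2 ⟨cd157C, List.forall_mem_cons.2 ⟨cd158C, List.forall_mem_cons.2 ⟨cd159C, List.forall_mem_nil _⟩⟩⟩)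

theorem KB_8_50000_29 : KB 8 50000 29 (104820 / 100000) :=
  KB_of_check5 8 50000 29 1019685227101 1048200000000 104820 [cd160, cd161, cd162] rfl (by decide +kernel) (by decide +kernel)
    (by decide +kernel)
    (List.forall_mem_cons.2 ⟨cd160B, List.forall_mem_cons.2 ⟨cd161B, List.forall_mem_cons.2 ⟨cd162B, List.forall_mem_nil _⟩⟩⟩)
    (List.forall_mem_cons.2 ⟨cd160C, List.forall_mem_cons.2 ⟨cd161C, List.forall_mem_cons.2 ⟨cd162C, List.forall_mem_nil _⟩⟩⟩)

theorem KB_9_40000_5 : KB 9 40000 5 (141838 / 100000) :=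
  KB_of_check5 9 40000 5 1362398424218 1418380000000 141838 [cd163, cd164] rfl (by decide +kernel) (by decide +kernel)
    (by decide +kernel)
    (List.forall_mem_cons.2 ⟨cd163B, List.forall_mem_cons.2 ⟨cd164B, List.forall_mem_nil _⟩⟩)
    (List.forall_mem_cons.2 ⟨cd163C, List.forall_mem_cons.2 ⟨cd164C, List.forall_mem_nil _⟩⟩)

theorem KB_9_40000_7 : KB 9 40000 7 (138710 / 100000) :=
  KB_of_check5 9 40000 7 1320703433185 1387100000000 138710 [cd165] rfl (by decide +kernel) (by decide +kernel)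
    (by decide +kernel)
    (List.forall_mem_cons.2 ⟨cd165B, List.forall_mem_nil _⟩)
    (List.forall_mem_cons.2 ⟨cd165C, List.forall_mem_nil _⟩)

theorem KB_9_40000_8 : KB 9 40000 8 (114139 / 100000) :=
  KB_of_check5 9 40000 8 1090573790252 1141390000000 114139 [cd140, cd141] rfl (by decide +kernel) (by decide +kernel)
    (by decide +kernel)
    (List.forall_mem_cons.2 ⟨cd140B, List.forall_mem_cons.2 ⟨cd141B, List.forall_mem_nil _⟩⟩)
    (List.forall_mem_cons.2 ⟨cd140C, List.forall_mem_cons.2 ⟨cd141C, List.forall_mem_nil _⟩⟩)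

theorem KB_9_40000_11 : KB 9 40000 11 (121837 / 100000) :=
  KB_of_check5 9 40000 11 1200297120206 1218370000000 121837 [cd166, cd167] rfl (by decide +kernel) (by decide +kernel)
    (by decide +kernel)
    (List.forall_mem_cons.2 ⟨cd166B, List.forall_mem_cons.2 ⟨cd167B, List.forall_mem_nil _⟩⟩)
    (List.forall_mem_cons.2 ⟨cd166C, List.forall_mem_cons.2 ⟨cd167C, List.forall_mem_nil _⟩⟩)

theorem KB_9_40000_13 : KB 9 40000 13 (119130 / 100000) :=
  KB_of_check5 9 40000 13 1155425332858 1191300000000 119130 [cd168] rfl (by decide +kernel) (by decide +kernel)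
    (by decide +kernel)
    (List.forall_mem_cons.2 ⟨cd168B, List.forall_mem_nil _⟩)
    (List.forall_mem_cons.2 ⟨cd168C, List.forall_mem_nil _⟩)

theorem KB_9_40000_16 : KB 9 40000 16 (110729 / 100000) :=
  KB_of_check5 9 40000 16 1076796198821 1107290000000 110729 [cd169, cd170] rfl (by decide +kernel) (by decide +kernel)
    (by decide +kernel)
    (List.forall_mem_cons.2 ⟨cd169B, List.forall_mem_cons.2 ⟨cd170B, List.forall_mem_nil _⟩⟩)
    (List.forall_mem_cons.2 ⟨cd169C, List.forall_mem_cons.2 ⟨cd170C, List.forall_mem_nil _⟩⟩)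

theorem KB_9_40000_17 : KB 9 40000 17 (111452 / 100000) :=
  KB_of_check5 9 40000 17 1085183690520 1114520000000 111452 [cd171, cd172, cd173] rfl (by decide +kernel) (by decide +kernel)
    (by decide +kernel)
    (List.forall_mem_cons.2 ⟨cd171B, List.forall_mem_cons.2 ⟨cd172B, List.forall_mem_cons.2 ⟨cd173B, List.forall_mem_nil _⟩⟩⟩)
    (List.forall_mem_cons.2 ⟨cd171C, List.forall_mem_cons.2 ⟨cd172C, List.forall_mem_cons.2 ⟨cd173C, List.forall_mem_nil _⟩⟩⟩)

theorem KB_9_40000_19 : KB 9 40000 19 (110035 / 100000) :=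
  KB_of_check5 9 40000 19 1058085708152 1100350000000 110035 [cd174, cd175, cd176] rfl (by decide +kernel) (by decide +kernel)
    (by decide +kernel)
    (List.forall_mem_cons.2 ⟨cd174B, List.forall_mem_cons.2 ⟨cd175B, List.forall_mem_cons.2 ⟨cd176B, List.forall_mem_nil _⟩⟩⟩)
    (List.forall_mem_cons.2 ⟨cd174C, List.forall_mem_cons.2 ⟨cd175C, List.forall_mem_cons.2 ⟨cd176C, List.forall_mem_nil _⟩⟩⟩)

theorem KB_9_40000_23 : KB 9 40000 23 (109861 / 100000) :=
  KB_of_check5 9 40000 23 1055261488264 1098610000000 109861 [cd177, cd178] rfl (by decide +kernel) (by decide +kernel)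
    (by decide +kernel)
    (List.forall_mem_cons.2 ⟨cd177B, List.forall_mem_cons.2 ⟨cd178B, List.forall_mem_nil _⟩⟩)
    (List.forall_mem_cons.2 ⟨cd177C, List.forall_mem_cons.2 ⟨cd178C, List.forall_mem_nil _⟩⟩)

theorem KB_9_40000_25 : KB 9 40000 25 (108945 / 100000) :=
  KB_of_check5 9 40000 25 1039411064460 1089450000000 108945 [cd179, cd180] rfl (by decide +kernel) (by decide +kernel)
    (by decide +kernel)
    (List.forall_mem_cons.2 ⟨cd179B, List.forall_mem_cons.2 ⟨cd180B, List.forall_mem_nil _⟩⟩)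
    (List.forall_mem_cons.2 ⟨cd179C, List.forall_mem_cons.2 ⟨cd180C, List.forall_mem_nil _⟩⟩)

theorem KB_9_40000_29 : KB 9 40000 29 (108911 / 100000) :=
  KB_of_check5 9 40000 29 1039775599321 1089110000000 108911 [cd181, cd182] rfl (by decide +kernel) (by decide +kernel)
    (by decide +kernel)
    (List.forall_mem_cons.2 ⟨cd181B, List.forall_mem_cons.2 ⟨cd182B, List.forall_mem_nil _⟩⟩)
    (List.forall_mem_cons.2 ⟨cd181C, List.forall_mem_cons.2 ⟨cd182C, List.forall_mem_nil _⟩⟩)

theorem KB_9_65000_7 : KB 9 65000 7 (120044 / 100000) :=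
  KB_of_check5 9 65000 7 1166742371119 1200440000000 120044 [cd183, cd102] rfl (by decide +kernel) (by decide +kernel)
    (by decide +kernel)
    (List.forall_mem_cons.2 ⟨cd183B, List.forall_mem_cons.2 ⟨cd102B, List.forall_mem_nil _⟩⟩)
    (List.forall_mem_cons.2 ⟨cd183C, List.forall_mem_cons.2 ⟨cd102C, List.forall_mem_nil _⟩⟩)

theorem KB_9_65000_11 : KB 9 65000 11 (121837 / 100000) :=
  KB_of_check5 9 65000 11 1200297120206 1218370000000 121837 [cd166, cd167] rfl (by decide +kernel) (by decide +kernel)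
    (by decide +kernel)
    (List.forall_mem_cons.2 ⟨cd166B, List.forall_mem_cons.2 ⟨cd167B, List.forall_mem_nil _⟩⟩)
    (List.forall_mem_cons.2 ⟨cd166C, List.forall_mem_cons.2 ⟨cd167C, List.forall_mem_nil _⟩⟩)

theorem KB_9_65000_13 : KB 9 65000 13 (119130 / 100000) :=
  KB_of_check5 9 65000 13 1155425332858 1191300000000 119130 [cd168] rfl (by decide +kernel) (by decide +kernel)
    (by decide +kernel)
    (List.forall_mem_cons.2 ⟨cd168B, List.forall_mem_nil _⟩)
    (List.forall_mem_cons.2 ⟨cd168C, List.forall_mem_nil _⟩)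

theorem KB_9_65000_16 : KB 9 65000 16 (110729 / 100000) :=
  KB_of_check5 9 65000 16 1076796198821 1107290000000 110729 [cd169, cd170] rfl (by decide +kernel) (by decide +kernel)
    (by decide +kernel)
    (List.forall_mem_cons.2 ⟨cd169B, List.forall_mem_cons.2 ⟨cd170B, List.forall_mem_nil _⟩⟩)
    (List.forall_mem_cons.2 ⟨cd169C, List.forall_mem_cons.2 ⟨cd170C, List.forall_mem_nil _⟩⟩)

theorem KB_9_65000_17 : KB 9 65000 17 (111452 / 100000) :=
  KB_of_check5 9 65000 17 1085183690520 1114520000000 111452 [cd171, cd172, cd173] rfl (by decide +kernel) (by decide +kernel)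
    (by decide +kernel)
    (List.forall_mem_cons.2 ⟨cd171B, List.forall_mem_cons.2 ⟨cd172B, List.forall_mem_cons.2 ⟨cd173B, List.forall_mem_nil _⟩⟩⟩)
    (List.forall_mem_cons.2 ⟨cd171C, List.forall_mem_cons.2 ⟨cd172C, List.forall_mem_cons.2 ⟨cd173C, List.forall_mem_nil _⟩⟩⟩)

theorem KB_9_65000_19 : KB 9 65000 19 (110035 / 100000) :=
  KB_of_check5 9 65000 19 1058085708152 1100350000000 110035 [cd174, cd175, cd176] rfl (by decide +kernel) (by decide +kernel)
    (by decide +kernel)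
    (List.forall_mem_cons.2 ⟨cd174B, List.forall_mem_cons.2 ⟨cd175B, List.forall_mem_cons.2 ⟨cd176B, List.forall_mem_nil _⟩⟩⟩)
    (List.forall_mem_cons.2 ⟨cd174C, List.forall_mem_cons.2 ⟨cd175C, List.forall_mem_cons.2 ⟨cd176C, List.forall_mem_nil _⟩⟩⟩)

theorem KB_9_65000_23 : KB 9 65000 23 (109861 / 100000) :=
  KB_of_check5 9 65000 23 1055261488264 1098610000000 109861 [cd177, cd178] rfl (by decide +kernel) (by decide +kernel)
    (by decide +kernel)
    (List.forall_mem_cons.2 ⟨cd177B, List.forall_mem_cons.2 ⟨cd178B, List.forall_mem_nil _⟩⟩)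
    (List.forall_mem_cons.2 ⟨cd177C, List.forall_mem_cons.2 ⟨cd178C, List.forall_mem_nil _⟩⟩)

theorem KB_9_65000_25 : KB 9 65000 25 (108945 / 100000) :=
  KB_of_check5 9 65000 25 1039411064460 1089450000000 108945 [cd179, cd180] rfl (by decide +kernel) (by decide +kernel)
    (by decide +kernel)
    (List.forall_mem_cons.2 ⟨cd179B, List.forall_mem_cons.2 ⟨cd180B, List.forall_mem_nil _⟩⟩)
    (List.forall_mem_cons.2 ⟨cd179C, List.forall_mem_cons.2 ⟨cd180C, List.forall_mem_nil _⟩⟩)

theorem KB_9_65000_29 : KB 9 65000 29 (108911 / 100000) :=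
  KB_of_check5 9 65000 29 1039775599321 1089110000000 108911 [cd181, cd182] rfl (by decide +kernel) (by decide +kernel)
    (by decide +kernel)
    (List.forall_mem_cons.2 ⟨cd181B, List.forall_mem_cons.2 ⟨cd182B, List.forall_mem_nil _⟩⟩)
    (List.forall_mem_cons.2 ⟨cd181C, List.forall_mem_cons.2 ⟨cd182C, List.forall_mem_nil _⟩⟩)

/-- The table `(z, x, v, κ)`, `κ` in units of `10^-5`. -/
def kbT : List (ℕ × ℕ × ℕ × ℕ) := [
  (2, 10000, 3, 128665),
  (2, 10000, 5, 118380),
  (2, 10000, 7, 118399),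
  (2, 10000, 9, 110780),
  (2, 10000, 11, 108980),
  (2, 10000, 13, 106763),
  (2, 10000, 17, 106082),
  (2, 10000, 19, 106085),
  (2, 10000, 23, 106099),
  (2, 10000, 25, 106100),
  (2, 10000, 27, 104017),
  (2, 10000, 29, 103771),
  (3, 15000, 4, 129006),
  (3, 15000, 5, 129033),
  (3, 15000, 7, 128987),
  (3, 15000, 8, 110880),
  (3, 15000, 11, 113796),
  (3, 15000, 13, 113768),
  (3, 15000, 16, 106872),
  (3, 15000, 17, 106889),
  (3, 15000, 19, 106866),
  (3, 15000, 23, 106890),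
  (3, 15000, 25, 106874),
  (3, 15000, 29, 106889),
  (3, 30000, 5, 129033),
  (3, 30000, 7, 128987),
  (3, 30000, 8, 110880),
  (3, 30000, 11, 113796),
  (3, 30000, 13, 113768),
  (3, 30000, 16, 106872),
  (3, 30000, 17, 106889),
  (3, 30000, 19, 106866),
  (3, 30000, 23, 106890),
  (3, 30000, 25, 106874),
  (3, 30000, 29, 106889),
  (4, 20000, 3, 129006),
  (4, 20000, 5, 119281),
  (4, 20000, 7, 118894),
  (4, 20000, 9, 111075),
  (4, 20000, 11, 109219),
  (4, 20000, 13, 106951),
  (4, 20000, 17, 106400),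
  (4, 20000, 19, 106298),
  (4, 20000, 23, 106325),
  (4, 20000, 25, 106264),
  (4, 20000, 27, 104148),
  (4, 20000, 29, 103884),
  (5, 35000, 7, 137112),
  (5, 35000, 8, 120089),
  (5, 35000, 9, 115491),
  (5, 35000, 11, 115260),
  (5, 35000, 13, 114542),
  (5, 35000, 16, 107434),
  (5, 35000, 17, 107584),
  (5, 35000, 19, 107325),
  (5, 35000, 23, 107347),
  (5, 35000, 27, 107317),
  (5, 35000, 29, 107240),
  (5, 55000, 7, 116005),
  (5, 55000, 9, 115491),
  (5, 55000, 11, 115260),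
  (5, 55000, 13, 114542),
  (5, 55000, 16, 107434),
  (5, 55000, 17, 107584),
  (5, 55000, 19, 107325),
  (5, 55000, 23, 107347),
  (5, 55000, 27, 107317),
  (5, 55000, 29, 107240),
  (7, 60000, 9, 120044),
  (7, 60000, 11, 119563),
  (7, 60000, 13, 117597),
  (7, 60000, 16, 109552),
  (7, 60000, 17, 110140),
  (7, 60000, 19, 109115),
  (7, 60000, 23, 109091),
  (7, 60000, 25, 108438),
  (7, 60000, 27, 107968),
  (7, 60000, 29, 107791),
  (7, 127500, 11, 110850),
  (7, 127500, 13, 109942),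
  (7, 127500, 17, 110140),
  (7, 127500, 19, 109115),
  (7, 127500, 23, 109091),
  (7, 127500, 25, 108438),
  (7, 127500, 27, 107968),
  (7, 127500, 29, 107791),
  (8, 50000, 5, 122676),
  (8, 50000, 7, 117458),
  (8, 50000, 9, 114139),
  (8, 50000, 11, 112391),
  (8, 50000, 13, 109381),
  (8, 50000, 17, 109430),
  (8, 50000, 19, 108386),
  (8, 50000, 23, 108289),
  (8, 50000, 25, 107623),
  (8, 50000, 27, 105222),
  (8, 50000, 29, 104820),
  (9, 40000, 5, 141838),
  (9, 40000, 7, 138710),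
  (9, 40000, 8, 114139),
  (9, 40000, 11, 121837),
  (9, 40000, 13, 119130),
  (9, 40000, 16, 110729),
  (9, 40000, 17, 111452),
  (9, 40000, 19, 110035),
  (9, 40000, 23, 109861),
  (9, 40000, 25, 108945),
  (9, 40000, 29, 108911),
  (9, 65000, 7, 120044),
  (9, 65000, 11, 121837),
  (9, 65000, 13, 119130),
  (9, 65000, 16, 110729),
  (9, 65000, 17, 111452),
  (9, 65000, 19, 110035),
  (9, 65000, 23, 109861),
  (9, 65000, 25, 108945),
  (9, 65000, 29, 108911)]

theorem kbT_spec : ∀ t ∈ kbT, KB t.1 t.2.1 t.2.2.1 ((t.2.2.2 : ℝ) / 100000) := by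
  unfold kbT
  refine List.forall_mem_cons.2 ⟨by have := KB_2_10000_3; simpa using this, ?_⟩
  refine List.forall_mem_cons.2 ⟨by have := KB_2_10000_5; simpa using this, ?_⟩
  refine List.forall_mem_cons.2 ⟨by have := KB_2_10000_7; simpa using this, ?_⟩
  refine List.forall_mem_cons.2 ⟨by have := KB_2_10000_9; simpa using this, ?_⟩
  refine List.forall_mem_cons.2 ⟨by have := KB_2_10000_11; simpa using this, ?_⟩
  refine List.forall_mem_cons.2 ⟨by have := KB_2_10000_13; simpa using this, ?_⟩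
  refine List.forall_mem_cons.2 ⟨by have := KB_2_10000_17; simpa using this, ?_⟩
  refine List.forall_mem_cons.2 ⟨by have := KB_2_10000_19; simpa using this, ?_⟩
  refine List.forall_mem_cons.2 ⟨by have := KB_2_10000_23; simpa using this, ?_⟩
  refine List.forall_mem_cons.2 ⟨by have := KB_2_10000_25; simpa using this, ?_⟩
  refine List.forall_mem_cons.2 ⟨by have := KB_2_10000_27; simpa using this, ?_⟩
  refine List.forall_mem_cons.2 ⟨by have := KB_2_10000_29; simpa using this, ?_⟩
  refine List.forall_mem_cons.2 ⟨by have := KB_3_15000_4; simpa using this, ?_⟩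
  refine List.forall_mem_cons.2 ⟨by have := KB_3_15000_5; simpa using this, ?_⟩
  refine List.forall_mem_cons.2 ⟨by have := KB_3_15000_7; simpa using this, ?_⟩
  refine List.forall_mem_cons.2 ⟨by have := KB_3_15000_8; simpa using this, ?_⟩
  refine List.forall_mem_cons.2 ⟨by have := KB_3_15000_11; simpa using this, ?_⟩
  refine List.forall_mem_cons.2 ⟨by have := KB_3_15000_13; simpa using this, ?_⟩
  refine List.forall_mem_cons.2 ⟨by have := KB_3_15000_16; simpa using this, ?_⟩
  refine List.forall_mem_cons.2 ⟨by have := KB_3_15000_17; simpa using this, ?_⟩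
  refine List.forall_mem_cons.2 ⟨by have := KB_3_15000_19; simpa using this, ?_⟩
  refine List.forall_mem_cons.2 ⟨by have := KB_3_15000_23; simpa using this, ?_⟩
  refine List.forall_mem_cons.2 ⟨by have := KB_3_15000_25; simpa using this, ?_⟩
  refine List.forall_mem_cons.2 ⟨by have := KB_3_15000_29; simpa using this, ?_⟩
  refine List.forall_mem_cons.2 ⟨by have := KB_3_30000_5; simpa using this, ?_⟩
  refine List.forall_mem_cons.2 ⟨by have := KB_3_30000_7; simpa using this, ?_⟩
  refine List.forall_mem_cons.2 ⟨by have := KB_3_30000_8; simpa using this, ?_⟩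
  refine List.forall_mem_cons.2 ⟨by have := KB_3_30000_11; simpa using this, ?_⟩
  refine List.forall_mem_cons.2 ⟨by have := KB_3_30000_13; simpa using this, ?_⟩
  refine List.forall_mem_cons.2 ⟨by have := KB_3_30000_16; simpa using this, ?_⟩
  refine List.forall_mem_cons.2 ⟨by have := KB_3_30000_17; simpa using this, ?_⟩
  refine List.forall_mem_cons.2 ⟨by have := KB_3_30000_19; simpa using this, ?_⟩
  refine List.forall_mem_cons.2 ⟨by have := KB_3_30000_23; simpa using this, ?_⟩
  refine List.forall_mem_cons.2 ⟨by have := KB_3_30000_25; simpa using this, ?_⟩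
  refine List.forall_mem_cons.2 ⟨by have := KB_3_30000_29; simpa using this, ?_⟩
  refine List.forall_mem_cons.2 ⟨by have := KB_4_20000_3; simpa using this, ?_⟩
  refine List.forall_mem_cons.2 ⟨by have := KB_4_20000_5; simpa using this, ?_⟩
  refine List.forall_mem_cons.2 ⟨by have := KB_4_20000_7; simpa using this, ?_⟩
  refine List.forall_mem_cons.2 ⟨by have := KB_4_20000_9; simpa using this, ?_⟩
  refine List.forall_mem_cons.2 ⟨by have := KB_4_20000_11; simpa using this, ?_⟩
  refine List.forall_mem_cons.2 ⟨by have := KB_4_20000_13; simpa using this, ?_⟩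
  refine List.forall_mem_cons.2 ⟨by have := KB_4_20000_17; simpa using this, ?_⟩
  refine List.forall_mem_cons.2 ⟨by have := KB_4_20000_19; simpa using this, ?_⟩
  refine List.forall_mem_cons.2 ⟨by have := KB_4_20000_23; simpa using this, ?_⟩
  refine List.forall_mem_cons.2 ⟨by have := KB_4_20000_25; simpa using this, ?_⟩
  refine List.forall_mem_cons.2 ⟨by have := KB_4_20000_27; simpa using this, ?_⟩
  refine List.forall_mem_cons.2 ⟨by have := KB_4_20000_29; simpa using this, ?_⟩
  refine List.forall_mem_cons.2 ⟨by have := KB_5_35000_7; simpa using this, ?_⟩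
  refine List.forall_mem_cons.2 ⟨by have := KB_5_35000_8; simpa using this, ?_⟩
  refine List.forall_mem_cons.2 ⟨by have := KB_5_35000_9; simpa using this, ?_⟩
  refine List.forall_mem_cons.2 ⟨by have := KB_5_35000_11; simpa using this, ?_⟩
  refine List.forall_mem_cons.2 ⟨by have := KB_5_35000_13; simpa using this, ?_⟩
  refine List.forall_mem_cons.2 ⟨by have := KB_5_35000_16; simpa using this, ?_⟩
  refine List.forall_mem_cons.2 ⟨by have := KB_5_35000_17; simpa using this, ?_⟩
  refine List.forall_mem_cons.2 ⟨by have := KB_5_35000_19; simpa using this, ?_⟩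
  refine List.forall_mem_cons.2 ⟨by have := KB_5_35000_23; simpa using this, ?_⟩
  refine List.forall_mem_cons.2 ⟨by have := KB_5_35000_27; simpa using this, ?_⟩
  refine List.forall_mem_cons.2 ⟨by have := KB_5_35000_29; simpa using this, ?_⟩
  refine List.forall_mem_cons.2 ⟨by have := KB_5_55000_7; simpa using this, ?_⟩
  refine List.forall_mem_cons.2 ⟨by have := KB_5_55000_9; simpa using this, ?_⟩
  refine List.forall_mem_cons.2 ⟨by have := KB_5_55000_11; simpa using this, ?_⟩
  refine List.forall_mem_cons.2 ⟨by have := KB_5_55000_13; simpa using this, ?_⟩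
  refine List.forall_mem_cons.2 ⟨by have := KB_5_55000_16; simpa using this, ?_⟩
  refine List.forall_mem_cons.2 ⟨by have := KB_5_55000_17; simpa using this, ?_⟩
  refine List.forall_mem_cons.2 ⟨by have := KB_5_55000_19; simpa using this, ?_⟩
  refine List.forall_mem_cons.2 ⟨by have := KB_5_55000_23; simpa using this, ?_⟩
  refine List.forall_mem_cons.2 ⟨by have := KB_5_55000_27; simpa using this, ?_⟩
  refine List.forall_mem_cons.2 ⟨by have := KB_5_55000_29; simpa using this, ?_⟩
  refine List.forall_mem_cons.2 ⟨by have := KB_7_60000_9; simpa using this, ?_⟩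
  refine List.forall_mem_cons.2 ⟨by have := KB_7_60000_11; simpa using this, ?_⟩
  refine List.forall_mem_cons.2 ⟨by have := KB_7_60000_13; simpa using this, ?_⟩
  refine List.forall_mem_cons.2 ⟨by have := KB_7_60000_16; simpa using this, ?_⟩
  refine List.forall_mem_cons.2 ⟨by have := KB_7_60000_17; simpa using this, ?_⟩
  refine List.forall_mem_cons.2 ⟨by have := KB_7_60000_19; simpa using this, ?_⟩
  refine List.forall_mem_cons.2 ⟨by have := KB_7_60000_23; simpa using this, ?_⟩
  refine List.forall_mem_cons.2 ⟨by have := KB_7_60000_25; simpa using this, ?_⟩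
  refine List.forall_mem_cons.2 ⟨by have := KB_7_60000_27; simpa using this, ?_⟩
  refine List.forall_mem_cons.2 ⟨by have := KB_7_60000_29; simpa using this, ?_⟩
  refine List.forall_mem_cons.2 ⟨by have := KB_7_127500_11; simpa using this, ?_⟩
  refine List.forall_mem_cons.2 ⟨by have := KB_7_127500_13; simpa using this, ?_⟩
  refine List.forall_mem_cons.2 ⟨by have := KB_7_127500_17; simpa using this, ?_⟩
  refine List.forall_mem_cons.2 ⟨by have := KB_7_127500_19; simpa using this, ?_⟩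
  refine List.forall_mem_cons.2 ⟨by have := KB_7_127500_23; simpa using this, ?_⟩
  refine List.forall_mem_cons.2 ⟨by have := KB_7_127500_25; simpa using this, ?_⟩
  refine List.forall_mem_cons.2 ⟨by have := KB_7_127500_27; simpa using this, ?_⟩
  refine List.forall_mem_cons.2 ⟨by have := KB_7_127500_29; simpa using this, ?_⟩
  refine List.forall_mem_cons.2 ⟨by have := KB_8_50000_5; simpa using this, ?_⟩
  refine List.forall_mem_cons.2 ⟨by have := KB_8_50000_7; simpa using this, ?_⟩
  refine List.forall_mem_cons.2 ⟨by have := KB_8_50000_9; simpa using this, ?_⟩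
  refine List.forall_mem_cons.2 ⟨by have := KB_8_50000_11; simpa using this, ?_⟩
  refine List.forall_mem_cons.2 ⟨by have := KB_8_50000_13; simpa using this, ?_⟩
  refine List.forall_mem_cons.2 ⟨by have := KB_8_50000_17; simpa using this, ?_⟩
  refine List.forall_mem_cons.2 ⟨by have := KB_8_50000_19; simpa using this, ?_⟩
  refine List.forall_mem_cons.2 ⟨by have := KB_8_50000_23; simpa using this, ?_⟩
  refine List.forall_mem_cons.2 ⟨by have := KB_8_50000_25; simpa using this, ?_⟩
  refine List.forall_mem_cons.2 ⟨by have := KB_8_50000_27; simpa using this, ?_⟩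
  refine List.forall_mem_cons.2 ⟨by have := KB_8_50000_29; simpa using this, ?_⟩
  refine List.forall_mem_cons.2 ⟨by have := KB_9_40000_5; simpa using this, ?_⟩
  refine List.forall_mem_cons.2 ⟨by have := KB_9_40000_7; simpa using this, ?_⟩
  refine List.forall_mem_cons.2 ⟨by have := KB_9_40000_8; simpa using this, ?_⟩
  refine List.forall_mem_cons.2 ⟨by have := KB_9_40000_11; simpa using this, ?_⟩
  refine List.forall_mem_cons.2 ⟨by have := KB_9_40000_13; simpa using this, ?_⟩
  refine List.forall_mem_cons.2 ⟨by have := KB_9_40000_16; simpa using this, ?_⟩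
  refine List.forall_mem_cons.2 ⟨by have := KB_9_40000_17; simpa using this, ?_⟩
  refine List.forall_mem_cons.2 ⟨by have := KB_9_40000_19; simpa using this, ?_⟩
  refine List.forall_mem_cons.2 ⟨by have := KB_9_40000_23; simpa using this, ?_⟩
  refine List.forall_mem_cons.2 ⟨by have := KB_9_40000_25; simpa using this, ?_⟩
  refine List.forall_mem_cons.2 ⟨by have := KB_9_40000_29; simpa using this, ?_⟩
  refine List.forall_mem_cons.2 ⟨by have := KB_9_65000_7; simpa using this, ?_⟩
  refine List.forall_mem_cons.2 ⟨by have := KB_9_65000_11; simpa using this, ?_⟩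
  refine List.forall_mem_cons.2 ⟨by have := KB_9_65000_13; simpa using this, ?_⟩
  refine List.forall_mem_cons.2 ⟨by have := KB_9_65000_16; simpa using this, ?_⟩
  refine List.forall_mem_cons.2 ⟨by have := KB_9_65000_17; simpa using this, ?_⟩
  refine List.forall_mem_cons.2 ⟨by have := KB_9_65000_19; simpa using this, ?_⟩
  refine List.forall_mem_cons.2 ⟨by have := KB_9_65000_23; simpa using this, ?_⟩
  refine List.forall_mem_cons.2 ⟨by have := KB_9_65000_25; simpa using this, ?_⟩
  refine List.forall_mem_cons.2 ⟨by have := KB_9_65000_29; simpa using this, ?_⟩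
  exact List.forall_mem_nil _

end Pool.Agent.EZ
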