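import Pool.Agent.EZ.GridFix

/-!
# The kernel loop over the grid (helper46)
-/

set_option autoImplicit false

namespace Pool.Agent.EZ

open Finset

noncomputable section

/-- An entry: value `v`, killed weight and `xi` weight (in `10^-4`). -/
abbrev GE := ℕ × ℕ × ℕ

/-- killed sum -/
def KLs (bs : List GE) (b : ℝ) : ℝ :=
  (bs.map fun e => ((e.2.1 : ℕ) : ℝ) / 10000 * ((e.1 : ℕ) : ℝ) ^ (-(1 + b))).sum

/-- `xi` sum -/
def XLs (bs : List GE) (b : ℝ) : ℝ :=
  (bs.map fun e => ((e.2.2 : ℕ) : ℝ) / 10000 * ((e.1 : ℕ) : ℝ) ^ (-(1 + b))).sum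

/-- lower bounds for a list -/
def HL (bs : List GE) (ls : List ℕ) (a : ℝ) : Prop :=
  List.Forall₂ (fun (e : GE) (l : ℕ) => 0 < e.1 ∧ Lo (((e.1 : ℕ) : ℝ) ^ (-a)) l) bs ls

/-- One step for the list. -/
def stepL (bs : List GE) : List ℕ → List ℕ → (ℕ → ℕ → List ℕ → Bool) → Bool :=
  List.rec (motive := fun _ => List ℕ → List ℕ → (ℕ → ℕ → List ℕ → Bool) → Bool)
    (fun _ _ k => k 0 0 [])
    (fun e _ ih ks ls k => List.rec (motive := fun _ => Bool) false
      (fun c ks' _ => List.rec (motive := fun _ => Bool) false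
        (fun l ls' _ => frc (ml l c) fun l' => ih ks' ls' fun sk sx ls2 =>
          frc (Nat.add sk (Nat.div (Nat.mul e.2.1 l') (Nat.mul e.1 10000))) fun sk' =>
          frc (Nat.add sx (Nat.div (Nat.mul e.2.2 l') (Nat.mul e.1 10000))) fun sx' =>
          k sk' sx' (l' :: ls2)) ls) ks) bs

theorem term_lo {v w l : ℕ} {b : ℝ} (hv : 0 < v) (h : Lo ((v : ℝ) ^ (-b)) l) :
    Lo ((w : ℝ) / 10000 * (v : ℝ) ^ (-(1 + b))) (Nat.div (Nat.mul w l) (Nat.mul v 10000)) := by
  have hv' : (0 : ℝ) < v := by exact_mod_cast hv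
  have h1 := cast_div_le' (Nat.mul w l) (Nat.mul v 10000)
  unfold Lo at *
  refine h1.trans ?_
  have e1 : ((Nat.mul w l : ℕ) : ℝ) = (w : ℝ) * l := by
    change ((w * l : ℕ) : ℝ) = _
    push_cast; ring
  have e2 : ((Nat.mul v 10000 : ℕ) : ℝ) = (v : ℝ) * 10000 := by
    change ((v * 10000 : ℕ) : ℝ) = _
    push_cast; ring
  rw [e1, e2, rpow_split _ _ hv', div_le_iff₀ (by positivity)]
  have h2 : (w : ℝ) * l ≤ w * ((v : ℝ) ^ (-b) * 1000000000000) :=
    mul_le_mul_of_nonneg_left h (Nat.cast_nonneg w)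
  refine h2.trans (le_of_eq ?_)
  field_simp

theorem stepL_spec (a δ : ℝ) : ∀ (bs : List GE) (ks ls : List ℕ) (k : ℕ → ℕ → List ℕ → Bool),
    HL bs ks δ → HL bs ls a → stepL bs ks ls k = true →
    ∃ sk sx ls', k sk sx ls' = true ∧ Lo (KLs bs (a + δ)) sk ∧ Lo (XLs bs (a + δ)) sx
      ∧ HL bs ls' (a + δ) := by
  intro bs
  induction bs with
  | nil =>
    intro ks ls k _ _ h3
    refine ⟨0, 0, [], h3, ?_, ?_, ?_⟩
    · unfold Lo KLs; simp
    · unfold Lo XLs; simp
    · exact List.Forall₂.nil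
  | cons e bs ih =>
    intro ks ls k h1 h2 h3
    rcases h1 with _ | ⟨⟨hv, hc⟩, h1'⟩
    rcases h2 with _ | ⟨⟨-, hl⟩, h2'⟩
    rename_i c ks' l ls'
    have e0 : stepL (e :: bs) (c :: ks') (l :: ls') k = frc (ml l c) fun l' =>
        stepL bs ks' ls' fun sk sx ls2 =>
          frc (Nat.add sk (Nat.div (Nat.mul e.2.1 l') (Nat.mul e.1 10000))) fun sk' =>
          frc (Nat.add sx (Nat.div (Nat.mul e.2.2 l') (Nat.mul e.1 10000))) fun sx' =>
          k sk' sx' (l' :: ls2) := rfl
    rw [e0] at h3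
    simp only [frc_eq] at h3
    have hv' : (0 : ℝ) < (e.1 : ℝ) := by exact_mod_cast hv
    have hnew : Lo (((e.1 : ℕ) : ℝ) ^ (-(a + δ))) (ml l c) := by
      have h4 := Lo.mul (by positivity) hl hc
      rw [← Real.rpow_add hv'] at h4
      have : -a + -δ = -(a + δ) := by ring
      rwa [this] at h4
    obtain ⟨sk, sx, ls2, k1, k2, k3, k4⟩ := ih ks' ls' _ h1' h2' h3
    refine ⟨_, _, _, k1, ?_, ?_, ?_⟩
    · have e1 : KLs (e :: bs) (a + δ) = KLs bs (a + δ)
        + ((e.2.1 : ℕ) : ℝ) / 10000 * ((e.1 : ℕ) : ℝ) ^ (-(1 + (a + δ))) := by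
        unfold KLs
        rw [List.map_cons, List.sum_cons]; ring
      rw [e1]
      exact Lo.add k2 (term_lo hv hnew)
    · have e1 : XLs (e :: bs) (a + δ) = XLs bs (a + δ)
        + ((e.2.2 : ℕ) : ℝ) / 10000 * ((e.1 : ℕ) : ℝ) ^ (-(1 + (a + δ))) := by
        unfold XLs
        rw [List.map_cons, List.sum_cons]; ring
      rw [e1]
      exact Lo.add k3 (term_lo hv hnew)
    · exact List.Forall₂.cons ⟨hv, hnew⟩ k4

/-- The loop. Index `i`: cell `[i/m, (i+1)/m]`. -/
def gloop (bs : List GE) (ks : List ℕ) (cu d2 d3 d5 d7 d25 m LN W K kap : ℕ) (fuel : ℕ) :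
    ℕ → ℕ → ℕ → ℕ → ℕ → ℕ → ℕ → List ℕ → Bool :=
  Nat.rec (motive := fun _ => ℕ → ℕ → ℕ → ℕ → ℕ → ℕ → ℕ → List ℕ → Bool)
    (fun _ _ _ _ _ _ _ _ => true)
    (fun _ ih i U2 U3 U5 U7 U25 na ls =>
      stepL bs ks ls fun sk sx ls' =>
      frc (ml na cu) fun nb =>
      frc (du U2 2) fun x2 =>
      frc (du U3 3) fun x3 =>
      frc (du U5 5) fun x5 =>
      frc (du U7 7) fun x7 =>
      dfuK x2 fun f2 => dfuK x3 fun f3 => dfuK x5 fun f5 => dfuK x7 fun f7 =>
      frc (Nat.add (Nat.add (Nat.add f2 f3) (Nat.add f5 f7))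
        (Nat.succ (Nat.div (Nat.mul 1675 (mu U7 U7)) 100000))) fun D =>
      exnK (Nat.sub (Nat.add 1000000000000 sk) D) fun E =>
      frc (cond (Nat.beq i 0) LN
        (Nat.succ (Nat.div (Nat.mul (Nat.sub 1000000000000 na) m) i))) fun Q =>
      frc (mu (Nat.add (mu (Nat.add 1000000000000 x2) (Nat.sub 1000000000000 nb)) (mu U25 Q)) E)
        fun G0 =>
      frc (mu G0 2718281828600) fun G =>
      frc (Nat.sub W sx) fun X =>
      exnK (Nat.sub 1000000000000 X) fun E2 =>
      frc (mu E2 2718281828600) fun EX =>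
      cond (Nat.ble x2 999999999999) (cond (Nat.ble x3 999999999999)
      (cond (Nat.ble x5 999999999999) (cond (Nat.ble x7 999999999999)
      (cond (Nat.ble D 1000000000000) (cond (Nat.ble X 1000000000000)
      (cond (Nat.ble G K) (cond (Nat.ble (Nat.add G (mu K (Nat.sub EX 1000000000000))) kap)
      (frc (Nat.succ i) fun i' => frc (mu U2 d2) fun U2' => frc (mu U3 d3) fun U3' =>
        frc (mu U5 d5) fun U5' => frc (mu U7 d7) fun U7' => frc (mu U25 d25) fun U25' =>
        ih i' U2' U3' U5' U7' U25' nb ls')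
      false) false) false) false) false) false) false) false) fuel

theorem cond_eq_true {a b : Bool} (h : cond a b false = true) : a = true ∧ b = true :=
  (cond_false_iff a b).1 h

theorem exp_one_up : Up (Real.exp 1) 2718281828600 := by
  unfold Up
  have := Real.exp_one_lt_d9
  push_cast
  linarith

/-- upper bound of `exp` for arguments `≤ 1` -/
theorem exp_up {x : ℝ} {X : ℕ} (h : Up x X) (hX : X ≤ 1000000000000) :
    Up (Real.exp x) (mu (exn (Nat.sub 1000000000000 X)) 2718281828600) := by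
  have h1 : Lo (1 - x) (Nat.sub 1000000000000 X) := Lo.sub Lo.one h hX
  have h2 := Up.mul (Real.exp_pos _).le (Real.exp_pos _).le (exn_up h1) exp_one_up
  rw [← Real.exp_add] at h2
  have e : -(1 - x) + 1 = x := by ring
  rwa [e] at h2

/-- the property at `s` -/
def PP (g ξ : ℝ → ℝ) (K kap : ℕ) (s : ℝ) : Prop :=
  g s ≤ (K : ℝ) / 1000000000000 ∧
    g s + (K : ℝ) / 1000000000000 * (Real.exp (ξ s) - 1) ≤ (kap : ℝ) / 1000000000000

/-- state -/
structure St (bs : List GE) (u : ℝ) (a : ℝ) (U2 U3 U5 U7 U25 na : ℕ) (ls : List ℕ) : Prop where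
  h2 : Up ((2 : ℝ) ^ (-a)) U2
  h3 : Up ((3 : ℝ) ^ (-a)) U3
  h5 : Up ((5 : ℝ) ^ (-a)) U5
  h7 : Up ((7 : ℝ) ^ (-a)) U7
  h25 : Up ((5 / 2 : ℝ) ^ (-a)) U25
  hn : Lo (u ^ (-a)) na
  hl : HL bs ls a

theorem x_up {q : ℝ} {a : ℝ} {U : ℕ} (n : ℕ) (hn : 0 < n) (hq : q = n) (h : Up (q ^ (-a)) U) :
    Up (q ^ (-(1 + a))) (du U n) := by
  have hq0 : 0 < q := by rw [hq]; exact_mod_cast hn
  have := Up.div n hn h
  rw [rpow_split _ _ hq0]
  rw [← hq] at this
  refine Up.mono this (le_of_eq ?_)
  ring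

theorem dd_up {a : ℝ} {x2 x3 x5 x7 U7 : ℕ}
    (h2 : Up ((2 : ℝ) ^ (-(1 + a))) x2) (h3 : Up ((3 : ℝ) ^ (-(1 + a))) x3)
    (h5 : Up ((5 : ℝ) ^ (-(1 + a))) x5) (h7 : Up ((7 : ℝ) ^ (-(1 + a))) x7)
    (hU : Up ((7 : ℝ) ^ (-a)) U7)
    (l2 : x2 < 1000000000000) (l3 : x3 < 1000000000000) (l5 : x5 < 1000000000000)
    (l7 : x7 < 1000000000000) :
    Up (dd a) (Nat.add (Nat.add (Nat.add (dfu x2) (dfu x3)) (Nat.add (dfu x5) (dfu x7)))
        (Nat.succ (Nat.div (Nat.mul 1675 (mu U7 U7)) 100000))) := by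
  have e : ∑ q ∈ sp4, dfn ((q : ℝ) ^ (-(1 + a))) = (dfn ((2 : ℝ) ^ (-(1 + a)))
      + dfn ((3 : ℝ) ^ (-(1 + a)))) + (dfn ((5 : ℝ) ^ (-(1 + a))) + dfn ((7 : ℝ) ^ (-(1 + a)))) := by
    unfold sp4
    rw [Finset.sum_insert (by decide), Finset.sum_insert (by decide), Finset.sum_insert (by decide),
      Finset.sum_singleton]
    push_cast
    ring
  unfold dd
  rw [e]
  apply Up.add
  · apply Up.add
    · apply Up.add
      · exact dfu_up (by positivity) h2 l2
      · exact dfu_up (by positivity) h3 l3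
    · apply Up.add
      · exact dfu_up (by positivity) h5 l5
      · exact dfu_up (by positivity) h7 l7
  · have h8 : Up ((7 : ℝ) ^ (-a) * (7 : ℝ) ^ (-a)) (mu U7 U7) :=
      Up.mul (by positivity) (by positivity) hU hU
    have h9 := cast_div_ge (Nat.mul 1675 (mu U7 U7)) 100000 (by norm_num)
    unfold Up at h8 ⊢
    refine le_trans ?_ h9
    have e1 : ((Nat.mul 1675 (mu U7 U7) : ℕ) : ℝ) = 1675 * ((mu U7 U7 : ℕ) : ℝ) := by
      change ((1675 * mu U7 U7 : ℕ) : ℝ) = _
      push_cast; ring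
    rw [e1]
    push_cast
    rw [le_div_iff₀ (by norm_num)]
    nlinarith

/-- Everything that is assumed about the family. -/
structure GFam (bs : List GE) (u : ℝ) (g : ℝ → ℝ) : Prop where
  g0 : g 0 = 0
  gnn : ∀ s, 0 ≤ s → 0 ≤ g s
  cell : ∀ a b s Q : ℝ, 0 < s → 0 ≤ a → a ≤ s → s ≤ b → (1 - u ^ (-s)) / s ≤ Q →
    g s ≤ ((1 + (2 : ℝ) ^ (-(1 + a))) * (1 - u ^ (-b)) + (5 / 2 : ℝ) ^ (-a) * Q)
      * Real.exp (dd a - KLs bs b)
  far : ∀ a s : ℝ, 0 < a → a ≤ s → g s ≤ Zt a * Real.exp (dd a)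

theorem XLs_anti (bs : List GE) {s b : ℝ} (hbs : ∀ e ∈ bs, 0 < e.1) (h : s ≤ b) :
    XLs bs b ≤ XLs bs s := by
  unfold XLs
  apply List.sum_le_sum
  intro e he
  apply mul_le_mul_of_nonneg_left _ (by positivity)
  apply rpow_neg_anti _ h
  have := hbs e he
  exact_mod_cast this

theorem HL_pos {bs : List GE} {ls : List ℕ} {a : ℝ} (h : HL bs ls a) : ∀ e ∈ bs, 0 < e.1 := by
  unfold HL at h
  induction h with
  | nil => intro e he; simp at he
  | cons hab _ ih =>
    intro e he
    rcases List.mem_cons.1 he with h | h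
    · rw [h]; exact hab.1
    · exact ih e h

theorem gloop_sound (bs : List GE) (ks : List ℕ) (u : ℝ) (cu d2 d3 d5 d7 d25 m LN W K kap : ℕ)
    (hm : 0 < m) (hu : 1 < u) (g : ℝ → ℝ) (hF : GFam bs u g)
    (hks : HL bs ks (1 / m)) (hcu : Lo (u ^ (-(1 / (m : ℝ)))) cu)
    (hd2 : Up ((2 : ℝ) ^ (-(1 / (m : ℝ)))) d2) (hd3 : Up ((3 : ℝ) ^ (-(1 / (m : ℝ)))) d3)
    (hd5 : Up ((5 : ℝ) ^ (-(1 / (m : ℝ)))) d5) (hd7 : Up ((7 : ℝ) ^ (-(1 / (m : ℝ)))) d7)
    (hd25 : Up ((5 / 2 : ℝ) ^ (-(1 / (m : ℝ)))) d25) (hLN : Up (Real.log u) LN) :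
    ∀ fuel i U2 U3 U5 U7 U25 na ls, St bs u ((i : ℕ) / (m : ℝ)) U2 U3 U5 U7 U25 na ls →
      gloop bs ks cu d2 d3 d5 d7 d25 m LN W K kap fuel i U2 U3 U5 U7 U25 na ls = true →
      ∀ s : ℝ, (i : ℝ) / m ≤ s → s < ((i + fuel : ℕ) : ℝ) / m →
        PP g (fun s => (W : ℝ) / 1000000000000 - XLs bs s) K kap s := by
  have hm' : (0 : ℝ) < m := by exact_mod_cast hm
  intro fuel
  induction fuel with
  | zero =>
    intro i U2 U3 U5 U7 U25 na ls _ _ s h1 h2
    rw [add_zero] at h2
    exact absurd h1 (not_le.2 h2)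
  | succ fuel ih =>
    intro i U2 U3 U5 U7 U25 na ls hst hloop s hs1 hs2
    set a : ℝ := (i : ℝ) / m with ha
    have ha0 : 0 ≤ a := by positivity
    set b : ℝ := a + 1 / m with hb
    have e0 : gloop bs ks cu d2 d3 d5 d7 d25 m LN W K kap (fuel + 1) i U2 U3 U5 U7 U25 na ls =
      stepL bs ks ls fun sk sx ls' =>
      frc (ml na cu) fun nb =>
      frc (du U2 2) fun x2 =>
      frc (du U3 3) fun x3 =>
      frc (du U5 5) fun x5 =>
      frc (du U7 7) fun x7 =>
      dfuK x2 fun f2 => dfuK x3 fun f3 => dfuK x5 fun f5 => dfuK x7 fun f7 =>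
      frc (Nat.add (Nat.add (Nat.add f2 f3) (Nat.add f5 f7))
        (Nat.succ (Nat.div (Nat.mul 1675 (mu U7 U7)) 100000))) fun D =>
      exnK (Nat.sub (Nat.add 1000000000000 sk) D) fun E =>
      frc (cond (Nat.beq i 0) LN
        (Nat.succ (Nat.div (Nat.mul (Nat.sub 1000000000000 na) m) i))) fun Q =>
      frc (mu (Nat.add (mu (Nat.add 1000000000000 x2) (Nat.sub 1000000000000 nb)) (mu U25 Q)) E)
        fun G0 =>
      frc (mu G0 2718281828600) fun G =>
      frc (Nat.sub W sx) fun X =>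
      exnK (Nat.sub 1000000000000 X) fun E2 =>
      frc (mu E2 2718281828600) fun EX =>
      cond (Nat.ble x2 999999999999) (cond (Nat.ble x3 999999999999)
      (cond (Nat.ble x5 999999999999) (cond (Nat.ble x7 999999999999)
      (cond (Nat.ble D 1000000000000) (cond (Nat.ble X 1000000000000)
      (cond (Nat.ble G K) (cond (Nat.ble (Nat.add G (mu K (Nat.sub EX 1000000000000))) kap)
      (frc (Nat.succ i) fun i' => frc (mu U2 d2) fun U2' => frc (mu U3 d3) fun U3' =>
        frc (mu U5 d5) fun U5' => frc (mu U7 d7) fun U7' => frc (mu U25 d25) fun U25' =>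
        gloop bs ks cu d2 d3 d5 d7 d25 m LN W K kap fuel i' U2' U3' U5' U7' U25' nb ls')
      false) false) false) false) false) false) false) false := rfl
    rw [e0] at hloop
    obtain ⟨sk, sx, ls', h1, hsk, hsx, hls'⟩ := stepL_spec a (1 / m) bs ks ls _ hks hst.hl hloop
    simp only [frc_eq, dfuK_eq, exnK_eq] at h1
    set D := Nat.add (Nat.add (Nat.add (dfu (du U2 2)) (dfu (du U3 3)))
      (Nat.add (dfu (du U5 5)) (dfu (du U7 7))))
        (Nat.succ (Nat.div (Nat.mul 1675 (mu U7 U7)) 100000)) with hD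
    set Q := cond (Nat.beq i 0) LN
        (Nat.succ (Nat.div (Nat.mul (Nat.sub 1000000000000 na) m) i)) with hQ
    set nb := ml na cu with hnb
    set E := exn (Nat.sub (Nat.add 1000000000000 sk) D) with hE
    set G := mu (mu (Nat.add (mu (Nat.add 1000000000000 (du U2 2)) (Nat.sub 1000000000000 nb))
      (mu U25 Q)) E) 2718281828600 with hG
    set EX := mu (exn (Nat.sub 1000000000000 (Nat.sub W sx))) 2718281828600 with hEX
    obtain ⟨t1, h1⟩ := cond_eq_true h1
    obtain ⟨t2, h1⟩ := cond_eq_true h1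
    obtain ⟨t3, h1⟩ := cond_eq_true h1
    obtain ⟨t4, h1⟩ := cond_eq_true h1
    obtain ⟨t5, h1⟩ := cond_eq_true h1
    obtain ⟨t6, h1⟩ := cond_eq_true h1
    obtain ⟨t7, h1⟩ := cond_eq_true h1
    obtain ⟨t8, h1⟩ := cond_eq_true h1
    rw [Nat.ble_eq] at t1 t2 t3 t4 t5 t6 t7 t8
    -- next state
    have hnext : St bs u b (mu U2 d2) (mu U3 d3) (mu U5 d5) (mu U7 d7) (mu U25 d25) nb ls' := by
      have key : ∀ (q : ℝ) (U d : ℕ), 0 < q → Up (q ^ (-a)) U → Up (q ^ (-(1 / (m : ℝ)))) d →
          Up (q ^ (-b)) (mu U d) := by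
        intro q U d hq h1 h2
        have h3 := Up.mul (by positivity) (by positivity) h1 h2
        rw [← Real.rpow_add hq] at h3
        have : -a + -(1 / (m : ℝ)) = -b := by rw [hb]; ring
        rwa [this] at h3
      refine ⟨key 2 _ _ (by norm_num) hst.h2 hd2, key 3 _ _ (by norm_num) hst.h3 hd3,
        key 5 _ _ (by norm_num) hst.h5 hd5, key 7 _ _ (by norm_num) hst.h7 hd7,
        key (5 / 2) _ _ (by norm_num) hst.h25 hd25, ?_, hls'⟩
      have hu0 : 0 < u := by linarith
      have h3 := Lo.mul (by positivity) hst.hn hcu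
      rw [← Real.rpow_add hu0] at h3
      have : -a + -(1 / (m : ℝ)) = -b := by rw [hb]; ring
      rwa [this] at h3
    have hbi : b = ((i + 1 : ℕ) : ℝ) / m := by
      rw [hb, ha]; push_cast; ring
    rcases lt_or_ge s b with hsb | hsb
    swap
    · -- later cells
      rw [hbi] at hnext hsb
      apply ih (i + 1) _ _ _ _ _ _ _ hnext h1 s hsb
      have : i + 1 + fuel = i + (fuel + 1) := by ring
      rw [this]
      exact hs2
    · -- this cell
      have hgG : ∀ s, 0 < s → a ≤ s → s ≤ b → Up (g s) G := by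
        intro s hs0 has hsb
        have hq : (1 - u ^ (-s)) / s ≤ (Q : ℝ) / 1000000000000 := by
          rw [le_div_iff₀ (by norm_num)]
          rcases Nat.eq_zero_or_pos i with h0 | h0
          · have : Q = LN := by
              rw [hQ, h0]; rfl
            rw [this]
            have h2 := Q_zero hu hs0
            unfold Up at hLN
            nlinarith
          · have hbeq : Nat.beq i 0 = false := by
              cases hh : Nat.beq i 0 with
              | false => rfl
              | true => exact absurd (Nat.eq_of_beq_eq_true hh) (by omega)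
            have hQ2 : Q = Nat.succ (Nat.div (Nat.mul (Nat.sub 1000000000000 na) m) i) := by
              rw [hQ, hbeq]; rfl
            have hi : (0 : ℝ) < i := by exact_mod_cast h0
            have ha1 : 0 < a := by rw [ha]; positivity
            have h2 := Q_anti hu ha1 has
            have h3 := cast_div_ge (Nat.mul (Nat.sub 1000000000000 na) m) i h0
            rw [← hQ2] at h3
            have h4 : Up (1 - u ^ (-a)) (Nat.sub 1000000000000 na) := Up.sub Up.one hst.hn
            unfold Up at h4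
            have e1 : ((Nat.mul (Nat.sub 1000000000000 na) m : ℕ) : ℝ)
                = ((Nat.sub 1000000000000 na : ℕ) : ℝ) * m := by
              change ((Nat.sub 1000000000000 na * m : ℕ) : ℝ) = _
              push_cast; ring
            rw [e1] at h3
            refine le_trans ?_ h3
            have h5 : (1 - u ^ (-s)) / s * 1000000000000 ≤ (1 - u ^ (-a)) / a * 1000000000000 :=
              mul_le_mul_of_nonneg_right h2 (by norm_num)
            refine h5.trans ?_
            have h6 : (1 - u ^ (-a)) / a * 1000000000000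
                = ((1 - u ^ (-a)) * 1000000000000) * m / i := by
              rw [ha]; field_simp
            rw [h6]
            apply div_le_div_of_nonneg_right _ hi.le
            exact mul_le_mul_of_nonneg_right h4 hm'.le
        have hcell := hF.cell a b s ((Q : ℝ) / 1000000000000) hs0 ha0 has hsb hq
        refine Up.mono ?_ hcell
        have hu0 : 0 < u := by linarith
        have q1 : Up ((2 : ℝ) ^ (-(1 + a))) (du U2 2) := x_up 2 (by norm_num) (by norm_num) hst.h2
        have q3 : Up ((3 : ℝ) ^ (-(1 + a))) (du U3 3) := x_up 3 (by norm_num) (by norm_num) hst.h3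
        have q5 : Up ((5 : ℝ) ^ (-(1 + a))) (du U5 5) := x_up 5 (by norm_num) (by norm_num) hst.h5
        have q7 : Up ((7 : ℝ) ^ (-(1 + a))) (du U7 7) := x_up 7 (by norm_num) (by norm_num) hst.h7
        have qD := dd_up q1 q3 q5 q7 hst.h7 (by omega) (by omega) (by omega) (by omega)
        rw [← hD] at qD
        have qE : Up (Real.exp (-(1 + KLs bs b - dd a))) E := by
          rw [hE]
          apply exn_up
          apply Lo.sub (Lo.add Lo.one hsk) qD
          change D ≤ 1000000000000 + sk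
          omega
        have qQ : Up ((Q : ℝ) / 1000000000000) Q := by
          unfold Up
          apply le_of_eq
          field_simp
        have hub : u ^ (-b) ≤ 1 := Real.rpow_le_one_of_one_le_of_nonpos hu.le (by
          have : 0 ≤ b := by rw [hb]; positivity
          linarith)
        have r1 : Up ((1 + (2 : ℝ) ^ (-(1 + a))) * (1 - u ^ (-b)))
            (mu (Nat.add 1000000000000 (du U2 2)) (Nat.sub 1000000000000 nb)) :=
          Up.mul (by positivity) (by linarith) (Up.add Up.one q1) (Up.sub Up.one hnext.hn)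
        have r2 : Up ((5 / 2 : ℝ) ^ (-a) * ((Q : ℝ) / 1000000000000)) (mu U25 Q) :=
          Up.mul (by positivity) (by positivity) hst.h25 qQ
        have r3 := Up.add r1 r2
        have hnn : 0 ≤ (1 + (2 : ℝ) ^ (-(1 + a))) * (1 - u ^ (-b))
            + (5 / 2 : ℝ) ^ (-a) * ((Q : ℝ) / 1000000000000) := by
          have : 0 ≤ 1 - u ^ (-b) := by linarith
          positivity
        have r4 := Up.mul hnn (Real.exp_pos _).le r3 qE
        have r5 := Up.mul (mul_nonneg hnn (Real.exp_pos _).le) (Real.exp_pos 1).le r4 exp_one_up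
        rw [mul_assoc, ← Real.exp_add] at r5
        have e2 : -(1 + KLs bs b - dd a) + 1 = dd a - KLs bs b := by ring
        rw [e2] at r5
        exact r5
      have hX : Up ((W : ℝ) / 1000000000000 - XLs bs b) (Nat.sub W sx) := by
        apply Up.sub _ hsx
        unfold Up
        apply le_of_eq
        field_simp
      have hEXu := exp_up hX t6
      rw [← hEX] at hEXu
      have hpos : ∀ e ∈ bs, 0 < e.1 := HL_pos hst.hl
      have hξ : Real.exp ((W : ℝ) / 1000000000000 - XLs bs s) ≤ (EX : ℝ) / 1000000000000 := by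
        have h2 := XLs_anti bs hpos hsb.le
        have h3 : Real.exp ((W : ℝ) / 1000000000000 - XLs bs s)
            ≤ Real.exp ((W : ℝ) / 1000000000000 - XLs bs b) := Real.exp_le_exp.2 (by linarith)
        refine h3.trans ?_
        rw [le_div_iff₀ (by norm_num)]
        exact hEXu
      have hsecond : ∀ γ : ℝ, Up γ G →
          γ + (K : ℝ) / 1000000000000 * (Real.exp ((W : ℝ) / 1000000000000 - XLs bs s) - 1)
            ≤ (kap : ℝ) / 1000000000000 := by
        intro γ hγ
        have h2 : Up (Real.exp ((W : ℝ) / 1000000000000 - XLs bs s) - 1)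
            (Nat.sub EX 1000000000000) := by
          apply Up.sub _ Lo.one
          unfold Up
          rw [le_div_iff₀ (by norm_num)] at hξ
          exact hξ
        have h3 : Up ((K : ℝ) / 1000000000000) K := by
          unfold Up
          apply le_of_eq
          field_simp
        -- the second factor may be negative
        have h4 : γ + (K : ℝ) / 1000000000000
            * (Real.exp ((W : ℝ) / 1000000000000 - XLs bs s) - 1) ≤
            γ + (K : ℝ) / 1000000000000
            * max 0 (Real.exp ((W : ℝ) / 1000000000000 - XLs bs s) - 1) := by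
          have := mul_le_mul_of_nonneg_left (le_max_right 0
            (Real.exp ((W : ℝ) / 1000000000000 - XLs bs s) - 1))
            (by positivity : (0 : ℝ) ≤ (K : ℝ) / 1000000000000)
          linarith
        have h5 : Up (max 0 (Real.exp ((W : ℝ) / 1000000000000 - XLs bs s) - 1))
            (Nat.sub EX 1000000000000) := by
          unfold Up at h2 ⊢
          rcases max_cases 0 (Real.exp ((W : ℝ) / 1000000000000 - XLs bs s) - 1) with h | h
          · rw [h.1, zero_mul]
            exact Nat.cast_nonneg _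
          · rw [h.1]
            exact h2
        have h6 := Up.add hγ (Up.mul (by positivity) (le_max_left _ _) h3 h5)
        unfold Up at h6
        have t8' : ((Nat.add G (mu K (Nat.sub EX 1000000000000)) : ℕ) : ℝ) ≤ (kap : ℝ) := by
          exact_mod_cast t8
        rw [le_div_iff₀ (by norm_num)]
        nlinarith
      have hfirst : ∀ γ : ℝ, Up γ G → γ ≤ (K : ℝ) / 1000000000000 := by
        intro γ hγ
        unfold Up at hγ
        have t7' : ((G : ℕ) : ℝ) ≤ (K : ℝ) := by exact_mod_cast t7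
        rw [le_div_iff₀ (by norm_num)]
        linarith
      have hs00 : 0 ≤ s := ha0.trans hs1
      have hgs : Up (g s) G := by
        rcases hs00.eq_or_lt with h | h
        · rw [← h, hF.g0]
          unfold Up
          rw [zero_mul]
          exact Nat.cast_nonneg _
        · exact hgG s h hs1 hsb.le
      exact ⟨hfirst _ hgs, hsecond _ hgs⟩

end

end Pool.Agent.EZ
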