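import Pool.Agent.EZ.GridLoop

/-!
# The grid: main theorem (helper46)
-/

set_option autoImplicit false

namespace Pool.Agent.EZ

open Finset

noncomputable section

/-- killed weight of `v` -/
def kw (bs : List GE) (v : ℕ) : ℕ := (bs.map fun e => if e.1 = v then e.2.1 else 0).sum

theorem kw_cons (e : GE) (bs : List GE) (v : ℕ) :
    kw (e :: bs) v = (if e.1 = v then e.2.1 else 0) + kw bs v := by
  unfold kw
  rw [List.map_cons, List.sum_cons]

theorem kw_eq_zero {bs : List GE} {v : ℕ} (h : ∀ e ∈ bs, e.1 ≠ v) : kw bs v = 0 := by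
  induction bs with
  | nil => rfl
  | cons e bs ih =>
    rw [kw_cons, if_neg (h e (by simp)), ih (fun e' he' => h e' (List.mem_cons_of_mem _ he'))]

theorem sum_kw (bs : List GE) (f : ℕ → ℝ) (T : Finset ℕ) (hT : ∀ e ∈ bs, e.1 ∈ T) :
    ∑ v ∈ T, (kw bs v : ℝ) / 10000 * f v = (bs.map fun e => (e.2.1 : ℝ) / 10000 * f e.1).sum := by
  induction bs with
  | nil =>
    rw [List.map_nil, List.sum_nil]
    apply Finset.sum_eq_zero
    intro v _
    unfold kw
    simp
  | cons e bs ih =>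
    rw [List.map_cons, List.sum_cons, ← ih (fun e' he' => hT e' (List.mem_cons_of_mem _ he'))]
    have h1 : (e.2.1 : ℝ) / 10000 * f e.1
        = ∑ v ∈ T, (if e.1 = v then (e.2.1 : ℝ) / 10000 * f v else 0) := by
      rw [Finset.sum_ite_eq, if_pos (hT e (by simp))]
    rw [h1, ← Finset.sum_add_distrib]
    apply Finset.sum_congr rfl
    intro v _
    rw [kw_cons]
    push_cast
    split_ifs <;> ring

/-- The family of sets of prime powers with densities `≤ 1 - kw/10^4`. -/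
theorem fam_of (bs : List GE) (u : ℝ) (hu : 1 < u) (VS : Finset ℕ) (S : ℕ → ℝ)
    (hbs : ∀ e ∈ bs, IsPrimePow e.1 ∧ kw bs e.1 ≤ 10000)
    (hVS : ∀ v ∈ VS, IsPrimePow v) (hS : ∀ v ∈ VS, S v ≤ 1 - (kw bs v : ℝ) / 10000) :
    GFam bs u (GG VS S u) := by
  classical
  set Kd : Finset ℕ := (bs.map fun e => e.1).toFinset with hKd
  set S' : ℕ → ℝ := fun v => 1 - (kw bs v : ℝ) / 10000 with hS'
  have hmem : ∀ e ∈ bs, e.1 ∈ Kd := by
    intro e he
    rw [hKd, List.mem_toFinset]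
    exact List.mem_map_of_mem he
  have hK1 : ∀ v ∈ Kd, IsPrimePow v := by
    intro v hv
    rw [hKd, List.mem_toFinset, List.mem_map] at hv
    obtain ⟨e, he, rfl⟩ := hv
    exact (hbs e he).1
  have hle : ∀ v, kw bs v ≤ 10000 := by
    intro v
    by_cases h : v ∈ Kd
    · rw [hKd, List.mem_toFinset, List.mem_map] at h
      obtain ⟨e, he, rfl⟩ := h
      exact (hbs e he).2
    · have : kw bs v = 0 := by
        apply kw_eq_zero
        intro e he hev
        exact h (hev ▸ hmem e he)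
      omega
  have h0 : ∀ v, 0 ≤ S' v := by
    intro v
    have : (kw bs v : ℝ) ≤ 10000 := by exact_mod_cast hle v
    rw [hS']
    simp only
    have : (kw bs v : ℝ) / 10000 ≤ 1 := by rw [div_le_one (by norm_num)]; exact this
    linarith
  have h1 : ∀ v, S' v ≤ 1 := by
    intro v
    rw [hS']
    simp only
    have : 0 ≤ (kw bs v : ℝ) / 10000 := by positivity
    linarith
  have hSK : ∀ v, v ∉ Kd → S' v = 1 := by
    intro v hv
    have : kw bs v = 0 := by
      apply kw_eq_zero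
      intro e he hev
      exact hv (hev ▸ hmem e he)
    rw [hS']
    simp only
    rw [this]
    simp
  have hkill : ∀ b, kill Kd S' b = KLs bs b := by
    intro b
    unfold kill KLs
    rw [← sum_kw bs (fun v => (v : ℝ) ^ (-(1 + b))) Kd hmem]
    apply Finset.sum_congr rfl
    intro v _
    rw [hS']
    simp only
    ring
  refine ⟨?_, ?_, ?_, ?_⟩
  · unfold GG
    rw [neg_zero, Real.rpow_zero, sub_self, mul_zero]
  · intro s hs
    unfold GG
    apply mul_nonneg (Real.exp_pos _).le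
    have := Real.rpow_le_one_of_one_le_of_nonpos hu.le (show -s ≤ 0 by linarith)
    linarith
  · intro a b s Q hs ha has hsb hQ
    have := G_cell VS Kd S S' u a b s Q hs ha has hsb hu hVS hK1 hS h0 h1 hSK hQ
    rwa [hkill b] at this
  · intro a s ha has
    exact G_far VS Kd S S' u a s ha has hu hVS hK1 hS h0 h1 hSK

/-! ### checks -/

theorem root_lo {v c m : ℕ} (hv : 0 < v) (hm : 0 < m)
    (h : Nat.mul v (Nat.pow c m) ≤ Nat.pow 1000000000000 m) :
    Lo ((v : ℝ) ^ (-(1 / (m : ℝ)))) c := by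
  have hv' : (0 : ℝ) < v := by exact_mod_cast hv
  have hm' : (0 : ℝ) < m := by exact_mod_cast hm
  have h1 : ((v * c ^ m : ℕ) : ℝ) ≤ ((1000000000000 ^ m : ℕ) : ℝ) := by exact_mod_cast h
  push_cast at h1
  have h2 : ((c : ℝ) / 1000000000000) ^ m ≤ (v : ℝ)⁻¹ := by
    rw [div_pow, div_le_iff₀ (by positivity), inv_mul_eq_div, le_div_iff₀ hv']
    linarith
  have h3 : (c : ℝ) / 1000000000000 ≤ ((v : ℝ)⁻¹) ^ (1 / (m : ℝ)) := by
    have h4 := Real.rpow_le_rpow (by positivity) h2 (by positivity : (0 : ℝ) ≤ 1 / (m : ℝ))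
    rw [← Real.rpow_natCast, ← Real.rpow_mul (by positivity), mul_one_div_cancel hm'.ne',
      Real.rpow_one] at h4
    exact h4
  unfold Lo
  rw [Real.rpow_neg hv'.le, ← Real.inv_rpow hv'.le]
  rw [div_le_iff₀ (by norm_num)] at h3
  exact h3

theorem root_up {p q c m : ℕ} (hp : 0 < p) (hq : 0 < q) (hm : 0 < m)
    (h : Nat.mul p (Nat.pow 1000000000000 m) ≤ Nat.mul q (Nat.pow c m)) :
    Up (((q : ℝ) / p) ^ (-(1 / (m : ℝ)))) c := by
  have hp' : (0 : ℝ) < p := by exact_mod_cast hp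
  have hq' : (0 : ℝ) < q := by exact_mod_cast hq
  have hm' : (0 : ℝ) < m := by exact_mod_cast hm
  have h1 : ((p * 1000000000000 ^ m : ℕ) : ℝ) ≤ ((q * c ^ m : ℕ) : ℝ) := by exact_mod_cast h
  push_cast at h1
  have h2 : ((q : ℝ) / p)⁻¹ ≤ ((c : ℝ) / 1000000000000) ^ m := by
    rw [inv_div, div_pow, div_le_div_iff₀ hq' (by positivity)]
    linarith
  have h3 : (((q : ℝ) / p)⁻¹) ^ (1 / (m : ℝ)) ≤ (c : ℝ) / 1000000000000 := by
    have h4 := Real.rpow_le_rpow (by positivity) h2 (by positivity : (0 : ℝ) ≤ 1 / (m : ℝ))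
    rw [← Real.rpow_natCast ((c : ℝ) / 1000000000000), ← Real.rpow_mul (by positivity),
      mul_one_div_cancel hm'.ne', Real.rpow_one] at h4
    exact h4
  unfold Up
  rw [Real.rpow_neg (by positivity), ← Real.inv_rpow (by positivity)]
  rw [le_div_iff₀ (by norm_num)] at h3
  exact h3

/-- check of the list of constants -/
def chkL (m : ℕ) (bs : List GE) : List ℕ → Bool :=
  List.rec (motive := fun _ => List ℕ → Bool) (fun _ => true)
    (fun e _ ih ks => List.rec (motive := fun _ => Bool) false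
      (fun c ks' _ => cond (Nat.ble 1 e.1)
        (cond (Nat.ble (Nat.mul e.1 (Nat.pow c m)) (Nat.pow 1000000000000 m)) (ih ks') false)
        false) ks) bs

theorem chkL_spec (m : ℕ) (hm : 0 < m) : ∀ (bs : List GE) (ks : List ℕ), chkL m bs ks = true →
    ∃ ks', HL bs ks' (1 / (m : ℝ)) ∧ ks' = ks.take bs.length := by
  intro bs
  induction bs with
  | nil => intro ks _; exact ⟨[], List.Forall₂.nil, by simp⟩
  | cons e bs ih =>
    intro ks h
    cases ks with
    | nil => exact absurd h (by intro h'; cases h')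
    | cons c ks =>
      have e0 : chkL m (e :: bs) (c :: ks) = cond (Nat.ble 1 e.1)
        (cond (Nat.ble (Nat.mul e.1 (Nat.pow c m)) (Nat.pow 1000000000000 m)) (chkL m bs ks) false)
        false := rfl
      rw [e0] at h
      obtain ⟨h1, h⟩ := cond_eq_true h
      obtain ⟨h2, h⟩ := cond_eq_true h
      rw [Nat.ble_eq] at h1 h2
      obtain ⟨ks', h3, h4⟩ := ih ks h
      refine ⟨c :: ks', List.Forall₂.cons ⟨by omega, root_lo (by omega) hm h2⟩ h3, ?_⟩
      rw [h4]
      simp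

/-- all entries are prime powers with total killed weight at most one -/
def chkB (bs0 : List GE) (bs : List GE) : Bool :=
  List.rec (motive := fun _ => Bool) true
    (fun e _ ih => cond (Nat.ble 2 e.1) (cond (Nat.ble e.1 10200)
      (cond (Nat.beq (kp e.1) 0) false (cond (Nat.ble (kw bs0 e.1) 10000) ih false)) false) false) bs

theorem chkB_spec (bs0 : List GE) : ∀ bs : List GE, chkB bs0 bs = true →
    ∀ e ∈ bs, IsPrimePow e.1 ∧ kw bs0 e.1 ≤ 10000 := by
  intro bs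
  induction bs with
  | nil => intro _ e he; simp at he
  | cons e bs ih =>
    intro h
    have e0 : chkB bs0 (e :: bs) = cond (Nat.ble 2 e.1) (cond (Nat.ble e.1 10200)
      (cond (Nat.beq (kp e.1) 0) false (cond (Nat.ble (kw bs0 e.1) 10000) (chkB bs0 bs) false))
        false) false := rfl
    rw [e0] at h
    obtain ⟨h1, h⟩ := cond_eq_true h
    obtain ⟨h2, h⟩ := cond_eq_true h
    rw [Nat.ble_eq] at h1 h2
    have h3 : Nat.beq (kp e.1) 0 = false := by
      cases hh : Nat.beq (kp e.1) 0 with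
      | false => rfl
      | true => rw [hh] at h; cases h
    rw [h3] at h
    simp only [cond_false] at h
    obtain ⟨h4, h⟩ := cond_eq_true h
    rw [Nat.ble_eq] at h4
    intro e' he'
    rcases List.mem_cons.1 he' with h5 | h5
    · subst h5
      refine ⟨(kp_ne_zero_iff h1 (by omega)).1 ?_, h4⟩
      intro h6
      rw [h6] at h3
      cases h3
    · exact ih h e' h5

/-- initial list -/
def ini (s0 : ℕ) (bs : List GE) : List ℕ :=
  bs.map fun e => Nat.div 1000000000000 (Nat.pow e.1 s0)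

theorem pow_lo (v s0 : ℕ) (hv : 0 < v) :
    Lo ((v : ℝ) ^ (-(s0 : ℝ))) (Nat.div 1000000000000 (Nat.pow v s0)) := by
  have hv' : (0 : ℝ) < v := by exact_mod_cast hv
  have h := cast_div_le' 1000000000000 (Nat.pow v s0)
  unfold Lo
  refine h.trans (le_of_eq ?_)
  rw [Real.rpow_neg hv'.le, Real.rpow_natCast]
  have : ((Nat.pow v s0 : ℕ) : ℝ) = (v : ℝ) ^ s0 := by
    change ((v ^ s0 : ℕ) : ℝ) = _
    push_cast; ring
  rw [this]
  push_cast
  field_simp

theorem pow_up (p q s0 : ℕ) (hp : 0 < p) (hq : 0 < q) :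
    Up (((q : ℝ) / p) ^ (-(s0 : ℝ)))
      (Nat.succ (Nat.div (Nat.mul 1000000000000 (Nat.pow p s0)) (Nat.pow q s0))) := by
  have hp' : (0 : ℝ) < p := by exact_mod_cast hp
  have hq' : (0 : ℝ) < q := by exact_mod_cast hq
  have h := cast_div_ge (Nat.mul 1000000000000 (Nat.pow p s0)) (Nat.pow q s0) (by
    change 0 < q ^ s0
    positivity)
  unfold Up
  refine le_trans (le_of_eq ?_) h
  rw [Real.rpow_neg (by positivity), Real.rpow_natCast]
  have e1 : ((Nat.pow q s0 : ℕ) : ℝ) = (q : ℝ) ^ s0 := by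
    change ((q ^ s0 : ℕ) : ℝ) = _
    push_cast; ring
  have e2 : ((Nat.mul 1000000000000 (Nat.pow p s0) : ℕ) : ℝ) = 1000000000000 * (p : ℝ) ^ s0 := by
    change ((1000000000000 * p ^ s0 : ℕ) : ℝ) = _
    push_cast; ring
  rw [e1, e2, div_pow]
  field_simp

theorem ini_HL (s0 : ℕ) (bs : List GE) (h : ∀ e ∈ bs, 0 < e.1) : HL bs (ini s0 bs) (s0 : ℝ) := by
  induction bs with
  | nil => exact List.Forall₂.nil
  | cons e bs ih =>
    unfold ini
    rw [List.map_cons]
    exact List.Forall₂.cons ⟨h e (by simp), pow_lo e.1 s0 (h e (by simp))⟩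
      (ih (fun e' he' => h e' (List.mem_cons_of_mem _ he')))

/-- data of a phase: `m, cu, d2, d3, d5, d7, d25, ks` -/
abbrev PH := ℕ × ℕ × ℕ × ℕ × ℕ × ℕ × ℕ × List ℕ

/-- upper bound of `log u` -/
def lnu (m cu : ℕ) : ℕ :=
  Nat.succ (Nat.div (Nat.mul m (Nat.sub (Nat.succ (Nat.div 1000000000000000000000000 cu)) cu)) 2)

theorem lnu_up {u : ℝ} {m cu : ℕ} (hm : 0 < m) (hu : 1 < u) (hc : 0 < cu)
    (h : Lo (u ^ (-(1 / (m : ℝ)))) cu) : Up (Real.log u) (lnu m cu) := by
  have hc' : (0 : ℝ) < cu := by exact_mod_cast hc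
  have h1 := log_le_of_root (c := (cu : ℝ) / 1000000000000) hm hu (by positivity) (by
    rw [div_le_iff₀ (by norm_num)]; exact h)
  refine Up.mono ?_ h1
  unfold lnu
  have h2 := cast_div_ge (Nat.mul m (Nat.sub (Nat.succ (Nat.div 1000000000000000000000000 cu)) cu)) 2
    (by norm_num)
  unfold Up
  refine le_trans ?_ h2
  have h3 : Up (1 / ((cu : ℝ) / 1000000000000) - (cu : ℝ) / 1000000000000)
      (Nat.sub (Nat.succ (Nat.div 1000000000000000000000000 cu)) cu) := by
    apply Up.sub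
    · have h4 := cast_div_ge 1000000000000000000000000 cu hc
      unfold Up
      refine le_trans (le_of_eq ?_) h4
      push_cast
      field_simp
      norm_num
    · unfold Lo
      apply le_of_eq
      field_simp
  unfold Up at h3
  have e1 : ((Nat.mul m (Nat.sub (Nat.succ (Nat.div 1000000000000000000000000 cu)) cu) : ℕ) : ℝ)
      = m * ((Nat.sub (Nat.succ (Nat.div 1000000000000000000000000 cu)) cu : ℕ) : ℝ) := by
    change ((m * Nat.sub (Nat.succ (Nat.div 1000000000000000000000000 cu)) cu : ℕ) : ℝ) = _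
    push_cast; ring
  rw [e1]
  push_cast
  rw [le_div_iff₀ (by norm_num)]
  have hm' : (0 : ℝ) ≤ m := Nat.cast_nonneg m
  have h5 := mul_le_mul_of_nonneg_left h3 hm'
  linarith

/-- check of one phase -/
def phase (bs : List GE) (u W K kap : ℕ) (p : PH) (s0 : ℕ) : Bool :=
  cond (Nat.ble 1 p.1)
  (cond (Nat.ble 1 p.2.1)
  (cond (Nat.ble (Nat.mul u (Nat.pow p.2.1 p.1)) (Nat.pow 1000000000000 p.1))
  (cond (Nat.ble (Nat.mul 1 (Nat.pow 1000000000000 p.1)) (Nat.mul 2 (Nat.pow p.2.2.1 p.1)))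
  (cond (Nat.ble (Nat.mul 1 (Nat.pow 1000000000000 p.1)) (Nat.mul 3 (Nat.pow p.2.2.2.1 p.1)))
  (cond (Nat.ble (Nat.mul 1 (Nat.pow 1000000000000 p.1)) (Nat.mul 5 (Nat.pow p.2.2.2.2.1 p.1)))
  (cond (Nat.ble (Nat.mul 1 (Nat.pow 1000000000000 p.1)) (Nat.mul 7 (Nat.pow p.2.2.2.2.2.1 p.1)))
  (cond (Nat.ble (Nat.mul 2 (Nat.pow 1000000000000 p.1)) (Nat.mul 5 (Nat.pow p.2.2.2.2.2.2.1 p.1)))
  (cond (chkL p.1 bs p.2.2.2.2.2.2.2)
  (frc (lnu p.1 p.2.1) fun LN =>
    frc (Nat.succ (Nat.div (Nat.mul 1000000000000 (Nat.pow 1 s0)) (Nat.pow 2 s0))) fun U2 =>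
    frc (Nat.succ (Nat.div (Nat.mul 1000000000000 (Nat.pow 1 s0)) (Nat.pow 3 s0))) fun U3 =>
    frc (Nat.succ (Nat.div (Nat.mul 1000000000000 (Nat.pow 1 s0)) (Nat.pow 5 s0))) fun U5 =>
    frc (Nat.succ (Nat.div (Nat.mul 1000000000000 (Nat.pow 1 s0)) (Nat.pow 7 s0))) fun U7 =>
    frc (Nat.succ (Nat.div (Nat.mul 1000000000000 (Nat.pow 2 s0)) (Nat.pow 5 s0))) fun U25 =>
    frc (Nat.div 1000000000000 (Nat.pow u s0)) fun na =>
    frc (Nat.mul s0 p.1) fun i =>
    gloop bs (p.2.2.2.2.2.2.2.take bs.length) p.2.1 p.2.2.1 p.2.2.2.1 p.2.2.2.2.1 p.2.2.2.2.2.1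
      p.2.2.2.2.2.2.1 p.1 LN W K kap p.1 i U2 U3 U5 U7 U25 na (ini s0 bs))
  false) false) false) false) false) false) false) false) false

theorem phase_sound (bs : List GE) (u W K kap : ℕ) (p : PH) (s0 : ℕ) (hu : 1 < u) (g : ℝ → ℝ)
    (hF : GFam bs (u : ℝ) g) (h : phase bs u W K kap p s0 = true) :
    ∀ s : ℝ, (s0 : ℝ) ≤ s → s < (s0 : ℝ) + 1 →
      PP g (fun s => (W : ℝ) / 1000000000000 - XLs bs s) K kap s := by
  unfold phase at h
  obtain ⟨h1, h⟩ := cond_eq_true h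
  obtain ⟨h2, h⟩ := cond_eq_true h
  obtain ⟨h3, h⟩ := cond_eq_true h
  obtain ⟨h4, h⟩ := cond_eq_true h
  obtain ⟨h5, h⟩ := cond_eq_true h
  obtain ⟨h6, h⟩ := cond_eq_true h
  obtain ⟨h7, h⟩ := cond_eq_true h
  obtain ⟨h8, h⟩ := cond_eq_true h
  obtain ⟨h9, h⟩ := cond_eq_true h
  simp only [frc_eq] at h
  rw [Nat.ble_eq] at h1 h2 h3 h4 h5 h6 h7 h8
  have hm : 0 < p.1 := h1
  have hm' : (0 : ℝ) < (p.1 : ℝ) := by exact_mod_cast hm
  have hu' : (1 : ℝ) < (u : ℝ) := by exact_mod_cast hu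
  obtain ⟨ks', hks, hks'⟩ := chkL_spec p.1 hm bs _ h9
  rw [← hks'] at h
  have hcu := root_lo (v := u) (by omega) hm h3
  have r2 := root_up (p := 1) (q := 2) (by norm_num) (by norm_num) hm h4
  have r3 := root_up (p := 1) (q := 3) (by norm_num) (by norm_num) hm h5
  have r5 := root_up (p := 1) (q := 5) (by norm_num) (by norm_num) hm h6
  have r7 := root_up (p := 1) (q := 7) (by norm_num) (by norm_num) hm h7
  have r25 := root_up (p := 2) (q := 5) (by norm_num) (by norm_num) hm h8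
  have i2 := pow_up 1 2 s0 (by norm_num) (by norm_num)
  have i3 := pow_up 1 3 s0 (by norm_num) (by norm_num)
  have i5 := pow_up 1 5 s0 (by norm_num) (by norm_num)
  have i7 := pow_up 1 7 s0 (by norm_num) (by norm_num)
  have i25 := pow_up 2 5 s0 (by norm_num) (by norm_num)
  push_cast at r2 r3 r5 r7 r25 i2 i3 i5 i7 i25
  rw [div_one] at r2 r3 r5 r7 i2 i3 i5 i7
  have hidx : (((Nat.mul s0 p.1 : ℕ) : ℝ)) / (p.1 : ℝ) = (s0 : ℝ) := by
    have : ((Nat.mul s0 p.1 : ℕ) : ℝ) = (s0 : ℝ) * p.1 := by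
      change ((s0 * p.1 : ℕ) : ℝ) = _
      push_cast; ring
    rw [this]
    field_simp
  have key := gloop_sound bs ks' (u : ℝ) p.2.1 p.2.2.1 p.2.2.2.1 p.2.2.2.2.1 p.2.2.2.2.2.1
    p.2.2.2.2.2.2.1 p.1 (lnu p.1 p.2.1) W K kap hm hu' g hF hks hcu r2 r3 r5 r7 r25
    (lnu_up hm hu' (by omega) hcu) p.1 (Nat.mul s0 p.1) _ _ _ _ _ _ _ (by
      rw [hidx]
      exact ⟨i2, i3, i5, i7, i25, pow_lo u s0 (by omega), ini_HL s0 bs (HL_pos hks)⟩) h
  intro s hs1 hs2
  apply key s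
  · rw [hidx]; exact hs1
  · have e1 : (((Nat.mul s0 p.1 + p.1 : ℕ) : ℝ)) / (p.1 : ℝ) = (s0 : ℝ) + 1 := by
      have : ((Nat.mul s0 p.1 + p.1 : ℕ) : ℝ) = (s0 : ℝ) * p.1 + p.1 := by
        change ((s0 * p.1 + p.1 : ℕ) : ℝ) = _
        push_cast; ring
      rw [this]
      field_simp
    rw [e1]
    exact hs2

/-- check of the tail -/
def tailC (W K kap T : ℕ) : Bool :=
  cond (Nat.ble 1 T)
  (frc (Nat.succ (Nat.div (Nat.mul 1000000000000 (Nat.pow 1 T)) (Nat.pow 2 T))) fun U2 =>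
    frc (Nat.succ (Nat.div (Nat.mul 1000000000000 (Nat.pow 1 T)) (Nat.pow 3 T))) fun U3 =>
    frc (Nat.succ (Nat.div (Nat.mul 1000000000000 (Nat.pow 1 T)) (Nat.pow 5 T))) fun U5 =>
    frc (Nat.succ (Nat.div (Nat.mul 1000000000000 (Nat.pow 1 T)) (Nat.pow 7 T))) fun U7 =>
    frc (Nat.succ (Nat.div (Nat.mul 1000000000000 (Nat.pow 2 T)) (Nat.pow 5 T))) fun U25 =>
    frc (du U2 2) fun x2 => frc (du U3 3) fun x3 => frc (du U5 5) fun x5 => frc (du U7 7) fun x7 =>
    frc (Nat.add (Nat.add (Nat.add (dfu x2) (dfu x3)) (Nat.add (dfu x5) (dfu x7)))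
        (Nat.succ (Nat.div (Nat.mul 1675 (mu U7 U7)) 100000))) fun D =>
    frc (mu (Nat.add (Nat.add 1000000000000 x2) (du U25 T))
      (mu (exn (Nat.sub 1000000000000 D)) 2718281828600)) fun G =>
    frc (mu (exn (Nat.sub 1000000000000 W)) 2718281828600) fun EX =>
    cond (Nat.ble x2 999999999999) (cond (Nat.ble x3 999999999999)
      (cond (Nat.ble x5 999999999999) (cond (Nat.ble x7 999999999999)
      (cond (Nat.ble D 1000000000000) (cond (Nat.ble W 1000000000000)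
      (cond (Nat.ble G K) (Nat.ble (Nat.add G (mu K (Nat.sub EX 1000000000000))) kap)
      false) false) false) false) false) false) false)
  false

theorem tail_sound (bs : List GE) (u W K kap T : ℕ) (g : ℝ → ℝ)
    (hF : GFam bs (u : ℝ) g) (h : tailC W K kap T = true) :
    ∀ s : ℝ, (T : ℝ) ≤ s → PP g (fun s => (W : ℝ) / 1000000000000 - XLs bs s) K kap s := by
  unfold tailC at h
  obtain ⟨h1, h⟩ := cond_eq_true h
  rw [Nat.ble_eq] at h1
  simp only [frc_eq] at h
  have i2 := pow_up 1 2 T (by norm_num) (by norm_num)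
  have i3 := pow_up 1 3 T (by norm_num) (by norm_num)
  have i5 := pow_up 1 5 T (by norm_num) (by norm_num)
  have i7 := pow_up 1 7 T (by norm_num) (by norm_num)
  have i25 := pow_up 2 5 T (by norm_num) (by norm_num)
  push_cast at i2 i3 i5 i7 i25
  rw [div_one] at i2 i3 i5 i7
  generalize Nat.succ (Nat.div (Nat.mul 1000000000000 (Nat.pow 1 T)) (Nat.pow 2 T)) = U2 at h i2
  generalize Nat.succ (Nat.div (Nat.mul 1000000000000 (Nat.pow 1 T)) (Nat.pow 3 T)) = U3 at h i3
  generalize Nat.succ (Nat.div (Nat.mul 1000000000000 (Nat.pow 1 T)) (Nat.pow 5 T)) = U5 at h i5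
  generalize Nat.succ (Nat.div (Nat.mul 1000000000000 (Nat.pow 1 T)) (Nat.pow 7 T)) = U7 at h i7
  generalize Nat.succ (Nat.div (Nat.mul 1000000000000 (Nat.pow 2 T)) (Nat.pow 5 T)) = U25 at h i25
  set D := Nat.add (Nat.add (Nat.add (dfu (du U2 2)) (dfu (du U3 3)))
      (Nat.add (dfu (du U5 5)) (dfu (du U7 7))))
        (Nat.succ (Nat.div (Nat.mul 1675 (mu U7 U7)) 100000)) with hD
  set G := mu (Nat.add (Nat.add 1000000000000 (du U2 2)) (du U25 T))
      (mu (exn (Nat.sub 1000000000000 D)) 2718281828600) with hG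
  set EX := mu (exn (Nat.sub 1000000000000 W)) 2718281828600 with hEX
  obtain ⟨t1, h⟩ := cond_eq_true h
  obtain ⟨t2, h⟩ := cond_eq_true h
  obtain ⟨t3, h⟩ := cond_eq_true h
  obtain ⟨t4, h⟩ := cond_eq_true h
  obtain ⟨t5, h⟩ := cond_eq_true h
  obtain ⟨t6, h⟩ := cond_eq_true h
  obtain ⟨t7, t8⟩ := cond_eq_true h
  rw [Nat.ble_eq] at t1 t2 t3 t4 t5 t6 t7 t8
  have hT : (0 : ℝ) < T := by exact_mod_cast h1
  intro s hs
  have q1 : Up ((2 : ℝ) ^ (-(1 + (T : ℝ)))) (du U2 2) := x_up 2 (by norm_num) (by norm_num) i2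
  have q3 : Up ((3 : ℝ) ^ (-(1 + (T : ℝ)))) (du U3 3) := x_up 3 (by norm_num) (by norm_num) i3
  have q5 : Up ((5 : ℝ) ^ (-(1 + (T : ℝ)))) (du U5 5) := x_up 5 (by norm_num) (by norm_num) i5
  have q7 : Up ((7 : ℝ) ^ (-(1 + (T : ℝ)))) (du U7 7) := x_up 7 (by norm_num) (by norm_num) i7
  have qD := dd_up q1 q3 q5 q7 i7 (by omega) (by omega) (by omega) (by omega)
  rw [← hD] at qD
  have hfar := hF.far T s hT hs
  have qG : Up (g s) G := by
    refine Up.mono ?_ hfar
    unfold Zt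
    exact Up.mul (by positivity) (Real.exp_pos _).le
      (Up.add (Up.add Up.one q1) (Up.div T h1 i25)) (exp_up qD t5)
  have hX : Up ((W : ℝ) / 1000000000000) W := by
    unfold Up
    apply le_of_eq
    field_simp
  have hEXu := exp_up hX t6
  rw [← hEX] at hEXu
  have hXnn : 0 ≤ XLs bs s := by
    unfold XLs
    apply List.sum_nonneg
    intro x hx
    rw [List.mem_map] at hx
    obtain ⟨e, -, rfl⟩ := hx
    positivity
  have hξ : Real.exp ((W : ℝ) / 1000000000000 - XLs bs s) ≤ (EX : ℝ) / 1000000000000 := by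
    have h3 : Real.exp ((W : ℝ) / 1000000000000 - XLs bs s)
        ≤ Real.exp ((W : ℝ) / 1000000000000) := Real.exp_le_exp.2 (by linarith)
    refine h3.trans ?_
    rw [le_div_iff₀ (by norm_num)]
    exact hEXu
  have h3 : Up ((K : ℝ) / 1000000000000) K := by
    unfold Up
    apply le_of_eq
    field_simp
  have h4 := mul_le_mul_of_nonneg_left (le_max_right 0
      (Real.exp ((W : ℝ) / 1000000000000 - XLs bs s) - 1))
      (by positivity : (0 : ℝ) ≤ (K : ℝ) / 1000000000000)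
  have h5 : Up (max 0 (Real.exp ((W : ℝ) / 1000000000000 - XLs bs s) - 1))
      (Nat.sub EX 1000000000000) := by
    have h2 : Up (Real.exp ((W : ℝ) / 1000000000000 - XLs bs s) - 1)
        (Nat.sub EX 1000000000000) := by
      apply Up.sub _ Lo.one
      unfold Up
      rw [le_div_iff₀ (by norm_num)] at hξ
      exact hξ
    unfold Up at h2 ⊢
    rcases max_cases 0 (Real.exp ((W : ℝ) / 1000000000000 - XLs bs s) - 1) with h | h
    · rw [h.1, zero_mul]
      exact Nat.cast_nonneg _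
    · rw [h.1]
      exact h2
  have h6 := Up.add qG (Up.mul (by positivity) (le_max_left _ _) h3 h5)
  unfold Up at h6 qG
  have t8' : ((Nat.add G (mu K (Nat.sub EX 1000000000000)) : ℕ) : ℝ) ≤ (kap : ℝ) := by
    exact_mod_cast t8
  have t7' : ((G : ℕ) : ℝ) ≤ (K : ℝ) := by exact_mod_cast t7
  constructor
  · rw [le_div_iff₀ (by norm_num)]
    linarith
  · rw [le_div_iff₀ (by norm_num)]
    simp only
    nlinarith

/-- all phases -/
def checkAll (bs : List GE) (u W K kap : ℕ) (phs : List PH) : ℕ → Bool :=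
  List.rec (motive := fun _ => ℕ → Bool) (fun s0 => tailC W K kap s0)
    (fun p _ ih s0 => cond (phase bs u W K kap p s0) (frc (Nat.succ s0) ih) false) phs

theorem checkAll_sound (bs : List GE) (u W K kap : ℕ) (hu : 1 < u) (g : ℝ → ℝ)
    (hF : GFam bs (u : ℝ) g) : ∀ (phs : List PH) (s0 : ℕ), checkAll bs u W K kap phs s0 = true →
    ∀ s : ℝ, (s0 : ℝ) ≤ s → PP g (fun s => (W : ℝ) / 1000000000000 - XLs bs s) K kap s := by
  intro phs
  induction phs with
  | nil =>
    intro s0 h s hs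
    exact tail_sound bs u W K kap s0 g hF h s hs
  | cons p phs ih =>
    intro s0 h s hs
    have e0 : checkAll bs u W K kap (p :: phs) s0
      = cond (phase bs u W K kap p s0) (frc (Nat.succ s0) (checkAll bs u W K kap phs)) false := rfl
    rw [e0] at h
    obtain ⟨h1, h2⟩ := cond_eq_true h
    rw [frc_eq] at h2
    rcases lt_or_ge s ((s0 : ℝ) + 1) with h3 | h3
    · exact phase_sound bs u W K kap p s0 hu g hF h1 s hs h3
    · apply ih (Nat.succ s0) h2 s
      have : ((Nat.succ s0 : ℕ) : ℝ) = (s0 : ℝ) + 1 := by push_cast; ring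
      rw [this]; exact h3

/-- **The grid theorem.** -/
theorem grid_pair (bs : List GE) (u W K kap : ℕ) (phs : List PH) (hu : 1 < u)
    (hB : chkB bs bs = true) (hC : checkAll bs u W K kap phs 0 = true)
    (VS : Finset ℕ) (S : ℕ → ℝ) (hVS : ∀ v ∈ VS, IsPrimePow v)
    (hS : ∀ v ∈ VS, S v ≤ 1 - (kw bs v : ℝ) / 10000) (s : ℝ) (hs : 0 ≤ s) :
    GG VS S (u : ℝ) s ≤ (K : ℝ) / 1000000000000 ∧
    GG VS S (u : ℝ) s + (K : ℝ) / 1000000000000
      * (Real.exp ((W : ℝ) / 1000000000000 - XLs bs s) - 1) ≤ (kap : ℝ) / 1000000000000 := by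
  have hu' : (1 : ℝ) < (u : ℝ) := by exact_mod_cast hu
  have hF := fam_of bs (u : ℝ) hu' VS S (chkB_spec bs bs hB) hVS hS
  exact checkAll_sound bs u W K kap hu _ hF phs 0 hC s (by simpa using hs)

end

end Pool.Agent.EZ
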