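import Pool.Agent.EZ.NB

/-!
# Better upper bounds for sums over prime powers at a fixed `s` (helper46)
-/

set_option autoImplicit false

namespace Pool.Agent.EZ

open Finset

noncomputable section

/-- midpoint rule: `s n^{-1-s} ≤ (n - 1/2)^{-s} - (n + 1/2)^{-s}`. -/
theorem midpoint {s x : ℝ} (hs : 0 < s) (hx : 1 ≤ x) :
    x ^ (-(1 + s)) ≤ ((x - 1 / 2) ^ (-s) - (x + 1 / 2) ^ (-s)) / s := by
  have hx0 : 0 < x := by linarith
  set u : ℝ := 1 / (2 * x) with hu
  have hu0 : 0 ≤ u := by positivity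
  have hu1 : u ≤ 1 / 2 := by
    rw [hu]
    apply one_div_le_one_div_of_le (by norm_num)
    linarith
  have hd : ∀ t : ℝ, 0 ≤ t → t ≤ 1 / 2 → HasDerivAt
      (fun t : ℝ => (1 - t) ^ (-s) - (1 + t) ^ (-s) - 2 * s * t)
      (s * (1 - t) ^ (-s - 1) + s * (1 + t) ^ (-s - 1) - 2 * s) t := by
    intro t ht0 ht1
    have h1 : HasDerivAt (fun t : ℝ => 1 - t) (-1) t := by
      simpa using (hasDerivAt_id t).const_sub (1 : ℝ)
    have h2 : HasDerivAt (fun t : ℝ => 1 + t) 1 t := by
      simpa using (hasDerivAt_id t).const_add (1 : ℝ)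
    have h3 := h1.rpow_const (p := -s) (Or.inl (by linarith : (1 : ℝ) - t ≠ 0))
    have h4 := h2.rpow_const (p := -s) (Or.inl (by linarith : (1 : ℝ) + t ≠ 0))
    have h5 : HasDerivAt (fun t : ℝ => 2 * s * t) (2 * s) t := by
      simpa using (hasDerivAt_id t).const_mul (2 * s)
    refine ((h3.sub h4).sub h5).congr_deriv ?_
    ring
  have hmono : MonotoneOn (fun t : ℝ => (1 - t) ^ (-s) - (1 + t) ^ (-s) - 2 * s * t)
      (Set.Icc 0 u) := by
    apply monotoneOn_of_deriv_nonneg (convex_Icc 0 u)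
    · exact fun t ht => (hd t ht.1 (by linarith [ht.2])).continuousAt.continuousWithinAt
    · intro t ht
      rw [interior_Icc] at ht
      exact (hd t ht.1.le (by linarith [ht.2])).differentiableAt.differentiableWithinAt
    · intro t ht
      rw [interior_Icc] at ht
      rw [(hd t ht.1.le (by linarith [ht.2])).deriv]
      have ht0 : 0 < t := ht.1
      have ht1 : t < 1 := by linarith [ht.2]
      have h6 : 1 + (s + 1) * t ≤ (1 - t) ^ (-s - 1) := by
        rw [Real.rpow_def_of_pos (by linarith)]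
        have h7 := Real.add_one_le_exp (Real.log (1 - t) * (-s - 1))
        have h8 : Real.log (1 - t) ≤ -t := by
          have := Real.log_le_sub_one_of_pos (x := 1 - t) (by linarith)
          linarith
        nlinarith
      have h9 : 1 - (s + 1) * t ≤ (1 + t) ^ (-s - 1) := by
        rw [Real.rpow_def_of_pos (by linarith)]
        have h7 := Real.add_one_le_exp (Real.log (1 + t) * (-s - 1))
        have h8 : Real.log (1 + t) ≤ t := by
          have := Real.log_le_sub_one_of_pos (x := 1 + t) (by linarith)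
          linarith
        nlinarith
      nlinarith
  have h := hmono (Set.left_mem_Icc.2 hu0) (Set.right_mem_Icc.2 hu0) hu0
  simp only [sub_zero, add_zero, Real.one_rpow, mul_zero, sub_self] at h
  have e1 : x - 1 / 2 = x * (1 - u) := by rw [hu]; field_simp
  have e2 : x + 1 / 2 = x * (1 + u) := by rw [hu]; field_simp
  rw [e1, e2, Real.mul_rpow hx0.le (by linarith), Real.mul_rpow hx0.le (by linarith), ← mul_sub,
    le_div_iff₀ hs]
  have e3 : x ^ (-(1 + s)) * s = x ^ (-s) * (2 * s * u) := by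
    rw [show (-(1 + s)) = -s - 1 by ring, Real.rpow_sub_one hx0.ne', hu]
    field_simp
  rw [e3]
  apply mul_le_mul_of_nonneg_left _ (Real.rpow_nonneg hx0.le _)
  linarith

/-- the bound for `ζ(1+s)` -/
def Zt (s : ℝ) : ℝ := 1 + (2 : ℝ) ^ (-(1 + s)) + (5 / 2 : ℝ) ^ (-s) / s

theorem zeta_mid_partial {s : ℝ} (hs : 0 < s) (K : ℕ) (hK : 2 ≤ K) :
    ∑ m ∈ Icc 1 K, (m : ℝ) ^ (-(1 + s)) ≤ Zt s - ((K : ℝ) + 1 / 2) ^ (-s) / s := by
  induction K, hK using Nat.le_induction with
  | base =>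
    have : Icc 1 2 = ({1, 2} : Finset ℕ) := by decide
    rw [this, Finset.sum_pair (by norm_num)]
    unfold Zt
    push_cast
    rw [Real.one_rpow]
    have e : (2 : ℝ) + 1 / 2 = 5 / 2 := by norm_num
    rw [e]
    linarith
  | succ n hn ih =>
    rw [Finset.sum_Icc_succ_top (by omega)]
    have hn1 : (1 : ℝ) ≤ (n : ℝ) + 1 := by
      have : (0 : ℝ) ≤ n := Nat.cast_nonneg n
      linarith
    have h := midpoint hs hn1
    push_cast
    have e1 : (n : ℝ) + 1 - 1 / 2 = (n : ℝ) + 1 / 2 := by ring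
    rw [e1, sub_div] at h
    linarith

theorem Zt_pos {s : ℝ} (hs : 0 < s) : 0 < Zt s := by
  unfold Zt
  positivity

theorem zeta_mid {s : ℝ} (hs : 0 < s) (F : Finset ℕ) (hF : ∀ m ∈ F, 1 ≤ m) :
    ∑ m ∈ F, (m : ℝ) ^ (-(1 + s)) ≤ Zt s := by
  have hsub : F ⊆ Icc 1 (F.sup id + 2) := by
    intro m hm
    rw [mem_Icc]
    refine ⟨hF m hm, le_trans (Finset.le_sup (f := id) hm) (by omega)⟩
  have h1 := zeta_mid_partial hs (F.sup id + 2) (by omega)
  have h2 : 0 ≤ (((F.sup id + 2 : ℕ) : ℝ) + 1 / 2) ^ (-s) / s := by positivity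
  have h3 : ∑ m ∈ F, (m : ℝ) ^ (-(1 + s)) ≤ ∑ m ∈ Icc 1 (F.sup id + 2), (m : ℝ) ^ (-(1 + s)) :=
    Finset.sum_le_sum_of_subset_of_nonneg hsub (fun m _ _ => by positivity)
  linarith

theorem euler_prod_mid {s : ℝ} (hs : 0 < s) (N : ℕ) :
    ∏ p ∈ N.primesBelow, (1 - (p : ℝ) ^ (-(1 + s)))⁻¹ ≤ Zt s := by
  have h := EulerProduct.summable_and_hasSum_smoothNumbers_prod_primesBelow_geometric
    (F := ℝ) (f := (nrp s hs : ℕ →* ℝ)) (by
      intro p hp
      change ‖((p : ℕ) : ℝ) ^ (-(1 + s))‖ < 1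
      rw [Real.norm_of_nonneg (by positivity)]
      exact rpow_lt_one' hs hp.two_le) N
  have h2 := h.2
  refine hasSum_le_of_sum_le h2 ?_
  intro F
  have h3 : ∑ m ∈ F, (nrp s hs : ℕ →* ℝ) (m : ℕ) = ∑ m ∈ F.map (Function.Embedding.subtype _),
      ((m : ℕ) : ℝ) ^ (-(1 + s)) := by
    rw [Finset.sum_map]
    rfl
  rw [h3]
  apply zeta_mid hs
  intro m hm
  rw [Finset.mem_map] at hm
  obtain ⟨⟨x, hx⟩, -, rfl⟩ := hm
  have := Nat.ne_zero_of_mem_smoothNumbers hx
  change 1 ≤ x
  omega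

/-- power series of `dfn` -/
theorem dfn_hasSum {x : ℝ} (hx : |x| < 1) :
    HasSum (fun n : ℕ => x ^ (n + 1) * (n / (n + 1 : ℝ))) (dfn x) := by
  have h1 := Real.hasSum_pow_div_log_of_abs_lt_one hx
  have h2 : HasSum (fun n : ℕ => x * x ^ n) (x * (1 - x)⁻¹) :=
    (hasSum_geometric_of_abs_lt_one hx).mul_left x
  have h3 := h2.sub h1
  have e : x * (1 - x)⁻¹ - -Real.log (1 - x) = dfn x := by
    unfold dfn; rw [div_eq_mul_inv]; ring
  rw [e] at h3
  refine h3.congr_fun ?_
  intro n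
  have : (n : ℝ) + 1 ≠ 0 := by positivity
  rw [pow_succ]
  field_simp
  ring

theorem dfn_mul_le {x y : ℝ} (hx0 : 0 ≤ x) (hx1 : x < 1) (hy0 : 0 ≤ y) (hy1 : y ≤ 1) :
    dfn (x * y) ≤ y ^ 2 * dfn x := by
  have h1 := dfn_hasSum (x := x * y) (by
    rw [abs_of_nonneg (by positivity)]
    nlinarith)
  have h2 := (dfn_hasSum (x := x) (by rw [abs_of_nonneg hx0]; exact hx1)).mul_left (y ^ 2)
  apply hasSum_le _ h1 h2
  intro n
  rcases Nat.eq_zero_or_pos n with h | h
  · subst h; simp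
  · have h3 : y ^ (n + 1) ≤ y ^ 2 := pow_le_pow_of_le_one hy0 hy1 (by omega)
    rw [mul_pow]
    have h4 : 0 ≤ x ^ (n + 1) * (n / (n + 1 : ℝ)) := by positivity
    calc x ^ (n + 1) * y ^ (n + 1) * (n / (n + 1 : ℝ))
        = y ^ (n + 1) * (x ^ (n + 1) * (n / (n + 1 : ℝ))) := by ring
      _ ≤ y ^ 2 * (x ^ (n + 1) * (n / (n + 1 : ℝ))) := mul_le_mul_of_nonneg_right h3 h4

/-- the small primes -/
def sp4 : Finset ℕ := {2, 3, 5, 7}

theorem DD_seven : DD 7 = ∑ q ∈ sp4, dfn (1 / (q : ℝ)) := by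
  unfold DD
  have : (Icc 1 7).filter Nat.Prime = sp4 := by decide
  rw [this]

theorem DD_seven_ge : (0.44075 : ℝ) ≤ DD 7 := by
  rw [DD_seven]
  have e : ∑ q ∈ sp4, dfn (1 / (q : ℝ)) = dfn (1 / 2) + dfn (1 / 3) + dfn (1 / 5) + dfn (1 / 7) := by
    unfold sp4
    rw [Finset.sum_insert (by decide), Finset.sum_insert (by decide), Finset.sum_insert (by decide),
      Finset.sum_singleton]
    push_cast
    ring
  rw [e]
  unfold dfn
  have h1 : Real.log (1 - 1 / 2) + Real.log (1 - 1 / 3) + Real.log (1 - 1 / 5) + Real.log (1 - 1 / 7)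
      = -(Real.log (35 / 32) + 2 * Real.log 2) := by
    rw [← Real.log_mul (by norm_num) (by norm_num), ← Real.log_mul (by norm_num) (by norm_num),
      ← Real.log_mul (by norm_num) (by norm_num)]
    have : (2 : ℝ) * Real.log 2 = Real.log (2 ^ 2) := by rw [Real.log_pow]; push_cast; ring
    rw [this, ← Real.log_mul (by norm_num) (by norm_num), ← Real.log_inv]
    congr 1
    norm_num
  have h2 : Real.log (35 / 32) ≤ 0.0896124 := by
    have h8 := log_series_upper 2 (x := 3 / 67) (by norm_num) (by norm_num)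
    have h9 : Real.log (1 + 3 / 67) - Real.log (1 - 3 / 67) = Real.log (35 / 32) := by
      rw [← Real.log_div (by norm_num) (by norm_num)]
      norm_num
    rw [h9] at h8
    refine h8.trans ?_
    simp only [Finset.sum_range_succ, Finset.sum_range_zero]
    norm_num
  have h3 := Real.log_two_lt_d9
  norm_num at h1 ⊢
  linarith

/-- exponent bound: sum over the four small primes, plus a tail. -/
def dd (s : ℝ) : ℝ := ∑ q ∈ sp4, dfn ((q : ℝ) ^ (-(1 + s))) + 0.01675 * ((7 : ℝ) ^ (-s)) ^ 2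

theorem rpow_split (q s : ℝ) (hq : 0 < q) : q ^ (-(1 + s)) = 1 / q * q ^ (-s) := by
  rw [show (-(1 + s)) = -s - 1 by ring, Real.rpow_sub_one hq.ne']
  field_simp

theorem sum_dfn_le {s : ℝ} (hs : 0 ≤ s) (P : Finset ℕ) (hP : ∀ q ∈ P, q.Prime) :
    ∑ q ∈ P, dfn ((q : ℝ) ^ (-(1 + s))) ≤ dd s := by
  classical
  have hx : ∀ q : ℕ, q.Prime → (0 : ℝ) ≤ (q : ℝ) ^ (-(1 + s)) ∧ (q : ℝ) ^ (-(1 + s)) < 1 := by
    intro q hq
    refine ⟨by positivity, ?_⟩
    apply Real.rpow_lt_one_of_one_lt_of_neg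
    · exact_mod_cast hq.one_lt
    · linarith
  rw [← Finset.sum_filter_add_sum_filter_not P (fun q => q ∈ sp4)]
  unfold dd
  apply add_le_add
  · apply Finset.sum_le_sum_of_subset_of_nonneg
    · intro q hq; exact (mem_filter.1 hq).2
    · intro q hq _
      have hp : q.Prime := by
        unfold sp4 at hq
        simp only [mem_insert, mem_singleton] at hq
        rcases hq with h | h | h | h <;> subst h <;> norm_num
      exact dfn_nonneg (hx q hp).1 (hx q hp).2
  · set Q := P.filter (fun q => q ∉ sp4) with hQ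
    have h1 : ∀ q ∈ Q, dfn ((q : ℝ) ^ (-(1 + s))) ≤ ((7 : ℝ) ^ (-s)) ^ 2 * dfn (1 / (q : ℝ)) := by
      intro q hq
      rw [hQ, mem_filter] at hq
      have hp := hP q hq.1
      have hq7 : 7 ≤ q := by
        by_contra hcon
        have : q < 7 := by omega
        interval_cases q <;> simp_all (config := { decide := true }) [sp4]
      have hq0 : (0 : ℝ) < q := by
        have := hp.pos
        exact_mod_cast this
      have hq1 : (1 : ℝ) < q := by exact_mod_cast hp.one_lt
      rw [rpow_split _ _ hq0]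
      have h2 : (q : ℝ) ^ (-s) ≤ (7 : ℝ) ^ (-s) := by
        rw [Real.rpow_neg hq0.le, Real.rpow_neg (by norm_num)]
        apply inv_anti₀ (Real.rpow_pos_of_pos (by norm_num) _)
        apply Real.rpow_le_rpow (by norm_num) _ hs
        exact_mod_cast hq7
      have h3 : (q : ℝ) ^ (-s) ≤ 1 := Real.rpow_le_one_of_one_le_of_nonpos hq1.le (by linarith)
      have h4 : 0 ≤ (q : ℝ) ^ (-s) := by positivity
      have h5 : (1 : ℝ) / q < 1 := by rw [div_lt_one hq0]; exact hq1
      have h6 := dfn_mul_le (x := 1 / (q : ℝ)) (by positivity) h5 h4 h3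
      refine h6.trans ?_
      apply mul_le_mul_of_nonneg_right _ (dfn_nonneg (by positivity) h5)
      exact pow_le_pow_left₀ h4 h2 2
    refine (Finset.sum_le_sum h1).trans ?_
    rw [← Finset.mul_sum, mul_comm]
    apply mul_le_mul_of_nonneg_right _ (by positivity)
    -- `∑_{Q} dfn (1/q) ≤ DD N - DD 7`
    have h2 : ∑ q ∈ Q, dfn (1 / (q : ℝ)) + DD 7 ≤ DD (Q.sup id + 7) := by
      rw [DD_seven, add_comm]
      have hdis : Disjoint sp4 Q := by
        rw [Finset.disjoint_left]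
        intro q hq hq'
        exact (mem_filter.1 hq').2 hq
      rw [← Finset.sum_union hdis]
      unfold DD
      apply Finset.sum_le_sum_of_subset_of_nonneg
      · intro q hq
        rw [mem_union] at hq
        rw [mem_filter, mem_Icc]
        rcases hq with h | h
        · unfold sp4 at h
          simp only [mem_insert, mem_singleton] at h
          rcases h with h | h | h | h <;> subst h <;> refine ⟨⟨by norm_num, by omega⟩, by norm_num⟩
        · have hp := hP q (mem_filter.1 h).1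
          refine ⟨⟨hp.pos, ?_⟩, hp⟩
          exact le_trans (Finset.le_sup (f := id) h) (by omega)
      · intro q hq _
        have hp := (mem_filter.1 hq).2
        have h2 : (2 : ℝ) ≤ q := by exact_mod_cast hp.two_le
        apply dfn_nonneg (by positivity)
        rw [div_lt_one (by linarith)]; linarith
    have h3 := DD_le (Q.sup id + 7)
    have h4 := DD_seven_ge
    linarith

/-- **Sum over prime powers**: `∑ v^{-1-s} ≤ log (Zt s) + dd s`. -/
theorem sum_pp_mid {s : ℝ} (hs : 0 < s) (F : Finset ℕ) (hF : ∀ v ∈ F, IsPrimePow v) :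
    ∑ v ∈ F, (v : ℝ) ^ (-(1 + s)) ≤ Real.log (Zt s) + dd s := by
  classical
  set N := F.sup id with hN
  have hFN : ∀ v ∈ F, v ≤ N := fun v hv => Finset.le_sup (f := id) hv
  set P := (N + 1).primesBelow with hP
  have hmaps : ∀ v ∈ F, v.minFac ∈ P := by
    intro v hv
    have hv1 : v ≠ 1 := by
      rintro rfl
      exact not_isPrimePow_one (hF 1 hv)
    have hv0 : 0 < v := (hF v hv).pos
    rw [hP, Nat.mem_primesBelow]
    exact ⟨lt_of_le_of_lt ((Nat.minFac_le hv0).trans (hFN v hv)) (Nat.lt_succ_self _),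
      Nat.minFac_prime hv1⟩
  rw [← Finset.sum_fiberwise_of_maps_to hmaps]
  have hx : ∀ q ∈ P, q.Prime ∧ (0 : ℝ) ≤ (q : ℝ) ^ (-(1 + s)) ∧ (q : ℝ) ^ (-(1 + s)) < 1 := by
    intro q hq
    have hp := Nat.prime_of_mem_primesBelow hq
    exact ⟨hp, by positivity, rpow_lt_one' hs hp.two_le⟩
  have h1 : ∀ q ∈ P, ∑ v ∈ F.filter (fun v => v.minFac = q), (v : ℝ) ^ (-(1 + s))
      ≤ -Real.log (1 - (q : ℝ) ^ (-(1 + s))) + dfn ((q : ℝ) ^ (-(1 + s))) := by
    intro q hq
    obtain ⟨hp, hx0, hx1⟩ := hx q hq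
    have hq2 : 2 ≤ q := hp.two_le
    have hsub : F.filter (fun v => v.minFac = q) ⊆ (Icc 1 N).image (fun f => q ^ f) := by
      intro n hn
      rw [mem_filter] at hn
      obtain ⟨hn1, hn2⟩ := hn
      obtain ⟨p, k, hp', hk, hpk⟩ := hF n hn1
      have hp'' : p.Prime := hp'.nat_prime
      have hpq : p = q := by
        rw [← hn2, ← hpk]
        exact (Nat.Prime.pow_minFac hp'' (by omega)).symm
      rw [mem_image]
      refine ⟨k, ?_, by rw [← hpk, hpq]⟩
      rw [mem_Icc]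
      refine ⟨hk, ?_⟩
      have h2 : k < 2 ^ k := Nat.lt_two_pow_self
      have h3 : 2 ^ k ≤ q ^ k := Nat.pow_le_pow_left hq2 k
      have h4 : q ^ k = n := by rw [← hpq]; exact hpk
      have h5 := hFN n hn1
      omega
    calc ∑ v ∈ F.filter (fun v => v.minFac = q), (v : ℝ) ^ (-(1 + s))
        ≤ ∑ v ∈ (Icc 1 N).image (fun f => q ^ f), (v : ℝ) ^ (-(1 + s)) :=
          Finset.sum_le_sum_of_subset_of_nonneg hsub (fun v _ _ => by positivity)
      _ = ∑ f ∈ Icc 1 N, ((q : ℝ) ^ (-(1 + s))) ^ f := by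
          rw [Finset.sum_image (fun a _ b _ hab => Nat.pow_right_injective hq2 hab)]
          apply Finset.sum_congr rfl
          intro f _
          push_cast
          rw [← Real.rpow_natCast ((q : ℝ) ^ (-(1 + s))) f, ← Real.rpow_mul (Nat.cast_nonneg q),
            ← Real.rpow_natCast (q : ℝ) f, ← Real.rpow_mul (Nat.cast_nonneg q), mul_comm]
      _ ≤ (q : ℝ) ^ (-(1 + s)) / (1 - (q : ℝ) ^ (-(1 + s))) := geo_finset hx0 hx1 N
      _ = -Real.log (1 - (q : ℝ) ^ (-(1 + s))) + dfn ((q : ℝ) ^ (-(1 + s))) := by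
          unfold dfn; ring
  refine (Finset.sum_le_sum h1).trans ?_
  rw [Finset.sum_add_distrib]
  have h2 : ∑ q ∈ P, -Real.log (1 - (q : ℝ) ^ (-(1 + s))) ≤ Real.log (Zt s) := by
    have h3 := euler_prod_mid hs (N + 1)
    have h4 : ∑ q ∈ P, -Real.log (1 - (q : ℝ) ^ (-(1 + s)))
        = Real.log (∏ q ∈ P, (1 - (q : ℝ) ^ (-(1 + s)))⁻¹) := by
      rw [Real.log_prod (fun q hq => by
        obtain ⟨-, -, hx1⟩ := hx q hq
        have : 0 < 1 - (q : ℝ) ^ (-(1 + s)) := by linarith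
        positivity)]
      apply Finset.sum_congr rfl
      intro q _
      rw [Real.log_inv]
    rw [h4]
    apply Real.log_le_log _ h3
    apply Finset.prod_pos
    intro q hq
    obtain ⟨-, -, hx1⟩ := hx q hq
    have : 0 < 1 - (q : ℝ) ^ (-(1 + s)) := by linarith
    positivity
  have h3 := sum_dfn_le hs.le P (fun q hq => (hx q hq).1)
  linarith

end

end Pool.Agent.EZ
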