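import Pool.Agent.EZ.LP
import Pool.Agent.EZ.MertensSup

/-!
# Bounds for the supremum of the payoff from Mertens
-/

set_option autoImplicit false
set_option linter.unusedSectionVars false

namespace Pool.Agent.EZ

open Finset

/-- Mertens type bound for the prime powers above `ρ`, with error `δ`. -/
def MB (ρ δ : ℝ) : Prop := ∀ F : Finset ℕ, (∀ v ∈ F, IsPrimePow v ∧ ρ < v) → ∀ s : ℝ, 0 < s →
  ∑ v ∈ F, (v : ℝ) ^ (-1 - s) ≤ EE (s * Real.log ρ) + δ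

theorem MB.mono {ρ δ δ' : ℝ} (h : MB ρ δ) (hd : δ ≤ δ') : MB ρ δ' := fun F hF s hs =>
  (h F hF s hs).trans (by linarith)

theorem gw_le {s x : ℝ} (hs : 0 ≤ s) (hx : 1 < x) : gw s x ≤ 1 / Real.log x := by
  unfold gw
  have h1 := Real.log_pos hx
  have h2 : x ^ (-s) ≤ 1 := Real.rpow_le_one_of_one_le_of_nonpos hx.le (by linarith)
  exact div_le_div_of_nonneg_right h2 h1.le

/-- the bound from the table. -/
theorem MB_small {n : ℕ} {ρ : ℝ} (hn : 2 ≤ n) (hn' : n < 10000) (h1 : (n : ℝ) ≤ ρ) (h2 : ρ ≤ n + 1)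
    (hη : 0 ≤ 1.6386 - (e1 n : ℝ) / 10000) :
    MB ρ ((1.6386 - (e1 n : ℝ) / 10000) / Real.log ρ + 0.2264 / Real.log 10000) := by
  intro F hF s hs
  have hρ : 1 < ρ := by
    have : (2 : ℝ) ≤ n := by exact_mod_cast hn
    linarith
  have h := R_bound_small F n ρ s hs hn hn' h1 h2 hη hF
  have g1 := gw_le hs.le hρ
  have g2 := gw_le hs.le (by norm_num : (1 : ℝ) < ((10000 : ℕ) : ℝ))
  have h3 := mul_le_mul_of_nonneg_left g1 hη
  have h4 := mul_le_mul_of_nonneg_left g2 (by norm_num : (0 : ℝ) ≤ 0.2264)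
  push_cast at h4 h
  have e1' : (1.6386 - (e1 n : ℝ) / 10000) * (1 / Real.log ρ)
      = (1.6386 - (e1 n : ℝ) / 10000) / Real.log ρ := by ring
  have e2' : 0.2264 * (1 / Real.log 10000) = 0.2264 / Real.log 10000 := by ring
  linarith

theorem MB_large {ρ : ℝ} (h : 10000 ≤ ρ) : MB ρ (0.4441 / Real.log ρ) := by
  intro F hF s hs
  have h1 := R_bound_large F ⌊ρ⌋₊ ρ s hs (by
      have : (10000 : ℕ) ≤ ⌊ρ⌋₊ := Nat.le_floor (by exact_mod_cast h)
      exact this) (Nat.floor_le (by linarith)) (Nat.lt_floor_add_one ρ).le hF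
  have g1 := gw_le hs.le (by linarith : 1 < ρ)
  have h3 := mul_le_mul_of_nonneg_left g1 (by norm_num : (0 : ℝ) ≤ 0.4441)
  have e2' : 0.4441 * (1 / Real.log ρ) = 0.4441 / Real.log ρ := by ring
  linarith

/-- the density of a finite set of prime powers. -/
theorem XX_le (VS : Finset ℕ) (S : ℕ → ℝ) (hS0 : ∀ v ∈ VS, 0 ≤ S v) (hS1 : ∀ v ∈ VS, S v ≤ 1)
    (hpp : ∀ v ∈ VS, IsPrimePow v) (ρ δ W : ℝ) (hMB : MB ρ δ)
    (hW : ∑ v ∈ VS.filter (fun v : ℕ => (v : ℝ) ≤ ρ), S v / (v : ℝ) ≤ W) (s : ℝ) (hs : 0 < s) :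
    XX VS S (fun v : ℕ => (v : ℝ)) s ≤ EE (s * Real.log ρ) + (W + δ) := by
  unfold XX
  rw [← Finset.sum_filter_add_sum_filter_not VS (fun v : ℕ => (v : ℝ) ≤ ρ)]
  have h1 : ∑ v ∈ VS.filter (fun v : ℕ => (v : ℝ) ≤ ρ), aa S (fun v : ℕ => (v : ℝ)) v s
      ≤ ∑ v ∈ VS.filter (fun v : ℕ => (v : ℝ) ≤ ρ), S v / (v : ℝ) := by
    apply Finset.sum_le_sum
    intro v hv
    obtain ⟨hv1, -⟩ := Finset.mem_filter.1 hv
    have hv2 : (1 : ℝ) < v := by exact_mod_cast (hpp v hv1).one_lt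
    have := aa_anti S (fun v : ℕ => (v : ℝ)) v (hS0 v hv1) hv2 hs.le
    rwa [aa_zero] at this
  have h2 : ∑ v ∈ VS.filter (fun v : ℕ => ¬ (v : ℝ) ≤ ρ), aa S (fun v : ℕ => (v : ℝ)) v s
      ≤ ∑ v ∈ VS.filter (fun v : ℕ => ¬ (v : ℝ) ≤ ρ), (v : ℝ) ^ (-1 - s) := by
    apply Finset.sum_le_sum
    intro v hv
    obtain ⟨hv1, -⟩ := Finset.mem_filter.1 hv
    unfold aa
    have e : -(1 + s) = -1 - s := by ring
    rw [e]
    exact mul_le_of_le_one_left (Real.rpow_nonneg (by positivity) _) (hS1 v hv1)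
  have h3 := hMB (VS.filter (fun v : ℕ => ¬ (v : ℝ) ≤ ρ)) (by
    intro v hv
    obtain ⟨hv1, hv2⟩ := Finset.mem_filter.1 hv
    exact ⟨hpp v hv1, not_le.1 hv2⟩) s hs
  linarith

/-- the bound for the supremum of the payoff. -/
theorem K_bound (VS : Finset ℕ) (S : ℕ → ℝ) (hS0 : ∀ v ∈ VS, 0 ≤ S v) (hS1 : ∀ v ∈ VS, S v ≤ 1)
    (hpp : ∀ v ∈ VS, IsPrimePow v) (ρ δ W u : ℝ) (hρ : 1 < ρ) (hu : 1 < u) (hMB : MB ρ δ)
    (hW : ∑ v ∈ VS.filter (fun v : ℕ => (v : ℝ) ≤ ρ), S v / (v : ℝ) ≤ W) (s : ℝ) (hs : 0 ≤ s) :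
    Real.exp (XX VS S (fun v : ℕ => (v : ℝ)) s) * (1 - u ^ (-s))
      ≤ 1.123 * max 1 (Real.log u / (2 * Real.log ρ)) * Real.exp (W + δ) := by
  have hlρ : 0 < Real.log ρ := Real.log_pos hρ
  have hE := Real.exp_pos (W + δ)
  have hm : (1 : ℝ) ≤ max 1 (Real.log u / (2 * Real.log ρ)) := le_max_left _ _
  rcases hs.eq_or_lt with h | h
  · subst h
    simp only [neg_zero, Real.rpow_zero, sub_self, mul_zero]
    positivity
  · have h1 := XX_le VS S hS0 hS1 hpp ρ δ W hMB hW s h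
    have h2 : 0 ≤ 1 - u ^ (-s) := by
      have := Real.rpow_le_one_of_one_le_of_nonpos hu.le (show -s ≤ 0 by linarith)
      linarith
    have h3 := Flam_le (y := s * Real.log ρ) (lam := Real.log u / Real.log ρ) (mul_pos h hlρ)
    have e1' : Real.exp (-(Real.log u / Real.log ρ * (s * Real.log ρ))) = u ^ (-s) := by
      rw [Real.rpow_def_of_pos (by linarith)]
      congr 1
      field_simp
    have e2' : Real.log u / Real.log ρ / 2 = Real.log u / (2 * Real.log ρ) := by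
      field_simp
    rw [e1', e2'] at h3
    calc Real.exp (XX VS S (fun v : ℕ => (v : ℝ)) s) * (1 - u ^ (-s))
        ≤ Real.exp (EE (s * Real.log ρ) + (W + δ)) * (1 - u ^ (-s)) :=
          mul_le_mul_of_nonneg_right (Real.exp_le_exp.2 h1) h2
      _ = (Real.exp (EE (s * Real.log ρ)) * (1 - u ^ (-s))) * Real.exp (W + δ) := by
          rw [Real.exp_add]; ring
      _ ≤ _ := mul_le_mul_of_nonneg_right h3 hE.le

end Pool.Agent.EZ
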