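import Pool.Agent.EZ.LPair

/-!
# Accounts of the roots 4 and 8 (modules L4 and L8)
-/

set_option autoImplicit false

namespace Pool.Agent.EZ.L48

open Finset Pool.Agent.EZ

/-! ### the function `phi` -/

theorem den_pos {L x : ℝ} (hL : 0 < L) (h0 : 0 ≤ x) (h1 : x ≤ 1) : 0 < x + L * (1 - x) := by
  rcases eq_or_lt_of_le h0 with h | h
  · rw [← h]; simpa using hL
  · have : 0 ≤ L * (1 - x) := mul_nonneg hL.le (by linarith)
    linarith

theorem phi_nonneg {L x : ℝ} (hL : 0 < L) (h0 : 0 ≤ x) (h1 : x ≤ 1) : 0 ≤ phi L x := by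
  unfold phi
  exact div_nonneg (mul_nonneg hL.le (by linarith)) (den_pos hL h0 h1).le

theorem phi_sub {L s a : ℝ} (hL : 0 < L) (hs0 : 0 ≤ s) (hs1 : s ≤ 1) (ha0 : 0 ≤ a) (ha1 : a ≤ 1) :
    phi L s - phi L a = L * (a - s) / ((s + L * (1 - s)) * (a + L * (1 - a))) := by
  have h1 := (den_pos hL hs0 hs1).ne'
  have h2 := (den_pos hL ha0 ha1).ne'
  unfold phi
  field_simp
  ring

theorem phi_anti {L s a : ℝ} (hL : 0 < L) (hs0 : 0 ≤ s) (hsa : s ≤ a) (ha1 : a ≤ 1) :
    phi L a ≤ phi L s := by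
  have h := phi_sub (s := s) (a := a) hL hs0 (hsa.trans ha1) (hs0.trans hsa) ha1
  have h1 := den_pos hL hs0 (hsa.trans ha1)
  have h2 := den_pos hL (hs0.trans hsa) ha1
  have h3 : 0 ≤ L * (a - s) / ((s + L * (1 - s)) * (a + L * (1 - a))) := by
    apply div_nonneg (mul_nonneg hL.le (by linarith)) (mul_pos h1 h2).le
  linarith

/-- chord bound. -/
theorem phi_chord {L s a t : ℝ} (hL : 0 < L) (hL1 : L ≤ 1) (hs0 : 0 ≤ s) (hsa : s ≤ a)
    (hat : a ≤ t) (ht1 : t ≤ 1) :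
    (t - s) * phi L a ≤ (t - a) * phi L s + (a - s) * phi L t := by
  have ha0 : 0 ≤ a := hs0.trans hsa
  have ha1 : a ≤ 1 := hat.trans ht1
  have h1 := phi_sub (s := s) (a := a) hL hs0 (hsa.trans ha1) ha0 ha1
  have h2 := phi_sub (s := a) (a := t) hL ha0 ha1 (ha0.trans hat) ht1
  have d1 := den_pos hL hs0 (hsa.trans ha1)
  have d2 := den_pos hL ha0 ha1
  have d3 := den_pos hL (ha0.trans hat) ht1
  set D1 := s + L * (1 - s) with hD1
  set D2 := a + L * (1 - a) with hD2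
  set D3 := t + L * (1 - t) with hD3
  have h13 : D1 ≤ D3 := by
    rw [hD1, hD3]
    nlinarith [mul_nonneg (sub_nonneg.2 hL1) (sub_nonneg.2 (hsa.trans hat))]
  have h4 : (t - a) * (L * (a - s) / (D1 * D2)) ≥ (a - s) * (L * (t - a) / (D2 * D3)) := by
    have h5 : 0 ≤ L * (a - s) * (t - a) :=
      mul_nonneg (mul_nonneg hL.le (by linarith)) (by linarith)
    have h6 : 1 / (D2 * D3) ≤ 1 / (D1 * D2) := by
      apply one_div_le_one_div_of_le (mul_pos d1 d2)
      rw [mul_comm D2 D3]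
      exact mul_le_mul_of_nonneg_right h13 d2.le
    have h7 := mul_le_mul_of_nonneg_left h6 h5
    have e1 : (t - a) * (L * (a - s) / (D1 * D2)) = L * (a - s) * (t - a) * (1 / (D1 * D2)) := by
      ring
    have e2 : (a - s) * (L * (t - a) / (D2 * D3)) = L * (a - s) * (t - a) * (1 / (D2 * D3)) := by
      ring
    rw [e1, e2]
    exact h7
  rw [← h1, ← h2] at h4
  nlinarith

/-! ### the numbers -/

/-- `log 2 * hh (2^k)`. -/
noncomputable def sk (k : ℕ) : ℝ := 1 / ((k : ℝ) * 2 ^ k)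

theorem hh_two (k : ℕ) : Real.log 2 * hh ((2 : ℝ) ^ k) = sk k := by
  have hl : Real.log 2 ≠ 0 := (Real.log_pos (by norm_num)).ne'
  unfold hh sk
  rcases Nat.eq_zero_or_pos k with h | h
  · subst h; simp
  · have hk : (k : ℝ) ≠ 0 := by exact_mod_cast h.ne'
    rw [Real.log_pow]
    field_simp

theorem sk_nonneg (k : ℕ) : 0 ≤ sk k := by unfold sk; positivity

theorem sk_le (k : ℕ) : sk k ≤ (1 / 2 : ℝ) ^ k := by
  unfold sk
  rcases Nat.eq_zero_or_pos k with h | h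
  · subst h; simp
  · have hk : (1 : ℝ) ≤ k := by exact_mod_cast h
    rw [one_div_pow]
    apply one_div_le_one_div_of_le (by positivity)
    nlinarith [pow_pos (show (0 : ℝ) < 2 by norm_num) k]

theorem sk_summable (m : ℕ) : Summable (fun i => sk (m + i)) := by
  refine Summable.of_nonneg_of_le (fun i => sk_nonneg _) (fun i => sk_le _) ?_
  have := summable_geometric_two.mul_left ((1 / 2 : ℝ) ^ m)
  exact this.congr fun i => by rw [pow_add]

/-- the tail `∑_{i} sk (m+i)`. -/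
noncomputable def Rm (m : ℕ) : ℝ := ∑' i, sk (m + i)

theorem Rm_succ (m : ℕ) : Rm m = sk m + Rm (m + 1) := by
  unfold Rm
  rw [(sk_summable m).tsum_eq_zero_add]
  simp only [Nat.add_zero]
  congr 1
  apply tsum_congr
  intro i
  congr 1
  omega

theorem Rm_nonneg (m : ℕ) : 0 ≤ Rm m := tsum_nonneg fun i => sk_nonneg _

theorem Rm_le (m : ℕ) (hm : 1 ≤ m) : Rm m ≤ 2 / ((m : ℝ) * 2 ^ m) := by
  have hm0 : (0 : ℝ) < m := by exact_mod_cast hm
  have h : ∀ i, sk (m + i) ≤ (1 / ((m : ℝ) * 2 ^ m)) * (1 / 2 : ℝ) ^ i := by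
    intro i
    unfold sk
    rw [one_div_pow, ← one_div_mul_one_div_rev]
    rw [one_div_mul_one_div_rev, one_div_mul_one_div_rev]
    apply one_div_le_one_div_of_le (by positivity)
    push_cast
    rw [pow_add]
    have h1 : (0 : ℝ) < 2 ^ m := by positivity
    have h2 : (0 : ℝ) < 2 ^ i := by positivity
    have h3 : (0 : ℝ) ≤ i := Nat.cast_nonneg i
    nlinarith [mul_pos h1 h2, mul_nonneg h3 (mul_pos h1 h2).le]
  have h2 : Summable (fun i : ℕ => (1 / ((m : ℝ) * 2 ^ m)) * (1 / 2 : ℝ) ^ i) :=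
    summable_geometric_two.mul_left _
  unfold Rm
  refine ((sk_summable m).tsum_le_tsum h h2).trans (le_of_eq ?_)
  rw [tsum_mul_left, tsum_geometric_two]
  ring

theorem Tz_two (e : ℕ) : Real.log 2 * Tz 2 e = Rm (e + 1) := by
  unfold Tz Rm
  rw [← tsum_mul_left]
  apply tsum_congr
  intro i
  have := hh_two (e + 1 + i)
  push_cast
  exact this


/-! ### the reduction to one variable -/

/-- the account of the root `2 ^ e` from the top lemma. -/
theorem account (hTL : Stmt_TL) (e : ℕ) (he : 2 ≤ e) (x : ℕ) (hx : ck (2 ^ e) 2 0 = x)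
    (l t : ℝ) (hl : LINB (2 ^ e) x l)
    (ht : ∀ M, Fam (2 ^ e) M → Inter Nat.minFac (↑M : Set (Finset ℕ)) →
      mass (2 ^ e) x M ≤ t * Tz 2 e)
    (A l' L : ℕ → ℝ) (hA : ∀ i, AvgABS (2 ^ (e + 1 + i)) (A i))
    (hl' : ∀ i, 0 ≤ l' i ∧ LINB (2 ^ (e + 1 + i)) (ck (2 ^ (e + 1 + i)) 2 0) (l' i))
    (hL : ∀ i, 0 < L i)
    (hpair : ∀ i, ∃ w w' : ℕ → ℝ,
      (∀ r, 0 ≤ w r ∧ 0 ≤ w' r ∧ 1 ≤ Real.exp (-w r) + Real.exp (-w' r) ∧
        (Real.exp (w r) - 1) * (Real.exp (w' r) - 1) ≤ L i) ∧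
      (∀ VS : Finset ℕ, (∀ v ∈ VS, IsPrimePow v ∧ v.minFac ≠ 2) → ∀ r,
        ∑ v ∈ VS.filter (fun v => v.minFac = r), Sx x v / (v : ℝ) ≤ w r ∧
        ∑ v ∈ VS.filter (fun v => v.minFac = r), Sx (ck (2 ^ (e + 1 + i)) 2 0) v / (v : ℝ)
          ≤ w' r))
    (hnum : ∀ a : ℝ, 0 ≤ a → a ≤ 1 → ∀ K : ℕ, min (t * Rm (e + 1)) (l * a * sk e)
      + ∑ i ∈ range K, sk (e + 1 + i) * min (A i) (l' i * phi (L i) a) ≤ Rm (e + 1)) :
    TopOK 2 e := by
  intro B hB hpe hM K
  have hp2 : Nat.Prime 2 := Nat.prime_two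
  have hlog : 0 < Real.log 2 := Real.log_pos (by norm_num)
  have hne9 : ∀ k, 2 ^ k ≠ 9 := by
    intro k hk
    have h2 : 2 ∣ 9 := by
      rw [← hk]
      rcases Nat.eq_zero_or_pos k with h | h
      · subst h; simp at hk
      · exact dvd_pow_self 2 h.ne'
    omega
  have hpk : ∀ k, 2 ≤ k → ∀ j : Fin 5, pk (2 ^ k) 2 j ≠ 0 → j = 0 := by
    intro k hk j hj
    rw [pk_power 2 k j hp2 hk (hne9 k)] at hj
    by_contra hc
    have : (j : ℕ) ≠ 0 := fun h => hc (Fin.ext h)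
    exact hj (if_neg this)
  have hpk0 : pk (2 ^ e) 2 (0 : Fin 5) ≠ 0 := by
    rw [pk_power 2 e _ hp2 he (hne9 e)]
    norm_num
  have hhpos : 0 < hh (((2 : ℕ) : ℝ) ^ e) := by
    have h1 := hh_two e
    have h2 : 0 < sk e := by
      have : (0 : ℝ) < e := by exact_mod_cast (show 0 < e by omega)
      unfold sk; positivity
    have h3 : 0 < Real.log 2 * hh ((2 : ℝ) ^ e) := by rw [h1]; exact h2
    push_cast
    exact (pos_iff_pos_of_mul_pos h3).1 hlog
  obtain ⟨a, ha, h1, h2⟩ := hTL B 2 e hB hp2 (by omega) hpe (fun _ => l)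
    (fun _ => t * Tz 2 e / hh (((2 : ℕ) : ℝ) ^ e)) A (fun i _ => l' i) (fun _ i _ => L i) (by
      intro j hj
      have hj0 := hpk e he j hj
      subst hj0
      refine ⟨by simpa [hx] using hl, ?_⟩
      intro M hM hI
      have := ht M hM hI
      have e1 : t * Tz 2 e / hh (((2 : ℕ) : ℝ) ^ e) * hh ((2 ^ e : ℕ) : ℝ) = t * Tz 2 e := by
        push_cast
        push_cast at hhpos
        field_simp
      rw [e1]
      simpa [hx] using this) hA (by
      intro i j hj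
      have hj0 := hpk (e + 1 + i) (by omega) j hj
      subst hj0
      exact hl' i) (by
      intro j i j'
      exact hL i) (by
      intro j i j' hj hj'
      have hj0 := hpk e he j hj
      have hj0' := hpk (e + 1 + i) (by omega) j' hj'
      subst hj0
      subst hj0'
      have := hpair i
      simpa [hx] using this)
  have hs1 : ∑ j : Fin 5, qD (2 ^ e) j * min (t * Tz 2 e / hh (((2 : ℕ) : ℝ) ^ e)) (l * a j)
      = min (t * Tz 2 e / hh (((2 : ℕ) : ℝ) ^ e)) (l * a 0) := by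
    rw [Finset.sum_eq_single (0 : Fin 5)]
    · rw [qD_power 2 e 0 hp2 he (hne9 e), if_pos rfl, one_mul]
    · intro j _ hj
      rw [qD_power 2 e j hp2 he (hne9 e), if_neg hj, zero_mul]
    · intro h; exact absurd (Finset.mem_univ _) h
  rw [hs1] at h1
  obtain ⟨ha0, ha1⟩ := ha 0
  have b1 : Real.log 2 * ld qD cD B (2 ^ e) ≤ min (t * Rm (e + 1)) (l * a 0 * sk e) := by
    refine le_min ?_ ?_
    · rw [← Tz_two]
      have h3 : ld qD cD B (2 ^ e) ≤ t * Tz 2 e := by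
        refine h1.trans ?_
        have h4 := mul_le_mul_of_nonneg_left
          (min_le_left (t * Tz 2 e / hh (((2 : ℕ) : ℝ) ^ e)) (l * a 0)) hhpos.le
        refine h4.trans (le_of_eq ?_)
        field_simp
      nlinarith
    · rw [← hh_two]
      have h3 : ld qD cD B (2 ^ e) ≤ hh (((2 : ℕ) : ℝ) ^ e) * (l * a 0) := by
        refine h1.trans ?_
        exact mul_le_mul_of_nonneg_left (min_le_right _ _) hhpos.le
      push_cast at h3
      nlinarith
  have b2 : ∀ i, Real.log 2 * ld qD cD B (2 ^ (e + 1 + i))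
      ≤ sk (e + 1 + i) * min (A i) (l' i * phi (L i) (a 0)) := by
    intro i
    obtain ⟨h3, h4⟩ := h2 i
    have h5 := h4 0 hpk0
    have hs2 : ∑ j' : Fin 5, qD (2 ^ (e + 1 + i)) j' * (l' i * phi (L i) (a 0))
        = l' i * phi (L i) (a 0) := by
      rw [← Finset.sum_mul, qD_sum, one_mul]
    rw [hs2] at h5
    have h6 : 0 ≤ hh (((2 : ℕ) : ℝ) ^ (e + 1 + i)) := by
      have h7 := hh_two (e + 1 + i)
      have h8 := sk_nonneg (e + 1 + i)
      push_cast
      rw [← h7] at h8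
      exact (mul_nonneg_iff_of_pos_left hlog).1 h8
    rw [← hh_two, mul_assoc]
    apply mul_le_mul_of_nonneg_left _ hlog.le
    push_cast at h3 h5 h6
    rw [mul_min_of_nonneg _ _ h6]
    exact le_min h3 h5
  have h9 := hnum (a 0) ha0 ha1 K
  have h10 : Real.log 2 * (ld qD cD B (2 ^ e) + ∑ i ∈ range K, ld qD cD B (2 ^ (e + 1 + i)))
      ≤ Real.log 2 * Tz 2 e := by
    rw [Tz_two, mul_add, Finset.mul_sum]
    have := Finset.sum_le_sum (fun i (_ : i ∈ range K) => b2 i)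
    linarith
  exact le_of_mul_le_mul_left h10 hlog

end Pool.Agent.EZ.L48
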