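import Pool.Agent.EZ.Cap

/-!
# Modules L5 and L7, part 1: numeric tools
-/

set_option autoImplicit false
set_option linter.unusedSectionVars false
set_option linter.unusedVariables false

namespace Pool.Agent.EZ

open Finset

namespace L57

theorem exp_le4 {w : ℝ} (h0 : 0 ≤ w) (h1 : w ≤ 1) :
    Real.exp w - 1 ≤ w + w ^ 2 / 2 + w ^ 3 / 6 + w ^ 4 * (5 / 96) := by
  have := Real.exp_bound' h0 h1 (n := 4) (by norm_num)
  simp only [Finset.sum_range_succ, Finset.sum_range_zero, Nat.factorial] at this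
  norm_num at this
  linarith

/-- the two weight conditions of the top lemma. -/
theorem wcond {w w' e e' Lam : ℝ} (h0 : 0 ≤ w) (h0' : 0 ≤ w') (hs : w + w' ≤ 1)
    (he : w + w ^ 2 / 2 + w ^ 3 / 6 + w ^ 4 * (5 / 96) ≤ e)
    (he' : w' + w' ^ 2 / 2 + w' ^ 3 / 6 + w' ^ 4 * (5 / 96) ≤ e')
    (hL : e * e' ≤ Lam) :
    0 ≤ w ∧ 0 ≤ w' ∧ 1 ≤ Real.exp (-w) + Real.exp (-w') ∧
      (Real.exp w - 1) * (Real.exp w' - 1) ≤ Lam := by
  refine ⟨h0, h0', ?_, ?_⟩
  · have h1 := Real.add_one_le_exp (-w)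
    have h2 := Real.add_one_le_exp (-w')
    linarith
  · have h1 := (exp_le4 h0 (by linarith)).trans he
    have h2 := (exp_le4 h0' (by linarith)).trans he'
    have h3 : 0 ≤ Real.exp w' - 1 := by linarith [Real.add_one_le_exp w']
    have h4 : 0 ≤ Real.exp w - 1 := by linarith [Real.add_one_le_exp w]
    calc (Real.exp w - 1) * (Real.exp w' - 1) ≤ e * e' :=
          mul_le_mul h1 h2 h3 (h4.trans h1)
      _ ≤ Lam := hL

/-- prime weight bounds. -/
def WB (p x : ℕ) (w : ℕ → ℝ) : Prop :=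
  ∀ VS : Finset ℕ, (∀ v ∈ VS, IsPrimePow v ∧ v.minFac ≠ p) → ∀ r,
    ∑ v ∈ VS.filter (fun v => v.minFac = r), Sx x v / (v : ℝ) ≤ w r

theorem WB_of {p x : ℕ} {w : ℕ → ℝ} (h0 : ∀ r, 0 ≤ w r)
    (h : ∀ r, r.Prime → r ≠ p → ∀ K, ∑ k ∈ Icc 1 K, Sx x (r ^ k) / ((r ^ k : ℕ) : ℝ) ≤ w r) :
    WB p x w := by
  intro VS hVS r
  rcases sum_over_prime VS (fun v hv => (hVS v hv).1) r (fun v => Sx x v / (v : ℝ))
    (fun w => Sx_div_nonneg x w) with h1 | ⟨hr, K, hK⟩
  · rw [h1]; exact h0 r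
  · by_cases hrp : r = p
    · have : ∑ v ∈ VS.filter (fun v => v.minFac = r), Sx x v / (v : ℝ) = 0 := by
        apply Finset.sum_eq_zero
        intro v hv
        obtain ⟨h2, h3⟩ := Finset.mem_filter.1 hv
        exact absurd (h3.trans hrp) (hVS v h2).2
      rw [this]; exact h0 r
    · exact hK.trans (h r hr hrp K)

/-- computable bound for one prime. -/
theorem wt_small (x r m : ℕ) (hr : r.Prime) (c : ℝ)
    (h : ∑ k ∈ Icc 1 m, (svN x (r ^ k) r : ℝ) / 1000 / ((r ^ k : ℕ) : ℝ)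
      + (r : ℝ) / ((r : ℝ) ^ (m + 1) * ((r : ℝ) - 1)) ≤ c) (K : ℕ) :
    ∑ k ∈ Icc 1 K, Sx x (r ^ k) / ((r ^ k : ℕ) : ℝ) ≤ c := by
  have s1 := Icc_split (fun k => Sx x (r ^ k) / ((r ^ k : ℕ) : ℝ)) (fun k => Sx_div_nonneg _ _) 1 m K
    (by omega)
  have s2 := full_tail x r (m + 1) K hr.two_le
  refine s1.trans (le_trans (add_le_add (le_of_eq ?_) s2) h)
  apply Finset.sum_congr rfl
  intro k hk
  have hk1 := (Finset.mem_Icc.1 hk).1
  rw [Sx_eq_svN x (r ^ k) r (hr.pow_minFac (by omega))]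

theorem wt_big (x r : ℕ) (hr : r.Prime) (h11 : 11 ≤ r) (K : ℕ) :
    ∑ k ∈ Icc 1 K, Sx x (r ^ k) / ((r ^ k : ℕ) : ℝ) ≤ 1 / 10 := by
  have s2 := full_tail x r 1 K hr.two_le
  refine s2.trans ?_
  have hr' : (11 : ℝ) ≤ r := by exact_mod_cast h11
  have h1 : (0 : ℝ) < (r : ℝ) - 1 := by linarith
  have h2 : (0 : ℝ) < r := by linarith
  rw [pow_one, div_le_div_iff₀ (mul_pos h2 h1) (by norm_num)]
  nlinarith

theorem prime_cases {r : ℕ} (hr : r.Prime) : r = 2 ∨ r = 3 ∨ r = 5 ∨ r = 7 ∨ 11 ≤ r := by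
  rcases Nat.lt_or_ge r 11 with h | h
  · have h2 := hr.two_le
    interval_cases r <;> simp_all (config := {decide := true})
  · simp [h]

/-- chord bound for `phi`. -/
theorem phi_chord {L b d a : ℝ} (hL : 0 < L) (hL1 : L < 1) (hb : 0 < b) (hba : b ≤ a) (had : a ≤ d) :
    phi L a ≤ L / (1 - L) * ((L + (1 - L) * (b + d - a)) /
      ((L + (1 - L) * b) * (L + (1 - L) * d)) - 1) := by
  have h1 : 0 < 1 - L := by linarith
  have hB : 0 < L + (1 - L) * b := by positivity
  have ha : 0 < a := by linarith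
  have hA : 0 < L + (1 - L) * a := by positivity
  have hd : 0 < d := by linarith
  have hD : 0 < L + (1 - L) * d := by positivity
  have e1 : phi L a = L / (1 - L) * (1 / (L + (1 - L) * a) - 1) := by
    unfold phi
    have : a + L * (1 - a) = L + (1 - L) * a := by ring
    rw [this]
    field_simp
    ring
  rw [e1]
  apply mul_le_mul_of_nonneg_left _ (by positivity)
  apply sub_le_sub_right
  rw [div_le_div_iff₀ hA (mul_pos hB hD)]
  have k1 : 0 ≤ (1 - L) * (a - b) := mul_nonneg h1.le (by linarith)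
  have k2 : 0 ≤ (1 - L) * (d - a) := mul_nonneg h1.le (by linarith)
  nlinarith [mul_nonneg k1 k2]

theorem phi_anti {L a d : ℝ} (hL : 0 < L) (hL1 : L < 1) (hd : 0 ≤ d) (h : d ≤ a) (ha : a ≤ 1) :
    phi L a ≤ phi L d := by
  unfold phi
  have h1 : 0 < 1 - L := by linarith
  have hA : 0 < a + L * (1 - a) := by nlinarith
  have hD : 0 < d + L * (1 - d) := by nlinarith
  rw [div_le_div_iff₀ hA hD]
  nlinarith

/-- value of the chord at the endpoints. -/
noncomputable def ch (L b d a : ℝ) : ℝ :=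
  L / (1 - L) * ((L + (1 - L) * (b + d - a)) / ((L + (1 - L) * b) * (L + (1 - L) * d)) - 1)

theorem ch_affine {L b d a : ℝ} (hbd : b < d) :
    ch L b d a = ch L b d b * ((d - a) / (d - b)) + ch L b d d * ((a - b) / (d - b)) := by
  have : d - b ≠ 0 := by linarith
  unfold ch
  field_simp
  ring

theorem ch_left {L b d : ℝ} (hL : 0 < L) (hL1 : L < 1) (hb : 0 < b) (hd : 0 < d) :
    ch L b d b = phi L b := by
  have h1 : 0 < 1 - L := by linarith
  have hB : 0 < L + (1 - L) * b := by positivity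
  have hD : 0 < L + (1 - L) * d := by positivity
  have : b + L * (1 - b) = L + (1 - L) * b := by ring
  unfold ch phi
  rw [this]
  field_simp
  ring

theorem ch_right {L b d : ℝ} (hL : 0 < L) (hL1 : L < 1) (hb : 0 < b) (hd : 0 < d) :
    ch L b d d = phi L d := by
  have h1 : 0 < 1 - L := by linarith
  have hB : 0 < L + (1 - L) * b := by positivity
  have hD : 0 < L + (1 - L) * d := by positivity
  have : d + L * (1 - d) = L + (1 - L) * d := by ring
  unfold ch phi
  rw [this]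
  field_simp
  ring

/-- convexity bound between two points. -/
theorem phi_conv {L b d a : ℝ} (hL : 0 < L) (hL1 : L < 1) (hb : 0 < b) (hbd : b < d) (hba : b ≤ a)
    (had : a ≤ d) :
    phi L a ≤ phi L b * ((d - a) / (d - b)) + phi L d * ((a - b) / (d - b)) := by
  have h := phi_chord hL hL1 hb hba had
  have h' : phi L a ≤ ch L b d a := h
  rw [ch_affine hbd, ch_left hL hL1 hb (by linarith), ch_right hL hL1 hb (by linarith)] at h'
  exact h'

/-- the bound for one atom. -/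
theorem piece {n : ℕ} (q l tt lam h A lp b d a C : ℝ) (c Lam m : Fin n → ℝ)
    (hq : 0 ≤ q) (hl : 0 ≤ l) (hh0 : 0 ≤ h) (hlam : 0 ≤ lam) (hA : 0 ≤ A) (hlp : 0 ≤ lp)
    (hc : ∀ i, 0 ≤ c i) (hL : ∀ i, 0 < Lam i ∧ Lam i < 1) (hb : 0 < b) (hbd : b < d)
    (ha : 0 ≤ a) (ha1 : a ≤ 1)
    (hm1 : ∀ i, m i ≤ c i * A) (hm2 : ∀ i, m i ≤ c i * (lp * phi (Lam i) a))
    (h1 : q * h * (l * b) + lam * ∑ i, c i * A ≤ C)
    (h2 : q * h * (l * b) + lam * ∑ i, c i * (lp * phi (Lam i) b) ≤ C)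
    (h3 : q * h * (l * d) + lam * ∑ i, c i * (lp * phi (Lam i) d) ≤ C)
    (h4 : q * h * tt + lam * ∑ i, c i * (lp * phi (Lam i) d) ≤ C) :
    q * h * min tt (l * a) + lam * ∑ i, m i ≤ C := by
  have hqh : 0 ≤ q * h := mul_nonneg hq hh0
  rcases le_total a b with hab | hba
  · refine le_trans (add_le_add (mul_le_mul_of_nonneg_left ((min_le_right _ _).trans
      (mul_le_mul_of_nonneg_left hab hl)) hqh) (mul_le_mul_of_nonneg_left
      (Finset.sum_le_sum fun i _ => hm1 i) hlam)) h1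
  rcases le_total a d with had | hda
  · -- convexity
    set s := (d - a) / (d - b) with hs
    set s' := (a - b) / (d - b) with hs'
    have hdb : 0 < d - b := by linarith
    have hs0 : 0 ≤ s := div_nonneg (by linarith) hdb.le
    have hs0' : 0 ≤ s' := div_nonneg (by linarith) hdb.le
    have hss : s + s' = 1 := by
      rw [hs, hs', ← add_div]
      rw [show d - a + (a - b) = d - b by ring]
      exact div_self hdb.ne'
    have hab' : a = s * b + s' * d := by
      rw [hs, hs']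
      field_simp
      ring
    have hsum : ∑ i, m i ≤ s * ∑ i, c i * (lp * phi (Lam i) b)
        + s' * ∑ i, c i * (lp * phi (Lam i) d) := by
      rw [Finset.mul_sum, Finset.mul_sum, ← Finset.sum_add_distrib]
      apply Finset.sum_le_sum
      intro i _
      refine (hm2 i).trans ?_
      have h5 := phi_conv (hL i).1 (hL i).2 hb hbd hba had
      have h6 := mul_le_mul_of_nonneg_left (mul_le_mul_of_nonneg_left h5 hlp) (hc i)
      refine h6.trans (le_of_eq ?_)
      rw [← hs, ← hs']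
      ring
    have e1 : q * h * min tt (l * a) ≤ s * (q * h * (l * b)) + s' * (q * h * (l * d)) := by
      refine (mul_le_mul_of_nonneg_left (min_le_right _ _) hqh).trans (le_of_eq ?_)
      rw [hab']
      ring
    have e2 := mul_le_mul_of_nonneg_left hsum hlam
    have e3 := mul_le_mul_of_nonneg_left h2 hs0
    have e4 := mul_le_mul_of_nonneg_left h3 hs0'
    have e5 : s * C + s' * C = C := by rw [← add_mul, hss, one_mul]
    nlinarith
  · refine le_trans (add_le_add (mul_le_mul_of_nonneg_left (min_le_left _ _) hqh)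
      (mul_le_mul_of_nonneg_left (Finset.sum_le_sum fun i _ => (hm2 i).trans
        (mul_le_mul_of_nonneg_left (mul_le_mul_of_nonneg_left
          (phi_anti (hL i).1 (hL i).2 (by linarith) hda ha1) hlp) (hc i))) hlam)) h4

end L57

end Pool.Agent.EZ
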