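import Pool.Agent.EZ.LPair

/-!
# Accounts of the small roots: reduction of `TopOK` to rational inequalities
-/

set_option autoImplicit false
set_option linter.unusedSectionVars false
set_option linter.unusedVariables false

namespace Pool.Agent.EZ

open Finset

/-! ### the function `phi` -/

theorem phiC_den {L a : ℝ} (hL : 0 < L) (hL1 : L ≤ 1) (h0 : 0 ≤ a) (h1 : a ≤ 1) :
    0 < a + L * (1 - a) := by nlinarith

theorem phiC_nonneg {L a : ℝ} (hL : 0 < L) (hL1 : L ≤ 1) (h0 : 0 ≤ a) (h1 : a ≤ 1) :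
    0 ≤ phi L a := by
  unfold phi
  have := phiC_den hL hL1 h0 h1
  apply div_nonneg _ this.le
  exact mul_nonneg hL.le (by linarith)

theorem phiC_sub {L a s : ℝ} (hL : 0 < L) (hL1 : L ≤ 1) (h0 : 0 ≤ a) (h1 : a ≤ 1)
    (s0 : 0 ≤ s) (s1 : s ≤ 1) :
    phi L s - phi L a = L * (a - s) / ((s + L * (1 - s)) * (a + L * (1 - a))) := by
  have d1 := phiC_den hL hL1 h0 h1
  have d2 := phiC_den hL hL1 s0 s1
  unfold phi
  rw [div_sub_div _ _ d2.ne' d1.ne']
  congr 1
  ring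

theorem phiC_anti {L a s : ℝ} (hL : 0 < L) (hL1 : L ≤ 1) (s0 : 0 ≤ s) (hsa : s ≤ a) (h1 : a ≤ 1) :
    phi L a ≤ phi L s := by
  have h := phiC_sub hL hL1 (s0.trans hsa) h1 s0 (hsa.trans h1)
  have d1 := phiC_den hL hL1 (s0.trans hsa) h1
  have d2 := phiC_den hL hL1 s0 (hsa.trans h1)
  have : 0 ≤ L * (a - s) / ((s + L * (1 - s)) * (a + L * (1 - a))) := by
    apply div_nonneg _ (mul_pos d2 d1).le
    exact mul_nonneg hL.le (by linarith)
  linarith

/-- convexity. -/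
theorem phiC_chord {L a s t : ℝ} (hL : 0 < L) (hL1 : L ≤ 1) (s0 : 0 ≤ s) (hsa : s ≤ a) (hat : a ≤ t)
    (t1 : t ≤ 1) : (t - s) * phi L a ≤ (t - a) * phi L s + (a - s) * phi L t := by
  have a0 : 0 ≤ a := s0.trans hsa
  have a1 : a ≤ 1 := hat.trans t1
  have h1 := phiC_sub hL hL1 a0 a1 s0 (hsa.trans a1)
  have h2 := phiC_sub hL hL1 a0 a1 (a0.trans hat) t1
  have da := phiC_den hL hL1 a0 a1
  have ds := phiC_den hL hL1 s0 (hsa.trans a1)
  have dt := phiC_den hL hL1 (a0.trans hat) t1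
  have hst : s + L * (1 - s) ≤ t + L * (1 - t) := by nlinarith
  have key : 0 ≤ (t - a) * (L * (a - s) / ((s + L * (1 - s)) * (a + L * (1 - a))))
      + (a - s) * (L * (a - t) / ((t + L * (1 - t)) * (a + L * (1 - a)))) := by
    have e : (t - a) * (L * (a - s) / ((s + L * (1 - s)) * (a + L * (1 - a))))
      + (a - s) * (L * (a - t) / ((t + L * (1 - t)) * (a + L * (1 - a))))
      = (L * (t - a) * (a - s) / (a + L * (1 - a))) *
        (1 / (s + L * (1 - s)) - 1 / (t + L * (1 - t))) := by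
      field_simp
      ring
    rw [e]
    apply mul_nonneg
    · apply div_nonneg _ da.le
      apply mul_nonneg (mul_nonneg hL.le (by linarith)) (by linarith)
    · have := one_div_le_one_div_of_le ds hst
      linarith
  rw [← h1, ← h2] at key
  nlinarith

/-! ### one atom -/

/-- the sum of the linear bounds of the first `n` higher powers -/
noncomputable def SSn (n : ℕ) (g : ℕ → ℝ) (c L : ℕ → Fin 5 → ℝ) (a : ℝ) : ℝ :=
  ∑ i ∈ range n, g i * ∑ j' : Fin 5, c i j' * phi (L i j') a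

theorem SSn_anti {n : ℕ} {g : ℕ → ℝ} {c L : ℕ → Fin 5 → ℝ} (hg : ∀ i, 0 ≤ g i)
    (hc : ∀ i j', 0 ≤ c i j') (hL : ∀ i j', 0 < L i j' ∧ L i j' ≤ 1) {a s : ℝ} (s0 : 0 ≤ s)
    (hsa : s ≤ a) (h1 : a ≤ 1) : SSn n g c L a ≤ SSn n g c L s := by
  unfold SSn
  apply Finset.sum_le_sum
  intro i _
  apply mul_le_mul_of_nonneg_left _ (hg i)
  apply Finset.sum_le_sum
  intro j' _
  exact mul_le_mul_of_nonneg_left (phiC_anti (hL i j').1 (hL i j').2 s0 hsa h1) (hc i j')

theorem SSn_chord {n : ℕ} {g : ℕ → ℝ} {c L : ℕ → Fin 5 → ℝ} (hg : ∀ i, 0 ≤ g i)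
    (hc : ∀ i j', 0 ≤ c i j') (hL : ∀ i j', 0 < L i j' ∧ L i j' ≤ 1) {a s t : ℝ} (s0 : 0 ≤ s)
    (hsa : s ≤ a) (hat : a ≤ t) (t1 : t ≤ 1) :
    (t - s) * SSn n g c L a ≤ (t - a) * SSn n g c L s + (a - s) * SSn n g c L t := by
  unfold SSn
  simp only [Finset.mul_sum]
  rw [← Finset.sum_add_distrib]
  apply Finset.sum_le_sum
  intro i _
  rw [← Finset.sum_add_distrib]
  apply Finset.sum_le_sum
  intro j' _
  have h := phiC_chord (hL i j').1 (hL i j').2 s0 hsa hat t1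
  have h2 : 0 ≤ g i * c i j' := mul_nonneg (hg i) (hc i j')
  have h3 := mul_le_mul_of_nonneg_left h h2
  nlinarith

/-- the four inequalities of one atom, linear in `T`. -/
def AtomOK (n : ℕ) (g : ℕ → ℝ) (A : ℕ → ℝ) (c L : ℕ → Fin 5 → ℝ) (q l τ g0 lam ρ C a0 a1 T : ℝ) :
    Prop :=
  q * l * g0 * a0 + lam * (∑ i ∈ range n, g i * A i + ρ * (T - ∑ i ∈ range n, g i)) ≤ C * T ∧
  q * l * g0 * a0 + lam * (SSn n g c L a0 + ρ * (T - ∑ i ∈ range n, g i)) ≤ C * T ∧
  q * l * g0 * a1 + lam * (SSn n g c L a1 + ρ * (T - ∑ i ∈ range n, g i)) ≤ C * T ∧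
  q * τ * T + lam * (SSn n g c L a1 + ρ * (T - ∑ i ∈ range n, g i)) ≤ C * T

theorem atom_core {n : ℕ} {g : ℕ → ℝ} {A : ℕ → ℝ} {c L : ℕ → Fin 5 → ℝ}
    {q l τ g0 lam ρ C a0 a1 T : ℝ}
    (hg : ∀ i, 0 ≤ g i) (hc : ∀ i j', 0 ≤ c i j') (hL : ∀ i j', 0 < L i j' ∧ L i j' ≤ 1)
    (hq : 0 ≤ q) (hl : 0 ≤ l) (hg0 : 0 ≤ g0) (hlam : 0 ≤ lam) (h0 : 0 ≤ a0) (h01 : a0 < a1)
    (h1 : a1 ≤ 1) (hA : AtomOK n g A c L q l τ g0 lam ρ C a0 a1 T) (a : ℝ) (ha0 : 0 ≤ a) (ha1 : a ≤ 1) :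
    q * min (τ * T) (l * g0 * a) + lam * (∑ i ∈ range n, g i *
      min (A i) (∑ j' : Fin 5, c i j' * phi (L i j') a) + ρ * (T - ∑ i ∈ range n, g i)) ≤ C * T := by
  obtain ⟨c1, c2, c3, c4⟩ := hA
  have m1 : min (τ * T) (l * g0 * a) ≤ τ * T := min_le_left _ _
  have m2 : min (τ * T) (l * g0 * a) ≤ l * g0 * a := min_le_right _ _
  have s1 : ∑ i ∈ range n, g i * min (A i) (∑ j' : Fin 5, c i j' * phi (L i j') a)
      ≤ ∑ i ∈ range n, g i * A i :=
    Finset.sum_le_sum (fun i _ => mul_le_mul_of_nonneg_left (min_le_left _ _) (hg i))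
  have s2 : ∑ i ∈ range n, g i * min (A i) (∑ j' : Fin 5, c i j' * phi (L i j') a)
      ≤ SSn n g c L a :=
    Finset.sum_le_sum (fun i _ => mul_le_mul_of_nonneg_left (min_le_right _ _) (hg i))
  set M := min (τ * T) (l * g0 * a)
  set R := ∑ i ∈ range n, g i * min (A i) (∑ j' : Fin 5, c i j' * phi (L i j') a)
  set Gs := ∑ i ∈ range n, g i
  have hlg : 0 ≤ l * g0 := mul_nonneg hl hg0
  rcases le_total a a0 with h | h
  · have e1 : q * M ≤ q * (l * g0 * a0) := by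
      apply mul_le_mul_of_nonneg_left _ hq
      exact m2.trans (mul_le_mul_of_nonneg_left h hlg)
    have e2 := mul_le_mul_of_nonneg_left s1 hlam
    nlinarith
  rcases le_total a a1 with h' | h'
  · have e1 : q * M ≤ q * (l * g0 * a) := mul_le_mul_of_nonneg_left m2 hq
    have e2 := mul_le_mul_of_nonneg_left s2 hlam
    have e3 := SSn_chord (n := n) hg hc hL h0 h h' h1
    have e4 := mul_le_mul_of_nonneg_left e3 hlam
    have e5 := mul_le_mul_of_nonneg_left c2 (by linarith : 0 ≤ a1 - a)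
    have e6 := mul_le_mul_of_nonneg_left c3 (by linarith : 0 ≤ a - a0)
    have hpos : 0 < a1 - a0 := by linarith
    have e7 : (a1 - a0) * (q * (l * g0 * a) + lam * (SSn n g c L a + ρ * (T - Gs))) ≤
        (a1 - a0) * (C * T) := by nlinarith
    have e8 := le_of_mul_le_mul_left e7 hpos
    nlinarith
  · have e1 : q * M ≤ q * (τ * T) := mul_le_mul_of_nonneg_left m1 hq
    have e2 := mul_le_mul_of_nonneg_left (s2.trans (SSn_anti hg hc hL (h0.trans h01.le) h' ha1)) hlam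
    nlinarith

/-! ### the totals of the higher powers -/

/-- `hh (p ^ k)` times `log p`. -/
noncomputable def GGp (p k : ℕ) : ℝ := 1 / ((k : ℝ) * (p : ℝ) ^ k)

theorem GG_nonneg (p k : ℕ) : 0 ≤ GGp p k := by unfold GGp; positivity

theorem hh_GG (p k : ℕ) (hp : 2 ≤ p) : hh ((p : ℝ) ^ k) * Real.log p = GGp p k := by
  have hp' : (1 : ℝ) < p := by exact_mod_cast (by omega : 1 < p)
  have hl : 0 < Real.log p := Real.log_pos hp'
  unfold hh GGp
  rw [Real.log_pow]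
  rcases Nat.eq_zero_or_pos k with h | h
  · subst h; simp
  · have : (0 : ℝ) < k := by exact_mod_cast h
    field_simp

theorem GG_geo (p k i : ℕ) (hp : 2 ≤ p) (hk : k ≠ 0) : GGp p (k + i) ≤ GGp p k * (1 / (p : ℝ)) ^ i := by
  have hp' : (0 : ℝ) < p := by exact_mod_cast (by omega : 0 < p)
  have hk' : (0 : ℝ) < k := by exact_mod_cast (by omega : 0 < k)
  unfold GGp
  rw [one_div_pow, div_mul_div_comm, one_mul, pow_add]
  apply one_div_le_one_div_of_le (by positivity)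
  push_cast
  have : (0 : ℝ) < (p : ℝ) ^ k * (p : ℝ) ^ i := by positivity
  nlinarith [(Nat.cast_nonneg i : (0 : ℝ) ≤ i)]

theorem summable_geo_inv (p : ℕ) (hp : 2 ≤ p) : Summable (fun i : ℕ => (1 / (p : ℝ)) ^ i) := by
  have hp' : (2 : ℝ) ≤ p := by exact_mod_cast hp
  apply summable_geometric_of_lt_one (by positivity)
  rw [div_lt_one (by linarith)]; linarith

theorem summable_GG (p k : ℕ) (hp : 2 ≤ p) (hk : k ≠ 0) : Summable (fun i => GGp p (k + i)) :=
  Summable.of_nonneg_of_le (fun i => GG_nonneg _ _) (fun i => GG_geo p k i hp hk)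
    ((summable_geo_inv p hp).mul_left _)

theorem Tz_eq (p e : ℕ) (hp : 2 ≤ p) : Tz p e * Real.log p = ∑' i : ℕ, GGp p (e + 1 + i) := by
  unfold Tz
  rw [← tsum_mul_right]
  congr 1
  funext i
  exact hh_GG p _ hp

theorem Tz_lower (p e m : ℕ) (hp : 2 ≤ p) :
    ∑ i ∈ range m, GGp p (e + 1 + i) ≤ Tz p e * Real.log p := by
  rw [Tz_eq p e hp]
  exact (summable_GG p (e + 1) hp (by omega)).sum_le_tsum _ (fun i _ => GG_nonneg _ _)

theorem Tz_upper (p e m : ℕ) (hp : 2 ≤ p) :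
    Tz p e * Real.log p ≤ ∑ i ∈ range m, GGp p (e + 1 + i) + GGp p (e + 1 + m) * (p / (p - 1)) := by
  have hp' : (2 : ℝ) ≤ p := by exact_mod_cast hp
  have hs := summable_GG p (e + 1) hp (by omega)
  rw [Tz_eq p e hp, ← hs.sum_add_tsum_nat_add m]
  gcongr
  calc ∑' i : ℕ, GGp p (e + 1 + (i + m)) ≤ ∑' i : ℕ, GGp p (e + 1 + m) * (1 / (p : ℝ)) ^ i := by
        apply Summable.tsum_le_tsum
        · intro i
          have := GG_geo p (e + 1 + m) i hp (by omega)
          rwa [show e + 1 + (i + m) = e + 1 + m + i by ring]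
        · exact (summable_nat_add_iff m).2 hs
        · exact (summable_geo_inv p hp).mul_left _
    _ = GGp p (e + 1 + m) * (p / (p - 1)) := by
        rw [tsum_mul_left, tsum_geometric_of_lt_one (by positivity)
          (by rw [div_lt_one (by linarith)]; linarith)]
        congr 1
        have : (p : ℝ) - 1 ≠ 0 := by linarith
        have : (p : ℝ) ≠ 0 := by linarith
        field_simp

/-! ### the reduction -/

theorem topOK_core (hTL : Stmt_TL) (p e n : ℕ) (hp : p.Prime) (he : e ≠ 0)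
    (l τ lam C a0 a1 : Fin 5 → ℝ) (A : ℕ → ℝ) (l' : ℕ → Fin 5 → ℝ) (Lam : Fin 5 → ℕ → Fin 5 → ℝ)
    (ρ Tlo Thi : ℝ)
    (h1 : ∀ j : Fin 5, pk (p ^ e) p j ≠ 0 → LINB (p ^ e) (ck (p ^ e) p j) (l j) ∧
      ∀ M, Fam (p ^ e) M → Inter Nat.minFac (↑M : Set (Finset ℕ)) →
        mass (p ^ e) (ck (p ^ e) p j) M ≤ τ j * Tz p e)
    (h2 : ∀ i, AvgABS (p ^ (e + 1 + i)) (A i) ∧ 0 ≤ A i)
    (h3 : ∀ (i : ℕ) (j' : Fin 5), pk (p ^ (e + 1 + i)) p j' ≠ 0 →
      LINB (p ^ (e + 1 + i)) (ck (p ^ (e + 1 + i)) p j') (l' i j'))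
    (h3' : ∀ (i : ℕ) (j' : Fin 5), 0 ≤ l' i j')
    (h4 : ∀ (j : Fin 5) (i : ℕ) (j' : Fin 5), 0 < Lam j i j' ∧ Lam j i j' ≤ 1)
    (h5 : ∀ (j : Fin 5) (i : ℕ) (j' : Fin 5), pk (p ^ e) p j ≠ 0 → pk (p ^ (e + 1 + i)) p j' ≠ 0 →
      ∃ w w' : ℕ → ℝ,
      (∀ r, 0 ≤ w r ∧ 0 ≤ w' r ∧ 1 ≤ Real.exp (-w r) + Real.exp (-w' r) ∧
        (Real.exp (w r) - 1) * (Real.exp (w' r) - 1) ≤ Lam j i j') ∧
      (∀ VS : Finset ℕ, (∀ v ∈ VS, IsPrimePow v ∧ v.minFac ≠ p) → ∀ r,
        ∑ v ∈ VS.filter (fun v => v.minFac = r), Sx (ck (p ^ e) p j) v / (v : ℝ) ≤ w r ∧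
        ∑ v ∈ VS.filter (fun v => v.minFac = r), Sx (ck (p ^ (e + 1 + i)) p j') v / (v : ℝ) ≤ w' r))
    (h6 : ∀ i, n ≤ i → A i ≤ ρ)
    (hlam : ∀ j, 0 ≤ lam j) (hlam0 : ∀ j : Fin 5, pk (p ^ e) p j = 0 → lam j = 0)
    (hsum : ∑ j, lam j = 1) (hC : ∑ j, C j ≤ 1) (hl : ∀ j, 0 ≤ l j)
    (ha : ∀ j, 0 ≤ a0 j ∧ a0 j < a1 j ∧ a1 j ≤ 1)
    (hlo : Tlo ≤ Tz p e * Real.log p) (hhi : Tz p e * Real.log p ≤ Thi)
    (hnum : ∀ (j : Fin 5) (T : ℝ), Tlo ≤ T → T ≤ Thi →
      AtomOK n (fun i => GGp p (e + 1 + i)) A (fun i j' => qD (p ^ (e + 1 + i)) j' * l' i j') (Lam j)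
        (qD (p ^ e) j) (l j) (τ j) (GGp p e) (lam j) ρ (C j) (a0 j) (a1 j) T) :
    TopOK p e := by
  intro B hB hpe hne K
  have hp2 := hp.two_le
  have hp' : (1 : ℝ) < p := by exact_mod_cast hp.one_lt
  have hlog : 0 < Real.log p := Real.log_pos hp'
  have hhpos : 0 < hh ((p : ℝ) ^ e) := by
    unfold hh
    have h1 : 0 < Real.log ((p : ℝ) ^ e) := by
      rw [Real.log_pow]
      have : (0 : ℝ) < e := by exact_mod_cast (Nat.pos_of_ne_zero he)
      positivity
    positivity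
  have hcast : hh (((p ^ e : ℕ)) : ℝ) = hh ((p : ℝ) ^ e) := by push_cast; rfl
  obtain ⟨a, haa, hz, hu⟩ := hTL B p e hB hp he hpe l
    (fun j => τ j * Tz p e / hh ((p : ℝ) ^ e)) A l' Lam
    (fun j hj => ⟨(h1 j hj).1, fun M hM hI => by
      rw [hcast]
      have := (h1 j hj).2 M hM hI
      rw [div_mul_cancel₀ _ hhpos.ne']
      exact this⟩)
    (fun i => (h2 i).1) (fun i j' hj' => ⟨h3' i j', h3 i j' hj'⟩)
    (fun j i j' => (h4 j i j').1) h5
  set T := Tz p e with hT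
  set g : ℕ → ℝ := fun i => GGp p (e + 1 + i) with hg
  have hg0 : ∀ i, 0 ≤ g i := fun i => GG_nonneg _ _
  -- the root
  have hz' : ld qD cD B (p ^ e) * Real.log p ≤
      ∑ j, qD (p ^ e) j * min (τ j * (T * Real.log p)) (l j * GGp p e * a j) := by
    have e1 := mul_le_mul_of_nonneg_right hz hlog.le
    refine e1.trans (le_of_eq ?_)
    rw [Finset.mul_sum, Finset.sum_mul]
    apply Finset.sum_congr rfl
    intro j _
    have e2 : hh ((p : ℝ) ^ e) * (qD (p ^ e) j * min (τ j * T / hh ((p : ℝ) ^ e)) (l j * a j)) *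
        Real.log p = qD (p ^ e) j * ((hh ((p : ℝ) ^ e) * Real.log p) *
        min (τ j * T / hh ((p : ℝ) ^ e)) (l j * a j)) := by ring
    rw [e2, mul_min_of_nonneg _ _ (mul_pos hhpos hlog).le, ← hh_GG p e hp2]
    congr 2
    · field_simp
    · ring
  -- the higher powers
  set f : ℕ → ℝ := fun i => if i < n then ∑ j, lam j * (g i * min (A i)
    (∑ j' : Fin 5, (qD (p ^ (e + 1 + i)) j' * l' i j') * phi (Lam j i j') (a j))) else ρ * g i with hf
  have hphi : ∀ j i j', 0 ≤ phi (Lam j i j') (a j) := fun j i j' =>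
    phiC_nonneg (h4 j i j').1 (h4 j i j').2 (haa j).1 (haa j).2
  have hcc : ∀ i (j' : Fin 5), 0 ≤ qD (p ^ (e + 1 + i)) j' * l' i j' := fun i j' =>
    mul_nonneg (qD_nonneg _ _) (h3' i j')
  have hf0 : ∀ i, 0 ≤ f i := by
    intro i
    simp only [hf]
    split_ifs with hi
    · apply Finset.sum_nonneg
      intro j _
      apply mul_nonneg (hlam j)
      apply mul_nonneg (hg0 i)
      apply le_min (h2 i).2
      apply Finset.sum_nonneg
      intro j' _
      exact mul_nonneg (hcc i j') (hphi j i j')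
    · exact mul_nonneg ((h2 i).2.trans (h6 i (not_lt.1 hi))) (hg0 i)
  have hu' : ∀ i, ld qD cD B (p ^ (e + 1 + i)) * Real.log p ≤ f i := by
    intro i
    have hA1 : ld qD cD B (p ^ (e + 1 + i)) * Real.log p ≤ g i * A i := by
      have e1 := mul_le_mul_of_nonneg_right (hu i).1 hlog.le
      have e2 := hh_GG p (e + 1 + i) hp2
      calc _ ≤ hh ((p : ℝ) ^ (e + 1 + i)) * A i * Real.log p := e1
        _ = (hh ((p : ℝ) ^ (e + 1 + i)) * Real.log p) * A i := by ring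
        _ = g i * A i := by rw [e2]
    simp only [hf]
    split_ifs with hi
    · have e0 : ld qD cD B (p ^ (e + 1 + i)) * Real.log p =
          ∑ j, lam j * (ld qD cD B (p ^ (e + 1 + i)) * Real.log p) := by
        rw [← Finset.sum_mul, hsum, one_mul]
      rw [e0]
      apply Finset.sum_le_sum
      intro j _
      by_cases hj : pk (p ^ e) p j = 0
      · rw [hlam0 j hj, zero_mul, zero_mul]
      · apply mul_le_mul_of_nonneg_left _ (hlam j)
        rw [mul_min_of_nonneg _ _ (hg0 i)]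
        apply le_min hA1
        have e1 := mul_le_mul_of_nonneg_right ((hu i).2 j hj) hlog.le
        have e2 := hh_GG p (e + 1 + i) hp2
        refine e1.trans (le_of_eq ?_)
        have e3 : hh ((p : ℝ) ^ (e + 1 + i)) * (∑ j' : Fin 5, qD (p ^ (e + 1 + i)) j' *
            (l' i j' * phi (Lam j i j') (a j))) * Real.log p =
            (hh ((p : ℝ) ^ (e + 1 + i)) * Real.log p) * (∑ j' : Fin 5, qD (p ^ (e + 1 + i)) j' *
            (l' i j' * phi (Lam j i j') (a j))) := by ring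
        rw [e3, e2]
        simp only [hg]
        congr 1
        apply Finset.sum_congr rfl
        intro j' _
        ring
    · refine hA1.trans ?_
      rw [mul_comm ρ]
      exact mul_le_mul_of_nonneg_left (h6 i (not_lt.1 hi)) (hg0 i)
  have hK : ∑ i ∈ range K, ld qD cD B (p ^ (e + 1 + i)) * Real.log p ≤
      ∑ i ∈ range n, f i + ρ * (T * Real.log p - ∑ i ∈ range n, g i) := by
    have e1 : ∑ i ∈ range K, ld qD cD B (p ^ (e + 1 + i)) * Real.log p ≤ ∑ i ∈ range (n + K), f i :=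
      (Finset.sum_le_sum (fun i _ => hu' i)).trans
        (Finset.sum_le_sum_of_subset_of_nonneg (Finset.range_subset_range.2 (by omega)) (fun i _ _ => hf0 i))
    have e2 := Finset.sum_range_add f n K
    have e3 := Finset.sum_range_add g n K
    have e4 : ∑ i ∈ range K, f (n + i) = ρ * ∑ i ∈ range K, g (n + i) := by
      rw [Finset.mul_sum]
      apply Finset.sum_congr rfl
      intro i _
      simp only [hf]
      rw [if_neg (by omega)]
    have e5 := Tz_lower p e (n + K) hp2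
    have e6 : ∑ i ∈ range (n + K), g i ≤ T * Real.log p := e5
    have hρ : 0 ≤ ρ := (h2 n).2.trans (h6 n le_rfl)
    have e7 : ρ * ∑ i ∈ range K, g (n + i) ≤ ρ * (T * Real.log p - ∑ i ∈ range n, g i) := by
      apply mul_le_mul_of_nonneg_left _ hρ
      linarith
    linarith
  -- the sum over the atoms
  have hfn : ∑ i ∈ range n, f i = ∑ j, lam j * ∑ i ∈ range n, g i * min (A i)
      (∑ j' : Fin 5, (qD (p ^ (e + 1 + i)) j' * l' i j') * phi (Lam j i j') (a j)) := by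
    rw [Finset.sum_congr rfl (g := fun i => ∑ j, lam j * (g i * min (A i)
      (∑ j' : Fin 5, (qD (p ^ (e + 1 + i)) j' * l' i j') * phi (Lam j i j') (a j))))]
    · rw [Finset.sum_comm]
      apply Finset.sum_congr rfl
      intro j _
      rw [Finset.mul_sum]
    · intro i hi
      simp only [hf]
      rw [if_pos (Finset.mem_range.1 hi)]
  have hsumT : ρ * (T * Real.log p - ∑ i ∈ range n, g i) =
      ∑ j, lam j * (ρ * (T * Real.log p - ∑ i ∈ range n, g i)) := by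
    rw [← Finset.sum_mul, hsum, one_mul]
  have hatoms : ∀ j : Fin 5, qD (p ^ e) j * min (τ j * (T * Real.log p)) (l j * GGp p e * a j) +
      lam j * (∑ i ∈ range n, g i * min (A i)
      (∑ j' : Fin 5, (qD (p ^ (e + 1 + i)) j' * l' i j') * phi (Lam j i j') (a j)) +
      ρ * (T * Real.log p - ∑ i ∈ range n, g i)) ≤ C j * (T * Real.log p) := by
    intro j
    exact atom_core hg0 hcc (fun i j' => h4 j i j') (qD_nonneg _ _) (hl j) (GG_nonneg _ _) (hlam j)
      (ha j).1 (ha j).2.1 (ha j).2.2 (hnum j _ hlo hhi) (a j) (haa j).1 (haa j).2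
  have htot : (ld qD cD B (p ^ e) + ∑ i ∈ range K, ld qD cD B (p ^ (e + 1 + i))) * Real.log p ≤
      T * Real.log p := by
    have hTnn : 0 ≤ T * Real.log p := by
      have := Tz_lower p e 0 hp2
      simpa using this
    rw [add_mul, Finset.sum_mul]
    calc _ ≤ ∑ j, qD (p ^ e) j * min (τ j * (T * Real.log p)) (l j * GGp p e * a j) +
          (∑ i ∈ range n, f i + ρ * (T * Real.log p - ∑ i ∈ range n, g i)) := add_le_add hz' hK
      _ = ∑ j, (qD (p ^ e) j * min (τ j * (T * Real.log p)) (l j * GGp p e * a j) +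
          lam j * (∑ i ∈ range n, g i * min (A i)
          (∑ j' : Fin 5, (qD (p ^ (e + 1 + i)) j' * l' i j') * phi (Lam j i j') (a j)) +
          ρ * (T * Real.log p - ∑ i ∈ range n, g i))) := by
          rw [hfn]
          conv_lhs => rw [hsumT]
          rw [← Finset.sum_add_distrib, ← Finset.sum_add_distrib]
          apply Finset.sum_congr rfl
          intro j _
          ring
      _ ≤ ∑ j, C j * (T * Real.log p) := Finset.sum_le_sum (fun j _ => hatoms j)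
      _ = (∑ j, C j) * (T * Real.log p) := by rw [Finset.sum_mul]
      _ ≤ 1 * (T * Real.log p) := mul_le_mul_of_nonneg_right hC hTnn
      _ = T * Real.log p := one_mul _
  exact le_of_mul_le_mul_right htot hlog

end Pool.Agent.EZ
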