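import Pool.Agent.EZ.Top

/-!
# The suffix linear program

`static_lp`: the mass of an intersecting quasi-primitive family over a root `z` is at most
`b * PU M + RL b`, where `RL` is the optimum of the linear program given by the
Erdős–Ko–Rado bounds for all suffixes.
-/

set_option autoImplicit false
set_option linter.unusedSectionVars false

namespace Pool.Agent.EZ

open Finset Filter Topology

variable {V ι : Type*} [DecidableEq V] [DecidableEq ι]

/-- the linear program. -/
noncomputable def RL (S val : V → ℝ) (β ρ : List V → ℝ) : List V → ℝ → ℝ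
  | [], _ => 0
  | v :: l, b => max 0 (β (v :: l) - b) * ρ (v :: l)
      + RL S val β ρ l ((1 - pv S val v) * max b (β (v :: l)))

theorem pv_mem (S val : V → ℝ) (v : V) (hS : 0 ≤ S v) (hv : 1 < val v) :
    0 ≤ pv S val v ∧ pv S val v ≤ 1 := by
  unfold pv
  have h1 := Real.exp_pos (-(S v / val v))
  have h2 : Real.exp (-(S v / val v)) ≤ 1 := by
    apply Real.exp_le_one_iff.2
    have := div_nonneg hS (le_trans zero_le_one hv.le)
    linarith
  constructor <;> linarith

theorem RL_nonneg (S val : V → ℝ) (β ρ : List V → ℝ) : ∀ l : List V,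
    (∀ l' : List V, l' <:+ l → 0 ≤ ρ l') → ∀ b, 0 ≤ RL S val β ρ l b := by
  intro l
  induction l with
  | nil => intro _ b; exact le_rfl
  | cons v l ih =>
    intro hρ b
    have h1 := ih (fun l' h => hρ l' (h.trans (List.suffix_cons v l)))
      ((1 - pv S val v) * max b (β (v :: l)))
    have h2 := hρ (v :: l) List.suffix_rfl
    simp only [RL]
    have h3 := mul_nonneg (le_max_left (0:ℝ) (β (v :: l) - b)) h2
    linarith

/-- increasing the level. -/
theorem RL_level (S val : V → ℝ) (β ρ : List V → ℝ) : ∀ l : List V,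
    (∀ v ∈ l, 0 ≤ S v) → (∀ v ∈ l, 1 < val v) →
    (∀ l' : List V, l' <:+ l → 0 ≤ ρ l') →
    (∀ v l', (v :: l') <:+ l → ρ l' ≤ ρ (v :: l')) →
    ∀ b B, b ≤ B → RL S val β ρ l b ≤ (B - b) * ρ l + RL S val β ρ l B := by
  intro l
  induction l with
  | nil =>
    intro _ _ hρ _ b B hbB
    simp only [RL]
    have := mul_nonneg (sub_nonneg.2 hbB) (hρ [] List.suffix_rfl)
    linarith
  | cons v l ih =>
    intro hS hval hρ hmono b B hbB
    obtain ⟨p0, p1⟩ := pv_mem S val v (hS v List.mem_cons_self) (hval v List.mem_cons_self)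
    have hρl := hρ l (List.suffix_cons v l)
    have hρv := hρ (v :: l) List.suffix_rfl
    have hm := hmono v l List.suffix_rfl
    have ih' := ih (fun w h => hS w (List.mem_cons_of_mem _ h))
      (fun w h => hval w (List.mem_cons_of_mem _ h))
      (fun l' h => hρ l' (h.trans (List.suffix_cons v l)))
      (fun w l' h => hmono w l' (h.trans (List.suffix_cons v l)))
      ((1 - pv S val v) * max b (β (v :: l))) ((1 - pv S val v) * max B (β (v :: l)))
      (mul_le_mul_of_nonneg_left (max_le_max hbB le_rfl) (by linarith))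
    simp only [RL]
    have e : (1 - pv S val v) * max B (β (v :: l)) - (1 - pv S val v) * max b (β (v :: l))
        = (1 - pv S val v) * (max B (β (v :: l)) - max b (β (v :: l))) := by ring
    rw [e] at ih'
    have hd : 0 ≤ max B (β (v :: l)) - max b (β (v :: l)) :=
      sub_nonneg.2 (max_le_max hbB le_rfl)
    have h1 : (1 - pv S val v) * (max B (β (v :: l)) - max b (β (v :: l))) * ρ l
        ≤ (max B (β (v :: l)) - max b (β (v :: l))) * ρ (v :: l) := by
      have h2 : (1 - pv S val v) * ρ l ≤ ρ (v :: l) := by nlinarith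
      calc _ = (max B (β (v :: l)) - max b (β (v :: l))) * ((1 - pv S val v) * ρ l) := by ring
        _ ≤ _ := mul_le_mul_of_nonneg_left h2 hd
    have h3 : max 0 (β (v :: l) - b) + (max B (β (v :: l)) - max b (β (v :: l)))
        = (B - b) + max 0 (β (v :: l) - B) := by
      rcases le_total (β (v :: l)) b with h | h
      · rw [max_eq_left (by linarith), max_eq_left (h.trans hbB), max_eq_left h,
          max_eq_left (by linarith)]
        ring
      · rcases le_total (β (v :: l)) B with h' | h'
        · rw [max_eq_right (by linarith), max_eq_left h', max_eq_right h, max_eq_left (by linarith)]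
          ring
        · rw [max_eq_right (by linarith), max_eq_right h', max_eq_right h,
            max_eq_right (by linarith)]
          ring
    have h4 : max 0 (β (v :: l) - b) * ρ (v :: l)
        + (max B (β (v :: l)) - max b (β (v :: l))) * ρ (v :: l)
        = (B - b) * ρ (v :: l) + max 0 (β (v :: l) - B) * ρ (v :: l) := by
      rw [← add_mul, h3, add_mul]
    linarith

/-- the linear programming bound. -/
theorem static_lp (π : V → ι) (S val : V → ℝ) (z : ℝ) (ω0 : ℝ)
    (hexp : Real.exp ω0 ≤ 2) (ω K β ρ : List V → ℝ) : ∀ l : List V, l.Nodup →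
    (∀ v ∈ l, 0 ≤ S v) → (∀ v ∈ l, 1 < val v) →
    (∀ l' : List V, l' <:+ l → ∀ r, ∑ v ∈ l'.toFinset.filter (fun v => π v = r), S v / val v ≤ ω l') →
    (∀ l' : List V, l' <:+ l → 0 ≤ ω l' ∧ ω l' ≤ ω0) →
    (∀ l' : List V, l' <:+ l → 1 - Real.exp (-(ω l')) ≤ ρ l') →
    (∀ v l', (v :: l') <:+ l → 1 < z * val v ∧
      (∀ s, 0 ≤ s → Real.exp (XX l'.toFinset S val s) * (1 - (z * val v) ^ (-s)) ≤ K (v :: l')) ∧
      S v * (hh (z * val v) * K (v :: l') * Real.exp (ω l')) ≤ β (v :: l') * pv S val v) →
    ∀ M : Finset (Finset V), QP π (↑M : Set (Finset V)) → Inter π (↑M : Set (Finset V)) →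
    (∀ m ∈ M, m.Nonempty ∧ ∀ v ∈ m, v ∈ l) → ∀ b : ℝ, 0 ≤ b →
    ∑ m ∈ M, (∏ v ∈ m, S v) * hh (z * ∏ v ∈ m, val v)
      ≤ b * PU l.toFinset S val ↑M + RL S val β ρ l b := by
  intro l
  induction l with
  | nil =>
    intro _ _ _ _ _ _ _ M _ _ hM b hb
    have : M = ∅ := by
      apply Finset.eq_empty_of_forall_notMem
      intro m hm
      obtain ⟨⟨v, hv⟩, h2⟩ := hM m hm
      exact absurd (h2 v hv) (by simp)
    subst this
    simp only [Finset.sum_empty, RL, add_zero]
    have : 0 ≤ PU ([] : List V).toFinset S val ↑(∅ : Finset (Finset V)) :=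
      PU_nonneg _ S val (by simp) (by simp) _
    exact mul_nonneg hb this
  | cons v l ih =>
    intro hnd hS hval hω hω0 hρ hK M hQP hI hM b hb
    obtain ⟨hvl, hl'⟩ := List.nodup_cons.1 hnd
    have hsuf : ∀ l' : List V, l' <:+ l → l' <:+ v :: l := fun l' h => h.trans (List.suffix_cons v l)
    have hSl : ∀ w ∈ l, 0 ≤ S w := fun w hw => hS w (List.mem_cons_of_mem _ hw)
    have hvall : ∀ w ∈ l, 1 < val w := fun w hw => hval w (List.mem_cons_of_mem _ hw)
    have hSf : ∀ w ∈ l.toFinset, 0 ≤ S w := fun w hw => hSl w (List.mem_toFinset.1 hw)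
    have hvalf : ∀ w ∈ l.toFinset, 1 < val w := fun w hw => hvall w (List.mem_toFinset.1 hw)
    have hSf2 : ∀ w ∈ (v :: l).toFinset, 0 ≤ S w := fun w hw => hS w (List.mem_toFinset.1 hw)
    have hvalf2 : ∀ w ∈ (v :: l).toFinset, 1 < val w := fun w hw => hval w (List.mem_toFinset.1 hw)
    have hav : ∀ m ∈ av v M, m ∈ M ∧ v ∉ m := fun m hm => Finset.mem_filter.1 hm
    obtain ⟨p0, p1⟩ := pv_mem S val v (hS v List.mem_cons_self) (hval v List.mem_cons_self)
    set B := max b (β (v :: l)) with hB
    have hB0 : 0 ≤ B := hb.trans (le_max_left _ _)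
    have ih' := ih hl' hSl hvall (fun l' h => hω l' (hsuf l' h)) (fun l' h => hω0 l' (hsuf l' h))
      (fun l' h => hρ l' (hsuf l' h)) (fun w l' h => hK w l' (hsuf _ h)) (av v M)
      (QP_subset hQP (by intro m hm; exact Finset.mem_coe.2 (hav m (Finset.mem_coe.1 hm)).1))
      (by
        intro m hm m' hm'
        exact hI m (Finset.mem_coe.2 (hav m (Finset.mem_coe.1 hm)).1) m'
          (Finset.mem_coe.2 (hav m' (Finset.mem_coe.1 hm')).1))
      (by
        intro m hm
        obtain ⟨h1, h2⟩ := hav m hm
        refine ⟨(hM m h1).1, fun w hw => ?_⟩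
        rcases List.mem_cons.1 ((hM m h1).2 w hw) with h | h
        · exact absurd (h ▸ hw) h2
        · exact h) ((1 - pv S val v) * B) (mul_nonneg (by linarith) hB0)
    obtain ⟨hz1, hKv, hβ⟩ := hK v l List.suffix_rfl
    have hωl := hω0 l (List.suffix_cons v l)
    have hω0' : 0 ≤ ω0 := hωl.1.trans hωl.2
    -- the members containing `v`
    have hlk : ∑ m ∈ M.filter (fun m => v ∈ m), (∏ w ∈ m, S w) * hh (z * ∏ w ∈ m, val w)
        = S v * ∑ m ∈ lkf v M, (∏ w ∈ m, S w) * hh ((z * val v) * ∏ w ∈ m, val w) := by
      unfold lkf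
      rw [Finset.sum_image, Finset.mul_sum]
      · apply Finset.sum_congr rfl
        intro m hm
        obtain ⟨-, hv⟩ := Finset.mem_filter.1 hm
        rw [← Finset.mul_prod_erase m S hv, ← Finset.mul_prod_erase m val hv]
        rw [mul_assoc, mul_assoc z]
      · intro m hm m' hm' h
        have hv := (Finset.mem_filter.1 (Finset.mem_coe.1 hm)).2
        have hv' := (Finset.mem_filter.1 (Finset.mem_coe.1 hm')).2
        have h' : m.erase v = m'.erase v := h
        rw [← Finset.insert_erase hv, ← Finset.insert_erase hv', h']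
    have hhalf : ∀ x : ℝ, x ≤ ω0 → 1 - Real.exp (-x) ≤ 1 / 2 := by
      intro x hx
      have h1 : Real.exp (-ω0) ≤ Real.exp (-x) := Real.exp_le_exp.2 (by linarith)
      have : Real.exp (-ω0) = (Real.exp ω0)⁻¹ := Real.exp_neg ω0
      have h4 : 0 < Real.exp ω0 := Real.exp_pos _
      have h3 : (2 : ℝ)⁻¹ ≤ (Real.exp ω0)⁻¹ := inv_anti₀ h4 hexp
      linarith
    have hb' := sup_bound π l.toFinset S val hSf hvalf (z * val v) hz1 (K (v :: l))
      (1 - Real.exp (-(ω l))) (by
        have : Real.exp (-(ω l)) ≤ 1 := Real.exp_le_one_iff.2 (by linarith [hωl.1])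
        linarith) (hhalf _ hωl.2) (by
        intro r
        have h1 := hω l (List.suffix_cons v l) r
        have h2 : Real.exp (-(ω l))
            ≤ Real.exp (-∑ v ∈ l.toFinset.filter (fun v => π v = r), S v / val v) :=
          Real.exp_le_exp.2 (by linarith)
        linarith) hKv (lkf v M)
      (by rw [lkf_coe]; exact QP_lk hQP v)
      (by
        intro m hm w hw
        obtain ⟨k, hk, rfl⟩ := Finset.mem_image.1 hm
        obtain ⟨hk1, hk2⟩ := Finset.mem_filter.1 hk
        have hwk := Finset.mem_of_mem_erase hw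
        have hwv := Finset.ne_of_mem_erase hw
        rcases List.mem_cons.1 ((hM k hk1).2 w hwk) with h | h
        · exact absurd h hwv
        · exact List.mem_toFinset.2 h)
    have hsum : ∑ m ∈ M, (∏ w ∈ m, S w) * hh (z * ∏ w ∈ m, val w)
        = ∑ m ∈ M.filter (fun m => v ∈ m), (∏ w ∈ m, S w) * hh (z * ∏ w ∈ m, val w)
          + ∑ m ∈ av v M, (∏ w ∈ m, S w) * hh (z * ∏ w ∈ m, val w) := by
      unfold av
      rw [Finset.sum_filter_add_sum_filter_not]
    rw [hsum, hlk]
    have hinv : 1 / (1 - (1 - Real.exp (-(ω l)))) = Real.exp (ω l) := by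
      rw [sub_sub_cancel, Real.exp_neg, one_div, inv_inv]
    rw [hinv] at hb'
    set P := PU l.toFinset S val ↑(lkf v M) with hP
    set Qv := PU (v :: l).toFinset S val ↑M with hQv
    set Q' := PU l.toFinset S val ↑(av v M) with hQ'
    have hsplit := Q_split v l hnd S val hS hval M
    rw [← hP, ← hQ', ← hQv] at hsplit
    have hP0 : 0 ≤ P := PU_nonneg _ S val hSf hvalf _
    have hQ'0 : 0 ≤ Q' := PU_nonneg _ S val hSf hvalf _
    have hωv := hω0 (v :: l) List.suffix_rfl
    have hQvρ : Qv ≤ ρ (v :: l) := by
      refine le_trans ?_ (hρ (v :: l) List.suffix_rfl)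
      apply PU_le_of_inter π (v :: l).toFinset S val hSf2 hvalf2 (1 - Real.exp (-(ω (v :: l))))
        (by
          have : Real.exp (-(ω (v :: l))) ≤ 1 := Real.exp_le_one_iff.2 (by linarith [hωv.1])
          linarith)
        (hhalf _ hωv.2)
        (by
          intro r
          have h1 := hω (v :: l) List.suffix_rfl r
          have h2 : Real.exp (-(ω (v :: l)))
              ≤ Real.exp (-∑ w ∈ (v :: l).toFinset.filter (fun w => π w = r), S w / val w) :=
            Real.exp_le_exp.2 (by linarith)
          linarith) ↑M hI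
    have hfirst : S v * ∑ m ∈ lkf v M, (∏ w ∈ m, S w) * hh ((z * val v) * ∏ w ∈ m, val w)
        ≤ B * (pv S val v * P) := by
      calc _ ≤ S v * (hh (z * val v) * K (v :: l) * (Real.exp (ω l) * P)) :=
            mul_le_mul_of_nonneg_left hb' (hS v List.mem_cons_self)
        _ = (S v * (hh (z * val v) * K (v :: l) * Real.exp (ω l))) * P := by ring
        _ ≤ (β (v :: l) * pv S val v) * P := mul_le_mul_of_nonneg_right hβ hP0
        _ = β (v :: l) * (pv S val v * P) := by ring
        _ ≤ B * (pv S val v * P) :=
            mul_le_mul_of_nonneg_right (le_max_right _ _) (mul_nonneg p0 hP0)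
    have hBQ : B * (pv S val v * P) + (1 - pv S val v) * B * Q' ≤ B * Qv := by
      have := mul_le_mul_of_nonneg_left hsplit hB0
      linarith
    have hfin : B * Qv ≤ b * Qv + max 0 (β (v :: l) - b) * ρ (v :: l) := by
      have e : B = b + max 0 (β (v :: l) - b) := by
        rw [hB]
        rcases le_total (β (v :: l)) b with h | h
        · rw [max_eq_left h, max_eq_left (by linarith)]; ring
        · rw [max_eq_right h, max_eq_right (by linarith)]; ring
      rw [e, add_mul]
      have := mul_le_mul_of_nonneg_left hQvρ (le_max_left (0:ℝ) (β (v :: l) - b))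
      linarith
    simp only [RL]
    rw [← hB]
    linarith

/-- total weight of a list. -/
noncomputable def WL (S val : V → ℝ) (l : List V) : ℝ := (l.map (fun v => S v / val v)).sum

/-- a block contributes nothing when the level dominates the efficiencies. -/
theorem RL_block (S val : V → ℝ) (β ρ : List V → ℝ) : ∀ (blk rest : List V) (b : ℝ),
    (∀ p v q, blk = p ++ v :: q → β (v :: (q ++ rest)) ≤ b * Real.exp (-WL S val p)) →
    RL S val β ρ (blk ++ rest) b = RL S val β ρ rest (b * Real.exp (-WL S val blk)) := by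
  intro blk
  induction blk with
  | nil => intro rest b _; simp [WL]
  | cons v q ih =>
    intro rest b h
    have h0 := h [] v q rfl
    simp only [WL, List.map_nil, List.sum_nil, neg_zero, Real.exp_zero, mul_one] at h0
    have hpv : 1 - pv S val v = Real.exp (-(S v / val v)) := by unfold pv; ring
    simp only [List.cons_append, RL]
    rw [max_eq_left (by linarith), zero_mul, zero_add, max_eq_left h0, ih rest]
    · rw [hpv]
      congr 1
      have : WL S val (v :: q) = S v / val v + WL S val q := by simp [WL]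
      rw [this, neg_add, Real.exp_add]
      ring
    · intro p w q' hq
      have := h (v :: p) w q' (by rw [hq]; rfl)
      have e : WL S val (v :: p) = S v / val v + WL S val p := by simp [WL]
      rw [e, neg_add, Real.exp_add] at this
      rw [hpv]
      linarith

/-- value of the linear program for blocks: each block comes with the (normalised) level. -/
noncomputable def RB (S val : V → ℝ) (ρ : List V → ℝ) : List (List V × ℝ) → ℝ → ℝ → ℝ
  | [], _, _ => 0
  | (blk, B) :: rest, b, W => max 0 (B - b) * (Real.exp (-W) * ρ (blk ++ (rest.map Prod.fst).flatten))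
      + RB S val ρ rest (max b B) (W + WL S val blk)

/-- the block form of the linear programming bound; `W` is the weight of the prefix. -/
theorem RL_le_RB (S val : V → ℝ) (β ρ : List V → ℝ) : ∀ (bs : List (List V × ℝ)) (b W : ℝ),
    (∀ v ∈ (bs.map Prod.fst).flatten, 0 ≤ S v) → (∀ v ∈ (bs.map Prod.fst).flatten, 1 < val v) →
    (∀ l' : List V, l' <:+ (bs.map Prod.fst).flatten → 0 ≤ ρ l') →
    (∀ v l', (v :: l') <:+ (bs.map Prod.fst).flatten → ρ l' ≤ ρ (v :: l')) →
    (∀ bs1 blk B bs2, bs = bs1 ++ (blk, B) :: bs2 → ∀ p v q, blk = p ++ v :: q →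
      β (v :: (q ++ (bs2.map Prod.fst).flatten))
        ≤ B * Real.exp (-(W + WL S val (bs1.map Prod.fst).flatten + WL S val p))) →
    RL S val β ρ (bs.map Prod.fst).flatten (b * Real.exp (-W)) ≤ RB S val ρ bs b W := by
  intro bs
  induction bs with
  | nil => intro b W _ _ _ _ _; simp [RL, RB]
  | cons x rest ih =>
    intro b W hS hval hρ hmono hβ
    obtain ⟨blk, B⟩ := x
    simp only [List.map_cons, List.flatten_cons] at hS hval hρ hmono ⊢
    have hEW : 0 < Real.exp (-W) := Real.exp_pos _
    have h1 : b * Real.exp (-W) ≤ max b B * Real.exp (-W) :=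
      mul_le_mul_of_nonneg_right (le_max_left _ _) hEW.le
    have h2 := RL_level S val β ρ (blk ++ (rest.map Prod.fst).flatten) hS hval hρ hmono _ _ h1
    have h3 : RL S val β ρ (blk ++ (rest.map Prod.fst).flatten) (max b B * Real.exp (-W))
        = RL S val β ρ (rest.map Prod.fst).flatten
            (max b B * Real.exp (-W) * Real.exp (-WL S val blk)) := by
      apply RL_block
      intro p v q hq
      have := hβ [] blk B rest rfl p v q hq
      refine this.trans ?_
      have e : Real.exp (-(W + WL S val (([] : List (List V × ℝ)).map Prod.fst).flatten + WL S val p))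
          = Real.exp (-W) * Real.exp (-WL S val p) := by
        rw [← Real.exp_add]; congr 1; simp [WL]; ring
      rw [e, mul_assoc]
      exact mul_le_mul_of_nonneg_right (le_max_right _ _) (mul_pos hEW (Real.exp_pos _)).le
    have h4 : max b B * Real.exp (-W) * Real.exp (-WL S val blk)
        = max b B * Real.exp (-(W + WL S val blk)) := by
      rw [neg_add, Real.exp_add]; ring
    have h5 := ih (max b B) (W + WL S val blk)
      (fun v hv => hS v (List.mem_append_right _ hv))
      (fun v hv => hval v (List.mem_append_right _ hv))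
      (fun l' h => hρ l' (h.trans (List.suffix_append _ _)))
      (fun v l' h => hmono v l' (h.trans (List.suffix_append _ _)))
      (by
        intro bs1 blk' B' bs2 hbs p v q hq
        have := hβ ((blk, B) :: bs1) blk' B' bs2 (by rw [hbs]; rfl) p v q hq
        refine this.trans (le_of_eq ?_)
        congr 2
        simp [WL]
        ring)
    rw [h3, h4] at h2
    simp only [RB]
    have h6 : (max b B * Real.exp (-W) - b * Real.exp (-W)) * ρ (blk ++ (rest.map Prod.fst).flatten)
        = max 0 (B - b) * (Real.exp (-W) * ρ (blk ++ (rest.map Prod.fst).flatten)) := by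
      have : max b B - b = max 0 (B - b) := by
        rcases le_total b B with h | h
        · rw [max_eq_right h, max_eq_right (by linarith)]
        · rw [max_eq_left h, max_eq_left (by linarith)]; ring
      rw [← this]; ring
    linarith

end Pool.Agent.EZ
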