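import Pool.Agent.EZ.MertensPP2

/-!
# Abel summation over prime powers and the exponential integral (helper46)
-/

set_option autoImplicit false

namespace Pool.Agent.EZ

open Finset ArithmeticFunction MeasureTheory
open scoped Nat

noncomputable section

/-- The exponential integral `∫_y^∞ e^{-x} / x dx`. -/
def EE (y : ℝ) : ℝ := ∫ x in Set.Ioi y, Real.exp (-x) / x

theorem EE_integrable {y : ℝ} (hy : 0 < y) :
    IntegrableOn (fun x : ℝ => Real.exp (-x) / x) (Set.Ioi y) := by
  have h1 : IntegrableOn (fun x : ℝ => Real.exp (-x) * (1 / y)) (Set.Ioi y) := by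
    have := integrableOn_exp_neg_Ioi y
    exact this.mul_const _
  refine Integrable.mono' h1 ?_ ?_
  · apply ContinuousOn.aestronglyMeasurable _ measurableSet_Ioi
    apply ContinuousOn.div
    · exact (Real.continuous_exp.comp continuous_neg).continuousOn
    · exact continuousOn_id
    · intro x hx
      have : y < x := hx
      linarith
  · refine (ae_restrict_iff' measurableSet_Ioi).2 (Filter.Eventually.of_forall fun x hx => ?_)
    have hx' : y < x := hx
    have hx0 : 0 < x := by linarith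
    rw [Real.norm_of_nonneg (by positivity), div_eq_mul_one_div]
    apply mul_le_mul_of_nonneg_left _ (Real.exp_pos _).le
    exact one_div_le_one_div_of_le hy hx'.le

theorem EE_nonneg {y : ℝ} (hy : 0 < y) : 0 ≤ EE y := by
  apply setIntegral_nonneg measurableSet_Ioi
  intro x hx
  have hx' : y < x := hx
  have hx0 : 0 < x := by linarith
  positivity

theorem EE_sub {y1 y2 : ℝ} (h1 : 0 < y1) (h : y1 ≤ y2) :
    EE y1 - EE y2 = ∫ x in y1..y2, Real.exp (-x) / x := by
  unfold EE
  have hi := EE_integrable h1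
  have hu : Set.Ioi y1 = Set.Ioc y1 y2 ∪ Set.Ioi y2 := (Set.Ioc_union_Ioi_eq_Ioi h).symm
  rw [hu, setIntegral_union (by
    rw [Set.disjoint_left]
    intro x hx hx'
    exact absurd hx.2 (not_le.2 hx')) measurableSet_Ioi
    (hi.mono_set (by intro x hx; exact hx.1)) (hi.mono_set (by intro x hx; exact lt_of_le_of_lt h hx))]
  rw [intervalIntegral.integral_of_le h]
  ring

theorem EE_intervalIntegrable {y1 y2 : ℝ} (h1 : 0 < y1) (h : y1 ≤ y2) :
    IntervalIntegrable (fun x : ℝ => Real.exp (-x) / x) volume y1 y2 := by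
  rw [intervalIntegrable_iff_integrableOn_Ioc_of_le h]
  exact (EE_integrable h1).mono_set (by intro x hx; exact hx.1)

/-- (P2) -/
theorem EE_sub_ge {y1 y2 : ℝ} (h1 : 0 < y1) (h : y1 ≤ y2) :
    (y2 - y1) * (Real.exp (-y2) / y2) ≤ EE y1 - EE y2 := by
  rw [EE_sub h1 h]
  have : (y2 - y1) * (Real.exp (-y2) / y2) = ∫ _x in y1..y2, Real.exp (-y2) / y2 := by
    rw [intervalIntegral.integral_const, smul_eq_mul]
  rw [this]
  apply intervalIntegral.integral_mono_on h intervalIntegrable_const (EE_intervalIntegrable h1 h)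
  intro x hx
  have hx0 : 0 < x := by linarith [hx.1]
  apply div_le_div₀ (Real.exp_pos _).le (Real.exp_le_exp.2 (by linarith [hx.2])) hx0 hx.2

theorem EE_antitone {y1 y2 : ℝ} (h1 : 0 < y1) (h : y1 ≤ y2) : EE y2 ≤ EE y1 := by
  have h2 := EE_sub_ge h1 h
  have h3 : 0 ≤ (y2 - y1) * (Real.exp (-y2) / y2) :=
    mul_nonneg (by linarith) (div_nonneg (Real.exp_pos _).le (by linarith))
  linarith

/-- The weight `m^{-s} / log m`. -/
def gw (s x : ℝ) : ℝ := x ^ (-s) / Real.log x

theorem gw_antitone {s x y : ℝ} (hs : 0 ≤ s) (hx : 1 < x) (h : x ≤ y) : gw s y ≤ gw s x := by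
  unfold gw
  have hx0 : 0 < x := by linarith
  apply div_le_div₀ (Real.rpow_nonneg hx0.le _) _ (Real.log_pos hx) (Real.log_le_log hx0 h)
  rw [Real.rpow_neg hx0.le, Real.rpow_neg (by linarith)]
  exact inv_anti₀ (Real.rpow_pos_of_pos hx0 _) (Real.rpow_le_rpow hx0.le h hs)

theorem gw_nonneg {s x : ℝ} (hx : 1 < x) : 0 ≤ gw s x :=
  div_nonneg (Real.rpow_nonneg (by linarith) _) (Real.log_pos hx).le

/-- the integral over one unit. -/
theorem EE_log_step {s x y : ℝ} (hs : 0 < s) (hx : 1 < x) (h : x ≤ y) :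
    (Real.log y - Real.log x) * gw s y ≤ EE (s * Real.log x) - EE (s * Real.log y) := by
  have hlx : 0 < Real.log x := Real.log_pos hx
  have hly : Real.log x ≤ Real.log y := Real.log_le_log (by linarith) h
  have h2 := EE_sub_ge (y1 := s * Real.log x) (y2 := s * Real.log y) (by positivity)
    (mul_le_mul_of_nonneg_left hly hs.le)
  have h3 : Real.exp (-(s * Real.log y)) = y ^ (-s) := by
    rw [Real.rpow_def_of_pos (by linarith)]
    congr 1
    ring
  rw [h3] at h2
  refine le_trans (le_of_eq ?_) h2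
  unfold gw
  have hs' : s ≠ 0 := hs.ne'
  have hly0 : Real.log y ≠ 0 := by linarith
  field_simp

/-- Abel summation, abstract: `a ≥ 0` on `(n, ∞)`, partial sums `B N = ∑_{n < m ≤ N} a m`
bounded by `log N - log c + η (+ δ for N > X)`. -/
theorem abel_bound (a : ℕ → ℝ) (n X : ℕ) (c s η δ : ℝ) (hs : 0 < s) (hc : 1 < c) (hcn : c ≤ n + 1)
    (hX : 2 ≤ X) (hη : 0 ≤ η) (hδ : 0 ≤ δ)
    (hB : ∀ N, n < N → ∑ m ∈ Ioc n N, a m ≤ Real.log N - Real.log c + η + (if X < N then δ else 0)) :
    ∀ N, n < N → ∑ m ∈ Ioc n N, a m * gw s m ≤ η * gw s c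
      + (EE (s * Real.log c) - EE (s * Real.log N)) + (if X < N then δ * gw s X else 0)
      + (∑ m ∈ Ioc n N, a m - (Real.log N - Real.log c + η + (if X < N then δ else 0))) * gw s N := by
  intro N hN
  induction N, (Nat.succ_le_of_lt hN) using Nat.le_induction with
  | base =>
    have h1 : Ioc n n.succ = {n.succ} := by
      ext m; simp only [mem_Ioc, mem_singleton]; omega
    rw [h1, Finset.sum_singleton, Finset.sum_singleton]
    have hn1 : ((n.succ : ℕ) : ℝ) = (n : ℝ) + 1 := by push_cast; ring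
    have hcn' : c ≤ ((n.succ : ℕ) : ℝ) := by rw [hn1]; exact hcn
    have h2 := EE_log_step hs hc hcn'
    have h3 := gw_antitone hs.le hc hcn'
    have h4 := mul_le_mul_of_nonneg_left h3 hη
    have h5 : (if X < n.succ then δ else 0) * gw s (n.succ : ℕ) ≤ (if X < n.succ then δ * gw s X else 0) := by
      split_ifs with h
      · apply mul_le_mul_of_nonneg_left _ hδ
        apply gw_antitone hs.le (by exact_mod_cast (by omega : 1 < X))
        exact_mod_cast h.le
      · simp
    nlinarith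
  | succ N hN' ih =>
    have hnN : n < N := by omega
    have ih' := ih hnN
    have h1 : Ioc n (N + 1) = insert (N + 1) (Ioc n N) := by
      ext m; simp only [mem_Ioc, mem_insert]; omega
    have h1' : N + 1 ∉ Ioc n N := by simp
    rw [h1, Finset.sum_insert h1', Finset.sum_insert h1']
    have hN1 : (1 : ℝ) < N := by
      have h5 : (n : ℝ) + 1 ≤ N := by exact_mod_cast hnN
      linarith
    have hNN : (N : ℝ) ≤ ((N + 1 : ℕ) : ℝ) := by push_cast; linarith
    have h2 := EE_log_step hs hN1 hNN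
    have h3 := gw_antitone hs.le hN1 hNN
    have h6 := hB N hnN
    have h5 : ((if X < N + 1 then δ else 0) - (if X < N then δ else 0)) * gw s (N + 1 : ℕ)
        ≤ (if X < N + 1 then δ * gw s X else 0) - (if X < N then δ * gw s X else 0) := by
      by_cases ha : X < N
      · rw [if_pos ha, if_pos ha, if_pos (by omega), if_pos (by omega)]
        simp
      · rw [if_neg ha, if_neg ha]
        by_cases hb : X < N + 1
        · rw [if_pos hb, if_pos hb]
          have : gw s (N + 1 : ℕ) ≤ gw s X := by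
            apply gw_antitone hs.le (by exact_mod_cast (by omega : 1 < X))
            exact_mod_cast hb.le
          have := mul_le_mul_of_nonneg_left this hδ
          linarith
        · rw [if_neg hb, if_neg hb]
          simp
    set Bn := ∑ m ∈ Ioc n N, a m with hBn
    set G := gw s (N + 1 : ℕ) with hG
    set G0 := gw s (N : ℕ) with hG0
    have h7 : (Bn - (Real.log N - Real.log c + η + (if X < N then δ else 0))) * G0
        ≤ (Bn - (Real.log N - Real.log c + η + (if X < N then δ else 0))) * G := by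
      apply mul_le_mul_of_nonpos_left h3
      linarith
    nlinarith

/-- summand -/
def ap (m : ℕ) : ℝ := if IsPrimePow m then Real.log m / m else 0

theorem sum_ap (n N : ℕ) (h : n ≤ N) : ∑ m ∈ Ioc n N, ap m = A1 N - A1 n := by
  induction N, h using Nat.le_induction with
  | base => simp
  | succ N hN ih =>
    have h1 : Ioc n (N + 1) = insert (N + 1) (Ioc n N) := by
      ext m; simp only [mem_Ioc, mem_insert]; omega
    rw [h1, Finset.sum_insert (by simp), ih, A1_succ]
    unfold ap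
    ring

theorem ap_nonneg (m : ℕ) : 0 ≤ ap m := by
  unfold ap
  split_ifs
  · exact div_nonneg (Real.log_natCast_nonneg m) (Nat.cast_nonneg m)
  · exact le_refl _

/-- From sums over prime powers to Abel sums. -/
theorem sum_pp_le (F : Finset ℕ) (n N : ℕ) (s : ℝ) (hn : 1 ≤ n)
    (hF : ∀ v ∈ F, IsPrimePow v ∧ n < v ∧ v ≤ N) :
    ∑ v ∈ F, (v : ℝ) ^ (-1 - s) ≤ ∑ m ∈ Ioc n N, ap m * gw s m := by
  have h1 : ∑ v ∈ F, (v : ℝ) ^ (-1 - s) = ∑ v ∈ F, ap v * gw s v := by
    apply Finset.sum_congr rfl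
    intro v hv
    obtain ⟨hp, hv1, -⟩ := hF v hv
    have hv2 : (1 : ℝ) < v := by exact_mod_cast (by omega : 1 < v)
    have hv0 : (0 : ℝ) < v := by linarith
    have hlog : Real.log (v : ℝ) ≠ 0 := (Real.log_pos hv2).ne'
    unfold ap gw
    rw [if_pos hp]
    have : (v : ℝ) ^ (-1 - s) = (v : ℝ) ^ (-s) / v := by
      rw [show (-1 - s) = -s - 1 by ring, Real.rpow_sub_one hv0.ne']
    rw [this]
    field_simp
  rw [h1]
  apply Finset.sum_le_sum_of_subset_of_nonneg
  · intro v hv
    obtain ⟨-, hv1, hv2⟩ := hF v hv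
    exact mem_Ioc.2 ⟨hv1, hv2⟩
  · intro m hm _
    rw [mem_Ioc] at hm
    exact mul_nonneg (ap_nonneg m) (gw_nonneg (by exact_mod_cast (by omega : 1 < m)))

theorem R_bound_gen (F : Finset ℕ) (n X : ℕ) (c s η δ : ℝ) (hs : 0 < s) (hn : 1 ≤ n) (hc : 1 < c)
    (hnc : (n : ℝ) ≤ c) (hcn : c ≤ n + 1)
    (hX : 2 ≤ X) (hη : 0 ≤ η) (hδ : 0 ≤ δ)
    (hB : ∀ N, n < N → A1 N - A1 n ≤ Real.log N - Real.log c + η + (if X < N then δ else 0))
    (hF : ∀ v ∈ F, IsPrimePow v ∧ c < v) :
    ∑ v ∈ F, (v : ℝ) ^ (-1 - s) ≤ EE (s * Real.log c) + η * gw s c + δ * gw s X := by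
  have hlc : 0 < Real.log c := Real.log_pos hc
  have hE := EE_nonneg (mul_pos hs hlc)
  have hg1 := gw_nonneg (s := s) hc
  have hg2 : 0 ≤ gw s X := gw_nonneg (by exact_mod_cast (by omega : 1 < X))
  rcases F.eq_empty_or_nonempty with h | h
  · subst h
    simp only [Finset.sum_empty]
    have := mul_nonneg hη hg1
    have := mul_nonneg hδ hg2
    linarith
  · set N := F.max' h with hN
    have hF' : ∀ v ∈ F, IsPrimePow v ∧ n < v ∧ v ≤ N := by
      intro v hv
      obtain ⟨h1, h2⟩ := hF v hv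
      refine ⟨h1, ?_, F.le_max' v hv⟩
      have : (n : ℝ) < v := lt_of_le_of_lt hnc h2
      exact_mod_cast this
    have hnN : n < N := (hF' N (F.max'_mem h)).2.1
    have h1 := sum_pp_le F n N s hn hF'
    have h2 := abel_bound ap n X c s η δ hs hc hcn hX hη hδ (by
      intro M hM
      rw [sum_ap n M hM.le]
      exact hB M hM) N hnN
    rw [sum_ap n N hnN.le] at h2
    have h3 := hB N hnN
    have hN1 : (1 : ℝ) < N := by exact_mod_cast (by omega : 1 < N)
    have hgN := gw_nonneg (s := s) hN1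
    have hEN := EE_nonneg (mul_pos hs (Real.log_pos hN1))
    have h4 : (if X < N then δ * gw s X else 0) ≤ δ * gw s X := by
      split_ifs
      · exact le_refl _
      · exact mul_nonneg hδ hg2
    have h5 : (A1 N - A1 n - (Real.log N - Real.log c + η + (if X < N then δ else 0))) * gw s N ≤ 0 :=
      mul_nonpos_of_nonpos_of_nonneg (by linarith) hgN
    linarith

/-- Error term of `∑_{v > c} v^{-1-s} ≤ EE (s log c) + eta n * c^{-s}`, `n ≤ c ≤ n + 1`. -/
def etaA (n : ℕ) : ℝ := if n < 10000 then 1.6386 - (e1 n : ℝ) / 10000 else 0.4441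

theorem R_bound_small (F : Finset ℕ) (n : ℕ) (c s : ℝ) (hs : 0 < s) (hn : 2 ≤ n) (hn' : n < 10000)
    (hnc : (n : ℝ) ≤ c) (hcn : c ≤ n + 1) (hη : 0 ≤ 1.6386 - (e1 n : ℝ) / 10000)
    (hF : ∀ v ∈ F, IsPrimePow v ∧ c < v) :
    ∑ v ∈ F, (v : ℝ) ^ (-1 - s) ≤ EE (s * Real.log c) + (1.6386 - (e1 n : ℝ) / 10000) * gw s c
      + 0.2264 * gw s (10000 : ℕ) := by
  have hnr : (2 : ℝ) ≤ n := by exact_mod_cast hn
  apply R_bound_gen F n 10000 c s _ 0.2264 hs (by omega) (by linarith) hnc hcn (by norm_num) hη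
    (by norm_num) _ hF
  intro N hN
  by_cases h : 10000 < N
  · rw [if_pos h]
    have := A1_incr_mid hn hn' (by linarith : 0 < c) hcn h.le
    linarith
  · rw [if_neg h]
    have := A1_incr_small hn hn' (by linarith : 0 < c) hcn (by omega : 3 ≤ N) (by omega)
    linarith

theorem R_bound_large (F : Finset ℕ) (n : ℕ) (c s : ℝ) (hs : 0 < s) (hn : 10000 ≤ n)
    (hnc : (n : ℝ) ≤ c) (hcn : c ≤ n + 1) (hF : ∀ v ∈ F, IsPrimePow v ∧ c < v) :
    ∑ v ∈ F, (v : ℝ) ^ (-1 - s) ≤ EE (s * Real.log c) + 0.4441 * gw s c := by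
  have hnr : (10000 : ℝ) ≤ n := by exact_mod_cast hn
  have h := R_bound_gen F n 2 c s 0.4441 0 hs (by omega) (by linarith) hnc hcn le_rfl (by norm_num)
    le_rfl (by
      intro N hN
      have := A1_incr_large hn (by linarith : 0 < c) hcn (by omega : 10000 ≤ N)
      split_ifs <;> linarith) hF
  linarith

end

end Pool.Agent.EZ
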