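import Pool.Agent.EZ.Mertens

/-!
# Explicit Mertens type estimates: two certificates (helper46)
-/

set_option autoImplicit false

namespace Pool.Agent.EZ

open Finset ArithmeticFunction
open scoped Nat

/-- `(a, c, x, y, z, w)` with `a = 2 ^ x * 3 ^ y * 5 ^ z * 7 ^ w`. -/
abbrev Tm := ℕ × ℕ × ℕ × ℕ × ℕ × ℕ

/-- `∑ c * ⌊i / a⌋`. -/
def ev : List Tm → ℕ → ℕ
  | [], _ => 0
  | t :: l, i => Nat.add (Nat.mul t.2.1 (Nat.div i t.1)) (ev l i)

/-- `∑ s * [y ≤ i]`. -/
def es : List (ℕ × ℕ) → ℕ → ℕ
  | [], _ => 0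
  | t :: l, i => Nat.add (cond (Nat.ble t.1 i) t.2 0) (es l i)

/-- Run a test on all `i < n`. -/
def chkAll (t : ℕ → Bool) : ℕ → Bool
  | 0 => true
  | n + 1 => cond (t n) (chkAll t n) false

theorem chkAll_spec {t : ℕ → Bool} {n : ℕ} (h : chkAll t n = true) : ∀ i < n, t i = true := by
  induction n with
  | zero => intro i hi; omega
  | succ n ih =>
    unfold chkAll at h
    cases htn : t n with
    | false => rw [htn] at h; simp at h
    | true =>
      rw [htn] at h
      simp only [cond_true] at h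
      intro i hi
      rcases Nat.lt_succ_iff_lt_or_eq.1 hi with h1 | h1
      · exact ih h i h1
      · rw [h1]; exact htn

/-- `∑ c f(a)`. -/
noncomputable def RS (l : List Tm) (f : ℕ → ℝ) : ℝ := (l.map fun t => (t.2.1 : ℝ) * f t.1).sum

/-- `∑ s f(y)`. -/
noncomputable def RT (l : List (ℕ × ℕ)) (f : ℕ → ℝ) : ℝ := (l.map fun t => (t.2 : ℝ) * f t.1).sum

theorem RS_cons (t : Tm) (l : List Tm) (f : ℕ → ℝ) :
    RS (t :: l) f = (t.2.1 : ℝ) * f t.1 + RS l f := by simp [RS]

theorem RT_cons (t : ℕ × ℕ) (l : List (ℕ × ℕ)) (f : ℕ → ℝ) :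
    RT (t :: l) f = (t.2 : ℝ) * f t.1 + RT l f := by simp [RT]

theorem RS_nil (f : ℕ → ℝ) : RS [] f = 0 := by simp [RS]

theorem RT_nil (f : ℕ → ℝ) : RT [] f = 0 := by simp [RT]

theorem RS_mono {l : List Tm} {f g : ℕ → ℝ} (h : ∀ t ∈ l, f t.1 ≤ g t.1) : RS l f ≤ RS l g := by
  induction l with
  | nil => simp [RS]
  | cons t l ih =>
    rw [RS_cons, RS_cons]
    have h1 := h t (by simp)
    have h2 := ih fun s hs => h s (by simp [hs])
    have h3 : (0 : ℝ) ≤ t.2.1 := Nat.cast_nonneg _
    nlinarith [mul_le_mul_of_nonneg_left h1 h3]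

theorem RT_mono {l : List (ℕ × ℕ)} {f g : ℕ → ℝ} (h : ∀ t ∈ l, f t.1 ≤ g t.1) :
    RT l f ≤ RT l g := by
  induction l with
  | nil => simp [RT]
  | cons t l ih =>
    rw [RT_cons, RT_cons]
    have h1 := h t (by simp)
    have h2 := ih fun s hs => h s (by simp [hs])
    have h3 : (0 : ℝ) ≤ t.2 := Nat.cast_nonneg _
    nlinarith [mul_le_mul_of_nonneg_left h1 h3]

theorem RS_ev (l : List Tm) (i : ℕ) : RS l (fun a => ((i / a : ℕ) : ℝ)) = (ev l i : ℝ) := by
  induction l with
  | nil => simp [RS, ev]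
  | cons t l ih =>
    rw [RS_cons, ih]
    change _ = ((t.2.1 * (i / t.1) + ev l i : ℕ) : ℝ)
    push_cast
    ring

theorem RT_es (l : List (ℕ × ℕ)) (i : ℕ) :
    RT l (fun y => if y ≤ i then 1 else 0) = (es l i : ℝ) := by
  induction l with
  | nil => simp [RT, es]
  | cons t l ih =>
    rw [RT_cons, ih]
    change _ = (((cond (Nat.ble t.1 i) t.2 0) + es l i : ℕ) : ℝ)
    by_cases h : t.1 ≤ i
    · have : Nat.ble t.1 i = true := by rw [Nat.ble_eq]; exact h
      rw [this]
      simp [h]
    · have : Nat.ble t.1 i = false := by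
        cases hb : Nat.ble t.1 i with
        | false => rfl
        | true => exact absurd (by rwa [Nat.ble_eq] at hb) h
      rw [this]
      simp [h]

theorem RS_eq_sum (l : List Tm) (f : ℕ → ℝ) :
    RS l f = ∑ j : Fin l.length, (l[j.1].2.1 : ℝ) * f l[j.1].1 :=
  (Fin.sum_univ_fun_getElem l (fun t : Tm => (t.2.1 : ℝ) * f t.1)).symm

theorem RT_eq_sum (l : List (ℕ × ℕ)) (f : ℕ → ℝ) :
    RT l f = ∑ j : Fin l.length, (l[j.1].2 : ℝ) * f l[j.1].1 :=
  (Fin.sum_univ_fun_getElem l (fun t : ℕ × ℕ => (t.2 : ℝ) * f t.1)).symm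

/-- periodicity -/
theorem ev_add (P : ℕ) (l : List Tm) (hl : ∀ t ∈ l, 0 < t.1 ∧ t.1 ∣ P) (i : ℕ) :
    ev l (i + P) = ev l i + ev l P := by
  induction l with
  | nil => rfl
  | cons t l ih =>
    have h := hl t (by simp)
    have h2 := ih fun s hs => hl s (by simp [hs])
    change t.2.1 * ((i + P) / t.1) + ev l (i + P) = (t.2.1 * (i / t.1) + ev l i) + (t.2.1 * (P / t.1) + ev l P)
    rw [h2]
    obtain ⟨k, hk⟩ := h.2
    have h3 : (i + P) / t.1 = i / t.1 + P / t.1 := by
      rw [hk, Nat.add_mul_div_left _ _ h.1, Nat.mul_div_cancel_left _ h.1]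
    rw [h3]
    ring

theorem es_mono (l : List (ℕ × ℕ)) {i j : ℕ} (h : i ≤ j) : es l i ≤ es l j := by
  induction l with
  | nil => exact le_refl _
  | cons t l ih =>
    change cond (Nat.ble t.1 i) t.2 0 + es l i ≤ cond (Nat.ble t.1 j) t.2 0 + es l j
    have : cond (Nat.ble t.1 i) t.2 0 ≤ cond (Nat.ble t.1 j) t.2 0 := by
      cases h1 : Nat.ble t.1 i with
      | false => simp
      | true =>
        have h2 : Nat.ble t.1 j = true := by
          rw [Nat.ble_eq] at h1 ⊢
          exact le_trans h1 h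
        rw [h2]
    omega

/-- Structural conditions on the list. -/
def okl (q P : ℕ) : List Tm → Bool
  | [] => true
  | t :: l => (Nat.ble q t.1 && Nat.beq (P % t.1) 0
      && Nat.beq t.1 (2 ^ t.2.2.1 * 3 ^ t.2.2.2.1 * 5 ^ t.2.2.2.2.1 * 7 ^ t.2.2.2.2.2)) && okl q P l

theorem okl_spec {q P : ℕ} {l : List Tm} (h : okl q P l = true) : ∀ t ∈ l,
    q ≤ t.1 ∧ t.1 ∣ P ∧ t.1 = 2 ^ t.2.2.1 * 3 ^ t.2.2.2.1 * 5 ^ t.2.2.2.2.1 * 7 ^ t.2.2.2.2.2 := by
  induction l with
  | nil => intro t ht; simp at ht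
  | cons s l ih =>
    unfold okl at h
    simp only [Bool.and_eq_true, Nat.ble_eq, Nat.beq_eq] at h
    intro t ht
    rcases List.mem_cons.1 ht with rfl | ht
    · exact ⟨h.1.1.1, Nat.dvd_of_mod_eq_zero h.1.1.2, h.1.2⟩
    · exact ih h.2 t ht

/-- `q ≤ y` for all `(y, s)`. -/
def oks (q : ℕ) : List (ℕ × ℕ) → Bool
  | [] => true
  | t :: l => Nat.ble q t.1 && oks q l

theorem oks_spec {q : ℕ} {l : List (ℕ × ℕ)} (h : oks q l = true) : ∀ t ∈ l, q ≤ t.1 := by
  induction l with
  | nil => intro t ht; simp at ht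
  | cons s l ih =>
    unfold oks at h
    simp only [Bool.and_eq_true, Nat.ble_eq] at h
    intro t ht
    rcases List.mem_cons.1 ht with rfl | ht
    · exact h.1
    · exact ih h.2 t ht

/-- The test of an upper certificate at `q + i`. -/
def testU (q D : ℕ) (pos neg : List Tm) (sy : List (ℕ × ℕ)) (i : ℕ) : Bool :=
  Nat.ble (Nat.add (Nat.mul D (Nat.add (Nat.add q i) 1)) (Nat.mul q (ev neg (Nat.add q i))))
    (Nat.add (Nat.mul q (ev pos (Nat.add q i))) (Nat.mul q (es sy (Nat.add q i))))

/-- The test of a lower certificate at `q + i`. -/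
def testL (q D : ℕ) (pos neg : List Tm) (sy : List (ℕ × ℕ)) (i : ℕ) : Bool :=
  Nat.ble (Nat.mul q (ev pos (Nat.add q i)))
    (Nat.add (Nat.add (Nat.mul D (Nat.add q i)) (Nat.mul q (ev neg (Nat.add q i))))
      (Nat.mul q (es sy (Nat.add q i))))

theorem upper_all {q D P : ℕ} (hq : 0 < q) (hP : 0 < P) {pos neg : List Tm} {sy : List (ℕ × ℕ)}
    (h1 : okl q P pos = true) (h2 : okl q P neg = true)
    (h3 : q * ev pos P = q * ev neg P + D * P)
    (h4 : chkAll (testU q D pos neg sy) P = true) :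
    ∀ i, D * (q + i + 1) + q * ev neg (q + i) ≤ q * ev pos (q + i) + q * es sy (q + i) := by
  intro i
  induction i using Nat.strong_induction_on with
  | _ i ih =>
    by_cases hi : i < P
    · have := chkAll_spec h4 i hi
      unfold testU at this
      rw [Nat.ble_eq] at this
      exact this
    · have h5 := ih (i - P) (by omega)
      have h6 : q + i = (q + (i - P)) + P := by omega
      have e1 := ev_add P pos (fun t ht => ⟨lt_of_lt_of_le hq (okl_spec h1 t ht).1,
        (okl_spec h1 t ht).2.1⟩) (q + (i - P))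
      have e2 := ev_add P neg (fun t ht => ⟨lt_of_lt_of_le hq (okl_spec h2 t ht).1,
        (okl_spec h2 t ht).2.1⟩) (q + (i - P))
      have e3 : es sy (q + (i - P)) ≤ es sy (q + (i - P) + P) := es_mono sy (by omega)
      rw [h6, e1, e2]
      have e4 : q * es sy (q + (i - P)) ≤ q * es sy (q + (i - P) + P) := Nat.mul_le_mul_left q e3
      have e5 : D * (q + (i - P) + P + 1) = D * (q + (i - P) + 1) + D * P := by ring
      rw [e5, Nat.mul_add q, Nat.mul_add q, h3]
      omega

theorem lower_all {q D P : ℕ} (hq : 0 < q) (hP : 0 < P) {pos neg : List Tm} {sy : List (ℕ × ℕ)}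
    (h1 : okl q P pos = true) (h2 : okl q P neg = true)
    (h3 : q * ev pos P = q * ev neg P + D * P)
    (h4 : chkAll (testL q D pos neg sy) P = true) :
    ∀ i, q * ev pos (q + i) ≤ D * (q + i) + q * ev neg (q + i) + q * es sy (q + i) := by
  intro i
  induction i using Nat.strong_induction_on with
  | _ i ih =>
    by_cases hi : i < P
    · have := chkAll_spec h4 i hi
      unfold testL at this
      rw [Nat.ble_eq] at this
      exact this
    · have h5 := ih (i - P) (by omega)
      have h6 : q + i = (q + (i - P)) + P := by omega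
      have e1 := ev_add P pos (fun t ht => ⟨lt_of_lt_of_le hq (okl_spec h1 t ht).1,
        (okl_spec h1 t ht).2.1⟩) (q + (i - P))
      have e2 := ev_add P neg (fun t ht => ⟨lt_of_lt_of_le hq (okl_spec h2 t ht).1,
        (okl_spec h2 t ht).2.1⟩) (q + (i - P))
      have e3 : es sy (q + (i - P)) ≤ es sy (q + (i - P) + P) := es_mono sy (by omega)
      rw [h6, e1, e2]
      have e4 : q * es sy (q + (i - P)) ≤ q * es sy (q + (i - P) + P) := Nat.mul_le_mul_left q e3
      have e5 : D * (q + (i - P) + P) = D * (q + (i - P)) + D * P := by ring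
      rw [e5, Nat.mul_add q, Nat.mul_add q, h3]
      omega

/-- `∑ c * (P / a) * k`. -/
def em (k : Tm → ℕ) (P : ℕ) : List Tm → ℕ
  | [] => 0
  | t :: l => t.2.1 * (P / t.1) * k t + em k P l

/-- `∑ c`. -/
def c0 : List Tm → ℕ
  | [] => 0
  | t :: l => t.2.1 + c0 l

noncomputable section

/-- `∑ c (P/a) log a` -/
def lg (P : ℕ) (l : List Tm) : ℝ :=
  em (fun t => t.2.2.1) P l * Real.log 2 + em (fun t => t.2.2.2.1) P l * Real.log 3
    + em (fun t => t.2.2.2.2.1) P l * Real.log 5 + em (fun t => t.2.2.2.2.2) P l * Real.log 7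

theorem RS_main (q P : ℕ) (hq : 0 < q) (m e : ℝ) (hm : 0 < m) (l : List Tm)
    (hl : okl q P l = true) (hP : 0 < P) :
    RS l (fun a => (m / a) * Real.log (m / a) - m / a + 1 + e)
      = (m / P) * (ev l P * (Real.log m - 1) - lg P l) + c0 l * (1 + e) := by
  induction l with
  | nil => simp [RS, ev, lg, em, c0]
  | cons t l ih =>
    have ht := okl_spec hl t (by simp)
    have hl' : okl q P l = true := by
      unfold okl at hl
      simp only [Bool.and_eq_true] at hl
      exact hl.2
    rw [RS_cons, ih hl']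
    have hev : ev (t :: l) P = t.2.1 * (P / t.1) + ev l P := rfl
    have hc0 : c0 (t :: l) = t.2.1 + c0 l := rfl
    have hem : ∀ k : Tm → ℕ, em k P (t :: l) = t.2.1 * (P / t.1) * k t + em k P l := fun k => rfl
    have ha0 : 0 < t.1 := lt_of_lt_of_le hq ht.1
    have ha : (0 : ℝ) < t.1 := by exact_mod_cast ha0
    have hP' : (0 : ℝ) < P := by exact_mod_cast hP
    have hdiv : ((P / t.1 : ℕ) : ℝ) = (P : ℝ) / t.1 := Nat.cast_div ht.2.1 ha.ne'
    have hlog : Real.log (t.1 : ℝ) = t.2.2.1 * Real.log 2 + t.2.2.2.1 * Real.log 3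
        + t.2.2.2.2.1 * Real.log 5 + t.2.2.2.2.2 * Real.log 7 := by
      conv_lhs => rw [ht.2.2]
      push_cast
      rw [Real.log_mul (by positivity) (by positivity), Real.log_mul (by positivity) (by positivity),
        Real.log_mul (by positivity) (by positivity), Real.log_pow, Real.log_pow, Real.log_pow,
        Real.log_pow]
    unfold lg
    rw [hev, hc0, hem, hem, hem, hem]
    push_cast
    rw [hdiv, Real.log_div hm.ne' ha.ne', hlog]
    field_simp
    ring

theorem RT_const_div (l : List (ℕ × ℕ)) (κ : ℝ) :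
    RT l (fun y => κ * ((1 : ℝ) / y)) = κ * RT l (fun y => (1 : ℝ) / y) := by
  induction l with
  | nil => simp [RT]
  | cons t l ih =>
    rw [RT_cons, RT_cons, ih]
    ring

/-- Final form, upper. -/
theorem upper_final {q D P : ℕ} (hq : 0 < q) (hD : 0 < D) (hP : 0 < P) {pos neg : List Tm}
    {sy : List (ℕ × ℕ)} (h1 : okl q P pos = true) (h2 : okl q P neg = true)
    (h0 : oks q sy = true)
    (h3 : q * ev pos P = q * ev neg P + D * P)
    (h4 : chkAll (testU q D pos neg sy) P = true) (N : ℕ) (hN : P ≤ q * N) (hN1 : 1 ≤ N)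
    (κ : ℝ) (hκ : ∀ n, psiN n ≤ κ * n) (hκ0 : 0 ≤ κ) :
    N * A N ≤ N * (Real.log N + Real.log q - 1)
      - (q * N / (P * D)) * (lg P pos - lg P neg) + ((c0 pos : ℝ) - c0 neg) / D
      + ((c0 pos : ℝ) + c0 neg) / D * Real.log N
      + κ * q * N / D * RT sy (fun y => (1 : ℝ) / y) := by
  have hall := upper_all hq hP h1 h2 h3 h4
  have hD' : (0 : ℝ) < D := by exact_mod_cast hD
  have hq' : (0 : ℝ) < q := by exact_mod_cast hq
  have hP' : (0 : ℝ) < P := by exact_mod_cast hP
  have hN' : (0 : ℝ) < N := by exact_mod_cast hN1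
  have key := upper_cert (ι := Fin pos.length ⊕ Fin neg.length) (κ := Fin sy.length) q hq
    Finset.univ
    (Sum.elim (fun j => pos[j.1].1) (fun j => neg[j.1].1))
    (Sum.elim (fun j => (pos[j.1].2.1 : ℝ) / D) (fun j => -(neg[j.1].2.1 : ℝ) / D))
    (by
      rintro (j | j) -
      · exact (okl_spec h1 _ (List.getElem_mem _)).1
      · exact (okl_spec h2 _ (List.getElem_mem _)).1)
    Finset.univ (fun j => sy[j.1].1) (fun j => (sy[j.1].2 : ℝ) / D)
    (by
      intro j _
      exact oks_spec h0 _ (List.getElem_mem _))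
    (by
      intro i hi
      rw [Fintype.sum_sum_type]
      simp only [Sum.elim_inl, Sum.elim_inr]
      have e1 : ∑ j : Fin pos.length, (pos[j.1].2.1 : ℝ) / D * ((i / pos[j.1].1 : ℕ) : ℝ)
          = (ev pos i : ℝ) / D := by
        rw [← RS_ev, RS_eq_sum, Finset.sum_div]
        exact Finset.sum_congr rfl fun j _ => by ring
      have e2 : ∑ j : Fin neg.length, -(neg[j.1].2.1 : ℝ) / D * ((i / neg[j.1].1 : ℕ) : ℝ)
          = -((ev neg i : ℝ) / D) := by
        rw [← RS_ev, RS_eq_sum, Finset.sum_div, ← Finset.sum_neg_distrib]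
        exact Finset.sum_congr rfl fun j _ => by ring
      have e3 : ∑ j : Fin sy.length, (sy[j.1].2 : ℝ) / D * (if sy[j.1].1 ≤ i then (1 : ℝ) else 0)
          = (es sy i : ℝ) / D := by
        rw [← RT_es, RT_eq_sum, Finset.sum_div]
        exact Finset.sum_congr rfl fun j _ => by ring
      rw [e1, e2, e3]
      have h5 := hall (i - q)
      have h6 : q + (i - q) = i := by omega
      rw [h6] at h5
      have h7 : ((D * (i + 1) + q * ev neg i : ℕ) : ℝ) ≤ ((q * ev pos i + q * es sy i : ℕ) : ℝ) := by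
        exact_mod_cast h5
      push_cast at h7
      rw [div_le_iff₀ hq']
      have h8 : (↑(ev pos i) / (D : ℝ) + -(↑(ev neg i) / (D : ℝ)) + ↑(es sy i) / (D : ℝ)) * q
          = (q * ev pos i + q * es sy i - q * ev neg i) / D := by ring
      rw [h8, le_div_iff₀ hD']
      linarith) N
  rw [Fintype.sum_sum_type] at key
  simp only [Sum.elim_inl, Sum.elim_inr] at key
  have e1 : ∑ j : Fin pos.length, (pos[j.1].2.1 : ℝ) / D * logFac (q * N / pos[j.1].1)
      = RS pos (fun a => logFac (q * N / a)) / D := by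
    rw [RS_eq_sum, Finset.sum_div]
    exact Finset.sum_congr rfl fun j _ => by ring
  have e2 : ∑ j : Fin neg.length, -(neg[j.1].2.1 : ℝ) / D * logFac (q * N / neg[j.1].1)
      = -(RS neg (fun a => logFac (q * N / a)) / D) := by
    rw [RS_eq_sum, Finset.sum_div, ← Finset.sum_neg_distrib]
    exact Finset.sum_congr rfl fun j _ => by ring
  have e3 : ∑ j : Fin sy.length, (sy[j.1].2 : ℝ) / D * psiN (q * N / sy[j.1].1)
      = RT sy (fun y => psiN (q * N / y)) / D := by
    rw [RT_eq_sum, Finset.sum_div]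
    exact Finset.sum_congr rfl fun j _ => by ring
  rw [e1, e2, e3] at key
  have hm : (0 : ℝ) < (q : ℝ) * N := by positivity
  have hlogN : ∀ a : ℕ, q ≤ a → Real.log ((q : ℝ) * N / a) ≤ Real.log N := by
    intro a ha
    have ha' : (q : ℝ) ≤ a := by exact_mod_cast ha
    have ha0 : (0 : ℝ) < a := lt_of_lt_of_le hq' ha'
    apply Real.log_le_log (by positivity)
    rw [div_le_iff₀ ha0]
    nlinarith
  have b1 : RS pos (fun a => logFac (q * N / a)) ≤
      RS pos (fun a => ((q * N : ℝ) / a) * Real.log ((q * N : ℝ) / a) - (q * N : ℝ) / a + 1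
        + Real.log N) := by
    apply RS_mono
    intro t ht
    have h5 := okl_spec h1 t ht
    have h6 : t.1 ≤ q * N := le_trans (Nat.le_of_dvd hP h5.2.1) hN
    have h7 := logFac_div_upper (q * N) t.1 (lt_of_lt_of_le hq h5.1) h6
    push_cast at h7
    have h8 := hlogN t.1 h5.1
    linarith
  have b2 : RS neg (fun a => ((q * N : ℝ) / a) * Real.log ((q * N : ℝ) / a) - (q * N : ℝ) / a + 1
        + -Real.log N) ≤ RS neg (fun a => logFac (q * N / a)) := by
    apply RS_mono
    intro t ht
    have h5 := okl_spec h2 t ht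
    have h6 : t.1 ≤ q * N := le_trans (Nat.le_of_dvd hP h5.2.1) hN
    have h7 := logFac_div_lower (q * N) t.1 (lt_of_lt_of_le hq h5.1) h6
    push_cast at h7
    have h8 := hlogN t.1 h5.1
    linarith
  have b3 : RT sy (fun y => psiN (q * N / y)) ≤ κ * (q * N) * RT sy (fun y => (1 : ℝ) / y) := by
    rw [← RT_const_div]
    apply RT_mono
    intro t ht
    refine (hκ _).trans ?_
    rw [mul_assoc κ, mul_one_div]
    apply mul_le_mul_of_nonneg_left _ hκ0
    have := Nat.cast_div_le (α := ℝ) (m := q * N) (n := t.1)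
    push_cast at this
    exact this
  rw [RS_main q P hq _ _ hm pos h1 hP] at b1
  rw [RS_main q P hq _ _ hm neg h2 hP] at b2
  have h3' : (q : ℝ) * ev pos P = q * ev neg P + D * P := by exact_mod_cast h3
  have hlogqN : Real.log ((q : ℝ) * N) = Real.log N + Real.log q := by
    rw [Real.log_mul hq'.ne' hN'.ne']
    ring
  rw [hlogqN] at b1 b2
  have c1 := div_le_div_of_nonneg_right b1 hD'.le
  have c2 := div_le_div_of_nonneg_right b2 hD'.le
  have c3 := div_le_div_of_nonneg_right b3 hD'.le
  refine key.trans ?_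
  have hid : (q * N / P * (ev pos P * (Real.log N + Real.log q - 1) - lg P pos)
        + c0 pos * (1 + Real.log N)) / D
      - (q * N / P * (ev neg P * (Real.log N + Real.log q - 1) - lg P neg)
        + c0 neg * (1 + -Real.log N)) / D
      + κ * (q * N) * RT sy (fun y => (1 : ℝ) / y) / D
      = N * (Real.log N + Real.log q - 1)
      - (q * N / (P * D)) * (lg P pos - lg P neg) + ((c0 pos : ℝ) - c0 neg) / D
      + ((c0 pos : ℝ) + c0 neg) / D * Real.log N
      + κ * q * N / D * RT sy (fun y => (1 : ℝ) / y) := by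
    have : (q : ℝ) * (ev pos P : ℝ) = q * ev neg P + D * P := h3'
    have h9 : (q : ℝ) * N / P * ev pos P = q * N / P * ev neg P + D * N := by
      have : (q : ℝ) * N / P * ev pos P = N / P * (q * ev pos P) := by ring
      rw [this, h3']
      field_simp
    have h10 : q * N / P * (ev pos P * (Real.log N + Real.log q - 1) - lg P pos)
        = (q * N / P * ev neg P + D * N) * (Real.log N + Real.log q - 1)
          - q * N / P * lg P pos := by
      rw [← h9]; ring
    rw [h10]
    field_simp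
    ring
  linarith [hid, c1, c2, c3]

/-- Final form, lower. -/
theorem lower_final {q D P : ℕ} (hq : 0 < q) (hD : 0 < D) (hP : 0 < P) {pos neg : List Tm}
    {sy : List (ℕ × ℕ)} (h1 : okl q P pos = true) (h2 : okl q P neg = true)
    (h0 : oks q sy = true)
    (h3 : q * ev pos P = q * ev neg P + D * P)
    (h4 : chkAll (testL q D pos neg sy) P = true) (N : ℕ) (hN : P ≤ q * N) (hN1 : 1 ≤ N)
    (κ : ℝ) (hκ : ∀ n, psiN n ≤ κ * n) (hκ0 : 0 ≤ κ) :
    N * (Real.log N + Real.log q - 1)
      - (q * N / (P * D)) * (lg P pos - lg P neg) + ((c0 pos : ℝ) - c0 neg) / D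
      - ((c0 pos : ℝ) + c0 neg) / D * Real.log N
      - κ * q * N / D * RT sy (fun y => (1 : ℝ) / y) ≤ N * A N := by
  have hall := lower_all hq hP h1 h2 h3 h4
  have hD' : (0 : ℝ) < D := by exact_mod_cast hD
  have hq' : (0 : ℝ) < q := by exact_mod_cast hq
  have hP' : (0 : ℝ) < P := by exact_mod_cast hP
  have hN' : (0 : ℝ) < N := by exact_mod_cast hN1
  have key := lower_cert (ι := Fin pos.length ⊕ Fin neg.length) (κ := Fin sy.length) q hq
    Finset.univ
    (Sum.elim (fun j => pos[j.1].1) (fun j => neg[j.1].1))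
    (Sum.elim (fun j => (pos[j.1].2.1 : ℝ) / D) (fun j => -(neg[j.1].2.1 : ℝ) / D))
    (by
      rintro (j | j) -
      · exact (okl_spec h1 _ (List.getElem_mem _)).1
      · exact (okl_spec h2 _ (List.getElem_mem _)).1)
    Finset.univ (fun j => sy[j.1].1) (fun j => (sy[j.1].2 : ℝ) / D)
    (by
      intro j _
      exact oks_spec h0 _ (List.getElem_mem _))
    (by
      intro i hi
      rw [Fintype.sum_sum_type]
      simp only [Sum.elim_inl, Sum.elim_inr]
      have e1 : ∑ j : Fin pos.length, (pos[j.1].2.1 : ℝ) / D * ((i / pos[j.1].1 : ℕ) : ℝ)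
          = (ev pos i : ℝ) / D := by
        rw [← RS_ev, RS_eq_sum, Finset.sum_div]
        exact Finset.sum_congr rfl fun j _ => by ring
      have e2 : ∑ j : Fin neg.length, -(neg[j.1].2.1 : ℝ) / D * ((i / neg[j.1].1 : ℕ) : ℝ)
          = -((ev neg i : ℝ) / D) := by
        rw [← RS_ev, RS_eq_sum, Finset.sum_div, ← Finset.sum_neg_distrib]
        exact Finset.sum_congr rfl fun j _ => by ring
      have e3 : ∑ j : Fin sy.length, (sy[j.1].2 : ℝ) / D * (if sy[j.1].1 ≤ i then (1 : ℝ) else 0)
          = (es sy i : ℝ) / D := by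
        rw [← RT_es, RT_eq_sum, Finset.sum_div]
        exact Finset.sum_congr rfl fun j _ => by ring
      rw [e1, e2, e3]
      have h5 := hall (i - q)
      have h6 : q + (i - q) = i := by omega
      rw [h6] at h5
      have h7 : ((q * ev pos i : ℕ) : ℝ) ≤ ((D * i + q * ev neg i + q * es sy i : ℕ) : ℝ) := by
        exact_mod_cast h5
      push_cast at h7
      have h8 : (i : ℝ) / q + ↑(es sy i) / (D : ℝ) - (↑(ev pos i) / (D : ℝ) + -(↑(ev neg i) / (D : ℝ)))
          = (D * i + q * ev neg i + q * es sy i - q * ev pos i) / (q * D) := by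
        field_simp
        ring
      have h9 : (0 : ℝ) ≤ (D * i + q * ev neg i + q * es sy i - q * ev pos i) / (q * D) := by
        apply div_nonneg (by linarith) (by positivity)
      linarith) N
  rw [Fintype.sum_sum_type] at key
  simp only [Sum.elim_inl, Sum.elim_inr] at key
  have e1 : ∑ j : Fin pos.length, (pos[j.1].2.1 : ℝ) / D * logFac (q * N / pos[j.1].1)
      = RS pos (fun a => logFac (q * N / a)) / D := by
    rw [RS_eq_sum, Finset.sum_div]
    exact Finset.sum_congr rfl fun j _ => by ring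
  have e2 : ∑ j : Fin neg.length, -(neg[j.1].2.1 : ℝ) / D * logFac (q * N / neg[j.1].1)
      = -(RS neg (fun a => logFac (q * N / a)) / D) := by
    rw [RS_eq_sum, Finset.sum_div, ← Finset.sum_neg_distrib]
    exact Finset.sum_congr rfl fun j _ => by ring
  have e3 : ∑ j : Fin sy.length, (sy[j.1].2 : ℝ) / D * psiN (q * N / sy[j.1].1)
      = RT sy (fun y => psiN (q * N / y)) / D := by
    rw [RT_eq_sum, Finset.sum_div]
    exact Finset.sum_congr rfl fun j _ => by ring
  rw [e1, e2, e3] at key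
  have hm : (0 : ℝ) < (q : ℝ) * N := by positivity
  have hlogN : ∀ a : ℕ, q ≤ a → Real.log ((q : ℝ) * N / a) ≤ Real.log N := by
    intro a ha
    have ha' : (q : ℝ) ≤ a := by exact_mod_cast ha
    have ha0 : (0 : ℝ) < a := lt_of_lt_of_le hq' ha'
    apply Real.log_le_log (by positivity)
    rw [div_le_iff₀ ha0]
    nlinarith
  have b1 : RS neg (fun a => logFac (q * N / a)) ≤
      RS neg (fun a => ((q * N : ℝ) / a) * Real.log ((q * N : ℝ) / a) - (q * N : ℝ) / a + 1
        + Real.log N) := by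
    apply RS_mono
    intro t ht
    have h5 := okl_spec h2 t ht
    have h6 : t.1 ≤ q * N := le_trans (Nat.le_of_dvd hP h5.2.1) hN
    have h7 := logFac_div_upper (q * N) t.1 (lt_of_lt_of_le hq h5.1) h6
    push_cast at h7
    have h8 := hlogN t.1 h5.1
    linarith
  have b2 : RS pos (fun a => ((q * N : ℝ) / a) * Real.log ((q * N : ℝ) / a) - (q * N : ℝ) / a + 1
        + -Real.log N) ≤ RS pos (fun a => logFac (q * N / a)) := by
    apply RS_mono
    intro t ht
    have h5 := okl_spec h1 t ht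
    have h6 : t.1 ≤ q * N := le_trans (Nat.le_of_dvd hP h5.2.1) hN
    have h7 := logFac_div_lower (q * N) t.1 (lt_of_lt_of_le hq h5.1) h6
    push_cast at h7
    have h8 := hlogN t.1 h5.1
    linarith
  have b3 : RT sy (fun y => psiN (q * N / y)) ≤ κ * (q * N) * RT sy (fun y => (1 : ℝ) / y) := by
    rw [← RT_const_div]
    apply RT_mono
    intro t ht
    refine (hκ _).trans ?_
    rw [mul_assoc κ, mul_one_div]
    apply mul_le_mul_of_nonneg_left _ hκ0
    have := Nat.cast_div_le (α := ℝ) (m := q * N) (n := t.1)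
    push_cast at this
    exact this
  rw [RS_main q P hq _ _ hm neg h2 hP] at b1
  rw [RS_main q P hq _ _ hm pos h1 hP] at b2
  have h3' : (q : ℝ) * ev pos P = q * ev neg P + D * P := by exact_mod_cast h3
  have hlogqN : Real.log ((q : ℝ) * N) = Real.log N + Real.log q := by
    rw [Real.log_mul hq'.ne' hN'.ne']
    ring
  rw [hlogqN] at b1 b2
  have c1 := div_le_div_of_nonneg_right b1 hD'.le
  have c2 := div_le_div_of_nonneg_right b2 hD'.le
  have c3 := div_le_div_of_nonneg_right b3 hD'.le
  have hid : (q * N / P * (ev pos P * (Real.log N + Real.log q - 1) - lg P pos)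
        + c0 pos * (1 + -Real.log N)) / D
      - (q * N / P * (ev neg P * (Real.log N + Real.log q - 1) - lg P neg)
        + c0 neg * (1 + Real.log N)) / D
      - κ * (q * N) * RT sy (fun y => (1 : ℝ) / y) / D
      = N * (Real.log N + Real.log q - 1)
      - (q * N / (P * D)) * (lg P pos - lg P neg) + ((c0 pos : ℝ) - c0 neg) / D
      - ((c0 pos : ℝ) + c0 neg) / D * Real.log N
      - κ * q * N / D * RT sy (fun y => (1 : ℝ) / y) := by
    have h9 : (q : ℝ) * N / P * ev pos P = q * N / P * ev neg P + D * N := by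
      have : (q : ℝ) * N / P * ev pos P = N / P * (q * ev pos P) := by ring
      rw [this, h3']
      field_simp
    have h10 : q * N / P * (ev pos P * (Real.log N + Real.log q - 1) - lg P pos)
        = (q * N / P * ev neg P + D * N) * (Real.log N + Real.log q - 1)
          - q * N / P * lg P pos := by
      rw [← h9]; ring
    rw [h10]
    field_simp
    ring
  linarith [hid, c1, c2, c3]

end

end Pool.Agent.EZ
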