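import Pool.Agent.EZ.MertensCert

/-!
# Explicit Mertens type estimates: the two certificates and their consequences (helper46)
-/

set_option autoImplicit false

namespace Pool.Agent.EZ

open Finset ArithmeticFunction
open scoped Nat

def posU : List Tm :=
  [(12, 70, 2, 1, 0, 0), (14, 5, 1, 0, 0, 1), (15, 5, 0, 1, 1, 0), (16, 10, 4, 0, 0, 0), (18, 10, 1, 2, 0, 0), (20, 5, 2, 0, 1, 0), (21, 15, 0, 1, 0, 1), (28, 5, 2, 0, 0, 1), (30, 10, 1, 1, 1, 0), (35, 5, 0, 0, 1, 1), (45, 10, 0, 2, 1, 0), (56, 10, 3, 0, 0, 1), (72, 60, 3, 2, 0, 0), (80, 5, 4, 0, 1, 0), (120, 55, 3, 1, 1, 0), (168, 24, 3, 1, 0, 1), (180, 34, 2, 2, 1, 0), (252, 15, 2, 2, 0, 1), (315, 5, 0, 2, 1, 1), (336, 16, 4, 1, 0, 1), (420, 36, 2, 1, 1, 1)]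

def negU : List Tm :=
  [(24, 50, 3, 1, 0, 0), (36, 55, 2, 2, 0, 0), (42, 5, 1, 1, 0, 1), (60, 65, 2, 1, 1, 0), (84, 60, 2, 1, 0, 1), (90, 5, 1, 2, 1, 0), (105, 5, 0, 1, 1, 1), (126, 5, 1, 2, 0, 1), (140, 45, 2, 0, 1, 1), (144, 20, 4, 2, 0, 0), (210, 20, 1, 1, 1, 1), (240, 35, 4, 1, 1, 0), (360, 30, 3, 2, 1, 0), (504, 64, 3, 2, 0, 1), (560, 4, 4, 0, 1, 1), (630, 15, 1, 2, 1, 1), (720, 4, 4, 2, 1, 0)]

def syU : List (ℕ × ℕ) :=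
  [(96, 5), (180, 7), (540, 5), (720, 5), (1080, 26), (2880, 12)]

def posL : List Tm :=
  [(12, 36, 2, 1, 0, 0), (14, 6, 1, 0, 0, 1), (15, 3, 0, 1, 1, 0), (16, 3, 4, 0, 0, 0), (18, 6, 1, 2, 0, 0), (20, 6, 2, 0, 1, 0), (21, 3, 0, 1, 0, 1), (28, 6, 2, 0, 0, 1), (30, 3, 1, 1, 1, 0), (35, 6, 0, 0, 1, 1), (40, 6, 3, 0, 1, 0), (48, 5, 4, 1, 0, 0), (56, 4, 3, 0, 0, 1), (63, 6, 0, 2, 0, 1), (70, 6, 1, 0, 1, 1), (72, 24, 3, 2, 0, 0), (90, 8, 1, 2, 1, 0), (105, 4, 0, 1, 1, 1), (120, 22, 3, 1, 1, 0), (144, 1, 4, 2, 0, 0), (168, 17, 3, 1, 0, 1), (180, 5, 2, 2, 1, 0), (240, 1, 4, 1, 1, 0), (252, 20, 2, 2, 0, 1), (280, 4, 3, 0, 1, 1), (315, 3, 0, 2, 1, 1), (336, 1, 4, 1, 0, 1), (420, 27, 2, 1, 1, 1), (560, 23, 4, 0, 1, 1), (720, 18, 4, 2, 1, 0)]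

def negL : List Tm :=
  [(24, 27, 3, 1, 0, 0), (36, 33, 2, 2, 0, 0), (42, 3, 1, 1, 0, 1), (45, 2, 0, 2, 1, 0), (60, 34, 2, 1, 1, 0), (80, 3, 4, 0, 1, 0), (84, 27, 2, 1, 0, 1), (112, 7, 4, 0, 0, 1), (126, 12, 1, 2, 0, 1), (140, 25, 2, 0, 1, 1), (210, 20, 1, 1, 1, 1), (360, 14, 3, 2, 1, 0), (504, 25, 3, 2, 0, 1), (630, 1, 1, 2, 1, 1)]

def syL : List (ℕ × ℕ) :=
  [(720, 18), (2880, 6)]


theorem posU_ok : okl 12 5040 posU = true := by decide +kernel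
theorem negU_ok : okl 12 5040 negU = true := by decide +kernel
theorem syU_ok : oks 12 syU = true := by decide +kernel
theorem posL_ok : okl 12 5040 posL = true := by decide +kernel
theorem negL_ok : okl 12 5040 negL = true := by decide +kernel
theorem syL_ok : oks 12 syL = true := by decide +kernel
theorem U_bal : 12 * ev posU 5040 = 12 * ev negU 5040 + 60 * 5040 := by decide +kernel
theorem L_bal : 12 * ev posL 5040 = 12 * ev negL 5040 + 36 * 5040 := by decide +kernel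
theorem U_chk : chkAll (testU 12 60 posU negU syU) 5040 = true := by decide +kernel
theorem L_chk : chkAll (testL 12 36 posL negL syL) 5040 = true := by decide +kernel

end Pool.Agent.EZ
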