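import Pool.Agent.EZ.Mertens

/-!
# Explicit Mertens type estimates: the kernel loop (helper46)
-/

set_option autoImplicit false

namespace Pool.Agent.EZ

open Finset ArithmeticFunction
open scoped Nat

/-! ### smallest prime factor -/

/-- The primes below `101`. -/
def pl : List ℕ := [2, 3, 5, 7, 11, 13, 17, 19, 23, 29, 31, 37, 41, 43, 47, 53, 59, 61, 67, 71, 73,
  79, 83, 89, 97]

/-- First element of the list dividing `n`, or `n`. -/
def spf : List ℕ → ℕ → ℕ
  | [], n => n
  | p :: l, n => cond (Nat.beq (Nat.mod n p) 0) p (spf l n)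

theorem spf_eq_of_mem {q n : ℕ} (hq : q = n.minFac) : ∀ l : List ℕ,
    l.Pairwise (· < ·) → (∀ p ∈ l, 2 ≤ p) → q ∈ l → spf l n = q := by
  intro l
  induction l with
  | nil => intro _ _ h; simp at h
  | cons p l ih =>
    intro h1 h2 h3
    unfold spf
    by_cases hpq : q = p
    · have : n % p = 0 := by
        rw [← hpq, hq]
        exact Nat.mod_eq_zero_of_dvd (Nat.minFac_dvd n)
      have h4 : Nat.beq (Nat.mod n p) 0 = true := by
        rw [Nat.beq_eq]; exact this
      rw [h4, cond_true, hpq]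
    · have hq' : q ∈ l := by
        rcases List.mem_cons.1 h3 with h | h
        · exact absurd h hpq
        · exact h
      have hlt : p < q := (List.pairwise_cons.1 h1).1 q hq'
      have hnd : ¬ p ∣ n := by
        intro hd
        have := Nat.minFac_le_of_dvd (h2 p (by simp)) hd
        omega
      have h4 : Nat.beq (Nat.mod n p) 0 = false := by
        cases hb : Nat.beq (Nat.mod n p) 0 with
        | false => rfl
        | true =>
          rw [Nat.beq_eq] at hb
          exact absurd (Nat.dvd_of_mod_eq_zero hb) hnd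
      rw [h4, cond_false]
      exact ih (List.pairwise_cons.1 h1).2 (fun p hp => h2 p (by simp [hp])) hq'

theorem spf_eq_of_not {n : ℕ} : ∀ l : List ℕ, (∀ p ∈ l, ¬ p ∣ n) → spf l n = n := by
  intro l
  induction l with
  | nil => intro _; rfl
  | cons p l ih =>
    intro h
    unfold spf
    have h4 : Nat.beq (Nat.mod n p) 0 = false := by
      cases hb : Nat.beq (Nat.mod n p) 0 with
      | false => rfl
      | true =>
        rw [Nat.beq_eq] at hb
        exact absurd (Nat.dvd_of_mod_eq_zero hb) (h p (by simp))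
    rw [h4, cond_false]
    exact ih fun q hq => h q (by simp [hq])

theorem prime_mem_pl {q : ℕ} (hq : q.Prime) (h : q < 101) : q ∈ pl := by
  have h2 := hq.two_le
  by_contra hcon
  unfold pl at hcon
  simp only [List.mem_cons, List.not_mem_nil, or_false, not_or] at hcon
  interval_cases q <;> first | omega | (revert hq; norm_num)

theorem spf_pl {n : ℕ} (hn : 2 ≤ n) (hn2 : n < 101 ^ 2) : spf pl n = n.minFac := by
  have hpr : n.minFac.Prime := Nat.minFac_prime (by omega)
  by_cases h : n.minFac < 101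
  · exact spf_eq_of_mem rfl pl (by unfold pl; decide) (by unfold pl; decide)
      (prime_mem_pl hpr h)
  · have hnp : n.Prime := by
      by_contra hcon
      have := Nat.minFac_sq_le_self (by omega) hcon
      have h3 : 101 ^ 2 ≤ n.minFac ^ 2 := Nat.pow_le_pow_left (by omega) 2
      omega
    rw [hnp.minFac_eq]
    apply spf_eq_of_not
    intro p hp hd
    have hp2 : 2 ≤ p ∧ p < 101 := by
      have : ∀ p ∈ pl, 2 ≤ p ∧ p < 101 := by unfold pl; decide
      exact this p hp
    have := Nat.minFac_le_of_dvd hp2.1 hd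
    omega

/-- `k` if `n = p ^ k`, else `0`. -/
def ordp : ℕ → ℕ → ℕ → ℕ
  | 0, _, _ => 0
  | f + 1, p, n => cond (Nat.beq (Nat.mod n p) 0)
      (cond (Nat.beq (Nat.div n p) 1) 1
        (cond (Nat.beq (ordp f p (Nat.div n p)) 0) 0 (Nat.succ (ordp f p (Nat.div n p))))) 0

theorem beq_iff (a b : ℕ) : Nat.beq a b = decide (a = b) := by
  by_cases h : a = b
  · subst h; simp
  · have : Nat.beq a b = false := by
      cases hb : Nat.beq a b with
      | false => rfl
      | true => rw [Nat.beq_eq] at hb; exact absurd hb h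
    rw [this]; simp [h]

theorem ordp_succ (f p n : ℕ) : ordp (f + 1) p n =
    if n % p = 0 then (if n / p = 1 then 1 else (if ordp f p (n / p) = 0 then 0
      else ordp f p (n / p) + 1)) else 0 := by
  conv_lhs => unfold ordp
  rw [beq_iff, beq_iff, beq_iff]
  simp only [cond_eq_ite, decide_eq_true_eq]
  rfl

theorem ordp_pow {p : ℕ} (hp : 2 ≤ p) : ∀ f k : ℕ, 1 ≤ k → k ≤ f → ordp f p (p ^ k) = k := by
  intro f
  induction f with
  | zero => intro k h1 h2; omega
  | succ f ih =>
    intro k h1 h2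
    rw [ordp_succ]
    obtain ⟨j, rfl⟩ : ∃ j, k = j + 1 := ⟨k - 1, by omega⟩
    have e1 : p ^ (j + 1) % p = 0 := Nat.mod_eq_zero_of_dvd (dvd_pow_self p (by omega))
    have e2 : p ^ (j + 1) / p = p ^ j := by
      rw [pow_succ]; exact Nat.mul_div_cancel _ (by omega)
    rw [e2]
    simp only [e1, if_true]
    by_cases hj : j = 0
    · subst hj; simp
    · have e3 : p ^ j ≠ 1 := by
        have := Nat.one_lt_pow hj (by omega : 1 < p)
        omega
      rw [if_neg e3, ih j (by omega) (by omega), if_neg hj]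

theorem ordp_spec {p : ℕ} : ∀ f n : ℕ, ordp f p n ≠ 0 → n = p ^ ordp f p n := by
  intro f
  induction f with
  | zero => intro n h; exact absurd rfl h
  | succ f ih =>
    intro n h
    rw [ordp_succ] at h ⊢
    by_cases h1 : n % p = 0
    · simp only [h1, if_true] at h ⊢
      have h3 : n / p * p = n := Nat.div_mul_cancel (Nat.dvd_of_mod_eq_zero h1)
      by_cases h2 : n / p = 1
      · simp only [h2, if_true] at h ⊢
        rw [h2] at h3
        rw [pow_one]
        omega
      · simp only [h2, if_false] at h ⊢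
        by_cases h4 : ordp f p (n / p) = 0
        · simp [h4] at h
        · simp only [h4, if_false]
          rw [pow_succ, ← ih (n / p) h4, h3]
    · simp [h1] at h

/-- `k` if `n = p ^ k`, else `0`, for `2 ≤ n < 101 ^ 2`. -/
def kp (n : ℕ) : ℕ := ordp 14 (spf pl n) n

theorem vonMangoldt_kp {n : ℕ} (hn : 2 ≤ n) (hn2 : n < 101 ^ 2) :
    vonMangoldt n = if kp n = 0 then 0 else Real.log n / kp n := by
  have hsp := spf_pl hn hn2
  have hpr : n.minFac.Prime := Nat.minFac_prime (by omega)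
  unfold kp
  rw [hsp]
  by_cases hpp : IsPrimePow n
  · obtain ⟨p, k, hp, hk, hpk⟩ := hpp
    have hp' : p.Prime := hp.nat_prime
    have hmin : n.minFac = p := by
      rw [← hpk]
      exact Nat.Prime.pow_minFac hp' (by omega)
    have hk14 : k ≤ 14 := by
      by_contra hcon
      have h1 : 2 ^ 15 ≤ p ^ k := le_trans (Nat.pow_le_pow_right (by omega) (by omega : 15 ≤ k))
        (Nat.pow_le_pow_left hp'.two_le k)
      omega
    have h1 : ordp 14 n.minFac n = k := by
      rw [hmin]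
      conv_lhs => rw [← hpk]
      exact ordp_pow hp'.two_le 14 k hk hk14
    rw [h1, if_neg (by omega)]
    rw [← hpk, vonMangoldt_apply_pow (by omega), vonMangoldt_apply_prime hp']
    push_cast
    rw [Real.log_pow]
    have : (k : ℝ) ≠ 0 := by exact_mod_cast (by omega : k ≠ 0)
    field_simp
  · rw [vonMangoldt_eq_zero_iff.2 hpp]
    by_cases h : ordp 14 n.minFac n = 0
    · rw [if_pos h]
    · exfalso
      apply hpp
      have := ordp_spec 14 n h
      rw [this]
      exact (hpr.isPrimePow).pow h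

/-! ### logarithm increments -/

theorem log_series_upper (m : ℕ) {x : ℝ} (hx : 0 ≤ x) (hx1 : x < 1) :
    Real.log (1 + x) - Real.log (1 - x) ≤
      ∑ k ∈ range m, (2 : ℝ) * (1 / (2 * k + 1)) * x ^ (2 * k + 1)
        + 2 * (1 / (2 * m + 1)) * x ^ (2 * m + 1) * (1 - x ^ 2)⁻¹ := by
  have habs : |x| < 1 := by rw [abs_of_nonneg hx]; exact hx1
  have h := Real.hasSum_log_sub_log_of_abs_lt_one habs
  have h2 := (hasSum_nat_add_iff' m).2 h
  have hx2 : x ^ 2 < 1 := by nlinarith
  have h3 := (hasSum_geometric_of_lt_one (sq_nonneg x) hx2).mul_left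
    (2 * (1 / (2 * (m : ℝ) + 1)) * x ^ (2 * m + 1))
  have h4 := hasSum_le (fun k => ?_) h2 h3
  · linarith
  · push_cast
    have e : x ^ (2 * (k + m) + 1) = x ^ (2 * m + 1) * (x ^ 2) ^ k := by
      rw [← pow_mul, ← pow_add]; congr 1; ring
    rw [e]
    have h5 : (1 : ℝ) / (2 * ((k : ℝ) + m) + 1) ≤ 1 / (2 * m + 1) := by
      apply one_div_le_one_div_of_le (by positivity)
      have : (0 : ℝ) ≤ k := Nat.cast_nonneg k
      linarith
    have h6 : 0 ≤ x ^ (2 * m + 1) * (x ^ 2) ^ k := by positivity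
    nlinarith [mul_le_mul_of_nonneg_right h5 h6]

theorem log_series_lower (m : ℕ) {x : ℝ} (hx : 0 ≤ x) (hx1 : x < 1) :
    ∑ k ∈ range m, (2 : ℝ) * (1 / (2 * k + 1)) * x ^ (2 * k + 1) ≤
      Real.log (1 + x) - Real.log (1 - x) := by
  have habs : |x| < 1 := by rw [abs_of_nonneg hx]; exact hx1
  have h := Real.hasSum_log_sub_log_of_abs_lt_one habs
  exact sum_le_hasSum _ (fun k _ => by positivity) h

theorem log_step_eq (n : ℕ) (hn : 1 ≤ n) :
    Real.log ((n : ℝ) + 1) - Real.log n
      = Real.log (1 + 1 / (2 * n + 1)) - Real.log (1 - 1 / (2 * n + 1)) := by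
  have hn0 : (0 : ℝ) < n := by exact_mod_cast hn
  have h1 : (1 : ℝ) + 1 / (2 * n + 1) = (n + 1) * (2 / (2 * n + 1)) := by
    field_simp; ring
  have h2 : (1 : ℝ) - 1 / (2 * n + 1) = n * (2 / (2 * n + 1)) := by
    field_simp; ring
  rw [h1, h2, Real.log_mul (by positivity) (by positivity),
    Real.log_mul (by positivity) (by positivity)]
  ring

/-- The scale. -/
def SC : ℕ := 1000000000000

/-- Scaled lower bound of `log (n+1) - log n`, `m = 2 n + 1`. -/
def dlo (m : ℕ) : ℕ :=
  Nat.add (Nat.add (Nat.div 2000000000000 m) (Nat.div 2000000000000 (Nat.mul 3 (Nat.pow m 3))))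
    (Nat.add (Nat.div 2000000000000 (Nat.mul 5 (Nat.pow m 5)))
      (Nat.div 2000000000000 (Nat.mul 7 (Nat.pow m 7))))

/-- The additional error. -/
def der (m : ℕ) : ℕ :=
  Nat.add 5 (Nat.div 2000000000000 (Nat.mul (Nat.mul 9 (Nat.pow m 7)) (Nat.sub (Nat.mul m m) 1)))

theorem le_cast_div_add_one (a b : ℕ) (hb : 0 < b) : (a : ℝ) / b ≤ ((a / b : ℕ) : ℝ) + 1 := by
  have hb' : (0 : ℝ) < b := by exact_mod_cast hb
  rw [div_le_iff₀ hb']
  have h3 : a < b * (a / b + 1) := Nat.lt_mul_div_succ a hb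
  have h4 : (a : ℝ) < ((b * (a / b + 1) : ℕ) : ℝ) := by exact_mod_cast h3
  push_cast at h4
  linarith

theorem dlo_le (n : ℕ) (hn : 1 ≤ n) :
    (dlo (2 * n + 1) : ℝ) ≤ SC * (Real.log ((n : ℝ) + 1) - Real.log n) := by
  have hn0 : (0 : ℝ) < n := by exact_mod_cast hn
  set m : ℕ := 2 * n + 1 with hm
  have hmr : (m : ℝ) = 2 * n + 1 := by rw [hm]; push_cast; ring
  have hx : (0 : ℝ) ≤ 1 / m := by positivity
  have hx1 : (1 : ℝ) / m < 1 := by
    rw [hmr, div_lt_one (by positivity)]; linarith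
  have h := log_series_lower 4 hx hx1
  rw [log_step_eq n hn, ← hmr]
  have hm0 : (0 : ℝ) < m := by rw [hmr]; positivity
  have e : ∑ k ∈ range 4, (2 : ℝ) * (1 / (2 * k + 1)) * (1 / (m : ℝ)) ^ (2 * k + 1)
      = 2 / m + 2 / (3 * m ^ 3) + 2 / (5 * m ^ 5) + 2 / (7 * m ^ 7) := by
    simp only [Finset.sum_range_succ, Finset.sum_range_zero]
    push_cast
    field_simp
    ring
  rw [e] at h
  have a1 := Nat.cast_div_le (α := ℝ) (m := 2000000000000) (n := m)
  have a2 := Nat.cast_div_le (α := ℝ) (m := 2000000000000) (n := 3 * m ^ 3)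
  have a3 := Nat.cast_div_le (α := ℝ) (m := 2000000000000) (n := 5 * m ^ 5)
  have a4 := Nat.cast_div_le (α := ℝ) (m := 2000000000000) (n := 7 * m ^ 7)
  have hd : dlo m = 2000000000000 / m + 2000000000000 / (3 * m ^ 3)
      + (2000000000000 / (5 * m ^ 5) + 2000000000000 / (7 * m ^ 7)) := rfl
  rw [hd]
  have hS : (SC : ℝ) = 1000000000000 := by norm_num [SC]
  rw [hS]
  push_cast at a1 a2 a3 a4 ⊢
  have e2 : (1000000000000 : ℝ) * (2 / m + 2 / (3 * m ^ 3) + 2 / (5 * m ^ 5) + 2 / (7 * m ^ 7))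
      = 2000000000000 / m + 2000000000000 / (3 * m ^ 3) + 2000000000000 / (5 * m ^ 5)
        + 2000000000000 / (7 * m ^ 7) := by ring
  have h5 := mul_le_mul_of_nonneg_left h (by norm_num : (0 : ℝ) ≤ 1000000000000)
  rw [e2] at h5
  linarith

theorem le_dup (n : ℕ) (hn : 1 ≤ n) :
    SC * (Real.log ((n : ℝ) + 1) - Real.log n)
      ≤ (dlo (2 * n + 1) : ℝ) + (der (2 * n + 1) : ℝ) := by
  have hn0 : (0 : ℝ) < n := by exact_mod_cast hn
  set m : ℕ := 2 * n + 1 with hm
  have hmr : (m : ℝ) = 2 * n + 1 := by rw [hm]; push_cast; ring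
  have hm3 : 3 ≤ m := by omega
  have hm3' : (3 : ℝ) ≤ m := by exact_mod_cast hm3
  have hx : (0 : ℝ) ≤ 1 / m := by positivity
  have hx1 : (1 : ℝ) / m < 1 := by
    rw [hmr, div_lt_one (by positivity)]; linarith
  have h := log_series_upper 4 hx hx1
  rw [log_step_eq n hn, ← hmr]
  have hm0 : (0 : ℝ) < m := by linarith
  have hmm : (0 : ℝ) < (m : ℝ) * m - 1 := by nlinarith
  have e : ∑ k ∈ range 4, (2 : ℝ) * (1 / (2 * k + 1)) * (1 / (m : ℝ)) ^ (2 * k + 1)
      = 2 / m + 2 / (3 * m ^ 3) + 2 / (5 * m ^ 5) + 2 / (7 * m ^ 7) := by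
    simp only [Finset.sum_range_succ, Finset.sum_range_zero]
    push_cast
    field_simp
    ring
  have e' : 2 * (1 / (2 * ((4 : ℕ) : ℝ) + 1)) * (1 / (m : ℝ)) ^ (2 * 4 + 1) * (1 - (1 / (m : ℝ)) ^ 2)⁻¹
      = 2 / (9 * m ^ 7 * (m * m - 1)) := by
    have h1 : (1 : ℝ) - (1 / (m : ℝ)) ^ 2 = (m * m - 1) / m ^ 2 := by
      field_simp
    rw [h1]
    push_cast
    field_simp
    ring
  rw [e, e'] at h
  have hb5 : 0 < (9 * m ^ 7) * (m * m - 1) := by
    have : 0 < m * m - 1 := by
      have : 3 * 3 ≤ m * m := Nat.mul_le_mul hm3 hm3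
      omega
    positivity
  have a1 := le_cast_div_add_one 2000000000000 m (by omega)
  have a2 := le_cast_div_add_one 2000000000000 (3 * m ^ 3) (by positivity)
  have a3 := le_cast_div_add_one 2000000000000 (5 * m ^ 5) (by positivity)
  have a4 := le_cast_div_add_one 2000000000000 (7 * m ^ 7) (by positivity)
  have a5 := le_cast_div_add_one 2000000000000 ((9 * m ^ 7) * (m * m - 1)) hb5
  have hd : dlo m = 2000000000000 / m + 2000000000000 / (3 * m ^ 3)
      + (2000000000000 / (5 * m ^ 5) + 2000000000000 / (7 * m ^ 7)) := rfl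
  have hd2 : der m = 5 + 2000000000000 / ((9 * m ^ 7) * (m * m - 1)) := rfl
  rw [hd, hd2]
  have hS : (SC : ℝ) = 1000000000000 := by norm_num [SC]
  rw [hS]
  have hsub : ((m * m - 1 : ℕ) : ℝ) = (m : ℝ) * m - 1 := by
    rw [Nat.cast_sub (by nlinarith)]
    push_cast
    ring
  push_cast [hsub] at a1 a2 a3 a4 a5 ⊢
  have e2 : (1000000000000 : ℝ) * (2 / m + 2 / (3 * m ^ 3) + 2 / (5 * m ^ 5) + 2 / (7 * m ^ 7)
        + 2 / (9 * m ^ 7 * (m * m - 1)))
      = 2000000000000 / m + 2000000000000 / (3 * m ^ 3) + 2000000000000 / (5 * m ^ 5)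
        + 2000000000000 / (7 * m ^ 7) + 2000000000000 / (9 * m ^ 7 * (m * m - 1)) := by
    ring
  have h5 := mul_le_mul_of_nonneg_left h (by norm_num : (0 : ℝ) ≤ 1000000000000)
  rw [e2] at h5
  linarith

/-! ### the loop -/

/-- Force the evaluation of `x`. -/
noncomputable def frc (x : ℕ) (f : ℕ → Bool) : Bool :=
  Nat.rec (motive := fun _ => Bool) (f 0) (fun y _ => f (Nat.succ y)) x

theorem frc_eq (x : ℕ) (f : ℕ → Bool) : frc x f = f x := by
  cases x <;> rfl

/-- The loop: state `n`, bounds for `log n`, `A n`, `psi n`. -/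
noncomputable def loop (T : ℕ → ℕ → ℕ → ℕ → ℕ → ℕ → ℕ → Bool) (k : ℕ) :
    ℕ → ℕ → ℕ → ℕ → ℕ → ℕ → Bool :=
  Nat.rec (motive := fun _ => ℕ → ℕ → ℕ → ℕ → ℕ → ℕ → Bool) (fun _ _ _ _ _ _ => true)
    (fun _ ih n Ll Lu Al Au Pu =>
      frc (Nat.succ n) fun n' =>
      frc (Nat.add n n') fun m =>
      frc (dlo m) fun d =>
      frc (Nat.add Ll d) fun Ll' =>
      frc (Nat.add Lu (Nat.add d (der m))) fun Lu' =>
      frc (kp n') fun κ =>
      cond (Nat.beq κ 0)
        (cond (T n' Ll' Lu' Al Al Au Pu) (ih n' Ll' Lu' Al Au Pu) false)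
        (frc (Nat.add Al (Nat.div Ll' (Nat.mul κ n'))) fun Al' =>
          frc (Nat.add Au (Nat.succ (Nat.div Lu' (Nat.mul κ n')))) fun Au' =>
          frc (Nat.add Pu (Nat.succ (Nat.div Lu' κ))) fun Pu' =>
          cond (T n' Ll' Lu' Al Al' Au' Pu') (ih n' Ll' Lu' Al' Au' Pu') false)) k

/-- The invariant. -/
def Inv (n Ll Lu Al Au Pu : ℕ) : Prop :=
  (Ll : ℝ) ≤ SC * Real.log n ∧ SC * Real.log n ≤ Lu ∧ (Al : ℝ) ≤ SC * A n ∧ SC * A n ≤ Au
    ∧ SC * psiN n ≤ Pu

theorem A_succ (n : ℕ) : A (n + 1) = A n + vonMangoldt (n + 1) / ((n : ℝ) + 1) := by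
  unfold A
  rw [Finset.sum_Icc_succ_top (by omega)]
  push_cast
  rfl

theorem psiN_succ (n : ℕ) : psiN (n + 1) = psiN n + vonMangoldt (n + 1) := by
  unfold psiN
  rw [Finset.sum_Icc_succ_top (by omega)]

theorem loop_sound (T : ℕ → ℕ → ℕ → ℕ → ℕ → ℕ → ℕ → Bool) (Q : ℕ → Prop)
    (hT : ∀ n Ll Lu Al' Al Au Pu : ℕ, Inv (n + 1) Ll Lu Al Au Pu → (Al' : ℝ) ≤ SC * A n →
      T (n + 1) Ll Lu Al' Al Au Pu = true → Q (n + 1)) :
    ∀ k n Ll Lu Al Au Pu, 1 ≤ n → n + k < 101 ^ 2 → Inv n Ll Lu Al Au Pu →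
      loop T k n Ll Lu Al Au Pu = true → ∀ N, n < N → N ≤ n + k → Q N := by
  intro k
  induction k with
  | zero => intro n Ll Lu Al Au Pu _ _ _ _ N h1 h2; omega
  | succ k ih =>
    intro n Ll Lu Al Au Pu hn hk hinv hloop N h1 h2
    obtain ⟨i1, i2, i3, i4, i5⟩ := hinv
    have hm : Nat.add n (Nat.succ n) = 2 * n + 1 := by
      change n + (n + 1) = 2 * n + 1
      ring
    have e0 : loop T (k + 1) n Ll Lu Al Au Pu =
        frc (Nat.succ n) fun n' =>
      frc (Nat.add n n') fun m =>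
      frc (dlo m) fun d =>
      frc (Nat.add Ll d) fun Ll' =>
      frc (Nat.add Lu (Nat.add d (der m))) fun Lu' =>
      frc (kp n') fun κ =>
      cond (Nat.beq κ 0)
        (cond (T n' Ll' Lu' Al Al Au Pu) (loop T k n' Ll' Lu' Al Au Pu) false)
        (frc (Nat.add Al (Nat.div Ll' (Nat.mul κ n'))) fun Al' =>
          frc (Nat.add Au (Nat.succ (Nat.div Lu' (Nat.mul κ n')))) fun Au' =>
          frc (Nat.add Pu (Nat.succ (Nat.div Lu' κ))) fun Pu' =>
          cond (T n' Ll' Lu' Al Al' Au' Pu') (loop T k n' Ll' Lu' Al' Au' Pu') false) := rfl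
    rw [e0] at hloop
    simp only [frc_eq] at hloop
    rw [hm] at hloop
    have hn0 : (0 : ℝ) < n := by exact_mod_cast hn
    set Ll' : ℕ := Nat.add Ll (dlo (2 * n + 1)) with hLl
    set Lu' : ℕ := Nat.add Lu (Nat.add (dlo (2 * n + 1)) (der (2 * n + 1))) with hLu
    have b1 : (Ll' : ℝ) ≤ SC * Real.log ((n + 1 : ℕ) : ℝ) := by
      have h3 := dlo_le n hn
      have h4 : (Ll' : ℝ) = Ll + dlo (2 * n + 1) := by
        rw [hLl]; exact Nat.cast_add _ _
      rw [h4]
      push_cast
      linarith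
    have b2 : SC * Real.log ((n + 1 : ℕ) : ℝ) ≤ (Lu' : ℝ) := by
      have h3 := le_dup n hn
      have h4 : (Lu' : ℝ) = Lu + (dlo (2 * n + 1) + der (2 * n + 1)) := by
        rw [hLu]
        have := Nat.cast_add (R := ℝ) Lu (Nat.add (dlo (2 * n + 1)) (der (2 * n + 1)))
        have h5 := Nat.cast_add (R := ℝ) (dlo (2 * n + 1)) (der (2 * n + 1))
        exact this.trans (by rw [← h5]; rfl)
      rw [h4]
      push_cast
      linarith
    have hvm := vonMangoldt_kp (n := n + 1) (by omega) (by omega)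
    have hS : (0 : ℝ) < SC := by norm_num [SC]
    cases hκ : Nat.beq (kp n.succ) 0 with
    | true =>
      rw [hκ] at hloop
      simp only [cond_true] at hloop
      rw [Nat.beq_eq] at hκ
      have hκ' : kp (n + 1) = 0 := hκ
      rw [if_pos hκ'] at hvm
      have hA : A (n + 1) = A n := by rw [A_succ, hvm]; simp
      have hP : psiN (n + 1) = psiN n := by rw [psiN_succ, hvm]; simp
      have hinv' : Inv (n + 1) Ll' Lu' Al Au Pu := by
        refine ⟨b1, b2, ?_, ?_, ?_⟩
        · rw [hA]; exact i3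
        · rw [hA]; exact i4
        · rw [hP]; exact i5
      cases hTT : T n.succ Ll' Lu' Al Al Au Pu with
      | false => rw [hTT] at hloop; simp at hloop
      | true =>
        rw [hTT] at hloop
        simp only [cond_true] at hloop
        by_cases hN : N = n + 1
        · rw [hN]
          exact hT n Ll' Lu' Al Al Au Pu hinv' i3 hTT
        · exact ih (n + 1) Ll' Lu' Al Au Pu (by omega) (by omega) hinv' hloop N (by omega) (by omega)
    | false =>
      rw [hκ] at hloop
      simp only [cond_false] at hloop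
      have hκ' : kp (n + 1) ≠ 0 := by
        intro h
        have : Nat.beq (kp n.succ) 0 = true := by rw [Nat.beq_eq]; exact h
        rw [this] at hκ
        exact absurd hκ (by simp)
      rw [if_neg hκ'] at hvm
      set κ : ℕ := kp (n + 1) with hκdef
      have hκ0 : (0 : ℝ) < κ := by exact_mod_cast Nat.pos_of_ne_zero hκ'
      have hn1 : (0 : ℝ) < (n : ℝ) + 1 := by positivity
      have hA : A (n + 1) = A n + Real.log ((n + 1 : ℕ) : ℝ) / (κ * (n + 1)) := by
        rw [A_succ, hvm]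
        field_simp
      have hP : psiN (n + 1) = psiN n + Real.log ((n + 1 : ℕ) : ℝ) / κ := by
        rw [psiN_succ, hvm]
      set Al' : ℕ := Nat.add Al (Nat.div Ll' (Nat.mul (kp n.succ) n.succ)) with hAl
      set Au' : ℕ := Nat.add Au (Nat.succ (Nat.div Lu' (Nat.mul (kp n.succ) n.succ))) with hAu
      set Pu' : ℕ := Nat.add Pu (Nat.succ (Nat.div Lu' (kp n.succ))) with hPu
      have hinv' : Inv (n + 1) Ll' Lu' Al' Au' Pu' := by
        refine ⟨b1, b2, ?_, ?_, ?_⟩
        · have h4 : (Al' : ℝ) = Al + ((Ll' / (κ * (n + 1)) : ℕ) : ℝ) := by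
            rw [hAl]; exact Nat.cast_add _ _
          have h5 := Nat.cast_div_le (α := ℝ) (m := Ll') (n := κ * (n + 1))
          push_cast at h5
          have h6 : (Ll' : ℝ) / (κ * (n + 1)) ≤ SC * Real.log ((n + 1 : ℕ) : ℝ) / (κ * (n + 1)) :=
            div_le_div_of_nonneg_right b1 (by positivity)
          have e7 : (SC : ℝ) * (A n + Real.log ((n + 1 : ℕ) : ℝ) / (κ * (n + 1)))
            = SC * A n + SC * Real.log ((n + 1 : ℕ) : ℝ) / (κ * (n + 1)) := by ring
          rw [h4, hA, e7]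
          linarith
        · have h4 : (Au' : ℝ) = Au + (((Lu' / (κ * (n + 1)) : ℕ) : ℝ) + 1) := by
            rw [hAu]
            have := Nat.cast_add (R := ℝ) Au (Nat.succ (Nat.div Lu' (Nat.mul (kp n.succ) n.succ)))
            refine this.trans ?_
            congr 1
            exact Nat.cast_succ _
          have h5 := le_cast_div_add_one Lu' (κ * (n + 1)) (by positivity)
          push_cast at h5
          have h6 : SC * Real.log ((n + 1 : ℕ) : ℝ) / (κ * (n + 1)) ≤ (Lu' : ℝ) / (κ * (n + 1)) :=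
            div_le_div_of_nonneg_right b2 (by positivity)
          have e7 : (SC : ℝ) * (A n + Real.log ((n + 1 : ℕ) : ℝ) / (κ * (n + 1)))
            = SC * A n + SC * Real.log ((n + 1 : ℕ) : ℝ) / (κ * (n + 1)) := by ring
          rw [h4, hA, e7]
          linarith
        · have h4 : (Pu' : ℝ) = Pu + (((Lu' / κ : ℕ) : ℝ) + 1) := by
            rw [hPu]
            have := Nat.cast_add (R := ℝ) Pu (Nat.succ (Nat.div Lu' (kp n.succ)))
            refine this.trans ?_
            congr 1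
            exact Nat.cast_succ _
          have h5 := le_cast_div_add_one Lu' κ (by omega)
          have h6 : SC * Real.log ((n + 1 : ℕ) : ℝ) / κ ≤ (Lu' : ℝ) / κ :=
            div_le_div_of_nonneg_right b2 (by positivity)
          have e7 : (SC : ℝ) * (psiN n + Real.log ((n + 1 : ℕ) : ℝ) / κ)
            = SC * psiN n + SC * Real.log ((n + 1 : ℕ) : ℝ) / κ := by ring
          rw [h4, hP, e7]
          linarith
      cases hTT : T n.succ Ll' Lu' Al Al' Au' Pu' with
      | false => rw [hTT] at hloop; simp at hloop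
      | true =>
        rw [hTT] at hloop
        simp only [cond_true] at hloop
        by_cases hN : N = n + 1
        · rw [hN]
          exact hT n Ll' Lu' Al Al' Au' Pu' hinv' i3 hTT
        · exact ih (n + 1) Ll' Lu' Al' Au' Pu' (by omega) (by omega) hinv' hloop N (by omega)
            (by omega)

/-- The state at `2`. -/
theorem inv_two : Inv 2 693147180300 693147180800 346573590150 346573590400 693147180800 := by
  have h1 := Real.log_two_gt_d9
  have h2 := Real.log_two_lt_d9
  have hA : A 2 = Real.log 2 / 2 := by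
    have : A 2 = ∑ n ∈ Icc 1 2, vonMangoldt n / n := rfl
    rw [this, Finset.sum_Icc_succ_top (by omega)]
    simp [vonMangoldt_apply_prime Nat.prime_two]
  have hP : psiN 2 = Real.log 2 := by
    have : psiN 2 = ∑ n ∈ Icc 1 2, vonMangoldt n := rfl
    rw [this, Finset.sum_Icc_succ_top (by omega)]
    simp [vonMangoldt_apply_prime Nat.prime_two]
  unfold Inv
  rw [hA, hP]
  have hS : (SC : ℝ) = 1000000000000 := by norm_num [SC]
  rw [hS]
  push_cast
  refine ⟨?_, ?_, ?_, ?_, ?_⟩ <;> linarith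

end Pool.Agent.EZ
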