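import Pool.Agent.EZ.MertensPsi
import Pool.Agent.EZ.MertensCert
import Pool.Agent.EZ.MertensData

/-!
# Explicit Mertens type estimates: main results (helper46)

* `A_upper_large`, `A_lower_large`: `log N - 0.7770 ≤ A N ≤ log N - 0.3622` for `N ≥ 10000`;
* `psiN_le`: `psiN N ≤ 1.12 N`;
* `A_range_upper`, `A_range_lower`: the real variable forms.
-/

set_option autoImplicit false

namespace Pool.Agent.EZ

open Finset ArithmeticFunction
open scoped Nat

theorem log_seven_bounds : (1.9459100 : ℝ) < Real.log 7 ∧ Real.log 7 < 1.9459102 := by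
  -- 7 = 8 * (7/8), log (8/7) = log(1+1/15) - log(1-1/15)
  have h8 : Real.log 8 = 3 * Real.log 2 := by
    have : (8 : ℝ) = 2 ^ 3 := by norm_num
    rw [this, Real.log_pow]
    push_cast
    ring
  have h1 : Real.log (1 + 1 / 15 : ℝ) - Real.log (1 - 1 / 15) = Real.log 8 - Real.log 7 := by
    rw [← Real.log_div (by norm_num) (by norm_num), ← Real.log_div (by norm_num) (by norm_num)]
    norm_num
  have hu := log_series_upper 4 (x := 1 / 15) (by norm_num) (by norm_num)
  have hl := log_series_lower 4 (x := 1 / 15) (by norm_num) (by norm_num)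
  rw [h1, h8] at hu hl
  simp only [Finset.sum_range_succ, Finset.sum_range_zero] at hu hl
  have a2 := Real.log_two_gt_d9
  have b2 := Real.log_two_lt_d9
  norm_num at hu hl
  constructor <;> linarith

theorem emU : em (fun t => t.2.2.1) 5040 posU = 111978 ∧ em (fun t => t.2.2.2.1) 5040 posU = 58966
    ∧ em (fun t => t.2.2.2.2.1) 5040 posU = 10549 ∧ em (fun t => t.2.2.2.2.2) 5040 posU = 9692
    ∧ em (fun t => t.2.2.1) 5040 negU = 79116 ∧ em (fun t => t.2.2.2.1) 5040 negU = 41791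
    ∧ em (fun t => t.2.2.2.2.1) 5040 negU = 9419 ∧ em (fun t => t.2.2.2.2.2) 5040 negU = 7536
    ∧ c0 posU = 410 ∧ c0 negU = 487 := by decide +kernel

theorem emL : em (fun t => t.2.2.1) 5040 posL = 62778 ∧ em (fun t => t.2.2.2.1) 5040 posL = 29937
    ∧ em (fun t => t.2.2.2.2.1) 5040 posL = 7578 ∧ em (fun t => t.2.2.2.2.2) 5040 posL = 7864
    ∧ em (fun t => t.2.2.1) 5040 negL = 41684 ∧ em (fun t => t.2.2.2.1) 5040 negL = 22542
    ∧ em (fun t => t.2.2.2.2.1) 5040 negL = 4853 ∧ em (fun t => t.2.2.2.2.2) 5040 negL = 4413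
    ∧ c0 posL = 283 ∧ c0 negL = 233 := by decide +kernel

theorem RTU : RT syU (fun y => (1 : ℝ) / y) = 13 / 96 := by
  simp only [RT, syU, List.map_cons, List.map_nil, List.sum_cons, List.sum_nil]
  norm_num

theorem RTL : RT syL (fun y => (1 : ℝ) / y) = 13 / 480 := by
  simp only [RT, syL, List.map_cons, List.map_nil, List.sum_cons, List.sum_nil]
  norm_num

theorem log_twelve : Real.log ((12 : ℕ) : ℝ) = 2 * Real.log 2 + Real.log 3 := by
  have : ((12 : ℕ) : ℝ) = 2 ^ 2 * 3 := by norm_num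
  rw [this, Real.log_mul (by norm_num) (by norm_num), Real.log_pow]
  push_cast
  ring

theorem A_upper_large (N : ℕ) (hN : 10000 ≤ N) : A N ≤ Real.log N - 0.3622 := by
  have h := upper_final (q := 12) (D := 60) (P := 5040) (by norm_num) (by norm_num) (by norm_num)
    posU_ok negU_ok syU_ok U_bal U_chk N (by omega) (by omega) 1.12 psiN_le (by norm_num)
  obtain ⟨e1, e2, e3, e4, e5, e6, e7, e8, e9, e10⟩ := emU
  rw [RTU, log_twelve] at h
  unfold lg at h
  rw [e1, e2, e3, e4, e5, e6, e7, e8, e9, e10] at h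
  have hN0 : (0 : ℝ) < N := by exact_mod_cast (by omega : 0 < N)
  have hN1 : (10000 : ℝ) ≤ N := by exact_mod_cast hN
  have hL := log_div_self_le hN
  have a2 := Real.log_two_gt_d9
  have b2 := Real.log_two_lt_d9
  have a3 := Real.log_three_gt_d9
  have b3 := Real.log_three_lt_d9
  have a5 := Real.log_five_gt_d9
  have b5 := Real.log_five_lt_d9
  have a7 := log_seven_bounds.1
  have b7 := log_seven_bounds.2
  push_cast at h
  have key : N * A N ≤ N * (Real.log N - 0.3622) := by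
    have e : (N : ℝ) * (Real.log N + (2 * Real.log 2 + Real.log 3) - 1)
        - 12 * N / (5040 * 60) * (111978 * Real.log 2 + 58966 * Real.log 3 + 10549 * Real.log 5
          + 9692 * Real.log 7 - (79116 * Real.log 2 + 41791 * Real.log 3 + 9419 * Real.log 5
          + 7536 * Real.log 7)) = N * (Real.log N - 1 + (2 * Real.log 2 + Real.log 3)
          - 12 / (5040 * 60) * (32862 * Real.log 2 + 17175 * Real.log 3 + 1130 * Real.log 5
            + 2156 * Real.log 7)) := by ring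
    rw [e] at h
    have c : (2 * Real.log 2 + Real.log 3)
          - 12 / (5040 * 60) * (32862 * Real.log 2 + 17175 * Real.log 3 + 1130 * Real.log 5
            + 2156 * Real.log 7) ≤ (0.59361 : ℝ) := by linarith
    have c' := mul_le_mul_of_nonneg_left c hN0.le
    nlinarith
  exact le_of_mul_le_mul_left key hN0

theorem A_lower_large (N : ℕ) (hN : 10000 ≤ N) : Real.log N - 0.7770 ≤ A N := by
  have h := lower_final (q := 12) (D := 36) (P := 5040) (by norm_num) (by norm_num) (by norm_num)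
    posL_ok negL_ok syL_ok L_bal L_chk N (by omega) (by omega) 1.12 psiN_le (by norm_num)
  obtain ⟨e1, e2, e3, e4, e5, e6, e7, e8, e9, e10⟩ := emL
  rw [RTL, log_twelve] at h
  unfold lg at h
  rw [e1, e2, e3, e4, e5, e6, e7, e8, e9, e10] at h
  have hN0 : (0 : ℝ) < N := by exact_mod_cast (by omega : 0 < N)
  have hN1 : (10000 : ℝ) ≤ N := by exact_mod_cast hN
  have hL := log_div_self_le hN
  have a2 := Real.log_two_gt_d9
  have b2 := Real.log_two_lt_d9
  have a3 := Real.log_three_gt_d9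
  have b3 := Real.log_three_lt_d9
  have a5 := Real.log_five_gt_d9
  have b5 := Real.log_five_lt_d9
  have a7 := log_seven_bounds.1
  have b7 := log_seven_bounds.2
  push_cast at h
  have key : N * (Real.log N - 0.7770) ≤ N * A N := by
    have e : (N : ℝ) * (Real.log N + (2 * Real.log 2 + Real.log 3) - 1)
        - 12 * N / (5040 * 36) * (62778 * Real.log 2 + 29937 * Real.log 3 + 7578 * Real.log 5
          + 7864 * Real.log 7 - (41684 * Real.log 2 + 22542 * Real.log 3 + 4853 * Real.log 5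
          + 4413 * Real.log 7)) = N * (Real.log N - 1 + (2 * Real.log 2 + Real.log 3)
          - 12 / (5040 * 36) * (21094 * Real.log 2 + 7395 * Real.log 3 + 2725 * Real.log 5
            + 3451 * Real.log 7)) := by ring
    rw [e] at h
    have c : (0.24636 : ℝ) ≤ (2 * Real.log 2 + Real.log 3)
          - 12 / (5040 * 36) * (21094 * Real.log 2 + 7395 * Real.log 3 + 2725 * Real.log 5
            + 3451 * Real.log 7) := by linarith
    have c' := mul_le_mul_of_nonneg_left c hN0.le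
    nlinarith
  exact le_of_mul_le_mul_left key hN0

/-! ### real variable forms -/

theorem log_floor_le {x : ℝ} (hx : 1 ≤ x) : Real.log ⌊x⌋₊ ≤ Real.log x := by
  have h1 : 1 ≤ ⌊x⌋₊ := (Nat.one_le_floor_iff x).2 hx
  exact Real.log_le_log (by exact_mod_cast h1) (Nat.floor_le (by linarith))

theorem log_le_floor_add_one {x : ℝ} (hx : 1 ≤ x) : Real.log x ≤ Real.log (⌊x⌋₊ + 1 : ℕ) := by
  apply Real.log_le_log (by linarith)
  push_cast
  exact (Nat.lt_floor_add_one x).le

/-- Table form, `3 ≤ x < 10001`; `upc` is a step function. -/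
theorem A_real_upper_table (x : ℝ) (hx : 3 ≤ x) (hx2 : x < 10001) :
    A ⌊x⌋₊ ≤ Real.log x - 0.5772 + (upc ⌊x⌋₊ : ℝ) / 10000 := by
  have h1 : 3 ≤ ⌊x⌋₊ := Nat.le_floor (by exact_mod_cast hx)
  have h2 : ⌊x⌋₊ ≤ 10000 := by
    have : ⌊x⌋₊ < 10001 := (Nat.floor_lt (by linarith)).2 (by exact_mod_cast hx2)
    omega
  have h3 := (table ⌊x⌋₊ h1 h2).2.1
  have h4 := log_floor_le (x := x) (by linarith)
  linarith

/-- Table form, `2 ≤ x < 10000`; `loc` is a step function. -/
theorem A_real_lower_table (x : ℝ) (hx : 2 ≤ x) (hx2 : x < 10000) :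
    Real.log x - 0.5772 - (loc ⌊x⌋₊ : ℝ) / 10000 ≤ A ⌊x⌋₊ := by
  have h1 : 2 ≤ ⌊x⌋₊ := Nat.le_floor (by exact_mod_cast hx)
  have h2 : ⌊x⌋₊ < 10000 := (Nat.floor_lt (by linarith)).2 (by exact_mod_cast hx2)
  have h3 := (table (⌊x⌋₊ + 1) (by omega) (by omega)).2.2
  have h4 := log_le_floor_add_one (x := x) (by linarith)
  rw [Nat.add_sub_cancel] at h3
  linarith

theorem A_real_upper_large (x : ℝ) (hx : 10000 ≤ x) : A ⌊x⌋₊ ≤ Real.log x - 0.3622 := by
  have h1 : 10000 ≤ ⌊x⌋₊ := Nat.le_floor (by exact_mod_cast hx)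
  have h2 := A_upper_large _ h1
  have h4 := log_floor_le (x := x) (by linarith)
  linarith

theorem A_real_lower_large (x : ℝ) (hx : 10000 ≤ x) : Real.log x - 0.7771 ≤ A ⌊x⌋₊ := by
  have h1 : 10000 ≤ ⌊x⌋₊ := Nat.le_floor (by exact_mod_cast hx)
  have h2 := A_lower_large _ h1
  have h4 := log_le_floor_add_one (x := x) (by linarith)
  have h0 : (10000 : ℝ) ≤ (⌊x⌋₊ : ℝ) := by exact_mod_cast h1
  have h5 : Real.log ((⌊x⌋₊ + 1 : ℕ) : ℝ) ≤ Real.log (⌊x⌋₊ : ℝ) + 0.0001 := by
    have h6 : ((⌊x⌋₊ + 1 : ℕ) : ℝ) = (⌊x⌋₊ : ℝ) * (1 + 1 / (⌊x⌋₊ : ℝ)) := by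
      push_cast
      field_simp
    have h9 : (0 : ℝ) < (⌊x⌋₊ : ℝ) := by linarith
    rw [h6, Real.log_mul (by linarith) (by positivity)]
    have h7 : Real.log (1 + 1 / (⌊x⌋₊ : ℝ)) ≤ 1 / (⌊x⌋₊ : ℝ) := by
      have := Real.log_le_sub_one_of_pos (x := 1 + 1 / (⌊x⌋₊ : ℝ)) (by positivity)
      linarith
    have h8 : (1 : ℝ) / (⌊x⌋₊ : ℝ) ≤ 1 / 10000 := one_div_le_one_div_of_le (by norm_num) h0
    linarith
  linarith

theorem upc_le {n : ℕ} (h : 11 ≤ n) : upc n ≤ 1222 := by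
  unfold upc
  have e : ∀ b : Bool, ∀ x y : ℕ, x ≤ 1222 → y ≤ 1222 → cond b x y ≤ 1222 := by
    intro b x y hx hy; cases b <;> assumption
  have h11 : Nat.ble 11 n = true := by rw [Nat.ble_eq]; exact h
  rw [h11, cond_true]
  repeat' apply e
  all_goals norm_num

theorem loc_le {n : ℕ} (h : 11 ≤ n) : loc n ≤ 1028 := by
  unfold loc
  have e : ∀ b : Bool, ∀ x y : ℕ, x ≤ 1028 → y ≤ 1028 → cond b x y ≤ 1028 := by
    intro b x y hx hy; cases b <;> assumption
  have h11 : Nat.ble 11 n = true := by rw [Nat.ble_eq]; exact h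
  rw [h11, cond_true]
  repeat' apply e
  all_goals norm_num

/-- `A x ≤ log x - 0.5772 + 0.1222` for `11 ≤ x < 10001`. -/
theorem A_real_upper_mid (x : ℝ) (hx : 11 ≤ x) (hx2 : x < 10001) :
    A ⌊x⌋₊ ≤ Real.log x - 0.4550 := by
  have h := A_real_upper_table x (by linarith) hx2
  have h1 : 11 ≤ ⌊x⌋₊ := Nat.le_floor (by exact_mod_cast hx)
  have h2 : ((upc ⌊x⌋₊ : ℕ) : ℝ) ≤ 1222 := by exact_mod_cast upc_le h1
  linarith

/-- `log x - 0.5772 - 0.1028 ≤ A x` for `11 ≤ x < 10000`. -/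
theorem A_real_lower_mid (x : ℝ) (hx : 11 ≤ x) (hx2 : x < 10000) :
    Real.log x - 0.6800 ≤ A ⌊x⌋₊ := by
  have h := A_real_lower_table x (by linarith) hx2
  have h1 : 11 ≤ ⌊x⌋₊ := Nat.le_floor (by exact_mod_cast hx)
  have h2 : ((loc ⌊x⌋₊ : ℕ) : ℝ) ≤ 1028 := by exact_mod_cast loc_le h1
  linarith

/-- For all `x ≥ 11`: `log x - 0.7771 ≤ A x ≤ log x - 0.3622`. -/
theorem A_real_bounds (x : ℝ) (hx : 11 ≤ x) :
    Real.log x - 0.7771 ≤ A ⌊x⌋₊ ∧ A ⌊x⌋₊ ≤ Real.log x - 0.3622 := by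
  rcases lt_or_ge x 10000 with h | h
  · have h1 := A_real_upper_mid x hx (by linarith)
    have h2 := A_real_lower_mid x hx h
    constructor <;> linarith
  · exact ⟨A_real_lower_large x h, A_real_upper_large x h⟩

end Pool.Agent.EZ
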