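import Pool.Agent.EZ.MertensTable

/-!
# Explicit Mertens type estimates: `psi` and the table (helper46)
-/

set_option autoImplicit false

namespace Pool.Agent.EZ

open Finset ArithmeticFunction
open scoped Nat

theorem cond_false_iff (a b : Bool) : cond a b false = true ↔ a = true ∧ b = true := by
  cases a <;> cases b <;> simp

theorem tst_spec (n Ll Lu Al' Al Au Pu : ℕ) (h : tst n Ll Lu Al' Al Au Pu = true) :
    100 * Pu ≤ 112000000000000 * n ∧ Au + 577200000000 ≤ Ll + 100000000 * upc n ∧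
      Lu ≤ Al' + 577200000000 + 100000000 * loc (n - 1) := by
  unfold tst at h
  rw [cond_false_iff, cond_false_iff, Nat.ble_eq, Nat.ble_eq, Nat.ble_eq] at h
  exact h

theorem table (n : ℕ) (h3 : 3 ≤ n) (hn : n ≤ 10000) :
    psiN n ≤ 1.12 * n ∧ A n - Real.log n + 0.5772 ≤ (upc n : ℝ) / 10000 ∧
      -((loc (n - 1) : ℝ) / 10000) ≤ A (n - 1) - Real.log n + 0.5772 := by
  have hS : (SC : ℝ) = 1000000000000 := by norm_num [SC]
  refine loop_sound tst (fun n => psiN n ≤ 1.12 * n ∧ A n - Real.log n + 0.5772 ≤ (upc n : ℝ) / 10000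
      ∧ -((loc (n - 1) : ℝ) / 10000) ≤ A (n - 1) - Real.log n + 0.5772) ?_ 9998 2 _ _ _ _ _
      (by norm_num) (by norm_num) inv_two table_run n (by omega) (by omega)
  intro n Ll Lu Al' Al Au Pu hinv hAl' hT
  obtain ⟨i1, i2, i3, i4, i5⟩ := hinv
  rw [hS] at i1 i2 i3 i4 i5 hAl'
  obtain ⟨h1, h2, h3⟩ := tst_spec _ _ _ _ _ _ _ hT
  generalize upc (n + 1) = U at *
  have hsub : n + 1 - 1 = n := by omega
  rw [hsub] at h3 ⊢
  generalize loc n = L at *
  have h1' : ((100 * Pu : ℕ) : ℝ) ≤ ((112000000000000 * (n + 1) : ℕ) : ℝ) := by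
    exact_mod_cast h1
  have h2' : ((Au + 577200000000 : ℕ) : ℝ) ≤ ((Ll + 100000000 * U : ℕ) : ℝ) := by
    exact_mod_cast h2
  have h3' : (Lu : ℝ) ≤ ((Al' + 577200000000 + 100000000 * L : ℕ) : ℝ) := by
    exact_mod_cast h3
  clear h1 h2 h3 hT
  push_cast at h1' h2' h3' i1 i2 i3 i4 i5 ⊢
  refine ⟨?_, ?_, ?_⟩
  · linarith
  · linarith
  · linarith

theorem psiN_one : psiN 1 = 0 := by simp [psiN]

theorem psiN_two : psiN 2 = Real.log 2 := by
  have : psiN 2 = ∑ n ∈ Icc 1 2, vonMangoldt n := rfl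
  rw [this, Finset.sum_Icc_succ_top (by omega)]
  simp [vonMangoldt_apply_prime Nat.prime_two]

theorem psiN_le_small (n : ℕ) (hn : n ≤ 10000) : psiN n ≤ 1.12 * n := by
  rcases Nat.lt_or_ge n 3 with h | h
  · interval_cases n
    · simp [psiN]
    · rw [psiN_one]; norm_num
    · rw [psiN_two]
      have := Real.log_two_lt_d9
      norm_num
      linarith
  · exact (table n h hn).1

/-- Chebyshev's upper bound step. -/
theorem psiN_step (N : ℕ) :
    psiN N ≤ psiN (N / 6) + logFac N - logFac (N / 2) - logFac (N / 3) - logFac (N / 5)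
      + logFac (N / 30) := by
  have e1 := logFac_eq N
  have e2 := logFac_eq_of_le (M := N / 2) (N := N) (Nat.div_le_self _ _)
  have e3 := logFac_eq_of_le (M := N / 3) (N := N) (Nat.div_le_self _ _)
  have e4 := logFac_eq_of_le (M := N / 5) (N := N) (Nat.div_le_self _ _)
  have e5 := logFac_eq_of_le (M := N / 30) (N := N) (Nat.div_le_self _ _)
  have e6 := psiN_eq_of_le (M := N / 6) (N := N) (Nat.div_le_self _ _)
  rw [e1, e2, e3, e4, e5, e6]
  have h : ∀ n ∈ Icc 1 N, vonMangoldt n ≤ vonMangoldt n * (if n ≤ N / 6 then 1 else 0)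
      + vonMangoldt n * ((N / n : ℕ) : ℝ) - vonMangoldt n * ((N / 2 / n : ℕ) : ℝ)
      - vonMangoldt n * ((N / 3 / n : ℕ) : ℝ) - vonMangoldt n * ((N / 5 / n : ℕ) : ℝ)
      + vonMangoldt n * ((N / 30 / n : ℕ) : ℝ) := by
    intro n hn
    rw [mem_Icc] at hn
    have hL : 0 ≤ vonMangoldt n := vonMangoldt_nonneg
    have key : (1 : ℝ) ≤ (if n ≤ N / 6 then 1 else 0) + ((N / n : ℕ) : ℝ) - ((N / 2 / n : ℕ) : ℝ)
        - ((N / 3 / n : ℕ) : ℝ) - ((N / 5 / n : ℕ) : ℝ) + ((N / 30 / n : ℕ) : ℝ) := by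
      have hk : ∀ i j : ℕ, N / i / j = N / j / i := fun i j => Nat.div_div_eq_div_mul N i j ▸
        (Nat.mul_comm i j ▸ (Nat.div_div_eq_div_mul N j i).symm)
      rw [hk 2 n, hk 3 n, hk 5 n, hk 30 n]
      have hi1 : 1 ≤ N / n := Nat.div_pos hn.2 (by omega)
      by_cases h6 : n ≤ N / 6
      · rw [if_pos h6]
        have : N / n / 2 + N / n / 3 + N / n / 5 ≤ N / n + N / n / 30 := by omega
        have h7 : ((N / n / 2 + N / n / 3 + N / n / 5 : ℕ) : ℝ) ≤ ((N / n + N / n / 30 : ℕ) : ℝ) :=
          Nat.cast_le.2 this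
        push_cast at h7
        linarith
      · rw [if_neg h6]
        have h8 : N / n < 6 := by
          rw [Nat.div_lt_iff_lt_mul (by omega)]
          have : N / 6 < n := by omega
          rw [Nat.div_lt_iff_lt_mul (by omega)] at this
          linarith [mul_comm 6 n]
        have : 1 + N / n / 2 + N / n / 3 + N / n / 5 ≤ N / n + N / n / 30 := by omega
        have h7 : ((1 + N / n / 2 + N / n / 3 + N / n / 5 : ℕ) : ℝ) ≤ ((N / n + N / n / 30 : ℕ) : ℝ) :=
          Nat.cast_le.2 this
        push_cast at h7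
        linarith
    have := mul_le_mul_of_nonneg_left key hL
    linarith
  have h2 := Finset.sum_le_sum h
  simp only [Finset.sum_add_distrib, Finset.sum_sub_distrib] at h2
  unfold psiN
  linarith

theorem log_div_self_le {N : ℕ} (hN : 10000 ≤ N) : Real.log N ≤ 0.00092104 * N := by
  have h1 : Real.log (N : ℝ) / N ≤ Real.log 10000 / 10000 := by
    have he : Real.exp 1 ≤ 10000 := by
      have := Real.exp_one_lt_d9
      linarith
    have hN' : (10000 : ℝ) ≤ N := by exact_mod_cast hN
    exact Real.log_div_self_antitoneOn (Set.mem_ofPred_eq ▸ he) (Set.mem_ofPred_eq ▸ he.trans hN') hN'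
  have h2 : Real.log (10000 : ℝ) ≤ 9.2104 := by
    have : (10000 : ℝ) = 2 ^ 4 * 5 ^ 4 := by norm_num
    rw [this, Real.log_mul (by norm_num) (by norm_num), Real.log_pow, Real.log_pow]
    have a := Real.log_two_lt_d9
    have b := Real.log_five_lt_d9
    push_cast
    linarith
  have hN0 : (0 : ℝ) < N := by
    have : (10000 : ℝ) ≤ N := by exact_mod_cast hN
    linarith
  rw [div_le_iff₀ hN0] at h1
  have h3 : Real.log 10000 / 10000 ≤ (0.00092104 : ℝ) := by linarith
  exact h1.trans (mul_le_mul_of_nonneg_right h3 hN0.le)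

/-- `ψ(N) ≤ 1.12 N` for all `N`. -/
theorem psiN_le (N : ℕ) : psiN N ≤ 1.12 * N := by
  induction N using Nat.strong_induction_on with
  | _ N ih =>
    by_cases hN : N ≤ 10000
    · exact psiN_le_small N hN
    · have hN' : 10000 ≤ N := by omega
      have h1 := psiN_step N
      have h2 := ih (N / 6) (by omega)
      have h2' : ((N / 6 : ℕ) : ℝ) ≤ (N : ℝ) / 6 := by
        have := Nat.cast_div_le (α := ℝ) (m := N) (n := 6)
        push_cast at this
        exact this
      have hN0 : (0 : ℝ) < N := by exact_mod_cast (by omega : 0 < N)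
      have u1 := logFac_div_upper N 1 (by omega) (by omega)
      have u30 := logFac_div_upper N 30 (by omega) (by omega)
      have l2 := logFac_div_lower N 2 (by omega) (by omega)
      have l3 := logFac_div_lower N 3 (by omega) (by omega)
      have l5 := logFac_div_lower N 5 (by omega) (by omega)
      rw [Nat.div_one] at u1
      push_cast at u1 u30 l2 l3 l5
      rw [div_one] at u1
      rw [Real.log_div hN0.ne' (by norm_num)] at u30 l2 l3 l5
      have e30 : Real.log 30 = Real.log 2 + Real.log 3 + Real.log 5 := by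
        rw [← Real.log_mul (by norm_num) (by norm_num), ← Real.log_mul (by norm_num) (by norm_num)]
        norm_num
      rw [e30] at u30
      have a2 := Real.log_two_gt_d9
      have b2 := Real.log_two_lt_d9
      have a3 := Real.log_three_gt_d9
      have b3 := Real.log_three_lt_d9
      have a5 := Real.log_five_gt_d9
      have b5 := Real.log_five_lt_d9
      have hL := log_div_self_le hN'
      -- main term
      have c2 : (N : ℝ) * Real.log 2 ≤ N * 0.6931471808 := mul_le_mul_of_nonneg_left b2.le hN0.le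
      have c3 : (N : ℝ) * Real.log 3 ≤ N * 1.0986122888 := mul_le_mul_of_nonneg_left b3.le hN0.le
      have c5 : (N : ℝ) * Real.log 5 ≤ N * 1.6094379126 := mul_le_mul_of_nonneg_left b5.le hN0.le
      have hN1 : (10000 : ℝ) ≤ N := by exact_mod_cast hN'
      nlinarith

end Pool.Agent.EZ
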