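import Pool.Agent.EZ.MertensSup

/-!
# Abel summation with a varying error term, uniformly in `s` (helper46)
-/

set_option autoImplicit false

namespace Pool.Agent.EZ

open Finset

noncomputable section

/-- `(1 - e^{-sL}) / L` is antitone in `L`: the differences of `gw s` are largest at `s = 0`. -/
theorem gw_sub_le {s x y : ℝ} (hs : 0 ≤ s) (hx : 1 < x) (h : x ≤ y) :
    gw s x - gw s y ≤ 1 / Real.log x - 1 / Real.log y := by
  have hlx : 0 < Real.log x := Real.log_pos hx
  have hlxy : Real.log x ≤ Real.log y := Real.log_le_log (by linarith) h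
  have hly : 0 < Real.log y := by linarith
  have hx0 : 0 < x := by linarith
  have hy0 : 0 < y := by linarith
  set a := x ^ (-s) with ha
  have ha0 : 0 < a := Real.rpow_pos_of_pos hx0 _
  have hb : y ^ (-s) = a ^ (Real.log y / Real.log x) := by
    rw [ha, ← Real.rpow_mul hx0.le, Real.rpow_def_of_pos hx0, Real.rpow_def_of_pos hy0]
    congr 1
    field_simp
  have h1 := one_add_mul_self_le_rpow_one_add (s := a - 1) (by linarith)
    (p := Real.log y / Real.log x) (by rw [le_div_iff₀ hlx]; linarith)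
  rw [add_sub_cancel] at h1
  unfold gw
  rw [hb, ← ha]
  have e : (1 + Real.log y / Real.log x * (a - 1)) / Real.log y = 1 / Real.log y + a / Real.log x
      - 1 / Real.log x := by
    field_simp
    ring
  have h2 : (1 + Real.log y / Real.log x * (a - 1)) / Real.log y
      ≤ a ^ (Real.log y / Real.log x) / Real.log y := div_le_div_of_nonneg_right h1 hly.le
  linarith

/-- Abel summation with increments `B N ≤ log N - log c + H N`. -/
theorem abel_steps (a H : ℕ → ℝ) (n : ℕ) (c s : ℝ) (hs : 0 < s) (hc : 1 < c) (hcn : c ≤ n + 1)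
    (hB : ∀ N, n < N → ∑ m ∈ Ioc n N, a m ≤ Real.log N - Real.log c + H N) :
    ∀ N, n < N → ∑ m ∈ Ioc n N, a m * gw s m ≤ (EE (s * Real.log c) - EE (s * Real.log N))
      + ∑ M ∈ Ico (n + 1) N, H M * (gw s M - gw s (M + 1 : ℕ)) + H N * gw s N
      + (∑ m ∈ Ioc n N, a m - (Real.log N - Real.log c + H N)) * gw s N := by
  intro N hN
  induction N, (Nat.succ_le_of_lt hN) using Nat.le_induction with
  | base =>
    have h1 : Ioc n n.succ = {n.succ} := by
      ext m; simp only [mem_Ioc, mem_singleton]; omega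
    rw [h1, Finset.sum_singleton, Finset.sum_singleton]
    have h0 : Ico (n + 1) n.succ = ∅ := by simp
    rw [h0, Finset.sum_empty]
    have hn1 : ((n.succ : ℕ) : ℝ) = (n : ℝ) + 1 := by push_cast; ring
    have hcn' : c ≤ ((n.succ : ℕ) : ℝ) := by rw [hn1]; exact hcn
    have h2 := EE_log_step hs hc hcn'
    nlinarith
  | succ N hN' ih =>
    have hnN : n < N := by omega
    have ih' := ih hnN
    have h1 : Ioc n (N + 1) = insert (N + 1) (Ioc n N) := by
      ext m; simp only [mem_Ioc, mem_insert]; omega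
    have h1' : N + 1 ∉ Ioc n N := by simp
    rw [h1, Finset.sum_insert h1', Finset.sum_insert h1',
      Finset.sum_Ico_succ_top (by omega : n + 1 ≤ N)]
    have hN1 : (1 : ℝ) < N := by
      have h5 : (n : ℝ) + 1 ≤ N := by exact_mod_cast hnN
      linarith
    have hNN : (N : ℝ) ≤ ((N + 1 : ℕ) : ℝ) := by push_cast; linarith
    have h2 := EE_log_step hs hN1 hNN
    have h3 := gw_antitone hs.le hN1 hNN
    have h6 := hB N hnN
    set Bn := ∑ m ∈ Ioc n N, a m with hBn
    set G := gw s (N + 1 : ℕ) with hG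
    set G0 := gw s (N : ℕ) with hG0
    have h7 : (Bn - (Real.log N - Real.log c + H N)) * G0
        ≤ (Bn - (Real.log N - Real.log c + H N)) * G := by
      apply mul_le_mul_of_nonpos_left h3
      linarith
    nlinarith

/-- `1 / log n`. -/
def iln (n : ℕ) : ℝ := 1 / Real.log n

/-- Weighted sums over finite sets, error uniform in `s`. -/
theorem wsum_bound (F : Finset ℕ) (w H : ℕ → ℝ) (n X : ℕ) (c s Hi : ℝ) (hs : 0 < s) (hn : 1 ≤ n)
    (hc : 1 < c) (hnc : (n : ℝ) ≤ c) (hcn : c ≤ n + 1) (hnX : n < X)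
    (hH : ∀ N, n < N → N < X → 0 ≤ H N) (hHi : 0 ≤ Hi)
    (hB : ∀ N, n < N → ∑ v ∈ F.filter (· ≤ N), w v * (Real.log v / v)
      ≤ Real.log N - Real.log c + (if N < X then H N else Hi))
    (hF : ∀ v ∈ F, c < v) :
    ∑ v ∈ F, w v * (v : ℝ) ^ (-1 - s) ≤ EE (s * Real.log c)
      + ∑ M ∈ Ico (n + 1) X, H M * (iln M - iln (M + 1)) + Hi * iln X := by
  classical
  set a : ℕ → ℝ := fun m => if m ∈ F then w m * (Real.log m / m) else 0 with ha
  obtain ⟨N, hN1, hN2, hN3⟩ : ∃ N, n < N ∧ X ≤ N ∧ ∀ v ∈ F, v ≤ N := by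
    refine ⟨max X (F.sup id), lt_of_lt_of_le hnX (le_max_left _ _), le_max_left _ _, fun v hv => ?_⟩
    exact le_trans (Finset.le_sup (f := id) hv) (le_max_right _ _)
  have hnF : ∀ v ∈ F, n < v := by
    intro v hv
    have : (n : ℝ) < v := lt_of_le_of_lt hnc (hF v hv)
    exact_mod_cast this
  have hsum : ∀ M, n < M → ∑ m ∈ Ioc n M, a m = ∑ v ∈ F.filter (· ≤ M), w v * (Real.log v / v) := by
    intro M hM
    rw [ha, ← Finset.sum_filter]
    apply Finset.sum_congr _ (fun _ _ => rfl)
    ext v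
    simp only [mem_filter, mem_Ioc]
    constructor
    · rintro ⟨⟨-, h2⟩, h3⟩; exact ⟨h3, h2⟩
    · rintro ⟨h3, h2⟩; exact ⟨⟨hnF v h3, h2⟩, h3⟩
  set H' : ℕ → ℝ := fun N => if N < X then H N else Hi with hH'
  have h1 := abel_steps a H' n c s hs hc hcn (by
    intro M hM
    rw [hsum M hM]
    exact hB M hM) N hN1
  have h2 : ∑ v ∈ F, w v * (v : ℝ) ^ (-1 - s) = ∑ m ∈ Ioc n N, a m * gw s m := by
    have e1 : ∑ m ∈ Ioc n N, a m * gw s m = ∑ m ∈ F, a m * gw s m := by
      symm
      apply Finset.sum_subset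
      · intro v hv
        exact mem_Ioc.2 ⟨hnF v hv, hN3 v hv⟩
      · intro m _ hm
        rw [ha]
        simp only
        rw [if_neg hm, zero_mul]
    rw [e1]
    apply Finset.sum_congr rfl
    intro v hv
    have hv2 : (1 : ℝ) < v := lt_trans hc (hF v hv)
    have hv0 : (0 : ℝ) < v := by linarith
    have hlog : Real.log (v : ℝ) ≠ 0 := (Real.log_pos hv2).ne'
    rw [ha]
    simp only
    rw [if_pos hv]
    unfold gw
    have : (v : ℝ) ^ (-1 - s) = (v : ℝ) ^ (-s) / v := by
      rw [show (-1 - s) = -s - 1 by ring, Real.rpow_sub_one hv0.ne']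
    rw [this]
    field_simp
  have h3 : (∑ m ∈ Ioc n N, a m - (Real.log N - Real.log c + H' N)) * gw s N ≤ 0 := by
    apply mul_nonpos_of_nonpos_of_nonneg
    · rw [hsum N hN1]
      have := hB N hN1
      linarith
    · apply gw_nonneg
      exact_mod_cast (by omega : 1 < N)
  have hEN : 0 ≤ EE (s * Real.log N) :=
    EE_nonneg (mul_pos hs (Real.log_pos (by exact_mod_cast (by omega : 1 < N))))
  -- the error sum
  have h4 : ∑ M ∈ Ico (n + 1) N, H' M * (gw s M - gw s (M + 1 : ℕ)) + H' N * gw s N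
      ≤ ∑ M ∈ Ico (n + 1) X, H M * (iln M - iln (M + 1)) + Hi * iln X := by
    have e1 : Ico (n + 1) N = Ico (n + 1) X ∪ Ico X N := by
      ext m; simp only [mem_Ico, mem_union]; omega
    have e2 : Disjoint (Ico (n + 1) X) (Ico X N) := by
      rw [Finset.disjoint_left]
      intro m hm hm'
      rw [mem_Ico] at hm hm'
      omega
    rw [e1, Finset.sum_union e2]
    have h5 : ∑ M ∈ Ico (n + 1) X, H' M * (gw s M - gw s (M + 1 : ℕ))
        ≤ ∑ M ∈ Ico (n + 1) X, H M * (iln M - iln (M + 1)) := by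
      apply Finset.sum_le_sum
      intro M hM
      rw [mem_Ico] at hM
      rw [hH']
      simp only
      rw [if_pos hM.2]
      apply mul_le_mul_of_nonneg_left _ (hH M (by omega) hM.2)
      unfold iln
      apply gw_sub_le hs.le (by exact_mod_cast (by omega : 1 < M))
      exact_mod_cast (Nat.le_succ M)
    have h6 : ∀ N, X ≤ N → ∑ M ∈ Ico X N, H' M * (gw s M - gw s (M + 1 : ℕ)) + Hi * gw s N
        = Hi * gw s X := by
      intro N hN
      induction N, hN using Nat.le_induction with
      | base => simp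
      | succ N hN ih =>
        rw [Finset.sum_Ico_succ_top hN]
        have : H' N = Hi := by rw [hH']; simp only; rw [if_neg (by omega)]
        rw [this]
        linarith
    have h7 : H' N = Hi := by rw [hH']; simp only; rw [if_neg (by omega)]
    have h8 : gw s X ≤ iln X := by
      unfold gw iln
      have hX1 : (1 : ℝ) < X := by exact_mod_cast (by omega : 1 < X)
      apply div_le_div_of_nonneg_right _ (Real.log_pos hX1).le
      exact Real.rpow_le_one_of_one_le_of_nonpos hX1.le (by linarith)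
    have h9 := h6 N hN2
    have h10 := mul_le_mul_of_nonneg_left h8 hHi
    rw [h7]
    linarith
  rw [h2]
  linarith

end

end Pool.Agent.EZ
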