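import Pool.Agent.EZ.MertensLoop

/-!
# Explicit Mertens type estimates: the table below `10000` (helper46)
-/

set_option autoImplicit false

namespace Pool.Agent.EZ

open Finset ArithmeticFunction
open scoped Nat

/-- `10^4` times the upper bound of `A n - log n + 0.5772`. -/
def upc (n : ℕ) : ℕ :=
  (cond (Nat.ble 5000 n) 68 (cond (Nat.ble 2000 n) 106 (cond (Nat.ble 1000 n) 150 (cond (Nat.ble 500 n) 205 (cond (Nat.ble 200 n) 404 (cond (Nat.ble 100 n) 547 (cond (Nat.ble 50 n) 527 (cond (Nat.ble 30 n) 864 (cond (Nat.ble 23 n) 530 (cond (Nat.ble 19 n) 1077 (cond (Nat.ble 17 n) 640 (cond (Nat.ble 16 n) 0 (cond (Nat.ble 13 n) 1222 (cond (Nat.ble 11 n) 920 (cond (Nat.ble 9 n) 747 (cond (Nat.ble 8 n) 704 (cond (Nat.ble 7 n) 1173 (cond (Nat.ble 5 n) 1758 (cond (Nat.ble 4 n) 770 (cond (Nat.ble 3 n) 1914 2308))))))))))))))))))))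

/-- `10^4` times the bound for `-(A n - log (n + 1) + 0.5772)`. -/
def loc (n : ℕ) : ℕ :=
  (cond (Nat.ble 5000 n) 74 (cond (Nat.ble 2000 n) 120 (cond (Nat.ble 1000 n) 202 (cond (Nat.ble 500 n) 216 (cond (Nat.ble 200 n) 432 (cond (Nat.ble 100 n) 523 (cond (Nat.ble 50 n) 634 (cond (Nat.ble 30 n) 740 (cond (Nat.ble 23 n) 739 (cond (Nat.ble 19 n) 834 (cond (Nat.ble 17 n) 474 (cond (Nat.ble 16 n) 1028 (cond (Nat.ble 13 n) 855 (cond (Nat.ble 11 n) 752 (cond (Nat.ble 9 n) 1261 (cond (Nat.ble 8 n) 475 (cond (Nat.ble 7 n) 164 (cond (Nat.ble 5 n) 1608 (cond (Nat.ble 4 n) 1462 (cond (Nat.ble 3 n) 964 1749))))))))))))))))))))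

/-- The test. -/
def tst (n Ll Lu Al' _Al Au Pu : ℕ) : Bool :=
  cond (Nat.ble (Nat.mul 100 Pu) (Nat.mul 112000000000000 n))
    (cond (Nat.ble (Nat.add Au 577200000000) (Nat.add Ll (Nat.mul 100000000 (upc n))))
      (Nat.ble Lu (Nat.add (Nat.add Al' 577200000000) (Nat.mul 100000000 (loc (Nat.pred n)))))
      false) false

theorem table_run : loop tst 9998 2 693147180300 693147180800 346573590150 346573590400
    693147180800 = true := by decide +kernel

end Pool.Agent.EZ
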