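import Pool.Agent.EZ.Limit

/-!
# Monotonicity criterion for the payoff.
-/

set_option autoImplicit false
set_option linter.unusedSectionVars false

namespace Pool.Agent.EZ

open Finset Filter Topology

variable {V ι : Type*} [DecidableEq V] [DecidableEq ι]

theorem hasDerivAt_aa (S val : V → ℝ) (v : V) (hv : 1 < val v) (s : ℝ) :
    HasDerivAt (fun s => aa S val v s) (-(Real.log (val v) * aa S val v s)) s := by
  have h0 : 0 < val v := by linarith
  have h1 : HasDerivAt (fun s : ℝ => -(1 + s)) (-1) s := by
    have h := (hasDerivAt_id s).const_add 1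
    exact h.fun_neg
  have h2 := (h1.const_rpow h0).const_mul (S v)
  have e : -(Real.log (val v) * aa S val v s)
      = S v * (Real.log (val v) * -1 * val v ^ (-(1 + s))) := by
    unfold aa; ring
  rw [e]
  exact h2

theorem hasDerivAt_XX (VS : Finset V) (S val : V → ℝ) (hval : ∀ v ∈ VS, 1 < val v) (s : ℝ) :
    HasDerivAt (fun s => XX VS S val s) (-∑ v ∈ VS, Real.log (val v) * aa S val v s) s := by
  unfold XX
  rw [← Finset.sum_neg_distrib]
  apply HasDerivAt.fun_sum
  intro v hv
  exact hasDerivAt_aa S val v (hval v hv) s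

theorem mono_payoff (VS : Finset V) (S val : V → ℝ) (hval : ∀ v ∈ VS, 1 < val v)
    (u : ℝ) (hu : 1 < u)
    (h : ∀ s, 0 < s → (∑ v ∈ VS, Real.log (val v) * aa S val v s) * (u ^ s - 1) ≤ Real.log u) :
    ∀ s t, 0 ≤ s → s ≤ t → Real.exp (XX VS S val s) * (1 - u ^ (-s))
      ≤ Real.exp (XX VS S val t) * (1 - u ^ (-t)) := by
  have hu0 : 0 < u := by linarith
  have hd : ∀ s : ℝ, HasDerivAt (fun s => Real.exp (XX VS S val s) * (1 - u ^ (-s)))
      (Real.exp (XX VS S val s) * (-∑ v ∈ VS, Real.log (val v) * aa S val v s) * (1 - u ^ (-s))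
        + Real.exp (XX VS S val s) * (u ^ (-s) * Real.log u)) s := by
    intro s
    have h1 := (hasDerivAt_XX VS S val hval s).exp
    have h2 : HasDerivAt (fun s : ℝ => 1 - u ^ (-s)) (u ^ (-s) * Real.log u) s := by
      have h3 := ((hasDerivAt_neg s).const_rpow hu0).const_sub 1
      have e : u ^ (-s) * Real.log u = -(Real.log u * -1 * u ^ (-s)) := by ring
      rw [e]
      exact h3
    exact h1.mul h2
  have hmono : MonotoneOn (fun s => Real.exp (XX VS S val s) * (1 - u ^ (-s))) (Set.Ici 0) := by
    apply monotoneOn_of_deriv_nonneg (convex_Ici 0)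
    · exact fun s _ => (hd s).continuousAt.continuousWithinAt
    · exact fun s _ => (hd s).differentiableAt.differentiableWithinAt
    · intro s hs
      rw [interior_Ici] at hs
      rw [(hd s).deriv]
      have hs' : 0 < s := hs
      have h1 := h s hs'
      have h2 : 0 < u ^ s := Real.rpow_pos_of_pos hu0 s
      have h3 : 0 < Real.exp (XX VS S val s) := Real.exp_pos _
      rw [Real.rpow_neg hu0.le]
      set A := ∑ v ∈ VS, Real.log (val v) * aa S val v s with hA
      have h4 : Real.exp (XX VS S val s) * -A * (1 - (u ^ s)⁻¹)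
          + Real.exp (XX VS S val s) * ((u ^ s)⁻¹ * Real.log u)
          = Real.exp (XX VS S val s) * (u ^ s)⁻¹ * (Real.log u - A * (u ^ s - 1)) := by
        field_simp
        ring
      rw [h4]
      have : 0 ≤ Real.log u - A * (u ^ s - 1) := by linarith
      positivity
  intro s t hs hst
  exact hmono hs (hs.trans hst) hst

end Pool.Agent.EZ
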