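import Pool.Agent.EZ.NBEuler

/-!
# Lower Abel summation: `∑ a_v (v^{-s'} - v^{-s}) / log v` from below (helper46)
-/

set_option autoImplicit false

namespace Pool.Agent.EZ

open Finset MeasureTheory

noncomputable section

/-- The weight `(x^{-s'} - x^{-s}) / log x`. -/
def ch (s' s x : ℝ) : ℝ := gw s' x - gw s x

theorem ch_eq {s' s x : ℝ} (hx : 1 < x) :
    ch s' s x = x ^ (-s') * ((1 - x ^ (-(s - s'))) / Real.log x) := by
  have hx0 : 0 < x := by linarith
  unfold ch gw
  have e : x ^ (-s) = x ^ (-s') * x ^ (-(s - s')) := by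
    rw [← Real.rpow_add hx0]; congr 1; ring
  rw [e]
  ring

theorem ch_antitone {s' s x y : ℝ} (hs' : 0 ≤ s') (hs : s' ≤ s) (hx : 1 < x) (h : x ≤ y) :
    ch s' s y ≤ ch s' s x := by
  have hx0 : 0 < x := by linarith
  have hy1 : 1 < y := by linarith
  rw [ch_eq hx, ch_eq hy1]
  have h1 := gw_sub_le (s := s - s') (by linarith) hx h
  unfold gw at h1
  have h2 : (1 - y ^ (-(s - s'))) / Real.log y ≤ (1 - x ^ (-(s - s'))) / Real.log x := by
    rw [sub_div, sub_div]
    linarith
  have h3 : y ^ (-s') ≤ x ^ (-s') := by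
    rw [Real.rpow_neg hx0.le, Real.rpow_neg (by linarith)]
    exact inv_anti₀ (Real.rpow_pos_of_pos hx0 _) (Real.rpow_le_rpow hx0.le h hs')
  have h4 : 0 ≤ (1 - y ^ (-(s - s'))) / Real.log y := by
    apply div_nonneg _ (Real.log_pos hy1).le
    have := Real.rpow_le_one_of_one_le_of_nonpos hy1.le (by linarith : -(s - s') ≤ 0)
    linarith
  exact mul_le_mul h3 h2 h4 (Real.rpow_pos_of_pos hx0 _).le

theorem ch_nonneg {s' s x : ℝ} (hs : s' ≤ s) (hx : 1 < x) : 0 ≤ ch s' s x := by
  rw [ch_eq hx]
  apply mul_nonneg (Real.rpow_nonneg (by linarith) _)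
  apply div_nonneg _ (Real.log_pos hx).le
  have := Real.rpow_le_one_of_one_le_of_nonpos hx.le (by linarith : -(s - s') ≤ 0)
  linarith

/-- The integral of the weight. -/
def JJ (s' s u v : ℝ) : ℝ := (EE (s' * u) - EE (s' * v)) - (EE (s * u) - EE (s * v))

theorem EE_sub_scaled {s u v : ℝ} (hs : 0 < s) (hu : 0 < u) (h : u ≤ v) :
    EE (s * u) - EE (s * v) = ∫ x in u..v, Real.exp (-(s * x)) / x := by
  rw [EE_sub (mul_pos hs hu) (mul_le_mul_of_nonneg_left h hs.le)]
  rw [← intervalIntegral.mul_integral_comp_mul_left, ← intervalIntegral.integral_const_mul]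
  apply intervalIntegral.integral_congr
  intro x hx
  rw [Set.uIcc_of_le h] at hx
  have hx0 : 0 < x := lt_of_lt_of_le hu hx.1
  simp only
  field_simp

theorem scaled_integrable {s u v : ℝ} (hu : 0 < u) (h : u ≤ v) :
    IntervalIntegrable (fun x : ℝ => Real.exp (-(s * x)) / x) volume u v := by
  apply ContinuousOn.intervalIntegrable
  apply ContinuousOn.div
  · fun_prop
  · exact continuousOn_id
  · intro x hx
    rw [Set.uIcc_of_le h] at hx
    have hx0 : 0 < x := lt_of_lt_of_le hu hx.1
    exact hx0.ne'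

theorem gw_exp {s u : ℝ} : gw s (Real.exp u) = Real.exp (-(s * u)) / u := by
  unfold gw
  rw [Real.log_exp, ← Real.exp_mul]
  congr 2
  ring

theorem JJ_step {s' s x y : ℝ} (hs' : 0 < s') (hs : s' ≤ s) (hx : 1 < x) (h : x ≤ y) :
    JJ s' s (Real.log x) (Real.log y) ≤ (Real.log y - Real.log x) * ch s' s x := by
  have hlx : 0 < Real.log x := Real.log_pos hx
  have hly : Real.log x ≤ Real.log y := Real.log_le_log (by linarith) h
  have hs0 : 0 < s := by linarith
  unfold JJ
  rw [EE_sub_scaled hs' hlx hly, EE_sub_scaled hs0 hlx hly,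
    ← intervalIntegral.integral_sub (scaled_integrable hlx hly) (scaled_integrable hlx hly)]
  have : (Real.log y - Real.log x) * ch s' s x = ∫ _u in (Real.log x)..(Real.log y), ch s' s x := by
    rw [intervalIntegral.integral_const, smul_eq_mul]
  rw [this]
  apply intervalIntegral.integral_mono_on hly
    ((scaled_integrable hlx hly).sub (scaled_integrable hlx hly)) intervalIntegrable_const
  intro u hu
  have h1 : x ≤ Real.exp u := by
    rw [← Real.log_le_iff_le_exp (by linarith)]
    exact hu.1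
  have h2 := ch_antitone hs'.le hs hx h1
  unfold ch at h2
  rw [gw_exp, gw_exp] at h2
  exact h2

/-- Discrete lower Abel summation. -/
theorem abel_lower (a eta : ℕ → ℝ) (n : ℕ) (rho s' s : ℝ) (hs' : 0 < s') (hs : s' ≤ s)
    (hrho : 1 < rho) (hn : (n : ℝ) ≤ rho) (hn' : rho ≤ n + 1) (ha : ∀ m, 0 ≤ a m) (ha1 : a 1 = 0)
    (hB : ∀ N, n ≤ N → Real.log ((N : ℝ) + 1) - Real.log rho - eta N ≤ ∑ m ∈ Icc 1 N, a m) :
    ∀ N, n ≤ N → JJ s' s (Real.log rho) (Real.log ((N : ℝ) + 1))
      - (eta n * (ch s' s rho - ch s' s ((n : ℝ) + 1))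
        + ∑ m ∈ Ioc n N, eta m * (ch s' s m - ch s' s ((m : ℝ) + 1)))
      + (∑ m ∈ Icc 1 N, a m - (Real.log ((N : ℝ) + 1) - Real.log rho)) * ch s' s ((N : ℝ) + 1)
      ≤ ∑ m ∈ Icc 1 N, a m * ch s' s m := by
  intro N hN
  induction N, hN using Nat.le_induction with
  | base =>
    rw [Finset.Ioc_self, Finset.sum_empty]
    have h1 : ∑ m ∈ Icc 1 n, a m * ch s' s rho ≤ ∑ m ∈ Icc 1 n, a m * ch s' s m := by
      apply Finset.sum_le_sum
      intro m hm
      rw [mem_Icc] at hm
      rcases Nat.lt_or_ge 1 m with h | h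
      · apply mul_le_mul_of_nonneg_left _ (ha m)
        apply ch_antitone hs'.le hs (by exact_mod_cast h)
        have : (m : ℝ) ≤ n := by exact_mod_cast hm.2
        linarith
      · have : m = 1 := by omega
        subst this
        rw [ha1]
        simp
    rw [← Finset.sum_mul] at h1
    have h2 := JJ_step hs' hs hrho hn'
    have h3 := hB n le_rfl
    have h4 := ch_antitone hs'.le hs hrho hn'
    have h5 : -(eta n) * (ch s' s rho - ch s' s ((n : ℝ) + 1))
        ≤ (∑ m ∈ Icc 1 n, a m - (Real.log ((n : ℝ) + 1) - Real.log rho))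
          * (ch s' s rho - ch s' s ((n : ℝ) + 1)) := by
      apply mul_le_mul_of_nonneg_right _ (by linarith)
      linarith
    nlinarith
  | succ N hN ih =>
    have hN1 : (1 : ℝ) < (N : ℝ) + 1 := by
      have h5 : (n : ℝ) ≤ N := by exact_mod_cast hN
      linarith
    rw [Finset.sum_Icc_succ_top (by omega), Finset.sum_Icc_succ_top (by omega)]
    have h1 : Ioc n (N + 1) = insert (N + 1) (Ioc n N) := by
      ext m; simp only [mem_Ioc, mem_insert]; omega
    rw [h1, Finset.sum_insert (by simp)]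
    have h3 := hB (N + 1) (by omega)
    rw [Finset.sum_Icc_succ_top (by omega)] at h3
    push_cast at h3 ⊢
    have h2 := JJ_step hs' hs hN1 (by linarith : (N : ℝ) + 1 ≤ (N : ℝ) + 1 + 1)
    have h4 := ch_antitone hs'.le hs hN1 (by linarith : (N : ℝ) + 1 ≤ (N : ℝ) + 1 + 1)
    have h6 : JJ s' s (Real.log rho) (Real.log ((N : ℝ) + 1 + 1))
        = JJ s' s (Real.log rho) (Real.log ((N : ℝ) + 1))
          + JJ s' s (Real.log ((N : ℝ) + 1)) (Real.log ((N : ℝ) + 1 + 1)) := by
      unfold JJ; ring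
    rw [h6]
    set Bn := ∑ m ∈ Icc 1 N, a m with hBn
    set C1 := ch s' s ((N : ℝ) + 1) with hC1
    set C2 := ch s' s ((N : ℝ) + 1 + 1) with hC2
    have h5 : -(eta (N + 1)) * (C1 - C2)
        ≤ (Bn + a (N + 1) - (Real.log ((N : ℝ) + 1 + 1) - Real.log rho)) * (C1 - C2) := by
      apply mul_le_mul_of_nonneg_right _ (by linarith)
      linarith
    nlinarith

/-- Two levels of error. -/
theorem abel_lower_two (a : ℕ → ℝ) (n X : ℕ) (rho s' s eta1 eta2 : ℝ) (hs' : 0 < s') (hs : s' ≤ s)
    (hrho : 1 < rho) (hn : (n : ℝ) ≤ rho) (hn' : rho ≤ n + 1) (ha : ∀ m, 0 ≤ a m) (ha1 : a 1 = 0)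
    (hX : rho ≤ X)
    (hB1 : ∀ N, n ≤ N → N < X → Real.log ((N : ℝ) + 1) - Real.log rho - eta1 ≤ ∑ m ∈ Icc 1 N, a m)
    (hB2 : ∀ N, X ≤ N → Real.log ((N : ℝ) + 1) - Real.log rho - eta2 ≤ ∑ m ∈ Icc 1 N, a m)
    (N : ℕ) (hN : X ≤ N) :
    JJ s' s (Real.log rho) (Real.log ((N : ℝ) + 1))
      - (eta1 * (ch s' s rho - ch s' s X) + eta2 * ch s' s X)
      ≤ ∑ m ∈ Icc 1 N, a m * ch s' s m := by
  have hnX : n ≤ X := by
    have : (n : ℝ) ≤ X := hn.trans hX
    exact_mod_cast this
  set eta : ℕ → ℝ := fun N => if N < X then eta1 else eta2 with heta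
  have h := abel_lower a eta n rho s' s hs' hs hrho hn hn' ha ha1 (by
    intro N hN
    rw [heta]
    simp only
    split_ifs with h
    · exact hB1 N hN h
    · exact hB2 N (by omega)) N (by omega)
  have hN1 : (1 : ℝ) < (N : ℝ) + 1 := by
    have h5 : (X : ℝ) ≤ N := by exact_mod_cast hN
    linarith
  have h1 : -eta2 * ch s' s ((N : ℝ) + 1)
      ≤ (∑ m ∈ Icc 1 N, a m - (Real.log ((N : ℝ) + 1) - Real.log rho)) * ch s' s ((N : ℝ) + 1) := by
    apply mul_le_mul_of_nonneg_right _ (ch_nonneg hs hN1)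
    have := hB2 N hN
    linarith
  have key : ∀ N, X ≤ N → eta n * (ch s' s rho - ch s' s ((n : ℝ) + 1))
        + ∑ m ∈ Ioc n N, eta m * (ch s' s m - ch s' s ((m : ℝ) + 1))
        + eta2 * ch s' s ((N : ℝ) + 1)
      = eta1 * (ch s' s rho - ch s' s X) + eta2 * ch s' s X := by
    intro N hN
    induction N, hN using Nat.le_induction with
    | base =>
      rcases Nat.lt_or_ge n X with h | h
      · -- `n < X`
        have h2 : ∀ M, n ≤ M → M < X → eta n * (ch s' s rho - ch s' s ((n : ℝ) + 1))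
            + ∑ m ∈ Ioc n M, eta m * (ch s' s m - ch s' s ((m : ℝ) + 1))
            = eta1 * (ch s' s rho - ch s' s ((M : ℝ) + 1)) := by
          intro M hM
          induction M, hM using Nat.le_induction with
          | base =>
            intro _
            rw [Finset.Ioc_self, Finset.sum_empty, heta]
            simp only
            rw [if_pos h, add_zero]
          | succ M hM ih =>
            intro hMX
            have h1 : Ioc n (M + 1) = insert (M + 1) (Ioc n M) := by
              ext m; simp only [mem_Ioc, mem_insert]; omega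
            rw [h1, Finset.sum_insert (by simp)]
            have h3 := ih (by omega)
            have h4 : eta (M + 1) = eta1 := by
              rw [heta]; simp only; rw [if_pos hMX]
            rw [h4]
            push_cast
            linarith
        obtain ⟨Y, rfl⟩ : ∃ Y, X = Y + 1 := ⟨X - 1, by omega⟩
        have h3 := h2 Y (by omega) (by omega)
        have h1 : Ioc n (Y + 1) = insert (Y + 1) (Ioc n Y) := by
          ext m; simp only [mem_Ioc, mem_insert]; omega
        rw [h1, Finset.sum_insert (by simp)]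
        have h4 : eta (Y + 1) = eta2 := by
          rw [heta]; simp only; rw [if_neg (by omega)]
        rw [h4]
        push_cast at h3 ⊢
        linarith
      · have hXn : X = n := by omega
        subst hXn
        have hr : rho = (X : ℝ) := le_antisymm hX hn
        rw [Finset.Ioc_self, Finset.sum_empty, heta]
        simp only
        rw [if_neg (lt_irrefl _), hr]
        ring
    | succ N hN ih =>
      have h1 : Ioc n (N + 1) = insert (N + 1) (Ioc n N) := by
        ext m; simp only [mem_Ioc, mem_insert]; omega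
      rw [h1, Finset.sum_insert (by simp)]
      have h4 : eta (N + 1) = eta2 := by
        rw [heta]; simp only; rw [if_neg (by omega)]
      rw [h4]
      push_cast
      linarith
  have h2 := key N hN
  linarith

end

end Pool.Agent.EZ
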