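import Pool.Agent.EZ.MertensStep

/-!
# Sums over all prime powers: `∑_{v ∈ F} v^{-1-s} ≤ log (1 + 1/s) + D0` (helper46)
-/

set_option autoImplicit false

namespace Pool.Agent.EZ

open Finset

noncomputable section

/-! ### finite zeta sums -/

theorem zeta_partial {s : ℝ} (hs : 0 < s) (K : ℕ) (hK : 1 ≤ K) :
    ∑ m ∈ Icc 1 K, (m : ℝ) ^ (-(1 + s)) ≤ 1 + 1 / s - (K : ℝ) ^ (-s) / s := by
  induction K, hK using Nat.le_induction with
  | base =>
    simp
  | succ n hn ih =>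
    rw [Finset.sum_Icc_succ_top (by omega)]
    have hn0 : (0 : ℝ) < n := by exact_mod_cast hn
    have hn1 : (0 : ℝ) < (n : ℝ) + 1 := by linarith
    -- (n+1)^{-1-s} ≤ (n^{-s} - (n+1)^{-s}) / s
    have e1 : ((n : ℝ) + 1) ^ (-(1 + s)) = ((n : ℝ) + 1) ^ (-s) / (n + 1) := by
      rw [show -(1 + s) = -s - 1 by ring, Real.rpow_sub_one hn1.ne']
    have e2 : (n : ℝ) ^ (-s) = ((n : ℝ) + 1) ^ (-s) * Real.exp (s * (Real.log (n + 1) - Real.log n)) := by
      rw [Real.rpow_def_of_pos hn0, Real.rpow_def_of_pos hn1, ← Real.exp_add]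
      congr 1; ring
    have e3 : 1 / ((n : ℝ) + 1) ≤ Real.log (n + 1) - Real.log n := by
      have h := Real.one_sub_inv_le_log_of_pos (x := ((n : ℝ) + 1) / n) (by positivity)
      rw [Real.log_div hn1.ne' hn0.ne'] at h
      have e : 1 - (((n : ℝ) + 1) / n)⁻¹ = 1 / ((n : ℝ) + 1) := by field_simp; ring
      rw [e] at h
      exact h
    have e4 : 1 + s * (1 / ((n : ℝ) + 1)) ≤ Real.exp (s * (Real.log (n + 1) - Real.log n)) := by
      have h1 := Real.add_one_le_exp (s * (Real.log ((n : ℝ) + 1) - Real.log n))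
      have h2 := mul_le_mul_of_nonneg_left e3 hs.le
      linarith
    have hp : 0 < ((n : ℝ) + 1) ^ (-s) := Real.rpow_pos_of_pos hn1 _
    have e5 : ((n : ℝ) + 1) ^ (-s) * (1 + s * (1 / ((n : ℝ) + 1))) ≤ (n : ℝ) ^ (-s) := by
      rw [e2]; exact mul_le_mul_of_nonneg_left e4 hp.le
    have e6 : ((n : ℝ) + 1) ^ (-s) / (n + 1) ≤ ((n : ℝ) ^ (-s) - ((n : ℝ) + 1) ^ (-s)) / s := by
      rw [le_div_iff₀ hs]
      have : ((n : ℝ) + 1) ^ (-s) * (1 + s * (1 / ((n : ℝ) + 1)))
          = ((n : ℝ) + 1) ^ (-s) + ((n : ℝ) + 1) ^ (-s) / (n + 1) * s := by ring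
      linarith
    push_cast
    rw [e1]
    have e7 : ((n : ℝ) ^ (-s) - ((n : ℝ) + 1) ^ (-s)) / s = (n : ℝ) ^ (-s) / s - ((n : ℝ) + 1) ^ (-s) / s := by
      ring
    linarith

theorem zeta_finset {s : ℝ} (hs : 0 < s) (F : Finset ℕ) (hF : ∀ m ∈ F, 1 ≤ m) :
    ∑ m ∈ F, (m : ℝ) ^ (-(1 + s)) ≤ 1 + 1 / s := by
  have hsub : F ⊆ Icc 1 (F.sup id + 1) := by
    intro m hm
    rw [mem_Icc]
    exact ⟨hF m hm, le_trans (Finset.le_sup (f := id) hm) (Nat.le_succ _)⟩
  have h1 := zeta_partial hs (F.sup id + 1) (by omega)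
  have h2 : 0 ≤ (((F.sup id + 1 : ℕ) : ℝ)) ^ (-s) / s := by positivity
  have h3 : ∑ m ∈ F, (m : ℝ) ^ (-(1 + s)) ≤ ∑ m ∈ Icc 1 (F.sup id + 1), (m : ℝ) ^ (-(1 + s)) :=
    Finset.sum_le_sum_of_subset_of_nonneg hsub (fun m _ _ => by positivity)
  linarith

/-- `n ↦ n^{-1-s}` as a monoid homomorphism. -/
def nrp (s : ℝ) (hs : 0 < s) : ℕ →*₀ ℝ where
  toFun n := (n : ℝ) ^ (-(1 + s))
  map_zero' := by
    simp only [Nat.cast_zero]
    exact Real.zero_rpow (by linarith)
  map_one' := by simp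
  map_mul' m n := by
    push_cast
    exact Real.mul_rpow (Nat.cast_nonneg m) (Nat.cast_nonneg n)

theorem rpow_lt_one' {s : ℝ} (hs : 0 < s) {q : ℕ} (hq : 2 ≤ q) :
    (q : ℝ) ^ (-(1 + s)) < 1 := by
  apply Real.rpow_lt_one_of_one_lt_of_neg
  · exact_mod_cast hq
  · linarith

theorem euler_prod {s : ℝ} (hs : 0 < s) (N : ℕ) :
    ∏ p ∈ N.primesBelow, (1 - (p : ℝ) ^ (-(1 + s)))⁻¹ ≤ 1 + 1 / s := by
  have h := EulerProduct.summable_and_hasSum_smoothNumbers_prod_primesBelow_geometric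
    (F := ℝ) (f := (nrp s hs : ℕ →* ℝ)) (by
      intro p hp
      change ‖((p : ℕ) : ℝ) ^ (-(1 + s))‖ < 1
      rw [Real.norm_of_nonneg (by positivity)]
      exact rpow_lt_one' hs hp.two_le) N
  have h2 := h.2
  refine hasSum_le_of_sum_le h2 ?_
  intro F
  have h3 : ∑ m ∈ F, (nrp s hs : ℕ →* ℝ) (m : ℕ) = ∑ m ∈ F.map (Function.Embedding.subtype _),
      ((m : ℕ) : ℝ) ^ (-(1 + s)) := by
    rw [Finset.sum_map]
    rfl
  rw [h3]
  apply zeta_finset hs
  intro m hm
  rw [Finset.mem_map] at hm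
  obtain ⟨⟨x, hx⟩, -, rfl⟩ := hm
  have := Nat.ne_zero_of_mem_smoothNumbers hx
  change 1 ≤ x
  omega

/-! ### the constant -/

/-- `d x = x/(1-x) + log (1-x)`. -/
def dfn (x : ℝ) : ℝ := x / (1 - x) + Real.log (1 - x)

theorem dfn_mono {x y : ℝ} (hx : 0 ≤ x) (hxy : x ≤ y) (hy : y < 1) : dfn x ≤ dfn y := by
  unfold dfn
  have h1 : 0 < 1 - x := by linarith
  have h2 : 0 < 1 - y := by linarith
  have e1 : x / (1 - x) = 1 / (1 - x) - 1 := by field_simp; ring
  have e2 : y / (1 - y) = 1 / (1 - y) - 1 := by field_simp; ring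
  have h3 : Real.log (1 - x) - Real.log (1 - y) ≤ (1 - x) / (1 - y) - 1 := by
    rw [← Real.log_div h1.ne' h2.ne']
    exact Real.log_le_sub_one_of_pos (by positivity)
  have h4 : (1 - x) / (1 - y) - 1 ≤ 1 / (1 - y) - 1 / (1 - x) := by
    rw [div_sub_one h2.ne', div_sub_div _ _ h2.ne' h1.ne']
    rw [div_le_div_iff₀ h2 (by positivity)]
    nlinarith [mul_nonneg hx (sub_nonneg.2 hxy), mul_pos h1 h2]
  rw [e1, e2]
  linarith

/-- `DD N = ∑_{q ≤ N} (1/(q-1) + log (1 - 1/q))`. -/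
def DD (N : ℕ) : ℝ := ∑ q ∈ (Icc 1 N).filter Nat.Prime, dfn (1 / (q : ℝ))

theorem DD_succ (n : ℕ) : DD (n + 1) = DD n
    + (if Nat.Prime (n + 1) then dfn (1 / ((n + 1 : ℕ) : ℝ)) else 0) := by
  unfold DD
  rw [Finset.sum_filter, Finset.sum_filter, Finset.sum_Icc_succ_top (by omega)]

theorem dfn_inv (n : ℕ) (hn : 1 ≤ n) :
    dfn (1 / ((n + 1 : ℕ) : ℝ)) = 1 / n - (Real.log ((n : ℝ) + 1) - Real.log n) := by
  have hn0 : (0 : ℝ) < n := by exact_mod_cast hn
  unfold dfn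
  push_cast
  have e1 : 1 - 1 / ((n : ℝ) + 1) = n / (n + 1) := by field_simp; ring
  rw [e1, Real.log_div hn0.ne' (by positivity)]
  field_simp
  ring

/-- The loop. -/
def loopD (T : ℕ → Bool) (k : ℕ) : ℕ → ℕ → Bool :=
  Nat.rec (motive := fun _ => ℕ → ℕ → Bool) (fun _ D => T D)
    (fun _ ih n D =>
      frc (Nat.succ n) fun n' =>
      frc (cond (Nat.beq (kp n') 1)
        (Nat.add D (Nat.sub (Nat.succ (Nat.div 1000000000000 n)) (dlo (Nat.add n n')))) D) fun D' =>
      ih n' D') k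

theorem loopD_sound (T : ℕ → Bool) (Q : ℕ → Prop) (hT : ∀ n D : ℕ, (SC : ℝ) * DD n ≤ ((D : ℕ) : ℝ) → T D = true → Q n) :
    ∀ k n D : ℕ, 1 ≤ n → n + k < 101 ^ 2 → (SC : ℝ) * DD n ≤ ((D : ℕ) : ℝ) → loopD T k n D = true → Q (n + k) := by
  intro k
  induction k with
  | zero => intro n D _ _ h1 h2; exact hT n D h1 h2
  | succ k ih =>
    intro n D hn hk hD hloop
    have e0 : loopD T (k + 1) n D = frc (Nat.succ n) fun n' =>
      frc (cond (Nat.beq (kp n') 1)
        (Nat.add D (Nat.sub (Nat.succ (Nat.div 1000000000000 n)) (dlo (Nat.add n n')))) D) fun D' =>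
      loopD T k n' D' := rfl
    rw [e0] at hloop
    simp only [frc_eq] at hloop
    have hm : Nat.add n (Nat.succ n) = 2 * n + 1 := by
      change n + (n + 1) = 2 * n + 1
      ring
    rw [hm] at hloop
    have hn0 : (0 : ℝ) < n := by exact_mod_cast hn
    have hS : (SC : ℝ) = 1000000000000 := by norm_num [SC]
    set D' : ℕ := cond (Nat.beq (kp n.succ) 1)
        (Nat.add D (Nat.sub (Nat.succ (Nat.div 1000000000000 n)) (dlo (2 * n + 1)))) D with hD'
    have hle : D ≤ D' := by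
      rw [hD']
      cases Nat.beq (kp n.succ) 1 with
      | false => exact le_refl _
      | true => exact Nat.le_add_right _ _
    have hinv : (SC : ℝ) * DD (n + 1) ≤ D' := by
      by_cases hp : (n + 1).Prime
      · have hk1 : kp n.succ = 1 := kp_eq_one_of_prime hp (by omega)
        have h0 : D' = Nat.add D (Nat.sub (Nat.succ (Nat.div 1000000000000 n)) (dlo (2 * n + 1))) := by
          rw [hD', hk1]; rfl
        have h1 := dlo_le n hn
        have h2 := le_cast_div_add_one 1000000000000 n (by omega)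
        have h3 : (Nat.sub (Nat.succ (Nat.div 1000000000000 n)) (dlo (2 * n + 1)) : ℝ)
            ≥ ((1000000000000 / n : ℕ) : ℝ) + 1 - dlo (2 * n + 1) := by
          have h4 : (1000000000000 / n) + 1 ≤ (Nat.sub (Nat.succ (Nat.div 1000000000000 n))
              (dlo (2 * n + 1))) + dlo (2 * n + 1) := by
            change (1000000000000 / n) + 1 ≤ ((1000000000000 / n) + 1 - dlo (2 * n + 1)) + dlo (2 * n + 1)
            omega
          have h5 : (((1000000000000 / n) + 1 : ℕ) : ℝ) ≤ ((Nat.sub (Nat.succ (Nat.div 1000000000000 n))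
              (dlo (2 * n + 1)) + dlo (2 * n + 1) : ℕ) : ℝ) := by exact_mod_cast h4
          push_cast at h5
          linarith
        have h6 : (D' : ℝ) = D + (Nat.sub (Nat.succ (Nat.div 1000000000000 n)) (dlo (2 * n + 1)) : ℝ) := by
          rw [h0]; exact Nat.cast_add _ _
        rw [DD_succ, if_pos hp, dfn_inv n hn, h6]
        rw [hS] at h1 hD ⊢
        have e7 : (1000000000000 : ℝ) * (DD n + (1 / (n : ℝ) - (Real.log ((n : ℝ) + 1) - Real.log n)))
          = 1000000000000 * DD n + 1000000000000 / n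
            - 1000000000000 * (Real.log ((n : ℝ) + 1) - Real.log n) := by ring
        rw [e7]
        push_cast at h2
        linarith
      · rw [DD_succ, if_neg hp, add_zero]
        refine hD.trans ?_
        exact_mod_cast hle
    have h8 := ih (n + 1) D' (by omega) (by omega) hinv hloop
    have : n + (k + 1) = n + 1 + k := by ring
    rw [this]; exact h8

theorem DD_run : loopD (fun D => Nat.ble D 457449000000) 9999 1 0 = true := by decide +kernel

theorem DD_small : DD 10000 ≤ 0.457449 := by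
  have h := loopD_sound (fun D => Nat.ble D 457449000000) (fun n => DD n ≤ 0.457449) (by
    intro n D h1 h2
    have h3 : D ≤ 457449000000 := by
      rw [← Nat.ble_eq]; exact h2
    have h4 : (D : ℝ) ≤ ((457449000000 : ℕ) : ℝ) := by exact_mod_cast h3
    have hS : (SC : ℝ) = 1000000000000 := by norm_num [SC]
    rw [hS] at h1
    push_cast at h4
    linarith) 9999 1 0 le_rfl (by norm_num) (by
      have : DD 1 = 0 := by
        unfold DD
        simp [Finset.sum_filter, Nat.not_prime_one]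
      rw [this]; simp) DD_run
  exact h

theorem dfn_nonneg {x : ℝ} (hx : 0 ≤ x) (h1 : x < 1) : 0 ≤ dfn x := by
  have h := dfn_mono le_rfl hx h1
  simpa [dfn] using h

/-- `1/n - log((n+1)/n) ≤ 0.51 (1/n - 1/(n+1))` for `n ≥ 100`. -/
theorem dfn_inv_le (n : ℕ) (hn : 10000 ≤ n) :
    dfn (1 / ((n + 1 : ℕ) : ℝ)) ≤ 0.501 * (1 / (n : ℝ) - 1 / ((n : ℝ) + 1)) := by
  have hn0 : (10000 : ℝ) ≤ n := by exact_mod_cast hn
  have hnp : (0 : ℝ) < n := by linarith
  rw [dfn_inv n (by omega)]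
  -- log ((n+1)/n) ≥ 2/(2n+1)
  have h1 := log_step_eq n (by omega)
  have hx : (0 : ℝ) ≤ 1 / (2 * (n : ℝ) + 1) := by positivity
  have hx1 : (1 : ℝ) / (2 * (n : ℝ) + 1) < 1 := by
    rw [div_lt_one (by positivity)]; linarith
  have h2 := log_series_lower 1 hx hx1
  simp only [Finset.sum_range_one] at h2
  have h3 : 2 / (2 * (n : ℝ) + 1) ≤ Real.log ((n : ℝ) + 1) - Real.log n := by
    rw [h1]
    refine le_trans (le_of_eq ?_) h2
    norm_num
    ring
  have h4 : 1 / (n : ℝ) - 2 / (2 * (n : ℝ) + 1) ≤ 0.501 * (1 / (n : ℝ) - 1 / ((n : ℝ) + 1)) := by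
    have e1 : 1 / (n : ℝ) - 2 / (2 * (n : ℝ) + 1) = 1 / (n * (2 * n + 1)) := by
      field_simp; ring
    have e2 : 1 / (n : ℝ) - 1 / ((n : ℝ) + 1) = 1 / (n * (n + 1)) := by
      field_simp; ring
    rw [e1, e2, ← div_eq_mul_one_div, div_le_div_iff₀ (by positivity) (by positivity)]
    nlinarith
  linarith

theorem DD_tail (N : ℕ) (hN : 10000 ≤ N) : DD N ≤ 0.457449 + 0.501 * (1 / 10000 - 1 / (N : ℝ)) := by
  induction N, hN using Nat.le_induction with
  | base =>
    have := DD_small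
    push_cast
    linarith
  | succ n hn ih =>
    rw [DD_succ]
    have hn0 : (10000 : ℝ) ≤ n := by exact_mod_cast hn
    have h1 := dfn_inv_le n hn
    have h2 : (0 : ℝ) ≤ 0.501 * (1 / (n : ℝ) - 1 / ((n : ℝ) + 1)) := by
      apply mul_nonneg (by norm_num)
      have := one_div_le_one_div_of_le (by linarith : (0 : ℝ) < n) (by linarith : (n : ℝ) ≤ n + 1)
      linarith
    push_cast at h1 ⊢
    split_ifs <;> linarith

theorem DD_mono : Monotone DD := by
  intro a b h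
  apply Finset.sum_le_sum_of_subset_of_nonneg
  · exact Finset.filter_subset_filter _ (Finset.Icc_subset_Icc_right h)
  · intro q hq _
    have hp := (mem_filter.1 hq).2
    have h2 : (2 : ℝ) ≤ q := by exact_mod_cast hp.two_le
    apply dfn_nonneg (by positivity)
    rw [div_lt_one (by linarith)]; linarith

theorem DD_le (N : ℕ) : DD N ≤ 0.4575 := by
  by_cases h : N ≤ 10000
  · have h1 := DD_mono h
    have h2 := DD_small
    linarith
  · have h1 := DD_tail N (by omega)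
    have h2 : (0 : ℝ) ≤ 1 / (N : ℝ) := by positivity
    linarith

/-! ### sums over prime powers -/

theorem geo_finset {x : ℝ} (h0 : 0 ≤ x) (h1 : x < 1) (K : ℕ) :
    ∑ f ∈ Icc 1 K, x ^ f ≤ x / (1 - x) := by
  have h := geom_sum_Icc_le h0 h1 K
  exact h
where
  geom_sum_Icc_le {x : ℝ} (h0 : 0 ≤ x) (h1 : x < 1) (K : ℕ) :
      ∑ f ∈ Icc 1 K, x ^ f ≤ x / (1 - x) := by
    have hp : 0 < 1 - x := by linarith
    have key : ∑ f ∈ Icc 1 K, x ^ f = x / (1 - x) - x ^ (K + 1) / (1 - x) := by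
      induction K with
      | zero => simp
      | succ n ih =>
        rw [Finset.sum_Icc_succ_top (by omega), ih]
        field_simp
        ring
    rw [key]
    have : 0 ≤ x ^ (K + 1) / (1 - x) := by positivity
    linarith

/-- sum over a finite set of prime powers. -/
theorem sum_pp_log {s : ℝ} (hs : 0 < s) (F : Finset ℕ) (hF : ∀ v ∈ F, IsPrimePow v) :
    ∑ v ∈ F, (v : ℝ) ^ (-(1 + s)) ≤ Real.log (1 + 1 / s) + 0.4575 := by
  classical
  set N := F.sup id with hN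
  have hFN : ∀ v ∈ F, v ≤ N := fun v hv => Finset.le_sup (f := id) hv
  set P := (N + 1).primesBelow with hP
  have hmaps : ∀ v ∈ F, v.minFac ∈ P := by
    intro v hv
    have hv1 : v ≠ 1 := by
      rintro rfl
      exact not_isPrimePow_one (hF 1 hv)
    have hv0 : 0 < v := (hF v hv).pos
    rw [hP, Nat.mem_primesBelow]
    exact ⟨lt_of_le_of_lt ((Nat.minFac_le hv0).trans (hFN v hv)) (Nat.lt_succ_self _),
      Nat.minFac_prime hv1⟩
  rw [← Finset.sum_fiberwise_of_maps_to hmaps]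
  have hx : ∀ q ∈ P, q.Prime ∧ (0 : ℝ) ≤ (q : ℝ) ^ (-(1 + s)) ∧ (q : ℝ) ^ (-(1 + s)) < 1 ∧
      (q : ℝ) ^ (-(1 + s)) ≤ 1 / q := by
    intro q hq
    have hp := Nat.prime_of_mem_primesBelow hq
    have hq2 : (2 : ℝ) ≤ q := by exact_mod_cast hp.two_le
    refine ⟨hp, by positivity, rpow_lt_one' hs hp.two_le, ?_⟩
    have h1 : (1 : ℝ) / q = (q : ℝ) ^ (-1 : ℝ) := by
      rw [Real.rpow_neg_one, one_div]
    rw [h1]
    exact Real.rpow_le_rpow_of_exponent_le (by linarith) (by linarith)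
  have h1 : ∀ q ∈ P, ∑ v ∈ F.filter (fun v => v.minFac = q), (v : ℝ) ^ (-(1 + s))
      ≤ -Real.log (1 - (q : ℝ) ^ (-(1 + s))) + dfn (1 / (q : ℝ)) := by
    intro q hq
    obtain ⟨hp, hx0, hx1, hx2⟩ := hx q hq
    have hq2 : 2 ≤ q := hp.two_le
    have hsub : F.filter (fun v => v.minFac = q) ⊆ (Icc 1 N).image (fun f => q ^ f) := by
      intro n hn
      rw [mem_filter] at hn
      obtain ⟨hn1, hn2⟩ := hn
      obtain ⟨p, k, hp', hk, hpk⟩ := hF n hn1
      have hp'' : p.Prime := hp'.nat_prime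
      have hpq : p = q := by
        rw [← hn2, ← hpk]
        exact (Nat.Prime.pow_minFac hp'' (by omega)).symm
      rw [mem_image]
      refine ⟨k, ?_, by rw [← hpk, hpq]⟩
      rw [mem_Icc]
      refine ⟨hk, ?_⟩
      have h2 : k < 2 ^ k := Nat.lt_two_pow_self
      have h3 : 2 ^ k ≤ q ^ k := Nat.pow_le_pow_left hq2 k
      have h4 : q ^ k = n := by rw [← hpq]; exact hpk
      have h5 := hFN n hn1
      omega
    calc ∑ v ∈ F.filter (fun v => v.minFac = q), (v : ℝ) ^ (-(1 + s))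
        ≤ ∑ v ∈ (Icc 1 N).image (fun f => q ^ f), (v : ℝ) ^ (-(1 + s)) :=
          Finset.sum_le_sum_of_subset_of_nonneg hsub (fun v _ _ => by positivity)
      _ = ∑ f ∈ Icc 1 N, ((q : ℝ) ^ (-(1 + s))) ^ f := by
          rw [Finset.sum_image (fun a _ b _ hab => Nat.pow_right_injective hq2 hab)]
          apply Finset.sum_congr rfl
          intro f _
          push_cast
          rw [← Real.rpow_natCast ((q : ℝ) ^ (-(1 + s))) f, ← Real.rpow_mul (Nat.cast_nonneg q),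
            ← Real.rpow_natCast (q : ℝ) f, ← Real.rpow_mul (Nat.cast_nonneg q), mul_comm]
      _ ≤ (q : ℝ) ^ (-(1 + s)) / (1 - (q : ℝ) ^ (-(1 + s))) := geo_finset hx0 hx1 N
      _ = -Real.log (1 - (q : ℝ) ^ (-(1 + s))) + dfn ((q : ℝ) ^ (-(1 + s))) := by
          unfold dfn; ring
      _ ≤ -Real.log (1 - (q : ℝ) ^ (-(1 + s))) + dfn (1 / (q : ℝ)) := by
          have hq2' : (2 : ℝ) ≤ q := by exact_mod_cast hq2
          have := dfn_mono hx0 hx2 (by rw [div_lt_one (by linarith)]; linarith)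
          linarith
  refine (Finset.sum_le_sum h1).trans ?_
  rw [Finset.sum_add_distrib]
  have h2 : ∑ q ∈ P, -Real.log (1 - (q : ℝ) ^ (-(1 + s))) ≤ Real.log (1 + 1 / s) := by
    have h3 := euler_prod hs (N + 1)
    have h4 : ∑ q ∈ P, -Real.log (1 - (q : ℝ) ^ (-(1 + s)))
        = Real.log (∏ q ∈ P, (1 - (q : ℝ) ^ (-(1 + s)))⁻¹) := by
      rw [Real.log_prod (fun q hq => by
        obtain ⟨-, -, hx1, -⟩ := hx q hq
        have : 0 < 1 - (q : ℝ) ^ (-(1 + s)) := by linarith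
        positivity)]
      apply Finset.sum_congr rfl
      intro q _
      rw [Real.log_inv]
    rw [h4]
    apply Real.log_le_log _ h3
    apply Finset.prod_pos
    intro q hq
    obtain ⟨-, -, hx1, -⟩ := hx q hq
    have : 0 < 1 - (q : ℝ) ^ (-(1 + s)) := by linarith
    positivity
  have h3 : ∑ q ∈ P, dfn (1 / (q : ℝ)) ≤ 0.4575 := by
    refine le_trans (le_of_eq ?_) (DD_le N)
    unfold DD
    apply Finset.sum_congr _ (fun _ _ => rfl)
    ext q
    rw [hP, Nat.mem_primesBelow, mem_filter, mem_Icc]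
    constructor
    · rintro ⟨h1, h2⟩; exact ⟨⟨h2.one_lt.le, by omega⟩, h2⟩
    · rintro ⟨⟨-, h1⟩, h2⟩; exact ⟨by omega, h2⟩
  linarith

end

end Pool.Agent.EZ
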