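import Pool.Agent.EZ.Steps2

/-!
# Rounds: discretised time
-/

set_option autoImplicit false
set_option linter.unusedSectionVars false

namespace Pool.Agent.EZ

open Finset

variable {V ι : Type*} [DecidableEq V] [DecidableEq ι]

/-- one round: every component of the list may arrive. -/
noncomputable def rnd (VL : List V) (δ : V → ℝ) (g : ℝ) : List (V × ℝ × ℝ) :=
  VL.map (fun v => (v, 1 - Real.exp (-δ v), g))

theorem rnd_val (VL : List V) (δ : V → ℝ) (g : ℝ) (hδ : ∀ v ∈ VL, 0 ≤ δ v) :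
    ∀ x ∈ rnd VL δ g, 0 ≤ x.2.1 ∧ x.2.1 < 1 := by
  intro x hx
  obtain ⟨v, hv, rfl⟩ := List.mem_map.1 hx
  have h1 := Real.exp_pos (-δ v)
  have h2 : Real.exp (-δ v) ≤ 1 := Real.exp_le_one_iff.2 (by linarith [hδ v hv])
  constructor
  · show 0 ≤ 1 - Real.exp (-δ v)
    linarith
  · show 1 - Real.exp (-δ v) < 1
    linarith

theorem SS_rnd (VL : List V) (δ : V → ℝ) (g : ℝ) :
    SS (rnd VL δ g) = Real.exp (-(VL.map δ).sum) := by
  induction VL with
  | nil => simp [rnd, SS]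
  | cons v VL ih =>
    have : rnd (v :: VL) δ g = (v, 1 - Real.exp (-δ v), g) :: rnd VL δ g := rfl
    rw [this]
    simp only [SS, ih, List.map_cons, List.sum_cons, neg_add, Real.exp_add]
    ring

theorem bb_rnd (VL : List V) (hVL : VL.Nodup) (δ : V → ℝ) (g : ℝ) (v : V) :
    bb v (rnd VL δ g) = if v ∈ VL then Real.exp (δ v) - 1 else 0 := by
  induction VL with
  | nil => simp [rnd, bb]
  | cons w VL ih =>
    obtain ⟨hw, hVL'⟩ := List.nodup_cons.1 hVL
    have : rnd (w :: VL) δ g = (w, 1 - Real.exp (-δ w), g) :: rnd VL δ g := rfl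
    rw [this]
    simp only [bb, ih hVL']
    by_cases h : w = v
    · subst h
      rw [if_pos rfl, if_neg hw, if_pos List.mem_cons_self]
      have h1 : Real.exp (-δ w) ≠ 0 := (Real.exp_pos _).ne'
      have h2 : Real.exp (δ w) * Real.exp (-δ w) = 1 := by
        rw [← Real.exp_add]; simp
      have h3 : (1 : ℝ) - (1 - Real.exp (-δ w)) = Real.exp (-δ w) := by ring
      rw [h3, add_zero, div_eq_iff h1]
      linear_combination -h2
    · rw [if_neg h, zero_add]
      by_cases h' : v ∈ VL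
      · rw [if_pos h', if_pos (List.mem_cons_of_mem _ h')]
      · rw [if_neg h', if_neg]
        intro h''
        rcases List.mem_cons.1 h'' with h3 | h3
        · exact h h3.symm
        · exact h' h3

theorem surv_rnd (π : V → ι) (r : ι) (VL : List V) (δ : V → ℝ) (g : ℝ) :
    surv π r (rnd VL δ g) = Real.exp (-((VL.filter (fun v => π v = r)).map δ).sum) := by
  induction VL with
  | nil => simp [rnd, surv]
  | cons v VL ih =>
    have : rnd (v :: VL) δ g = (v, 1 - Real.exp (-δ v), g) :: rnd VL δ g := rfl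
    rw [this]
    simp only [surv, ih]
    by_cases h : π v = r
    · rw [if_pos h, List.filter_cons_of_pos (by simpa using h)]
      simp only [List.map_cons, List.sum_cons, neg_add, Real.exp_add]
      ring
    · rw [if_neg h, List.filter_cons_of_neg (by simpa using h), one_mul]

theorem FJ_append (t t' : List (V × ℝ × ℝ)) : FJ (t ++ t') = FJ t + SS t * FJ t' := by
  induction t with
  | nil => simp [FJ, SS]
  | cons x t ih => simp only [List.cons_append, FJ, SS, ih]; ring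

theorem FJ_rnd (VL : List V) (δ : V → ℝ) (g : ℝ) :
    FJ (rnd VL δ g) = g * (1 - SS (rnd VL δ g)) := by
  induction VL with
  | nil => simp [rnd, FJ, SS]
  | cons v VL ih =>
    have : rnd (v :: VL) δ g = (v, 1 - Real.exp (-δ v), g) :: rnd VL δ g := rfl
    rw [this]
    simp only [FJ, SS, ih]
    ring

/-- lower bound for the payoff gained in a round. -/
theorem Y_rnd (VL : List V) (δ : V → ℝ) (hδ : ∀ v ∈ VL, 0 ≤ δ v) (g : ℝ) (hg : 0 ≤ g)
    (U : ℝ) (m : Finset V) : ∀ t : List (V × ℝ × ℝ), (∀ y ∈ t, 0 ≤ y.2.1 ∧ y.2.1 < 1) →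
    U ≤ g * SS (t ++ rnd VL δ g) →
    Y t {m} + U * ((∏ v ∈ m, bb v (t ++ rnd VL δ g)) - ∏ v ∈ m, bb v t)
      ≤ Y (t ++ rnd VL δ g) {m} := by
  induction VL with
  | nil => intro t _ _; simp [rnd]
  | cons w VL ih =>
    intro t ht hU
    have hr : rnd (w :: VL) δ g = (w, 1 - Real.exp (-δ w), g) :: rnd VL δ g := rfl
    have hδ' : ∀ v ∈ VL, 0 ≤ δ v := fun v hv => hδ v (List.mem_cons_of_mem _ hv)
    set x : V × ℝ × ℝ := (w, 1 - Real.exp (-δ w), g) with hx
    have hxv : 0 ≤ x.2.1 ∧ x.2.1 < 1 := rnd_val (w :: VL) δ g hδ x (by rw [hr]; simp)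
    have happ : t ++ rnd (w :: VL) δ g = (t ++ [x]) ++ rnd VL δ g := by
      rw [hr]; simp
    rw [happ] at hU ⊢
    have ht' : ∀ y ∈ t ++ [x], 0 ≤ y.2.1 ∧ y.2.1 < 1 := by
      intro y hy
      rcases List.mem_append.1 hy with h | h
      · exact ht y h
      · rw [List.mem_singleton.1 h]; exact hxv
    have h1 := ih hδ' (t ++ [x]) ht' hU
    have h2 := Y_snoc' x t ht hxv m
    have hSSle : SS ((t ++ [x]) ++ rnd VL δ g) ≤ SS (t ++ [x]) := by
      rw [SS_append]
      exact mul_le_of_le_one_right (SS_nonneg _ ht') (SS_le_one _ (rnd_val VL δ g hδ'))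
    have hU2 : U ≤ g * SS (t ++ [x]) := hU.trans (mul_le_mul_of_nonneg_left hSSle hg)
    have hΔ : 0 ≤ (∏ v ∈ m, bb v (t ++ [x])) - ∏ v ∈ m, bb v t := by
      rw [sub_nonneg]
      apply Finset.prod_le_prod (fun v _ => bb_nonneg v t ht)
      intro v _
      rw [bb_append]
      have := bb_nonneg v [x] (by intro y hy; rw [List.mem_singleton.1 hy]; exact hxv)
      linarith
    have h3 := mul_le_mul_of_nonneg_right hU2 hΔ
    have h4 : x.2.2 = g := rfl
    rw [h4] at h2
    linarith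

/-- concatenation of rounds -/
noncomputable def tt (VL : List V) (δ : ℕ → V → ℝ) (g : ℕ → ℝ) : ℕ → List (V × ℝ × ℝ)
  | 0 => []
  | j + 1 => tt VL δ g j ++ rnd VL (δ j) (g j)

theorem tt_val (VL : List V) (δ : ℕ → V → ℝ) (g : ℕ → ℝ) (hδ : ∀ j, ∀ v ∈ VL, 0 ≤ δ j v) (n : ℕ) :
    ∀ x ∈ tt VL δ g n, 0 ≤ x.2.1 ∧ x.2.1 < 1 := by
  induction n with
  | zero => intro x hx; simp [tt] at hx
  | succ n ih =>
    intro x hx
    rcases List.mem_append.1 hx with h | h
    · exact ih x h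
    · exact rnd_val VL (δ n) (g n) (hδ n) x h

theorem tt_mem (VL : List V) (δ : ℕ → V → ℝ) (g : ℕ → ℝ) (n : ℕ) :
    ∀ x ∈ tt VL δ g n, x.1 ∈ VL ∧ ∃ j < n, x.2.2 = g j := by
  induction n with
  | zero => intro x hx; simp [tt] at hx
  | succ n ih =>
    intro x hx
    rcases List.mem_append.1 hx with h | h
    · obtain ⟨h1, j, hj, h2⟩ := ih x h
      exact ⟨h1, j, by omega, h2⟩
    · obtain ⟨v, hv, rfl⟩ := List.mem_map.1 h
      exact ⟨hv, n, by omega, rfl⟩

theorem tt_pairwise (VL : List V) (δ : ℕ → V → ℝ) (g : ℕ → ℝ) (n : ℕ)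
    (hg : ∀ i j, i ≤ j → j < n → g j ≤ g i) :
    (tt VL δ g n).Pairwise (fun x y => y.2.2 ≤ x.2.2) := by
  induction n with
  | zero => exact List.Pairwise.nil
  | succ n ih =>
    simp only [tt]
    rw [List.pairwise_append]
    refine ⟨ih (fun i j hij hj => hg i j hij (by omega)), ?_, ?_⟩
    · unfold rnd
      rw [List.pairwise_map]
      exact List.pairwise_of_forall (fun _ _ => le_rfl)
    · intro x hx y hy
      obtain ⟨-, i, hi, h1⟩ := tt_mem VL δ g n x hx
      obtain ⟨v, -, rfl⟩ := List.mem_map.1 hy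
      show g n ≤ x.2.2
      rw [h1]
      exact hg i n (by omega) (by omega)

theorem SS_tt (VL : List V) (δ : ℕ → V → ℝ) (g : ℕ → ℝ) (n : ℕ) :
    SS (tt VL δ g n) = Real.exp (-∑ j ∈ range n, (VL.map (δ j)).sum) := by
  induction n with
  | zero => simp [tt, SS]
  | succ n ih =>
    simp only [tt]
    rw [SS_append, ih, SS_rnd, ← Real.exp_add, Finset.sum_range_succ]
    congr 1; ring

theorem bb_tt (VL : List V) (hVL : VL.Nodup) (δ : ℕ → V → ℝ) (g : ℕ → ℝ) (v : V) (hv : v ∈ VL)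
    (n : ℕ) : bb v (tt VL δ g n) = ∑ j ∈ range n, (Real.exp (δ j v) - 1) := by
  induction n with
  | zero => simp [tt, bb]
  | succ n ih =>
    simp only [tt]
    rw [bb_append, ih, bb_rnd VL hVL, if_pos hv, Finset.sum_range_succ]

theorem surv_tt (π : V → ι) (r : ι) (VL : List V) (δ : ℕ → V → ℝ) (g : ℕ → ℝ) (n : ℕ) :
    surv π r (tt VL δ g n)
      = Real.exp (-∑ j ∈ range n, ((VL.filter (fun v => π v = r)).map (δ j)).sum) := by
  induction n with
  | zero => simp [tt, surv]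
  | succ n ih =>
    simp only [tt]
    rw [surv_append, ih, surv_rnd, ← Real.exp_add, Finset.sum_range_succ]
    congr 1; ring

theorem FJ_tt (VL : List V) (δ : ℕ → V → ℝ) (g : ℕ → ℝ) (n : ℕ) :
    FJ (tt VL δ g n) = ∑ j ∈ range n, SS (tt VL δ g j) * (g j * (1 - SS (rnd VL (δ j) (g j)))) := by
  induction n with
  | zero => simp [tt, FJ]
  | succ n ih =>
    simp only [tt]
    rw [FJ_append, ih, FJ_rnd, Finset.sum_range_succ]

theorem abel (U b : ℕ → ℝ) (n : ℕ) :
    ∑ j ∈ range (n + 1), U j * (b (j + 1) - b j)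
      = U n * b (n + 1) + ∑ j ∈ range n, (U j - U (j + 1)) * b (j + 1) - U 0 * b 0 := by
  induction n with
  | zero => simp; ring
  | succ n ih => rw [Finset.sum_range_succ, ih, Finset.sum_range_succ]; ring

/-- lower bound for the total payoff at `m`. -/
theorem Y_tt_lower (VL : List V) (hVL : VL.Nodup) (δ : ℕ → V → ℝ) (g U : ℕ → ℝ)
    (hδ : ∀ j, ∀ v ∈ VL, 0 ≤ δ j v) (hg : ∀ j, 0 ≤ g j) (n : ℕ)
    (hU : ∀ j ≤ n, U j ≤ g j * SS (tt VL δ g (j + 1))) (hU0 : ∀ j ≤ n, 0 ≤ U j)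
    (hUm : ∀ j < n, U (j + 1) ≤ U j)
    (m : Finset V) (hm : m.Nonempty) (hmV : ∀ v ∈ m, v ∈ VL) :
    ∑ j ∈ range n, (U j - U (j + 1)) * ∏ v ∈ m, ∑ i ∈ range (j + 1), δ i v
      ≤ Y (tt VL δ g (n + 1)) {m} := by
  set b : ℕ → ℝ := fun j => ∏ v ∈ m, bb v (tt VL δ g j) with hb
  have h1 : ∀ k ≤ n + 1, ∑ j ∈ range k, U j * (b (j + 1) - b j) ≤ Y (tt VL δ g k) {m} := by
    intro k
    induction k with
    | zero => intro _; simp [tt, Y]
    | succ k ih =>
      intro hk
      rw [Finset.sum_range_succ]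
      have := Y_rnd VL (δ k) (hδ k) (g k) (hg k) (U k) m (tt VL δ g k)
        (tt_val VL δ g hδ k) (hU k (by omega))
      have ih' := ih (by omega)
      calc _ ≤ Y (tt VL δ g k) {m} + U k * (b (k + 1) - b k) := by linarith
        _ ≤ _ := this
  refine le_trans ?_ (h1 (n + 1) le_rfl)
  rw [abel]
  have hb0 : b 0 = 0 := by
    obtain ⟨v, hv⟩ := hm
    exact Finset.prod_eq_zero hv rfl
  have hbn : 0 ≤ b (n + 1) :=
    Finset.prod_nonneg fun v _ => bb_nonneg v _ (tt_val VL δ g hδ (n + 1))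
  have hUn : 0 ≤ U n * b (n + 1) := mul_nonneg (hU0 n le_rfl) hbn
  have h2 : ∑ j ∈ range n, (U j - U (j + 1)) * ∏ v ∈ m, ∑ i ∈ range (j + 1), δ i v
      ≤ ∑ j ∈ range n, (U j - U (j + 1)) * b (j + 1) := by
    apply Finset.sum_le_sum
    intro j hj
    apply mul_le_mul_of_nonneg_left _ (sub_nonneg.2 (hUm j (Finset.mem_range.1 hj)))
    apply Finset.prod_le_prod
    · intro v hv
      exact Finset.sum_nonneg fun i _ => hδ i v (hmV v hv)
    · intro v hv
      rw [bb_tt VL hVL δ g v (hmV v hv)]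
      apply Finset.sum_le_sum
      intro i _
      linarith [Real.add_one_le_exp (δ i v)]
  rw [hb0]
  linarith

end Pool.Agent.EZ
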