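import Pool.Agent.EZ.Num
import Pool.Agent.EZ.FBK
import Pool.Agent.EZ.LTools
import Pool.Agent.EZ.Specs2

/-!
# The engine for the small roots
-/

set_option autoImplicit false
set_option linter.unusedSectionVars false
set_option linter.unusedVariables false

namespace Pool.Agent.EZ

open Finset

/-! ### transfer -/

/-- transfer from the state `(a', g', lin', top', ab')` to `(a, g, lin, top, ab)`. -/
def Tr (z x a g lin top ab a' g' lin' top' ab' : ℕ) : Prop :=
  (∀ L T : ℝ, Suf z x a' ((g' : ℝ) / 1000000000000) L T → Suf z x a ((g : ℝ) / 1000000000000)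
      (L + ((lin' : ℝ) - lin) / 1000000000000) (T + ((top' : ℝ) - top) / 1000000000000)) ∧
  (∀ A : ℝ, SufA z x a' A → SufA z x a (A + ((ab' : ℝ) - ab) / 1000000000000))

theorem Tr.refl (z x a g lin top ab : ℕ) : Tr z x a g lin top ab a g lin top ab := by
  refine ⟨fun L T h => ?_, fun A h => ?_⟩
  · simpa using h
  · simpa using h

theorem Tr.trans {z x a g lin top ab a' g' lin' top' ab' a2 g2 lin2 top2 ab2 : ℕ}
    (h : Tr z x a g lin top ab a' g' lin' top' ab') (h' : Tr z x a' g' lin' top' ab' a2 g2 lin2 top2 ab2) :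
    Tr z x a g lin top ab a2 g2 lin2 top2 ab2 := by
  refine ⟨fun L T hs => ?_, fun A hs => ?_⟩
  · refine (h.1 _ _ (h'.1 L T hs)).mono (le_of_eq (by ring)) (le_of_eq (by ring))
  · refine (h.2 _ (h'.2 A hs)).mono (le_of_eq (by ring))

theorem TGood.one {l : List PE} {N : ℕ} (h : TGood 0 N l) : TGood 1 N l := by
  refine ⟨fun e he => ⟨(h.1 e he).2.2.1.one_lt, (h.1 e he).2⟩, h.2.1, ?_⟩
  intro v hv h1 h2
  exact h.2.2 v hv (by omega) h2

theorem TGood.zero {l : List PE} {N : ℕ} (h : TGood 1 N l) : TGood 0 N l := by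
  refine ⟨fun e he => ⟨(h.1 e he).2.2.1.pos, (h.1 e he).2⟩, h.2.1, ?_⟩
  intro v hv h1 h2
  exact h.2.2 v hv hv.one_lt h2

theorem capF_sound' (z x a N : ℕ) (l : List PE) (hg : TGood a N l) (hB : Bf a ≤ N) :
    CapB z x a ((capF x z.minFac a l : ℝ) / 1000000000000) := by
  rcases Nat.eq_zero_or_pos a with h | h
  · subst h
    have h1 := capF_sound z x 1 N l hg.one hB le_rfl
    have e : capF x z.minFac 0 l = capF x z.minFac 1 l := by
      rw [capF_eq, capF_eq]; rfl
    rw [e]
    intro VS hVS r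
    exact h1 VS (fun w hw => ⟨(hVS w hw).1, (hVS w hw).1.one_lt, (hVS w hw).2.2⟩) r
  · exact capF_sound z x a N l hg hB h

/-- type of the continuations. -/
abbrev KT := List PE → ℕ → ℕ → ℕ → ℕ → ℕ → ℕ → ℕ → Bool

/-- update of the state. -/
noncomputable def upd (C ex wl wl' wu' b g lin top ab e s : ℕ) (l' : List PE) (k : KT) : Bool :=
  frc (mu C ex) fun lev => frc (mx lev g) fun g' => frc (mu (Nat.sub g' g) e) fun inc =>
  frc (Nat.add lin inc) fun lin' => frc (Nat.add top (mu inc s)) fun top' =>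
  frc (Nat.add ab (mu C (Nat.sub wu' wl))) fun ab' => k l' b wl' wu' g' lin' top' ab'

theorem upd_sound (z x a b : ℕ) (hz : IsPrimePow z) (l' : List PE)
    (C ex wl wl' wu' g lin top ab e s : ℕ) (ω : ℝ) (k : KT) (hab : a < b)
    (hg : TGood b 10000 l') (h1 : Lo (Wt z x a) wl) (h2 : Lo (Wt z x b) wl')
    (h3 : Up (Wt z x b) wu')
    (hC : ∀ v, IsPrimePow v → v.minFac ≠ z.minFac → 0 < Sx x v → a < v → v ≤ b → ∃ κ : ℝ,
      KB z x v κ ∧ κ / Real.log ((z : ℝ) * v) ≤ (C : ℝ) / 1000000000000 ∧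
      Real.exp (Wt z x v - Sx x v / (v : ℝ) / 2) ≤ (ex : ℝ) / 1000000000000)
    (he : Up (Real.exp (-Wt z x a)) e) (hω : Real.exp ω ≤ 2) (hcap : CapB z x a ω)
    (hs : Up (1 - Real.exp (-ω)) s) (h : upd C ex wl wl' wu' b g lin top ab e s l' k = true) :
    ∃ (l2 : List PE) (a2 wl2 wu2 g2 lin2 top2 ab2 : ℕ), a ≤ a2 ∧ TGood a2 10000 l2 ∧
      Lo (Wt z x a2) wl2 ∧ Up (Wt z x a2) wu2 ∧ k l2 a2 wl2 wu2 g2 lin2 top2 ab2 = true ∧
      Tr z x a g lin top ab a2 g2 lin2 top2 ab2 := by
  unfold upd at h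
  simp only [frc_eq] at h
  set lev := mu C ex with hlev
  set g' := mx lev g with hg'
  set inc := mu (Nat.sub g' g) e with hinc
  refine ⟨l', b, wl', wu', g', _, _, _, hab.le, hg, h2, h3, h, ?_, ?_⟩
  · intro L T hSuf
    have hgg : g ≤ g' := le_mx_right _ _
    have hgg' : (g : ℝ) / 1000000000000 ≤ (g' : ℝ) / 1000000000000 := by
      apply div_le_div_of_nonneg_right _ (by norm_num)
      exact_mod_cast hgg
    have hCex : Up ((C : ℝ) / 1000000000000 * ((ex : ℝ) / 1000000000000)) lev :=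
      Up.mul (by positivity) (by positivity) (Up.self C) (Up.self ex)
    have hlevle : (C : ℝ) / 1000000000000 * ((ex : ℝ) / 1000000000000) ≤ (g' : ℝ) / 1000000000000 := by
      refine hCex.le.trans ?_
      apply div_le_div_of_nonneg_right _ (by norm_num)
      exact_mod_cast le_mx_left lev g
    have hLev : LevI z x a b ((g' : ℝ) / 1000000000000) := by
      intro v hv hvz hv0 hav hvb
      obtain ⟨κ, k1, k2, k3⟩ := hC v hv hvz hv0 hav hvb
      refine ⟨κ, k1, ?_⟩
      refine le_trans ?_ hlevle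
      refine le_trans (mul_le_mul_of_nonneg_right k2 (Real.exp_pos _).le) ?_
      exact mul_le_mul_of_nonneg_left k3 (by positivity)
    have hsuf := Suf.cons hab hgg' hLev he.le hω hcap hs.le hSuf
    have hsub : ((Nat.sub g' g : ℕ) : ℝ) = (g' : ℝ) - g := by
      change ((g' - g : ℕ) : ℝ) = _
      rw [Nat.cast_sub hgg]
    have hd : Up (((g' : ℝ) / 1000000000000 - (g : ℝ) / 1000000000000)) (Nat.sub g' g) := by
      unfold Up
      rw [hsub]
      apply le_of_eq
      ring
    have hinc' : Up (((g' : ℝ) / 1000000000000 - (g : ℝ) / 1000000000000)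
        * ((e : ℝ) / 1000000000000)) inc := Up.mul (by linarith) (by positivity) hd (Up.self e)
    have hinc2 : Up (((g' : ℝ) / 1000000000000 - (g : ℝ) / 1000000000000)
        * ((e : ℝ) / 1000000000000) * ((s : ℝ) / 1000000000000)) (mu inc s) :=
      Up.mul (mul_nonneg (by linarith) (by positivity)) (by positivity) hinc' (Up.self s)
    refine hsuf.mono ?_ ?_
    · have e1 : ((Nat.add lin inc : ℕ) : ℝ) = (lin : ℝ) + inc := Nat.cast_add lin inc
      rw [e1]
      have := hinc'.le
      linarith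
    · have e1 : ((Nat.add top (mu inc s) : ℕ) : ℝ) = (top : ℝ) + (mu inc s : ℕ) := Nat.cast_add top _
      rw [e1]
      have := hinc2.le
      linarith
  · intro A hA
    have hnn : 0 ≤ Wt z x b - Wt z x a := by
      have := Wt_mono (z := z) (x := x) hab.le
      linarith
    have h5 := SufA.cons (c := (C : ℝ) / 1000000000000) (d := Wt z x b - Wt z x a) hab
      (by positivity) (fun v hv hvz hv0 hav hvb => ?_) le_rfl hA
    · refine h5.mono ?_
      have hup : Up ((C : ℝ) / 1000000000000 * (Wt z x b - Wt z x a)) (mu C (Nat.sub wu' wl)) :=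
        Up.mul (by positivity) hnn (Up.self C) (h3.sub h1)
      have e1 : ((Nat.add ab (mu C (Nat.sub wu' wl)) : ℕ) : ℝ) = (ab : ℝ) + (mu C (Nat.sub wu' wl) : ℕ) :=
        Nat.cast_add ab _
      rw [e1]
      have := hup.le
      linarith
    · obtain ⟨κ, k1, k2, k3⟩ := hC v hv hvz hv0 hav hvb
      refine k1.mono hz hv ?_
      have h1 : (1 : ℝ) < z := by exact_mod_cast hz.one_lt
      have h2 : (1 : ℝ) < v := by exact_mod_cast hv.one_lt
      have h3 : 0 < Real.log ((z : ℝ) * v) := Real.log_pos (by nlinarith)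
      rwa [div_le_iff₀ h3] at k2

/-! ### the engine -/

/-- admissible far constants (in `1/1000`). -/
def okK (z K lo : ℕ) : Bool :=
  (Nat.beq K 1090 && (Nat.ble 31 lo && Nat.ble z 9)) || ((Nat.beq K 1035 && (Nat.ble 64 lo &&
    Nat.ble z 9)) || (Nat.beq K 1012 && (Nat.ble 121 lo && Nat.ble (Nat.mul z z) lo)))

/-- one block `(b, kap, K)`. -/
noncomputable def sblk (z x rz lz b kap K : ℕ) (ih : KT → KT) (k : KT) : KT :=
  fun l a wl wu g lin top ab =>
  cond (Nat.ble b a) false (cond (Nat.ble b 10000)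
  (frc (capF x rz a l) fun ω => cond (Nat.ble ω 690000000000)
    (frc (sfn ω) fun s => frc (exnN wl) fun e =>
      cond (Nat.beq kap 0)
        (lof rz l fun e0 tl =>
          cond (okK z K e0.1)
            (cond (Nat.ble e0.1 10000)
              (frc (capF x rz e0.1 tl) fun ω1 => cond (Nat.ble ω1 690000000000)
                (frc (Nat.succ (Nat.div (Nat.mul (mu (Nat.mul K 1000000000) (exuN ω1)) 1000000000)
                    (Nat.add lz e0.2.2))) fun C =>
                  scanW x rz b l wl wu fun l' wl' wu' =>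
                    frc (exuN wu') fun ex =>
                      upd C ex wl wl' wu' b g lin top ab e s l' (ih k))
                false) false) false)
        (scan1 x rz b l fun e0 tl =>
          frc (Nat.div (Nat.mul (svB x e0.1 e0.2.1) 1000000000) e0.1) fun t =>
          frc (Nat.add wl t) fun wl' => frc (Nat.add wu (Nat.succ t)) fun wu' =>
          frc (Nat.succ (Nat.div (Nat.mul kap 10000000000000000) (Nat.add lz e0.2.2))) fun C =>
          frc (exuN (Nat.sub wu' (Nat.div t 2))) fun ex =>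
            upd C ex wl wl' wu' b g lin top ab e s tl (ih k)))
    false) false)

/-- the run over the blocks. -/
noncomputable def sgo (z x rz lz : ℕ) (bl : List (ℕ × ℕ × ℕ)) : KT → KT :=
  List.rec (motive := fun _ => KT → KT) (fun k => k)
    (fun t _ ih => sblk z x rz lz t.1 t.2.1 t.2.2 ih) bl

theorem okK_sound {z K lo : ℕ} (h : okK z K lo = true) (hz : IsPrimePow z) (x v : ℕ)
    (hv : IsPrimePow v) (hlo : lo ≤ v) (ω : ℝ) (hω : Real.exp ω ≤ 2) (hc : CapB z x v ω) :
    KB z x v ((K : ℝ) / 1000 * Real.exp ω) := by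
  have hω0 := hc.nonneg
  have hc' : ∀ VS : Finset ℕ,
      (∀ w ∈ VS, IsPrimePow w ∧ v < w ∧ w.minFac ≠ z.minFac ∧ w.minFac ≠ v.minFac) →
      ∀ r, ∑ w ∈ VS.filter (fun w => w.minFac = r), Sx x w / (w : ℝ) ≤ ω :=
    fun VS hVS r => hc VS (fun w hw => ⟨(hVS w hw).1, (hVS w hw).2.1, (hVS w hw).2.2.1⟩) r
  unfold okK at h
  simp only [Bool.or_eq_true, Bool.and_eq_true, Nat.beq_eq, Nat.ble_eq] at h
  rcases h with ⟨h1, h2, h3⟩ | ⟨h1, h2, h3⟩ | ⟨h1, h2, h3⟩
  · have := (FB31_restr z x v ω hz hv h3 hω0 hω hc').1 (by omega)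
    have e : ((1090 : ℕ) : ℝ) / 1000 = 1.09 := by norm_num
    rw [h1, e]
    exact this
  · have := (FB31_restr z x v ω hz hv h3 hω0 hω hc').2 (by omega)
    have e : ((1035 : ℕ) : ℝ) / 1000 = 1.035 := by norm_num
    rw [h1, e]
    exact this
  · have h3' : z * z ≤ lo := h3
    have := FBK_restr z x v ω hz hv (by omega) (by nlinarith) hω0 hω hc'
    have e : ((1012 : ℕ) : ℝ) / 1000 = 1.012 := by norm_num
    rw [h1, e]
    exact this

theorem exp_cap_le {X : ℕ} (h : X ≤ 690000000000) : Real.exp ((X : ℝ) / 1000000000000) ≤ 2 := by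
  have h1 : (X : ℝ) ≤ 690000000000 := by exact_mod_cast h
  have h2 : (X : ℝ) / 1000000000000 ≤ Real.log 2 := by
    have := Real.log_two_gt_d9
    rw [div_le_iff₀ (by norm_num)]
    linarith
  calc Real.exp ((X : ℝ) / 1000000000000) ≤ Real.exp (Real.log 2) := Real.exp_le_exp.2 h2
    _ = 2 := Real.exp_log (by norm_num)

theorem log_lo {z v lz L : ℕ} (hz : 1 < z) (hv : 1 < v) (hlz : (lz : ℝ) ≤ 1000000000 * Real.log z)
    (hL : (L : ℝ) ≤ 1000000000 * Real.log v) :
    ((Nat.add lz L : ℕ) : ℝ) ≤ 1000000000 * Real.log ((z : ℝ) * v) := by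
  have e1 : ((Nat.add lz L : ℕ) : ℝ) = (lz : ℝ) + L := Nat.cast_add lz L
  have hz0 : (z : ℝ) ≠ 0 := by positivity
  have hv0 : (v : ℝ) ≠ 0 := by positivity
  rw [e1, Real.log_mul hz0 hv0]
  linarith

theorem sgo_sound (z x lz : ℕ) (hz : IsPrimePow z) (hlz0 : 0 < lz)
    (hlz : (lz : ℝ) ≤ 1000000000 * Real.log z) :
    ∀ (bl : List (ℕ × ℕ × ℕ)) (k : KT) (l : List PE) (a wl wu g lin top ab : ℕ),
    TGood a 10000 l → Lo (Wt z x a) wl → Up (Wt z x a) wu →
    (∀ t ∈ bl, t.2.1 ≠ 0 → KB z x t.1 ((t.2.1 : ℝ) / 100000)) →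
    sgo z x z.minFac lz bl k l a wl wu g lin top ab = true →
    ∃ (l2 : List PE) (a2 wl2 wu2 g2 lin2 top2 ab2 : ℕ), a ≤ a2 ∧ TGood a2 10000 l2 ∧
      Lo (Wt z x a2) wl2 ∧ Up (Wt z x a2) wu2 ∧ k l2 a2 wl2 wu2 g2 lin2 top2 ab2 = true ∧
      Tr z x a g lin top ab a2 g2 lin2 top2 ab2 := by
  intro bl
  induction bl with
  | nil =>
    intro k l a wl wu g lin top ab hg h1 h2 _ h
    exact ⟨l, a, wl, wu, g, lin, top, ab, le_rfl, hg, h1, h2, h, Tr.refl _ _ _ _ _ _ _⟩
  | cons t bl ih =>
    intro k l a wl wu g lin top ab hg h1 h2 hkb h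
    obtain ⟨b, kap, K⟩ := t
    have hkb' := fun t ht => hkb t (List.mem_cons_of_mem _ ht)
    have h0 : sblk z x z.minFac lz b kap K (sgo z x z.minFac lz bl) k l a wl wu g lin top ab = true := h
    unfold sblk at h0
    simp only [frc_eq, ble_cond, beq_cond] at h0
    by_cases c1 : b ≤ a
    · rw [if_pos c1] at h0; simp at h0
    rw [if_neg c1] at h0
    by_cases c2 : b ≤ 10000
    swap
    · rw [if_neg c2] at h0; simp at h0
    rw [if_pos c2] at h0
    by_cases c3 : capF x z.minFac a l ≤ 690000000000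
    swap
    · rw [if_neg c3] at h0; simp at h0
    rw [if_pos c3] at h0
    have hBf : Bf a ≤ 10000 := by
      unfold Bf mx
      rw [ble_cond]
      split_ifs <;> omega
    have hcap := capF_sound' z x a 10000 l hg hBf
    have hω := exp_cap_le c3
    have hs := sfn_up (Up.self (capF x z.minFac a l))
    have he := exnN_up h1
    -- finish from `upd`
    have fin : ∀ (C ex wl' wu' : ℕ) (l' : List PE), TGood b 10000 l' → Lo (Wt z x b) wl' →
        Up (Wt z x b) wu' →
        (∀ v, IsPrimePow v → v.minFac ≠ z.minFac → 0 < Sx x v → a < v → v ≤ b → ∃ κ : ℝ,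
          KB z x v κ ∧ κ / Real.log ((z : ℝ) * v) ≤ (C : ℝ) / 1000000000000 ∧
          Real.exp (Wt z x v - Sx x v / (v : ℝ) / 2) ≤ (ex : ℝ) / 1000000000000) →
        upd C ex wl wl' wu' b g lin top ab (exnN wl) (sfn (capF x z.minFac a l)) l'
          (sgo z x z.minFac lz bl k) = true →
        ∃ (l2 : List PE) (a2 wl2 wu2 g2 lin2 top2 ab2 : ℕ), a ≤ a2 ∧ TGood a2 10000 l2 ∧
          Lo (Wt z x a2) wl2 ∧ Up (Wt z x a2) wu2 ∧ k l2 a2 wl2 wu2 g2 lin2 top2 ab2 = true ∧
          Tr z x a g lin top ab a2 g2 lin2 top2 ab2 := by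
      intro C ex wl' wu' l' d1 d2 d3 d4 d5
      obtain ⟨l2, a2, wl2, wu2, g2, lin2, top2, ab2, f1, f2, f3, f4, f5, f6⟩ :=
        upd_sound z x a b hz l' C ex wl wl' wu' g lin top ab _ _ _ _ (by omega) d1 h1 d2 d3 d4 he hω
          hcap hs d5
      obtain ⟨l3, a3, wl3, wu3, g3, lin3, top3, ab3, q1, q2, q3, q4, q5, q6⟩ :=
        ih k l2 a2 wl2 wu2 g2 lin2 top2 ab2 f2 f3 f4 hkb' f5
      exact ⟨l3, a3, wl3, wu3, g3, lin3, top3, ab3, by omega, q2, q3, q4, q5, f6.trans q6⟩
    by_cases c4 : kap = 0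
    · rw [if_pos c4] at h0
      obtain ⟨e0, tl, o1, o2, o3, o4, o5⟩ := lof_sound z 10000 l a _ hg h0
      by_cases c5 : okK z K e0.1 = true
      swap
      · rw [Bool.not_eq_true] at c5
        rw [c5] at o5; simp at o5
      rw [c5, cond_true] at o5
      by_cases c6 : e0.1 ≤ 10000
      swap
      · rw [if_neg c6] at o5; simp at o5
      rw [if_pos c6] at o5
      by_cases c7 : capF x z.minFac e0.1 tl ≤ 690000000000
      swap
      · rw [if_neg c7] at o5; simp at o5
      rw [if_pos c7] at o5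
      obtain ⟨l', wl', wu', s1, s2, s3, s4⟩ :=
        scanW_sound z x b 10000 c2 l a wl wu _ hg (by omega) h1 h2 o5
      refine fin _ _ wl' wu' l' s1 s2 s3 ?_ s4
      intro v hv hvz hv0 hav hvb
      have hBf2 : Bf e0.1 ≤ 10000 := by
        unfold Bf mx
        rw [ble_cond]
        split_ifs <;> omega
      have hlo := o4 v hv hvz hav
      have hcap2 : CapB z x v ((capF x z.minFac e0.1 tl : ℝ) / 1000000000000) :=
        (capF_sound' z x e0.1 10000 tl o2 hBf2).mono hlo le_rfl
      have hKB := okK_sound c5 hz x v hv hlo _ (exp_cap_le c7) hcap2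
      refine ⟨_, hKB, ?_, ?_⟩
      · have hup : Up ((K : ℝ) / 1000 * Real.exp ((capF x z.minFac e0.1 tl : ℝ) / 1000000000000))
            (mu (Nat.mul K 1000000000) (exuN (capF x z.minFac e0.1 tl))) := by
          apply Up.mul (by positivity) (Real.exp_pos _).le
          · unfold Up
            apply le_of_eq
            change _ = ((K * 1000000000 : ℕ) : ℝ)
            push_cast; ring
          · exact exuN_up (by positivity) (Up.self _)
        have hL0 : 0 < Nat.add lz e0.2.2 := by change 0 < lz + e0.2.2; omega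
        have hlogz : ((Nat.add lz e0.2.2 : ℕ) : ℝ) ≤ 1000000000 * Real.log ((z : ℝ) * v) := by
          apply log_lo hz.one_lt hv.one_lt hlz
          refine o1.2.2.1.trans ?_
          apply mul_le_mul_of_nonneg_left _ (by norm_num)
          apply Real.log_le_log
          · exact_mod_cast o1.1.pos
          · exact_mod_cast hlo
        have hL0' : (0 : ℝ) < ((Nat.add lz e0.2.2 : ℕ) : ℝ) := by exact_mod_cast hL0
        have h3 : 0 < Real.log ((z : ℝ) * v) := by linarith
        have h5 := cast_div_ge (Nat.mul (mu (Nat.mul K 1000000000) (exuN (capF x z.minFac e0.1 tl)))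
          1000000000) (Nat.add lz e0.2.2) hL0
        rw [div_le_div_iff₀ h3 (by norm_num)]
        have e6 : ((Nat.mul (mu (Nat.mul K 1000000000) (exuN (capF x z.minFac e0.1 tl))) 1000000000
            : ℕ) : ℝ) = (mu (Nat.mul K 1000000000) (exuN (capF x z.minFac e0.1 tl)) : ℕ)
              * (1000000000 : ℝ) := by
          refine (Nat.cast_mul _ _).trans ?_
          norm_num
        rw [e6, div_le_iff₀ hL0'] at h5
        unfold Up at hup
        set CC : ℝ := ((Nat.succ (Nat.div (Nat.mul (mu (Nat.mul K 1000000000)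
          (exuN (capF x z.minFac e0.1 tl))) 1000000000) (Nat.add lz e0.2.2)) : ℕ) : ℝ) with hCC
        have hCC0 : 0 ≤ CC := by rw [hCC]; positivity
        have h7 : CC * ((Nat.add lz e0.2.2 : ℕ) : ℝ) ≤ CC * (1000000000 * Real.log ((z : ℝ) * v)) :=
          mul_le_mul_of_nonneg_left hlogz hCC0
        nlinarith
      · refine le_trans (Real.exp_le_exp.2 ?_) (exuN_up (x := Wt z x b) ?_ s3).le
        · have := Wt_mono (z := z) (x := x) hvb
          have := Sx_div_nonneg x v
          linarith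
        · have := Wt_mono (z := z) (x := x) (Nat.zero_le b)
          rw [Wt_zero] at this
          exact this
    · rw [if_neg c4] at h0
      obtain ⟨e0, tl, o1, o2, o3, o4, o5, o6, o7, o8⟩ := scan1_sound z x b 10000 l a _ hg h0
      obtain ⟨t1, t2⟩ := term_bounds (x := x) o2.2.1 o2.1.pos
      rw [o1] at t1 t2
      have hb1 : Lo (Wt z x b) (Nat.add wl (Nat.div (Nat.mul (svB x b e0.2.1) 1000000000) b)) := by
        rw [o7]; exact h1.add t1
      have hb2 : Up (Wt z x b) (Nat.add wu (Nat.succ (Nat.div (Nat.mul (svB x b e0.2.1) 1000000000) b))) := by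
        rw [o7]; exact h2.add t2
      rw [o1] at o8
      refine fin _ _ _ _ tl o4 hb1 hb2 ?_ o8
      intro v hv hvz hv0 hav hvb
      have hvb' : v = b := le_antisymm hvb (o6 v hv hvz hv0 hav)
      subst hvb'
      have hKB := hkb (v, kap, K) (by simp) c4
      simp only at hKB
      refine ⟨_, hKB, ?_, ?_⟩
      · have hL0 : 0 < Nat.add lz e0.2.2 := by change 0 < lz + e0.2.2; omega
        have hlogz : ((Nat.add lz e0.2.2 : ℕ) : ℝ) ≤ 1000000000 * Real.log ((z : ℝ) * v) := by
          apply log_lo hz.one_lt hv.one_lt hlz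
          have := o2.2.2.1
          rwa [o1] at this
        have hL0' : (0 : ℝ) < ((Nat.add lz e0.2.2 : ℕ) : ℝ) := by exact_mod_cast hL0
        have h3 : 0 < Real.log ((z : ℝ) * v) := by linarith
        have h5 := cast_div_ge (Nat.mul kap 10000000000000000) (Nat.add lz e0.2.2) hL0
        rw [div_le_div_iff₀ h3 (by norm_num)]
        have e6 : ((Nat.mul kap 10000000000000000 : ℕ) : ℝ) = (kap : ℝ) * 10000000000000000 := by
          refine (Nat.cast_mul _ _).trans ?_
          norm_num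
        rw [e6, div_le_iff₀ hL0'] at h5
        set CC : ℝ := ((Nat.succ (Nat.div (Nat.mul kap 10000000000000000) (Nat.add lz e0.2.2)) : ℕ) : ℝ)
          with hCC
        have hCC0 : 0 ≤ CC := by rw [hCC]; positivity
        have h7 : CC * ((Nat.add lz e0.2.2 : ℕ) : ℝ) ≤ CC * (1000000000 * Real.log ((z : ℝ) * v)) :=
          mul_le_mul_of_nonneg_left hlogz hCC0
        nlinarith
      · set t := Nat.div (Nat.mul (svB x v e0.2.1) 1000000000) v with ht
        have hlo2 : Lo (Sx x v / (v : ℝ) / 2) (Nat.div t 2) := by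
          have := Lo.div 2 t1
          push_cast at this
          exact this
        have hup2 := hb2.sub hlo2
        refine (exuN_up ?_ hup2).le
        have h5 := Wt_mono (z := z) (x := x) (Nat.zero_le a)
        rw [Wt_zero] at h5
        have := Sx_div_nonneg x v
        rw [o7]
        linarith

end Pool.Agent.EZ
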