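import Pool.Agent.EZ.SEng
import Pool.Agent.EZ.HU

/-!
# The last block of the small engine and the main theorem for the small roots
-/

set_option autoImplicit false
set_option linter.unusedSectionVars false
set_option linter.unusedVariables false

namespace Pool.Agent.EZ

open Finset

theorem log_ten_thousand : (9.210339 : ℝ) ≤ Real.log 10000 ∧ Real.log 10000 ≤ 9.2104 := by
  have h2 := Real.log_two_gt_d9
  have h2' := Real.log_two_lt_d9
  obtain ⟨g1, -, -⟩ := PT_good
  have h5 : EOK (5, 5, 1609437788) := (g1 _ (by decide +kernel)).2.2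
  have a1 := h5.2.2.1
  have a2 := h5.2.2.2
  simp only at a1 a2
  push_cast at a1 a2
  have e : Real.log 10000 = 4 * (Real.log 2 + Real.log 5) := by
    rw [← Real.log_mul (by norm_num) (by norm_num)]
    have : (10000 : ℝ) = (2 * 5) ^ 4 := by norm_num
    rw [this, Real.log_pow]
    push_cast
    ring
  rw [e]
  constructor <;> linarith

theorem log1p_le {y : ℝ} (hy : 0 ≤ y) : Real.log (1 + y) ≤ y - y ^ 2 / 2 + y ^ 3 / 3 := by
  have hd : ∀ t : ℝ, -1 < t → HasDerivAt (fun t : ℝ => t - t ^ 2 / 2 + t ^ 3 / 3 - Real.log (1 + t))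
      (t ^ 3 / (1 + t)) t := by
    intro t ht
    have h1 : HasDerivAt (fun t : ℝ => 1 + t) 1 t := (hasDerivAt_id t).const_add 1
    have h2 := h1.log (by linarith)
    have h3 := (((hasDerivAt_id t).sub ((hasDerivAt_pow 2 t).div_const 2)).add
      ((hasDerivAt_pow 3 t).div_const 3)).sub h2
    refine h3.congr_deriv ?_
    have : 1 + t ≠ 0 := by linarith
    field_simp
    push_cast
    ring
  have hmono : MonotoneOn (fun t : ℝ => t - t ^ 2 / 2 + t ^ 3 / 3 - Real.log (1 + t))
      (Set.Ici 0) := by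
    apply monotoneOn_of_deriv_nonneg (convex_Ici 0)
    · intro t ht
      exact (hd t (by have := Set.mem_Ici.1 ht; linarith)).continuousAt.continuousWithinAt
    · intro t ht
      rw [interior_Ici] at ht
      exact (hd t (by have := Set.mem_Ioi.1 ht; linarith)).differentiableAt.differentiableWithinAt
    · intro t ht
      rw [interior_Ici] at ht
      have ht0 := Set.mem_Ioi.1 ht
      rw [(hd t (by linarith)).deriv]
      positivity
  have := hmono (Set.mem_Ici.2 le_rfl) (Set.mem_Ici.2 hy) hy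
  simp only at this
  norm_num at this
  linarith

theorem Wt_le_Hpp (z x a b : ℕ) (hab : a ≤ b) : Wt z x b - Wt z x a ≤ Hpp b - Hpp a := by
  rw [Wt_split z x a b hab]
  have h : Hpp b = Hpp a + ∑ w ∈ (ppK b).filter (fun w => a < w), 1 / (w : ℝ) := by
    unfold Hpp
    rw [add_comm, ← Finset.sum_filter_add_sum_filter_not (ppK b) (fun w => a < w)]
    congr 1
    apply Finset.sum_congr _ (fun _ _ => rfl)
    ext w
    simp only [Finset.mem_filter, mem_ppK]
    constructor
    · rintro ⟨⟨h1, h2⟩, h3⟩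
      exact ⟨h1, by omega⟩
    · rintro ⟨h1, h2⟩
      exact ⟨⟨h1, by omega⟩, by omega⟩
  rw [h]
  have h2 : ∑ w ∈ (ppK b).filter (fun w => w.minFac ≠ z.minFac ∧ a < w), Sx x w / (w : ℝ)
      ≤ ∑ w ∈ (ppK b).filter (fun w => a < w), 1 / (w : ℝ) := by
    refine le_trans (Finset.sum_le_sum (g := fun w : ℕ => 1 / (w : ℝ)) fun w _ => ?_) ?_
    · exact div_le_div_of_nonneg_right (Sx_le_one x w) (Nat.cast_nonneg w)
    · apply Finset.sum_le_sum_of_subset_of_nonneg
      · intro w hw
        simp only [Finset.mem_filter] at hw ⊢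
        exact ⟨hw.1, hw.2.2⟩
      · intro w _ _
        positivity
  linarith

/-- the level of the last block. -/
noncomputable def slev (Kc wu : ℕ) : ℕ :=
  Nat.succ (Nat.div (Nat.mul (mu Kc (exuN (Nat.add wu 48000000000))) 1000000) 9210339)

theorem slev_sound (z x v : ℕ) (hz : IsPrimePow z) (hv : IsPrimePow v) (hv4 : 10000 < v)
    (Kc wu : ℕ) (κ : ℝ) (hκ0 : 0 ≤ κ) (hκ : Up κ Kc) (hKB : KB z x v κ) (hwu : Up (Wt z x 10000) wu) :
    LevB z x v ((slev Kc wu : ℝ) / 1000000000000) := by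
  refine ⟨κ, hKB, ?_⟩
  have h1 : (1 : ℝ) < z := by exact_mod_cast hz.one_lt
  have h2 : (10000 : ℝ) < v := by exact_mod_cast hv4
  have hlz : 0 < Real.log (z : ℝ) := Real.log_pos h1
  have hlv : 0 < Real.log (v : ℝ) := Real.log_pos (by linarith)
  have hl4 : 0 < Real.log (10000 : ℝ) := Real.log_pos (by norm_num)
  have hlzv : Real.log ((z : ℝ) * v) = Real.log z + Real.log v :=
    Real.log_mul (by positivity) (by positivity)
  have hHU := (HU_proof v hv4.le).1
  have hW := Wt_le_Hpp z x 10000 v hv4.le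
  have hW0 : 0 ≤ Wt z x 10000 := by
    have := Wt_mono (z := z) (x := x) (Nat.zero_le 10000)
    rw [Wt_zero] at this
    exact this
  have hS := Sx_div_nonneg x v
  have h3 : Real.exp (Wt z x v - Sx x v / (v : ℝ) / 2) ≤
      Real.exp (Wt z x 10000 + 0.048) * (Real.log v / Real.log 10000) := by
    rw [← Real.exp_log (show 0 < Real.log (v : ℝ) / Real.log 10000 by positivity), ← Real.exp_add]
    apply Real.exp_le_exp.2

    linarith
  have h4 : κ / Real.log ((z : ℝ) * v) ≤ κ / Real.log v := by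
    apply div_le_div_of_nonneg_left hκ0 hlv
    rw [hlzv]; linarith
  have h5 : κ / Real.log ((z : ℝ) * v) * Real.exp (Wt z x v - Sx x v / (v : ℝ) / 2) ≤
      κ / Real.log v * (Real.exp (Wt z x 10000 + 0.048) * (Real.log v / Real.log 10000)) :=
    mul_le_mul h4 h3 (Real.exp_pos _).le (by positivity)
  have h6 : κ / Real.log v * (Real.exp (Wt z x 10000 + 0.048) * (Real.log v / Real.log 10000))
      = κ * Real.exp (Wt z x 10000 + 0.048) / Real.log 10000 := by
    field_simp
  rw [h6] at h5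
  refine h5.trans ?_
  have hup : Up (κ * Real.exp (Wt z x 10000 + 0.048)) (mu Kc (exuN (Nat.add wu 48000000000))) := by
    apply Up.mul hκ0 (Real.exp_pos _).le hκ
    apply exuN_up (by linarith)
    apply Up.add hwu
    unfold Up
    norm_num
  have h7 := cast_div_ge (Nat.mul (mu Kc (exuN (Nat.add wu 48000000000))) 1000000) 9210339
    (by norm_num)
  have e7 : ((Nat.mul (mu Kc (exuN (Nat.add wu 48000000000))) 1000000 : ℕ) : ℝ)
      = ((mu Kc (exuN (Nat.add wu 48000000000)) : ℕ) : ℝ) * 1000000 := by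
    refine (Nat.cast_mul _ _).trans ?_
    norm_num
  rw [e7] at h7
  have hl := log_ten_thousand.1
  unfold Up at hup
  set P := κ * Real.exp (Wt z x 10000 + 0.048) with hP
  have hP0 : 0 ≤ P := by rw [hP]; positivity
  set Q : ℝ := ((mu Kc (exuN (Nat.add wu 48000000000)) : ℕ) : ℝ) with hQ
  have h8 : P / Real.log 10000 ≤ P / 9.210339 :=
    div_le_div_of_nonneg_left hP0 (by norm_num) hl
  refine h8.trans ?_
  have h9 : (slev Kc wu : ℝ) = ((Nat.succ (Nat.div (Nat.mul (mu Kc (exuN (Nat.add wu 48000000000)))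
    1000000) 9210339) : ℕ) : ℝ) := rfl
  rw [h9, le_div_iff₀ (by norm_num)]
  refine le_trans ?_ h7
  push_cast
  rw [div_mul_eq_mul_div, div_le_div_iff₀ (by norm_num) (by norm_num)]
  linarith

/-- the last block and the comparison with the targets. -/
noncomputable def sfin (z x rz lz lp F tL tT tA gz : ℕ) : KT := fun l a wl wu g lin top ab =>
  cond (Nat.beq a 10000)
   (frc (capF x rz 10000 l) fun ω => cond (Nat.ble ω 690000000000)
    (frc (sfn ω) fun s => frc (exnN wl) fun e => frc (mu 1012000000000 (exuN ω)) fun Kc =>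
     frc (slev Kc wu) fun lev =>
     frc (mx lev g) fun g' => frc (mu (Nat.sub g' g) e) fun inc =>
     frc (Nat.add lin inc) fun lin' => frc (Nat.add top (mu inc s)) fun top' =>
     frc (Nat.add ab (mu Kc F)) fun ab' =>
     (Nat.ble (Nat.mul (Nat.add lz 200) lin') (Nat.mul tL 100000000000000000) &&
      (Nat.ble (Nat.mul (Nat.add lz 200) ab') (Nat.mul tA 100000000000000000) &&
       Nat.ble (Nat.mul top' (Nat.add lp 200)) (Nat.mul (Nat.mul (Nat.mul z tT) gz) 100000))))
    false) false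

/-- main theorem of the small engine. -/
theorem small_run (p e x lz lp F tL tT tA gz : ℕ) (bl : List (ℕ × ℕ × ℕ)) (hp : p.Prime)
    (he : e ≠ 0) (hz9 : p ^ e ≤ 9)
    (hlz0 : 0 < lz) (hlz : (lz : ℝ) ≤ 1000000000 * Real.log ((p ^ e : ℕ) : ℝ))
    (hlz' : 1000000000 * Real.log ((p ^ e : ℕ) : ℝ) ≤ (lz : ℝ) + 200)
    (hlp : 1000000000 * Real.log (p : ℝ) ≤ (lp : ℝ) + 200)
    (hF : (1 / 9.210339 : ℝ) * (1 - (lz : ℝ) / 1000000000 / 9.2104 / 2
      + (((lz : ℝ) + 200) / 1000000000 / 9.210339) ^ 2 / 3)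
      + 0.4443 / (9.210339 * (9.210339 + (lz : ℝ) / 1000000000)) ≤ (F : ℝ) / 1000000000000)
    (hgz : (gz : ℝ) / 1000000000000 ≤ LT.Gz p e)
    (hkb : ∀ t ∈ bl, t.2.1 ≠ 0 → KB (p ^ e) x t.1 ((t.2.1 : ℝ) / 100000))
    (hrun : sgo (p ^ e) x p lz bl (sfin (p ^ e) x p lz lp F tL tT tA gz) PT 0 0 0 0 0 0 0 = true) :
    SmallOK p e x ((tL : ℝ) / 10000) ((tT : ℝ) / 10000) ((tA : ℝ) / 10000) := by
  set z := p ^ e with hz
  have hzpp : IsPrimePow z := hp.isPrimePow.pow he
  have hzmf : z.minFac = p := hp.pow_minFac he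
  have hrun' : sgo z x z.minFac lz bl (sfin z x z.minFac lz lp F tL tT tA gz) PT 0 0 0 0 0 0 0 = true := by
    rw [hzmf]; exact hrun
  obtain ⟨l, a, wl, wu, g, lin, top, ab, -, g1, g2, g3, g4, g5⟩ :=
    sgo_sound z x lz hzpp hlz0 hlz bl _ PT 0 0 0 0 0 0 0 PT_good.zero
      (by rw [Wt_zero]; unfold Lo; norm_num) (by rw [Wt_zero]; unfold Up; norm_num) hkb hrun'
  unfold sfin at g4
  simp only [frc_eq, ble_cond, beq_cond] at g4
  by_cases c1 : a = 10000
  swap
  · rw [if_neg c1] at g4; simp at g4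
  rw [if_pos c1] at g4
  subst c1
  by_cases c2 : capF x z.minFac 10000 l ≤ 690000000000
  swap
  · rw [if_neg c2] at g4; simp at g4
  rw [if_pos c2] at g4
  set ω := capF x z.minFac 10000 l with hω
  set s := sfn ω with hs
  set ee := exnN wl with hee
  set Kc := mu 1012000000000 (exuN ω) with hKc
  set lev := slev Kc wu with hlev
  set g' := mx lev g with hg'
  set inc := mu (Nat.sub g' g) ee with hinc
  set lin' := Nat.add lin inc with hlin'
  set top' := Nat.add top (mu inc s) with htop'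
  set ab' := Nat.add ab (mu Kc F) with hab'
  simp only [Bool.and_eq_true, Nat.ble_eq] at g4
  obtain ⟨q1, q2, q3⟩ := g4
  have hz1 : (1 : ℝ) < z := by exact_mod_cast hzpp.one_lt
  have hlogz : 0 < Real.log (z : ℝ) := Real.log_pos hz1
  have hcap : CapB z x 10000 ((ω : ℝ) / 1000000000000) :=
    capF_sound' z x 10000 10000 l g1 (by decide)
  have hω2 := exp_cap_le c2
  have hKB : ∀ v, IsPrimePow v → v.minFac ≠ z.minFac → 0 < Sx x v → 10000 < v →
      KB z x v (1.012 * Real.exp ((ω : ℝ) / 1000000000000)) := by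
    intro v hv hvz hv0 hv4
    have hc := hcap.mono hv4.le le_rfl
    exact FBK_restr z x v _ hzpp hv (by omega) (by nlinarith) hc.nonneg hω2
      (fun VS hVS r => hc VS (fun w hw => ⟨(hVS w hw).1, (hVS w hw).2.1, (hVS w hw).2.2.1⟩) r)
  have hKcUp : Up (1.012 * Real.exp ((ω : ℝ) / 1000000000000)) Kc :=
    Up.mul (by norm_num) (Real.exp_pos _).le (by unfold Up; norm_num)
      (exuN_up (by positivity) (Up.self ω))
  have hκ0 : 0 ≤ 1.012 * Real.exp ((ω : ℝ) / 1000000000000) := by positivity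
  have hgg : g ≤ g' := le_mx_right _ _
  have hgg' : (g : ℝ) / 1000000000000 ≤ (g' : ℝ) / 1000000000000 := by
    apply div_le_div_of_nonneg_right _ (by norm_num)
    exact_mod_cast hgg
  have hlevg : (lev : ℝ) / 1000000000000 ≤ (g' : ℝ) / 1000000000000 := by
    apply div_le_div_of_nonneg_right _ (by norm_num)
    exact_mod_cast le_mx_left lev g
  have heUp := exnN_up g2
  have hsUp := sfn_up (Up.self ω)
  have hlast := Suf.last (z := z) (x := x) (a := 10000) hgg'
    (fun v hv hvz hv0 hv4 => (slev_sound z x v hzpp hv hv4 Kc wu _ hκ0 hKcUp (hKB v hv hvz hv0 hv4)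
      g3).mono hlevg) heUp.le hω2 hcap hsUp.le
  have hsub : ((Nat.sub g' g : ℕ) : ℝ) = (g' : ℝ) - g := by
    change ((g' - g : ℕ) : ℝ) = _
    rw [Nat.cast_sub hgg]
  have hd : Up (((g' : ℝ) / 1000000000000 - (g : ℝ) / 1000000000000)) (Nat.sub g' g) := by
    unfold Up
    rw [hsub]
    apply le_of_eq
    ring
  have hinc' : Up (((g' : ℝ) / 1000000000000 - (g : ℝ) / 1000000000000)
      * ((ee : ℝ) / 1000000000000)) inc := Up.mul (by linarith) (by positivity) hd (Up.self ee)
  have hinc2 : Up (((g' : ℝ) / 1000000000000 - (g : ℝ) / 1000000000000)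
      * ((ee : ℝ) / 1000000000000) * ((s : ℝ) / 1000000000000)) (mu inc s) :=
    Up.mul (mul_nonneg (by linarith) (by positivity)) (by positivity) hinc' (Up.self s)
  have hlast' := hlast.mono hinc'.le hinc2.le
  have h0 := g5.1 _ _ hlast'
  have e1 : (lin' : ℝ) = (lin : ℝ) + inc := Nat.cast_add lin inc
  have e2 : (top' : ℝ) = (top : ℝ) + (mu inc s : ℕ) := Nat.cast_add top _
  have e3 : (ab' : ℝ) = (ab : ℝ) + (mu Kc F : ℕ) := Nat.cast_add ab _
  have hz0 : Suf z x 0 0 ((lin' : ℝ) / 1000000000000) ((top' : ℝ) / 1000000000000) := by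
    have h1 := h0.mono (L' := (lin' : ℝ) / 1000000000000) (T' := (top' : ℝ) / 1000000000000)
      (le_of_eq (by rw [e1]; push_cast; ring)) (le_of_eq (by rw [e2]; push_cast; ring))
    simpa using h1
  obtain ⟨hLIN, hTOP⟩ := hz0.final hzpp
  -- absolute
  have hFS : ∀ N, ∑ v ∈ (ppK N).filter (fun v => 10000 < v),
      1 / ((v : ℝ) * Real.log ((z : ℝ) * v)) ≤ (F : ℝ) / 1000000000000 := by
    intro N
    refine (FS_proof z 10000 N hzpp.two_le (le_refl _)).trans (le_trans ?_ hF)
    obtain ⟨t1, t2⟩ := log_ten_thousand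
    push_cast
    have hlz1 : (lz : ℝ) / 1000000000 ≤ Real.log (z : ℝ) := by
      rw [div_le_iff₀ (by norm_num)]; linarith
    have hlz2 : Real.log (z : ℝ) ≤ ((lz : ℝ) + 200) / 1000000000 := by
      rw [le_div_iff₀ (by norm_num)]; linarith
    have hlz3 : (0 : ℝ) < (lz : ℝ) / 1000000000 := by
      have : (0 : ℝ) < lz := by exact_mod_cast hlz0
      positivity
    have hX : 0 < Real.log (10000 : ℝ) := by linarith
    set LX := Real.log (10000 : ℝ) with hLX
    set Z := Real.log (z : ℝ) with hZ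
    have hy : 0 < Z / LX := by positivity
    have hlog1 : Real.log (1 + Z / LX) ≤ Z / LX - (Z / LX) ^ 2 / 2 + (Z / LX) ^ 3 / 3 := by
      exact log1p_le hy.le
    have hb : 1 / Z * Real.log (1 + Z / LX) ≤ 1 / LX * (1 - Z / LX / 2 + (Z / LX) ^ 2 / 3) := by
      have h4 : 1 / Z * Real.log (1 + Z / LX) ≤
          1 / Z * (Z / LX - (Z / LX) ^ 2 / 2 + (Z / LX) ^ 3 / 3) :=
        mul_le_mul_of_nonneg_left hlog1 (by positivity)
      refine h4.trans (le_of_eq ?_)
      field_simp
    have hb2 : Z / LX ≤ ((lz : ℝ) + 200) / 1000000000 / 9.210339 := by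
      apply div_le_div₀ (by positivity) hlz2 (by norm_num) t1
    have hb3 : (lz : ℝ) / 1000000000 / 9.2104 ≤ Z / LX := by
      apply div_le_div₀ hlogz.le hlz1 hX t2
    have hb4 : (Z / LX) ^ 2 ≤ (((lz : ℝ) + 200) / 1000000000 / 9.210339) ^ 2 :=
      pow_le_pow_left₀ hy.le hb2 2
    have hb5 : 1 / LX ≤ 1 / 9.210339 := by
      apply div_le_div_of_nonneg_left (by norm_num) (by norm_num) t1
    have hb6 : 0 ≤ 1 - Z / LX / 2 + (Z / LX) ^ 2 / 3 := by nlinarith [sq_nonneg (Z / LX - 1)]
    have hb7 : 1 / LX * (1 - Z / LX / 2 + (Z / LX) ^ 2 / 3) ≤ 1 / 9.210339 *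
        (1 - (lz : ℝ) / 1000000000 / 9.2104 / 2
          + (((lz : ℝ) + 200) / 1000000000 / 9.210339) ^ 2 / 3) := by
      apply mul_le_mul hb5 _ hb6 (by norm_num)
      linarith
    have hb8 : 0.4443 / (LX * Real.log ((z : ℝ) * 10000)) ≤
        0.4443 / (9.210339 * (9.210339 + (lz : ℝ) / 1000000000)) := by
      rw [Real.log_mul (by positivity) (by norm_num)]
      apply div_le_div_of_nonneg_left (by norm_num) (by positivity)
      apply mul_le_mul t1 _ (by positivity) hX.le
      linarith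
    linarith
  have hA := SufA.last (z := z) (x := x) (a := 10000) hκ0
    (fun v hv hvz hv0 hv4 => hKB v hv hvz hv0 hv4) hzpp.two_le hFS
  have hA' : SufA z x 10000 ((mu Kc F : ℕ) / 1000000000000) := by
    apply hA.mono
    exact (Up.mul hκ0 (by positivity) hKcUp (Up.self F)).le
  have hA0 := g5.2 _ hA'
  have hA1 : SufA z x 0 ((ab' : ℝ) / 1000000000000) :=
    hA0.mono (le_of_eq (by rw [e3]; push_cast; ring))
  have hABS := hA1.final hzpp
  have hhz0 : 0 ≤ hh (z : ℝ) := by unfold hh; positivity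
  have hlzU : Real.log (z : ℝ) ≤ ((lz : ℝ) + 200) / 1000000000 := by
    rw [le_div_iff₀ (by norm_num)]; linarith
  refine ⟨?_, ?_, ?_⟩
  · intro M hM VS hVS hMV
    refine (hLIN M hM VS hVS hMV).trans ?_
    apply mul_le_mul_of_nonneg_right _ (hit_nonneg x VS hVS M)
    apply mul_le_mul_of_nonneg_right _ hhz0
    have q1' : (((lz + 200) * lin' : ℕ) : ℝ) ≤ ((tL * 100000000000000000 : ℕ) : ℝ) := by
      exact_mod_cast q1
    push_cast at q1'
    calc Real.log (z : ℝ) * ((lin' : ℝ) / 1000000000000)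
        ≤ (((lz : ℝ) + 200) / 1000000000) * ((lin' : ℝ) / 1000000000000) :=
          mul_le_mul_of_nonneg_right hlzU (by positivity)
      _ = (((lz : ℝ) + 200) * lin') / 1000000000000000000000 := by ring
      _ ≤ ((tL : ℝ) * 100000000000000000) / 1000000000000000000000 :=
          div_le_div_of_nonneg_right q1' (by norm_num)
      _ = (tL : ℝ) / 10000 := by ring
  · intro M hM
    refine (hABS M hM).trans ?_
    apply mul_le_mul_of_nonneg_right _ hhz0
    have q2' : (((lz + 200) * ab' : ℕ) : ℝ) ≤ ((tA * 100000000000000000 : ℕ) : ℝ) := by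
      exact_mod_cast q2
    push_cast at q2'
    calc Real.log (z : ℝ) * ((ab' : ℝ) / 1000000000000)
        ≤ (((lz : ℝ) + 200) / 1000000000) * ((ab' : ℝ) / 1000000000000) :=
          mul_le_mul_of_nonneg_right hlzU (by positivity)
      _ = (((lz : ℝ) + 200) * ab') / 1000000000000000000000 := by ring
      _ ≤ ((tA : ℝ) * 100000000000000000) / 1000000000000000000000 :=
          div_le_div_of_nonneg_right q2' (by norm_num)
      _ = (tA : ℝ) / 10000 := by ring
  · intro M hM hI
    refine (hTOP M hM hI).trans ?_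
    have hp2 := hp.two_le
    have hlogp : 0 < Real.log (p : ℝ) := Real.log_pos (by exact_mod_cast hp.one_lt)
    rw [LT.Tz_eq]
    have e4 : Real.log (z : ℝ) * ((top' : ℝ) / 1000000000000) * hh (z : ℝ)
        = ((top' : ℝ) / 1000000000000) / z := by
      unfold hh
      field_simp
    rw [e4]
    have q3' : ((top' * (lp + 200) : ℕ) : ℝ) ≤ ((z * tT * gz * 100000 : ℕ) : ℝ) := by
      exact_mod_cast q3
    push_cast at q3'
    have hlpU : Real.log (p : ℝ) ≤ ((lp : ℝ) + 200) / 1000000000 := by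
      rw [le_div_iff₀ (by norm_num)]; linarith
    have hG0 : 0 ≤ LT.Gz p e := LT.Gz_nonneg p e
    calc ((top' : ℝ) / 1000000000000) / z
        ≤ (tT : ℝ) / 10000 * (((gz : ℝ) / 1000000000000) / (((lp : ℝ) + 200) / 1000000000)) := by
          rw [div_div, div_le_iff₀ (by positivity)]
          have : (tT : ℝ) / 10000 * (((gz : ℝ) / 1000000000000) / (((lp : ℝ) + 200) / 1000000000))
              * (1000000000000 * z) = ((z : ℝ) * tT * gz * 100000) / ((lp : ℝ) + 200) := by
            field_simp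
            ring
          rw [this, le_div_iff₀ (by positivity)]
          exact q3'
      _ ≤ (tT : ℝ) / 10000 * (LT.Gz p e / Real.log p) := by
          apply mul_le_mul_of_nonneg_left _ (by positivity)
          apply div_le_div₀ hG0 hgz hlogp hlpU

end Pool.Agent.EZ
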