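import Pool.Agent.EZ.SRun
import Pool.Agent.EZ.GridKB

/-!
# The constants of the small roots
-/

set_option autoImplicit false
set_option maxRecDepth 100000

namespace Pool.Agent.EZ

open Finset

/-- `small_run` with the table. -/
theorem small_run' (p e x lz lp F tL tT tA gz : ℕ) (bl : List (ℕ × ℕ × ℕ)) (hp : p.Prime)
    (he : e ≠ 0) (hz9 : p ^ e ≤ 9) (hlz0 : 0 < lz) (hlz : (p ^ e, p, lz) ∈ PT) (hlp : (p, p, lp) ∈ PT)
    (hF : (1 / 9.210339 : ℝ) * (1 - (lz : ℝ) / 1000000000 / 9.2104 / 2
      + (((lz : ℝ) + 200) / 1000000000 / 9.210339) ^ 2 / 3)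
      + 0.4443 / (9.210339 * (9.210339 + (lz : ℝ) / 1000000000)) ≤ (F : ℝ) / 1000000000000)
    (hgz : (gz : ℝ) / 1000000000000 ≤ LT.Gz p e)
    (hkb : ∀ t ∈ bl, t.2.1 ≠ 0 → (p ^ e, x, t.1, t.2.1) ∈ kbT)
    (hrun : sgo (p ^ e) x p lz bl (sfin (p ^ e) x p lz lp F tL tT tA gz) PT 0 0 0 0 0 0 0 = true) :
    SmallOK p e x ((tL : ℝ) / 10000) ((tT : ℝ) / 10000) ((tA : ℝ) / 10000) := by
  obtain ⟨g1, -, -⟩ := PT_good
  have h1 : EOK (p ^ e, p, lz) := (g1 _ hlz).2.2
  have h2 : EOK (p, p, lp) := (g1 _ hlp).2.2
  exact small_run p e x lz lp F tL tT tA gz bl hp he hz9 hlz0 h1.2.2.1 h1.2.2.2 h2.2.2.2 hF hgz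
    (fun t ht h => kbT_spec _ (hkb t ht h)) hrun


theorem S2_proof : Stmt_S2 := by
  have h := small_run' 2 1 10000 693147180 693147180 109564087916 6320 6070 6110 193147180545 blS2 (by norm_num) (by norm_num) (by norm_num)
    (by norm_num) (by decide +kernel) (by decide +kernel) (by norm_num)
    (le_trans (by norm_num [Finset.sum_range_succ, LT.gz]) (LT.Gz_lb (p := 2) (by norm_num) 1 30))
    (by decide +kernel) S2_run
  norm_num at h
  unfold Stmt_S2
  norm_num
  exact h


theorem S3a_proof : Stmt_S3a := by
  have h := small_run' 3 1 15000 1098612170 1098612170 107292610247 8550 13200 8300 72131774772 blS3a (by norm_num) (by norm_num) (by norm_num)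
    (by norm_num) (by decide +kernel) (by decide +kernel) (by norm_num)
    (le_trans (by norm_num [Finset.sum_range_succ, LT.gz]) (LT.Gz_lb (p := 3) (by norm_num) 1 20))
    (by decide +kernel) S3a_run
  norm_num at h
  unfold Stmt_S3a
  norm_num
  exact h


theorem S3b_proof : Stmt_S3b := by
  have h := small_run' 3 1 30000 1098612170 1098612170 107292610247 7100 6490 6870 72131774772 blS3b (by norm_num) (by norm_num) (by norm_num)
    (by norm_num) (by decide +kernel) (by decide +kernel) (by norm_num)
    (le_trans (by norm_num [Finset.sum_range_succ, LT.gz]) (LT.Gz_lb (p := 3) (by norm_num) 1 20))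
    (by decide +kernel) S3b_run
  norm_num at h
  unfold Stmt_S3b
  norm_num
  exact h


theorem S4_proof : Stmt_S4 := by
  have h := small_run' 2 2 20000 1386294237 693147180 105774934790 9700 5400 9470 68147180553 blS4 (by norm_num) (by norm_num) (by norm_num)
    (by norm_num) (by decide +kernel) (by decide +kernel) (by norm_num)
    (le_trans (by norm_num [Finset.sum_range_succ, LT.gz]) (LT.Gz_lb (p := 2) (by norm_num) 2 30))
    (by decide +kernel) S4_run
  norm_num at h
  unfold Stmt_S4
  norm_num
  exact h


theorem S5a_proof : Stmt_S5a := by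
  have h := small_run' 5 1 35000 1609437788 1609437788 104651016933 8730 13900 8430 23143551313 blS5a (by norm_num) (by norm_num) (by norm_num)
    (by norm_num) (by decide +kernel) (by decide +kernel) (by norm_num)
    (le_trans (by norm_num [Finset.sum_range_succ, LT.gz]) (LT.Gz_lb (p := 5) (by norm_num) 1 14))
    (by decide +kernel) S5a_run
  norm_num at h
  unfold Stmt_S5a
  norm_num
  exact h


theorem S5b_proof : Stmt_S5b := by
  have h := small_run' 5 1 55000 1609437788 1609437788 104651016933 7660 8530 7390 23143551313 blS5b (by norm_num) (by norm_num) (by norm_num)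
    (by norm_num) (by decide +kernel) (by decide +kernel) (by norm_num)
    (le_trans (by norm_num [Finset.sum_range_succ, LT.gz]) (LT.Gz_lb (p := 5) (by norm_num) 1 14))
    (by decide +kernel) S5b_run
  norm_num at h
  unfold Stmt_S5b
  norm_num
  exact h


theorem S7a_proof : Stmt_S7a := by
  have h := small_run' 7 1 60000 1945910024 1945910024 103043724763 8170 10150 7810 11293536969 blS7a (by norm_num) (by norm_num) (by norm_num)
    (by norm_num) (by decide +kernel) (by decide +kernel) (by norm_num)
    (le_trans (by norm_num [Finset.sum_range_succ, LT.gz]) (LT.Gz_lb (p := 7) (by norm_num) 1 12))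
    (by decide +kernel) S7a_run
  norm_num at h
  unfold Stmt_S7a
  norm_num
  exact h


theorem S7b_proof : Stmt_S7b := by
  have h := small_run' 7 1 127500 1945910024 1945910024 103043724763 7170 5080 6820 11293536969 blS7b (by norm_num) (by norm_num) (by norm_num)
    (by norm_num) (by decide +kernel) (by decide +kernel) (by norm_num)
    (le_trans (by norm_num [Finset.sum_range_succ, LT.gz]) (LT.Gz_lb (p := 7) (by norm_num) 1 12))
    (by decide +kernel) S7b_run
  norm_num at h
  unfold Stmt_S7b
  norm_num
  exact h


theorem S8_proof : Stmt_S8 := by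
  have h := small_run' 2 3 50000 2079441417 693147180 102434856486 10110 2606 9760 26480513889 blS8 (by norm_num) (by norm_num) (by norm_num)
    (by norm_num) (by decide +kernel) (by decide +kernel) (by norm_num)
    (le_trans (by norm_num [Finset.sum_range_succ, LT.gz]) (LT.Gz_lb (p := 2) (by norm_num) 3 30))
    (by decide +kernel) S8_run
  norm_num at h
  unfold Stmt_S8
  norm_num
  exact h


theorem S9a_proof : Stmt_S9a := by
  have h := small_run' 3 2 40000 2197224453 1098612170 101911418925 11820 7370 11320 16576219218 blS9a (by norm_num) (by norm_num) (by norm_num)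
    (by norm_num) (by decide +kernel) (by decide +kernel) (by norm_num)
    (le_trans (by norm_num [Finset.sum_range_succ, LT.gz]) (LT.Gz_lb (p := 3) (by norm_num) 2 20))
    (by decide +kernel) S9a_run
  norm_num at h
  unfold Stmt_S9a
  norm_num
  exact h


theorem S9b_proof : Stmt_S9b := by
  have h := small_run' 3 2 65000 2197224453 1098612170 101911418925 8660 2820 8210 16576219218 blS9b (by norm_num) (by norm_num) (by norm_num)
    (by norm_num) (by decide +kernel) (by decide +kernel) (by norm_num)
    (le_trans (by norm_num [Finset.sum_range_succ, LT.gz]) (LT.Gz_lb (p := 3) (by norm_num) 2 20))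
    (by decide +kernel) S9b_run
  norm_num at h
  unfold Stmt_S9b
  norm_num
  exact h

end Pool.Agent.EZ
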