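import Pool.Agent.EZ.EKR

/-!
# The step process

A list of steps `(v, e, g)`: the component `v` arrives with probability `e`, and an arrival into a
state of the family `D` at that step is paid `g`.
-/

set_option autoImplicit false
set_option linter.unusedSectionVars false

namespace Pool.Agent.EZ

open Finset

variable {V ι : Type*} [DecidableEq V] [DecidableEq ι]

/-- expectation of `f` at the final set of arrived components. -/
noncomputable def Pr : List (V × ℝ × ℝ) → (Finset V → ℝ) → ℝ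
  | [], f => f ∅
  | x :: t, f => (1 - x.2.1) * Pr t f + x.2.1 * Pr t (fun S => f (insert x.1 S))

/-- up-set generated by a family. -/
def up (D : Set (Finset V)) : Set (Finset V) := {S | ∃ m ∈ D, m ⊆ S}

/-- link of a family. -/
def lk (v : V) (D : Set (Finset V)) : Set (Finset V) := {m | v ∉ m ∧ insert v m ∈ D}

/-- expected number of arrivals at states of `D`. -/
noncomputable def Ac : List (V × ℝ × ℝ) → Set (Finset V) → ℝ
  | [], _ => 0
  | x :: t, D => x.2.1 * (ind D {x.1} + Ac t (lk x.1 D)) + (1 - x.2.1) * Ac t D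

/-- expected total payoff. -/
noncomputable def Y : List (V × ℝ × ℝ) → Set (Finset V) → ℝ
  | [], _ => 0
  | x :: t, D => x.2.1 * (x.2.2 * ind D {x.1} + Y t (lk x.1 D)) + (1 - x.2.1) * Y t D

/-- payoff of the first arrival. -/
noncomputable def FJ : List (V × ℝ × ℝ) → ℝ
  | [] => 0
  | x :: t => x.2.1 * x.2.2 + (1 - x.2.1) * FJ t

/-- all proper extensions of a member intersect pairwise (in labels). -/
def QP (π : V → ι) (D : Set (Finset V)) : Prop :=
  ∀ m ∈ D, ∀ m' ∈ D, ∀ m'' ∈ D, m ⊂ m' → m ⊂ m'' → ∃ v ∈ m' \ m, ∃ v' ∈ m'' \ m, π v = π v'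

/-- intersecting family (in labels). -/
def Inter (π : V → ι) (E : Set (Finset V)) : Prop :=
  ∀ m ∈ E, ∀ m' ∈ E, ∃ v ∈ m, ∃ v' ∈ m', π v = π v'

/-- validity of the probabilities. -/
def Val (t : List (V × ℝ × ℝ)) : Prop := ∀ x ∈ t, 0 ≤ x.2.1 ∧ x.2.1 ≤ 1

theorem Val.tail {x : V × ℝ × ℝ} {t : List (V × ℝ × ℝ)} (h : Val (x :: t)) : Val t :=
  fun y hy => h y (List.mem_cons_of_mem _ hy)

theorem Val.head {x : V × ℝ × ℝ} {t : List (V × ℝ × ℝ)} (h : Val (x :: t)) :
    0 ≤ x.2.1 ∧ x.2.1 ≤ 1 := h x List.mem_cons_self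

theorem Pr_mono (t : List (V × ℝ × ℝ)) (ht : Val t) : ∀ f g : Finset V → ℝ,
    (∀ S, f S ≤ g S) → Pr t f ≤ Pr t g := by
  induction t with
  | nil => intro f g h; exact h ∅
  | cons x t ih =>
    intro f g h
    obtain ⟨h0, h1⟩ := ht.head
    have e1 := mul_le_mul_of_nonneg_left (ih ht.tail f g h) (sub_nonneg.2 h1)
    have e2 := mul_le_mul_of_nonneg_left
      (ih ht.tail (fun S => f (insert x.1 S)) (fun S => g (insert x.1 S)) (fun S => h _)) h0
    simp only [Pr]
    linarith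

theorem Pr_const (t : List (V × ℝ × ℝ)) (c : ℝ) : Pr t (fun _ => c) = c := by
  induction t with
  | nil => rfl
  | cons x t ih => simp only [Pr, ih]; ring

theorem Pr_nonneg (t : List (V × ℝ × ℝ)) (ht : Val t) (f : Finset V → ℝ) (hf : ∀ S, 0 ≤ f S) :
    0 ≤ Pr t f := by
  have := Pr_mono t ht (fun _ => 0) f hf
  rwa [Pr_const] at this

theorem Pr_le_one (t : List (V × ℝ × ℝ)) (ht : Val t) (D : Set (Finset V)) :
    Pr t (ind D) ≤ 1 := by
  have := Pr_mono t ht (ind D) (fun _ => 1) (ind_le_one D)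
  rwa [Pr_const] at this

theorem lk_diff_empty (v : V) (D : Set (Finset V)) : lk v (D \ {∅}) = lk v D := by
  ext m
  simp only [lk, Set.mem_ofPred_eq, Set.mem_sdiff, Set.mem_singleton_iff]
  constructor
  · rintro ⟨h1, h2, -⟩; exact ⟨h1, h2⟩
  · rintro ⟨h1, h2⟩; exact ⟨h1, h2, Finset.insert_ne_empty _ _⟩

theorem Ac_diff_empty (t : List (V × ℝ × ℝ)) : ∀ D : Set (Finset V),
    Ac t (D \ {∅}) = Ac t D := by
  induction t with
  | nil => intro D; rfl
  | cons x t ih =>
    intro D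
    simp only [Ac]
    rw [lk_diff_empty, ih D]
    have : ind (D \ {∅}) ({x.1} : Finset V) = ind D {x.1} := by
      have h2 : ({x.1} : Finset V) ∈ D \ {∅} ↔ ({x.1} : Finset V) ∈ D := by
        simp [Set.mem_sdiff]
      by_cases hx : ({x.1} : Finset V) ∈ D
      · rw [ind_of_mem hx, ind_of_mem (h2.2 hx)]
      · rw [ind_of_not_mem hx, ind_of_not_mem (fun h => hx (h2.1 h))]
    rw [this]

theorem Ac_nonneg (t : List (V × ℝ × ℝ)) (ht : Val t) : ∀ D : Set (Finset V), 0 ≤ Ac t D := by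
  induction t with
  | nil => intro D; exact le_rfl
  | cons x t ih =>
    intro D
    obtain ⟨h0, h1⟩ := ht.head
    simp only [Ac]
    have e1 := ih ht.tail (lk x.1 D)
    have e2 := ih ht.tail D
    have e3 := ind_nonneg D {x.1}
    have e4 : 0 ≤ 1 - x.2.1 := by linarith
    positivity

theorem QP_lk {π : V → ι} {D : Set (Finset V)} (hD : QP π D) (v : V) : QP π (lk v D) := by
  rintro m ⟨hv, hm⟩ m' ⟨hv', hm'⟩ m'' ⟨hv'', hm''⟩ h1 h2
  have key : ∀ k : Finset V, v ∉ k → m ⊂ k → insert v m ⊂ insert v k ∧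
      (insert v k) \ (insert v m) = k \ m := by
    intro k hk hmk
    constructor
    · rw [Finset.ssubset_iff_subset_ne]
      refine ⟨Finset.insert_subset_insert _ hmk.subset, fun h => ?_⟩
      apply hmk.ne
      have := congrArg (fun s => Finset.erase s v) h
      simpa [Finset.erase_insert hv, Finset.erase_insert hk] using this
    · ext w
      simp only [Finset.mem_sdiff, Finset.mem_insert, not_or]
      constructor
      · rintro ⟨rfl | h3, h4, h5⟩
        · exact absurd rfl h4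
        · exact ⟨h3, h5⟩
      · rintro ⟨h3, h4⟩
        exact ⟨Or.inr h3, fun h => hk (h ▸ h3), h4⟩
  obtain ⟨a1, a2⟩ := key m' hv' h1
  obtain ⟨b1, b2⟩ := key m'' hv'' h2
  have := hD _ hm _ hm' _ hm'' a1 b1
  rwa [a2, b2] at this

theorem QP_subset {π : V → ι} {D E : Set (Finset V)} (hD : QP π D) (h : E ⊆ D) : QP π E :=
  fun m hm m' hm' m'' hm'' => hD m (h hm) m' (h hm') m'' (h hm'')

theorem Inter_lk {π : V → ι} {D : Set (Finset V)} (hD : QP π D) (v : V)
    (hv : ({v} : Finset V) ∈ D) : Inter π (lk v D \ {∅}) := by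
  rintro m ⟨⟨h1, h2⟩, h3⟩ m' ⟨⟨h1', h2'⟩, h3'⟩
  have key : ∀ k : Finset V, v ∉ k → k ≠ ∅ → ({v} : Finset V) ⊂ insert v k ∧
      (insert v k) \ {v} = k := by
    intro k hk hk0
    have e1 : (insert v k) \ {v} = k := by
      ext w
      simp only [Finset.mem_sdiff, Finset.mem_insert, Finset.mem_singleton]
      constructor
      · rintro ⟨rfl | h, h'⟩
        · exact absurd rfl h'
        · exact h
      · intro h
        exact ⟨Or.inr h, fun h' => hk (h' ▸ h)⟩
    refine ⟨?_, e1⟩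
    rw [Finset.ssubset_iff_subset_ne]
    refine ⟨by simp, fun h => hk0 ?_⟩
    rw [← h] at e1
    simpa using e1.symm
  obtain ⟨a1, a2⟩ := key m h1 h3
  obtain ⟨b1, b2⟩ := key m' h1' h3'
  have := hD _ hv _ h2 _ h2' a1 b1
  rwa [a2, b2] at this

/-- every intersecting family has probability at most `ρ`, for all suffixes. -/
def Good (π : V → ι) (ρ : ℝ) (t : List (V × ℝ × ℝ)) : Prop :=
  ∀ t' : List (V × ℝ × ℝ), t' <:+ t → ∀ E : Set (Finset V), Inter π E → Pr t' (ind (up E)) ≤ ρ

theorem Good.tail {π : V → ι} {ρ : ℝ} {x : V × ℝ × ℝ} {t : List (V × ℝ × ℝ)}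
    (h : Good π ρ (x :: t)) : Good π ρ t :=
  fun t' ht' => h t' (ht'.trans (List.suffix_cons x t))

theorem up_lk (v : V) (D : Set (Finset V)) (S : Finset V) :
    ind (up (lk v D)) S ≤ ind (up D) (insert v S) := by
  unfold ind
  split_ifs with h1 h2 h2
  · exact le_rfl
  · exfalso
    apply h2
    obtain ⟨m, ⟨-, hm⟩, hmS⟩ := h1
    exact ⟨_, hm, Finset.insert_subset_insert _ hmS⟩
  · exact zero_le_one
  · exact le_rfl

/-- the counting lemma -/
theorem count (π : V → ι) (ρ : ℝ) (hρ1 : ρ < 1) (t : List (V × ℝ × ℝ)) (ht : Val t)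
    (hg : Good π ρ t) : ∀ D : Set (Finset V), QP π D →
    Ac t D ≤ 1 / (1 - ρ) * Pr t (ind (up D)) := by
  have h1ρ : 0 < 1 - ρ := by linarith
  have hC : 0 ≤ 1 / (1 - ρ) := by positivity
  induction t with
  | nil =>
    intro D _
    simp only [Ac, Pr]
    exact mul_nonneg hC (ind_nonneg _ _)
  | cons x t ih =>
    intro D hQ
    obtain ⟨h0, h1⟩ := ht.head
    have ih' := ih ht.tail hg.tail
    simp only [Ac, Pr]
    have e1 := mul_le_mul_of_nonneg_left (ih' D hQ) (sub_nonneg.2 h1)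
    have e2 : ind D {x.1} + Ac t (lk x.1 D)
        ≤ 1 / (1 - ρ) * Pr t (fun S => ind (up D) (insert x.1 S)) := by
      by_cases hx : ({x.1} : Finset V) ∈ D
      · rw [ind_of_mem hx]
        have e3 : Pr t (fun S => ind (up D) (insert x.1 S)) = 1 := by
          have : (fun S : Finset V => ind (up D) (insert x.1 S)) = fun _ => 1 := by
            funext S
            exact ind_of_mem ⟨_, hx, by simp⟩
          rw [this, Pr_const]
        rw [e3, ← Ac_diff_empty]
        have e4 := ih' (lk x.1 D \ {∅}) (QP_subset (QP_lk hQ x.1) Set.sdiff_subset)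
        have e5 := hg.tail t (List.suffix_refl _) _ (Inter_lk hQ x.1 hx)
        have e6 : Ac t (lk x.1 D \ {∅}) ≤ 1 / (1 - ρ) * ρ :=
          e4.trans (mul_le_mul_of_nonneg_left e5 hC)
        have e7 : 1 + 1 / (1 - ρ) * ρ = 1 / (1 - ρ) * 1 := by field_simp; ring
        linarith
      · rw [ind_of_not_mem hx, zero_add]
        refine (ih' _ (QP_lk hQ x.1)).trans ?_
        exact mul_le_mul_of_nonneg_left (Pr_mono t ht.tail _ _ (up_lk x.1 D)) hC
    have e3 := mul_le_mul_of_nonneg_left e2 h0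
    linarith

theorem Y_le_sup (K : ℝ) (t : List (V × ℝ × ℝ)) (ht : Val t) (hK : ∀ x ∈ t, x.2.2 ≤ K) :
    ∀ D : Set (Finset V), Y t D ≤ K * Ac t D := by
  induction t with
  | nil => intro D; simp [Y, Ac]
  | cons x t ih =>
    intro D
    obtain ⟨h0, h1⟩ := ht.head
    have ih' := ih ht.tail (fun y hy => hK y (List.mem_cons_of_mem _ hy))
    simp only [Y, Ac]
    have e1 := mul_le_mul_of_nonneg_left (ih' D) (sub_nonneg.2 h1)
    have hx := hK x List.mem_cons_self
    have e2 : x.2.2 * ind D {x.1} + Y t (lk x.1 D)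
        ≤ K * (ind D {x.1} + Ac t (lk x.1 D)) := by
      have := ih' (lk x.1 D)
      have h3 := mul_le_mul_of_nonneg_right hx (ind_nonneg D {x.1})
      linarith
    have e3 := mul_le_mul_of_nonneg_left e2 h0
    linarith

/-- payoffs non increasing along the list: compare with the first arrival. -/
theorem Y_le_FJ (π : V → ι) (ρ : ℝ) (hρ1 : ρ < 1) (t : List (V × ℝ × ℝ))
    (ht : Val t) (hg : Good π ρ t) (hpos : ∀ x ∈ t, 0 ≤ x.2.2)
    (hmono : t.Pairwise (fun x y => y.2.2 ≤ x.2.2)) : ∀ D : Set (Finset V), QP π D →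
    Y t D ≤ 1 / (1 - ρ) * FJ t := by
  have h1ρ : 0 < 1 - ρ := by linarith
  have hC : 0 ≤ 1 / (1 - ρ) := by positivity
  induction t with
  | nil => intro D _; simp [Y, FJ]
  | cons x t ih =>
    intro D hQ
    obtain ⟨h0, h1⟩ := ht.head
    have hpw := List.pairwise_cons.1 hmono
    have ih' := ih ht.tail hg.tail (fun y hy => hpos y (List.mem_cons_of_mem _ hy)) hpw.2 D hQ
    have hgx := hpos x List.mem_cons_self
    simp only [Y, FJ]
    have e1 := mul_le_mul_of_nonneg_left ih' (sub_nonneg.2 h1)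
    have e2 : x.2.2 * ind D {x.1} + Y t (lk x.1 D)
        ≤ 1 / (1 - ρ) * x.2.2 := by
      have s1 : Y t (lk x.1 D) ≤ x.2.2 * Ac t (lk x.1 D) :=
        Y_le_sup x.2.2 t ht.tail (fun y hy => hpw.1 y hy) _
      by_cases hx : ({x.1} : Finset V) ∈ D
      · rw [ind_of_mem hx, mul_one]
        have e4 := count π ρ hρ1 t ht.tail hg.tail (lk x.1 D \ {∅})
          (QP_subset (QP_lk hQ x.1) Set.sdiff_subset)
        rw [Ac_diff_empty] at e4
        have e5 := hg.tail t (List.suffix_refl _) _ (Inter_lk hQ x.1 hx)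
        have e6 : Ac t (lk x.1 D) ≤ 1 / (1 - ρ) * ρ :=
          e4.trans (mul_le_mul_of_nonneg_left e5 hC)
        have e7 : 1 + 1 / (1 - ρ) * ρ = 1 / (1 - ρ) := by field_simp; ring
        have e8 := mul_le_mul_of_nonneg_left e6 hgx
        calc x.2.2 + Y t (lk x.1 D) ≤ x.2.2 + x.2.2 * (1 / (1 - ρ) * ρ) := by linarith
          _ = (1 + 1 / (1 - ρ) * ρ) * x.2.2 := by ring
          _ = _ := by rw [e7]
      · rw [ind_of_not_mem hx, mul_zero, zero_add]
        have e4 := count π ρ hρ1 t ht.tail hg.tail (lk x.1 D) (QP_lk hQ x.1)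
        have e5 := Pr_le_one t ht.tail (up (lk x.1 D))
        have e6 : Ac t (lk x.1 D) ≤ 1 / (1 - ρ) * 1 :=
          e4.trans (mul_le_mul_of_nonneg_left e5 hC)
        have e8 := mul_le_mul_of_nonneg_left e6 hgx
        linarith
    have e3 := mul_le_mul_of_nonneg_left e2 h0
    linarith

end Pool.Agent.EZ
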