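import Pool.Agent.EZ.Steps

/-!
# The step process: merging of labels, exact state probabilities, rounds
-/

set_option autoImplicit false
set_option linter.unusedSectionVars false

namespace Pool.Agent.EZ

open Finset

variable {V ι : Type*} [DecidableEq V] [DecidableEq ι]

/-! ### merging -/

theorem ExL_zero (l : List ι) : ∀ F : Finset ι → ℝ, ExL l (fun _ => 0) F = F ∅ := by
  induction l with
  | nil => intro F; rfl
  | cons a l ih => intro F; simp only [ExL, ih]; ring

theorem ExL_mix (l : List ι) (hl : l.Nodup) (p p' : ι → ℝ) (r : ι) (hr : r ∈ l) (e : ℝ)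
    (h1 : p r = 1 - (1 - e) * (1 - p' r)) (h2 : ∀ a ∈ l, a ≠ r → p a = p' a) :
    ∀ F : Finset ι → ℝ, ExL l p F
      = (1 - e) * ExL l p' F + e * ExL l p' (fun T => F (insert r T)) := by
  induction l with
  | nil => simp at hr
  | cons a l ih =>
    intro F
    obtain ⟨ha, hl'⟩ := List.nodup_cons.1 hl
    by_cases har : a = r
    · subst har
      have hc : ∀ G : Finset ι → ℝ, ExL l p G = ExL l p' G := fun G =>
        ExL_congr_p l p p' G (fun b hb => h2 b (List.mem_cons_of_mem _ hb)
          (fun h => ha (h ▸ hb)))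
      simp only [ExL, hc, h1, Finset.insert_idem]
      ring
    · have hr' : r ∈ l := by
        rcases List.mem_cons.1 hr with h | h
        · exact absurd h.symm har
        · exact h
      have ih' := ih hl' hr' (fun b hb => h2 b (List.mem_cons_of_mem _ hb))
      simp only [ExL]
      rw [ih' F, ih' (fun T => F (insert a T)), h2 a List.mem_cons_self har]
      have hcomm : (fun T : Finset ι => F (insert a (insert r T)))
          = fun T => F (insert r (insert a T)) := by
        funext T; rw [Finset.insert_comm]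
      rw [hcomm]
      ring

/-- probability that no component with label `r` arrives. -/
noncomputable def surv (π : V → ι) (r : ι) : List (V × ℝ × ℝ) → ℝ
  | [] => 1
  | x :: t => (if π x.1 = r then 1 - x.2.1 else 1) * surv π r t

theorem surv_nonneg (π : V → ι) (r : ι) (t : List (V × ℝ × ℝ)) (ht : Val t) :
    0 ≤ surv π r t := by
  induction t with
  | nil => simp [surv]
  | cons x t ih =>
    obtain ⟨h0, h1⟩ := ht.head
    simp only [surv]
    apply mul_nonneg _ (ih ht.tail)
    split_ifs <;> linarith

theorem surv_le_one (π : V → ι) (r : ι) (t : List (V × ℝ × ℝ)) (ht : Val t) :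
    surv π r t ≤ 1 := by
  induction t with
  | nil => simp [surv]
  | cons x t ih =>
    obtain ⟨h0, h1⟩ := ht.head
    simp only [surv]
    apply mul_le_one₀ _ (surv_nonneg π r t ht.tail) (ih ht.tail)
    split_ifs <;> linarith

theorem surv_append (π : V → ι) (r : ι) (t t' : List (V × ℝ × ℝ)) :
    surv π r (t ++ t') = surv π r t * surv π r t' := by
  induction t with
  | nil => simp [surv]
  | cons x t ih => simp only [List.cons_append, surv, ih]; ring

theorem Pr_merge (π : V → ι) (l : List ι) (hl : l.Nodup) (t : List (V × ℝ × ℝ))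
    (hlt : ∀ x ∈ t, π x.1 ∈ l) : ∀ F : Finset ι → ℝ,
    Pr t (fun S => F (S.image π)) = ExL l (fun r => 1 - surv π r t) F := by
  induction t with
  | nil =>
    intro F
    simp only [Pr, surv, sub_self, Finset.image_empty]
    rw [ExL_zero]
  | cons x t ih =>
    intro F
    have ih' := ih (fun y hy => hlt y (List.mem_cons_of_mem _ hy))
    simp only [Pr]
    have h1 : (fun S : Finset V => F ((insert x.1 S).image π))
        = fun S => (fun T => F (insert (π x.1) T)) (S.image π) := by
      funext S; simp [Finset.image_insert]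
    rw [h1, ih' F, ih' (fun T => F (insert (π x.1) T))]
    symm
    apply ExL_mix l hl _ _ (π x.1) (hlt x List.mem_cons_self) x.2.1
    · simp only [surv, if_true]; ring
    · intro a _ ha
      simp only [surv]
      rw [if_neg (fun h => ha h.symm), one_mul]

theorem good_of_surv (π : V → ι) (l : List ι) (hl : l.Nodup) (t : List (V × ℝ × ℝ)) (ht : Val t)
    (hlt : ∀ x ∈ t, π x.1 ∈ l) (ρ : ℝ) (hρ0 : 0 ≤ ρ) (hρ : ρ ≤ 1 / 2)
    (h : ∀ r ∈ l, 1 - ρ ≤ surv π r t) : Good π ρ t := by
  rintro t' ⟨t'', ht''⟩ E hE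
  have htv : Val t' := fun x hx => ht x (by rw [← ht'']; exact List.mem_append_right _ hx)
  have htv2 : Val t'' := fun x hx => ht x (by rw [← ht'']; exact List.mem_append_left _ hx)
  have hlt' : ∀ x ∈ t', π x.1 ∈ l := fun x hx =>
    hlt x (by rw [← ht'']; exact List.mem_append_right _ hx)
  have hs : ∀ r ∈ l, 1 - ρ ≤ surv π r t' := by
    intro r hr
    have h1 := h r hr
    rw [← ht'', surv_append] at h1
    have h2 := mul_le_mul_of_nonneg_right (surv_le_one π r t'' htv2) (surv_nonneg π r t' htv)
    linarith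
  set F : Set (Finset ι) := {T | ∃ m ∈ E, m.image π ⊆ T} with hF
  have h1 : Pr t' (ind (up E)) ≤ Pr t' (fun S => ind F (S.image π)) := by
    apply Pr_mono t' htv
    intro S
    by_cases hS : S ∈ up E
    · have hS' : S.image π ∈ F := by
        obtain ⟨m, hm, hmS⟩ := hS
        exact ⟨m, hm, Finset.image_subset_image hmS⟩
      rw [ind_of_mem hS, ind_of_mem hS']
    · rw [ind_of_not_mem hS]; exact ind_nonneg _ _
  refine h1.trans ?_
  rw [Pr_merge π l hl t' hlt']
  apply ekr l hl _ ρ hρ0 hρ
  · intro r _
    have := surv_le_one π r t' htv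
    linarith
  · intro r hr
    have := hs r hr
    linarith
  · rintro T ⟨m, hm, hmT⟩ T' ⟨m', hm', hmT'⟩ hd
    obtain ⟨v, hv, v', hv', hvv⟩ := hE m hm m' hm'
    have a1 : π v ∈ T := hmT (Finset.mem_image_of_mem _ hv)
    have a2 : π v ∈ T' := hmT' (hvv ▸ Finset.mem_image_of_mem _ hv')
    exact Finset.disjoint_left.1 hd a1 a2

/-! ### additivity of the payoff -/

theorem Y_empty (t : List (V × ℝ × ℝ)) : Y t (∅ : Set (Finset V)) = 0 := by
  induction t with
  | nil => rfl
  | cons x t ih =>
    simp only [Y]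
    have : lk x.1 (∅ : Set (Finset V)) = ∅ := by ext m; simp [lk]
    rw [this, ih, ind_of_not_mem (by simp)]
    ring

theorem Y_union (t : List (V × ℝ × ℝ)) : ∀ D D' : Set (Finset V), Disjoint D D' →
    Y t (D ∪ D') = Y t D + Y t D' := by
  induction t with
  | nil => intro D D' _; simp [Y]
  | cons x t ih =>
    intro D D' hd
    simp only [Y]
    have h1 : lk x.1 (D ∪ D') = lk x.1 D ∪ lk x.1 D' := by
      ext m
      simp only [lk, Set.mem_ofPred_eq, Set.mem_union]
      tauto
    have h2 : Disjoint (lk x.1 D) (lk x.1 D') := by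
      rw [Set.disjoint_left]
      rintro m ⟨-, hm⟩ ⟨-, hm'⟩
      exact Set.disjoint_left.1 hd hm hm'
    have h3 : ind (D ∪ D') {x.1} = ind D {x.1} + ind D' ({x.1} : Finset V) := by
      by_cases h : ({x.1} : Finset V) ∈ D
      · have h' : ({x.1} : Finset V) ∉ D' := Set.disjoint_left.1 hd h
        rw [ind_of_mem (Or.inl h), ind_of_mem h, ind_of_not_mem h']; ring
      · by_cases h' : ({x.1} : Finset V) ∈ D'
        · rw [ind_of_mem (Or.inr h'), ind_of_mem h', ind_of_not_mem h]; ring
        · rw [ind_of_not_mem (fun h'' => h''.elim h h'), ind_of_not_mem h, ind_of_not_mem h']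
          ring
    rw [h1, ih _ _ h2, ih _ _ hd, h3]
    ring

theorem Y_finset (t : List (V × ℝ × ℝ)) (D : Finset (Finset V)) :
    Y t (↑D : Set (Finset V)) = ∑ m ∈ D, Y t {m} := by
  induction D using Finset.induction_on with
  | empty => simp [Y_empty]
  | insert m D hm ih =>
    rw [Finset.sum_insert hm, ← ih, Finset.coe_insert, Set.insert_eq]
    apply Y_union
    simpa using hm

/-! ### exact state probabilities -/

/-- probability that exactly the components of `m` arrived, each once. -/
noncomputable def Q : List (V × ℝ × ℝ) → Finset V → ℝ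
  | [], m => if m = ∅ then 1 else 0
  | x :: t, m => (1 - x.2.1) * Q t m + (if x.1 ∈ m then x.2.1 * Q t (m.erase x.1) else 0)

noncomputable def bb (v : V) : List (V × ℝ × ℝ) → ℝ
  | [] => 0
  | x :: t => (if x.1 = v then x.2.1 / (1 - x.2.1) else 0) + bb v t

noncomputable def SS : List (V × ℝ × ℝ) → ℝ
  | [] => 1
  | x :: t => (1 - x.2.1) * SS t

theorem bb_append (v : V) (t t' : List (V × ℝ × ℝ)) : bb v (t ++ t') = bb v t + bb v t' := by
  induction t with
  | nil => simp [bb]
  | cons x t ih => simp only [List.cons_append, bb, ih]; ring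

theorem SS_append (t t' : List (V × ℝ × ℝ)) : SS (t ++ t') = SS t * SS t' := by
  induction t with
  | nil => simp [SS]
  | cons x t ih => simp only [List.cons_append, SS, ih]; ring

theorem bb_nonneg (v : V) (t : List (V × ℝ × ℝ)) (ht : ∀ x ∈ t, 0 ≤ x.2.1 ∧ x.2.1 < 1) :
    0 ≤ bb v t := by
  induction t with
  | nil => simp [bb]
  | cons x t ih =>
    obtain ⟨h0, h1⟩ := ht x List.mem_cons_self
    simp only [bb]
    apply add_nonneg _ (ih (fun y hy => ht y (List.mem_cons_of_mem _ hy)))
    split_ifs
    · apply div_nonneg h0; linarith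
    · exact le_rfl

theorem SS_nonneg (t : List (V × ℝ × ℝ)) (ht : ∀ x ∈ t, 0 ≤ x.2.1 ∧ x.2.1 < 1) : 0 ≤ SS t := by
  induction t with
  | nil => simp [SS]
  | cons x t ih =>
    obtain ⟨h0, h1⟩ := ht x List.mem_cons_self
    simp only [SS]
    exact mul_nonneg (by linarith) (ih (fun y hy => ht y (List.mem_cons_of_mem _ hy)))

theorem SS_le_one (t : List (V × ℝ × ℝ)) (ht : ∀ x ∈ t, 0 ≤ x.2.1 ∧ x.2.1 < 1) : SS t ≤ 1 := by
  induction t with
  | nil => simp [SS]
  | cons x t ih =>
    obtain ⟨h0, h1⟩ := ht x List.mem_cons_self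
    simp only [SS]
    exact mul_le_one₀ (by linarith) (SS_nonneg t (fun y hy => ht y (List.mem_cons_of_mem _ hy)))
      (ih (fun y hy => ht y (List.mem_cons_of_mem _ hy)))

theorem Q_eq (t : List (V × ℝ × ℝ)) (ht : ∀ x ∈ t, 0 ≤ x.2.1 ∧ x.2.1 < 1) :
    ∀ m : Finset V, Q t m = SS t * ∏ v ∈ m, bb v t := by
  induction t with
  | nil =>
    intro m
    simp only [Q, SS, bb, one_mul]
    split_ifs with h
    · subst h; simp
    · obtain ⟨v, hv⟩ := Finset.nonempty_iff_ne_empty.2 h
      exact (Finset.prod_eq_zero hv rfl).symm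
  | cons x t ih =>
    intro m
    obtain ⟨h0, h1⟩ := ht x List.mem_cons_self
    have ih' := ih (fun y hy => ht y (List.mem_cons_of_mem _ hy))
    have hne : 1 - x.2.1 ≠ 0 := by linarith
    simp only [Q, SS]
    rw [ih' m, ih' (m.erase x.1)]
    by_cases hx : x.1 ∈ m
    · rw [if_pos hx]
      have e1 : ∏ v ∈ m, bb v (x :: t) = (x.2.1 / (1 - x.2.1) + bb x.1 t)
          * ∏ v ∈ m.erase x.1, bb v t := by
        rw [← Finset.mul_prod_erase m _ hx]
        congr 1
        · simp [bb]
        · apply Finset.prod_congr rfl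
          intro v hv
          simp only [bb]
          rw [if_neg (fun h => (Finset.ne_of_mem_erase hv) h.symm), zero_add]
      rw [e1, ← Finset.mul_prod_erase m (fun v => bb v t) hx]
      field_simp
      ring
    · rw [if_neg hx, add_zero]
      have e1 : ∏ v ∈ m, bb v (x :: t) = ∏ v ∈ m, bb v t := by
        apply Finset.prod_congr rfl
        intro v hv
        simp only [bb]
        rw [if_neg (fun h : x.1 = v => hx (h ▸ hv)), zero_add]
      rw [e1]
      ring

theorem lk_singleton (v : V) (m : Finset V) :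
    lk v ({m} : Set (Finset V)) = if v ∈ m then {m.erase v} else ∅ := by
  ext k
  simp only [lk, Set.mem_ofPred_eq, Set.mem_singleton_iff]
  split_ifs with h
  · simp only [Set.mem_singleton_iff]
    constructor
    · rintro ⟨h1, h2⟩
      rw [← h2, Finset.erase_insert h1]
    · intro h1
      rw [h1]
      exact ⟨Finset.notMem_erase _ _, Finset.insert_erase h⟩
  · simp only [Set.mem_empty_iff_false, iff_false, not_and]
    intro _ h2
    exact h (h2 ▸ Finset.mem_insert_self _ _)

theorem Y_snoc (x : V × ℝ × ℝ) (t : List (V × ℝ × ℝ)) : ∀ m : Finset V,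
    Y (t ++ [x]) {m} = Y t {m}
      + (if x.1 ∈ m then x.2.1 * x.2.2 * Q t (m.erase x.1) else 0) := by
  induction t with
  | nil =>
    intro m
    simp only [List.nil_append, Y, Q]
    by_cases hx : x.1 ∈ m
    · rw [if_pos hx]
      by_cases hm : m = {x.1}
      · subst hm
        rw [ind_of_mem (by simp), if_pos (by simp)]
        ring
      · rw [ind_of_not_mem (fun h => hm (by simpa using h.symm)), if_neg]
        · ring
        · intro h
          apply hm
          rw [← Finset.insert_erase hx, h]
          simp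
    · rw [if_neg hx, ind_of_not_mem]
      · ring
      · intro h
        apply hx
        have : ({x.1} : Finset V) = m := by simpa using h
        rw [← this]; simp
  | cons y t ih =>
    intro m
    simp only [List.cons_append, Y, Q]
    rw [lk_singleton]
    by_cases hy : y.1 ∈ m
    · rw [if_pos hy, ih m, ih (m.erase y.1)]
      by_cases hx : x.1 ∈ m
      · rw [if_pos hx, if_pos hx]
        by_cases hxy : x.1 = y.1
        · have h1 : x.1 ∉ m.erase y.1 := by rw [hxy]; exact Finset.notMem_erase _ _
          have h2 : y.1 ∉ m.erase x.1 := by rw [hxy]; exact Finset.notMem_erase _ _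
          rw [if_neg h1, if_neg h2]
          ring
        · have h1 : x.1 ∈ m.erase y.1 := Finset.mem_erase.2 ⟨hxy, hx⟩
          have h2 : y.1 ∈ m.erase x.1 := Finset.mem_erase.2 ⟨fun h => hxy h.symm, hy⟩
          rw [if_pos h1, if_pos h2, Finset.erase_right_comm]
          ring
      · have h1 : x.1 ∉ m.erase y.1 := fun h => hx (Finset.mem_of_mem_erase h)
        rw [if_neg hx, if_neg h1, if_neg hx]
        ring
    · rw [if_neg hy, Y_empty, Y_empty, ih m]
      by_cases hx : x.1 ∈ m
      · have h2 : y.1 ∉ m.erase x.1 := fun h => hy (Finset.mem_of_mem_erase h)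
        rw [if_pos hx, if_pos hx, if_neg h2]
        ring
      · rw [if_neg hx, if_neg hx]
        ring

theorem Y_snoc' (x : V × ℝ × ℝ) (t : List (V × ℝ × ℝ)) (ht : ∀ y ∈ t, 0 ≤ y.2.1 ∧ y.2.1 < 1)
    (hx : 0 ≤ x.2.1 ∧ x.2.1 < 1) (m : Finset V) :
    Y (t ++ [x]) {m} = Y t {m}
      + x.2.2 * SS (t ++ [x]) * ((∏ v ∈ m, bb v (t ++ [x])) - ∏ v ∈ m, bb v t) := by
  rw [Y_snoc]
  congr 1
  have hne : 1 - x.2.1 ≠ 0 := by linarith [hx.2]
  have hS : SS (t ++ [x]) = SS t * (1 - x.2.1) := by
    rw [SS_append]; simp [SS]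
  by_cases hxm : x.1 ∈ m
  · rw [if_pos hxm, Q_eq t ht, hS]
    have e1 : ∏ v ∈ m, bb v (t ++ [x]) = (bb x.1 t + x.2.1 / (1 - x.2.1))
        * ∏ v ∈ m.erase x.1, bb v t := by
      rw [← Finset.mul_prod_erase m _ hxm]
      congr 1
      · rw [bb_append]; simp [bb]
      · apply Finset.prod_congr rfl
        intro v hv
        rw [bb_append]
        simp only [bb]
        rw [if_neg (fun h => (Finset.ne_of_mem_erase hv) h.symm)]
        ring
    rw [e1, ← Finset.mul_prod_erase m (fun v => bb v t) hxm]
    field_simp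
    ring
  · rw [if_neg hxm]
    have e1 : ∏ v ∈ m, bb v (t ++ [x]) = ∏ v ∈ m, bb v t := by
      apply Finset.prod_congr rfl
      intro v hv
      rw [bb_append]
      simp only [bb]
      rw [if_neg (fun h : x.1 = v => hxm (h ▸ hv))]
      ring
    rw [e1, sub_self, mul_zero]

end Pool.Agent.EZ
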