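import Pool.Agent.EZ.TabData
import Pool.Agent.EZ.MertensPP
import Pool.Agent.EZ.GridFix

/-!
# The table of prime powers is correct
-/

set_option autoImplicit false

namespace Pool.Agent.EZ

open Finset

/-- entry check. -/
def tent (e : PE) (n Ll Lu : ℕ) : Bool :=
  Nat.beq e.1 n && (Nat.beq e.2.1 (spf pl n) && (Nat.ble (Nat.mul e.2.2 1000) Ll &&
    Nat.ble Lu (Nat.mul (Nat.add e.2.2 200) 1000)))

/-- match the head of the list. -/
def tmatch (n Ll Lu : ℕ) (l : List PE) (k : List PE → Bool) : Bool :=
  List.casesOn (motive := fun _ => Bool) l false (fun e tl => cond (tent e n Ll Lu) (k tl) false)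

/-- the loop. -/
noncomputable def tloop (k : ℕ) : ℕ → ℕ → ℕ → List PE → Bool :=
  Nat.rec (motive := fun _ => ℕ → ℕ → ℕ → List PE → Bool)
    (fun _ _ _ l => List.casesOn (motive := fun _ => Bool) l true (fun _ _ => false))
    (fun _ ih n Ll Lu l =>
      frc (Nat.succ n) fun n' =>
      frc (Nat.add n n') fun m =>
      frc (dlo m) fun d =>
      frc (Nat.add Ll d) fun Ll' =>
      frc (Nat.add Lu (Nat.add d (der m))) fun Lu' =>
      cond (Nat.beq (kp n') 0) (ih n' Ll' Lu' l)
        (tmatch n' Ll' Lu' l (fun tl => ih n' Ll' Lu' tl))) k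

/-- correct entry. -/
def EOK (e : PE) : Prop := IsPrimePow e.1 ∧ e.2.1 = e.1.minFac ∧
  (e.2.2 : ℝ) ≤ 1000000000 * Real.log e.1 ∧ 1000000000 * Real.log e.1 ≤ (e.2.2 : ℝ) + 200

/-- the list `l` consists of the prime powers in `(a, N]`. -/
def TGood (a N : ℕ) (l : List PE) : Prop :=
  (∀ e ∈ l, a < e.1 ∧ e.1 ≤ N ∧ EOK e) ∧ l.Pairwise (fun p q => p.1 < q.1) ∧
  ∀ v, IsPrimePow v → a < v → v ≤ N → ∃ e ∈ l, e.1 = v

theorem tloop_sound : ∀ (k n Ll Lu : ℕ) (l : List PE), 2 ≤ n → n + k < 101 ^ 2 → (Ll : ℝ) ≤ SC * Real.log n →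
    SC * Real.log n ≤ Lu → tloop k n Ll Lu l = true → TGood n (n + k) l := by
  intro k
  induction k with
  | zero =>
    intro n Ll Lu l hn hk h1 h2 h
    cases l with
    | nil =>
      refine ⟨by simp, List.Pairwise.nil, ?_⟩
      intro v _ h3 h4
      omega
    | cons e tl =>
      exact absurd h (by simp [tloop])
  | succ k ih =>
    intro n Ll Lu l hn hk h1 h2 h
    have e0 : tloop (k + 1) n Ll Lu l =
      frc (Nat.succ n) fun n' =>
      frc (Nat.add n n') fun m =>
      frc (dlo m) fun d =>
      frc (Nat.add Ll d) fun Ll' =>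
      frc (Nat.add Lu (Nat.add d (der m))) fun Lu' =>
      cond (Nat.beq (kp n') 0) (tloop k n' Ll' Lu' l)
        (tmatch n' Ll' Lu' l (fun tl => tloop k n' Ll' Lu' tl)) := rfl
    rw [e0] at h
    simp only [frc_eq] at h
    have hm : Nat.add n (Nat.succ n) = 2 * n + 1 := by
      change n + (n + 1) = 2 * n + 1
      ring
    rw [hm] at h
    set Ll' : ℕ := Nat.add Ll (dlo (2 * n + 1)) with hLl
    set Lu' : ℕ := Nat.add Lu (Nat.add (dlo (2 * n + 1)) (der (2 * n + 1))) with hLu
    have b1 : (Ll' : ℝ) ≤ SC * Real.log ((n + 1 : ℕ) : ℝ) := by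
      have h3 := dlo_le n (by omega)
      have h4 : (Ll' : ℝ) = Ll + dlo (2 * n + 1) := by
        rw [hLl]; exact Nat.cast_add _ _
      rw [h4]
      push_cast
      linarith
    have b2 : SC * Real.log ((n + 1 : ℕ) : ℝ) ≤ (Lu' : ℝ) := by
      have h3 := le_dup n (by omega)
      have h4 : (Lu' : ℝ) = Lu + (dlo (2 * n + 1) + der (2 * n + 1)) := by
        rw [hLu]
        have := Nat.cast_add (R := ℝ) Lu (Nat.add (dlo (2 * n + 1)) (der (2 * n + 1)))
        have h5 := Nat.cast_add (R := ℝ) (dlo (2 * n + 1)) (der (2 * n + 1))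
        exact this.trans (by rw [← h5]; rfl)
      rw [h4]
      push_cast
      linarith
    have hpp := kp_ne_zero_iff (n := n + 1) (by omega) (by omega)
    cases hκ : Nat.beq (kp n.succ) 0 with
    | true =>
      rw [hκ] at h
      simp only [cond_true] at h
      rw [Nat.beq_eq] at hκ
      have hκ' : ¬ IsPrimePow (n + 1) := fun hc => hpp.2 hc hκ
      obtain ⟨g1, g2, g3⟩ := ih (n + 1) Ll' Lu' l (by omega) (by omega) b1 b2 h
      have e1 : n + 1 + k = n + (k + 1) := by ring
      rw [e1] at g1 g3
      refine ⟨fun e he => ⟨by have := (g1 e he).1; omega, (g1 e he).2⟩, g2, ?_⟩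
      intro v hv h3 h4
      by_cases hvn : v = n + 1
      · exact absurd (hvn ▸ hv) hκ'
      · exact g3 v hv (by omega) h4
    | false =>
      rw [hκ] at h
      simp only [cond_false] at h
      have hκ' : IsPrimePow (n + 1) := by
        apply hpp.1
        intro h0
        have : Nat.beq (kp n.succ) 0 = true := by rw [Nat.beq_eq]; exact h0
        rw [this] at hκ
        exact absurd hκ (by simp)
      cases l with
      | nil => exact absurd h (by simp [tmatch])
      | cons e tl =>
        unfold tmatch at h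
        simp only at h
        cases hte : tent e n.succ Ll' Lu' with
        | false => rw [hte] at h; simp at h
        | true =>
          rw [hte] at h
          simp only [cond_true] at h
          unfold tent at hte
          simp only [Bool.and_eq_true, Nat.beq_eq, Nat.ble_eq] at hte
          obtain ⟨t1, t2, t3, t4⟩ := hte
          have t1' : e.1 = n + 1 := t1
          obtain ⟨g1, g2, g3⟩ := ih (n + 1) Ll' Lu' tl (by omega) (by omega) b1 b2 h
          have e1 : n + 1 + k = n + (k + 1) := by ring
          rw [e1] at g1 g3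
          have hS : (SC : ℝ) = 1000000000000 := by norm_num [SC]
          have heok : EOK e := by
            refine ⟨by rw [t1']; exact hκ', ?_, ?_, ?_⟩
            · rw [t2, t1']
              exact spf_pl (by omega) (by omega)
            · have t3' : ((e.2.2 * 1000 : ℕ) : ℝ) ≤ Ll' := by exact_mod_cast t3
              rw [t1']
              rw [hS] at b1
              push_cast at t3' b1 ⊢
              linarith
            · have t4' : (Lu' : ℝ) ≤ (((e.2.2 + 200) * 1000 : ℕ) : ℝ) := by exact_mod_cast t4
              rw [t1']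
              rw [hS] at b2
              push_cast at t4' b2 ⊢
              linarith
          refine ⟨?_, ?_, ?_⟩
          · intro e' he'
            rcases List.mem_cons.1 he' with rfl | he'
            · exact ⟨by omega, by omega, heok⟩
            · exact ⟨by have := (g1 e' he').1; omega, (g1 e' he').2⟩
          · refine List.pairwise_cons.2 ⟨?_, g2⟩
            intro e' he'
            have := (g1 e' he').1
            omega
          · intro v hv h3 h4
            by_cases hvn : v = n + 1
            · exact ⟨e, by simp, by omega⟩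
            · obtain ⟨e', he', h5⟩ := g3 v hv (by omega) h4
              exact ⟨e', by simp [he'], h5⟩

theorem PT_run : tloop 9998 2 693147180300 693147180800 PT.tail = true := by decide +kernel

theorem PT_good : TGood 1 10000 PT := by
  have h1 := Real.log_two_gt_d9
  have h2 := Real.log_two_lt_d9
  have hS : (SC : ℝ) = 1000000000000 := by norm_num [SC]
  obtain ⟨g1, g2, g3⟩ := tloop_sound 9998 2 693147180300 693147180800 PT.tail (le_refl _)
    (by norm_num) (by rw [hS]; push_cast; linarith) (by rw [hS]; push_cast; linarith) PT_run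
  have e1 : PT = (2, 2, 693147180) :: PT.tail := rfl
  have heok : EOK (2, 2, 693147180) := by
    refine ⟨Nat.prime_two.isPrimePow, by simp, ?_, ?_⟩
    · push_cast; linarith
    · push_cast; linarith
  rw [e1]
  refine ⟨?_, ?_, ?_⟩
  · intro e he
    rcases List.mem_cons.1 he with rfl | he
    · exact ⟨by norm_num, by norm_num, heok⟩
    · exact ⟨by have := (g1 e he).1; omega, (g1 e he).2⟩
  · exact List.pairwise_cons.2 ⟨fun e he => (g1 e he).1, g2⟩
  · intro v hv h3 h4
    by_cases hv2 : v = 2
    · exact ⟨(2, 2, 693147180), by simp, hv2.symm⟩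
    · obtain ⟨e, he, h5⟩ := g3 v hv (by omega) h4
      exact ⟨e, List.mem_cons_of_mem _ he, h5⟩

end Pool.Agent.EZ
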