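import Pool.Agent.EZ.KBound

/-!
# The sums `∑ hh (u v)` over prime powers `v`
-/

set_option autoImplicit false
set_option linter.unusedSectionVars false

namespace Pool.Agent.EZ

open Finset

/-- general Abel summation bound. -/
theorem abel_general (a : ℕ → ℝ) (g G : ℝ → ℝ) (c : ℝ) (n X : ℕ) (η δ : ℝ)
    (hη : 0 ≤ η) (hδ : 0 ≤ δ) (hcn : c ≤ n + 1) (hnX : n + 1 ≤ X)
    (hganti : ∀ x y, c ≤ x → x ≤ y → g y ≤ g x) (hg0 : ∀ x, c ≤ x → 0 ≤ g x)
    (hG : ∀ x y, c ≤ x → x ≤ y → (Real.log y - Real.log x) * g y ≤ G x - G y)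
    (hG0 : ∀ x, c ≤ x → 0 ≤ G x)
    (hB : ∀ N, n < N → ∑ m ∈ Ioc n N, a m ≤ Real.log N - Real.log c + η + (if X < N then δ else 0))
    (N : ℕ) (hN : n < N) :
    ∑ m ∈ Ioc n N, a m * g m ≤ G c + η * g c + δ * g X := by
  have hXc : c ≤ X := by
    have : ((n + 1 : ℕ) : ℝ) ≤ X := by exact_mod_cast hnX
    push_cast at this
    linarith
  have key : ∀ N, n + 1 ≤ N → ∑ m ∈ Ioc n N, a m * g m
      - (∑ m ∈ Ioc n N, a m - (Real.log N - Real.log c + η + (if X < N then δ else 0))) * g N
      ≤ G c - G N + η * g c + (if X < N then δ * g X else 0) := by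
    intro N hN
    induction N, hN using Nat.le_induction with
    | base =>
      have h1 : ¬ (X < n + 1) := by omega
      rw [if_neg h1, if_neg h1]
      have h2 : Ioc n (n + 1) = {n + 1} := by
        ext m; simp only [mem_Ioc, mem_singleton]; omega
      rw [h2, Finset.sum_singleton, Finset.sum_singleton]
      push_cast
      have h3 := hG c ((n : ℝ) + 1) le_rfl hcn
      have h4 := mul_le_mul_of_nonneg_left (hganti c ((n : ℝ) + 1) le_rfl hcn) hη
      linarith
    | succ N hN ih =>
      have hNr : c ≤ N := by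
        have : ((n + 1 : ℕ) : ℝ) ≤ N := by exact_mod_cast hN
        push_cast at this
        linarith
      have hsum : ∀ f : ℕ → ℝ, ∑ m ∈ Ioc n (N + 1), f m = ∑ m ∈ Ioc n N, f m + f (N + 1) := by
        intro f
        rw [← Finset.insert_Ioc_right_eq_Ioc_add_one (by omega), Finset.sum_insert (by simp)]
        ring
      rw [hsum, hsum]
      have hA := hB N (by omega)
      have hg1 := hganti N ((N : ℝ) + 1) hNr (by linarith)
      have hG1 := hG N ((N : ℝ) + 1) hNr (by linarith)
      have hmul := mul_le_mul_of_nonneg_right hA (sub_nonneg.2 hg1)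
      have hsplit : (if X < N + 1 then δ else 0) * g ((N : ℝ) + 1)
          + (if X < N then δ * g X else 0) ≤ (if X < N then δ else 0) * g ((N : ℝ) + 1)
          + (if X < N + 1 then δ * g X else 0) := by
        by_cases h1 : X < N
        · rw [if_pos h1, if_pos h1, if_pos (by omega), if_pos (by omega)]
        · by_cases h2 : X < N + 1
          · have h3 : X = N := by omega
            rw [if_neg h1, if_neg h1, if_pos h2, if_pos h2, h3]
            have := mul_le_mul_of_nonneg_left hg1 hδ
            linarith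
          · rw [if_neg h1, if_neg h1, if_neg h2, if_neg h2]
      push_cast
      nlinarith
  have h1 := key N (by omega)
  have hNr : c ≤ N := by
    have : ((n + 1 : ℕ) : ℝ) ≤ N := by exact_mod_cast hN
    push_cast at this
    linarith
  have h2 := hB N hN
  have h3 := hG0 N hNr
  have h4 := hg0 N hNr
  have h5 : (∑ m ∈ Ioc n N, a m - (Real.log N - Real.log c + η + (if X < N then δ else 0))) * g N ≤ 0 :=
    mul_nonpos_of_nonpos_of_nonneg (by linarith) h4
  have h6 : (if X < N then δ * g X else 0) ≤ δ * g X := by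
    split_ifs
    · exact le_rfl
    · exact mul_nonneg hδ (hg0 X hXc)
  linarith

/-- the kernel. -/
noncomputable def gu (u x : ℝ) : ℝ := 1 / (Real.log x * Real.log (u * x))

/-- its primitive. -/
noncomputable def Gu (u x : ℝ) : ℝ := 1 / Real.log u * Real.log (1 + Real.log u / Real.log x)

theorem gu_anti {u x y : ℝ} (hu : 1 < u) (hx : 1 < x) (h : x ≤ y) : gu u y ≤ gu u x := by
  unfold gu
  have h1 := Real.log_pos hx
  have h2 : Real.log x ≤ Real.log y := Real.log_le_log (by linarith) h
  have h3 : 0 < Real.log (u * x) := Real.log_pos (by nlinarith)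
  have h4 : Real.log (u * x) ≤ Real.log (u * y) :=
    Real.log_le_log (by nlinarith) (mul_le_mul_of_nonneg_left h (by linarith))
  exact one_div_le_one_div_of_le (by positivity) (mul_le_mul h2 h4 h3.le (by linarith))

theorem gu_nonneg {u x : ℝ} (hu : 1 < u) (hx : 1 < x) : 0 ≤ gu u x := by
  unfold gu
  have h1 := Real.log_pos hx
  have h3 : 0 < Real.log (u * x) := Real.log_pos (by nlinarith)
  positivity

theorem Gu_nonneg {u x : ℝ} (hu : 1 < u) (hx : 1 < x) : 0 ≤ Gu u x := by
  unfold Gu
  have h1 := Real.log_pos hx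
  have h2 := Real.log_pos hu
  have h3 : 0 ≤ Real.log (1 + Real.log u / Real.log x) := Real.log_nonneg (by
    have : 0 ≤ Real.log u / Real.log x := by positivity
    linarith)
  positivity

theorem Gu_step {u x y : ℝ} (hu : 1 < u) (hx : 1 < x) (h : x ≤ y) :
    (Real.log y - Real.log x) * gu u y ≤ Gu u x - Gu u y := by
  have hp := Real.log_pos hx
  have hL := Real.log_pos hu
  have hpq : Real.log x ≤ Real.log y := Real.log_le_log (by linarith) h
  unfold gu Gu
  rw [Real.log_mul (by linarith) (by linarith)]
  set p := Real.log x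
  set q := Real.log y
  set L := Real.log u
  have hq : 0 < q := by linarith
  have h1 : 1 / L * Real.log (1 + L / p) - 1 / L * Real.log (1 + L / q)
      = 1 / L * Real.log ((1 + L / p) / (1 + L / q)) := by
    rw [Real.log_div (by positivity) (by positivity)]
    ring
  rw [h1]
  have hr : 0 < (1 + L / p) / (1 + L / q) := by positivity
  have h2 := Real.one_sub_inv_le_log_of_pos hr
  have h3 : (q - p) * (1 / (q * (L + q))) ≤ 1 / L * (1 - ((1 + L / p) / (1 + L / q))⁻¹) := by
    have e : 1 / L * (1 - ((1 + L / p) / (1 + L / q))⁻¹) = (q - p) / (q * (p + L)) := by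
      field_simp
      ring
    rw [e, mul_one_div]
    apply div_le_div_of_nonneg_left (by linarith) (by positivity)
    apply mul_le_mul_of_nonneg_left _ hq.le
    linarith
  exact h3.trans (mul_le_mul_of_nonneg_left h2 (by positivity))

/-- sums of `hh (u v)` over prime powers `v > c`. -/
theorem theta_gen (F : Finset ℕ) (n X : ℕ) (c u η δ : ℝ) (hu : 1 < u) (hc : 1 < c)
    (hnc : (n : ℝ) ≤ c) (hcn : c ≤ n + 1) (hnX : n + 1 ≤ X) (hη : 0 ≤ η) (hδ : 0 ≤ δ)
    (hB : ∀ N, n < N → A1 N - A1 n ≤ Real.log N - Real.log c + η + (if X < N then δ else 0))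
    (hF : ∀ v ∈ F, IsPrimePow v ∧ c < v) :
    ∑ v ∈ F, hh (u * v) ≤ 1 / u * (Gu u c + η * gu u c + δ * gu u X) := by
  have hu0 : 0 < u := by linarith
  rcases F.eq_empty_or_nonempty with h | h
  · subst h
    simp only [Finset.sum_empty]
    have h1 := Gu_nonneg hu hc
    have h2 := mul_nonneg hη (gu_nonneg hu hc)
    have h3 := mul_nonneg hδ (gu_nonneg hu (x := (X : ℝ)) (by
      have : ((n + 1 : ℕ) : ℝ) ≤ X := by exact_mod_cast hnX
      push_cast at this
      linarith))
    positivity
  · set N := F.max' h with hN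
    have hF' : ∀ v ∈ F, IsPrimePow v ∧ n < v ∧ v ≤ N := by
      intro v hv
      obtain ⟨h1, h2⟩ := hF v hv
      refine ⟨h1, ?_, F.le_max' v hv⟩
      have : (n : ℝ) < v := lt_of_le_of_lt hnc h2
      exact_mod_cast this
    have hnN : n < N := (hF' N (F.max'_mem h)).2.1
    have h1 : ∑ v ∈ F, hh (u * v) ≤ 1 / u * ∑ m ∈ Ioc n N, ap m * gu u m := by
      rw [Finset.mul_sum]
      calc ∑ v ∈ F, hh (u * v) = ∑ v ∈ F, 1 / u * (ap v * gu u v) := by
            apply Finset.sum_congr rfl
            intro v hv
            obtain ⟨h1, h2⟩ := hF v hv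
            have hv1 : (1 : ℝ) < v := by exact_mod_cast h1.one_lt
            have hlv := Real.log_pos hv1
            have hluv : 0 < Real.log (u * v) := Real.log_pos (by nlinarith)
            unfold hh ap gu
            rw [if_pos h1]
            field_simp
        _ ≤ ∑ m ∈ Ioc n N, 1 / u * (ap m * gu u m) := by
            apply Finset.sum_le_sum_of_subset_of_nonneg
            · intro v hv
              obtain ⟨-, h2, h3⟩ := hF' v hv
              exact mem_Ioc.2 ⟨h2, h3⟩
            · intro m hm _
              rw [mem_Ioc] at hm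
              have hcm : 1 < (m : ℝ) := by
                have : ((n + 1 : ℕ) : ℝ) ≤ m := by exact_mod_cast hm.1
                push_cast at this
                linarith
              exact mul_nonneg (by positivity) (mul_nonneg (ap_nonneg m) (gu_nonneg hu hcm))
    refine h1.trans (mul_le_mul_of_nonneg_left ?_ (by positivity))
    apply abel_general ap (gu u) (Gu u) c n X η δ hη hδ hcn hnX
    · exact fun x y hx hxy => gu_anti hu (by linarith) hxy
    · exact fun x hx => gu_nonneg hu (by linarith)
    · exact fun x y hx hxy => Gu_step hu (by linarith) hxy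
    · exact fun x hx => Gu_nonneg hu (by linarith)
    · intro M hM
      rw [sum_ap n M hM.le]
      exact hB M hM
    · exact hnN

end Pool.Agent.EZ
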