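import Pool.Agent.EZ.Bounds

/-!
# The static bound for an intersecting family over a root.

The family is split according to the first component (in the order of a list); over the new root
the supremum bound is used, and the total probability is controlled by Erdős–Ko–Rado for every
suffix of the list.
-/

set_option autoImplicit false
set_option linter.unusedSectionVars false

namespace Pool.Agent.EZ

open Finset Filter Topology

variable {V ι : Type*} [DecidableEq V] [DecidableEq ι]

theorem ExL_perm {l l' : List V} (h : l.Perm l') (p : V → ℝ) : ∀ f : Finset V → ℝ,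
    ExL l p f = ExL l' p f := by
  induction h with
  | nil => intro f; rfl
  | cons a _ ih => intro f; simp only [ExL, ih]
  | swap a b l =>
    intro f
    simp only [ExL]
    have : (fun T => f (insert b (insert a T))) = (fun T => f (insert a (insert b T))) := by
      ext T; rw [Finset.insert_comm]
    rw [this]
    ring
  | trans _ _ ih1 ih2 => intro f; rw [ih1, ih2]

/-- equality of expectations when the functions agree on subsets of the list. -/
theorem ExL_congr_on (l : List V) (p : V → ℝ) : ∀ f g : Finset V → ℝ,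
    (∀ T : Finset V, (∀ v ∈ T, v ∈ l) → f T = g T) → ExL l p f = ExL l p g := by
  induction l with
  | nil => intro f g h; exact h ∅ (by simp)
  | cons a l ih =>
    intro f g h
    simp only [ExL]
    rw [ih f g (fun T hT => h T (fun v hv => List.mem_cons_of_mem _ (hT v hv))),
      ih (fun T => f (insert a T)) (fun T => g (insert a T)) (fun T hT => h _ (by
        intro v hv
        rcases Finset.mem_insert.1 hv with h1 | h1
        · rw [h1]; exact List.mem_cons_self
        · exact List.mem_cons_of_mem _ (hT v h1)))]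

/-- presence probability -/
noncomputable def pv (S val : V → ℝ) (v : V) : ℝ := 1 - Real.exp (-(S v / val v))

theorem PU_eq (l : List V) (hl : l.Nodup) (S val : V → ℝ) (D : Set (Finset V)) :
    PU l.toFinset S val D = ExL l (pv S val) (ind (up D)) := by
  unfold PU
  have h1 : (l.toFinset.toList).Perm l := by
    rw [List.perm_ext_iff_of_nodup (Finset.nodup_toList _) hl]
    intro a; simp
  rw [ExL_perm h1]
  apply ExL_congr_p
  intro a ha
  rw [if_pos (List.mem_toFinset.2 ha)]
  rfl

/-- members avoiding `v`. -/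
def av (v : V) (M : Finset (Finset V)) : Finset (Finset V) := M.filter (fun m => v ∉ m)

/-- link of a finite family. -/
def lkf (v : V) (M : Finset (Finset V)) : Finset (Finset V) :=
  (M.filter (fun m => v ∈ m)).image (fun m => m.erase v)

theorem lkf_coe (v : V) (M : Finset (Finset V)) :
    (↑(lkf v M) : Set (Finset V)) = lk v (↑M : Set (Finset V)) := by
  ext m
  simp only [lkf, lk, Finset.coe_image, Finset.coe_filter, Set.mem_image, Set.mem_ofPred_eq]
  constructor
  · rintro ⟨k, ⟨hk, hv⟩, rfl⟩
    refine ⟨Finset.notMem_erase v k, ?_⟩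
    rw [Finset.insert_erase hv]; exact hk
  · rintro ⟨hv, hm⟩
    exact ⟨insert v m, ⟨hm, Finset.mem_insert_self v m⟩, Finset.erase_insert hv⟩

/-- the split of the probability. -/
theorem Q_split (v : V) (l : List V) (hl : (v :: l).Nodup) (S val : V → ℝ)
    (hS : ∀ w ∈ v :: l, 0 ≤ S w) (hval : ∀ w ∈ v :: l, 1 < val w) (M : Finset (Finset V)) :
    (1 - pv S val v) * PU l.toFinset S val ↑(av v M) + pv S val v * PU l.toFinset S val ↑(lkf v M)
      ≤ PU (v :: l).toFinset S val ↑M := by
  obtain ⟨hvl, hl'⟩ := List.nodup_cons.1 hl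
  have hS' : ∀ w ∈ l.toFinset, 0 ≤ S w := fun w hw =>
    hS w (List.mem_cons_of_mem _ (List.mem_toFinset.1 hw))
  have hval' : ∀ w ∈ l.toFinset, 1 < val w := fun w hw =>
    hval w (List.mem_cons_of_mem _ (List.mem_toFinset.1 hw))
  rw [PU_eq l hl', PU_eq l hl', PU_eq (v :: l) hl]
  have hp : ∀ w ∈ v :: l, 0 ≤ pv S val w ∧ pv S val w ≤ 1 := by
    intro w hw
    unfold pv
    have h1 := Real.exp_pos (-(S w / val w))
    have h2 : Real.exp (-(S w / val w)) ≤ 1 := by
      apply Real.exp_le_one_iff.2
      have := div_nonneg (hS w hw) (le_trans zero_le_one (hval w hw).le)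
      linarith
    constructor <;> linarith
  simp only [ExL]
  have h0 := hp v List.mem_cons_self
  have hpl : ∀ a ∈ l, 0 ≤ pv S val a := fun a ha => (hp a (List.mem_cons_of_mem _ ha)).1
  have hpl1 : ∀ a ∈ l, pv S val a ≤ 1 := fun a ha => (hp a (List.mem_cons_of_mem _ ha)).2
  apply add_le_add
  · apply mul_le_mul_of_nonneg_left _ (by linarith)
    apply ExL_mono l _ hpl hpl1
    intro T
    by_cases hT : T ∈ up (↑(av v M) : Set (Finset V))
    · obtain ⟨m, hm, hmT⟩ := hT
      have : T ∈ up (↑M : Set (Finset V)) :=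
        ⟨m, Finset.mem_coe.2 (Finset.mem_filter.1 (Finset.mem_coe.1 hm)).1, hmT⟩
      rw [ind_of_mem this]
      exact ind_le_one _ _
    · rw [ind_of_not_mem hT]; exact ind_nonneg _ _
  · apply mul_le_mul_of_nonneg_left _ h0.1
    apply ExL_mono l _ hpl hpl1
    intro T
    rw [lkf_coe]
    exact up_lk v _ T

/-- suffix sum of the bound -/
noncomputable def om2 (S val : V → ℝ) (ω : List V → ℝ) : List V → ℝ
  | [] => 0
  | v :: l => S v / val v * ω l + om2 S val ω l

/-- the static bound. -/
theorem static_aux (π : V → ι) (S val : V → ℝ) (z : ℝ) (hz : 0 < z) (C ω0 : ℝ) (hC : 0 ≤ C)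
    (ω : List V → ℝ) : ∀ l : List V, l.Nodup → (∀ v ∈ l, 0 ≤ S v) → (∀ v ∈ l, 1 < val v) →
    (∀ l' : List V, l' <:+ l → ∀ r, ∑ v ∈ l'.toFinset.filter (fun v => π v = r), S v / val v ≤ ω l') →
    (∀ l' : List V, l' <:+ l → 0 ≤ ω l' ∧ ω l' ≤ ω0) → Real.exp ω0 ≤ 2 →
    (∀ v l', (v :: l') <:+ l → 1 < z * val v ∧ ∀ s, 0 ≤ s →
      Real.exp (XX l'.toFinset S val s) * (1 - (z * val v) ^ (-s)) ≤ C * Real.log (z * val v)) →
    ∀ M : Finset (Finset V), QP π (↑M : Set (Finset V)) → Inter π (↑M : Set (Finset V)) →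
    (∀ m ∈ M, m.Nonempty ∧ ∀ v ∈ m, v ∈ l) →
    ∑ m ∈ M, (∏ v ∈ m, S v) * hh (z * ∏ v ∈ m, val v)
      ≤ C / z * Real.exp ω0 * Real.exp (ω0 / 2) * (PU l.toFinset S val ↑M + om2 S val ω l) := by
  intro l
  induction l with
  | nil =>
    intro _ _ _ _ _ _ _ M _ _ hM
    have : M = ∅ := by
      apply Finset.eq_empty_of_forall_notMem
      intro m hm
      obtain ⟨⟨v, hv⟩, h2⟩ := hM m hm
      exact absurd (h2 v hv) (by simp)
    subst this
    simp only [Finset.sum_empty]
    have : 0 ≤ PU ([] : List V).toFinset S val ↑(∅ : Finset (Finset V)) :=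
      PU_nonneg _ S val (by simp) (by simp) _
    simp only [om2, add_zero]
    have := Real.exp_pos ω0
    have := Real.exp_pos (ω0 / 2)
    positivity
  | cons v l ih =>
    intro hnd hS hval hω hω0 hexp hK M hQP hI hM
    obtain ⟨hvl, hl'⟩ := List.nodup_cons.1 hnd
    have hsuf : ∀ l' : List V, l' <:+ l → l' <:+ v :: l := fun l' h => h.trans (List.suffix_cons v l)
    have hSl : ∀ w ∈ l, 0 ≤ S w := fun w hw => hS w (List.mem_cons_of_mem _ hw)
    have hvall : ∀ w ∈ l, 1 < val w := fun w hw => hval w (List.mem_cons_of_mem _ hw)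
    have hSf : ∀ w ∈ l.toFinset, 0 ≤ S w := fun w hw => hSl w (List.mem_toFinset.1 hw)
    have hvalf : ∀ w ∈ l.toFinset, 1 < val w := fun w hw => hvall w (List.mem_toFinset.1 hw)
    have hav : ∀ m ∈ av v M, m ∈ M ∧ v ∉ m := fun m hm => Finset.mem_filter.1 hm
    have ih' := ih hl' hSl hvall (fun l' h => hω l' (hsuf l' h)) (fun l' h => hω0 l' (hsuf l' h)) hexp
      (fun w l' h => hK w l' (hsuf _ h)) (av v M)
      (QP_subset hQP (by intro m hm; exact Finset.mem_coe.2 (hav m (Finset.mem_coe.1 hm)).1))
      (by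
        intro m hm m' hm'
        exact hI m (Finset.mem_coe.2 (hav m (Finset.mem_coe.1 hm)).1) m'
          (Finset.mem_coe.2 (hav m' (Finset.mem_coe.1 hm')).1))
      (by
        intro m hm
        obtain ⟨h1, h2⟩ := hav m hm
        refine ⟨(hM m h1).1, fun w hw => ?_⟩
        rcases List.mem_cons.1 ((hM m h1).2 w hw) with h | h
        · exact absurd (h ▸ hw) h2
        · exact h)
    obtain ⟨hz1, hKv⟩ := hK v l List.suffix_rfl
    have hωl := hω0 l (List.suffix_cons v l)
    have hω0' : 0 ≤ ω0 := hωl.1.trans hωl.2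
    have hlog : 0 < Real.log (z * val v) := Real.log_pos hz1
    -- the members containing `v`
    have hlk : ∑ m ∈ M.filter (fun m => v ∈ m), (∏ w ∈ m, S w) * hh (z * ∏ w ∈ m, val w)
        = S v * ∑ m ∈ lkf v M, (∏ w ∈ m, S w) * hh ((z * val v) * ∏ w ∈ m, val w) := by
      unfold lkf
      rw [Finset.sum_image, Finset.mul_sum]
      · apply Finset.sum_congr rfl
        intro m hm
        obtain ⟨-, hv⟩ := Finset.mem_filter.1 hm
        rw [← Finset.mul_prod_erase m S hv, ← Finset.mul_prod_erase m val hv]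
        rw [mul_assoc, mul_assoc z]
      · intro m hm m' hm' h
        have hv := (Finset.mem_filter.1 (Finset.mem_coe.1 hm)).2
        have hv' := (Finset.mem_filter.1 (Finset.mem_coe.1 hm')).2
        have h' : m.erase v = m'.erase v := h
        rw [← Finset.insert_erase hv, ← Finset.insert_erase hv', h']
    have hb := sup_bound π l.toFinset S val hSf hvalf (z * val v) hz1 (C * Real.log (z * val v))
      (1 - Real.exp (-ω0)) (by
        have : Real.exp (-ω0) ≤ 1 := Real.exp_le_one_iff.2 (by linarith)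
        linarith) (by
        have : Real.exp (-ω0) = (Real.exp ω0)⁻¹ := Real.exp_neg ω0
        have h2 : 0 < Real.exp ω0 := Real.exp_pos _
        have h3 : (2 : ℝ)⁻¹ ≤ (Real.exp ω0)⁻¹ := inv_anti₀ h2 hexp
        rw [this]; linarith) (by
        intro r
        have h1 := hω l (List.suffix_cons v l) r
        have h2 : Real.exp (-ω0)
            ≤ Real.exp (-∑ v ∈ l.toFinset.filter (fun v => π v = r), S v / val v) :=
          Real.exp_le_exp.2 (by linarith [hωl.2])
        linarith) hKv (lkf v M)
      (by rw [lkf_coe]; exact QP_lk hQP v)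
      (by
        intro m hm w hw
        obtain ⟨k, hk, rfl⟩ := Finset.mem_image.1 hm
        obtain ⟨hk1, hk2⟩ := Finset.mem_filter.1 hk
        have hwk := Finset.mem_of_mem_erase hw
        have hwv := Finset.ne_of_mem_erase hw
        rcases List.mem_cons.1 ((hM k hk1).2 w hwk) with h | h
        · exact absurd h hwv
        · exact List.mem_toFinset.2 h)
    have hsum : ∑ m ∈ M, (∏ w ∈ m, S w) * hh (z * ∏ w ∈ m, val w)
        = ∑ m ∈ M.filter (fun m => v ∈ m), (∏ w ∈ m, S w) * hh (z * ∏ w ∈ m, val w)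
          + ∑ m ∈ av v M, (∏ w ∈ m, S w) * hh (z * ∏ w ∈ m, val w) := by
      unfold av
      rw [Finset.sum_filter_add_sum_filter_not]
    rw [hsum, hlk]
    set P := PU l.toFinset S val ↑(lkf v M) with hP
    set Qv := PU (v :: l).toFinset S val ↑M with hQv
    set Q' := PU l.toFinset S val ↑(av v M) with hQ'
    have hsplit := Q_split v l hnd S val hS hval M
    have hP0 : 0 ≤ P := PU_nonneg _ S val hSf hvalf _
    have hQ'0 : 0 ≤ Q' := PU_nonneg _ S val hSf hvalf _
    have hQ'ω : Q' ≤ ω l := by
      have h1 := PU_le_of_inter π l.toFinset S val hSf hvalf (1 - Real.exp (-(ω l)))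
        (by
          have : Real.exp (-(ω l)) ≤ 1 := Real.exp_le_one_iff.2 (by linarith [hωl.1])
          linarith)
        (by
          have h2 : Real.exp (-ω0) ≤ Real.exp (-(ω l)) := Real.exp_le_exp.2 (by linarith [hωl.2])
          have : Real.exp (-ω0) = (Real.exp ω0)⁻¹ := Real.exp_neg ω0
          have h4 : 0 < Real.exp ω0 := Real.exp_pos _
          have h3 : (2 : ℝ)⁻¹ ≤ (Real.exp ω0)⁻¹ := inv_anti₀ h4 hexp
          linarith)
        (by
          intro r
          have h1 := hω l (List.suffix_cons v l) r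
          have h2 : Real.exp (-(ω l))
              ≤ Real.exp (-∑ v ∈ l.toFinset.filter (fun v => π v = r), S v / val v) :=
            Real.exp_le_exp.2 (by linarith)
          linarith) ↑(av v M)
        (by
          intro m hm m' hm'
          exact hI m (Finset.mem_coe.2 (hav m (Finset.mem_coe.1 hm)).1) m'
            (Finset.mem_coe.2 (hav m' (Finset.mem_coe.1 hm')).1))
      have h2 := Real.add_one_le_exp (-(ω l))
      linarith
    -- weights
    have hSv := hS v List.mem_cons_self
    have hvv := hval v List.mem_cons_self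
    have hval0 : 0 < val v := by linarith
    set w := S v / val v with hw
    have hw0 : 0 ≤ w := div_nonneg hSv hval0.le
    have hwω : w ≤ ω0 := by
      have h1 := hω (v :: l) List.suffix_rfl (π v)
      have h2 := (hω0 (v :: l) List.suffix_rfl).2
      have h3 : S v / val v ≤ ∑ x ∈ (v :: l).toFinset.filter (fun x => π x = π v), S x / val x := by
        apply Finset.single_le_sum (f := fun x => S x / val x)
        · intro x hx
          have hx' := List.mem_toFinset.1 (Finset.mem_filter.1 hx).1
          exact div_nonneg (hS x hx') (by linarith [hval x hx'])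
        · rw [Finset.mem_filter]
          exact ⟨List.mem_toFinset.2 List.mem_cons_self, rfl⟩
      linarith
    have hpv : pv S val v = 1 - Real.exp (-w) := rfl
    have hwp : w ≤ pv S val v * Real.exp (ω0 / 2) := by
      have h1 : w ≤ pv S val v * Real.exp (w / 2) := by
        rw [hpv]
        have h2 : Real.exp (-w) * Real.exp (w / 2) = Real.exp (-(w / 2)) := by
          rw [← Real.exp_add]; congr 1; ring
        have h3 : (1 - Real.exp (-w)) * Real.exp (w / 2) = Real.exp (w / 2) - Real.exp (-(w / 2)) := by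
          rw [sub_mul, h2, one_mul]
        rw [h3]
        have h4 := Real.self_le_sinh_iff.2 (show 0 ≤ w / 2 by linarith)
        rw [Real.sinh_eq] at h4
        linarith
      have h5 : 0 ≤ pv S val v := by
        rw [hpv]
        have : Real.exp (-w) ≤ 1 := Real.exp_le_one_iff.2 (by linarith)
        linarith
      refine h1.trans (mul_le_mul_of_nonneg_left ?_ h5)
      exact Real.exp_le_exp.2 (by linarith)
    have hE0 : 0 < Real.exp ω0 := Real.exp_pos _
    have hE2 : 0 < Real.exp (ω0 / 2) := Real.exp_pos _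
    have hE2' : 1 ≤ Real.exp (ω0 / 2) := Real.one_le_exp (by linarith)
    have hinv : 1 / (1 - (1 - Real.exp (-ω0))) = Real.exp ω0 := by
      rw [sub_sub_cancel, Real.exp_neg, one_div, inv_inv]
    rw [hinv] at hb
    -- first part
    have hfirst : S v * ∑ m ∈ lkf v M, (∏ w ∈ m, S w) * hh ((z * val v) * ∏ w ∈ m, val w)
        ≤ C / z * Real.exp ω0 * (w * P) := by
      calc _ ≤ S v * (hh (z * val v) * (C * Real.log (z * val v)) * (Real.exp ω0 * P)) :=
            mul_le_mul_of_nonneg_left hb hSv
        _ = _ := by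
          unfold hh
          rw [hw]
          field_simp
    have hωl0 := hωl.1
    have hCz : 0 ≤ C / z * Real.exp ω0 := by positivity
    have hpQ : w * P ≤ Real.exp (ω0 / 2) * (pv S val v * P) := by
      calc w * P ≤ (pv S val v * Real.exp (ω0 / 2)) * P := mul_le_mul_of_nonneg_right hwp hP0
        _ = _ := by ring
    have hpvw : pv S val v ≤ w := by
      rw [hpv]; linarith [Real.add_one_le_exp (-w)]
    have hfin : pv S val v * P + (Q' + om2 S val ω l) ≤ Qv + om2 S val ω (v :: l) := by
      have e1 : om2 S val ω (v :: l) = w * ω l + om2 S val ω l := rfl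
      rw [e1]
      have h1 : pv S val v * Q' ≤ w * ω l := mul_le_mul hpvw hQ'ω hQ'0 hw0
      nlinarith
    calc _ ≤ C / z * Real.exp ω0 * (w * P)
          + C / z * Real.exp ω0 * Real.exp (ω0 / 2) * (Q' + om2 S val ω l) := add_le_add hfirst ih'
      _ ≤ C / z * Real.exp ω0 * (Real.exp (ω0 / 2) * (pv S val v * P))
          + C / z * Real.exp ω0 * Real.exp (ω0 / 2) * (Q' + om2 S val ω l) := by
          have := mul_le_mul_of_nonneg_left hpQ hCz
          linarith
      _ = C / z * Real.exp ω0 * Real.exp (ω0 / 2) * (pv S val v * P + (Q' + om2 S val ω l)) := by ring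
      _ ≤ _ := mul_le_mul_of_nonneg_left hfin (by positivity)

/-- `(1 - x^(-s)) / log x` is antitone. -/
theorem ratio_anti (x y s : ℝ) (hx : 1 < x) (hxy : x ≤ y) (hs : 0 ≤ s) :
    (1 - y ^ (-s)) * Real.log x ≤ (1 - x ^ (-s)) * Real.log y := by
  have hx0 : 0 < x := by linarith
  have hy0 : 0 < y := by linarith
  have hlx : 0 < Real.log x := Real.log_pos hx
  have hly : 0 < Real.log y := Real.log_pos (by linarith)
  have hlxy : Real.log x ≤ Real.log y := Real.log_le_log hx0 hxy
  rw [Real.rpow_def_of_pos hx0, Real.rpow_def_of_pos hy0]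
  set a := Real.log x
  set b := Real.log y
  -- convexity of exp : exp(-a s) ≤ (1 - a/b) exp 0 + (a/b) exp (-b s)
  have hconv := convexOn_exp.2 (Set.mem_univ (0 : ℝ)) (Set.mem_univ (b * -s))
    (show 0 ≤ 1 - a / b by rw [sub_nonneg, div_le_one hly]; exact hlxy)
    (show 0 ≤ a / b by positivity) (by ring)
  simp only [smul_eq_mul, mul_zero, zero_add, Real.exp_zero, mul_one] at hconv
  have e1 : a / b * (b * -s) = a * -s := by field_simp
  rw [e1] at hconv
  have h2 := mul_le_mul_of_nonneg_right hconv hly.le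
  have h3 : (1 - a / b + a / b * Real.exp (b * -s)) * b = b - a + a * Real.exp (b * -s) := by
    field_simp
  rw [h3] at h2
  nlinarith

theorem XX_mono_subset (VS VS' : Finset V) (h : VS ⊆ VS') (S val : V → ℝ)
    (hS : ∀ v ∈ VS', 0 ≤ S v) (hval : ∀ v ∈ VS', 1 < val v) (s : ℝ) :
    XX VS S val s ≤ XX VS' S val s :=
  Finset.sum_le_sum_of_subset_of_nonneg h fun v hv _ => aa_nonneg S val v (hS v hv) (hval v hv) s

/-- **static bound** for an intersecting quasi-primitive family over the root `z`. -/
theorem static_bound (π : V → ι) (S val : V → ℝ) (z x : ℝ) (hz : 0 < z) (hzx : 1 < z * x)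
    (C ω0 : ℝ) (hC : 0 ≤ C) (ω : List V → ℝ) (l : List V) (hl : l.Nodup)
    (hS : ∀ v ∈ l, 0 ≤ S v) (hval : ∀ v ∈ l, 1 < val v) (hx : ∀ v ∈ l, x ≤ val v)
    (hω : ∀ l' : List V, l' <:+ l → ∀ r,
      ∑ v ∈ l'.toFinset.filter (fun v => π v = r), S v / val v ≤ ω l')
    (hω0 : ∀ l' : List V, l' <:+ l → 0 ≤ ω l' ∧ ω l' ≤ ω0) (hexp : Real.exp ω0 ≤ 2)
    (hK : ∀ s, 0 ≤ s →
      Real.exp (XX l.toFinset S val s) * (1 - (z * x) ^ (-s)) ≤ C * Real.log (z * x))
    (M : Finset (Finset V)) (hQ : QP π (↑M : Set (Finset V))) (hI : Inter π (↑M : Set (Finset V)))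
    (hM : ∀ m ∈ M, m.Nonempty ∧ ∀ v ∈ m, v ∈ l) :
    ∑ m ∈ M, (∏ v ∈ m, S v) * hh (z * ∏ v ∈ m, val v)
      ≤ C / z * Real.exp ω0 * Real.exp (ω0 / 2) * (PU l.toFinset S val ↑M + om2 S val ω l) := by
  apply static_aux π S val z hz C ω0 hC ω l hl hS hval hω hω0 hexp _ M hQ hI hM
  intro v l' hvl'
  have hvl : v ∈ l := hvl'.subset List.mem_cons_self
  have hxv := hx v hvl
  have h1 : z * x ≤ z * val v := mul_le_mul_of_nonneg_left hxv hz.le
  have h2 : 1 < z * val v := by linarith
  refine ⟨h2, fun s hs => ?_⟩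
  have hlx : 0 < Real.log (z * x) := Real.log_pos hzx
  have hlv : 0 < Real.log (z * val v) := Real.log_pos h2
  have h3 := ratio_anti (z * x) (z * val v) s hzx h1 hs
  have h4 := hK s hs
  have hsub : l'.toFinset ⊆ l.toFinset := by
    intro w hw
    rw [List.mem_toFinset] at hw ⊢
    exact hvl'.subset (List.mem_cons_of_mem _ hw)
  have h5 : XX l'.toFinset S val s ≤ XX l.toFinset S val s :=
    XX_mono_subset _ _ hsub S val (fun w hw => hS w (List.mem_toFinset.1 hw))
      (fun w hw => hval w (List.mem_toFinset.1 hw)) s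
  have h6 : 0 ≤ 1 - (z * val v) ^ (-s) := by
    have := Real.rpow_le_one_of_one_le_of_nonpos h2.le (show -s ≤ 0 by linarith)
    linarith
  have h7 : Real.exp (XX l'.toFinset S val s) * (1 - (z * val v) ^ (-s))
      ≤ Real.exp (XX l.toFinset S val s) * (1 - (z * val v) ^ (-s)) :=
    mul_le_mul_of_nonneg_right (Real.exp_le_exp.2 h5) h6
  refine h7.trans ?_
  have h8 : Real.exp (XX l.toFinset S val s) * ((1 - (z * val v) ^ (-s)) * Real.log (z * x))
      ≤ Real.exp (XX l.toFinset S val s) * ((1 - (z * x) ^ (-s)) * Real.log (z * val v)) :=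
    mul_le_mul_of_nonneg_left h3 (Real.exp_pos _).le
  have h9 : Real.exp (XX l.toFinset S val s) * ((1 - (z * x) ^ (-s)) * Real.log (z * val v))
      ≤ C * Real.log (z * x) * Real.log (z * val v) := by
    have := mul_le_mul_of_nonneg_right h4 hlv.le
    linarith
  have h10 : (Real.exp (XX l.toFinset S val s) * (1 - (z * val v) ^ (-s))) * Real.log (z * x)
      ≤ (C * Real.log (z * val v)) * Real.log (z * x) := by linarith
  exact le_of_mul_le_mul_right h10 hlx

end Pool.Agent.EZ
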