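import Pool.Agent.EZ.EngHi

/-!
# Large roots: survival probabilities and killed weights (helper46)
-/

set_option autoImplicit false

namespace Pool.Agent.EZ

open Finset

/-- probabilities of the five atoms. -/
def qU : Fin 5 → ℝ := ![0.231, 0.178, 0.136, 0.105, 0.35]

/-- scales of the five atoms. -/
def dU : Fin 5 → ℕ := ![10000, 13000, 16900, 21970, 28561]

theorem qU_0 : qU 0 = 0.231 := rfl
theorem qU_1 : qU 1 = 0.178 := rfl
theorem qU_2 : qU 2 = 0.136 := rfl
theorem qU_3 : qU 3 = 0.105 := rfl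
theorem qU_4 : qU 4 = 0.35 := rfl
theorem dU_0 : dU 0 = 10000 := rfl
theorem dU_1 : dU 1 = 13000 := rfl
theorem dU_2 : dU 2 = 16900 := rfl
theorem dU_3 : dU 3 = 21970 := rfl
theorem dU_4 : dU 4 = 28561 := rfl

theorem qU_sum : ∑ i, qU i = 1 := by
  rw [Fin.sum_univ_five, qU_0, qU_1, qU_2, qU_3, qU_4]
  norm_num

theorem forall_five {P : Fin 5 → Prop} (h0 : P 0) (h1 : P 1) (h2 : P 2) (h3 : P 3) (h4 : P 4) :
    ∀ i, P i := by
  intro i
  fin_cases i
  · exact h0
  · exact h1
  · exact h2
  · exact h3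
  · exact h4

theorem qU_nonneg (i : Fin 5) : 0 ≤ qU i := by
  revert i
  apply forall_five <;> simp only [qU_0, qU_1, qU_2, qU_3, qU_4] <;> norm_num

theorem dU_pos (i : Fin 5) : 10000 ≤ dU i ∧ dU i ≤ 28561 := by
  revert i
  apply forall_five <;> simp only [dU_0, dU_1, dU_2, dU_3, dU_4] <;> norm_num

/-- lower bound for the killed part. -/
noncomputable def dlow (x w : ℕ) : ℝ := ∑ i, if w ≤ x / dU i then qU i else 0

/-- upper bound for the killed part. -/
noncomputable def dup (x w : ℕ) : ℝ := ∑ i, if w ≤ x / dU i + 2 then qU i else 0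

theorem dlow_le_one (x w : ℕ) : dlow x w ≤ 1 := by
  rw [← qU_sum]
  apply Finset.sum_le_sum
  intro i _
  split_ifs
  · exact le_rfl
  · exact qU_nonneg i

theorem dlow_eq_zero {x w : ℕ} (h : x / 10000 < w) : dlow x w = 0 := by
  apply Finset.sum_eq_zero
  intro i _
  rw [if_neg]
  have h1 : x / dU i ≤ x / 10000 := Nat.div_le_div_left (dU_pos i).1 (by norm_num)
  omega

theorem dup_eq_one {x w : ℕ} (h : w ≤ x / 28561 + 2) : dup x w = 1 := by
  rw [← qU_sum]
  apply Finset.sum_congr rfl
  intro i _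
  rw [if_pos]
  have h1 : x / 28561 ≤ x / dU i :=
    Nat.div_le_div_left (dU_pos i).2 (by have := (dU_pos i).1; omega)
  omega

theorem dup_nonneg (x w : ℕ) : 0 ≤ dup x w := by
  apply Finset.sum_nonneg
  intro i _
  split_ifs
  · exact qU_nonneg i
  · exact le_rfl

/-- survival of a prime. -/
theorem Sx_prime (x r : ℕ) (hr : 11 ≤ r) (hp : r.Prime) :
    Sx x r = ∑ i, if x ≤ (r - 2) * dU i then qU i else 0 := by
  rw [Sx_eq_svN x r r hp.minFac_eq, svN_prime x r hr hp]
  simp only [Fin.sum_univ_five]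
  rw [dU_0, dU_1, dU_2, dU_3, dU_4, qU_0, qU_1, qU_2, qU_3, qU_4]
  push_cast [Nat.cast_ite]
  split_ifs <;> norm_num

/-- `Sx = 0` for the special components. -/
theorem Sx_special (x : ℕ) (hx : 420000 < x) (w : ℕ)
    (hw : w ∈ ({2, 3, 4, 5, 7, 8, 9, 16, 25, 27, 32, 64} : Finset ℕ)) : Sx x w = 0 := by
  have key : ∀ r j, ck w r j ≤ 420000 := by
    intro r j
    simp only [Finset.mem_insert, Finset.mem_singleton] at hw
    rcases hw with h | h | h | h | h | h | h | h | h | h | h | h <;> subst h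
    · exact (show (10000 : ℕ) ≤ 420000 by norm_num)
    · change (if j = 0 then 15000 else 30000) ≤ 420000
      split_ifs <;> norm_num
    · exact (show (20000 : ℕ) ≤ 420000 by norm_num)
    · change (if j = 0 then 35000 else 55000) ≤ 420000
      split_ifs <;> norm_num
    · change (if j = 0 then 60000 else 127500) ≤ 420000
      split_ifs <;> norm_num
    · exact (show (50000 : ℕ) ≤ 420000 by norm_num)
    · change (if j = 0 then 40000 else 65000) ≤ 420000
      split_ifs <;> norm_num
    · exact (show (70000 : ℕ) ≤ 420000 by norm_num)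
    · exact (show (188000 : ℕ) ≤ 420000 by norm_num)
    · exact (show (189000 : ℕ) ≤ 420000 by norm_num)
    · exact (show (192000 : ℕ) ≤ 420000 by norm_num)
    · exact (show (420000 : ℕ) ≤ 420000 by norm_num)
  unfold Sx svN
  rw [if_neg (by have := key w.minFac 0; omega), if_neg (by have := key w.minFac 1; omega),
    if_neg (by have := key w.minFac 2; omega), if_neg (by have := key w.minFac 3; omega),
    if_neg (by have := key w.minFac 4; omega)]
  simp

/-- the three kinds of prime powers. -/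
theorem pp_cases (w : ℕ) (hw : IsPrimePow w) :
    w ∈ ({2, 3, 4, 5, 7, 8, 9, 16, 25, 27, 32, 64} : Finset ℕ) ∨ (w.Prime ∧ 11 ≤ w) ∨
    (¬ w.Prime ∧ ∃ r k : ℕ, r.Prime ∧ 2 ≤ k ∧ w = r ^ k ∧
      r ^ k ∉ ({4, 8, 9, 16, 25, 27, 32, 64} : Finset ℕ)) := by
  obtain ⟨p, k, hp, hk, rfl⟩ := (isPrimePow_nat_iff _).1 hw
  by_cases hk1 : k = 1
  · subst hk1
    rw [pow_one]
    by_cases h11 : 11 ≤ p
    · exact Or.inr (Or.inl ⟨hp, h11⟩)
    · left
      push Not at h11
      have h2 := hp.two_le
      interval_cases p <;> first | (simp; done) | (exfalso; revert hp; norm_num)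
  · by_cases hs : p ^ k ∈ ({4, 8, 9, 16, 25, 27, 32, 64} : Finset ℕ)
    · left
      simp only [Finset.mem_insert, Finset.mem_singleton] at hs ⊢
      tauto
    · right; right
      exact ⟨Nat.Prime.not_prime_pow (by omega), p, k, hp, by omega, rfl, hs⟩

/-- killed part, lower bound. -/
theorem dlow_le (x w : ℕ) (hx : 420000 < x) (hw : IsPrimePow w) : dlow x w ≤ 1 - Sx x w := by
  rcases pp_cases w hw with h | ⟨hp, h11⟩ | ⟨-, r, k, hr, hk, rfl, hs⟩
  · rw [Sx_special x hx w h]
    have := dlow_le_one x w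
    linarith
  · rw [Sx_prime x w h11 hp, ← qU_sum, ← Finset.sum_sub_distrib]
    apply Finset.sum_le_sum
    intro i _
    have hD := (dU_pos i).1
    by_cases h1 : w ≤ x / dU i
    · rw [if_pos h1, if_neg, sub_zero]
      have h2 : w * dU i ≤ x := (Nat.le_div_iff_mul_le (by omega)).1 h1
      obtain ⟨t, rfl⟩ : ∃ t, w = t + 2 := ⟨w - 2, by omega⟩
      rw [Nat.add_sub_cancel]
      nlinarith
    · rw [if_neg h1]
      split_ifs
      · simp
      · simpa using qU_nonneg i
  · by_cases h1 : x / 10000 < r ^ k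
    · rw [dlow_eq_zero h1]
      have := Sx_le_one x (r ^ k)
      linarith
    · rw [Sx_generic x r k hr hk hs, if_neg]
      · have := dlow_le_one x (r ^ k)
        linarith
      · have h2 : r ^ k * 10000 ≤ x := (Nat.le_div_iff_mul_le (by norm_num)).1 (by omega)
        have h3 : 0 < r ^ (k - 1) := Nat.pow_pos hr.pos
        have h4 : r ^ (k - 1) ≤ r ^ k := Nat.pow_le_pow_right hr.pos (by omega)
        omega

/-- killed part, upper bound for primes. -/
theorem dead_le (x w : ℕ) (hx : 139 ≤ x / 28561) (hp : w.Prime) : 1 - Sx x w ≤ dup x w := by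
  by_cases h11 : 11 ≤ w
  · rw [Sx_prime x w h11 hp]
    rw [← qU_sum, ← Finset.sum_sub_distrib]
    apply Finset.sum_le_sum
    intro i _
    have hD := (dU_pos i).1
    by_cases h1 : w ≤ x / dU i + 2
    · rw [if_pos h1]
      split_ifs
      · simpa using qU_nonneg i
      · simp
    · rw [if_neg h1, if_pos]
      · simp
      · have h2 : x / dU i < w - 2 := by omega
        have h3 := (Nat.div_lt_iff_lt_mul (by omega : 0 < dU i)).1 h2
        exact h3.le
  · rw [dup_eq_one (by omega)]
    have := Sx_nonneg x w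
    linarith

/-- everything survives beyond `2 (y + 1)`. -/
theorem Sx_one (x w : ℕ) (hx : 420000 < x) (hw : IsPrimePow w) (h : 2 * (x / 10000 + 1) ≤ w) :
    Sx x w = 1 := by
  have hx1 : x < (x / 10000 + 1) * 10000 := by omega
  rcases pp_cases w hw with h' | ⟨hp, h11⟩ | ⟨-, r, k, hr, hk, rfl, hs⟩
  · exfalso
    have : w ≤ 64 := by
      simp only [Finset.mem_insert, Finset.mem_singleton] at h'
      omega
    omega
  · rw [Sx_prime x w h11 hp, ← qU_sum]
    apply Finset.sum_congr rfl
    intro i _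
    rw [if_pos]
    have hD := (dU_pos i).1
    have h1 : x / 10000 + 1 ≤ w - 2 := by omega
    calc x ≤ (x / 10000 + 1) * 10000 := hx1.le
      _ ≤ (w - 2) * dU i := Nat.mul_le_mul h1 hD
  · rw [Sx_generic x r k hr hk hs, if_pos]
    have h2 : r ^ k = r * r ^ (k - 1) := by
      rw [← pow_succ']; congr 1; omega
    have h3 := hr.two_le
    have h4 : 2 * r ^ (k - 1) ≤ r ^ k := by
      rw [h2]; exact Nat.mul_le_mul_right _ h3
    omega

/-- the smallest alive components. -/
theorem alive_ge (x w : ℕ) (hx : 420000 < x) (hw : IsPrimePow w) (h : 0 < Sx x w) :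
    x ≤ w * 28561 ∧ x / 28561 < w := by
  have key : x + 28561 ≤ w * 28561 → x ≤ w * 28561 ∧ x / 28561 < w := by
    intro h; omega
  rcases pp_cases w hw with h' | ⟨hp, h11⟩ | ⟨-, r, k, hr, hk, rfl, hs⟩
  · rw [Sx_special x hx w h'] at h
    exact absurd h (lt_irrefl _)
  · rw [Sx_prime x w h11 hp] at h
    by_contra hcon
    have : ∑ i, (if x ≤ (w - 2) * dU i then qU i else 0) = 0 := by
      apply Finset.sum_eq_zero
      intro i _
      rw [if_neg]
      intro h1
      apply hcon
      have h2 : (w - 2) * dU i ≤ (w - 2) * 28561 := Nat.mul_le_mul_left _ (dU_pos i).2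
      apply key
      omega
    rw [this] at h
    exact absurd h (lt_irrefl _)
  · rw [Sx_generic x r k hr hk hs] at h
    by_cases h1 : x ≤ (r ^ k - r ^ (k - 1)) * 10000
    · have h3 : 0 < r ^ (k - 1) := Nat.pow_pos hr.pos
      have h5 : x ≤ (r ^ k - 1) * 10000 := h1.trans (Nat.mul_le_mul_right _ (by omega))
      have h6 : 0 < r ^ k := Nat.pow_pos hr.pos
      obtain ⟨t, ht⟩ : ∃ t, r ^ k = t + 1 := ⟨r ^ k - 1, by omega⟩
      rw [ht, Nat.add_sub_cancel] at h5
      rw [ht]
      refine ⟨by linarith, (Nat.div_lt_iff_lt_mul (by norm_num)).2 (by linarith)⟩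
    · rw [if_neg h1] at h
      exact absurd h (lt_irrefl _)

/-- swapping the atoms with a sum over prime powers. -/
theorem sum_dlow (x Y : ℕ) (hY : x / 10000 ≤ Y) (f : ℕ → ℝ) :
    ∑ w ∈ ppK Y, dlow x w * f w = ∑ i, qU i * ∑ w ∈ ppK (x / dU i), f w := by
  unfold dlow
  simp_rw [Finset.sum_mul]
  rw [Finset.sum_comm]
  apply Finset.sum_congr rfl
  intro i _
  have h1 : x / dU i ≤ x / 10000 := Nat.div_le_div_left (dU_pos i).1 (by norm_num)
  rw [Finset.mul_sum]
  have h2 : (ppK (x / dU i)) = (ppK Y).filter (fun w => w ≤ x / dU i) := by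
    ext w
    simp only [Finset.mem_filter, mem_ppK]
    constructor
    · rintro ⟨a, b⟩; exact ⟨⟨a, by omega⟩, b⟩
    · rintro ⟨⟨a, _⟩, b⟩; exact ⟨a, b⟩
  rw [h2, Finset.sum_filter]
  apply Finset.sum_congr rfl
  intro w _
  split_ifs <;> simp

/-- lower bound of the killed weight. -/
theorem Mz_ge (z x Y : ℕ) (hx : 420000 < x) (hY : x / 10000 ≤ Y) :
    ∑ i, qU i * Hpp (x / dU i) ≤ Mz z x Y := by
  have h := sum_dlow x Y hY (fun w => 1 / (w : ℝ))
  unfold Hpp
  rw [← h]
  unfold Mz
  apply Finset.sum_le_sum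
  intro w hw
  have hpp := (mem_ppK.1 hw).1
  rw [mul_one_div]
  apply div_le_div_of_nonneg_right _ (Nat.cast_nonneg _)
  split_ifs
  · exact dlow_le_one x w
  · exact dlow_le x w hx hpp

theorem Mz_term_nonneg (z x w : ℕ) :
    0 ≤ (if w.minFac = z.minFac then 1 else 1 - Sx x w) / (w : ℝ) := by
  apply div_nonneg _ (Nat.cast_nonneg _)
  split_ifs
  · norm_num
  · have := Sx_le_one x w
    linarith

theorem Mz_mono (z x : ℕ) {X Y : ℕ} (h : X ≤ Y) : Mz z x X ≤ Mz z x Y := by
  apply Finset.sum_le_sum_of_subset_of_nonneg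
  · intro w hw
    rw [mem_ppK] at hw ⊢
    exact ⟨hw.1, hw.2.trans h⟩
  · intro w _ _
    exact Mz_term_nonneg z x w

/-- all weights together. -/
theorem Mz_add_Wt (z x X : ℕ) : Mz z x X + Wt z x X = Hpp X := by
  unfold Mz Wt Hpp
  rw [Finset.sum_filter, ← Finset.sum_add_distrib]
  apply Finset.sum_congr rfl
  intro w _
  by_cases h : w.minFac = z.minFac
  · simp [h]
  · rw [if_pos (show w.minFac ≠ z.minFac from h), if_neg h]
    ring

theorem Hpp_le (z x X Y : ℕ) (h : X ≤ Y) : Hpp X ≤ Mz z x Y + Wt z x X := by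
  have := Mz_add_Wt z x X
  have := Mz_mono z x h
  linarith

/-- sums over the powers of one prime beyond `v`. -/
theorem qsum_one (z v : ℕ) (hv : 1 ≤ v) (VS : Finset ℕ) (hVS : ∀ w ∈ VS, IsPrimePow w ∧ v < w) :
    ∑ w ∈ VS.filter (fun w => w.minFac = z), 1 / (w : ℝ) ≤ 2 / v := by
  refine tail_gen (fun w : ℕ => 1 / (w : ℝ)) (fun w : ℕ => 2 / (w : ℝ)) v (fun w => by positivity)
    ?_ ?_ (fun w _ => by positivity) VS hVS z
  · intro a b ha hab
    have ha0 : (0 : ℝ) < a := by exact_mod_cast (by omega : 0 < a)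
    exact div_le_div_of_nonneg_left (by norm_num) ha0 (by exact_mod_cast hab)
  · intro r w hr hw
    have hw0 : (0 : ℝ) < w := by exact_mod_cast (by omega : 0 < w)
    have hr2 : (2 : ℝ) ≤ r := by exact_mod_cast hr
    push_cast
    rw [div_add_div _ _ hw0.ne' (by positivity), div_le_div_iff₀ (by positivity) hw0]
    nlinarith [mul_pos hw0 hw0, mul_nonneg (sub_nonneg.2 hr2) (mul_pos hw0 hw0).le]

theorem qsum_log (z v : ℕ) (hv : 3 ≤ v) (VS : Finset ℕ) (hVS : ∀ w ∈ VS, IsPrimePow w ∧ v < w) :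
    ∑ w ∈ VS.filter (fun w => w.minFac = z), Real.log w / (w : ℝ)
      ≤ (2 * Real.log v + 2 * Real.log 2) / v := by
  have hl2 : 0 < Real.log 2 := Real.log_pos (by norm_num)
  refine tail_gen (fun w : ℕ => Real.log w / (w : ℝ))
    (fun w : ℕ => (2 * Real.log w + 2 * Real.log 2) / (w : ℝ)) v
    (fun w => div_nonneg (Real.log_natCast_nonneg w) (Nat.cast_nonneg _)) ?_ ?_
    (fun w _ => div_nonneg (by have := Real.log_natCast_nonneg w; positivity)
      (Nat.cast_nonneg _)) VS hVS z
  · intro a b ha hab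
    have ha0 : (0 : ℝ) < a := by exact_mod_cast (by omega : 0 < a)
    have hab' : (a : ℝ) ≤ b := by exact_mod_cast hab
    have h3 : (3 : ℝ) ≤ a := by exact_mod_cast hv.trans ha
    have he : Real.exp 1 ≤ 3 := by have := Real.exp_one_lt_d9; linarith
    have h1 : Real.log b / b ≤ Real.log a / a :=
      Real.log_div_self_antitoneOn (show Real.exp 1 ≤ (a : ℝ) by linarith)
        (show Real.exp 1 ≤ (b : ℝ) by linarith) hab'
    have h4 : Real.log 2 / b ≤ Real.log 2 / a := div_le_div_of_nonneg_left hl2.le ha0 hab'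
    have e : ∀ c : ℝ, (2 * Real.log c + 2 * Real.log 2) / c
        = 2 * (Real.log c / c) + 2 * (Real.log 2 / c) := by intro c; ring
    rw [e, e]
    linarith
  · intro r w hr hw
    have hw3 : (3 : ℝ) ≤ w := by exact_mod_cast (by omega : 3 ≤ w)
    have hw0 : (0 : ℝ) < w := by linarith
    have hr2 : (2 : ℝ) ≤ r := by exact_mod_cast hr
    have hr0 : (0 : ℝ) < r := by linarith
    have hlw : 0 ≤ Real.log w := Real.log_natCast_nonneg w
    have hlr : Real.log r ≤ ((r : ℝ) - 1) * Real.log 2 := log_le_mul_log_two r (by omega)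
    have h1 : (2 * Real.log ((r * w : ℕ) : ℝ) + 2 * Real.log 2)
        / ((r * w : ℕ) : ℝ) ≤ (Real.log w + 2 * Real.log 2) / w := by
      push_cast
      rw [div_le_div_iff₀ (by positivity) hw0, Real.log_mul hr0.ne' hw0.ne']
      have h2 : 2 * (Real.log (r : ℝ) + Real.log w) + 2 * Real.log 2
          ≤ (Real.log w + 2 * Real.log 2) * r := by
        nlinarith [mul_nonneg hlw (sub_nonneg.2 hr2)]
      calc _ ≤ (Real.log w + 2 * Real.log 2) * r * w := mul_le_mul_of_nonneg_right h2 hw0.le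
        _ = _ := by ring
    have h3 : Real.log w / w + (Real.log w + 2 * Real.log 2) / w
        = (2 * Real.log w + 2 * Real.log 2) / w := by ring
    linarith

/-- splitting a weighted sum at `v` when everything else survives beyond `v`. -/
theorem split_at (z x Y v : ℕ) (hx : 420000 < x) (hv : 2 * (x / 10000 + 1) ≤ v) (f : ℕ → ℝ)
    (g : ℕ → ℝ) (hf : ∀ w, 0 ≤ f w) (hg : ∀ w, w ≤ v → g w ≤ 1) (b : ℝ)
    (hg' : ∀ w, v < w → g w = if w.minFac = z.minFac then 1 else 1 - Sx x w)
    (hb : ∀ VS : Finset ℕ, (∀ w ∈ VS, IsPrimePow w ∧ v < w) →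
      ∑ w ∈ VS.filter (fun w => w.minFac = z.minFac), f w ≤ b) :
    ∑ w ∈ ppK Y, g w * f w ≤ ∑ w ∈ ppK v, f w + b := by
  rw [← Finset.sum_filter_add_sum_filter_not (ppK Y) (fun w => w ≤ v)]
  apply add_le_add
  · refine le_trans (Finset.sum_le_sum (g := f) fun w hw => ?_) ?_
    · exact mul_le_of_le_one_left (hf w) (hg w (Finset.mem_filter.1 hw).2)
    · apply Finset.sum_le_sum_of_subset_of_nonneg
      · intro w hw
        simp only [Finset.mem_filter, mem_ppK] at hw ⊢
        exact ⟨hw.1.1, hw.2⟩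
      · intro w _ _; exact hf w
  · refine le_trans (le_of_eq ?_) (hb ((ppK Y).filter (fun w => ¬ w ≤ v)) ?_)
    · rw [Finset.sum_filter (fun w : ℕ => w.minFac = z.minFac)]
      apply Finset.sum_congr rfl
      intro w hw
      simp only [Finset.mem_filter, mem_ppK] at hw
      rw [hg' w (by omega)]
      split_ifs with h
      · rw [one_mul]
      · rw [Sx_one x w hx hw.1.1 (by omega), sub_self, zero_mul]
    · intro w hw
      simp only [Finset.mem_filter, mem_ppK] at hw
      exact ⟨hw.1.1, by omega⟩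

/-- upper bound of all weights. -/
theorem Mz_Wt_le (z x Y v : ℕ) (hx : 420000 < x) (hv : 2 * (x / 10000 + 1) ≤ v) :
    Mz z x Y + Wt z x v ≤ Hpp v + 2 / v := by
  have h1 : Mz z x Y ≤ Mz z x v + 2 / v := by
    unfold Mz
    rw [← Finset.sum_filter_add_sum_filter_not (ppK Y) (fun w => w ≤ v)]
    apply add_le_add
    · apply Finset.sum_le_sum_of_subset_of_nonneg
      · intro w hw
        simp only [Finset.mem_filter, mem_ppK] at hw ⊢
        exact ⟨hw.1.1, hw.2⟩
      · intro w _ _; exact Mz_term_nonneg z x w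
    · refine le_trans (le_of_eq ?_) (qsum_one z.minFac v (by omega)
        ((ppK Y).filter (fun w => ¬ w ≤ v)) ?_)
      · rw [Finset.sum_filter (fun w : ℕ => w.minFac = z.minFac)]
        apply Finset.sum_congr rfl
        intro w hw
        simp only [Finset.mem_filter, mem_ppK] at hw
        split_ifs with h
        · rfl
        · rw [Sx_one x w hx hw.1.1 (by omega), sub_self, zero_div]
      · intro w hw
        simp only [Finset.mem_filter, mem_ppK] at hw
        exact ⟨hw.1.1, by omega⟩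
  have := Mz_add_Wt z x v
  linarith

/-- killed mass for the large components. -/
theorem kapv_large (z x Y v : ℕ) (hx : 420000 < x) (hv : 2 * (x / 10000 + 1) ≤ v) :
    kapv z x Y v ≤ A1 v + (2 * Real.log v + 2 * Real.log 2) / v := by
  have h := split_at z x Y v hx hv (fun w => Real.log w / (w : ℝ))
    (fun w => if w ≤ v ∨ w.minFac = z.minFac then 1 else 1 - Sx x w)
    (fun w => div_nonneg (Real.log_natCast_nonneg w) (Nat.cast_nonneg _)) (fun w hw => by
      simp only [if_pos (Or.inl hw : w ≤ v ∨ w.minFac = z.minFac)]; exact le_rfl)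
    ((2 * Real.log v + 2 * Real.log 2) / v) (fun w hw => by
      have : ¬ w ≤ v := by omega
      simp only [this, false_or])
    (fun VS hVS => qsum_log z.minFac v (by omega) VS hVS)
  exact h

end Pool.Agent.EZ
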