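import Pool.Agent.EZ.UA
import Pool.Agent.EZ.HT

/-!
# Large roots: numerical constants (helper46)
-/

set_option autoImplicit false

namespace Pool.Agent.EZ

open Finset

/-! ### three numbers from the kernel -/

/-- test for `Hpp 127` -/
def tU0 (n Hl _c : ℕ) : Bool := cond (Nat.beq n 127) (Nat.ble 2579211000000 Hl) true

theorem tU0_run : loopH tU0 126 1 0 0 = true := by decide +kernel

theorem Hpp_127 : 2.579211 ≤ Hpp 127 := by
  have h := loopH_sound tU0 (fun n => n = 127 → 2.579211 ≤ Hpp n) (by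
    intro n Hl c hinv hT hn
    subst hn
    obtain ⟨i1, i2⟩ := hinv
    change Nat.ble 2579211000000 Hl = true at hT
    rw [Nat.ble_eq] at hT
    have hT' : ((2579211000000 : ℕ) : ℝ) ≤ (Hl : ℝ) := by exact_mod_cast hT
    push_cast at hT'
    linarith) 126 1 0 0 le_rfl (by norm_num) InvH_one tU0_run 127 (by norm_num) (by norm_num)
  exact h rfl

/-- test for `A1 127`, `A1 139` -/
def tU1 (n _Ll _Lu _Al' Al Au _Hu : ℕ) : Bool :=
  cond (Nat.beq n 127) (Nat.ble Au 5286829000000)
    (cond (Nat.beq n 139) (Nat.ble 5433300000000 Al) true)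

theorem tU1_run : loop1 tU1 137 2 693147180300 693147180800 346573590150 346573590400
    693147180800 = true := by decide +kernel

theorem A1_127 : A1 127 ≤ 5.286829 ∧ 5.4333 ≤ A1 139 := by
  have hS : (SC : ℝ) = 1000000000000 := by norm_num [SC]
  have h := loop1_sound tU1 (fun n => (n = 127 → A1 n ≤ 5.286829) ∧ (n = 139 → 5.4333 ≤ A1 n)) (by
    intro n Ll Lu Al' Al Au Hu hinv _ hT
    obtain ⟨i1, i2, i3, i4, i5⟩ := hinv
    rw [hS] at i3 i4
    constructor
    · intro hn
      rw [hn] at hT i3 i4 ⊢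
      change Nat.ble Au 5286829000000 = true at hT
      rw [Nat.ble_eq] at hT
      have hT' : (Au : ℝ) ≤ ((5286829000000 : ℕ) : ℝ) := by exact_mod_cast hT
      push_cast at hT'
      linarith
    · intro hn
      rw [hn] at hT i3 i4 ⊢
      change Nat.ble 5433300000000 Al = true at hT
      rw [Nat.ble_eq] at hT
      have hT' : ((5433300000000 : ℕ) : ℝ) ≤ (Al : ℝ) := by exact_mod_cast hT
      push_cast at hT'
      linarith) 137 2 _ _ _ _ _
    (by norm_num) (by norm_num) inv1_two tU1_run
  exact ⟨(h 127 (by norm_num) (by norm_num)).1 rfl, (h 139 (by norm_num) (by norm_num)).2 rfl⟩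

/-- test for `A 139` -/
def tU2 (n _Ll _Lu _Al' _Al Au _Pu : ℕ) : Bool :=
  cond (Nat.beq n 139) (Nat.ble Au 4389800000000) true

theorem tU2_run : loop tU2 137 2 693147180300 693147180800 346573590150 346573590400
    693147180800 = true := by decide +kernel

theorem A_139 : A 139 ≤ 4.3898 := by
  have hS : (SC : ℝ) = 1000000000000 := by norm_num [SC]
  have h := loop_sound tU2 (fun n => n = 139 → A n ≤ 4.3898) (by
    intro n Ll Lu Al' Al Au Pu hinv _ hT hn
    obtain ⟨i1, i2, i3, i4, i5⟩ := hinv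
    rw [hS] at i3 i4
    rw [hn] at hT i3 i4 ⊢
    change Nat.ble Au 4389800000000 = true at hT
    rw [Nat.ble_eq] at hT
    have hT' : (Au : ℝ) ≤ ((4389800000000 : ℕ) : ℝ) := by exact_mod_cast hT
    push_cast at hT'
    linarith) 137 2 _ _ _ _ _
    (by norm_num) (by norm_num) inv_two tU2_run
  exact h 139 (by norm_num) (by norm_num) rfl

/-! ### the constant of the primes -/

theorem upc_100 {n : ℕ} (h : 100 ≤ n) : upc n ≤ 547 := by
  unfold upc
  have e : ∀ b : Bool, ∀ x y : ℕ, x ≤ 547 → y ≤ 547 → cond b x y ≤ 547 := by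
    intro b x y hx hy; cases b <;> assumption
  have h11 : Nat.ble 100 n = true := by rw [Nat.ble_eq]; exact h
  rw [h11, cond_true]
  repeat' apply e
  all_goals norm_num

/-- `A - D1`. -/
theorem AD_le (m : ℕ) (hm : 139 ≤ m) : A m - (A1 m - A m) ≤ Real.log m - 1.5602 := by
  by_cases h : m ≤ 10000
  · have h1 := (table m (by omega) h).2.1
    have h2 : (upc m : ℝ) ≤ 547 := by exact_mod_cast upc_100 (by omega)
    have h3 := D1_mono hm
    have h4 := A1_127.2
    have h5 := A_139
    linarith
  · have h1 := A_upper_large m (by omega)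
    have h2 := D1_mono (show 10000 ≤ m by omega)
    have h3 := (table1 10000 (by norm_num) le_rfl).2.2
    have h4 := (table 10000 (by norm_num) le_rfl).2.1
    have h5 := A1_mono (show 9999 ≤ 10000 by norm_num)
    have e1' : e1 (10000 - 1) = 16276 := by decide +kernel
    have e2' : upc 10000 = 68 := by decide +kernel
    rw [e1'] at h3
    rw [e2'] at h4
    have e3 : 10000 - 1 = 9999 := rfl
    rw [e3] at h3
    push_cast at h3 h4
    linarith

theorem D1_le (N : ℕ) : A1 N - A N ≤ 1.2272 := (D1_le_H1 N).trans (H1_le N)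

/-! ### lower bound for `Hpp` -/

theorem log_128 : 4.85203 < Real.log 128 ∧ Real.log 128 < 4.852031 := by
  have h1 := Real.log_two_gt_d9
  have h2 := Real.log_two_lt_d9
  have e : Real.log 128 = 7 * Real.log 2 := by
    rw [show (128 : ℝ) = 2 ^ 7 by norm_num, Real.log_pow]; norm_num
  rw [e]
  constructor <;> linarith

/-- Abel summation from `127`. -/
theorem Hpp_lower_aux (N : ℕ) (hN : 127 ≤ N) :
    Hpp 127 + Real.log (Real.log ((N + 1 : ℕ) : ℝ)) - Real.log (Real.log 128)
      - 0.0139 / Real.log 128 + (A1 N - Real.log ((N + 1 : ℕ) : ℝ) - 0.4209) / Real.log ((N + 1 : ℕ) : ℝ)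
      ≤ Hpp N := by
  have hl := log_128
  induction N, hN using Nat.le_induction with
  | base =>
    have e : ((127 + 1 : ℕ) : ℝ) = 128 := by norm_num
    rw [e]
    have h1 := A1_127.1
    have h2 : (A1 127 - Real.log 128 - 0.4209) / Real.log 128 ≤ 0.0139 / Real.log 128 :=
      div_le_div_of_nonneg_right (by linarith) (by linarith)
    linarith
  | succ N hN ih =>
    have hNr : (127 : ℝ) ≤ N := by exact_mod_cast hN
    have hpos : (1 : ℝ) < ((N + 1 : ℕ) : ℝ) := by push_cast; linarith
    set a := Real.log ((N + 1 : ℕ) : ℝ) with ha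
    set b := Real.log ((N + 1 + 1 : ℕ) : ℝ) with hb
    have ha0 : 0 < a := Real.log_pos hpos
    have hab : a ≤ b := Real.log_le_log (by linarith) (by push_cast; linarith)
    have hb0 : 0 < b := lt_of_lt_of_le ha0 hab
    -- log log b - log log a ≤ (b - a) / a
    have h1 : Real.log b - Real.log a ≤ (b - a) / a := by
      rw [← Real.log_div hb0.ne' ha0.ne']
      have := Real.log_le_sub_one_of_pos (div_pos hb0 ha0)
      have e : (b - a) / a = b / a - 1 := by field_simp
      rw [e]; exact this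
    have hE2 := E_127 (N + 1) (by omega)
    have hE2' : 0 ≤ A1 (N + 1) - b - 0.4209 := by
      have : b = Real.log (((N + 1 : ℕ) : ℝ) + 1) := by rw [hb]; push_cast; rfl
      rw [this]
      linarith
    have h2 : (A1 (N + 1) - b - 0.4209) / b ≤ (A1 (N + 1) - b - 0.4209) / a :=
      div_le_div_of_nonneg_left hE2' ha0 hab
    have h3 : (A1 (N + 1) - b - 0.4209) / a + (b - a) / a
        = (A1 N - a - 0.4209) / a + (A1 (N + 1) - A1 N) / a := by ring
    have h4 : (A1 (N + 1) - A1 N) / a = Hpp (N + 1) - Hpp N := by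
      rw [Hpp_succ N, A1_succ N]
      by_cases hpp : IsPrimePow (N + 1)
      · rw [if_pos hpp, if_pos hpp, ← ha]
        field_simp
        ring
      · rw [if_neg hpp, if_neg hpp]
        simp
    linarith

/-- `exp (0.4575 - Hpp y) ≤ 0.5833 / log (y + 1)`. -/
theorem exp_Hpp_le (y : ℕ) (hy : 127 ≤ y) :
    Real.exp (0.4575 - Hpp y) ≤ 0.5833 / Real.log ((y : ℝ) + 1) := by
  have h := Hpp_lower_aux y hy
  have hE := E_127 y hy
  have hH := Hpp_127
  obtain ⟨l1, l2⟩ := log_128
  have hyr : (127 : ℝ) ≤ y := by exact_mod_cast hy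
  have e : ((y + 1 : ℕ) : ℝ) = (y : ℝ) + 1 := by push_cast; rfl
  rw [e] at h
  set b := Real.log ((y : ℝ) + 1) with hb
  have hb0 : 0 < b := Real.log_pos (by linarith)
  have h1 : 0 ≤ (A1 y - b - 0.4209) / b := div_nonneg (by linarith) hb0.le
  have h2 : 0.0139 / Real.log 128 ≤ 0.002865 := by
    rw [div_le_iff₀ (by linarith)]; linarith
  have h3 : 0.4575 - Hpp y ≤ -2.118846 + Real.log (Real.log 128) - Real.log b := by linarith
  have h4 : Real.exp (0.4575 - Hpp y)
      ≤ Real.exp (-2.118846 + Real.log (Real.log 128) - Real.log b) := Real.exp_le_exp.2 h3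
  have e5 : Real.exp (-2.118846 + Real.log (Real.log 128) - Real.log b)
      = Real.exp (-2.118846) * Real.log 128 / b := by
    rw [Real.exp_sub, Real.exp_add, Real.exp_log (by linarith), Real.exp_log hb0]
  rw [e5] at h4
  refine h4.trans ?_
  apply div_le_div_of_nonneg_right _ hb0.le
  -- exp(-2.118846) * log 128 ≤ 0.5833
  have h5 : (8.319 : ℝ) ≤ Real.exp 2.118846 := by
    have e1 : Real.exp 2.118846 = Real.exp 1 * Real.exp 1 * Real.exp 0.118846 := by
      rw [← Real.exp_add, ← Real.exp_add]; norm_num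
    have e2 : (1.1259 : ℝ) ≤ Real.exp 0.118846 := by
      have := Real.quadratic_le_exp_of_nonneg (x := (0.118846 : ℝ)) (by norm_num)
      norm_num at this ⊢
      linarith
    have e3 := Real.exp_one_gt_d9
    have e4 : (2.7182818283 : ℝ) * 2.7182818283 ≤ Real.exp 1 * Real.exp 1 := by nlinarith
    rw [e1]
    calc (8.319 : ℝ) ≤ 2.7182818283 * 2.7182818283 * 1.1259 := by norm_num
      _ ≤ Real.exp 1 * Real.exp 1 * Real.exp 0.118846 := by
        apply mul_le_mul e4 e2 (by norm_num)
        positivity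
  rw [Real.exp_neg]
  have h6 : (Real.exp 2.118846)⁻¹ ≤ (8.319 : ℝ)⁻¹ := inv_anti₀ (by norm_num) h5
  calc (Real.exp 2.118846)⁻¹ * Real.log 128 ≤ (8.319 : ℝ)⁻¹ * 4.852031 :=
        mul_le_mul h6 l2.le (by linarith) (by norm_num)
    _ ≤ 0.5833 := by norm_num

/-! ### upper bound for `Hpp` -/

theorem log_1e4 : 9.2103 < Real.log 10000 ∧ Real.log 10000 < 9.2104 := by
  have h1 := Real.log_two_gt_d9
  have h2 := Real.log_two_lt_d9
  have h3 := Real.log_five_gt_d9
  have h4 := Real.log_five_lt_d9
  have e : Real.log 10000 = 4 * Real.log 2 + 4 * Real.log 5 := by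
    rw [show (10000 : ℝ) = 2 ^ 4 * 5 ^ 4 by norm_num, Real.log_mul (by norm_num) (by norm_num),
      Real.log_pow, Real.log_pow]
    norm_num
  rw [e]
  constructor <;> linarith

/-- `exp (Hpp y - 0.4575) ≤ 1.868 log y`. -/
theorem exp_Hpp_ge (y : ℕ) (hy : 10000 ≤ y) : Real.exp (Hpp y - 0.4575) ≤ 1.868 * Real.log y := by
  have h1 := (HU_proof y hy).1
  have h2 := HT_proof (10000, 3.253654) (by simp [HTab])
  rw [abs_le] at h2
  have h3 := h2.2
  obtain ⟨l1, l2⟩ := log_1e4
  have hyr : (10000 : ℝ) ≤ y := by exact_mod_cast hy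
  have hly : 9.2103 < Real.log y := lt_of_lt_of_le l1 (Real.log_le_log (by norm_num) hyr)
  have h4 : Hpp y - 0.4575 ≤ 2.844157 + Real.log (Real.log y / Real.log 10000) := by
    simp only at h3
    linarith
  have h5 : Real.exp (Hpp y - 0.4575) ≤ Real.exp 2.844157 * (Real.log y / Real.log 10000) := by
    refine (Real.exp_le_exp.2 h4).trans ?_
    rw [Real.exp_add, Real.exp_log (div_pos (by linarith) (by linarith))]
  refine h5.trans ?_
  have h6 : Real.exp 2.844157 ≤ 17.1975 := by
    have e1 : Real.exp 2.844157 = Real.exp 1 * Real.exp 1 * Real.exp 1 * Real.exp (-0.155843) := by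
      rw [← Real.exp_add, ← Real.exp_add, ← Real.exp_add]; norm_num
    have e2 : Real.exp (-0.155843) ≤ 0.8562 := by
      rw [Real.exp_neg]
      have h7 := Real.quadratic_le_exp_of_nonneg (x := (0.155843 : ℝ)) (by norm_num)
      have h8 : (1.16798 : ℝ) ≤ Real.exp 0.155843 := by
        norm_num at h7 ⊢
        linarith
      calc (Real.exp 0.155843)⁻¹ ≤ (1.16798 : ℝ)⁻¹ := inv_anti₀ (by norm_num) h8
        _ ≤ 0.8562 := by norm_num
    have e3 := Real.exp_one_lt_d9
    have e3' := Real.exp_pos 1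
    have e4 : Real.exp 1 * Real.exp 1 ≤ 2.7182818286 * 2.7182818286 := by nlinarith
    have e5 : Real.exp 1 * Real.exp 1 * Real.exp 1 ≤ 2.7182818286 * 2.7182818286 * 2.7182818286 := by
      apply mul_le_mul e4 e3.le (by positivity) (by norm_num)
    rw [e1]
    calc _ ≤ 2.7182818286 * 2.7182818286 * 2.7182818286 * 0.8562 :=
          mul_le_mul e5 e2 (Real.exp_pos _).le (by norm_num)
      _ ≤ _ := by norm_num
  have h7 : Real.log y / Real.log 10000 ≤ Real.log y / 9.2103 :=
    div_le_div_of_nonneg_left (by linarith) (by norm_num) l1.le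
  calc Real.exp 2.844157 * (Real.log y / Real.log 10000) ≤ 17.1975 * (Real.log y / 9.2103) :=
        mul_le_mul h6 h7 (div_nonneg (by linarith) (by linarith)) (by norm_num)
    _ = (17.1975 / 9.2103) * Real.log y := by ring
    _ ≤ 1.868 * Real.log y := mul_le_mul_of_nonneg_right (by norm_num) (by linarith)

end Pool.Agent.EZ
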