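import Pool.Agent.EZ.UB
import Pool.Agent.EZ.Suf

/-!
# Large roots: killed mass and levels (helper46)
-/

set_option autoImplicit false

namespace Pool.Agent.EZ

open Finset ArithmeticFunction

/-- weight used to compare the killed mass with `A` and `D1`. -/
noncomputable def FU (m w : ℕ) : ℝ :=
  (if w ≤ m then (2 * vonMangoldt w - Real.log w) / (w : ℝ) else 0)
    + 2 * ((Real.log w - vonMangoldt w) / (w : ℝ))

theorem sum_FU (m Y : ℕ) (h : m ≤ Y) :
    ∑ w ∈ ppK Y, FU m w = A m - (A1 m - A m) + 2 * (A1 Y - A Y) := by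
  have hA : ∀ N, A N = ∑ n ∈ ppK N, vonMangoldt n / n := by
    intro N
    unfold A ppK
    rw [Finset.sum_filter]
    refine Finset.sum_congr rfl fun n _ => ?_
    by_cases h : IsPrimePow n
    · rw [if_pos h]
    · rw [if_neg h, vonMangoldt_eq_zero_iff.2 h, zero_div]
  have hD : ∀ N, A1 N - A N = ∑ n ∈ ppK N, (Real.log n - vonMangoldt n) / n := fun N => A1_sub_A N
  unfold FU
  rw [Finset.sum_add_distrib, ← Finset.mul_sum, ← hD Y]
  congr 1
  rw [hD m, hA m, ← Finset.sum_sub_distrib, ← Finset.sum_filter]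
  have e : (ppK Y).filter (fun w => w ≤ m) = ppK m := by
    ext w
    simp only [Finset.mem_filter, mem_ppK]
    constructor
    · rintro ⟨⟨a, _⟩, b⟩; exact ⟨a, b⟩
    · rintro ⟨a, b⟩; exact ⟨⟨a, by omega⟩, b⟩
  rw [e]
  apply Finset.sum_congr rfl
  intro w _
  ring

theorem FU_prime {m w : ℕ} (hw : w.Prime) : FU m w = if w ≤ m then Real.log w / (w : ℝ) else 0 := by
  unfold FU
  rw [vonMangoldt_apply_prime hw]
  split_ifs
  · ring
  · ring

theorem FU_power {m w : ℕ} (hw : IsPrimePow w) (hp : ¬ w.Prime) : Real.log w / (w : ℝ) ≤ FU m w := by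
  obtain ⟨p, k, hpp, hk, rfl⟩ := (isPrimePow_nat_iff _).1 hw
  have hk2 : 2 ≤ k := by
    by_contra hcon
    have : k = 1 := by omega
    subst this
    rw [pow_one] at hp
    exact hp hpp
  have hl : 2 * vonMangoldt (p ^ k) ≤ Real.log ((p ^ k : ℕ) : ℝ) := by
    rw [vonMangoldt_apply_pow (by omega), vonMangoldt_apply_prime hpp]
    push_cast
    rw [Real.log_pow]
    have h1 : (2 : ℝ) ≤ k := by exact_mod_cast hk2
    have h2 : 0 ≤ Real.log (p : ℝ) := Real.log_natCast_nonneg p
    nlinarith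
  have hw0 : (0 : ℝ) < ((p ^ k : ℕ) : ℝ) := by exact_mod_cast hw.pos
  unfold FU
  split_ifs
  · rw [← mul_div_assoc, ← add_div]
    apply div_le_div_of_nonneg_right _ hw0.le
    linarith
  · rw [zero_add, ← mul_div_assoc]
    apply div_le_div_of_nonneg_right _ hw0.le
    linarith

/-- the killed mass. -/
theorem kapv_mid (z x Y v : ℕ) (hz : IsPrimePow z) (h139 : 139 ≤ x / 28561) (hvY : v ≤ Y)
    (hY : x / 10000 + 2 ≤ Y) (ζ : ℝ) (hζ0 : 0 ≤ ζ)
    (hζ : v < z.minFac → x / 28561 + 2 < z.minFac →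
      Real.log (z.minFac : ℝ) / (z.minFac : ℝ) ≤ ζ) :
    kapv z x Y v ≤ ∑ i, qU i * Real.log ((max v (x / dU i + 2) : ℕ) : ℝ) + 0.8942 + ζ := by
  set q := z.minFac with hq
  have hqp : q.Prime := Nat.minFac_prime hz.one_lt.ne'
  set m : Fin 5 → ℕ := fun i => max v (x / dU i + 2) with hm
  have hmY : ∀ i, m i ≤ Y := by
    intro i
    have h1 : x / dU i ≤ x / 10000 := Nat.div_le_div_left (dU_pos i).1 (by norm_num)
    simp only [hm]
    omega
  have hmv : ∀ i, v ≤ m i := fun i => le_max_left _ _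
  have hm139 : ∀ i, 139 ≤ m i := by
    intro i
    have h1 : x / 28561 ≤ x / dU i :=
      Nat.div_le_div_left (dU_pos i).2 (by have := (dU_pos i).1; omega)
    simp only [hm]
    omega
  have key : ∀ w ∈ ppK Y, (if w ≤ v ∨ w.minFac = z.minFac then 1 else 1 - Sx x w)
      * (Real.log w / (w : ℝ)) ≤ ∑ i, qU i * FU (m i) w
        + (if w = q then (if v < q ∧ x / 28561 + 2 < q then Real.log w / (w : ℝ) else 0) else 0) := by
    intro w hw
    have hpp := (mem_ppK.1 hw).1
    have hlw : 0 ≤ Real.log w / (w : ℝ) :=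
      div_nonneg (Real.log_natCast_nonneg w) (Nat.cast_nonneg _)
    have hlast : 0 ≤ (if w = q then (if v < q ∧ x / 28561 + 2 < q then Real.log w / (w : ℝ)
        else 0) else 0) := by
      split_ifs <;> first | exact hlw | exact le_rfl
    by_cases hwp : w.Prime
    · have e1 : ∑ i, qU i * FU (m i) w = (∑ i, if w ≤ m i then qU i else 0)
          * (Real.log w / (w : ℝ)) := by
        rw [Finset.sum_mul]
        apply Finset.sum_congr rfl
        intro i _
        rw [FU_prime hwp]
        split_ifs <;> simp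
      rw [e1]
      have hone : (∀ i, w ≤ m i) → (∑ i, if w ≤ m i then qU i else 0) = 1 := by
        intro h
        rw [← qU_sum]
        exact Finset.sum_congr rfl fun i _ => if_pos (h i)
      by_cases hwv : w ≤ v
      · rw [if_pos (Or.inl hwv), hone (fun i => hwv.trans (hmv i))]
        linarith
      · by_cases hwq : w.minFac = z.minFac
        · rw [if_pos (Or.inr hwq)]
          have hwq' : w = q := by rw [← hwp.minFac_eq]; exact hwq
          by_cases hc : x / 28561 + 2 < q
          · rw [if_pos hwq', if_pos ⟨by omega, hc⟩]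
            have : 0 ≤ (∑ i, if w ≤ m i then qU i else 0) := by
              apply Finset.sum_nonneg
              intro i _
              split_ifs
              · exact qU_nonneg i
              · exact le_rfl
            have := mul_nonneg this hlw
            linarith
          · rw [hone]
            · linarith
            · intro i
              have h1 : x / 28561 ≤ x / dU i :=
                Nat.div_le_div_left (dU_pos i).2 (by have := (dU_pos i).1; omega)
              simp only [hm]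
              omega
        · rw [if_neg (by tauto)]
          have h2 : 1 - Sx x w ≤ ∑ i, if w ≤ m i then qU i else 0 := by
            refine (dead_le x w h139 hwp).trans ?_
            apply Finset.sum_le_sum
            intro i _
            by_cases h3 : w ≤ x / dU i + 2
            · rw [if_pos h3, if_pos (h3.trans (le_max_right _ _))]
            · rw [if_neg h3]
              split_ifs
              · exact qU_nonneg i
              · exact le_rfl
          have := mul_le_mul_of_nonneg_right h2 hlw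
          linarith
    · have h1 : Real.log w / (w : ℝ) ≤ ∑ i, qU i * FU (m i) w := by
        calc Real.log w / (w : ℝ) = ∑ i, qU i * (Real.log w / (w : ℝ)) := by
              rw [← Finset.sum_mul, qU_sum, one_mul]
          _ ≤ _ := Finset.sum_le_sum fun i _ =>
              mul_le_mul_of_nonneg_left (FU_power hpp hwp) (qU_nonneg i)
      have h2 : (if w ≤ v ∨ w.minFac = z.minFac then 1 else 1 - Sx x w) * (Real.log w / (w : ℝ))
          ≤ Real.log w / (w : ℝ) := by
        apply mul_le_of_le_one_left hlw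
        split_ifs
        · exact le_rfl
        · have := Sx_nonneg x w
          linarith
      linarith
  have hsum : kapv z x Y v ≤ ∑ i, qU i * (A (m i) - (A1 (m i) - A (m i)) + 2 * (A1 Y - A Y)) + ζ := by
    unfold kapv
    refine (Finset.sum_le_sum key).trans ?_
    rw [Finset.sum_add_distrib, Finset.sum_comm]
    apply add_le_add
    · apply le_of_eq
      apply Finset.sum_congr rfl
      intro i _
      rw [← Finset.mul_sum, sum_FU _ _ (hmY i)]
    · rw [Finset.sum_ite_eq']
      split_ifs with h1 h2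
      · exact hζ h2.1 h2.2
      · exact hζ0
      · exact hζ0
  refine hsum.trans ?_
  have h1 := D1_le Y
  have h2 : ∑ i, qU i * (A (m i) - (A1 (m i) - A (m i)) + 2 * (A1 Y - A Y))
      ≤ ∑ i, qU i * (Real.log ((m i : ℕ) : ℝ) + 0.8942) := by
    apply Finset.sum_le_sum
    intro i _
    apply mul_le_mul_of_nonneg_left _ (qU_nonneg i)
    have := AD_le (m i) (hm139 i)
    linarith
  have h3 : ∑ i, qU i * (Real.log ((m i : ℕ) : ℝ) + 0.8942)
      = ∑ i, qU i * Real.log ((m i : ℕ) : ℝ) + 0.8942 := by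
    simp_rw [mul_add]
    rw [Finset.sum_add_distrib, ← Finset.sum_mul, qU_sum, one_mul]
  rw [h3] at h2
  linarith

/-- (NBR) for the large roots. -/
theorem nb_level {z x v : ℕ} {C ε o κ : ℝ} (hz : IsPrimePow z) (hz400 : 400 ≤ z)
    (hv : IsPrimePow v) (hvz : v.minFac ≠ z.minFac) (hv139 : 139 ≤ v) (hx : 420000 < x)
    (hX : 2 * (x / 10000 + 1) ≤ z ^ 4) (hC0 : 0 ≤ C) (hε : ∀ t : ℝ, 0 ≤ t → t ≤ 1 → C * t - 1 / 12 * t ^ 2 ≤ ε)
    (ho : OcOK z x v o) (ho0 : 0 ≤ o) (ho1 : o ≤ 0.13)
    (hκ : 1.03 * Real.exp (ε + 1 / 12) * o ≤ κ) (hκC : κ ≤ C * (Real.log ((z : ℝ) * v) / 2))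
    (hk : kapv z x (max (z ^ 4) v) v - 0.4209 + κ ≤ (1 + C) * (Real.log ((z : ℝ) * v) / 2)) :
    KB z x v (Real.log ((z : ℝ) * v) * Real.exp (0.4575 - Mz z x (z ^ 4) - Wt z x v + ε)) := by
  have hzr : (400 : ℝ) ≤ z := by exact_mod_cast hz400
  have hvr : (139 : ℝ) ≤ v := by exact_mod_cast hv139
  have hzv : (55600 : ℝ) ≤ (z : ℝ) * v := by nlinarith
  have hzvN : 55600 ≤ z * v := by nlinarith
  set N := Real.log ((z : ℝ) * v) / 2 with hN
  have hN5 : 5 ≤ N := by
    have h1 : Real.log ((2 : ℝ) ^ 15) ≤ Real.log ((z : ℝ) * v) :=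
      Real.log_le_log (by norm_num) (by linarith)
    rw [Real.log_pow] at h1
    have := Real.log_two_gt_d9
    push_cast at h1
    rw [hN]
    linarith
  have hN0 : 0 < N := by linarith
  set ω := o / N with hω
  have hω0 : 0 ≤ ω := div_nonneg ho0 hN0.le
  have hω1 : ω ≤ 0.026 := by
    rw [hω, div_le_iff₀ hN0]; linarith
  have hexpω : Real.exp ω - 1 ≤ 1.03 * ω := by
    have h2 := Real.abs_exp_sub_one_sub_id_le (x := ω) (by rw [abs_of_nonneg hω0]; linarith)
    rw [abs_le] at h2
    nlinarith [h2.2]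
  have hEp := Real.exp_pos (ε + 1 / 12)
  have hκ0 : 0 ≤ κ := le_trans (by positivity) hκ
  have hw2 : (Real.exp ω - 1) * Real.exp (ε + 1 / 12) ≤ κ / N := by
    rw [le_div_iff₀ hN0]
    have h1 : (Real.exp ω - 1) * Real.exp (ε + 1 / 12) ≤ 1.03 * ω * Real.exp (ε + 1 / 12) :=
      mul_le_mul_of_nonneg_right hexpω hEp.le
    have h2 : 1.03 * ω * Real.exp (ε + 1 / 12) * N = 1.03 * Real.exp (ε + 1 / 12) * o := by
      rw [hω]; field_simp
    calc _ ≤ 1.03 * ω * Real.exp (ε + 1 / 12) * N := mul_le_mul_of_nonneg_right h1 hN0.le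
      _ ≤ κ := by rw [h2]; exact hκ
  have hκN : κ / N ≤ C := by rw [div_le_iff₀ hN0]; exact hκC
  have hn1 : 235 ≤ Nat.sqrt (z * v) := by
    rw [Nat.le_sqrt]; omega
  have hE : ∀ m, Nat.sqrt (z * v) ≤ m → Real.log ((m : ℝ) + 1) - A1 m ≤ -0.4209 := by
    intro m hm
    exact E_127 m (by omega)
  have hsq1 : Nat.sqrt (z * v) ^ 2 ≤ z * v := Nat.sqrt_le' _
  have hsq2 : z * v < (Nat.sqrt (z * v) + 1) ^ 2 := Nat.lt_succ_sqrt' _
  have hkk : kapv z x (max (z ^ 4) v) v + (-0.4209) ≤ (1 + (C - κ / N)) * N := by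
    have : (1 + (C - κ / N)) * N = (1 + C) * N - κ := by field_simp; ring
    rw [this]
    linarith
  refine stmt_NBR z x (z ^ 4) v (Nat.sqrt (z * v) + 1) (Nat.sqrt (z * v)) (-0.4209) (-0.4209)
    (C - κ / N) (C - κ / N) (1 / 12) ω ε (κ / N) ε hz hv hvz ?_ (by omega) hsq1 hsq2.le hsq2.le
    (fun m hm _ => hE m hm) (fun m hm => hE m (by omega)) hkk hkk (by linarith) le_rfl
    (by norm_num) ?_ hω0 ?_ ?_ ?_ hw2 ?_
  · intro w hw hw2 _
    exact Sx_one x w hx hw (by omega)
  · rw [sub_self, zero_mul]; norm_num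
  · have := Real.exp_le_exp.2 hω1
    have h1 : Real.exp 0.026 ≤ 2 := by
      have h2 := Real.abs_exp_sub_one_sub_id_le (x := (0.026 : ℝ)) (by norm_num [abs_of_pos])
      rw [abs_le] at h2
      have h3 := h2.2
      norm_num at h3 ⊢
      linarith
    linarith
  · refine omega_of_Oc hz hv ho ?_
    rw [hω]
    have : o / N * (Real.log ((z : ℝ) * v) / 2) = o := by
      rw [← hN]; field_simp
    rw [this]
  · intro t h0 h1
    have h2 := hε t h0 h1
    have h3 : 0 ≤ κ / N * t := mul_nonneg (div_nonneg hκ0 hN0.le) h0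
    nlinarith
  · intro t h0 h1
    have h2 := hε t h0 h1
    have e : C - κ / N + κ / N = C := by ring
    rw [e]
    exact h2

/-- the level from the constant. -/
theorem lev_of_KB {z x v : ℕ} {ε : ℝ} (hz : IsPrimePow z) (hv : IsPrimePow v) (Y : ℕ)
    (h : KB z x v (Real.log ((z : ℝ) * v) * Real.exp (0.4575 - Mz z x Y - Wt z x v + ε))) :
    LevB z x v (Real.exp (0.4575 - Mz z x Y) * Real.exp ε) := by
  refine ⟨_, h, ?_⟩
  have hz1 : (1 : ℝ) < z := by exact_mod_cast hz.one_lt
  have hv1 : (1 : ℝ) < v := by exact_mod_cast hv.one_lt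
  have hL : 0 < Real.log ((z : ℝ) * v) := Real.log_pos (by nlinarith)
  rw [mul_comm (Real.log ((z : ℝ) * v)), mul_div_assoc, div_self hL.ne', mul_one, ← Real.exp_add,
    ← Real.exp_add]
  apply Real.exp_le_exp.2
  have := Sx_div_nonneg x v
  linarith

end Pool.Agent.EZ
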