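import Pool.Agent.EZ.UC
import Pool.Agent.EZ.FBK

/-!
# Large roots: the blocks (helper46)
-/

set_option autoImplicit false

namespace Pool.Agent.EZ

open Finset

/-- standing hypotheses on a large root and a clock value. -/
structure Big (z x : ℕ) : Prop where
  hz : IsPrimePow z
  h400 : 400 ≤ z
  h139 : 139 ≤ x / 28561
  hxu : x ≤ 28561 * z
  hxl : 5000 * z ≤ x
  hq : z.Prime ∨ z.minFac ≤ x / 28561 + 2
  ho : 2 * Real.log z + 3.52 ≤ 0.13 * ((x : ℝ) / 28561)

theorem log_13 : Real.log 1.3 ≤ 0.26241 := by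
  have h : ((1.3 : ℝ)) ^ 140 ≤ 2 ^ 53 := by norm_num
  have h1 := Real.log_le_log (by positivity) h
  rw [Real.log_pow, Real.log_pow] at h1
  have h2 := Real.log_two_lt_d9
  push_cast at h1
  linarith

theorem log_13_nonneg : 0 ≤ Real.log 1.3 := Real.log_nonneg (by norm_num)

theorem log_400 : 5.99146 ≤ Real.log 400 ∧ Real.log 400 ≤ 5.99147 := by
  have h1 := Real.log_two_gt_d9
  have h2 := Real.log_two_lt_d9
  have h3 := Real.log_five_gt_d9
  have h4 := Real.log_five_lt_d9
  have e : Real.log 400 = 4 * Real.log 2 + 2 * Real.log 5 := by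
    rw [show (400 : ℝ) = 2 ^ 4 * 5 ^ 2 by norm_num, Real.log_mul (by norm_num) (by norm_num),
      Real.log_pow, Real.log_pow]
    norm_num
  rw [e]
  constructor <;> linarith

/-- `log v / v` is decreasing. -/
theorem log_div_anti {a b : ℝ} (ha : 3 ≤ a) (hab : a ≤ b) : Real.log b / b ≤ Real.log a / a := by
  have he : Real.exp 1 ≤ 3 := by have := Real.exp_one_lt_d9; linarith
  exact Real.log_div_self_antitoneOn (show Real.exp 1 ≤ a by linarith)
    (show Real.exp 1 ≤ b by linarith) hab

/-- the function of the tails. -/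
noncomputable def tl (v : ℝ) : ℝ := (2 * Real.log v + 2 * Real.log 2) / v

theorem tl_anti {a b : ℝ} (ha : 3 ≤ a) (hab : a ≤ b) : tl b ≤ tl a := by
  have h1 := log_div_anti ha hab
  have h2 : Real.log 2 / b ≤ Real.log 2 / a :=
    div_le_div_of_nonneg_left (Real.log_nonneg (by norm_num)) (by linarith) hab
  have e : ∀ c : ℝ, tl c = 2 * (Real.log c / c) + 2 * (Real.log 2 / c) := by
    intro c; unfold tl; ring
  rw [e, e]
  linarith

theorem tl_nonneg {a : ℝ} (ha : 1 ≤ a) : 0 ≤ tl a := by
  unfold tl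
  have h1 := Real.log_nonneg ha
  have h2 : 0 ≤ Real.log 2 := Real.log_nonneg (by norm_num)
  positivity

theorem tl_400 : tl 400 ≤ 0.03343 := by
  unfold tl
  have h1 := log_400.2
  have h2 := Real.log_two_lt_d9
  rw [div_le_iff₀ (by norm_num)]
  linarith

theorem quad_eps {C : ℝ} (hC : 1 / 6 ≤ C) (t : ℝ) (_h0 : 0 ≤ t) (h1 : t ≤ 1) :
    C * t - 1 / 12 * t ^ 2 ≤ C - 1 / 12 := by
  nlinarith [mul_nonneg (sub_nonneg.2 h1) (sub_nonneg.2 hC), mul_nonneg (sub_nonneg.2 h1) (sub_nonneg.2 h1)]

theorem exp_021 {C : ℝ} (hC : C ≤ 0.21) : Real.exp C ≤ 1.234 := by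
  refine (Real.exp_le_exp.2 hC).trans ?_
  have h := Real.exp_bound' (x := (0.21 : ℝ)) (by norm_num) (by norm_num) (n := 4) (by norm_num)
  norm_num [Finset.sum_range_succ, Nat.factorial] at h ⊢
  linarith

theorem exp_04 {C : ℝ} (hC : C ≤ 0.4) : Real.exp C ≤ 1.493 := by
  refine (Real.exp_le_exp.2 hC).trans ?_
  have h := Real.exp_bound' (x := (0.4 : ℝ)) (by norm_num) (by norm_num) (n := 5) (by norm_num)
  norm_num [Finset.sum_range_succ, Nat.factorial] at h ⊢
  linarith

section
variable {z x : ℕ} (H : Big z x)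
include H

theorem Big.zr : (400 : ℝ) ≤ z := by exact_mod_cast H.h400

theorem Big.L : 5.99146 ≤ Real.log z :=
  log_400.1.trans (Real.log_le_log (by norm_num) H.zr)

theorem Big.x42 : 420000 < x := by
  have h1 := H.h139
  have h2 : 139 * 28561 ≤ x := (Nat.le_div_iff_mul_le (by norm_num)).1 h1
  omega

theorem Big.y0 : x / 10000 ≤ 3 * z := by
  have h := H.hxu
  have h4 := H.h400
  omega

theorem Big.six : 2 * (x / 10000 + 1) ≤ 6 * z := by
  have h := H.hxu
  have h4 := H.h400
  omega

theorem Big.z4 : 6 * z ≤ z ^ 4 := by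
  have h4 := H.h400
  have h2 : 6 ≤ z ^ 3 := by
    calc 6 ≤ 400 ^ 3 := by norm_num
      _ ≤ z ^ 3 := Nat.pow_le_pow_left h4 3
  calc 6 * z ≤ z ^ 3 * z := Nat.mul_le_mul_right _ h2
    _ = z ^ 4 := by ring

/-- the first block. -/
theorem Big.block0 {C : ℝ} (hC1 : 1 / 6 ≤ C) (hC2 : C ≤ 0.21)
    (hR : 0.89589 * (1 - C) + 0.5159 ≤ C * Real.log z) (hR' : 1.17 ≤ C * Real.log z) {v : ℕ}
    (hv : IsPrimePow v) (hvz : v.minFac ≠ z.minFac) (hs : 0 < Sx x v) (hv6 : v ≤ 6 * z) :
    KB z x v (Real.log ((z : ℝ) * v) * Real.exp (0.4575 - Mz z x (z ^ 4) - Wt z x v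
      + (C - 1 / 12))) := by
  have hx := H.x42
  have hzr := H.zr
  have hL := H.L
  obtain ⟨hal1, hal2⟩ := alive_ge x v hx hv hs
  have hv139 : 139 ≤ v := by have := H.h139; omega
  have hvr : (139 : ℝ) ≤ v := by exact_mod_cast hv139
  have hl2 := Real.log_two_lt_d9
  have hl2' := Real.log_two_gt_d9
  set L := Real.log (z : ℝ) with hLdef
  set t := Real.log (v : ℝ) with htdef
  have ht0 : 0 ≤ t := Real.log_natCast_nonneg v
  have hlog : Real.log ((z : ℝ) * v) = L + t := Real.log_mul (by linarith) (by linarith)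
  have hz4 : 2 * (x / 10000 + 1) ≤ z ^ 4 := H.six.trans H.z4
  have hec := exp_021 hC2
  have hec0 := Real.exp_pos C
  set o := (2 * max L t + 2 * Real.log 2) / (v : ℝ) with ho
  have ho0 : 0 ≤ o := by
    have : 0 ≤ max L t := ht0.trans (le_max_right _ _)
    positivity
  have hOc : OcOK z x v o := OcOK_tail z x v (by have := H.h400; omega) (by omega)
  have hvY : v ≤ max (z ^ 4) v := le_max_right _ _
  have hYY : x / 10000 + 2 ≤ max (z ^ 4) v := by
    have := H.z4
    have h1 := H.six
    have h2 := H.h400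
    have : x / 10000 + 2 ≤ z ^ 4 := by omega
    exact this.trans (le_max_left _ _)
  have hCr : C * L ≤ 0.21 * L := mul_le_mul_of_nonneg_right hC2 (by linarith)
  have final : ∀ b : ℝ, o ≤ b → b ≤ 0.13 → kapv z x (max (z ^ 4) v) v - 0.4209 + 1.272 * b
      ≤ (1 + C) * ((L + t) / 2) → KB z x v (Real.log ((z : ℝ) * v)
        * Real.exp (0.4575 - Mz z x (z ^ 4) - Wt z x v + (C - 1 / 12))) := by
    intro b hb1 hb2 hb3
    have hκ : 1.03 * Real.exp (C - 1 / 12 + 1 / 12) * o ≤ 1.272 * b := by
      have e : C - 1 / 12 + 1 / 12 = C := by ring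
      rw [e]
      have : 1.03 * Real.exp C ≤ 1.272 := by linarith
      have h1 : 1.03 * Real.exp C * o ≤ 1.272 * o := mul_le_mul_of_nonneg_right this ho0
      linarith
    refine nb_level H.hz H.h400 hv hvz hv139 hx hz4 (by linarith) (quad_eps hC1) hOc ho0
      (by linarith) hκ ?_ ?_
    · rw [hlog]
      have : C * ((L + t) / 2) = C * L / 2 + C * t / 2 := by ring
      have h1 : 0 ≤ C * t := mul_nonneg (by linarith) ht0
      rw [this]
      linarith
    · rw [hlog]; exact hb3
  by_cases hcase : x / 10000 + 2 ≤ v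
  · -- nothing above `v` is killed except powers
    have hmi : ∀ i, ((max v (x / dU i + 2) : ℕ) : ℝ) = v := by
      intro i
      have h1 : x / dU i ≤ x / 10000 := Nat.div_le_div_left (dU_pos i).1 (by norm_num)
      rw [max_eq_left (by omega)]
    have hsum : ∑ i, qU i * Real.log ((max v (x / dU i + 2) : ℕ) : ℝ) = t := by
      simp_rw [hmi]
      rw [← Finset.sum_mul, qU_sum, one_mul]
    by_cases hvz' : z ≤ v
    · have hk := kapv_mid z x (max (z ^ 4) v) v H.hz H.h139 hvY hYY 0 le_rfl (by
        intro h1 _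
        have := Nat.minFac_le (n := z) (by have := H.h400; omega)
        omega)
      rw [hsum] at hk
      have hzv : (z : ℝ) ≤ v := by exact_mod_cast hvz'
      have hLt : L ≤ t := Real.log_le_log (by linarith) hzv
      have ho1 : o ≤ 0.03343 := by
        rw [ho, max_eq_right hLt]
        exact (tl_anti (by linarith) hzv).trans ((tl_anti (by norm_num) hzr).trans tl_400)
      refine final 0.03343 ho1 (by norm_num) ?_
      have ht6 : t ≤ L + 1.79177 := by
        have h6 : (v : ℝ) ≤ 6 * z := by exact_mod_cast hv6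
        have h1 : t ≤ Real.log (6 * z) := Real.log_le_log (by linarith) h6
        rw [Real.log_mul (by norm_num) (by linarith)] at h1
        have h3 := Real.log_three_lt_d9
        have h2 : Real.log 6 = Real.log 2 + Real.log 3 := by
          rw [← Real.log_mul (by norm_num) (by norm_num)]; norm_num
        linarith
      have h1 : (1 - C) / 2 * t ≤ (1 - C) / 2 * (L + 1.79177) :=
        mul_le_mul_of_nonneg_left ht6 (by linarith)
      nlinarith
    · have hk := kapv_mid z x (max (z ^ 4) v) v H.hz H.h139 hvY hYY 0.015 (by norm_num) (by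
        intro h1 h2
        rcases H.hq with h3 | h3
        · rw [h3.minFac_eq]
          have h4 := log_div_anti (a := 400) (b := (z : ℝ)) (by norm_num) hzr
          have h5 : Real.log 400 / 400 ≤ 0.015 := by
            have := log_400.2
            rw [div_le_iff₀ (by norm_num)]; linarith
          linarith
        · omega)
      rw [hsum] at hk
      have hvz'' : (v : ℝ) ≤ z := by exact_mod_cast (by omega : v ≤ z)
      have hLt : t ≤ L := Real.log_le_log (by linarith) hvz''
      have hv2 : (z : ℝ) / 2 ≤ v := by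
        have h1 : z ≤ 2 * v := by
          have := H.hxl
          omega
        have h2 : (z : ℝ) ≤ 2 * v := by exact_mod_cast h1
        linarith
      have ho1 : o ≤ 0.0669 := by
        rw [ho, max_eq_left hLt]
        have h1 : (2 * L + 2 * Real.log 2) / (v : ℝ) ≤ (2 * L + 2 * Real.log 2) / ((z : ℝ) / 2) :=
          div_le_div_of_nonneg_left (by linarith) (by linarith) hv2
        have h2 : (2 * L + 2 * Real.log 2) / ((z : ℝ) / 2) = 2 * tl z := by
          unfold tl
          rw [← hLdef]
          field_simp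
        have h3 := (tl_anti (by norm_num) hzr).trans tl_400
        linarith
      refine final 0.0669 ho1 (by norm_num) ?_
      have h1 : (1 - C) / 2 * t ≤ (1 - C) / 2 * L :=
        mul_le_mul_of_nonneg_left hLt (by linarith)
      nlinarith
  · -- the window
    push Not at hcase
    have hxr : (0 : ℝ) < x := by exact_mod_cast (by omega : 0 < x)
    have hk := kapv_mid z x (max (z ^ 4) v) v H.hz H.h139 hvY hYY 0.015 (by norm_num) (by
      intro h1 h2
      rcases H.hq with h3 | h3
      · rw [h3.minFac_eq]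
        have h4 := log_div_anti (a := 400) (b := (z : ℝ)) (by norm_num) hzr
        have h5 : Real.log 400 / 400 ≤ 0.015 := by
          have := log_400.2
          rw [div_le_iff₀ (by norm_num)]; linarith
        linarith
      · omega)
    set lc := Real.log ((x : ℝ) / 10000) with hlc
    set lam := Real.log 1.3 with hlam
    have hlam1 := log_13
    have hlam0 := log_13_nonneg
    have hx139 : (139 : ℝ) * 28561 ≤ x := by
      have := (Nat.le_div_iff_mul_le (by norm_num)).1 H.h139
      exact_mod_cast this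
    -- bounds of t
    have hxv : (x : ℝ) / 28561 ≤ v := by
      rw [div_le_iff₀ (by norm_num)]
      exact_mod_cast hal1
    have hlog28 : Real.log ((x : ℝ) / 28561) = lc - 4 * lam := by
      have e : (x : ℝ) / 28561 = (x : ℝ) / 10000 / 1.3 ^ 4 := by
        rw [div_div]; norm_num
      rw [e, Real.log_div (by positivity) (by positivity), Real.log_pow, hlc, hlam]
      push_cast
      ring
    have ht1 : lc - 4 * lam ≤ t := by
      rw [← hlog28]
      exact Real.log_le_log (by positivity) hxv
    have hv_up : (v : ℝ) ≤ (x : ℝ) / 10000 + 1 := by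
      have h1 : v ≤ x / 10000 + 1 := by omega
      have h2 : (v : ℝ) ≤ ((x / 10000 : ℕ) : ℝ) + 1 := by exact_mod_cast h1
      have h3 := Nat.cast_div_le (α := ℝ) (m := x) (n := 10000)
      push_cast at h3
      linarith
    have hadd : ∀ (a b : ℝ), 139 ≤ a → 0 ≤ b → b ≤ 2 → Real.log (a + b) ≤ Real.log a + 0.0144 := by
      intro a b ha hb0 hb2
      have e : a + b = a * (1 + b / a) := by field_simp
      have hba : 0 ≤ b / a := div_nonneg hb0 (by linarith)
      rw [e, Real.log_mul (by linarith) (by linarith)]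
      have h1 := Real.log_le_sub_one_of_pos (x := 1 + b / a) (by linarith)
      have h2 : b / a ≤ 0.0144 := by
        rw [div_le_iff₀ (by linarith)]; nlinarith
      linarith
    have hx10 : (139 : ℝ) ≤ (x : ℝ) / 10000 := by
      rw [le_div_iff₀ (by norm_num)]; linarith
    have ht2 : t ≤ lc + 0.0144 :=
      (Real.log_le_log (by linarith) hv_up).trans (hadd _ 1 hx10 (by norm_num) (by norm_num))
    have hlcL : lc ≤ L + 4 * lam := by
      have h1 : (x : ℝ) / 28561 ≤ z := by
        rw [div_le_iff₀ (by norm_num)]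
        have : (x : ℝ) ≤ 28561 * z := by exact_mod_cast H.hxu
        linarith
      have h2 := Real.log_le_log (by positivity) h1
      rw [hlog28] at h2
      linarith
    -- logarithms of the m_i
    have hyi : ∀ i : Fin 5, ∀ k : ℝ, Real.log ((dU i : ℝ) / 10000) = k * lam →
        Real.log ((x / dU i + 2 : ℕ) : ℝ) ≤ lc - k * lam + 0.0144 := by
      intro i k hk
      have hd := dU_pos i
      have hd0 : (0 : ℝ) < dU i := by exact_mod_cast (by omega : 0 < dU i)
      have hd1 : (dU i : ℝ) ≤ 28561 := by exact_mod_cast hd.2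
      have h1 := Nat.cast_div_le (α := ℝ) (m := x) (n := dU i)
      have h2 : (139 : ℝ) ≤ (x : ℝ) / dU i := by
        rw [le_div_iff₀ hd0]
        nlinarith
      have h3 : ((x / dU i + 2 : ℕ) : ℝ) ≤ (x : ℝ) / dU i + 2 := by
        push_cast at h1 ⊢
        linarith
      have h4 : Real.log ((x / dU i + 2 : ℕ) : ℝ) ≤ Real.log ((x : ℝ) / dU i + 2) :=
        Real.log_le_log (by positivity) h3
      have h5 := hadd _ 2 h2 (by norm_num) (by norm_num)
      have h6 : Real.log ((x : ℝ) / dU i) = lc - k * lam := by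
        rw [← hk, hlc, ← Real.log_div (by positivity) (by positivity)]
        congr 1
        field_simp
      linarith
    have hmx : ∀ i : Fin 5, ∀ b : ℝ, t ≤ b → Real.log ((x / dU i + 2 : ℕ) : ℝ) ≤ b →
        Real.log ((max v (x / dU i + 2) : ℕ) : ℝ) ≤ b := by
      intro i b h1 h2
      rcases le_total v (x / dU i + 2) with h | h
      · rw [max_eq_right h]; exact h2
      · rw [max_eq_left h]; exact h1
    have e0 : Real.log ((dU 0 : ℝ) / 10000) = 0 * lam := by
      rw [dU_0]; norm_num
    have e1 : Real.log ((dU 1 : ℝ) / 10000) = 1 * lam := by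
      rw [dU_1, hlam]; norm_num
    have e2 : Real.log ((dU 2 : ℝ) / 10000) = 2 * lam := by
      rw [dU_2, hlam]
      have : ((16900 : ℕ) : ℝ) / 10000 = 1.3 ^ 2 := by norm_num
      rw [this, Real.log_pow]; norm_num
    have e3 : Real.log ((dU 3 : ℝ) / 10000) = 3 * lam := by
      rw [dU_3, hlam]
      have : ((21970 : ℕ) : ℝ) / 10000 = 1.3 ^ 3 := by norm_num
      rw [this, Real.log_pow]; norm_num
    have e4 : Real.log ((dU 4 : ℝ) / 10000) = 4 * lam := by
      rw [dU_4, hlam]
      have : ((28561 : ℕ) : ℝ) / 10000 = 1.3 ^ 4 := by norm_num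
      rw [this, Real.log_pow]; norm_num
    have m0 := hmx 0 (lc + 0.0144) ht2 (by have := hyi 0 0 e0; linarith)
    have m1 := hmx 1 (0.75 * lc + 0.25 * t + 0.0144) (by linarith)
      (by have := hyi 1 1 e1; linarith)
    have m2 := hmx 2 (0.5 * lc + 0.5 * t + 0.0144) (by linarith)
      (by have := hyi 2 2 e2; linarith)
    have m3 := hmx 3 (0.25 * lc + 0.75 * t + 0.0144) (by linarith)
      (by have := hyi 3 3 e3; linarith)
    have m4 := hmx 4 (t + 0.0144) (by linarith) (by have := hyi 4 4 e4; linarith)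
    have hS : ∑ i, qU i * Real.log ((max v (x / dU i + 2) : ℕ) : ℝ)
        ≤ 0.45875 * lc + 0.54125 * t + 0.0144 := by
      rw [Fin.sum_univ_five, qU_0, qU_1, qU_2, qU_3, qU_4]
      linarith
    -- the weights
    have hmaxLt : max L t ≤ L + 1.0641 := by
      apply max_le
      · linarith
      · linarith
    have ho1 : o ≤ 0.13 := by
      rw [ho, div_le_iff₀ (by linarith)]
      have h1 := H.ho
      have h2 : 0.13 * ((x : ℝ) / 28561) ≤ 0.13 * v := mul_le_mul_of_nonneg_left hxv (by norm_num)
      linarith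
    refine final 0.13 ho1 le_rfl ?_
    have p1 : 0 ≤ ((1 + C) / 2 - 0.54125) * (t - lc + 4 * lam) :=
      mul_nonneg (by linarith) (by linarith)
    have p2 : 0 ≤ (1 - C) / 2 * (L + 4 * lam - lc) := mul_nonneg (by linarith) (by linarith)
    nlinarith

/-- the blocks between `6 z` and `z ^ 2`. -/
theorem Big.block_large {C T δ : ℝ} (hC1 : 1 / 6 ≤ C) (hC2 : C ≤ 0.4) {v : ℕ}
    (hv : IsPrimePow v) (hvz : v.minFac ≠ z.minFac) (hv6 : 6 * z < v) (hT : Real.log v ≤ T)
    (hδ : tl v ≤ δ) (hδ1 : δ ≤ 0.1)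
    (hR : T + 0.4441 + 2.54 * δ ≤ (1 + C) / 2 * (Real.log z + T)) :
    KB z x v (Real.log ((z : ℝ) * v) * Real.exp (0.4575 - Mz z x (z ^ 4) - Wt z x v
      + (C - 1 / 12))) := by
  have hx := H.x42
  have hzr := H.zr
  have hL := H.L
  have hv139 : 139 ≤ v := by have := H.h400; omega
  have hvr : (6 : ℝ) * z < v := by exact_mod_cast hv6
  have hl2 := Real.log_two_gt_d9
  set L := Real.log (z : ℝ) with hLdef
  set t := Real.log (v : ℝ) with htdef
  have hLt : L ≤ t := Real.log_le_log (by linarith) (by linarith)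
  have hlog : Real.log ((z : ℝ) * v) = L + t := Real.log_mul (by linarith) (by linarith)
  have hz4 : 2 * (x / 10000 + 1) ≤ z ^ 4 := H.six.trans H.z4
  have hec := exp_04 hC2
  have hec0 := Real.exp_pos C
  have hδ0 : 0 ≤ tl (v : ℝ) := tl_nonneg (by linarith)
  have hOc : OcOK z x v (tl v) := by
    have h := OcOK_tail z x v (by have := H.h400; omega) (by omega)
    rw [← hLdef, ← htdef, max_eq_right hLt] at h
    exact h
  have hk := kapv_large z x (max (z ^ 4) v) v hx (H.six.trans hv6.le)
  have hk' : kapv z x (max (z ^ 4) v) v ≤ A1 v + tl v := hk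
  have hA := A1_upper_all v (by omega)
  rw [← htdef] at hA
  refine nb_level (κ := 1.54 * δ) H.hz H.h400 hv hvz hv139 hx hz4 (by linarith) (quad_eps hC1) hOc
    hδ0 (by linarith) ?_ ?_ ?_
  · have e : C - 1 / 12 + 1 / 12 = C := by ring
    rw [e]
    have : 1.03 * Real.exp C ≤ 1.54 := by linarith
    have h1 : 1.03 * Real.exp C * tl v ≤ 1.54 * tl v := mul_le_mul_of_nonneg_right this hδ0
    linarith
  · rw [hlog]
    have : (1 / 6 : ℝ) * ((L + t) / 2) ≤ C * ((L + t) / 2) :=
      mul_le_mul_of_nonneg_right hC1 (by linarith)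
    linarith
  · rw [hlog]
    have h1 : (1 - C) / 2 * t ≤ (1 - C) / 2 * T := mul_le_mul_of_nonneg_left hT (by linarith)
    nlinarith

/-- the far components. -/
theorem Big.far {v : ℕ} (hv : IsPrimePow v) (hv2 : z ^ 2 < v) :
    LevB z x v (Real.exp (0.4575 - Mz z x (z ^ 4)) * 1.8906) ∧
    (v ≤ z ^ 4 → LevB z x v (Real.exp (0.4575 - Mz z x (z ^ 4)) * 1.5125)) := by
  have hx := H.x42
  have hzr := H.zr
  have hL := H.L
  have h16 : 160000 ≤ z ^ 2 := by
    calc 160000 = 400 ^ 2 := by norm_num
      _ ≤ z ^ 2 := Nat.pow_le_pow_left H.h400 2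
  have hv16 : 160000 < v := by omega
  have hvr : (160000 : ℝ) < v := by exact_mod_cast hv16
  have h6 : 6 * z ≤ v := by
    have h1 : 6 * z ≤ z ^ 2 := by
      rw [pow_two]; exact Nat.mul_le_mul_right _ (by have := H.h400; omega)
    omega
  set L := Real.log (z : ℝ) with hLdef
  set t := Real.log (v : ℝ) with htdef
  have ht9 : 9 ≤ t := by
    have h1 : Real.log 10000 ≤ t := Real.log_le_log (by norm_num) (by linarith)
    have := log_1e4.1
    linarith
  have hlog : Real.log ((z : ℝ) * v) = L + t := Real.log_mul (by linarith) (by linarith)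
  have hω : 2 / (v : ℝ) ≤ 0.0000125 := by
    rw [div_le_iff₀ (by linarith)]; linarith
  have hω0 : 0 ≤ 2 / (v : ℝ) := by positivity
  have he2 : Real.exp (2 / (v : ℝ)) ≤ 1.00002 := by
    have h1 : Real.exp (2 / (v : ℝ)) ≤ Real.exp 0.0000125 := Real.exp_le_exp.2 hω
    have h2 := Real.abs_exp_sub_one_sub_id_le (x := (0.0000125 : ℝ)) (by norm_num [abs_of_pos])
    rw [abs_le] at h2
    have h3 := h2.2
    norm_num at h3
    have h4 : Real.exp 0.0000125 ≤ 1.00002 := by
      have e : (0.0000125 : ℝ) = 1 / 80000 := by norm_num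
      rw [e]
      linarith
    linarith
  have hKB : KB z x v (1.012 * Real.exp (2 / (v : ℝ))) := by
    refine FBK_restr z x v (2 / (v : ℝ)) H.hz hv (by omega) hv2.le hω0 (by linarith) ?_
    intro VS hVS r
    exact tail_one x v (by omega) VS (fun w hw => ⟨(hVS w hw).1, (hVS w hw).2.1⟩) r
  set g := Real.exp (0.4575 - Mz z x (z ^ 4)) with hg
  have hg0 : 0 < g := Real.exp_pos _
  have key : ∀ r : ℝ, 0 ≤ r → t / (L + t) ≤ r → LevB z x v (g * (1.8906 * r)) := by
    intro r hr0 hr
    refine ⟨_, hKB, ?_⟩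
    rw [hlog]
    have hW : Real.exp (Wt z x v - Sx x v / (v : ℝ) / 2) ≤ g * (1.00002 * (1.868 * t)) := by
      have h1 := Mz_Wt_le z x (z ^ 4) v hx (H.six.trans h6)
      have h2 := exp_Hpp_ge v (by omega)
      rw [← htdef] at h2
      have h3 := Sx_div_nonneg x v
      have h4 : Real.exp (Wt z x v - Sx x v / (v : ℝ) / 2)
          ≤ Real.exp ((0.4575 - Mz z x (z ^ 4)) + (2 / v + (Hpp v - 0.4575))) := by
        apply Real.exp_le_exp.2
        linarith
      rw [Real.exp_add, Real.exp_add] at h4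
      refine h4.trans ?_
      apply mul_le_mul_of_nonneg_left _ hg0.le
      exact mul_le_mul he2 h2 (Real.exp_pos _).le (by norm_num)
    have hLt : 0 < L + t := by linarith
    have h1 : 1.012 * Real.exp (2 / (v : ℝ)) / (L + t) ≤ 1.01203 / (L + t) := by
      apply div_le_div_of_nonneg_right _ hLt.le
      linarith
    calc 1.012 * Real.exp (2 / (v : ℝ)) / (L + t) * Real.exp (Wt z x v - Sx x v / (v : ℝ) / 2)
        ≤ 1.01203 / (L + t) * (g * (1.00002 * (1.868 * t))) :=
          mul_le_mul h1 hW (Real.exp_pos _).le (by positivity)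
      _ = g * (1.01203 * 1.00002 * 1.868 * (t / (L + t))) := by ring
      _ ≤ g * (1.8906 * r) := by
          apply mul_le_mul_of_nonneg_left _ hg0.le
          have h0 : 0 ≤ t / (L + t) := div_nonneg (by linarith) hLt.le
          have : 1.01203 * 1.00002 * 1.868 * (t / (L + t)) ≤ 1.8906 * (t / (L + t)) :=
            mul_le_mul_of_nonneg_right (by norm_num) h0
          nlinarith
  constructor
  · refine (key 1 (by norm_num) ?_).mono ?_
    · rw [div_le_one (by linarith)]; linarith
    · exact mul_le_mul_of_nonneg_left (by norm_num) hg0.le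
  · intro hv4
    refine (key 0.8 (by norm_num) ?_).mono ?_
    · rw [div_le_iff₀ (by linarith)]
      have h1 : (v : ℝ) ≤ (z : ℝ) ^ 4 := by exact_mod_cast hv4
      have h2 := Real.log_le_log (by linarith) h1
      rw [Real.log_pow] at h2
      push_cast at h2
      linarith
    · exact mul_le_mul_of_nonneg_left (by norm_num) hg0.le

end

end Pool.Agent.EZ
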