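import Pool.Agent.EZ.UD

/-!
# Large roots: assembly of the blocks (helper46)
-/

set_option autoImplicit false

namespace Pool.Agent.EZ

open Finset

theorem exp_le_two {ω : ℝ} (h : ω ≤ 0.5) : Real.exp ω ≤ 2 := by
  have h1 : Real.exp ω ≤ Real.exp 0.5 := Real.exp_le_exp.2 h
  have h2 : Real.exp 0.5 * Real.exp 0.5 = Real.exp 1 := by rw [← Real.exp_add]; norm_num
  have h3 := Real.exp_one_lt_d9
  have h4 := Real.exp_pos 0.5
  nlinarith

theorem tl_2400 : tl 2400 ≤ 0.00707 := by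
  unfold tl
  have h1 := log_400.2
  have h2 := Real.log_two_lt_d9
  have h3 := Real.log_three_lt_d9
  have e : Real.log 2400 = Real.log 400 + Real.log 2 + Real.log 3 := by
    rw [← Real.log_mul (by norm_num) (by norm_num), ← Real.log_mul (by norm_num) (by norm_num)]
    norm_num
  rw [div_le_iff₀ (by norm_num), e]
  linarith

theorem tl_8000 : tl 8000 ≤ 0.00243 := by
  unfold tl
  have h1 := log_400.2
  have h2 := Real.log_two_lt_d9
  have h3 := Real.log_five_lt_d9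
  have e : Real.log 8000 = Real.log 400 + 2 * Real.log 2 + Real.log 5 := by
    rw [show (8000 : ℝ) = 400 * 2 ^ 2 * 5 by norm_num, Real.log_mul (by norm_num) (by norm_num),
      Real.log_mul (by norm_num) (by norm_num), Real.log_pow]
    norm_num
  rw [div_le_iff₀ (by norm_num), e]
  linarith

section
variable {z x : ℕ} (H : Big z x)
include H

/-- the intermediate block end. -/
theorem Big.X2 : 6 * z < Nat.sqrt (z ^ 3) ∧ Nat.sqrt (z ^ 3) < z ^ 2 ∧ 19 * z ≤ Nat.sqrt (z ^ 3)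
    ∧ 3 * Real.log z ≤ 2 * Real.log ((Nat.sqrt (z ^ 3) : ℝ) + 1) ∧ 7999 < Nat.sqrt (z ^ 3) := by
  have h4 := H.h400
  have hzr := H.zr
  have h19 : 19 * z ≤ Nat.sqrt (z ^ 3) := by
    rw [Nat.le_sqrt]
    calc 19 * z * (19 * z) = 361 * (z * z) := by ring
      _ ≤ z * (z * z) := Nat.mul_le_mul_right _ (by omega)
      _ = z ^ 3 := by ring
  have hlt : Nat.sqrt (z ^ 3) < z ^ 2 := by
    rw [Nat.sqrt_lt]
    calc z ^ 3 = z * (z * z) := by ring
      _ < z * z * (z * z) := by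
        apply Nat.mul_lt_mul_of_pos_right _ (by positivity)
        nlinarith
      _ = z ^ 2 * z ^ 2 := by ring
  have h8 : 7999 < Nat.sqrt (z ^ 3) := by
    have : 8000 ≤ Nat.sqrt (z ^ 3) := by
      rw [Nat.le_sqrt]
      calc 8000 * 8000 = 400 ^ 3 := by norm_num
        _ ≤ z ^ 3 := Nat.pow_le_pow_left h4 3
    omega
  refine ⟨by omega, hlt, h19, ?_, h8⟩
  have h1 : z ^ 3 < (Nat.sqrt (z ^ 3) + 1) ^ 2 := Nat.lt_succ_sqrt' _
  have h2 : (z : ℝ) ^ 3 ≤ ((Nat.sqrt (z ^ 3) : ℝ) + 1) ^ 2 := by exact_mod_cast h1.le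
  have h3 := Real.log_le_log (by positivity) h2
  rw [Real.log_pow, Real.log_pow] at h3
  exact_mod_cast h3

/-- products of the weights and the base. -/
theorem Big.gE (X : ℕ) (hX : X ≤ z ^ 4) (h127 : 127 ≤ X) (k : ℝ) (hk : 0 < k)
    (hlog : k * Real.log z ≤ Real.log ((X : ℝ) + 1)) :
    Real.exp (0.4575 - Mz z x (z ^ 4)) * Real.exp (-Wt z x X) ≤ 0.5833 / (k * Real.log z) := by
  have hL := H.L
  rw [← Real.exp_add]
  have h1 := Hpp_le z x X (z ^ 4) hX
  have h2 : Real.exp (0.4575 - Mz z x (z ^ 4) + -Wt z x X) ≤ Real.exp (0.4575 - Hpp X) := by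
    apply Real.exp_le_exp.2
    linarith
  refine h2.trans ((exp_Hpp_le X h127).trans ?_)
  exact div_le_div_of_nonneg_left (by norm_num) (by positivity) hlog

/-- the base. -/
theorem Big.base (F : ℝ) (hF : ∑ i, qU i * (Real.log z / Real.log (((x / dU i : ℕ) : ℝ) + 1)) ≤ F) :
    Real.log z * Real.exp (0.4575 - Mz z x (z ^ 4)) ≤ 0.5833 * F := by
  have hL := H.L
  have hx := H.x42
  have h1 := Mz_ge z x (z ^ 4) hx (by
    have := H.z4
    have := H.six
    omega)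
  have h2 : Real.exp (0.4575 - Mz z x (z ^ 4)) ≤ Real.exp (∑ i, qU i • (0.4575 - Hpp (x / dU i))) := by
    apply Real.exp_le_exp.2
    have e : ∑ i, qU i • (0.4575 - Hpp (x / dU i)) = 0.4575 - ∑ i, qU i * Hpp (x / dU i) := by
      simp_rw [smul_eq_mul, mul_sub]
      rw [Finset.sum_sub_distrib, ← Finset.sum_mul, qU_sum, one_mul]
    rw [e]
    linarith
  have h3 := convexOn_exp.map_sum_le (t := Finset.univ) (w := qU)
    (p := fun i => 0.4575 - Hpp (x / dU i)) (fun i _ => qU_nonneg i) qU_sum (fun i _ => Set.mem_univ _)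
  have h4 : ∑ i, qU i • Real.exp (0.4575 - Hpp (x / dU i))
      ≤ ∑ i, qU i * (0.5833 / Real.log (((x / dU i : ℕ) : ℝ) + 1)) := by
    apply Finset.sum_le_sum
    intro i _
    rw [smul_eq_mul]
    apply mul_le_mul_of_nonneg_left _ (qU_nonneg i)
    apply exp_Hpp_le
    have h5 : x / 28561 ≤ x / dU i :=
      Nat.div_le_div_left (dU_pos i).2 (by have := (dU_pos i).1; omega)
    have := H.h139
    omega
  have h5 : Real.exp (0.4575 - Mz z x (z ^ 4))
      ≤ ∑ i, qU i * (0.5833 / Real.log (((x / dU i : ℕ) : ℝ) + 1)) := h2.trans (h3.trans h4)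
  have h6 := mul_le_mul_of_nonneg_left h5 (by linarith : 0 ≤ Real.log (z : ℝ))
  refine h6.trans ?_
  have e : Real.log (z : ℝ) * ∑ i, qU i * (0.5833 / Real.log (((x / dU i : ℕ) : ℝ) + 1))
      = 0.5833 * ∑ i, qU i * (Real.log z / Real.log (((x / dU i : ℕ) : ℝ) + 1)) := by
    rw [Finset.mul_sum, Finset.mul_sum]
    apply Finset.sum_congr rfl
    intro i _
    ring
  rw [e]
  exact mul_le_mul_of_nonneg_left hF (by norm_num)

/-- the block theorem for the large roots. -/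
theorem Big.core {C0 C1 C2 ρ0 ρ1 ρ2 F : ℝ} (h0 : 1 / 6 ≤ C0) (h0' : C0 ≤ 0.21)
    (h1 : 1 / 6 ≤ C1) (h1' : C1 ≤ 0.4) (h2 : 1 / 6 ≤ C2) (h2' : C2 ≤ 0.4)
    (hR : 0.89589 * (1 - C0) + 0.5159 ≤ C0 * Real.log z) (hR' : 1.17 ≤ C0 * Real.log z)
    (hR1 : 0.46206 ≤ (1.25 * C1 - 0.25) * Real.log z)
    (hR2 : 0.45028 ≤ (1.5 * C2 - 0.5) * Real.log z)
    (e0 : Real.exp (C0 - 1 / 12) ≤ ρ0) (e1 : Real.exp (C1 - 1 / 12) ≤ ρ1)
    (e2 : Real.exp (C2 - 1 / 12) ≤ ρ2) (m1 : ρ0 ≤ ρ1) (m2 : ρ1 ≤ ρ2) (m3 : ρ2 ≤ 1.5125)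
    (hF : ∑ i, qU i * (Real.log z / Real.log (((x / dU i : ℕ) : ℝ) + 1)) ≤ F) :
    LINB z x (0.5833 * (ρ0 * F + (ρ1 - ρ0) + (ρ2 - ρ1) * (2 / 3) + (1.5125 - ρ2) / 2 + 0.3781 / 4)) ∧
    TOPB z x (0.5833 * (ρ0 * F * (10230 / x) + ((ρ1 - ρ0) / 3 + (ρ2 - ρ1) * (4 / 57)
      + ((1.5125 - ρ2) / 2 + 0.3781 / 4) / 200) / z)) := by
  have hL := H.L
  have hzr := H.zr
  have hx := H.x42
  have h4 := H.h400
  obtain ⟨x1, x2, x3, x4, x5⟩ := H.X2
  set X := Nat.sqrt (z ^ 3) with hX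
  set L := Real.log (z : ℝ) with hLdef
  set g := Real.exp (0.4575 - Mz z x (z ^ 4)) with hg
  have hg0 : 0 < g := Real.exp_pos _
  have hρ0 : 0 < ρ0 := lt_of_lt_of_le (Real.exp_pos _) e0
  have hL0 : 0 < L := by linarith
  have hx1 : (7999 : ℝ) < X := by exact_mod_cast x5
  have hz2 : z ^ 2 < z ^ 4 := Nat.pow_lt_pow_right (by omega) (by norm_num)
  have hz2r : (z : ℝ) ≤ (z : ℝ) ^ 2 := by nlinarith
  have hz1L : 0 < Real.exp (-Wt z x (6 * z)) := Real.exp_pos _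
  -- levels
  have lev0 : LevI z x 0 (6 * z) (g * ρ0) := by
    intro v hv hvz hs _ hv6
    exact (lev_of_KB H.hz hv (z ^ 4) (H.block0 h0 h0' hR hR' hv hvz hs hv6)).mono
      (mul_le_mul_of_nonneg_left e0 hg0.le)
  have lev1 : LevI z x (6 * z) X (g * ρ1) := by
    intro v hv hvz hs hv6 hvX
    have hv6r : (6 : ℝ) * z < v := by exact_mod_cast hv6
    have hv0 : (2400 : ℝ) ≤ v := by linarith
    have hT : Real.log v ≤ 1.5 * L := by
      have h5 : v * v ≤ z ^ 3 := Nat.le_sqrt.1 hvX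
      have h6 : (v : ℝ) ^ 2 ≤ (z : ℝ) ^ 3 := by
        rw [pow_two]; exact_mod_cast h5
      have h7 := Real.log_le_log (by positivity) h6
      rw [Real.log_pow, Real.log_pow] at h7
      push_cast at h7
      linarith
    refine (lev_of_KB H.hz hv (z ^ 4) (H.block_large (T := 1.5 * L) (δ := 0.00707) h1 h1' hv hvz hv6
      hT ((tl_anti (by norm_num) hv0).trans tl_2400) (by norm_num) ?_)).mono
      (mul_le_mul_of_nonneg_left e1 hg0.le)
    rw [← hLdef]
    linarith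
  have lev2 : LevI z x X (z ^ 2) (g * ρ2) := by
    intro v hv hvz hs hvX hv2
    have hv0 : (8000 : ℝ) ≤ v := by exact_mod_cast (by omega : 8000 ≤ v)
    have hT : Real.log v ≤ 2 * L := by
      have h6 : (v : ℝ) ≤ (z : ℝ) ^ 2 := by exact_mod_cast hv2
      have h7 := Real.log_le_log (by positivity) h6
      rw [Real.log_pow] at h7
      push_cast at h7
      linarith
    refine (lev_of_KB H.hz hv (z ^ 4) (H.block_large (T := 2 * L) (δ := 0.00243) h2 h2' hv hvz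
      (by omega) hT ((tl_anti (by norm_num) hv0).trans tl_8000) (by norm_num) ?_)).mono
      (mul_le_mul_of_nonneg_left e2 hg0.le)
    rw [← hLdef]
    linarith
  have lev3 : LevI z x (z ^ 2) (z ^ 4) (g * 1.5125) := by
    intro v hv _ _ hv2 hv4
    exact (H.far hv hv2).2 hv4
  -- caps
  have hcap0 : CapB z x 0 (10230 / x) := by
    intro VS hVS r
    have h5 := stmt_CAP x VS (fun v hv => (hVS v hv).1) r
    apply h5.2
    have := H.h139
    have h6 : 139 * 28561 ≤ x := (Nat.le_div_iff_mul_le (by norm_num)).1 this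
    omega
  have hcap : ∀ Y : ℕ, 1 ≤ Y → CapB z x Y (2 / Y) := by
    intro Y hY VS hVS r
    exact tail_one x Y hY VS (fun w hw => ⟨(hVS w hw).1, (hVS w hw).2.1⟩) r
  have hxr : (3900000 : ℝ) ≤ x := by
    have h6 : 139 * 28561 ≤ x := (Nat.le_div_iff_mul_le (by norm_num)).1 H.h139
    exact_mod_cast (by omega : 3900000 ≤ x)
  have hω0 : Real.exp (10230 / (x : ℝ)) ≤ 2 := by
    apply exp_le_two
    rw [div_le_iff₀ (by linarith)]; linarith
  have hωY : ∀ Y : ℕ, 4 ≤ Y → Real.exp (2 / (Y : ℝ)) ≤ 2 := by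
    intro Y hY
    apply exp_le_two
    have : (4 : ℝ) ≤ Y := by exact_mod_cast hY
    rw [div_le_iff₀ (by linarith)]; linarith
  have hs : ∀ ω : ℝ, 1 - Real.exp (-ω) ≤ ω := fun ω => by
    have := Real.one_sub_le_exp_neg ω
    linarith
  have hz4 : 4 ≤ z ^ 2 := by
    calc 4 ≤ 400 ^ 2 := by norm_num
      _ ≤ z ^ 2 := Nat.pow_le_pow_left h4 2
  have S4 := Suf.last (z := z) (x := x) (a := z ^ 4) (g := g * 1.5125) (g' := g * 1.8906)
    (ω := 2 / ((z ^ 4 : ℕ) : ℝ)) (s := 2 / ((z ^ 4 : ℕ) : ℝ))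
    (mul_le_mul_of_nonneg_left (by norm_num) hg0.le)
    (fun v hv _ _ hv4 => (H.far hv (by omega)).1) le_rfl (hωY _ (by omega)) (hcap _ (by omega))
    (hs _)
  have S3 := Suf.cons (z := z) (x := x) (a := z ^ 2) (g := g * ρ2)
    (ω := 2 / ((z ^ 2 : ℕ) : ℝ)) (s := 2 / ((z ^ 2 : ℕ) : ℝ)) hz2
    (mul_le_mul_of_nonneg_left m3 hg0.le) lev3 le_rfl (hωY _ hz4) (hcap _ (by omega)) (hs _) S4
  have S2 := Suf.cons (z := z) (x := x) (a := X) (g := g * ρ1)
    (ω := 2 / (X : ℝ)) (s := 2 / (X : ℝ)) x2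
    (mul_le_mul_of_nonneg_left m2 hg0.le) lev2 le_rfl (hωY _ (by omega)) (hcap _ (by omega)) (hs _) S3
  have S1 := Suf.cons (z := z) (x := x) (a := 6 * z) (g := g * ρ0)
    (ω := 2 / ((6 * z : ℕ) : ℝ)) (s := 2 / ((6 * z : ℕ) : ℝ)) x1
    (mul_le_mul_of_nonneg_left m1 hg0.le) lev1 le_rfl (hωY _ (by omega)) (hcap _ (by omega)) (hs _) S2
  have S0 := Suf.cons (z := z) (x := x) (a := 0) (g := 0) (e := 1)
    (ω := 10230 / (x : ℝ)) (s := 10230 / (x : ℝ)) (by omega : 0 < 6 * z)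
    (mul_nonneg hg0.le hρ0.le) lev0 (by rw [Wt_zero]; simp) hω0 hcap0 (hs _) S1
  obtain ⟨hLIN, hTOP⟩ := Suf.final H.hz S0
  rw [← hLdef] at hLIN hTOP
  -- products
  set E1 := Real.exp (-Wt z x (6 * z)) with hE1
  set E2 := Real.exp (-Wt z x X) with hE2
  set E3 := Real.exp (-Wt z x (z ^ 2)) with hE3
  set E4 := Real.exp (-Wt z x (z ^ 4)) with hE4
  have hz6 := H.z4
  have g1 : g * E1 ≤ 0.5833 / (1 * L) := by
    refine H.gE (6 * z) hz6 (by omega) 1 one_pos ?_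
    rw [one_mul, ← hLdef]
    apply Real.log_le_log (by linarith)
    push_cast; linarith
  have g2 : g * E2 ≤ 0.5833 / (1.5 * L) := by
    refine H.gE X (by omega) (by omega) 1.5 (by norm_num) ?_
    rw [← hLdef]; linarith
  have g3 : g * E3 ≤ 0.5833 / (2 * L) := by
    refine H.gE (z ^ 2) hz2.le (by
      have : 400 ^ 2 ≤ z ^ 2 := Nat.pow_le_pow_left h4 2
      omega) 2 (by norm_num) ?_
    have h6 : Real.log ((z : ℝ) ^ 2) ≤ Real.log (((z ^ 2 : ℕ) : ℝ) + 1) := by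
      apply Real.log_le_log (by positivity)
      push_cast; linarith
    rw [Real.log_pow] at h6
    exact_mod_cast h6
  have g4 : g * E4 ≤ 0.5833 / (4 * L) := by
    refine H.gE (z ^ 4) le_rfl (by omega) 4 (by norm_num) ?_
    have h6 : Real.log ((z : ℝ) ^ 4) ≤ Real.log (((z ^ 4 : ℕ) : ℝ) + 1) := by
      apply Real.log_le_log (by positivity)
      push_cast; linarith
    rw [Real.log_pow] at h6
    exact_mod_cast h6
  have k1 : L * (g * E1) ≤ 0.5833 := by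
    have := mul_le_mul_of_nonneg_left g1 hL0.le
    have e : L * (0.5833 / (1 * L)) = 0.5833 := by field_simp
    linarith
  have k2 : L * (g * E2) ≤ 0.5833 * (2 / 3) := by
    have := mul_le_mul_of_nonneg_left g2 hL0.le
    have e : L * (0.5833 / (1.5 * L)) = 0.5833 * (2 / 3) := by field_simp; norm_num
    linarith
  have k3 : L * (g * E3) ≤ 0.5833 / 2 := by
    have := mul_le_mul_of_nonneg_left g3 hL0.le
    have e : L * (0.5833 / (2 * L)) = 0.5833 / 2 := by field_simp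
    linarith
  have k4 : L * (g * E4) ≤ 0.5833 / 4 := by
    have := mul_le_mul_of_nonneg_left g4 hL0.le
    have e : L * (0.5833 / (4 * L)) = 0.5833 / 4 := by field_simp
    linarith
  have kb := H.base F hF
  rw [← hLdef, ← hg] at kb
  have hE1p : 0 ≤ L * (g * E1) := by positivity
  have hE2p : 0 ≤ L * (g * E2) := by positivity
  have hE3p : 0 ≤ L * (g * E3) := by positivity
  have hE4p : 0 ≤ L * (g * E4) := by positivity
  have hbp : 0 ≤ L * g := by positivity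
  have d1 : 0 ≤ ρ1 - ρ0 := by linarith
  have d2 : 0 ≤ ρ2 - ρ1 := by linarith
  have d3 : 0 ≤ 1.5125 - ρ2 := by linarith
  have q0 : ρ0 * (L * g) ≤ ρ0 * (0.5833 * F) := mul_le_mul_of_nonneg_left kb hρ0.le
  have q1 : (ρ1 - ρ0) * (L * (g * E1)) ≤ (ρ1 - ρ0) * 0.5833 := mul_le_mul_of_nonneg_left k1 d1
  have q2 : (ρ2 - ρ1) * (L * (g * E2)) ≤ (ρ2 - ρ1) * (0.5833 * (2 / 3)) :=
    mul_le_mul_of_nonneg_left k2 d2
  have q3 : (1.5125 - ρ2) * (L * (g * E3)) ≤ (1.5125 - ρ2) * (0.5833 / 2) :=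
    mul_le_mul_of_nonneg_left k3 d3
  have hz0 : (0 : ℝ) < z := by linarith
  constructor
  · intro M hM VS hVS hM2
    refine (hLIN M hM VS hVS hM2).trans ?_
    apply mul_le_mul_of_nonneg_right _ (hit_nonneg x VS hVS M)
    apply mul_le_mul_of_nonneg_right
    · have e : L * ((g * ρ0 - 0) * 1 + ((g * ρ1 - g * ρ0) * E1 + ((g * ρ2 - g * ρ1) * E2
          + ((g * 1.5125 - g * ρ2) * E3 + (g * 1.8906 - g * 1.5125) * E4))))
          = ρ0 * (L * g) + (ρ1 - ρ0) * (L * (g * E1)) + (ρ2 - ρ1) * (L * (g * E2))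
            + (1.5125 - ρ2) * (L * (g * E3)) + 0.3781 * (L * (g * E4)) := by ring
      rw [e]
      linarith
    · unfold hh
      have := (z_facts H.hz).1
      positivity
  · intro M hM hI
    refine (hTOP M hM hI).trans ?_
    apply mul_le_mul_of_nonneg_right
    · have e : L * ((g * ρ0 - 0) * 1 * (10230 / (x : ℝ)) + ((g * ρ1 - g * ρ0) * E1
          * (2 / ((6 * z : ℕ) : ℝ)) + ((g * ρ2 - g * ρ1) * E2 * (2 / (X : ℝ))
          + ((g * 1.5125 - g * ρ2) * E3 * (2 / ((z ^ 2 : ℕ) : ℝ))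
          + (g * 1.8906 - g * 1.5125) * E4 * (2 / ((z ^ 4 : ℕ) : ℝ))))))
          = ρ0 * (L * g) * (10230 / (x : ℝ)) + (ρ1 - ρ0) * (L * (g * E1)) * (2 / ((6 * z : ℕ) : ℝ))
            + (ρ2 - ρ1) * (L * (g * E2)) * (2 / (X : ℝ))
            + (1.5125 - ρ2) * (L * (g * E3)) * (2 / ((z ^ 2 : ℕ) : ℝ))
            + 0.3781 * (L * (g * E4)) * (2 / ((z ^ 4 : ℕ) : ℝ)) := by ring
      rw [e]
      have f0 : 0 ≤ 10230 / (x : ℝ) := by positivity
      have f1 : 2 / ((6 * z : ℕ) : ℝ) = 1 / 3 / z := by push_cast; field_simp; norm_num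
      have f2 : 2 / (X : ℝ) ≤ 2 / 19 / z := by
        have : (19 : ℝ) * z ≤ X := by exact_mod_cast x3
        rw [div_div, div_le_div_iff₀ (by linarith) (by linarith)]
        linarith
      have f2' : 0 ≤ 2 / (X : ℝ) := by positivity
      have f3 : 2 / ((z ^ 2 : ℕ) : ℝ) ≤ 1 / 200 / z := by
        push_cast
        rw [div_div, div_le_div_iff₀ (by positivity) (by linarith)]
        nlinarith
      have f3' : 0 ≤ 2 / ((z ^ 2 : ℕ) : ℝ) := by positivity
      have f4 : 2 / ((z ^ 4 : ℕ) : ℝ) ≤ 1 / 200 / z := by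
        refine le_trans ?_ f3
        apply div_le_div_of_nonneg_left (by norm_num) (by positivity)
        exact_mod_cast hz2.le
      have f4' : 0 ≤ 2 / ((z ^ 4 : ℕ) : ℝ) := by positivity
      have t0 : ρ0 * (L * g) * (10230 / (x : ℝ)) ≤ ρ0 * (0.5833 * F) * (10230 / (x : ℝ)) :=
        mul_le_mul_of_nonneg_right q0 f0
      have t1 : (ρ1 - ρ0) * (L * (g * E1)) * (2 / ((6 * z : ℕ) : ℝ))
          ≤ (ρ1 - ρ0) * 0.5833 * (1 / 3 / z) := by
        rw [f1]
        exact mul_le_mul_of_nonneg_right q1 (by positivity)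
      have t2 : (ρ2 - ρ1) * (L * (g * E2)) * (2 / (X : ℝ))
          ≤ (ρ2 - ρ1) * (0.5833 * (2 / 3)) * (2 / 19 / z) :=
        mul_le_mul q2 f2 f2' (mul_nonneg d2 (by norm_num))
      have t3 : (1.5125 - ρ2) * (L * (g * E3)) * (2 / ((z ^ 2 : ℕ) : ℝ))
          ≤ (1.5125 - ρ2) * (0.5833 / 2) * (1 / 200 / z) :=
        mul_le_mul q3 f3 f3' (mul_nonneg d3 (by norm_num))
      have t4 : 0.3781 * (L * (g * E4)) * (2 / ((z ^ 4 : ℕ) : ℝ))
          ≤ 0.3781 * (0.5833 / 4) * (1 / 200 / z) :=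
        mul_le_mul (by linarith) f4 f4' (by norm_num)
      have e' : 0.5833 * (ρ0 * F * (10230 / (x : ℝ)) + ((ρ1 - ρ0) / 3 + (ρ2 - ρ1) * (4 / 57)
          + ((1.5125 - ρ2) / 2 + 0.3781 / 4) / 200) / z)
          = ρ0 * (0.5833 * F) * (10230 / (x : ℝ)) + (ρ1 - ρ0) * 0.5833 * (1 / 3 / z)
            + (ρ2 - ρ1) * (0.5833 * (2 / 3)) * (2 / 19 / z)
            + (1.5125 - ρ2) * (0.5833 / 2) * (1 / 200 / z)
            + 0.3781 * (0.5833 / 4) * (1 / 200 / z) := by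
        field_simp
        ring
      rw [e']
      linarith
    · unfold hh
      have := (z_facts H.hz).1
      positivity

end

end Pool.Agent.EZ
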