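import Pool.Agent.EZ.UE

/-!
# Large roots that are proper powers (helper46)
-/

set_option autoImplicit false

namespace Pool.Agent.EZ

open Finset

theorem Wt_succ (z x b : ℕ) : Wt z x (b + 1) = Wt z x b
    + (if IsPrimePow (b + 1) ∧ (b + 1).minFac ≠ z.minFac then Sx x (b + 1) / ((b + 1 : ℕ) : ℝ)
      else 0) := by
  unfold Wt ppK
  rw [Finset.filter_filter, Finset.filter_filter, Finset.sum_filter, Finset.sum_filter,
    Finset.sum_Icc_succ_top (by omega)]

/-- the Riemann sum. -/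
theorem riemann (z x a b : ℕ) (hab : a ≤ b) :
    ∑ v ∈ (ppK b).filter (fun w => w.minFac ≠ z.minFac ∧ a < w), Sx x v / (v : ℝ)
      * Real.exp (-Wt z x v) ≤ Real.exp (-Wt z x a) - Real.exp (-Wt z x b) := by
  induction b, hab using Nat.le_induction with
  | base =>
    rw [sub_self]
    apply le_of_eq
    apply Finset.sum_eq_zero
    intro v hv
    simp only [Finset.mem_filter, mem_ppK] at hv
    omega
  | succ b hb ih =>
    have e : ∑ v ∈ (ppK (b + 1)).filter (fun w => w.minFac ≠ z.minFac ∧ a < w), Sx x v / (v : ℝ)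
        * Real.exp (-Wt z x v) = ∑ v ∈ (ppK b).filter (fun w => w.minFac ≠ z.minFac ∧ a < w),
          Sx x v / (v : ℝ) * Real.exp (-Wt z x v)
        + (if IsPrimePow (b + 1) ∧ (b + 1).minFac ≠ z.minFac then Sx x (b + 1) / ((b + 1 : ℕ) : ℝ)
          else 0) * Real.exp (-Wt z x (b + 1)) := by
      unfold ppK
      rw [Finset.filter_filter, Finset.filter_filter, Finset.sum_filter, Finset.sum_filter,
        Finset.sum_Icc_succ_top (by omega)]
      congr 1
      have hab : a < b + 1 := by omega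
      simp only [hab, and_true]
      split_ifs <;> simp
    rw [e, Wt_succ z x b]
    set u := (if IsPrimePow (b + 1) ∧ (b + 1).minFac ≠ z.minFac then Sx x (b + 1)
      / ((b + 1 : ℕ) : ℝ) else 0) with hu
    have h1 : u * Real.exp (-(Wt z x b + u)) ≤ Real.exp (-Wt z x b) - Real.exp (-(Wt z x b + u)) := by
      have h2 := Real.add_one_le_exp u
      have h3 : Real.exp (-Wt z x b) = Real.exp (-(Wt z x b + u)) * Real.exp u := by
        rw [← Real.exp_add]; congr 1; ring
      rw [h3]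
      nlinarith [Real.exp_pos (-(Wt z x b + u))]
    linarith

/-- one more block in front, with the exact weights. -/
theorem SufA.cons' {z x a b : ℕ} {c A : ℝ} (hab : a ≤ b) (hc : 0 ≤ c)
    (hlev : ∀ v, IsPrimePow v → v.minFac ≠ z.minFac → 0 < Sx x v → a < v → v ≤ b →
      KB z x v (c * Real.exp (-Wt z x v) * Real.log ((z : ℝ) * v)))
    (h : SufA z x b A) :
    SufA z x a (c * (Real.exp (-Wt z x a) - Real.exp (-Wt z x b)) + A) := by
  obtain ⟨C, h1, h2, h3⟩ := h
  refine ⟨fun v => if v ≤ b then c * Real.exp (-Wt z x v) else C v, ?_, ?_, ?_⟩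
  · intro v
    simp only
    split_ifs
    · exact mul_nonneg hc (Real.exp_pos _).le
    · exact h1 v
  · intro v hv1 hv2 hv3 hv4
    by_cases hvb : v ≤ b
    · simp only [if_pos hvb]
      exact hlev v hv1 hv2 hv3 hv4 hvb
    · simp only [if_neg hvb]
      exact h2 v hv1 hv2 hv3 (by omega)
  · intro N
    have hnn : ∀ w : ℕ, 0 ≤ Sx x w / (w : ℝ) := fun w => div_nonneg (Sx_nonneg x w) (Nat.cast_nonneg w)
    have hsplit : ∑ v ∈ (ppK N).filter (fun w => w.minFac ≠ z.minFac ∧ a < w),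
        Sx x v / (v : ℝ) * (if v ≤ b then c * Real.exp (-Wt z x v) else C v)
        ≤ ∑ v ∈ (ppK b).filter (fun w => w.minFac ≠ z.minFac ∧ a < w),
          Sx x v / (v : ℝ) * (c * Real.exp (-Wt z x v))
        + ∑ v ∈ (ppK N).filter (fun w => w.minFac ≠ z.minFac ∧ b < w), Sx x v / (v : ℝ) * C v := by
      rw [← Finset.sum_filter_add_sum_filter_not _ (fun w => w ≤ b)]
      apply add_le_add
      · have e : ∑ v ∈ ((ppK N).filter (fun w => w.minFac ≠ z.minFac ∧ a < w)).filter (fun w => w ≤ b),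
            Sx x v / (v : ℝ) * (if v ≤ b then c * Real.exp (-Wt z x v) else C v)
            = ∑ v ∈ ((ppK N).filter (fun w => w.minFac ≠ z.minFac ∧ a < w)).filter (fun w => w ≤ b),
            Sx x v / (v : ℝ) * (c * Real.exp (-Wt z x v)) := by
          apply Finset.sum_congr rfl
          intro v hv
          rw [if_pos (Finset.mem_filter.1 hv).2]
        rw [e]
        apply Finset.sum_le_sum_of_subset_of_nonneg
        · intro v hv
          simp only [Finset.mem_filter, mem_ppK] at hv ⊢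
          exact ⟨⟨hv.1.1.1, hv.2⟩, hv.1.2⟩
        · intro v _ _
          exact mul_nonneg (hnn v) (mul_nonneg hc (Real.exp_pos _).le)
      · have e : ∑ v ∈ ((ppK N).filter (fun w => w.minFac ≠ z.minFac ∧ a < w)).filter
            (fun w => ¬ w ≤ b), Sx x v / (v : ℝ) * (if v ≤ b then c * Real.exp (-Wt z x v) else C v)
            = ∑ v ∈ ((ppK N).filter (fun w => w.minFac ≠ z.minFac ∧ a < w)).filter
            (fun w => ¬ w ≤ b), Sx x v / (v : ℝ) * C v := by
          apply Finset.sum_congr rfl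
          intro v hv
          rw [if_neg (Finset.mem_filter.1 hv).2]
        rw [e]
        apply Finset.sum_le_sum_of_subset_of_nonneg
        · intro v hv
          simp only [Finset.mem_filter] at hv ⊢
          exact ⟨hv.1.1, hv.1.2.1, by omega⟩
        · intro v _ _
          exact mul_nonneg (hnn v) (h1 v)
    refine hsplit.trans (add_le_add ?_ (h3 N))
    have e : ∑ v ∈ (ppK b).filter (fun w => w.minFac ≠ z.minFac ∧ a < w),
          Sx x v / (v : ℝ) * (c * Real.exp (-Wt z x v))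
        = c * ∑ v ∈ (ppK b).filter (fun w => w.minFac ≠ z.minFac ∧ a < w),
          Sx x v / (v : ℝ) * Real.exp (-Wt z x v) := by
      rw [Finset.mul_sum]
      apply Finset.sum_congr rfl
      intro v _
      ring
    rw [e]
    exact mul_le_mul_of_nonneg_left (riemann z x a b hab) hc

section
variable {z x : ℕ} (H : Big z x)
include H

/-- the absolute constant of a large root. -/
theorem Big.absolute {C0 C1 C2 ρ0 ρ1 ρ2 F : ℝ} (h0 : 1 / 6 ≤ C0) (h0' : C0 ≤ 0.21)
    (h1 : 1 / 6 ≤ C1) (h1' : C1 ≤ 0.4) (h2 : 1 / 6 ≤ C2) (h2' : C2 ≤ 0.4)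
    (hR : 0.89589 * (1 - C0) + 0.5159 ≤ C0 * Real.log z) (hR' : 1.17 ≤ C0 * Real.log z)
    (hR1 : 0.46206 ≤ (1.25 * C1 - 0.25) * Real.log z)
    (hR2 : 0.45028 ≤ (1.5 * C2 - 0.5) * Real.log z)
    (e0 : Real.exp (C0 - 1 / 12) ≤ ρ0) (e1 : Real.exp (C1 - 1 / 12) ≤ ρ1)
    (e2 : Real.exp (C2 - 1 / 12) ≤ ρ2) (m1 : ρ0 ≤ ρ1) (m2 : ρ1 ≤ ρ2)
    (hL7 : 7 ≤ Real.log z)
    (hF : ∑ i, qU i * (Real.log z / Real.log (((x / dU i : ℕ) : ℝ) + 1)) ≤ F) :
    ABSB z x (0.5833 * (ρ0 * F + (ρ1 - ρ0) + (ρ2 - ρ1) * (2 / 3)) - 0.2676 * ρ2 + 0.42114) := by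
  have hL := H.L
  have hzr := H.zr
  have hx := H.x42
  have h4 := H.h400
  obtain ⟨x1, x2, x3, x4, x5⟩ := H.X2
  set X := Nat.sqrt (z ^ 3) with hX
  set L := Real.log (z : ℝ) with hLdef
  set g := Real.exp (0.4575 - Mz z x (z ^ 4)) with hg
  have hg0 : 0 < g := Real.exp_pos _
  have hρ0 : 0 < ρ0 := lt_of_lt_of_le (Real.exp_pos _) e0
  have hρ1 : 0 < ρ1 := lt_of_lt_of_le (Real.exp_pos _) e1
  have hρ2 : 0 < ρ2 := lt_of_lt_of_le (Real.exp_pos _) e2
  have hL0 : 0 < L := by linarith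
  have hx1 : (7999 : ℝ) < X := by exact_mod_cast x5
  have hz2 : z ^ 2 < z ^ 4 := Nat.pow_lt_pow_right (by omega) (by norm_num)
  have hz2r : (z : ℝ) ≤ (z : ℝ) ^ 2 := by nlinarith
  have hz16 : 160000 ≤ z ^ 2 := by
    calc 160000 = 400 ^ 2 := by norm_num
      _ ≤ z ^ 2 := Nat.pow_le_pow_left h4 2
  have hz16r : (160000 : ℝ) ≤ (z : ℝ) ^ 2 := by exact_mod_cast hz16
  -- conversion of the constants
  have conv : ∀ (v : ℕ) (ε ρ : ℝ), IsPrimePow v → Real.exp ε ≤ ρ →
      KB z x v (Real.log ((z : ℝ) * v) * Real.exp (0.4575 - Mz z x (z ^ 4) - Wt z x v + ε)) →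
      KB z x v (g * ρ * Real.exp (-Wt z x v) * Real.log ((z : ℝ) * v)) := by
    intro v ε ρ hv he h
    refine h.mono H.hz hv ?_
    have hv1 : (1 : ℝ) < v := by exact_mod_cast hv.one_lt
    have hlog : 0 < Real.log ((z : ℝ) * v) := Real.log_pos (by nlinarith)
    have e : Real.exp (0.4575 - Mz z x (z ^ 4) - Wt z x v + ε)
        = g * Real.exp ε * Real.exp (-Wt z x v) := by
      rw [hg, ← Real.exp_add, ← Real.exp_add]; congr 1; ring
    rw [e, mul_comm (Real.log ((z : ℝ) * v))]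
    apply mul_le_mul_of_nonneg_right _ hlog.le
    apply mul_le_mul_of_nonneg_right _ (Real.exp_pos _).le
    exact mul_le_mul_of_nonneg_left he hg0.le
  have lev0 : ∀ v, IsPrimePow v → v.minFac ≠ z.minFac → 0 < Sx x v → 0 < v → v ≤ 6 * z →
      KB z x v (g * ρ0 * Real.exp (-Wt z x v) * Real.log ((z : ℝ) * v)) :=
    fun v hv hvz hs _ hv6 => conv v _ _ hv e0 (H.block0 h0 h0' hR hR' hv hvz hs hv6)
  have lev1 : ∀ v, IsPrimePow v → v.minFac ≠ z.minFac → 0 < Sx x v → 6 * z < v → v ≤ X →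
      KB z x v (g * ρ1 * Real.exp (-Wt z x v) * Real.log ((z : ℝ) * v)) := by
    intro v hv hvz hs hv6 hvX
    have hv6r : (6 : ℝ) * z < v := by exact_mod_cast hv6
    have hv0 : (2400 : ℝ) ≤ v := by linarith
    have hT : Real.log v ≤ 1.5 * L := by
      have h5 : v * v ≤ z ^ 3 := Nat.le_sqrt.1 hvX
      have h6 : (v : ℝ) ^ 2 ≤ (z : ℝ) ^ 3 := by
        rw [pow_two]; exact_mod_cast h5
      have h7 := Real.log_le_log (by positivity) h6
      rw [Real.log_pow, Real.log_pow] at h7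
      push_cast at h7
      linarith
    refine conv v _ _ hv e1 (H.block_large (T := 1.5 * L) (δ := 0.00707) h1 h1' hv hvz hv6
      hT ((tl_anti (by norm_num) hv0).trans tl_2400) (by norm_num) ?_)
    rw [← hLdef]
    linarith
  have lev2 : ∀ v, IsPrimePow v → v.minFac ≠ z.minFac → 0 < Sx x v → X < v → v ≤ z ^ 2 →
      KB z x v (g * ρ2 * Real.exp (-Wt z x v) * Real.log ((z : ℝ) * v)) := by
    intro v hv hvz hs hvX hv2
    have hv0 : (8000 : ℝ) ≤ v := by exact_mod_cast (by omega : 8000 ≤ v)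
    have hT : Real.log v ≤ 2 * L := by
      have h6 : (v : ℝ) ≤ (z : ℝ) ^ 2 := by exact_mod_cast hv2
      have h7 := Real.log_le_log (by positivity) h6
      rw [Real.log_pow] at h7
      push_cast at h7
      linarith
    refine conv v _ _ hv e2 (H.block_large (T := 2 * L) (δ := 0.00243) h2 h2' hv hvz
      (by omega) hT ((tl_anti (by norm_num) hv0).trans tl_8000) (by norm_num) ?_)
    rw [← hLdef]
    linarith
  -- far part
  have hz2L : Real.log ((z ^ 2 : ℕ) : ℝ) = 2 * L := by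
    push_cast
    rw [Real.log_pow]; push_cast; rfl
  have S3 : SufA z x (z ^ 2) (1.01203 * (1 / L * Real.log 1.5 + 0.4443 / (2 * L * (3 * L)))) := by
    refine SufA.last (by norm_num) ?_ (by omega) ?_
    · intro v hv hvz hs hv2
      have hvr : (160000 : ℝ) < v := by exact_mod_cast (by omega : 160000 < v)
      have hω : 2 / (v : ℝ) ≤ 0.0000125 := by
        rw [div_le_iff₀ (by linarith)]; linarith
      have hω0 : 0 ≤ 2 / (v : ℝ) := by positivity
      have he2 : Real.exp (2 / (v : ℝ)) ≤ 1.00002 := by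
        have h1 : Real.exp (2 / (v : ℝ)) ≤ Real.exp 0.0000125 := Real.exp_le_exp.2 hω
        have h2 := Real.abs_exp_sub_one_sub_id_le (x := (0.0000125 : ℝ)) (by norm_num [abs_of_pos])
        rw [abs_le] at h2
        have h3 := h2.2
        norm_num at h3
        have h4 : Real.exp 0.0000125 ≤ 1.00002 := by
          have e : (0.0000125 : ℝ) = 1 / 80000 := by norm_num
          rw [e]
          linarith
        linarith
      have hKB : KB z x v (1.012 * Real.exp (2 / (v : ℝ))) := by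
        refine FBK_restr z x v (2 / (v : ℝ)) H.hz hv (by omega) hv2.le hω0 (by linarith) ?_
        intro VS hVS r
        exact tail_one x v (by omega) VS (fun w hw => ⟨(hVS w hw).1, (hVS w hw).2.1⟩) r
      exact hKB.mono H.hz hv (by linarith)
    · intro N
      refine (FS_proof z (z ^ 2) N (by omega) (by omega)).trans ?_
      rw [hz2L, ← hLdef]
      have e1 : 1 + L / (2 * L) = 1.5 := by field_simp; norm_num
      have e2 : Real.log ((z : ℝ) * ((z ^ 2 : ℕ) : ℝ)) = 3 * L := by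
        push_cast
        rw [Real.log_mul (by linarith) (by positivity), Real.log_pow, ← hLdef]
        push_cast; ring
      rw [e1, e2]
  have hexpmono : ∀ {a b : ℕ}, a ≤ b → 0 ≤ Real.exp (-Wt z x a) - Real.exp (-Wt z x b) := by
    intro a b hab
    have h6 : Wt z x a ≤ Wt z x b := by
      unfold Wt
      apply Finset.sum_le_sum_of_subset_of_nonneg
      · intro w hw
        simp only [Finset.mem_filter, mem_ppK] at hw ⊢
        exact ⟨⟨hw.1.1, hw.1.2.trans hab⟩, hw.2⟩
      · intro w _ _; exact Sx_div_nonneg x w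
    have := Real.exp_le_exp.2 (neg_le_neg h6)
    linarith
  have S2 := SufA.cons' (z := z) (x := x) (a := X) (b := z ^ 2) x2.le
    (mul_nonneg hg0.le hρ2.le) lev2 S3
  have S1 := SufA.cons' (z := z) (x := x) (a := 6 * z) (b := X) x1.le
    (mul_nonneg hg0.le hρ1.le) lev1 S2
  have S0 := SufA.cons' (z := z) (x := x) (a := 0) (b := 6 * z) (Nat.zero_le _)
    (mul_nonneg hg0.le hρ0.le) lev0 S1
  have hABS := S0.final H.hz
  rw [← hLdef] at hABS
  -- numbers
  set E1 := Real.exp (-Wt z x (6 * z)) with hE1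
  set E2 := Real.exp (-Wt z x X) with hE2
  set E3 := Real.exp (-Wt z x (z ^ 2)) with hE3
  have hz6 := H.z4
  have g1 : g * E1 ≤ 0.5833 / (1 * L) := by
    refine H.gE (6 * z) hz6 (by omega) 1 one_pos ?_
    rw [one_mul, ← hLdef]
    apply Real.log_le_log (by linarith)
    push_cast; linarith
  have g2 : g * E2 ≤ 0.5833 / (1.5 * L) := by
    refine H.gE X (by omega) (by omega) 1.5 (by norm_num) ?_
    rw [← hLdef]; linarith
  have k1 : L * (g * E1) ≤ 0.5833 := by
    have := mul_le_mul_of_nonneg_left g1 hL0.le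
    have e : L * (0.5833 / (1 * L)) = 0.5833 := by field_simp
    linarith
  have k2 : L * (g * E2) ≤ 0.5833 * (2 / 3) := by
    have := mul_le_mul_of_nonneg_left g2 hL0.le
    have e : L * (0.5833 / (1.5 * L)) = 0.5833 * (2 / 3) := by field_simp; norm_num
    linarith
  have k3 : 0.2676 ≤ L * (g * E3) := by
    have h5 := Mz_Wt_le z x (z ^ 4) (z ^ 2) hx (H.six.trans (by
      rw [pow_two]; exact Nat.mul_le_mul_right _ (by omega)))
    have h6 := exp_Hpp_ge (z ^ 2) (by omega)
    rw [hz2L] at h6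
    have h7 : 2 / ((z ^ 2 : ℕ) : ℝ) ≤ 0.0000125 := by
      push_cast
      rw [div_le_iff₀ (by positivity)]; linarith
    have h8 : g * E3 = Real.exp (0.4575 - Mz z x (z ^ 4) - Wt z x (z ^ 2)) := by
      rw [hg, hE3, ← Real.exp_add]; congr 1
    have h9 : Real.exp (-(Hpp (z ^ 2) - 0.4575) - 0.0000125) ≤ g * E3 := by
      rw [h8]
      apply Real.exp_le_exp.2
      linarith
    have h10 : (1 - 0.0000125) * (1 / (1.868 * (2 * L)))
        ≤ Real.exp (-(Hpp (z ^ 2) - 0.4575) - 0.0000125) := by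
      rw [sub_eq_add_neg (-(Hpp (z ^ 2) - 0.4575)), Real.exp_add, mul_comm]
      apply mul_le_mul
      · rw [Real.exp_neg, one_div]
        exact inv_anti₀ (Real.exp_pos _) h6
      · exact Real.one_sub_le_exp_neg _
      · norm_num
      · exact (Real.exp_pos _).le
    have h11 := mul_le_mul_of_nonneg_left (h10.trans h9) hL0.le
    have e : L * ((1 - 0.0000125) * (1 / (1.868 * (2 * L)))) = (1 - 0.0000125) / 3.736 := by
      field_simp
      norm_num
    rw [e] at h11
    refine le_trans (by norm_num) h11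
  have kb := H.base F hF
  rw [← hLdef, ← hg] at kb
  have d1 : 0 ≤ ρ1 - ρ0 := by linarith
  have d2 : 0 ≤ ρ2 - ρ1 := by linarith
  have q0 : ρ0 * (L * g) ≤ ρ0 * (0.5833 * F) := mul_le_mul_of_nonneg_left kb hρ0.le
  have q1 : (ρ1 - ρ0) * (L * (g * E1)) ≤ (ρ1 - ρ0) * 0.5833 := mul_le_mul_of_nonneg_left k1 d1
  have q2 : (ρ2 - ρ1) * (L * (g * E2)) ≤ (ρ2 - ρ1) * (0.5833 * (2 / 3)) :=
    mul_le_mul_of_nonneg_left k2 d2
  have q3 : ρ2 * 0.2676 ≤ ρ2 * (L * (g * E3)) := mul_le_mul_of_nonneg_left k3 hρ2.le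
  have hlog15 : Real.log 1.5 ≤ 0.405466 := by
    have h5 := Real.log_two_gt_d9
    have h6 := Real.log_three_lt_d9
    have e : Real.log 1.5 = Real.log 3 - Real.log 2 := by
      rw [← Real.log_div (by norm_num) (by norm_num)]; norm_num
    rw [e]; linarith
  have q4 : L * (1.01203 * (1 / L * Real.log 1.5 + 0.4443 / (2 * L * (3 * L)))) ≤ 0.42114 := by
    have e : L * (1.01203 * (1 / L * Real.log 1.5 + 0.4443 / (2 * L * (3 * L))))
        = 1.01203 * Real.log 1.5 + 1.01203 * 0.4443 / 6 / L := by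
      field_simp
      ring
    rw [e]
    have h5 : 1.01203 * 0.4443 / 6 / L ≤ 1.01203 * 0.4443 / 6 / 7 :=
      div_le_div_of_nonneg_left (by norm_num) (by norm_num) hL7
    have h6 : (1.01203 : ℝ) * 0.4443 / 6 / 7 ≤ 0.010706 := by norm_num
    linarith
  intro M hM
  refine (hABS M hM).trans ?_
  apply mul_le_mul_of_nonneg_right
  · rw [Wt_zero, neg_zero, Real.exp_zero]
    have e : L * (g * ρ0 * (1 - E1) + (g * ρ1 * (E1 - E2) + (g * ρ2 * (E2 - E3)
        + 1.01203 * (1 / L * Real.log 1.5 + 0.4443 / (2 * L * (3 * L))))))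
        = ρ0 * (L * g) + (ρ1 - ρ0) * (L * (g * E1)) + (ρ2 - ρ1) * (L * (g * E2))
          - ρ2 * (L * (g * E3))
          + L * (1.01203 * (1 / L * Real.log 1.5 + 0.4443 / (2 * L * (3 * L)))) := by ring
    rw [e]
    linarith
  · unfold hh
    have := (z_facts H.hz).1
    positivity

end

end Pool.Agent.EZ
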